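import Mathlib

/-!
# The arithmetic lemma behind all 'two identities'
-/

namespace Pool.Agent.K4L

/-- the constant of `BL` -/
def blC (a1 b1 c1 d1 a0 b0 c0 d0 : ℤ) : ℤ :=
  (|a0| * ((1 + |b1|) * (1 + |c1|)) + |a1| * |b0| * (1 + |c1|) + |a1| * |c0| * (1 + |b1|) +
    |a1| * |a1| * |d0|) * (|a1| + |b1 * c1 - a1 * d1|)

/-- BL: a bilinear equation with a large parameter splits into two equations -/
theorem bl (a1 b1 c1 d1 a0 b0 c0 d0 : ℤ) (ha : a1 ≠ 0) (G j k : ℤ)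
    (hG : blC a1 b1 c1 d1 a0 b0 c0 d0 < |G|) (hu : a1 * k + b1 ≠ 0) (hv : a1 * j + c1 ≠ 0)
    (h : (a1 * j * k + b1 * j + c1 * k + d1) * G + (a0 * j * k + b0 * j + c0 * k + d0) = 0) :
    a1 * j * k + b1 * j + c1 * k + d1 = 0 ∧ a0 * j * k + b0 * j + c0 * k + d0 = 0 := by
  obtain ⟨u, hu'⟩ : ∃ u, u = a1 * k + b1 := ⟨_, rfl⟩
  obtain ⟨v, hv'⟩ : ∃ v, v = a1 * j + c1 := ⟨_, rfl⟩
  obtain ⟨F1, hF1⟩ : ∃ F, F = a1 * j * k + b1 * j + c1 * k + d1 := ⟨_, rfl⟩
  obtain ⟨F0, hF0⟩ : ∃ F, F = a0 * j * k + b0 * j + c0 * k + d0 := ⟨_, rfl⟩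
  rw [← hu'] at hu
  rw [← hv'] at hv
  rw [← hF1, ← hF0] at h ⊢
  have hu1 : 1 ≤ |u| := Int.one_le_abs hu
  have hv1 : 1 ≤ |v| := Int.one_le_abs hv
  have e1 : a1 * F1 = u * v - (b1 * c1 - a1 * d1) := by
    rw [hu', hv', hF1]; ring
  have e0 : a1 * a1 * F0 = a0 * ((u - b1) * (v - c1)) + a1 * b0 * (v - c1) +
      a1 * c0 * (u - b1) + a1 * a1 * d0 := by
    rw [hu', hv', hF0]; ring
  by_cases hF : F1 = 0
  · refine ⟨hF, ?_⟩
    rw [hF, zero_mul, zero_add] at h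
    exact h
  exfalso
  have hF' : 1 ≤ |F1| := Int.one_le_abs hF
  have huv : 1 ≤ |u| * |v| := by nlinarith
  -- bound of `F0`
  have b1' : |u - b1| ≤ |u| * (1 + |b1|) := by
    have h1 : |u - b1| ≤ |u| + |b1| := abs_sub _ _
    have h2 : 0 ≤ |b1| := abs_nonneg _
    nlinarith
  have c1' : |v - c1| ≤ |v| * (1 + |c1|) := by
    have h1 : |v - c1| ≤ |v| + |c1| := abs_sub _ _
    have h2 : 0 ≤ |c1| := abs_nonneg _
    nlinarith
  obtain ⟨C, hC⟩ : ∃ C, C = |a0| * ((1 + |b1|) * (1 + |c1|)) + |a1| * |b0| * (1 + |c1|) +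
      |a1| * |c0| * (1 + |b1|) + |a1| * |a1| * |d0| := ⟨_, rfl⟩
  have hC0 : 0 ≤ C := by rw [hC]; positivity
  have hb : |a1 * a1 * F0| ≤ C * (|u| * |v|) := by
    rw [e0]
    have t1 : |a0 * ((u - b1) * (v - c1))| ≤ |a0| * ((1 + |b1|) * (1 + |c1|)) * (|u| * |v|) := by
      rw [abs_mul, abs_mul]
      have : |u - b1| * |v - c1| ≤ (|u| * (1 + |b1|)) * (|v| * (1 + |c1|)) :=
        mul_le_mul b1' c1' (abs_nonneg _) (by positivity)
      have h3 := mul_le_mul_of_nonneg_left this (abs_nonneg a0)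
      calc |a0| * (|u - b1| * |v - c1|) ≤ |a0| * ((|u| * (1 + |b1|)) * (|v| * (1 + |c1|))) := h3
        _ = _ := by ring
    have t2 : |a1 * b0 * (v - c1)| ≤ |a1| * |b0| * (1 + |c1|) * (|u| * |v|) := by
      rw [abs_mul, abs_mul]
      have h3 := mul_le_mul_of_nonneg_left c1' (show 0 ≤ |a1| * |b0| by positivity)
      have h4 : |a1| * |b0| * (|v| * (1 + |c1|)) ≤
          |a1| * |b0| * (|v| * (1 + |c1|)) * |u| :=
        le_mul_of_one_le_right (by positivity) hu1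
      calc _ ≤ _ := h3
        _ ≤ _ := h4
        _ = _ := by ring
    have t3 : |a1 * c0 * (u - b1)| ≤ |a1| * |c0| * (1 + |b1|) * (|u| * |v|) := by
      rw [abs_mul, abs_mul]
      have h3 := mul_le_mul_of_nonneg_left b1' (show 0 ≤ |a1| * |c0| by positivity)
      have h4 : |a1| * |c0| * (|u| * (1 + |b1|)) ≤
          |a1| * |c0| * (|u| * (1 + |b1|)) * |v| :=
        le_mul_of_one_le_right (by positivity) hv1
      calc _ ≤ _ := h3
        _ ≤ _ := h4
        _ = _ := by ring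
    have t4 : |a1 * a1 * d0| ≤ |a1| * |a1| * |d0| * (|u| * |v|) := by
      rw [abs_mul, abs_mul]
      exact le_mul_of_one_le_right (by positivity) huv
    have s1 := abs_add_le (a0 * ((u - b1) * (v - c1)) + a1 * b0 * (v - c1) +
      a1 * c0 * (u - b1)) (a1 * a1 * d0)
    have s2 := abs_add_le (a0 * ((u - b1) * (v - c1)) + a1 * b0 * (v - c1))
      (a1 * c0 * (u - b1))
    have s3 := abs_add_le (a0 * ((u - b1) * (v - c1))) (a1 * b0 * (v - c1))
    rw [hC]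
    linarith
  -- bound of `u v`
  have huv2 : |u| * |v| ≤ (|a1| + |b1 * c1 - a1 * d1|) * |F1| := by
    have h1 : u * v = a1 * F1 + (b1 * c1 - a1 * d1) := by linarith
    have h2 : |u| * |v| ≤ |a1 * F1| + |b1 * c1 - a1 * d1| := by
      rw [← abs_mul, h1]; exact abs_add_le _ _
    rw [abs_mul] at h2
    have h3 : |b1 * c1 - a1 * d1| ≤ |b1 * c1 - a1 * d1| * |F1| :=
      le_mul_of_one_le_right (abs_nonneg _) hF'
    linarith
  have e2 : |a1 * a1 * F0| = |a1| * |a1| * (|F1| * |G|) := by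
    have : F0 = -(F1 * G) := by linarith
    rw [this, abs_mul, abs_mul, abs_neg, abs_mul]
  have e3 : |a1| * |a1| * (|F1| * |G|) ≤ C * (|a1| + |b1 * c1 - a1 * d1|) * |F1| := by
    rw [← e2]
    have h1 := mul_le_mul_of_nonneg_left huv2 hC0
    calc _ ≤ C * (|u| * |v|) := hb
      _ ≤ _ := h1
      _ = _ := by ring
  have ha1 : 1 ≤ |a1| := Int.one_le_abs ha
  have e4 : |F1| * |G| ≤ |a1| * |a1| * (|F1| * |G|) := by
    have : 1 ≤ |a1| * |a1| := by nlinarith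
    exact le_mul_of_one_le_left (by positivity) this
  have hG' : C * (|a1| + |b1 * c1 - a1 * d1|) < |G| := by
    rw [hC]; exact hG
  have e5 : C * (|a1| + |b1 * c1 - a1 * d1|) * |F1| < |G| * |F1| :=
    mul_lt_mul_of_pos_right hG' (by linarith)
  have e6 : |F1| * |G| = |G| * |F1| := mul_comm _ _
  linarith

/-- a linear equation with a large parameter -/
theorem lin_large {G x y : ℤ} (hG : |y| < |G|) (h : x * G + y = 0) : x = 0 ∧ y = 0 := by
  have hx : x = 0 := by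
    by_contra hx
    have h1 : 1 ≤ |x| := Int.one_le_abs hx
    have h2 : |y| = |x| * |G| := by
      have : y = -(x * G) := by linarith
      rw [this, abs_neg, abs_mul]
    have h3 : |G| ≤ |x| * |G| := le_mul_of_one_le_left (abs_nonneg _) h1
    linarith
  refine ⟨hx, ?_⟩
  rw [hx, zero_mul, zero_add] at h
  exact h

end Pool.Agent.K4L
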