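import Mathlib

/-!
# Kaplansky's 4-in-a-line: base layer

Part 1: the exact definitions of the game (used by the final statement).
Part 2: the inductive predicate `Win R B` (First to move wins from the position with red
stones `R` and blue stones `B`) and the theorem `firstHas_of_win`.
Part 3: tempo lemmas.
-/

namespace Pool.Agent.K4L

/-! ## Part 1: the game -/

/-- the lattice point `z` lies on the line `a x + b y = c` of the real plane -/
def OnLine (a b c : ℝ) (z : ℤ × ℤ) : Prop := a * (z.1 : ℝ) + b * (z.2 : ℝ) = c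

/-- some straight line of the real plane contains at least `n` points of `A`
and no point of `B` -/
def HasLine (n : ℕ) (A B : Set (ℤ × ℤ)) : Prop :=
  ∃ a b c : ℝ, (a ≠ 0 ∨ b ≠ 0) ∧ (∀ z ∈ B, ¬ OnLine a b c z) ∧
    ∃ S : Finset (ℤ × ℤ), S.card = n ∧ ∀ z ∈ S, z ∈ A ∧ OnLine a b c z

/-- the stones of First after the first `k` moves of the play `m`
(First makes the moves number 0, 2, 4, ...) -/
def redStones (m : ℕ → ℤ × ℤ) (k : ℕ) : Set (ℤ × ℤ) := {z | ∃ j, j < k ∧ j % 2 = 0 ∧ m j = z}

/-- the stones of Second after the first `k` moves of the play `m`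
(Second makes the moves number 1, 3, 5, ...) -/
def blueStones (m : ℕ → ℤ × ℤ) (k : ℕ) : Set (ℤ × ℤ) := {z | ∃ j, j < k ∧ j % 2 = 1 ∧ m j = z}

/-- First wins the play `m` of `n`-in-a-line: after some number `k` of moves there is a line with
at least `n` points of First and none of Second, and at no earlier stage there was a winning line
of either player -/
def FirstWinsPlay (n : ℕ) (m : ℕ → ℤ × ℤ) : Prop :=
  ∃ k, HasLine n (redStones m k) (blueStones m k) ∧
    ∀ j < k, ¬ HasLine n (redStones m j) (blueStones m j) ∧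
      ¬ HasLine n (blueStones m j) (redStones m j)

/-- Second wins the play `m` of `n`-in-a-line -/
def SecondWinsPlay (n : ℕ) (m : ℕ → ℤ × ℤ) : Prop :=
  ∃ k, HasLine n (blueStones m k) (redStones m k) ∧
    ∀ j < k, ¬ HasLine n (redStones m j) (blueStones m j) ∧
      ¬ HasLine n (blueStones m j) (redStones m j)

/-- a strategy: a rule giving the next move as a function of the finite history (the list of the
moves made so far, in order), which always chooses a point not chosen before -/
def IsStrategy (s : List (ℤ × ℤ) → ℤ × ℤ) : Prop := ∀ h, s h ∉ h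

/-- First has a winning strategy in `n`-in-a-line -/
def FirstHasWinningStrategy (n : ℕ) : Prop :=
  ∃ s : List (ℤ × ℤ) → ℤ × ℤ, IsStrategy s ∧
    ∀ m : ℕ → ℤ × ℤ, Function.Injective m →
      (∀ k, m (2 * k) = s ((List.range (2 * k)).map m)) → FirstWinsPlay n m

/-- Second has a winning strategy in `n`-in-a-line -/
def SecondHasWinningStrategy (n : ℕ) : Prop :=
  ∃ s : List (ℤ × ℤ) → ℤ × ℤ, IsStrategy s ∧
    ∀ m : ℕ → ℤ × ℤ, Function.Injective m →
      (∀ k, m (2 * k + 1) = s ((List.range (2 * k + 1)).map m)) → SecondWinsPlay n m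

/-- `n`-in-a-line is a draw game: neither player has a winning strategy -/
def IsDrawGame (n : ℕ) : Prop :=
  ¬ FirstHasWinningStrategy n ∧ ¬ SecondHasWinningStrategy n

/-! ## Part 2: positions -/

/-- a point of the board -/
abbrev Pt := ℤ × ℤ

/-- three points of the board are collinear -/
def Col (x y z : Pt) : Prop := (y.1 - x.1) * (z.2 - x.2) = (y.2 - x.2) * (z.1 - x.1)

instance (x y z : Pt) : Decidable (Col x y z) := by unfold Col; infer_instance

/-- four points of `A` on a line without points of `B` -/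
def Four (A B : Finset Pt) : Prop :=
  ∃ u ∈ A, ∃ v ∈ A, ∃ w ∈ A, ∃ t ∈ A, u ≠ v ∧ u ≠ w ∧ u ≠ t ∧ v ≠ w ∧ v ≠ t ∧ w ≠ t ∧
    Col u v w ∧ Col u v t ∧ ∀ z ∈ B, ¬ Col u v z

/-- First (red, to move) wins from the position with red stones `R`, blue stones `B` -/
inductive Win : Finset Pt → Finset Pt → Prop
  | now (R B : Finset Pt) (x : Pt) : x ∉ R → x ∉ B → Four (insert x R) B → Win R B
  | step (R B : Finset Pt) (x : Pt) : x ∉ R → x ∉ B →
      (∀ y, y ∉ insert x R → y ∉ B → ¬ Four (insert y B) (insert x R)) →
      (∀ y, y ∉ insert x R → y ∉ B → Win (insert x R) (insert y B)) → Win R B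

/-! ### elementary facts on `Col` -/

theorem Col.refl_left (x y : Pt) : Col x y x := by unfold Col; ring
theorem Col.refl_right (x y : Pt) : Col x y y := by unfold Col; ring
theorem Col.refl_eq (x z : Pt) : Col x x z := by unfold Col; ring

theorem Col.swap12 {x y z : Pt} (h : Col x y z) : Col y x z := by
  unfold Col at *; linear_combination -h

theorem Col.swap23 {x y z : Pt} (h : Col x y z) : Col x z y := by
  unfold Col at *; linear_combination -h

theorem Col.rot {x y z : Pt} (h : Col x y z) : Col y z x := by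
  unfold Col at *; linear_combination h

theorem col_comm12 {x y z : Pt} : Col x y z ↔ Col y x z := ⟨Col.swap12, Col.swap12⟩
theorem col_comm23 {x y z : Pt} : Col x y z ↔ Col x z y := ⟨Col.swap23, Col.swap23⟩
theorem col_rot {x y z : Pt} : Col x y z ↔ Col y z x := ⟨Col.rot, fun h => h.rot.rot⟩

theorem sub_ne_of_ne {x y : Pt} (hxy : x ≠ y) : y.1 - x.1 ≠ 0 ∨ y.2 - x.2 ≠ 0 := by
  by_contra hc
  apply hxy
  have h1 : y.1 - x.1 = 0 := by
    by_contra h; exact hc (Or.inl h)
  have h2 : y.2 - x.2 = 0 := by
    by_contra h; exact hc (Or.inr h)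
  exact Prod.ext (by linarith) (by linarith)

/-- the key transitivity: two different points determine the line -/
theorem Col.trans {x y z w : Pt} (hxy : x ≠ y) (h1 : Col x y z) (h2 : Col x y w) : Col x z w := by
  unfold Col at *
  rcases sub_ne_of_ne hxy with h | h
  · apply mul_left_cancel₀ h
    linear_combination (z.1 - x.1) * h2 - (w.1 - x.1) * h1
  · apply mul_left_cancel₀ h
    linear_combination (z.2 - x.2) * h2 - (w.2 - x.2) * h1

/-- three points of the line through two different points are collinear -/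
theorem Col.three {x y u v w : Pt} (hxy : x ≠ y) (hu : Col x y u) (hv : Col x y v)
    (hw : Col x y w) : Col u v w := by
  by_cases hux : u = x
  · subst hux; exact Col.trans hxy hv hw
  · have h1 : Col x u v := Col.trans hxy hu hv
    have h2 : Col x u w := Col.trans hxy hu hw
    have h3 : Col u x v := h1.swap12
    have h4 : Col u x w := h2.swap12
    exact Col.trans hux h3 h4

/-- the line through `x, y` and the line through two different points `u, v` of it coincide -/
theorem Col.line_iff {x y u v z : Pt} (hxy : x ≠ y) (huv : u ≠ v) (hu : Col x y u)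
    (hv : Col x y v) : Col x y z ↔ Col u v z := by
  constructor
  · intro hz; exact Col.three hxy hu hv hz
  · intro hz
    have hx : Col u v x := Col.three hxy hu hv (Col.refl_left x y)
    have hy : Col u v y := Col.three hxy hu hv (Col.refl_right x y)
    exact Col.three huv hx hy hz

/-- two lines with two different common points coincide -/
theorem Col.line_eq_of_two {x y u v p q z : Pt} (hxy : x ≠ y) (huv : u ≠ v) (hpq : p ≠ q)
    (h1 : Col x y p) (h2 : Col x y q) (h3 : Col u v p) (h4 : Col u v q) :
    Col x y z ↔ Col u v z :=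
  (Col.line_iff hxy hpq h1 h2).trans (Col.line_iff huv hpq h3 h4).symm

/-- the point `x + t (y - x)` -/
def pt (x y : Pt) (t : ℤ) : Pt := (x.1 + t * (y.1 - x.1), x.2 + t * (y.2 - x.2))

theorem col_pt (x y : Pt) (t : ℤ) : Col x y (pt x y t) := by
  unfold Col pt; ring

theorem pt_injective {x y : Pt} (hxy : x ≠ y) : Function.Injective (pt x y) := by
  intro s t h
  have h1 := congrArg Prod.fst h
  have h2 := congrArg Prod.snd h
  simp only [pt] at h1 h2
  rcases sub_ne_of_ne hxy with h' | h'
  · exact mul_right_cancel₀ h' (by linarith)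
  · exact mul_right_cancel₀ h' (by linarith)

/-- there is a free point on every line -/
theorem exists_free_on_line {x y : Pt} (hxy : x ≠ y) (F : Finset Pt) :
    ∃ z, Col x y z ∧ z ∉ F := by
  have h : (Set.range (pt x y)).Infinite := Set.infinite_range_of_injective (pt_injective hxy)
  obtain ⟨z, ⟨t, rfl⟩, hz⟩ := h.exists_notMem_finset F
  exact ⟨_, col_pt x y t, hz⟩

theorem exists_free (F : Finset Pt) : ∃ z : Pt, z ∉ F := by
  obtain ⟨z, _, hz⟩ := exists_free_on_line (x := ((0 : ℤ), (0 : ℤ))) (y := (1, 0)) (by decide) F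
  exact ⟨z, hz⟩

/-! ### `HasLine 4` and `Four` -/

theorem onLine_iff_col {a b c : ℝ} (hab : a ≠ 0 ∨ b ≠ 0) {u v z : Pt} (huv : u ≠ v)
    (hu : OnLine a b c u) (hv : OnLine a b c v) : OnLine a b c z ↔ Col u v z := by
  unfold OnLine Col at *
  have e1 : a * ((v.1 : ℝ) - u.1) + b * ((v.2 : ℝ) - u.2) = 0 := by linarith
  constructor
  · intro hz
    have e2 : a * ((z.1 : ℝ) - u.1) + b * ((z.2 : ℝ) - u.2) = 0 := by linarith
    have key : ((v.1 : ℝ) - u.1) * ((z.2 : ℝ) - u.2) = ((v.2 : ℝ) - u.2) * ((z.1 : ℝ) - u.1) := by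
      rcases hab with h | h
      · apply mul_left_cancel₀ h
        linear_combination ((z.2 : ℝ) - u.2) * e1 - ((v.2 : ℝ) - u.2) * e2
      · apply mul_left_cancel₀ h
        linear_combination ((v.1 : ℝ) - u.1) * e2 - ((z.1 : ℝ) - u.1) * e1
    exact_mod_cast key
  · intro hz
    have key : ((v.1 : ℝ) - u.1) * ((z.2 : ℝ) - u.2) = ((v.2 : ℝ) - u.2) * ((z.1 : ℝ) - u.1) := by
      exact_mod_cast hz
    have e2 : a * ((z.1 : ℝ) - u.1) + b * ((z.2 : ℝ) - u.2) = 0 := by
      rcases sub_ne_of_ne huv with h | h
      · have h' : ((v.1 : ℝ) - u.1) ≠ 0 := by exact_mod_cast h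
        apply mul_left_cancel₀ h'
        linear_combination ((z.1 : ℝ) - u.1) * e1 + b * key
      · have h' : ((v.2 : ℝ) - u.2) ≠ 0 := by exact_mod_cast h
        apply mul_left_cancel₀ h'
        linear_combination ((z.2 : ℝ) - u.2) * e1 - a * key
    linarith

/-- the line through two different points as a real line -/
theorem exists_realLine {u v : Pt} (huv : u ≠ v) :
    ∃ a b c : ℝ, (a ≠ 0 ∨ b ≠ 0) ∧ ∀ z, OnLine a b c z ↔ Col u v z := by
  refine ⟨(v.2 : ℝ) - u.2, (u.1 : ℝ) - v.1, ((v.2 : ℝ) - u.2) * u.1 + ((u.1 : ℝ) - v.1) * u.2,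
    ?_, ?_⟩
  · rcases sub_ne_of_ne huv with h | h
    · right
      intro h0
      apply h
      have : (u.1 : ℝ) = v.1 := by linarith
      have h2 : u.1 = v.1 := by exact_mod_cast this
      omega
    · left
      intro h0
      apply h
      have : (v.2 : ℝ) = u.2 := by linarith
      have h2 : v.2 = u.2 := by exact_mod_cast this
      omega
  · intro z
    have hab : ((v.2 : ℝ) - u.2) ≠ 0 ∨ ((u.1 : ℝ) - v.1) ≠ 0 := by
      rcases sub_ne_of_ne huv with h | h
      · right
        intro h0
        apply h
        have : (u.1 : ℝ) = v.1 := by linarith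
        have h2 : u.1 = v.1 := by exact_mod_cast this
        omega
      · left
        intro h0
        apply h
        have : (v.2 : ℝ) = u.2 := by linarith
        have h2 : v.2 = u.2 := by exact_mod_cast this
        omega
    apply onLine_iff_col hab huv
    · unfold OnLine; ring
    · unfold OnLine; ring

theorem hasLine_four_iff (A B : Finset Pt) : HasLine 4 (A : Set Pt) (B : Set Pt) ↔ Four A B := by
  constructor
  · rintro ⟨a, b, c, hab, hB, S, hS, hSA⟩
    have hl : S.toList.length = 4 := by rw [Finset.length_toList, hS]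
    have hnd := S.nodup_toList
    have hmem : ∀ z ∈ S.toList, z ∈ A ∧ OnLine a b c z := by
      intro z hz
      have := hSA z (Finset.mem_toList.mp hz)
      exact ⟨by simpa using this.1, this.2⟩
    obtain ⟨u, v, w, t, hL⟩ : ∃ u v w t, S.toList = [u, v, w, t] := by
      match hh : S.toList, hl with
      | [u, v, w, t], _ => exact ⟨u, v, w, t, rfl⟩
    rw [hL] at hnd hmem
    simp only [List.nodup_cons, List.mem_cons, List.not_mem_nil, or_false, not_or,
      not_false_eq_true, List.nodup_nil, and_true] at hnd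
    obtain ⟨⟨huv, huw, hut⟩, ⟨hvw, hvt⟩, hwt⟩ := hnd
    have hu := hmem u (by simp)
    have hv := hmem v (by simp)
    have hw := hmem w (by simp)
    have ht := hmem t (by simp)
    refine ⟨u, hu.1, v, hv.1, w, hw.1, t, ht.1, huv, huw, hut, hvw, hvt, hwt, ?_, ?_, ?_⟩
    · exact (onLine_iff_col hab huv hu.2 hv.2).mp hw.2
    · exact (onLine_iff_col hab huv hu.2 hv.2).mp ht.2
    · intro z hz hc
      exact hB z (by simpa using hz) ((onLine_iff_col hab huv hu.2 hv.2).mpr hc)
  · rintro ⟨u, hu, v, hv, w, hw, t, ht, huv, huw, hut, hvw, hvt, hwt, h1, h2, hB⟩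
    obtain ⟨a, b, c, hab, hl⟩ := exists_realLine huv
    refine ⟨a, b, c, hab, ?_, {u, v, w, t}, ?_, ?_⟩
    · intro z hz hc
      exact hB z (by simpa using hz) ((hl z).mp hc)
    · rw [Finset.card_insert_of_notMem, Finset.card_insert_of_notMem,
        Finset.card_insert_of_notMem, Finset.card_singleton]
      · simpa using hwt
      · simp [hvw, hvt]
      · simp [huv, huw, hut]
    · intro z hz
      simp only [Finset.mem_insert, Finset.mem_singleton] at hz
      rcases hz with rfl | rfl | rfl | rfl
      · exact ⟨by simpa using hu, (hl _).mpr (Col.refl_left _ _)⟩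
      · exact ⟨by simpa using hv, (hl _).mpr (Col.refl_right _ _)⟩
      · exact ⟨by simpa using hw, (hl _).mpr h1⟩
      · exact ⟨by simpa using ht, (hl _).mpr h2⟩

end Pool.Agent.K4L
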