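import Pool.Agent.K4L.Tempo

/-!
# Kaplansky's 4-in-a-line: blocks with tempo

Blue has just played `s`, which makes (or may make) threes on the alive blue line `p q`. Red answers
at a point `y` of this line which lies on an alive red line `u v`: Blue has to answer on `u v`.
-/

namespace Pool.Agent.K4L

/-- a new red stone `y` which lies on the only alive blue line through `s` -/
theorem noThreat_block {R B : Finset Pt} {s p q y : Pt} (hN : NoThreat R B) (hpq : p ≠ q)
    (hsee : ∀ p' ∈ B, ∀ q' ∈ B, p' ≠ q' → Col p' q' s →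
      (∃ w ∈ R, Col p' q' w) ∨ (Col p q p' ∧ Col p q q'))
    (hy : Col p q y) : NoThreat (insert y R) (insert s B) := by
  refine hN.insert (Finset.subset_insert _ _) ?_
  intro p' hp' q' hq' hne hc
  rcases hsee p' hp' q' hq' hne hc with ⟨w, hw, hcw⟩ | ⟨h1, h2⟩
  · exact ⟨w, Finset.mem_insert_of_mem hw, hcw⟩
  · exact ⟨y, Finset.mem_insert_self _ _, (Col.line_iff hpq hne h1 h2).mp hy⟩

/-- ATTACK BLOCK: Blue has played `s` on the alive line `p q` (all alive blue pairs which `s` sees
are on this line); `M = u v` is an alive red line meeting `p q` in the free point `y`.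
It suffices to win against all answers on `M`. -/
theorem win_block {R B : Finset Pt} {s p q u v y : Pt} (hN : NoThreat R B) (hpq : p ≠ q)
    (hsee : ∀ p' ∈ B, ∀ q' ∈ B, p' ≠ q' → Col p' q' s →
      (∃ w ∈ R, Col p' q' w) ∨ (Col p q p' ∧ Col p q q'))
    (hM : ALine R (insert s B) u v) (hyM : Col u v y) (hy : Col p q y)
    (hyR : y ∉ R) (hyB : y ∉ insert s B)
    (hw : ∀ t, Col u v t → t ∉ insert y R → t ∉ insert s B →
      NoThreat (insert y R) (insert s B) → Win (insert y R) (insert t (insert s B))) :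
    Win R (insert s B) := by
  have hN' := noThreat_block (s := s) hN hpq hsee hy
  exact win_force hM hyR hyB hyM hN' (fun t ht1 ht2 ht3 => hw t ht3 ht1 ht2 hN')

/-- QUIET BLOCK: as `win_block`, but `y` is not on an alive red line: Blue may answer anywhere. -/
theorem win_block_quiet {R B : Finset Pt} {s p q y : Pt} (hN : NoThreat R B) (hpq : p ≠ q)
    (hsee : ∀ p' ∈ B, ∀ q' ∈ B, p' ≠ q' → Col p' q' s →
      (∃ w ∈ R, Col p' q' w) ∨ (Col p q p' ∧ Col p q q'))
    (hy : Col p q y) (hyR : y ∉ R) (hyB : y ∉ insert s B)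
    (hw : ∀ t, t ∉ insert y R → t ∉ insert s B →
      NoThreat (insert y R) (insert s B) → Win (insert y R) (insert t (insert s B))) :
    Win R (insert s B) := by
  have hN' := noThreat_block (s := s) hN hpq hsee hy
  exact win_quiet hyR hyB hN' (fun t ht1 ht2 => hw t ht1 ht2 hN')

/-- the threat of a blue stone `s`: either `s` makes no three (`NoThreat`), or it lies on an alive
blue line `p q` -/
theorem noThreat_or {R B : Finset Pt} (hN : NoThreat R B) (s : Pt) :
    NoThreat R (insert s B) ∨
      ∃ p ∈ B, ∃ q ∈ B, p ≠ q ∧ Col p q s ∧ ∀ z ∈ R, ¬ Col p q z := by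
  by_cases h : ∃ p ∈ B, ∃ q ∈ B, p ≠ q ∧ Col p q s ∧ ∀ z ∈ R, ¬ Col p q z
  · exact Or.inr h
  · left
    refine hN.insert (Finset.Subset.refl _) ?_
    intro p hp q hq hne hc
    by_contra hcon
    exact h ⟨p, hp, q, hq, hne, hc, fun z hz hzc => hcon ⟨z, hz, hzc⟩⟩

end Pool.Agent.K4L
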