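import Pool.Agent.K4L.Tempo

/-!
# Kaplansky's 4-in-a-line: the near/far engine

`stage`: the stage lemma; `two_connected`: any two connected uncovered red lines win.
-/

namespace Pool.Agent.K4L

open Filter

/-! ### cross products -/

/-- the cross product of `y - x` and `z - x` -/
def cr3 (x y z : Pt) : ℤ := (y.1 - x.1) * (z.2 - x.2) - (y.2 - x.2) * (z.1 - x.1)

theorem col_iff_cr3 {x y z : Pt} : Col x y z ↔ cr3 x y z = 0 := by
  unfold Col cr3
  constructor <;> intro h <;> linarith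

theorem cr3_ne {x y z : Pt} (h : ¬ Col x y z) : cr3 x y z ≠ 0 := fun hc => h (col_iff_cr3.mpr hc)

/-- the vectors `v - u` and `q - p` are parallel -/
def Par (u v p q : Pt) : Prop := (v.1 - u.1) * (q.2 - p.2) = (v.2 - u.2) * (q.1 - p.1)

theorem Par.symm_right {u v p q : Pt} (h : Par u v p q) : Par u v q p := by
  unfold Par at *; linear_combination -h

/-- a line parallel to `u v` through a point of `u v` is the line `u v` -/
theorem Par.col {u v p q : Pt} (h : Par u v p q) (hp : Col u v p) : Col u v q := by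
  unfold Par Col at *; linear_combination h + hp

theorem Uncov.symm {R B : Finset Pt} {u v : Pt} (h : Uncov R B u v) : Uncov R B v u :=
  fun z hz => h z hz.swap12

/-! ### finiteness -/

/-- two lines which are not parallel, and a centre off both lines: only finitely many lattice
points of the first line are projected to lattice points of the second one -/
theorem nf_finite {u v p q c : Pt} (hpar : ¬ Par u v p q)
    (hcL : ¬ Col u v c) (hcM : ¬ Col p q c) :
    {t : Pt | Col u v t ∧ ∃ z, Col p q z ∧ Col c t z}.Finite := by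
  have hα := cr3_ne hcM
  have hβ := cr3_ne hcL
  have hαβ : cr3 p q c * cr3 u v c ≠ 0 := mul_ne_zero hα hβ
  apply Set.Finite.of_finite_image (f := fun t => cr3 p q t)
  · apply (Set.finite_Icc (cr3 p q c - |cr3 p q c * cr3 u v c|)
      (cr3 p q c + |cr3 p q c * cr3 u v c|)).subset
    rintro _ ⟨t, ⟨ht, z, hz, hct⟩, rfl⟩
    have key : (cr3 p q t - cr3 p q c) * (cr3 u v z - cr3 u v c) = cr3 p q c * cr3 u v c := by
      have e1 : (cr3 p q t - cr3 p q c) * (cr3 u v z - cr3 u v c)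
          - (cr3 u v t - cr3 u v c) * (cr3 p q z - cr3 p q c)
          = ((q.1 - p.1) * (v.2 - u.2) - (q.2 - p.2) * (v.1 - u.1)) * cr3 c t z := by
        unfold cr3; ring
      rw [col_iff_cr3.mp ht, col_iff_cr3.mp hz, col_iff_cr3.mp hct] at e1
      linarith
    have hdvd : (cr3 p q t - cr3 p q c) ∣ cr3 p q c * cr3 u v c := Dvd.intro _ key
    have hle := Int.le_of_dvd (abs_pos.mpr hαβ) ((abs_dvd_abs _ _).mpr hdvd)
    have := abs_le.mp hle
    simp only [Set.mem_Icc]
    constructor <;> linarith [this.1, this.2]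
  · rintro t ⟨ht, _⟩ t' ⟨ht', _⟩ h
    simp only at h
    have hD : (v.1 - u.1) * (q.2 - p.2) - (v.2 - u.2) * (q.1 - p.1) ≠ 0 := by
      intro hc; apply hpar; unfold Par; linarith
    unfold Col at ht ht'
    unfold cr3 at h
    have e1 : ((v.1 - u.1) * (q.2 - p.2) - (v.2 - u.2) * (q.1 - p.1)) * (t.1 - t'.1) = 0 := by
      linear_combination (q.1 - p.1) * (ht - ht') - (v.1 - u.1) * h
    have e2 : ((v.1 - u.1) * (q.2 - p.2) - (v.2 - u.2) * (q.1 - p.1)) * (t.2 - t'.2) = 0 := by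
      linear_combination (q.2 - p.2) * (ht - ht') - (v.2 - u.2) * h
    have h1 := (mul_eq_zero.mp e1).resolve_left hD
    have h2 := (mul_eq_zero.mp e2).resolve_left hD
    exact Prod.ext (by linarith) (by linarith)

/-- a line through a centre off `u v` meets `u v` in at most one point -/
theorem pt_finite {u v c β : Pt} (huv : u ≠ v) (hc : ¬ Col u v c) (hβ : β ≠ c) :
    {t : Pt | Col u v t ∧ Col c t β}.Finite := by
  apply Set.Subsingleton.finite
  rintro t ⟨ht, h1⟩ t' ⟨ht', h1'⟩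
  by_contra hne
  apply hc
  have hcβ : c ≠ β := hβ.symm
  have h2 : Col c β t := h1.swap23
  have h2' : Col c β t' := h1'.swap23
  exact (Col.line_eq_of_two (z := c) huv hcβ hne ht ht' h2 h2').mpr (Col.refl_left _ _)

/-- at most one point `t` of `u v` has `t - c` parallel to a given direction -/
theorem par_finite {u v c p q : Pt} (huv : u ≠ v) (hc : ¬ Col u v c) (hpq : p ≠ q) :
    {t : Pt | Col u v t ∧ Par c t p q}.Finite := by
  apply Set.Subsingleton.finite
  rintro t ⟨ht, h1⟩ t' ⟨ht', h1'⟩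
  by_contra hne
  apply hc
  have h3 : Col c t t' := by
    unfold Par at h1 h1'
    unfold Col
    rcases sub_ne_of_ne hpq with h | h
    · apply mul_left_cancel₀ h
      linear_combination (t'.1 - c.1) * h1 - (t.1 - c.1) * h1'
    · apply mul_left_cancel₀ h
      linear_combination (t'.2 - c.2) * h1 - (t.2 - c.2) * h1'
  exact (Col.line_iff huv hne ht ht').mpr h3.rot

/-! ### sequences on a line -/

/-- the absolute value of `E m` tends to infinity -/
def Big (E : ℕ → ℤ) : Prop := ∀ K : ℤ, ∀ᶠ m in atTop, K < |E m|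

theorem Big.avoid {E : ℕ → ℤ} (hE : Big E) {x y : Pt} (hxy : x ≠ y) {S : Set Pt}
    (hS : S.Finite) : ∀ᶠ m in atTop, pt x y (E m) ∉ S := by
  have hT : (pt x y ⁻¹' S).Finite := hS.preimage (pt_injective hxy).injOn
  obtain ⟨K, hK⟩ := (hT.image abs).bddAbove
  filter_upwards [hE K] with m hm hc
  have := hK (Set.mem_image_of_mem abs (show E m ∈ pt x y ⁻¹' S from hc))
  omega

theorem Big.avoid_line {E : ℕ → ℤ} (hE : Big E) {x y : Pt} (hxy : x ≠ y) {P : Pt → Prop}
    (hS : {t | Col x y t ∧ P t}.Finite) : ∀ᶠ m in atTop, ¬ P (pt x y (E m)) := by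
  filter_upwards [hE.avoid hxy hS] with m hm hc
  exact hm ⟨col_pt x y _, hc⟩

/-- the parameter of the far point in the stage lemma -/
theorem big_stage {P Q : ℤ} (hP : P ≠ 0) : Big (fun m : ℕ => (m : ℤ) * P * (2 + m * Q)) := by
  intro K
  filter_upwards [eventually_ge_atTop (K.toNat + 4)] with m hm
  have hm' : (m : ℤ) ≥ K + 4 := by
    have : (K.toNat : ℤ) ≥ K := Int.self_le_toNat K
    have h2 : (m : ℤ) ≥ (K.toNat : ℤ) + 4 := by exact_mod_cast hm
    linarith
  have hm4 : (m : ℤ) ≥ 4 := by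
    have h2 : (m : ℤ) ≥ (K.toNat : ℤ) + 4 := by exact_mod_cast hm
    have : (0 : ℤ) ≤ (K.toNat : ℤ) := Int.natCast_nonneg _
    linarith
  have h1 : 1 ≤ |P| := Int.one_le_abs hP
  have h2 : 1 ≤ |2 + (m : ℤ) * Q| := by
    apply Int.one_le_abs
    intro hc
    rcases lt_trichotomy Q 0 with h | h | h
    · nlinarith
    · subst h; omega
    · nlinarith
  have h3 : |(m : ℤ) * P * (2 + m * Q)| = m * |P| * |2 + (m : ℤ) * Q| := by
    rw [abs_mul, abs_mul, abs_of_nonneg (by linarith : (0 : ℤ) ≤ m)]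
  rw [h3]
  nlinarith [mul_le_mul h1 h2 (by norm_num) (by linarith [abs_nonneg P])]

/-- the far lines `c e` are uncovered -/
theorem ev_uncov_new {R B : Finset Pt} {x y c : Pt} {E : ℕ → ℤ} (hE : Big E) (hxy : x ≠ y)
    (hcR : c ∈ R) (hc : ¬ Col x y c)
    (hp : ∀ p ∈ B, ∀ q ∈ B, p ≠ q → Par x y p q → (∃ z ∈ R, Col p q z) ∨
      ∀ᶠ m in atTop, ∀ z, Col p q z → ¬ Col c (pt x y (E m)) z) :
    ∀ᶠ m in atTop, Uncov (insert (pt x y (E m)) R) B c (pt x y (E m)) := by
  have main : ∀ p ∈ B, ∀ q ∈ B, ∀ᶠ m in atTop, p ≠ q → (∀ z ∈ R, ¬ Col p q z) →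
      ∀ z, Col p q z → ¬ Col c (pt x y (E m)) z := by
    intro p hpB q hqB
    by_cases hpq : p = q
    · exact Eventually.of_forall (fun m h => absurd hpq h)
    · by_cases hal : ∀ z ∈ R, ¬ Col p q z
      · by_cases hpar : Par x y p q
        · rcases hp p hpB q hqB hpq hpar with ⟨z, hz, hz'⟩ | hev
          · exact absurd hz' (hal z hz)
          · filter_upwards [hev] with m hm _ _
            exact hm
        · have hfin := nf_finite hpar hc (hal c hcR)
          filter_upwards [hE.avoid_line hxy (P := fun t => ∃ z, Col p q z ∧ Col c t z) hfin]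
            with m hm _ _ z hz hcz
          exact hm ⟨z, hz, hcz⟩
      · exact Eventually.of_forall (fun m _ h => absurd h hal)
  have main2 : ∀ᶠ m in atTop, ∀ p ∈ B, ∀ q ∈ B, p ≠ q → (∀ z ∈ R, ¬ Col p q z) →
      ∀ z, Col p q z → ¬ Col c (pt x y (E m)) z := by
    rw [Filter.eventually_all_finset]
    intro p hpB
    rw [Filter.eventually_all_finset]
    intro q hqB
    exact main p hpB q hqB
  filter_upwards [main2] with m hm z hz _ _ p hpB q hqB hpq hpz
  by_contra hcon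
  refine hm p hpB q hqB hpq ?_ z hpz hz
  intro z' hz' hcz'
  exact hcon ⟨z', Finset.mem_insert_of_mem hz', hcz'⟩

theorem ev_alive_new {B : Finset Pt} {x y c : Pt} {E : ℕ → ℤ} (hE : Big E) (hxy : x ≠ y)
    (hcB : c ∉ B) (hc : ¬ Col x y c) :
    ∀ᶠ m in atTop, ∀ z ∈ B, ¬ Col c (pt x y (E m)) z := by
  rw [Filter.eventually_all_finset]
  intro z hz
  have hzc : z ≠ c := by rintro rfl; exact hcB hz
  exact hE.avoid_line hxy (P := fun t => Col c t z) (pt_finite hxy hc hzc)

theorem ev_par_new {B : Finset Pt} {x y c : Pt} {E : ℕ → ℤ} (hE : Big E) (hxy : x ≠ y)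
    (hc : ¬ Col x y c) :
    ∀ᶠ m in atTop, ∀ p ∈ B, ∀ q ∈ B, p ≠ q → ¬ Par c (pt x y (E m)) p q := by
  rw [Filter.eventually_all_finset]
  intro p hp
  rw [Filter.eventually_all_finset]
  intro q hq
  by_cases hpq : p = q
  · exact Eventually.of_forall (fun m h => absurd hpq h)
  · filter_upwards [hE.avoid_line hxy (P := fun t => Par c t p q) (par_finite hxy hc hpq)]
      with m hm _
    exact hm

/-- the forced reply `t` keeps the uncovered line `u v` uncovered if no blue stone and `t`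
point at a lattice point of it -/
theorem Uncov.insert_blue {R R' B : Finset Pt} {u v t : Pt} (h : Uncov R B u v) (hR : R ⊆ R')
    (ht : ∀ p ∈ B, ∀ z, Col u v z → ¬ Col p t z) : Uncov R' (insert t B) u v := by
  intro z hz hzR hzB p hp q hq hpq hc
  have hzR' : z ∉ R := fun hh => hzR (hR hh)
  have hzB' : z ∉ B := fun hh => hzB (Finset.mem_insert_of_mem hh)
  by_cases hpt : p = t
  · subst hpt
    have hqB := Finset.mem_of_mem_insert_of_ne hq (Ne.symm hpq)
    exact absurd hc.swap12 (ht q hqB z hz)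
  · have hpB := Finset.mem_of_mem_insert_of_ne hp hpt
    by_cases hqt : q = t
    · subst hqt
      exact absurd hc (ht p hpB z hz)
    · have hqB := Finset.mem_of_mem_insert_of_ne hq hqt
      obtain ⟨w, hw, hw'⟩ := h z hz hzR' hzB' p hpB q hqB hpq hc
      exact ⟨w, hR hw, hw'⟩

/-! ### the finish -/

/-- FINISH: two alive red lines `c v` (uncovered) and `c v'`, a red stone `e`, lattice points
`g` on `c v` and `f` on `c v'` collinear with `e` on a line without blue stones -/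
theorem fin_win {R B : Finset Pt} {c v v' e g f : Pt} (hN : NoThreat R B)
    (h1 : ALine R B c v) (h2 : ALine R B c v') (hU : Uncov R B c v) (hcv : ¬ Col c v v')
    (he : e ∈ R) (heL : ¬ Col c v e) (hg : Col c v g) (hgc : g ≠ c) (hgv : g ≠ v)
    (hf : Col c v' f) (hfc : f ≠ c) (hfv : f ≠ v') (hegf : Col e g f)
    (heB : ∀ z ∈ B, ¬ Col e g z) : Win R B := by
  by_cases hgR : g ∈ R
  · exact win_complete h1 hgR hgc.symm hgv.symm hg
  by_cases hfR : f ∈ R
  · exact win_complete h2 hfR hfc.symm hfv.symm hf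
  have hgB : g ∉ B := fun hh => h1.2.2.2 g hh hg
  have hfB : f ∉ B := fun hh => h2.2.2.2 f hh hf
  have hge : g ≠ e := by rintro rfl; exact heL hg
  -- a point of both lines is `c`
  have hmeet : ∀ z, Col c v z → Col c v' z → z = c := by
    intro z hz hz'
    by_contra hne
    apply hcv
    exact (Col.line_eq_of_two (z := v') h1.ne h2.ne hne hz (Col.refl_left _ _) hz'
      (Col.refl_left _ _)).mpr (Col.refl_right _ _)
  refine win_force h1 hgR hgB hg (hN.mono (Finset.subset_insert _ _) (Finset.Subset.refl _)) ?_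
  intro y hyR hyB hy
  have hyc : y ≠ c := by rintro rfl; exact hyR (Finset.mem_insert_of_mem h1.1)
  have hyg : y ≠ g := by rintro rfl; exact hyR (Finset.mem_insert_self _ _)
  have hyR' : y ∉ R := fun hh => hyR (Finset.mem_insert_of_mem hh)
  have hy2 : ¬ Col c v' y := fun hh => hyc (hmeet y hy hh)
  have hA : ALine (insert g R) (insert y B) c v' := h2.insert (Finset.subset_insert _ _) hy2
  have hA' : ALine (insert g R) (insert y B) e g := by
    refine ⟨Finset.mem_insert_of_mem he, Finset.mem_insert_self _ _, hge.symm, ?_⟩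
    intro z hz hc
    rcases Finset.mem_insert.mp hz with rfl | hz
    · apply heL
      exact (Col.line_eq_of_two (z := e) h1.ne hge.symm hyg hy hg hc (Col.refl_right _ _)).mpr
        (Col.refl_left _ _)
    · exact heB z hz hc
  refine win_double hA hA' (z := f) ?_ ?_ hf hegf ?_ ?_
  · intro hh
    rcases Finset.mem_insert.mp hh with hh | hh
    · rw [hh] at hf; exact hgc (hmeet g hg hf)
    · exact hfR hh
  · intro hh
    rcases Finset.mem_insert.mp hh with hh | hh
    · rw [hh] at hf; exact hyc (hmeet y hy hf)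
    · exact hfB hh
  · exact hN.of_uncov hU ((Finset.subset_insert _ _).trans (Finset.subset_insert _ _)) hy hyR' hyB
  · rintro ⟨_, hh⟩
    exact hgc (hmeet g hg hh)


/-! ### the stage lemma -/

/-- `P` of the stage lemma -/
def sP (_x0 x1 x2 x3 : Pt) : ℤ :=
  (x3.1 - x2.1) * (x2.2 - x1.2) - (x3.2 - x2.2) * (x2.1 - x1.1)

/-- `Q` of the stage lemma -/
def sQ (x0 x1 x2 x3 : Pt) : ℤ :=
  (x0.1 - x1.1) * (x3.2 - x2.2) - (x0.2 - x1.2) * (x3.1 - x2.1)

/-- `Δ` of the stage lemma -/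
def sD (x0 x1 x2 : Pt) : ℤ :=
  (x0.1 - x1.1) * (x2.2 - x1.2) - (x0.2 - x1.2) * (x2.1 - x1.1)

/-- the far point on `x0 x1` -/
def farP (x0 x1 x2 x3 : Pt) (m : ℕ) : Pt :=
  pt x1 x0 ((m : ℤ) * sP x0 x1 x2 x3 * (2 + m * sQ x0 x1 x2 x3))

theorem far_col_aux {a1 a2 b1 b2 c1 c2 m s e P Q D : ℤ} (hP : P = c1 * b2 - c2 * b1)
    (hQ : Q = a1 * c2 - a2 * c1) (hD : D = a1 * b2 - a2 * b1) (hs : s = 2 + m * Q)
    (he : e = m * P * s) :
    (s * b1 - e * a1) * (b2 + m * D * c2 - e * a2) =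
      (s * b2 - e * a2) * (b1 + m * D * c1 - e * a1) := by
  linear_combination (s * m * D) * hP - (s * e - e) * hD + (e * m * D) * hQ + D * he + D * e * hs

theorem far_col (x0 x1 x2 x3 : Pt) (m : ℕ) :
    Col (farP x0 x1 x2 x3 m) (pt x1 x2 (2 + m * sQ x0 x1 x2 x3))
      (pt x2 x3 (m * sD x0 x1 x2)) := by
  obtain ⟨P, hP⟩ : ∃ P, P = sP x0 x1 x2 x3 := ⟨_, rfl⟩
  obtain ⟨Q, hQ⟩ : ∃ Q, Q = sQ x0 x1 x2 x3 := ⟨_, rfl⟩
  obtain ⟨D, hD⟩ : ∃ D, D = sD x0 x1 x2 := ⟨_, rfl⟩
  obtain ⟨s, hs⟩ : ∃ s, s = 2 + (m : ℤ) * Q := ⟨_, rfl⟩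
  obtain ⟨e, he⟩ : ∃ e, e = (m : ℤ) * P * s := ⟨_, rfl⟩
  have key := far_col_aux hP hQ hD hs he
  unfold farP
  rw [← hP, ← hQ, ← hD, ← hs, ← he]
  unfold Col pt
  simp only
  linear_combination key

theorem sP_ne {x0 x1 x2 x3 : Pt} (h : ¬ Col x1 x2 x3) : sP x0 x1 x2 x3 ≠ 0 := by
  intro hc; apply h; unfold sP at hc; unfold Col; linarith

theorem sD_ne {x0 x1 x2 : Pt} (h : ¬ Col x0 x1 x2) : sD x0 x1 x2 ≠ 0 := by
  intro hc; apply h; unfold sD at hc; unfold Col; linarith

theorem big_far {x0 x1 x2 x3 : Pt} (h : ¬ Col x1 x2 x3) :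
    Big (fun m : ℕ => (m : ℤ) * sP x0 x1 x2 x3 * (2 + m * sQ x0 x1 x2 x3)) :=
  big_stage (sP_ne h)

theorem two_add_ne {Q : ℤ} {m : ℕ} (hm : 4 ≤ m) : 2 + (m : ℤ) * Q ≠ 0 ∧ 2 + (m : ℤ) * Q ≠ 1 := by
  have hm' : (4 : ℤ) ≤ m := by exact_mod_cast hm
  rcases lt_trichotomy Q 0 with h | h | h
  · constructor <;> nlinarith
  · subst h; constructor <;> omega
  · constructor <;> nlinarith

/-- no blue stone (off `x0 x1` and off `x1 x2`) on the line `e g` -/
theorem ev_line_free {x0 x1 x2 x3 β : Pt} (h012 : ¬ Col x0 x1 x2) (h123 : ¬ Col x1 x2 x3)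
    (hβ : ¬ Col x1 x2 β) :
    ∀ᶠ m : ℕ in atTop, ¬ Col (farP x0 x1 x2 x3 m) (pt x1 x2 (2 + m * sQ x0 x1 x2 x3)) β := by
  have hP := sP_ne (x0 := x0) h123
  have hD := sD_ne h012
  have hβ' := cr3_ne hβ
  set P := sP x0 x1 x2 x3 with hPdef
  set Q := sQ x0 x1 x2 x3 with hQdef
  set D := sD x0 x1 x2 with hDdef
  set c1 := cr3 x1 x2 β with hc1
  set c2 := cr3 x1 x0 β with hc2
  have key : ∀ m : ℕ, cr3 (farP x0 x1 x2 x3 m) (pt x1 x2 (2 + m * Q)) β
      = (2 + m * Q) * (c1 + m * P * ((2 + m * Q) * D - c2)) := by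
    intro m
    have h1 : ∀ e s : ℤ, cr3 (pt x1 x0 e) (pt x1 x2 s) β = s * c1 + s * e * D - e * c2 := by
      intro e s
      rw [hc1, hc2, hDdef]
      unfold cr3 pt sD
      simp only
      ring
    unfold farP
    rw [h1, ← hPdef, ← hQdef]
    ring
  have hX : ∀ᶠ m : ℕ in atTop, c1 + m * P * ((2 + m * Q) * D - c2) ≠ 0 := by
    have hev : ∀ᶠ m : ℕ in atTop, (2 + (m : ℤ) * Q) * D - c2 = 0 ∨
        c1 + m * P * ((2 + m * Q) * D - c2) ≠ 0 := by
      filter_upwards [eventually_gt_atTop (|c1|).toNat] with m hm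
      have hm' : |c1| < (m : ℤ) := by
        have h1 : (((|c1|).toNat : ℕ) : ℤ) < m := by exact_mod_cast hm
        rwa [Int.toNat_of_nonneg (abs_nonneg c1)] at h1
      by_cases h0 : (2 + (m : ℤ) * Q) * D - c2 = 0
      · left; exact h0
      · right
        intro hc
        have h1 : c1 = -(m * P * ((2 + m * Q) * D - c2)) := by linarith
        have h2 : |c1| = m * |P| * |(2 + (m : ℤ) * Q) * D - c2| := by
          rw [h1, abs_neg, abs_mul, abs_mul, abs_of_nonneg (Int.natCast_nonneg m)]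
        have h3 : 1 ≤ |P| := Int.one_le_abs hP
        have h4 : 1 ≤ |(2 + (m : ℤ) * Q) * D - c2| := Int.one_le_abs h0
        have h5 : (0 : ℤ) ≤ m := Int.natCast_nonneg m
        have h6 : 1 * 1 ≤ |P| * |(2 + (m : ℤ) * Q) * D - c2| :=
          mul_le_mul h3 h4 (by norm_num) (by linarith)
        have h7 : (m : ℤ) * (1 * 1) ≤ m * (|P| * |(2 + (m : ℤ) * Q) * D - c2|) :=
          mul_le_mul_of_nonneg_left h6 h5
        rw [mul_assoc] at h2
        rw [← h2] at h7
        linarith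
    by_cases hQ : Q = 0
    · by_cases h0 : 2 * D - c2 = 0
      · refine Eventually.of_forall ?_
        intro m
        rw [hQ]
        simp only [mul_zero, add_zero, h0]
        exact hβ'
      · filter_upwards [hev] with m hm
        rcases hm with hm | hm
        · exfalso; rw [hQ] at hm; simp only [mul_zero, add_zero] at hm; exact h0 hm
        · exact hm
    · have hev2 : ∀ᶠ m : ℕ in atTop, (2 + (m : ℤ) * Q) * D - c2 ≠ 0 := by
        filter_upwards [eventually_gt_atTop (|2 * D - c2|).toNat] with m hm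
        have hm' : |2 * D - c2| < (m : ℤ) := by
          have h1 : (((|2 * D - c2|).toNat : ℕ) : ℤ) < m := by exact_mod_cast hm
          rwa [Int.toNat_of_nonneg (abs_nonneg _)] at h1
        intro hc
        have h1 : 2 * D - c2 = -(m * (Q * D)) := by linarith
        have h2 : |2 * D - c2| = m * |Q * D| := by
          rw [h1, abs_neg, abs_mul, abs_of_nonneg (Int.natCast_nonneg m)]
        have h3 : 1 ≤ |Q * D| := Int.one_le_abs (mul_ne_zero hQ hD)
        have h5 : (0 : ℤ) ≤ m := Int.natCast_nonneg m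
        nlinarith
      filter_upwards [hev, hev2] with m hm hm2
      exact hm.resolve_left hm2
  filter_upwards [hX, eventually_ge_atTop 4] with m hm hm4 hc
  have h0 := col_iff_cr3.mp hc
  rw [key] at h0
  rcases mul_eq_zero.mp h0 with h | h
  · exact (two_add_ne hm4).1 h
  · exact hm h

/-- STAGE LEMMA. `x0 x1` alive and uncovered, the path `x1 x2`, `x2 x3` alive and one of its
lines uncovered.  If Red wins after every near reply on `x0 x1`, Red wins. -/
theorem stage {R B : Finset Pt} {x0 x1 x2 x3 : Pt} (hN : NoThreat R B)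
    (hL : ALine R B x0 x1) (hLU : Uncov R B x0 x1)
    (h12 : ALine R B x1 x2) (h23 : ALine R B x2 x3)
    (h012 : ¬ Col x0 x1 x2) (h123 : ¬ Col x1 x2 x3)
    (hU : Uncov R B x1 x2 ∨ (Uncov R B x2 x3 ∧ ¬ Par x0 x1 x2 x3))
    (hnear : ∀ t, Col x0 x1 t → t ∉ R → t ∉ B →
      ∀ᶠ m : ℕ in atTop, Win (insert (farP x0 x1 x2 x3 m) R) (insert t B)) : Win R B := by
  have hne01 : x0 ≠ x1 := hL.ne
  have hne10 : x1 ≠ x0 := hne01.symm
  have hbig := big_far (x0 := x0) h123
  -- the set of near replies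
  obtain ⟨T, hTfin, hT⟩ : ∃ T : Set Pt, T.Finite ∧ ∀ t, Col x0 x1 t → t ∉ T →
      (¬ Col x2 x3 t) ∧ ((∀ R', R ⊆ R' → Uncov R' (insert t B) x1 x2) ∨
        (∀ R', R ⊆ R' → Uncov R' (insert t B) x2 x3)) := by
    -- the point of `x0 x1` on `x2 x3`
    have hfin0 : {t : Pt | Col x0 x1 t ∧ Col x2 t x3}.Finite :=
      pt_finite hne01 h012 (h23.ne.symm)
    have hfin1 : ∀ u v, ALine R B u v → ¬ Par x0 x1 u v →
        (⋃ p ∈ B, {t : Pt | Col x0 x1 t ∧ ∃ z, Col u v z ∧ Col p t z}).Finite := by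
      intro u v huv hpar
      refine Set.Finite.biUnion (Finset.finite_toSet B) ?_
      intro p hp
      exact nf_finite hpar (hL.2.2.2 p hp) (huv.2.2.2 p hp)
    rcases hU with hU | ⟨hU, hpar⟩
    · have hpar : ¬ Par x0 x1 x1 x2 := fun hc => h012 (hc.col (Col.refl_right _ _))
      refine ⟨{t : Pt | Col x0 x1 t ∧ Col x2 t x3} ∪
        (⋃ p ∈ B, {t : Pt | Col x0 x1 t ∧ ∃ z, Col x1 x2 z ∧ Col p t z}),
        hfin0.union (hfin1 x1 x2 h12 hpar), ?_⟩
      intro t ht htT
      simp only [Set.mem_union, Set.mem_ofPred_eq, Set.mem_iUnion, not_or, not_exists] at htT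
      refine ⟨fun hc => htT.1 ⟨ht, hc.swap23⟩, Or.inl ?_⟩
      intro R' hR'
      refine hU.insert_blue hR' ?_
      intro p hp z hz hc
      exact htT.2 p hp ⟨ht, z, hz, hc⟩
    · refine ⟨{t : Pt | Col x0 x1 t ∧ Col x2 t x3} ∪
        (⋃ p ∈ B, {t : Pt | Col x0 x1 t ∧ ∃ z, Col x2 x3 z ∧ Col p t z}),
        hfin0.union (hfin1 x2 x3 h23 hpar), ?_⟩
      intro t ht htT
      simp only [Set.mem_union, Set.mem_ofPred_eq, Set.mem_iUnion, not_or, not_exists] at htT
      refine ⟨fun hc => htT.1 ⟨ht, hc.swap23⟩, Or.inr ?_⟩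
      intro R' hR'
      refine hU.insert_blue hR' ?_
      intro p hp z hz hc
      exact htT.2 p hp ⟨ht, z, hz, hc⟩
  -- eventual properties of the far point
  have ev1 : ∀ᶠ m : ℕ in atTop, farP x0 x1 x2 x3 m ∉ ((R ∪ B : Finset Pt) : Set Pt) :=
    hbig.avoid hne10 (Finset.finite_toSet _)
  have ev2 : ∀ᶠ m : ℕ in atTop, ∀ t ∈ T, Col x0 x1 t → t ∉ R → t ∉ B →
      Win (insert (farP x0 x1 x2 x3 m) R) (insert t B) := by
    rw [Filter.eventually_all_finite hTfin]
    intro t _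
    by_cases h : Col x0 x1 t ∧ t ∉ R ∧ t ∉ B
    · filter_upwards [hnear t h.1 h.2.1 h.2.2] with m hm _ _ _
      exact hm
    · exact Eventually.of_forall (fun m h1 h2 h3 => absurd ⟨h1, h2, h3⟩ h)
  have ev3 : ∀ᶠ m : ℕ in atTop, ∀ z ∈ B,
      ¬ Col (farP x0 x1 x2 x3 m) (pt x1 x2 (2 + m * sQ x0 x1 x2 x3)) z := by
    rw [Filter.eventually_all_finset]
    intro z hz
    exact ev_line_free h012 h123 (h12.2.2.2 z hz)
  have ev4 : ∀ᶠ m : ℕ in atTop, ¬ Col x2 (farP x0 x1 x2 x3 m) x3 := by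
    have hfin : {t : Pt | Col x1 x0 t ∧ Col x2 t x3}.Finite :=
      pt_finite hne10 (fun hc => h012 hc.swap12) (h23.ne.symm)
    exact hbig.avoid_line hne10 (P := fun t => Col x2 t x3) hfin
  have ev5 : ∀ᶠ m : ℕ in atTop, farP x0 x1 x2 x3 m ∉ ({x0, x1} : Set Pt) :=
    hbig.avoid hne10 (Set.toFinite _)
  obtain ⟨m, hm1, hm2, hm3, hm4, hm5, hm6⟩ :=
    (ev1.and (ev2.and (ev3.and (ev4.and (ev5.and (eventually_ge_atTop 4)))))).exists
  set e := farP x0 x1 x2 x3 m with he
  set g := pt x1 x2 (2 + m * sQ x0 x1 x2 x3) with hg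
  set f := pt x2 x3 (m * sD x0 x1 x2) with hf
  have hm1' : e ∉ R ∧ e ∉ B := by
    simp only [Finset.coe_union, Set.mem_union, Finset.mem_coe, not_or] at hm1
    exact hm1
  have hm5' : e ≠ x0 ∧ e ≠ x1 := by
    simp only [Set.mem_insert_iff, Set.mem_singleton_iff, not_or] at hm5
    exact hm5
  have hce : Col x0 x1 e := (col_pt x1 x0 _).swap12
  have hcg : Col x1 x2 g := col_pt x1 x2 _
  have hcf : Col x2 x3 f := col_pt x2 x3 _
  have hegf : Col e g f := far_col x0 x1 x2 x3 m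
  have hG := two_add_ne (Q := sQ x0 x1 x2 x3) hm6
  have hg1 : g ≠ x1 := by
    intro hc
    have : pt x1 x2 (2 + m * sQ x0 x1 x2 x3) = pt x1 x2 0 := by
      rw [← hg, hc]; unfold pt; simp
    exact hG.1 (pt_injective h12.ne this)
  have hg2 : g ≠ x2 := by
    intro hc
    have : pt x1 x2 (2 + m * sQ x0 x1 x2 x3) = pt x1 x2 1 := by
      rw [← hg, hc]; unfold pt; simp
    exact hG.2 (pt_injective h12.ne this)
  have hDm : (m : ℤ) * sD x0 x1 x2 ≠ 0 ∧ (m : ℤ) * sD x0 x1 x2 ≠ 1 := by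
    have hD := sD_ne h012
    have hm' : (4 : ℤ) ≤ m := by exact_mod_cast hm6
    constructor
    · exact mul_ne_zero (by omega) hD
    · rcases lt_or_gt_of_ne hD with h | h <;> nlinarith
  have hf2 : f ≠ x2 := by
    intro hc
    have : pt x2 x3 (m * sD x0 x1 x2) = pt x2 x3 0 := by
      rw [← hf, hc]; unfold pt; simp
    exact hDm.1 (pt_injective h23.ne this)
  have hf3 : f ≠ x3 := by
    intro hc
    have : pt x2 x3 (m * sD x0 x1 x2) = pt x2 x3 1 := by
      rw [← hf, hc]; unfold pt; simp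
    exact hDm.2 (pt_injective h23.ne this)
  -- `g` is off `x0 x1`
  have hgL : ¬ Col x0 x1 g := by
    intro hc
    apply h012
    exact (Col.line_eq_of_two (z := x2) hne01 h12.ne hg1.symm (Col.refl_right _ _) hc
      (Col.refl_left _ _) hcg).mpr (Col.refl_right _ _)
  have heg : e ≠ g := by rintro h; rw [h] at hce; exact hgL hce
  refine win_force hL hm1'.1 hm1'.2 hce (hN.mono (Finset.subset_insert _ _)
    (Finset.Subset.refl _)) ?_
  intro t htR htB ht
  have hte : t ≠ e := by rintro rfl; exact htR (Finset.mem_insert_self _ _)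
  have htR' : t ∉ R := fun hh => htR (Finset.mem_insert_of_mem hh)
  by_cases htT : t ∈ T
  · exact hm2 t htT ht htR' htB
  obtain ⟨ht23, hUU⟩ := hT t ht htT
  have htx1 : t ≠ x1 := by rintro rfl; exact htR' hL.2.1
  have ht12 : ¬ Col x1 x2 t := by
    intro hc
    apply h012
    exact (Col.line_eq_of_two (z := x2) hne01 h12.ne htx1 ht (Col.refl_right _ _) hc
      (Col.refl_left _ _)).mpr (Col.refl_right _ _)
  have hN' : NoThreat (insert e R) (insert t B) :=
    hN.of_uncov hLU (Finset.subset_insert _ _) ht htR' htB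
  have hA12 : ALine (insert e R) (insert t B) x1 x2 := h12.insert (Finset.subset_insert _ _) ht12
  have hA23 : ALine (insert e R) (insert t B) x2 x3 := h23.insert (Finset.subset_insert _ _) ht23
  have hfree : ∀ z ∈ insert t B, ¬ Col e g z := by
    intro z hz hc
    rcases Finset.mem_insert.mp hz with rfl | hz
    · apply hgL
      exact (Col.line_eq_of_two (z := g) hne01 heg hte.symm hce ht (Col.refl_left _ _) hc).mpr
        (Col.refl_right _ _)
    · exact hm3 z hz hc
  have heR : e ∈ insert e R := Finset.mem_insert_self _ _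
  have he12 : ¬ Col x1 x2 e := by
    intro hc
    apply h012
    exact (Col.line_eq_of_two (z := x2) hne01 h12.ne hm5'.2.symm (Col.refl_right _ _) hce
      (Col.refl_left _ _) hc).mpr (Col.refl_right _ _)
  have he23 : ¬ Col x2 x3 e := fun hc => hm4 hc.swap23
  rcases hUU with hUU | hUU
  · exact fin_win (c := x2) (v := x1) (v' := x3) (e := e) (g := g) (f := f) hN' hA12.symm hA23
      (hUU _ (Finset.subset_insert _ _)).symm (fun hc => h123 hc.swap12) heR
      (fun hc => he12 hc.swap12) hcg.swap12 hg2 hg1 hcf hf2 hf3 hegf hfree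
  · have hef : e ≠ f := by rintro h; rw [h] at he23; exact he23 hcf
    refine fin_win (c := x2) (v := x3) (v' := x1) (e := e) (g := f) (f := g) hN' hA23 hA12.symm
      (hUU _ (Finset.subset_insert _ _)) (fun hc => h123 hc.rot.rot) heR he23 hcf hf2 hf3
      hcg.swap12 hg2 hg1 hegf.swap23 ?_
    intro z hz hc
    apply hfree z hz
    exact (Col.line_iff hef heg (Col.refl_left _ _) hegf.swap23).mp hc

theorem ev_lin {E : ℕ → ℤ} (hE : Big E) (a : ℤ) {b : ℤ} (hb : b ≠ 0) :
    ∀ᶠ m in atTop, a + b * E m ≠ 0 := by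
  filter_upwards [hE |a|] with m hm hc
  have h1 : a = -(b * E m) := by linarith
  have h2 : |a| = |b| * |E m| := by rw [h1, abs_neg, abs_mul]
  have h3 : 1 ≤ |b| := Int.one_le_abs hb
  have h4 : 0 ≤ |E m| := abs_nonneg _
  nlinarith

theorem Par.swap_left {u v p q : Pt} (h : Par u v p q) : Par v u p q := by
  unfold Par at *; linear_combination -h

theorem ALine.notMem {R B : Finset Pt} {u v z : Pt} (h : ALine R B u v) (hz : Col u v z) :
    z ∉ B := fun hh => h.2.2.2 z hh hz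

/-- E-LEMMA: two connected uncovered red lines win (four red stones). -/
theorem two_connected {R B : Finset Pt} {x0 x1 x2 x3 w : Pt} (hN : NoThreat R B)
    (hL : ALine R B x0 x1) (hLU : Uncov R B x0 x1)
    (h12 : ALine R B x1 x2) (h23 : ALine R B x2 x3)
    (h012 : ¬ Col x0 x1 x2) (h123 : ¬ Col x1 x2 x3)
    (hU : Uncov R B x1 x2 ∨ (Uncov R B x2 x3 ∧ ¬ Par x0 x1 x2 x3))
    (hwR : w ∈ R) (hwB : w ∉ B) (hw : ¬ Col x0 x1 w) (hw2 : w ≠ x2)
    (hpar : ∀ c, c = w ∨ c = x2 → ∀ p ∈ B, ∀ q ∈ B, p ≠ q → Par x0 x1 p q →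
      (∃ z ∈ R, Col p q z) ∨
      ∀ᶠ m : ℕ in atTop, ∀ z, Col p q z → ¬ Col c (farP x0 x1 x2 x3 m) z) : Win R B := by
  have hne01 : x0 ≠ x1 := hL.ne
  have hne10 : x1 ≠ x0 := hne01.symm
  have hbig := big_far (x0 := x0) h123
  refine stage hN hL hLU h12 h23 h012 h123 hU ?_
  intro t ht htR htB
  have hw' : ¬ Col x1 x0 w := fun hc => hw hc.swap12
  have hx2' : ¬ Col x1 x0 x2 := fun hc => h012 hc.swap12
  have hx2B : x2 ∉ B := h12.notMem (Col.refl_right _ _)
  have hx1B : x1 ∉ B := hL.notMem (Col.refl_right _ _)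
  have hx0B : x0 ∉ B := hL.notMem (Col.refl_left _ _)
  have hwB1 : w ∉ insert t B := by
    intro hh
    rcases Finset.mem_insert.mp hh with hh | hh
    · rw [hh] at hw; exact hw ht
    · exact hwB hh
  have hx2B1 : x2 ∉ insert t B := by
    intro hh
    rcases Finset.mem_insert.mp hh with hh | hh
    · rw [hh] at h012; exact h012 ht
    · exact hx2B hh
  -- parallels
  have hparB1 : ∀ c, c = w ∨ c = x2 → ∀ p ∈ insert t B, ∀ q ∈ insert t B, p ≠ q → Par x1 x0 p q →
      (∃ z ∈ R, Col p q z) ∨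
      ∀ᶠ m : ℕ in atTop, ∀ z, Col p q z →
        ¬ Col c (pt x1 x0 ((m : ℤ) * sP x0 x1 x2 x3 * (2 + m * sQ x0 x1 x2 x3))) z := by
    intro c hc p hp q hq hpq hP
    have hP' : Par x0 x1 p q := hP.swap_left
    rcases Finset.mem_insert.mp hp with rfl | hp
    · left
      exact ⟨x0, hL.1, (Col.line_iff hne01 hpq ht (hP'.col ht)).mp (Col.refl_left _ _)⟩
    · rcases Finset.mem_insert.mp hq with rfl | hq
      · left
        have hpc : Col x0 x1 p := hP'.symm_right.col ht
        exact ⟨x0, hL.1, (Col.line_iff hne01 hpq hpc ht).mp (Col.refl_left _ _)⟩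
      · exact hpar c hc p hp q hq hpq hP'
  have a1 : ∀ᶠ m : ℕ in atTop, farP x0 x1 x2 x3 m ∉ ((R ∪ insert t B : Finset Pt) : Set Pt) :=
    hbig.avoid hne10 (Finset.finite_toSet _)
  have a2 : ∀ᶠ m : ℕ in atTop, ∀ z ∈ insert t B, ¬ Col w (farP x0 x1 x2 x3 m) z :=
    ev_alive_new hbig hne10 hwB1 hw'
  have a3 : ∀ᶠ m : ℕ in atTop, ∀ z ∈ insert t B, ¬ Col x2 (farP x0 x1 x2 x3 m) z :=
    ev_alive_new hbig hne10 hx2B1 hx2'
  have a4 : ∀ᶠ m : ℕ in atTop, Uncov (insert (farP x0 x1 x2 x3 m) R) (insert t B) w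
      (farP x0 x1 x2 x3 m) :=
    ev_uncov_new hbig hne10 hwR hw' (hparB1 w (Or.inl rfl))
  have a5 : ∀ᶠ m : ℕ in atTop, Uncov (insert (farP x0 x1 x2 x3 m) R) (insert t B) x2
      (farP x0 x1 x2 x3 m) :=
    ev_uncov_new hbig hne10 h12.2.1 hx2' (hparB1 x2 (Or.inr rfl))
  have a6 : ∀ᶠ m : ℕ in atTop, ∀ p ∈ insert t B, ∀ q ∈ insert t B, p ≠ q →
      ¬ Par w (farP x0 x1 x2 x3 m) p q :=
    ev_par_new hbig hne10 hw'
  have a7 : ∀ᶠ m : ℕ in atTop, ¬ Col w (farP x0 x1 x2 x3 m) x2 :=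
    hbig.avoid_line hne10 (P := fun t => Col w t x2) (pt_finite hne10 hw' hw2.symm)
  have a8 : ∀ᶠ m : ℕ in atTop, farP x0 x1 x2 x3 m ∉ ({x0, x1} : Set Pt) :=
    hbig.avoid hne10 (Set.toFinite _)
  have a9 := hbig 2
  filter_upwards [a1, a2, a3, a4, a5, a6, a7, a8, a9] with m m1 m2 m3 m4 m5 m6 m7 m8 m9
  set E := (m : ℤ) * sP x0 x1 x2 x3 * (2 + m * sQ x0 x1 x2 x3) with hE
  set e := farP x0 x1 x2 x3 m with he
  have heE : e = pt x1 x0 E := rfl
  have m1' : e ∉ R ∧ e ∉ insert t B := by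
    simp only [Finset.coe_union, Set.mem_union, Finset.mem_coe, not_or] at m1
    exact m1
  have m8' : e ≠ x0 ∧ e ≠ x1 := by
    simp only [Set.mem_insert_iff, Set.mem_singleton_iff, not_or] at m8
    exact m8
  have hce : Col x0 x1 e := (col_pt x1 x0 _).swap12
  have hwe : w ≠ e := by
    intro h; rw [h] at hw; exact hw hce
  have hx2e : x2 ≠ e := by
    intro h; rw [h] at h012; exact h012 hce
  have heR1 : e ∈ insert e R := Finset.mem_insert_self _ _
  have hRR1 : R ⊆ insert e R := Finset.subset_insert _ _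
  have hN1 : NoThreat (insert e R) (insert t B) := hN.of_uncov hLU hRR1 ht htR htB
  have hLwe : ALine (insert e R) (insert t B) w e := ⟨hRR1 hwR, heR1, hwe, m2⟩
  have hLex2 : ALine (insert e R) (insert t B) e x2 :=
    ⟨heR1, hRR1 h12.2.1, hx2e.symm, fun z hz hc => m3 z hz hc.swap12⟩
  have htx1 : t ≠ x1 := by rintro rfl; exact htR hL.2.1
  have ht12 : ¬ Col x1 x2 t := by
    intro hc
    apply h012
    exact (Col.line_eq_of_two (z := x2) hne01 h12.ne htx1 ht (Col.refl_right _ _) hc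
      (Col.refl_left _ _)).mpr (Col.refl_right _ _)
  have hL21 : ALine (insert e R) (insert t B) x2 x1 := (h12.insert hRR1 ht12).symm
  have hex2x1 : ¬ Col e x2 x1 := by
    intro hc
    apply h012
    exact (Col.line_eq_of_two (z := x2) hne01 hx2e.symm m8'.2 hce (Col.refl_right _ _)
      (Col.refl_left _ _) hc).mpr (Col.refl_right _ _)
  refine stage hN1 hLwe m4 hLex2 hL21 m7 hex2x1 (Or.inl m5.symm) ?_
  intro t2 ht2 ht2R ht2B
  -- second near case
  have hbig2 := big_far (x0 := w) hex2x1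
  have hew : e ≠ w := hwe.symm
  have hx1L2 : ¬ Col e w x1 := by
    intro hc
    apply hw
    exact (Col.line_eq_of_two (z := w) hne01 hew m8'.2 hce (Col.refl_right _ _)
      (Col.refl_left _ _) hc).mpr (Col.refl_right _ _)
  have hx0L2 : ¬ Col e w x0 := by
    intro hc
    apply hw
    exact (Col.line_eq_of_two (z := w) hne01 hew m8'.1 hce (Col.refl_left _ _)
      (Col.refl_left _ _) hc).mpr (Col.refl_right _ _)
  have ht2e : t2 ≠ e := by rintro rfl; exact ht2R heR1
  have hx1B2 : x1 ∉ insert t2 (insert t B) := by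
    intro hh
    rcases Finset.mem_insert.mp hh with hh | hh
    · exact ht2R (hh ▸ hRR1 hL.2.1)
    · rcases Finset.mem_insert.mp hh with hh | hh
      · exact htx1 hh.symm
      · exact hx1B hh
  have hx0B2 : x0 ∉ insert t2 (insert t B) := by
    intro hh
    rcases Finset.mem_insert.mp hh with hh | hh
    · exact ht2R (hh ▸ hRR1 hL.1)
    · rcases Finset.mem_insert.mp hh with hh | hh
      · exact htR (hh ▸ hL.1)
      · exact hx0B hh
  have hpar2 : ∀ p ∈ insert t2 (insert t B), ∀ q ∈ insert t2 (insert t B), p ≠ q →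
      Par e w p q → (∃ z ∈ insert e R, Col p q z) ∨
      ∀ᶠ k : ℕ in atTop, ∀ z, Col p q z →
        ¬ Col x1 (pt e w ((k : ℤ) * sP w e x2 x1 * (2 + k * sQ w e x2 x1))) z := by
    intro p hp q hq hpq hP
    left
    have ht2' : Col e w t2 := ht2.swap12
    rcases Finset.mem_insert.mp hp with rfl | hp
    · exact ⟨e, heR1, (Col.line_iff hew hpq ht2' (hP.col ht2')).mp (Col.refl_left _ _)⟩
    · rcases Finset.mem_insert.mp hq with rfl | hq
      · have hpc : Col e w p := hP.symm_right.col ht2'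
        exact ⟨e, heR1, (Col.line_iff hew hpq hpc ht2').mp (Col.refl_left _ _)⟩
      · exact absurd hP.swap_left (m6 p hp q hq hpq)
  have b1 : ∀ᶠ k : ℕ in atTop, farP w e x2 x1 k ∉
      ((insert e R ∪ insert t2 (insert t B) : Finset Pt) : Set Pt) :=
    hbig2.avoid hew (Finset.finite_toSet _)
  have b2 : ∀ᶠ k : ℕ in atTop, ∀ z ∈ insert t2 (insert t B), ¬ Col x1 (farP w e x2 x1 k) z :=
    ev_alive_new hbig2 hew hx1B2 hx1L2
  have b3 : ∀ᶠ k : ℕ in atTop, ∀ z ∈ insert t2 (insert t B), ¬ Col x0 (farP w e x2 x1 k) z :=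
    ev_alive_new hbig2 hew hx0B2 hx0L2
  have b4 : ∀ᶠ k : ℕ in atTop, Uncov (insert (farP w e x2 x1 k) (insert e R))
      (insert t2 (insert t B)) x1 (farP w e x2 x1 k) :=
    ev_uncov_new hbig2 hew (hRR1 hL.2.1) hx1L2 hpar2
  have hEne : E ≠ 0 ∧ E ≠ 1 ∧ E ≠ 2 := by
    refine ⟨?_, ?_, ?_⟩ <;> · rintro h; rw [h] at m9; norm_num at m9
  have hG0 : E * (2 - E) ≠ 0 := mul_ne_zero hEne.1 (fun h => hEne.2.2 (by linarith))
  have hG1 : E * (2 - E) ≠ 1 := by
    intro h
    have : (E - 1) ^ 2 = 0 := by linarith [h, sq (E - 1), mul_comm E (2 - E)]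
    exact hEne.2.1 (by have := pow_eq_zero_iff (two_ne_zero) |>.mp this; linarith)
  have keyz : ∀ (k : ℕ) (z : Pt), cr3 e (pt x1 (farP w e x2 x1 k) (E * (2 - E))) z
      = (1 - E * (2 - E)) * cr3 e x1 z + (E * (2 - E) * cr3 e w z) *
        ((k : ℤ) * sP w e x2 x1 * (2 + k * sQ w e x2 x1)) := by
    intro k z
    unfold farP cr3 pt
    ring
  have b5 : ∀ᶠ k : ℕ in atTop, ∀ z ∈ insert t2 (insert t B),
      ¬ Col e (pt x1 (farP w e x2 x1 k) (E * (2 - E))) z := by
    rw [Filter.eventually_all_finset]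
    intro z hz
    by_cases hzL : Col e w z
    · -- `z = t2`
      have hz2 : z = t2 := by
        rcases Finset.mem_insert.mp hz with hz | hz
        · exact hz
        · exact absurd hzL.swap12 (m2 z hz)
      subst hz2
      refine Eventually.of_forall ?_
      intro k hc
      have h0 := col_iff_cr3.mp hc
      rw [keyz, col_iff_cr3.mp hzL] at h0
      have h1 : cr3 e x1 z ≠ 0 := by
        apply cr3_ne
        intro hc'
        apply hx1L2
        exact (Col.line_iff hew ht2e.symm (Col.refl_left _ _) hzL).mpr hc'.swap23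
      have h2 : (1 - E * (2 - E)) ≠ 0 := fun h => hG1 (by linarith)
      have h3 := mul_ne_zero h2 h1
      apply h3
      linarith
    · have h1 : cr3 e w z ≠ 0 := cr3_ne hzL
      filter_upwards [ev_lin hbig2 ((1 - E * (2 - E)) * cr3 e x1 z) (mul_ne_zero hG0 h1)]
        with k hk hc
      apply hk
      have h0 := col_iff_cr3.mp hc
      rw [keyz] at h0
      exact h0
  filter_upwards [b1, b2, b3, b4, b5] with k k1 k2 k3 k4 k5
  set e2 := farP w e x2 x1 k with he2
  have k1' : e2 ∉ insert e R ∧ e2 ∉ insert t2 (insert t B) := by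
    simp only [Finset.coe_union, Set.mem_union, Finset.mem_coe, not_or] at k1
    exact k1
  have hce2 : Col e w e2 := col_pt e w _
  have he2e : e2 ≠ e := by rintro h; exact k1'.1 (h ▸ heR1)
  have he2x1 : e2 ≠ x1 := by rintro h; exact k1'.1 (h ▸ hRR1 hL.2.1)
  have he2x0 : e2 ≠ x0 := by rintro h; exact k1'.1 (h ▸ hRR1 hL.1)
  have he2L : ¬ Col x0 x1 e2 := by
    intro hc
    apply hw
    exact (Col.line_eq_of_two (z := w) hne01 hew he2e.symm hce hc (Col.refl_left _ _) hce2).mpr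
      (Col.refl_right _ _)
  have he2R : e2 ∈ insert e2 (insert e R) := Finset.mem_insert_self _ _
  have hR1R2 : insert e R ⊆ insert e2 (insert e R) := Finset.subset_insert _ _
  have hN2 : NoThreat (insert e2 (insert e R)) (insert t2 (insert t B)) :=
    hN1.of_uncov m4 hR1R2 ht2 ht2R ht2B
  have hcg2 : Col e2 x1 (pt x1 e2 (E * (2 - E))) := (col_pt x1 e2 _).swap12
  have hcf2 : Col e2 x0 (pt e2 x0 (E - 1)) := col_pt e2 x0 _
  have hg2a : pt x1 e2 (E * (2 - E)) ≠ e2 := by
    intro hc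
    have : pt x1 e2 (E * (2 - E)) = pt x1 e2 1 := by
      rw [hc]; unfold pt; simp
    exact hG1 (pt_injective he2x1.symm this)
  have hg2b : pt x1 e2 (E * (2 - E)) ≠ x1 := by
    intro hc
    have : pt x1 e2 (E * (2 - E)) = pt x1 e2 0 := by
      rw [hc]; unfold pt; simp
    exact hG0 (pt_injective he2x1.symm this)
  have hf2a : pt e2 x0 (E - 1) ≠ e2 := by
    intro hc
    have : pt e2 x0 (E - 1) = pt e2 x0 0 := by
      rw [hc]; unfold pt; simp
    have h2 := pt_injective he2x0 this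
    exact hEne.2.1 (by linarith)
  have hf2b : pt e2 x0 (E - 1) ≠ x0 := by
    intro hc
    have : pt e2 x0 (E - 1) = pt e2 x0 1 := by
      rw [hc]; unfold pt; simp
    have h2 := pt_injective he2x0 this
    exact hEne.2.2 (by linarith)
  have hegf : Col e (pt x1 e2 (E * (2 - E))) (pt e2 x0 (E - 1)) := by
    rw [heE]
    unfold Col pt
    ring
  refine fin_win (c := e2) (v := x1) (v' := x0) (e := e) (g := pt x1 e2 (E * (2 - E)))
    (f := pt e2 x0 (E - 1)) hN2
    ⟨he2R, hR1R2 (hRR1 hL.2.1), he2x1, fun z hz hc => k2 z hz hc.swap12⟩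
    ⟨he2R, hR1R2 (hRR1 hL.1), he2x0, fun z hz hc => k3 z hz hc.swap12⟩
    k4.symm ?_ (hR1R2 heR1) ?_ hcg2 hg2a hg2b hcf2 hf2a hf2b hegf k5
  · intro hc; exact he2L hc.rot.swap12
  · intro hc
    apply he2L
    have h1 : Col x1 e e2 := hc.rot
    exact (Col.line_iff hne01 m8'.2.symm (Col.refl_right _ _) hce).mpr h1

end Pool.Agent.K4L
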