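import Pool.Agent.K4L.Base

/-!
# Kaplansky's 4-in-a-line: from the predicate `Win` to a strategy
-/

namespace Pool.Agent.K4L

/-- `Four` is monotone in the first and antitone in the second argument -/
theorem Four.mono {A A' B B' : Finset Pt} (h : Four A B) (hA : A ⊆ A') (hB : B' ⊆ B) :
    Four A' B' := by
  obtain ⟨u, hu, v, hv, w, hw, t, ht, h1, h2, h3, h4, h5, h6, h7, h8, h9⟩ := h
  exact ⟨u, hA hu, v, hA hv, w, hA hw, t, hA ht, h1, h2, h3, h4, h5, h6, h7, h8,
    fun z hz => h9 z (hB hz)⟩

/-- red stones among the first `k` moves of `m` -/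
def redF (m : ℕ → Pt) (k : ℕ) : Finset Pt := ((Finset.range k).filter (fun j => j % 2 = 0)).image m
/-- blue stones among the first `k` moves of `m` -/
def blueF (m : ℕ → Pt) (k : ℕ) : Finset Pt := ((Finset.range k).filter (fun j => j % 2 = 1)).image m

theorem mem_redF {m : ℕ → Pt} {k : ℕ} {z : Pt} : z ∈ redF m k ↔ ∃ j, j < k ∧ j % 2 = 0 ∧ m j = z := by
  unfold redF
  simp only [Finset.mem_image, Finset.mem_filter, Finset.mem_range, and_assoc]

theorem mem_blueF {m : ℕ → Pt} {k : ℕ} {z : Pt} :
    z ∈ blueF m k ↔ ∃ j, j < k ∧ j % 2 = 1 ∧ m j = z := by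
  unfold blueF
  simp only [Finset.mem_image, Finset.mem_filter, Finset.mem_range, and_assoc]

theorem coe_redF (m : ℕ → Pt) (k : ℕ) : ((redF m k : Finset Pt) : Set Pt) = redStones m k := by
  ext z
  simp only [Finset.mem_coe, mem_redF]
  rfl

theorem coe_blueF (m : ℕ → Pt) (k : ℕ) : ((blueF m k : Finset Pt) : Set Pt) = blueStones m k := by
  ext z
  simp only [Finset.mem_coe, mem_blueF]
  rfl

theorem redF_add_two (m : ℕ → Pt) (k : ℕ) :
    redF m (k + 2) = insert (m 0) (redF (fun j => m (j + 2)) k) := by
  ext z
  simp only [Finset.mem_insert, mem_redF]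
  constructor
  · rintro ⟨j, h1, h2, rfl⟩
    by_cases hj : j = 0
    · left; rw [hj]
    · right
      refine ⟨j - 2, by omega, by omega, ?_⟩
      congr 1; omega
  · rintro (rfl | ⟨j, h1, h2, rfl⟩)
    · exact ⟨0, by omega, by omega, rfl⟩
    · exact ⟨j + 2, by omega, by omega, rfl⟩

theorem blueF_add_two (m : ℕ → Pt) (k : ℕ) :
    blueF m (k + 2) = insert (m 1) (blueF (fun j => m (j + 2)) k) := by
  ext z
  simp only [Finset.mem_insert, mem_blueF]
  constructor
  · rintro ⟨j, h1, h2, rfl⟩
    by_cases hj : j = 1
    · left; rw [hj]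
    · right
      refine ⟨j - 2, by omega, by omega, ?_⟩
      congr 1; omega
  · rintro (rfl | ⟨j, h1, h2, rfl⟩)
    · exact ⟨1, by omega, by omega, rfl⟩
    · exact ⟨j + 2, by omega, by omega, rfl⟩

/-- First has a winning strategy from the position `(R, B)` -/
def Strat (R B : Finset Pt) : Prop :=
  ∃ s : List Pt → Pt, (∀ h, s h ∉ h ∧ s h ∉ R ∧ s h ∉ B) ∧
    ∀ m : ℕ → Pt, Function.Injective m → (∀ k, m k ∉ R ∧ m k ∉ B) →
      (∀ k, m (2 * k) = s ((List.range (2 * k)).map m)) →
      ∃ k, Four (R ∪ redF m k) (B ∪ blueF m k) ∧ ∀ j < k, ¬ Four (B ∪ blueF m j) (R ∪ redF m j)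

theorem range_add_two_map (m : ℕ → Pt) (n : ℕ) :
    (List.range (n + 2)).map m = m 0 :: m 1 :: (List.range n).map (fun k => m (k + 2)) := by
  rw [List.range_succ_eq_map, List.range_succ_eq_map]
  simp [List.map_map, Function.comp_def]

/-- a rule choosing a free point -/
theorem exists_fresh (R B : Finset Pt) :
    ∃ f : List Pt → Pt, ∀ h, f h ∉ h ∧ f h ∉ R ∧ f h ∉ B := by
  have : ∀ h : List Pt, ∃ z : Pt, z ∉ h ∧ z ∉ R ∧ z ∉ B := by
    intro h
    obtain ⟨z, hz⟩ := exists_free (h.toFinset ∪ R ∪ B)
    simp only [Finset.mem_union, List.mem_toFinset, not_or] at hz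
    exact ⟨z, hz.1.1, hz.1.2, hz.2⟩
  choose f hf using this
  exact ⟨f, hf⟩

theorem strat_of_win {R B : Finset Pt} (h : Win R B) : ¬ Four B R → Strat R B := by
  classical
  induction h with
  | now R B x hxR hxB h4 =>
    intro h0
    obtain ⟨f, hf⟩ := exists_fresh R B
    refine ⟨fun h => if h = [] then x else f h, ?_, ?_⟩
    · intro h
      by_cases hh : h = []
      · simp only [hh, if_true]
        exact ⟨by simp, hxR, hxB⟩
      · simp only [hh, if_false]
        exact hf h
    · intro m hm hfree hs
      have h0' := hs 0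
      simp only [mul_zero, List.range_zero, List.map_nil, if_true] at h0'
      refine ⟨1, ?_, ?_⟩
      · apply h4.mono
        · intro z hz
          rcases Finset.mem_insert.mp hz with rfl | hz
          · apply Finset.mem_union_right
            rw [mem_redF]
            exact ⟨0, by omega, by omega, h0'⟩
          · exact Finset.mem_union_left _ hz
        · intro z hz
          rcases Finset.mem_union.mp hz with hz | hz
          · exact hz
          · rw [mem_blueF] at hz
            obtain ⟨j, h1, h2, _⟩ := hz
            omega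
      · intro j hj hc
        have : j = 0 := by omega
        subst this
        apply h0
        apply hc.mono
        · intro z hz
          rcases Finset.mem_union.mp hz with hz | hz
          · exact hz
          · rw [mem_blueF] at hz
            obtain ⟨j, h1, h2, _⟩ := hz
            omega
        · exact Finset.subset_union_left
  | step R B x hxR hxB hno hwin ih =>
    intro h0
    obtain ⟨f, hf⟩ := exists_fresh R B
    have hS : ∀ y, y ∉ insert x R → y ∉ B → Strat (insert x R) (insert y B) :=
      fun y h1 h2 => ih y h1 h2 (hno y h1 h2)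
    have hS' : ∀ y, ∃ s : List Pt → Pt, (y ∉ insert x R → y ∉ B →
        ((∀ h, s h ∉ h ∧ s h ∉ insert x R ∧ s h ∉ insert y B) ∧
        ∀ m : ℕ → Pt, Function.Injective m → (∀ k, m k ∉ insert x R ∧ m k ∉ insert y B) →
          (∀ k, m (2 * k) = s ((List.range (2 * k)).map m)) →
          ∃ k, Four (insert x R ∪ redF m k) (insert y B ∪ blueF m k) ∧
            ∀ j < k, ¬ Four (insert y B ∪ blueF m j) (insert x R ∪ redF m j))) := by
      intro y
      by_cases h1 : y ∉ insert x R ∧ y ∉ B
      · obtain ⟨s, hs⟩ := hS y h1.1 h1.2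
        exact ⟨s, fun _ _ => hs⟩
      · exact ⟨f, fun h2 h3 => absurd ⟨h2, h3⟩ h1⟩
    choose S hSS using hS'
    refine ⟨fun h => match h with
      | [] => x
      | [a] => f [a]
      | a :: b :: h' => if a = x ∧ b ∉ insert x R ∧ b ∉ B then S b h' else f (a :: b :: h'), ?_, ?_⟩
    · intro h
      match h with
      | [] => exact ⟨by simp, hxR, hxB⟩
      | [a] => exact hf [a]
      | a :: b :: h' =>
        by_cases hc : a = x ∧ b ∉ insert x R ∧ b ∉ B
        · simp only [hc, if_true, not_false_eq_true, and_self]
          obtain ⟨hS1, _⟩ := hSS b hc.2.1 hc.2.2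
          obtain ⟨q1, q2, q3⟩ := hS1 h'
          simp only [Finset.mem_insert, not_or] at q2 q3
          refine ⟨?_, q2.2, q3.2⟩
          simp only [List.mem_cons, not_or]
          exact ⟨q2.1, q3.1, q1⟩
        · simp only [hc, if_false]
          exact hf _
    · intro m hm hfree hs
      have hx0 : m 0 = x := by
        have := hs 0
        simpa using this
      set y := m 1 with hy
      have hyx : y ≠ x := by
        rw [← hx0, hy]
        intro hc
        have := hm hc
        omega
      have hyR : y ∉ insert x R := by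
        simp only [Finset.mem_insert, not_or]
        exact ⟨hyx, (hfree 1).1⟩
      have hyB : y ∉ B := (hfree 1).2
      obtain ⟨_, hS2⟩ := hSS y hyR hyB
      obtain ⟨k, hk1, hk2⟩ := hS2 (fun j => m (j + 2)) (by
          intro i j hij
          have := hm hij
          omega) (by
          intro k
          simp only [Finset.mem_insert, not_or]
          refine ⟨⟨?_, (hfree (k+2)).1⟩, ?_, (hfree (k+2)).2⟩
          · rw [← hx0]; intro hc
            have := hm hc
            omega
          · rw [hy]; intro hc
            have := hm hc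
            omega) (by
          intro k
          have h1 := hs (k + 1)
          rw [show 2 * (k + 1) = 2 * k + 2 by ring, range_add_two_map] at h1
          simp only [hx0, ← hy, hyR, hyB, if_true, not_false_eq_true, and_self] at h1
          exact h1)
      have e1 : ∀ j, R ∪ redF m (j + 2) = insert x R ∪ redF (fun j => m (j + 2)) j := by
        intro j
        rw [redF_add_two, hx0]
        ext z
        simp only [Finset.mem_union, Finset.mem_insert]
        tauto
      have e2 : ∀ j, B ∪ blueF m (j + 2) = insert y B ∪ blueF (fun j => m (j + 2)) j := by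
        intro j
        rw [blueF_add_two, ← hy]
        ext z
        simp only [Finset.mem_union, Finset.mem_insert]
        tauto
      refine ⟨k + 2, ?_, ?_⟩
      · rw [e1, e2]; exact hk1
      · intro j hj
        by_cases hj2 : j < 2
        · intro hc
          apply h0
          apply hc.mono
          · intro z hz
            rcases Finset.mem_union.mp hz with hz | hz
            · exact hz
            · rw [mem_blueF] at hz
              obtain ⟨i, h1, h2, _⟩ := hz
              omega
          · exact Finset.subset_union_left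
        · obtain ⟨i, rfl⟩ : ∃ i, j = i + 2 := ⟨j - 2, by omega⟩
          rw [e1, e2]
          exact hk2 i (by omega)

/-- the base theorem: a proof of `Win ∅ ∅` gives a winning strategy of First in 4-in-a-line -/
theorem firstHas_of_win (h : Win ∅ ∅) : FirstHasWinningStrategy 4 := by
  have h0 : ¬ Four (∅ : Finset Pt) ∅ := by
    rintro ⟨u, hu, _⟩
    simp at hu
  obtain ⟨s, hs1, hs2⟩ := strat_of_win h h0
  refine ⟨s, fun h => (hs1 h).1, ?_⟩
  intro m hm hc
  obtain ⟨k, hk1, hk2⟩ := hs2 m hm (by intro k; simp) hc
  simp only [Finset.empty_union] at hk1 hk2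
  have hex : ∃ k, Four (redF m k) (blueF m k) := ⟨k, hk1⟩
  classical
  refine ⟨Nat.find hex, ?_, ?_⟩
  · rw [← coe_redF, ← coe_blueF, hasLine_four_iff]
    exact Nat.find_spec hex
  · intro j hj
    have hjk : Nat.find hex ≤ k := Nat.find_min' hex hk1
    constructor
    · rw [← coe_redF, ← coe_blueF, hasLine_four_iff]
      exact Nat.find_min hex hj
    · rw [← coe_redF, ← coe_blueF, hasLine_four_iff]
      exact hk2 j (by omega)

end Pool.Agent.K4L
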