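import Pool.Agent.K4L.Engine

/-!
# The homothety fork: three collinear reds `v, v', w` with an integer ratio
-/

namespace Pool.Agent.K4L

/-- FORK with the factorisation `(λ - (1 - ρ)) (μ - ρ) = ρ (1 - ρ)`: reds `v, v'` and
`w = v + ρ (v' - v)`, a red centre `P` off the line, both lines `P v`, `P v'` alive, one of them
uncovered. The line through `w`, `P + λ (v - P)`, `P + μ (v' - P)` must have no blue stone. -/
theorem fork_win {R B : Finset Pt} {P v v' w : Pt} {ρ l m : ℤ} (hN : NoThreat R B)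
    (h1 : ALine R B P v) (h2 : ALine R B P v') (hU : Uncov R B P v ∨ Uncov R B P v')
    (hnc : ¬ Col P v v') (hw : w ∈ R) (hwe : w = pt v v' ρ) (hρ0 : ρ ≠ 0) (hρ1 : ρ ≠ 1)
    (hl0 : l ≠ 0) (hl1 : l ≠ 1) (hm0 : m ≠ 0) (hm1 : m ≠ 1)
    (hlm : (l - (1 - ρ)) * (m - ρ) = ρ * (1 - ρ))
    (hBl : ∀ z ∈ B, ¬ Col w (pt P v l) z) : Win R B := by
  have hvP : pt P v l ≠ P := by
    intro h
    have := pt_injective h1.ne (h.trans (show P = pt P v 0 by unfold pt; simp))
    exact hl0 this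
  have hvv : pt P v l ≠ v := by
    intro h
    have := pt_injective h1.ne (h.trans (show v = pt P v 1 by unfold pt; simp))
    exact hl1 this
  have hmP : pt P v' m ≠ P := by
    intro h
    have := pt_injective h2.ne (h.trans (show P = pt P v' 0 by unfold pt; simp))
    exact hm0 this
  have hmv : pt P v' m ≠ v' := by
    intro h
    have := pt_injective h2.ne (h.trans (show v' = pt P v' 1 by unfold pt; simp))
    exact hm1 this
  -- `w` is off both arms
  have hd : (v.1 - P.1) * (v'.2 - P.2) - (v.2 - P.2) * (v'.1 - P.1) ≠ 0 := by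
    intro h; apply hnc; unfold Col; linarith
  have hw1 : ¬ Col P v w := by
    intro h
    rw [hwe] at h
    unfold Col pt at h
    simp only at h
    have : ρ * ((v.1 - P.1) * (v'.2 - P.2) - (v.2 - P.2) * (v'.1 - P.1)) = 0 := by
      linear_combination h
    rcases mul_eq_zero.mp this with h' | h'
    · exact hρ0 h'
    · exact hd h'
  have hw2 : ¬ Col P v' w := by
    intro h
    rw [hwe] at h
    unfold Col pt at h
    simp only at h
    have : (1 - ρ) * ((v.1 - P.1) * (v'.2 - P.2) - (v.2 - P.2) * (v'.1 - P.1)) = 0 := by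
      linear_combination -h
    rcases mul_eq_zero.mp this with h' | h'
    · exact hρ1 (by linarith)
    · exact hd h'
  -- the three points are collinear
  have hc : Col w (pt P v l) (pt P v' m) := by
    rw [hwe]
    unfold Col pt
    simp only
    linear_combination ((v.1 - P.1) * (v'.2 - P.2) - (v.2 - P.2) * (v'.1 - P.1)) * hlm
  rcases hU with hU | hU
  · exact fin_win hN h1 h2 hU hnc hw hw1 (col_pt _ _ _) hvP hvv (col_pt _ _ _) hmP hmv hc hBl
  · have hne : w ≠ pt P v l := fun h => hw1 (h ▸ col_pt _ _ _)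
    have hne' : w ≠ pt P v' m := fun h => hw2 (h ▸ col_pt _ _ _)
    refine fin_win hN h2 h1 hU (fun h => hnc h.swap23) hw hw2 (col_pt _ _ _) hmP hmv
      (col_pt _ _ _) hvP hvv hc.swap23 ?_
    intro z hz hz'
    apply hBl z hz
    exact (Col.line_iff hne' hne (Col.refl_left _ _) hc.swap23).mp hz'

/-- the first fork: `l = 2 - ρ`, `m = ρ (2 - ρ)` -/
theorem fork_win1 {R B : Finset Pt} {P v v' w : Pt} {ρ : ℤ} (hN : NoThreat R B)
    (h1 : ALine R B P v) (h2 : ALine R B P v') (hU : Uncov R B P v ∨ Uncov R B P v')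
    (hnc : ¬ Col P v v') (hw : w ∈ R) (hwe : w = pt v v' ρ) (hρ0 : ρ ≠ 0) (hρ1 : ρ ≠ 1)
    (hρ2 : ρ ≠ 2) (hBl : ∀ z ∈ B, ¬ Col w (pt P v (2 - ρ)) z) : Win R B := by
  refine fork_win (l := 2 - ρ) (m := ρ * (2 - ρ)) hN h1 h2 hU hnc hw hwe hρ0 hρ1 ?_ ?_ ?_ ?_ ?_
    hBl
  · intro h; apply hρ2; linarith
  · intro h; apply hρ1; linarith
  · exact mul_ne_zero hρ0 (fun h => hρ2 (by linarith))
  · intro h
    have : (ρ - 1) * (ρ - 1) = 0 := by linear_combination -h
    rcases mul_eq_zero.mp this with h | h <;> exact hρ1 (by linarith)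
  · ring

/-- the second fork: `l = -ρ`, `m = ρ ^ 2` -/
theorem fork_win2 {R B : Finset Pt} {P v v' w : Pt} {ρ : ℤ} (hN : NoThreat R B)
    (h1 : ALine R B P v) (h2 : ALine R B P v') (hU : Uncov R B P v ∨ Uncov R B P v')
    (hnc : ¬ Col P v v') (hw : w ∈ R) (hwe : w = pt v v' ρ) (hρ0 : ρ ≠ 0) (hρ1 : ρ ≠ 1)
    (hρ2 : ρ ≠ -1) (hBl : ∀ z ∈ B, ¬ Col w (pt P v (-ρ)) z) : Win R B := by
  refine fork_win (l := -ρ) (m := ρ * ρ) hN h1 h2 hU hnc hw hwe hρ0 hρ1 ?_ ?_ ?_ ?_ ?_ hBl
  · intro h; apply hρ0; linarith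
  · intro h; apply hρ2; linarith
  · exact mul_ne_zero hρ0 hρ0
  · intro h
    have : (ρ - 1) * (ρ + 1) = 0 := by linear_combination h
    rcases mul_eq_zero.mp this with h | h
    · exact hρ1 (by linarith)
    · exact hρ2 (by linarith)
  · ring

end Pool.Agent.K4L
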