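import Pool.Agent.K4L.Fork

/-!
# The homothety fork with a rational ratio
-/

namespace Pool.Agent.K4L

/-- FORK, rational ratio `s / t0`, with more fork lines than blue stones -/
theorem fork_list {R B : Finset Pt} {P v v' w : Pt} {s t0 : ℤ} (hN : NoThreat R B)
    (hB : ∀ β ∈ B, β ∉ R)
    (h1 : ALine R B P v) (h2 : ALine R B P v') (hU : Uncov R B P v ∨ Uncov R B P v')
    (hnc : ¬ Col P v v') (hw : w ∈ R)
    (hwe1 : t0 * (w.1 - v.1) = s * (v'.1 - v.1)) (hwe2 : t0 * (w.2 - v.2) = s * (v'.2 - v.2))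
    (ht0 : t0 ≠ 0) (hs0 : s ≠ 0) (hs1 : s ≠ t0)
    (F : Finset ℤ) (hF : B.card < F.card)
    (hFl : ∀ l ∈ F, l ≠ 0 ∧ l ≠ 1 ∧ ∃ m, m ≠ 0 ∧ m ≠ 1 ∧
      (t0 * l - (t0 - s)) * (t0 * m - s) = s * (t0 - s)) : Win R B := by
  have hd : (v.1 - P.1) * (v'.2 - P.2) - (v.2 - P.2) * (v'.1 - P.1) ≠ 0 := by
    intro h; apply hnc; unfold Col; linarith
  -- `w` is off both arms
  have hw1 : ¬ Col P v w := by
    intro h
    unfold Col at h
    have : s * ((v.1 - P.1) * (v'.2 - P.2) - (v.2 - P.2) * (v'.1 - P.1)) = 0 := by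
      linear_combination t0 * h - (v.1 - P.1) * hwe2 + (v.2 - P.2) * hwe1
    rcases mul_eq_zero.mp this with h' | h'
    · exact hs0 h'
    · exact hd h'
  have hw2 : ¬ Col P v' w := by
    intro h
    unfold Col at h
    have : (t0 - s) * ((v.1 - P.1) * (v'.2 - P.2) - (v.2 - P.2) * (v'.1 - P.1)) = 0 := by
      linear_combination -t0 * h + (v'.1 - P.1) * hwe2 - (v'.2 - P.2) * hwe1
    rcases mul_eq_zero.mp this with h' | h'
    · exact hs1 (by linarith)
    · exact hd h'
  -- pigeonhole: some fork line has no blue stone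
  obtain ⟨l, hl, hfree⟩ : ∃ l ∈ F, ∀ z ∈ B, ¬ Col w (pt P v l) z := by
    by_contra hcon
    push Not at hcon
    choose! φ hφ using hcon
    obtain ⟨x, hx, y, hy, hne, he⟩ := Finset.exists_ne_map_eq_of_card_lt_of_maps_to hF
      (fun l hl => (hφ l hl).1)
    have hx' := (hφ x hx).2
    have hy' := (hφ y hy).2
    rw [← he] at hy'
    have hwz : w ≠ φ x := fun h => hB _ (hφ x hx).1 (h ▸ hw)
    have hGx : pt P v x ≠ pt P v y := fun h => hne (pt_injective h1.ne h)
    -- both points of the arm are on the line `w z`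
    apply hw1
    exact (Col.line_eq_of_two hwz h1.ne hGx hx'.swap23 hy'.swap23 (col_pt _ _ _)
      (col_pt _ _ _)).mp (Col.refl_left _ _)
  obtain ⟨hl0, hl1, m, hm0, hm1, hlm⟩ := hFl l hl
  have hvP : pt P v l ≠ P := by
    intro h
    have := pt_injective h1.ne (h.trans (show P = pt P v 0 by unfold pt; simp))
    exact hl0 this
  have hvv : pt P v l ≠ v := by
    intro h
    have := pt_injective h1.ne (h.trans (show v = pt P v 1 by unfold pt; simp))
    exact hl1 this
  have hmP : pt P v' m ≠ P := by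
    intro h
    have := pt_injective h2.ne (h.trans (show P = pt P v' 0 by unfold pt; simp))
    exact hm0 this
  have hmv : pt P v' m ≠ v' := by
    intro h
    have := pt_injective h2.ne (h.trans (show v' = pt P v' 1 by unfold pt; simp))
    exact hm1 this
  -- the three points are collinear
  have hc : Col w (pt P v l) (pt P v' m) := by
    have hc' : t0 * t0 * ((pt P v l).1 - w.1) * ((pt P v' m).2 - w.2) =
        t0 * t0 * ((pt P v l).2 - w.2) * ((pt P v' m).1 - w.1) := by
      unfold pt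
      simp only
      have e1 : t0 * (P.1 + l * (v.1 - P.1) - w.1) =
          t0 * (P.1 + l * (v.1 - P.1) - v.1) - s * (v'.1 - v.1) := by
        linear_combination -hwe1
      have e2 : t0 * (P.2 + l * (v.2 - P.2) - w.2) =
          t0 * (P.2 + l * (v.2 - P.2) - v.2) - s * (v'.2 - v.2) := by
        linear_combination -hwe2
      have e3 : t0 * (P.1 + m * (v'.1 - P.1) - w.1) =
          t0 * (P.1 + m * (v'.1 - P.1) - v.1) - s * (v'.1 - v.1) := by
        linear_combination -hwe1
      have e4 : t0 * (P.2 + m * (v'.2 - P.2) - w.2) =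
          t0 * (P.2 + m * (v'.2 - P.2) - v.2) - s * (v'.2 - v.2) := by
        linear_combination -hwe2
      have g1 : t0 * t0 * (P.1 + l * (v.1 - P.1) - w.1) * (P.2 + m * (v'.2 - P.2) - w.2) =
          (t0 * (P.1 + l * (v.1 - P.1) - w.1)) * (t0 * (P.2 + m * (v'.2 - P.2) - w.2)) := by ring
      have g2 : t0 * t0 * (P.2 + l * (v.2 - P.2) - w.2) * (P.1 + m * (v'.1 - P.1) - w.1) =
          (t0 * (P.2 + l * (v.2 - P.2) - w.2)) * (t0 * (P.1 + m * (v'.1 - P.1) - w.1)) := by ring
      rw [g1, g2, e1, e2, e3, e4]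
      linear_combination ((v.1 - P.1) * (v'.2 - P.2) - (v.2 - P.2) * (v'.1 - P.1)) * hlm
    unfold Col
    have h00 : t0 * t0 ≠ 0 := mul_ne_zero ht0 ht0
    apply mul_left_cancel₀ h00
    linear_combination hc'
  rcases hU with hU | hU
  · exact fin_win hN h1 h2 hU hnc hw hw1 (col_pt _ _ _) hvP hvv (col_pt _ _ _) hmP hmv hc hfree
  · have hne : w ≠ pt P v l := fun h => hw1 (h ▸ col_pt _ _ _)
    have hne' : w ≠ pt P v' m := fun h => hw2 (h ▸ col_pt _ _ _)
    refine fin_win hN h2 h1 hU (fun h => hnc h.swap23) hw hw2 (col_pt _ _ _) hmP hmv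
      (col_pt _ _ _) hvP hvv hc.swap23 ?_
    intro z hz hz'
    apply hfree z hz
    exact (Col.line_iff hne' hne (Col.refl_left _ _) hc.swap23).mp hz'

/-- fork solutions from a divisor `σ ≡ 1` mod `t0` of `s` -/
theorem fork_sol {s t0 σ s2 h : ℤ} (hs : s = σ * s2) (hσ : σ = 1 + t0 * h) :
    (t0 * (1 - s2 * h) - (t0 - s)) * (t0 * (σ * (1 - s2 * h)) - s) = s * (t0 - s) := by
  rw [hs, hσ]
  ring

/-- a finite set of fork solutions -/
theorem fork_sols {s t0 : ℤ} (n : ℕ) (ht0 : t0 ≠ 0) (hs0 : s ≠ 0)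
    (hs : ∀ i : ℕ, i < n → (1 + |t0| * (i + 1)) ∣ s)
    (hbig : 2 * |t0| < |s|) :
    ∃ F : Finset ℤ, F.card = n ∧ ∀ l ∈ F, l ≠ 0 ∧ l ≠ 1 ∧ ∃ m, m ≠ 0 ∧ m ≠ 1 ∧
      (t0 * l - (t0 - s)) * (t0 * m - s) = s * (t0 - s) := by
  classical
  have hT : 1 ≤ |t0| := Int.one_le_abs ht0
  -- `h i = sign t0 * (i + 1)`
  obtain ⟨ε, hε⟩ : ∃ ε : ℤ, t0 * ε = |t0| := by
    rcases abs_choice t0 with h | h
    · exact ⟨1, by rw [h]; ring⟩
    · exact ⟨-1, by rw [h]; ring⟩
  have hε0 : ε ≠ 0 := by
    rintro rfl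
    rw [mul_zero] at hε
    linarith
  choose! q hq using hs
  refine ⟨(Finset.range n).image (fun i : ℕ => 1 - q i * (ε * ((i : ℤ) + 1))), ?_, ?_⟩
  · rw [Finset.card_image_of_injOn, Finset.card_range]
    intro i hi j hj hij
    simp only [Finset.coe_range, Set.mem_Iio] at hi hj
    simp only at hij
    have h1 : q i * (ε * ((i : ℤ) + 1)) = q j * (ε * ((j : ℤ) + 1)) := by linarith
    have h2 : q i * ((i : ℤ) + 1) = q j * ((j : ℤ) + 1) := by
      apply mul_left_cancel₀ hε0
      linear_combination h1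
    have e1 := hq i hi
    have e2 := hq j hj
    -- `q (1 + T (i+1)) = s`, so `q + T q (i+1) = s`
    have h3 : q i = q j := by
      have h4 : q i + |t0| * (q i * ((i : ℤ) + 1)) = q j + |t0| * (q j * ((j : ℤ) + 1)) := by
        linear_combination -e1 + e2
      rw [h2] at h4
      linarith
    have h5 : q j ≠ 0 := by
      intro h0
      rw [h0, mul_zero] at e2
      exact hs0 e2
    rw [h3] at h2
    have h6 := mul_left_cancel₀ h5 h2
    have h7 : (i : ℤ) = j := by linarith
    exact_mod_cast h7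
  · intro l hl
    obtain ⟨i, hi, rfl⟩ := Finset.mem_image.mp hl
    rw [Finset.mem_range] at hi
    have e1 := hq i hi
    obtain ⟨I, hI⟩ : ∃ I : ℤ, I = (i : ℤ) + 1 := ⟨_, rfl⟩
    have hI1 : 1 ≤ I := by rw [hI]; have := Int.natCast_nonneg i; linarith
    rw [← hI] at e1 ⊢
    obtain ⟨Q, hQ⟩ : ∃ Q, Q = q i := ⟨_, rfl⟩
    rw [← hQ] at e1 ⊢
    have hQ0 : Q ≠ 0 := by
      intro h0
      rw [h0, mul_zero] at e1
      exact hs0 e1
    have hσ2 : 2 ≤ 1 + |t0| * I := by nlinarith
    -- `|Q I| > 1`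
    have hQI : 1 < |Q * (ε * I)| := by
      have a1 : |s| = (1 + |t0| * I) * |Q| := by
        rw [e1, abs_mul, abs_of_nonneg (by linarith : (0 : ℤ) ≤ 1 + |t0| * I)]
      have a2 : |Q * (ε * I)| = |Q| * (|ε| * I) := by
        rw [abs_mul, abs_mul, abs_of_nonneg (by linarith : (0 : ℤ) ≤ I)]
      have a3 : 1 ≤ |ε| := Int.one_le_abs hε0
      by_contra hle
      push Not at hle
      have a4 : 1 ≤ |Q| := Int.one_le_abs hQ0
      have a5 : |Q| * I ≤ 1 := by
        have : |Q| * I ≤ |Q| * (|ε| * I) := by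
          apply mul_le_mul_of_nonneg_left _ (abs_nonneg _)
          exact le_mul_of_one_le_left (by linarith) a3
        linarith
      have a6 : |s| ≤ 2 * |t0| := by
        rw [a1]
        have : (1 + |t0| * I) * |Q| = |Q| + |t0| * (|Q| * I) := by ring
        rw [this]
        have a7 : |Q| ≤ |Q| * I := le_mul_of_one_le_right (abs_nonneg _) hI1
        have a8 : |t0| * (|Q| * I) ≤ |t0| * 1 := mul_le_mul_of_nonneg_left a5 (abs_nonneg _)
        linarith
      linarith
    refine ⟨?_, ?_, (1 + |t0| * I) * (1 - Q * (ε * I)), ?_, ?_, ?_⟩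
    · intro h
      have : Q * (ε * I) = 1 := by linarith
      rw [this] at hQI
      norm_num at hQI
    · intro h
      have : Q * (ε * I) = 0 := by linarith
      rw [this] at hQI
      norm_num at hQI
    · intro h
      rcases mul_eq_zero.mp h with h | h
      · linarith
      · have : Q * (ε * I) = 1 := by linarith
        rw [this] at hQI
        norm_num at hQI
    · intro h
      have h2 := Int.isUnit_iff.mp (IsUnit.of_mul_eq_one _ h)
      rcases h2 with h2 | h2 <;> linarith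
    · have := fork_sol (s := s) (t0 := t0) (σ := 1 + |t0| * I) (s2 := Q) (h := ε * I) e1
        (by rw [← hε]; ring)
      exact this

/-- there are `n` fork solutions with the ratio `s / t0` -/
def ForkSols (t0 s : ℤ) (n : ℕ) : Prop :=
  ∃ F : Finset ℤ, F.card = n ∧ ∀ l ∈ F, l ≠ 0 ∧ l ≠ 1 ∧ ∃ m, m ≠ 0 ∧ m ≠ 1 ∧
      (t0 * l - (t0 - s)) * (t0 * m - s) = s * (t0 - s)

/-- integer ratio `ρ` with `ρ - 1` divisible by `2, .., n + 1` -/
theorem forkSols_int {α ρ : ℤ} (n : ℕ) (hα : α ≠ 0)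
    (hdiv : ∀ i : ℕ, i < n → ((i : ℤ) + 2) ∣ ρ - 1) (hbig : (n : ℤ) + 2 < |ρ|) :
    ForkSols α (α * ρ) n := by
  classical
  choose! q hq using hdiv
  refine ⟨(Finset.range n).image (fun i : ℕ => 1 - ρ + ((i : ℤ) + 2)), ?_, ?_⟩
  · rw [Finset.card_image_of_injOn, Finset.card_range]
    intro i _ j _ hij
    simp only at hij
    have : (i : ℤ) = j := by linarith
    exact_mod_cast this
  · intro l hl
    obtain ⟨i, hi, rfl⟩ := Finset.mem_image.mp hl
    rw [Finset.mem_range] at hi
    have e1 := hq i hi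
    obtain ⟨Q, hQ⟩ : ∃ Q, Q = q i := ⟨_, rfl⟩
    rw [← hQ] at e1
    obtain ⟨I, hI⟩ : ∃ I : ℤ, I = (i : ℤ) + 2 := ⟨_, rfl⟩
    have hI2 : 2 ≤ I := by rw [hI]; have := Int.natCast_nonneg i; linarith
    have hIn : I ≤ n + 1 := by
      have : (i : ℤ) < n := by exact_mod_cast hi
      linarith
    rw [← hI] at e1 ⊢
    have hρI : |I| < |ρ| := by rw [abs_of_pos (by linarith : (0 : ℤ) < I)]; linarith
    have hρI1 : |I + 1| < |ρ| := by rw [abs_of_pos (by linarith : (0 : ℤ) < I + 1)]; linarith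
    have hρ0 : ρ ≠ 0 := by
      rintro rfl
      rw [abs_zero] at hρI
      have := abs_nonneg I
      linarith
    have hρ1 : ρ ≠ 1 := by
      rintro rfl
      rw [abs_one, abs_of_pos (by linarith : (0 : ℤ) < I)] at hρI
      linarith
    refine ⟨?_, ?_, ρ - ρ * Q, ?_, ?_, ?_⟩
    · intro h
      have : ρ = I + 1 := by linarith
      rw [this] at hρI1; exact lt_irrefl _ hρI1
    · intro h
      have : ρ = I := by linarith
      rw [this] at hρI; exact lt_irrefl _ hρI
    · intro h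
      have : ρ * (1 - Q) = 0 := by linear_combination h
      rcases mul_eq_zero.mp this with h1 | h1
      · exact hρ0 h1
      · have h2 : Q = 1 := by linarith
        rw [h2, mul_one] at e1
        have : ρ = I + 1 := by linarith
        rw [this] at hρI1; exact lt_irrefl _ hρI1
    · intro h
      -- `ρ - 1 = ρ Q = I Q`
      have h1 : ρ - 1 = ρ * Q := by linarith
      have h2 : (ρ - I) * Q = 0 := by linear_combination e1 - h1
      rcases mul_eq_zero.mp h2 with h3 | h3
      · have : ρ = I := by linarith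
        rw [this] at hρI; exact lt_irrefl _ hρI
      · rw [h3, mul_zero] at h1
        exact hρ1 (by linarith)
    · linear_combination (α * α * ρ) * e1

end Pool.Agent.K4L
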