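import Pool.Agent.K4L.K3UNearA
import Pool.Agent.K4L.ForkQ

/-!
# K3U, node 't near'
-/

namespace Pool.Agent.K4L

open Filter

theorem ev_fin {α : Type*} (s : Finset α) {P : α → ℤ → Prop}
    (h : ∀ a ∈ s, ∀ᶠ E : ℤ in cofinite, P a E) : ∀ᶠ E : ℤ in cofinite, ∀ a ∈ s, P a E :=
  (Filter.eventually_all_finset s).mpr h

theorem ev_fin2 {α : Type*} (s t : Finset α) {P : α → α → ℤ → Prop}
    (h : ∀ a ∈ s, ∀ b ∈ t, ∀ᶠ E : ℤ in cofinite, P a b E) :
    ∀ᶠ E : ℤ in cofinite, ∀ a ∈ s, ∀ b ∈ t, P a b E :=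
  ev_fin s (fun a ha => ev_fin t (h a ha))

theorem ev_linne (A c x : ℤ) (h : A ≠ 0 ∨ c ≠ x) : ∀ᶠ E : ℤ in cofinite, A * E + c ≠ x := by
  by_cases hA : A = 0
  · rcases h with h | h
    · exact absurd hA h
    · refine Filter.Eventually.of_forall ?_
      intro E
      rw [hA, zero_mul, zero_add]
      exact h
  · filter_upwards [ev_linC A c |x| hA] with E hE
    intro he
    rw [he] at hE
    exact lt_irrefl _ hE

/-- node 't near', normal form `c = (0, 0)`, `a = (α, 0)`, `b = (b1, b2)`, `e = (E, 0)` -/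
theorem k3u_nearT {R B : Finset Pt} {α b1 b2 g v1 v2 : ℤ} (hN : NoThreat R B)
    (hB : ∀ β ∈ B, β ∉ R) (hα : α ≠ 0) (hb2 : b2 ≠ 0) (hg1 : b1 = g * v1) (hg2 : b2 = g * v2)
    (hL : ALine R B (0, 0) (α, 0)) (hLU : Uncov R B (0, 0) (α, 0))
    (hM : ALine R B (0, 0) (b1, b2)) (hMU : Uncov R B (0, 0) (b1, b2)) :
    ∃ L0 : ℤ, ∀ ℓ : ℤ, Prime ℓ → L0 < ℓ → ∀ Kt : ℤ, ∀ᶠ E : ℤ in cofinite,
      ForkSols α E (B.card + 3) → IsCoprime (E - b1) v2 →
      ¬ ℓ ∣ E → ¬ ℓ ∣ E - α → (∀ β ∈ B, ¬ ℓ ∣ (b2 * β.1 - b1 * β.2) - E * (b2 - β.2)) →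
      ∀ t, Col (0, 0) (α, 0) t → t ∉ insert (E, 0) R → t ∉ B → |t.1| ≤ Kt →
        Win (insert (E, 0) R) (insert t B) := by
  classical
  have cR : ((0, 0) : Pt) ∈ R := hL.1
  have aR : ((α, 0) : Pt) ∈ R := hL.2.1
  have bR : ((b1, b2) : Pt) ∈ R := hM.2.1
  -- near data
  have hy : ∀ β ∈ B, β.2 ≠ 0 := by
    intro β hβ h
    apply hL.2.2.2 β hβ
    unfold Col; simp only; rw [h]; ring
  have hD : ∀ β ∈ B, b2 * β.1 - b1 * β.2 ≠ 0 := by
    intro β hβ h
    apply hM.2.2.2 β hβ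
    unfold Col; simp only; linarith
  refine ⟨(∑ β ∈ B, (|β.2| + |α * (b2 - β.2) * β.2|)) + 3, ?_⟩
  intro ℓ hℓ hL0 Kt
  have hsum : ∀ β ∈ B, |β.2| + |α * (b2 - β.2) * β.2| ≤
      ∑ β ∈ B, (|β.2| + |α * (b2 - β.2) * β.2|) := by
    intro β hβ
    exact Finset.single_le_sum (f := fun β : Pt => |β.2| + |α * (b2 - β.2) * β.2|)
      (fun z _ => by positivity) hβ
  have hsum0 : 0 ≤ ∑ β ∈ B, (|β.2| + |α * (b2 - β.2) * β.2|) :=
    Finset.sum_nonneg (fun z _ => by positivity)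
  have hyl : ∀ β ∈ B, |β.2| < ℓ := by
    intro β hβ
    have h1 := hsum β hβ
    have h2 : 0 ≤ |α * (b2 - β.2) * β.2| := abs_nonneg _
    linarith
  have hal : ∀ β ∈ B, |α * (b2 - β.2) * β.2| < ℓ := by
    intro β hβ
    have h1 := hsum β hβ
    have h2 : 0 ≤ |β.2| := abs_nonneg _
    linarith
  have hℓ3 : 3 < ℓ := by linarith
  obtain ⟨κ, hκ⟩ : ∃ κ : ℤ, κ = ℓ + 1 := ⟨_, rfl⟩
  have hκℓ : κ - 1 = ℓ := by rw [hκ]; ring
  have hpκ : Prime (κ - 1) := by rw [hκℓ]; exact hℓ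
  have hκ4 : 4 < κ := by linarith
  -- the range of `t`
  obtain ⟨T0, hT0⟩ : ∃ T0 : Finset Pt,
      T0 = B ∪ (Finset.Icc (-Kt) Kt).image (fun τ : ℤ => ((τ, 0) : Pt)) := ⟨_, rfl⟩
  have hf2 : (1 - κ) * b2 ≠ 0 := mul_ne_zero (by linarith) hb2
  -- events
  have C1 : ∀ᶠ E : ℤ in cofinite, ∀ u ∈ T0, ∀ v ∈ T0, v.2 ≠ u.2 →
      |b2 * ((v.1 - u.1) * (b2 - u.2) - (v.2 - u.2) * (b1 - u.1))| <
      |(v.2 - u.2) * E + (b2 * (v.1 - u.1) - (v.2 - u.2) * b1)| := by
    refine ev_fin2 T0 T0 ?_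
    intro u _ v _
    by_cases h : v.2 = u.2
    · exact Filter.Eventually.of_forall (fun E h' => absurd h h')
    · filter_upwards [ev_linC (v.2 - u.2) (b2 * (v.1 - u.1) - (v.2 - u.2) * b1)
        |b2 * ((v.1 - u.1) * (b2 - u.2) - (v.2 - u.2) * (b1 - u.1))|
        (sub_ne_zero.mpr h)] with E hE _
      exact hE
  have C2 : ∀ p : ℤ, ∀ᶠ E : ℤ in cofinite, ∀ u ∈ T0, ∀ v ∈ T0, v.2 ≠ u.2 →
      |((v.1 - u.1) * u.2 - (v.2 - u.2) * (u.1 - p)) * ((1 - κ) * b2)| <
      |(v.1 - u.1) * ((1 - κ) * b2) - (v.2 - u.2) * (κ * E + (1 - κ) * b1 - p)| := by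
    intro p
    refine ev_fin2 T0 T0 ?_
    intro u _ v _
    by_cases h : v.2 = u.2
    · exact Filter.Eventually.of_forall (fun E h' => absurd h h')
    · filter_upwards [ev_linC (-((v.2 - u.2) * κ))
        ((v.1 - u.1) * ((1 - κ) * b2) - (v.2 - u.2) * ((1 - κ) * b1 - p))
        |((v.1 - u.1) * u.2 - (v.2 - u.2) * (u.1 - p)) * ((1 - κ) * b2)|
        (neg_ne_zero.mpr (mul_ne_zero (sub_ne_zero.mpr h) (by linarith)))] with E hE _
      have e1 : (v.1 - u.1) * ((1 - κ) * b2) - (v.2 - u.2) * (κ * E + (1 - κ) * b1 - p) =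
        -((v.2 - u.2) * κ) * E +
          ((v.1 - u.1) * ((1 - κ) * b2) - (v.2 - u.2) * ((1 - κ) * b1 - p)) := by ring
      rw [e1]
      exact hE
  have C3 : ∀ᶠ E : ℤ in cofinite, ∀ β ∈ B,
      blC 1 (-(κ * (b2 - β.2))) (-β.2) 0 0 (-((b2 * β.1 - b1 * β.2) * (1 - κ)))
        (-(b2 * β.1 - b1 * β.2)) ((b2 * β.1 - b1 * β.2) * b2) < |E| :=
    ev_fin B (fun β _ => ev_abs _)
  have C3a : ∀ᶠ E : ℤ in cofinite, ∀ β ∈ B,
      blC 1 (-(κ * (b2 - β.2))) (-β.2) 0 (-α)
        (-((b2 * β.1 - b1 * β.2) * (1 - κ)) + α * (b2 - β.2))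
        (-(b2 * β.1 - b1 * β.2) + α * b2)
        ((b2 * β.1 - b1 * β.2) * b2 - α * b2 * (b2 - β.2)) < |E| :=
    ev_fin B (fun β _ => ev_abs _)
  have C4 : ∀ᶠ E : ℤ in cofinite, ∀ τ ∈ Finset.Icc (-Kt) Kt,
      blC 1 (-(κ * (b2 - 0))) (-0) 0 0 (-((b2 * τ) * (1 - κ))) (-(b2 * τ)) ((b2 * τ) * b2) < |E| :=
    ev_fin _ (fun τ _ => ev_abs _)
  have C4a : ∀ᶠ E : ℤ in cofinite, ∀ τ ∈ Finset.Icc (-Kt) Kt,
      blC 1 (-(κ * (b2 - 0))) (-0) 0 (-α) (-((b2 * τ) * (1 - κ)) + α * (b2 - 0))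
      (-(b2 * τ) + α * b2) ((b2 * τ) * b2 - α * b2 * (b2 - 0)) < |E| :=
    ev_fin _ (fun τ _ => ev_abs _)
  have C5 : ∀ᶠ E : ℤ in cofinite, ∀ β ∈ B, ∀ β' ∈ B,
      |b2 * β.1 - b1 * β.2| * (|b2| + κ * |b2 - β'.2| * (1 + |β'.2|) + |β.2| * κ) < |E| ∧
      |(b2 * β.1 - b1 * β.2) * ((1 - κ) * (((b2 * β'.1 - b1 * β'.2) - α * (b2 - β'.2)) * β.2 -
        (b2 * β'.1 - b1 * β'.2) * β'.2) + α * (b2 - β'.2) * β'.2)| < |E| :=
    ev_fin2 B B (fun β _ β' _ => (ev_abs _).and (ev_abs _))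
  have C6 : ∀ᶠ E : ℤ in cofinite, ∀ z ∈ R ∪ B, κ * E + (1 - κ) * b1 ≠ z.1 :=
    ev_fin _ (fun z _ => ev_linne _ _ _ (Or.inl (by linarith)))
  have C7 : ∀ᶠ E : ℤ in cofinite, ∀ β ∈ B,
      (β.2 - b2) * E + (-(b1 * (β.2 - b2)) + b2 * (β.1 - b1)) ≠ 0 := by
    refine ev_fin _ ?_
    intro β hβ
    apply ev_linne
    by_cases h : β.2 - b2 = 0
    · right
      rw [h]
      intro h'
      have h1 : b2 * (β.1 - b1) = 0 := by linarith
      rcases mul_eq_zero.mp h1 with h2 | h2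
      · exact hb2 h2
      · apply hB β hβ
        have : β = (b1, b2) := Prod.ext (by simp only; linarith) (by simp only; linarith)
        rw [this]; exact bR
    · exact Or.inl h
  have C8 : ∀ p : ℤ, ∀ᶠ E : ℤ in cofinite, ∀ β ∈ B,
      (κ * β.2) * E + (((1 - κ) * b1 - p) * β.2 - (1 - κ) * b2 * (β.1 - p)) ≠ 0 :=
    fun p => ev_fin _ (fun β hβ => ev_linne _ _ _ (Or.inl (mul_ne_zero (by linarith) (hy β hβ))))
  filter_upwards [C1, C2 0, C2 α, C3, C3a, C4, C4a, C5, C6, C7, C8 0, C8 α, ev_abs (2 * |α|)]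
    with E c1 c20 c2a c3 c3a c4 c4a c5 c6 c7 c80 c8a c9
  intro hdiv hcop hE0 hEα hcl t hct htR htB hnear
  rw [← hκℓ] at hE0 hEα hcl hyl hal
  -- `t = (τ, 0)`
  obtain ⟨τ, rfl⟩ : ∃ τ : ℤ, t = (τ, 0) := by
    refine ⟨t.1, ?_⟩
    unfold Col at hct
    simp only at hct
    have : α * t.2 = 0 := by linarith
    rcases mul_eq_zero.mp this with h | h
    · exact absurd h hα
    · exact Prod.ext rfl h
  have hτ0 : τ ≠ 0 := by
    rintro rfl
    exact htR (Finset.mem_insert_of_mem cR)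
  have hτE : τ ≠ E := by
    rintro rfl
    exact htR (Finset.mem_insert_self _ _)
  have hτα : τ ≠ α := by
    rintro rfl
    exact htR (Finset.mem_insert_of_mem aR)
  have hE00 : E ≠ 0 := by
    rintro rfl
    rw [abs_zero] at c9
    have := abs_nonneg α
    linarith
  have hEne : E ≠ α := by
    rintro rfl
    have := abs_nonneg E
    linarith
  have hN1 : NoThreat (insert (E, 0) R) (insert (τ, 0) B) :=
    hN.of_uncov hLU (Finset.subset_insert _ _) hct (fun h => htR (Finset.mem_insert_of_mem h)) htB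
  have hB1 : ∀ β ∈ insert ((τ, 0) : Pt) B, β ∉ insert ((E, 0) : Pt) R := by
    intro β hβ hR
    rcases Finset.mem_insert.mp hβ with rfl | hβ
    · exact htR hR
    · rcases Finset.mem_insert.mp hR with rfl | hR
      · exact hy _ hβ rfl
      · exact hB β hβ hR
  -- `t` is near
  have hτK : τ ∈ Finset.Icc (-Kt) Kt := by
    rw [Finset.mem_Icc]
    exact abs_le.mp hnear
  have hT0t : ((τ, 0) : Pt) ∈ T0 := by
    rw [hT0]
    exact Finset.mem_union_right _ (Finset.mem_image.mpr ⟨τ, hτK, rfl⟩)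
  have hT0B : ∀ β ∈ insert ((τ, 0) : Pt) B, β ∈ T0 := by
    intro β hβ
    rcases Finset.mem_insert.mp hβ with rfl | hβ
    · exact hT0t
    · rw [hT0]; exact Finset.mem_union_left _ hβ
  -- horizontal pairs
  have hhor : ∀ u ∈ insert ((τ, 0) : Pt) B, ∀ v ∈ insert ((τ, 0) : Pt) B, u ≠ v → v.2 = u.2 →
      u ∈ B ∧ v ∈ B := by
    intro u hu v hv hne he
    rcases Finset.mem_insert.mp hu with rfl | hu
    · rcases Finset.mem_insert.mp hv with rfl | hv
      · exact absurd rfl hne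
      · exact absurd he (hy v hv)
    · rcases Finset.mem_insert.mp hv with rfl | hv
      · exact absurd he.symm (hy u hu)
      · exact ⟨hu, hv⟩
  -- `b e` is alive and uncovered
  have eR : ((E, 0) : Pt) ∈ insert ((E, 0) : Pt) R := Finset.mem_insert_self _ _
  have hbe : ALine (insert (E, 0) R) (insert (τ, 0) B) (b1, b2) (E, 0) := by
    refine ⟨Finset.mem_insert_of_mem bR, eR, ?_, ?_⟩
    · intro h; exact hb2 (congrArg Prod.snd h)
    · intro z hz hc
      unfold Col at hc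
      simp only at hc
      rcases Finset.mem_insert.mp hz with rfl | hz
      · simp only at hc
        have : b2 * (τ - E) = 0 := by linear_combination hc
        rcases mul_eq_zero.mp this with h | h
        · exact hb2 h
        · exact hτE (by linarith)
      · apply c7 z hz
        linear_combination hc
  have hbeU : Uncov (insert (E, 0) R) (insert (τ, 0) B) (b1, b2) (E, 0) := by
    intro z hz hzR hzB u hu v hv huv hc
    by_contra hred
    push Not at hred
    have hF := hred (b1, b2) (Finset.mem_insert_of_mem bR)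
    unfold Col at hF hz hc
    simp only at hF hz hc
    obtain ⟨h1, h2⟩ := near_be hb2 hF (c1 u (hT0B u hu) v (hT0B v hv)) hz hc
    obtain ⟨huB, hvB⟩ := hhor u hu v hv huv h1
    -- `v2 ∣ u.2`
    have h3 : v2 ∣ u.2 := by
      have h4 : v2 ∣ (E - b1) * (u.2 - b2) := by
        rw [h2] at hz
        exact ⟨-(g * (z.1 - b1)), by rw [hz, hg2]; ring⟩
      have h5 : v2 ∣ u.2 - b2 := by
        exact IsCoprime.dvd_of_dvd_mul_left hcop.symm h4
      have h6 : v2 ∣ b2 := ⟨g, by rw [hg2]; ring⟩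
      have := dvd_add h5 h6
      rwa [sub_add_cancel] at this
    obtain ⟨m, hm⟩ := h3
    have hne1 : v.1 - u.1 ≠ 0 := by
      intro h
      apply huv
      exact Prod.ext (by linarith) h1.symm
    have hw : Col u v (v1 * m, u.2) := by
      unfold Col; simp only; rw [h1]; ring
    have hwcb : Col (0, 0) (b1, b2) (v1 * m, u.2) := by
      unfold Col; simp only; rw [hm, hg1, hg2]; ring
    have hwR : ((v1 * m, u.2) : Pt) ∉ R := by
      intro h
      exact hred _ (Finset.mem_insert_of_mem h) hw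
    have hwB : ((v1 * m, u.2) : Pt) ∉ B := by
      intro h
      exact hM.2.2.2 _ h hwcb
    obtain ⟨w, hw1, hw2⟩ := hMU _ hwcb hwR hwB u huB v hvB huv hw
    exact hred w (Finset.mem_insert_of_mem hw1) hw2
  -- the move `f`
  obtain ⟨f, hf⟩ : ∃ f : Pt, f = (κ * E + (1 - κ) * b1, (1 - κ) * b2) := ⟨_, rfl⟩
  have hf2' : f.2 = (1 - κ) * b2 := by rw [hf]
  have hf1' : f.1 = κ * E + (1 - κ) * b1 := by rw [hf]
  have hfR : f ∉ insert ((E, 0) : Pt) R := by
    intro h
    rcases Finset.mem_insert.mp h with h | h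
    · apply hf2
      rw [← hf2', h]
    · exact c6 f (Finset.mem_union_left _ h) hf1'.symm
  have hfB : f ∉ insert ((τ, 0) : Pt) B := by
    intro h
    rcases Finset.mem_insert.mp h with h | h
    · apply hf2
      rw [← hf2', h]
    · exact c6 f (Finset.mem_union_right _ h) hf1'.symm
  have hfcol : Col (b1, b2) (E, 0) f := by
    rw [hf]; unfold Col; simp only; ring
  refine win_force hbe hfR hfB hfcol
    (hN1.mono (Finset.subset_insert _ _) (Finset.Subset.refl _)) ?_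
  intro t' ht'R ht'B ht'c
  -- the second answer
  have ht'E : (E - b1) * (b2 - t'.2) = b2 * (t'.1 - b1) := by
    unfold Col at ht'c
    simp only at ht'c
    linear_combination -ht'c
  have ht'f : t'.2 ≠ b2 - κ * b2 := by
    intro h
    apply ht'R
    have : t' = f := by
      rw [hf]
      refine Prod.ext ?_ ?_
      · simp only
        apply mul_left_cancel₀ hb2
        rw [h] at ht'E
        linear_combination -ht'E
      · simp only; rw [h]; ring
    rw [this]; exact Finset.mem_insert_self _ _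
  have hN2 : NoThreat (insert f (insert (E, 0) R)) (insert t' (insert (τ, 0) B)) :=
    hN1.of_uncov hbeU (Finset.subset_insert _ _) ht'c
      (fun h => ht'R (Finset.mem_insert_of_mem h)) ht'B
  have cR2 : ((0, 0) : Pt) ∈ insert f (insert (E, 0) R) :=
    Finset.mem_insert_of_mem (Finset.mem_insert_of_mem cR)
  have aR2 : ((α, 0) : Pt) ∈ insert f (insert (E, 0) R) :=
    Finset.mem_insert_of_mem (Finset.mem_insert_of_mem aR)
  have eR2 : ((E, 0) : Pt) ∈ insert f (insert (E, 0) R) :=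
    Finset.mem_insert_of_mem (Finset.mem_insert_self _ _)
  have fR2 : f ∈ insert f (insert (E, 0) R) := Finset.mem_insert_self _ _
  -- arms alive
  have harm : ∀ p : ℤ, ((p, 0) : Pt) ∈ R → p ≠ E → τ ≠ p →
      (∀ β ∈ B, (κ * β.2) * E + (((1 - κ) * b1 - p) * β.2 - (1 - κ) * b2 * (β.1 - p)) ≠ 0) →
      ALine (insert f (insert (E, 0) R)) (insert t' (insert (τ, 0) B)) f (p, 0) := by
    intro p hpR hpE hpτ hp8
    refine ⟨fR2, Finset.mem_insert_of_mem (Finset.mem_insert_of_mem hpR), ?_, ?_⟩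
    · intro h
      apply hf2
      rw [← hf2', h]
    · intro z hz hc
      rcases Finset.mem_insert.mp hz with rfl | hz
      · -- `t'` is on `b e`
        have h1 : z ≠ f := by
          rintro rfl; exact ht'R (Finset.mem_insert_self _ _)
        apply hf2
        -- both on `b e` and on `f p`: contradiction
        unfold Col at hc
        rw [hf] at hc
        simp only at hc
        have h2 : (b2 - z.2 - κ * b2) * (E - p) * b2 = 0 := by
          linear_combination b2 * hc + (1 - κ) * b2 * ht'E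
        rcases mul_eq_zero.mp h2 with h3 | h3
        · rcases mul_eq_zero.mp h3 with h4 | h4
          · exact absurd (by linarith) ht'f
          · exact absurd (by linarith) hpE
        · exact absurd h3 hb2
      · rcases Finset.mem_insert.mp hz with rfl | hz
        · unfold Col at hc
          rw [hf] at hc
          simp only at hc
          have : ((1 - κ) * b2) * (τ - p) = 0 := by linear_combination hc
          rcases mul_eq_zero.mp this with h | h
          · exact hf2 h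
          · exact hpτ (by linarith)
        · apply hp8 z hz
          unfold Col at hc
          rw [hf] at hc
          simp only at hc
          linear_combination -hc
  have hAc := harm 0 cR hE00.symm hτ0 c80
  have hAa := harm α aR (Ne.symm hEne) hτα c8a
  have hB2 : ∀ β ∈ insert t' (insert ((τ, 0) : Pt) B), β ∉ insert f (insert ((E, 0) : Pt) R) := by
    intro β hβ hR
    rcases Finset.mem_insert.mp hβ with rfl | hβ
    · exact ht'R hR
    · rcases Finset.mem_insert.mp hR with rfl | hR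
      · exact hfB hβ
      · exact hB1 β hβ hR
  -- the line through `f` and `(p, 0)`
  have hline : ∀ (p : ℤ) (z : Pt), Col f (p, 0) z →
      (z.1 - p) * ((1 - κ) * b2) = z.2 * (κ * E + (1 - κ) * b1 - p) := by
    intro p z hz
    rw [hf] at hz
    unfold Col at hz
    simp only at hz
    linear_combination hz
  -- near pairs
  have hnearp : ∀ p : ℤ, ((p, 0) : Pt) ∈ R → ¬ (κ - 1) ∣ E - p →
      (∀ u ∈ T0, ∀ v ∈ T0, v.2 ≠ u.2 →
        |((v.1 - u.1) * u.2 - (v.2 - u.2) * (u.1 - p)) * ((1 - κ) * b2)| <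
        |(v.1 - u.1) * ((1 - κ) * b2) - (v.2 - u.2) * (κ * E + (1 - κ) * b1 - p)|) →
      ∀ z, Col f (p, 0) z → ∀ u ∈ insert ((τ, 0) : Pt) B, ∀ v ∈ insert ((τ, 0) : Pt) B, u ≠ v →
      Col u v z → (∀ w ∈ insert f (insert ((E, 0) : Pt) R), ¬ Col u v w) → False := by
    intro p hpR hpE hbig z hz u hu v hv huv hc hred
    have hF := hred (p, 0) (Finset.mem_insert_of_mem (Finset.mem_insert_of_mem hpR))
    unfold Col at hF hc
    simp only at hF
    obtain ⟨h1, h2⟩ := near_pf hf2 hF (hbig u (hT0B u hu) v (hT0B v hv)) (hline p z hz) hc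
    obtain ⟨huB, _⟩ := hhor u hu v hv huv h1
    obtain ⟨L, hL1, _⟩ := fa_param hpκ hpE (hline p z hz)
    have h3 : (κ - 1) ∣ u.2 := ⟨-L, by rw [← h2, hL1]; ring⟩
    have h4 := Int.le_of_dvd (abs_pos.mpr (hy u huB)) ((dvd_abs _ _).mpr h3)
    have h5 := hyl u huB
    linarith
  -- hits of `f c`
  have hitc : ∀ z, Col f (0, 0) z → z ∉ insert f (insert ((E, 0) : Pt) R) →
      ∀ β ∈ insert ((τ, 0) : Pt) B, Col t' β z →
      β ∈ B ∧ β.2 ≠ b2 ∧ (b2 * β.1 - b1 * β.2) * t'.2 =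
        E * κ * β.2 * (b2 - β.2) + (b2 * β.1 - b1 * β.2) * β.2 * (1 - κ) := by
    intro z hz hzR β hβ hc
    have hl := hline 0 z hz
    have hl' : z.1 * ((1 - κ) * b2) = z.2 * (κ * E + (1 - κ) * b1) := by
      linear_combination hl
    obtain ⟨L, hL1, hL2⟩ := fc_param hpκ hE0 hl'
    have hLn0 : L ≠ 0 := by
      rintro rfl
      apply hzR
      have : z = (0, 0) := by
        refine Prod.ext ?_ (by rw [hL1]; ring)
        simp only
        have : b2 * z.1 = 0 := by rw [hL2]; ring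
        rcases mul_eq_zero.mp this with h | h
        · exact absurd h hb2
        · exact h
      rw [this]; exact cR2
    have hLnb : L ≠ b2 := by
      intro hLb
      rw [hLb] at hL1 hL2
      apply hzR
      have : z = f := by
        rw [hf]
        refine Prod.ext ?_ (by simp only; rw [hL1]; ring)
        simp only
        exact mul_left_cancel₀ hb2 hL2
      rw [this]; exact fR2
    unfold Col at hc
    have heq := fc_eq ht'E hL1 hL2 hc
    rcases Finset.mem_insert.mp hβ with rfl | hβB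
    · exfalso
      simp only at heq
      exact ttc_excl (c4 τ hτK) hLn0 ht'f (by linear_combination heq)
    · obtain ⟨g1, _, g3⟩ := fc_cls hpκ hb2 (hD β hβB) (hy β hβB) (hyl β hβB) (hcl β hβB)
        (c3 β hβB) hLn0 hLnb ht'f heq
      exact ⟨hβB, g1, g3⟩
  -- hits of `f a`
  have hita : ∀ z, Col f (α, 0) z → z ∉ insert f (insert ((E, 0) : Pt) R) →
      ∀ β ∈ insert ((τ, 0) : Pt) B, Col t' β z →
      β ∈ B ∧ ((β.2 ≠ b2 ∧ ((b2 * β.1 - b1 * β.2) - α * (b2 - β.2)) * t'.2 =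
        E * κ * β.2 * (b2 - β.2) + (b2 * β.1 - b1 * β.2) * β.2 * (1 - κ) -
          α * (b2 - β.2) * β.2) ∨
        |b2 - t'.2| ≤ κ * |b2 - β.2| * (1 + |β.2|)) := by
    intro z hz hzR β hβ hc
    have hl := hline α z hz
    obtain ⟨L, hL1, hL2⟩ := fa_param hpκ hEα hl
    have hLn0 : L ≠ 0 := by
      rintro rfl
      apply hzR
      have : z = (α, 0) := by
        refine Prod.ext ?_ (by rw [hL1]; ring)
        simp only
        have : b2 * (z.1 - α) = 0 := by rw [hL2]; ring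
        rcases mul_eq_zero.mp this with h | h
        · exact absurd h hb2
        · linarith
      rw [this]; exact aR2
    unfold Col at hc
    have heq := fa_eq ht'E hL1 hL2 hc
    rcases Finset.mem_insert.mp hβ with rfl | hβB
    · exfalso
      simp only at heq
      exact tta_excl (c4a τ hτK) hLn0 ht'f (by linear_combination heq)
    · exact ⟨hβB, fa_cls (by linarith) (hD β hβB) (c3a β hβB) ht'f heq⟩
  have hU : Uncov (insert f (insert (E, 0) R)) (insert t' (insert (τ, 0) B)) f (0, 0) ∨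
      Uncov (insert f (insert (E, 0) R)) (insert t' (insert (τ, 0) B)) f (α, 0) := by
    by_contra hcon
    rw [not_or] at hcon
    obtain ⟨h1, h2⟩ := hcon
    unfold Uncov at h1 h2
    push Not at h1 h2
    obtain ⟨z, hz, hzR, _, p, hp, q, hq, hpq, hpqz, hred⟩ := h1
    obtain ⟨z', hz', hzR', _, p', hp', q', hq', hpq', hpqz', hred'⟩ := h2
    have g1 : ∃ β ∈ B, β.2 ≠ b2 ∧ (b2 * β.1 - b1 * β.2) * t'.2 =
        E * κ * β.2 * (b2 - β.2) + (b2 * β.1 - b1 * β.2) * β.2 * (1 - κ) := by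
      rcases Finset.mem_insert.mp hp with hp2 | hp2
      · rcases Finset.mem_insert.mp hq with hq2 | hq2
        · exact absurd (hp2.trans hq2.symm) hpq
        · obtain ⟨a1, a2, a3⟩ := hitc z hz hzR q hq2 (hp2 ▸ hpqz)
          exact ⟨q, a1, a2, a3⟩
      · rcases Finset.mem_insert.mp hq with hq2 | hq2
        · obtain ⟨a1, a2, a3⟩ := hitc z hz hzR p hp2 (hq2 ▸ hpqz.swap12)
          exact ⟨p, a1, a2, a3⟩
        · exact (hnearp 0 cR (by rwa [sub_zero]) c20 z hz p hp2 q hq2 hpq hpqz hred).elim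
    have g2 : ∃ β ∈ B, ((β.2 ≠ b2 ∧ ((b2 * β.1 - b1 * β.2) - α * (b2 - β.2)) * t'.2 =
        E * κ * β.2 * (b2 - β.2) + (b2 * β.1 - b1 * β.2) * β.2 * (1 - κ) -
          α * (b2 - β.2) * β.2) ∨
        |b2 - t'.2| ≤ κ * |b2 - β.2| * (1 + |β.2|)) := by
      rcases Finset.mem_insert.mp hp' with hp2 | hp2
      · rcases Finset.mem_insert.mp hq' with hq2 | hq2
        · exact absurd (hp2.trans hq2.symm) hpq'
        · obtain ⟨a1, a2⟩ := hita z' hz' hzR' q' hq2 (hp2 ▸ hpqz')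
          exact ⟨q', a1, a2⟩
      · rcases Finset.mem_insert.mp hq' with hq2 | hq2
        · obtain ⟨a1, a2⟩ := hita z' hz' hzR' p' hp2 (hq2 ▸ hpqz'.swap12)
          exact ⟨p', a1, a2⟩
        · exact (hnearp α aR hEα c2a z' hz' p' hp2 q' hq2 hpq' hpqz' hred').elim
    obtain ⟨β, hβ, a1, a2⟩ := g1
    obtain ⟨β', hβ', a3⟩ := g2
    exact fafc_excl (by linarith) hα (hD β hβ) (hy β hβ) a1 (hy β' hβ') (hal β' hβ') a2 a3
      (c5 β hβ β' hβ').1 (c5 β hβ β' hβ').2
  obtain ⟨F, hFc, hFl⟩ := hdiv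
  refine fork_list (P := f) (v := (0, 0)) (v' := (α, 0)) (w := (E, 0)) (s := E) (t0 := α)
    hN2 hB2 hAc hAa hU ?_ eR2 (by simp only; ring) (by simp only; ring) hα hE00 hEne F ?_ hFl
  · intro h
    rw [hf] at h
    unfold Col at h
    simp only at h
    have : ((1 - κ) * b2) * α = 0 := by linear_combination h
    rcases mul_eq_zero.mp this with h | h
    · exact hf2 h
    · exact hα h
  · rw [hFc]
    have h1 := Finset.card_insert_le t' (insert ((τ, 0) : Pt) B)
    have h2 := Finset.card_insert_le ((τ, 0) : Pt) B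
    omega

/-- node 't near': `c b` is covered after `t` -/
theorem k3u_near {R B : Finset Pt} {α b1 b2 g v1 v2 : ℤ} (hN : NoThreat R B)
    (hB : ∀ β ∈ B, β ∉ R) (hα : α ≠ 0) (hb2 : b2 ≠ 0) (hg1 : b1 = g * v1) (hg2 : b2 = g * v2)
    (hL : ALine R B (0, 0) (α, 0)) (hLU : Uncov R B (0, 0) (α, 0))
    (hM : ALine R B (0, 0) (b1, b2)) (hMU : Uncov R B (0, 0) (b1, b2)) :
    ∃ L0 : ℤ, ∀ ℓ : ℤ, Prime ℓ → L0 < ℓ → ∀ᶠ E : ℤ in cofinite,
      ForkSols α E (B.card + 3) → IsCoprime (E - b1) v2 →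
      ¬ ℓ ∣ E → ¬ ℓ ∣ E - α → (∀ β ∈ B, ¬ ℓ ∣ (b2 * β.1 - b1 * β.2) - E * (b2 - β.2)) →
      ∀ t, Col (0, 0) (α, 0) t → t ∉ insert (E, 0) R → t ∉ B →
        ¬ Uncov (insert (E, 0) R) (insert t B) (0, 0) (b1, b2) →
        Win (insert (E, 0) R) (insert t B) := by
  classical
  obtain ⟨L0, hL0⟩ := k3u_nearT hN hB hα hb2 hg1 hg2 hL hLU hM hMU
  obtain ⟨Kt, hKt⟩ : ∃ K : ℤ, K = ∑ β ∈ B, |b2 * β.1 - b1 * β.2| * (1 + |β.2|) := ⟨_, rfl⟩
  refine ⟨L0, fun ℓ hℓ hℓL => ?_⟩
  filter_upwards [hL0 ℓ hℓ hℓL Kt] with E hE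
  intro h1 h2 h3 h4 h5 t hct htR htB hnear
  refine hE h1 h2 h3 h4 h5 t hct htR htB ?_
  have cR : ((0, 0) : Pt) ∈ R := hL.1
  have hD : ∀ β ∈ B, b2 * β.1 - b1 * β.2 ≠ 0 := by
    intro β hβ h
    apply hM.2.2.2 β hβ
    unfold Col; simp only; linarith
  obtain ⟨τ, rfl⟩ : ∃ τ : ℤ, t = (τ, 0) := by
    refine ⟨t.1, ?_⟩
    unfold Col at hct
    simp only at hct
    have : α * t.2 = 0 := by linarith
    rcases mul_eq_zero.mp this with h | h
    · exact absurd h hα
    · exact Prod.ext rfl h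
  unfold Uncov at hnear
  push Not at hnear
  obtain ⟨z, hz, hzR, hzB, p, hp, q, hq, hpq, hpqz, hred⟩ := hnear
  have main : ∀ β ∈ B, Col (τ, 0) β z → |τ| ≤ Kt := by
    intro β hβ hc
    unfold Col at hz hc
    simp only at hz hc
    have hz2 : z.2 ≠ 0 := by
      intro h
      apply hzR
      apply Finset.mem_insert_of_mem
      have : z = (0, 0) := by
        refine Prod.ext ?_ h
        simp only
        rw [h] at hz
        have : b2 * z.1 = 0 := by linarith
        rcases mul_eq_zero.mp this with h | h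
        · exact absurd h hb2
        · exact h
      rw [this]; exact cR
    have h1 : τ * b2 * (z.2 - β.2) = (b2 * β.1 - b1 * β.2) * z.2 := by
      linear_combination (-b2) * hc + β.2 * hz
    have h2 : z.2 - β.2 ≠ 0 := by
      intro h
      rw [h, mul_zero] at h1
      rcases mul_eq_zero.mp h1.symm with h3 | h3
      · exact hD β hβ h3
      · exact hz2 h3
    have h3 : |τ| * |b2| * |z.2 - β.2| = |b2 * β.1 - b1 * β.2| * |z.2| := by
      rw [← abs_mul, ← abs_mul, h1, abs_mul]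
    have h4 : 1 ≤ |z.2 - β.2| := Int.one_le_abs h2
    have h5 : |z.2| ≤ (1 + |β.2|) * |z.2 - β.2| := by
      have h6 := abs_add_le (z.2 - β.2) β.2
      rw [sub_add_cancel] at h6
      have : 0 ≤ |β.2| := abs_nonneg _
      nlinarith
    have h6 : |τ| * |b2| ≤ |b2 * β.1 - b1 * β.2| * (1 + |β.2|) := by
      have h7 := mul_le_mul_of_nonneg_left h5 (abs_nonneg (b2 * β.1 - b1 * β.2))
      rw [← h3] at h7
      have h8 : |τ| * |b2| * |z.2 - β.2| ≤
          (|b2 * β.1 - b1 * β.2| * (1 + |β.2|)) * |z.2 - β.2| := by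
        calc _ ≤ _ := h7
          _ = _ := by ring
      exact le_of_mul_le_mul_right h8 (by linarith)
    have h7 : |τ| ≤ Kt := by
      have h8 : |τ| ≤ |τ| * |b2| := le_mul_of_one_le_right (abs_nonneg _) (Int.one_le_abs hb2)
      have h9 := Finset.single_le_sum
        (f := fun β : Pt => |b2 * β.1 - b1 * β.2| * (1 + |β.2|))
        (fun z _ => by positivity) hβ
      rw [hKt]
      linarith
    exact h7
  rcases Finset.mem_insert.mp hp with rfl | hp
  · rcases Finset.mem_insert.mp hq with rfl | hq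
    · exact absurd rfl hpq
    · exact main q hq hpqz
  · rcases Finset.mem_insert.mp hq with rfl | hq
    · exact main p hp hpqz.swap12
    · exfalso
      obtain ⟨w, hw, hcw⟩ := hMU z hz (fun h => hzR (Finset.mem_insert_of_mem h))
        (fun h => hzB (Finset.mem_insert_of_mem h)) p hp q hq hpq hpqz
      exact hred w (Finset.mem_insert_of_mem hw) hcw

end Pool.Agent.K4L
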