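import Pool.Agent.K4L.TwoGenB
import Pool.Agent.K4L.K3UNear

/-!
# CASE II, `p q` does not meet `a b` in a free lattice point: the third stone `c` off `p q`

Coordinates `a = (0, 0)`, `b = (0, 1)`, `c = (X, Y)`, `X = W N`, `Y = N + y0`, `W` prime (large),
`y0` large, `N → ∞`. Arithmetic of the lines through one blue stone `β`.
-/

namespace Pool.Agent.K4L

open Filter

/-- a line through `β` which meets `a b` and `a c` -/
theorem ig_e1 {W N y0 b1 b2 m k : ℤ} (hW0 : W ≠ 0) (hW : ¬ W ∣ b1)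
    (hN : |b1 * y0| + (1 + |b1| + |b2|) * |b1| < |N|)
    (h : k * ((m - b2) * (W * N) + b1 * (N + y0)) = m * b1) : k = 0 := by
  by_contra hk
  obtain ⟨e, he⟩ : ∃ e, e = (m - b2) * W + b1 := ⟨_, rfl⟩
  have he0 : e ≠ 0 := by
    intro h0
    apply hW
    exact ⟨-(m - b2), by linear_combination -he + h0⟩
  have h1 : k * (N * e + b1 * y0) = m * b1 := by rw [he, ← h]; ring
  have h2 : |N * e + b1 * y0| ≤ |m * b1| := by
    rw [← h1, abs_mul]
    exact le_mul_of_one_le_left (abs_nonneg _) (Int.one_le_abs hk)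
  have h3 : |N| * |e| ≤ |N * e + b1 * y0| + |b1 * y0| := by
    rw [← abs_mul]
    have := abs_sub (N * e + b1 * y0) (b1 * y0)
    rwa [add_sub_cancel_right] at this
  have h4 : |m - b2| ≤ |e| + |b1| := by
    have h5 : |m - b2| ≤ |(m - b2) * W| := by
      rw [abs_mul]; exact le_mul_of_one_le_right (abs_nonneg _) (Int.one_le_abs hW0)
    have h6 : (m - b2) * W = e - b1 := by linear_combination -he
    have h7 := abs_sub e b1
    rw [← h6] at h7
    linarith
  have h5 : |m| ≤ |e| + |b1| + |b2| := by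
    have := abs_add_le (m - b2) b2
    rw [sub_add_cancel] at this
    linarith
  have h6 : |m * b1| ≤ (|e| + |b1| + |b2|) * |b1| := by
    rw [abs_mul]; exact mul_le_mul_of_nonneg_right h5 (abs_nonneg _)
  have h7 := Int.one_le_abs he0
  have h8 := abs_nonneg b1
  have h9 := abs_nonneg b2
  have h10 := abs_nonneg (b1 * y0)
  have h11 : (|e| + |b1| + |b2|) * |b1| ≤ (1 + |b1| + |b2|) * |b1| * |e| := by
    have : (1 + |b1| + |b2|) * |b1| * |e| - (|e| + |b1| + |b2|) * |b1| =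
        (|b1| + |b2|) * |b1| * (|e| - 1) := by ring
    have : 0 ≤ (|b1| + |b2|) * |b1| * (|e| - 1) := by
      apply mul_nonneg (by positivity) (by linarith)
    linarith
  have h12 : |b1 * y0| ≤ |b1 * y0| * |e| := le_mul_of_one_le_right h10 h7
  have h13 : (|b1 * y0| + (1 + |b1| + |b2|) * |b1|) * |e| < |N| * |e| :=
    mul_lt_mul_of_pos_right hN (by linarith)
  have h14 : (|b1 * y0| + (1 + |b1| + |b2|) * |b1|) * |e| =
    |b1 * y0| * |e| + (1 + |b1| + |b2|) * |b1| * |e| := by ring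
  linarith

/-- a line through `β` which meets `c a` and `c b` -/
theorem ig_e3 {W N y0 b1 b2 k l : ℤ} (hW0 : W ≠ 0) (hW : ¬ W ∣ b1) (hb1 : b1 ≠ 0)
    (hy : |(W * b2 - b1) * (W * (1 - b2) + b1)| + |W * b2 - b1| + |W * (1 - b2) + b1| < |y0|)
    (hN : |b1| * (2 * |y0| + 1) * (1 + (|(W * b2 - b1) * (W * (1 - b2) + b1)| + |W * b2 - b1| +
      |W * (1 - b2) + b1|)) < |N|)
    (h : b1 * (y0 * (k - l) + l) =
      N * (W * (k * l) + (W * b2 - b1) * k + (W * (1 - b2) + b1) * l)) : k = 0 ∧ l = 0 := by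
  obtain ⟨P, hP⟩ : ∃ P, P = W * b2 - b1 := ⟨_, rfl⟩
  obtain ⟨Q, hQ⟩ : ∃ Q, Q = W * (1 - b2) + b1 := ⟨_, rfl⟩
  rw [← hP, ← hQ] at hy hN h
  obtain ⟨C, hC⟩ : ∃ C, C = |P * Q| + |P| + |Q| := ⟨_, rfl⟩
  rw [← hC] at hy hN
  obtain ⟨T, hT⟩ : ∃ T, T = W * (k * l) + P * k + Q * l := ⟨_, rfl⟩
  rw [← hT] at h
  obtain ⟨u, hu⟩ : ∃ u, u = W * k + Q := ⟨_, rfl⟩
  obtain ⟨v, hv⟩ : ∃ v, v = W * l + P := ⟨_, rfl⟩
  have hu0 : u ≠ 0 := by
    intro h0
    apply hW
    exact ⟨-(k + (1 - b2)), by linear_combination h0 - hu - hQ⟩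
  have hv0 : v ≠ 0 := by
    intro h0
    apply hW
    exact ⟨l + b2, by linear_combination -h0 + hv + hP⟩
  have huv : u * v = W * T + P * Q := by rw [hu, hv, hT]; ring
  have hW1 := Int.one_le_abs hW0
  have hu1 := Int.one_le_abs hu0
  have hv1 := Int.one_le_abs hv0
  have a1 := abs_nonneg P
  have a2 := abs_nonneg Q
  have a3 := abs_nonneg (P * Q)
  have a4 := abs_nonneg T
  have a5 := abs_nonneg b1
  have a6 := abs_nonneg y0
  have huvb : |u| * |v| ≤ |W| * |T| + |P * Q| := by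
    rw [← abs_mul, huv, ← abs_mul W T]; exact abs_add_le _ _
  have hub : |u| ≤ |W| * |T| + |P * Q| := (le_mul_of_one_le_right (abs_nonneg _) hv1).trans huvb
  have hvb : |v| ≤ |W| * |T| + |P * Q| := (le_mul_of_one_le_left (abs_nonneg _) hu1).trans huvb
  have hbnd : ∀ (x E Z : ℤ), |W| * |x| ≤ |E| + |Z| → |E| ≤ |W| * |T| + |P * Q| → |Z| ≤ |P| + |Q| →
      |x| ≤ |T| + C := by
    intro x E Z h1 h2 h3
    have h4 : |W| * |x| ≤ |W| * |T| + C := by linarith
    have h5 : C ≤ |W| * C := le_mul_of_one_le_left (by rw [hC]; positivity) hW1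
    have h6 : |W| * |x| ≤ |W| * (|T| + C) := by rw [mul_add]; linarith
    exact le_of_mul_le_mul_left h6 (by linarith)
  have hk : |k| ≤ |T| + C := by
    refine hbnd k u Q ?_ hub (by linarith)
    rw [← abs_mul]
    have e : W * k = u - Q := by rw [hu]; ring
    rw [e]; exact abs_sub _ _
  have hl : |l| ≤ |T| + C := by
    refine hbnd l v P ?_ hvb (by linarith)
    rw [← abs_mul]
    have e : W * l = v - P := by rw [hv]; ring
    rw [e]; exact abs_sub _ _
  have hC0 : 0 ≤ C := by rw [hC]; positivity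
  have hT0 : T = 0 := by
    by_contra hT0
    have hT1 := Int.one_le_abs hT0
    have h1 : |N| * |T| ≤ |b1| * (|y0| * (|k| + |l|) + |l|) := by
      rw [← abs_mul, ← h, abs_mul]
      apply mul_le_mul_of_nonneg_left _ a5
      refine (abs_add_le _ _).trans ?_
      rw [abs_mul]
      have := mul_le_mul_of_nonneg_left (abs_sub k l) a6
      linarith
    have h2 : |y0| * (|k| + |l|) + |l| ≤ (2 * |y0| + 1) * (|T| + C) := by
      have := mul_le_mul_of_nonneg_left (add_le_add hk hl) a6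
      nlinarith
    have h3 : |b1| * (|y0| * (|k| + |l|) + |l|) ≤ |b1| * ((2 * |y0| + 1) * (|T| + C)) :=
      mul_le_mul_of_nonneg_left h2 a5
    have h4 : |T| + C ≤ (1 + C) * |T| := by nlinarith
    have h5 : |b1| * ((2 * |y0| + 1) * (|T| + C)) ≤ |b1| * ((2 * |y0| + 1) * ((1 + C) * |T|)) := by
      apply mul_le_mul_of_nonneg_left _ a5
      apply mul_le_mul_of_nonneg_left h4 (by linarith)
    have h6 : |b1| * (2 * |y0| + 1) * (1 + C) * |T| < |N| * |T| :=
      mul_lt_mul_of_pos_right hN (by linarith)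
    have h7 : |b1| * ((2 * |y0| + 1) * ((1 + C) * |T|)) =
      |b1| * (2 * |y0| + 1) * (1 + C) * |T| := by ring
    linarith
  rw [hT0, mul_zero] at h
  rw [hT0, abs_zero, zero_add] at hl
  have h1 : y0 * (k - l) + l = 0 := (mul_eq_zero.mp h).resolve_left hb1
  have hkl : k - l = 0 := by
    by_contra hne
    have h2 := Int.one_le_abs hne
    have h3 : |y0| * |k - l| = |l| := by
      rw [← abs_mul]
      have : y0 * (k - l) = -l := by linarith
      rw [this, abs_neg]
    have h4 : |y0| ≤ |y0| * |k - l| := le_mul_of_one_le_right a6 h2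
    linarith
  rw [hkl, mul_zero, zero_add] at h1
  exact ⟨by linarith, h1⟩

/-- the line `p q` and `c a` -/
theorem ig_e2 {W N y0 v1 v2 D k : ℤ} (hW : v1 ≠ 0 → ¬ W ∣ v1) (hW0 : W ≠ 0)
    (hv : v1 ≠ 0 ∨ v2 ≠ 0) (hN : |v1 * y0| + |D| < |N|)
    (h : k * (v1 * (N + y0) - v2 * (W * N)) = D) : k = 0 := by
  by_contra hk
  obtain ⟨e, he⟩ : ∃ e, e = v1 - v2 * W := ⟨_, rfl⟩
  have he0 : e ≠ 0 := by
    intro h0
    by_cases hv1 : v1 = 0
    · rcases hv with hv | hv
      · exact hv hv1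
      · rw [hv1, zero_sub] at he
        rw [he] at h0
        exact mul_ne_zero hv hW0 (by linarith)
    · exact hW hv1 ⟨v2, by linear_combination -he + h0⟩
  have h1 : k * (N * e + v1 * y0) = D := by rw [he, ← h]; ring
  have h2 : |N * e + v1 * y0| ≤ |D| := by
    rw [← h1, abs_mul]
    exact le_mul_of_one_le_left (abs_nonneg _) (Int.one_le_abs hk)
  have h3 : |N| * |e| ≤ |N * e + v1 * y0| + |v1 * y0| := by
    rw [← abs_mul]
    have := abs_sub (N * e + v1 * y0) (v1 * y0)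
    rwa [add_sub_cancel_right] at this
  have h4 : |N| ≤ |N| * |e| := le_mul_of_one_le_right (abs_nonneg _) (Int.one_le_abs he0)
  linarith

/-- parallels -/
theorem ig_pb {W N y0 b1 j : ℤ} (hW : ¬ W ∣ b1) (hN : |b1 * y0| < |N|)
    (h : j * (W * N) = b1 * (N + y0)) : False := by
  have h1 : N * (W * j - b1) = b1 * y0 := by linear_combination h
  have h2 : W * j - b1 ≠ 0 := by
    intro h0
    exact hW ⟨j, by linarith⟩
  have h3 : |N| ≤ |b1 * y0| := by
    rw [← h1, abs_mul]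
    exact le_mul_of_one_le_right (abs_nonneg _) (Int.one_le_abs h2)
  linarith

end Pool.Agent.K4L
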