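import Pool.Agent.K4L.IIGA

/-!
# CASE II, `c` off `p q`: the structure and its existence
-/

namespace Pool.Agent.K4L

open Filter

/-- the lines through the near stone `β`; `a = (0, 0)`, `b = (0, 1)`, `c = (X, Y)` -/
structure GP (β : Pt) (X Y : ℤ) : Prop where
  h1 : β.1 ≠ 0
  ea : ∀ k m : ℤ, Col β (0, m) (k * X, k * Y) → k = 0
  eb : ∀ l m : ℤ, Col β (0, m) (l * X, 1 + l * (Y - 1)) → l = 0
  ec : ∀ k l : ℤ, Col β (k * X, k * Y) (l * X, 1 + l * (Y - 1)) → k = 1 ∧ l = 1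
  px : ∀ k : ℤ, k ≠ 0 → k * X ≠ β.1
  pA : ∀ j : ℤ, j * X ≠ β.1 * Y
  pB : ∀ j : ℤ, j * X ≠ β.1 * (Y - 1)

theorem GP.pa {β : Pt} {X Y : ℤ} (g : GP β X Y) (l : ℤ) :
    ¬ Par (0, 0) (X, Y) β (l * X, 1 + l * (Y - 1)) := by
  intro h
  unfold Par at h
  simp only at h
  exact g.pA (β.2 + l - 1) (by linear_combination -h)

theorem GP.pb {β : Pt} {X Y : ℤ} (g : GP β X Y) (k : ℤ) :
    ¬ Par (0, 1) (X, Y) β (k * X, k * Y) := by
  intro h
  unfold Par at h
  simp only at h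
  exact g.pB (β.2 - k) (by linear_combination -h)

/-- the position of `c` -/
structure GC (p q : Pt) (X Y : ℤ) : Prop where
  hp : GP p X Y
  hq : GP q X Y
  hX : X ≠ 0
  big : 2 * |p.1| < |X| ∧ 2 * |q.1| < |X|
  ca : IsCoprime X Y
  cb : IsCoprime X (Y - 1)
  qa : ∀ k : ℤ, Col p q (k * X, k * Y) → k = 0
  qb : ∀ l : ℤ, Col p q (l * X, 1 + l * (Y - 1)) → l = 0
  qpa : ¬ Par (0, 0) (X, Y) p q
  qpb : ¬ Par (0, 1) (X, Y) p q

theorem mk_GP {β : Pt} {W N y0 : ℤ} (hW0 : W ≠ 0) (hb1 : β.1 ≠ 0) (hW : ¬ W ∣ β.1)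
    (hN1 : |β.1 * y0| + (1 + |β.1| + |β.2|) * |β.1| < |N|)
    (hN2 : |β.1 * (1 - y0)| + (1 + |β.1| + |1 - β.2|) * |β.1| < |N|)
    (hy : |(W * β.2 - β.1) * (W * (1 - β.2) + β.1)| + |W * β.2 - β.1| +
      |W * (1 - β.2) + β.1| < |y0|)
    (hN3 : |β.1| * (2 * |y0| + 1) * (1 + (|(W * β.2 - β.1) * (W * (1 - β.2) + β.1)| +
      |W * β.2 - β.1| + |W * (1 - β.2) + β.1|)) < |N|) : GP β (W * N) (N + y0) := by
  have hW1 := Int.one_le_abs hW0
  have hN0 : |β.1| < |N| := by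
    have h1 : 0 ≤ |β.1 * y0| := abs_nonneg _
    have h2 : |β.1| ≤ (1 + |β.1| + |β.2|) * |β.1| :=
      le_mul_of_one_le_left (abs_nonneg _) (by linarith [abs_nonneg β.1, abs_nonneg β.2])
    linarith
  refine ⟨hb1, ?_, ?_, ?_, ?_, ?_, ?_⟩
  · intro k m h
    unfold Col at h
    simp only at h
    exact ig_e1 hW0 hW hN1 (m := m) (by linear_combination -h)
  · intro l m h
    unfold Col at h
    simp only at h
    refine ig_e1 (W := -W) (N := -N) (y0 := 1 - y0) (b1 := β.1) (b2 := 1 - β.2) (m := 1 - m)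
      (neg_ne_zero.mpr hW0) (fun h => hW ((neg_dvd).mp h)) (by rwa [abs_neg]) ?_
    linear_combination h
  · intro k l h
    unfold Col at h
    simp only at h
    have := ig_e3 (k := k - 1) (l := l - 1) hW0 hW hb1 hy hN3 (by linear_combination h)
    exact ⟨by linarith [this.1], by linarith [this.2]⟩
  · intro k hk h
    have h1 : |N| ≤ |β.1| := by
      rw [← h, abs_mul, abs_mul]
      have h2 := Int.one_le_abs hk
      have h3 : |N| ≤ |W| * |N| := le_mul_of_one_le_left (abs_nonneg _) hW1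
      have h4 : |W| * |N| ≤ |k| * (|W| * |N|) := le_mul_of_one_le_left (by positivity) h2
      linarith
    linarith
  · intro j h
    refine ig_pb (W := W) (N := N) (y0 := y0) (b1 := β.1) (j := j) hW ?_ h
    have : 0 ≤ (1 + |β.1| + |β.2|) * |β.1| := by positivity
    linarith
  · intro j h
    refine ig_pb (W := W) (N := N) (y0 := y0 - 1) (b1 := β.1) (j := j) hW ?_
      (by linear_combination h)
    have : 0 ≤ (1 + |β.1| + |1 - β.2|) * |β.1| := by positivity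
    have e : |β.1 * (y0 - 1)| = |β.1 * (1 - y0)| := by
      rw [← abs_neg]; ring_nf
    linarith

theorem exists_gc {p q : Pt} (hp : p.1 ≠ 0) (hq : q.1 ≠ 0) (hpq : p ≠ q) (F : Finset Pt) :
    ∃ X Y : ℤ, ((X, Y) : Pt) ∉ F ∧ GC p q X Y := by
  classical
  -- `W`
  obtain ⟨w, hwB, hwp⟩ := Nat.exists_infinite_primes
    ((|p.1| + |q.1| + |q.1 - p.1| + 3).toNat + 1)
  obtain ⟨W, hWdef⟩ : ∃ W : ℤ, W = (w : ℤ) := ⟨_, rfl⟩
  have hW : Prime W := by rw [hWdef]; exact Nat.prime_iff_prime_int.mp hwp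
  have hWB : |p.1| + |q.1| + |q.1 - p.1| + 3 < W := by
    have h1 := Int.self_le_toNat (|p.1| + |q.1| + |q.1 - p.1| + 3)
    have h2 : (((|p.1| + |q.1| + |q.1 - p.1| + 3).toNat + 1 : ℕ) : ℤ) ≤ w := by exact_mod_cast hwB
    push_cast at h2
    linarith
  have n1 := abs_nonneg p.1
  have n2 := abs_nonneg q.1
  have n3 := abs_nonneg (q.1 - p.1)
  have hW0 : W ≠ 0 := hW.ne_zero
  have hWabs : |W| = W := abs_of_nonneg (by linarith)
  have hnd : ∀ m : ℤ, m ≠ 0 → |m| < W → ¬ W ∣ m := by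
    intro m hm hlt hd
    have := Int.le_of_dvd (abs_pos.mpr hm) ((abs_dvd_abs _ _).mpr hd)
    rw [hWabs] at this
    linarith
  have hWp := hnd p.1 hp (by linarith)
  have hWq := hnd q.1 hq (by linarith)
  have hW2 : IsCoprime W 2 := by
    rw [Prime.coprime_iff_not_dvd hW]
    exact hnd 2 (by norm_num) (by norm_num; linarith)
  -- `y0`
  obtain ⟨C, hC⟩ : ∃ C : Pt → ℤ, C = fun β => |(W * β.2 - β.1) * (W * (1 - β.2) + β.1)| +
    |W * β.2 - β.1| + |W * (1 - β.2) + β.1| := ⟨_, rfl⟩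
  have hyev : ∀ᶠ j : ℤ in cofinite, C p < |W * j + 2| ∧ C q < |W * j + 2| ∧ 1 < |W * j + 2| :=
    (ev_linC W 2 _ hW0).and ((ev_linC W 2 _ hW0).and (ev_linC W 2 _ hW0))
  obtain ⟨j, hj1, hj2, hj3⟩ := hyev.exists
  obtain ⟨y0, hy0⟩ : ∃ y0, y0 = W * j + 2 := ⟨_, rfl⟩
  rw [← hy0] at hj1 hj2 hj3
  have hy00 : y0 ≠ 0 := by rintro h; rw [h] at hj3; norm_num at hj3
  have hy01 : y0 - 1 ≠ 0 := by
    intro h
    have : y0 = 1 := by linarith
    rw [this] at hj3; norm_num at hj3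
  have hWy : IsCoprime W y0 := by
    rw [hy0]
    have := IsCoprime.add_mul_left_right hW2 j
    rwa [add_comm] at this
  have hWy1 : IsCoprime W (y0 - 1) := by
    rw [hy0]
    have := IsCoprime.add_mul_left_right (isCoprime_one_right (x := W)) j
    have e : (1 : ℤ) + W * j = W * j + 2 - 1 := by ring
    rwa [e] at this
  -- `N`
  have hNev : ∀ᶠ N : ℤ in cofinite,
      (|p.1 * y0| + (1 + |p.1| + |p.2|) * |p.1| < |N| ∧
      |p.1 * (1 - y0)| + (1 + |p.1| + |1 - p.2|) * |p.1| < |N| ∧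
      |p.1| * (2 * |y0| + 1) * (1 + C p) < |N|) ∧
      (|q.1 * y0| + (1 + |q.1| + |q.2|) * |q.1| < |N| ∧
      |q.1 * (1 - y0)| + (1 + |q.1| + |1 - q.2|) * |q.1| < |N| ∧
      |q.1| * (2 * |y0| + 1) * (1 + C q) < |N|) ∧
      (|(q.1 - p.1) * y0| + |(q.1 - p.1) * p.2 - (q.2 - p.2) * p.1| < |N| ∧
      |(q.1 - p.1) * (y0 - 1)| + |(q.1 - p.1) * (p.2 - 1) - (q.2 - p.2) * p.1| < |N| ∧
      2 * |p.1| + 2 * |q.1| < |N|) ∧ (∀ z ∈ F, W * N + 0 ≠ z.1) :=
    ((ev_abs _).and ((ev_abs _).and (ev_abs _))).and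
      (((ev_abs _).and ((ev_abs _).and (ev_abs _))).and
      (((ev_abs _).and ((ev_abs _).and (ev_abs _))).and
      (ev_fin F (fun z _ => ev_linne _ _ _ (Or.inl hW0)))))
  have hinj : Function.Injective (fun m : ℤ => W * (1 + y0 * (y0 - 1) * m)) := by
    intro m n hmn
    simp only at hmn
    have h1 := mul_left_cancel₀ hW0 hmn
    have h2 : y0 * (y0 - 1) * m = y0 * (y0 - 1) * n := by linarith
    exact mul_left_cancel₀ (mul_ne_zero hy00 hy01) h2
  obtain ⟨m, ⟨p1, p2, p3⟩, ⟨q1, q2, q3⟩, ⟨r1, r2, r3⟩, hF⟩ :=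
    (hinj.tendsto_cofinite.eventually hNev).exists
  obtain ⟨N, hN⟩ : ∃ N, N = W * (1 + y0 * (y0 - 1) * m) := ⟨_, rfl⟩
  simp only [← hN] at p1 p2 p3 q1 q2 q3 r1 r2 r3 hF
  have hN0 : N ≠ 0 := by
    rintro h
    rw [h, abs_zero] at r3
    linarith
  have cN : IsCoprime N y0 := by
    rw [hN]
    apply IsCoprime.mul_left hWy
    refine ⟨1, -((y0 - 1) * m), by ring⟩
  have cN1 : IsCoprime N (y0 - 1) := by
    rw [hN]
    apply IsCoprime.mul_left hWy1
    refine ⟨1, -(y0 * m), by ring⟩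
  have cW : ∀ y, IsCoprime W y → IsCoprime W (N + y) := by
    intro y h
    have := IsCoprime.add_mul_left_right h (1 + y0 * (y0 - 1) * m)
    rw [← hN, add_comm] at this
    exact this
  have cNN : ∀ y, IsCoprime N y → IsCoprime N (N + y) := by
    intro y h
    have := IsCoprime.add_mul_left_right h 1
    rw [mul_one, add_comm] at this
    exact this
  have hv : q.1 - p.1 ≠ 0 ∨ q.2 - p.2 ≠ 0 := by
    by_contra hcon
    push Not at hcon
    exact hpq (Prod.ext (by linarith [hcon.1]) (by linarith [hcon.2]))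
  have hWv : q.1 - p.1 ≠ 0 → ¬ W ∣ q.1 - p.1 := fun h => hnd _ h (by linarith)
  have hXbig : |N| ≤ |W * N| := by
    rw [abs_mul]; exact le_mul_of_one_le_left (abs_nonneg _) (Int.one_le_abs hW0)
  refine ⟨W * N, N + y0, ?_, ?_⟩
  · intro h
    exact hF _ h (by ring)
  · refine ⟨mk_GP hW0 hp hWp p1 p2 (by rw [hC] at hj1; exact hj1) (by rw [hC] at p3; exact p3),
      mk_GP hW0 hq hWq q1 q2 (by rw [hC] at hj2; exact hj2) (by rw [hC] at q3; exact q3),
      mul_ne_zero hW0 hN0, ⟨by linarith, by linarith⟩, IsCoprime.mul_left (cW _ hWy) (cNN _ cN),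
      ?_, ?_, ?_, ?_, ?_⟩
    · have e : N + y0 - 1 = N + (y0 - 1) := by ring
      rw [e]
      exact IsCoprime.mul_left (cW _ hWy1) (cNN _ cN1)
    · intro k h
      unfold Col at h
      simp only at h
      exact ig_e2 hWv hW0 hv r1 (by linear_combination h)
    · intro l h
      unfold Col at h
      simp only at h
      exact ig_e2 hWv hW0 hv r2 (by linear_combination h)
    · intro h
      unfold Par at h
      simp only at h
      have h1 : |(q.1 - p.1) * y0| + |(0 : ℤ)| < |N| := by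
        rw [abs_zero]
        have := abs_nonneg ((q.1 - p.1) * p.2 - (q.2 - p.2) * p.1)
        linarith
      have := ig_e2 (k := 1) hWv hW0 hv h1 (by linear_combination -h)
      exact one_ne_zero this
    · intro h
      unfold Par at h
      simp only at h
      have h1 : |(q.1 - p.1) * (y0 - 1)| + |(0 : ℤ)| < |N| := by
        rw [abs_zero]
        have := abs_nonneg ((q.1 - p.1) * (p.2 - 1) - (q.2 - p.2) * p.1)
        linarith
      have := ig_e2 (k := 1) hWv hW0 hv h1 (by linear_combination -h)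
      exact one_ne_zero this

end Pool.Agent.K4L
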