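import Pool.Agent.K4L.IIGB

/-!
# CASE II, `c` off `p q`, the answer `r` off the sides
-/

namespace Pool.Agent.K4L

theorem Par.sw {u v p q : Pt} (h : Par u v p q) : Par v u p q := by
  unfold Par at *
  linear_combination -h

theorem ig_par_col {u v β r z : Pt} (hne : β ≠ r) (h : Par u v β r) (hc : Col β r z) :
    Par u v β z := by
  unfold Par Col at *
  rcases sub_ne_of_ne hne with h0 | h0
  · apply mul_left_cancel₀ h0
    linear_combination (v.1 - u.1) * hc + (z.1 - β.1) * h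
  · apply mul_left_cancel₀ h0
    linear_combination (z.2 - β.2) * h + (v.2 - u.2) * hc

/-- three blue stones, `X Y` uncovered, `X c` hit by at most the line `β r` -/
theorem ig_fin {R B : Finset Pt} {X Y c r β β' : Pt} (hN : NoThreat R B)
    (hB : ∀ z ∈ B, z ∉ R) (hBm : ∀ z ∈ B, z = β ∨ z = β' ∨ z = r)
    (hXY : ALine R B X Y) (hU : Uncov R B X Y) (hXc : ALine R B X c) (hcY : ALine R B c Y)
    (hcol : ¬ Col X Y c) (hβr : β ≠ r)
    (hpq : ∀ z, Col X c z → z ∉ R → Col β β' z → ∃ w ∈ R, Col β β' w)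
    (hno : ∀ z, Col X c z → z ∉ R → Col β' r z → ∃ w ∈ R, Col β' r w)
    (hLm : (∃ z, Col X c z ∧ z ∉ R ∧ Col β r z) → (∀ w ∈ R, ¬ Col β r w) →
      ¬ Par X Y β r ∧ ¬ Par c Y β r) : Win R B := by
  have hMU : ∀ z, Col X c z → z ∉ R → ∀ γ ∈ B, ∀ γ' ∈ B, γ ≠ γ' → Col γ γ' z →
      (∃ w ∈ R, Col γ γ' w) ∨ (Col β r γ ∧ Col β r γ') := by
    intro z hz hzR γ hγ γ' hγ' hne hcz
    rcases hBm γ hγ with rfl | rfl | rfl
    · rcases hBm γ' hγ' with rfl | rfl | rfl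
      · exact absurd rfl hne
      · exact Or.inl (hpq z hz hzR hcz)
      · exact Or.inr ⟨Col.refl_left _ _, Col.refl_right _ _⟩
    · rcases hBm γ' hγ' with rfl | rfl | rfl
      · obtain ⟨w, hw, hw'⟩ := hpq z hz hzR hcz.swap12
        exact Or.inl ⟨w, hw, hw'.swap12⟩
      · exact absurd rfl hne
      · exact Or.inl (hno z hz hzR hcz)
    · rcases hBm γ' hγ' with rfl | rfl | rfl
      · exact Or.inr ⟨Col.refl_right _ _, Col.refl_left _ _⟩
      · obtain ⟨w, hw, hw'⟩ := hno z hz hzR hcz.swap12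
        exact Or.inl ⟨w, hw, hw'.swap12⟩
      · exact absurd rfl hne
  by_cases hhit : (∃ z, Col X c z ∧ z ∉ R ∧ Col β r z) ∧ ∀ w ∈ R, ¬ Col β r w
  · obtain ⟨h1, h2⟩ := hLm hhit.1 hhit.2
    obtain ⟨⟨z, hz1, hz2, hz3⟩, hal⟩ := hhit
    refine lb3 (o := X) (a := Y) (b := c) (p := β) (q := r) (Y := z) hN hB hXY hU hXc hcY hβr
      hz1 hz3 hz2 hal hMU hcol h1 h2 ?_
    intro γ hγ γ' hγ' hne hp
    right
    rcases hBm γ hγ with rfl | rfl | rfl
    · exact Col.refl_left _ _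
    · rcases hBm γ' hγ' with rfl | rfl | rfl
      · unfold Par at hp
        unfold Col
        linear_combination -hp
      · exact absurd rfl hne
      · unfold Par at hp
        unfold Col
        linear_combination -hp
    · exact Col.refl_right _ _
  · have hU2 : Uncov R B X c := by
      intro z hz hzR hzB γ hγ γ' hγ' hne hcz
      rcases hMU z hz hzR γ hγ γ' hγ' hne hcz with hd | ⟨g1, g2⟩
      · exact hd
      · by_contra hcon
        apply hhit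
        have hl : ∀ w, Col β r w ↔ Col γ γ' w := fun w => Col.line_iff hβr hne g1 g2
        refine ⟨⟨z, hz, hzR, (hl z).mpr hcz⟩, ?_⟩
        intro w hw hw'
        exact hcon ⟨w, hw, (hl w).mp hw'⟩
    exact w0_tri (o := X) (a := Y) (b := c) hN hB hXY hU hXc hU2 hcY hcol

/-- a line is uncovered -/
theorem ig_unc {R B : Finset Pt} {u v p q r : Pt} (hBm : ∀ z ∈ B, z = p ∨ z = q ∨ z = r)
    (h1 : ∀ z, Col u v z → z ∉ R → Col p q z → ∃ w ∈ R, Col p q w)
    (h2 : ∀ z, Col u v z → z ∉ R → Col p r z → ∃ w ∈ R, Col p r w)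
    (h3 : ∀ z, Col u v z → z ∉ R → Col q r z → ∃ w ∈ R, Col q r w) : Uncov R B u v := by
  intro z hz hzR _ γ hγ γ' hγ' hne hc
  have sw : ∀ s t : Pt, (∀ z, Col u v z → z ∉ R → Col s t z → ∃ w ∈ R, Col s t w) →
      Col t s z → ∃ w ∈ R, Col t s w := by
    intro s t h hc
    obtain ⟨w, hw, hw'⟩ := h z hz hzR hc.swap12
    exact ⟨w, hw, hw'.swap12⟩
  rcases hBm γ hγ with rfl | rfl | rfl <;> rcases hBm γ' hγ' with rfl | rfl | rfl
  · exact absurd rfl hne
  · exact h1 z hz hzR hc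
  · exact h2 z hz hzR hc
  · exact sw _ _ h1 hc
  · exact absurd rfl hne
  · exact h3 z hz hzR hc
  · exact sw _ _ h2 hc
  · exact sw _ _ h3 hc
  · exact absurd rfl hne

section
variable {p q : Pt} {X Y : ℤ}

/-- lattice points of `c a` -/
theorem ca_pt (h : IsCoprime X Y) {z : Pt} (hz : Col (0, 0) (X, Y) z) :
    ∃ k : ℤ, z = (k * X, k * Y) := by
  obtain ⟨u, v, huv⟩ := h
  unfold Col at hz
  simp only [sub_zero] at hz
  refine ⟨u * z.1 + v * z.2, Prod.ext ?_ ?_⟩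
  · simp only
    linear_combination (-z.1) * huv - v * hz
  · simp only
    linear_combination (-z.2) * huv + u * hz

/-- lattice points of `c b` -/
theorem cb_pt (h : IsCoprime X (Y - 1)) {z : Pt} (hz : Col (0, 1) (X, Y) z) :
    ∃ l : ℤ, z = (l * X, 1 + l * (Y - 1)) := by
  obtain ⟨u, v, huv⟩ := h
  unfold Col at hz
  simp only [sub_zero] at hz
  refine ⟨u * z.1 + v * (z.2 - 1), Prod.ext ?_ ?_⟩
  · simp only
    linear_combination (-z.1) * huv - v * hz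
  · simp only
    linear_combination (-(z.2 - 1)) * huv + u * hz

theorem ab_pt {z : Pt} (hz : Col (0, 0) (0, 1) z) : z = (0, z.2) := by
  unfold Col at hz
  simp only [sub_zero] at hz
  exact Prod.ext (by simp only; linarith) rfl

/-- a line `β r` through a point of `c a` and a point of `a b` contains `a` -/
theorem GP.x1 {β r : Pt} (g : GP β X Y) (hne : β ≠ r) (ca : IsCoprime X Y)
    {z z' : Pt} (hz : Col (0, 0) (X, Y) z) (hz' : Col (0, 0) (0, 1) z') (h1 : Col β r z)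
    (h2 : Col β r z') : Col β r (0, 0) := by
  obtain ⟨k, rfl⟩ := ca_pt ca hz
  rw [ab_pt hz'] at h2
  have h3 := Col.trans hne h2 h1
  have := g.ea k _ h3
  rw [this, zero_mul, zero_mul] at h1
  exact h1

/-- a line `β r` through a point of `c b` and a point of `a b` contains `b` -/
theorem GP.x2 {β r : Pt} (g : GP β X Y) (hne : β ≠ r) (cb : IsCoprime X (Y - 1))
    {z z' : Pt} (hz : Col (0, 1) (X, Y) z) (hz' : Col (0, 0) (0, 1) z') (h1 : Col β r z)
    (h2 : Col β r z') : Col β r (0, 1) := by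
  obtain ⟨k, rfl⟩ := cb_pt cb hz
  rw [ab_pt hz'] at h2
  have h3 := Col.trans hne h2 h1
  have := g.eb k _ h3
  rw [this, zero_mul, zero_mul, add_zero] at h1
  exact h1

/-- a line `β r` through a point of `c a` and a point of `c b` contains `c` -/
theorem GP.x3 {β r : Pt} (g : GP β X Y) (hne : β ≠ r) (ca : IsCoprime X Y)
    (cb : IsCoprime X (Y - 1)) {z z' : Pt} (hz : Col (0, 0) (X, Y) z) (hz' : Col (0, 1) (X, Y) z')
    (h1 : Col β r z) (h2 : Col β r z') : Col β r (X, Y) := by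
  obtain ⟨k, rfl⟩ := ca_pt ca hz
  obtain ⟨l, rfl⟩ := cb_pt cb hz'
  have h3 := Col.trans hne h1 h2
  have := (g.ec k l h3).1
  rw [this, one_mul, one_mul] at h1
  exact h1

/-- parallels of a line which meets `c a` -/
theorem GP.y1 {β r : Pt} (g : GP β X Y) (hne : β ≠ r) (ca : IsCoprime X Y)
    {z : Pt} (hz : Col (0, 0) (X, Y) z) (h1 : Col β r z) (ha : ¬ Col β r (0, 0)) :
    ¬ Par (0, 0) (0, 1) β r ∧ ¬ Par (0, 1) (X, Y) β r := by
  obtain ⟨k, rfl⟩ := ca_pt ca hz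
  constructor
  · intro h
    have h2 := ig_par_col hne h h1
    unfold Par at h2
    simp only at h2
    by_cases hk : k = 0
    · apply ha
      rw [hk, zero_mul, zero_mul] at h1
      exact h1
    · exact g.px k hk (by linarith)
  · intro h
    exact g.pb k (ig_par_col hne h h1)

/-- parallels of a line which meets `c b` -/
theorem GP.y2 {β r : Pt} (g : GP β X Y) (hne : β ≠ r) (cb : IsCoprime X (Y - 1))
    {z : Pt} (hz : Col (0, 1) (X, Y) z) (h1 : Col β r z) (hb : ¬ Col β r (0, 1)) :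
    ¬ Par (0, 0) (0, 1) β r ∧ ¬ Par (0, 0) (X, Y) β r := by
  obtain ⟨k, rfl⟩ := cb_pt cb hz
  constructor
  · intro h
    have h2 := ig_par_col hne h h1
    unfold Par at h2
    simp only at h2
    by_cases hk : k = 0
    · apply hb
      rw [hk, zero_mul, zero_mul, add_zero] at h1
      exact h1
    · exact g.px k hk (by linarith)
  · intro h
    exact g.pa k (ig_par_col hne h h1)

theorem GP.ab {β : Pt} (g : GP β X Y) : ¬ Col (0, 0) (0, 1) β := by
  intro h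
  apply g.h1
  have := ab_pt h
  rw [this]

theorem GP.nca {β : Pt} (g : GP β X Y) (ca : IsCoprime X Y) : ¬ Col (0, 0) (X, Y) β := by
  intro h
  obtain ⟨k, hk⟩ := ca_pt ca h
  have h1 := congrArg Prod.fst hk
  simp only at h1
  by_cases hk0 : k = 0
  · apply g.h1
    rw [h1, hk0, zero_mul]
  · exact g.px k hk0 h1.symm

theorem GP.ncb {β : Pt} (g : GP β X Y) (cb : IsCoprime X (Y - 1)) : ¬ Col (0, 1) (X, Y) β := by
  intro h
  obtain ⟨k, hk⟩ := cb_pt cb h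
  have h1 := congrArg Prod.fst hk
  simp only at h1
  by_cases hk0 : k = 0
  · apply g.h1
    rw [h1, hk0, zero_mul]
  · exact g.px k hk0 h1.symm

end

/-- the line `β r` is alive and meets the line `u v` -/
def HL (R : Finset Pt) (u v β r : Pt) : Prop := (∀ w ∈ R, ¬ Col β r w) ∧ ∃ z, Col u v z ∧ Col β r z

theorem hl_no {R : Finset Pt} {u v β r : Pt} (h : ¬ HL R u v β r) :
    ∀ z, Col u v z → z ∉ R → Col β r z → ∃ w ∈ R, Col β r w := by
  intro z hz _ hc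
  by_contra hcon
  push Not at hcon
  exact h ⟨hcon, z, hz, hc⟩

/-- `c` off `p q`, `r` off the sides -/
theorem ig_off {p q r : Pt} {X Y : ℤ} (g : GC p q X Y) (hpq : p ≠ q)
    (hm : ∀ m : ℤ, Col p q (0, m) → m = 0 ∨ m = 1) (hrp : r ≠ p) (hrq : r ≠ q)
    (hnt : Col p q r → ∃ w ∈ ({(0, 0), (0, 1), (X, Y)} : Finset Pt), Col p q w)
    (h1 : ¬ Col (0, 0) (0, 1) r) (h2 : ¬ Col (0, 0) (X, Y) r) (h3 : ¬ Col (0, 1) (X, Y) r) :
    Win {(0, 0), (0, 1), (X, Y)} {p, q, r} := by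
  classical
  obtain ⟨R, hR⟩ : ∃ R : Finset Pt, R = {(0, 0), (0, 1), (X, Y)} := ⟨_, rfl⟩
  obtain ⟨B, hB⟩ : ∃ B : Finset Pt, B = {p, q, r} := ⟨_, rfl⟩
  rw [← hR] at hnt
  rw [← hR, ← hB]
  have aR : ((0, 0) : Pt) ∈ R := by rw [hR]; simp
  have bR : ((0, 1) : Pt) ∈ R := by rw [hR]; simp
  have cR : ((X, Y) : Pt) ∈ R := by rw [hR]; simp
  have Rm : ∀ z ∈ R, z = (0, 0) ∨ z = (0, 1) ∨ z = (X, Y) := by
    intro z hz
    rw [hR] at hz
    simpa using hz
  have Bm : ∀ z ∈ B, z = p ∨ z = q ∨ z = r := by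
    intro z hz
    rw [hB] at hz
    simpa using hz
  have hX := g.hX
  have off : ∀ z ∈ B, ¬ Col (0, 0) (0, 1) z ∧ ¬ Col (0, 0) (X, Y) z ∧ ¬ Col (0, 1) (X, Y) z := by
    intro z hz
    rcases Bm z hz with rfl | rfl | rfl
    · exact ⟨g.hp.ab, g.hp.nca g.ca, g.hp.ncb g.cb⟩
    · exact ⟨g.hq.ab, g.hq.nca g.ca, g.hq.ncb g.cb⟩
    · exact ⟨h1, h2, h3⟩
  have hBR : ∀ z ∈ B, z ∉ R := by
    intro z hz hzR
    obtain ⟨o1, o2, o3⟩ := off z hz
    rcases Rm z hzR with rfl | rfl | rfl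
    · exact o1 (Col.refl_left _ _)
    · exact o1 (Col.refl_right _ _)
    · exact o2 (Col.refl_right _ _)
  have hNT : NoThreat R B := by
    intro u hu v hv w hw huv huw hvw hc
    have hcol : Col p q r := by
      rcases Bm u hu with rfl | rfl | rfl <;> rcases Bm v hv with rfl | rfl | rfl <;>
        rcases Bm w hw with rfl | rfl | rfl <;>
        first
        | exact absurd rfl huv
        | exact absurd rfl huw
        | exact absurd rfl hvw
        | exact hc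
        | exact hc.swap12
        | exact hc.swap23
        | exact hc.rot
        | exact hc.rot.rot
        | exact hc.rot.swap12
    obtain ⟨w', hw', hcw⟩ := hnt hcol
    refine ⟨w', hw', ?_⟩
    have hl : ∀ z ∈ B, Col p q z := by
      intro z hz
      rcases Bm z hz with rfl | rfl | rfl
      · exact Col.refl_left _ _
      · exact Col.refl_right _ _
      · exact hcol
    exact Col.three hpq (hl u hu) (hl v hv) hcw
  have nab : ((0, 0) : Pt) ≠ (0, 1) := by simp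
  have nac : ((0, 0) : Pt) ≠ (X, Y) := fun h => hX (congrArg Prod.fst h).symm
  have nbc : ((0, 1) : Pt) ≠ (X, Y) := fun h => hX (congrArg Prod.fst h).symm
  have Aab : ALine R B (0, 0) (0, 1) := ⟨aR, bR, nab, fun z hz => (off z hz).1⟩
  have Aac : ALine R B (0, 0) (X, Y) := ⟨aR, cR, nac, fun z hz => (off z hz).2.1⟩
  have Abc : ALine R B (0, 1) (X, Y) := ⟨bR, cR, nbc, fun z hz => (off z hz).2.2⟩
  have ncol : ¬ Col (0, 0) (0, 1) (X, Y) := by
    intro h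
    unfold Col at h
    simp only at h
    apply hX
    linarith
  -- the line `p q`
  have pqa : ∀ z, Col (0, 0) (X, Y) z → z ∉ R → Col p q z → ∃ w ∈ R, Col p q w := by
    intro z hz hzR hc
    obtain ⟨k, rfl⟩ := ca_pt g.ca hz
    have := g.qa k hc
    rw [this, zero_mul, zero_mul] at hzR
    exact absurd aR hzR
  have pqb : ∀ z, Col (0, 1) (X, Y) z → z ∉ R → Col p q z → ∃ w ∈ R, Col p q w := by
    intro z hz hzR hc
    obtain ⟨k, rfl⟩ := cb_pt g.cb hz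
    have := g.qb k hc
    rw [this, zero_mul, zero_mul, add_zero] at hzR
    exact absurd bR hzR
  have pqm : ∀ z, Col (0, 0) (0, 1) z → z ∉ R → Col p q z → ∃ w ∈ R, Col p q w := by
    intro z hz hzR hc
    rw [ab_pt hz] at hc hzR
    rcases hm _ hc with h | h
    · rw [h] at hzR; exact absurd aR hzR
    · rw [h] at hzR; exact absurd bR hzR
  -- exclusions
  have gβ : ∀ β, (β = p ∨ β = q) → GP β X Y := by
    rintro β (rfl | rfl)
    · exact g.hp
    · exact g.hq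
  have nβ : ∀ β, (β = p ∨ β = q) → β ≠ r := by
    rintro β (rfl | rfl)
    · exact hrp.symm
    · exact hrq.symm
  have X1 : ∀ β, (β = p ∨ β = q) → HL R (0, 0) (X, Y) β r → ¬ HL R (0, 0) (0, 1) β r := by
    rintro β hβ ⟨ha, z, hz, hc⟩ ⟨_, z', hz', hc'⟩
    exact ha _ aR ((gβ β hβ).x1 (nβ β hβ) g.ca hz hz' hc hc')
  have X2 : ∀ β, (β = p ∨ β = q) → HL R (0, 1) (X, Y) β r → ¬ HL R (0, 0) (0, 1) β r := by
    rintro β hβ ⟨ha, z, hz, hc⟩ ⟨_, z', hz', hc'⟩
    exact ha _ bR ((gβ β hβ).x2 (nβ β hβ) g.cb hz hz' hc hc')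
  have X3 : ∀ β, (β = p ∨ β = q) → HL R (0, 0) (X, Y) β r → ¬ HL R (0, 1) (X, Y) β r := by
    rintro β hβ ⟨ha, z, hz, hc⟩ ⟨_, z', hz', hc'⟩
    exact ha _ cR ((gβ β hβ).x3 (nβ β hβ) g.ca g.cb hz hz' hc hc')
  -- uncovered sides
  have Ua : ¬ HL R (0, 0) (X, Y) p r → ¬ HL R (0, 0) (X, Y) q r → Uncov R B (0, 0) (X, Y) :=
    fun e1 e2 => ig_unc Bm pqa (hl_no e1) (hl_no e2)
  have Ub : ¬ HL R (0, 1) (X, Y) p r → ¬ HL R (0, 1) (X, Y) q r → Uncov R B (0, 1) (X, Y) :=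
    fun e1 e2 => ig_unc Bm pqb (hl_no e1) (hl_no e2)
  have Um : ¬ HL R (0, 0) (0, 1) p r → ¬ HL R (0, 0) (0, 1) q r → Uncov R B (0, 0) (0, 1) :=
    fun e1 e2 => ig_unc Bm pqm (hl_no e1) (hl_no e2)
  have symU : ∀ {u v}, Uncov R B u v → Uncov R B v u := by
    intro u v h z hz
    exact h z hz.swap12
  have symH : ∀ {u v β}, HL R u v β r → HL R v u β r := by
    rintro u v β ⟨h, z, hz, hc⟩
    exact ⟨h, z, hz.swap12, hc⟩
  have pqA : ∀ β β', ((β = p ∧ β' = q) ∨ (β = q ∧ β' = p)) → ∀ z, Col (0, 0) (X, Y) z → z ∉ R →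
      Col β β' z → ∃ w ∈ R, Col β β' w := by
    rintro β β' (⟨rfl, rfl⟩ | ⟨rfl, rfl⟩) z hz hzR hc
    · exact pqa z hz hzR hc
    · obtain ⟨w, hw, hw'⟩ := pqa z hz hzR hc.swap12
      exact ⟨w, hw, hw'.swap12⟩
  have pqB : ∀ β β', ((β = p ∧ β' = q) ∨ (β = q ∧ β' = p)) → ∀ z, Col (0, 1) (X, Y) z → z ∉ R →
      Col β β' z → ∃ w ∈ R, Col β β' w := by
    rintro β β' (⟨rfl, rfl⟩ | ⟨rfl, rfl⟩) z hz hzR hc
    · exact pqb z hz hzR hc
    · obtain ⟨w, hw, hw'⟩ := pqb z hz hzR hc.swap12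
      exact ⟨w, hw, hw'.swap12⟩
  have Bm' : ∀ β β', ((β = p ∧ β' = q) ∨ (β = q ∧ β' = p)) → ∀ z ∈ B, z = β ∨ z = β' ∨ z = r := by
    rintro β β' (⟨rfl, rfl⟩ | ⟨rfl, rfl⟩) z hz
    · exact Bm z hz
    · rcases Bm z hz with h | h | h
      · exact Or.inr (Or.inl h)
      · exact Or.inl h
      · exact Or.inr (Or.inr h)
  have Ua' : ∀ β β', ((β = p ∧ β' = q) ∨ (β = q ∧ β' = p)) → ¬ HL R (0, 0) (X, Y) β r →
      ¬ HL R (0, 0) (X, Y) β' r → Uncov R B (0, 0) (X, Y) := by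
    rintro β β' (⟨rfl, rfl⟩ | ⟨rfl, rfl⟩) e1 e2
    · exact Ua e1 e2
    · exact Ua e2 e1
  have Ub' : ∀ β β', ((β = p ∧ β' = q) ∨ (β = q ∧ β' = p)) → ¬ HL R (0, 1) (X, Y) β r →
      ¬ HL R (0, 1) (X, Y) β' r → Uncov R B (0, 1) (X, Y) := by
    rintro β β' (⟨rfl, rfl⟩ | ⟨rfl, rfl⟩) e1 e2
    · exact Ub e1 e2
    · exact Ub e2 e1
  have Um' : ∀ β β', ((β = p ∧ β' = q) ∨ (β = q ∧ β' = p)) → ¬ HL R (0, 0) (0, 1) β r →
      ¬ HL R (0, 0) (0, 1) β' r → Uncov R B (0, 0) (0, 1) := by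
    rintro β β' (⟨rfl, rfl⟩ | ⟨rfl, rfl⟩) e1 e2
    · exact Um e1 e2
    · exact Um e2 e1
  have m1 : ∀ {β β'}, ((β = p ∧ β' = q) ∨ (β = q ∧ β' = p)) → (β = p ∨ β = q) := by
    rintro β β' (⟨h, _⟩ | ⟨h, _⟩)
    · exact Or.inl h
    · exact Or.inr h
  have m2 : ∀ {β β'}, ((β = p ∧ β' = q) ∨ (β = q ∧ β' = p)) → (β' = p ∨ β' = q) := by
    rintro β β' (⟨_, h⟩ | ⟨_, h⟩)
    · exact Or.inr h
    · exact Or.inl h
  have keyA : ∀ β β', ((β = p ∧ β' = q) ∨ (β = q ∧ β' = p)) → HL R (0, 0) (X, Y) β r →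
      Win R B := by
    intro β β' hββ hh
    have g1 := gβ β (m1 hββ)
    have n1 := nβ β (m1 hββ)
    have e1 := X1 β (m1 hββ) hh
    have e3 := X3 β (m1 hββ) hh
    obtain ⟨y1, y2⟩ : ¬ Par (0, 0) (0, 1) β r ∧ ¬ Par (0, 1) (X, Y) β r := by
      obtain ⟨ha, z, hz, hc⟩ := hh
      exact g1.y1 n1 g.ca hz hc (ha _ aR)
    by_cases f1 : HL R (0, 0) (0, 1) β' r
    · have f2 : ¬ HL R (0, 0) (X, Y) β' r := fun h => X1 β' (m2 hββ) h f1
      have f3 : ¬ HL R (0, 1) (X, Y) β' r := fun h => X2 β' (m2 hββ) h f1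
      refine ig_fin (X := (X, Y)) (Y := (0, 1)) (c := (0, 0)) (β := β) (β' := β') hNT hBR
        (Bm' β β' hββ) Abc.symm (symU (Ub' β β' hββ e3 f3)) Aac.symm Aab ?_ n1 ?_ ?_ ?_
      · exact fun h => ncol h.rot.swap12
      · intro z hz hzR hc
        exact pqA β β' hββ z hz.swap12 hzR hc
      · intro z hz hzR hc
        exact hl_no f2 z hz.swap12 hzR hc
      · intro _ _
        exact ⟨fun h => y2 h.sw, y1⟩
    · have Uab := Um' β β' hββ e1 f1
      by_cases f2 : HL R (0, 0) (X, Y) β' r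
      · have f3 := X3 β' (m2 hββ) f2
        refine w0_tri (o := (0, 1)) (a := (0, 0)) (b := (X, Y)) hNT hBR Aab.symm (symU Uab) Abc
          (Ub' β β' hββ e3 f3) Aac.symm ?_
        exact fun h => ncol h.swap12
      · refine ig_fin (X := (0, 0)) (Y := (0, 1)) (c := (X, Y)) (β := β) (β' := β') hNT hBR
          (Bm' β β' hββ) Aab Uab Aac Abc.symm ncol n1 (pqA β β' hββ) (hl_no f2) ?_
        intro _ _
        exact ⟨y1, fun h => y2 h.sw⟩
  have keyB : ∀ β β', ((β = p ∧ β' = q) ∨ (β = q ∧ β' = p)) → HL R (0, 1) (X, Y) β r →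
      Win R B := by
    intro β β' hββ hh
    have g1 := gβ β (m1 hββ)
    have n1 := nβ β (m1 hββ)
    have e1 := X2 β (m1 hββ) hh
    have e3 : ¬ HL R (0, 0) (X, Y) β r := fun h => X3 β (m1 hββ) h hh
    obtain ⟨y1, y2⟩ : ¬ Par (0, 0) (0, 1) β r ∧ ¬ Par (0, 0) (X, Y) β r := by
      obtain ⟨ha, z, hz, hc⟩ := hh
      exact g1.y2 n1 g.cb hz hc (ha _ bR)
    by_cases f1 : HL R (0, 0) (0, 1) β' r
    · have f2 : ¬ HL R (0, 0) (X, Y) β' r := fun h => X1 β' (m2 hββ) h f1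
      have f3 : ¬ HL R (0, 1) (X, Y) β' r := fun h => X2 β' (m2 hββ) h f1
      refine ig_fin (X := (X, Y)) (Y := (0, 0)) (c := (0, 1)) (β := β) (β' := β') hNT hBR
        (Bm' β β' hββ) Aac.symm (symU (Ua' β β' hββ e3 f2)) Abc.symm Aab.symm ?_ n1 ?_ ?_ ?_
      · exact fun h => ncol h.rot
      · intro z hz hzR hc
        exact pqB β β' hββ z hz.swap12 hzR hc
      · intro z hz hzR hc
        exact hl_no f3 z hz.swap12 hzR hc
      · intro _ _
        exact ⟨fun h => y2 h.sw, fun h => y1 h.sw⟩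
    · have Uab := Um' β β' hββ e1 f1
      by_cases f3 : HL R (0, 1) (X, Y) β' r
      · have f2 : ¬ HL R (0, 0) (X, Y) β' r := fun h => X3 β' (m2 hββ) h f3
        exact w0_tri (o := (0, 0)) (a := (0, 1)) (b := (X, Y)) hNT hBR Aab Uab Aac
          (Ua' β β' hββ e3 f2) Abc.symm ncol
      · refine ig_fin (X := (0, 1)) (Y := (0, 0)) (c := (X, Y)) (β := β) (β' := β') hNT hBR
          (Bm' β β' hββ) Aab.symm (symU Uab) Abc Aac.symm (fun h => ncol h.swap12) n1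
          (pqB β β' hββ) (hl_no f3) ?_
        intro _ _
        exact ⟨fun h => y1 h.sw, fun h => y2 h.sw⟩
  by_cases a1 : HL R (0, 0) (X, Y) p r
  · exact keyA p q (Or.inl ⟨rfl, rfl⟩) a1
  by_cases a2 : HL R (0, 0) (X, Y) q r
  · exact keyA q p (Or.inr ⟨rfl, rfl⟩) a2
  by_cases b1 : HL R (0, 1) (X, Y) p r
  · exact keyB p q (Or.inl ⟨rfl, rfl⟩) b1
  by_cases b2 : HL R (0, 1) (X, Y) q r
  · exact keyB q p (Or.inr ⟨rfl, rfl⟩) b2
  exact w0_tri (o := (X, Y)) (a := (0, 0)) (b := (0, 1)) hNT hBR Aac.symm (symU (Ua a1 a2))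
    Abc.symm (symU (Ub b1 b2)) Aab.symm (fun h => ncol h.rot)

end Pool.Agent.K4L
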