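import Pool.Agent.K4L.StarInv

/-!
# The answer `t` is much nearer than `e`: Red wins
-/

namespace Pool.Agent.K4L

namespace StarCtx

variable {R B : Finset Pt} {o a b uL w0 : Pt} {n κ E T α : ℤ}

/-- `τ` is large if some pair is involved -/
theorem tau_big (c : StarCtx R B o a b uL w0 n κ E T α) {R2 : Finset Pt} {G τ Dm K : ℤ}
    (hR2 : R ⊆ R2) (hg : adv b w0 G ∈ R2) (hDm : 12 * (|E| * |E|) ^ 3 ≤ Dm)
    (hG1 : 8 * (|E| * |E|) ^ 2 < |G|) (hG2 : 4 * (|E| * |E|) * (K + 1) < |G|)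
    (hG3 : 4 * n ^ 4 * K + 4 * n ^ 5 < |G|)
    (hGM : ∀ α' : ℤ, (α' = 0 ∨ α' = α) → ∃ M, G = dt w0 (adv o uL α' - b) * M ∧
      ∀ d : ℤ, d ≠ 0 → |d| ≤ Dm → d ∣ M)
    {α1 : ℤ} (hα1 : α1 = 0 ∨ α1 = α) {β1 : Pt} (hβ1 : β1 ∈ insert (adv o uL T) B)
    (hbad1 : ¬ Good R2 (adv b w0 G) (adv o uL α1) β1 (adv b w0 τ)) : K < |τ| := by
  have hn := c.hn
  have hE1 := c.E_big.2.2.2.1
  have hEE : 1 ≤ |E| * |E| := by nlinarith
  have hG0 : |E| * |E| < |G| := by nlinarith
  have hDm0 : 0 ≤ Dm := le_trans (by positivity) hDm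
  have hκ0 : κ ≠ 0 := by have := c.κ1; intro h; linarith
  rcases c.inv hR2 hg hDm0 hG0 hGM hα1 hβ1 hbad1 with h | ⟨hB1, hk, hl, hS⟩
  · exact sg_tau_L hEE (c.X_Λ hα1) (c.h_Λ hβ1) (c.c_Λ hα1 hβ1) (c.hh hβ1) hDm hG2
      (by linarith) h
  · exact sg_tau_S hn c.κ1 c.κn
      ((c.near' (Or.inr hB1) (Or.inl c.bR)).dt (c.near' (Or.inl (c.adv_mem hα1)) (Or.inl c.bR)))
      c.h0n (c.k_bound hβ1) hl (mul_ne_zero hκ0 (c.hh hβ1)) hG3 hS

end StarCtx

theorem exists_mult (D : ℤ) : ∃ M : ℤ, M ≠ 0 ∧ ∀ d : ℤ, d ≠ 0 → |d| ≤ D → d ∣ M := by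
  refine ⟨((D.toNat).factorial : ℤ), by exact_mod_cast Nat.factorial_ne_zero _, ?_⟩
  intro d hd hD
  have h1 : d.natAbs ∣ (D.toNat).factorial := by
    apply Nat.dvd_factorial
    · exact Int.natAbs_pos.mpr hd
    · have : (d.natAbs : ℤ) ≤ D := by rw [Int.natCast_natAbs]; exact hD
      omega
  exact Int.natAbs_dvd.mp (Int.natCast_dvd_natCast.mpr h1)

/-- a primitive vector with a positive multiple -/
theorem exists_prim_pos {v : Pt} (hv : v ≠ 0) :
    ∃ u : Pt, IsCoprime u.1 u.2 ∧ ∃ g : ℤ, 1 ≤ g ∧ v.1 = g * u.1 ∧ v.2 = g * u.2 := by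
  obtain ⟨u, hu, g, hg, h⟩ := exists_prim hv
  have h1 := congrArg Prod.fst h
  have h2 := congrArg Prod.snd h
  simp only at h1 h2
  rcases lt_or_gt_of_ne hg with hneg | hpos
  · refine ⟨(-u.1, -u.2), ?_, -g, by linarith, ?_, ?_⟩
    · exact hu.neg_neg
    · simp only; rw [h1]; ring
    · simp only; rw [h2]; ring
  · exact ⟨u, hu, g, by linarith, h1, h2⟩

theorem lin_ne {A D K G : ℤ} (hA : |A| ≤ K) (hD : D ≠ 0) (hG : K < |G|) : A + G * D ≠ 0 := by
  intro h
  have h1 := Int.one_le_abs hD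
  have h2 : |G| * |D| = |A| := by
    rw [← abs_mul]
    have : G * D = -A := by linarith
    rw [this, abs_neg]
  have h3 : |G| ≤ |G| * |D| := le_mul_of_one_le_right (abs_nonneg _) h1
  linarith

/-- STAR: after the far point `e` of `L` and an answer `t` which is much nearer, Red wins -/
theorem star_win {R B : Finset Pt} {o a b uL : Pt} {n E T α : ℤ}
    (hn : 1 ≤ n) (near : ∀ v ∈ R ∪ B, ∀ w ∈ R ∪ B, Nv n (v - w)) (nL : Nv n uL)
    (hB : ∀ β ∈ B, β ∉ R) (oR : o ∈ R) (aR : a ∈ R) (bR : b ∈ R)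
    (ha : a = adv o uL α) (hα : α ≠ 0) (h0 : dt uL (o - b) ≠ 0)
    (Lal : ∀ β ∈ B, dt uL (β - o) ≠ 0) (Mal : ∀ β ∈ B, dt (β - b) (o - b) ≠ 0)
    (Nal : ∀ β ∈ B, dt (β - b) (a - b) ≠ 0)
    (hpar : ∀ β ∈ B, ∀ τ ∈ B, β ≠ τ → dt (τ - β) uL = 0 →
      (∃ w ∈ R, Col β τ w) ∨ ∀ z, Col o b z → ¬ Col β τ z)
    (hE : 1000 * n ^ 10 ≤ |E|) (hdvd : dt uL (o - b) ∣ E)
    (hT : 32 * n ^ 4 * |T| < |E|)
    (htR : adv o uL T ∉ insert (adv o uL E) R)
    (hNT : NoThreat (insert (adv o uL E) R) (insert (adv o uL T) B)) :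
    Win (insert (adv o uL E) R) (insert (adv o uL T) B) := by
  classical
  have huL : uL ≠ 0 := by rintro rfl; apply h0; unfold dt; simp
  have nearR : ∀ {v w : Pt}, (v ∈ R ∨ v ∈ B) → (w ∈ R ∨ w ∈ B) → Nv n (v - w) :=
    fun hv hw => near _ (Finset.mem_union.mpr hv) _ (Finset.mem_union.mpr hw)
  have hn10 : n ≤ n ^ 10 := le_self_pow₀ hn (by norm_num)
  have hEn : n < |E| := by linarith
  -- the direction of `b e`
  have hv : ((o - b).1 + E * uL.1, (o - b).2 + E * uL.2) ≠ (0 : Pt) := by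
    intro h
    have h1 := congrArg Prod.fst h
    have h2 := congrArg Prod.snd h
    simp only [Prod.fst_zero, Prod.snd_zero] at h1 h2
    apply h0
    unfold dt
    linear_combination uL.1 * h2 - uL.2 * h1
  obtain ⟨w0, cw, κ, hκ1, hw1, hw2⟩ := exists_prim_pos hv
  simp only at hw1 hw2
  have hκn : κ ≤ n := by
    have d1 : κ ∣ dt uL (o - b) := by
      refine ⟨dt uL w0, ?_⟩
      unfold dt
      linear_combination uL.1 * hw2 - uL.2 * hw1
    have d2 : κ ∣ E := d1.trans hdvd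
    obtain ⟨E', hE'⟩ := d2
    have d3 : κ ∣ (o - b).1 := ⟨w0.1 - E' * uL.1, by rw [hE'] at hw1; linear_combination hw1⟩
    have d4 : κ ∣ (o - b).2 := ⟨w0.2 - E' * uL.2, by rw [hE'] at hw2; linear_combination hw2⟩
    have hob := nearR (Or.inl oR) (Or.inl bR)
    have hne : (o - b).1 ≠ 0 ∨ (o - b).2 ≠ 0 := by
      by_contra hc
      rw [not_or, not_not, not_not] at hc
      apply h0
      unfold dt
      rw [hc.1, hc.2]; ring
    rcases hne with h | h
    · have := Int.le_of_dvd (abs_pos.mpr h) ((dvd_abs _ _).mpr d3)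
      exact this.trans hob.1
    · have := Int.le_of_dvd (abs_pos.mpr h) ((dvd_abs _ _).mpr d4)
      exact this.trans hob.2
  have hαn : |α| ≤ n := by
    have hao := nearR (Or.inl aR) (Or.inl oR)
    have hu : uL.1 ≠ 0 ∨ uL.2 ≠ 0 := by
      by_contra hc
      rw [not_or, not_not, not_not] at hc
      exact huL (Prod.ext hc.1 hc.2)
    rw [ha] at hao
    unfold Nv adv at hao
    simp only [Prod.fst_sub, Prod.snd_sub, add_sub_cancel_left, abs_mul] at hao
    rcases hu with h | h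
    · have h1 := Int.one_le_abs h
      have h2 : |α| ≤ |α| * |uL.1| := le_mul_of_one_le_right (abs_nonneg _) h1
      linarith [hao.1]
    · have h1 := Int.one_le_abs h
      have h2 : |α| ≤ |α| * |uL.2| := le_mul_of_one_le_right (abs_nonneg _) h1
      linarith [hao.2]
  have hT0 : T ≠ 0 := by
    rintro rfl
    apply htR
    have : adv o uL 0 = o := by unfold adv; simp
    rw [this]; exact Finset.mem_insert_of_mem oR
  have hTα : T ≠ α := by
    rintro rfl
    apply htR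
    rw [← ha]; exact Finset.mem_insert_of_mem aR
  have c : StarCtx R B o a b uL w0 n κ E T α :=
    ⟨hn, near, nL, hB, oR, aR, bR, ha, hα, hαn, h0, hκ1, hκn, hw1, hw2, Lal, Mal, Nal, hE, hT,
      hT0, hTα⟩
  have hκ0 : κ ≠ 0 := by intro h; linarith
  set e := adv o uL E with he
  set t := adv o uL T with ht
  have he' : e = adv b w0 κ := by
    rw [he]
    unfold adv
    rw [Prod.fst_sub] at hw1
    rw [Prod.snd_sub] at hw2
    refine Prod.ext ?_ ?_
    · simp only; linarith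
    · simp only; linarith
  have hw0 : w0 ≠ 0 := by
    rintro rfl
    apply hv
    simp only [Prod.fst_zero, Prod.snd_zero, mul_zero] at hw1 hw2
    exact Prod.ext hw1 hw2
  have beR : b ∈ insert e R := Finset.mem_insert_of_mem bR
  have eR : e ∈ insert e R := Finset.mem_insert_self _ _
  have heR : e ∉ R := by
    intro h
    exact adv_ne (nearR (Or.inl h) (Or.inl oR)) huL hEn he.symm
  have heB : e ∉ B := by
    intro h
    exact adv_ne (nearR (Or.inr h) (Or.inl oR)) huL hEn he.symm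
  have hte : t ≠ e := by
    rintro h
    exact htR (h ▸ Finset.mem_insert_self _ _)
  have hbe : b ≠ e := fun h => heR (h ▸ bR)
  -- the line `b e` in terms of `w0`
  have be_iff : ∀ z, Col b e z ↔ dt w0 (z - b) = 0 := by
    intro z
    have h1 : e - b = (κ * w0.1, κ * w0.2) := by
      rw [he']; unfold adv
      refine Prod.ext ?_ ?_
      · simp only [Prod.fst_sub]; ring
      · simp only [Prod.snd_sub]; ring
    exact line_iff_dt hκ0 h1 z
  -- `b e` is alive
  have be_al : ALine (insert e R) (insert t B) b e :=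
    ⟨beR, eR, hbe, fun z hz hc => c.hh hz ((be_iff z).mp hc)⟩
  -- all pairs are harmless for `b e`
  have hE4 : 2 * n ^ 2 + 4 * n ^ 4 < |E| := by
    have h := c.E_big
    have : 1 ≤ n ^ 4 := one_le_pow₀ hn
    linarith [h.1, h.2.2.2.2]
  have be_good : ∀ β ∈ insert t B, ∀ τ ∈ insert t B, β ≠ τ → Good (insert e R) e b β τ := by
    have g1 : ∀ β ∈ B, ∀ τ ∈ B, β ≠ τ → Good (insert e R) e b β τ := by
      intro β hβ τ hτ hne
      refine near_good' beR (nearR (Or.inl oR) (Or.inl bR)) (nearR (Or.inl bR) (Or.inr hβ))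
        (nearR (Or.inr hτ) (Or.inr hβ)) nL h0 hne hE4 ?_
      intro hp
      rcases hpar β hβ τ hτ hne hp with ⟨w, hw, hc⟩ | h
      · exact Or.inl ⟨w, Finset.mem_insert_of_mem hw, hc⟩
      · exact Or.inr ⟨hdvd, h⟩
    have g2 : ∀ β ∈ B, Good (insert e R) e b β t := by
      intro β hβ
      have hbL : dt uL (b - o) ≠ 0 := by
        intro h
        apply h0
        unfold dt at *
        simp only [Prod.fst_sub, Prod.snd_sub] at *
        linarith
      exact range_good hn beR (nearR (Or.inl bR) (Or.inl oR)) (nearR (Or.inr hβ) (Or.inl oR)) nL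
        (Lal β hβ) hbL (by linarith [c.E_big.2.2.2.2]) (Or.inl hT)
    intro β hβ τ hτ hne
    rcases Finset.mem_insert.mp hβ with h | h <;> rcases Finset.mem_insert.mp hτ with h' | h'
    · exact absurd (h.trans h'.symm) hne
    · rw [h]; exact (g2 τ h').symm
    · rw [h']; exact g2 β h
    · exact g1 β h τ h' hne
  have be_U : Uncov (insert e R) (insert t B) b e := (uncov_of_good be_good).symm
  -- the second level
  obtain ⟨n1, hn1, hn1F⟩ := exists_bound
    ((((insert e R ∪ insert t B) ×ˢ (insert e R ∪ insert t B)).image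
      (fun p : Pt × Pt => p.1 - p.2)) ∪ {w0})
  have near1 : ∀ {v w : Pt}, (v ∈ insert e R ∨ v ∈ insert t B) →
      (w ∈ insert e R ∨ w ∈ insert t B) → Nv n1 (v - w) := by
    intro v w hv hw
    apply hn1F
    apply Finset.mem_union_left
    rw [Finset.mem_image]
    exact ⟨(v, w), Finset.mem_product.mpr ⟨Finset.mem_union.mpr hv, Finset.mem_union.mpr hw⟩, rfl⟩
  have nw : Nv n1 w0 := hn1F w0 (by simp)
  obtain ⟨Λ, hΛ⟩ : ∃ Λ, Λ = |E| * |E| := ⟨_, rfl⟩
  obtain ⟨Dm, hDm⟩ : ∃ Dm, Dm = 12 * Λ ^ 3 := ⟨_, rfl⟩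
  obtain ⟨K1, hK1⟩ : ∃ K1, K1 = 2 * n1 ^ 2 := ⟨_, rfl⟩
  have hΛ0 : 0 ≤ Λ := by rw [hΛ]; positivity
  have hK10 : 0 ≤ K1 := by rw [hK1]; positivity
  obtain ⟨M, hM0, hM⟩ := exists_mult Dm
  have hX : ∀ α' : ℤ, α' = 0 ∨ α' = α → dt w0 (adv o uL α' - b) ≠ 0 := by
    intro α' hα' h
    have e := c.X_eq α'
    rw [h, mul_zero] at e
    exact mul_ne_zero (c.Ex hα').2.2.2 c.h0 e.symm
  obtain ⟨Γ, hΓ⟩ : ∃ Γ, Γ = 8 * Λ ^ 2 + 4 * Λ * (K1 + 1) + 4 * n ^ 4 * K1 + 4 * n ^ 5 + K1 +
      4 * n1 ^ 4 + n1 := ⟨_, rfl⟩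
  have q1 : 0 ≤ 8 * Λ ^ 2 := by positivity
  have q2 : 0 ≤ 4 * Λ * (K1 + 1) := by positivity
  have q3 : 0 ≤ 4 * n ^ 4 * K1 := by positivity
  have q4 : 0 ≤ 4 * n ^ 5 := by positivity
  have q5 : 0 ≤ 4 * n1 ^ 4 := by positivity
  have hΓ0 : 0 ≤ Γ := by rw [hΓ]; linarith
  obtain ⟨G, hGdef⟩ : ∃ G, G = dt w0 (adv o uL 0 - b) * dt w0 (adv o uL α - b) * M * (Γ + 1) :=
    ⟨_, rfl⟩
  have hGM : ∀ α' : ℤ, (α' = 0 ∨ α' = α) → ∃ M, G = dt w0 (adv o uL α' - b) * M ∧
      ∀ d : ℤ, d ≠ 0 → |d| ≤ Dm → d ∣ M := by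
    intro α' hα'
    rcases hα' with rfl | rfl
    · refine ⟨dt w0 (adv o uL α - b) * M * (Γ + 1), by rw [hGdef]; ring, ?_⟩
      intro d hd hd'
      exact Dvd.dvd.mul_right (Dvd.dvd.mul_left (hM d hd hd') _) _
    · refine ⟨dt w0 (adv o uL 0 - b) * M * (Γ + 1), by rw [hGdef]; ring, ?_⟩
      intro d hd hd'
      exact Dvd.dvd.mul_right (Dvd.dvd.mul_left (hM d hd hd') _) _
  have hGΓ : Γ < |G| := by
    have h1 : 1 ≤ |dt w0 (adv o uL 0 - b) * dt w0 (adv o uL α - b) * M| :=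
      Int.one_le_abs (mul_ne_zero (mul_ne_zero (hX 0 (Or.inl rfl)) (hX α (Or.inr rfl))) hM0)
    have h2 : |G| = |dt w0 (adv o uL 0 - b) * dt w0 (adv o uL α - b) * M| * (Γ + 1) := by
      rw [hGdef, abs_mul, abs_of_pos (show 0 < Γ + 1 by linarith)]
    have h3 : Γ + 1 ≤ |dt w0 (adv o uL 0 - b) * dt w0 (adv o uL α - b) * M| * (Γ + 1) :=
      le_mul_of_one_le_left (by linarith) h1
    linarith
  have hG1 : 8 * (|E| * |E|) ^ 2 < |G| := by rw [← hΛ]; linarith
  have hG2 : 4 * (|E| * |E|) * (K1 + 1) < |G| := by rw [← hΛ]; linarith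
  have hG3 : 4 * n ^ 4 * K1 + 4 * n ^ 5 < |G| := by linarith
  have hG4 : 2 * n1 ^ 2 + 4 * n1 ^ 4 < |G| := by linarith
  have hG5 : 2 * n1 ^ 2 < |G| := by linarith
  have hG6 : n1 < |G| := by linarith
  have hDm' : 12 * (|E| * |E|) ^ 3 ≤ Dm := by rw [hDm, hΛ]
  obtain ⟨g, hgdef⟩ : ∃ g, g = adv b w0 G := ⟨_, rfl⟩
  have hgne : ∀ z, (z ∈ insert e R ∨ z ∈ insert t B) → g ≠ z := by
    intro z hz
    rw [hgdef]
    exact adv_ne (near1 hz (Or.inl beR)) hw0 hG6
  have hgR : g ∉ insert e R := fun h => hgne g (Or.inl h) rfl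
  have hgB : g ∉ insert t B := fun h => hgne g (Or.inr h) rfl
  have hgbe : Col b e g := by
    rw [be_iff, hgdef]; unfold dt adv; simp only [Prod.fst_sub, Prod.snd_sub]; ring
  refine win_force be_al hgR hgB hgbe (hNT.mono (Finset.subset_insert _ _)
    (Finset.Subset.refl _)) ?_
  intro t2 ht2R ht2B ht2be
  have hNT2 : NoThreat (insert g (insert e R)) (insert t2 (insert t B)) :=
    hNT.of_uncov be_U (Finset.subset_insert _ _) ht2be
      (fun h => ht2R (Finset.mem_insert_of_mem h)) ht2B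
  obtain ⟨τ, hτ⟩ := exists_adv cw ((be_iff t2).mp ht2be)
  have hRR : R ⊆ insert g (insert e R) := fun z hz =>
    Finset.mem_insert_of_mem (Finset.mem_insert_of_mem hz)
  have hgR2 : adv b w0 G ∈ insert g (insert e R) := by
    rw [hgdef]; exact Finset.mem_insert_self _ _
  have hBR2 : ∀ β ∈ insert t2 (insert t B), β ∉ insert g (insert e R) := by
    intro β hβ hβR
    rcases Finset.mem_insert.mp hβ with h | h
    · exact ht2R (h ▸ hβR)
    · rcases Finset.mem_insert.mp hβR with h' | h'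
      · exact hgB (h' ▸ h)
      · rcases Finset.mem_insert.mp h with h1 | h1
        · exact htR (h1 ▸ h')
        · rcases Finset.mem_insert.mp h' with h2 | h2
          · exact heB (h2 ▸ h1)
          · exact hB β h1 h2
  -- the alive lines
  have xR : ∀ {α' : ℤ}, α' = 0 ∨ α' = α → adv o uL α' ∈ insert e R :=
    fun h => Finset.mem_insert_of_mem (c.adv_mem h)
  have xne : ∀ {α' : ℤ}, α' = 0 ∨ α' = α → b ≠ adv o uL α' := by
    intro α' hα' h
    apply hX α' hα'
    rw [← h]; unfold dt; simp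
  have dtneg : ∀ v w : Pt, dt w0 (v - w) ≠ 0 → dt w0 (w - v) ≠ 0 := by
    intro v w h h0
    apply h
    unfold dt at *
    simp only [Prod.fst_sub, Prod.snd_sub] at *
    linarith
  have gx_al : ∀ {α' : ℤ}, α' = 0 ∨ α' = α →
      ALine (insert g (insert e R)) (insert t2 (insert t B)) g (adv o uL α') := by
    intro α' hα'
    refine ⟨Finset.mem_insert_self _ _, Finset.mem_insert_of_mem (xR hα'),
      hgne _ (Or.inl (xR hα')), ?_⟩
    intro z hz hc
    rcases Finset.mem_insert.mp hz with h | h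
    · -- `t2` is on `b e`
      have h1 : dt w0 (z - b) = 0 := by rw [h]; exact (be_iff t2).mp ht2be
      have h2 : dt w0 (g - b) = 0 := (be_iff g).mp hgbe
      have hzg : z ≠ g := by
        rintro h'
        exact ht2R (h ▸ h' ▸ Finset.mem_insert_self _ _)
      have h3 : dt w0 (z - g) = 0 := by
        unfold dt at *
        simp only [Prod.fst_sub, Prod.snd_sub] at *
        linarith
      have h4 : dt (z - g) (adv o uL α' - g) = 0 := by
        rw [dt_swap, col_dt.mp hc, neg_zero]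
      have h5 : dt (z - g) w0 = 0 := by rw [dt_swap, h3, neg_zero]
      have h6 := dt_par (sub_ne_zero.mpr hzg) h5 h4
      apply hX α' hα'
      have : dt w0 (adv o uL α' - b) = dt w0 (adv o uL α' - g) + dt w0 (g - b) := by
        unfold dt; simp only [Prod.fst_sub, Prod.snd_sub]; ring
      rw [this, h6, h2, add_zero]
    · rw [hgdef] at hc
      refine near_off (near1 (Or.inl beR) (Or.inl (xR hα'))) (near1 (Or.inr h) (Or.inl (xR hα')))
        (dtneg _ _ (hX α' hα')) ?_ hG5 hc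
      rintro h'
      exact hBR2 z hz (h' ▸ Finset.mem_insert_of_mem (xR hα'))
  have xb_al : ∀ {α' : ℤ}, α' = 0 ∨ α' = α →
      ALine (insert g (insert e R)) (insert t2 (insert t B)) (adv o uL α') b := by
    intro α' hα'
    refine ⟨Finset.mem_insert_of_mem (xR hα'), Finset.mem_insert_of_mem beR, (xne hα').symm, ?_⟩
    intro z hz hc
    have hc' : dt (z - b) (adv o uL α' - b) = 0 := by
      have := col_dt.mp (hc.swap12)
      rw [dt_swap, this, neg_zero]
    rcases Finset.mem_insert.mp hz with h | h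
    · have h1 : dt w0 (z - b) = 0 := by rw [h]; exact (be_iff t2).mp ht2be
      have hzb : z ≠ b := by
        rintro h'
        exact ht2R (h ▸ h' ▸ Finset.mem_insert_of_mem beR)
      have h5 : dt (z - b) w0 = 0 := by rw [dt_swap, h1, neg_zero]
      exact hX α' hα' (dt_par (sub_ne_zero.mpr hzb) h5 hc')
    · exact (c.c_bound hα' h).1 hc'
  -- near pairs
  have g_near : ∀ {α' : ℤ}, α' = 0 ∨ α' = α → ∀ β ∈ insert t B, ∀ τ ∈ insert t B, β ≠ τ →
      Good (insert g (insert e R)) g (adv o uL α') β τ := by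
    intro α' hα' β hβ τ hτ hne
    rw [hgdef]
    refine near_good' (Finset.mem_insert_of_mem (xR hα')) (near1 (Or.inl beR) (Or.inl (xR hα')))
      (near1 (Or.inl (xR hα')) (Or.inr hβ)) (near1 (Or.inr hτ) (Or.inr hβ)) nw
      (dtneg _ _ (hX α' hα')) hne hG4 ?_
    intro hp
    exfalso
    apply c.np hβ hτ hne
    rw [dt_swap, hp, neg_zero]
  -- the leaf for one choice
  have leaf : ∀ {α1 α2 : ℤ}, (α1 = 0 ∨ α1 = α) → (α2 = 0 ∨ α2 = α) → α1 ≠ α2 → ∀ β0 ∈ insert t B,
      (∀ β ∈ insert t B, Good (insert g (insert e R)) g (adv o uL α2) β t2) →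
      (∀ β ∈ insert t B, β ≠ β0 → Good (insert g (insert e R)) g (adv o uL α1) β t2) →
      Win (insert g (insert e R)) (insert t2 (insert t B)) := by
    intro α1 α2 hα1 hα2 hne12 β0 hβ0 hA hC
    have hx12 : adv o uL α1 ≠ adv o uL α2 := by
      intro h
      apply hne12
      have h1 := congrArg Prod.fst h
      have h2 := congrArg Prod.snd h
      unfold adv at h1 h2
      simp only at h1 h2
      have hu : uL.1 ≠ 0 ∨ uL.2 ≠ 0 := by
        by_contra hc
        rw [not_or, not_not, not_not] at hc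
        exact huL (Prod.ext hc.1 hc.2)
      rcases hu with hu | hu
      · exact mul_right_cancel₀ hu (by linarith)
      · exact mul_right_cancel₀ hu (by linarith)
    have hβ0t2 : β0 ≠ t2 := fun h => ht2B (h ▸ hβ0)
    have hbig : ¬ Good (insert g (insert e R)) g (adv o uL α1) β0 t2 → K1 < |τ| := by
      intro hbad
      refine c.tau_big hRR hgR2 hDm' hG1 hG2 hG3 hGM hα1 hβ0 ?_
      rw [← hgdef, ← hτ]; exact hbad
    refine star_leaf (g := g) (x := adv o uL α1) (x' := adv o uL α2) (b := b) (β0 := β0)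
      (t2 := t2) hNT2 hBR2 (gx_al hα2) (gx_al hα1) (xb_al hα1) ?_ ?_ ?_ ?_ hβ0t2
      (Finset.mem_insert_of_mem hβ0) (Finset.mem_insert_self _ _) ?_ ?_ ?_ ?_ ?_
    · rw [hgdef]
      exact near_off (near1 (Or.inl beR) (Or.inl (xR hα2)))
        (near1 (Or.inl (xR hα1)) (Or.inl (xR hα2))) (dtneg _ _ (hX α2 hα2)) hx12 hG5
    · rw [hgdef]
      exact near_off (near1 (Or.inl beR) (Or.inl (xR hα2)))
        (near1 (Or.inl beR) (Or.inl (xR hα2))) (dtneg _ _ (hX α2 hα2)) (xne hα2) hG5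
    · rw [hgdef]
      exact near_off (near1 (Or.inl beR) (Or.inl (xR hα1)))
        (near1 (Or.inl beR) (Or.inl (xR hα1))) (dtneg _ _ (hX α1 hα1)) (xne hα1) hG5
    · intro hc
      have h1 := col_dt.mp hc
      have h2 : dt (adv o uL α1 - adv o uL α2) (b - adv o uL α2) =
          -((α1 - α2) * dt uL (o - b)) := by
        unfold dt adv; simp only [Prod.fst_sub, Prod.snd_sub]; ring
      rw [h2, neg_eq_zero] at h1
      exact mul_ne_zero (sub_ne_zero.mpr hne12) h0 h1
    · intro β hβ σ hσ hne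
      rcases Finset.mem_insert.mp hβ with h | h <;> rcases Finset.mem_insert.mp hσ with h' | h'
      · exact absurd (h.trans h'.symm) hne
      · rw [h]; exact (hA σ h').symm
      · rw [h']; exact hA β h
      · exact g_near hα2 β h σ h' hne
    · intro β hβ σ hσ hne
      rcases Finset.mem_insert.mp hβ with h | h <;> rcases Finset.mem_insert.mp hσ with h' | h'
      · exact absurd (h.trans h'.symm) hne
      · by_cases hσ0 : σ = β0
        · exact Or.inr (Or.inr ⟨h, hσ0⟩)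
        · left; rw [h]; exact (hC σ h' hσ0).symm
      · by_cases hσ0 : β = β0
        · exact Or.inr (Or.inl ⟨hσ0, h'⟩)
        · left; rw [h']; exact hC β h hσ0
      · exact Or.inl (g_near hα1 β h σ h' hne)
    · intro hbad hP
      have h1 : dt (b - adv o uL α1) (b - β0) + τ * dt (b - adv o uL α1) w0 = 0 := by
        rw [hτ] at hP
        unfold Par adv at hP
        unfold dt adv
        simp only [Prod.fst_sub, Prod.snd_sub] at *
        linarith
      have h2 : |dt (b - adv o uL α1) (b - β0)| ≤ K1 := by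
        rw [hK1]
        exact (near1 (Or.inl beR) (Or.inl (xR hα1))).dt (near1 (Or.inl beR) (Or.inr hβ0))
      refine lin_ne h2 ?_ (hbig hbad) h1
      rw [dt_swap]
      exact neg_ne_zero.mpr (dtneg _ _ (hX α1 hα1))
    · intro hP
      have h1 : dt (adv o uL α2 - b) (b - adv o uL α1) + G * dt (b - adv o uL α1) w0 = 0 := by
        rw [hgdef] at hP
        unfold Par adv at hP
        unfold dt adv
        simp only [Prod.fst_sub, Prod.snd_sub] at *
        linarith
      refine lin_ne ((near1 (Or.inl (xR hα2)) (Or.inl beR)).dt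
        (near1 (Or.inl beR) (Or.inl (xR hα1)))) ?_ hG5 h1
      rw [dt_swap]
      exact neg_ne_zero.mpr (dtneg _ _ (hX α1 hα1))
    · intro hbad β hβ β' hβ' hne hP
      rcases Finset.mem_insert.mp hβ with h | h
      · right; rw [h]; exact Col.refl_right _ _
      · rcases Finset.mem_insert.mp hβ' with h' | h'
        · right
          rw [h'] at hP
          unfold Par at hP
          unfold Col
          linarith
        · exfalso
          have h1 : dt (b - β0) (β' - β) + τ * dt w0 (β' - β) = 0 := by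
            rw [hτ] at hP
            unfold Par adv at hP
            unfold dt
            simp only [Prod.fst_sub, Prod.snd_sub] at *
            linarith
          have h2 : |dt (b - β0) (β' - β)| ≤ K1 := by
            rw [hK1]
            exact (near1 (Or.inl beR) (Or.inr hβ0)).dt (near1 (Or.inr h') (Or.inr h))
          exact lin_ne h2 (c.np h h' hne) (hbig hbad) h1
  -- uniqueness
  have uniq : ∀ {α1 α2 : ℤ}, (α1 = 0 ∨ α1 = α) → (α2 = 0 ∨ α2 = α) → ∀ β1 ∈ insert t B,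
      ∀ β2 ∈ insert t B, ¬ Good (insert g (insert e R)) g (adv o uL α1) β1 t2 →
      ¬ Good (insert g (insert e R)) g (adv o uL α2) β2 t2 → α1 = α2 ∧ β1 = β2 := by
    intro α1 α2 hα1 hα2 β1 hβ1 β2 hβ2 hbad1 hbad2
    refine c.unique (τ := τ) hRR hgR2 hDm' hG1 hGM hα1 hβ1 ?_ hα2 hβ2 ?_
    · rw [← hgdef, ← hτ]; exact hbad1
    · rw [← hgdef, ← hτ]; exact hbad2
  by_cases h1 : ∃ β ∈ insert t B, ¬ Good (insert g (insert e R)) g (adv o uL 0) β t2
  · obtain ⟨β0, hβ0, hbad⟩ := h1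
    refine leaf (α1 := 0) (α2 := α) (Or.inl rfl) (Or.inr rfl) hα.symm β0 hβ0 ?_ ?_
    · intro β hβ
      by_contra hb
      exact hα (uniq (Or.inl rfl) (Or.inr rfl) β0 hβ0 β hβ hbad hb).1.symm
    · intro β hβ hne
      by_contra hb
      exact hne (uniq (Or.inl rfl) (Or.inl rfl) β0 hβ0 β hβ hbad hb).2.symm
  · have h1' : ∀ β ∈ insert t B, Good (insert g (insert e R)) g (adv o uL 0) β t2 := by
      intro β hβ
      by_contra hb
      exact h1 ⟨β, hβ, hb⟩
    by_cases h2 : ∃ β ∈ insert t B, ¬ Good (insert g (insert e R)) g (adv o uL α) β t2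
    · obtain ⟨β0, hβ0, hbad⟩ := h2
      refine leaf (α1 := α) (α2 := 0) (Or.inr rfl) (Or.inl rfl) hα β0 hβ0 h1' ?_
      intro β hβ hne
      by_contra hb
      exact hne (uniq (Or.inr rfl) (Or.inr rfl) β0 hβ0 β hβ hbad hb).2.symm
    · have h2' : ∀ β ∈ insert t B, Good (insert g (insert e R)) g (adv o uL α) β t2 := by
        intro β hβ
        by_contra hb
        exact h2 ⟨β, hβ, hb⟩
      exact leaf (α1 := α) (α2 := 0) (Or.inr rfl) (Or.inl rfl) hα t
        (Finset.mem_insert_self _ _) h1' (fun β hβ _ => h2' β hβ)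

end Pool.Agent.K4L
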