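import Pool.Agent.K4L.K3UThm
import Pool.Agent.K4L.StarWin

/-!
# K3U in general position
-/

namespace Pool.Agent.K4L

section
variable {g : Pt ≃ Pt} {R B : Finset Pt}

theorem NoThreat.map (hg : ∀ x y z, Col (g x) (g y) (g z) ↔ Col x y z) (h : NoThreat R B) :
    NoThreat (R.image g) (B.image g) := by
  intro u hu v hv w hw h1 h2 h3 hc
  obtain ⟨u', hu', rfl⟩ := Finset.mem_image.mp hu
  obtain ⟨v', hv', rfl⟩ := Finset.mem_image.mp hv
  obtain ⟨w', hw', rfl⟩ := Finset.mem_image.mp hw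
  obtain ⟨z, hz, hcz⟩ := h u' hu' v' hv' w' hw' (fun h => h1 (by rw [h])) (fun h => h2 (by rw [h]))
    (fun h => h3 (by rw [h])) ((hg _ _ _).mp hc)
  exact ⟨g z, Finset.mem_image_of_mem g hz, (hg _ _ _).mpr hcz⟩

theorem ALine.map (hg : ∀ x y z, Col (g x) (g y) (g z) ↔ Col x y z) {u v : Pt}
    (h : ALine R B u v) : ALine (R.image g) (B.image g) (g u) (g v) := by
  refine ⟨Finset.mem_image_of_mem g h.1, Finset.mem_image_of_mem g h.2.1,
    g.injective.ne h.2.2.1, ?_⟩
  intro z hz hc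
  obtain ⟨z', hz', rfl⟩ := Finset.mem_image.mp hz
  exact h.2.2.2 z' hz' ((hg _ _ _).mp hc)

theorem Uncov.map (hg : ∀ x y z, Col (g x) (g y) (g z) ↔ Col x y z) {u v : Pt}
    (h : Uncov R B u v) : Uncov (R.image g) (B.image g) (g u) (g v) := by
  intro z hz hzR hzB p hp q hq hpq hc
  obtain ⟨z', rfl⟩ := g.surjective z
  obtain ⟨p', hp', rfl⟩ := Finset.mem_image.mp hp
  obtain ⟨q', hq', rfl⟩ := Finset.mem_image.mp hq
  obtain ⟨w, hw, hcw⟩ := h z' ((hg _ _ _).mp hz) (fun h => hzR (Finset.mem_image_of_mem g h))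
    (fun h => hzB (Finset.mem_image_of_mem g h)) p' hp' q' hq' (fun h => hpq (by rw [h]))
    ((hg _ _ _).mp hc)
  exact ⟨g w, Finset.mem_image_of_mem g hw, (hg _ _ _).mpr hcw⟩

end

/-- node K3U (geometric form) -/
def NodeK3U : Prop := ∀ (R B : Finset Pt) (a b c : Pt), NoThreat R B → (∀ β ∈ B, β ∉ R) →
  ALine R B c a → Uncov R B c a → ALine R B c b → Uncov R B c b → ¬ Col c a b →
  IsCoprime (a.1 - b.1) (a.2 - b.2) →
  (∀ β ∈ B, ∀ β' ∈ B, β ≠ β' → Par c a β β' → Col β β' b) →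
  (∀ β ∈ B, ∀ β' ∈ B, β ≠ β' → ¬ Par c b β β') → Win R B

/-- (F), for all positions -/
def AllF : Prop := ∀ (R B : Finset Pt) (α b1 b2 : ℤ), K3C R B α b1 b2 →
  IsCoprime (α - b1) b2 → (∀ β ∈ B, ∀ β' ∈ B, β ≠ β' → DX b1 b2 β ≠ DX b1 b2 β') →
  ∀ CB : ℤ, HypF R B α b1 b2 CB

/-- **K3U**: two alive uncovered red lines `c a`, `c b`, `a - b` primitive, blue pairs parallel to
`c a` pass through `b` or do not meet `c b` in a lattice point (second alternative: `a - c`
primitive, divisibility of heights), no blue pair is parallel to `c b`. Red to move wins. -/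
theorem k3u_geo_w (HF : AllF) {R B : Finset Pt} {a b c : Pt} (hN : NoThreat R B)
    (hB : ∀ β ∈ B, β ∉ R) (hL : ALine R B c a) (hLU : Uncov R B c a) (hM : ALine R B c b)
    (hMU : Uncov R B c b) (hcol : ¬ Col c a b) (hprim : IsCoprime (a.1 - b.1) (a.2 - b.2))
    (hpa : ∀ β ∈ B, ∀ β' ∈ B, β ≠ β' → Par c a β β' → Col β β' b ∨
      (IsCoprime (a.1 - c.1) (a.2 - c.2) ∧
        ¬ ((a.1 - c.1) * (b.2 - c.2) - (a.2 - c.2) * (b.1 - c.1)) ∣
          ((a.1 - c.1) * (β.2 - c.2) - (a.2 - c.2) * (β.1 - c.1))))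
    (hpb : ∀ β ∈ B, ∀ β' ∈ B, β ≠ β' → ¬ Par c b β β') : Win R B := by
  classical
  have hca : a ≠ c := hL.ne.symm
  obtain ⟨u, ⟨x, y, hxy⟩, α, hα, hu1, hu2⟩ := exists_prim_pos (v := (a.1 - c.1, a.2 - c.2)) (by
    intro h
    apply hca
    have h1 := congrArg Prod.fst h
    have h2 := congrArg Prod.snd h
    simp only [Prod.fst_zero, Prod.snd_zero] at h1 h2
    exact Prod.ext (by linarith) (by linarith))
  simp only at hu1 hu2
  have hdet : u.1 * x - (-y) * u.2 = 1 := by linear_combination hxy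
  obtain ⟨f, hf⟩ : ∃ f : Pt ≃ Pt, f = (linE u.1 (-y) u.2 x 1 (by norm_num) hdet).trans
    (transE c) := ⟨_, rfl⟩
  have hfa : ∀ z : Pt, f z = (u.1 * z.1 + -y * z.2 + c.1, u.2 * z.1 + x * z.2 + c.2) := by
    intro z
    rw [hf]; rfl
  have hfc : ∀ z w t : Pt, Col (f z) (f w) (f t) ↔ Col z w t := by
    intro z w t
    rw [hf]
    simp only [Equiv.trans_apply]
    rw [col_transE, col_linE]
  have hfp : ∀ z w s t : Pt, Par (f z) (f w) (f s) (f t) ↔ Par z w s t := by
    intro z w s t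
    unfold Par
    rw [hfa, hfa, hfa, hfa]
    simp only
    constructor
    · intro h
      linear_combination h - ((w.1 - z.1) * (t.2 - s.2) - (w.2 - z.2) * (t.1 - s.1)) * hdet
    · intro h
      linear_combination h + ((w.1 - z.1) * (t.2 - s.2) - (w.2 - z.2) * (t.1 - s.1)) * hdet
  have hgc : ∀ z w t : Pt, Col (f.symm z) (f.symm w) (f.symm t) ↔ Col z w t := by
    intro z w t
    rw [← hfc]; simp
  have fc : f (0, 0) = c := by rw [hfa]; simp
  have fa : f (α, 0) = a := by
    rw [hfa]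
    refine Prod.ext ?_ ?_
    · simp only; linarith
    · simp only; linarith
  obtain ⟨b1, b2, hb⟩ : ∃ b1 b2, f.symm b = (b1, b2) := ⟨_, _, rfl⟩
  have fb : f (b1, b2) = b := by rw [← hb]; simp
  have gc : f.symm c = (0, 0) := by rw [← fc]; simp
  have ga : f.symm a = (α, 0) := by rw [← fa]; simp
  have hα0 : α ≠ 0 := by omega
  have hb2 : b2 ≠ 0 := by
    intro h
    apply hcol
    rw [← fc, ← fa, ← fb, hfc, h]
    unfold Col; simp
  have hmem : ∀ z, z ∈ B.image f.symm → f z ∈ B := by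
    intro z hz
    obtain ⟨w, hw, rfl⟩ := Finset.mem_image.mp hz
    rwa [Equiv.apply_symm_apply]
  have hnpb : ∀ β ∈ B.image f.symm, ∀ β' ∈ B.image f.symm, β ≠ β' →
      DX b1 b2 β ≠ DX b1 b2 β' := by
    intro β hβ β' hβ' hne h
    refine hpb _ (hmem β hβ) _ (hmem β' hβ') (f.injective.ne hne) ?_
    rw [← fc, ← fb, hfp]
    unfold DX at h
    unfold Par
    simp only
    linear_combination h
  have K : K3C (R.image f.symm) (B.image f.symm) α b1 b2 :=
    { hN := hN.map hgc
      hB := by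
        intro β hβ hR
        obtain ⟨z, hz, h⟩ := Finset.mem_image.mp hR
        apply hB _ (hmem β hβ)
        rw [← h, Equiv.apply_symm_apply]
        exact hz
      hα := hα0
      hb2 := hb2
      hL := by have := hL.map hgc; rwa [gc, ga] at this
      hLU := by have := hLU.map hgc; rwa [gc, ga] at this
      hM := by have := hM.map hgc; rwa [gc, hb] at this
      hMU := by have := hMU.map hgc; rwa [gc, hb] at this
      hpa := by
        intro β hβ β' hβ' hne h
        rcases hpa _ (hmem β hβ) _ (hmem β' hβ') (f.injective.ne hne) (by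
          rw [← fc, ← fa, hfp]
          unfold Par
          simp only
          rw [h]; ring) with h1 | ⟨hco, h1⟩
        · left
          rw [← fb, hfc] at h1
          unfold Col at h1
          simp only at h1
          have h2 : (β'.1 - β.1) * (b2 - β.2) = 0 := by
            rw [← h] at h1
            linear_combination h1
          rcases mul_eq_zero.mp h2 with h3 | h3
          · exact absurd (Prod.ext (by linarith) h) hne
          · linarith
        · right
          intro hd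
          have hα1 : α = 1 := by
            have h2 : α ∣ 1 := by
              obtain ⟨s, t, hst⟩ := hco
              rw [hu1, hu2] at hst
              exact ⟨s * u.1 + t * u.2, by linear_combination -hst⟩
            rcases Int.isUnit_iff.mp (isUnit_of_dvd_one h2) with h3 | h3
            · exact h3
            · omega
          apply h1
          have e1 : (a.1 - c.1) * (b.2 - c.2) - (a.2 - c.2) * (b.1 - c.1) = b2 := by
            rw [hu1, hu2, ← fb, hfa, hα1]
            simp only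
            linear_combination b2 * hdet
          have e2 : (a.1 - c.1) * ((f β).2 - c.2) - (a.2 - c.2) * ((f β).1 - c.1) = β.2 := by
            rw [hu1, hu2, hfa, hα1]
            simp only
            linear_combination β.2 * hdet
          rw [e1, e2]
          rwa [hα1, one_mul] at hd
      hpb := by
        intro β hβ β' hβ' hne h
        exact absurd h (hnpb β hβ β' hβ' hne) }
  have hpr : IsCoprime (α - b1) b2 := by
    obtain ⟨s, t, hst⟩ := hprim
    have e1 : a.1 - b.1 = u.1 * (α - b1) + y * b2 := by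
      rw [← fa, ← fb, hfa, hfa]; simp only; ring
    have e2 : a.2 - b.2 = u.2 * (α - b1) - x * b2 := by
      rw [← fa, ← fb, hfa, hfa]; simp only; ring
    refine ⟨s * u.1 + t * u.2, s * y - t * x, ?_⟩
    rw [e1, e2] at hst
    linear_combination hst
  have hw := k3u_of_F K hpr hnpb (HF _ _ _ _ _ K hpr hnpb)
  have := hw.map f hfc
  have hid : ∀ A : Finset Pt, (A.image f.symm).image f = A := by
    intro A
    rw [Finset.image_image]
    simp
  rwa [hid, hid] at this

theorem k3u_geo_of (HF : AllF) {R B : Finset Pt} {a b c : Pt} (hN : NoThreat R B)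
    (hB : ∀ β ∈ B, β ∉ R) (hL : ALine R B c a) (hLU : Uncov R B c a) (hM : ALine R B c b)
    (hMU : Uncov R B c b) (hcol : ¬ Col c a b) (hprim : IsCoprime (a.1 - b.1) (a.2 - b.2))
    (hpa : ∀ β ∈ B, ∀ β' ∈ B, β ≠ β' → Par c a β β' → Col β β' b)
    (hpb : ∀ β ∈ B, ∀ β' ∈ B, β ≠ β' → ¬ Par c b β β') : Win R B :=
  k3u_geo_w HF hN hB hL hLU hM hMU hcol hprim
    (fun β hβ β' hβ' hne hP => Or.inl (hpa β hβ β' hβ' hne hP)) hpb

/-- node K3U (geometric form, weak parallel condition) -/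
def NodeK3Uw : Prop := ∀ (R B : Finset Pt) (a b c : Pt), NoThreat R B → (∀ β ∈ B, β ∉ R) →
  ALine R B c a → Uncov R B c a → ALine R B c b → Uncov R B c b → ¬ Col c a b →
  IsCoprime (a.1 - b.1) (a.2 - b.2) →
  (∀ β ∈ B, ∀ β' ∈ B, β ≠ β' → Par c a β β' → Col β β' b ∨
      (IsCoprime (a.1 - c.1) (a.2 - c.2) ∧
        ¬ ((a.1 - c.1) * (b.2 - c.2) - (a.2 - c.2) * (b.1 - c.1)) ∣
          ((a.1 - c.1) * (β.2 - c.2) - (a.2 - c.2) * (β.1 - c.1)))) →
  (∀ β ∈ B, ∀ β' ∈ B, β ≠ β' → ¬ Par c b β β') → Win R B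

theorem nodeK3Uw_of (HF : AllF) : NodeK3Uw := by
  intro R B a b c h1 h2 h3 h4 h5 h6 h7 h8 h9 h10
  exact k3u_geo_w HF h1 h2 h3 h4 h5 h6 h7 h8 h9 h10

theorem NodeK3Uw.toK3U (h : NodeK3Uw) : NodeK3U := by
  intro R B a b c h1 h2 h3 h4 h5 h6 h7 h8 h9 h10
  exact h R B a b c h1 h2 h3 h4 h5 h6 h7 h8
    (fun β hβ β' hβ' hne hP => Or.inl (h9 β hβ β' hβ' hne hP)) h10

theorem nodeK3U_of (HF : AllF) : NodeK3U := by
  intro R B a b c h1 h2 h3 h4 h5 h6 h7 h8 h9 h10
  exact k3u_geo_of HF h1 h2 h3 h4 h5 h6 h7 h8 h9 h10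

end Pool.Agent.K4L
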