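import Pool.Agent.K4L.IIGC
import Pool.Agent.K4L.K3UGeo

/-!
# CASE II, `c` off `p q`, the answer `r` on a side: K3U
-/

namespace Pool.Agent.K4L

section
variable {p q r : Pt} {X Y : ℤ}

theorem ig_nt {R : Finset Pt} (hcol : ¬ Col p q r) : NoThreat R {p, q, r} := by
  intro u hu v hv w hw huv huw hvw hc
  exfalso
  simp only [Finset.mem_insert, Finset.mem_singleton] at hu hv hw
  apply hcol
  rcases hu with rfl | rfl | rfl <;> rcases hv with rfl | rfl | rfl <;>
    rcases hw with rfl | rfl | rfl <;>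
    first
    | exact absurd rfl huv
    | exact absurd rfl huw
    | exact absurd rfl hvw
    | exact hc
    | exact hc.swap12
    | exact hc.swap23
    | exact hc.rot
    | exact hc.rot.rot
    | exact hc.rot.swap12

theorem Par.swr {u v p q : Pt} (h : Par u v p q) : Par u v q p := by
  unfold Par at *
  linear_combination -h

/-- pairs of three stones -/
theorem pairs3 {P : Pt → Pt → Prop} (hs : ∀ u v, P u v → P v u) (h1 : P p q) (h2 : P p r)
    (h3 : P q r) : ∀ u ∈ ({p, q, r} : Finset Pt), ∀ v ∈ ({p, q, r} : Finset Pt), u ≠ v →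
      P u v := by
  intro u hu v hv huv
  simp only [Finset.mem_insert, Finset.mem_singleton] at hu hv
  rcases hu with rfl | rfl | rfl <;> rcases hv with rfl | rfl | rfl
  · exact absurd rfl huv
  · exact h1
  · exact h2
  · exact hs _ _ h1
  · exact absurd rfl huv
  · exact h3
  · exact hs _ _ h2
  · exact hs _ _ h3
  · exact absurd rfl huv

theorem GC.abc (g : GC p q X Y) : ¬ Col (0, 0) (0, 1) (X, Y) := by
  intro h
  unfold Col at h
  simp only at h
  apply g.hX
  linarith

/-- `r` on `a b` -/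
theorem ig_ab (HU : NodeK3Uw) (g : GC p q X Y)
    (hm : ∀ m : ℤ, Col p q (0, m) → m = 0 ∨ m = 1) (hrp : r ≠ p) (hrq : r ≠ q)
    (hr : Col (0, 0) (0, 1) r) (ha : r ≠ (0, 0)) (hb : r ≠ (0, 1)) :
    Win {(0, 0), (0, 1), (X, Y)} {p, q, r} := by
  have hX := g.hX
  obtain ⟨ρ, rfl⟩ : ∃ ρ, r = (0, ρ) := ⟨_, ab_pt hr⟩
  have hρ0 : ρ ≠ 0 := by rintro rfl; exact ha rfl
  have hρ1 : ρ ≠ 1 := by rintro rfl; exact hb rfl
  have nb : ∀ β, GP β X Y → β ≠ (0, ρ) := by
    intro β gβ h
    apply gβ.h1
    rw [h]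
  have hncol : ¬ Col p q (0, ρ) := by
    intro h
    rcases hm ρ h with h | h
    · exact hρ0 h
    · exact hρ1 h
  have Bm : ∀ z ∈ ({p, q, (0, ρ)} : Finset Pt), z = p ∨ z = q ∨ z = (0, ρ) := by
    intro z hz; simpa using hz
  have par0 : ∀ β, GP β X Y → ¬ Par (X, Y) (0, 0) β (0, ρ) ∧ ¬ Par (X, Y) (0, 1) β (0, ρ) := by
    intro β gβ
    constructor
    · intro h
      unfold Par at h
      simp only at h
      exact gβ.pA (β.2 - ρ) (by linear_combination h)
    · intro h
      unfold Par at h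
      simp only at h
      exact gβ.pB (β.2 - ρ) (by linear_combination h)
  have np1 := pairs3 (p := p) (q := q) (r := (0, ρ)) (P := fun u v => ¬ Par (X, Y) (0, 0) u v)
    (fun u v h h' => h h'.swr) (fun h => g.qpa h.sw) (par0 p g.hp).1 (par0 q g.hq).1
  have np2 := pairs3 (p := p) (q := q) (r := (0, ρ)) (P := fun u v => ¬ Par (X, Y) (0, 1) u v)
    (fun u v h h' => h h'.swr) (fun h => g.qpb h.sw) (par0 p g.hp).2 (par0 q g.hq).2
  have nra : ¬ Col (0, 0) (X, Y) (0, ρ) := by
    intro h
    unfold Col at h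
    simp only at h
    have : X * ρ = 0 := by linarith
    rcases mul_eq_zero.mp this with h | h
    · exact hX h
    · exact hρ0 h
  have nrb : ¬ Col (0, 1) (X, Y) (0, ρ) := by
    intro h
    unfold Col at h
    simp only at h
    have : X * (ρ - 1) = 0 := by linarith
    rcases mul_eq_zero.mp this with h | h
    · exact hX h
    · exact hρ1 (by linarith)
  refine HU _ _ (0, 0) (0, 1) (X, Y) (ig_nt hncol) ?_ ?_ ?_ ?_ ?_ ?_ ?_ ?_ ?_
  · intro z hz hzR
    simp only [Finset.mem_insert, Finset.mem_singleton] at hzR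
    have : Col (0, 0) (0, 1) z ∨ z = (X, Y) := by
      rcases hzR with rfl | rfl | rfl
      · exact Or.inl (Col.refl_left _ _)
      · exact Or.inl (Col.refl_right _ _)
      · exact Or.inr rfl
    rcases Bm z hz with rfl | rfl | rfl
    · rcases this with h | h
      · exact g.hp.ab h
      · exact g.hp.nca g.ca (by rw [h]; exact Col.refl_right _ _)
    · rcases this with h | h
      · exact g.hq.ab h
      · exact g.hq.nca g.ca (by rw [h]; exact Col.refl_right _ _)
    · rcases hzR with h | h | h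
      · exact ha h
      · exact hb h
      · exact hX (congrArg Prod.fst h).symm
  · refine ⟨by simp, by simp, fun h => hX (congrArg Prod.fst h), ?_⟩
    intro z hz
    rcases Bm z hz with rfl | rfl | rfl
    · exact fun h => g.hp.nca g.ca h.swap12
    · exact fun h => g.hq.nca g.ca h.swap12
    · exact fun h => nra h.swap12
  · refine ig_unc Bm ?_ ?_ ?_
    · intro z hz hzR hc
      obtain ⟨k, rfl⟩ := ca_pt g.ca hz.swap12
      have := g.qa k hc
      rw [this, zero_mul, zero_mul] at hzR
      exact absurd (by simp) hzR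
    · intro z hz _ hc
      exact ⟨(0, 0), by simp, g.hp.x1 (nb p g.hp) g.ca hz.swap12 hr hc (Col.refl_right _ _)⟩
    · intro z hz _ hc
      exact ⟨(0, 0), by simp, g.hq.x1 (nb q g.hq) g.ca hz.swap12 hr hc (Col.refl_right _ _)⟩
  · refine ⟨by simp, by simp, fun h => hX (congrArg Prod.fst h), ?_⟩
    intro z hz
    rcases Bm z hz with rfl | rfl | rfl
    · exact fun h => g.hp.ncb g.cb h.swap12
    · exact fun h => g.hq.ncb g.cb h.swap12
    · exact fun h => nrb h.swap12
  · refine ig_unc Bm ?_ ?_ ?_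
    · intro z hz hzR hc
      obtain ⟨k, rfl⟩ := cb_pt g.cb hz.swap12
      have := g.qb k hc
      rw [this, zero_mul, zero_mul, add_zero] at hzR
      exact absurd (by simp) hzR
    · intro z hz _ hc
      exact ⟨(0, 1), by simp, g.hp.x2 (nb p g.hp) g.cb hz.swap12 hr hc (Col.refl_right _ _)⟩
    · intro z hz _ hc
      exact ⟨(0, 1), by simp, g.hq.x2 (nb q g.hq) g.cb hz.swap12 hr hc (Col.refl_right _ _)⟩
  · exact fun h => g.abc h.rot
  · simp only
    exact ⟨0, -1, by norm_num⟩
  · intro β hβ β' hβ' hne hP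
    exact absurd hP (np1 β hβ β' hβ' hne)
  · exact np2

/-- `r` on `a c` -/
theorem ig_ac (HU : NodeK3Uw) (g : GC p q X Y)
    (hm : ∀ m : ℤ, Col p q (0, m) → m = 0 ∨ m = 1) (hrp : r ≠ p) (hrq : r ≠ q)
    (hr : Col (0, 0) (X, Y) r) (ha : r ≠ (0, 0)) (hcr : r ≠ (X, Y)) :
    Win {(0, 0), (0, 1), (X, Y)} {p, q, r} := by
  have hX := g.hX
  obtain ⟨k, hk⟩ := ca_pt g.ca hr
  have hk0 : k ≠ 0 := by rintro rfl; rw [zero_mul, zero_mul] at hk; exact ha hk
  have hk1 : k ≠ 1 := by rintro rfl; rw [one_mul, one_mul] at hk; exact hcr hk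
  have hncol : ¬ Col p q r := by
    intro h
    rw [hk] at h
    exact hk0 (g.qa k h)
  have Bm : ∀ z ∈ ({p, q, r} : Finset Pt), z = p ∨ z = q ∨ z = r := by
    intro z hz; simpa using hz
  have nrm : ¬ Col (0, 0) (0, 1) r := by
    intro h
    have h1 := congrArg Prod.fst (ab_pt h)
    rw [hk] at h1
    simp only at h1
    exact mul_ne_zero hk0 hX h1
  have nrb : ¬ Col (0, 1) (X, Y) r := by
    intro h
    rw [hk] at h
    unfold Col at h
    simp only at h
    have : X * (k - 1) = 0 := by linear_combination h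
    rcases mul_eq_zero.mp this with h | h
    · exact hX h
    · exact hk1 (by linarith)
  have pA : ∀ β, GP β X Y → ¬ Par (0, 1) (0, 0) β r := by
    intro β gβ h
    unfold Par at h
    simp only at h
    rw [hk] at h
    simp only at h
    exact gβ.px k hk0 (by linarith)
  have np2 := pairs3 (p := p) (q := q) (r := r) (P := fun u v => ¬ Par (0, 1) (X, Y) u v)
    (fun u v h h' => h h'.swr) g.qpb (by rw [hk]; exact g.hp.pb k) (by rw [hk]; exact g.hq.pb k)
  have ndv : ∀ β, GP β X Y → |β.1| < |X| → ¬ X ∣ β.1 := by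
    intro β gβ hlt hd
    have := Int.le_of_dvd (abs_pos.mpr gβ.h1) ((abs_dvd_abs _ _).mpr hd)
    linarith
  refine HU _ _ (0, 0) (X, Y) (0, 1) (ig_nt hncol) ?_ ?_ ?_ ?_ ?_ ?_ ?_ ?_ ?_
  · intro z hz hzR
    simp only [Finset.mem_insert, Finset.mem_singleton] at hzR
    have : Col (0, 0) (0, 1) z ∨ z = (X, Y) := by
      rcases hzR with rfl | rfl | rfl
      · exact Or.inl (Col.refl_left _ _)
      · exact Or.inl (Col.refl_right _ _)
      · exact Or.inr rfl
    rcases Bm z hz with rfl | rfl | rfl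
    · rcases this with h | h
      · exact g.hp.ab h
      · exact g.hp.nca g.ca (by rw [h]; exact Col.refl_right _ _)
    · rcases this with h | h
      · exact g.hq.ab h
      · exact g.hq.nca g.ca (by rw [h]; exact Col.refl_right _ _)
    · rcases this with h | h
      · exact nrm h
      · exact hcr h
  · refine ⟨by simp, by simp, by simp, ?_⟩
    intro z hz
    rcases Bm z hz with rfl | rfl | rfl
    · exact fun h => g.hp.ab h.swap12
    · exact fun h => g.hq.ab h.swap12
    · exact fun h => nrm h.swap12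
  · refine ig_unc Bm ?_ ?_ ?_
    · intro z hz hzR hc
      rw [ab_pt hz.swap12] at hc hzR
      rcases hm _ hc with h | h
      · rw [h] at hzR; exact absurd (by simp) hzR
      · rw [h] at hzR; exact absurd (by simp) hzR
    · intro z hz _ hc
      exact ⟨(0, 0), by simp, g.hp.x1 hrp.symm g.ca hr hz.swap12 (Col.refl_right _ _) hc⟩
    · intro z hz _ hc
      exact ⟨(0, 0), by simp, g.hq.x1 hrq.symm g.ca hr hz.swap12 (Col.refl_right _ _) hc⟩
  · refine ⟨by simp, by simp, fun h => hX (congrArg Prod.fst h).symm, ?_⟩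
    intro z hz
    rcases Bm z hz with rfl | rfl | rfl
    · exact g.hp.ncb g.cb
    · exact g.hq.ncb g.cb
    · exact nrb
  · refine ig_unc Bm ?_ ?_ ?_
    · intro z hz hzR hc
      obtain ⟨l, rfl⟩ := cb_pt g.cb hz
      have := g.qb l hc
      rw [this, zero_mul, zero_mul, add_zero] at hzR
      exact absurd (by simp) hzR
    · intro z hz _ hc
      exact ⟨(X, Y), by simp, g.hp.x3 hrp.symm g.ca g.cb hr hz (Col.refl_right _ _) hc⟩
    · intro z hz _ hc
      exact ⟨(X, Y), by simp, g.hq.x3 hrq.symm g.ca g.cb hr hz (Col.refl_right _ _) hc⟩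
  · exact fun h => g.abc h.swap12
  · simp only
    have := (IsCoprime.neg_left g.ca).neg_right
    rwa [zero_sub, zero_sub]
  · refine pairs3 (P := fun u v => Par (0, 1) (0, 0) u v → Col u v (X, Y) ∨
      (IsCoprime (((0, 0) : Pt).1 - ((0, 1) : Pt).1) (((0, 0) : Pt).2 - ((0, 1) : Pt).2) ∧
        ¬ ((((0, 0) : Pt).1 - ((0, 1) : Pt).1) * (((X, Y) : Pt).2 - ((0, 1) : Pt).2) -
            (((0, 0) : Pt).2 - ((0, 1) : Pt).2) * (((X, Y) : Pt).1 - ((0, 1) : Pt).1)) ∣
          ((((0, 0) : Pt).1 - ((0, 1) : Pt).1) * (u.2 - ((0, 1) : Pt).2) -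
            (((0, 0) : Pt).2 - ((0, 1) : Pt).2) * (u.1 - ((0, 1) : Pt).1)))) ?_ ?_ ?_ ?_
    · intro u v h hP
      have hx : u.1 = v.1 := by
        unfold Par at hP
        simp only at hP
        linarith
      rcases h hP.swr with h | ⟨h1, h2⟩
      · exact Or.inl h.swap12
      · refine Or.inr ⟨h1, ?_⟩
        simp only at h2 ⊢
        rw [← hx]
        simpa using h2
    · intro _
      right
      simp only
      refine ⟨⟨0, -1, by norm_num⟩, ?_⟩
      have := ndv p g.hp (by linarith [g.big.1, abs_nonneg p.1])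
      simpa using this
    · intro h
      exact absurd h (pA p g.hp)
    · intro h
      exact absurd h (pA q g.hq)
  · exact np2

/-- `r` on `b c` -/
theorem ig_bc (HU : NodeK3Uw) (g : GC p q X Y)
    (hm : ∀ m : ℤ, Col p q (0, m) → m = 0 ∨ m = 1) (hrp : r ≠ p) (hrq : r ≠ q)
    (hr : Col (0, 1) (X, Y) r) (hb : r ≠ (0, 1)) (hcr : r ≠ (X, Y)) :
    Win {(0, 0), (0, 1), (X, Y)} {p, q, r} := by
  have hX := g.hX
  obtain ⟨k, hk⟩ := cb_pt g.cb hr
  have hk0 : k ≠ 0 := by rintro rfl; rw [zero_mul, zero_mul, add_zero] at hk; exact hb hk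
  have hk1 : k ≠ 1 := by
    rintro rfl
    rw [one_mul, one_mul] at hk
    exact hcr (hk.trans (Prod.ext rfl (by ring)))
  have hncol : ¬ Col p q r := by
    intro h
    rw [hk] at h
    exact hk0 (g.qb k h)
  have Bm : ∀ z ∈ ({p, q, r} : Finset Pt), z = p ∨ z = q ∨ z = r := by
    intro z hz; simpa using hz
  have nrm : ¬ Col (0, 0) (0, 1) r := by
    intro h
    have h1 := congrArg Prod.fst (ab_pt h)
    rw [hk] at h1
    simp only at h1
    exact mul_ne_zero hk0 hX h1
  have nra : ¬ Col (0, 0) (X, Y) r := by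
    intro h
    rw [hk] at h
    unfold Col at h
    simp only at h
    have : X * (k - 1) = 0 := by linear_combination -h
    rcases mul_eq_zero.mp this with h | h
    · exact hX h
    · exact hk1 (by linarith)
  have pA : ∀ β, GP β X Y → ¬ Par (0, 0) (0, 1) β r := by
    intro β gβ h
    unfold Par at h
    simp only at h
    rw [hk] at h
    simp only at h
    exact gβ.px k hk0 (by linarith)
  have np2 := pairs3 (p := p) (q := q) (r := r) (P := fun u v => ¬ Par (0, 0) (X, Y) u v)
    (fun u v h h' => h h'.swr) g.qpa (by rw [hk]; exact g.hp.pa k) (by rw [hk]; exact g.hq.pa k)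
  have ndv : ∀ β, GP β X Y → |β.1| < |X| → ¬ X ∣ β.1 := by
    intro β gβ hlt hd
    have := Int.le_of_dvd (abs_pos.mpr gβ.h1) ((abs_dvd_abs _ _).mpr hd)
    linarith
  refine HU _ _ (0, 1) (X, Y) (0, 0) (ig_nt hncol) ?_ ?_ ?_ ?_ ?_ ?_ ?_ ?_ ?_
  · intro z hz hzR
    simp only [Finset.mem_insert, Finset.mem_singleton] at hzR
    have : Col (0, 0) (0, 1) z ∨ z = (X, Y) := by
      rcases hzR with rfl | rfl | rfl
      · exact Or.inl (Col.refl_left _ _)
      · exact Or.inl (Col.refl_right _ _)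
      · exact Or.inr rfl
    rcases Bm z hz with rfl | rfl | rfl
    · rcases this with h | h
      · exact g.hp.ab h
      · exact g.hp.nca g.ca (by rw [h]; exact Col.refl_right _ _)
    · rcases this with h | h
      · exact g.hq.ab h
      · exact g.hq.nca g.ca (by rw [h]; exact Col.refl_right _ _)
    · rcases this with h | h
      · exact nrm h
      · exact hcr h
  · refine ⟨by simp, by simp, by simp, ?_⟩
    intro z hz
    rcases Bm z hz with rfl | rfl | rfl
    · exact g.hp.ab
    · exact g.hq.ab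
    · exact nrm
  · refine ig_unc Bm ?_ ?_ ?_
    · intro z hz hzR hc
      rw [ab_pt hz] at hc hzR
      rcases hm _ hc with h | h
      · rw [h] at hzR; exact absurd (by simp) hzR
      · rw [h] at hzR; exact absurd (by simp) hzR
    · intro z hz _ hc
      exact ⟨(0, 1), by simp, g.hp.x2 hrp.symm g.cb hr hz (Col.refl_right _ _) hc⟩
    · intro z hz _ hc
      exact ⟨(0, 1), by simp, g.hq.x2 hrq.symm g.cb hr hz (Col.refl_right _ _) hc⟩
  · refine ⟨by simp, by simp, fun h => hX (congrArg Prod.fst h).symm, ?_⟩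
    intro z hz
    rcases Bm z hz with rfl | rfl | rfl
    · exact g.hp.nca g.ca
    · exact g.hq.nca g.ca
    · exact nra
  · refine ig_unc Bm ?_ ?_ ?_
    · intro z hz hzR hc
      obtain ⟨l, rfl⟩ := ca_pt g.ca hz
      have := g.qa l hc
      rw [this, zero_mul, zero_mul] at hzR
      exact absurd (by simp) hzR
    · intro z hz _ hc
      exact ⟨(X, Y), by simp, g.hp.x3 hrp.symm g.ca g.cb hz hr hc (Col.refl_right _ _)⟩
    · intro z hz _ hc
      exact ⟨(X, Y), by simp, g.hq.x3 hrq.symm g.ca g.cb hz hr hc (Col.refl_right _ _)⟩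
  · exact g.abc
  · simp only
    have := (IsCoprime.neg_left g.cb).neg_right
    rw [zero_sub]
    rwa [neg_sub] at this
  · refine pairs3 (P := fun u v => Par (0, 0) (0, 1) u v → Col u v (X, Y) ∨
      (IsCoprime (((0, 1) : Pt).1 - ((0, 0) : Pt).1) (((0, 1) : Pt).2 - ((0, 0) : Pt).2) ∧
        ¬ ((((0, 1) : Pt).1 - ((0, 0) : Pt).1) * (((X, Y) : Pt).2 - ((0, 0) : Pt).2) -
            (((0, 1) : Pt).2 - ((0, 0) : Pt).2) * (((X, Y) : Pt).1 - ((0, 0) : Pt).1)) ∣
          ((((0, 1) : Pt).1 - ((0, 0) : Pt).1) * (u.2 - ((0, 0) : Pt).2) -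
            (((0, 1) : Pt).2 - ((0, 0) : Pt).2) * (u.1 - ((0, 0) : Pt).1)))) ?_ ?_ ?_ ?_
    · intro u v h hP
      have hx : u.1 = v.1 := by
        unfold Par at hP
        simp only at hP
        linarith
      rcases h hP.swr with h | ⟨h1, h2⟩
      · exact Or.inl h.swap12
      · refine Or.inr ⟨h1, ?_⟩
        simp only at h2 ⊢
        rw [← hx]
        simpa using h2
    · intro _
      right
      simp only
      refine ⟨⟨0, 1, by norm_num⟩, ?_⟩
      have := ndv p g.hp (by linarith [g.big.1, abs_nonneg p.1])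
      simpa using this
    · intro h
      exact absurd h (pA p g.hp)
    · intro h
      exact absurd h (pA q g.hq)
  · exact np2

end

end Pool.Agent.K4L
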