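import Pool.Agent.K4L.LB3

/-!
# A red triangle with two uncovered sides wins
-/

namespace Pool.Agent.K4L

theorem exists_dir (F : Finset Pt) (hF : ∀ w ∈ F, w ≠ 0) : ∃ v : Pt, v ≠ 0 ∧ ∀ w ∈ F, dt v w ≠ 0 := by
  obtain ⟨n, hn, h⟩ := exists_bound F
  refine ⟨(1, n + 1), ?_, ?_⟩
  · intro h0
    have := congrArg Prod.fst h0
    simp at this
  · intro w hw h0
    unfold dt at h0
    simp only at h0
    have hb := h w hw
    by_cases h1 : w.1 = 0
    · rw [h1, mul_zero, sub_zero, one_mul] at h0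
      exact hF w hw (Prod.ext h1 h0)
    · have a1 := Int.one_le_abs h1
      have a2 : |w.2| = (n + 1) * |w.1| := by
        have : w.2 = (n + 1) * w.1 := by linarith
        rw [this, abs_mul, abs_of_pos (by linarith)]
      have := hb.2
      nlinarith

/-- a red triangle with alive sides, two of them uncovered -/
theorem w0_tri {R B : Finset Pt} {o a b : Pt} (hN : NoThreat R B) (hB : ∀ β ∈ B, β ∉ R)
    (hL : ALine R B o a) (hLU : Uncov R B o a) (hM : ALine R B o b) (hMU : Uncov R B o b)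
    (hNl : ALine R B b a) (hLM : ¬ Col o a b) : Win R B := by
  classical
  obtain ⟨Y, hYM, hYR, hYB⟩ : ∃ Y, Col o b Y ∧ Y ∉ R ∧ Y ∉ B := by
    obtain ⟨Y, h1, h2⟩ := exists_free_on_line hM.ne (R ∪ B)
    rw [Finset.mem_union, not_or] at h2
    exact ⟨Y, h1, h2⟩
  obtain ⟨v, hv0, hv⟩ := exists_dir
    ((R.image (fun z => z - Y)) ∪ (((B ×ˢ B).filter (fun w => w.1 ≠ w.2)).image
      (fun w => w.2 - w.1)) ∪ {a - o, a - b}) (by
    intro w hw
    simp only [Finset.mem_union, Finset.mem_image, Finset.mem_filter, Finset.mem_product,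
      Finset.mem_insert, Finset.mem_singleton] at hw
    rcases hw with (⟨z, hz, rfl⟩ | ⟨z, hz, rfl⟩) | rfl | rfl
    · exact sub_ne_zero.mpr (fun h => hYR (h ▸ hz))
    · exact sub_ne_zero.mpr (Ne.symm hz.2)
    · exact sub_ne_zero.mpr hL.ne.symm
    · exact sub_ne_zero.mpr hNl.ne.symm)
  have hq : ∀ w : Pt, dt ((Y + v) - Y) w = dt v w := by
    intro w
    rw [add_sub_cancel_left]
  have toPar : ∀ {u1 u2 v1 v2 : Pt}, Par u1 u2 v1 v2 → dt (u2 - u1) (v2 - v1) = 0 := by
    intro u1 u2 v1 v2 hP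
    unfold Par at hP
    unfold dt
    simp only [Prod.fst_sub, Prod.snd_sub]
    linarith
  refine lb3 (p := Y) (q := Y + v) (Y := Y) hN hB hL hLU hM hNl ?_ hYM (Col.refl_left _ _) hYR ?_
    ?_ hLM ?_ ?_ ?_
  · intro h
    apply hv0
    have : v = (Y + v) - Y := by rw [add_sub_cancel_left]
    rw [this, ← h, sub_self]
  · intro z hz hc
    have h1 := col_dt.mp hc
    rw [hq] at h1
    refine hv (z - Y) ?_ h1
    simp only [Finset.mem_union, Finset.mem_image]
    exact Or.inl (Or.inl ⟨z, hz, rfl⟩)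
  · intro z hz hzR β hβ β' hβ' hne hc
    have hzB : z ∉ B := fun h => hM.2.2.2 z h hz
    exact Or.inl (hMU z hz hzR hzB β hβ β' hβ' hne hc)
  · intro hP
    have h1 := toPar hP
    have h2 : dt v (a - o) = 0 := by rw [← hq, dt_swap, h1, neg_zero]
    exact hv (a - o) (by simp) h2
  · intro hP
    have h1 := toPar hP
    have h2 : dt v (a - b) = 0 := by rw [← hq, dt_swap, h1, neg_zero]
    exact hv (a - b) (by simp) h2
  · intro β hβ β' hβ' hne hP
    exfalso
    have h1 := toPar hP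
    rw [hq] at h1
    refine hv (β' - β) ?_ h1
    simp only [Finset.mem_union, Finset.mem_image, Finset.mem_filter, Finset.mem_product]
    exact Or.inl (Or.inr ⟨(β, β'), ⟨⟨hβ, hβ'⟩, hne⟩, rfl⟩)

end Pool.Agent.K4L
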