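import Pool.Agent.K4L.LB3
import Pool.Agent.K4L.W0Tri

/-!
# The block: blue stones on the axis `y = 0`, `d = (N, 0)` far, one more blue stone `s = (x, y)`
-/

namespace Pool.Agent.K4L

/-- the height of the point where `(β, 0) s` meets `X d` -/
theorem bk_star {X1 X2 N x y β z1 η : ℤ} (h1 : (N - X1) * (η - X2) = (0 - X2) * (z1 - X1))
    (h2 : (x - β) * (η - 0) = (y - 0) * (z1 - β)) :
    η * (X2 * (x - β) + y * (N - X1)) = y * X2 * (N - β) := by
  linear_combination y * h1 + X2 * h2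

/-- a line which meets `X d` has a small slope -/
theorem bk_slope {X1 X2 N x y β z1 η M : ℤ} (hM : 1 ≤ M) (hX1 : |X1| ≤ M) (hX2 : |X2| ≤ M)
    (hβ : |β| ≤ M) (hN : 6 * M ^ 2 ≤ N) (hη : η ≠ X2)
    (h1 : (N - X1) * (η - X2) = (0 - X2) * (z1 - X1))
    (h2 : (x - β) * (η - 0) = (y - 0) * (z1 - β)) : N * |y| ≤ 4 * M ^ 2 * |x - β| := by
  have hMM : M ≤ M ^ 2 := by nlinarith
  have hN0 : 0 < N := by nlinarith
  have e1 : (η - X2) * (y * (N - X1)) = X2 * (y * (X1 - β) - η * (x - β)) := by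
    linear_combination y * h1 + X2 * h2
  have g1 := Int.one_le_abs (sub_ne_zero.mpr hη)
  have a1 := abs_nonneg y
  have a2 := abs_nonneg (x - β)
  have a3 := abs_nonneg X2
  have e2 : |η - X2| * (|y| * |N - X1|) ≤ M * (|y| * (2 * M) + |η| * |x - β|) := by
    have h3 : |η - X2| * (|y| * |N - X1|) = |X2| * |y * (X1 - β) - η * (x - β)| := by
      rw [← abs_mul y, ← abs_mul, e1, abs_mul]
    have h4 := abs_sub (y * (X1 - β)) (η * (x - β))
    rw [abs_mul, abs_mul] at h4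
    have h5 := abs_sub X1 β
    have h6 : |y| * |X1 - β| ≤ |y| * (2 * M) := mul_le_mul_of_nonneg_left (by linarith) a1
    rw [h3]
    exact mul_le_mul hX2 (by linarith) (abs_nonneg _) (by linarith)
  have e3 : |η| ≤ |η - X2| * (1 + M) := by
    have h3 := abs_add_le (η - X2) X2
    rw [sub_add_cancel] at h3
    nlinarith
  have e4 : |η - X2| * (|y| * |N - X1|) ≤
      |η - X2| * (M * (|y| * (2 * M) + (1 + M) * |x - β|)) := by
    have h3 : |y| * (2 * M) ≤ |η - X2| * (|y| * (2 * M)) :=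
      le_mul_of_one_le_left (by positivity) g1
    have h4 : |η| * |x - β| ≤ |η - X2| * (1 + M) * |x - β| := mul_le_mul_of_nonneg_right e3 a2
    have h5 : M * (|y| * (2 * M) + |η| * |x - β|) ≤
      M * (|η - X2| * (|y| * (2 * M)) + |η - X2| * (1 + M) * |x - β|) :=
      mul_le_mul_of_nonneg_left (by linarith) (by linarith)
    calc |η - X2| * (|y| * |N - X1|) ≤ _ := e2
      _ ≤ _ := h5
      _ = _ := by ring
  have e5 : |y| * |N - X1| ≤ M * (|y| * (2 * M) + (1 + M) * |x - β|) :=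
    le_of_mul_le_mul_left e4 (by linarith)
  have e6 : N - M ≤ |N - X1| := by
    have := le_abs_self (N - X1)
    have := le_abs_self X1
    linarith
  have e7 : |y| * (N - M) ≤ |y| * |N - X1| := mul_le_mul_of_nonneg_left e6 a1
  have e8 : M * ((1 + M) * |x - β|) ≤ 2 * M ^ 2 * |x - β| := by
    have : M * (1 + M) ≤ 2 * M ^ 2 := by nlinarith
    calc M * ((1 + M) * |x - β|) = (M * (1 + M)) * |x - β| := by ring
      _ ≤ _ := mul_le_mul_of_nonneg_right this a2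
  have e9 : |y| * (6 * M ^ 2) ≤ |y| * N := mul_le_mul_of_nonneg_left hN a1
  have e10 : |y| * M ≤ |y| * M ^ 2 := mul_le_mul_of_nonneg_left hMM a1
  nlinarith

/-- a line with a small slope through `(β', 0)` meets a near line only if `β'` is on it -/
theorem bk_noab {X1 X2 Y1 Y2 N x y β β' z1 z2 M : ℤ} (hM : 1 ≤ M) (hX1 : |X1| ≤ M)
    (hX2 : |X2| ≤ M) (hY1 : |Y1| ≤ M) (hY2 : |Y2| ≤ M) (hβ : |β| ≤ M) (hβ' : |β'| ≤ M)
    (hN : 64 * M ^ 4 ≤ N) (hXY : X2 ≠ Y2) (hy : y ≠ 0) (hs : N * |y| ≤ 4 * M ^ 2 * |x - β|)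
    (h1 : (Y1 - X1) * (z2 - X2) = (Y2 - X2) * (z1 - X1))
    (h2 : (x - β') * (z2 - 0) = (y - 0) * (z1 - β')) :
    (Y1 - X1) * (0 - X2) = (Y2 - X2) * (β' - X1) := by
  have hM2 : 1 ≤ M ^ 2 := by nlinarith
  have hMM : M ≤ M ^ 2 := by nlinarith
  have e1 : z2 * ((x - β') * (Y2 - X2) - y * (Y1 - X1)) =
      y * ((Y2 - X2) * (X1 - β') - (Y1 - X1) * X2) := by
    linear_combination (Y2 - X2) * h2 - y * h1
  have g1 := Int.one_le_abs (sub_ne_zero.mpr hXY.symm)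
  have gy := Int.one_le_abs hy
  have a1 := abs_nonneg (x - β)
  have a2 := abs_nonneg (x - β')
  -- `x - β'` is large
  have e2 : 16 * M ^ 2 * |y| ≤ |x - β| := by
    have h3 : 64 * M ^ 4 * |y| ≤ N * |y| := mul_le_mul_of_nonneg_right hN (abs_nonneg _)
    have h4 : 4 * M ^ 2 * (16 * M ^ 2 * |y|) ≤ 4 * M ^ 2 * |x - β| := by
      calc 4 * M ^ 2 * (16 * M ^ 2 * |y|) = 64 * M ^ 4 * |y| := by ring
        _ ≤ _ := h3.trans hs
    exact le_of_mul_le_mul_left h4 (by positivity)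
  have e3 : |x - β| ≤ |x - β'| + 2 * M := by
    have h3 := abs_add_le (x - β') (β' - β)
    have h4 : x - β' + (β' - β) = x - β := by ring
    rw [h4] at h3
    have h5 := abs_sub β' β
    linarith
  have e4 : M ^ 2 ≤ M ^ 2 * |y| := le_mul_of_one_le_right (by positivity) gy
  have e5 : 14 * M ^ 2 * |y| ≤ |x - β'| := by nlinarith
  have e6 : |x - β'| ≤ |(x - β') * (Y2 - X2)| := by
    rw [abs_mul]; exact le_mul_of_one_le_right a2 g1
  have e7 : |y * (Y1 - X1)| ≤ 2 * M ^ 2 * |y| := by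
    rw [abs_mul]
    have := abs_sub Y1 X1
    have h3 : |y| * |Y1 - X1| ≤ |y| * (2 * M) := mul_le_mul_of_nonneg_left (by linarith)
      (abs_nonneg _)
    nlinarith [abs_nonneg y]
  have e8 : 12 * M ^ 2 * |y| ≤ |(x - β') * (Y2 - X2) - y * (Y1 - X1)| := by
    have := abs_sub_abs_le_abs_sub ((x - β') * (Y2 - X2)) (y * (Y1 - X1))
    linarith
  have e9 : |y * ((Y2 - X2) * (X1 - β') - (Y1 - X1) * X2)| ≤ 6 * M ^ 2 * |y| := by
    rw [abs_mul]
    have h3 := abs_sub ((Y2 - X2) * (X1 - β')) ((Y1 - X1) * X2)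
    rw [abs_mul, abs_mul] at h3
    have h4 := abs_sub Y2 X2
    have h5 := abs_sub X1 β'
    have h6 := abs_sub Y1 X1
    have h7 : |Y2 - X2| * |X1 - β'| ≤ (2 * M) * (2 * M) :=
      mul_le_mul (by linarith) (by linarith) (abs_nonneg _) (by linarith)
    have h8 : |Y1 - X1| * |X2| ≤ (2 * M) * M :=
      mul_le_mul (by linarith) hX2 (abs_nonneg _) (by linarith)
    have h9 : |(Y2 - X2) * (X1 - β') - (Y1 - X1) * X2| ≤ 6 * M ^ 2 := by nlinarith
    have := mul_le_mul_of_nonneg_left h9 (abs_nonneg y)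
    linarith
  have hz : z2 = 0 := by
    by_contra hz
    have h3 := Int.one_le_abs hz
    have h4 : |(x - β') * (Y2 - X2) - y * (Y1 - X1)| ≤
        |y * ((Y2 - X2) * (X1 - β') - (Y1 - X1) * X2)| := by
      rw [← e1, abs_mul]
      exact le_mul_of_one_le_left (abs_nonneg _) h3
    have : 0 < M ^ 2 * |y| := by positivity
    linarith
  rw [hz, zero_mul] at e1
  have h3 := (mul_eq_zero.mp e1.symm).resolve_left hy
  linear_combination h3

/-- two hits of `X d` -/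
theorem bk_dbl {X1 X2 N x y β1 β2 z1 η1 w1 η2 M : ℤ} (hM : 1 ≤ M)
    (hX2 : |X2| ≤ M) (hX0 : X2 ≠ 0) (hβ1 : |β1| ≤ M) (hβ2 : |β2| ≤ M) (hN : 0 < N)
    (hne : β1 ≠ β2) (hy : y ≠ 0) (hs : ¬ (N - X1) * (y - X2) = (0 - X2) * (x - X1))
    (h1 : (N - X1) * (η1 - X2) = (0 - X2) * (z1 - X1))
    (h2 : (x - β1) * (η1 - 0) = (y - 0) * (z1 - β1))
    (h3 : (N - X1) * (η2 - X2) = (0 - X2) * (w1 - X1))
    (h4 : (x - β2) * (η2 - 0) = (y - 0) * (w1 - β2))
    (hS : 2 * M ^ 2 ≤ |X2 * x + y * (N - X1)|) :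
    |X2 * x + y * (N - X1)| * |X2 * x + y * (N - X1)| ≤
      8 * M ^ 2 * |y| * (N * M + |X2 * x + y * (N - X1)|) := by
  obtain ⟨S, hSd⟩ : ∃ S, S = X2 * x + y * (N - X1) := ⟨_, rfl⟩
  rw [← hSd] at hS ⊢
  have s1 := bk_star h1 h2
  have s2 := bk_star h3 h4
  have e1 : X2 * (x - β1) + y * (N - X1) = S - X2 * β1 := by rw [hSd]; ring
  have e2 : X2 * (x - β2) + y * (N - X1) = S - X2 * β2 := by rw [hSd]; ring
  rw [e1] at s1
  rw [e2] at s2
  have hη : η1 ≠ η2 := by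
    intro h
    rw [← h] at s2
    have e3 : X2 * (β2 - β1) * (η1 - y) = 0 := by linear_combination s1 - s2
    have e4 : η1 = y := by
      rcases mul_eq_zero.mp e3 with h' | h'
      · rcases mul_eq_zero.mp h' with h'' | h''
        · exact absurd h'' hX0
        · exact absurd (by linarith) hne
      · linarith
    rw [e4] at h1 h2
    have e5 : y * (z1 - x) = 0 := by linear_combination -h2
    have e6 : z1 = x := by
      rcases mul_eq_zero.mp e5 with h' | h'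
      · exact absurd h' hy
      · linarith
    rw [e6] at h1
    exact hs h1
  have e3 : (η1 - η2) * ((S - X2 * β1) * (S - X2 * β2)) =
      y * X2 * (β1 - β2) * (N * X2 - S) := by
    linear_combination (S - X2 * β2) * s1 - (S - X2 * β1) * s2
  have g1 := Int.one_le_abs (sub_ne_zero.mpr hη)
  have hb : ∀ β, |β| ≤ M → |S| ≤ 2 * |S - X2 * β| := by
    intro β hβ
    have h5 := abs_sub_abs_le_abs_sub S (X2 * β)
    have h6 : |X2 * β| ≤ M ^ 2 := by
      rw [abs_mul, sq]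
      exact mul_le_mul hX2 hβ (abs_nonneg _) (by linarith)
    linarith
  have e4 : |S| * |S| ≤ 4 * |(S - X2 * β1) * (S - X2 * β2)| := by
    rw [abs_mul]
    have := mul_le_mul (hb β1 hβ1) (hb β2 hβ2) (abs_nonneg _) (by positivity)
    linarith
  have e5 : |(S - X2 * β1) * (S - X2 * β2)| ≤ |y * X2 * (β1 - β2) * (N * X2 - S)| := by
    rw [← e3, abs_mul (η1 - η2)]
    exact le_mul_of_one_le_left (abs_nonneg _) g1
  have e6 : |y * X2 * (β1 - β2) * (N * X2 - S)| ≤ |y| * M * (2 * M) * (N * M + |S|) := by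
    rw [abs_mul, abs_mul, abs_mul]
    have h5 := abs_sub β1 β2
    have h6 := abs_sub (N * X2) S
    rw [abs_mul, abs_of_pos hN] at h6
    have h7 : N * |X2| ≤ N * M := mul_le_mul_of_nonneg_left hX2 hN.le
    have h8 : |y| * |X2| ≤ |y| * M := mul_le_mul_of_nonneg_left hX2 (abs_nonneg _)
    have h9 : |y| * |X2| * |β1 - β2| ≤ |y| * M * (2 * M) :=
      mul_le_mul h8 (by linarith) (abs_nonneg _) (by positivity)
    exact mul_le_mul h9 (by linarith) (abs_nonneg _) (by positivity)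
  calc |S| * |S| ≤ 4 * |(S - X2 * β1) * (S - X2 * β2)| := e4
    _ ≤ 4 * (|y| * M * (2 * M) * (N * M + |S|)) := by linarith
    _ = _ := by ring

/-- `|S|` cannot be large for two hits -/
theorem bk_dbl_no {N y S M : ℤ} (hM : 1 ≤ M) (hy : y ≠ 0) (hN : 200 * M ^ 5 ≤ N)
    (hS : |y| * N ≤ 4 * M * |S|)
    (h : 2 * M ^ 2 ≤ |S| → |S| * |S| ≤ 8 * M ^ 2 * |y| * (N * M + |S|)) : False := by
  have gy := Int.one_le_abs hy
  have hM2 : 1 ≤ M ^ 2 := by nlinarith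
  have hM3 : M ^ 2 ≤ M ^ 3 := by nlinarith
  have hM4 : M ^ 3 ≤ M ^ 4 := by nlinarith [pow_pos (show (0:ℤ) < M by linarith) 3]
  have hM5 : M ^ 4 ≤ M ^ 5 := by nlinarith [pow_pos (show (0:ℤ) < M by linarith) 4]
  have a0 := abs_nonneg S
  have n1 : N ≤ |y| * N := le_mul_of_one_le_left (by linarith) gy
  have s1 : 50 * M ^ 4 ≤ |S| := by
    have : 4 * M * (50 * M ^ 4) ≤ 4 * M * |S| := by
      calc 4 * M * (50 * M ^ 4) = 200 * M ^ 5 := by ring
        _ ≤ _ := by linarith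
    exact le_of_mul_le_mul_left this (by linarith)
  have s2 := h (by linarith)
  have s3 : 8 * M ^ 2 * |y| * (N * M + |S|) ≤ (32 * M ^ 4 + 8 * M ^ 2 * |y|) * |S| := by
    have h1 : 8 * M ^ 3 * (|y| * N) ≤ 8 * M ^ 3 * (4 * M * |S|) :=
      mul_le_mul_of_nonneg_left hS (by positivity)
    calc 8 * M ^ 2 * |y| * (N * M + |S|) = 8 * M ^ 3 * (|y| * N) + 8 * M ^ 2 * |y| * |S| := by ring
      _ ≤ 8 * M ^ 3 * (4 * M * |S|) + 8 * M ^ 2 * |y| * |S| := by linarith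
      _ = _ := by ring
  have s4 : |S| ≤ 32 * M ^ 4 + 8 * M ^ 2 * |y| := by
    have h1 : |S| * |S| ≤ (32 * M ^ 4 + 8 * M ^ 2 * |y|) * |S| := s2.trans s3
    have h2 : 0 < |S| := by
      have : 0 < M ^ 4 := by positivity
      linarith
    exact le_of_mul_le_mul_right h1 h2
  have s5 : |S| ≤ 40 * M ^ 4 * |y| := by
    have h1 : M ^ 4 ≤ M ^ 4 * |y| := le_mul_of_one_le_right (by positivity) gy
    have h2 : M ^ 2 * |y| ≤ M ^ 4 * |y| := mul_le_mul_of_nonneg_right (by linarith) (by linarith)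
    linarith
  have s6 : |y| * N ≤ |y| * (160 * M ^ 5) := by
    have h1 : 4 * M * |S| ≤ 4 * M * (40 * M ^ 4 * |y|) := mul_le_mul_of_nonneg_left s5 (by linarith)
    calc |y| * N ≤ 4 * M * |S| := hS
      _ ≤ 4 * M * (40 * M ^ 4 * |y|) := h1
      _ = _ := by ring
  have s7 : N ≤ 160 * M ^ 5 := le_of_mul_le_mul_left s6 (by linarith)
  have : 0 < M ^ 5 := by positivity
  linarith

/-- one of the two numbers `S` is large -/
theorem bk_big {X1 X2 Y1 Y2 N x y M : ℤ} (hM : 1 ≤ M) (hX1 : |X1| ≤ M) (hX2 : |X2| ≤ M)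
    (hY1 : |Y1| ≤ M) (hY2 : |Y2| ≤ M) (hXY : X2 ≠ Y2) (hN : 4 * M ^ 2 ≤ N) :
    |y| * N ≤ 4 * M * |X2 * x + y * (N - X1)| ∨ |y| * N ≤ 4 * M * |Y2 * x + y * (N - Y1)| := by
  obtain ⟨S, hS⟩ : ∃ S, S = X2 * x + y * (N - X1) := ⟨_, rfl⟩
  obtain ⟨T, hT⟩ : ∃ T, T = Y2 * x + y * (N - Y1) := ⟨_, rfl⟩
  rw [← hS, ← hT]
  have hM2 : 1 ≤ M ^ 2 := by nlinarith
  have e1 : Y2 * S - X2 * T = y * ((Y2 - X2) * N + (X2 * Y1 - Y2 * X1)) := by
    rw [hS, hT]; ring
  have g1 := Int.one_le_abs (sub_ne_zero.mpr hXY.symm)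
  have hN0 : 0 ≤ N := by linarith
  have e2 : N ≤ |(Y2 - X2) * N| := by
    rw [abs_mul, abs_of_nonneg hN0]
    exact le_mul_of_one_le_left hN0 g1
  have e3 : |X2 * Y1 - Y2 * X1| ≤ 2 * M ^ 2 := by
    have h1 := abs_sub (X2 * Y1) (Y2 * X1)
    rw [abs_mul, abs_mul] at h1
    have h2 : |X2| * |Y1| ≤ M * M := mul_le_mul hX2 hY1 (abs_nonneg _) (by linarith)
    have h3 : |Y2| * |X1| ≤ M * M := mul_le_mul hY2 hX1 (abs_nonneg _) (by linarith)
    nlinarith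
  have e4 : N ≤ 2 * |(Y2 - X2) * N + (X2 * Y1 - Y2 * X1)| := by
    have h1 := abs_sub_abs_le_abs_sub ((Y2 - X2) * N) (-(X2 * Y1 - Y2 * X1))
    rw [abs_neg, sub_neg_eq_add] at h1
    linarith
  have e5 : |y| * N ≤ 2 * (M * (|S| + |T|)) := by
    have h1 : |y| * N ≤ 2 * |y * ((Y2 - X2) * N + (X2 * Y1 - Y2 * X1))| := by
      rw [abs_mul]
      have := mul_le_mul_of_nonneg_left e4 (abs_nonneg y)
      linarith
    rw [← e1] at h1
    have h2 := abs_sub (Y2 * S) (X2 * T)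
    rw [abs_mul, abs_mul] at h2
    have h3 : |Y2| * |S| ≤ M * |S| := mul_le_mul_of_nonneg_right hY2 (abs_nonneg _)
    have h4 : |X2| * |T| ≤ M * |T| := mul_le_mul_of_nonneg_right hX2 (abs_nonneg _)
    linarith
  rcases le_total |S| |T| with h | h
  · right
    have : M * |S| ≤ M * |T| := mul_le_mul_of_nonneg_left h (by linarith)
    linarith
  · left
    have : M * |T| ≤ M * |S| := mul_le_mul_of_nonneg_left h (by linarith)
    linarith

/-- a line which meets `X d` is not parallel to `Y d` -/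
theorem bk_par {X1 X2 Y1 Y2 N x y β z1 η M : ℤ} (hM : 1 ≤ M) (hX1 : |X1| ≤ M) (hX2 : |X2| ≤ M)
    (hY1 : |Y1| ≤ M) (hY2 : |Y2| ≤ M) (hX0 : X2 ≠ 0) (hY0 : Y2 ≠ 0) (hβ : |β| ≤ M)
    (hXY : X2 ≠ Y2) (hy : y ≠ 0) (hN : 10 * M ^ 4 ≤ N)
    (h1 : (N - X1) * (η - X2) = (0 - X2) * (z1 - X1))
    (h2 : (x - β) * (η - 0) = (y - 0) * (z1 - β))
    (h3 : (N - Y1) * (y - 0) = (0 - Y2) * (x - β)) :
    (Y1 - X1) * (0 - X2) = (Y2 - X2) * (β - X1) := by
  have hM2 : 1 ≤ M ^ 2 := by nlinarith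
  have hM3 : M ^ 2 ≤ M ^ 3 := by nlinarith
  have hM4 : M ^ 3 ≤ M ^ 4 := by nlinarith [pow_pos (show (0:ℤ) < M by linarith) 3]
  have hMM : M ≤ M ^ 2 := by nlinarith
  have s1 := bk_star h1 h2
  have e1 : η * ((Y2 - X2) * N + (X2 * Y1 - Y2 * X1)) = X2 * Y2 * (N - β) := by
    apply mul_left_cancel₀ hy
    linear_combination Y2 * s1 - η * X2 * h3
  have g1 := Int.one_le_abs (sub_ne_zero.mpr hXY.symm)
  have hN0 : 0 ≤ N := by linarith
  have e3 : |X2 * Y1 - Y2 * X1| ≤ 2 * M ^ 2 := by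
    have h1 := abs_sub (X2 * Y1) (Y2 * X1)
    rw [abs_mul, abs_mul] at h1
    have h2 : |X2| * |Y1| ≤ M * M := mul_le_mul hX2 hY1 (abs_nonneg _) (by linarith)
    have h3 : |Y2| * |X1| ≤ M * M := mul_le_mul hY2 hX1 (abs_nonneg _) (by linarith)
    nlinarith
  have e2 : N ≤ |(Y2 - X2) * N| := by
    rw [abs_mul, abs_of_nonneg hN0]
    exact le_mul_of_one_le_left hN0 g1
  have e4 : N ≤ 2 * |(Y2 - X2) * N + (X2 * Y1 - Y2 * X1)| := by
    have h1 := abs_sub_abs_le_abs_sub ((Y2 - X2) * N) (-(X2 * Y1 - Y2 * X1))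
    rw [abs_neg, sub_neg_eq_add] at h1
    linarith
  have e5 : |X2 * Y2 * (N - β)| ≤ M ^ 2 * (2 * N) := by
    rw [abs_mul, abs_mul]
    have h4 := abs_sub N β
    rw [abs_of_nonneg hN0] at h4
    have h5 : |X2| * |Y2| ≤ M ^ 2 := by
      rw [sq]; exact mul_le_mul hX2 hY2 (abs_nonneg _) (by linarith)
    exact mul_le_mul h5 (by linarith) (abs_nonneg _) (by positivity)
  have e6 : |η| ≤ 4 * M ^ 2 := by
    have h4 : |η| * |(Y2 - X2) * N + (X2 * Y1 - Y2 * X1)| ≤ M ^ 2 * (2 * N) := by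
      rw [← abs_mul, e1]; exact e5
    have h5 : |η| * N ≤ |η| * (2 * |(Y2 - X2) * N + (X2 * Y1 - Y2 * X1)|) :=
      mul_le_mul_of_nonneg_left e4 (abs_nonneg _)
    have h6 : |η| * N ≤ (4 * M ^ 2) * N := by linarith
    exact le_of_mul_le_mul_right h6 (by linarith)
  have e7 : N * (η * (Y2 - X2) - X2 * Y2) = -(X2 * Y2 * β) - η * (X2 * Y1 - Y2 * X1) := by
    linear_combination e1
  have e8 : |-(X2 * Y2 * β) - η * (X2 * Y1 - Y2 * X1)| < N := by
    have h4 := abs_sub (-(X2 * Y2 * β)) (η * (X2 * Y1 - Y2 * X1))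
    rw [abs_neg, abs_mul, abs_mul, abs_mul] at h4
    have h5 : |X2| * |Y2| ≤ M ^ 2 := by
      rw [sq]; exact mul_le_mul hX2 hY2 (abs_nonneg _) (by linarith)
    have h6 : |X2| * |Y2| * |β| ≤ M ^ 2 * M := mul_le_mul h5 hβ (abs_nonneg _) (by positivity)
    have h7 : |η| * |X2 * Y1 - Y2 * X1| ≤ (4 * M ^ 2) * (2 * M ^ 2) :=
      mul_le_mul e6 e3 (abs_nonneg _) (by positivity)
    have h8 : M ^ 2 * M = M ^ 3 := by ring
    have h9 : (4 * M ^ 2) * (2 * M ^ 2) = 8 * M ^ 4 := by ring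
    linarith
  have e9 : η * (Y2 - X2) - X2 * Y2 = 0 := by
    by_contra hne
    have h4 := Int.one_le_abs hne
    rw [← e7, abs_mul, abs_of_nonneg hN0] at e8
    have : N ≤ N * |η * (Y2 - X2) - X2 * Y2| := le_mul_of_one_le_right hN0 h4
    linarith
  rw [e9, mul_zero] at e7
  apply mul_left_cancel₀ (mul_ne_zero hX0 hY0)
  linear_combination -(Y2 - X2) * e7 + (X2 * Y1 - Y2 * X1) * e9

end Pool.Agent.K4L
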