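import Pool.Agent.K4L.IIGC
import Pool.Agent.K4L.IIGE

/-!
# The block: the triangle `X, Y, d`
-/

namespace Pool.Agent.K4L

/-- the data -/
structure BK (R B : Finset Pt) (X Y s : Pt) (N M : ℤ) : Prop where
  hM : 1 ≤ M
  hX1 : |X.1| ≤ M
  hX2 : |X.2| ≤ M
  hY1 : |Y.1| ≤ M
  hY2 : |Y.2| ≤ M
  hX0 : X.2 ≠ 0
  hY0 : Y.2 ≠ 0
  hXY : X.2 ≠ Y.2
  hN : 200 * M ^ 5 ≤ N
  XR : X ∈ R
  YR : Y ∈ R
  dR : ((N, 0) : Pt) ∈ R
  hNT : NoThreat R B
  hBR : ∀ z ∈ B, z ∉ R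
  hBm : ∀ z ∈ B, z = s ∨ (z.2 = 0 ∧ |z.1| ≤ M ∧ ¬ Col X Y z)
  hs : s.2 ≠ 0
  sXY : ¬ Col X Y s
  sX : ¬ Col X (N, 0) s
  sY : ¬ Col Y (N, 0) s

namespace BK
variable {R B : Finset Pt} {X Y s : Pt} {N M : ℤ}

theorem pows (hM : 1 ≤ M) : 1 ≤ M ^ 2 ∧ M ≤ M ^ 2 ∧ M ^ 2 ≤ M ^ 3 ∧ M ^ 3 ≤ M ^ 4 ∧
    M ^ 4 ≤ M ^ 5 := by
  have hM2 : 1 ≤ M ^ 2 := by nlinarith
  have hMM : M ≤ M ^ 2 := by nlinarith
  have hM3 : M ^ 2 ≤ M ^ 3 := by nlinarith
  have hM4 : M ^ 3 ≤ M ^ 4 := by nlinarith [pow_pos (show (0:ℤ) < M by linarith) 3]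
  have hM5 : M ^ 4 ≤ M ^ 5 := by nlinarith [pow_pos (show (0:ℤ) < M by linarith) 4]
  exact ⟨hM2, hMM, hM3, hM4, hM5⟩

theorem swap (K : BK R B X Y s N M) : BK R B Y X s N M :=
  ⟨K.hM, K.hY1, K.hY2, K.hX1, K.hX2, K.hY0, K.hX0, K.hXY.symm, K.hN, K.YR, K.XR, K.dR, K.hNT,
    K.hBR, fun z hz => (K.hBm z hz).imp_right (fun h => ⟨h.1, h.2.1, fun h' => h.2.2 h'.swap12⟩),
    K.hs, fun h => K.sXY h.swap12, K.sY, K.sX⟩

theorem ndX (K : BK R B X Y s N M) {z : Pt} (hz : z ∈ B) : ¬ Col X (N, 0) z := by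
  rcases K.hBm z hz with rfl | ⟨h1, h2, _⟩
  · exact K.sX
  · intro h
    obtain ⟨p1, p2, p3, p4, p5⟩ := pows K.hM
    have hN := K.hN
    unfold Col at h
    simp only at h
    rw [h1] at h
    have h3 : X.2 * (z.1 - N) = 0 := by linear_combination h
    rcases mul_eq_zero.mp h3 with h4 | h4
    · exact K.hX0 h4
    · have := le_abs_self z.1
      linarith

theorem nXY (K : BK R B X Y s N M) {z : Pt} (hz : z ∈ B) : ¬ Col X Y z := by
  rcases K.hBm z hz with rfl | ⟨_, _, h3⟩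
  · exact K.sXY
  · exact h3

theorem axis (K : BK R B X Y s N M) {z z' : Pt} (h : z.2 = 0) (h' : z'.2 = 0) :
    ∃ w ∈ R, Col z z' w := by
  refine ⟨(N, 0), K.dR, ?_⟩
  unfold Col
  simp only
  rw [h, h']; ring

theorem aXY (K : BK R B X Y s N M) : ALine R B X Y :=
  ⟨K.XR, K.YR, fun h => K.hXY (by rw [h]), fun z hz => K.nXY hz⟩

theorem aXd (K : BK R B X Y s N M) : ALine R B X (N, 0) :=
  ⟨K.XR, K.dR, fun h => K.hX0 (by rw [h]), fun z hz => K.ndX hz⟩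

/-- the line `u v` is uncovered -/
theorem unc (K : BK R B X Y s N M) {u v : Pt}
    (h : ∀ β ∈ B, β.2 = 0 → ¬ HL R u v β s) : Uncov R B u v := by
  intro z hz hzR _ γ hγ γ' hγ' hne hc
  by_contra hcon
  push Not at hcon
  rcases K.hBm γ hγ with rfl | ⟨h1, _, _⟩
  · rcases K.hBm γ' hγ' with rfl | ⟨h1, _, _⟩
    · exact hne rfl
    · exact h γ' hγ' h1 ⟨fun w hw hw' => hcon w hw hw'.swap12, z, hz, hc.swap12⟩
  · rcases K.hBm γ' hγ' with rfl | ⟨h1', _, _⟩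
    · exact h γ hγ h1 ⟨hcon, z, hz, hc⟩
    · obtain ⟨w, hw, hw'⟩ := K.axis h1 h1'
      exact hcon w hw hw'

/-- the equations of a hit of `X d` -/
theorem hit (K : BK R B X Y s N M) {β : Pt} (hβ : β.2 = 0) (h : HL R X (N, 0) β s) :
    ∃ z1 η : ℤ, η ≠ X.2 ∧ (N - X.1) * (η - X.2) = (0 - X.2) * (z1 - X.1) ∧
      (s.1 - β.1) * (η - 0) = (s.2 - 0) * (z1 - β.1) ∧ Col X (N, 0) (z1, η) ∧
      Col β s (z1, η) := by
  obtain ⟨ha, ⟨z1, η⟩, h1, h2⟩ := h
  refine ⟨z1, η, ?_, ?_, ?_, h1, h2⟩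
  · intro hη
    apply ha X K.XR
    have : ((z1, η) : Pt) = X := by
      refine Prod.ext ?_ hη
      unfold Col at h1
      simp only at h1
      rw [hη] at h1
      have h3 : X.2 * (z1 - X.1) = 0 := by linear_combination h1
      rcases mul_eq_zero.mp h3 with h4 | h4
      · exact absurd h4 K.hX0
      · simp only; linarith
    rwa [this] at h2
  · unfold Col at h1
    simp only at h1
    exact h1
  · unfold Col at h2
    simp only at h2
    rw [hβ] at h2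
    exact h2

theorem slope (K : BK R B X Y s N M) {β : Pt} (hβB : β ∈ B) (hβ : β.2 = 0)
    (h : HL R X (N, 0) β s) : |β.1| ≤ M ∧ N * |s.2| ≤ 4 * M ^ 2 * |s.1 - β.1| := by
  obtain ⟨z1, η, h0, h1, h2, _, _⟩ := K.hit hβ h
  obtain ⟨p1, p2, p3, p4, p5⟩ := pows K.hM
  have hN := K.hN
  have hM := K.hM
  have hb : |β.1| ≤ M := by
    rcases K.hBm β hβB with rfl | h3
    · exact absurd hβ K.hs
    · exact h3.2.1
  exact ⟨hb, bk_slope K.hM K.hX1 K.hX2 hb (by linarith) h0 h1 h2⟩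

theorem uXY (K : BK R B X Y s N M) {β : Pt} (hb : |β.1| ≤ M)
    (hsl : N * |s.2| ≤ 4 * M ^ 2 * |s.1 - β.1|) : Uncov R B X Y := by
  apply K.unc
  rintro β' hβ' h0 ⟨ha, z, h1, h2⟩
  obtain ⟨p1, p2, p3, p4, p5⟩ := pows K.hM
  have hN := K.hN
  have hM := K.hM
  rcases K.hBm β' hβ' with rfl | ⟨_, hb', h3⟩
  · exact K.hs h0
  · apply h3
    unfold Col at h1 h2
    have := bk_noab (z1 := z.1) (z2 := z.2) K.hM K.hX1 K.hX2 K.hY1 K.hY2 hb hb' (by linarith)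
      K.hXY K.hs hsl h1 (by rw [h0] at h2; exact h2)
    unfold Col
    rw [h0]
    exact this

/-- `X d` is hit, and the number `S` of `X` is large -/
theorem win1 (K : BK R B X Y s N M) (hU : Uncov R B X Y)
    {β : Pt} (hβB : β ∈ B) (hβ : β.2 = 0) (h : HL R X (N, 0) β s)
    (hS : |s.2| * N ≤ 4 * M * |X.2 * s.1 + s.2 * (N - X.1)|) : Win R B := by
  obtain ⟨p1, p2, p3, p4, p5⟩ := pows K.hM
  have hN := K.hN
  have hM := K.hM
  have gs := Int.one_le_abs K.hs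
  obtain ⟨hb, hsl⟩ := K.slope hβB hβ h
  obtain ⟨z1, η, k0, k1, k2, k3, k4⟩ := K.hit hβ h
  have hne : β ≠ s := by rintro rfl; exact K.hs hβ
  have huniq : ∀ β' ∈ B, β'.2 = 0 → HL R X (N, 0) β' s → β' = β := by
    intro β' hβ' h0 h'
    by_contra hcon
    obtain ⟨hb', _⟩ := K.slope hβ' h0 h'
    obtain ⟨w1, η', l0, l1, l2, l3, l4⟩ := K.hit h0 h'
    refine bk_dbl_no hM K.hs hN hS ?_
    intro hbig
    refine bk_dbl hM K.hX2 K.hX0 hb' hb (by linarith) ?_ K.hs ?_ l1 l2 k1 k2 hbig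
    · intro h1
      exact hcon (Prod.ext h1 (by rw [h0, hβ]))
    · intro h1
      apply K.sX
      unfold Col
      exact h1
  have hzR : ((z1, η) : Pt) ∉ R := fun hz => h.1 _ hz k4
  have hcase : ∀ z ∈ B, z = s ∨ z.2 = 0 := fun z hz => (K.hBm z hz).imp_right (fun h => h.1)
  refine lb3 (o := X) (a := Y) (b := (N, 0)) (p := β) (q := s) (Y := (z1, η)) K.hNT K.hBR K.aXY hU
    K.aXd K.swap.aXd.symm hne k3 k4 hzR h.1 ?_ ?_ ?_ ?_ ?_
  · intro z hz hzR' γ hγ γ' hγ' hne' hc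
    by_contra hcon
    push Not at hcon
    obtain ⟨hr, hcc⟩ := hcon
    rcases hcase γ hγ with rfl | h1
    · rcases hcase γ' hγ' with rfl | h1'
      · exact hne' rfl
      · have := huniq γ' hγ' h1' ⟨fun w hw hw' => hr w hw hw'.swap12, z, hz, hc.swap12⟩
        exact hcc (Col.refl_right _ _) (by rw [this]; exact Col.refl_left _ _)
    · rcases hcase γ' hγ' with rfl | h1'
      · have := huniq γ hγ h1 ⟨hr, z, hz, hc⟩
        exact hcc (by rw [this]; exact Col.refl_left _ _) (Col.refl_right _ _)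
      · obtain ⟨w, hw, hw'⟩ := K.axis h1 h1'
        exact hr w hw hw'
  · intro h1
    unfold Col at h1
    simp only at h1
    have g1 := Int.one_le_abs (sub_ne_zero.mpr K.hXY.symm)
    have h2 : |(Y.2 - X.2) * (N - X.1)| = |(Y.1 - X.1) * (0 - X.2)| := by rw [h1]
    rw [abs_mul, abs_mul, zero_sub, abs_neg] at h2
    have h3 : |N - X.1| ≤ |Y.2 - X.2| * |N - X.1| := le_mul_of_one_le_left (abs_nonneg _) g1
    have h4 := le_abs_self (N - X.1)
    have h5 := le_abs_self X.1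
    have h6 := K.hX1
    have h7 := abs_sub Y.1 X.1
    have h8 := K.hY1
    have h9 : |Y.1 - X.1| * |X.2| ≤ (2 * M) * M :=
      mul_le_mul (by linarith) K.hX2 (abs_nonneg _) (by linarith)
    nlinarith
  · intro h1
    unfold Par at h1
    rw [hβ, sub_zero] at h1
    have g1 := Int.one_le_abs (sub_ne_zero.mpr K.hXY.symm)
    have h2 : |(Y.2 - X.2) * (s.1 - β.1)| = |(Y.1 - X.1) * s.2| := by rw [h1]
    rw [abs_mul, abs_mul] at h2
    have h3 : |s.1 - β.1| ≤ |Y.2 - X.2| * |s.1 - β.1| := le_mul_of_one_le_left (abs_nonneg _) g1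
    have h7 := abs_sub Y.1 X.1
    have h8 := K.hY1
    have h6 := K.hX1
    have h9 : |Y.1 - X.1| * |s.2| ≤ (2 * M) * |s.2| :=
      mul_le_mul_of_nonneg_right (by linarith) (abs_nonneg _)
    have h10 : |s.1 - β.1| ≤ 2 * M * |s.2| := by linarith
    have h11 : N * |s.2| ≤ (8 * M ^ 3) * |s.2| := by
      calc N * |s.2| ≤ 4 * M ^ 2 * |s.1 - β.1| := hsl
        _ ≤ 4 * M ^ 2 * (2 * M * |s.2|) := mul_le_mul_of_nonneg_left h10 (by positivity)
        _ = _ := by ring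
    have h12 : N ≤ 8 * M ^ 3 := le_of_mul_le_mul_right h11 (by linarith)
    linarith
  · intro h1
    rcases K.hBm β hβB with rfl | ⟨_, _, h3⟩
    · exact K.hs hβ
    · apply h3
      unfold Par at h1
      simp only at h1
      have := bk_par K.hM K.hX1 K.hX2 K.hY1 K.hY2 K.hX0 K.hY0 hb K.hXY K.hs (by linarith) k1 k2
        (by rw [hβ] at h1; linear_combination -h1)
      unfold Col
      rw [hβ]
      exact this
  · intro γ hγ γ' hγ' hne' hP
    rcases hcase γ hγ with rfl | h1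
    · exact Or.inr (Col.refl_right _ _)
    · rcases hcase γ' hγ' with rfl | h1'
      · right
        unfold Par at hP
        unfold Col
        linear_combination -hP
      · exact Or.inl (K.axis h1 h1')

theorem win (K : BK R B X Y s N M) : Win R B := by
  obtain ⟨p1, p2, p3, p4, p5⟩ := pows K.hM
  have hN := K.hN
  have hM := K.hM
  have symU : ∀ {u v}, Uncov R B u v → Uncov R B v u := by
    intro u v h z hz
    exact h z hz.swap12
  have ncol : ¬ Col X Y (N, 0) := by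
    intro h1
    unfold Col at h1
    simp only at h1
    have g1 := Int.one_le_abs (sub_ne_zero.mpr K.hXY.symm)
    have h2 : |(Y.2 - X.2) * (N - X.1)| = |(Y.1 - X.1) * (0 - X.2)| := by rw [h1]
    rw [abs_mul, abs_mul, zero_sub, abs_neg] at h2
    have h3 : |N - X.1| ≤ |Y.2 - X.2| * |N - X.1| := le_mul_of_one_le_left (abs_nonneg _) g1
    have h4 := le_abs_self (N - X.1)
    have h5 := le_abs_self X.1
    have h6 := K.hX1
    have h7 := abs_sub Y.1 X.1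
    have h8 := K.hY1
    have h9 : |Y.1 - X.1| * |X.2| ≤ (2 * M) * M :=
      mul_le_mul (by linarith) K.hX2 (abs_nonneg _) (by linarith)
    nlinarith
  by_cases HX : ∃ β ∈ B, β.2 = 0 ∧ HL R X (N, 0) β s
  · obtain ⟨β, hβB, hβ0, hβ⟩ := HX
    obtain ⟨hb, hsl⟩ := K.slope hβB hβ0 hβ
    have hU := K.uXY hb hsl
    by_cases HY : ∃ β ∈ B, β.2 = 0 ∧ HL R Y (N, 0) β s
    · obtain ⟨β', hβ'B, hβ'0, hβ'⟩ := HY
      rcases bk_big (x := s.1) (y := s.2) hM K.hX1 K.hX2 K.hY1 K.hY2 K.hXY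
        (show 4 * M ^ 2 ≤ N by linarith) with h | h
      · exact K.win1 hU hβB hβ0 hβ h
      · exact K.swap.win1 (symU hU) hβ'B hβ'0 hβ' h
    · push Not at HY
      have hY := K.unc (u := Y) (v := (N, 0)) (fun β hβ h0 => HY β hβ h0)
      exact w0_tri (o := Y) (a := X) (b := (N, 0)) K.hNT K.hBR K.aXY.symm (symU hU) K.swap.aXd hY
        K.aXd.symm (fun h => ncol h.swap12)
  · push Not at HX
    have hX := K.unc (u := X) (v := (N, 0)) (fun β hβ h0 => HX β hβ h0)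
    by_cases HY : ∃ β ∈ B, β.2 = 0 ∧ HL R Y (N, 0) β s
    · obtain ⟨β', hβ'B, hβ'0, hβ'⟩ := HY
      obtain ⟨hb, hsl⟩ := K.swap.slope hβ'B hβ'0 hβ'
      have hU := symU (K.swap.uXY hb hsl)
      exact w0_tri (o := X) (a := Y) (b := (N, 0)) K.hNT K.hBR K.aXY hU K.aXd hX
        K.swap.aXd.symm ncol
    · push Not at HY
      have hY := K.unc (u := Y) (v := (N, 0)) (fun β hβ h0 => HY β hβ h0)
      exact w0_tri (o := (N, 0)) (a := X) (b := Y) K.hNT K.hBR K.aXd.symm (symU hX)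
        K.swap.aXd.symm (symU hY) K.aXY.symm (fun h => ncol h.rot)

end BK

end Pool.Agent.K4L
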