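import Pool.Agent.K4L.IIGF

/-!
# The block, all answers (normal form)
-/

namespace Pool.Agent.K4L

/-- a point of a near line and of a far line -/
theorem bk_far {a b c s : Pt} {N M : ℤ} (hM : 1 ≤ M) (ha1 : |a.1| ≤ M) (ha2 : |a.2| ≤ M)
    (hb1 : |b.1| ≤ M) (hb2 : |b.2| ≤ M) (hc1 : |c.1| ≤ M) (hac : a.2 ≠ c.2) (hb0 : b.2 ≠ 0)
    (hN : 200 * M ^ 5 ≤ N) (h1 : Col a c s) (h2 : Col b (N, 0) s) (hsb : s ≠ b) : False := by
  obtain ⟨p1, p2, p3, p4, p5⟩ := BK.pows hM
  unfold Col at h1 h2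
  simp only at h2
  have hne : s.2 ≠ b.2 := by
    intro h
    apply hsb
    refine Prod.ext ?_ h
    rw [h] at h2
    have h3 : b.2 * (s.1 - b.1) = 0 := by linear_combination h2
    rcases mul_eq_zero.mp h3 with h4 | h4
    · exact absurd h4 hb0
    · linarith
  have g1 := Int.one_le_abs (sub_ne_zero.mpr hac.symm)
  have g2 := Int.one_le_abs (sub_ne_zero.mpr hne)
  have e1 : |s.1 - a.1| ≤ 2 * M * |s.2 - a.2| := by
    have h3 : |c.2 - a.2| * |s.1 - a.1| = |c.1 - a.1| * |s.2 - a.2| := by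
      rw [← abs_mul, ← abs_mul, h1]
    have h4 : |s.1 - a.1| ≤ |c.2 - a.2| * |s.1 - a.1| := le_mul_of_one_le_left (abs_nonneg _) g1
    have h5 := abs_sub c.1 a.1
    have h6 : |c.1 - a.1| * |s.2 - a.2| ≤ (2 * M) * |s.2 - a.2| :=
      mul_le_mul_of_nonneg_right (by linarith) (abs_nonneg _)
    linarith
  have e2 : |s.2 - a.2| ≤ |s.2 - b.2| + 2 * M := by
    have h3 := abs_add_le (s.2 - b.2) (b.2 - a.2)
    have h4 : s.2 - b.2 + (b.2 - a.2) = s.2 - a.2 := by ring
    rw [h4] at h3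
    have := abs_sub b.2 a.2
    linarith
  have e3 : |s.1 - b.1| ≤ |s.1 - a.1| + 2 * M := by
    have h3 := abs_add_le (s.1 - a.1) (a.1 - b.1)
    have h4 : s.1 - a.1 + (a.1 - b.1) = s.1 - b.1 := by ring
    rw [h4] at h3
    have := abs_sub a.1 b.1
    linarith
  have e4 : (N - M) * |s.2 - b.2| ≤ M * |s.1 - b.1| := by
    have h3 : |N - b.1| * |s.2 - b.2| = |b.2| * |s.1 - b.1| := by
      rw [← abs_mul, h2, abs_mul, zero_sub, abs_neg]
    have h4 : N - M ≤ |N - b.1| := by
      have := le_abs_self (N - b.1)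
      have := le_abs_self b.1
      linarith
    have h5 := mul_le_mul_of_nonneg_right h4 (abs_nonneg (s.2 - b.2))
    have h6 := mul_le_mul_of_nonneg_right hb2 (abs_nonneg (s.1 - b.1))
    linarith
  have e5 : M * |s.1 - b.1| ≤ M * (2 * M * (|s.2 - b.2| + 2 * M) + 2 * M) := by
    apply mul_le_mul_of_nonneg_left _ (by linarith)
    have : 2 * M * |s.2 - a.2| ≤ 2 * M * (|s.2 - b.2| + 2 * M) :=
      mul_le_mul_of_nonneg_left e2 (by linarith)
    linarith
  have e6 : M * (2 * M * (|s.2 - b.2| + 2 * M) + 2 * M) =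
    2 * M ^ 2 * |s.2 - b.2| + 4 * M ^ 3 + 2 * M ^ 2 := by ring
  have e7 : (N - M - 2 * M ^ 2) * |s.2 - b.2| ≤ 4 * M ^ 3 + 2 * M ^ 2 := by nlinarith
  have e8 : N - M - 2 * M ^ 2 ≤ (N - M - 2 * M ^ 2) * |s.2 - b.2| :=
    le_mul_of_one_le_right (by linarith) g2
  linarith

theorem blk_norm {a b c : Pt} {B0 : Finset Pt}
    (ha : a.2 ≠ 0) (hb : b.2 ≠ 0) (hc : c.2 ≠ 0) (hac : a.2 ≠ c.2) (hbc : b.2 ≠ c.2)
    (hab' : a.2 = b.2 → |a.2| < |c.2|) (habc : ¬ Col a b c)
    (hB0 : ∀ z ∈ B0, z.2 = 0)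
    (nab : ∀ t : ℤ, ¬ Col a b (t, 0)) (nac : ∀ t : ℤ, ¬ Col a c (t, 0))
    (nbc : ∀ t : ℤ, ¬ Col b c (t, 0)) :
    ∃ N0 : ℤ, ∀ N, N0 ≤ N → IsCoprime (N - c.1) c.2 →
      ∀ s : Pt, s ∉ (insert ((N, 0) : Pt) {a, b, c} : Finset Pt) → s ∉ B0 →
      Win (insert ((N, 0) : Pt) {a, b, c}) (insert s B0) := by
  classical
  obtain ⟨M, hMd⟩ : ∃ M : ℤ, M = 1 + |a.1| + |a.2| + |b.1| + |b.2| + |c.1| + |c.2| +
    ∑ z ∈ B0, |z.1| := ⟨_, rfl⟩
  have n0 : 0 ≤ ∑ z ∈ B0, |z.1| := Finset.sum_nonneg (fun _ _ => abs_nonneg _)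
  have n1 := abs_nonneg a.1
  have n2 := abs_nonneg a.2
  have n3 := abs_nonneg b.1
  have n4 := abs_nonneg b.2
  have n5 := abs_nonneg c.1
  have n6 := abs_nonneg c.2
  have hM : 1 ≤ M := by linarith
  have hBM : ∀ z ∈ B0, |z.1| ≤ M := by
    intro z hz
    have : |z.1| ≤ ∑ z ∈ B0, |z.1| :=
      Finset.single_le_sum (f := fun z : Pt => |z.1|) (fun _ _ => abs_nonneg _) hz
    linarith
  obtain ⟨p1, p2, p3, p4, p5⟩ := BK.pows hM
  refine ⟨200 * M ^ 5, ?_⟩
  intro N hN hco s hsR hsB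
  obtain ⟨R, hR⟩ : ∃ R : Finset Pt, R = insert ((N, 0) : Pt) {a, b, c} := ⟨_, rfl⟩
  obtain ⟨B, hB⟩ : ∃ B : Finset Pt, B = insert s B0 := ⟨_, rfl⟩
  rw [← hR] at hsR
  rw [← hR, ← hB]
  have dR : ((N, 0) : Pt) ∈ R := by rw [hR]; simp
  have aR : a ∈ R := by rw [hR]; simp
  have bR : b ∈ R := by rw [hR]; simp
  have cR : c ∈ R := by rw [hR]; simp
  have Rm : ∀ z ∈ R, z = (N, 0) ∨ z = a ∨ z = b ∨ z = c := by
    intro z hz
    rw [hR] at hz
    simpa using hz
  have Bm : ∀ z ∈ B, z = s ∨ z ∈ B0 := by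
    intro z hz
    rw [hB] at hz
    exact Finset.mem_insert.mp hz
  have axis : ∀ z z' : Pt, z.2 = 0 → z'.2 = 0 → ∃ w ∈ R, Col z z' w := by
    intro z z' h h'
    refine ⟨(N, 0), dR, ?_⟩
    unfold Col
    simp only
    rw [h, h']; ring
  have hBR : ∀ z ∈ B, z ∉ R := by
    intro z hz hzR
    rcases Bm z hz with rfl | h
    · exact hsR hzR
    · have h1 := hBM z h
      have h0 := hB0 z h
      rcases Rm z hzR with rfl | rfl | rfl | rfl
      · simp only at h1
        have := le_abs_self N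
        linarith
      · exact ha h0
      · exact hb h0
      · exact hc h0
  have hNT : NoThreat R B := by
    intro u hu v hv w hw huv huw hvw hcol
    -- two of the three stones are in `B0`
    rcases Bm u hu with rfl | hu'
    · have hv' : v ∈ B0 := (Bm v hv).resolve_left (fun h => huv h.symm)
      have hw' : w ∈ B0 := (Bm w hw).resolve_left (fun h => huw h.symm)
      have h0 : u.2 = 0 := by
        unfold Col at hcol
        have h1 := hB0 v hv'
        have h2 := hB0 w hw'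
        rw [h1, h2] at hcol
        have h3 : u.2 * (w.1 - v.1) = 0 := by linear_combination hcol
        rcases mul_eq_zero.mp h3 with h4 | h4
        · exact h4
        · exact absurd (Prod.ext (by linarith) (by rw [h1, h2])) hvw
      exact axis _ _ h0 (hB0 v hv')
    · rcases Bm v hv with rfl | hv'
      · have hw' : w ∈ B0 := (Bm w hw).resolve_left (fun h => hvw h.symm)
        have h0 : v.2 = 0 := by
          unfold Col at hcol
          have h1 := hB0 u hu'
          have h2 := hB0 w hw'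
          rw [h1, h2] at hcol
          have h3 : v.2 * (w.1 - u.1) = 0 := by linear_combination -hcol
          rcases mul_eq_zero.mp h3 with h4 | h4
          · exact h4
          · exact absurd (Prod.ext (by linarith) (by rw [h1, h2])) huw
        exact axis _ _ (hB0 u hu') h0
      · exact axis _ _ (hB0 u hu') (hB0 v hv')
  have hne_ab : a ≠ b := fun h => habc (by rw [h]; exact Col.refl_eq _ _)
  have hne_ac : a ≠ c := fun h => hac (by rw [h])
  have hne_bc : b ≠ c := fun h => hbc (by rw [h])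
  have nax : ∀ z : Pt, z.2 = 0 → ¬ Col a b z ∧ ¬ Col a c z ∧ ¬ Col b c z := by
    intro z hz
    have e : z = (z.1, 0) := Prod.ext rfl hz
    rw [e]
    exact ⟨nab _, nac _, nbc _⟩
  by_cases hs0 : s.2 = 0
  · -- everything is on the axis
    have hax : ∀ z ∈ B, z.2 = 0 := by
      intro z hz
      rcases Bm z hz with rfl | h
      · exact hs0
      · exact hB0 z h
    have hU : ∀ u v, Uncov R B u v := by
      intro u v z _ _ _ γ hγ γ' hγ' _ _
      exact axis _ _ (hax γ hγ) (hax γ' hγ')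
    refine w0_tri (o := c) (a := a) (b := b) hNT hBR
      ⟨cR, aR, hne_ac.symm, fun z hz h => (nax z (hax z hz)).2.1 h.swap12⟩ (hU _ _)
      ⟨cR, bR, hne_bc.symm, fun z hz h => (nax z (hax z hz)).2.2 h.swap12⟩ (hU _ _)
      ⟨bR, aR, hne_ab.symm, fun z hz h => (nax z (hax z hz)).1 h.swap12⟩ (fun h => habc h.rot)
  have hsa : s ≠ a := fun h => hsR (h ▸ aR)
  have hsb : s ≠ b := fun h => hsR (h ▸ bR)
  have hsc : s ≠ c := fun h => hsR (h ▸ cR)
  have hsd : s ≠ (N, 0) := fun h => hsR (h ▸ dR)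
  -- a near red stone is not on a far line
  have nfar : ∀ u v : Pt, |u.1| ≤ M → |u.2| ≤ M → |v.1| ≤ M → |v.2| ≤ M → u.2 ≠ 0 →
      u.2 ≠ v.2 → ¬ Col u (N, 0) v := by
    intro u v hu1 hu2 hv1 hv2 hu0 huv h
    unfold Col at h
    simp only at h
    have g1 := Int.one_le_abs (sub_ne_zero.mpr huv.symm)
    have h3 : |N - u.1| * |v.2 - u.2| = |u.2| * |v.1 - u.1| := by
      rw [← abs_mul, h, abs_mul, zero_sub, abs_neg]
    have h4 : |N - u.1| ≤ |N - u.1| * |v.2 - u.2| := le_mul_of_one_le_right (abs_nonneg _) g1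
    have h5 := le_abs_self (N - u.1)
    have h6 := le_abs_self u.1
    have h7 := abs_sub v.1 u.1
    have h8 : |u.2| * |v.1 - u.1| ≤ M * (2 * M) := mul_le_mul hu2 (by linarith) (abs_nonneg _)
      (by linarith)
    nlinarith
  have ma1 : |a.1| ≤ M := by linarith
  have ma2 : |a.2| ≤ M := by linarith
  have mb1 : |b.1| ≤ M := by linarith
  have mb2 : |b.2| ≤ M := by linarith
  have mc1 : |c.1| ≤ M := by linarith
  have mc2 : |c.2| ≤ M := by linarith
  by_cases hscd : Col c (N, 0) s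
  · -- `s` on `c d`: the near triangle
    obtain ⟨k, hk2⟩ : ∃ k : ℤ, s.2 - c.2 = c.2 * k := by
      have h1 : c.2 ∣ (N - c.1) * (s.2 - c.2) := by
        unfold Col at hscd
        simp only at hscd
        exact ⟨-(s.1 - c.1), by linear_combination hscd⟩
      exact hco.symm.dvd_of_dvd_mul_left h1
    have hk1 : s.1 - c.1 = -k * (N - c.1) := by
      unfold Col at hscd
      simp only at hscd
      apply mul_left_cancel₀ hc
      linear_combination hscd - (N - c.1) * hk2
    have hk0 : k ≠ 0 := by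
      rintro rfl
      exact hsc (Prod.ext (by linarith) (by linarith))
    have gk := Int.one_le_abs hk0
    have hsl : ∀ t : ℤ, |t| ≤ M → N * |s.2| ≤ 4 * M ^ 2 * |s.1 - t| := by
      intro t ht
      have e1 : |s.2| ≤ 2 * M * |k| := by
        have : s.2 = c.2 + c.2 * k := by linarith
        rw [this]
        have h1 := abs_add_le c.2 (c.2 * k)
        rw [abs_mul] at h1
        have h2 : |c.2| * |k| ≤ M * |k| := mul_le_mul_of_nonneg_right mc2 (abs_nonneg _)
        have h3 : M ≤ M * |k| := le_mul_of_one_le_right (by linarith) gk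
        linarith
      have e2 : N * |k| ≤ 2 * |s.1 - t| := by
        have h1 : s.1 - t = -k * (N - c.1) - (t - c.1) := by linarith
        have h2 := abs_sub_abs_le_abs_sub (-k * (N - c.1)) (t - c.1)
        rw [← h1, abs_mul, abs_neg] at h2
        have h3 := abs_sub t c.1
        have h4 := le_abs_self (N - c.1)
        have h5 := le_abs_self c.1
        have h6 : |k| * (N - M) ≤ |k| * |N - c.1| :=
          mul_le_mul_of_nonneg_left (by linarith) (by linarith)
        have h7 : M ≤ M * |k| := le_mul_of_one_le_right (by linarith) gk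
        have h8 : |k| * (200 * M ^ 5) ≤ |k| * N := mul_le_mul_of_nonneg_left hN (by linarith)
        have h9 : |k| * M ≤ |k| * M ^ 5 := mul_le_mul_of_nonneg_left (by linarith) (by linarith)
        nlinarith
      have e3 : N * |s.2| ≤ N * (2 * M * |k|) := mul_le_mul_of_nonneg_left e1 (by linarith)
      have e4 : N * (2 * M * |k|) = 2 * M * (N * |k|) := by ring
      have e5 : 2 * M * (N * |k|) ≤ 2 * M * (2 * |s.1 - t|) :=
        mul_le_mul_of_nonneg_left e2 (by linarith)
      have e6 : M * |s.1 - t| ≤ M ^ 2 * |s.1 - t| :=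
        mul_le_mul_of_nonneg_right p2 (abs_nonneg _)
      linarith
    have gs := Int.one_le_abs hs0
    have nsab : ¬ Col a b s := by
      intro h
      unfold Col at h
      by_cases h2 : a.2 = b.2
      · have h3 : (b.1 - a.1) * (s.2 - a.2) = 0 := by rw [h, h2]; ring
        rcases mul_eq_zero.mp h3 with h4 | h4
        · exact hne_ab (Prod.ext (by linarith) h2)
        · have h5 : c.2 ∣ a.2 := ⟨1 + k, by linarith⟩
          have := Int.le_of_dvd (abs_pos.mpr ha) ((abs_dvd_abs _ _).mpr h5)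
          have := hab' h2
          linarith
      · have g1 := Int.one_le_abs (sub_ne_zero.mpr (Ne.symm h2))
        have h3 : |b.2 - a.2| * |s.1 - a.1| = |b.1 - a.1| * |s.2 - a.2| := by
          rw [← abs_mul, ← abs_mul, h]
        have h4 : |s.1 - a.1| ≤ |b.2 - a.2| * |s.1 - a.1| :=
          le_mul_of_one_le_left (abs_nonneg _) g1
        have h5 := abs_sub b.1 a.1
        have h6 := abs_sub s.2 a.2
        have h7 : |b.1 - a.1| * |s.2 - a.2| ≤ (2 * M) * (|s.2| + M) :=
          mul_le_mul (by linarith) (by linarith) (abs_nonneg _) (by linarith)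
        have h8 := hsl a.1 ma1
        have h9 : 4 * M ^ 2 * |s.1 - a.1| ≤ 4 * M ^ 2 * ((2 * M) * (|s.2| + M)) :=
          mul_le_mul_of_nonneg_left (by linarith) (by positivity)
        have h10 : M ≤ M * |s.2| := le_mul_of_one_le_right (by linarith) gs
        have h11 : 4 * M ^ 2 * ((2 * M) * (|s.2| + M)) ≤
            4 * M ^ 2 * ((2 * M) * (|s.2| + M * |s.2|)) := by
          apply mul_le_mul_of_nonneg_left _ (by positivity)
          apply mul_le_mul_of_nonneg_left _ (by positivity)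
          linarith
        have h12 : N * |s.2| ≤ (8 * M ^ 3 + 8 * M ^ 4) * |s.2| := by
          calc N * |s.2| ≤ _ := h8
            _ ≤ _ := h9
            _ ≤ _ := h11
            _ = _ := by ring
        have h13 : N ≤ 8 * M ^ 3 + 8 * M ^ 4 := le_of_mul_le_mul_right h12 (by linarith)
        linarith
    have hunc : ∀ u v : Pt, |u.1| ≤ M → |u.2| ≤ M → |v.1| ≤ M → |v.2| ≤ M → u.2 ≠ v.2 →
        (∀ t : ℤ, ¬ Col u v (t, 0)) → Uncov R B u v := by
      intro u v hu1 hu2 hv1 hv2 huv hno z hz hzR _ γ hγ γ' hγ' hne hcz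
      have key : ∀ β ∈ B0, Col β s z → False := by
        intro β hβ hc'
        have h0 := hB0 β hβ
        have hbM := hBM β hβ
        apply hno β.1
        unfold Col at hz hc' ⊢
        simp only
        refine bk_noab (z1 := z.1) (z2 := z.2) hM hu1 hu2 hv1 hv2 hbM hbM (by linarith) huv hs0
          (hsl β.1 hbM) hz ?_
        rw [h0] at hc'
        exact hc'
      rcases Bm γ hγ with rfl | h1
      · rcases Bm γ' hγ' with rfl | h1'
        · exact absurd rfl hne
        · exact (key γ' h1' hcz.swap12).elim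
      · rcases Bm γ' hγ' with rfl | h1'
        · exact (key γ h1 hcz).elim
        · exact axis _ _ (hB0 γ h1) (hB0 γ' h1')
    have nca : ¬ Col c a s := by
      intro h
      have h1 := Col.trans hsc.symm (z := a) (w := (N, 0)) h.swap23 hscd.swap23
      exact nfar c a mc1 mc2 ma1 ma2 hc hac.symm h1.swap23
    have ncb : ¬ Col c b s := by
      intro h
      have h1 := Col.trans hsc.symm (z := b) (w := (N, 0)) h.swap23 hscd.swap23
      exact nfar c b mc1 mc2 mb1 mb2 hc hbc.symm h1.swap23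
    refine w0_tri (o := c) (a := a) (b := b) hNT hBR
      ⟨cR, aR, hne_ac.symm, ?_⟩
      (hunc c a mc1 mc2 ma1 ma2 hac.symm (fun t h => nac t h.swap12))
      ⟨cR, bR, hne_bc.symm, ?_⟩
      (hunc c b mc1 mc2 mb1 mb2 hbc.symm (fun t h => nbc t h.swap12))
      ⟨bR, aR, hne_ab.symm, ?_⟩ (fun h => habc h.rot)
    · intro z hz
      rcases Bm z hz with rfl | h
      · exact nca
      · exact fun h' => (nax z (hB0 z h)).2.1 h'.swap12
    · intro z hz
      rcases Bm z hz with rfl | h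
      · exact ncb
      · exact fun h' => (nax z (hB0 z h)).2.2 h'.swap12
    · intro z hz
      rcases Bm z hz with rfl | h
      · exact fun h' => nsab h'.swap12
      · exact fun h' => (nax z (hB0 z h)).1 h'.swap12
  by_cases h1 : ¬ Col a c s ∧ ¬ Col a (N, 0) s
  · exact BK.win (X := a) (Y := c) (s := s) (N := N) (M := M)
      ⟨hM, ma1, ma2, mc1, mc2, ha, hc, hac, hN, aR, cR, dR, hNT, hBR,
        fun z hz => (Bm z hz).imp_right (fun h => ⟨hB0 z h, hBM z h, (nax z (hB0 z h)).2.1⟩),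
        hs0, h1.1, h1.2, hscd⟩
  by_cases h2 : ¬ Col b c s ∧ ¬ Col b (N, 0) s
  · exact BK.win (X := b) (Y := c) (s := s) (N := N) (M := M)
      ⟨hM, mb1, mb2, mc1, mc2, hb, hc, hbc, hN, bR, cR, dR, hNT, hBR,
        fun z hz => (Bm z hz).imp_right (fun h => ⟨hB0 z h, hBM z h, (nax z (hB0 z h)).2.2⟩),
        hs0, h2.1, h2.2, hscd⟩
  exfalso
  have h1' : Col a c s ∨ Col a (N, 0) s := by
    by_contra h
    push Not at h
    exact h1 h
  have h2' : Col b c s ∨ Col b (N, 0) s := by
    by_contra h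
    push Not at h
    exact h2 h
  rcases h1' with h1 | h1 <;> rcases h2' with h2 | h2
  · -- `s = c`
    have h3 := Col.trans hsc.symm (z := a) (w := b) h1.rot h2.rot
    exact habc h3.rot
  · exact bk_far hM ma1 ma2 mb1 mb2 mc1 hac hb hN h1 h2 hsb
  · exact bk_far hM mb1 mb2 ma1 ma2 mc1 hbc ha hN h2 h1 hsa
  · have h3 := Col.trans hsd.symm (z := a) (w := b) h1.rot h2.rot
    exact nab N h3.rot

end Pool.Agent.K4L
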