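import Pool.Agent.K4L.IIGG
import Pool.Agent.K4L.IIGD

/-!
# The block
-/

namespace Pool.Agent.K4L

/-- Red blocks the axis (normal form) -/
theorem blk_win {a b c : Pt} {B0 : Finset Pt}
    (ha : a.2 ≠ 0) (hb : b.2 ≠ 0) (hc : c.2 ≠ 0) (hac : a.2 ≠ c.2) (hbc : b.2 ≠ c.2)
    (hab' : a.2 = b.2 → |a.2| < |c.2|) (habc : ¬ Col a b c)
    (hB0 : ∀ z ∈ B0, z.2 = 0)
    (nab : ∀ t : ℤ, ¬ Col a b (t, 0)) (nac : ∀ t : ℤ, ¬ Col a c (t, 0))
    (nbc : ∀ t : ℤ, ¬ Col b c (t, 0)) : Win {a, b, c} B0 := by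
  classical
  obtain ⟨N0, hN0⟩ := blk_norm ha hb hc hac hbc hab' habc hB0 nab nac nbc
  obtain ⟨T, hT⟩ : ∃ T : ℤ, T = |N0| + |c.1| + ∑ z ∈ B0, |z.1| := ⟨_, rfl⟩
  have n0 : 0 ≤ ∑ z ∈ B0, |z.1| := Finset.sum_nonneg (fun _ _ => abs_nonneg _)
  have n1 := abs_nonneg N0
  have n2 := abs_nonneg c.1
  have n3 := le_abs_self N0
  have n4 := neg_abs_le c.1
  have hT0 : 0 ≤ T := by rw [hT]; positivity
  have hc2 : 1 ≤ c.2 * c.2 := by
    have := Int.one_le_abs hc
    nlinarith [abs_mul_abs_self c.2]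
  have hTc : T ≤ c.2 * c.2 * T := le_mul_of_one_le_left hT0 hc2
  obtain ⟨N, hN⟩ : ∃ N : ℤ, N = c.1 + 1 + c.2 * (c.2 * (T + |c.1|)) := ⟨_, rfl⟩
  have hN1 : T < N := by
    have : T + |c.1| ≤ c.2 * c.2 * (T + |c.1|) := le_mul_of_one_le_left (by positivity) hc2
    rw [hN]
    nlinarith
  have hNB : ((N, 0) : Pt) ∉ B0 := by
    intro h
    have h1 : |N| ≤ ∑ z ∈ B0, |z.1| :=
      Finset.single_le_sum (f := fun z : Pt => |z.1|) (fun _ _ => abs_nonneg _) h
    have := le_abs_self N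
    linarith
  have hNR : ((N, 0) : Pt) ∉ ({a, b, c} : Finset Pt) := by
    intro h
    simp only [Finset.mem_insert, Finset.mem_singleton] at h
    rcases h with h | h | h
    · exact ha (by rw [← h])
    · exact hb (by rw [← h])
    · exact hc (by rw [← h])
  refine win_quiet (x := (N, 0)) hNR hNB ?_ ?_
  · intro u hu v hv w hw huv huw hvw hcol
    refine ⟨(N, 0), Finset.mem_insert_self _ _, ?_⟩
    unfold Col
    simp only
    rw [hB0 u hu, hB0 v hv]; ring
  · intro s hs hsB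
    refine hN0 N (by linarith) ?_ s hs hsB
    rw [hN]
    exact ⟨1, -(c.2 * (T + |c.1|)), by ring⟩

/-- Red blocks the line `p q` -/
theorem blk_line {a b c p q : Pt} {B0 : Finset Pt} (hpq : p ≠ q) (ha : ¬ Col p q a)
    (hb : ¬ Col p q b) (hc : ¬ Col p q c) (hac : ¬ Par a c p q) (hbc : ¬ Par b c p q)
    (hpar : Par a b p q → |(q.1 - p.1) * (a.2 - p.2) - (q.2 - p.2) * (a.1 - p.1)| <
      |(q.1 - p.1) * (c.2 - p.2) - (q.2 - p.2) * (c.1 - p.1)|)
    (habc : ¬ Col a b c) (hB0 : ∀ z ∈ B0, Col p q z)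
    (nab : ∀ z, Col p q z → ¬ Col a b z) (nac : ∀ z, Col p q z → ¬ Col a c z)
    (nbc : ∀ z, Col p q z → ¬ Col b c z) : Win {a, b, c} B0 := by
  classical
  have hv : q - p ≠ 0 := sub_ne_zero.mpr hpq.symm
  obtain ⟨u, hu, g, hg, hgu⟩ := exists_prim hv
  have g1 : q.1 - p.1 = g * u.1 := by
    have := congrArg Prod.fst hgu
    simpa using this
  have g2 : q.2 - p.2 = g * u.2 := by
    have := congrArg Prod.snd hgu
    simpa using this
  obtain ⟨x, y, hxy⟩ := hu
  -- `v = (-y, x)`, `det (u, v) = 1`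
  have hdet : u.1 * x - (-y) * u.2 = 1 := by linear_combination hxy
  obtain ⟨f, hf⟩ : ∃ f : Pt ≃ Pt, f = (linE u.1 (-y) u.2 x 1 (by norm_num) hdet).trans
    (transE p) := ⟨_, rfl⟩
  have hfa : ∀ z : Pt, f z = (u.1 * z.1 + (-y) * z.2 + p.1, u.2 * z.1 + x * z.2 + p.2) := by
    intro z
    rw [hf]; rfl
  have hfc : ∀ z w t : Pt, Col (f z) (f w) (f t) ↔ Col z w t := by
    intro z w t
    rw [hf]
    simp only [Equiv.trans_apply]
    rw [col_transE, col_linE]
  -- coordinates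
  have hinv : ∀ z : Pt, f (x * (z.1 - p.1) + y * (z.2 - p.2), u.1 * (z.2 - p.2) - u.2 *
      (z.1 - p.1)) = z := by
    intro z
    rw [hfa]
    refine Prod.ext ?_ ?_
    · simp only
      linear_combination (z.1 - p.1) * hxy
    · simp only
      linear_combination (z.2 - p.2) * hxy
  have hcol : ∀ z : Pt, Col p q z ↔ u.1 * (z.2 - p.2) - u.2 * (z.1 - p.1) = 0 := by
    intro z
    unfold Col
    rw [g1, g2]
    constructor
    · intro h
      apply mul_left_cancel₀ hg
      linear_combination h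
    · intro h
      linear_combination g * h
  obtain ⟨K, hK⟩ : ∃ K : Pt → Pt, K = fun z => (x * (z.1 - p.1) + y * (z.2 - p.2),
    u.1 * (z.2 - p.2) - u.2 * (z.1 - p.1)) := ⟨_, rfl⟩
  have hfK : ∀ z, f (K z) = z := by
    intro z
    rw [hK]
    exact hinv z
  have hK2 : ∀ z, (K z).2 = u.1 * (z.2 - p.2) - u.2 * (z.1 - p.1) := by
    intro z; rw [hK]
  have hcolK : ∀ z, Col p q z ↔ (K z).2 = 0 := by
    intro z; rw [hcol, hK2]
  have hfax : ∀ t : ℤ, Col p q (f (t, 0)) := by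
    intro t
    rw [hcol, hfa]
    simp only
    ring
  have hne : ∀ z w : Pt, ¬ Par z w p q → (K z).2 ≠ (K w).2 := by
    intro z w h h'
    apply h
    unfold Par
    rw [g1, g2]
    rw [hK2, hK2] at h'
    linear_combination g * h'
  have hcolK3 : ∀ z w t, Col (K z) (K w) (K t) ↔ Col z w t := by
    intro z w t
    rw [← hfc, hfK, hfK, hfK]
  have hn : ∀ z w : Pt, (∀ s, Col p q s → ¬ Col z w s) → ∀ t : ℤ, ¬ Col (K z) (K w) (t, 0) := by
    intro z w h t ht
    rw [← hfc, hfK, hfK] at ht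
    exact h _ (hfax t) ht
  have hw := blk_win (a := K a) (b := K b) (c := K c) (B0 := B0.image K)
    (fun h => ha ((hcolK a).mpr h)) (fun h => hb ((hcolK b).mpr h))
    (fun h => hc ((hcolK c).mpr h)) (hne a c hac) (hne b c hbc) ?_
    (fun h => habc ((hcolK3 _ _ _).mp h)) ?_ (hn a b nab) (hn a c nac) (hn b c nbc)
  · have := hw.map f hfc
    rw [Finset.image_image] at this
    simp only [Finset.image_insert, Finset.image_singleton] at this
    rw [hfK, hfK, hfK] at this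
    have e : B0.image (f ∘ K) = B0 := by
      have : (f ∘ K) = id := by
        funext z
        exact hfK z
      rw [this, Finset.image_id]
    rw [e] at this
    exact this
  · intro h
    have hp : Par a b p q := by
      by_contra hcon
      exact hne a b hcon h
    have h1 := hpar hp
    have e : ∀ z : Pt, (q.1 - p.1) * (z.2 - p.2) - (q.2 - p.2) * (z.1 - p.1) = g * (K z).2 := by
      intro z
      rw [g1, g2, hK2]; ring
    rw [e, e, abs_mul, abs_mul] at h1
    exact lt_of_mul_lt_mul_left h1 (abs_nonneg _)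
  · intro z hz
    obtain ⟨w, hw, rfl⟩ := Finset.mem_image.mp hz
    exact (hcolK w).mp (hB0 w hw)

/-- `r` on the line `p q`, which contains neither `a` nor `b` -/
theorem ig_blk {p q r : Pt} {X Y : ℤ} (g : GC p q X Y) (hpq : p ≠ q)
    (hm : ∀ m : ℤ, Col p q (0, m) → m = 0 ∨ m = 1)
    (ha : ¬ Col p q (0, 0)) (hb : ¬ Col p q (0, 1)) (hr : Col p q r) :
    Win {(0, 0), (0, 1), (X, Y)} {p, q, r} := by
  classical
  have hX := g.hX
  have hcc : ¬ Col p q (X, Y) := by
    intro h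
    have := g.qa 1 (by rw [one_mul, one_mul]; exact h)
    exact one_ne_zero this
  refine blk_line hpq ha hb hcc g.qpa g.qpb ?_ g.abc ?_ ?_ ?_ ?_
  · intro h
    unfold Par at h
    simp only at h
    have h1 : q.1 - p.1 = 0 := by linarith
    have h2 : q.2 - p.2 ≠ 0 := by
      intro h2
      exact hpq (Prod.ext (by linarith) (by linarith))
    simp only
    have e1 : (q.1 - p.1) * (0 - p.2) - (q.2 - p.2) * (0 - p.1) = (q.2 - p.2) * p.1 := by
      rw [h1]; ring
    have e2 : (q.1 - p.1) * (Y - p.2) - (q.2 - p.2) * (X - p.1) = -((q.2 - p.2) * (X - p.1)) := by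
      rw [h1]; ring
    rw [e1, e2, abs_neg, abs_mul, abs_mul]
    apply mul_lt_mul_of_pos_left _ (abs_pos.mpr h2)
    have h3 := g.big.1
    have h4 := abs_sub_abs_le_abs_sub X p.1
    linarith
  · intro z hz
    simp only [Finset.mem_insert, Finset.mem_singleton] at hz
    rcases hz with rfl | rfl | rfl
    · exact Col.refl_left _ _
    · exact Col.refl_right _ _
    · exact hr
  · intro z hz h
    rw [ab_pt h] at hz
    rcases hm _ hz with h' | h'
    · rw [h'] at hz; exact ha hz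
    · rw [h'] at hz; exact hb hz
  · intro z hz h
    obtain ⟨k, rfl⟩ := ca_pt g.ca h
    have := g.qa k hz
    rw [this, zero_mul, zero_mul] at hz
    exact ha hz
  · intro z hz h
    obtain ⟨k, rfl⟩ := cb_pt g.cb h
    have := g.qb k hz
    rw [this, zero_mul, zero_mul, add_zero] at hz
    exact hb hz

end Pool.Agent.K4L
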