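import Pool.Agent.K4L.StarWin

/-!
# LB3: a red triangle `o, a, b` with `L = o a` uncovered, `M = o b` hit by at most one line
-/

namespace Pool.Agent.K4L

/-- all pairs are harmless for `b e` if `t` is much nearer or much farther than `e` -/
theorem be_good {R B : Finset Pt} {o b uL : Pt} {n E T : ℤ} (hn : 1 ≤ n)
    (near : ∀ v ∈ R ∪ B, ∀ w ∈ R ∪ B, Nv n (v - w)) (nL : Nv n uL) (oR : o ∈ R) (bR : b ∈ R)
    (h0 : dt uL (o - b) ≠ 0) (Lal : ∀ β ∈ B, dt uL (β - o) ≠ 0)
    (hpar : ∀ β ∈ B, ∀ τ ∈ B, β ≠ τ → dt (τ - β) uL = 0 →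
      (∃ w ∈ R, Col β τ w) ∨ ∀ z, Col o b z → ¬ Col β τ z)
    (hE : 2 * n ^ 2 + 32 * n ^ 4 < |E|) (hdvd : dt uL (o - b) ∣ E)
    (hT : 32 * n ^ 4 * |T| < |E| ∨ 32 * n ^ 4 * |E| < |T|) :
    ∀ β ∈ insert (adv o uL T) B, ∀ τ ∈ insert (adv o uL T) B, β ≠ τ →
      Good (insert (adv o uL E) R) (adv o uL E) b β τ := by
  have beR : b ∈ insert (adv o uL E) R := Finset.mem_insert_of_mem bR
  have nearR : ∀ {v w : Pt}, (v ∈ R ∨ v ∈ B) → (w ∈ R ∨ w ∈ B) → Nv n (v - w) :=
    fun hv hw => near _ (Finset.mem_union.mpr hv) _ (Finset.mem_union.mpr hw)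
  have p4 : 1 ≤ n ^ 4 := one_le_pow₀ hn
  have p2 : 1 ≤ n ^ 2 := one_le_pow₀ hn
  have g1 : ∀ β ∈ B, ∀ τ ∈ B, β ≠ τ → Good (insert (adv o uL E) R) (adv o uL E) b β τ := by
    intro β hβ τ hτ hne
    refine near_good' beR (nearR (Or.inl oR) (Or.inl bR)) (nearR (Or.inl bR) (Or.inr hβ))
      (nearR (Or.inr hτ) (Or.inr hβ)) nL h0 hne (by linarith) ?_
    intro hp
    rcases hpar β hβ τ hτ hne hp with ⟨w, hw, hc⟩ | h
    · exact Or.inl ⟨w, Finset.mem_insert_of_mem hw, hc⟩
    · exact Or.inr ⟨hdvd, h⟩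
  have g2 : ∀ β ∈ B, Good (insert (adv o uL E) R) (adv o uL E) b β (adv o uL T) := by
    intro β hβ
    have hbL : dt uL (b - o) ≠ 0 := by
      intro h
      apply h0
      unfold dt at *
      simp only [Prod.fst_sub, Prod.snd_sub] at *
      linarith
    exact range_good hn beR (nearR (Or.inl bR) (Or.inl oR)) (nearR (Or.inr hβ) (Or.inl oR)) nL
      (Lal β hβ) hbL (by linarith) hT
  intro β hβ τ hτ hne
  rcases Finset.mem_insert.mp hβ with h | h <;> rcases Finset.mem_insert.mp hτ with h' | h'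
  · exact absurd (h.trans h'.symm) hne
  · rw [h]; exact (g2 τ h').symm
  · rw [h']; exact g2 β h
  · exact g1 β h τ h' hne

/-- the answer `t` is much farther than `e` -/
theorem far_win {R B : Finset Pt} {o a b p q Y uL uM um : Pt} {n E T : ℤ}
    (hn : 1 ≤ n) (near : ∀ v ∈ R ∪ insert Y B, ∀ w ∈ R ∪ insert Y B, Nv n (v - w))
    (nL : Nv n uL) (nM : Nv n uM) (nm : Nv n um) (cL : IsCoprime uL.1 uL.2)
    (cM : IsCoprime uM.1 uM.2)
    (L_iff : ∀ z, Col o a z ↔ dt uL (z - o) = 0) (M_iff : ∀ z, Col o b z ↔ dt uM (z - o) = 0)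
    (m_iff : ∀ z, Col p q z ↔ dt um (z - Y) = 0)
    (hLMd : dt uL uM ≠ 0) (hLmd : dt uL um ≠ 0)
    (hL : ALine R B o a) (hM : ALine R B o b) (hNl : ALine R B b a)
    (hpq : p ≠ q) (hYM : Col o b Y) (hYm : Col p q Y) (hYR : Y ∉ R)
    (hmR : ∀ z ∈ R, ¬ Col p q z)
    (hMU : ∀ z, Col o b z → z ∉ R → ∀ β ∈ B, ∀ β' ∈ B, β ≠ β' → Col β β' z →
      (∃ w ∈ R, Col β β' w) ∨ (Col p q β ∧ Col p q β'))
    (hLM : ¬ Col o a b) (hLm : ¬ Par o a p q) (hNm : ¬ Par b a p q)
    (hB : ∀ β ∈ B, β ∉ R)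
    (hparm : ∀ β ∈ B, ∀ β' ∈ B, β ≠ β' → Par p q β β' → (∃ w ∈ R, Col β β' w) ∨
      Col p q β)
    (hpar : ∀ β ∈ B, ∀ τ ∈ B, β ≠ τ → dt (τ - β) uL = 0 →
      (∃ w ∈ R, Col β τ w) ∨ ∀ z, Col o b z → ¬ Col β τ z)
    (hE : 32 * n ^ 4 + 2 * n ^ 2 < |E|) (hdvd : dt uL (o - b) ∣ E)
    (hT : 32 * n ^ 4 * |E| < |T|)
    (htR : adv o uL T ∉ insert (adv o uL E) R)
    (hNT : NoThreat (insert (adv o uL E) R) (insert (adv o uL T) B)) :
    Win (insert (adv o uL E) R) (insert (adv o uL T) B) := by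
  have huL : uL ≠ 0 := by rintro rfl; apply hLMd; unfold dt; simp
  have oR := hL.1
  have aR := hL.2.1
  have bR := hM.2.1
  have nearR : ∀ {v w : Pt}, (v ∈ R ∨ v ∈ B) → (w ∈ R ∨ w ∈ B) → Nv n (v - w) := by
    intro v w hv hw
    apply near
    · rcases hv with h | h
      · exact Finset.mem_union_left _ h
      · exact Finset.mem_union_right _ (Finset.mem_insert_of_mem h)
    · rcases hw with h | h
      · exact Finset.mem_union_left _ h
      · exact Finset.mem_union_right _ (Finset.mem_insert_of_mem h)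
  have nearY : ∀ {v : Pt}, (v ∈ R ∨ v ∈ B) → Nv n (v - Y) := by
    intro v hv
    apply near
    · rcases hv with h | h
      · exact Finset.mem_union_left _ h
      · exact Finset.mem_union_right _ (Finset.mem_insert_of_mem h)
    · exact Finset.mem_union_right _ (Finset.mem_insert_self _ _)
  have near0 : ∀ v ∈ R ∪ B, ∀ w ∈ R ∪ B, Nv n (v - w) := fun v hv w hw =>
    nearR (Finset.mem_union.mp hv) (Finset.mem_union.mp hw)
  have p4 : 1 ≤ n ^ 4 := one_le_pow₀ hn
  have p2 : 1 ≤ n ^ 2 := one_le_pow₀ hn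
  have pn : n ≤ n ^ 2 := le_self_pow₀ hn (by norm_num)
  have p24 : n ^ 2 ≤ n ^ 4 := pow_le_pow_right₀ hn (by norm_num)
  have hE2 : 2 * n ^ 2 < |E| := by linarith
  have hE1 : 1 ≤ |E| := by linarith
  have hEn : n < |E| := by linarith
  have hT2 : 2 * n ^ 2 + |E| * (2 * n ^ 2) < |T| := by
    have h1 : n ^ 2 * |E| ≤ n ^ 4 * |E| := mul_le_mul_of_nonneg_right p24 (abs_nonneg _)
    have h2 : n ^ 2 ≤ n ^ 2 * |E| := le_mul_of_one_le_right (by positivity) hE1
    have h3 : 0 < n ^ 4 * |E| := by positivity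
    linarith
  have hT8 : 8 * n ^ 4 < |T| ∧ 4 * n ^ 2 ≤ |T| ∧ n < |T| ∧ 2 * n ^ 2 < |T| := by
    have h3 : n ^ 4 ≤ n ^ 4 * |E| := le_mul_of_one_le_right (by positivity) hE1
    refine ⟨by linarith, by linarith, by linarith, by linarith⟩
  have hT0 : T ≠ 0 := by
    rintro rfl
    rw [abs_zero] at hT8
    linarith [hT8.1]
  obtain ⟨e, he⟩ : ∃ e, e = adv o uL E := ⟨_, rfl⟩
  obtain ⟨t, ht⟩ : ∃ t, t = adv o uL T := ⟨_, rfl⟩
  have hbM : dt uM (b - o) = 0 := (M_iff b).mp (Col.refl_right _ _)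
  have haL : dt uL (a - o) = 0 := (L_iff a).mp (Col.refl_right _ _)
  have hbL : dt uL (b - o) ≠ 0 := fun h => hLM ((L_iff b).mpr h)
  have h0 : dt uL (o - b) ≠ 0 := by
    intro h
    apply hbL
    unfold dt at *
    simp only [Prod.fst_sub, Prod.snd_sub] at *
    linarith
  have eL : Col o a e := by
    rw [L_iff, he]; unfold dt adv; simp only [Prod.fst_sub, Prod.snd_sub]; ring
  have tL : Col o a t := by
    rw [L_iff, ht]; unfold dt adv; simp only [Prod.fst_sub, Prod.snd_sub]; ring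
  have Lal : ∀ β ∈ B, dt uL (β - o) ≠ 0 := fun β hβ h => hL.2.2.2 β hβ ((L_iff β).mpr h)
  have Mal : ∀ β ∈ B, dt uM (β - o) ≠ 0 := fun β hβ h => hM.2.2.2 β hβ ((M_iff β).mpr h)
  have hgood := be_good hn near0 nL oR bR h0 Lal hpar (by linarith) hdvd (Or.inr hT)
  rw [← he, ← ht] at hgood htR hNT ⊢
  have hne : ∀ z, (z ∈ R ∨ z ∈ B) → e ≠ z := by
    intro z hz
    rw [he]
    exact adv_ne (nearR hz (Or.inl oR)) huL hEn
  have heY : e ≠ Y := by
    rw [he]
    exact adv_ne (near Y (Finset.mem_union_right _ (Finset.mem_insert_self _ _)) o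
      (Finset.mem_union_left _ oR)) huL hEn
  have hto : t ≠ o := fun h => htR (h ▸ Finset.mem_insert_of_mem oR)
  have hta : t ≠ a := fun h => htR (h ▸ Finset.mem_insert_of_mem aR)
  have hte : t ≠ e := fun h => htR (h ▸ Finset.mem_insert_self _ _)
  have heo : e ≠ o := hne o (Or.inl oR)
  have hea : e ≠ a := hne a (Or.inl aR)
  have hbe : b ≠ e := (hne b (Or.inl bR)).symm
  -- a point of `L` is on a line through `b` and a point of `L` only if they are equal
  have Lb : ∀ {z w : Pt}, Col o a z → Col o a w → z ≠ w → ¬ Col b z w := by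
    intro z w hz hw hne' hc
    apply hLM
    exact (Col.line_iff hL.ne hne' hz hw).mpr hc.rot
  have beR1 : b ∈ insert e R := Finset.mem_insert_of_mem bR
  have oR1 : o ∈ insert e R := Finset.mem_insert_of_mem oR
  have aR1 : a ∈ insert e R := Finset.mem_insert_of_mem aR
  have eR1 : e ∈ insert e R := Finset.mem_insert_self _ _
  have oL : Col o a o := Col.refl_left _ _
  have aL : Col o a a := Col.refl_right _ _
  -- the alive lines
  have be_al : ALine (insert e R) (insert t B) b e := by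
    refine ⟨beR1, eR1, hbe, ?_⟩
    intro z hz hc
    rcases Finset.mem_insert.mp hz with rfl | hz
    · exact Lb eL tL hte.symm hc
    · have hzb : z ≠ b := fun h => hB z hz (h ▸ bR)
      refine near_off (nearR (Or.inl oR) (Or.inl bR)) (nearR (Or.inr hz) (Or.inl bR)) h0 hzb hE2 ?_
      rw [← he]; exact hc.swap12
  have bo_al : ALine (insert e R) (insert t B) b o := by
    refine (hM.symm).insert (Finset.subset_insert _ _) ?_
    exact Lb oL tL hto.symm
  have ba_al : ALine (insert e R) (insert t B) b a := by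
    refine hNl.insert (Finset.subset_insert _ _) ?_
    exact Lb aL tL hta.symm
  have hmM : ¬ Par p q o b := by
    intro hP
    apply hmR o oR
    have h1 := hYM
    have h2 := hYm
    unfold Par at hP
    unfold Col at h1 h2 ⊢
    have hob := hM.ne
    rcases sub_ne_of_ne hob with h | h
    · apply mul_left_cancel₀ h
      linear_combination (b.1 - o.1) * h2 - (q.1 - p.1) * h1 - (Y.1 - o.1) * hP
    · apply mul_left_cancel₀ h
      linear_combination (b.2 - o.2) * h2 - (q.2 - p.2) * h1 - (Y.2 - o.2) * hP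
  have npar : ∀ {u v w : Pt}, u ≠ w → v ≠ w → ¬ Col w u v → ¬ Par w u w v := by
    intro u v w _ _ h hP
    apply h
    unfold Par at hP
    unfold Col
    linarith
  have hnb_o : ¬ Col b e o := Lb eL oL heo
  have hnb_a : ¬ Col b e a := Lb eL aL hea
  have hbo_a : ¬ Col b o a := Lb oL aL hL.ne
  -- parallels with far lines
  have far_par : ∀ v : Pt, Nv n v → v ≠ 0 → dt (e - b) v ≠ 0 := by
    intro v hv hv0 h
    have e1 : dt (e - b) v = dt (o - b) v + E * dt uL v := by
      rw [he]; unfold dt adv; simp only [Prod.fst_sub, Prod.snd_sub]; ring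
    rw [e1] at h
    by_cases h1 : dt uL v = 0
    · rw [h1, mul_zero, add_zero] at h
      apply h0
      have g1 : dt v uL = 0 := by rw [dt_swap, h1, neg_zero]
      have g2 : dt v (o - b) = 0 := by rw [dt_swap, h, neg_zero]
      exact dt_par hv0 g1 g2
    · exact lin_ne ((nearR (Or.inl oR) (Or.inl bR)).dt hv) h1 hE2 h
  have far_par_t : ∀ β ∈ B, dt (e - b) (t - β) ≠ 0 := by
    intro β hβ h
    have e1 : dt (e - b) (t - β) = (dt (o - b) (o - β) + E * dt uL (o - β)) +
        T * (-dt uL (o - b)) := by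
      rw [he, ht]; unfold dt adv; simp only [Prod.fst_sub, Prod.snd_sub]; ring
    rw [e1] at h
    refine lin_ne (K := 2 * n ^ 2 + |E| * (2 * n ^ 2)) ?_ (neg_ne_zero.mpr h0) hT2 h
    have a1 := abs_add_le (dt (o - b) (o - β)) (E * dt uL (o - β))
    rw [abs_mul] at a1
    have a2 := (nearR (Or.inl oR) (Or.inl bR)).dt (nearR (Or.inl oR) (Or.inr hβ))
    have a3 : |E| * |dt uL (o - β)| ≤ |E| * (2 * n ^ 2) :=
      mul_le_mul_of_nonneg_left (nL.dt (nearR (Or.inl oR) (Or.inr hβ))) (abs_nonneg _)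
    linarith
  have m_t : ∀ β ∈ B, dt um (t - β) ≠ 0 := by
    intro β hβ h
    have e1 : dt um (t - β) = dt um (o - β) + T * dt um uL := by
      rw [ht]; unfold dt adv; simp only [Prod.fst_sub, Prod.snd_sub]; ring
    rw [e1] at h
    refine lin_ne (nm.dt (nearR (Or.inl oR) (Or.inr hβ))) ?_ hT8.2.2.2 h
    rw [dt_swap]; exact neg_ne_zero.mpr hLmd
  have toPar : ∀ {u1 u2 v1 v2 : Pt}, Par u1 u2 v1 v2 → dt (u2 - u1) (v2 - v1) = 0 := by
    intro u1 u2 v1 v2 hP
    unfold Par at hP
    unfold dt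
    simp only [Prod.fst_sub, Prod.snd_sub]
    linarith
  have hum0 : um ≠ 0 := by rintro rfl; apply hLmd; unfold dt; simp
  have hmdir : dt um (q - p) = 0 := by
    have h1 := (m_iff p).mp (Col.refl_left _ _)
    have h2 := (m_iff q).mp (Col.refl_right _ _)
    unfold dt at *
    simp only [Prod.fst_sub, Prod.snd_sub] at *
    linarith
  have hqp0 : q - p ≠ 0 := sub_ne_zero.mpr hpq.symm
  have m_par : ∀ v : Pt, dt (q - p) v = 0 → dt um v = 0 := by
    intro v hv
    have g1 : dt (q - p) um = 0 := by rw [dt_swap, hmdir, neg_zero]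
    exact dt_par hqp0 g1 hv
  refine win_of_class hNT be_al (uncov_of_good hgood).symm
    (lemB3_e (o := b) (a := e) (b := o) (v0 := b) (r := a) (p := p) (q := q) (Y := Y) (x0 := o)
    (x1 := b) (x2 := a) (x := e) (xl := a) be_al bo_al ba_al ?_ hpq hYM.swap12 hYm ?_ ?_ ?_
    hnb_o ?_ ?_ ?_ hNm oR1 beR1 aR1 eR1 hM.ne.symm hL.ne.symm hNl.ne.symm ?_ ?_ ?_ ?_ ?_ aR1
    hnb_a hL.ne.symm ?_ ?_ ?_)
  · -- `M ∩ N`
    exact MNR_of_col beR1 (Col.refl_left _ _) (npar hM.ne hNl.ne.symm hbo_a)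
  · -- `Y ∉ R1`
    intro h
    rcases Finset.mem_insert.mp h with h | h
    · exact heY h.symm
    · exact hYR h
  · -- `m` without red stones
    intro z hz hc
    rcases Finset.mem_insert.mp hz with h | h
    · rw [h, m_iff] at hc
      have e1 : dt um (e - Y) = dt um (o - Y) + E * dt um uL := by
        rw [he]; unfold dt adv; simp only [Prod.fst_sub, Prod.snd_sub]; ring
      rw [e1] at hc
      refine lin_ne (nm.dt (nearY (Or.inl oR))) ?_ hE2 hc
      rw [dt_swap]; exact neg_ne_zero.mpr hLmd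
    · exact hmR z h hc
  · -- the lines which hit `M`
    have hitM : ∀ z, Col o b z → ∀ β ∈ B, ¬ Col t β z := by
      intro z hz β hβ hc
      obtain ⟨s, hs⟩ := exists_adv cM ((M_iff z).mp hz)
      have k0 := Lal β hβ
      have key : T * (dt uL (β - o) - s * dt uL uM) = s * dt uM (β - o) := by
        have h1 := col_dt.mp hc
        rw [ht, hs] at h1
        unfold dt adv at h1
        unfold dt
        simp only [Prod.fst_sub, Prod.snd_sub] at *
        linear_combination h1
      have hs0 : s ≠ 0 := by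
        rintro rfl
        rw [zero_mul, zero_mul, sub_zero] at key
        exact mul_ne_zero hT0 k0 key
      have hMβ := Mal β hβ
      have b1 : |dt uM (β - o)| ≤ 2 * n ^ 2 := nM.dt (nearR (Or.inr hβ) (Or.inl oR))
      have b2 : |dt uL (β - o)| ≤ 2 * n ^ 2 := nL.dt (nearR (Or.inr hβ) (Or.inl oR))
      have b3 : |T| * |dt uL (β - o) - s * dt uL uM| = |s| * |dt uM (β - o)| := by
        rw [← abs_mul, key, abs_mul]
      have hd0 : dt uL (β - o) - s * dt uL uM ≠ 0 := by
        intro h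
        rw [h, mul_zero] at key
        exact mul_ne_zero hs0 hMβ key.symm
      have b4 := Int.one_le_abs hd0
      have b5 := Int.one_le_abs hLMd
      have b6 : |s| * |dt uL uM| ≤ |dt uL (β - o)| + |dt uL (β - o) - s * dt uL uM| := by
        have h := abs_sub (dt uL (β - o)) (dt uL (β - o) - s * dt uL uM)
        rwa [sub_sub_cancel, abs_mul] at h
      have b7 : |s| ≤ |s| * |dt uL uM| := le_mul_of_one_le_right (abs_nonneg _) b5
      -- `4 n^2 |d| ≤ |T| |d| = |s| |h| ≤ 2 n^2 |s|`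
      have b8 : 2 * |dt uL (β - o) - s * dt uL uM| ≤ |s| := by
        have c1 : (4 * n ^ 2) * |dt uL (β - o) - s * dt uL uM| ≤
            |T| * |dt uL (β - o) - s * dt uL uM| :=
          mul_le_mul_of_nonneg_right hT8.2.1 (abs_nonneg _)
        have c2 : |s| * |dt uM (β - o)| ≤ |s| * (2 * n ^ 2) :=
          mul_le_mul_of_nonneg_left b1 (abs_nonneg _)
        have c3 : (2 * n ^ 2) * (2 * |dt uL (β - o) - s * dt uL uM|) ≤ (2 * n ^ 2) * |s| := by
          linarith
        exact le_of_mul_le_mul_left c3 (by linarith)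
      have b9 : |s| ≤ 4 * n ^ 2 := by linarith
      have b10 : |T| ≤ |T| * |dt uL (β - o) - s * dt uL uM| :=
        le_mul_of_one_le_right (abs_nonneg _) b4
      have b11 : |s| * |dt uM (β - o)| ≤ (4 * n ^ 2) * (2 * n ^ 2) :=
        mul_le_mul b9 b1 (abs_nonneg _) (by positivity)
      have b12 : (4 * n ^ 2) * (2 * n ^ 2) = 8 * n ^ 4 := by ring
      linarith [hT8.1]
    intro z hz hzR β hβ β' hβ' hne' hc
    have hz' : Col o b z := hz.swap12
    have hzR' : z ∉ R := fun h => hzR (Finset.mem_insert_of_mem h)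
    rcases Finset.mem_insert.mp hβ with h | h <;> rcases Finset.mem_insert.mp hβ' with h' | h'
    · exact absurd (h.trans h'.symm) hne'
    · rw [h] at hc; exact absurd hc (hitM z hz' β' h')
    · rw [h'] at hc; exact absurd hc.swap12 (hitM z hz' β h)
    · rcases hMU z hz' hzR' β h β' h' hne' hc with ⟨w, hw, hc'⟩ | h1
      · exact Or.inl ⟨w, Finset.mem_insert_of_mem hw, hc'⟩
      · exact Or.inr h1
  · exact npar hbe.symm hNl.ne.symm hnb_a
  · exact npar hM.ne hNl.ne.symm hbo_a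
  · -- `b e` is not parallel to `m`
    intro hP
    have h1 := toPar hP
    have h2 : dt um (e - b) = 0 := by
      apply m_par
      rw [dt_swap, h1, neg_zero]
    apply far_par um nm hum0
    rw [dt_swap, h2, neg_zero]
  · exact Or.inr ⟨hmM, Or.inr ⟨b, beR1, Col.refl_right _ _, Col.refl_left _ _, fun hP =>
      hnb_o (by
        unfold Par at hP
        unfold Col
        linarith)⟩⟩
  · refine Or.inr ⟨?_, Or.inr ⟨e, eR1, eL, Col.refl_right _ _, ?_⟩⟩
    · intro hP
      apply hLm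
      unfold Par at *
      linarith
    · intro hP
      have h1 := toPar hP
      have hao : a - o ≠ 0 := sub_ne_zero.mpr hL.ne.symm
      exact far_par (a - o) (nearR (Or.inl aR) (Or.inl oR)) hao h1
  · refine Or.inr ⟨?_, Or.inr ⟨b, beR1, Col.refl_left _ _, Col.refl_left _ _, ?_⟩⟩
    · intro hP
      apply hNm
      unfold Par at *
      linarith
    · exact npar hbe.symm hNl.ne.symm hnb_a
  · intro hc
    exact hnb_o hc.swap23
  · -- blue stones are not red
    intro β hβ hβR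
    rcases Finset.mem_insert.mp hβ with h | h
    · exact htR (h ▸ hβR)
    · rcases Finset.mem_insert.mp hβR with h' | h'
      · exact hne β (Or.inr h) h'.symm
      · exact hB β h h'
  · -- lines parallel to `b e`
    intro β hβ β' hβ' hne' hP
    exfalso
    have h1 := toPar hP
    have sw : ∀ {v w : Pt}, dt (e - b) (v - w) = 0 → dt (e - b) (w - v) = 0 := by
      intro v w h
      unfold dt at *
      simp only [Prod.fst_sub, Prod.snd_sub] at *
      linarith
    rcases Finset.mem_insert.mp hβ with h | h <;> rcases Finset.mem_insert.mp hβ' with h' | h'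
    · exact absurd (h.trans h'.symm) hne'
    · rw [h] at h1
      exact far_par_t β' h' (sw h1)
    · rw [h'] at h1
      exact far_par_t β h h1
    · exact far_par _ (nearR (Or.inr h') (Or.inr h)) (sub_ne_zero.mpr hne'.symm) h1
  · -- lines parallel to `M`
    intro β hβ β' hβ' hne' _
    rcases hgood β hβ β' hβ' hne' with h | ⟨_, h⟩
    · exact Or.inl h
    · exact Or.inr (fun z hz => h z hz.swap12)
  · -- lines parallel to `m`
    intro β hβ β' hβ' hne' hP
    have h1 := m_par _ (toPar hP)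
    have sw : ∀ {v w : Pt}, dt um (v - w) = 0 → dt um (w - v) = 0 := by
      intro v w h
      unfold dt at *
      simp only [Prod.fst_sub, Prod.snd_sub] at *
      linarith
    rcases Finset.mem_insert.mp hβ with h | h <;> rcases Finset.mem_insert.mp hβ' with h' | h'
    · exact absurd (h.trans h'.symm) hne'
    · rw [h] at h1
      exact absurd (sw h1) (m_t β' h')
    · rw [h'] at h1
      exact absurd h1 (m_t β h)
    · rcases hparm β h β' h' hne' hP with ⟨w, hw, hc⟩ | h2
      · exact Or.inl ⟨w, Finset.mem_insert_of_mem hw, hc⟩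
      · exact Or.inr h2

/-- LB3, core form: a red triangle `o, a, b`; `M = o b` is hit by at most the line `m = p q`; the
line `L = o a` is used for the first far stone -/
theorem lb3_e {R B : Finset Pt} {o a b p q Y : Pt}
    (hL : ALine R B o a) (hM : ALine R B o b) (hNl : ALine R B b a)
    (hpq : p ≠ q) (hYM : Col o b Y) (hYm : Col p q Y) (hYR : Y ∉ R)
    (hmR : ∀ z ∈ R, ¬ Col p q z)
    (hMU : ∀ z, Col o b z → z ∉ R → ∀ β ∈ B, ∀ β' ∈ B, β ≠ β' → Col β β' z →
      (∃ w ∈ R, Col β β' w) ∨ (Col p q β ∧ Col p q β'))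
    (hLM : ¬ Col o a b) (hLm : ¬ Par o a p q) (hNm : ¬ Par b a p q)
    (hB : ∀ β ∈ B, β ∉ R)
    (hparM : ∀ β ∈ B, ∀ β' ∈ B, β ≠ β' → Par o b β β' → (∃ w ∈ R, Col β β' w) ∨
      ∀ z, Col o a z → ¬ Col β β' z)
    (hparm : ∀ β ∈ B, ∀ β' ∈ B, β ≠ β' → Par p q β β' → (∃ w ∈ R, Col β β' w) ∨
      Col p q β) :
    ∃ (u : Pt) (E0 W Γ : ℤ), IsCoprime u.1 u.2 ∧ (∀ z, Col o a z ↔ dt u (z - o) = 0) ∧ W ≠ 0 ∧
      ∀ m : ℤ, Γ ≤ |E0 + W * m| → ∀ t, Col o a t →
      t ∉ insert (adv o u (E0 + W * m)) R → t ∉ B →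
      NoThreat (insert (adv o u (E0 + W * m)) R) (insert t B) →
      Win (insert (adv o u (E0 + W * m)) R) (insert t B) := by
  have oR := hL.1
  have aR := hL.2.1
  have bR := hM.2.1
  have hLN : ¬ Par o a b a := by
    intro hP
    apply hLM
    unfold Par at hP
    unfold Col
    linarith
  have hMN : ¬ Par o b b a := by
    intro hP
    apply hLM
    unfold Par at hP
    unfold Col
    linarith
  have hmM : ¬ Par p q o b := by
    intro hP
    apply hmR o oR
    have h1 := hYM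
    have h2 := hYm
    unfold Par at hP
    unfold Col at h1 h2 ⊢
    rcases sub_ne_of_ne hM.ne with h | h
    · apply mul_left_cancel₀ h
      linear_combination (b.1 - o.1) * h2 - (q.1 - p.1) * h1 - (Y.1 - o.1) * hP
    · apply mul_left_cancel₀ h
      linear_combination (b.2 - o.2) * h2 - (q.2 - p.2) * h1 - (Y.2 - o.2) * hP
  obtain ⟨uL, uM, uN, um, kY, n, hD, c, E0, W, Γ, hW, hdvd, h⟩ :=
    lemB3_core (o := o) (a := a) (b := b) (v0 := b) (r := a) (p := p) (q := q) (Y := Y)
      (x0 := o) (x1 := a) (x2 := b) (x := a) hL hM hNl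
      (MNR_of_col bR (Col.refl_right _ _) hMN) hpq hYM hYm hYR hmR hMU hLM hLN hMN hLm hNm
      oR aR bR aR hL.ne.symm hM.ne.symm hNl.ne
      (Or.inl ⟨Col.refl_left _ _, Col.refl_right _ _⟩)
      (Or.inr ⟨hmM, Or.inr ⟨o, oR, Col.refl_left _ _, Col.refl_left _ _, fun hP => hLM (by
        unfold Par at hP
        unfold Col
        linarith)⟩⟩)
      (Or.inr ⟨fun hP => hNm (by
        unfold Par at *
        linarith), Or.inr ⟨a, aR, Col.refl_left _ _, Col.refl_right _ _, fun hP => hLM (by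
        unfold Par at hP
        unfold Col
        linarith)⟩⟩)
      (fun hc => hLM hc.swap23) hB hparM hparm
  refine ⟨uL, E0, W, max Γ (1000 * n ^ 10), hD.cL, hD.L_iff, hW, ?_⟩
  intro m hm t htL htR htB hNT
  obtain ⟨hsize, h'⟩ := h m (le_trans (le_max_left _ _) hm)
  have hbig : 1000 * n ^ 10 ≤ |E0 + W * m| := le_trans (le_max_right _ _) hm
  obtain ⟨T, rfl⟩ := exists_adv hD.cL ((hD.L_iff t).mp htL)
  have huL : uL ≠ 0 := c.uL0
  have hbL : dt uL (b - o) ≠ 0 := fun h => hLM ((hD.L_iff b).mpr h)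
  have h0 : dt uL (o - b) ≠ 0 := by
    intro h
    apply hbL
    unfold dt at *
    simp only [Prod.fst_sub, Prod.snd_sub] at *
    linarith
  have hd0 := hdvd m b bR hbL
  have hpar : ∀ β ∈ B, ∀ τ ∈ B, β ≠ τ → dt (τ - β) uL = 0 →
      (∃ w ∈ R, Col β τ w) ∨ ∀ z, Col o b z → ¬ Col β τ z := by
    intro β hβ τ hτ hne hp
    by_cases hd : ∃ w ∈ R, Col β τ w
    · exact Or.inl hd
    · right
      intro z hz hc
      have hzR : z ∉ R := fun h => hd ⟨z, h, hc⟩
      rcases hMU z hz hzR β hβ τ hτ hne hc with h | ⟨h1, h2⟩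
      · exact hd h
      · apply hLm
        have haL := (hD.L_iff a).mp (Col.refl_right _ _)
        have hτβ : τ - β ≠ 0 := sub_ne_zero.mpr hne.symm
        have e1 : dt (τ - β) (a - o) = 0 := by
          have g1 : dt uL (τ - β) = 0 := by rw [dt_swap, hp, neg_zero]
          exact dt_par huL g1 haL
        have e2 : dt (τ - β) (q - p) = 0 := by
          have g1 := col_dt.mp h1
          have g2 := col_dt.mp h2
          unfold dt at *
          simp only [Prod.fst_sub, Prod.snd_sub] at *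
          linarith
        have e3 := dt_par hτβ e1 e2
        unfold Par
        unfold dt at e3
        simp only [Prod.fst_sub, Prod.snd_sub] at e3
        linarith
  rcases h' T htR htB hNT with (hA | hC) | hw
  · -- `t` is near
    obtain ⟨α, hα⟩ := exists_adv hD.cL ((hD.L_iff a).mp (Col.refl_right _ _))
    have hα0 : α ≠ 0 := by
      rintro rfl
      apply hL.ne
      rw [hα]; unfold adv; simp
    have near0 : ∀ v ∈ R ∪ B, ∀ w ∈ R ∪ B, Nv n (v - w) := by
      intro v hv w hw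
      apply c.near
      · rcases Finset.mem_union.mp hv with h | h
        · exact Finset.mem_union_left _ h
        · exact Finset.mem_union_right _ (Finset.mem_insert_of_mem h)
      · rcases Finset.mem_union.mp hw with h | h
        · exact Finset.mem_union_left _ h
        · exact Finset.mem_union_right _ (Finset.mem_insert_of_mem h)
    refine star_win (a := a) c.hn near0 c.nL hB oR aR bR hα hα0 h0 c.Lal ?_ ?_ hpar hbig hd0 hA
      htR hNT
    · intro β hβ h
      apply hM.2.2.2 β hβ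
      have hc : Col b β o := col_dt.mpr h
      exact hc.swap12.swap23.swap12.swap23.swap12.swap23 |> fun h => by
        unfold Col at *
        linarith
    · intro β hβ h
      apply hNl.2.2.2 β hβ
      have hc : Col b β a := col_dt.mpr h
      exact hc.swap23
  · -- `t` is far
    exact far_win (a := a) c.hn c.near c.nL c.nM c.nm hD.cL hD.cM hD.L_iff hD.M_iff hD.m_iff
      hD.hLM hD.hLm hL hM hNl hpq hYM hYm hYR hmR hMU hLM hLm hNm hB hparm hpar hsize hd0 hC htR
      hNT
  · exact hw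

/-- LB3: a red triangle `o, a, b`, alive sides, `L = o a` uncovered, `M = o b` hit by at most the
line `m = p q`, no other alive line parallel to `m` -/
theorem lb3 {R B : Finset Pt} {o a b p q Y : Pt}
    (hN : NoThreat R B) (hB : ∀ β ∈ B, β ∉ R)
    (hL : ALine R B o a) (hLU : Uncov R B o a) (hM : ALine R B o b) (hNl : ALine R B b a)
    (hpq : p ≠ q) (hYM : Col o b Y) (hYm : Col p q Y) (hYR : Y ∉ R)
    (hmR : ∀ z ∈ R, ¬ Col p q z)
    (hMU : ∀ z, Col o b z → z ∉ R → ∀ β ∈ B, ∀ β' ∈ B, β ≠ β' → Col β β' z →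
      (∃ w ∈ R, Col β β' w) ∨ (Col p q β ∧ Col p q β'))
    (hLM : ¬ Col o a b) (hLm : ¬ Par o a p q) (hNm : ¬ Par b a p q)
    (hparm : ∀ β ∈ B, ∀ β' ∈ B, β ≠ β' → Par p q β β' → (∃ w ∈ R, Col β β' w) ∨
      Col p q β) : Win R B := by
  refine win_of_class hN hL hLU (lb3_e hL hM hNl hpq hYM hYm hYR hmR hMU hLM hLm hNm hB ?_ hparm)
  intro β hβ β' hβ' hne _
  by_cases hd : ∃ w ∈ R, Col β β' w
  · exact Or.inl hd
  · right
    intro z hz hc
    have hzR : z ∉ R := fun h => hd ⟨z, h, hc⟩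
    have hzB : z ∉ B := fun h => hL.2.2.2 z h hz
    exact hd (hLU z hz hzR hzB β hβ β' hβ' hne hc)

end Pool.Agent.K4L
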