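import Pool.Agent.K4L.Fork
import Pool.Agent.K4L.LB3

/-!
# From the normalised cases to `Win ∅ ∅`

Normalisation: `p = (0, 0)`, `a = (A, 0)`, `b = (A, 1)`, `A ≥ 1` (the content of `p - a`).
-/

namespace Pool.Agent.K4L

/-- CASE I: `q` on the line `a b` -/
def CaseI : Prop := ∀ A κ : ℤ, 1 ≤ A → κ ≠ 0 → κ ≠ 1 →
  ∃ c : Pt, c ∉ ({(A, 0), (A, 1), (0, 0), (A, κ)} : Finset Pt) ∧
    ∀ r : Pt, r ∉ ({(A, 0), (A, 1), c, (0, 0), (A, κ)} : Finset Pt) →
      Win {(A, 0), (A, 1), c} {(0, 0), (A, κ), r}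

/-- CASE II: `q` off the line `a b` -/
def CaseII : Prop := ∀ A : ℤ, 1 ≤ A → ∀ q : Pt, q ≠ (0, 0) → q.1 ≠ A →
  ∃ c : Pt, c ∉ ({(A, 0), (A, 1), (0, 0), q} : Finset Pt) ∧
    ∀ r : Pt, r ∉ ({(A, 0), (A, 1), c, (0, 0), q} : Finset Pt) →
      Win {(A, 0), (A, 1), c} {(0, 0), q, r}

theorem win_of_cases (hI : CaseI) (hII : CaseII) : Win ∅ ∅ := by
  classical
  -- the first move
  refine win_quiet (x := (0, 0)) (by simp) (by simp) (noThreat_of_card (by simp)) ?_
  intro p hp1 _
  have hp0 : p ≠ (0, 0) := by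
    intro h; apply hp1; rw [h]; simp
  -- `p = A v`, `v` primitive
  obtain ⟨v, ⟨x, y, hxy⟩, A, hA, hv1, hv2⟩ := exists_prim_pos (v := p) hp0
  -- `b = u` with `det (u, v) = 1`: `u = (y, -x)`
  have hdet : y * v.2 - (-x) * v.1 = 1 := by linear_combination hxy
  obtain ⟨b, hb⟩ : ∃ b : Pt, b = (y, -x) := ⟨_, rfl⟩
  have hb0 : b ≠ (0, 0) := by
    rintro rfl
    have h1 := congrArg Prod.fst hb
    have h2 := congrArg Prod.snd hb
    simp only at h1 h2
    have hx : x = 0 := by linarith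
    rw [← h1, hx] at hdet
    simp at hdet
  have hbp : b ≠ p := by
    intro h
    have h1 : y = A * v.1 := by rw [← hv1, ← h, hb]
    have h2 : -x = A * v.2 := by rw [← hv2, ← h, hb]
    rw [h1, h2] at hdet
    have : (0 : ℤ) = 1 := by linear_combination hdet
    exact absurd this (by norm_num)
  -- the collineation `(X, Y) ↦ p - X v + Y b`
  have hdet' : (-v.1) * (-x) - y * (-v.2) = 1 := by linear_combination hxy
  obtain ⟨f, hf⟩ : ∃ f : Pt ≃ Pt, f = (linE (-v.1) y (-v.2) (-x) 1 (by norm_num) hdet').trans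
    (transE p) := ⟨_, rfl⟩
  have hfa : ∀ z : Pt, f z = (-v.1 * z.1 + y * z.2 + p.1, -v.2 * z.1 + -x * z.2 + p.2) := by
    intro z
    rw [hf]; rfl
  have hfc : ∀ z w t : Pt, Col (f z) (f w) (f t) ↔ Col z w t := by
    intro z w t
    rw [hf]
    simp only [Equiv.trans_apply]
    rw [col_transE, col_linE]
  have fp : f (0, 0) = p := by rw [hfa]; simp
  have fa : f (A, 0) = (0, 0) := by
    rw [hfa]
    refine Prod.ext ?_ ?_
    · simp only; rw [hv1]; ring
    · simp only; rw [hv2]; ring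
  have fb : f (A, 1) = b := by
    rw [hfa, hb]
    refine Prod.ext ?_ ?_
    · simp only; rw [hv1]; ring
    · simp only; rw [hv2]; ring
  -- second move
  refine win_quiet (x := b) ?_ ?_ (noThreat_of_card (by simp)) ?_
  · simpa using hb0
  · simpa using hbp
  intro q hq1 hq2
  have hqb : q ≠ b := by intro h; apply hq1; rw [h]; exact Finset.mem_insert_self _ _
  have hq0 : q ≠ (0, 0) := by intro h; apply hq1; rw [h]; simp
  have hqp : q ≠ p := by intro h; apply hq2; rw [h]; simp
  obtain ⟨q', hq'⟩ : ∃ q', f q' = q := ⟨f.symm q, by simp⟩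
  have hq'0 : q' ≠ (0, 0) := by rintro rfl; exact hqp (hq'.symm.trans fp)
  have hq'a : q' ≠ (A, 0) := by rintro rfl; exact hq0 (hq'.symm.trans fa)
  have hq'b : q' ≠ (A, 1) := by rintro rfl; exact hqb (hq'.symm.trans fb)
  have key : ∃ c : Pt, c ∉ ({(A, 0), (A, 1), (0, 0), q'} : Finset Pt) ∧
      ∀ r : Pt, r ∉ ({(A, 0), (A, 1), c, (0, 0), q'} : Finset Pt) →
        Win {(A, 0), (A, 1), c} {(0, 0), q', r} := by
    by_cases hqA : q'.1 = A
    · have hκ : q' = (A, q'.2) := Prod.ext hqA rfl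
      rw [hκ] at hq'a hq'b ⊢
      refine hI A q'.2 hA ?_ ?_
      · intro h; apply hq'a; rw [h]
      · intro h; apply hq'b; rw [h]
    · exact hII A hA q' hq'0 hqA
  obtain ⟨c', hc', hw⟩ := key
  simp only [Finset.mem_insert, Finset.mem_singleton, not_or] at hc'
  -- third move
  have hcard : ({q, p} : Finset Pt).card ≤ 2 := Finset.card_le_two
  refine win_quiet (x := f c') ?_ ?_ (noThreat_of_card (by simpa using hcard)) ?_
  · intro h
    rcases Finset.mem_insert.mp h with h | h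
    · exact hc'.2.1 (f.injective (h.trans fb.symm))
    · rcases Finset.mem_insert.mp h with h | h
      · exact hc'.1 (f.injective (h.trans fa.symm))
      · simp at h
  · intro h
    rcases Finset.mem_insert.mp h with h | h
    · exact hc'.2.2.2 (f.injective (h.trans hq'.symm))
    · rcases Finset.mem_insert.mp h with h | h
      · exact hc'.2.2.1 (f.injective (h.trans fp.symm))
      · simp at h
  intro r hr1 hr2
  obtain ⟨r', hr'⟩ : ∃ r', f r' = r := ⟨f.symm r, by simp⟩
  have hw' := (hw r' ?_).map f hfc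
  · simp only [Finset.image_insert, Finset.image_singleton] at hw'
    rw [fa, fb, fp, hq', hr'] at hw'
    refine hw'.mono ?_ ?_
    · intro z hz
      simp only [Finset.mem_insert, Finset.mem_singleton] at hz ⊢
      rcases hz with rfl | rfl | rfl
      · simp
      · simp
      · simp
    · intro z hz
      simp only [Finset.mem_insert, Finset.mem_singleton, Finset.notMem_empty, or_false] at hz ⊢
      tauto
  · simp only [Finset.mem_insert, Finset.mem_singleton, not_or, Finset.notMem_empty] at hr1 hr2 ⊢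
    refine ⟨?_, ?_, ?_, ?_, ?_⟩
    · rintro rfl; exact hr1.2.2.1 (hr'.symm.trans fa)
    · rintro rfl; exact hr1.2.1 (hr'.symm.trans fb)
    · rintro rfl; exact hr1.1 hr'.symm
    · rintro rfl; exact hr2.2.1 (hr'.symm.trans fp)
    · rintro rfl; exact hr2.1 (hr'.symm.trans hq')

end Pool.Agent.K4L
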