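import Pool.Agent.K4L.IIGH
import Pool.Agent.K4L.Main

/-!
# CASE II when `p q` meets `a b` in no free lattice point
-/

namespace Pool.Agent.K4L

theorem ii_off (HU : NodeK3Uw) {p q : Pt} (hp : p.1 ≠ 0) (hq : q.1 ≠ 0) (hpq : p ≠ q)
    (hm : ∀ m : ℤ, Col p q (0, m) → m = 0 ∨ m = 1) (F : Finset Pt) :
    ∃ c : Pt, c ∉ F ∧ ∀ r : Pt, r ∉ ({(0, 0), (0, 1), c, p, q} : Finset Pt) →
      Win {(0, 0), (0, 1), c} {p, q, r} := by
  obtain ⟨X, Y, hF, g⟩ := exists_gc hp hq hpq F
  refine ⟨(X, Y), hF, ?_⟩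
  intro r hr
  simp only [Finset.mem_insert, Finset.mem_singleton, not_or] at hr
  obtain ⟨ra, rb, rc, rp, rq⟩ := hr
  by_cases h1 : Col (0, 0) (0, 1) r
  · exact ig_ab HU g hm rp rq h1 ra rb
  by_cases h2 : Col (0, 0) (X, Y) r
  · exact ig_ac HU g hm rp rq h2 ra rc
  by_cases h3 : Col (0, 1) (X, Y) r
  · exact ig_bc HU g hm rp rq h3 rb rc
  by_cases h4 : Col p q r ∧ ¬ Col p q (0, 0) ∧ ¬ Col p q (0, 1)
  · exact ig_blk g hpq hm h4.2.1 h4.2.2 h4.1
  · refine ig_off g hpq hm rp rq ?_ h1 h2 h3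
    intro hc
    by_contra hcon
    push Not at hcon
    exact h4 ⟨hc, hcon _ (by simp), hcon _ (by simp)⟩

/-- in the normal form of `CaseII` -/
theorem caseII_off (HU : NodeK3Uw) (A : ℤ) (hA : 1 ≤ A) (q : Pt) (hq0 : q ≠ (0, 0))
    (hqA : q.1 ≠ A) (hm : ∀ m : ℤ, Col (0, 0) q (A, m) → m = 0 ∨ m = 1) :
    ∃ c : Pt, c ∉ ({(A, 0), (A, 1), (0, 0), q} : Finset Pt) ∧
      ∀ r : Pt, r ∉ ({(A, 0), (A, 1), c, (0, 0), q} : Finset Pt) →
        Win {(A, 0), (A, 1), c} {(0, 0), q, r} := by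
  classical
  have hfa : ∀ z : Pt, transE (A, 0) z = (z.1 + A, z.2) := by
    intro z
    show ((z.1 + A, z.2 + 0) : Pt) = _
    rw [add_zero]
  obtain ⟨c, hcF, hc⟩ := ii_off HU (p := (-A, 0)) (q := (q.1 - A, q.2)) (by simp only; linarith)
    (by simp only; exact sub_ne_zero.mpr hqA)
    (by
      intro h
      apply hq0
      have h1 := congrArg Prod.fst h
      have h2 := congrArg Prod.snd h
      simp only at h1 h2
      exact Prod.ext (by simp only; linarith) h2.symm)
    (by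
      intro m h
      apply hm
      unfold Col at h ⊢
      simp only at h ⊢
      linear_combination h)
    ({(0, 0), (0, 1), (-A, 0), (q.1 - A, q.2)} : Finset Pt)
  simp only [Finset.mem_insert, Finset.mem_singleton, not_or] at hcF
  obtain ⟨c1, c2, c3, c4⟩ := hcF
  have inj : ∀ z w : Pt, ((z.1 + A, z.2) : Pt) = w → z = (w.1 - A, w.2) := by
    rintro z w rfl
    simp
  refine ⟨(c.1 + A, c.2), ?_, ?_⟩
  · simp only [Finset.mem_insert, Finset.mem_singleton, not_or]
    refine ⟨?_, ?_, ?_, ?_⟩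
    · intro h; apply c1; rw [inj _ _ h]; simp
    · intro h; apply c2; rw [inj _ _ h]; simp
    · intro h; apply c3; rw [inj _ _ h]; simp
    · intro h; apply c4; rw [inj _ _ h]
  · intro r hr
    simp only [Finset.mem_insert, Finset.mem_singleton, not_or] at hr
    obtain ⟨r1, r2, r3, r4, r5⟩ := hr
    have hw := hc (r.1 - A, r.2) ?_
    · have := hw.map (transE (A, 0)) (col_transE (A, 0))
      simp only [Finset.image_insert, Finset.image_singleton, hfa] at this
      simpa using this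
    · simp only [Finset.mem_insert, Finset.mem_singleton, not_or]
      have inj' : ∀ w : Pt, ((r.1 - A, r.2) : Pt) = w → r = (w.1 + A, w.2) := by
        rintro w rfl
        simp
      refine ⟨?_, ?_, ?_, ?_, ?_⟩
      · intro h; apply r1; rw [inj' _ h]; simp
      · intro h; apply r2; rw [inj' _ h]; simp
      · intro h; apply r3; exact inj' _ h
      · intro h; apply r4; rw [inj' _ h]; simp
      · intro h; apply r5; rw [inj' _ h]; simp

end Pool.Agent.K4L
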