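import Pool.Agent.K4L.K3UAsmB

/-!
# K3U assembly
-/

namespace Pool.Agent.K4L

open Filter

/-- after `e = (ε, 0)`, `t = (τ, 0)`: for a class of `G`, every answer to `g = G b` loses -/
def LeafG (R B : Finset Pt) (α b1 b2 ε p τ : ℤ) : Prop :=
  ∃ (M : ℤ) (S : Finset (ℤ × ℤ)), M ≠ 0 ∧ ¬ p ∣ M ∧ (S.card : ℤ) + 1 < |p| ∧
    (∀ s ∈ S, ¬ (p ∣ s.1 ∧ p ∣ s.2)) ∧
    ∀ᶠ G : ℤ in cofinite, M ∣ G - 1 → ¬ p ∣ G → (∀ s ∈ S, ¬ p ∣ G * s.1 - s.2) →
      IsCoprime (G * b1 - α) (G * b2) → IsCoprime (G * b1 - ε) (G * b2) →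
      ∀ t2, Col (0, 0) (b1, b2) t2 → t2 ∉ insert ((G * b1, G * b2) : Pt) (insert (ε, 0) R) →
        t2 ∉ insert ((τ, 0) : Pt) B →
        Win (insert (G * b1, G * b2) (insert (ε, 0) R)) (insert t2 (insert (τ, 0) B))

theorem LeafG.win {R B : Finset Pt} {α b1 b2 ε p τ : ℤ} (K : K3C R B α b1 b2)
    (hprim : IsCoprime (α - b1) b2) (hp : Prime p) (hε : ε = α * p) (hpb : ¬ p ∣ b2)
    (hpα : ¬ p ∣ α) (hbp : b2 ∣ p - 1) (hτ0 : τ ≠ 0)
    (hN1 : NoThreat (insert (ε, 0) R) (insert (τ, 0) B))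
    (h : LeafG R B α b1 b2 ε p τ) : Win (insert (ε, 0) R) (insert (τ, 0) B) := by
  classical
  have hb2 := K.hb2
  have hα := K.hα
  obtain ⟨M, S, hM0, hpM, hcard, hS, hev⟩ := h
  have q1 : ∀ᶠ G : ℤ in cofinite, ∀ z ∈ R ∪ B, b2 * G + 0 ≠ z.2 :=
    ev_fin _ (fun z _ => ev_linne _ _ _ (Or.inl hb2))
  have hpM' : ¬ p ∣ M * (α * b2) := by
    intro h
    rcases hp.dvd_or_dvd h with h | h
    · exact hpM h
    rcases hp.dvd_or_dvd h with h | h
    · exact hpα h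
    · exact hpb h
  obtain ⟨G, ⟨hG1, hG2, hG3⟩, hGM, hGS⟩ := choose_G hp (insert ((1, 0) : ℤ × ℤ) S) (by
    intro s hs
    rcases Finset.mem_insert.mp hs with rfl | hs
    · rintro ⟨h1, _⟩
      exact hp.not_isUnit (isUnit_of_dvd_one h1)
    · exact hS s hs) (by
    have h1 := Finset.card_insert_le ((1, 0) : ℤ × ℤ) S
    have h2 : ((insert ((1, 0) : ℤ × ℤ) S).card : ℤ) ≤ (S.card : ℤ) + 1 := by exact_mod_cast h1
    linarith) (mul_ne_zero hM0 (mul_ne_zero hα hb2)) hpM'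
    (hev.and (q1.and (ev_abs 0)))
  have hpG : ¬ p ∣ G := by
    have := hGS (1, 0) (Finset.mem_insert_self _ _)
    simpa using this
  have hG0 : G ≠ 0 := by rintro rfl; simp at hG3
  have hGb : G * b2 ≠ 0 := mul_ne_zero hG0 hb2
  have hGα : α ∣ G - 1 := (Dvd.dvd.mul_left (dvd_mul_right α b2) M).trans hGM
  have hGb2 : b2 ∣ G - 1 := (Dvd.dvd.mul_left (dvd_mul_left b2 α) M).trans hGM
  have hαG : IsCoprime α G := by
    obtain ⟨c, hc⟩ := hGα
    exact ⟨-c, 1, by linear_combination hc⟩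
  have co1 : IsCoprime (G * b1 - α) (G * b2) := by
    apply IsCoprime.mul_right
    · have h2 := (IsCoprime.neg_left hαG)
      have h3 := IsCoprime.add_mul_left_left h2 b1
      have e : -α + G * b1 = G * b1 - α := by ring
      rwa [e] at h3
    · obtain ⟨c, hc⟩ := hGb2
      have h3 := IsCoprime.add_mul_left_left (IsCoprime.neg_left hprim) (c * b1)
      have e : -(α - b1) + b2 * (c * b1) = G * b1 - α := by linear_combination (-b1) * hc
      rwa [e] at h3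
  have co2 : IsCoprime (G * b1 - ε) (G * b2) := by
    apply IsCoprime.mul_right
    · have h1 : IsCoprime ε G := by
        rw [hε]
        exact IsCoprime.mul_left hαG ((Prime.coprime_iff_not_dvd hp).mpr hpG)
      have h3 := IsCoprime.add_mul_left_left (IsCoprime.neg_left h1) b1
      have e : -ε + G * b1 = G * b1 - ε := by ring
      rwa [e] at h3
    · obtain ⟨c, hc⟩ := hGb2
      obtain ⟨d, hd⟩ := hbp
      have h3 := IsCoprime.add_mul_left_left (IsCoprime.neg_left hprim) (c * b1 - α * d)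
      have e : -(α - b1) + b2 * (c * b1 - α * d) = G * b1 - ε := by
        rw [hε]
        linear_combination (-b1) * hc + α * hd
      rwa [e] at h3
  have hgR : ((G * b1, G * b2) : Pt) ∉ insert ((ε, 0) : Pt) R := by
    intro h
    rcases Finset.mem_insert.mp h with h | h
    · exact hGb (congrArg Prod.snd h)
    · exact hG2 _ (Finset.mem_union_left _ h) (by simp only; ring)
  have hgB : ((G * b1, G * b2) : Pt) ∉ insert ((τ, 0) : Pt) B := by
    intro h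
    rcases Finset.mem_insert.mp h with h | h
    · exact hGb (congrArg Prod.snd h)
    · exact hG2 _ (Finset.mem_union_right _ h) (by simp only; ring)
  have hcb : ALine (insert (ε, 0) R) (insert (τ, 0) B) (0, 0) (b1, b2) := by
    refine K.hM.insert (Finset.subset_insert _ _) ?_
    intro h
    unfold Col at h
    simp only at h
    have : b2 * τ = 0 := by linear_combination -h
    rcases mul_eq_zero.mp this with h | h
    · exact hb2 h
    · exact hτ0 h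
  refine win_force hcb hgR hgB (by unfold Col; simp only; ring)
    (hN1.mono (Finset.subset_insert _ _) (Finset.Subset.refl _)) ?_
  intro t2 ht2R ht2B ht2c
  exact hG1 ((dvd_mul_right M _).trans hGM) hpG
    (fun s hs => hGS s (Finset.mem_insert_of_mem hs)) co1 co2 t2 ht2c ht2R ht2B

/-- the residual case (P) of gamma1 -/
def CaseP (R B : Finset Pt) (b1 b2 ε τ K0 G : ℤ) (t2 : Pt) : Prop :=
  (∀ z, Col (G * b1, G * b2) (ε, 0) z →
      z ∉ insert ((G * b1, G * b2) : Pt) (insert (ε, 0) R) →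
      ∀ u ∈ insert t2 (insert ((τ, 0) : Pt) B), ∀ v ∈ insert t2 (insert ((τ, 0) : Pt) B),
      u ≠ v → Col u v z → (∃ r ∈ insert ((G * b1, G * b2) : Pt) (insert (ε, 0) R),
        Col u v r) ∨ (Col t2 (τ, 0) u ∧ Col t2 (τ, 0) v)) ∧
    (∀ r ∈ insert ((G * b1, G * b2) : Pt) (insert (ε, 0) R), ¬ Col t2 (τ, 0) r) ∧
    ∃ k, k ≠ 0 ∧ k ≠ 1 ∧ |k| ≤ K0 ∧ HE b2 ε G t2.2 (τ * b2) 0 k

/-- what is needed from the case (F) -/
def HypF (R B : Finset Pt) (α b1 b2 CB : ℤ) : Prop :=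
  ∃ Q0 T0 c0 : ℤ, Q0 ≠ 0 ∧ ∀ᶠ p : ℤ in cofinite, Prime p → Q0 ∣ p - 1 →
    ∀ τ, T0 < |τ| → ¬ p ∣ b2 * τ → (∀ β ∈ B, DX b1 b2 β ≠ b2 * τ) →
      ((τ, 0) : Pt) ∉ insert ((α * p, 0) : Pt) R → ((τ, 0) : Pt) ∉ B →
      NoThreat (insert (α * p, 0) R) (insert (τ, 0) B) →
      Uncov (insert (α * p, 0) R) (insert (τ, 0) B) (0, 0) (b1, b2) →
      ALine (insert (α * p, 0) R) (insert (τ, 0) B) (b1, b2) (α * p, 0) →
      |b2 * τ| ≤ CB * |α * p| →
      ∃ (K0 Q1 : ℤ) (S : Finset (ℤ × ℤ)), Q1 ≠ 0 ∧ ¬ p ∣ Q1 ∧ (S.card : ℤ) ≤ c0 ∧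
        (∀ s ∈ S, ¬ (p ∣ s.1 ∧ p ∣ s.2)) ∧
        ∀ᶠ G : ℤ in cofinite, Q1 ∣ G - 1 → ¬ p ∣ G → (∀ s ∈ S, ¬ p ∣ G * s.1 - s.2) →
          IsCoprime (G * b1 - α) (G * b2) → IsCoprime (G * b1 - α * p) (G * b2) →
          ∀ t2, Col (0, 0) (b1, b2) t2 →
            t2 ∉ insert ((G * b1, G * b2) : Pt) (insert (α * p, 0) R) →
            t2 ∉ insert ((τ, 0) : Pt) B →
            Win (insert (G * b1, G * b2) (insert (α * p, 0) R))
              (insert t2 (insert (τ, 0) B)) ∨ CaseP R B b1 b2 (α * p) τ K0 G t2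

/-- the pairs for (P) -/
theorem pairsP {p b2 C1 : ℤ} (hp : Prime p) (hpb : ¬ p ∣ b2) (hC1 : 0 ≤ C1) :
    ∃ S : Finset (ℤ × ℤ), (S.card : ℤ) ≤ 4 * C1 + 2 ∧ (∀ s ∈ S, ¬ (p ∣ s.1 ∧ p ∣ s.2)) ∧
      ∀ G, (∀ s ∈ S, ¬ p ∣ G * s.1 - s.2) →
        (∀ κ, |κ| ≤ C1 → κ ≠ 1 → ¬ p ∣ G * (1 - κ) - 1) ∧
        (∀ s, |s| ≤ C1 → s ≠ 0 → ¬ p ∣ G * s - b2) := by
  classical
  have hc : ((Finset.Icc (-C1) C1).card : ℤ) = 2 * C1 + 1 := by
    rw [Int.card_Icc]
    rw [Int.toNat_of_nonneg (by linarith)]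
    ring
  refine ⟨(Finset.Icc (-C1) C1).image (fun κ => (1 - κ, 1)) ∪
    (Finset.Icc (-C1) C1).image (fun s => (s, b2)), ?_, ?_, ?_⟩
  · have h1 := Finset.card_union_le ((Finset.Icc (-C1) C1).image (fun κ : ℤ => (1 - κ, (1 : ℤ))))
      ((Finset.Icc (-C1) C1).image (fun s : ℤ => (s, b2)))
    have h2 := Finset.card_image_le (s := Finset.Icc (-C1) C1) (f := fun κ : ℤ => (1 - κ, (1 : ℤ)))
    have h3 := Finset.card_image_le (s := Finset.Icc (-C1) C1) (f := fun s : ℤ => (s, b2))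
    have h4 : ((((Finset.Icc (-C1) C1).image (fun κ : ℤ => (1 - κ, (1 : ℤ))) ∪
      (Finset.Icc (-C1) C1).image (fun s : ℤ => (s, b2))).card : ℕ) : ℤ) ≤
      ((Finset.Icc (-C1) C1).card : ℤ) + ((Finset.Icc (-C1) C1).card : ℤ) := by
      exact_mod_cast le_trans h1 (Nat.add_le_add h2 h3)
    rw [hc] at h4
    linarith
  · intro s hs
    rcases Finset.mem_union.mp hs with hs | hs
    · obtain ⟨κ, _, rfl⟩ := Finset.mem_image.mp hs
      rintro ⟨_, h⟩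
      exact hp.not_isUnit (isUnit_of_dvd_one h)
    · obtain ⟨κ, _, rfl⟩ := Finset.mem_image.mp hs
      rintro ⟨_, h⟩
      exact hpb h
  · intro G hG
    constructor
    · intro κ hκ _
      exact hG (1 - κ, 1) (Finset.mem_union_left _ (Finset.mem_image.mpr
        ⟨κ, Finset.mem_Icc.mpr (abs_le.mp hκ), rfl⟩))
    · intro s hs _
      exact hG (s, b2) (Finset.mem_union_right _ (Finset.mem_image.mpr
        ⟨s, Finset.mem_Icc.mpr (abs_le.mp hs), rfl⟩))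

end Pool.Agent.K4L
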