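import Pool.Agent.K4L.K3UG1X

/-!
# K3U, `b e` uncovered after `t`: Red wins
-/

namespace Pool.Agent.K4L

open Filter

section
variable {b2 ε G T X Y k k' τ z p : ℤ}

/-- a near stone and `t` do not both hit `g e` (`t` far) -/
theorem g1_et (hb2 : b2 ≠ 0) (hε : ε ≠ 0) (hτ : τ ≠ 0) (hY : Y ≠ 0) (hG0 : G ≠ 0)
    (hs : |X * (τ - ε)| < |ε * (τ * b2 - X)|)
    (hG : blC (ε * b2 * (X - τ * b2)) (b2 * τ * (ε * b2 - X)) (b2 * X * (τ - ε)) 0
      (ε * ε * b2 * Y) (-(ε * Y * τ * b2)) 0 0 < |G|)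
    (hk : k ≠ 0) (hk1 : k' ≠ 1) (h : HE b2 ε G T X Y k)
    (h' : HE b2 ε G T (τ * b2) 0 k') : False := by
  have h0 := he_elim hb2 h h'
  have hA0 : ε * (τ * b2 - X) ≠ 0 := by
    intro h1
    rw [h1, abs_zero] at hs
    exact absurd hs (not_lt.mpr (abs_nonneg _))
  have ha : ε * b2 * (X - τ * b2) ≠ 0 := by
    intro h1
    apply hA0
    apply mul_left_cancel₀ hb2
    linear_combination -h1
  have big : ∀ {x : ℤ}, x ≠ 0 → |ε * (τ * b2 - X) * x| = |X * (τ - ε)| → False := by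
    intro x hx h1
    rw [abs_mul] at h1
    have h2 := le_mul_of_one_le_right (abs_nonneg (ε * (τ * b2 - X))) (Int.one_le_abs hx)
    linarith
  obtain ⟨q1, q0⟩ := bl _ _ _ _ _ _ _ _ ha G k k' hG
    (by
      intro hu
      apply big (sub_ne_zero.mpr hk1)
      rw [← abs_neg]
      congr 1
      apply mul_left_cancel₀ hb2
      linear_combination hu)
    (by
      intro hv
      apply big hk
      congr 1
      apply mul_left_cancel₀ hb2
      linear_combination -hv)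
    (by linear_combination h0)
  have q2 : ε * (b2 * (Y * (k * (ε * k' - τ)))) = 0 := by linear_combination q0
  rcases mul_eq_zero.mp q2 with h1 | h1
  · exact hε h1
  rcases mul_eq_zero.mp h1 with h1 | h1
  · exact hb2 h1
  rcases mul_eq_zero.mp h1 with h1 | h1
  · exact hY h1
  rcases mul_eq_zero.mp h1 with h1 | h1
  · exact hk h1
  unfold HE at h'
  have h2 : τ * (b2 * ((1 - k') * (G * b2))) = 0 := by
    linear_combination h' - (T * b2) * h1
  rcases mul_eq_zero.mp h2 with h3 | h3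
  · exact hτ h3
  rcases mul_eq_zero.mp h3 with h3 | h3
  · exact hb2 h3
  rcases mul_eq_zero.mp h3 with h3 | h3
  · exact hk1 (by linarith)
  · exact mul_ne_zero hG0 hb2 h3

/-- `t t2 ∥ g (z, 0)` and a near stone hitting `g (z, 0)` -/
theorem g1_pt (hb2 : b2 ≠ 0) (hz : z ≠ 0) (hXt : X ≠ τ * b2) (hY : Y ≠ 0)
    (hG : |z * z * Y| * (1 + |X * (z - τ)|) < |G|)
    (hk : k ≠ 0) (hp : z * T = G * (τ * b2)) (h : HE b2 z G T X Y k) : False := by
  have hA : z * (τ * b2 - X) ≠ 0 := mul_ne_zero hz (sub_ne_zero.mpr (Ne.symm hXt))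
  have h1 := lin2 (A := z * (τ * b2 - X)) (B := X * (z - τ)) (C := -(z * z * Y)) (D := 0)
    (G := G) (k := k) hA (by rw [abs_neg, abs_zero, add_zero]; exact hG) (by
      unfold HE at h
      apply mul_left_cancel₀ hb2
      linear_combination z * h - (k * z * b2 - X) * hp)
  have h2 : z * (z * (Y * k)) = 0 := by linear_combination -h1.2
  rcases mul_eq_zero.mp h2 with h3 | h3
  · exact hz h3
  rcases mul_eq_zero.mp h3 with h3 | h3
  · exact hz h3
  rcases mul_eq_zero.mp h3 with h3 | h3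
  · exact hY h3
  · exact hk h3

/-- `t t2 ∥ g (z, 0)` does not hit `g (z, 0)` -/
theorem g1_ptt (hb2 : b2 ≠ 0) (hG0 : G ≠ 0) (hτ : τ ≠ 0) (hτz : τ ≠ z)
    (hp : z * T = G * (τ * b2)) (h : HE b2 z G T (τ * b2) 0 k) : False := by
  unfold HE at h
  have h1 : G * (τ * (b2 * (b2 * (z - τ)))) = 0 := by
    linear_combination z * h - (k * z * b2 - τ * b2) * hp
  rcases mul_eq_zero.mp h1 with h2 | h2
  · exact hG0 h2
  rcases mul_eq_zero.mp h2 with h2 | h2
  · exact hτ h2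
  rcases mul_eq_zero.mp h2 with h2 | h2
  · exact hb2 h2
  rcases mul_eq_zero.mp h2 with h2 | h2
  · exact hb2 h2
  · exact hτz (by linarith)

/-- a far `t2` does not hit `b e` -/
theorem be_far (hX : X ≠ 0) (hbe : ε * (Y - b2) + X ≠ 0)
    (hT : |X * (ε * (Y - b2) + X)| < |ε * (T - Y) - X|)
    (h : HE b2 ε 1 T X Y k) : False := by
  unfold HE at h
  have h1 : (k * ε * b2 - X) * (ε * (T - Y) - X) = X * (ε * (Y - b2) + X) := by
    linear_combination ε * h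
  have hR : X * (ε * (Y - b2) + X) ≠ 0 := mul_ne_zero hX hbe
  have h2 : k * ε * b2 - X ≠ 0 := by
    intro h3
    rw [h3, zero_mul] at h1
    exact hR h1.symm
  have h3 : |ε * (T - Y) - X| ≤ |X * (ε * (Y - b2) + X)| := by
    rw [← h1, abs_mul]
    exact le_mul_of_one_le_left (abs_nonneg _) (Int.one_le_abs h2)
  linarith

end

/-- the constant for a far `t2` and the line `b e` -/
theorem exists_C1 (B1 : Finset Pt) (b1 b2 ε : ℤ) : ∃ C1 : ℤ, 0 ≤ C1 ∧ ∀ β ∈ B1,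
    |β.2| + |DX b1 b2 β| + |DX b1 b2 β * (ε * (β.2 - b2) + DX b1 b2 β)| ≤ C1 := by
  obtain ⟨K, h0, h⟩ := exists_bd2 B1 (fun β _ => |β.2| + |DX b1 b2 β| +
    |DX b1 b2 β * (ε * (β.2 - b2) + DX b1 b2 β)|)
  refine ⟨K, h0, fun β hβ => ?_⟩
  have := h β hβ β hβ
  rwa [abs_of_nonneg (by positivity)] at this

theorem far_W {ε T X Y b2 C1 : ℤ} (hε : ε ≠ 0) (h : |Y| + |X| + |X * (ε * (Y - b2) + X)| ≤ C1)
    (hT : C1 < |T|) : |X * (ε * (Y - b2) + X)| < |ε * (T - Y) - X| := by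
  have h1 : |T - Y| ≤ |ε * (T - Y)| := by
    rw [abs_mul]; exact le_mul_of_one_le_left (abs_nonneg _) (Int.one_le_abs hε)
  have h2 : |ε * (T - Y)| ≤ |ε * (T - Y) - X| + |X| := by
    have := abs_sub (ε * (T - Y) - X) (-X)
    rwa [sub_neg_eq_add, sub_add_cancel, abs_neg] at this
  have h3 : |T| ≤ |T - Y| + |Y| := by
    have := abs_sub (T - Y) (-Y)
    rwa [sub_neg_eq_add, sub_add_cancel, abs_neg] at this
  linarith

/-- points of `b e` -/
theorem be_hit {b1 b2 ε : ℤ} {t2 β w : Pt} (hcb : IsCoprime (b1 - ε) b2)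
    (hT : t2.1 * b2 = t2.2 * b1) (hw : Col (b1, b2) (ε, 0) w) (hc : Col t2 β w) :
    ∃ k, HE b2 ε 1 t2.2 (DX b1 b2 β) β.2 k := by
  obtain ⟨k, hk1, hk2⟩ := he_param (b1 := b1) (b2 := b2) (z := ε) (G := 1) (w1 := w.1)
    (w2 := w.2) (by simpa using hcb) (by
      unfold Col at hw; simp only at hw; linear_combination hw)
  refine ⟨k, ?_⟩
  have hw' : w = (1 * b1 + k * (ε - 1 * b1), (1 - k) * (1 * b2)) := Prod.ext hk1 hk2
  rw [hw'] at hc
  exact he_of_hit hT hc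

/-- `b e` stays uncovered if `t2` is far -/
theorem be_unc {R2 R1 B1 : Finset Pt} {b1 b2 ε C1 : ℤ} {t2 : Pt} (hR : R1 ⊆ R2)
    (hε : ε ≠ 0) (hcb : IsCoprime (b1 - ε) b2)
    (hbeU : Uncov R1 B1 (b1, b2) (ε, 0)) (hD1 : ∀ β ∈ B1, DX b1 b2 β ≠ 0)
    (hbeA : ∀ β ∈ B1, ¬ Col (b1, b2) (ε, 0) β)
    (hC1 : ∀ β ∈ B1, |β.2| + |DX b1 b2 β| + |DX b1 b2 β * (ε * (β.2 - b2) + DX b1 b2 β)| ≤ C1)
    (hT : t2.1 * b2 = t2.2 * b1) (hfar : C1 < |t2.2|) :
    Uncov R2 (insert t2 B1) (b1, b2) (ε, 0) := by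
  refine hbeU.insert_blue hR ?_
  intro β hβ w hw hc
  obtain ⟨k, hk⟩ := be_hit hcb hT hw hc.swap12
  refine be_far (hD1 β hβ) ?_ (far_W hε (hC1 β hβ) hfar) hk
  intro h
  apply hbeA β hβ
  unfold Col
  unfold DX at h
  simp only
  linear_combination h

theorem k3u_g1U {R B : Finset Pt} {α b1 b2 ε p τ : ℤ} (K : K3C R B α b1 b2)
    (N : G1N B α b1 b2 ε p) (hτX : ∀ β ∈ B, DX b1 b2 β ≠ b2 * τ)
    (hτs : ∀ β ∈ B, |DX b1 b2 β * (τ - ε)| < |ε * (τ * b2 - DX b1 b2 β)|)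
    (htR : ((τ, 0) : Pt) ∉ insert ((ε, 0) : Pt) R) (htB : ((τ, 0) : Pt) ∉ B)
    (hN1 : NoThreat (insert (ε, 0) R) (insert (τ, 0) B))
    (hcbU : Uncov (insert (ε, 0) R) (insert (τ, 0) B) (0, 0) (b1, b2))
    (hbe : ALine (insert (ε, 0) R) (insert (τ, 0) B) (b1, b2) (ε, 0))
    (hcb : IsCoprime (b1 - ε) b2)
    (hbeU : Uncov (insert (ε, 0) R) (insert (τ, 0) B) (b1, b2) (ε, 0))
    (hbeP : ∀ β ∈ B, b2 * τ ≠ ε * β.2 + DX b1 b2 β) :
    ∀ᶠ G : ℤ in cofinite, IsCoprime (G * b1 - α) (G * b2) →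
      IsCoprime (G * b1 - ε) (G * b2) →
      ∀ t2, Col (0, 0) (b1, b2) t2 → t2 ∉ insert ((G * b1, G * b2) : Pt) (insert (ε, 0) R) →
        t2 ∉ insert ((τ, 0) : Pt) B →
        Win (insert (G * b1, G * b2) (insert (ε, 0) R)) (insert t2 (insert (τ, 0) B)) := by
  classical
  have hb2 := K.hb2
  have hα := K.hα
  have hp := N.hp
  have hpε : p ∣ ε := ⟨α, by rw [N.hε]; ring⟩
  have hε0 : ε ≠ 0 := by rw [N.hε]; exact mul_ne_zero hα hp.ne_zero
  obtain ⟨B1, hB1⟩ : ∃ B1 : Finset Pt, B1 = insert ((τ, 0) : Pt) B := ⟨_, rfl⟩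
  obtain ⟨R1, hR1⟩ : ∃ R1 : Finset Pt, R1 = insert ((ε, 0) : Pt) R := ⟨_, rfl⟩
  have Dt : DX b1 b2 (τ, 0) = τ * b2 := by unfold DX; simp only; ring
  have cas : ∀ β ∈ B1, β = (τ, 0) ∨ β ∈ B := by
    intro β hβ; rw [hB1] at hβ; exact Finset.mem_insert.mp hβ
  have tB1 : ((τ, 0) : Pt) ∈ B1 := by rw [hB1]; exact Finset.mem_insert_self _ _
  have bB1 : ∀ β ∈ B, β ∈ B1 := by intro β hβ; rw [hB1]; exact Finset.mem_insert_of_mem hβ
  have htau0 : τ ≠ 0 := by rintro rfl; exact htR (Finset.mem_insert_of_mem K.cR)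
  have htaua : τ ≠ α := by rintro rfl; exact htR (Finset.mem_insert_of_mem K.aR)
  have htau : τ ≠ ε := by rintro rfl; exact htR (Finset.mem_insert_self _ _)
  obtain ⟨C0, hC00, hC0⟩ := exists_C0 B1 b1 b2
  obtain ⟨C1, hC10, hC1⟩ := exists_C1 B1 b1 b2 ε
  obtain ⟨C, hC⟩ : ∃ C : ℤ, C = C0 + C1 := ⟨_, rfl⟩
  have hCC0 : C0 ≤ C := by linarith
  have hCC1 : C1 ≤ C := by linarith
  have q1 : ∀ᶠ G : ℤ in cofinite, ∀ β ∈ B1, |α| * (C + |β.2|) < |G| :=
    ev_fin B1 (fun _ _ => ev_abs _)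
  have q2 : ∀ᶠ G : ℤ in cofinite, ∀ β ∈ B1,
      blC (ε * b2 * (DX b1 b2 β - τ * b2)) (b2 * τ * (ε * b2 - DX b1 b2 β))
      (b2 * DX b1 b2 β * (τ - ε)) 0
      (ε * ε * b2 * β.2) (-(ε * β.2 * τ * b2)) 0 0 < |G| := ev_fin B1 (fun _ _ => ev_abs _)
  have q3 : ∀ᶠ G : ℤ in cofinite, ∀ β ∈ B1,
      |α * α * β.2| * (1 + |DX b1 b2 β * (α - τ)|) < |G| := ev_fin B1 (fun _ _ => ev_abs _)
  have q4 : ∀ᶠ G : ℤ in cofinite, ∀ β ∈ B1,
      |ε * ε * β.2| * (1 + |DX b1 b2 β * (ε - τ)|) < |G| := ev_fin B1 (fun _ _ => ev_abs _)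
  filter_upwards [ev_G1G ((insert (ε, 0) R) ∪ (insert (τ, 0) B)) (insert (τ, 0) B) α b1 b2 ε τ C
    hb2 hε0, q1, q2, q3, q4] with G D g1 g2 g3 g4
  intro hca hce t2 ht2c ht2R ht2B
  have X := mk_GX K hε0 N.hα1 N.hX hτX htR htB hN1 hcbU hbe (C0 := C)
    (by
      intro β hβ u hu v hv
      rw [← hB1] at hβ hu hv
      exact (hC0 β hβ u hu v hv).trans hCC0) D hca hce ht2c ht2R ht2B
  rw [← hR1, ← hB1] at X D hbe hbeU ⊢
  obtain ⟨R2, hR2⟩ : ∃ R2 : Finset Pt, R2 = insert ((G * b1, G * b2) : Pt) R1 := ⟨_, rfl⟩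
  obtain ⟨B2, hB2⟩ : ∃ B2 : Finset Pt, B2 = insert t2 B1 := ⟨_, rfl⟩
  rw [← hR2, ← hB2] at X ⊢
  have hG0 := D.g0
  have hs2 := X.hs2
  have F := X.F
  have hpG : ¬ p ∣ G := by
    intro h
    obtain ⟨u, v, huv⟩ := hce
    apply hp.not_isUnit
    apply isUnit_of_dvd_one
    rw [← huv]
    refine dvd_add (Dvd.dvd.mul_left (dvd_sub (Dvd.dvd.mul_right h _) hpε) _)
      (Dvd.dvd.mul_left (Dvd.dvd.mul_right h _) _)
  by_cases hTC : |t2.2| ≤ C
  · -- near `t2`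
    have unc : ∀ z : ℤ, (z = α ∨ z = ε) → Uncov R2 B2 (G * b1, G * b2) (z, 0) := by
      intro z hz w hw hwR _ u hu v hv huv hc
      rcases X.hits z hz w hw hwR u hu v hv huv hc with h | ⟨β, hβ, _, k, _, hk1, hk⟩
      · exact h
      · exact absurd (X.hfar z hz β hβ k hk1 hk) (not_lt.mpr hTC)
    refine F.win2 (unc α (Or.inl rfl)) (unc ε (Or.inr rfl)) (X.pars α (Or.inl rfl) ?_)
    intro β hβ h
    have h1 : |G| ≤ |α| * (C + |β.2|) := by
      have h2 : |G * DX b1 b2 β| = |α| * |t2.2 - β.2| := by rw [← h, abs_mul]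
      rw [abs_mul] at h2
      have h3 : |G| ≤ |G| * |DX b1 b2 β| :=
        le_mul_of_one_le_right (abs_nonneg _) (Int.one_le_abs (X.hD1 β hβ))
      have h4 : |t2.2 - β.2| ≤ C + |β.2| := (abs_sub _ _).trans (by linarith)
      have h5 := mul_le_mul_of_nonneg_left h4 (abs_nonneg α)
      linarith
    exact absurd (g1 β hβ) (not_lt.mpr h1)
  push Not at hTC
  -- `b e` is uncovered
  have hbeU2 : Uncov R2 B2 (b1, b2) (ε, 0) := by
    rw [hB2]
    exact be_unc (by rw [hR2]; exact Finset.subset_insert _ _) hε0 hcb hbeU X.hD1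
      (fun β hβ hc => hbe.2.2.2 β hβ hc) hC1 hs2 (lt_of_le_of_lt hCC1 hTC)
  have hW : ∀ β ∈ B1, ε * (t2.2 - β.2) - DX b1 b2 β ≠ 0 := by
    intro β hβ h
    have := far_W hε0 (hC1 β hβ) (lt_of_le_of_lt hCC1 hTC)
    rw [h, abs_zero] at this
    exact absurd this (not_lt.mpr (abs_nonneg _))
  -- no parallels to `b e`
  have hbepar : ∀ u ∈ B2, ∀ v ∈ B2, u ≠ v → ¬ Par (b1, b2) (ε, 0) u v := by
    rw [hB2]
    refine pair2 (B1 := B1) (t2 := t2) (P := fun u v => ¬ Par (b1, b2) (ε, 0) u v) ?_ ?_ ?_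
    · intro u v h hP
      exact h hP.symm_right
    · intro u hu v hv huv hP
      have e1 : ∀ u v : Pt, Par (b1, b2) (ε, 0) u v → DX b1 b2 v - DX b1 b2 u =
          ε * (u.2 - v.2) := by
        intro u v h
        unfold Par at h
        unfold DX
        simp only at h
        linear_combination h
      have et : ∀ v ∈ B, ¬ (v.2 * ε = τ * b2 - DX b1 b2 v) := by
        intro v hv h
        apply hbeP v hv
        linear_combination -h
      rcases cas u hu with h | h <;> rcases cas v hv with h' | h'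
      · exact huv (h.trans h'.symm)
      · have := e1 u v hP
        rw [h, Dt] at this
        simp only at this
        exact et v h' (by linear_combination this)
      · have := e1 u v hP
        rw [h', Dt] at this
        simp only at this
        exact et u h (by linear_combination -this)
      · have h1 := e1 u v hP
        by_cases h2 : u.2 - v.2 = 0
        · rw [h2, mul_zero] at h1
          exact N.hX v h' u h (Ne.symm huv) (by linarith)
        · have h3 : |ε| ≤ |DX b1 b2 v - DX b1 b2 u| := by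
            rw [h1, abs_mul]
            exact le_mul_of_one_le_right (abs_nonneg _) (Int.one_le_abs h2)
          have h4 := N.hst v h'
          have h5 := N.hst u h
          have h6 := abs_sub (DX b1 b2 v) (DX b1 b2 u)
          have h7 : 1 ≤ |α| := Int.one_le_abs hα
          have h8 : |DX b1 b2 v| * 3 ≤ |DX b1 b2 v| * (1 + 2 * |α|) :=
            mul_le_mul_of_nonneg_left (by linarith) (abs_nonneg _)
          have h9 : |DX b1 b2 u| * 3 ≤ |DX b1 b2 u| * (1 + 2 * |α|) :=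
            mul_le_mul_of_nonneg_left (by linarith) (abs_nonneg _)
          have h10 := abs_nonneg (DX b1 b2 u)
          have h11 := abs_nonneg (DX b1 b2 v)
          linarith
    · intro β hβ hP
      apply hW β hβ
      unfold Par at hP
      unfold DX
      simp only at hP
      linear_combination -hP - hs2
  have hbepar' : ∀ u ∈ B2, ∀ v ∈ B2, u ≠ v → Par (ε, 0) (b1, b2) u v → ∃ r ∈ R2, Col u v r :=
    fun u hu v hv huv h => absurd h.swap_left (hbepar u hu v hv huv)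
  by_cases hUe : Uncov R2 B2 (G * b1, G * b2) (ε, 0)
  · exact F.winU hbeU2 (Or.inl hUe) (fun u hu v hv huv h => absurd h (hbepar u hu v hv huv))
  -- `g e` is hit
  obtain ⟨w0, hw0, hw0R, u0, hu0, v0, hv0, hne0, hc0, hr0⟩ : ∃ w, Col (G * b1, G * b2) (ε, 0) w ∧
      w ∉ R2 ∧ ∃ u ∈ B2, ∃ v ∈ B2, u ≠ v ∧ Col u v w ∧ ∀ r ∈ R2, ¬ Col u v r := by
    by_contra hcon
    apply hUe
    intro w hw hwR _ u hu v hv huv hc
    by_contra hr
    push Not at hr
    exact hcon ⟨w, hw, hwR, u, hu, v, hv, huv, hc, hr⟩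
  rcases X.hits ε (Or.inr rfl) w0 hw0 hw0R u0 hu0 v0 hv0 hne0 hc0 with
    ⟨r, hr, hcr⟩ | ⟨β0, hβ0, huv0, k0, hk0, hk1, he0⟩
  · exact absurd hcr (hr0 r hr)
  have hcol0 : Col t2 β0 w0 ∧ ∀ r ∈ R2, ¬ Col t2 β0 r := by
    rcases huv0 with ⟨h1, h2⟩ | ⟨h1, h2⟩
    · rw [h1, h2] at hc0 hr0; exact ⟨hc0, hr0⟩
    · rw [h1, h2] at hc0 hr0
      exact ⟨hc0.swap12, fun r hr h => hr0 r hr h.swap12⟩
  -- a near stone and `t` are exclusive
  have excl : ∀ β ∈ B, ∀ k k', k ≠ 0 → k' ≠ 1 → HE b2 ε G t2.2 (DX b1 b2 β) β.2 k →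
      HE b2 ε G t2.2 (DX b1 b2 ((τ, 0) : Pt)) ((τ, 0) : Pt).2 k' → False := by
    intro β hβ k k' hk hk' h h'
    rw [Dt] at h'
    exact g1_et hb2 hε0 htau0 (K.hy β hβ) hG0 (hτs β hβ) (g2 β (bB1 β hβ)) hk hk' h h'
  have hsing : ∀ w, Col (ε, 0) (G * b1, G * b2) w → w ∉ R2 → ∀ u ∈ B2, ∀ v ∈ B2, u ≠ v →
      Col u v w → (∃ r ∈ R2, Col u v r) ∨ (Col t2 β0 u ∧ Col t2 β0 v) := by
    intro w hw hwR u hu v hv huv hc
    rcases X.hits ε (Or.inr rfl) w hw.swap12 hwR u hu v hv huv hc with h |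
      ⟨β1, hβ1, huv1, j1, hj10, hj11, he1⟩
    · exact Or.inl h
    right
    have hne : β1 = β0 := by
      by_contra hne
      rcases cas β0 hβ0 with h | h <;> rcases cas β1 hβ1 with h' | h'
      · exact hne (h'.trans h.symm)
      · rw [h] at he0
        exact excl β1 h' j1 k0 hj10 hk1 he1 he0
      · rw [h'] at he1
        exact excl β0 h k0 j1 hk0 hj11 he0 he1
      · exact g1_ee hb2 hε0 hp hpε (N.hpX β1 h') (N.hpX β0 h) (N.hX β1 h' β0 h hne)
          (N.hQ β1 h' β0 h hne) (D.bl1 β1 hβ1 β0 hβ0) hk0 he1 he0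
    rcases huv1 with ⟨h1, h2⟩ | ⟨h1, h2⟩
    · rw [h1, h2, hne]; exact ⟨Col.refl_left _ _, Col.refl_right _ _⟩
    · rw [h1, h2, hne]; exact ⟨Col.refl_right _ _, Col.refl_left _ _⟩
  have hLm : ¬ Par (ε, 0) (b1, b2) t2 β0 := by
    intro h
    have h1 := hbepar t2 (by rw [hB2]; exact Finset.mem_insert_self _ _) β0
      (by rw [hB2]; exact Finset.mem_insert_of_mem hβ0) (X.ht2B1 β0 hβ0)
    exact h1 h.swap_left
  have nopar0 : ∀ β ∈ B, ε * (t2.2 - β.2) ≠ G * DX b1 b2 β := by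
    intro β hβ h
    have h1 : p ∣ G * DX b1 b2 β := by rw [← h]; exact Dvd.dvd.mul_right hpε _
    rcases hp.dvd_or_dvd h1 with h2 | h2
    · exact hpG h2
    · exact N.hpX β hβ h2
  have noparE : ∀ β ∈ B1, ε * (t2.2 - β.2) ≠ G * DX b1 b2 β := by
    intro β hβ h
    rcases cas β hβ with h' | h'
    · rw [h', Dt] at h
      simp only [sub_zero] at h
      rcases cas β0 hβ0 with h0 | h0
      · rw [h0, Dt] at he0
        exact g1_ptt hb2 hG0 htau0 htau h he0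
      · exact g1_pt hb2 hε0 (by rw [mul_comm]; exact hτX β0 h0) (K.hy β0 h0) (g4 β0 hβ0) hk0 h he0
    · exact nopar0 β h' h
  have parsE : ∀ u ∈ B2, ∀ v ∈ B2, u ≠ v → Par (ε, 0) (G * b1, G * b2) u v → ∃ r ∈ R2, Col u v r :=
    fun u hu v hv huv h => X.pars ε (Or.inr rfl) noparE u hu v hv huv h.swap_left
  have done : α * (t2.2 - β0.2) ≠ G * DX b1 b2 β0 → Win R2 B2 := by
    intro hnp
    refine F.winE (p := t2) (q := β0) (Y := w0) hbeU2.symm (X.ht2B1 β0 hβ0) hw0.swap12 hcol0.1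
      hw0R hcol0.2 hsing hLm (fun h => hnp (par_t2 hs2 h)) hbepar' parsE
      (X.hparm β0 hβ0 hTC)
  rcases cas β0 hβ0 with h0 | h0
  · by_cases hpa : α * (t2.2 - β0.2) = G * DX b1 b2 β0
    · -- `t t2 ∥ g a`: `g a` is uncovered
      rw [h0, Dt] at hpa
      simp only [sub_zero] at hpa
      refine F.winU hbeU2 (Or.inr ?_) (fun u hu v hv huv h => absurd h (hbepar u hu v hv huv))
      intro w hw hwR _ u hu v hv huv hc
      rcases X.hits α (Or.inl rfl) w hw hwR u hu v hv huv hc with h | ⟨β, hβ, _, j, hj0, hj1, hj⟩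
      · exact h
      exfalso
      rcases cas β hβ with h' | h'
      · rw [h', Dt] at hj
        exact g1_ptt hb2 hG0 htau0 htaua hpa hj
      · exact g1_pt hb2 hα (by rw [mul_comm]; exact hτX β h') (K.hy β h') (g3 β hβ) hj0 hpa hj
    · exact done hpa
  · apply done
    intro h
    have hA : b2 * (ε * DX b1 b2 β0 - α * DX b1 b2 β0) ≠ 0 := by
      intro h1
      have h2 := N.hs β0 h0 β0 h0
      have e : b2 * (α * DX b1 b2 β0 - ε * DX b1 b2 β0) = 0 := by linear_combination -h1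
      rw [e, abs_zero] at h2
      exact absurd h2 (not_lt.mpr (abs_nonneg _))
    rcases g1_par hA (D.gA5 β0 hβ0 β0 hβ0) h he0 with h1 | h1
    · have e1 : |b2 * (α * DX b1 b2 β0 - ε * DX b1 b2 β0)| * |k0| =
          |DX b1 b2 β0 * (α * b2 - DX b1 b2 β0)| := by
        rw [← abs_mul]
        congr 1
        linear_combination -h1.1
      have e2 : |b2 * (α * DX b1 b2 β0 - ε * DX b1 b2 β0)| ≤
          |b2 * (α * DX b1 b2 β0 - ε * DX b1 b2 β0)| * |k0| :=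
        le_mul_of_one_le_right (abs_nonneg _) (Int.one_le_abs hk0)
      have := N.hs β0 h0 β0 h0
      linarith
    · exact hα h1

end Pool.Agent.K4L
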