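import Pool.Agent.K4L.K3UKP

/-!
# K3U, case gamma2 (`b2 τ = y0 ε`), complete
-/

namespace Pool.Agent.K4L

open Filter

/-- the lattice points of `g' e` -/
theorem ge_param {G b1 b2 ε : ℤ} (hG : G * b2 ≠ 0) (hco : IsCoprime (ε - G * b1) (G * b2))
    {z : Pt} (hz : Col (G * b1, G * b2) (ε, 0) z) : ∃ k, z = Pk G b1 b2 ε k := by
  unfold Col at hz
  simp only at hz
  have h1 : (G * b2) ∣ (z.2 - G * b2) := by
    have h2 : (G * b2) ∣ (ε - G * b1) * (z.2 - G * b2) :=
      ⟨-(z.1 - G * b1), by rw [hz]; ring⟩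
    exact hco.symm.dvd_of_dvd_mul_left h2
  obtain ⟨m, hm⟩ := h1
  refine ⟨-m, ?_⟩
  unfold Pk
  refine Prod.ext ?_ ?_
  · simp only
    apply mul_left_cancel₀ hG
    rw [hm] at hz
    linear_combination hz
  · simp only
    linear_combination hm

section
variable {R B : Finset Pt} {α b1 b2 G : ℤ}

theorem GoodG.gtW (g : GoodG R B α b1 b2 G) : nW B α b2 < |G| := by
  by_contra h
  push Not at h
  exact g.ndvd G g.G0 h (dvd_refl G)

/-- primes in the class `1` -/
theorem exists_prime_class {P : ℤ → Prop} (h : ∀ᶠ G : ℤ in cofinite, P G) {n : ℕ} (hn : n ≠ 0) :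
    ∃ G : ℤ, Prime G ∧ (n : ℤ) ∣ G - 1 ∧ P G := by
  have hfin : ({G : ℤ | ¬ P G}).Finite := h
  obtain ⟨M, hM⟩ := hfin.bddAbove
  obtain ⟨p, hp, hpM, hpn⟩ := Nat.exists_prime_gt_modEq_one (k := n) M.toNat hn
  refine ⟨p, Nat.prime_iff_prime_int.mp hp, ?_, ?_⟩
  · have h1 := (Nat.modEq_iff_dvd.mp hpn.symm)
    push_cast at h1
    exact h1
  · by_contra hcon
    have h1 := hM (show (p : ℤ) ∈ {G : ℤ | ¬ P G} from hcon)
    have h2 : M ≤ M.toNat := Int.self_le_toNat M
    have h3 : (M.toNat : ℤ) < p := by exact_mod_cast hpM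
    linarith

/-- the kill: Red plays `P = Pk κ` on `g' e` -/
theorem kill_start (K : K3C R B α b1 b2) (g : GoodG R B α b1 b2 G) (κ : ℤ) (hκ0 : κ ≠ 0)
    (hκ1 : κ ≠ 1) :
    ∀ᶠ ε : ℤ in cofinite, IsCoprime (ε - G * b1) (G * b2) → ∀ β0 ∈ B, ∀ τ s1 s,
      b2 * τ = β0.2 * ε → s1 * b2 = s * b1 →
      ((τ, 0) : Pt) ∉ insert ((ε, 0) : Pt) R → ((τ, 0) : Pt) ∉ B →
      ((s1, s) : Pt) ∉ insert ((G * b1, G * b2) : Pt) (insert ((ε, 0) : Pt) R) →
      ((s1, s) : Pt) ∉ insert ((τ, 0) : Pt) B →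
      NoThreat (insert (G * b1, G * b2) (insert (ε, 0) R)) (insert (s1, s) (insert (τ, 0) B)) →
      (Col (s1, s) (τ, 0) (Pk G b1 b2 ε κ) ∨
        ∀ z, Col (G * b1, G * b2) (ε, 0) z → z.2 ≠ G * b2 → ¬ Col (s1, s) (τ, 0) z) →
      (∀ k R2 B2, KPos R B α b1 b2 G κ k ε τ s1 s β0.2 R2 B2 → Win R2 B2) →
      Win (insert (G * b1, G * b2) (insert (ε, 0) R)) (insert (s1, s) (insert (τ, 0) B)) := by
  have hb2 := K.hb2
  have hG0 := g.G0
  have hGb : G * b2 ≠ 0 := mul_ne_zero hG0 hb2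
  have C1 : ∀ᶠ ε : ℤ in cofinite, ∀ z ∈ R ∪ B, (b2 * κ) * ε + 0 ≠ b2 * z.1 - b1 * z.2 :=
    ev_fin _ (fun z _ => ev_linne _ _ _ (Or.inl (mul_ne_zero hb2 hκ0)))
  filter_upwards [g2_hits K G hG0, g2_alive K G hG0, C1, ev_abs 0] with ε hit al c1 c2
  intro hco β0 hβ0 τ s1 s hτ hs htR htB hsR hsB hN2 hkill hwin
  have hε : ε ≠ 0 := by rintro rfl; simp at c2
  obtain ⟨R1, hR1⟩ : ∃ R1 : Finset Pt, R1 = insert ((G * b1, G * b2) : Pt) (insert (ε, 0) R) :=
    ⟨_, rfl⟩
  obtain ⟨B1, hB1⟩ : ∃ B1 : Finset Pt, B1 = insert ((s1, s) : Pt) (insert (τ, 0) B) := ⟨_, rfl⟩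
  obtain ⟨P, hP⟩ : ∃ P, P = Pk G b1 b2 ε κ := ⟨_, rfl⟩
  have hPX : b2 * P.1 - b1 * P.2 = b2 * κ * ε := by rw [hP]; exact Pk_X _ _ _ _ _
  have hP2 : P.2 = (1 - κ) * G * b2 := by rw [hP]; exact Pk_2 _ _ _ _ _
  have hPX0 : b2 * P.1 - b1 * P.2 ≠ 0 := by
    rw [hPX]; exact mul_ne_zero (mul_ne_zero hb2 hκ0) hε
  have hP20 : P.2 ≠ 0 := by
    rw [hP2]
    exact mul_ne_zero (mul_ne_zero (fun h => hκ1 (by linarith)) hG0) hb2
  have gR : ((G * b1, G * b2) : Pt) ∈ R1 := by rw [hR1]; exact Finset.mem_insert_self _ _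
  have eR : ((ε, 0) : Pt) ∈ R1 := by
    rw [hR1]; exact Finset.mem_insert_of_mem (Finset.mem_insert_self _ _)
  have hRR : ∀ z ∈ R, z ∈ R1 := by
    intro z hz
    rw [hR1]
    exact Finset.mem_insert_of_mem (Finset.mem_insert_of_mem hz)
  have y0b : β0.2 ≠ b2 := by
    intro h
    rw [h] at hτ
    have := mul_left_cancel₀ hb2 hτ
    rw [this] at htR
    exact htR (Finset.mem_insert_self _ _)
  have htε : τ ≠ ε := by rintro rfl; exact htR (Finset.mem_insert_self _ _)
  have hsne : s ≠ G * b2 := by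
    intro h
    apply hsR
    have : s1 = G * b1 := by
      apply mul_right_cancel₀ hb2
      rw [hs, h]; ring
    rw [this, h]; exact Finset.mem_insert_self _ _
  have hB2 : ∀ β ∈ B1, β ∉ R1 := by
    rw [hR1, hB1]
    intro β hβ hR
    rcases Finset.mem_insert.mp hβ with hβ | hβ
    · rw [hβ] at hR; exact hsR hR
    · rcases Finset.mem_insert.mp hR with hR | hR
      · rcases Finset.mem_insert.mp hβ with hβ | hβ
        · rw [hR] at hβ
          exact hGb (congrArg Prod.snd hβ)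
        · rw [hR] at hβ; exact g.gB hβ
      · rcases Finset.mem_insert.mp hβ with hβ | hβ
        · rw [hβ] at hR; exact htR hR
        · rcases Finset.mem_insert.mp hR with hR | hR
          · rw [hR] at hβ; exact K.hy _ hβ rfl
          · exact K.hB β hβ hR
  have hL : ALine R1 B1 (G * b1, G * b2) (ε, 0) := by
    refine ⟨gR, eR, ?_, ?_⟩
    · intro h
      exact hGb (congrArg Prod.snd h)
    · intro z hz hc
      rw [hB1] at hz
      rcases Finset.mem_insert.mp hz with rfl | hz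
      · unfold Col at hc
        simp only at hc
        have : (s - G * b2) * ε = 0 := by linear_combination hc - G * hs
        rcases mul_eq_zero.mp this with h | h
        · exact hsne (by linarith)
        · exact hε h
      · rcases Finset.mem_insert.mp hz with rfl | hz
        · unfold Col at hc
          simp only at hc
          have : G * b2 * (τ - ε) = 0 := by linear_combination hc
          rcases mul_eq_zero.mp this with h | h
          · exact hGb h
          · exact htε (by linarith)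
        · exact al z hz hc
  have hPR : P ∉ R1 := by
    rw [hR1]
    intro h
    rcases Finset.mem_insert.mp h with h | h
    · apply hPX0
      rw [h]; ring
    · rcases Finset.mem_insert.mp h with h | h
      · apply hP20; rw [h]
      · exact c1 P (Finset.mem_union_left _ h) (by rw [hPX]; ring)
  have hPB : P ∉ B1 := by
    rw [hB1]
    intro h
    rcases Finset.mem_insert.mp h with h | h
    · apply hPX0
      rw [h]
      simp only
      linear_combination hs
    · rcases Finset.mem_insert.mp h with h | h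
      · apply hP20; rw [h]
      · exact c1 P (Finset.mem_union_right _ h) (by rw [hPX]; ring)
  have hPc : Col (G * b1, G * b2) (ε, 0) P := by
    rw [hP]; unfold Col Pk; simp only; ring
  have hU : Uncov (insert P R1) B1 (G * b1, G * b2) (ε, 0) := by
    intro z hz hzR _
    have hzg : z.2 ≠ G * b2 := by
      intro h
      apply hzR
      have : z = (G * b1, G * b2) := by
        refine Prod.ext ?_ h
        unfold Col at hz
        simp only at hz
        rw [h] at hz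
        have h1 : G * b2 * (z.1 - G * b1) = 0 := by linear_combination hz
        rcases mul_eq_zero.mp h1 with h1 | h1
        · exact absurd h1 hGb
        · simp only; linarith
      rw [this]; exact Finset.mem_insert_of_mem gR
    obtain ⟨k1, k2, k3, _⟩ := hit β0 hβ0 τ hτ y0b z hz hzg
    rw [hB1]
    have main := pair_cases (B := B) (t2 := (s1, s)) (t := (τ, 0)) (P := fun u v => Col u v z →
      (∀ w ∈ insert P R1, ¬ Col u v w) → False) ?_ ?_ ?_ ?_ ?_
    · intro u hu v hv huv hc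
      by_contra hd
      push Not at hd
      exact main u hu v hv huv hc hd
    · intro u v h hc hred
      exact h hc.swap12 (fun w hw hcw => hred w hw hcw.swap12)
    · intro u hu v hv huv hc hred
      exact k1 u hu v hv huv hc (hred _ (Finset.mem_insert_of_mem gR))
        (hred _ (Finset.mem_insert_of_mem (hRR _ K.bR))) hco
    · intro β hβ hc hred
      exact g.y K β hβ ⟨β0.2, k2 β hβ hc⟩
    · intro β hβ hc hred
      obtain ⟨h1, h2⟩ := k3 s1 s hs β hβ hc
      obtain ⟨k, hk⟩ := ge_param hGb hco hz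
      apply g.y K β hβ
      rw [h1, ← h2, hk, Pk_2]
      exact ⟨(1 - k) * b2, by ring⟩
    · intro hc hred
      rcases hkill with h | h
      · apply hred P (Finset.mem_insert_self _ _)
        rw [hP]; exact h
      · exact h z hz hzg hc
  rw [← hR1, ← hB1] at hN2 ⊢
  refine win_force hL hPR hPB hPc (hN2.mono (Finset.subset_insert _ _) (Finset.Subset.refl _)) ?_
  intro y hyR hyB hyc
  obtain ⟨k, hk⟩ := ge_param hGb hco hyc
  apply hwin k
  exact {
    K := K
    hB2 := by rw [hk, hB1]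
    hP := by rw [← hP]; exact Finset.mem_insert_self _ _
    hg := Finset.mem_insert_of_mem gR
    he := Finset.mem_insert_of_mem eR
    hc := Finset.mem_insert_of_mem (hRR _ K.cR)
    ha := Finset.mem_insert_of_mem (hRR _ K.aR)
    hb := Finset.mem_insert_of_mem (hRR _ K.bR)
    hN := (hN2.mono (Finset.subset_insert _ _) (Finset.Subset.refl _)).of_uncov hU
      (Finset.Subset.refl _) hyc hyR hyB
    hB := by
      intro β hβ hR
      rcases Finset.mem_insert.mp hβ with rfl | hβ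
      · exact hyR hR
      · rcases Finset.mem_insert.mp hR with rfl | hR
        · exact hPB hβ
        · exact hB2 β hβ hR
    hτ := hτ
    hs := hs }

theorem ev_s1 {P : ℤ → ℤ → Prop} (s : ℤ) (hb2 : b2 ≠ 0)
    (h : ∀ s1, s1 * b2 = s * b1 → ∀ᶠ ρ : ℤ in cofinite, P s1 ρ) :
    ∀ᶠ ρ : ℤ in cofinite, ∀ s1, s1 * b2 = s * b1 → P s1 ρ := by
  by_cases he : ∃ s1, s1 * b2 = s * b1
  · obtain ⟨s1, h1⟩ := he
    filter_upwards [h s1 h1] with ρ hρ s1' h1'
    have : s1' = s1 := mul_right_cancel₀ hb2 (h1'.trans h1.symm)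
    rw [this]; exact hρ
  · exact Filter.Eventually.of_forall (fun ρ s1 h1 => absurd ⟨s1, h1⟩ he)

/-- gamma2, for a good `G` -/
theorem k3u_g2G (K : K3C R B α b1 b2) (g : GoodG R B α b1 b2 G)
    (hF : ForkSols 1 G (B.card + 4)) (hprim : IsCoprime (α - b1) b2) (hG1 : b2 ∣ G - 1) :
    ∀ᶠ ρ : ℤ in cofinite, GoodRho B α b2 G ρ → ∀ β0 ∈ B, ∀ τ, b2 * τ = β0.2 * (α * ρ) →
      ((τ, 0) : Pt) ∉ insert ((α * ρ, 0) : Pt) R → ((τ, 0) : Pt) ∉ B →
      NoThreat (insert (α * ρ, 0) R) (insert (τ, 0) B) →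
      Uncov (insert (α * ρ, 0) R) (insert (τ, 0) B) (0, 0) (b1, b2) →
      (∃ Y, Col (b1, b2) (α * ρ, 0) Y ∧ Y ∉ insert ((α * ρ, 0) : Pt) R ∧ Col (τ, 0) β0 Y ∧
        ∀ w ∈ insert ((α * ρ, 0) : Pt) R, ¬ Col (τ, 0) β0 w) →
      Win (insert (α * ρ, 0) R) (insert (τ, 0) B) := by
  have hb2 := K.hb2
  have hα := K.hα
  have hG0 := g.G0
  have hGb : G * b2 ≠ 0 := mul_ne_zero hG0 hb2
  have hGone : G ≠ 1 := by rintro rfl; exact g.hGp.not_unit isUnit_one
  obtain ⟨S, hS⟩ : ∃ S, S = ∑ β ∈ B, (|β.2| + |β.2 * (b2 - β.2)|) := ⟨_, rfl⟩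
  -- the ranges of the P-kill
  obtain ⟨Z, hZ⟩ : ∃ Z : ℤ, Z = ∑ β ∈ B, (|(β.2 - b2) * β.2 * G| + |β.2|) := ⟨_, rfl⟩
  have hZs : ∀ β ∈ B, |(β.2 - b2) * β.2 * G| + |β.2| ≤ Z := by
    intro β hβ
    rw [hZ]
    exact Finset.single_le_sum (f := fun β : Pt => |(β.2 - b2) * β.2 * G| + |β.2|)
      (fun z _ => by positivity) hβ
  have C1 : ∀ᶠ ρ : ℤ in cofinite, ∀ s ∈ Finset.Icc (-S) S, ∀ β0 ∈ B, ∀ s1, s1 * b2 = s * b1 →
      s ≠ 0 → GoodRho B α b2 G ρ →
      ∀ k τ R2 B2, KPos R B α b1 b2 G 2 k (α * ρ) τ s1 s β0.2 R2 B2 → Win R2 B2 := by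
    refine ev_fin _ (fun s hs => ev_fin _ (fun β0 hβ0 => ev_s1 s hb2 (fun s1 h1 => ?_)))
    by_cases hs0 : s = 0
    · exact Filter.Eventually.of_forall (fun ρ h => absurd hs0 h)
    filter_upwards [kc_B K g hβ0 s s1 h1 hs0 (g.nears s (by rw [← hS]; exact hs) β0 hβ0)]
      with ρ h _
    exact h
  have C2 : ∀ᶠ ρ : ℤ in cofinite, ∀ β0 ∈ B, ∀ s1, s1 * b2 = (G * β0.2) * b1 →
      GoodRho B α b2 G ρ →
      ∀ k τ R2 B2, KPos R B α b1 b2 G 2 k (α * ρ) τ s1 (G * β0.2) β0.2 R2 B2 → Win R2 B2 :=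
    ev_fin _ (fun β0 hβ0 => ev_s1 _ hb2 (fun s1 h1 => kc_E K g hF hβ0 s1 h1))
  have C3 : ∀ᶠ ρ : ℤ in cofinite, ∀ κ ∈ Finset.Icc (-Z) Z, ∀ s ∈ Finset.Icc
      (-(|κ - 1| * |G * b2| * Z)) (|κ - 1| * |G * b2| * Z), ∀ β0 ∈ B,
      ∀ s1, s1 * b2 = s * b1 → κ ≠ 0 → κ ≠ 1 →
      s ≠ 0 → s * (κ * b2 - β0.2) = (κ - 1) * G * b2 * β0.2 → (∀ β ∈ B, β.2 ≠ s) →
      GoodRho B α b2 G ρ →
      ∀ k τ R2 B2, KPos R B α b1 b2 G κ k (α * ρ) τ s1 s β0.2 R2 B2 → Win R2 B2 := by
    refine ev_fin _ (fun κ _ => ev_fin _ (fun s _ => ev_fin _ (fun β0 hβ0 =>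
      ev_s1 s hb2 (fun s1 h1 => ?_))))
    by_cases h2 : κ = 0
    · exact Filter.Eventually.of_forall (fun ρ h => absurd h2 h)
    by_cases h3 : κ = 1
    · exact Filter.Eventually.of_forall (fun ρ _ h => absurd h3 h)
    by_cases h4 : s = 0
    · exact Filter.Eventually.of_forall (fun ρ _ _ h => absurd h4 h)
    by_cases h5 : s * (κ * b2 - β0.2) = (κ - 1) * G * b2 * β0.2
    swap
    · exact Filter.Eventually.of_forall (fun ρ _ _ _ h => absurd h h5)
    by_cases h6 : ∀ β ∈ B, β.2 ≠ s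
    swap
    · exact Filter.Eventually.of_forall (fun ρ _ _ _ _ h => absurd h h6)
    filter_upwards [kc_P K g hF hβ0 κ s s1 h1 h2 h3 h4 h5 h6] with ρ h _ _ _ _ _
    exact h
  have C4 : ∀ᶠ ρ : ℤ in cofinite, ∀ κ ∈ Finset.Icc (-Z) Z, κ ≠ 0 → κ ≠ 1 →
      IsCoprime (α * ρ - G * b1) (G * b2) → ∀ β0 ∈ B, ∀ τ s1 s,
      b2 * τ = β0.2 * (α * ρ) → s1 * b2 = s * b1 →
      ((τ, 0) : Pt) ∉ insert ((α * ρ, 0) : Pt) R → ((τ, 0) : Pt) ∉ B →
      ((s1, s) : Pt) ∉ insert ((G * b1, G * b2) : Pt) (insert ((α * ρ, 0) : Pt) R) →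
      ((s1, s) : Pt) ∉ insert ((τ, 0) : Pt) B →
      NoThreat (insert (G * b1, G * b2) (insert (α * ρ, 0) R))
        (insert (s1, s) (insert (τ, 0) B)) →
      (Col (s1, s) (τ, 0) (Pk G b1 b2 (α * ρ) κ) ∨
        ∀ z, Col (G * b1, G * b2) (α * ρ, 0) z → z.2 ≠ G * b2 → ¬ Col (s1, s) (τ, 0) z) →
      (∀ k R2 B2, KPos R B α b1 b2 G κ k (α * ρ) τ s1 s β0.2 R2 B2 → Win R2 B2) →
      Win (insert (G * b1, G * b2) (insert (α * ρ, 0) R))
        (insert (s1, s) (insert (τ, 0) B)) := by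
    refine ev_fin _ (fun κ _ => ?_)
    by_cases h2 : κ = 0
    · exact Filter.Eventually.of_forall (fun ρ h => absurd h2 h)
    by_cases h3 : κ = 1
    · exact Filter.Eventually.of_forall (fun ρ _ h => absurd h3 h)
    filter_upwards [ev_mul hα (kill_start K g κ h2 h3)] with ρ h _ _
    exact h
  filter_upwards [C1, C2, C3, C4, ev_mul hα (kill_start K g 2 two_ne_zero (by norm_num)),
    ev_mul hα (k3u_g2_leaf K G hG0 hGone (fun β hβ β0 _ h => g.y K β hβ ⟨β0.2, h⟩)
      (by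
        intro β hβ hc
        apply g.ga β hβ
        unfold Col at hc
        simp only at hc
        linear_combination hc)), ev_abs 0] with ρ c1 c2 c3 c4 c5 c6 c7
  intro r β0 hβ0 τ hτ htR htB hN1 hcbU hY
  have hρ0 : ρ ≠ 0 := by rintro rfl; simp at c7
  have hε0 : α * ρ ≠ 0 := mul_ne_zero hα hρ0
  have y0b : β0.2 ≠ b2 := by
    intro h
    rw [h] at hτ
    have := mul_left_cancel₀ hb2 hτ
    rw [this] at htR
    exact htR (Finset.mem_insert_self _ _)
  have hy00 := K.hy β0 hβ0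
  have hco : IsCoprime (α * ρ - G * b1) (G * b2) := by
    obtain ⟨c, hc⟩ := r.dG
    obtain ⟨d, hd⟩ := hG1
    apply IsCoprime.mul_right
    · have h1 : IsCoprime G α := (Prime.coprime_iff_not_dvd g.hGp).mpr (g.al K)
      have h2 : α * ρ - G * b1 = α + G * (α * (b2 * c) - b1) := by linear_combination α * hc
      rw [h2]
      exact (IsCoprime.add_mul_left_right h1 _).symm
    · have h2 : α * ρ - G * b1 = (α - b1) + b2 * (α * (G * c) - b1 * d) := by
        linear_combination α * hc - b1 * hd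
      rw [h2]
      exact (IsCoprime.add_mul_left_right hprim.symm _).symm
  -- Red plays `g'`
  have hgR : ((G * b1, G * b2) : Pt) ∉ insert ((α * ρ, 0) : Pt) R := by
    intro h
    rcases Finset.mem_insert.mp h with h | h
    · exact hGb (congrArg Prod.snd h)
    · exact g.gR h
  have hgB : ((G * b1, G * b2) : Pt) ∉ insert ((τ, 0) : Pt) B := by
    intro h
    rcases Finset.mem_insert.mp h with h | h
    · exact hGb (congrArg Prod.snd h)
    · exact g.gB h
  have hτ0 : τ ≠ 0 := by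
    rintro rfl
    exact htR (Finset.mem_insert_of_mem K.cR)
  have hcb : ALine (insert (α * ρ, 0) R) (insert (τ, 0) B) (0, 0) (b1, b2) := by
    refine K.hM.insert (Finset.subset_insert _ _) ?_
    intro h
    unfold Col at h
    simp only at h
    have : b2 * τ = 0 := by linear_combination -h
    rcases mul_eq_zero.mp this with h | h
    · exact hb2 h
    · exact hτ0 h
  refine win_force hcb hgR hgB (by unfold Col; simp only; ring)
    (hN1.mono (Finset.subset_insert _ _) (Finset.Subset.refl _)) ?_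
  intro t2 ht2R ht2B ht2c
  obtain ⟨s1, s⟩ := t2
  have hs : s1 * b2 = s * b1 := by
    unfold Col at ht2c
    simp only at ht2c
    linear_combination -ht2c
  have hN2 : NoThreat (insert (G * b1, G * b2) (insert (α * ρ, 0) R))
      (insert (s1, s) (insert (τ, 0) B)) :=
    hN1.of_uncov hcbU (Finset.subset_insert _ _) ht2c
      (fun h => ht2R (Finset.mem_insert_of_mem h)) ht2B
  have hs0 : s ≠ 0 := by
    rintro rfl
    apply ht2R
    have : s1 = 0 := by
      rcases mul_eq_zero.mp (hs.trans (zero_mul _)) with h | h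
      · exact h
      · exact absurd h hb2
    rw [this]
    exact Finset.mem_insert_of_mem (Finset.mem_insert_of_mem K.cR)
  have hsg : s ≠ G * b2 := by
    intro h
    apply ht2R
    have : s1 = G * b1 := by
      apply mul_right_cancel₀ hb2
      rw [hs, h]; ring
    rw [this, h]; exact Finset.mem_insert_self _ _
  have hsb : s ≠ b2 := by
    intro h
    apply ht2R
    have : s1 = b1 := by
      apply mul_right_cancel₀ hb2
      rw [hs, h]; ring
    rw [this, h]
    exact Finset.mem_insert_of_mem (Finset.mem_insert_of_mem K.bR)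
  -- the hit of `g' e` by `t2 t`
  have hrel : ∀ κ, Col (s1, s) (τ, 0) (Pk G b1 b2 (α * ρ) κ) →
      κ * b2 * (s - G * β0.2) = β0.2 * (s - G * b2) := by
    intro κ hc
    have h1 := colX (b1 := b1) (b2 := b2) hc
    rw [Pk_X, Pk_2] at h1
    simp only at h1
    apply mul_left_cancel₀ hε0
    linear_combination h1 - ((1 - κ) * G * b2 - s) * hτ + (1 - κ) * G * b2 * hs
  by_cases hnear : s ∈ Finset.Icc (-S) S
  · -- `t2` near
    refine c5 hco β0 hβ0 τ s1 s hτ hs htR htB ht2R ht2B hN2 ?_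
      (fun k R2 B2 Q => c1 s hnear β0 hβ0 s1 hs hs0 r k τ R2 B2 Q)
    right
    intro z hz hzg hc
    obtain ⟨κ, rfl⟩ := ge_param hGb hco hz
    have h1 := hrel κ hc
    have hss := g.nears s (by rw [← hS]; exact hnear) β0 hβ0
    have hss0 := abs_nonneg (s * s)
    have hGs : ¬ G ∣ s := by
      intro h
      have := Int.le_of_dvd (abs_pos.mpr hs0) ((abs_dvd_abs _ _).mpr h)
      have := abs_nonneg s
      linarith
    have hq : s * (κ * b2 - β0.2) = G * ((κ - 1) * b2 * β0.2) := by linear_combination h1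
    have hqd : G ∣ s * (κ * b2 - β0.2) := ⟨_, hq⟩
    rcases g.hGp.dvd_or_dvd hqd with h | h
    · exact hGs h
    obtain ⟨d, hd⟩ := h
    have h2 : d * (s - G * β0.2) = (β0.2 - b2) * β0.2 := by
      apply mul_left_cancel₀ hG0
      rw [hd] at hq
      linear_combination hq + (G * β0.2) * hd
    have h3 : d ≠ 0 := by
      rintro rfl
      rw [zero_mul] at h2
      exact mul_ne_zero (sub_ne_zero.mpr y0b) hy00 h2.symm
    have h4 : |s - G * β0.2| ≤ |(β0.2 - b2) * β0.2| := by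
      rw [← h2, abs_mul]
      exact le_mul_of_one_le_left (abs_nonneg _) (Int.one_le_abs h3)
    have h5 : |G| ≤ |s - G * β0.2| + |s| := by
      have h6 : |G| ≤ |G * β0.2| := by
        rw [abs_mul]
        exact le_mul_of_one_le_right (abs_nonneg _) (Int.one_le_abs hy00)
      have h7 := abs_sub s (s - G * β0.2)
      have h8 : s - (s - G * β0.2) = G * β0.2 := by ring
      rw [h8] at h7
      linarith
    have a0 := @nY_ge B α b2
    have a1 := @nY_y B α b2 β0 hβ0
    have a2 := @nY_b2 B α b2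
    obtain ⟨_, p2, _⟩ := pow_le5 a0
    have a3 := @nW_Y B α b2
    have a4 : |(β0.2 - b2) * β0.2| ≤ 2 * nY B α b2 ^ 2 := by
      rw [abs_mul]
      have h1 := abs_sub β0.2 b2
      have h2 := abs_nonneg β0.2
      have h3 := abs_nonneg (β0.2 - b2)
      nlinarith
    have hGW := g.gtW
    linarith
  by_cases hpar : s = G * β0.2
  · subst hpar
    refine c5 hco β0 hβ0 τ s1 _ hτ hs htR htB ht2R ht2B hN2 ?_
      (fun k R2 B2 Q => c2 β0 hβ0 s1 hs r k τ R2 B2 Q)
    right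
    intro z hz hzg hc
    obtain ⟨κ, rfl⟩ := ge_param hGb hco hz
    have h1 := hrel κ hc
    rw [sub_self, mul_zero] at h1
    rcases mul_eq_zero.mp h1.symm with h | h
    · exact hy00 h
    · exact hsg (by linarith)
  have hsS : S < |s| := by
    by_contra hle
    push Not at hle
    exact hnear (Finset.mem_Icc.mpr (abs_le.mp hle))
  have hys : ∀ β ∈ B, β.2 ≠ s := by
    intro β hβ h
    have h1 : |β.2| + |β.2 * (b2 - β.2)| ≤ S := by
      rw [hS]
      exact Finset.single_le_sum (f := fun β : Pt => |β.2| + |β.2 * (b2 - β.2)|)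
        (fun z _ => by positivity) hβ
    rw [h] at h1
    have h2 := abs_nonneg (s * (b2 - s))
    linarith
  by_cases hhit : ∃ z, Col (G * b1, G * b2) (α * ρ, 0) z ∧ z.2 ≠ G * b2 ∧ Col (s1, s) (τ, 0) z
  · obtain ⟨z, hz, hzg, hc⟩ := hhit
    obtain ⟨κ, rfl⟩ := ge_param hGb hco hz
    have h1 := hrel κ hc
    have hq : s * (κ * b2 - β0.2) = (κ - 1) * G * b2 * β0.2 := by linear_combination h1
    have hκ0 : κ ≠ 0 := by
      rintro rfl
      apply hzg
      rw [Pk_2]; ring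
    have hκ1 : κ ≠ 1 := by
      rintro rfl
      have : s * (b2 - β0.2) = 0 := by linear_combination hq
      rcases mul_eq_zero.mp this with h | h
      · exact hs0 h
      · exact y0b (by linarith)
    have hq0 : κ * b2 - β0.2 ≠ 0 := by
      intro h
      rw [h, mul_zero] at hq
      exact mul_ne_zero (mul_ne_zero (mul_ne_zero (sub_ne_zero.mpr hκ1) hG0) hb2) hy00 hq.symm
    have hqd : (κ * b2 - β0.2) ∣ (β0.2 - b2) * β0.2 * G :=
      ⟨s - G * β0.2, by linear_combination -hq⟩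
    have hqle : |κ * b2 - β0.2| ≤ |(β0.2 - b2) * β0.2 * G| :=
      Int.le_of_dvd (abs_pos.mpr (mul_ne_zero (mul_ne_zero (sub_ne_zero.mpr y0b) hy00) hG0))
        ((abs_dvd_abs _ _).mpr hqd)
    have hκZ : κ ∈ Finset.Icc (-Z) Z := by
      have h2 : |κ| ≤ |κ * b2| := by
        rw [abs_mul]
        exact le_mul_of_one_le_right (abs_nonneg _) (Int.one_le_abs hb2)
      have h3 : |κ * b2| ≤ |κ * b2 - β0.2| + |β0.2| := by
        have := abs_add_le (κ * b2 - β0.2) β0.2
        rwa [sub_add_cancel] at this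
      have h4 := hZs β0 hβ0
      rw [Finset.mem_Icc]
      apply abs_le.mp
      linarith
    have hsZ : s ∈ Finset.Icc (-(|κ - 1| * |G * b2| * Z)) (|κ - 1| * |G * b2| * Z) := by
      have h2 : |s| ≤ |κ - 1| * |G * b2| * |β0.2| := by
        have h3 : |s| * |κ * b2 - β0.2| = |κ - 1| * |G * b2| * |β0.2| := by
          rw [← abs_mul, hq, ← abs_mul, ← abs_mul]
          ring_nf
        rw [← h3]
        exact le_mul_of_one_le_right (abs_nonneg _) (Int.one_le_abs hq0)
      have h4 := hZs β0 hβ0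
      have h5 : |β0.2| ≤ Z := by
        have := abs_nonneg ((β0.2 - b2) * β0.2 * G)
        linarith
      have h6 : |κ - 1| * |G * b2| * |β0.2| ≤ |κ - 1| * |G * b2| * Z :=
        mul_le_mul_of_nonneg_left h5 (by positivity)
      rw [Finset.mem_Icc]
      apply abs_le.mp
      linarith
    exact c4 κ hκZ hκ0 hκ1 hco β0 hβ0 τ s1 s hτ hs htR htB ht2R ht2B hN2 (Or.inl hc)
      (fun k R2 B2 Q => c3 κ hκZ s hsZ β0 hβ0 s1 hs hκ0 hκ1 hs0 hq hys r k τ R2 B2 Q)
  · have hco1 : IsCoprime (α * ρ - b1) b2 := by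
      obtain ⟨c, hc⟩ := r.dG
      have h2 : α * ρ - b1 = (α - b1) + b2 * (α * (G * c)) := by
        linear_combination α * hc
      rw [h2]
      exact (IsCoprime.add_mul_left_right hprim.symm _).symm
    have hbα : b2 ∣ α * ρ - α := by
      obtain ⟨c, hc⟩ := r.dG
      exact ⟨α * (G * c), by linear_combination α * hc⟩
    refine c6 hco1 hco hbα β0 hβ0 τ hτ htR htB hN1 hcbU hgR hgB hY (s1, s) ht2c ht2R ht2B ?_
      hpar ?_
    · rw [← hS]; exact hsS
    · intro z hz hzg hc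
      exact hhit ⟨z, hz, hzg, hc⟩

end

/-- gamma2 -/
theorem k3u_g2 {R B : Finset Pt} {α b1 b2 : ℤ} (K : K3C R B α b1 b2)
    (hprim : IsCoprime (α - b1) b2) :
    ∃ Q : ℤ, Q ≠ 0 ∧ ∀ᶠ ρ : ℤ in cofinite, Q ∣ ρ - 1 → ∀ β0 ∈ B, ∀ τ,
      b2 * τ = β0.2 * (α * ρ) →
      ((τ, 0) : Pt) ∉ insert ((α * ρ, 0) : Pt) R → ((τ, 0) : Pt) ∉ B →
      NoThreat (insert (α * ρ, 0) R) (insert (τ, 0) B) →
      Uncov (insert (α * ρ, 0) R) (insert (τ, 0) B) (0, 0) (b1, b2) →
      (∃ Y, Col (b1, b2) (α * ρ, 0) Y ∧ Y ∉ insert ((α * ρ, 0) : Pt) R ∧ Col (τ, 0) β0 Y ∧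
        ∀ w ∈ insert ((α * ρ, 0) : Pt) R, ¬ Col (τ, 0) β0 w) →
      Win (insert (α * ρ, 0) R) (insert (τ, 0) B) := by
  have hev := ev_goodG K
  obtain ⟨W, hW⟩ : ∃ W, W = nW B α b2 := ⟨_, rfl⟩
  have hWc : (B.card : ℤ) + 5 ≤ W := by rw [hW]; exact nW_card
  obtain ⟨G, hGp, hG1, hG⟩ := exists_prime_class hev (n := W.toNat.factorial)
    (Nat.factorial_ne_zero _)
  have g := hG hGp
  have hdiv : ∀ m : ℤ, m ≠ 0 → |m| ≤ W → m ∣ G - 1 :=
    fun m hm hmW => dvd_trans (dvd_fact hm hmW) hG1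
  have hF : ForkSols 1 G (B.card + 4) := by
    have := forkSols_int (α := 1) (ρ := G) (B.card + 4) one_ne_zero ?_ ?_
    · rwa [one_mul] at this
    · intro i hi
      apply hdiv
      · have := Int.natCast_nonneg i
        omega
      · rw [abs_of_nonneg (by have := Int.natCast_nonneg i; omega)]
        have : (i : ℤ) < (B.card + 4 : ℕ) := by exact_mod_cast hi
        push_cast at this
        linarith
    · have h1 := g.gtW
      have h2 : 16 * nY B α b2 ^ 5 + B.card + 5 ≤ nW B α b2 := nW_ge B α b2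
      have h3 := @nY_ge B α b2
      have h4 := (pow_le5 h3).1
      push_cast
      linarith
  have hG1' : b2 ∣ G - 1 := by
    apply hdiv _ K.hb2
    have a1 := @nY_b2 B α b2
    have a2 := (pow_le5 (@nY_ge B α b2)).1
    have a3 := @nW_Y B α b2
    have a4 := @nY_ge B α b2
    rw [hW]
    linarith
  obtain ⟨Q, hQ0, hQ⟩ := ev_goodRho (B := B) K.hα K.hb2 hGp
  refine ⟨Q, hQ0, ?_⟩
  filter_upwards [hQ, k3u_g2G K g hF hprim hG1'] with ρ h1 h2 hd
  exact h2 (h1 hd)

end Pool.Agent.K4L
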