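import Pool.Agent.K4L.K3UPW
import Pool.Agent.K4L.K3UG1U
import Pool.Agent.K4L.K3UG2

/-!
# K3U assembly: choice of classes
-/

namespace Pool.Agent.K4L

open Filter

/-- a residue avoiding finitely many classes -/
theorem exists_residue {p : ℤ} (hp : Prime p) (S : Finset (ℤ × ℤ))
    (hS : ∀ s ∈ S, ¬ (p ∣ s.1 ∧ p ∣ s.2)) (hcard : (S.card : ℤ) < |p|) :
    ∃ g : ℤ, ∀ s ∈ S, ¬ p ∣ g * s.1 - s.2 := by
  classical
  by_contra hcon
  push Not at hcon
  have hsub : (Finset.range p.natAbs) ⊆ S.biUnion (fun s =>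
      (Finset.range p.natAbs).filter (fun n : ℕ => p ∣ (n : ℤ) * s.1 - s.2)) := by
    intro n hn
    obtain ⟨s, hs, hd⟩ := hcon n
    rw [Finset.mem_biUnion]
    exact ⟨s, hs, Finset.mem_filter.mpr ⟨hn, hd⟩⟩
  have h1 := Finset.card_le_card hsub
  have h2 : (S.biUnion (fun s => (Finset.range p.natAbs).filter
      (fun n : ℕ => p ∣ (n : ℤ) * s.1 - s.2))).card ≤ S.card * 1 := by
    apply Finset.card_biUnion_le_card_mul
    intro s hs
    rw [Finset.card_le_one]
    intro x hx y hy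
    rw [Finset.mem_filter, Finset.mem_range] at hx hy
    by_cases h : p ∣ s.1
    · exfalso
      apply hS s hs
      refine ⟨h, ?_⟩
      have := dvd_sub (Dvd.dvd.mul_left h (x : ℤ)) hx.2
      rwa [sub_sub_cancel] at this
    · have h3 : p ∣ ((x : ℤ) - y) * s.1 := by
        have := dvd_sub hx.2 hy.2
        have e : (x : ℤ) * s.1 - s.2 - (y * s.1 - s.2) = (x - y) * s.1 := by ring
        rwa [e] at this
      have h4 : p ∣ (x : ℤ) - y := (hp.dvd_or_dvd h3).resolve_right h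
      by_contra hne
      have h5 : (x : ℤ) - y ≠ 0 := by
        intro h0
        apply hne
        have : (x : ℤ) = y := by linarith
        exact_mod_cast this
      refine not_dvd_of_abs_lt h5 ?_ h4
      have h6 : (x : ℤ) < p.natAbs := by exact_mod_cast hx.1
      have h7 : (y : ℤ) < p.natAbs := by exact_mod_cast hy.1
      rw [Int.natCast_natAbs] at h6 h7
      rw [abs_lt]
      constructor <;> linarith [Int.natCast_nonneg x, Int.natCast_nonneg y]
  rw [Finset.card_range] at h1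
  have h3 : (p.natAbs : ℤ) ≤ S.card := by exact_mod_cast (by omega : p.natAbs ≤ S.card)
  rw [Int.natCast_natAbs] at h3
  linarith

theorem ev_comp_lin {P : ℤ → Prop} {a b : ℤ} (ha : a ≠ 0) (h : ∀ᶠ G : ℤ in cofinite, P G) :
    ∀ᶠ n : ℤ in cofinite, P (b + a * n) := by
  have hinj : Function.Injective (fun n : ℤ => b + a * n) := by
    intro x y hxy
    simp only at hxy
    exact mul_left_cancel₀ ha (by linarith)
  exact hinj.tendsto_cofinite.eventually h

/-- choice of `G`: `G = 1` mod `M`, `G` mod `p` avoids finitely many classes -/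
theorem choose_G {p : ℤ} (hp : Prime p) (S : Finset (ℤ × ℤ))
    (hS : ∀ s ∈ S, ¬ (p ∣ s.1 ∧ p ∣ s.2)) (hcard : (S.card : ℤ) < |p|) {M : ℤ} (hM0 : M ≠ 0)
    (hM : ¬ p ∣ M) {P : ℤ → Prop} (hP : ∀ᶠ G : ℤ in cofinite, P G) :
    ∃ G, P G ∧ M ∣ G - 1 ∧ ∀ s ∈ S, ¬ p ∣ G * s.1 - s.2 := by
  obtain ⟨g, hg⟩ := exists_residue hp S hS hcard
  obtain ⟨u, v, huv⟩ := (Prime.coprime_iff_not_dvd hp).mpr hM
  -- `u p + v M = 1`
  obtain ⟨n, hn⟩ := ((ev_comp_lin (b := 1 + v * M * (g - 1)) (a := M * p)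
    (mul_ne_zero hM0 hp.ne_zero) hP)).exists
  refine ⟨_, hn, ⟨v * (g - 1) + p * n, by ring⟩, ?_⟩
  intro s hs hd
  apply hg s hs
  have e : g * s.1 - s.2 = ((1 + v * M * (g - 1) + M * p * n) * s.1 - s.2) +
      p * ((u * (g - 1) - M * n) * s.1) := by
    linear_combination (-(g - 1) * s.1) * huv
  rw [e]
  exact dvd_add hd ⟨_, rfl⟩

/-- primes `p = 1` mod `n`, `p = r` mod `l` -/
theorem exists_prime_class2 {P : ℤ → Prop} (h : ∀ᶠ p : ℤ in cofinite, P p) {n l r : ℤ}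
    (hn : n ≠ 0) (hl : Prime l) (hln : ¬ l ∣ n) (hr : ¬ l ∣ r) :
    ∃ p : ℤ, Prime p ∧ n ∣ p - 1 ∧ l ∣ p - r ∧ P p := by
  have hfin : ({G : ℤ | ¬ P G}).Finite := h
  obtain ⟨M, hM⟩ := hfin.bddAbove
  obtain ⟨u, v, huv⟩ := (Prime.coprime_iff_not_dvd hl).mpr hln
  -- `u l + v n = 1`
  obtain ⟨x, hx⟩ : ∃ x : ℤ, x = 1 + v * n * (r - 1) := ⟨_, rfl⟩
  have hxr : x = r - l * (u * (r - 1)) := by rw [hx]; linear_combination (r - 1) * huv
  have c1 : IsCoprime x n := by
    rw [hx]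
    have : IsCoprime (1 : ℤ) n := isCoprime_one_left
    have h2 := IsCoprime.add_mul_left_left this (v * (r - 1))
    have e : 1 + n * (v * (r - 1)) = 1 + v * n * (r - 1) := by ring
    rwa [e] at h2
  have c2 : IsCoprime x l := by
    have h1 : IsCoprime r l := ((Prime.coprime_iff_not_dvd hl).mpr hr).symm
    have h2 := IsCoprime.add_mul_left_left h1 (-(u * (r - 1)))
    have e : r + l * (-(u * (r - 1))) = x := by rw [hxr]; ring
    rwa [e] at h2
  have hnl : n * l ≠ 0 := mul_ne_zero hn hl.ne_zero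
  have c3 : IsCoprime x ((n * l).natAbs : ℤ) := by
    have := c1.mul_right c2
    rwa [Int.natCast_natAbs, IsCoprime.abs_right_iff]
  obtain ⟨p, hpM, hp, hpx⟩ := Nat.forall_exists_prime_gt_and_zmodEq M.toNat
    (Int.natAbs_ne_zero.mpr hnl) c3
  have hd : n * l ∣ (p : ℤ) - x := by
    have := hpx.symm.dvd
    exact (Int.natAbs_dvd).mp this
  refine ⟨p, Nat.prime_iff_prime_int.mp hp, ?_, ?_, ?_⟩
  · have h1 : n ∣ (p : ℤ) - x := (dvd_mul_right n l).trans hd
    have h2 : n ∣ x - 1 := ⟨v * (r - 1), by rw [hx]; ring⟩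
    have := dvd_add h1 h2
    rwa [sub_add_sub_cancel] at this
  · have h1 : l ∣ (p : ℤ) - x := (dvd_mul_left l n).trans hd
    have h2 : l ∣ x - r := ⟨-(u * (r - 1)), by rw [hxr]; ring⟩
    have := dvd_add h1 h2
    rwa [sub_add_sub_cancel] at this
  · by_contra hcon
    have h1 := hM (show (p : ℤ) ∈ {G : ℤ | ¬ P G} from hcon)
    have h2 : M ≤ M.toNat := Int.self_le_toNat M
    have h3 : (M.toNat : ℤ) < p := by exact_mod_cast hpM
    linarith

end Pool.Agent.K4L
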