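import Pool.Agent.K4L.K3UAsmA

/-!
# K3U assembly: the line `b e`, and the tempo on `c b`
-/

namespace Pool.Agent.K4L

open Filter

variable {R B : Finset Pt} {α b1 b2 : ℤ}

/-- pairs of near stones meet `b e` only in `b` -/
theorem be_pairs (K : K3C R B α b1 b2) : ∀ᶠ ε : ℤ in cofinite, IsCoprime (b1 - ε) b2 →
    ∀ u ∈ B, ∀ v ∈ B, u ≠ v → ∀ z, Col (b1, b2) (ε, 0) z → Col u v z → z = (b1, b2) := by
  have hb2 := K.hb2
  have h1 : ∀ᶠ ε : ℤ in cofinite, ∀ u ∈ B, ∀ v ∈ B, v.2 - u.2 ≠ 0 →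
      |b2 * ((v.1 - u.1) * (b2 - u.2) - (v.2 - u.2) * (b1 - u.1))| <
        |(v.2 - u.2) * ε + (b2 * (v.1 - u.1) - (v.2 - u.2) * b1)| := by
    refine ev_fin2 B B ?_
    intro u _ v _
    by_cases h : v.2 - u.2 = 0
    · exact Filter.Eventually.of_forall (fun ε h' => absurd h h')
    · filter_upwards [ev_linC (v.2 - u.2) (b2 * (v.1 - u.1) - (v.2 - u.2) * b1) _ h] with ε hε _
      exact hε
  filter_upwards [h1] with ε hε
  intro hco u hu v hv huv z hz hc
  obtain ⟨z1, z2⟩ := z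
  unfold Col at hz hc
  simp only at hz hc
  have key : (b2 - z2) * ((v.2 - u.2) * ε + (b2 * (v.1 - u.1) - (v.2 - u.2) * b1)) =
      b2 * ((v.1 - u.1) * (b2 - u.2) - (v.2 - u.2) * (b1 - u.1)) := by
    linear_combination (-(v.2 - u.2)) * hz - b2 * hc
  have hz2 : z2 = b2 := by
    by_cases hD : v.2 - u.2 = 0
    · rcases K.hpa u hu v hv huv (by linarith) with h2 | h2
      · rw [hD, h2] at key
        have h3 : (v.1 - u.1) * (b2 - z2) = 0 := by
          apply mul_left_cancel₀ hb2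
          linear_combination key
        rcases mul_eq_zero.mp h3 with h4 | h4
        · exact absurd (Prod.ext (by linarith) (by linarith)) huv
        · linarith
      · exfalso
        apply h2
        have h3 : (v.1 - u.1) * (z2 - u.2) = 0 := by rw [hc, hD, zero_mul]
        have h4 : z2 = u.2 := by
          rcases mul_eq_zero.mp h3 with h4 | h4
          · exact absurd (Prod.ext (by linarith) (by linarith)) huv
          · linarith
        have h5 : b2 ∣ (b1 - ε) * (z2 - b2) := ⟨z1 - b1, by linear_combination -hz⟩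
        have h6 := hco.symm.dvd_of_dvd_mul_left h5
        have h7 : b2 ∣ z2 := by
          have := dvd_add h6 (dvd_refl b2)
          rwa [sub_add_cancel] at this
        rw [← h4]
        exact Dvd.dvd.mul_left h7 _
    · by_contra hne
      have h2 := hε u hu v hv hD
      rw [← key, abs_mul] at h2
      have h3 : 1 ≤ |b2 - z2| := Int.one_le_abs (sub_ne_zero.mpr (Ne.symm hne))
      have h4 := abs_nonneg ((v.2 - u.2) * ε + (b2 * (v.1 - u.1) - (v.2 - u.2) * b1))
      nlinarith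
  have hz1 : z1 = b1 := by
    rw [hz2] at hz
    have : b2 * (z1 - b1) = 0 := by linear_combination hz
    rcases mul_eq_zero.mp this with h | h
    · exact absurd h hb2
    · linarith
  rw [hz1, hz2]

theorem be_alive (K : K3C R B α b1 b2) : ∀ᶠ ε : ℤ in cofinite, ∀ β ∈ B,
    ¬ Col (b1, b2) (ε, 0) β := by
  have := g2_alive K 1 one_ne_zero
  simpa only [one_mul] using this

/-- `c b` stays uncovered for far `t` -/
theorem cb_unc (K : K3C R B α b1 b2) {e : Pt} {τ : ℤ}
    (hτ : ∑ β ∈ B, |b2 * β.1 - b1 * β.2| * (1 + |β.2|) < |τ|) :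
    Uncov (insert e R) (insert (τ, 0) B) (0, 0) (b1, b2) := by
  have hb2 := K.hb2
  refine K.hMU.insert_blue (Finset.subset_insert _ _) ?_
  intro β hβ z hz hc
  have hd := K.hD β hβ
  unfold Col at hz hc
  simp only at hz hc
  have h1 : b2 * τ * (z.2 - β.2) = (b2 * β.1 - b1 * β.2) * z.2 := by
    linear_combination b2 * hc + β.2 * hz
  have h2 : z.2 - β.2 ≠ 0 := by
    intro h0
    rw [h0, mul_zero] at h1
    rcases mul_eq_zero.mp h1.symm with h | h
    · exact hd h
    · exact K.hy β hβ (by linarith)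
  have h3 : |b2 * τ| * |z.2 - β.2| = |b2 * β.1 - b1 * β.2| * |z.2| := by
    rw [← abs_mul, h1, abs_mul]
  have h4 : 1 ≤ |z.2 - β.2| := Int.one_le_abs h2
  have h5 : |z.2| ≤ (1 + |β.2|) * |z.2 - β.2| := by
    have h6 := abs_add_le (z.2 - β.2) β.2
    rw [sub_add_cancel] at h6
    have : 0 ≤ |β.2| := abs_nonneg _
    nlinarith
  have h6 : |b2 * τ| ≤ |b2 * β.1 - b1 * β.2| * (1 + |β.2|) := by
    have h7 := mul_le_mul_of_nonneg_left h5 (abs_nonneg (b2 * β.1 - b1 * β.2))
    rw [← h3] at h7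
    have h8 : |b2 * τ| * |z.2 - β.2| ≤
        (|b2 * β.1 - b1 * β.2| * (1 + |β.2|)) * |z.2 - β.2| := by
      calc _ ≤ _ := h7
        _ = _ := by ring
    exact le_of_mul_le_mul_right h8 (by linarith)
  have h8 : |τ| ≤ |b2 * τ| := by
    rw [abs_mul]; exact le_mul_of_one_le_left (abs_nonneg _) (Int.one_le_abs hb2)
  have h9 := Finset.single_le_sum
    (f := fun β : Pt => |b2 * β.1 - b1 * β.2| * (1 + |β.2|))
    (fun z _ => by positivity) hβ
  linarith

/-- the hit of `b e` by `t β`, in terms of the index -/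
theorem be_index {ε τ : ℤ} {β z : Pt} (hcb : IsCoprime (b1 - ε) b2)
    (hz : Col (b1, b2) (ε, 0) z) (hc : Col (τ, 0) β z) : ∃ m,
      z = (b1 + m * (ε - b1), (1 - m) * b2) ∧
      τ * (b2 * (1 - m) - β.2) = DX b1 b2 β * (1 - m) - β.2 * ε * m := by
  obtain ⟨m, h1, h2⟩ := he_param (b1 := b1) (b2 := b2) (z := ε) (G := 1) (w1 := z.1)
    (w2 := z.2) (by simpa using hcb) (by
      unfold Col at hz; simp only at hz; linear_combination hz)
  rw [one_mul] at h1 h2
  refine ⟨m, Prod.ext h1 h2, ?_⟩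
  unfold Col at hc
  unfold DX
  simp only at hc
  rw [h1, h2] at hc
  linear_combination -hc

/-- `p ∣ b2 τ` and `b e` hit: `t = (y0 / b2) e` -/
theorem tau_exact {b2 p τ x y m : ℤ} (hb2 : b2 ≠ 0) (hp : Prime p)
    (hpb : ¬ p ∣ b2) (hpx : ¬ p ∣ x) (hpτ : p ∣ b2 * τ)
    (hbig : |x| + |y * α * (b2 - y)| + |y| < |p|) (hm : m ≠ 1)
    (h : τ * (b2 * (1 - m) - y) = x * (1 - m) - y * (α * p) * m) : b2 * τ = y * (α * p) := by
  have hpτ' : p ∣ τ := (hp.dvd_or_dvd hpτ).resolve_left hpb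
  have h1 : p ∣ x * (1 - m) := by
    have h2 : x * (1 - m) = τ * (b2 * (1 - m) - y) + p * (y * α * m) := by linear_combination -h
    rw [h2]
    exact dvd_add (Dvd.dvd.mul_right hpτ' _) ⟨_, rfl⟩
  obtain ⟨m', hm'⟩ := (hp.dvd_or_dvd h1).resolve_left hpx
  obtain ⟨τ', hτ'⟩ := hpτ'
  obtain ⟨D', hD'⟩ : ∃ D', D' = b2 * τ' - y * α := ⟨_, rfl⟩
  have hm0 : m' ≠ 0 := by
    rintro rfl
    apply hm
    linarith
  have e1 : m = 1 - p * m' := by linarith
  have e2 : D' * (b2 * p * m' - y) = x * b2 * m' - y * α * (b2 - y) := by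
    apply mul_left_cancel₀ hp.ne_zero
    rw [hD']
    rw [e1, hτ'] at h
    linear_combination b2 * h
  have e3 : D' = 0 := by
    by_contra hne
    have g1 : |b2 * p * m' - y| ≤ |x * b2 * m' - y * α * (b2 - y)| := by
      rw [← e2, abs_mul]
      exact le_mul_of_one_le_left (abs_nonneg _) (Int.one_le_abs hne)
    have g2 : |x * b2 * m' - y * α * (b2 - y)| ≤ |x| * (|b2| * |m'|) + |y * α * (b2 - y)| := by
      have := abs_sub (x * b2 * m') (y * α * (b2 - y))
      have e : |x * b2 * m'| = |x| * (|b2| * |m'|) := by rw [abs_mul, abs_mul]; ring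
      rw [e] at this
      exact this
    have g3 : |p| * (|b2| * |m'|) ≤ |b2 * p * m' - y| + |y| := by
      have := abs_sub (b2 * p * m' - y) (-y)
      rw [sub_neg_eq_add, sub_add_cancel, abs_neg] at this
      have e : |b2 * p * m'| = |p| * (|b2| * |m'|) := by rw [abs_mul, abs_mul]; ring
      rw [e] at this
      exact this
    have g4 : 1 ≤ |b2| * |m'| := by
      have := Int.one_le_abs hb2
      have := Int.one_le_abs hm0
      nlinarith
    have g5 : 0 ≤ |y * α * (b2 - y)| := abs_nonneg _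
    have g6 : 0 ≤ |y| := abs_nonneg _
    nlinarith
  rw [hτ']
  rw [hD'] at e3
  linear_combination p * e3

end Pool.Agent.K4L
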