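import Pool.Agent.K4L.LemB0T

/-!
# Arithmetic for Lemma B with an arbitrary line `N`: the transversals
-/

namespace Pool.Agent.K4L

/-- the arithmetic for an arbitrary line `N` -/
theorem supply_B0 {o v0 uL uM uN um : Pt} {kY Z : ℤ} (cM : IsCoprime uM.1 uM.2)
    (cN : IsCoprime uN.1 uN.2) (cm : IsCoprime um.1 um.2)
    (hLM : dt uL uM ≠ 0) (hLN : dt uL uN ≠ 0) (hLm : dt uL um ≠ 0) (hMN : dt uM uN ≠ 0)
    (hMm : dt uM um ≠ 0) (hNm : dt uN um ≠ 0) (hZ : Z ≠ 0) :
    Supply o v0 uL uM uN um kY Z 1 := by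
  intro VV hVV0 Rb J
  classical
  -- the complementary basis vector
  obtain ⟨wa, wb, hw⟩ := cM
  obtain ⟨w, hwdef⟩ : ∃ w : Pt, w = (wb, -wa) := ⟨_, rfl⟩
  have hwM : dt w uM = 1 := by
    rw [hwdef]; unfold dt; simp only; linear_combination hw
  -- the directions
  obtain ⟨VT, hVT⟩ : ∃ VT, VT = VV.filter (fun v => dt uM v ≠ 0 ∧ dt v uN ≠ 0 ∧ dt v um ≠ 0) :=
    ⟨_, rfl⟩
  obtain ⟨T, hT⟩ : ∃ T, T = ({uN, um} : Finset Pt) ∪ VT := ⟨_, rfl⟩
  have hNT : uN ∈ T := by rw [hT]; simp
  have hmT : um ∈ T := by rw [hT]; simp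
  have hVTT : ∀ v ∈ VT, v ∈ T := fun v hv => by rw [hT]; exact Finset.mem_union_right _ hv
  have hVT' : ∀ v ∈ VT, dt uM v ≠ 0 ∧ dt v uN ≠ 0 ∧ dt v um ≠ 0 := by
    intro v hv; rw [hVT] at hv; exact (Finset.mem_filter.mp hv).2
  have hTM : ∀ v ∈ T, dt uM v ≠ 0 := by
    intro v hv
    rw [hT] at hv
    rcases Finset.mem_union.mp hv with hv | hv
    · have hv' : v = uN ∨ v = um := by simpa using hv
      rcases hv' with rfl | rfl
      · exact hMN
      · exact hMm
    · exact (hVT' v hv).1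
  -- the template
  obtain ⟨Sw, hSw⟩ : ∃ Sw, Sw = ∑ v ∈ T, |dt w v| := ⟨_, rfl⟩
  have hSw' : ∀ v ∈ T, |dt w v| ≤ Sw := by
    intro v hv
    rw [hSw]
    exact Finset.single_le_sum (f := fun v => |dt w v|) (fun _ _ => abs_nonneg _) hv
  obtain ⟨n0, P, X, hP0, hPR, hnP, hN0, hDN, hDm⟩ := exists_template (uL := uL) (uM := uM)
    (uN := uN) (um := um) hwM cN cm hMN hMm hNm hLN hLm Z (|Rb| + 1) (1 + Sw) hZ kY (v0 - o)
  have hP1 := Int.one_le_abs hP0
  obtain ⟨dl, hdl⟩ : ∃ dl : Pt → ℤ, dl = fun v => n0 * dt uM v + P * dt w v := ⟨_, rfl⟩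
  have hdl0 : ∀ v ∈ T, dl v ≠ 0 := by
    intro v hv h0
    rw [hdl] at h0
    simp only at h0
    have e1 : |n0| * |dt uM v| = |P| * |dt w v| := by
      rw [← abs_mul, ← abs_mul]
      have : n0 * dt uM v = -(P * dt w v) := by linarith
      rw [this, abs_neg]
    have e2 := Int.one_le_abs (hTM v hv)
    have e3 : |n0| ≤ |n0| * |dt uM v| := le_mul_of_one_le_right (abs_nonneg _) e2
    have e4 : |P| * |dt w v| ≤ |P| * Sw := mul_le_mul_of_nonneg_left (hSw' v hv) (abs_nonneg _)
    nlinarith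
  -- the modulus
  obtain ⟨XX, hXX⟩ : ∃ XX : Finset ℤ, XX = ((({Z * P, (T.card.factorial : ℤ), dt uL uN,
      dt uL um, dt uN um} ∪ T.image (dt uM)) ∪ T.image dl) ∪
      (VT.image (fun v => dt v uN) ∪ VT.image (fun v => dt v um))).erase 0 := ⟨_, rfl⟩
  obtain ⟨Q, hQ0, hQX⟩ : ∃ Q : ℤ, Q ≠ 0 ∧ ∀ x ∈ XX, x ∣ Q := by
    refine ⟨∏ x ∈ XX, x, ?_, fun x hx => Finset.dvd_prod_of_mem (fun x => x) hx⟩
    rw [Finset.prod_ne_zero_iff]
    intro x hx
    rw [hXX] at hx
    exact (Finset.mem_erase.mp hx).1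
  have hQZ : Z * P ∣ Q := hQX _ (by
    rw [hXX, Finset.mem_erase]
    exact ⟨mul_ne_zero hZ hP0, by simp⟩)
  have hQT : (T.card.factorial : ℤ) ∣ Q := hQX _ (by
    rw [hXX, Finset.mem_erase]
    exact ⟨by exact_mod_cast Nat.factorial_ne_zero _, by simp⟩)
  have hQLN : dt uL uN ∣ Q := hQX _ (by
    rw [hXX, Finset.mem_erase]; exact ⟨hLN, by simp⟩)
  have hQLm : dt uL um ∣ Q := hQX _ (by
    rw [hXX, Finset.mem_erase]; exact ⟨hLm, by simp⟩)
  have hQNm : dt uN um ∣ Q := hQX _ (by
    rw [hXX, Finset.mem_erase]; exact ⟨hNm, by simp⟩)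
  have hQM : ∀ v ∈ T, dt uM v ∣ Q := by
    intro v hv
    apply hQX
    rw [hXX, Finset.mem_erase]
    refine ⟨hTM v hv, ?_⟩
    apply Finset.mem_union_left
    apply Finset.mem_union_left
    apply Finset.mem_union_right
    exact Finset.mem_image_of_mem _ hv
  have hQd : ∀ v ∈ T, dl v ∣ Q := by
    intro v hv
    apply hQX
    rw [hXX, Finset.mem_erase]
    refine ⟨hdl0 v hv, ?_⟩
    apply Finset.mem_union_left
    apply Finset.mem_union_right
    exact Finset.mem_image_of_mem _ hv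
  have hQVN : ∀ v ∈ VT, dt v uN ∣ Q := by
    intro v hv
    apply hQX
    rw [hXX, Finset.mem_erase]
    refine ⟨(hVT' v hv).2.1, ?_⟩
    apply Finset.mem_union_right
    apply Finset.mem_union_left
    exact Finset.mem_image_of_mem (fun v => dt v uN) hv
  have hQVm : ∀ v ∈ VT, dt v um ∣ Q := by
    intro v hv
    apply hQX
    rw [hXX, Finset.mem_erase]
    refine ⟨(hVT' v hv).2.2, ?_⟩
    apply Finset.mem_union_right
    apply Finset.mem_union_right
    exact Finset.mem_image_of_mem (fun v => dt v um) hv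
  have hQP : P ∣ Q := (Dvd.intro_left Z rfl).trans hQZ
  -- forms
  obtain ⟨c, hc⟩ : ∃ c : Pt → ℤ, c = fun v => (Q / dl v) * dt uM v := ⟨_, rfl⟩
  obtain ⟨f, hf⟩ : ∃ f : Pt → ℤ → ℤ, f = fun v x => 1 + Q * c v * x := ⟨_, rfl⟩
  obtain ⟨sv, hsv⟩ : ∃ sv : ℤ → Pt, sv = fun x => ((n0 + Q * Q * x) * uM.1 + P * w.1,
    (n0 + Q * Q * x) * uM.2 + P * w.2) := ⟨_, rfl⟩
  have hsd : ∀ x z, dt (sv x) z = (n0 + Q * Q * x) * dt uM z + P * dt w z := by
    intro x z; rw [hsv]; unfold dt; simp only; ring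
  have hMM : dt uM uM = 0 := by unfold dt; ring
  have hsM : ∀ x, dt (sv x) uM = P := by
    intro x; rw [hsd, hMM, hwM]; ring
  have hdc : ∀ v ∈ T, dl v * c v = Q * dt uM v := by
    intro v hv
    have e2 : dl v * (Q / dl v) = Q := Int.mul_ediv_cancel' (hQd v hv)
    rw [hc]
    simp only
    linear_combination (dt uM v) * e2
  have hc0 : ∀ v ∈ T, c v ≠ 0 := by
    intro v hv h0
    have := hdc v hv
    rw [h0, mul_zero] at this
    exact mul_ne_zero hQ0 (hTM v hv) this.symm
  have hsT : ∀ v ∈ T, ∀ x, dt (sv x) v = dl v * f v x := by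
    intro v hv x
    rw [hsd, hf]
    simp only
    have e := hdc v hv
    have e3 : dl v = n0 * dt uM v + P * dt w v := by rw [hdl]
    have e4 : dl v * (1 + Q * c v * x) = dl v + Q * x * (dl v * c v) := by ring
    rw [e4, e, e3]; ring
  have hss : ∀ x y, dt (sv x) (sv y) = P * (Q * Q) * (y - x) := by
    intro x y
    have h1 : dt (sv x) (sv y) = P * (Q * Q) * (y - x) * dt w uM := by
      rw [hsv]; unfold dt; simp only; ring
    rw [h1, hwM, mul_one]
  have hnQP : ∀ x, IsCoprime (n0 + Q * Q * x) P := by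
    intro x
    obtain ⟨q, hq⟩ := hQP
    obtain ⟨a, b, hab⟩ := hnP
    refine ⟨a, b - a * q * Q * x, ?_⟩
    have e : Q * Q * x = P * (q * Q * x) := by
      nth_rewrite 1 [hq]; ring
    rw [e]
    linear_combination hab
  have hsp : ∀ x, IsCoprime (sv x).1 (sv x).2 := by
    intro x
    obtain ⟨a, b, hab⟩ := hnQP x
    refine ⟨b * uM.2 - a * w.2, a * w.1 - b * uM.1, ?_⟩
    have hw2 : w.1 * uM.2 - w.2 * uM.1 = 1 := hwM
    rw [hsv]
    simp only
    linear_combination hab + (a * (n0 + Q * Q * x) + b * P) * hw2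
  -- primes dividing a form do not divide `Q`
  have hfQ : ∀ v x, ∀ p : ℕ, p.Prime → (p : ℤ) ∣ f v x → ¬ (p : ℤ) ∣ Q := by
    intro v x p hp hd hpQ
    apply prime_not_dvd_one hp
    have e : (1 : ℤ) = f v x - Q * (c v * x) := by rw [hf]; ring
    rw [e]
    exact dvd_sub hd (hpQ.mul_right _)
  -- sizes of the forms
  have hfb : ∀ v ∈ T, ∀ x, |x| ≤ |f v x| + 1 := by
    intro v hv x
    have h1 : |Q * c v * x| ≤ |f v x| + 1 := by
      have e : Q * c v * x = f v x + -1 := by rw [hf]; ring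
      calc |Q * c v * x| = |f v x + -1| := by rw [← e]
        _ ≤ |f v x| + |(-1 : ℤ)| := abs_add_le _ _
        _ = |f v x| + 1 := by norm_num
    have h2 : 1 ≤ |Q * c v| := Int.one_le_abs (mul_ne_zero hQ0 (hc0 v hv))
    have h3 : |x| ≤ |Q * c v * x| := by
      rw [abs_mul]; exact le_mul_of_one_le_left (abs_nonneg _) h2
    linarith
  -- the sequence of the parameters
  obtain ⟨A0, hA0⟩ : ∃ A0, A0 = n0 * dt uM uL + P * dt w uL := ⟨_, rfl⟩
  obtain ⟨N1, hN1⟩ : ∃ N1, N1 = |Rb| * |P| + |A0| + |Rb| + 3 := ⟨_, rfl⟩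
  have hRP : 0 ≤ |Rb| * |P| := by positivity
  obtain ⟨m, hm1, hm2⟩ := exists_seq (α := ℤ)
    (fun x => Q ∣ x ∧ N1 ≤ |x|)
    (fun y x => y ≠ x ∧ ∀ v ∈ T, ∀ v' ∈ T, IsCoprime (f v y) (f v' x))
    (by
      intro S hS
      have hfS : ∀ y ∈ S, ∀ v ∈ T, f v y ≠ 0 := by
        intro y hy v hv h0
        have h5 := hfb v hv y
        rw [h0, abs_zero] at h5
        have h6 := (hS y hy).2
        have h7 := abs_nonneg A0
        have h8 := abs_nonneg Rb
        linarith
      obtain ⟨x, hx1, hx2, hx3⟩ := step_n (T.image (fun v => ((1 : ℤ), Q * c v)))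
        (∏ y ∈ S, ∏ v ∈ T, f v y) Q
        (by
          rw [Finset.prod_ne_zero_iff]
          intro y hy
          rw [Finset.prod_ne_zero_iff]
          exact hfS y hy) hQ0
        (by
          intro p hp hpc
          have h5 : p ∣ T.card.factorial :=
            (Nat.Prime.dvd_factorial hp).mpr (hpc.trans Finset.card_image_le)
          exact (Int.natCast_dvd_natCast.mpr h5).trans hQT)
        (by
          intro g hg p hp hd
          obtain ⟨v, hv, rfl⟩ := Finset.mem_image.mp hg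
          have hpI : Prime (p : ℤ) := Nat.prime_iff_prime_int.mp hp
          simp only at hd
          rcases hpI.dvd_or_dvd hd with h | h
          · exact h
          · rw [hc] at h
            simp only at h
            rcases hpI.dvd_or_dvd h with h | h
            · exact h.trans ⟨dl v, (Int.ediv_mul_cancel (hQd v hv)).symm⟩
            · exact h.trans (hQM v hv))
        (N1 + ∑ y ∈ S, |y|)
      refine ⟨x, ⟨hx2, ?_⟩, ?_⟩
      · have : 0 ≤ ∑ y ∈ S, |y| := Finset.sum_nonneg (fun _ _ => abs_nonneg _)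
        linarith
      · intro y hy
        refine ⟨?_, ?_⟩
        · rintro rfl
          have h5 : |y| ≤ ∑ y ∈ S, |y| :=
            Finset.single_le_sum (f := fun y => |y|) (fun _ _ => abs_nonneg _) hy
          have h7 := abs_nonneg A0
          have h8 := abs_nonneg Rb
          linarith
        · intro v hv v' hv'
          apply coprime_of_no_prime
          intro p hp hd1 hd2
          have hpQ := hfQ v y p hp hd1
          apply hx3 ((1 : ℤ), Q * c v') (Finset.mem_image_of_mem _ hv') p hp ?_ hpQ ?_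
          · exact (hd1.trans (Finset.dvd_prod_of_mem (fun v => f v y) hv)).trans
              (Finset.dvd_prod_of_mem (fun y => ∏ v ∈ T, f v y) hy)
          · have e : ((1 : ℤ), Q * c v').1 + ((1 : ℤ), Q * c v').2 * x = f v' x := by rw [hf]
            rw [e]; exact hd2) J
  have hmne : ∀ j < J, ∀ j' < J, j ≠ j' → m j ≠ m j' := by
    intro j hj j' hj' hne
    rcases lt_or_gt_of_ne hne with h | h
    · exact (hm2 j' hj' j h).1
    · exact ((hm2 j hj j' h).1).symm
  have hmcop : ∀ j < J, ∀ j' < J, j ≠ j' → ∀ v ∈ T, ∀ v' ∈ T,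
      IsCoprime (f v (m j)) (f v' (m j')) := by
    intro j hj j' hj' hne v hv v' hv'
    rcases lt_or_gt_of_ne hne with h | h
    · exact (hm2 j' hj' j h).2 v hv v' hv'
    · exact ((hm2 j hj j' h).2 v' hv' v hv).symm
  -- same transversal, different directions
  have hsame : ∀ x, ∀ v ∈ T, ∀ b : Pt, dt v b ∣ Q →
      ∀ p : ℕ, p.Prime → (p : ℤ) ∣ f v x → (p : ℤ) ∣ dt (sv x) b → False := by
    intro x v hv b hvb p hp hd1 hd2
    apply hfQ v x p hp hd1
    refine dvd_trans ?_ hvb
    apply prime_dvd_dt (hsp x) _ hd2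
    rw [hsT v hv]
    exact hd1.mul_left _
  have hdsym : ∀ a b : Pt, ∀ x : ℤ, dt a b ∣ x → dt b a ∣ x := by
    intro a b x h
    have e : dt b a = - dt a b := by unfold dt; ring
    rw [e]; exact (neg_dvd).mpr h
  have hf2 : ∀ j < J, ∀ v ∈ T, |Rb| + 1 ≤ |f v (m j)| := by
    intro j hj v hv
    have h5 := (hm1 j hj).2
    have h6 := hfb v hv (m j)
    have h7 := abs_nonneg A0
    linarith
  have hf0 : ∀ j < J, ∀ v ∈ T, f v (m j) ≠ 0 := by
    intro j hj v hv h0
    have := hf2 j hj v hv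
    rw [h0, abs_zero] at this
    have := abs_nonneg Rb
    linarith
  -- the modulus `M1`
  obtain ⟨M1, hM1⟩ : ∃ M1, M1 = ∏ j ∈ Finset.range J, ∏ v ∈ VT, f v (m j) := ⟨_, rfl⟩
  have hM10 : M1 ≠ 0 := by
    rw [hM1, Finset.prod_ne_zero_iff]
    intro j hj
    rw [Finset.prod_ne_zero_iff]
    intro v hv
    exact hf0 j (Finset.mem_range.mp hj) v (hVTT v hv)
  have hM1Q : IsCoprime M1 Q := by
    rw [hM1]
    apply IsCoprime.prod_left
    intro j _
    apply IsCoprime.prod_left
    intro v _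
    apply coprime_of_no_prime
    intro p hp hd1 hd2
    exact hfQ _ _ p hp hd1 hd2
  have hfQc : ∀ v x, IsCoprime (f v x) Q := by
    intro v x
    apply coprime_of_no_prime
    intro p hp hd1 hd2
    exact hfQ _ _ p hp hd1 hd2
  -- the two directions `uN`, `um`
  obtain ⟨uu, huu⟩ : ∃ uu : Bool → Pt, uu = fun i => if i then uN else um := ⟨_, rfl⟩
  have huT : ∀ i, uu i ∈ T := by
    intro i; rw [huu]
    cases i
    · simpa using hmT
    · simpa using hNT
  have huL : ∀ i, dt uL (uu i) ∣ Q := by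
    intro i; rw [huu]
    cases i
    · simpa using hQLm
    · simpa using hQLN
  have huV : ∀ i, ∀ v ∈ VT, dt v (uu i) ∣ Q := by
    intro i v hv; rw [huu]
    cases i
    · simpa using hQVm v hv
    · simpa using hQVN v hv
  have huu2 : ∀ i i', i ≠ i' → dt (uu i) (uu i') ∣ Q := by
    intro i i' hne; rw [huu]
    cases i <;> cases i'
    · exact absurd rfl hne
    · simpa using hdsym _ _ _ hQNm
    · simpa using hQNm
    · exact absurd rfl hne
  have hDM : ∀ j < J, ∀ i, IsCoprime (f (uu i) (m j)) (Q * M1) := by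
    intro j hj i
    apply IsCoprime.mul_right (hfQc _ _)
    rw [hM1]
    apply IsCoprime.prod_right
    intro j' hj'
    apply IsCoprime.prod_right
    intro v hv
    have hj'' := Finset.mem_range.mp hj'
    by_cases hjj : j = j'
    · subst hjj
      apply coprime_of_no_prime
      intro p hp hd1 hd2
      refine hsame (m j) (uu i) (huT i) v (hdsym _ _ _ (huV i v hv)) p hp hd1 ?_
      rw [hsT v (hVTT v hv)]
      exact hd2.mul_left _
    · exact hmcop j hj j' hj'' hjj _ (huT i) _ (hVTT v hv)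
  have hDL : ∀ j < J, ∀ i, IsCoprime (f (uu i) (m j)) (dt (sv (m j)) uL) := by
    intro j _ i
    apply coprime_of_no_prime
    intro p hp hd1 hd2
    exact hsame (m j) (uu i) (huT i) uL (hdsym _ _ _ (huL i)) p hp hd1 hd2
  have hDD : ∀ q ∈ (Finset.univ : Finset Bool) ×ˢ Finset.range J,
      ∀ q' ∈ (Finset.univ : Finset Bool) ×ˢ Finset.range J, q ≠ q' →
      IsCoprime (f (uu q.1) (m q.2)) (f (uu q'.1) (m q'.2)) := by
    rintro ⟨i, j⟩ hq ⟨i', j'⟩ hq' hne
    obtain ⟨_, hj⟩ := Finset.mem_product.mp hq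
    obtain ⟨_, hj'⟩ := Finset.mem_product.mp hq'
    simp only [Finset.mem_range] at hj hj' ⊢
    by_cases hjj : j = j'
    · subst hjj
      have hii : i ≠ i' := by rintro rfl; exact hne rfl
      apply coprime_of_no_prime
      intro p hp hd1 hd2
      refine hsame (m j) (uu i) (huT i) (uu i') (huu2 i i' hii) p hp hd1 ?_
      rw [hsT _ (huT i')]
      exact hd2.mul_left _
    · exact hmcop j hj j' hj' hjj _ (huT i) _ (huT i')
  -- the residue modulo `Q` and `M1`
  obtain ⟨Es, hEs⟩ : ∃ Es, Es = Z * P * X := ⟨_, rfl⟩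
  obtain ⟨E1, hE1Q, hE1M⟩ : ∃ E1, Q ∣ E1 - Es ∧ M1 ∣ E1 := by
    obtain ⟨a, b, hab⟩ := hM1Q
    refine ⟨Es * (a * M1), ⟨-(Es * b), ?_⟩, ⟨Es * a, by ring⟩⟩
    linear_combination Es * hab
  -- the targets
  obtain ⟨kk, hkk⟩ : ∃ kk : Bool → ℕ → ℤ, kk = fun i j => if i then dt (sv (m j)) (v0 - o)
    else kY * P := ⟨_, rfl⟩
  obtain ⟨F, hF⟩ := crt_lin ((Finset.univ : Finset Bool) ×ˢ Finset.range J)
    (fun q => f (uu q.1) (m q.2)) (fun q => (Q * M1) * dt (sv (m q.2)) uL)
    (fun q => kk q.1 q.2 - E1 * dt (sv (m q.2)) uL) hDD (by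
      rintro ⟨i, j⟩ hq
      obtain ⟨_, hj⟩ := Finset.mem_product.mp hq
      simp only [Finset.mem_range] at hj ⊢
      exact (hDM j hj i).mul_right (hDL j hj i))
  obtain ⟨DD, hDDdef⟩ : ∃ DD, DD = ∏ q ∈ (Finset.univ : Finset Bool) ×ˢ Finset.range J,
    f (uu q.1) (m q.2) := ⟨_, rfl⟩
  rw [← hDDdef] at hF
  have hDD0 : DD ≠ 0 := by
    rw [hDDdef, Finset.prod_ne_zero_iff]
    rintro ⟨i, j⟩ hq
    obtain ⟨_, hj⟩ := Finset.mem_product.mp hq
    simp only [Finset.mem_range] at hj ⊢
    exact hf0 j hj _ (huT i)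
  refine ⟨fun j => sv (m j), P, E1 + Q * M1 * F, Q * M1 * DD, ?_, ?_, ?_⟩
  · exact mul_ne_zero (mul_ne_zero hQ0 hM10) hDD0
  · intro j hj j' hj' hne
    simp only
    rw [hss]
    refine mul_ne_zero (mul_ne_zero hP0 (mul_ne_zero hQ0 hQ0)) ?_
    intro h0
    apply hmne j hj j' hj' hne
    linarith
  · intro j hj
    have hsize : |Rb| * |P| + |Rb| + 3 ≤ |dt (sv (m j)) uL| := by
      have h5 := (hm1 j hj).2
      have hML : dt uM uL ≠ 0 := by
        intro h0; apply hLM; unfold dt at h0 ⊢; linarith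
      have h7 : 1 ≤ |Q * Q * dt uM uL| := Int.one_le_abs (mul_ne_zero (mul_ne_zero hQ0 hQ0) hML)
      have h8 : |Q * Q * dt uM uL * m j| ≤ |dt (sv (m j)) uL| + |A0| := by
        have e : Q * Q * dt uM uL * m j = dt (sv (m j)) uL + -A0 := by
          rw [hsd, hA0]; ring
        rw [e]
        calc |dt (sv (m j)) uL + -A0| ≤ |dt (sv (m j)) uL| + |-A0| := abs_add_le _ _
          _ = |dt (sv (m j)) uL| + |A0| := by rw [abs_neg]
      have h9 : |m j| ≤ |Q * Q * dt uM uL * m j| := by
        rw [abs_mul]; exact le_mul_of_one_le_left (abs_nonneg _) h7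
      linarith
    have hbig : ∀ v ∈ T, Rb ≤ |dt (sv (m j)) v| := by
      intro v hv
      rw [hsT v hv, abs_mul]
      have h5 := hf2 j hj v hv
      have h6 := Int.one_le_abs (hdl0 v hv)
      have h7 : |f v (m j)| ≤ |dl v| * |f v (m j)| := le_mul_of_one_le_left (abs_nonneg _) h6
      linarith [le_abs_self Rb]
    refine ⟨hsp _, hsM _, by linarith [le_abs_self Rb], ?_, hbig uN hNT, hbig um hmT, ?_⟩
    · simp only
      have h11 : Rb * |P| ≤ |Rb| * |P| := mul_le_mul_of_nonneg_right (le_abs_self _) (abs_nonneg _)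
      linarith [abs_nonneg Rb]
    · intro n
      obtain ⟨E, hE⟩ : ∃ E, E = E1 + Q * M1 * F + Q * M1 * DD * n := ⟨_, rfl⟩
      simp only
      rw [← hE]
      have hEQ : Q ∣ E - Es := by
        have e : E - Es = (E1 - Es) + Q * (M1 * F + M1 * DD * n) := by rw [hE]; ring
        rw [e]; exact dvd_add hE1Q (dvd_mul_right _ _)
      have hEM : M1 ∣ E := by
        have e : E = E1 + M1 * (Q * F + Q * DD * n) := by rw [hE]; ring
        rw [e]; exact dvd_add hE1M (dvd_mul_right _ _)
      have hEZP : Z * P ∣ E := by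
        have e : E = (E - Es) + Z * P * X := by rw [hEs]; ring
        rw [e]; exact dvd_add (hQZ.trans hEQ) (dvd_mul_right _ _)
      -- the general divisibility
      have gen : ∀ i : Bool, ∀ T0 : ℤ, kk i j = T0 →
          dl (uu i) ∣ Es * A0 - (if i then n0 * dt uM (v0 - o) + P * dt w (v0 - o) else kY * P) →
          dl (uu i) ∣ T0 -
            (if i then n0 * dt uM (v0 - o) + P * dt w (v0 - o) else kY * P) →
          dt (sv (m j)) (uu i) ∣ E * dt (sv (m j)) uL - T0 := by
        intro i T0 hT0 h1 h2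
        rw [hsT _ (huT i)]
        have hcop : IsCoprime (dl (uu i)) (f (uu i) (m j)) :=
          ((hfQc (uu i) (m j)).of_isCoprime_of_dvd_right (hQd _ (huT i))).symm
        refine hcop.mul_dvd ?_ ?_
        · have hdQ := hQd _ (huT i)
          have e : E * dt (sv (m j)) uL - T0 =
              (E - Es) * dt (sv (m j)) uL + Es * (Q * (Q * m j * dt uM uL)) +
              (Es * A0 - (if i then n0 * dt uM (v0 - o) + P * dt w (v0 - o) else kY * P)) -
              (T0 - (if i then n0 * dt uM (v0 - o) + P * dt w (v0 - o) else kY * P)) := by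
            rw [hsd, hA0]; ring
          rw [e]
          exact dvd_sub (dvd_add (dvd_add ((hdQ.trans hEQ).mul_right _)
            (((hdQ.mul_right _).mul_left _))) h1) h2
        · have h5 := hF n (i, j) (Finset.mk_mem_product (Finset.mem_univ _)
            (Finset.mem_range.mpr hj))
          simp only at h5
          rw [hT0] at h5
          have e : E * dt (sv (m j)) uL - T0 =
              (F + DD * n) * (Q * M1 * dt (sv (m j)) uL) -
              (T0 - E1 * dt (sv (m j)) uL) := by rw [hE]; ring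
          rw [e]; exact h5
      refine ⟨(Dvd.intro _ rfl).trans hEZP, ?_, ?_, ?_, ?_⟩
      · obtain ⟨E', hE'⟩ := hEZP
        refine ⟨Z * E' * dt (sv (m j)) uL, by rw [hE']; ring, ?_⟩
        exact (Dvd.intro _ rfl : Z ∣ Z * E').mul_right _
      · have h1 := gen false (kY * P) (by rw [hkk]; simp) (by
          have : uu false = um := by rw [huu]; simp
          rw [this]
          simp only [Bool.false_eq_true, if_false]
          rw [hdl, hEs, hA0]; exact hDm) (by simp)
        have : uu false = um := by rw [huu]; simp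
        rw [this] at h1
        obtain ⟨K, hK⟩ := h1
        exact ⟨K, by rw [hK]; ring, one_dvd _⟩
      · have h1 := gen true (dt (sv (m j)) (v0 - o)) (by rw [hkk]; simp) (by
          have : uu true = uN := by rw [huu]; simp
          rw [this]
          simp only [if_true]
          rw [hdl, hEs, hA0]; exact hDN) (by
            simp only [if_true]
            have e : dt (sv (m j)) (v0 - o) - (n0 * dt uM (v0 - o) + P * dt w (v0 - o)) =
                Q * (Q * m j * dt uM (v0 - o)) := by rw [hsd]; ring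
            rw [e]
            exact (hQd _ (huT true)).mul_right _)
        have : uu true = uN := by rw [huu]; simp
        rw [this] at h1
        obtain ⟨K, hK⟩ := h1
        exact ⟨K, by rw [hK]; ring⟩
      · intro v hv h1 h2
        by_cases hvM : dt uM v = 0
        · refine ⟨P, ?_, (Dvd.intro_left Z rfl).trans hEZP, by linarith [le_abs_self Rb]⟩
          rw [hsd, hvM, mul_zero, zero_add]
          exact dvd_mul_right _ _
        · have hvT : v ∈ VT := by
            rw [hVT, Finset.mem_filter]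
            exact ⟨hv, hvM, h1, h2⟩
          refine ⟨f v (m j), ?_, ?_, ?_⟩
          · rw [hsT v (hVTT v hvT)]; exact dvd_mul_left _ _
          · refine dvd_trans ?_ hEM
            rw [hM1]
            exact (Finset.dvd_prod_of_mem (fun v => f v (m j)) hvT).trans
              (Finset.dvd_prod_of_mem (fun j => ∏ v ∈ VT, f v (m j)) (Finset.mem_range.mpr hj))
          · have := hf2 j hj v (hVTT v hvT)
            linarith [le_abs_self Rb]

end Pool.Agent.K4L
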