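import Pool.Agent.K4L.LemBFin3
import Pool.Agent.K4L.LemB0S

/-!
# Lemma B: arbitrary `N` (Lemma B0), three reds (Lemma B3)
-/

namespace Pool.Agent.K4L

/-- if `N` meets `M` in the red stone `v0`, there is no other common point -/
theorem MNR_of_col {R : Finset Pt} {o b v0 r : Pt} (hv : v0 ∈ R) (hvM : Col o b v0)
    (hMN : ¬ Par o b v0 r) : ∀ z, Col o b z → Col v0 r z → z ∈ R := by
  intro z hz1 hz2
  have hzv : z = v0 := by
    by_contra hne
    apply hMN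
    have e1 := hz1
    have e2 := hz2
    have e3 := hvM
    unfold Col at e1 e2 e3
    unfold Par
    rcases sub_ne_of_ne (Ne.symm hne) with h | h
    · apply mul_left_cancel₀ h
      linear_combination (-(b.1 - o.1)) * e2 + (r.1 - v0.1) * e1 - (r.1 - v0.1) * e3
    · apply mul_left_cancel₀ h
      linear_combination (-(b.2 - o.2)) * e2 + (r.2 - v0.2) * e1 - (r.2 - v0.2) * e3
  rw [hzv]; exact hv

/-- a pair `x, x'` of reds such that the lines `x x'`, `L`, `m` are not concurrent and `x x'` is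
not parallel to `m`, or both are on `L` -/
def PairOK (R : Finset Pt) (o a p q x x' : Pt) : Prop :=
  (Col o a x ∧ Col o a x') ∨ (¬ Par p q x x' ∧ ((Par o a x x' ∧ ¬ Col o a x) ∨
    ∃ w ∈ R, Col x x' w ∧ Col o a w ∧ ¬ Par o a x x'))

theorem rho_ne {R : Finset Pt} {o a b v0 r p q Y uL uM uN um : Pt} {kY : ℤ}
    (hD : Dirs o a b v0 r p q Y uL uM uN um kY) (hmR : ∀ z ∈ R, ¬ Col p q z) {x x' : Pt}
    (hoa : o ≠ a) (hne : x ≠ x') (h : (Par o a x x' ∧ ¬ Col o a x) ∨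
      ∃ w ∈ R, Col x x' w ∧ Col o a w ∧ ¬ Par o a x x') :
    dt (x' - x) (Y - x) * dt uL um - kY * dt (x' - x) um * dt uL uM ≠ 0 := by
  have hYo : dt uL (Y - o) = kY * dt uL uM := by
    rw [hD.hYk]; unfold dt adv; simp only [Prod.fst_sub, Prod.snd_sub]; ring
  have haL : dt uL (a - o) = 0 := (hD.L_iff a).mp (Col.refl_right _ _)
  have hao : a - o ≠ 0 := sub_ne_zero.mpr hoa.symm
  have huL : uL ≠ 0 := by rintro rfl; exact hD.hLM (by unfold dt; simp)
  rcases h with ⟨hp, hx⟩ | ⟨w, hwR, hw1, hw2, hnp⟩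
  · have h1 : dt (a - o) (x' - x) = 0 := by
      unfold Par at hp
      unfold dt
      simp only [Prod.fst_sub, Prod.snd_sub]
      linarith
    have h2 : dt (a - o) uL = 0 := by rw [dt_swap, haL, neg_zero]
    have h3 : dt uL (x' - x) = 0 := dt_par hao h2 h1
    obtain ⟨k, hk⟩ := exists_adv hD.cL h3
    have hk1 : x'.1 - x.1 = k * uL.1 := by
      have := congrArg Prod.fst hk; unfold adv at this; simp only at this; linarith
    have hk2 : x'.2 - x.2 = k * uL.2 := by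
      have := congrArg Prod.snd hk; unfold adv at this; simp only at this; linarith
    have hk0 : k ≠ 0 := by
      rintro rfl
      apply hne
      exact Prod.ext (by linarith) (by linarith)
    have e : dt (x' - x) (Y - x) * dt uL um - kY * dt (x' - x) um * dt uL uM =
        k * dt uL um * dt uL (o - x) := by
      have e1 : dt (x' - x) (Y - x) = k * dt uL (Y - x) := by
        unfold dt; simp only [Prod.fst_sub, Prod.snd_sub]
        rw [hk1, hk2]; ring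
      have e2 : dt (x' - x) um = k * dt uL um := by
        unfold dt; simp only [Prod.fst_sub, Prod.snd_sub]
        rw [hk1, hk2]; ring
      have e3 : dt uL (Y - x) = dt uL (Y - o) + dt uL (o - x) := by
        unfold dt; simp only [Prod.fst_sub, Prod.snd_sub]; ring
      rw [e1, e2, e3, hYo]; ring
    rw [e]
    refine mul_ne_zero (mul_ne_zero hk0 hD.hLm) ?_
    intro h0
    apply hx
    rw [hD.L_iff]
    unfold dt at *
    simp only [Prod.fst_sub, Prod.snd_sub] at *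
    linarith
  · have h1 : dt (x' - x) (w - x) = 0 := col_dt.mp hw1
    have h2 : dt uL (w - o) = 0 := (hD.L_iff w).mp hw2
    have e : dt (x' - x) (Y - x) * dt uL um - kY * dt (x' - x) um * dt uL uM =
        dt (x' - x) uL * dt (Y - w) um := by
      have e1 : dt (x' - x) (Y - x) = dt (x' - x) (Y - w) + dt (x' - x) (w - x) := by
        unfold dt; simp only [Prod.fst_sub, Prod.snd_sub]; ring
      have e2 : dt uL (Y - o) = dt uL (Y - w) + dt uL (w - o) := by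
        unfold dt; simp only [Prod.fst_sub, Prod.snd_sub]; ring
      have e3 : dt (x' - x) (Y - w) * dt uL um - dt (x' - x) um * dt uL (Y - w) =
          dt (x' - x) uL * dt (Y - w) um := by
        unfold dt; simp only [Prod.fst_sub, Prod.snd_sub]; ring
      rw [e1, h1]
      rw [h2, add_zero] at e2
      rw [hYo] at e2
      linear_combination e3 + (-(dt (x' - x) um)) * e2
    rw [e]
    refine mul_ne_zero ?_ ?_
    · intro h0
      apply hnp
      have h3 : dt uL (x' - x) = 0 := by rw [dt_swap, h0, neg_zero]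
      have h4 : dt (a - o) (x' - x) = 0 := dt_par huL haL h3
      unfold Par
      unfold dt at h4
      simp only [Prod.fst_sub, Prod.snd_sub] at h4
      linarith
    · intro h0
      apply hmR w hwR
      rw [hD.m_iff]
      unfold dt at *
      simp only [Prod.fst_sub, Prod.snd_sub] at *
      linarith

/-- LEMMA B0, core form: `N` is an arbitrary line; no alive blue line is parallel to `m` -/
theorem lemB0_e {R B : Finset Pt} {o a b v0 r p q Y x0 x1 x2 x3 xl xg xg' : Pt}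
    (hL : ALine R B o a) (hM : ALine R B o b)
    (hNl : ALine R B v0 r) (hMNR : ∀ z, Col o b z → Col v0 r z → z ∈ R)
    (hpq : p ≠ q)
    (hYM : Col o b Y) (hYm : Col p q Y) (hYR : Y ∉ R)
    (hmR : ∀ z ∈ R, ¬ Col p q z)
    (hMU : ∀ z, Col o b z → z ∉ R → ∀ β ∈ B, ∀ β' ∈ B, β ≠ β' → Col β β' z →
      (∃ w ∈ R, Col β β' w) ∨ (Col p q β ∧ Col p q β'))
    (hLM : ¬ Col o a b) (hLN : ¬ Par o a v0 r) (hMN : ¬ Par o b v0 r)
    (hLm : ¬ Par o a p q) (hNm : ¬ Par v0 r p q)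
    (hx0 : x0 ∈ R) (hx1 : x1 ∈ R) (hx2 : x2 ∈ R) (hx3 : x3 ∈ R)
    (h012 : ¬ Col x0 x1 x2) (h013 : ¬ Col x0 x1 x3) (h023 : ¬ Col x0 x2 x3)
    (h123 : ¬ Col x1 x2 x3) (hB : ∀ β ∈ B, β ∉ R)
    (hxl : xl ∈ R) (hxlL : ¬ Col o a xl) (hxlb : xl ≠ b)
    (hparL : ∀ β ∈ B, ∀ β' ∈ B, β ≠ β' → Par o a β β' → (∃ w ∈ R, Col β β' w) ∨
      ∀ z, Col o xl z → ¬ Col β β' z)
    (hxg : xg ∈ ({x0, x1, x2, x3} : Finset Pt)) (hxg' : xg' ∈ ({x0, x1, x2, x3} : Finset Pt))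
    (hgM : ¬ Col o b xg) (hgM' : ¬ Col o b xg') (hgg : xg' ≠ xg)
    (hparM : ∀ β ∈ B, ∀ β' ∈ B, β ≠ β' → Par o b β β' → (∃ w ∈ R, Col β β' w) ∨
      ∀ x ∈ ({xg, xg'} : Finset Pt), ∀ z, Col o x z → ¬ Col β β' z)
    (hparm : ∀ β ∈ B, ∀ β' ∈ B, β ≠ β' → Par p q β β' → (∃ w ∈ R, Col β β' w) ∨
      Col p q β) :
    ∃ (u : Pt) (E0 W Γ : ℤ), IsCoprime u.1 u.2 ∧ (∀ z, Col o a z ↔ dt u (z - o) = 0) ∧ W ≠ 0 ∧
      ∀ m : ℤ, Γ ≤ |E0 + W * m| → ∀ t, Col o a t →
      t ∉ insert (adv o u (E0 + W * m)) R → t ∉ B →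
      NoThreat (insert (adv o u (E0 + W * m)) R) (insert t B) →
      Win (insert (adv o u (E0 + W * m)) R) (insert t B) := by
  refine lemBX_e (X := {x0, x1, x2, x3}) (XG := {xg, xg'}) (XP := ∅) hL hM hNl hMNR hpq hYM hYm
    hYR hmR hMU hLM hLN hMN hLm hNm ?_ ?_ ?_ hB hxl hxlL hxlb hparL hparM (Or.inr ⟨hparm, ?_⟩)
    (by simp) (by simp) ?_
  · intro x hx
    simp only [Finset.mem_insert, Finset.mem_singleton] at hx
    rcases hx with rfl | rfl | rfl | rfl <;> assumption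
  · intro x hx
    have hx' : x = xg ∨ x = xg' := by simpa using hx
    rcases hx' with rfl | rfl <;> assumption
  · intro x hx
    have hx' : x = xg ∨ x = xg' := by simpa using hx
    rcases hx' with rfl | rfl <;> assumption
  · intro uL uM uN um kY Z hZ hD
    exact supply_B0 hD.cM hD.cN hD.cm hD.hLM hD.hLN hD.hLm hD.hMN hD.hMm hD.hNm hZ
  · intro uL uM uN um kY R3 e g y t t3 _ _ _ f
    exact fin4 f (x0 := x0) (x1 := x1) (x2 := x2) (x3 := x3) (xg := xg) (xg' := xg')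
      (by simp) (by simp) (by simp) (by simp) h012 h013 h023 h123 (by simp) (by simp) hgg

/-- LEMMA B0 -/
theorem lemB0 {R B : Finset Pt} {o a b v0 r p q Y x0 x1 x2 x3 xl xg xg' : Pt}
    (hN : NoThreat R B) (hB : ∀ β ∈ B, β ∉ R)
    (hL : ALine R B o a) (hLU : Uncov R B o a) (hM : ALine R B o b)
    (hNl : ALine R B v0 r) (hMNR : ∀ z, Col o b z → Col v0 r z → z ∈ R)
    (hpq : p ≠ q)
    (hYM : Col o b Y) (hYm : Col p q Y) (hYR : Y ∉ R)
    (hmR : ∀ z ∈ R, ¬ Col p q z)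
    (hMU : ∀ z, Col o b z → z ∉ R → ∀ β ∈ B, ∀ β' ∈ B, β ≠ β' → Col β β' z →
      (∃ w ∈ R, Col β β' w) ∨ (Col p q β ∧ Col p q β'))
    (hLM : ¬ Col o a b) (hLN : ¬ Par o a v0 r) (hMN : ¬ Par o b v0 r)
    (hLm : ¬ Par o a p q) (hNm : ¬ Par v0 r p q)
    (hx0 : x0 ∈ R) (hx1 : x1 ∈ R) (hx2 : x2 ∈ R) (hx3 : x3 ∈ R)
    (h012 : ¬ Col x0 x1 x2) (h013 : ¬ Col x0 x1 x3) (h023 : ¬ Col x0 x2 x3)
    (h123 : ¬ Col x1 x2 x3)
    (hxl : xl ∈ R) (hxlL : ¬ Col o a xl) (hxlb : xl ≠ b)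
    (hparL : ∀ β ∈ B, ∀ β' ∈ B, β ≠ β' → Par o a β β' → (∃ w ∈ R, Col β β' w) ∨
      ∀ z, Col o xl z → ¬ Col β β' z)
    (hxg : xg ∈ ({x0, x1, x2, x3} : Finset Pt)) (hxg' : xg' ∈ ({x0, x1, x2, x3} : Finset Pt))
    (hgM : ¬ Col o b xg) (hgM' : ¬ Col o b xg') (hgg : xg' ≠ xg)
    (hparM : ∀ β ∈ B, ∀ β' ∈ B, β ≠ β' → Par o b β β' → (∃ w ∈ R, Col β β' w) ∨
      ∀ x ∈ ({xg, xg'} : Finset Pt), ∀ z, Col o x z → ¬ Col β β' z)
    (hparm : ∀ β ∈ B, ∀ β' ∈ B, β ≠ β' → Par p q β β' → (∃ w ∈ R, Col β β' w) ∨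
      Col p q β) :
    Win R B :=
  win_of_class hN hL hLU (lemB0_e hL hM hNl hMNR hpq hYM hYm hYR hmR hMU hLM hLN
    hMN hLm hNm hx0 hx1 hx2 hx3 h012 h013 h023 h123 hB hxl hxlL hxlb hparL hxg hxg' hgM hgM' hgg
    hparM hparm)

/-- LEMMA B3, core form with the remaining ranges of the answer `t`: three reds `x0, x1, x2`
are used at `y`, the red `x` off `M` is used at `g` -/
theorem lemB3_core {R B : Finset Pt} {o a b v0 r p q Y x0 x1 x2 x : Pt}
    (hL : ALine R B o a) (hM : ALine R B o b)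
    (hNl : ALine R B v0 r) (hMNR : ∀ z, Col o b z → Col v0 r z → z ∈ R)
    (hpq : p ≠ q)
    (hYM : Col o b Y) (hYm : Col p q Y) (hYR : Y ∉ R)
    (hmR : ∀ z ∈ R, ¬ Col p q z)
    (hMU : ∀ z, Col o b z → z ∉ R → ∀ β ∈ B, ∀ β' ∈ B, β ≠ β' → Col β β' z →
      (∃ w ∈ R, Col β β' w) ∨ (Col p q β ∧ Col p q β'))
    (hLM : ¬ Col o a b) (hLN : ¬ Par o a v0 r) (hMN : ¬ Par o b v0 r)
    (hLm : ¬ Par o a p q) (hNm : ¬ Par v0 r p q)
    (hx0 : x0 ∈ R) (hx1 : x1 ∈ R) (hx2 : x2 ∈ R) (hx : x ∈ R)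
    (h01 : x1 ≠ x0) (h02 : x2 ≠ x0) (h12 : x2 ≠ x1)
    (p01 : PairOK R o a p q x0 x1) (p02 : PairOK R o a p q x0 x2)
    (p12 : PairOK R o a p q x1 x2)
    (hgM : ¬ Col o b x) (hB : ∀ β ∈ B, β ∉ R)
    (hparM : ∀ β ∈ B, ∀ β' ∈ B, β ≠ β' → Par o b β β' → (∃ w ∈ R, Col β β' w) ∨
      ∀ z, Col o x z → ¬ Col β β' z)
    (hparm : ∀ β ∈ B, ∀ β' ∈ B, β ≠ β' → Par p q β β' → (∃ w ∈ R, Col β β' w) ∨
      Col p q β) :
    ∃ (uL uM uN um : Pt) (kY n : ℤ), Dirs o a b v0 r p q Y uL uM uN um kY ∧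
      BCtx R B o Y v0 uL uM uN um {x0, x1, x2, x} {x} n ∧
      ∃ E0 W Γ : ℤ, W ≠ 0 ∧ (∀ m : ℤ, ∀ x ∈ R, dt uL (x - o) ≠ 0 → dt uL (o - x) ∣ E0 + W * m) ∧
      ∀ m : ℤ, Γ ≤ |E0 + W * m| → 32 * n ^ 4 + 2 * n ^ 2 < |E0 + W * m| ∧ ∀ T : ℤ,
      adv o uL T ∉ insert (adv o uL (E0 + W * m)) R → adv o uL T ∉ B →
      NoThreat (insert (adv o uL (E0 + W * m)) R) (insert (adv o uL T) B) →
      (32 * n ^ 4 * |T| < |E0 + W * m| ∨ 32 * n ^ 4 * |E0 + W * m| < |T|) ∨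
      Win (insert (adv o uL (E0 + W * m)) R) (insert (adv o uL T) B) := by
  have key : ∀ {x x' : Pt}, PairOK R o a p q x x' → x ≠ x' → (Col o a x ∧ Col o a x') ∨
      (¬ Par p q x x' ∧ ∀ (uL uM uN um : Pt) (kY : ℤ), Dirs o a b v0 r p q Y uL uM uN um kY →
        dt (x' - x) (Y - x) * dt uL um - kY * dt (x' - x) um * dt uL uM ≠ 0) := by
    intro x x' h hne
    rcases h with h | ⟨h1, h2⟩
    · exact Or.inl h
    · exact Or.inr ⟨h1, fun uL uM uN um kY hD => rho_ne hD hmR hL.ne hne h2⟩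
  refine lemBX (X := {x0, x1, x2, x}) (XG := {x}) (XP := {(x0, x1), (x0, x2), (x1, x2)}) hL hM
    hNl hMNR hpq hYM hYm hYR hmR hMU hLM hLN hMN hLm hNm ?_ ?_ ?_ hB ?_ (Or.inr ⟨hparm, ?_⟩) ?_
    ?_ ?_
  · intro z hz
    simp only [Finset.mem_insert, Finset.mem_singleton] at hz
    rcases hz with rfl | rfl | rfl | rfl <;> assumption
  · intro z hz
    have hz' : z = x := by simpa using hz
    rw [hz']; simp
  · intro z hz
    have hz' : z = x := by simpa using hz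
    rw [hz']; exact hgM
  · intro β hβ β' hβ' hne hP
    rcases hparM β hβ β' hβ' hne hP with h | h
    · exact Or.inl h
    · refine Or.inr (fun z hz => ?_)
      have hz' : z = x := by simpa using hz
      rw [hz']; exact h
  · intro uL uM uN um kY Z hZ hD
    exact supply_B0 hD.cM hD.cN hD.cm hD.hLM hD.hLN hD.hLm hD.hMN hD.hMm hD.hNm hZ
  · intro w hw
    have hw' : w = (x0, x1) ∨ w = (x0, x2) ∨ w = (x1, x2) := by simpa using hw
    rcases hw' with rfl | rfl | rfl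
    · exact ⟨by simp, by simp, h01.symm⟩
    · exact ⟨by simp, by simp, h02.symm⟩
    · exact ⟨by simp, by simp, h12.symm⟩
  · intro w hw
    have hw' : w = (x0, x1) ∨ w = (x0, x2) ∨ w = (x1, x2) := by simpa using hw
    rcases hw' with rfl | rfl | rfl
    · exact key p01 h01.symm
    · exact key p02 h02.symm
    · exact key p12 h12.symm
  · intro uL uM uN um kY R3 e g y t t3 hR3 hD hy f
    refine fin3 f (x0 := x0) (x1 := x1) (x2 := x2) (x := x) (by simp) (by simp) (by simp) h01 h02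
      h12 (by simp) (by simp) (by simp) (by simp) ?_
    -- no alive near line parallel to `m`
    have onm : ∀ β τ : Pt, β ≠ τ → dt um (β - Y) = 0 → dt (τ - β) um = 0 →
        ∃ w ∈ R3, Col β τ w := by
      intro β τ hne h1 h2
      refine ⟨y, f.hy, ?_⟩
      have hβ := (hD.m_iff β).mpr h1
      have h3 : dt um (τ - Y) = 0 := by
        unfold dt at *
        simp only [Prod.fst_sub, Prod.snd_sub] at *
        linarith
      have hτ := (hD.m_iff τ).mpr h3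
      exact Col.three hpq hβ hτ hy
    have parm_iff : ∀ β β' : Pt, dt (β' - β) um = 0 → Par p q β β' := by
      intro β β' h0
      have hp := (hD.m_iff p).mp (Col.refl_left _ _)
      have hq := (hD.m_iff q).mp (Col.refl_right _ _)
      have hum : um ≠ 0 := by rintro rfl; exact hD.hLm (by unfold dt; simp)
      have h1 : dt um (q - p) = 0 := by
        unfold dt at *
        simp only [Prod.fst_sub, Prod.snd_sub] at *
        linarith
      have h2 : dt um (β' - β) = 0 := by rw [dt_swap, h0, neg_zero]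
      have h3 : dt (q - p) (β' - β) = 0 := dt_par hum h1 h2
      unfold Par
      unfold dt at h3
      simp only [Prod.fst_sub, Prod.snd_sub] at h3
      linarith
    intro β hβ τ hτ hne h0
    rcases Finset.mem_insert.mp hβ with hβ' | hβ'
    · exact onm β τ hne (by rw [hβ']; unfold dt; simp) h0
    · rcases Finset.mem_insert.mp hτ with hτ' | hτ'
      · have h1 : dt um (β - Y) = 0 := by
          rw [hτ'] at h0
          unfold dt at *
          simp only [Prod.fst_sub, Prod.snd_sub] at *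
          linarith
        exact onm β τ hne h1 h0
      · rcases hparm β hβ' τ hτ' hne (parm_iff β τ h0) with ⟨w, hw, hc⟩ | h
        · exact ⟨w, hR3 hw, hc⟩
        · exact onm β τ hne ((hD.m_iff β).mp h) h0

/-- LEMMA B3, core form: a fourth red `xl` off `L` is needed only in case 1 -/
theorem lemB3_e {R B : Finset Pt} {o a b v0 r p q Y x0 x1 x2 x xl : Pt}
    (hL : ALine R B o a) (hM : ALine R B o b)
    (hNl : ALine R B v0 r) (hMNR : ∀ z, Col o b z → Col v0 r z → z ∈ R)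
    (hpq : p ≠ q)
    (hYM : Col o b Y) (hYm : Col p q Y) (hYR : Y ∉ R)
    (hmR : ∀ z ∈ R, ¬ Col p q z)
    (hMU : ∀ z, Col o b z → z ∉ R → ∀ β ∈ B, ∀ β' ∈ B, β ≠ β' → Col β β' z →
      (∃ w ∈ R, Col β β' w) ∨ (Col p q β ∧ Col p q β'))
    (hLM : ¬ Col o a b) (hLN : ¬ Par o a v0 r) (hMN : ¬ Par o b v0 r)
    (hLm : ¬ Par o a p q) (hNm : ¬ Par v0 r p q)
    (hx0 : x0 ∈ R) (hx1 : x1 ∈ R) (hx2 : x2 ∈ R) (hx : x ∈ R)
    (h01 : x1 ≠ x0) (h02 : x2 ≠ x0) (h12 : x2 ≠ x1)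
    (p01 : PairOK R o a p q x0 x1) (p02 : PairOK R o a p q x0 x2)
    (p12 : PairOK R o a p q x1 x2)
    (hgM : ¬ Col o b x) (hB : ∀ β ∈ B, β ∉ R)
    (hxl : xl ∈ R) (hxlL : ¬ Col o a xl) (hxlb : xl ≠ b)
    (hparL : ∀ β ∈ B, ∀ β' ∈ B, β ≠ β' → Par o a β β' → (∃ w ∈ R, Col β β' w) ∨
      ∀ z, Col o xl z → ¬ Col β β' z)
    (hparM : ∀ β ∈ B, ∀ β' ∈ B, β ≠ β' → Par o b β β' → (∃ w ∈ R, Col β β' w) ∨
      ∀ z, Col o x z → ¬ Col β β' z)
    (hparm : ∀ β ∈ B, ∀ β' ∈ B, β ≠ β' → Par p q β β' → (∃ w ∈ R, Col β β' w) ∨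
      Col p q β) :
    ∃ (u : Pt) (E0 W Γ : ℤ), IsCoprime u.1 u.2 ∧ (∀ z, Col o a z ↔ dt u (z - o) = 0) ∧ W ≠ 0 ∧
      ∀ m : ℤ, Γ ≤ |E0 + W * m| → ∀ t, Col o a t →
      t ∉ insert (adv o u (E0 + W * m)) R → t ∉ B →
      NoThreat (insert (adv o u (E0 + W * m)) R) (insert t B) →
      Win (insert (adv o u (E0 + W * m)) R) (insert t B) := by
  obtain ⟨uL, uM, uN, um, kY, n, hD, c, E0, W, Γ, hW, hdvd, h⟩ :=
    lemB3_core hL hM hNl hMNR hpq hYM hYm hYR hmR hMU hLM hLN hMN hLm hNm hx0 hx1 hx2 hx h01 h02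
      h12 p01 p02 p12 hgM hB hparM hparm
  refine ⟨uL, E0, W, Γ, hD.cL, hD.L_iff, hW, ?_⟩
  intro m hm t htL htR htB hNT
  obtain ⟨hsize, h'⟩ := h m hm
  obtain ⟨T, rfl⟩ := exists_adv hD.cL ((hD.L_iff t).mp htL)
  rcases h' T htR htB hNT with hr | hw
  · have hT0 : T ≠ 0 := by
      rintro rfl
      apply htR
      have : adv o uL 0 = o := by unfold adv; simp
      rw [this]
      exact Finset.mem_insert_of_mem hL.1
    have hTE : T ≠ E0 + W * m := by
      rintro rfl; exact htR (Finset.mem_insert_self _ _)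
    have hbM := (hD.M_iff b).mp (Col.refl_right _ _)
    have hxlL' : dt uL (xl - o) ≠ 0 := fun h => hxlL ((hD.L_iff xl).mpr h)
    have hbL' : dt uL (b - o) ≠ 0 := fun h => hM.ne (c.LM h hbM).symm
    refine case1_win c hNT hB hM.2.1 hbM hM.ne.symm hxl hxlL' hxlb ?_
      (hdvd m xl hxl hxlL') (hdvd m b hM.2.1 hbL') hsize hTE hT0 hr
    intro β hβ β' hβ' hne h0
    refine hparL β hβ β' hβ' hne ?_
    have haL := (hD.L_iff a).mp (Col.refl_right _ _)
    have h1 : dt uL (β' - β) = 0 := by rw [dt_swap, h0, neg_zero]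
    have h2 : dt (a - o) (β' - β) = 0 := dt_par c.uL0 haL h1
    unfold Par
    unfold dt at h2
    simp only [Prod.fst_sub, Prod.snd_sub] at h2
    linarith
  · exact hw

end Pool.Agent.K4L
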