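import Pool.Agent.K4L.K3UG2A
import Pool.Agent.K4L.LemBM

/-!
# K3U: the context, and the hits of the lines `g' e`
-/

namespace Pool.Agent.K4L

open Filter

/-- the position K3U in normal form: `c = (0, 0)`, `a = (α, 0)`, `b = (b1, b2)` -/
structure K3C (R B : Finset Pt) (α b1 b2 : ℤ) : Prop where
  hN : NoThreat R B
  hB : ∀ β ∈ B, β ∉ R
  hα : α ≠ 0
  hb2 : b2 ≠ 0
  hL : ALine R B (0, 0) (α, 0)
  hLU : Uncov R B (0, 0) (α, 0)
  hM : ALine R B (0, 0) (b1, b2)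
  hMU : Uncov R B (0, 0) (b1, b2)
  /-- blue pairs parallel to `c a` pass through `b` or do not meet `c b` in lattice points -/
  hpa : ∀ β ∈ B, ∀ β' ∈ B, β ≠ β' → β.2 = β'.2 → β.2 = b2 ∨ ¬ b2 ∣ α * β.2
  /-- blue pairs parallel to `c b` pass through `a` -/
  hpb : ∀ β ∈ B, ∀ β' ∈ B, β ≠ β' → b2 * β.1 - b1 * β.2 = b2 * β'.1 - b1 * β'.2 →
    b2 * β.1 - b1 * β.2 = b2 * α

namespace K3C

variable {R B : Finset Pt} {α b1 b2 : ℤ}

theorem cR (K : K3C R B α b1 b2) : ((0, 0) : Pt) ∈ R := K.hL.1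
theorem aR (K : K3C R B α b1 b2) : ((α, 0) : Pt) ∈ R := K.hL.2.1
theorem bR (K : K3C R B α b1 b2) : ((b1, b2) : Pt) ∈ R := K.hM.2.1

theorem hy (K : K3C R B α b1 b2) : ∀ β ∈ B, β.2 ≠ 0 := by
  intro β hβ h
  apply K.hL.2.2.2 β hβ
  unfold Col; simp only; rw [h]; ring

theorem hD (K : K3C R B α b1 b2) : ∀ β ∈ B, b2 * β.1 - b1 * β.2 ≠ 0 := by
  intro β hβ h
  apply K.hM.2.2.2 β hβ
  unfold Col; simp only; linarith

end K3C

/-- pairs of `insert t2 (insert t B)` -/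
theorem pair_cases {B : Finset Pt} {t2 t : Pt} {P : Pt → Pt → Prop}
    (hsymm : ∀ u v, P u v → P v u) (h1 : ∀ u ∈ B, ∀ v ∈ B, u ≠ v → P u v)
    (h2 : ∀ v ∈ B, P t v) (h3 : ∀ v ∈ B, P t2 v) (h4 : P t2 t) :
    ∀ u ∈ insert t2 (insert t B), ∀ v ∈ insert t2 (insert t B), u ≠ v → P u v := by
  intro u hu v hv huv
  rcases Finset.mem_insert.mp hu with hu | hu
  · rcases Finset.mem_insert.mp hv with hv | hv
    · exact absurd (hu.trans hv.symm) huv
    · rcases Finset.mem_insert.mp hv with hv | hv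
      · rw [hu, hv]; exact h4
      · rw [hu]; exact h3 v hv
  · rcases Finset.mem_insert.mp hv with hv | hv
    · rcases Finset.mem_insert.mp hu with hu | hu
      · rw [hu, hv]; exact hsymm _ _ h4
      · rw [hv]; exact hsymm _ _ (h3 u hu)
    · rcases Finset.mem_insert.mp hu with hu | hu
      · rcases Finset.mem_insert.mp hv with hv | hv
        · exact absurd (hu.trans hv.symm) huv
        · rw [hu]; exact h2 v hv
      · rcases Finset.mem_insert.mp hv with hv | hv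
        · rw [hv]; exact hsymm _ _ (h2 u hu)
        · exact h1 u hu v hv huv

/-- the hits of the line through `g' = (G b1, G b2)` and `e = (ε, 0)`, `t = (τ, 0)` with
`b2 τ = y0 ε` -/
theorem g2_hits {R B : Finset Pt} {α b1 b2 : ℤ} (K : K3C R B α b1 b2) (G : ℤ) (hG : G ≠ 0) :
    ∀ᶠ ε : ℤ in cofinite, ∀ β0 ∈ B, ∀ τ, b2 * τ = β0.2 * ε → β0.2 ≠ b2 →
      ∀ z, Col (G * b1, G * b2) (ε, 0) z → z.2 ≠ G * b2 →
        (∀ u ∈ B, ∀ v ∈ B, u ≠ v → Col u v z → ¬ Col u v (G * b1, G * b2) →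
          ¬ Col u v (b1, b2) → IsCoprime (ε - G * b1) (G * b2) → False) ∧
        (∀ β ∈ B, Col (τ, 0) β z → β.2 = G * β0.2) ∧
        (∀ s1 s2, s1 * b2 = s2 * b1 → ∀ β ∈ B, Col (s1, s2) β z → β.2 = s2 ∧ z.2 = s2) ∧
        (∀ s1 s2, s1 * b2 = s2 * b1 → Col (s1, s2) (τ, 0) z →
          z.2 * (G * β0.2 - s2) = s2 * (G * β0.2 - G * b2)) := by
  have hb2 := K.hb2
  have hGb : G * b2 ≠ 0 := mul_ne_zero hG hb2
  have C1 : ∀ᶠ ε : ℤ in cofinite, ∀ u ∈ B, ∀ v ∈ B, v.2 ≠ u.2 →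
      |G * b2 * ((v.1 - u.1) * (G * b2 - u.2) - (v.2 - u.2) * (G * b1 - u.1))| <
      |(v.2 - u.2) * ε + (G * b2 * (v.1 - u.1) - (v.2 - u.2) * (G * b1))| := by
    refine ev_fin2 B B ?_
    intro u _ v _
    by_cases h : v.2 = u.2
    · exact Filter.Eventually.of_forall (fun E h' => absurd h h')
    · filter_upwards [ev_linC (v.2 - u.2) (G * b2 * (v.1 - u.1) - (v.2 - u.2) * (G * b1))
        |G * b2 * ((v.1 - u.1) * (G * b2 - u.2) - (v.2 - u.2) * (G * b1 - u.1))|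
        (sub_ne_zero.mpr h)] with E hE _
      exact hE
  have C2 : ∀ᶠ ε : ℤ in cofinite, ∀ β ∈ B, ∀ β0 ∈ B,
      2 * |G * b2 * β.1 - G * b1 * β.2| * (1 + |β.2 * (G * β0.2 - G * b2)|) < |ε| :=
    ev_fin2 B B (fun _ _ _ _ => ev_abs _)
  have C3 : ∀ᶠ ε : ℤ in cofinite, ∀ β ∈ B,
      |G * b2 * β.1 - G * b1 * β.2| * (2 + |β.2 - G * b2|) < |ε| :=
    ev_fin B (fun _ _ => ev_abs _)
  filter_upwards [C1, C2, C3, ev_abs 0] with ε c1 c2 c3 c4
  intro β0 hβ0 τ hτ hy0 z hz hzg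
  have hε : ε ≠ 0 := by rintro rfl; simp at c4
  unfold Col at hz
  simp only at hz
  have hτ' : G * b2 * τ = G * β0.2 * ε := by linear_combination G * hτ
  have hDG : ∀ β ∈ B, G * b2 * β.1 - G * b1 * β.2 ≠ 0 := by
    intro β hβ h
    have : G * (b2 * β.1 - b1 * β.2) = 0 := by linear_combination h
    rcases mul_eq_zero.mp this with h | h
    · exact hG h
    · exact K.hD β hβ h
  have hYB : G * β0.2 ≠ G * b2 := fun h => hy0 (mul_left_cancel₀ hG h)
  refine ⟨?_, ?_, ?_, ?_⟩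
  · intro u hu v hv huv hc hg hb hco
    unfold Col at hc hg
    simp only at hc hg
    obtain ⟨h1, h2⟩ := near_be hGb hg (c1 u hu v hv) hz hc
    rcases K.hpa u hu v hv huv h1.symm with h3 | h3
    · apply hb
      unfold Col
      simp only
      rw [h1, h3]; ring
    · apply h3
      have h4 : (G * b2) ∣ (ε - G * b1) * (z.2 - G * b2) := ⟨-(z.1 - G * b1), by rw [hz]; ring⟩
      have h5 := hco.symm.dvd_of_dvd_mul_left h4
      have h6 : b2 ∣ z.2 - G * b2 := (dvd_mul_left b2 G).trans h5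
      have h7 : b2 ∣ z.2 := by
        have := dvd_add h6 (dvd_mul_left b2 G)
        rwa [sub_add_cancel] at this
      rw [← h2]
      exact Dvd.dvd.mul_left h7 _
  · intro β hβ hc
    by_contra hne
    unfold Col at hc
    simp only at hc
    exact g2_t_no (hDG β hβ) (K.hy β hβ) hYB hne (c2 β hβ β0 hβ0) (g2_t hτ' hz hc)
  · intro s1 s2 hs β hβ hc
    unfold Col at hc
    simp only at hc
    have hs' : s1 * (G * b2) = s2 * (G * b1) := by linear_combination G * hs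
    have h1 := g2_s hs' hz hc
    have h2 : β.2 = s2 := by
      by_contra hne
      exact g2_s_no (fun h => hne h.symm) hzg (c3 β hβ) h1
    refine ⟨h2, ?_⟩
    rw [h2, sub_self, zero_mul, zero_mul] at h1
    rcases mul_eq_zero.mp h1 with h3 | h3
    · linarith
    · rw [← h2] at h3; exact absurd h3 (hDG β hβ)
  · intro s1 s2 hs hc
    unfold Col at hc
    simp only at hc
    have hs' : s1 * (G * b2) = s2 * (G * b1) := by linear_combination G * hs
    exact g2_ts hε hs' hτ' hz hc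

/-- parallels to `g' e` -/
theorem g2_pars {R B : Finset Pt} {α b1 b2 : ℤ} (K : K3C R B α b1 b2) (G : ℤ) (hG : G ≠ 0) :
    ∀ᶠ ε : ℤ in cofinite, ∀ β0 ∈ B, ∀ τ, b2 * τ = β0.2 * ε →
        (∀ u ∈ B, ∀ v ∈ B, u ≠ v → ¬ Par (G * b1, G * b2) (ε, 0) u v) ∧
        (∀ β ∈ B, ¬ Par (G * b1, G * b2) (ε, 0) (τ, 0) β) ∧
        (∀ s1 s2, s1 * b2 = s2 * b1 → ∀ β ∈ B, ¬ Par (G * b1, G * b2) (ε, 0) (s1, s2) β) ∧
        (∀ s1 s2, s1 * b2 = s2 * b1 → Par (G * b1, G * b2) (ε, 0) (s1, s2) (τ, 0) →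
          s2 = G * β0.2) := by
  have hb2 := K.hb2
  have hGb : G * b2 ≠ 0 := mul_ne_zero hG hb2
  have C1 : ∀ᶠ ε : ℤ in cofinite, ∀ u ∈ B, ∀ v ∈ B, u ≠ v →
      (v.2 - u.2) * ε + (-(G * b1) * (v.2 - u.2) + G * b2 * (v.1 - u.1)) ≠ 0 := by
    refine ev_fin2 B B ?_
    intro u _ v _
    by_cases huv : u = v
    · exact Filter.Eventually.of_forall (fun E h' => absurd huv h')
    · have : ∀ᶠ ε : ℤ in cofinite,
          (v.2 - u.2) * ε + (-(G * b1) * (v.2 - u.2) + G * b2 * (v.1 - u.1)) ≠ 0 := by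
        apply ev_linne
        by_cases h : v.2 - u.2 = 0
        · right
          intro h'
          rw [h, mul_zero, zero_add] at h'
          rcases mul_eq_zero.mp h' with h1 | h1
          · exact hGb h1
          · exact huv (Prod.ext (by linarith) (by linarith))
        · exact Or.inl h
      filter_upwards [this] with ε hε _
      exact hε
  have C2 : ∀ᶠ ε : ℤ in cofinite, ∀ β ∈ B, |G * b2 * β.1 - G * b1 * β.2| < |ε| :=
    ev_fin B (fun _ _ => ev_abs _)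
  filter_upwards [C1, C2, ev_abs 0] with ε c1 c2 c4
  intro β0 hβ0 τ hτ
  have hε : ε ≠ 0 := by rintro rfl; simp at c4
  have hτ' : G * b2 * τ = G * β0.2 * ε := by linear_combination G * hτ
  have hDG : ∀ β ∈ B, G * b2 * β.1 - G * b1 * β.2 ≠ 0 := by
    intro β hβ h
    have : G * (b2 * β.1 - b1 * β.2) = 0 := by linear_combination h
    rcases mul_eq_zero.mp this with h | h
    · exact hG h
    · exact K.hD β hβ h
  refine ⟨?_, ?_, ?_, ?_⟩
  · intro u hu v hv huv h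
    unfold Par at h
    simp only at h
    exact c1 u hu v hv huv (by linear_combination h)
  · intro β hβ h
    unfold Par at h
    simp only at h
    obtain ⟨_, h2⟩ := lin_large (c2 β hβ)
      (x := β.2 - G * β0.2) (by linear_combination h + hτ')
    exact hDG β hβ h2
  · intro s1 s2 hs β hβ h
    unfold Par at h
    simp only at h
    obtain ⟨_, h2⟩ := lin_large (c2 β hβ)
      (x := β.2 - s2) (by linear_combination h + G * hs)
    exact hDG β hβ h2
  · intro s1 s2 hs h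
    unfold Par at h
    simp only at h
    apply mul_left_cancel₀ hε
    linear_combination -h + hτ' - G * hs

/-- near stones are not on `g' e` -/
theorem g2_alive {R B : Finset Pt} {α b1 b2 : ℤ} (K : K3C R B α b1 b2) (G : ℤ) (hG : G ≠ 0) :
    ∀ᶠ ε : ℤ in cofinite, ∀ β ∈ B, ¬ Col (G * b1, G * b2) (ε, 0) β := by
  have hGb : G * b2 ≠ 0 := mul_ne_zero hG K.hb2
  have : ∀ᶠ ε : ℤ in cofinite, ∀ β ∈ B,
      (β.2 - G * b2) * ε + (-(G * b1 * (β.2 - G * b2)) + G * b2 * (β.1 - G * b1)) ≠ 0 := by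
    refine ev_fin _ ?_
    intro β hβ
    apply ev_linne
    by_cases h : β.2 - G * b2 = 0
    · right
      intro h'
      rw [h, mul_zero, neg_zero, zero_add] at h'
      rcases mul_eq_zero.mp h' with h1 | h1
      · exact hGb h1
      · apply K.hD β hβ
        have e1 : β.1 = G * b1 := by linarith
        have e2 : β.2 = G * b2 := by linarith
        rw [e1, e2]; ring
    · exact Or.inl h
  filter_upwards [this] with ε hε β hβ hc
  unfold Col at hc
  simp only at hc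
  exact hε β hβ (by linear_combination hc)

/-- parallels to `m = t β0` -/
theorem g2_mpars {R B : Finset Pt} {α b1 b2 : ℤ} (K : K3C R B α b1 b2) (G : ℤ) (hG : G ≠ 0) :
    ∀ᶠ ε : ℤ in cofinite, ∀ β0 ∈ B, ∀ τ, b2 * τ = β0.2 * ε →
      (∀ u ∈ B, ∀ v ∈ B, u ≠ v → ¬ Par (τ, 0) β0 u v) ∧
      (∀ s1 s2, s1 * b2 = s2 * b1 → ∀ β ∈ B, β.2 ≠ s2 → ¬ Par (τ, 0) β0 (s1, s2) β) ∧
      ¬ Par (G * b1, G * b2) (α, 0) (τ, 0) β0 := by
  have hb2 := K.hb2
  have hGb : G * b2 ≠ 0 := mul_ne_zero hG hb2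
  have D1 : ∀ᶠ ε : ℤ in cofinite, ∀ β0 ∈ B, ∀ u ∈ B, ∀ v ∈ B, u ≠ v →
      (-(β0.2 * (v.2 - u.2))) * ε + (b2 * β0.1 * (v.2 - u.2) - b2 * β0.2 * (v.1 - u.1)) ≠ 0 := by
    refine ev_fin B (fun β0 hβ0 => ev_fin2 B B ?_)
    intro u _ v _
    by_cases huv : u = v
    · exact Filter.Eventually.of_forall (fun E h' => absurd huv h')
    · have : ∀ᶠ ε : ℤ in cofinite, (-(β0.2 * (v.2 - u.2))) * ε +
          (b2 * β0.1 * (v.2 - u.2) - b2 * β0.2 * (v.1 - u.1)) ≠ 0 := by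
        apply ev_linne
        by_cases h : v.2 - u.2 = 0
        · right
          intro h'
          rw [h, mul_zero, zero_sub, neg_eq_zero] at h'
          rcases mul_eq_zero.mp h' with h1 | h1
          · exact mul_ne_zero hb2 (K.hy β0 hβ0) h1
          · exact huv (Prod.ext (by linarith) (by linarith))
        · exact Or.inl (neg_ne_zero.mpr (mul_ne_zero (K.hy β0 hβ0) h))
      filter_upwards [this] with ε hε _
      exact hε
  have D2 : ∀ᶠ ε : ℤ in cofinite, ∀ β ∈ B, ∀ β0 ∈ B,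
      |β0.2 * (b2 * β.1 - b1 * β.2)| < |(-β0.2) * ε + (b2 * β0.1 - β0.2 * b1)| := by
    refine ev_fin2 B B ?_
    intro β _ β0 hβ0
    exact ev_linC _ _ _ (neg_ne_zero.mpr (K.hy β0 hβ0))
  have D3 : ∀ᶠ ε : ℤ in cofinite, ∀ β0 ∈ B,
      (-(G * b2 * β0.2)) * ε + ((α - G * b1) * β0.2 * b2 + G * b2 * b2 * β0.1) ≠ 0 :=
    ev_fin B (fun β0 hβ0 => ev_linne _ _ _
      (Or.inl (neg_ne_zero.mpr (mul_ne_zero hGb (K.hy β0 hβ0)))))
  filter_upwards [D1, D2, D3] with ε d1 d2 d3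
  intro β0 hβ0 τ hτ
  refine ⟨?_, ?_, ?_⟩
  · intro u hu v hv huv h
    unfold Par at h
    simp only at h
    exact d1 β0 hβ0 u hu v hv huv (by linear_combination b2 * h + (v.2 - u.2) * hτ)
  · intro s1 s2 hs β hβ hne h
    unfold Par at h
    simp only at h
    have h1 : ((-β0.2) * ε + (b2 * β0.1 - β0.2 * b1)) * (β.2 - s2) =
        β0.2 * (b2 * β.1 - b1 * β.2) := by
      linear_combination b2 * h + (β.2 - s2) * hτ - β0.2 * hs
    have h2 : 1 ≤ |β.2 - s2| := Int.one_le_abs (fun h => hne (by linarith))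
    have h3 := le_mul_of_one_le_right
      (abs_nonneg ((-β0.2) * ε + (b2 * β0.1 - β0.2 * b1))) h2
    rw [← abs_mul, h1] at h3
    exact absurd (d2 β hβ β0 hβ0) (not_lt.mpr h3)
  · intro h
    unfold Par at h
    simp only at h
    exact d3 β0 hβ0 (by linear_combination b2 * h + G * b2 * hτ)

end Pool.Agent.K4L
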