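import Pool.Agent.K4L.K3UG1T
import Pool.Agent.K4L.ForkQ

/-!
# K3U, the kill `f` on `g e`: rational tools
-/

namespace Pool.Agent.K4L

open Filter

/-- a common denominator -/
theorem exists_den (l : List ℚ) : ∃ D : ℤ, D ≠ 0 ∧ ∀ q ∈ l, ∃ m : ℤ, (D : ℚ) * q = m := by
  induction l with
  | nil => exact ⟨1, one_ne_zero, by simp⟩
  | cons a l ih =>
    obtain ⟨D, hD, h⟩ := ih
    refine ⟨D * a.den, mul_ne_zero hD (by exact_mod_cast a.den_ne_zero), ?_⟩
    intro q hq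
    rcases List.mem_cons.mp hq with hq | hq
    · refine ⟨D * a.num, ?_⟩
      rw [hq]
      push_cast
      have : (a.den : ℚ) * a = a.num := by
        rw [mul_comm]; exact Rat.mul_den_eq_num a
      rw [mul_assoc, this]
    · obtain ⟨m, hm⟩ := h q hq
      refine ⟨a.den * m, ?_⟩
      push_cast
      rw [← hm]; ring

/-- the linear lemma with rational coefficients -/
theorem linQ (A B C D : ℚ) (hA : A ≠ 0) : ∀ᶠ G : ℤ in cofinite, ∀ k : ℤ,
    (A * k + B) * G + (C * k + D) = 0 → A * k + B = 0 ∧ C * k + D = 0 := by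
  obtain ⟨d, hd, h⟩ := exists_den [A, B, C, D]
  obtain ⟨A', hA'⟩ := h A (by simp)
  obtain ⟨B', hB'⟩ := h B (by simp)
  obtain ⟨C', hC'⟩ := h C (by simp)
  obtain ⟨D', hD'⟩ := h D (by simp)
  have hdq : (d : ℚ) ≠ 0 := by exact_mod_cast hd
  have hA0 : A' ≠ 0 := by
    rintro rfl
    rw [Int.cast_zero] at hA'
    rcases mul_eq_zero.mp hA' with h | h
    · exact hdq h
    · exact hA h
  filter_upwards [ev_abs (|C'| * (1 + |B'|) + |D'|)] with G hG
  intro k hk
  have h1 : (A' * k + B') * G + (C' * k + D') = 0 := by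
    have : (((A' * k + B') * G + (C' * k + D') : ℤ) : ℚ) = 0 := by
      push_cast
      rw [← hA', ← hB', ← hC', ← hD']
      linear_combination (d : ℚ) * hk
    exact_mod_cast this
  obtain ⟨h2, h3⟩ := lin2 hA0 hG h1
  have h2' : ((A' * k + B' : ℤ) : ℚ) = 0 := by exact_mod_cast h2
  have h3' : ((C' * k + D' : ℤ) : ℚ) = 0 := by exact_mod_cast h3
  push_cast at h2' h3'
  rw [← hA', ← hB'] at h2'
  rw [← hC', ← hD'] at h3'
  constructor
  · apply mul_left_cancel₀ hdq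
    linear_combination h2'
  · apply mul_left_cancel₀ hdq
    linear_combination h3'

/-- the bilinear lemma with rational coefficients -/
theorem blQ (a1 b1 c1 d1 a0 b0 c0 d0 : ℚ) (ha : a1 ≠ 0) : ∀ᶠ G : ℤ in cofinite, ∀ j k : ℤ,
    a1 * k + b1 ≠ 0 → a1 * j + c1 ≠ 0 →
    (a1 * j * k + b1 * j + c1 * k + d1) * G + (a0 * j * k + b0 * j + c0 * k + d0) = 0 →
    a1 * j * k + b1 * j + c1 * k + d1 = 0 ∧ a0 * j * k + b0 * j + c0 * k + d0 = 0 := by
  obtain ⟨d, hd, h⟩ := exists_den [a1, b1, c1, d1, a0, b0, c0, d0]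
  obtain ⟨a1', ha1⟩ := h a1 (by simp)
  obtain ⟨b1', hb1⟩ := h b1 (by simp)
  obtain ⟨c1', hc1⟩ := h c1 (by simp)
  obtain ⟨d1', hd1⟩ := h d1 (by simp)
  obtain ⟨a0', ha0⟩ := h a0 (by simp)
  obtain ⟨b0', hb0⟩ := h b0 (by simp)
  obtain ⟨c0', hc0⟩ := h c0 (by simp)
  obtain ⟨d0', hd0⟩ := h d0 (by simp)
  have hdq : (d : ℚ) ≠ 0 := by exact_mod_cast hd
  have hA0 : a1' ≠ 0 := by
    rintro rfl
    rw [Int.cast_zero] at ha1
    rcases mul_eq_zero.mp ha1 with h | h
    · exact hdq h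
    · exact ha h
  filter_upwards [ev_abs (blC a1' b1' c1' d1' a0' b0' c0' d0')] with G hG
  intro j k hu hv hk
  have hu' : a1' * k + b1' ≠ 0 := by
    intro h0
    apply hu
    have : ((a1' * k + b1' : ℤ) : ℚ) = 0 := by exact_mod_cast h0
    push_cast at this
    rw [← ha1, ← hb1] at this
    apply mul_left_cancel₀ hdq
    linear_combination this
  have hv' : a1' * j + c1' ≠ 0 := by
    intro h0
    apply hv
    have : ((a1' * j + c1' : ℤ) : ℚ) = 0 := by exact_mod_cast h0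
    push_cast at this
    rw [← ha1, ← hc1] at this
    apply mul_left_cancel₀ hdq
    linear_combination this
  have h1 : (a1' * j * k + b1' * j + c1' * k + d1') * G +
      (a0' * j * k + b0' * j + c0' * k + d0') = 0 := by
    have : (((a1' * j * k + b1' * j + c1' * k + d1') * G +
      (a0' * j * k + b0' * j + c0' * k + d0') : ℤ) : ℚ) = 0 := by
      push_cast
      rw [← ha1, ← hb1, ← hc1, ← hd1, ← ha0, ← hb0, ← hc0, ← hd0]
      linear_combination (d : ℚ) * hk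
    exact_mod_cast this
  obtain ⟨h2, h3⟩ := bl a1' b1' c1' d1' a0' b0' c0' d0' hA0 G j k hG hu' hv' h1
  have h2' : ((a1' * j * k + b1' * j + c1' * k + d1' : ℤ) : ℚ) = 0 := by exact_mod_cast h2
  have h3' : ((a0' * j * k + b0' * j + c0' * k + d0' : ℤ) : ℚ) = 0 := by exact_mod_cast h3
  push_cast at h2' h3'
  rw [← ha1, ← hb1, ← hc1, ← hd1] at h2'
  rw [← ha0, ← hb0, ← hc0, ← hd0] at h3'
  constructor
  · apply mul_left_cancel₀ hdq
    linear_combination h2'
  · apply mul_left_cancel₀ hdq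
    linear_combination h3'

/-- a nonconstant linear polynomial -/
theorem lneQ (A B : ℚ) (h : A ≠ 0 ∨ B ≠ 0) : ∀ᶠ E : ℤ in cofinite, A * (E : ℚ) + B ≠ 0 := by
  obtain ⟨d, hd, hh⟩ := exists_den [A, B]
  obtain ⟨A', hA'⟩ := hh A (by simp)
  obtain ⟨B', hB'⟩ := hh B (by simp)
  have hdq : (d : ℚ) ≠ 0 := by exact_mod_cast hd
  have h' : A' ≠ 0 ∨ B' ≠ 0 := by
    rcases h with h | h
    · left
      rintro rfl
      rw [Int.cast_zero] at hA'
      exact mul_ne_zero hdq h hA'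
    · right
      rintro rfl
      rw [Int.cast_zero] at hB'
      exact mul_ne_zero hdq h hB'
  filter_upwards [ev_linne A' B' 0 h'] with E hE h0
  apply hE
  have : ((A' * E + B' : ℤ) : ℚ) = 0 := by
    push_cast
    rw [← hA', ← hB']
    linear_combination (d : ℚ) * h0
  exact_mod_cast this

/-- the absolute value is eventually large -/
theorem evQ (c : ℚ) : ∀ᶠ E : ℤ in cofinite, c < |(E : ℚ)| := by
  filter_upwards [ev_abs ⌈c⌉] with E hE
  have h1 : c ≤ ⌈c⌉ := Int.le_ceil c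
  have h2 : ((⌈c⌉ : ℤ) : ℚ) < ((|E| : ℤ) : ℚ) := by exact_mod_cast hE
  rw [Int.cast_abs] at h2
  linarith

/-- a quadratic dominates a linear polynomial -/
theorem domQ (a b c d e : ℚ) (ha : a ≠ 0) : ∀ᶠ E : ℤ in cofinite,
    |d * (E : ℚ) + e| < |a * E * E + b * E + c| := by
  filter_upwards [evQ 1, evQ ((|b| + |d| + |c| + |e|) / |a|)] with E h1 h2
  have ha' : 0 < |a| := abs_pos.mpr ha
  rw [div_lt_iff₀ ha'] at h2
  obtain ⟨x, hx⟩ : ∃ x, x = |(E : ℚ)| := ⟨_, rfl⟩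
  have s1 : |d * (E : ℚ) + e| ≤ |d| * x + |e| := by
    rw [hx, ← abs_mul]; exact abs_add_le _ _
  have s2 : |a * (E : ℚ) * E| ≤ |a * E * E + b * E + c| + (|b| * x + |c|) := by
    have e1 : a * (E : ℚ) * E = (a * E * E + b * E + c) - (b * E + c) := by ring
    have e2 : |b * (E : ℚ) + c| ≤ |b| * x + |c| := by
      rw [hx, ← abs_mul]; exact abs_add_le _ _
    have e3 := abs_sub (a * (E : ℚ) * E + b * E + c) (b * E + c)
    rw [← e1] at e3
    linarith
  have s3 : |a * (E : ℚ) * E| = |a| * x * x := by rw [abs_mul, abs_mul, hx]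
  rw [← hx] at h1 h2
  have s4 : (|b| + |d| + |c| + |e|) * x < |a| * x * x := by
    have := mul_lt_mul_of_pos_right h2 (show 0 < x by linarith)
    linarith
  have s5 : |c| ≤ |c| * x := le_mul_of_one_le_right (abs_nonneg _) h1.le
  have s6 : |e| ≤ |e| * x := le_mul_of_one_le_right (abs_nonneg _) h1.le
  nlinarith

/-- a linear polynomial does not divide a polynomial of degree `≤ 3` not vanishing at its root -/
theorem divQ (A B p3 p2 p1 p0 : ℚ) (hA : A ≠ 0)
    (hR : -(p3 * B * B * B) + p2 * A * B * B - p1 * A * A * B + p0 * A * A * A ≠ 0) :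
    ∀ᶠ G : ℤ in cofinite, ∀ n : ℤ,
      (n : ℚ) * (A * G + B) ≠ p3 * G * G * G + p2 * G * G + p1 * G + p0 := by
  obtain ⟨d, hd, hh⟩ := exists_den [A, B, p3, p2, p1, p0]
  obtain ⟨A', hA'⟩ := hh A (by simp)
  obtain ⟨B', hB'⟩ := hh B (by simp)
  obtain ⟨q3, hq3⟩ := hh p3 (by simp)
  obtain ⟨q2, hq2⟩ := hh p2 (by simp)
  obtain ⟨q1, hq1⟩ := hh p1 (by simp)
  obtain ⟨q0, hq0⟩ := hh p0 (by simp)
  have hdq : (d : ℚ) ≠ 0 := by exact_mod_cast hd
  have hA0 : A' ≠ 0 := by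
    rintro rfl
    rw [Int.cast_zero] at hA'
    exact mul_ne_zero hdq hA hA'
  obtain ⟨Rr, hRr⟩ : ∃ Rr : ℤ, Rr = -(q3 * B' * B' * B') + q2 * A' * B' * B' - q1 * A' * A' * B' +
    q0 * A' * A' * A' := ⟨_, rfl⟩
  have hR0 : Rr ≠ 0 := by
    intro h0
    apply hR
    have : ((-(q3 * B' * B' * B') + q2 * A' * B' * B' - q1 * A' * A' * B' +
      q0 * A' * A' * A' : ℤ) : ℚ) = 0 := by
      rw [← hRr, h0]; rfl
    push_cast at this
    rw [← hA', ← hB', ← hq3, ← hq2, ← hq1, ← hq0] at this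
    apply mul_left_cancel₀ (mul_ne_zero (mul_ne_zero (mul_ne_zero hdq hdq) hdq) hdq)
    linear_combination this
  filter_upwards [ev_linC A' B' |Rr| hA0] with G hG n hn
  have h1 : n * (A' * G + B') = q3 * G * G * G + q2 * G * G + q1 * G + q0 := by
    have : ((n * (A' * G + B') : ℤ) : ℚ) = ((q3 * G * G * G + q2 * G * G + q1 * G + q0 : ℤ) : ℚ) := by
      push_cast
      rw [← hA', ← hB', ← hq3, ← hq2, ← hq1, ← hq0]
      linear_combination (d : ℚ) * hn
    exact_mod_cast this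
  have h2 : A' * G + B' ∣ Rr := by
    refine ⟨A' * A' * A' * n - (q3 * (A' * A' * G * G - A' * B' * G + B' * B') +
      q2 * A' * (A' * G - B') + q1 * A' * A'), ?_⟩
    rw [hRr]
    linear_combination -(A' * A' * A') * h1
  have h3 : |A' * G + B'| ≤ |Rr| :=
    Int.le_of_dvd (abs_pos.mpr hR0) ((abs_dvd_abs _ _).mpr h2)
  linarith

end Pool.Agent.K4L
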