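import Pool.Agent.K4L.K3UF9

/-!
# K3U, the kill `f` on `g e`: arithmetic of the two leaves
-/

namespace Pool.Agent.K4L

open Filter

section
variable {κ M : ℚ}

/-- first leaf: a near stone behind the answer on `f c` -/
theorem zs_n (hM : M ≠ 0) (hκ0 : κ ≠ 0) (hκ1 : κ ≠ 1) (x y μ c0 : ℚ) (hy : y ≠ 0) (hμ : μ ≠ 0)
    (hμ1 : μ ≠ 1) (hc0 : c0 ≠ 0) :
    ∀ᶠ E : ℤ in cofinite, ∀ᶠ G : ℤ in cofinite, ∀ m n : ℤ, (m : ℚ) / M ≠ 1 →
      (m : ℚ) / M * c0 = (1 - μ) * (μ * E + c0) →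
      ¬ cq (m / M * (κ * E)) (m / M * ((1 - κ) * G)) x y (1 + n / M * (κ * E - 1))
        (n / M * ((1 - κ) * G)) := by
  have hκ1' : 1 - κ ≠ 0 := sub_ne_zero.mpr hκ1.symm
  have hμ1' : 1 - μ ≠ 0 := sub_ne_zero.mpr hμ1.symm
  filter_upwards [lneQ (-((1 - μ) * μ)) (x * c0 - (1 - μ) * c0)
      (Or.inl (neg_ne_zero.mpr (mul_ne_zero hμ1' hμ))),
    cubQ 0 (κ * (1 - μ) * μ) (κ * (1 - μ) * c0) (-(x * c0))
      (Or.inr (Or.inl (mul_ne_zero (mul_ne_zero hκ0 hμ1') hμ)))] with E e1 e2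
  obtain ⟨w, hw⟩ : ∃ w : ℚ, w = (1 - μ) * (μ * E + c0) / c0 := ⟨_, rfl⟩
  have hw' : w * c0 = (1 - μ) * (μ * E + c0) := by rw [hw, div_mul_cancel₀ _ hc0]
  have hxw : x - w ≠ 0 := by
    intro h
    apply e1
    linear_combination c0 * h + hw'
  have hw2 : κ * E * w - x ≠ 0 := by
    intro h
    apply e2
    linear_combination c0 * h - κ * E * hw'
  have hA : (1 - κ) * (x - w) / M ≠ 0 := div_ne_zero (mul_ne_zero hκ1' hxw) hM
  filter_upwards [linQ ((1 - κ) * (x - w) / M) ((1 - κ) * (w * (1 - x)))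
    (-(y * (κ * E - 1) / M)) (-(y * (1 - w * (κ * E)))) hA] with G hG m n hm1 hm hc
  have hmw : (m : ℚ) / M = w := by
    apply mul_right_cancel₀ hc0
    rw [hm, hw']
  unfold cq at hc
  rw [hmw] at hc hm1
  obtain ⟨h1, h2⟩ := hG n (by linear_combination hc)
  obtain ⟨s, hs⟩ : ∃ s : ℚ, s = n / M := ⟨_, rfl⟩
  have h1' : (1 - κ) * (s * (x - w) + w * (1 - x)) = 0 := by rw [hs]; linear_combination h1
  have h2' : y * (1 + s * (κ * E - 1) - w * (κ * E)) = 0 := by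
    rw [hs]; linear_combination -h2
  have h3 := (mul_eq_zero.mp h1').resolve_left hκ1'
  have h4 := (mul_eq_zero.mp h2').resolve_left hy
  have h5 : (w - 1) * (κ * E * w - x) = 0 := by
    linear_combination (x - w) * h4 - (κ * E - 1) * h3
  rcases mul_eq_zero.mp h5 with h | h
  · exact hm1 (by linarith)
  · exact hw2 h

/-- first leaf: `t2` behind the answer on `f c` -/
theorem zs_t2 (hM : M ≠ 0) (hκ0 : κ ≠ 0) (hκ1 : κ ≠ 1) (μ c0 : ℚ) (hμ : μ ≠ 0)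
    (hμ1 : μ ≠ 1) (hc0 : c0 ≠ 0) (hk8 : (1 - κ) * (1 - μ) + κ * c0 ≠ 0) :
    ∀ᶠ E : ℤ in cofinite, ∀ᶠ G : ℤ in cofinite, ∀ m n : ℤ, m ≠ 0 → (m : ℚ) / M ≠ 1 →
      (m : ℚ) / M * c0 = (1 - μ) * (μ * E + c0) →
      ¬ cq (m / M * (κ * E)) (m / M * ((1 - κ) * G)) 0 (μ * G + (1 - μ))
        (1 + n / M * (κ * E - 1)) (n / M * ((1 - κ) * G)) := by
  have hκ1' : 1 - κ ≠ 0 := sub_ne_zero.mpr hκ1.symm
  have hμ1' : 1 - μ ≠ 0 := sub_ne_zero.mpr hμ1.symm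
  filter_upwards [lneQ (μ * ((1 - κ) * (1 - μ) + κ * c0))
      (-(μ * c0) + (1 - μ) * c0 * (1 - κ)) (Or.inl (mul_ne_zero hμ hk8)), evQ 0] with E e1 e2
  have hE : (E : ℚ) ≠ 0 := abs_pos.mp e2
  obtain ⟨w, hw⟩ : ∃ w : ℚ, w = (1 - μ) * (μ * E + c0) / c0 := ⟨_, rfl⟩
  have hw' : w * c0 = (1 - μ) * (μ * E + c0) := by rw [hw, div_mul_cancel₀ _ hc0]
  have hA : -(μ * (κ * E - 1) + w * (1 - κ)) / M ≠ 0 := by
    refine div_ne_zero (neg_ne_zero.mpr ?_) hM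
    intro h
    apply e1
    linear_combination c0 * h - (1 - κ) * hw'
  filter_upwards [linQ (-(μ * (κ * E - 1) + w * (1 - κ)) / M)
    (-μ + μ * w * (κ * E) + w * (1 - κ)) (-((1 - μ) * (κ * E - 1) / M))
    (-((1 - μ) * (1 - w * (κ * E)))) hA] with G hG m n hm0 hm1 hm hc
  have hmw : (m : ℚ) / M = w := by
    apply mul_right_cancel₀ hc0
    rw [hm, hw']
  have hw0 : w ≠ 0 := by rw [← hmw]; exact div_ne hm0 hM
  unfold cq at hc
  rw [hmw] at hc hm1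
  obtain ⟨h1, h2⟩ := hG n (by linear_combination hc)
  obtain ⟨s, hs⟩ : ∃ s : ℚ, s = n / M := ⟨_, rfl⟩
  have h2' : (1 - μ) * (1 + s * (κ * E - 1) - w * (κ * E)) = 0 := by
    rw [hs]; linear_combination -h2
  have h4 := (mul_eq_zero.mp h2').resolve_left hμ1'
  have h1' : w * (κ * E) * (1 - κ) * (s - w) = 0 := by
    have : -(μ * (κ * E - 1) + w * (1 - κ)) * s + (-μ + μ * w * (κ * E) + w * (1 - κ)) = 0 := by
      rw [hs]; linear_combination h1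
    linear_combination -this - (μ - w * (1 - κ)) * h4
  have h5 : s = w := by
    rcases mul_eq_zero.mp h1' with h | h
    · exact absurd h (mul_ne_zero (mul_ne_zero hw0 (mul_ne_zero hκ0 hE)) hκ1')
    · linarith
  rw [h5] at h4
  exact hm1 (by linear_combination -h4)

/-- second leaf: a near stone behind the answer on `f c` -/
theorem zo_n (hM : M ≠ 0) (hκ0 : κ ≠ 0) (hκ1 : κ ≠ 1) (x y μ ρ : ℚ) (hx : x ≠ 0) (hy : y ≠ 0)
    (hμ : μ ≠ 0) (hμ1 : μ ≠ 1) (hρ : ρ ≠ 0) (hk9 : (1 - κ) * ρ - (1 - μ) ≠ 0) :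
    ∀ᶠ E : ℤ in cofinite, ∀ᶠ G : ℤ in cofinite, ∀ m n : ℤ,
      ρ * (m / M) = (1 - μ) * (μ * G + ρ) →
      ¬ cq (m / M * (κ * E)) (m / M * ((1 - κ) * G)) x y (n / M * (κ * E))
        (1 + n / M * ((1 - κ) * G - 1)) := by
  have hκ1' : 1 - κ ≠ 0 := sub_ne_zero.mpr hκ1.symm
  have hμ1' : 1 - μ ≠ 0 := sub_ne_zero.mpr hμ1.symm
  obtain ⟨r1, hr1⟩ : ∃ r1 : ℚ, r1 = (1 - μ) * μ / ρ := ⟨_, rfl⟩
  have hr1' : r1 * ρ = (1 - μ) * μ := by rw [hr1, div_mul_cancel₀ _ hρ]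
  have hr10 : r1 ≠ 0 := by
    rw [hr1]; exact div_ne_zero (mul_ne_zero hμ1' hμ) hρ
  have hcub : κ * κ * κ * (1 - y) * r1 * r1 * y ≠ 0 ∨
      (x * (1 - κ) * r1 * (κ * (1 - μ - y)) * (κ * (1 - μ - y)) -
        κ * (1 - y) * r1 * (κ * r1 * (-x) + x * (1 - κ) * (κ * (1 - μ - y))) -
        x * (1 - κ) * (1 - μ) * (κ * r1) * (κ * (1 - μ - y)) +
        2 * (κ * (1 - y) * (1 - μ)) * (κ * r1) * (x * (1 - κ)) +
        (-x) * (κ * r1) * (κ * r1)) ≠ 0 := by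
    by_cases hy1 : y = 1
    · right
      rw [hy1]
      have e : x * (1 - κ) * r1 * (κ * (1 - μ - 1)) * (κ * (1 - μ - 1)) -
        κ * (1 - 1) * r1 * (κ * r1 * (-x) + x * (1 - κ) * (κ * (1 - μ - 1))) -
        x * (1 - κ) * (1 - μ) * (κ * r1) * (κ * (1 - μ - 1)) +
        2 * (κ * (1 - 1) * (1 - μ)) * (κ * r1) * (x * (1 - κ)) +
        (-x) * (κ * r1) * (κ * r1) = x * κ * κ * r1 * ((1 - κ) * μ - r1) := by ring
      rw [e]
      refine mul_ne_zero (mul_ne_zero (mul_ne_zero (mul_ne_zero hx hκ0) hκ0) hr10) ?_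
      intro h
      have h2 : μ * ((1 - κ) * ρ - (1 - μ)) = 0 := by linear_combination ρ * h + hr1'
      rcases mul_eq_zero.mp h2 with h3 | h3
      · exact hμ h3
      · exact hk9 h3
    · left
      exact mul_ne_zero (mul_ne_zero (mul_ne_zero (mul_ne_zero (mul_ne_zero (mul_ne_zero hκ0 hκ0)
        hκ0) (sub_ne_zero.mpr (Ne.symm hy1))) hr10) hr10) hy
  have hcub' : κ * κ * κ * (1 - y) * r1 * r1 * y ≠ 0 ∨
      (x * (1 - κ) * r1 * (κ * (1 - μ - y)) * (κ * (1 - μ - y)) -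
        κ * (1 - y) * r1 * (κ * r1 * (-x) + x * (1 - κ) * (κ * (1 - μ - y))) -
        x * (1 - κ) * (1 - μ) * (κ * r1) * (κ * (1 - μ - y)) +
        2 * (κ * (1 - y) * (1 - μ)) * (κ * r1) * (x * (1 - κ)) +
        (-x) * (κ * r1) * (κ * r1)) ≠ 0 ∨
      (2 * (x * (1 - κ) * r1) * (κ * (1 - μ - y)) * (-x) -
        (κ * (1 - y) * r1 * (x * (1 - κ)) * (-x) + x * (1 - κ) * (1 - μ) *
          (κ * r1 * (-x) + x * (1 - κ) * (κ * (1 - μ - y)))) +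
        (κ * (1 - y) * (1 - μ) * (x * (1 - κ)) * (x * (1 - κ)) +
          2 * (-x) * (κ * r1) * (x * (1 - κ)))) ≠ 0 ∨
      (x * (1 - κ) * r1 * x * x + x * (1 - κ) * (1 - μ) * (x * (1 - κ)) * x -
        x * (x * (1 - κ)) * (x * (1 - κ))) ≠ 0 := by
    rcases hcub with h | h
    · exact Or.inl h
    · exact Or.inr (Or.inl h)
  filter_upwards [cubQ _ _ _ _ hcub', lneQ (κ * r1) (x * (1 - κ)) (Or.inl (mul_ne_zero hκ0 hr10))]
    with E e1 e2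
  have hA : x * (1 - κ) + κ * E * r1 ≠ 0 := by
    intro h; apply e2; linear_combination h
  have hR : -((0 : ℚ) * (-x + κ * E * (1 - μ - y)) * (-x + κ * E * (1 - μ - y)) *
        (-x + κ * E * (1 - μ - y))) +
      (M * (x * (1 - κ) * r1)) * (x * (1 - κ) + κ * E * r1) * (-x + κ * E * (1 - μ - y)) *
        (-x + κ * E * (1 - μ - y)) -
      (M * (κ * E * (1 - y) * r1 + x * (1 - κ) * (1 - μ))) * (x * (1 - κ) + κ * E * r1) *
        (x * (1 - κ) + κ * E * r1) * (-x + κ * E * (1 - μ - y)) +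
      (M * (κ * E * (1 - y) * (1 - μ) - x)) * (x * (1 - κ) + κ * E * r1) *
        (x * (1 - κ) + κ * E * r1) * (x * (1 - κ) + κ * E * r1) ≠ 0 := by
    have e : -((0 : ℚ) * (-x + κ * E * (1 - μ - y)) * (-x + κ * E * (1 - μ - y)) *
        (-x + κ * E * (1 - μ - y))) +
      (M * (x * (1 - κ) * r1)) * (x * (1 - κ) + κ * E * r1) * (-x + κ * E * (1 - μ - y)) *
        (-x + κ * E * (1 - μ - y)) -
      (M * (κ * E * (1 - y) * r1 + x * (1 - κ) * (1 - μ))) * (x * (1 - κ) + κ * E * r1) *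
        (x * (1 - κ) + κ * E * r1) * (-x + κ * E * (1 - μ - y)) +
      (M * (κ * E * (1 - y) * (1 - μ) - x)) * (x * (1 - κ) + κ * E * r1) *
        (x * (1 - κ) + κ * E * r1) * (x * (1 - κ) + κ * E * r1) =
      M * (x * (1 - κ) + κ * E * r1) * (
        (x * (1 - κ) * r1) * (-x + κ * E * (1 - μ - y)) * (-x + κ * E * (1 - μ - y)) -
        (κ * E * (1 - y) * r1 + x * (1 - κ) * (1 - μ)) * (x * (1 - κ) + κ * E * r1) *
          (-x + κ * E * (1 - μ - y)) +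
        (κ * E * (1 - y) * (1 - μ) - x) * (x * (1 - κ) + κ * E * r1) *
          (x * (1 - κ) + κ * E * r1)) := by ring
    rw [e]
    refine mul_ne_zero (mul_ne_zero hM hA) ?_
    intro h
    apply e1
    linear_combination h
  filter_upwards [divQ (x * (1 - κ) + κ * E * r1) (-x + κ * E * (1 - μ - y)) 0
    (M * (x * (1 - κ) * r1)) (M * (κ * E * (1 - y) * r1 + x * (1 - κ) * (1 - μ)))
    (M * (κ * E * (1 - y) * (1 - μ) - x)) hA hR] with G hG m n hm hc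
  unfold cq at hc
  apply hG n
  obtain ⟨r, hr⟩ : ∃ r : ℚ, r = m / M := ⟨_, rfl⟩
  obtain ⟨s, hs⟩ : ∃ s : ℚ, s = n / M := ⟨_, rfl⟩
  rw [← hr, ← hs] at hc
  rw [← hr] at hm
  have hr' : r = r1 * G + (1 - μ) := by
    apply mul_left_cancel₀ hρ
    rw [hm]
    linear_combination -(G : ℚ) * hr1'
  have hn : (n : ℚ) = M * s := by
    rw [hs]; field_simp
  rw [hr'] at hc
  rw [hn]
  linear_combination M * hc

/-- second leaf: `t` behind the answer on `f c` -/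
theorem zo_t (hM : M ≠ 0) (hκ0 : κ ≠ 0) (hκ1 : κ ≠ 1) (μ ρ : ℚ)
    (hμ : μ ≠ 0) (hμ1 : μ ≠ 1) (hρ : ρ ≠ 0) :
    ∀ᶠ E : ℤ in cofinite, ∀ᶠ G : ℤ in cofinite, ∀ m n : ℤ,
      ρ * (m / M) = (1 - μ) * (μ * G + ρ) →
      ¬ cq (m / M * (κ * E)) (m / M * ((1 - κ) * G)) (μ * E + (1 - μ)) 0 (n / M * (κ * E))
        (1 + n / M * ((1 - κ) * G - 1)) := by
  have hκ1' : 1 - κ ≠ 0 := sub_ne_zero.mpr hκ1.symm
  have hμ1' : 1 - μ ≠ 0 := sub_ne_zero.mpr hμ1.symm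
  obtain ⟨r1, hr1⟩ : ∃ r1 : ℚ, r1 = (1 - μ) * μ / ρ := ⟨_, rfl⟩
  have hr1' : r1 * ρ = (1 - μ) * μ := by rw [hr1, div_mul_cancel₀ _ hρ]
  have hr10 : r1 ≠ 0 := by
    rw [hr1]; exact div_ne_zero (mul_ne_zero hμ1' hμ) hρ
  have hL : μ * μ * (1 - κ) - μ * r1 + κ * r1 ≠ 0 ∨ (1 - μ) * (μ * (1 - κ) - r1) ≠ 0 := by
    by_cases h : μ * (1 - κ) - r1 = 0
    · left
      have e : μ * μ * (1 - κ) - μ * r1 + κ * r1 = κ * r1 := by linear_combination μ * h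
      rw [e]
      exact mul_ne_zero hκ0 hr10
    · right
      exact mul_ne_zero hμ1' h
  filter_upwards [lneQ _ _ hL, lneQ (μ * (1 - κ) + κ * r1) ((1 - μ) * (1 - κ))
      (Or.inr (mul_ne_zero hμ1' hκ1')), lneQ (κ * (1 - μ) - μ) (-(1 - μ))
      (Or.inr (neg_ne_zero.mpr hμ1')), lneQ μ (1 - μ) (Or.inl hμ)] with E e1 e2 e3 e4
  obtain ⟨τ, hτ⟩ : ∃ τ : ℚ, τ = μ * E + (1 - μ) := ⟨_, rfl⟩
  rw [← hτ] at e4 ⊢
  have hA : τ * (1 - κ) + κ * E * r1 ≠ 0 := by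
    intro h; rw [hτ] at h; apply e2; linear_combination h
  have hB : -τ + κ * E * (1 - μ) ≠ 0 := by
    intro h; rw [hτ] at h; apply e3; linear_combination h
  have hL' : τ * (μ * (1 - κ) - r1) + κ * E * r1 ≠ 0 := by
    intro h; rw [hτ] at h; apply e1; linear_combination h
  have hR : -((0 : ℚ) * (-τ + κ * E * (1 - μ)) * (-τ + κ * E * (1 - μ)) *
        (-τ + κ * E * (1 - μ))) +
      (M * (τ * (1 - κ) * r1)) * (τ * (1 - κ) + κ * E * r1) * (-τ + κ * E * (1 - μ)) *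
        (-τ + κ * E * (1 - μ)) -
      (M * (κ * E * r1 + τ * (1 - κ) * (1 - μ))) * (τ * (1 - κ) + κ * E * r1) *
        (τ * (1 - κ) + κ * E * r1) * (-τ + κ * E * (1 - μ)) +
      (M * (κ * E * (1 - μ) - τ)) * (τ * (1 - κ) + κ * E * r1) *
        (τ * (1 - κ) + κ * E * r1) * (τ * (1 - κ) + κ * E * r1) ≠ 0 := by
    have e : -((0 : ℚ) * (-τ + κ * E * (1 - μ)) * (-τ + κ * E * (1 - μ)) *
        (-τ + κ * E * (1 - μ))) +
      (M * (τ * (1 - κ) * r1)) * (τ * (1 - κ) + κ * E * r1) * (-τ + κ * E * (1 - μ)) *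
        (-τ + κ * E * (1 - μ)) -
      (M * (κ * E * r1 + τ * (1 - κ) * (1 - μ))) * (τ * (1 - κ) + κ * E * r1) *
        (τ * (1 - κ) + κ * E * r1) * (-τ + κ * E * (1 - μ)) +
      (M * (κ * E * (1 - μ) - τ)) * (τ * (1 - κ) + κ * E * r1) *
        (τ * (1 - κ) + κ * E * r1) * (τ * (1 - κ) + κ * E * r1) =
      M * (τ * (1 - κ) + κ * E * r1) * (-τ + κ * E * (1 - μ)) * (τ * (1 - κ)) *
        (τ * (μ * (1 - κ) - r1) + κ * E * r1) := by ring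
    rw [e]
    exact mul_ne_zero (mul_ne_zero (mul_ne_zero (mul_ne_zero hM hA) hB)
      (mul_ne_zero e4 hκ1')) hL'
  filter_upwards [divQ (τ * (1 - κ) + κ * E * r1) (-τ + κ * E * (1 - μ)) 0
    (M * (τ * (1 - κ) * r1)) (M * (κ * E * r1 + τ * (1 - κ) * (1 - μ)))
    (M * (κ * E * (1 - μ) - τ)) hA hR] with G hG m n hm hc
  unfold cq at hc
  apply hG n
  obtain ⟨r, hr⟩ : ∃ r : ℚ, r = m / M := ⟨_, rfl⟩
  obtain ⟨s, hs⟩ : ∃ s : ℚ, s = n / M := ⟨_, rfl⟩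
  rw [← hr, ← hs] at hc
  rw [← hr] at hm
  have hr' : r = r1 * G + (1 - μ) := by
    apply mul_left_cancel₀ hρ
    rw [hm]
    linear_combination -(G : ℚ) * hr1'
  have hn : (n : ℚ) = M * s := by
    rw [hs]; field_simp
  rw [hr'] at hc
  rw [hn]
  linear_combination M * hc

/-- the size condition of `lemCX0`, third alternative -/
theorem size_ev (hκ1 : κ ≠ 1) {E lam : ℚ} (hE : E ≠ 0) (hl : lam ≠ 0) (u w : ℚ) :
    ∀ᶠ G : ℤ in cofinite, (1 - κ) * G * E * (-(κ * E) - lam * G) ≠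
      -(κ * E) * (u * G + w - lam * G) := by
  have hκ1' : 1 - κ ≠ 0 := sub_ne_zero.mpr hκ1.symm
  filter_upwards [cubQ 0 (-((1 - κ) * E * lam)) (-((1 - κ) * E * (κ * E)) + κ * E * (u - lam))
    (κ * E * w) (Or.inr (Or.inl (neg_ne_zero.mpr (mul_ne_zero (mul_ne_zero hκ1' hE) hl))))]
    with G hG h
  apply hG
  linear_combination h

/-- the answer on `f c` is not on `g a` -/
theorem tga (hM : M ≠ 0) (hκ0 : κ ≠ 0) : ∀ᶠ E : ℤ in cofinite, ∀ m : ℤ, m ≠ 0 →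
    (m : ℚ) / M * (κ * E + (1 - κ)) ≠ 1 := by
  have hA : κ / M ≠ 0 := div_ne_zero hκ0 hM
  filter_upwards [linQ (κ / M) 0 ((1 - κ) / M) (-1) hA] with E e1 m hm h
  obtain ⟨h1, _⟩ := e1 m (by linear_combination h)
  rw [add_zero] at h1
  rcases mul_eq_zero.mp h1 with h | h
  · exact hA h
  · exact hm (by exact_mod_cast h)

/-- the answer on `f c` is not on `b e` -/
theorem tbe (hM : M ≠ 0) (hκ1 : κ ≠ 1) : ∀ᶠ G : ℤ in cofinite, ∀ m : ℤ, m ≠ 0 →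
    (m : ℚ) / M * ((1 - κ) * G + κ) ≠ 1 := by
  have hA : (1 - κ) / M ≠ 0 := div_ne_zero (sub_ne_zero.mpr hκ1.symm) hM
  filter_upwards [linQ ((1 - κ) / M) 0 (κ / M) (-1) hA] with E e1 m hm h
  obtain ⟨h1, _⟩ := e1 m (by linear_combination h)
  rw [add_zero] at h1
  rcases mul_eq_zero.mp h1 with h | h
  · exact hA h
  · exact hm (by exact_mod_cast h)

/-- a point of `f a` is not on `b e` -/
theorem abe (hM : M ≠ 0) (hκ1 : κ ≠ 1) {E : ℚ} (hE : E ≠ 0) :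
    ∀ᶠ G : ℤ in cofinite, ∀ n : ℤ, n ≠ 0 →
      E * ((n : ℚ) / M * ((1 - κ) * G) - 1) ≠ -(1 + n / M * (κ * E - 1)) := by
  have hA : E * (1 - κ) / M ≠ 0 := div_ne_zero (mul_ne_zero hE (sub_ne_zero.mpr hκ1.symm)) hM
  filter_upwards [linQ (E * (1 - κ) / M) 0 ((κ * E - 1) / M) (1 - E) hA] with G e1 n hn h
  obtain ⟨h1, _⟩ := e1 n (by linear_combination h)
  rw [add_zero] at h1
  rcases mul_eq_zero.mp h1 with h | h
  · exact hA h
  · exact hn (by exact_mod_cast h)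

end

end Pool.Agent.K4L
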