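import Pool.Agent.K4L.LemCXN

/-!
# Lemma C without the parallel condition: final forms
-/

namespace Pool.Agent.K4L

theorem lemCX0 {R B : Finset Pt} {o a b v0 r p q Y z3 x0 x1 x2 x3 xg xg' : Pt}
    (hN : NoThreat R B) (hB : ∀ β ∈ B, β ∉ R)
    (hL : ALine R B o a) (hM : ALine R B o b)
    (hNl : ALine R B v0 r) (hMNR : ∀ z, Col o b z → Col v0 r z → z ∈ R)
    (hpq : p ≠ q)
    (hYM : Col o b Y) (hYm : Col p q Y) (hYR : Y ∉ R)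
    (hmR : ∀ z ∈ R, ¬ Col p q z)
    (hLU : ∀ z, Col o a z → z ∉ R → ∀ β ∈ B, ∀ β' ∈ B, β ≠ β' → Col β β' z →
      (∃ w ∈ R, Col β β' w) ∨ (Col p q β ∧ Col p q β'))
    (hMU : ∀ z, Col o b z → z ∉ R → ∀ β ∈ B, ∀ β' ∈ B, β ≠ β' → Col β β' z →
      (∃ w ∈ R, Col β β' w) ∨ (Col p q β ∧ Col p q β'))
    (hLM : ¬ Col o a b) (hLN : ¬ Par o a v0 r) (hMN : ¬ Par o b v0 r)
    (hLm : ¬ Par o a p q) (hNm : ¬ Par v0 r p q)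
    (hx0 : x0 ∈ R) (hx1 : x1 ∈ R) (hx2 : x2 ∈ R) (hx3 : x3 ∈ R)
    (h012 : ¬ Col x0 x1 x2) (h013 : ¬ Col x0 x1 x3) (h023 : ¬ Col x0 x2 x3)
    (h123 : ¬ Col x1 x2 x3)
    (hz3R : z3 ∈ R) (hz3L : ¬ Col o a z3) (hz3b : z3 ≠ b)
    (hNP : ∀ β ∈ B, ∀ β' ∈ B, β ≠ β' → Par o a β β' → ∃ w ∈ R, Col β β' w)
    (hZ : ∀ τ, Col o a τ → Col p q τ → τ ∉ R → ∀ β ∈ B, ∀ t, Col o b t → t ∉ R →
      Col τ β t → ∃ w ∈ insert Y R, Col τ β w)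
    (hP : ∀ τ, Col o a τ → Col p q τ → τ ∉ R → ∀ β ∈ B, ∀ t, Col o b t → t ∉ R → t ≠ Y →
      Par o a β t → (∃ w ∈ insert Y R, Col β t w) ∨
      (∃ x ∈ R, ¬ Col o a x ∧ ¬ Col o b x ∧ (∀ z ∈ insert τ B, ¬ Col b x z) ∧ ¬ Par o a b x ∧
        (∀ z, Col o x z → ¬ Col β t z)) ∨
      (∃ x ∈ R, ∃ x' ∈ R, x ≠ x' ∧ ¬ Col o a x ∧ ¬ Col o a x' ∧
        (∀ z ∈ insert t (insert τ B), ¬ Col x x' z) ∧ ¬ Par o a x x' ∧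
        ∀ z ∈ insert τ B, cr3 o a z ≠ cr3 o a t →
          cr3 o a x' * (cr3 o a x - cr3 o a t) ≠ cr3 o a x * (cr3 o a z - cr3 o a t)))
    (hxg : xg ∈ ({x0, x1, x2, x3} : Finset Pt)) (hxg' : xg' ∈ ({x0, x1, x2, x3} : Finset Pt))
    (hgM : ¬ Col o b xg) (hgM' : ¬ Col o b xg') (hgg : xg' ≠ xg)
    (hparM : ∀ β ∈ B, ∀ β' ∈ B, β ≠ β' → Par o b β β' → (∃ w ∈ R, Col β β' w) ∨
      ∀ x ∈ ({xg, xg'} : Finset Pt), ∀ z, Col o x z → ¬ Col β β' z)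
    (hparm : ∀ β ∈ B, ∀ β' ∈ B, β ≠ β' → Par p q β β' → (∃ w ∈ R, Col β β' w) ∨
      Col p q β) :
    Win R B :=
  win_class_blockX hN hB hL hM hpq hYM hYm hYR hmR hLU hMU hLM hz3R hz3L hz3b hNP hZ hP
    (lemB0_eZ hL hM hNl hMNR hpq hYM hYm hYR hmR hMU hLM hLN hMN hLm hNm hx0 hx1 hx2 hx3 h012
      h013 h023 h123 hB hz3R hz3L hz3b (fun β hβ β' hβ' hne hP => Or.inl
        (hNP β hβ β' hβ' hne hP)) hxg hxg' hgM hgM' hgg hparM hparm)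

/-- the triangle version: `o, a, b` with alive sides, `o a` and `o b` are hit only by `m = p q` -/
theorem lb3CX {R B : Finset Pt} {o a b p q Y : Pt}
    (hN : NoThreat R B) (hB : ∀ β ∈ B, β ∉ R)
    (hL : ALine R B o a) (hM : ALine R B o b) (hNl : ALine R B b a)
    (hpq : p ≠ q) (hYM : Col o b Y) (hYm : Col p q Y) (hYR : Y ∉ R)
    (hmR : ∀ z ∈ R, ¬ Col p q z)
    (hLU : ∀ z, Col o a z → z ∉ R → ∀ β ∈ B, ∀ β' ∈ B, β ≠ β' → Col β β' z →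
      (∃ w ∈ R, Col β β' w) ∨ (Col p q β ∧ Col p q β'))
    (hMU : ∀ z, Col o b z → z ∉ R → ∀ β ∈ B, ∀ β' ∈ B, β ≠ β' → Col β β' z →
      (∃ w ∈ R, Col β β' w) ∨ (Col p q β ∧ Col p q β'))
    (hLM : ¬ Col o a b) (hLm : ¬ Par o a p q) (hNm : ¬ Par b a p q)
    {z3 : Pt} (hz3R : z3 ∈ R) (hz3L : ¬ Col o a z3) (hz3b : z3 ≠ b)
    (hNP : ∀ β ∈ B, ∀ β' ∈ B, β ≠ β' → Par o a β β' → ∃ w ∈ R, Col β β' w)
    (hZ : ∀ τ, Col o a τ → Col p q τ → τ ∉ R → ∀ β ∈ B, ∀ t, Col o b t → t ∉ R →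
      Col τ β t → ∃ w ∈ insert Y R, Col τ β w)
    (hP : ∀ τ, Col o a τ → Col p q τ → τ ∉ R → ∀ β ∈ B, ∀ t, Col o b t → t ∉ R → t ≠ Y →
      Par o a β t → (∃ w ∈ insert Y R, Col β t w) ∨
      (∃ x ∈ R, ¬ Col o a x ∧ ¬ Col o b x ∧ (∀ z ∈ insert τ B, ¬ Col b x z) ∧ ¬ Par o a b x ∧
        (∀ z, Col o x z → ¬ Col β t z)) ∨
      (∃ x ∈ R, ∃ x' ∈ R, x ≠ x' ∧ ¬ Col o a x ∧ ¬ Col o a x' ∧
        (∀ z ∈ insert t (insert τ B), ¬ Col x x' z) ∧ ¬ Par o a x x' ∧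
        ∀ z ∈ insert τ B, cr3 o a z ≠ cr3 o a t →
          cr3 o a x' * (cr3 o a x - cr3 o a t) ≠ cr3 o a x * (cr3 o a z - cr3 o a t)))
    (hparM : ∀ β ∈ B, ∀ β' ∈ B, β ≠ β' → Par o b β β' → (∃ w ∈ R, Col β β' w) ∨
      ∀ z, Col o a z → ¬ Col β β' z)
    (hparm : ∀ β ∈ B, ∀ β' ∈ B, β ≠ β' → Par p q β β' → (∃ w ∈ R, Col β β' w) ∨
      Col p q β) : Win R B :=
  win_class_blockX hN hB hL hM hpq hYM hYm hYR hmR hLU hMU hLM hz3R hz3L hz3b hNP hZ hP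
    (lb3_eZ hL hM hNl hpq hYM hYm hYR hmR hMU hLM hLm hNm hB hparM hparm)

end Pool.Agent.K4L
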