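import Pool.Agent.K4L.K3UF10
import Pool.Agent.K4L.LemCXF

/-!
# K3U, the kill `f` on `g e`: the first leaf (`t3 t` hits `f a` and `f c`)
-/

namespace Pool.Agent.K4L

open Filter

/-- the facts for the first leaf: `τ = μ E + c0`, `t2 = (0, μ G + (1 - μ))`,
`k = κ + μ (1 - κ)` -/
structure LS (B : Finset Pt) (α b1 b2 κ : ℤ) (M : ℚ) (E G : ℤ) (μ c0 τ τ2 θ : ℚ) : Prop where
  pc : NoPar B α b1 b2 τ τ2 (κ * E - 0) ((1 - κ) * G - 0)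
  pa : NoPar B α b1 b2 τ τ2 (κ * E - 1) ((1 - κ) * G - 0)
  c3n : ∀ u ∈ B, ∀ k : ℤ,
    ¬ parq (κ * E) ((1 - κ) * G) (k * E) ((1 - k) * G) (nx α b1 b2 u) (ny b2 u)
  a3n : ∀ u ∈ B, ∀ k : ℤ,
    ¬ parq (κ * E - 1) ((1 - κ) * G) (k * E) ((1 - k) * G) (nx α b1 b2 u) (ny b2 u)
  c3t : ∀ k : ℤ, (k : ℚ) * E - κ * E - (1 - κ) * τ ≠ 0
  c32 : ∀ k : ℤ, ((k : ℚ) - κ * (1 - μ)) * G + κ * (1 - μ) ≠ 0
  a32 : ∀ k : ℤ, ¬ parq (κ * E - 1) ((1 - κ) * G) (k * E) ((1 - k) * G) 0 τ2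
  b3t : ¬ parq (κ * E) ((1 - κ) * G - 1) (θ * E) ((1 - θ) * G) τ 0
  mnn : ∀ u ∈ B, ∀ v ∈ B, u ≠ v → ¬ parq (τ - θ * E) (-((1 - θ) * G))
    (nx α b1 b2 u) (ny b2 u) (nx α b1 b2 v) (ny b2 v)
  m2n : ∀ u ∈ B, ¬ parq (τ - θ * E) (-((1 - θ) * G)) 0 τ2 (nx α b1 b2 u) (ny b2 u)
  zn : ∀ u ∈ B, ∀ m n : ℤ, (m : ℚ) / M ≠ 1 → (m : ℚ) / M * c0 = (1 - μ) * τ →
      ¬ cq (m / M * (κ * E)) (m / M * ((1 - κ) * G)) (nx α b1 b2 u) (ny b2 u)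
        (1 + n / M * (κ * E - 1)) (n / M * ((1 - κ) * G))
  zt2 : ∀ m n : ℤ, m ≠ 0 → (m : ℚ) / M ≠ 1 → (m : ℚ) / M * c0 = (1 - μ) * τ →
      ¬ cq (m / M * (κ * E)) (m / M * ((1 - κ) * G)) 0 τ2
        (1 + n / M * (κ * E - 1)) (n / M * ((1 - κ) * G))
  pzn : ∀ u ∈ B, ∀ n : ℤ, ¬ parq (κ * E) ((1 - κ) * G) (nx α b1 b2 u) (ny b2 u)
        (1 + n / M * (κ * E - 1)) (n / M * ((1 - κ) * G))
  pz2 : ∀ n : ℤ, ¬ parq (κ * E) ((1 - κ) * G) 0 τ2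
        (1 + n / M * (κ * E - 1)) (n / M * ((1 - κ) * G))
  tga : ∀ m : ℤ, m ≠ 0 → (m : ℚ) / M * (κ * E + (1 - κ)) ≠ 1
  tbe : ∀ m : ℤ, m ≠ 0 → (m : ℚ) / M * ((1 - κ) * G + κ) ≠ 1
  abe : ∀ n : ℤ, n ≠ 0 → (E : ℚ) * ((n : ℚ) / M * ((1 - κ) * G) - 1) ≠
    -(1 + n / M * (κ * E - 1))
  sn : ∀ u ∈ B, (1 - κ) * G * E * (-(κ * E) - (1 - κ) * μ * E * G) ≠
      -(κ * E) * ((1 - κ) * nx α b1 b2 u * G + -(κ * E * ny b2 u) - (1 - κ) * μ * E * G)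
  st : (1 - κ) * G * E * (-(κ * E) - (1 - κ) * μ * E * G) ≠
      -(κ * E) * ((1 - κ) * τ * G + 0 - (1 - κ) * μ * E * G)
  s2 : (1 - κ) * G * E * (-(κ * E) - (1 - κ) * μ * E * G) ≠
      -(κ * E) * (-(κ * E * μ) * G + -(κ * E * (1 - μ)) - (1 - κ) * μ * E * G)
  s3 : (1 - κ) * G * E * (-(κ * E) - (1 - κ) * μ * E * G) ≠
      -(κ * E) * (E * (θ - κ) * G + 0 - (1 - κ) * μ * E * G)
  s0 : (1 - κ) * G * E * (-(κ * E) - (1 - κ) * μ * E * G) ≠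
      -(κ * E) * (0 * G + 0 - (1 - κ) * μ * E * G)
  fab : (1 - κ) * (G : ℚ) + (κ * E - 1) ≠ 0
  ga0 : (κ : ℚ) * E + (1 - κ) ≠ 0
  be0 : (1 - κ) * (G : ℚ) + κ ≠ 0

theorem ev_LS (B : Finset Pt) (α b1 b2 : ℤ) (hα : α ≠ 0) (hb2 : b2 ≠ 0) {κ : ℤ} {M : ℚ}
    (hM : M ≠ 0) (hκ0 : κ ≠ 0) (hκ1 : κ ≠ 1) (hy : ∀ β ∈ B, β.2 ≠ 0) (μ c0 : ℚ)
    (hμ : μ ≠ 0) (hμ1 : μ ≠ 1) (hc0 : c0 ≠ 0)
    (hk8 : ((1 : ℚ) - κ) * (1 - μ) + κ * c0 ≠ 0) :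
    ∀ᶠ E : ℤ in cofinite, ∀ᶠ G : ℤ in cofinite,
      LS B α b1 b2 κ M E G μ c0 (μ * E + c0) (μ * G + (1 - μ)) (κ + μ * (1 - κ)) := by
  have hκ0q : (κ : ℚ) ≠ 0 := by exact_mod_cast hκ0
  have hκ1q : (κ : ℚ) ≠ 1 := by exact_mod_cast hκ1
  have hκ1' : (1 : ℚ) - κ ≠ 0 := sub_ne_zero.mpr hκ1q.symm
  have hμ1' : 1 - μ ≠ 0 := sub_ne_zero.mpr hμ1.symm
  have hyq : ∀ β ∈ B, ny b2 β ≠ 0 := by
    intro β hβ
    unfold ny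
    exact div_ne_zero (by exact_mod_cast hy β hβ) (by exact_mod_cast hb2)
  have hk2 : μ * (1 - κ) + μ * κ ≠ 0 := by
    have : μ * (1 - (κ : ℚ)) + μ * κ = μ := by ring
    rw [this]; exact hμ
  have hθ1 : 1 - ((κ : ℚ) + μ * (1 - κ)) ≠ 0 := by
    have : 1 - ((κ : ℚ) + μ * (1 - κ)) = (1 - κ) * (1 - μ) := by ring
    rw [this]; exact mul_ne_zero hκ1' hμ1'
  have hθ2 : μ - ((κ : ℚ) + μ * (1 - κ)) ≠ 0 := by
    have : μ - ((κ : ℚ) + μ * (1 - κ)) = -(κ * (1 - μ)) := by ring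
    rw [this]; exact neg_ne_zero.mpr (mul_ne_zero hκ0q hμ1')
  filter_upwards [ev_nopar B α b1 b2 hα hb2 hκ0 hκ1 0 0 μ c0 μ (1 - μ) hμ hμ hk2,
    ev_nopar B α b1 b2 hα hb2 hκ0 hκ1 1 0 μ c0 μ (1 - μ) hμ hμ hk2,
    ev_fin B (fun u hu => p3n_a (nx α b1 b2 u) (ny b2 u) hκ0 (hyq u hu)),
    p3t_c μ c0 hc0 hκ1, p32_a μ (1 - μ) hμ1' hκ0,
    lneQ (μ - (κ + μ * (1 - κ))) c0 (Or.inl hθ2),
    ev_fin B (fun u _ => lneQ (-(μ * (μ - (κ + μ * (1 - κ)))))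
      (-(μ * c0) + (1 - (κ + μ * (1 - κ))) * nx α b1 b2 u)
      (Or.inl (neg_ne_zero.mpr (mul_ne_zero hμ hθ2)))),
    ev_fin B (fun u hu => zs_n hM hκ0q hκ1q (nx α b1 b2 u) (ny b2 u) μ c0 (hyq u hu) hμ hμ1 hc0),
    zs_t2 hM hκ0q hκ1q μ c0 hμ hμ1 hc0 hk8, tga hM hκ0q, evQ 0,
    lneQ κ (1 - κ) (Or.inl hκ0q)]
    with E e1 e2 e3 e4 e5 e6 e7 e8 e9 e10 e11 e12
  have hE : (E : ℚ) ≠ 0 := abs_pos.mp e11
  have hEi : E ≠ 0 := by rintro rfl; exact hE (by norm_num)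
  obtain ⟨τ, hτ⟩ : ∃ τ : ℚ, τ = μ * E + c0 := ⟨_, rfl⟩
  obtain ⟨θ, hθ⟩ : ∃ θ : ℚ, θ = (κ : ℚ) + μ * (1 - κ) := ⟨_, rfl⟩
  have hτθ : τ - θ * E ≠ 0 := by
    intro h; apply e6; rw [hτ, hθ] at h; linear_combination h
  have hlam : (1 - (κ : ℚ)) * μ * E ≠ 0 := mul_ne_zero (mul_ne_zero hκ1' hμ) hE
  rw [← hθ] at hθ1
  have G1 : ∀ᶠ G : ℤ in cofinite, ∀ u ∈ B, ∀ v ∈ B, u ≠ v →
      ((1 - θ) * (nx α b1 b2 v - nx α b1 b2 u)) * (G : ℚ) +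
        (τ - θ * E) * (ny b2 v - ny b2 u) ≠ 0 := by
    refine ev_fin2 B B ?_
    intro u _ v _
    by_cases huv : u = v
    · exact Eventually.of_forall (fun G h => absurd huv h)
    have : ∀ᶠ G : ℤ in cofinite, ((1 - θ) * (nx α b1 b2 v - nx α b1 b2 u)) * (G : ℚ) +
        (τ - θ * E) * (ny b2 v - ny b2 u) ≠ 0 := by
      apply lneQ
      by_cases hx : nx α b1 b2 u = nx α b1 b2 v
      · right
        have hy : ny b2 u ≠ ny b2 v := fun h => huv (n_ext hα hb2 hx h)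
        exact mul_ne_zero hτθ (sub_ne_zero.mpr hy.symm)
      · left
        exact mul_ne_zero hθ1 (sub_ne_zero.mpr (Ne.symm hx))
    filter_upwards [this] with G hG _
    exact hG
  have G2 : ∀ᶠ G : ℤ in cofinite, ∀ u ∈ B,
      (-(μ * (τ - θ * E)) + (1 - θ) * nx α b1 b2 u) * (G : ℚ) +
        (τ - θ * E) * (ny b2 u - (1 - μ)) ≠ 0 := by
    refine ev_fin B ?_
    intro u hu
    refine lneQ _ _ (Or.inl ?_)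
    intro h
    apply e7 u hu
    rw [hτ, hθ] at h
    linear_combination h
  have G3 : ∀ᶠ G : ℤ in cofinite, ∀ u ∈ B, ∀ n : ℤ,
      ¬ parq (κ * E) ((1 - κ) * G) (nx α b1 b2 u) (ny b2 u)
        (1 + n / M * (κ * E - 1)) (n / M * ((1 - κ) * G)) := by
    refine ev_fin B ?_
    intro u hu
    filter_upwards [linQ ((1 - κ) / M) ((1 - κ) * (nx α b1 b2 u - 1)) 0 (-(κ * E * ny b2 u))
      (div_ne_zero hκ1' hM)] with G hG n h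
    unfold parq at h
    obtain ⟨_, h2⟩ := hG n (by linear_combination h)
    rw [zero_mul, zero_add, neg_eq_zero] at h2
    exact mul_ne_zero (mul_ne_zero hκ0q hE) (hyq u hu) h2
  have G4 : ∀ᶠ G : ℤ in cofinite, ∀ n : ℤ,
      ¬ parq (κ * E) ((1 - κ) * G) 0 (μ * G + (1 - μ))
        (1 + n / M * (κ * E - 1)) (n / M * ((1 - κ) * G)) := by
    filter_upwards [linQ ((1 - κ) / M) (-(1 - κ) - κ * E * μ) 0 (-(κ * E * (1 - μ)))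
      (div_ne_zero hκ1' hM)] with G hG n h
    unfold parq at h
    obtain ⟨_, h2⟩ := hG n (by linear_combination h)
    rw [zero_mul, zero_add, neg_eq_zero] at h2
    exact mul_ne_zero (mul_ne_zero hκ0q hE) hμ1' h2
  filter_upwards [e1, e2, ev_fin B (fun u hu => p3n_c (nx α b1 b2 u) (ny b2 u) hκ0
      (hyq u hu) E hEi), ev_fin B e3, p32_c μ (1 - μ) hμ1' hκ0, e5,
    lneQ (-((1 - κ) * c0)) (τ - θ * E) (Or.inl (neg_ne_zero.mpr (mul_ne_zero hκ1' hc0))),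
    G1, G2, ev_fin B e8, e9, G3, G4, tbe hM hκ1q, abe hM hκ1q hE,
    ev_fin B (fun u _ => size_ev hκ1q hE hlam ((1 - κ) * nx α b1 b2 u) (-(κ * E * ny b2 u))),
    size_ev hκ1q hE hlam ((1 - κ) * τ) 0,
    size_ev hκ1q hE hlam (-(κ * E * μ)) (-(κ * E * (1 - μ))),
    size_ev hκ1q hE hlam (E * (θ - κ)) 0, size_ev hκ1q hE hlam 0 0,
    lneQ (1 - κ) (κ * E - 1) (Or.inl hκ1'), lneQ (1 - κ) κ (Or.inl hκ1')]
    with G g1 g2 g3 g4 g5 g6 g7 g8 g9 g10 g11 g12 g13 g14 g15 g16 g17 g18 g19 g20 g21 g22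
  rw [← hτ, ← hθ]
  rw [← hτ] at g1 g2 e4 g10 g11
  refine ⟨g1, g2, g3, g4, e4, g5, g6, ?_, ?_, ?_, g10, g11, g12, g13, e10, g14, g15, g16, g17,
    g18, g19, g20, g21, e12, g22⟩
  · intro h
    unfold parq at h
    apply g7
    rw [hτ, hθ] at h ⊢
    linear_combination h
  · intro u hu v hv huv h
    unfold parq at h
    exact g8 u hu v hv huv (by linear_combination h)
  · intro u hu h
    unfold parq at h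
    exact g9 u hu (by linear_combination h)

end Pool.Agent.K4L
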