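import Pool.Agent.K4L.K3UF11

/-!
# K3U, the kill `f` on `g e`: the first leaf is won
-/

namespace Pool.Agent.K4L

open Filter

namespace FQ

variable {R B R3 B3 : Finset Pt} {α b1 b2 κ p G k T : ℤ} {t2 : Pt}

/-- the cross product with `f c` -/
theorem cr_c (Q : FQ R B α b1 b2 κ p G k T t2 R3 B3) (z : Pt) :
    ((cr3 (Pf G b1 b2 (α * p) κ) (0, 0) z : ℤ) : ℚ) =
      α * b2 * ((1 - κ) * G * nx α b1 b2 z - κ * p * ny b2 z) := by
  rw [n_cr (b1 := b1) Q.K.hα Q.K.hb2, nx_c, ny_c, nx_f Q.K.hα Q.K.hb2, ny_f Q.K.hb2]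
  ring

/-- the points of `g e` -/
theorem ge_pt (Q : FQ R B α b1 b2 κ p G k T t2 R3 B3)
    (hce : IsCoprime (G * b1 - α * p) (G * b2)) {z : Pt}
    (hz : Col (Pf G b1 b2 (α * p) κ) (G * b1, G * b2) z) :
    ∃ j : ℤ, nx α b1 b2 z = j * p ∧ ny b2 z = (1 - j) * G := by
  obtain ⟨j, h1, h2⟩ := he_param (b1 := b1) (b2 := b2) (z := α * p) (G := G) (w1 := z.1)
    (w2 := z.2) hce (by
      unfold Col Pf at hz
      simp only at hz
      apply mul_left_cancel₀ Q.hκ0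
      linear_combination -hz)
  have hz' : z = Pf G b1 b2 (α * p) j := by
    refine Prod.ext ?_ ?_
    · rw [h1]; rfl
    · rw [h2]; rfl
  exact ⟨j, by rw [hz', nx_f Q.K.hα Q.K.hb2], by rw [hz', ny_f Q.K.hb2]⟩

/-- the collinearities of the red stones with the arms -/
theorem col_fca (Q : FQ R B α b1 b2 κ p G k T t2 R3 B3) :
    ¬ Col (Pf G b1 b2 (α * p) κ) (0, 0) (α, 0) := by
  intro h
  rw [n_col (b1 := b1) Q.K.hα Q.K.hb2, nx_c, ny_c, nx_a Q.K.hα Q.K.hb2, ny_r,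
    nx_f Q.K.hα Q.K.hb2, ny_f Q.K.hb2] at h
  unfold cq at h
  exact mul_ne_zero Q.kap1 Q.Gq (by linear_combination h)

theorem κq (Q : FQ R B α b1 b2 κ p G k T t2 R3 B3) : (κ : ℚ) ≠ 0 := by exact_mod_cast Q.hκ0

theorem col_fcb (Q : FQ R B α b1 b2 κ p G k T t2 R3 B3) :
    ¬ Col (Pf G b1 b2 (α * p) κ) (0, 0) (b1, b2) := by
  intro h
  rw [n_col (b1 := b1) Q.K.hα Q.K.hb2, nx_c, ny_c, nx_b, ny_b Q.K.hb2,
    nx_f Q.K.hα Q.K.hb2, ny_f Q.K.hb2] at h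
  unfold cq at h
  exact mul_ne_zero Q.κq Q.pq (by linear_combination -h)

theorem col_fce (Q : FQ R B α b1 b2 κ p G k T t2 R3 B3) :
    ¬ Col (Pf G b1 b2 (α * p) κ) (0, 0) (α * p, 0) := by
  intro h
  rw [n_col (b1 := b1) Q.K.hα Q.K.hb2, nx_c, ny_c, nx_e Q.K.hα Q.K.hb2, ny_r,
    nx_f Q.K.hα Q.K.hb2, ny_f Q.K.hb2] at h
  unfold cq at h
  exact mul_ne_zero (mul_ne_zero Q.kap1 Q.Gq) Q.pq (by linear_combination h)

theorem col_fcg (Q : FQ R B α b1 b2 κ p G k T t2 R3 B3) :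
    ¬ Col (Pf G b1 b2 (α * p) κ) (0, 0) (G * b1, G * b2) := by
  intro h
  rw [n_col (b1 := b1) Q.K.hα Q.K.hb2, nx_c, ny_c, nx_g, ny_g Q.K.hb2,
    nx_f Q.K.hα Q.K.hb2, ny_f Q.K.hb2] at h
  unfold cq at h
  exact mul_ne_zero (mul_ne_zero Q.κq Q.pq) Q.Gq (by linear_combination -h)

theorem p1q (Q : FQ R B α b1 b2 κ p G k T t2 R3 B3) : (1 : ℚ) - p ≠ 0 := by
  intro h
  apply Q.hp1
  have : (p : ℚ) = 1 := by linarith
  exact_mod_cast this

theorem G1q (Q : FQ R B α b1 b2 κ p G k T t2 R3 B3) : (1 : ℚ) - G ≠ 0 := by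
  intro h
  apply Q.hG1
  have : (G : ℚ) = 1 := by linarith
  exact_mod_cast this

theorem col_fag (Q : FQ R B α b1 b2 κ p G k T t2 R3 B3) :
    ¬ Col (Pf G b1 b2 (α * p) κ) (α, 0) (G * b1, G * b2) := by
  intro h
  rw [n_col (b1 := b1) Q.K.hα Q.K.hb2, nx_a Q.K.hα Q.K.hb2, ny_r, nx_g, ny_g Q.K.hb2,
    nx_f Q.K.hα Q.K.hb2, ny_f Q.K.hb2] at h
  unfold cq at h
  exact mul_ne_zero (mul_ne_zero Q.κq Q.Gq) Q.p1q (by linear_combination h)

theorem col_fae (Q : FQ R B α b1 b2 κ p G k T t2 R3 B3) :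
    ¬ Col (Pf G b1 b2 (α * p) κ) (α, 0) (α * p, 0) := by
  intro h
  rw [n_col (b1 := b1) Q.K.hα Q.K.hb2, nx_a Q.K.hα Q.K.hb2, ny_r, nx_e Q.K.hα Q.K.hb2, ny_r,
    nx_f Q.K.hα Q.K.hb2, ny_f Q.K.hb2] at h
  unfold cq at h
  exact mul_ne_zero (mul_ne_zero Q.kap1 Q.Gq) Q.p1q (by linear_combination -h)

theorem col_abe (Q : FQ R B α b1 b2 κ p G k T t2 R3 B3) :
    ¬ Col (α, 0) (b1, b2) (α * p, 0) := by
  intro h
  rw [n_col (b1 := b1) Q.K.hα Q.K.hb2, nx_a Q.K.hα Q.K.hb2, ny_r, nx_e Q.K.hα Q.K.hb2, ny_r,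
    nx_b, ny_b Q.K.hb2] at h
  unfold cq at h
  exact Q.p1q (by linear_combination h)

theorem col_abg (Q : FQ R B α b1 b2 κ p G k T t2 R3 B3) :
    ¬ Col (α, 0) (b1, b2) (G * b1, G * b2) := by
  intro h
  rw [n_col (b1 := b1) Q.K.hα Q.K.hb2, nx_a Q.K.hα Q.K.hb2, ny_r, nx_g, ny_g Q.K.hb2,
    nx_b, ny_b Q.K.hb2] at h
  unfold cq at h
  exact Q.G1q (by linear_combination h)

theorem col_aeg (Q : FQ R B α b1 b2 κ p G k T t2 R3 B3) :
    ¬ Col (α, 0) (α * p, 0) (G * b1, G * b2) := by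
  intro h
  rw [n_col (b1 := b1) Q.K.hα Q.K.hb2, nx_a Q.K.hα Q.K.hb2, ny_r, nx_g, ny_g Q.K.hb2,
    nx_e Q.K.hα Q.K.hb2, ny_r] at h
  unfold cq at h
  exact mul_ne_zero Q.p1q Q.Gq (by linear_combination -h)

theorem col_beg (Q : FQ R B α b1 b2 κ p G k T t2 R3 B3) :
    ¬ Col (b1, b2) (α * p, 0) (G * b1, G * b2) := by
  intro h
  rw [n_col (b1 := b1) Q.K.hα Q.K.hb2, nx_b, ny_b Q.K.hb2, nx_g, ny_g Q.K.hb2,
    nx_e Q.K.hα Q.K.hb2, ny_r] at h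
  unfold cq at h
  exact mul_ne_zero Q.pq Q.G1q (by linear_combination -h)

theorem col_fab (Q : FQ R B α b1 b2 κ p G k T t2 R3 B3)
    (h0 : (1 - κ) * (G : ℚ) + (κ * p - 1) ≠ 0) :
    ¬ Col (Pf G b1 b2 (α * p) κ) (α, 0) (b1, b2) := by
  intro h
  rw [n_col (b1 := b1) Q.K.hα Q.K.hb2, nx_a Q.K.hα Q.K.hb2, ny_r, nx_b, ny_b Q.K.hb2,
    nx_f Q.K.hα Q.K.hb2, ny_f Q.K.hb2] at h
  unfold cq at h
  exact h0 (by linear_combination -h)

/-- no blue stone on `g a` after `t3` -/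
theorem ga_B3 (Q : FQ R B α b1 b2 κ p G k T t2 R3 B3)
    (hga : ∀ z ∈ insert t2 (insert ((T, 0) : Pt) B), ¬ Col (G * b1, G * b2) (α, 0) z) :
    ∀ z ∈ B3, ¬ Col (α, 0) (G * b1, G * b2) z := by
  refine Q.forall_B3 ?_ ?_ ?_ ?_
  · intro h
    rw [n_col (b1 := b1) Q.K.hα Q.K.hb2, nx_a Q.K.hα Q.K.hb2, ny_r, nx_g, ny_g Q.K.hb2,
      nx_f Q.K.hα Q.K.hb2, ny_f Q.K.hb2] at h
    unfold cq at h
    have hkq : (k : ℚ) ≠ 0 := by exact_mod_cast Q.k0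
    exact mul_ne_zero (mul_ne_zero Q.Gq hkq) Q.p1q (by linear_combination h)
  · exact fun h => hga _ (Finset.mem_insert_self _ _) h.swap12
  · exact fun h => hga _ (Finset.mem_insert_of_mem (Finset.mem_insert_self _ _)) h.swap12
  · intro β hβ h
    exact hga _ (Finset.mem_insert_of_mem (Finset.mem_insert_of_mem hβ)) h.swap12

/-- no blue stone on `b e` after `t3` -/
theorem be_B3 (Q : FQ R B α b1 b2 κ p G k T t2 R3 B3)
    (hbe : ∀ z ∈ insert t2 (insert ((T, 0) : Pt) B), ¬ Col (b1, b2) (α * p, 0) z) :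
    ∀ z ∈ B3, ¬ Col (b1, b2) (α * p, 0) z := by
  refine Q.forall_B3 ?_ ?_ ?_ ?_
  · intro h
    rw [n_col (b1 := b1) Q.K.hα Q.K.hb2, nx_b, ny_b Q.K.hb2, nx_e Q.K.hα Q.K.hb2, ny_r,
      nx_f Q.K.hα Q.K.hb2, ny_f Q.K.hb2] at h
    unfold cq at h
    have hkq : (1 : ℚ) - k ≠ 0 := by
      intro h
      apply Q.k1
      have : (k : ℚ) = 1 := by linarith
      exact_mod_cast this
    exact mul_ne_zero (mul_ne_zero Q.pq Q.G1q) hkq (by linear_combination -h)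
  · exact hbe _ (Finset.mem_insert_self _ _)
  · exact hbe _ (Finset.mem_insert_of_mem (Finset.mem_insert_self _ _))
  · intro β hβ
    exact hbe _ (Finset.mem_insert_of_mem (Finset.mem_insert_of_mem hβ))

/-- no pair is parallel to an arm -/
theorem nopar_arm (Q : FQ R B α b1 b2 κ p G k T t2 R3 B3) {τ τ2 dx dy v1 v2 : ℚ}
    (H : NoPar B α b1 b2 τ τ2 dx dy) (hτ : nx α b1 b2 (T, 0) = τ) (hτ2 : ny b2 t2 = τ2)
    {v : Pt} (hx : nx α b1 b2 v = v1) (hy : ny b2 v = v2)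
    (hdx : dx = κ * p - v1) (hdy : dy = (1 - κ) * G - v2)
    (h3n : ∀ u ∈ B, ¬ parq dx dy (k * p) ((1 - k) * G) (nx α b1 b2 u) (ny b2 u))
    (h3t : ¬ parq dx dy (k * p) ((1 - k) * G) τ 0)
    (h32 : ¬ parq dx dy (k * p) ((1 - k) * G) 0 τ2) :
    ∀ u ∈ B3, ∀ w ∈ B3, u ≠ w → ¬ Par (Pf G b1 b2 (α * p) κ) v u w := by
  have hα := Q.K.hα
  have hb2 := Q.K.hb2
  have key : ∀ u w, Par (Pf G b1 b2 (α * p) κ) v u w →
      parq dx dy (nx α b1 b2 u) (ny b2 u) (nx α b1 b2 w) (ny b2 w) := by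
    intro u w h
    rw [n_par (b1 := b1) hα hb2, nx_f hα hb2, ny_f hb2, hx, hy] at h
    unfold parq at h ⊢
    rw [hdx, hdy]
    linear_combination -h
  refine Q.pairs (P := fun u w => ¬ Par (Pf G b1 b2 (α * p) κ) v u w) ?_ ?_ ?_ ?_ ?_ ?_ ?_ ?_
  · intro u w h h'
    exact h h'.symm_right
  · intro u hu w hw huw h
    exact H.nn u hu w hw huw (key _ _ h)
  · intro w hw h
    have := key _ _ h
    rw [hτ, ny_r] at this
    exact H.tn w hw this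
  · intro w hw h
    have := key _ _ h
    rw [nx_cb Q.hs, hτ2] at this
    exact H.t2n w hw this
  · intro h
    have := key _ _ h
    rw [nx_cb Q.hs, hτ2, hτ, ny_r] at this
    exact H.t2t this
  · intro w hw h
    have := key _ _ h
    rw [nx_f hα hb2, ny_f hb2] at this
    exact h3n w hw this
  · intro h
    have := key _ _ h
    rw [nx_f hα hb2, ny_f hb2, hτ, ny_r] at this
    exact h3t this
  · intro h
    have := key _ _ h
    rw [nx_f hα hb2, ny_f hb2, nx_cb Q.hs, hτ2] at this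
    exact h32 this

/-- parallels to the line `x y` of two blue stones -/
theorem hparm_aux {x y : Pt} (hxy : x ≠ y) {P : Pt → Pt → Prop}
    (hP : P = fun u v => Par x y u v → Col x y u ∧ Col x y v) :
    (∀ u v, P u v → P v u) ∧ (∀ v, P x v) ∧ (∀ v, P y v) ∧ (∀ v, P v x) ∧ (∀ v, P v y) := by
  subst hP
  have h1 : ∀ u v, (Par x y u v → Col x y u ∧ Col x y v) →
      (Par x y v u → Col x y v ∧ Col x y u) := fun u v h h' => (h h'.symm_right).symm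
  have h2 : ∀ v, Par x y x v → Col x y x ∧ Col x y v := fun v h => ⟨Col.refl_left _ _, h⟩
  have h3 : ∀ v, Par x y y v → Col x y y ∧ Col x y v := by
    intro v h
    refine ⟨Col.refl_right _ _, ?_⟩
    unfold Par at h
    unfold Col
    linear_combination h
  exact ⟨h1, h2, h3, fun v => h1 _ _ (h2 v), fun v => h1 _ _ (h3 v)⟩

theorem t3_ne_t (Q : FQ R B α b1 b2 κ p G k T t2 R3 B3) :
    Pf G b1 b2 (α * p) k ≠ (T, 0) := by
  intro h
  have := ny_f (b1 := b1) Q.K.hb2 G (α * p) k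
  rw [h, ny_r] at this
  rcases mul_eq_zero.mp this.symm with h | h
  · apply Q.k1
    have : (k : ℚ) = 1 := by linarith
    exact_mod_cast this
  · exact Q.Gq h

theorem t3_ne_t2 (Q : FQ R B α b1 b2 κ p G k T t2 R3 B3) :
    Pf G b1 b2 (α * p) k ≠ t2 := by
  intro h
  have := nx_f (b1 := b1) Q.K.hα Q.K.hb2 G p k
  rw [h, nx_cb Q.hs] at this
  exact mul_ne_zero (by exact_mod_cast Q.k0) Q.pq this.symm

end FQ

end Pool.Agent.K4L
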