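import Pool.Agent.K4L.K3UF12

/-!
# K3U, the kill `f` on `g e`: the first leaf is won
-/

namespace Pool.Agent.K4L

open Filter

/-- two lines through `o` meet only in `o` -/
theorem two_lines {o v w z : Pt} (hnc : ¬ Col o v w) (h1 : Col o v z)
    (h2 : Col o w z) : z = o := by
  by_contra hne
  apply hnc
  have h3 : Col o z v := h1.swap23
  have h4 : Col o z w := h2.swap23
  exact Col.three (Ne.symm hne) (Col.refl_left _ _) h3 h4

/-- a parallel of a line, through a point of this line -/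
theorem Par.through {u v x y Y : Pt} (hxy : x ≠ y) (h : Par u v x y) (hc : Col x y Y) :
    Par u v Y y := by
  unfold Par at h ⊢
  unfold Col at hc
  rcases sub_ne_of_ne hxy with hd | hd
  · apply mul_left_cancel₀ hd
    linear_combination (y.1 - Y.1) * h - (v.1 - u.1) * hc
  · apply mul_left_cancel₀ hd
    linear_combination (y.2 - Y.2) * h - (v.2 - u.2) * hc

namespace FQ

variable {R B R3 B3 : Finset Pt} {α b1 b2 κ p G k T : ℤ} {t2 : Pt}

/-- the first leaf is won -/
theorem win_sig (Q : FQ R B α b1 b2 κ p G k T t2 R3 B3) {μ c0 σ ρ : ℚ}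
    (S : Sig B α b1 b2 κ p G k T t2 R3 B3 μ c0 σ ρ)
    {τ τ2 θ : ℚ} (hθ : θ = κ + μ * (1 - κ)) (hτe : τ = μ * p + c0)
    (hτ2e : τ2 = μ * G + (1 - μ))
    (L : LS B α b1 b2 κ (((α * b2 : ℤ) : ℚ) * κ * (1 - κ)) p G μ c0 τ τ2 θ)
    (hAc : ALine R3 B3 (Pf G b1 b2 (α * p) κ) (0, 0))
    (hAa : ALine R3 B3 (Pf G b1 b2 (α * p) κ) (α, 0))
    (hAb : ALine R3 B3 (Pf G b1 b2 (α * p) κ) (b1, b2))
    (hτ : nx α b1 b2 (T, 0) = τ) (hτ2 : ny b2 t2 = τ2)
    (hga : ∀ z ∈ insert t2 (insert ((T, 0) : Pt) B), ¬ Col (G * b1, G * b2) (α, 0) z)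
    (hbe : ∀ z ∈ insert t2 (insert ((T, 0) : Pt) B), ¬ Col (b1, b2) (α * p, 0) z)
    (hce : IsCoprime (G * b1 - α * p) (G * b2)) : Win R3 B3 := by
  classical
  have hα := Q.K.hα
  have hb2 := Q.K.hb2
  have hkθ : (k : ℚ) = θ := by rw [hθ]; exact S.hk
  have hc2 : nx α b1 b2 t2 = 0 := nx_cb Q.hs
  have hαq : (α : ℚ) ≠ 0 := by exact_mod_cast hα
  have hb2q : (b2 : ℚ) ≠ 0 := by exact_mod_cast hb2
  have hNq : (α : ℚ) * b2 ≠ 0 := mul_ne_zero hαq hb2q
  have hκ := Q.κq
  have hκ1 := Q.kap1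
  have hG := Q.Gq
  have hp := Q.pq
  obtain ⟨Y, hY1, hY2, hYR⟩ := S.Y
  obtain ⟨M, hMe⟩ : ∃ M : ℚ, M = ((α * b2 : ℤ) : ℚ) * κ * (1 - κ) := ⟨_, rfl⟩
  have hM0 : M ≠ 0 := by rw [hMe]; exact Q.M0
  rw [← hMe] at L
  have ht3t : Pf G b1 b2 (α * p) k ≠ (T, 0) := Q.t3_ne_t
  -- the hit of a point of the arm `c` on `m`
  have hcm : ∀ z, Col (Pf G b1 b2 (α * p) κ) (0, 0) z → Col (Pf G b1 b2 (α * p) k) (T, 0) z →
      z ∉ R3 → ∃ m : ℤ, m ≠ 0 ∧ (m : ℚ) / M ≠ 1 ∧ (m : ℚ) / M * c0 = (1 - μ) * τ ∧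
        nx α b1 b2 z = m / M * (κ * p) ∧ ny b2 z = m / M * ((1 - κ) * G) := by
    intro z hz hzm hzR
    obtain ⟨n, h1, h2⟩ := Q.idx_c hz
    rw [← hMe] at h1 h2
    have h1' : nx α b1 b2 z = 0 + n / M * (κ * p - 0) := by rw [h1]; ring
    have h2' : ny b2 z = 0 + n / M * ((1 - κ) * G - 0) := by rw [h2]; ring
    obtain ⟨hn, hn1⟩ := Q.idx_ne Q.cR nx_c ny_c hzR h1' h2'
    refine ⟨n, hn, hn1, ?_, h1, h2⟩
    rw [n_col (b1 := b1) hα hb2, nx_f hα hb2, ny_f hb2, h1, h2, hτ, ny_r, hkθ] at hzm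
    unfold cq at hzm
    -- (τ - θ p) ((n/M)(1-κ)G - (1-θ)G) = (0 - (1-θ)G)((n/M) κ p - θ p)
    have h3 : (G * (1 - κ)) * ((n : ℚ) / M * c0 - (1 - μ) * τ) = 0 := by
      rw [hθ, hτe] at hzm
      rw [hτe]
      linear_combination hzm
    have h4 := (mul_eq_zero.mp h3).resolve_left (mul_ne_zero hG hκ1)
    linarith
  have ham : ∀ z, Col (Pf G b1 b2 (α * p) κ) (α, 0) z → ∃ n : ℤ,
      nx α b1 b2 z = 1 + n / M * (κ * p - 1) ∧ ny b2 z = n / M * ((1 - κ) * G) := by
    intro z hz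
    obtain ⟨n, h1, h2⟩ := Q.idx_a hz
    rw [← hMe] at h1 h2
    exact ⟨n, h1, h2⟩
  have hdirc : ∀ u v, Par (Pf G b1 b2 (α * p) κ) (0, 0) u v →
      parq (κ * p) ((1 - κ) * G) (nx α b1 b2 u) (ny b2 u) (nx α b1 b2 v) (ny b2 v) := by
    intro u v h
    rw [n_par (b1 := b1) hα hb2, nx_f hα hb2, ny_f hb2, nx_c, ny_c] at h
    unfold parq at h ⊢
    linear_combination -h
  refine lemCX0 (o := Pf G b1 b2 (α * p) κ) (a := (0, 0)) (b := (α, 0))
    (v0 := Pf G b1 b2 (α * p) κ) (r := (b1, b2)) (p := Pf G b1 b2 (α * p) k) (q := (T, 0))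
    (Y := Y) (z3 := (α * p, 0)) (x0 := (α, 0)) (x1 := (b1, b2)) (x2 := (α * p, 0))
    (x3 := (G * b1, G * b2)) (xg := (b1, b2)) (xg' := (α * p, 0))
    Q.hN Q.hB hAc hAa hAb ?_ ht3t hY1 hY2 hYR S.red ?_ ?_ Q.col_fca ?_ ?_ ?_ ?_
    Q.aR Q.bR Q.eR Q.gR Q.col_abe Q.col_abg Q.col_aeg Q.col_beg Q.eR Q.col_fce ?_ ?_ ?_ ?_
    (by simp) (by simp) (Q.col_fab L.fab) Q.col_fae ?_ ?_ ?_
  · -- hMNR
    intro z h1 h2
    rw [two_lines (Q.col_fab L.fab) h1 h2]
    exact Q.fR
  · -- hLU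
    intro z hz hzR u hu v hv huv hc
    right
    have := S.hit_c z hz hzR u hu v hv huv hc
    rcases this with ⟨h1, h2⟩ | ⟨h1, h2⟩
    · rw [h1, h2]; exact ⟨Col.refl_left _ _, Col.refl_right _ _⟩
    · rw [h1, h2]; exact ⟨Col.refl_right _ _, Col.refl_left _ _⟩
  · -- hMU
    intro z hz hzR u hu v hv huv hc
    right
    have := S.hit_a z hz hzR u hu v hv huv hc
    rcases this with ⟨h1, h2⟩ | ⟨h1, h2⟩
    · rw [h1, h2]; exact ⟨Col.refl_left _ _, Col.refl_right _ _⟩
    · rw [h1, h2]; exact ⟨Col.refl_right _ _, Col.refl_left _ _⟩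
  · -- hLN
    exact Q.col_fcb
  · -- hMN
    exact Q.col_fab L.fab
  · -- hLm
    intro h
    have h := hdirc _ _ h
    rw [nx_f hα hb2, ny_f hb2, hτ, ny_r] at h
    unfold parq at h
    have h1 : G * ((k : ℚ) * p - κ * p - (1 - κ) * τ) = 0 := by linear_combination h
    rcases mul_eq_zero.mp h1 with h2 | h2
    · exact hG h2
    · exact L.c3t k h2
  · -- hNm
    intro h
    rw [n_par (b1 := b1) hα hb2, nx_f hα hb2, ny_f hb2, nx_b, ny_b hb2, nx_f hα hb2,
      ny_f hb2, hτ, ny_r, hkθ] at h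
    unfold parq at h
    apply L.b3t
    unfold parq
    linear_combination -h
  · -- z3 ≠ b
    intro h
    have h1 : α * p = α := congrArg Prod.fst h
    apply Q.hp1
    apply mul_left_cancel₀ hα
    linarith
  · -- hNP
    intro u hu v hv huv h
    exfalso
    refine Q.nopar_arm (v := (0, 0)) L.pc hτ hτ2 nx_c ny_c rfl rfl ?_ ?_ ?_ u hu v hv huv h
    · intro u hu h
      apply L.c3n u hu k
      unfold parq at h ⊢
      linear_combination h
    · intro h
      unfold parq at h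
      have h1 : G * ((k : ℚ) * p - κ * p - (1 - κ) * τ) = 0 := by linear_combination h
      rcases mul_eq_zero.mp h1 with h2 | h2
      · exact hG h2
      · exact L.c3t k h2
    · intro h
      unfold parq at h
      apply L.c32 k
      apply mul_left_cancel₀ hp
      rw [hτ2e] at h
      linear_combination h
  · -- hZ
    intro z hz hzm hzR u hu t' ht' ht'R hc
    obtain ⟨m, hm0, hm1, hmeq, hzx, hzy⟩ := hcm z hz hzm hzR
    obtain ⟨n, htx, hty⟩ := ham t' ht'
    have key : ∀ u, Col z u t' → cq (m / M * (κ * p)) (m / M * ((1 - κ) * G))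
        (nx α b1 b2 u) (ny b2 u) (1 + n / M * (κ * p - 1)) (n / M * ((1 - κ) * G)) := by
      intro u hu
      rw [n_col (b1 := b1) hα hb2, hzx, hzy, htx, hty] at hu
      exact hu
    revert hc
    refine Q.forall_B3 (P := fun u => Col z u t' → ∃ w ∈ insert Y R3, Col z u w) ?_ ?_ ?_ ?_ u hu
    · intro _
      exact ⟨Y, Finset.mem_insert_self _ _, Col.three ht3t hzm (Col.refl_left _ _) hY2⟩
    · intro hc
      exfalso
      have := key _ hc
      rw [hc2, hτ2] at this
      exact L.zt2 m n hm0 hm1 hmeq this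
    · intro _
      exact ⟨Y, Finset.mem_insert_self _ _, Col.three ht3t hzm (Col.refl_right _ _) hY2⟩
    · intro u hu hc
      exfalso
      exact L.zn u hu m n hm1 hmeq (key _ hc)
  · -- hP
    intro z hz hzm hzR u hu t' ht' ht'R htY hc
    obtain ⟨m, hm0, hm1, hmeq, hzx, hzy⟩ := hcm z hz hzm hzR
    obtain ⟨n, htx, hty⟩ := ham t' ht'
    have hn0 : n ≠ 0 := by
      have h2' : ny b2 t' = 0 + n / M * ((1 - κ) * G - 0) := by rw [hty]; ring
      exact (Q.idx_ne Q.aR (nx_a hα hb2) (ny_r _) ht'R htx h2').1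
    have key : ∀ u, Par (Pf G b1 b2 (α * p) κ) (0, 0) u t' → parq (κ * p) ((1 - κ) * G)
        (nx α b1 b2 u) (ny b2 u) (1 + n / M * (κ * p - 1)) (n / M * ((1 - κ) * G)) := by
      intro u hu
      have := hdirc _ _ hu
      rw [htx, hty] at this
      exact this
    revert hc
    refine Q.forall_B3 (P := fun u => Par (Pf G b1 b2 (α * p) κ) (0, 0) u t' →
      (∃ w ∈ insert Y R3, Col u t' w) ∨
      (∃ x ∈ R3, ¬ Col (Pf G b1 b2 (α * p) κ) (0, 0) x ∧ ¬ Col (Pf G b1 b2 (α * p) κ) (α, 0) x ∧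
        (∀ y ∈ insert z B3, ¬ Col (α, 0) x y) ∧ ¬ Par (Pf G b1 b2 (α * p) κ) (0, 0) (α, 0) x ∧
        (∀ y, Col (Pf G b1 b2 (α * p) κ) x y → ¬ Col u t' y)) ∨
      (∃ x ∈ R3, ∃ x' ∈ R3, x ≠ x' ∧ ¬ Col (Pf G b1 b2 (α * p) κ) (0, 0) x ∧
        ¬ Col (Pf G b1 b2 (α * p) κ) (0, 0) x' ∧
        (∀ y ∈ insert t' (insert z B3), ¬ Col x x' y) ∧
        ¬ Par (Pf G b1 b2 (α * p) κ) (0, 0) x x' ∧
        ∀ y ∈ insert z B3, cr3 (Pf G b1 b2 (α * p) κ) (0, 0) y ≠
            cr3 (Pf G b1 b2 (α * p) κ) (0, 0) t' →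
          cr3 (Pf G b1 b2 (α * p) κ) (0, 0) x' * (cr3 (Pf G b1 b2 (α * p) κ) (0, 0) x -
            cr3 (Pf G b1 b2 (α * p) κ) (0, 0) t') ≠
            cr3 (Pf G b1 b2 (α * p) κ) (0, 0) x * (cr3 (Pf G b1 b2 (α * p) κ) (0, 0) y -
            cr3 (Pf G b1 b2 (α * p) κ) (0, 0) t'))) ?_ ?_ ?_ ?_ u hu
    · -- `t3`
      intro hc
      right; right
      have hlt : ((cr3 (Pf G b1 b2 (α * p) κ) (0, 0) t' : ℤ) : ℚ) =
          α * b2 * ((1 - κ) * μ * p * G) := by
        have h1 := key _ hc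
        rw [nx_f hα hb2, ny_f hb2, hkθ] at h1
        unfold parq at h1
        rw [Q.cr_c, htx, hty]
        rw [hθ] at h1
        linear_combination -(α : ℚ) * b2 * h1
      refine ⟨(b1, b2), Q.bR, (α * p, 0), Q.eR, ?_, Q.col_fcb, Q.col_fce, ?_, ?_, ?_⟩
      · intro h
        exact hb2 (congrArg Prod.snd h)
      · intro y hy
        rcases Finset.mem_insert.mp hy with rfl | hy
        · -- `t'` is not on `b e`
          intro h
          rw [n_col (b1 := b1) hα hb2, nx_b, ny_b hb2, nx_e hα hb2, ny_r, htx, hty] at h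
          unfold cq at h
          exact L.abe n hn0 (by linear_combination h)
        · rcases Finset.mem_insert.mp hy with rfl | hy
          · intro h
            rw [n_col (b1 := b1) hα hb2, nx_b, ny_b hb2, nx_e hα hb2, ny_r, hzx, hzy] at h
            unfold cq at h
            apply L.tbe m hm0
            apply mul_left_cancel₀ hp
            linear_combination h
          · exact Q.be_B3 hbe y hy
      · intro h
        have h := hdirc _ _ h
        rw [nx_b, ny_b hb2, nx_e hα hb2, ny_r] at h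
        unfold parq at h
        apply L.be0
        apply mul_left_cancel₀ hp
        linear_combination -h
      · intro y hy _
        have hlb : ((cr3 (Pf G b1 b2 (α * p) κ) (0, 0) (b1, b2) : ℤ) : ℚ) =
            α * b2 * (-(κ * p)) := by
          rw [Q.cr_c, nx_b, ny_b hb2]; ring
        have hle : ((cr3 (Pf G b1 b2 (α * p) κ) (0, 0) (α * p, 0) : ℤ) : ℚ) =
            α * b2 * ((1 - κ) * G * p) := by
          rw [Q.cr_c, nx_e hα hb2, ny_r]; ring
        have fin : ∀ ly : ℚ, ((cr3 (Pf G b1 b2 (α * p) κ) (0, 0) y : ℤ) : ℚ) = α * b2 * ly →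
            (1 - κ) * G * p * (-(κ * p) - (1 - κ) * μ * p * G) ≠
              -(κ * p) * (ly - (1 - κ) * μ * p * G) →
            cr3 (Pf G b1 b2 (α * p) κ) (0, 0) (α * p, 0) * (cr3 (Pf G b1 b2 (α * p) κ) (0, 0)
              (b1, b2) - cr3 (Pf G b1 b2 (α * p) κ) (0, 0) t') ≠
            cr3 (Pf G b1 b2 (α * p) κ) (0, 0) (b1, b2) * (cr3 (Pf G b1 b2 (α * p) κ) (0, 0) y -
            cr3 (Pf G b1 b2 (α * p) κ) (0, 0) t') := by
          intro ly hly hne h
          apply hne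
          have h2 : ((cr3 (Pf G b1 b2 (α * p) κ) (0, 0) (α * p, 0) : ℤ) : ℚ) *
              ((cr3 (Pf G b1 b2 (α * p) κ) (0, 0) (b1, b2) : ℤ) -
                (cr3 (Pf G b1 b2 (α * p) κ) (0, 0) t' : ℤ)) =
              ((cr3 (Pf G b1 b2 (α * p) κ) (0, 0) (b1, b2) : ℤ) : ℚ) *
              ((cr3 (Pf G b1 b2 (α * p) κ) (0, 0) y : ℤ) -
                (cr3 (Pf G b1 b2 (α * p) κ) (0, 0) t' : ℤ)) := by exact_mod_cast h
          rw [hlb, hle, hlt, hly] at h2
          apply mul_left_cancel₀ (mul_ne_zero hNq hNq)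
          linear_combination h2
        rcases Finset.mem_insert.mp hy with rfl | hy
        · refine fin 0 ?_ ?_
          · rw [Q.cr_c, hzx, hzy]; ring
          · intro h
            exact L.s0 (by linear_combination h)
        · revert fin
          refine Q.forall_B3 (P := fun y => (∀ ly : ℚ,
            ((cr3 (Pf G b1 b2 (α * p) κ) (0, 0) y : ℤ) : ℚ) = α * b2 * ly →
            (1 - κ) * G * p * (-(κ * p) - (1 - κ) * μ * p * G) ≠
              -(κ * p) * (ly - (1 - κ) * μ * p * G) →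
            cr3 (Pf G b1 b2 (α * p) κ) (0, 0) (α * p, 0) * (cr3 (Pf G b1 b2 (α * p) κ) (0, 0)
              (b1, b2) - cr3 (Pf G b1 b2 (α * p) κ) (0, 0) t') ≠
            cr3 (Pf G b1 b2 (α * p) κ) (0, 0) (b1, b2) * (cr3 (Pf G b1 b2 (α * p) κ) (0, 0) y -
            cr3 (Pf G b1 b2 (α * p) κ) (0, 0) t')) →
            cr3 (Pf G b1 b2 (α * p) κ) (0, 0) (α * p, 0) * (cr3 (Pf G b1 b2 (α * p) κ) (0, 0)
              (b1, b2) - cr3 (Pf G b1 b2 (α * p) κ) (0, 0) t') ≠
            cr3 (Pf G b1 b2 (α * p) κ) (0, 0) (b1, b2) * (cr3 (Pf G b1 b2 (α * p) κ) (0, 0) y -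
            cr3 (Pf G b1 b2 (α * p) κ) (0, 0) t')) ?_ ?_ ?_ ?_ y hy
          · intro fin
            refine fin (p * (θ - κ) * G) ?_ ?_
            · rw [Q.cr_c, nx_f hα hb2, ny_f hb2, hkθ]; ring
            · intro h
              exact L.s3 (by linear_combination h)
          · intro fin
            refine fin (-(κ * p * τ2)) ?_ ?_
            · rw [Q.cr_c, hc2, hτ2]; ring
            · intro h
              rw [hτ2e] at h
              exact L.s2 (by linear_combination h)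
          · intro fin
            refine fin ((1 - κ) * G * τ) ?_ ?_
            · rw [Q.cr_c, hτ, ny_r]; ring
            · intro h
              exact L.st (by linear_combination h)
          · intro u hu fin
            refine fin ((1 - κ) * G * nx α b1 b2 u - κ * p * ny b2 u) ?_ ?_
            · rw [Q.cr_c]
            · intro h
              exact L.sn u hu (by linear_combination h)
    · -- `t2`
      intro hc
      exfalso
      have := key _ hc
      rw [hc2, hτ2] at this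
      exact L.pz2 n this
    · -- `t`
      intro hc
      right; left
      refine ⟨(G * b1, G * b2), Q.gR, Q.col_fcg, Q.col_fag, ?_, ?_, ?_⟩
      · intro y hy
        rcases Finset.mem_insert.mp hy with rfl | hy
        · intro h
          rw [n_col (b1 := b1) hα hb2, nx_a hα hb2, ny_r, nx_g, ny_g hb2, hzx, hzy] at h
          unfold cq at h
          apply L.tga m hm0
          apply mul_left_cancel₀ hG
          linear_combination -h
        · exact Q.ga_B3 hga y hy
      · intro h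
        have h := hdirc _ _ h
        rw [nx_a hα hb2, ny_r, nx_g, ny_g hb2] at h
        unfold parq at h
        apply L.ga0
        apply mul_left_cancel₀ hG
        linear_combination h
      · intro y hy hcol
        obtain ⟨j, hj1, hj2⟩ := Q.ge_pt hce hy
        have h1 := key _ hc
        rw [hτ, ny_r] at h1
        rw [n_col (b1 := b1) hα hb2, hτ, ny_r, htx, hty, hj1, hj2] at hcol
        unfold cq at hcol
        unfold parq at h1
        -- `n (κ p (1-κ) G)`-direction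
        have hny : (n : ℚ) / M * ((1 - κ) * G) ≠ 0 := by
          refine mul_ne_zero (div_ne_zero (by exact_mod_cast hn0) hM0) (mul_ne_zero hκ1 hG)
        have h3 : (n : ℚ) / M * ((1 - κ) * G) *
            (G * ((j : ℚ) * p - κ * p - (1 - κ) * τ)) = 0 := by
          linear_combination (-((1 - κ) * G)) * hcol - ((1 - (j : ℚ)) * G) * h1
        rcases mul_eq_zero.mp h3 with h4 | h4
        · exact hny h4
        · rcases mul_eq_zero.mp h4 with h5 | h5
          · exact hG h5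
          · exact L.c3t j h5
    · -- near
      intro u hu hc
      exfalso
      exact L.pzn u hu n (key _ hc)
  · -- hgg
    intro h
    exact hb2 (congrArg Prod.snd h).symm
  · -- hparM
    intro u hu v hv huv h
    exfalso
    refine Q.nopar_arm (v := (α, 0)) L.pa hτ hτ2 (nx_a hα hb2) (ny_r _) rfl rfl ?_ ?_ ?_
      u hu v hv huv h
    · intro u hu h
      apply L.a3n u hu k
      unfold parq at h ⊢
      linear_combination h
    · intro h
      have hpar : Par (Pf G b1 b2 (α * p) κ) (α, 0) (Pf G b1 b2 (α * p) k) (T, 0) := by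
        rw [n_par (b1 := b1) hα hb2, nx_f hα hb2, ny_f hb2, nx_a hα hb2, ny_r, hτ,
          nx_f hα hb2, ny_f hb2, ny_r]
        unfold parq at h ⊢
        linear_combination -h
      -- `t3 t` meets `f a` in `Y`, hence `t` is on `f a`
      have h1 : Par (Pf G b1 b2 (α * p) κ) (α, 0) Y (T, 0) := hpar.through ht3t hY2
      exact hAa.2.2.2 _ Q.memt (h1.col hY1)
    · intro h
      apply L.a32 k
      unfold parq at h ⊢
      linear_combination h
  · -- hparm
    obtain ⟨h1, h2, h3, h4, h5⟩ := hparm_aux ht3t (P := fun u v =>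
      Par (Pf G b1 b2 (α * p) k) (T, 0) u v → Col (Pf G b1 b2 (α * p) k) (T, 0) u ∧
        Col (Pf G b1 b2 (α * p) k) (T, 0) v) rfl
    intro u hu v hv huv h
    right
    have hdm : ∀ u v, Par (Pf G b1 b2 (α * p) k) (T, 0) u v →
        parq (τ - θ * p) (-((1 - θ) * G)) (nx α b1 b2 u) (ny b2 u) (nx α b1 b2 v) (ny b2 v) := by
      intro u v h
      rw [n_par (b1 := b1) hα hb2, nx_f hα hb2, ny_f hb2, hτ, ny_r, hkθ] at h
      unfold parq at h ⊢
      linear_combination h
    refine (Q.pairs (P := fun u v =>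
      Par (Pf G b1 b2 (α * p) k) (T, 0) u v → Col (Pf G b1 b2 (α * p) k) (T, 0) u ∧
        Col (Pf G b1 b2 (α * p) k) (T, 0) v) h1 ?_ ?_ ?_ ?_ ?_ ?_ ?_ u hu v hv huv h).1
    · intro u hu v hv huv h
      exact absurd (hdm _ _ h) (L.mnn u hu v hv huv)
    · intro v hv
      exact h3 v
    · intro v hv h
      have := hdm _ _ h
      rw [hc2, hτ2] at this
      exact absurd this (L.m2n v hv)
    · exact h5 t2
    · intro v _
      exact h2 v
    · exact h2 _
    · exact h2 _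

end FQ

end Pool.Agent.K4L
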