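import Pool.Agent.K4L.K3UF13

/-!
# K3U, the kill `f` on `g e`: facts for the second leaf (`t3 t2` hits `f b` and `f c`)
-/

namespace Pool.Agent.K4L

open Filter

/-- the facts for the second leaf: `τ = μ E + 1 - μ`, `t2 = (0, μ G + ρ)`, `k = κ (1 - μ)` -/
structure LO (B : Finset Pt) (α b1 b2 κ : ℤ) (M : ℚ) (E G : ℤ) (μ ρ τ τ2 θ : ℚ) : Prop where
  pc : NoPar B α b1 b2 τ τ2 (κ * E - 0) ((1 - κ) * G - 0)
  pb : NoPar B α b1 b2 τ τ2 (κ * E - 0) ((1 - κ) * G - 1)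
  c3n : ∀ u ∈ B, ∀ k : ℤ,
    ¬ parq (κ * E) ((1 - κ) * G) (k * E) ((1 - k) * G) (nx α b1 b2 u) (ny b2 u)
  c3t : ∀ k : ℤ, (k : ℚ) * E - κ * E - (1 - κ) * τ ≠ 0
  c32 : ∀ k : ℤ, ((k : ℚ) - κ * (1 - μ)) * G + κ * ρ ≠ 0
  b3n : ∀ u ∈ B,
    ¬ parq (κ * E) ((1 - κ) * G - 1) (θ * E) ((1 - θ) * G) (nx α b1 b2 u) (ny b2 u)
  b3t : ¬ parq (κ * E) ((1 - κ) * G - 1) (θ * E) ((1 - θ) * G) τ 0
  a32 : ∀ k : ℤ, ¬ parq (κ * E - 1) ((1 - κ) * G) (k * E) ((1 - k) * G) 0 τ2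
  mnn : ∀ u ∈ B, ∀ v ∈ B, u ≠ v → ¬ parq (-(θ * E)) (τ2 - (1 - θ) * G)
    (nx α b1 b2 u) (ny b2 u) (nx α b1 b2 v) (ny b2 v)
  mtn : ∀ u ∈ B, ¬ parq (-(θ * E)) (τ2 - (1 - θ) * G) τ 0 (nx α b1 b2 u) (ny b2 u)
  zn : ∀ u ∈ B, ∀ m n : ℤ, ρ * (m / M) = (1 - μ) * (μ * G + ρ) →
      ¬ cq (m / M * (κ * E)) (m / M * ((1 - κ) * G)) (nx α b1 b2 u) (ny b2 u)
        (n / M * (κ * E)) (1 + n / M * ((1 - κ) * G - 1))
  zt : ∀ m n : ℤ, ρ * (m / M) = (1 - μ) * (μ * G + ρ) →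
      ¬ cq (m / M * (κ * E)) (m / M * ((1 - κ) * G)) τ 0 (n / M * (κ * E))
        (1 + n / M * ((1 - κ) * G - 1))
  tbe : ∀ m : ℤ, m ≠ 0 → (m : ℚ) / M * ((1 - κ) * G + κ) ≠ 1
  sn : ∀ u ∈ B, (1 - κ) * G * E * (-(κ * E) - -(κ * μ * E) * G) ≠
      -(κ * E) * ((1 - κ) * nx α b1 b2 u * G + -(κ * E * ny b2 u) - -(κ * μ * E) * G)
  st : (1 - κ) * G * E * (-(κ * E) - -(κ * μ * E) * G) ≠
      -(κ * E) * ((1 - κ) * τ * G + 0 - -(κ * μ * E) * G)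
  s2 : (1 - κ) * G * E * (-(κ * E) - -(κ * μ * E) * G) ≠
      -(κ * E) * (-(κ * E * μ) * G + -(κ * E * ρ) - -(κ * μ * E) * G)
  s3 : (1 - κ) * G * E * (-(κ * E) - -(κ * μ * E) * G) ≠
      -(κ * E) * (E * (θ - κ) * G + 0 - -(κ * μ * E) * G)
  s0 : (1 - κ) * G * E * (-(κ * E) - -(κ * μ * E) * G) ≠
      -(κ * E) * (0 * G + 0 - -(κ * μ * E) * G)
  fab : (1 - κ) * (G : ℚ) + (κ * E - 1) ≠ 0
  be0 : (1 - κ) * (G : ℚ) + κ ≠ 0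

theorem ev_LO (B : Finset Pt) (α b1 b2 : ℤ) (hα : α ≠ 0) (hb2 : b2 ≠ 0) {κ : ℤ} {M : ℚ}
    (hM : M ≠ 0) (hκ0 : κ ≠ 0) (hκ1 : κ ≠ 1) (hx : ∀ β ∈ B, b2 * β.1 - b1 * β.2 ≠ 0)
    (hy : ∀ β ∈ B, β.2 ≠ 0) (μ ρ : ℚ)
    (hμ : μ ≠ 0) (hμ1 : μ ≠ 1) (hρ : ρ ≠ 0) (hk9 : ((1 : ℚ) - κ) * ρ - (1 - μ) ≠ 0) :
    ∀ᶠ E : ℤ in cofinite, ∀ᶠ G : ℤ in cofinite,
      LO B α b1 b2 κ M E G μ ρ (μ * E + (1 - μ)) (μ * G + ρ) (κ * (1 - μ)) := by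
  have hκ0q : (κ : ℚ) ≠ 0 := by exact_mod_cast hκ0
  have hκ1q : (κ : ℚ) ≠ 1 := by exact_mod_cast hκ1
  have hκ1' : (1 : ℚ) - κ ≠ 0 := sub_ne_zero.mpr hκ1q.symm
  have hμ1' : 1 - μ ≠ 0 := sub_ne_zero.mpr hμ1.symm
  have hyq : ∀ β ∈ B, ny b2 β ≠ 0 := by
    intro β hβ
    unfold ny
    exact div_ne_zero (by exact_mod_cast hy β hβ) (by exact_mod_cast hb2)
  have hxq : ∀ β ∈ B, nx α b1 b2 β ≠ 0 := by
    intro β hβ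
    unfold nx
    refine div_ne_zero ?_ (mul_ne_zero (by exact_mod_cast hb2) (by exact_mod_cast hα))
    exact_mod_cast hx β hβ
  have hk2 : μ * (1 - κ) + μ * κ ≠ 0 := by
    have : μ * (1 - (κ : ℚ)) + μ * κ = μ := by ring
    rw [this]; exact hμ
  have hθκ : (κ : ℚ) * (1 - μ) ≠ κ := by
    intro h
    have : (κ : ℚ) * μ = 0 := by linear_combination -h
    exact mul_ne_zero hκ0q hμ this
  have hd : (κ - 1) * (1 - μ) ≠ 0 := by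
    refine mul_ne_zero ?_ hμ1'
    intro h; apply hκ1'; linear_combination -h
  filter_upwards [ev_nopar B α b1 b2 hα hb2 hκ0 hκ1 0 0 μ (1 - μ) μ ρ hμ hμ hk2,
    ev_nopar B α b1 b2 hα hb2 hκ0 hκ1 0 1 μ (1 - μ) μ ρ hμ hμ hk2,
    ev_fin B (fun u _ => p3n_b (κ := κ) (nx α b1 b2 u) (ny b2 u) (κ * (1 - μ)) hθκ),
    p3t_c μ (1 - μ) hμ1' hκ1, p32_a μ ρ hρ hκ0,
    lneQ (-μ) (-((1 - κ) * (1 - μ))) (Or.inl (neg_ne_zero.mpr hμ)),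
    ev_fin B (fun u _ => lneQ μ (1 - μ - nx α b1 b2 u) (Or.inl hμ)),
    ev_fin B (fun u hu => zo_n hM hκ0q hκ1q (nx α b1 b2 u) (ny b2 u) μ ρ (hxq u hu) (hyq u hu)
      hμ hμ1 hρ hk9),
    zo_t hM hκ0q hκ1q μ ρ hμ hμ1 hρ, evQ 0,
    lneQ κ (1 - κ) (Or.inl hκ0q)]
    with E e1 e2 e3 e4 e5 e6 e7 e8 e9 e11 e12
  have hE : (E : ℚ) ≠ 0 := abs_pos.mp e11
  have hEi : E ≠ 0 := by rintro rfl; exact hE (by norm_num)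
  obtain ⟨τ, hτ⟩ : ∃ τ : ℚ, τ = μ * E + (1 - μ) := ⟨_, rfl⟩
  obtain ⟨θ, hθ⟩ : ∃ θ : ℚ, θ = (κ : ℚ) * (1 - μ) := ⟨_, rfl⟩
  have hlam : -(κ * μ * E) ≠ 0 := neg_ne_zero.mpr (mul_ne_zero (mul_ne_zero hκ0q hμ) hE)
  have G1 : ∀ᶠ G : ℤ in cofinite, ∀ u ∈ B, ∀ v ∈ B, u ≠ v →
      ¬ parq (-(θ * E)) ((μ * G + ρ) - (1 - θ) * G)
        (nx α b1 b2 u) (ny b2 u) (nx α b1 b2 v) (ny b2 v) := by
    refine ev_fin2 B B ?_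
    intro u _ v _
    by_cases huv : u = v
    · exact Eventually.of_forall (fun G h => absurd huv h)
    by_cases hxe : nx α b1 b2 u = nx α b1 b2 v
    · have hy' : ny b2 u ≠ ny b2 v := fun h => huv (n_ext hα hb2 hxe h)
      refine Eventually.of_forall (fun G _ h => ?_)
      unfold parq at h
      rw [hxe, sub_self, mul_zero, hθ] at h
      exact mul_ne_zero (neg_ne_zero.mpr (mul_ne_zero (mul_ne_zero hκ0q hμ1') hE))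
        (sub_ne_zero.mpr hy'.symm) h
    · have h1 : -((κ - 1) * (1 - μ)) * (nx α b1 b2 v - nx α b1 b2 u) ≠ 0 :=
        mul_ne_zero (neg_ne_zero.mpr hd) (sub_ne_zero.mpr (Ne.symm hxe))
      filter_upwards [lneQ (-((κ - 1) * (1 - μ)) * (nx α b1 b2 v - nx α b1 b2 u))
        (-(θ * E) * (ny b2 v - ny b2 u) - ρ * (nx α b1 b2 v - nx α b1 b2 u)) (Or.inl h1)]
        with G hG _ h
      unfold parq at h
      apply hG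
      rw [hθ] at h ⊢
      linear_combination h
  have G2 : ∀ᶠ G : ℤ in cofinite, ∀ u ∈ B,
      ¬ parq (-(θ * E)) ((μ * G + ρ) - (1 - θ) * G) τ 0 (nx α b1 b2 u) (ny b2 u) := by
    refine ev_fin B ?_
    intro u hu
    have h1 : -((κ - 1) * (1 - μ)) * (nx α b1 b2 u - τ) ≠ 0 := by
      refine mul_ne_zero (neg_ne_zero.mpr hd) ?_
      intro h
      apply e7 u hu
      rw [hτ] at h
      linear_combination -h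
    filter_upwards [lneQ (-((κ - 1) * (1 - μ)) * (nx α b1 b2 u - τ))
        (-(θ * E) * ny b2 u - ρ * (nx α b1 b2 u - τ)) (Or.inl h1)] with G hG h
    unfold parq at h
    apply hG
    rw [hθ] at h ⊢
    linear_combination h
  have h3t : -μ * (E : ℚ) + -((1 - κ) * (1 - μ)) ≠ 0 := e6
  filter_upwards [e1, e2, ev_fin B (fun u hu => p3n_c (nx α b1 b2 u) (ny b2 u) hκ0
      (hyq u hu) E hEi), p32_c μ ρ hρ hκ0, ev_fin B e3, e5,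
    lneQ (-μ * (E : ℚ) + -((1 - κ) * (1 - μ))) (τ - θ * E) (Or.inl h3t),
    G1, G2, ev_fin B e8, e9, tbe hM hκ1q,
    ev_fin B (fun u _ => size_ev hκ1q hE hlam ((1 - κ) * nx α b1 b2 u) (-(κ * E * ny b2 u))),
    size_ev hκ1q hE hlam ((1 - κ) * τ) 0,
    size_ev hκ1q hE hlam (-(κ * E * μ)) (-(κ * E * ρ)),
    size_ev hκ1q hE hlam (E * (θ - κ)) 0, size_ev hκ1q hE hlam 0 0,
    lneQ (1 - κ) (κ * E - 1) (Or.inl hκ1'), lneQ (1 - κ) κ (Or.inl hκ1')]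
    with G g1 g2 g3 g4 g5 g6 g7 g8 g9 g10 g11 g12 g13 g14 g15 g16 g17 g18 g19
  rw [← hτ, ← hθ]
  rw [← hτ] at g1 g2 e4 g11
  rw [← hθ] at g5
  refine ⟨g1, g2, g3, e4, g4, g5, ?_, g6, g8, g9, g10, g11, g12, g13, g14, g15, g16, g17,
    g18, g19⟩
  intro h
  unfold parq at h
  apply g7
  rw [hτ, hθ] at h ⊢
  linear_combination h

end Pool.Agent.K4L
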