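import Pool.Agent.K4L.K3UF14

/-!
# K3U, the kill `f` on `g e`: the second leaf is won
-/

namespace Pool.Agent.K4L

open Filter

namespace FQ

variable {R B R3 B3 : Finset Pt} {α b1 b2 κ p G k T : ℤ} {t2 : Pt}

theorem col_fbe (Q : FQ R B α b1 b2 κ p G k T t2 R3 B3) :
    ¬ Col (Pf G b1 b2 (α * p) κ) (b1, b2) (α * p, 0) := by
  intro h
  rw [n_col (b1 := b1) Q.K.hα Q.K.hb2, nx_b, ny_b Q.K.hb2, nx_e Q.K.hα Q.K.hb2, ny_r,
    nx_f Q.K.hα Q.K.hb2, ny_f Q.K.hb2] at h
  unfold cq at h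
  have : (p : ℚ) * ((1 - κ) * (1 - G)) = 0 := by linear_combination -h
  exact mul_ne_zero Q.pq (mul_ne_zero Q.kap1 Q.G1q) this

/-- a point of the arm `b`: `p` divides the first coordinate -/
theorem dvd_b (Q : FQ R B α b1 b2 κ p G k T t2 R3 B3) {z : Pt}
    (hz : Col (Pf G b1 b2 (α * p) κ) (b1, b2) z) : p ∣ b2 * z.1 - b1 * z.2 := by
  obtain ⟨X, hX⟩ : ∃ X, X = b2 * z.1 - b1 * z.2 := ⟨_, rfl⟩
  have h1 : X * ((1 - κ) * G - 1) = (z.2 - b2) * κ * α * p := by
    unfold Col Pf at hz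
    simp only at hz
    have : b2 * (X * ((1 - κ) * G - 1)) = b2 * ((z.2 - b2) * κ * α * p) := by
      rw [hX]; linear_combination b2 * hz
    exact mul_left_cancel₀ Q.K.hb2 this
  rw [← hX]
  have h2 : p ∣ X * ((1 - κ) * G - 1) := ⟨(z.2 - b2) * κ * α, by rw [h1]; ring⟩
  exact (Q.hp.dvd_or_dvd h2).resolve_right Q.hpκ1

/-- a parallel of the arm `c` between a point and a point of the arm `b` -/
theorem par_b (Q : FQ R B α b1 b2 κ p G k T t2 R3 B3) {u z : Pt}
    (hz : Col (Pf G b1 b2 (α * p) κ) (b1, b2) z)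
    (h : Par (Pf G b1 b2 (α * p) κ) (0, 0) u z) : p ∣ b2 * u.1 - b1 * u.2 := by
  have h1 := Q.dvd_b hz
  have h2 : p ∣ (b2 * z.1 - b1 * z.2) - (b2 * u.1 - b1 * u.2) := by
    have h3 : (1 - κ) * G * ((b2 * z.1 - b1 * z.2) - (b2 * u.1 - b1 * u.2)) =
        p * (κ * α * (z.2 - u.2)) := by
      unfold Par Pf at h
      simp only at h
      linear_combination h
    exact (Q.hp.dvd_or_dvd ⟨_, h3⟩).resolve_left Q.hpκ
  have h3 := dvd_sub h1 h2
  have e : (b2 * z.1 - b1 * z.2) - ((b2 * z.1 - b1 * z.2) - (b2 * u.1 - b1 * u.2)) =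
      b2 * u.1 - b1 * u.2 := by ring
  rw [e] at h3
  exact h3

/-- the second leaf is won -/
theorem win_omg (Q : FQ R B α b1 b2 κ p G k T t2 R3 B3) {μ c0 σ ρ : ℚ}
    (S : Omg B α b1 b2 κ p G k T t2 R3 B3 μ c0 σ ρ)
    {τ τ2 θ : ℚ} (hθ : θ = κ * (1 - μ)) (hτ2e : τ2 = μ * G + ρ)
    (L : LO B α b1 b2 κ (((α * b2 : ℤ) : ℚ) * κ * (1 - κ)) p G μ ρ τ τ2 θ)
    (hAc : ALine R3 B3 (Pf G b1 b2 (α * p) κ) (0, 0))
    (hAa : ALine R3 B3 (Pf G b1 b2 (α * p) κ) (α, 0))
    (hAb : ALine R3 B3 (Pf G b1 b2 (α * p) κ) (b1, b2))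
    (hτ : nx α b1 b2 (T, 0) = τ) (hτ2 : ny b2 t2 = τ2)
    (hbe : ∀ z ∈ insert t2 (insert ((T, 0) : Pt) B), ¬ Col (b1, b2) (α * p, 0) z)
    (hce : IsCoprime (G * b1 - α * p) (G * b2))
    (hpX : ∀ β ∈ B, ¬ p ∣ b2 * β.1 - b1 * β.2) (hpT : ¬ p ∣ b2 * T) : Win R3 B3 := by
  classical
  have hα := Q.K.hα
  have hb2 := Q.K.hb2
  have hkθ : (k : ℚ) = θ := by rw [hθ]; exact S.hk
  have hc2 : nx α b1 b2 t2 = 0 := nx_cb Q.hs
  have hαq : (α : ℚ) ≠ 0 := by exact_mod_cast hα
  have hb2q : (b2 : ℚ) ≠ 0 := by exact_mod_cast hb2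
  have hNq : (α : ℚ) * b2 ≠ 0 := mul_ne_zero hαq hb2q
  have hκ := Q.κq
  have hκ1 := Q.kap1
  have hG := Q.Gq
  have hp := Q.pq
  obtain ⟨Y, hY1, hY2, hYR⟩ := S.Y
  obtain ⟨M, hMe⟩ : ∃ M : ℚ, M = ((α * b2 : ℤ) : ℚ) * κ * (1 - κ) := ⟨_, rfl⟩
  have hM0 : M ≠ 0 := by rw [hMe]; exact Q.M0
  rw [← hMe] at L
  have ht32 : Pf G b1 b2 (α * p) k ≠ t2 := Q.t3_ne_t2
  -- the hit of a point of the arm `c` on `m`
  have hcm : ∀ z, Col (Pf G b1 b2 (α * p) κ) (0, 0) z → Col (Pf G b1 b2 (α * p) k) t2 z →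
      z ∉ R3 → ∃ m : ℤ, m ≠ 0 ∧ ρ * ((m : ℚ) / M) = (1 - μ) * (μ * G + ρ) ∧
        nx α b1 b2 z = m / M * (κ * p) ∧ ny b2 z = m / M * ((1 - κ) * G) := by
    intro z hz hzm hzR
    obtain ⟨n, h1, h2⟩ := Q.idx_c hz
    rw [← hMe] at h1 h2
    have h1' : nx α b1 b2 z = 0 + n / M * (κ * p - 0) := by rw [h1]; ring
    have h2' : ny b2 z = 0 + n / M * ((1 - κ) * G - 0) := by rw [h2]; ring
    obtain ⟨hn, hn1⟩ := Q.idx_ne Q.cR nx_c ny_c hzR h1' h2'
    refine ⟨n, hn, ?_, h1, h2⟩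
    rw [n_col (b1 := b1) hα hb2, nx_f hα hb2, ny_f hb2, h1, h2, hc2, hτ2, hkθ] at hzm
    unfold cq at hzm
    have h3 : (κ * p) * (ρ * ((n : ℚ) / M) - (1 - μ) * (μ * G + ρ)) = 0 := by
      rw [hθ, hτ2e] at hzm
      linear_combination -hzm
    have h4 := (mul_eq_zero.mp h3).resolve_left (mul_ne_zero hκ hp)
    linarith
  have hbm : ∀ z, Col (Pf G b1 b2 (α * p) κ) (b1, b2) z → ∃ n : ℤ,
      nx α b1 b2 z = n / M * (κ * p) ∧ ny b2 z = 1 + n / M * ((1 - κ) * G - 1) := by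
    intro z hz
    obtain ⟨n, h1, h2⟩ := Q.idx_b hz
    rw [← hMe] at h1 h2
    exact ⟨n, h1, h2⟩
  have hdirc : ∀ u v, Par (Pf G b1 b2 (α * p) κ) (0, 0) u v →
      parq (κ * p) ((1 - κ) * G) (nx α b1 b2 u) (ny b2 u) (nx α b1 b2 v) (ny b2 v) := by
    intro u v h
    rw [n_par (b1 := b1) hα hb2, nx_f hα hb2, ny_f hb2, nx_c, ny_c] at h
    unfold parq at h ⊢
    linear_combination -h
  have hfba : ¬ Col (Pf G b1 b2 (α * p) κ) (b1, b2) (α, 0) := fun h =>
    Q.col_fab L.fab h.swap23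
  refine lemCX0 (o := Pf G b1 b2 (α * p) κ) (a := (0, 0)) (b := (b1, b2))
    (v0 := Pf G b1 b2 (α * p) κ) (r := (α, 0)) (p := Pf G b1 b2 (α * p) k) (q := t2)
    (Y := Y) (z3 := (α * p, 0)) (x0 := (α, 0)) (x1 := (b1, b2)) (x2 := (α * p, 0))
    (x3 := (G * b1, G * b2)) (xg := (α, 0)) (xg' := (α * p, 0))
    Q.hN Q.hB hAc hAb hAa ?_ ht32 hY1 hY2 hYR S.red ?_ ?_ Q.col_fcb ?_ ?_ ?_ ?_
    Q.aR Q.bR Q.eR Q.gR Q.col_abe Q.col_abg Q.col_aeg Q.col_beg Q.eR Q.col_fce ?_ ?_ ?_ ?_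
    (by simp) (by simp) hfba Q.col_fbe ?_ ?_ ?_
  · -- hMNR
    intro z h1 h2
    rw [two_lines hfba h1 h2]
    exact Q.fR
  · -- hLU
    intro z hz hzR u hu v hv huv hc
    right
    have := S.hit_c z hz hzR u hu v hv huv hc
    rcases this with ⟨h1, h2⟩ | ⟨h1, h2⟩
    · rw [h1, h2]; exact ⟨Col.refl_left _ _, Col.refl_right _ _⟩
    · rw [h1, h2]; exact ⟨Col.refl_right _ _, Col.refl_left _ _⟩
  · -- hMU
    intro z hz hzR u hu v hv huv hc
    right
    have := S.hit_b z hz hzR u hu v hv huv hc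
    rcases this with ⟨h1, h2⟩ | ⟨h1, h2⟩
    · rw [h1, h2]; exact ⟨Col.refl_left _ _, Col.refl_right _ _⟩
    · rw [h1, h2]; exact ⟨Col.refl_right _ _, Col.refl_left _ _⟩
  · -- hLN
    exact Q.col_fca
  · -- hMN
    exact hfba
  · -- hLm
    intro h
    have h := hdirc _ _ h
    rw [nx_f hα hb2, ny_f hb2, hc2, hτ2, hτ2e] at h
    unfold parq at h
    apply L.c32 k
    apply mul_left_cancel₀ hp
    linear_combination h
  · -- hNm
    intro h
    rw [n_par (b1 := b1) hα hb2, nx_f hα hb2, ny_f hb2, nx_a hα hb2, ny_r, nx_f hα hb2,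
      ny_f hb2, hc2, hτ2] at h
    unfold parq at h
    apply L.a32 k
    unfold parq
    linear_combination -h
  · -- z3 ≠ b
    intro h
    exact hb2 (congrArg Prod.snd h).symm
  · -- hNP
    intro u hu v hv huv h
    exfalso
    refine Q.nopar_arm (v := (0, 0)) L.pc hτ hτ2 nx_c ny_c rfl rfl ?_ ?_ ?_ u hu v hv huv h
    · intro u hu h
      apply L.c3n u hu k
      unfold parq at h ⊢
      linear_combination h
    · intro h
      unfold parq at h
      have h1 : G * ((k : ℚ) * p - κ * p - (1 - κ) * τ) = 0 := by linear_combination h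
      rcases mul_eq_zero.mp h1 with h2 | h2
      · exact hG h2
      · exact L.c3t k h2
    · intro h
      unfold parq at h
      apply L.c32 k
      apply mul_left_cancel₀ hp
      rw [hτ2e] at h
      linear_combination h
  · -- hZ
    intro z hz hzm hzR u hu t' ht' ht'R hc
    obtain ⟨m, hm0, hmeq, hzx, hzy⟩ := hcm z hz hzm hzR
    obtain ⟨n, htx, hty⟩ := hbm t' ht'
    have key : ∀ u, Col z u t' → cq (m / M * (κ * p)) (m / M * ((1 - κ) * G))
        (nx α b1 b2 u) (ny b2 u) (n / M * (κ * p)) (1 + n / M * ((1 - κ) * G - 1)) := by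
      intro u hu
      rw [n_col (b1 := b1) hα hb2, hzx, hzy, htx, hty] at hu
      exact hu
    revert hc
    refine Q.forall_B3 (P := fun u => Col z u t' → ∃ w ∈ insert Y R3, Col z u w) ?_ ?_ ?_ ?_ u hu
    · intro _
      exact ⟨Y, Finset.mem_insert_self _ _, Col.three ht32 hzm (Col.refl_left _ _) hY2⟩
    · intro _
      exact ⟨Y, Finset.mem_insert_self _ _, Col.three ht32 hzm (Col.refl_right _ _) hY2⟩
    · intro hc
      exfalso
      have := key _ hc
      rw [hτ, ny_r] at this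
      exact L.zt m n hmeq this
    · intro u hu hc
      exfalso
      exact L.zn u hu m n hmeq (key _ hc)
  · -- hP
    intro z hz hzm hzR u hu t' ht' ht'R htY hc
    obtain ⟨m, hm0, hmeq, hzx, hzy⟩ := hcm z hz hzm hzR
    obtain ⟨n, htx, hty⟩ := hbm t' ht'
    have hn0 : n ≠ 0 := by
      have h1' : nx α b1 b2 t' = 0 + n / M * (κ * p - 0) := by rw [htx]; ring
      exact (Q.idx_ne Q.bR nx_b (ny_b hb2) ht'R h1' hty).1
    have key : ∀ u, Par (Pf G b1 b2 (α * p) κ) (0, 0) u t' → parq (κ * p) ((1 - κ) * G)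
        (nx α b1 b2 u) (ny b2 u) (n / M * (κ * p)) (1 + n / M * ((1 - κ) * G - 1)) := by
      intro u hu
      have := hdirc _ _ hu
      rw [htx, hty] at this
      exact this
    have htbe : ¬ Col (b1, b2) (α * p, 0) z := by
      intro h
      rw [n_col (b1 := b1) hα hb2, nx_b, ny_b hb2, nx_e hα hb2, ny_r, hzx, hzy] at h
      unfold cq at h
      apply L.tbe m hm0
      apply mul_left_cancel₀ hp
      linear_combination h
    have hparbe : ¬ Par (Pf G b1 b2 (α * p) κ) (0, 0) (b1, b2) (α * p, 0) := by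
      intro h
      have h := hdirc _ _ h
      rw [nx_b, ny_b hb2, nx_e hα hb2, ny_r] at h
      unfold parq at h
      apply L.be0
      apply mul_left_cancel₀ hp
      linear_combination -h
    revert hc
    refine Q.forall_B3 (P := fun u => Par (Pf G b1 b2 (α * p) κ) (0, 0) u t' →
      (∃ w ∈ insert Y R3, Col u t' w) ∨
      (∃ x ∈ R3, ¬ Col (Pf G b1 b2 (α * p) κ) (0, 0) x ∧ ¬ Col (Pf G b1 b2 (α * p) κ) (b1, b2) x ∧
        (∀ y ∈ insert z B3, ¬ Col (b1, b2) x y) ∧ ¬ Par (Pf G b1 b2 (α * p) κ) (0, 0) (b1, b2) x ∧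
        (∀ y, Col (Pf G b1 b2 (α * p) κ) x y → ¬ Col u t' y)) ∨
      (∃ x ∈ R3, ∃ x' ∈ R3, x ≠ x' ∧ ¬ Col (Pf G b1 b2 (α * p) κ) (0, 0) x ∧
        ¬ Col (Pf G b1 b2 (α * p) κ) (0, 0) x' ∧
        (∀ y ∈ insert t' (insert z B3), ¬ Col x x' y) ∧
        ¬ Par (Pf G b1 b2 (α * p) κ) (0, 0) x x' ∧
        ∀ y ∈ insert z B3, cr3 (Pf G b1 b2 (α * p) κ) (0, 0) y ≠
            cr3 (Pf G b1 b2 (α * p) κ) (0, 0) t' →
          cr3 (Pf G b1 b2 (α * p) κ) (0, 0) x' * (cr3 (Pf G b1 b2 (α * p) κ) (0, 0) x -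
            cr3 (Pf G b1 b2 (α * p) κ) (0, 0) t') ≠
            cr3 (Pf G b1 b2 (α * p) κ) (0, 0) x * (cr3 (Pf G b1 b2 (α * p) κ) (0, 0) y -
            cr3 (Pf G b1 b2 (α * p) κ) (0, 0) t'))) ?_ ?_ ?_ ?_ u hu
    · -- `t3`
      intro hc
      right; right
      have hlt : ((cr3 (Pf G b1 b2 (α * p) κ) (0, 0) t' : ℤ) : ℚ) =
          α * b2 * (-(κ * μ * p) * G) := by
        have h1 := key _ hc
        rw [nx_f hα hb2, ny_f hb2, hkθ] at h1
        unfold parq at h1
        rw [Q.cr_c, htx, hty]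
        rw [hθ] at h1
        linear_combination -(α : ℚ) * b2 * h1
      refine ⟨(b1, b2), Q.bR, (α * p, 0), Q.eR, ?_, Q.col_fcb, Q.col_fce, ?_, hparbe, ?_⟩
      · intro h
        exact hb2 (congrArg Prod.snd h)
      · intro y hy
        rcases Finset.mem_insert.mp hy with rfl | hy
        · -- `t'` is not on `b e`
          intro h
          apply ht'R
          have h1 : y = (b1, b2) := by
            refine two_lines (o := (b1, b2)) (v := Pf G b1 b2 (α * p) κ) (w := (α * p, 0))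
              ?_ ht'.swap12 h
            intro h
            exact Q.col_fbe h.swap12
          rw [h1]
          exact Q.bR
        · rcases Finset.mem_insert.mp hy with rfl | hy
          · exact htbe
          · exact Q.be_B3 hbe y hy
      · intro y hy _
        have hlb : ((cr3 (Pf G b1 b2 (α * p) κ) (0, 0) (b1, b2) : ℤ) : ℚ) =
            α * b2 * (-(κ * p)) := by
          rw [Q.cr_c, nx_b, ny_b hb2]; ring
        have hle : ((cr3 (Pf G b1 b2 (α * p) κ) (0, 0) (α * p, 0) : ℤ) : ℚ) =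
            α * b2 * ((1 - κ) * G * p) := by
          rw [Q.cr_c, nx_e hα hb2, ny_r]; ring
        have fin : ∀ ly : ℚ, ((cr3 (Pf G b1 b2 (α * p) κ) (0, 0) y : ℤ) : ℚ) = α * b2 * ly →
            (1 - κ) * G * p * (-(κ * p) - -(κ * μ * p) * G) ≠
              -(κ * p) * (ly - -(κ * μ * p) * G) →
            cr3 (Pf G b1 b2 (α * p) κ) (0, 0) (α * p, 0) * (cr3 (Pf G b1 b2 (α * p) κ) (0, 0)
              (b1, b2) - cr3 (Pf G b1 b2 (α * p) κ) (0, 0) t') ≠
            cr3 (Pf G b1 b2 (α * p) κ) (0, 0) (b1, b2) * (cr3 (Pf G b1 b2 (α * p) κ) (0, 0) y -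
            cr3 (Pf G b1 b2 (α * p) κ) (0, 0) t') := by
          intro ly hly hne h
          apply hne
          have h2 : ((cr3 (Pf G b1 b2 (α * p) κ) (0, 0) (α * p, 0) : ℤ) : ℚ) *
              ((cr3 (Pf G b1 b2 (α * p) κ) (0, 0) (b1, b2) : ℤ) -
                (cr3 (Pf G b1 b2 (α * p) κ) (0, 0) t' : ℤ)) =
              ((cr3 (Pf G b1 b2 (α * p) κ) (0, 0) (b1, b2) : ℤ) : ℚ) *
              ((cr3 (Pf G b1 b2 (α * p) κ) (0, 0) y : ℤ) -
                (cr3 (Pf G b1 b2 (α * p) κ) (0, 0) t' : ℤ)) := by exact_mod_cast h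
          rw [hlb, hle, hlt, hly] at h2
          apply mul_left_cancel₀ (mul_ne_zero hNq hNq)
          linear_combination h2
        rcases Finset.mem_insert.mp hy with rfl | hy
        · refine fin 0 ?_ ?_
          · rw [Q.cr_c, hzx, hzy]; ring
          · intro h
            exact L.s0 (by linear_combination h)
        · revert fin
          refine Q.forall_B3 (P := fun y => (∀ ly : ℚ,
            ((cr3 (Pf G b1 b2 (α * p) κ) (0, 0) y : ℤ) : ℚ) = α * b2 * ly →
            (1 - κ) * G * p * (-(κ * p) - -(κ * μ * p) * G) ≠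
              -(κ * p) * (ly - -(κ * μ * p) * G) →
            cr3 (Pf G b1 b2 (α * p) κ) (0, 0) (α * p, 0) * (cr3 (Pf G b1 b2 (α * p) κ) (0, 0)
              (b1, b2) - cr3 (Pf G b1 b2 (α * p) κ) (0, 0) t') ≠
            cr3 (Pf G b1 b2 (α * p) κ) (0, 0) (b1, b2) * (cr3 (Pf G b1 b2 (α * p) κ) (0, 0) y -
            cr3 (Pf G b1 b2 (α * p) κ) (0, 0) t')) →
            cr3 (Pf G b1 b2 (α * p) κ) (0, 0) (α * p, 0) * (cr3 (Pf G b1 b2 (α * p) κ) (0, 0)
              (b1, b2) - cr3 (Pf G b1 b2 (α * p) κ) (0, 0) t') ≠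
            cr3 (Pf G b1 b2 (α * p) κ) (0, 0) (b1, b2) * (cr3 (Pf G b1 b2 (α * p) κ) (0, 0) y -
            cr3 (Pf G b1 b2 (α * p) κ) (0, 0) t')) ?_ ?_ ?_ ?_ y hy
          · intro fin
            refine fin (p * (θ - κ) * G) ?_ ?_
            · rw [Q.cr_c, nx_f hα hb2, ny_f hb2, hkθ]; ring
            · intro h
              exact L.s3 (by linear_combination h)
          · intro fin
            refine fin (-(κ * p * τ2)) ?_ ?_
            · rw [Q.cr_c, hc2, hτ2]; ring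
            · intro h
              rw [hτ2e] at h
              exact L.s2 (by linear_combination h)
          · intro fin
            refine fin ((1 - κ) * G * τ) ?_ ?_
            · rw [Q.cr_c, hτ, ny_r]; ring
            · intro h
              exact L.st (by linear_combination h)
          · intro u hu fin
            refine fin ((1 - κ) * G * nx α b1 b2 u - κ * p * ny b2 u) ?_ ?_
            · rw [Q.cr_c]
            · intro h
              exact L.sn u hu (by linear_combination h)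
    · -- `t2`
      intro hc
      right; left
      refine ⟨(α * p, 0), Q.eR, Q.col_fce, Q.col_fbe, ?_, hparbe, ?_⟩
      · intro y hy
        rcases Finset.mem_insert.mp hy with rfl | hy
        · exact htbe
        · exact Q.be_B3 hbe y hy
      · intro y hy hcol
        have hy' : Col (Pf G b1 b2 (α * p) κ) (G * b1, G * b2) y := by
          have hef : Col (Pf G b1 b2 (α * p) κ) (α * p, 0) (G * b1, G * b2) := by
            rw [n_col (b1 := b1) hα hb2, nx_f hα hb2, ny_f hb2, nx_e hα hb2, ny_r, nx_g,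
              ny_g hb2]
            unfold cq; ring
          have hfe : Pf G b1 b2 (α * p) κ ≠ (α * p, 0) := by
            intro h
            have := ny_f (b1 := b1) hb2 G (α * p) κ
            rw [h, ny_r] at this
            exact mul_ne_zero hκ1 hG this.symm
          exact Col.three hfe (Col.refl_left _ _) hef hy
        obtain ⟨j, hj1, hj2⟩ := Q.ge_pt hce hy'
        have h1 := key _ hc
        rw [hc2, hτ2] at h1
        rw [n_col (b1 := b1) hα hb2, hc2, hτ2, htx, hty, hj1, hj2] at hcol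
        unfold cq at hcol
        unfold parq at h1
        have hnx : (n : ℚ) / M * (κ * p) ≠ 0 := by
          refine mul_ne_zero (div_ne_zero (by exact_mod_cast hn0) hM0) (mul_ne_zero hκ hp)
        have h3 : (n : ℚ) / M * (κ * p) *
            (((j : ℚ) - κ * (1 - μ)) * G + κ * ρ) = 0 := by
          rw [hτ2e] at h1 hcol
          linear_combination (-κ) * hcol - (j : ℚ) * h1
        rcases mul_eq_zero.mp h3 with h4 | h4
        · exact hnx h4
        · exact L.c32 j h4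
    · -- `t`
      intro hc
      exfalso
      have := Q.par_b ht' hc
      apply hpT
      simpa using this
    · -- near
      intro u hu hc
      exfalso
      exact hpX u hu (Q.par_b ht' hc)
  · -- hgg
    intro h
    have h1 : α * p = α := congrArg Prod.fst h
    apply Q.hp1
    apply mul_left_cancel₀ hα
    linarith
  · -- hparM
    intro u hu v hv huv h
    exfalso
    refine Q.nopar_arm (v := (b1, b2)) L.pb hτ hτ2 nx_b (ny_b hb2) rfl rfl ?_ ?_ ?_
      u hu v hv huv h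
    · intro u hu h
      apply L.b3n u hu
      rw [hkθ] at h
      unfold parq at h ⊢
      linear_combination h
    · intro h
      apply L.b3t
      rw [hkθ] at h
      unfold parq at h ⊢
      linear_combination h
    · intro h
      have hpar : Par (Pf G b1 b2 (α * p) κ) (b1, b2) (Pf G b1 b2 (α * p) k) t2 := by
        rw [n_par (b1 := b1) hα hb2, nx_f hα hb2, ny_f hb2, nx_b, ny_b hb2, hc2, hτ2,
          nx_f hα hb2, ny_f hb2]
        unfold parq at h ⊢
        linear_combination -h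
      have h1 : Par (Pf G b1 b2 (α * p) κ) (b1, b2) Y t2 := hpar.through ht32 hY2
      exact hAb.2.2.2 _ Q.mem2 (h1.col hY1)
  · -- hparm
    obtain ⟨h1, h2, h3, h4, h5⟩ := hparm_aux ht32 (P := fun u v =>
      Par (Pf G b1 b2 (α * p) k) t2 u v → Col (Pf G b1 b2 (α * p) k) t2 u ∧
        Col (Pf G b1 b2 (α * p) k) t2 v) rfl
    intro u hu v hv huv h
    right
    have hdm : ∀ u v, Par (Pf G b1 b2 (α * p) k) t2 u v →
        parq (-(θ * p)) (τ2 - (1 - θ) * G) (nx α b1 b2 u) (ny b2 u) (nx α b1 b2 v)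
          (ny b2 v) := by
      intro u v h
      rw [n_par (b1 := b1) hα hb2, nx_f hα hb2, ny_f hb2, hc2, hτ2, hkθ] at h
      unfold parq at h ⊢
      linear_combination h
    refine (Q.pairs (P := fun u v =>
      Par (Pf G b1 b2 (α * p) k) t2 u v → Col (Pf G b1 b2 (α * p) k) t2 u ∧
        Col (Pf G b1 b2 (α * p) k) t2 v) h1 ?_ ?_ ?_ ?_ ?_ ?_ ?_ u hu v hv huv h).1
    · intro u hu v hv huv h
      exact absurd (hdm _ _ h) (L.mnn u hu v hv huv)
    · intro v hv h
      have := hdm _ _ h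
      rw [hτ, ny_r] at this
      exact absurd this (L.mtn v hv)
    · intro v _
      exact h3 v
    · exact h3 _
    · intro v _
      exact h2 v
    · exact h2 _
    · exact h2 _

end FQ

end Pool.Agent.K4L
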