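import Pool.Agent.K4L.K3UF1

/-!
# K3U, the kill `f` on `g e`: the hits of the arms, rational normal form

`c = (0,0)`, `a = (1,0)`, `b = (0,1)`, `e = (E,0)`, `g = (0,G)`, `f = (κ E, (1-κ) G)`,
`t = (τ,0)`, `t2 = (0,τ2)`, `t3 = (k E, (1-k) G)`; a point of the arm `v f` is `v + r (f - v)`,
`r = n / M`.
-/

namespace Pool.Agent.K4L

open Filter

/-- collinearity of rational points -/
def cq (x1 y1 x2 y2 x3 y3 : ℚ) : Prop := (x2 - x1) * (y3 - y1) = (y2 - y1) * (x3 - x1)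

theorem div_ne {n : ℤ} {M : ℚ} (hn : n ≠ 0) (hM : M ≠ 0) : (n : ℚ) / M ≠ 0 :=
  div_ne_zero (by exact_mod_cast hn) hM

section
variable {κ M : ℚ}

/-- C1: two points fixed before `G`, not on a vertical line -/
theorem c1 (hM : M ≠ 0) (hκ1 : κ ≠ 1) (E v1 v2 x1 y1 x2 y2 : ℚ) (hx : x1 ≠ x2) :
    ∀ᶠ G : ℤ in cofinite, ∀ n : ℤ, n ≠ 0 →
      ¬ cq x1 y1 x2 y2 (v1 + n / M * (κ * E - v1)) (v2 + n / M * ((1 - κ) * G - v2)) := by
  have hA : (x2 - x1) * (1 - κ) / M ≠ 0 :=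
    div_ne_zero (mul_ne_zero (sub_ne_zero.mpr hx.symm) (sub_ne_zero.mpr hκ1.symm)) hM
  filter_upwards [linQ ((x2 - x1) * (1 - κ) / M) 0
    (-((x2 - x1) * v2 / M) - (y2 - y1) * (κ * E - v1) / M)
    ((x2 - x1) * (v2 - y1) - (y2 - y1) * (v1 - x1)) hA] with G hG n hn hc
  unfold cq at hc
  obtain ⟨h1, _⟩ := hG n (by linear_combination hc)
  rw [add_zero] at h1
  rcases mul_eq_zero.mp h1 with h | h
  · exact hA h
  · exact hn (by exact_mod_cast h)

/-- C1': two points fixed before `E`, on a vertical line -/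
theorem c1' (hM : M ≠ 0) (hκ0 : κ ≠ 0) (v1 v2 x1 y1 y2 : ℚ) (hy : y1 ≠ y2) :
    ∀ᶠ E : ℤ in cofinite, ∀ G : ℤ, ∀ n : ℤ, n ≠ 0 →
      ¬ cq x1 y1 x1 y2 (v1 + n / M * (κ * E - v1)) (v2 + n / M * ((1 - κ) * G - v2)) := by
  have hA : κ / M ≠ 0 := div_ne_zero hκ0 hM
  filter_upwards [linQ (κ / M) 0 (-(v1 / M)) (v1 - x1) hA] with E hE G n hn hc
  unfold cq at hc
  rw [sub_self, zero_mul] at hc
  have h0 := (mul_eq_zero.mp hc.symm).resolve_left (sub_ne_zero.mpr hy.symm)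
  obtain ⟨h1, _⟩ := hE n (by linear_combination h0)
  rw [add_zero] at h1
  rcases mul_eq_zero.mp h1 with h | h
  · exact hA h
  · exact hn (by exact_mod_cast h)

/-- C2: `t2` and a near stone, `t2 = (0, σ G + ρ)` -/
theorem c2 (hM : M ≠ 0) (hκ0 : κ ≠ 0) (v1 v2 x y σ ρ : ℚ) (hσ : σ ≠ 0) :
    ∀ᶠ E : ℤ in cofinite, ∀ᶠ G : ℤ in cofinite, ∀ n : ℤ, n ≠ 0 →
      ¬ cq 0 (σ * G + ρ) x y (v1 + n / M * (κ * E - v1)) (v2 + n / M * ((1 - κ) * G - v2)) := by
  have hA : σ * κ / M ≠ 0 := div_ne_zero (mul_ne_zero hσ hκ0) hM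
  filter_upwards [linQ (σ * κ / M) 0 ((x * (1 - κ) - σ * v1) / M) (-(σ * (x - v1))) hA,
    lneQ (σ * κ / M) ((x * (1 - κ) - σ * v1) / M) (Or.inl hA)] with E hE hE2
  have hA2 : (x * (1 - κ) + σ * (κ * E - v1)) / M ≠ 0 := by
    intro h; apply hE2; linear_combination h
  filter_upwards [linQ ((x * (1 - κ) + σ * (κ * E - v1)) / M) (-(σ * (x - v1)))
    (-(x * v2) / M - y * (κ * E - v1) / M + ρ * (κ * E - v1) / M)
    (x * (v2 - ρ) - (y - ρ) * v1) hA2] with G hG n hn hc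
  unfold cq at hc
  obtain ⟨h1, _⟩ := hG n (by linear_combination hc)
  obtain ⟨h2, _⟩ := hE n (by linear_combination h1)
  rw [add_zero] at h2
  rcases mul_eq_zero.mp h2 with h | h
  · exact hA h
  · exact hn (by exact_mod_cast h)

/-- C2T: `t2` and a near stone, `t2 = (0, τ G)`, `τ = μ E + c0`, arms `b`, `c` -/
theorem c2T (hM : M ≠ 0) (hκ0 : κ ≠ 0) (v2 x y μ c0 : ℚ) (hμ : μ ≠ 0) :
    ∀ᶠ E : ℤ in cofinite, ∀ᶠ G : ℤ in cofinite, ∀ n : ℤ, n ≠ 0 →
      ¬ cq 0 ((μ * E + c0) * G) x y (n / M * (κ * E)) (v2 + n / M * ((1 - κ) * G - v2)) := by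
  have ha : μ * κ / |M| ≠ 0 := div_ne_zero (mul_ne_zero hμ hκ0) (abs_ne_zero.mpr hM)
  have hM' : |M| ≠ 0 := abs_ne_zero.mpr hM
  filter_upwards [domQ (μ * κ) (c0 * κ) (x * (1 - κ)) (M * μ * x) (M * c0 * x)
    (mul_ne_zero hμ hκ0)] with E hE
  have hP : x * (1 - κ) + (μ * E + c0) * (κ * E) ≠ 0 := by
    intro h
    have h1 : μ * κ * (E : ℚ) * E + c0 * κ * E + x * (1 - κ) = 0 := by linear_combination h
    rw [h1, abs_zero] at hE
    exact absurd hE (not_lt.mpr (abs_nonneg _))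
  have hA : (x * (1 - κ) + (μ * E + c0) * (κ * E)) / M ≠ 0 := div_ne_zero hP hM
  filter_upwards [linQ ((x * (1 - κ) + (μ * E + c0) * (κ * E)) / M) (-((μ * E + c0) * x))
    (-(x * v2) / M - y * (κ * E) / M) (x * v2) hA] with G hG n hn hc
  unfold cq at hc
  obtain ⟨h1, _⟩ := hG n (by linear_combination hc)
  have h2 : (n : ℚ) * (x * (1 - κ) + (μ * E + c0) * (κ * E)) = M * ((μ * E + c0) * x) := by
    have : (x * (1 - κ) + (μ * E + c0) * (κ * E)) / M * n = (μ * E + c0) * x := by linarith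
    rw [div_mul_eq_mul_div, div_eq_iff hM] at this
    linear_combination this
  have h3 : |μ * κ * (E : ℚ) * E + c0 * κ * E + x * (1 - κ)| ≤ |M * μ * x * E + M * c0 * x| := by
    have e1 : M * μ * x * E + M * c0 * x = n * (μ * κ * (E : ℚ) * E + c0 * κ * E + x * (1 - κ)) := by
      linear_combination -h2
    rw [e1, abs_mul]
    apply le_mul_of_one_le_left (abs_nonneg _)
    have : (1 : ℤ) ≤ |n| := Int.one_le_abs hn
    have h4 : ((1 : ℤ) : ℚ) ≤ ((|n| : ℤ) : ℚ) := by exact_mod_cast this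
    rwa [Int.cast_one, Int.cast_abs] at h4
  linarith

/-- C3: `t3` and a near stone -/
theorem c3 (hM : M ≠ 0) {κ : ℤ} (v1 v2 x y : ℚ) :
    ∀ᶠ E : ℤ in cofinite, ∀ᶠ G : ℤ in cofinite, ∀ n : ℤ, n ≠ 0 → ∀ k : ℤ, k ≠ κ →
      ¬ cq (k * E) ((1 - k) * G) x y (v1 + n / M * (κ * E - v1))
        (v2 + n / M * ((1 - κ) * G - v2)) := by
  have hM1 : (1 : ℚ) / M ≠ 0 := div_ne_zero one_ne_zero hM
  -- the two brackets and the leading form, at the level of `E`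
  filter_upwards [linQ 1 (-(κ : ℚ)) (-v1) (v1 - x * (1 - κ)) one_ne_zero,
    linQ (1 / M) 0 (-(v1 / M)) (v1 - x) hM1,
    blQ (1 / M) (-(κ / M)) 0 0 (-(v1 / M)) ((v1 - x * (1 - κ)) / M) (v1 - x) (-(v1 - x)) hM1,
    evQ |v1|] with E e1 e2 e3 e4
  have hEv : (E : ℚ) - v1 ≠ 0 := by
    intro h
    have : (E : ℚ) = v1 := by linarith
    rw [this] at e4
    exact lt_irrefl _ e4
  have ha : ((E : ℚ) - v1) / M ≠ 0 := div_ne_zero hEv hM
  filter_upwards [blQ (((E : ℚ) - v1) / M) (-((κ * E - v1 + x * (1 - κ)) / M)) (v1 - x)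
    (-(v1 - x)) (-(v2 * E) / M) ((x * v2 - y * v1 + y * (κ * E)) / M) (E * (v2 - y))
    (-(x * v2) + y * v1) ha] with G hG n hn k hk hc
  unfold cq at hc
  have hkκ : (k : ℚ) - κ ≠ 0 := by
    intro h
    apply hk
    have : (k : ℚ) = κ := by linarith
    exact_mod_cast this
  have hnq : (n : ℚ) ≠ 0 := by exact_mod_cast hn
  have hu : ((E : ℚ) - v1) / M * k + -((κ * E - v1 + x * (1 - κ)) / M) ≠ 0 := by
    intro h
    have h' : (E - v1) * (k : ℚ) - (κ * E - v1 + x * (1 - κ)) = 0 := by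
      have : ((E - v1) * (k : ℚ) - (κ * E - v1 + x * (1 - κ))) / M = 0 := by
        linear_combination h
      rw [div_eq_zero_iff] at this
      exact this.resolve_right hM
    obtain ⟨h2, _⟩ := e1 k (by linear_combination h')
    exact hkκ (by linarith)
  have hv : ((E : ℚ) - v1) / M * n + (v1 - x) ≠ 0 := by
    intro h
    obtain ⟨h2, _⟩ := e2 n (by linear_combination h)
    rw [add_zero] at h2
    rcases mul_eq_zero.mp h2 with h | h
    · exact hM1 h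
    · exact hnq h
  obtain ⟨h1, _⟩ := hG n k hu hv (by linear_combination -hc)
  have hu' : 1 / M * (k : ℚ) + -(κ / M) ≠ 0 := by
    intro h
    have : (1 / M) * ((k : ℚ) - κ) = 0 := by linear_combination h
    rcases mul_eq_zero.mp this with h | h
    · exact hM1 h
    · exact hkκ h
  have hv' : 1 / M * (n : ℚ) + 0 ≠ 0 := by
    rw [add_zero]
    exact mul_ne_zero hM1 hnq
  obtain ⟨h2, _⟩ := e3 n k hu' hv' (by linear_combination h1)
  have : (1 / M * n) * ((k : ℚ) - κ) = 0 := by linear_combination h2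
  rcases mul_eq_zero.mp this with h | h
  · rcases mul_eq_zero.mp h with h | h
    · exact hM1 h
    · exact hnq h
  · exact hkκ h

end

end Pool.Agent.K4L
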