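import Pool.Agent.K4L.K3UF2

/-!
# K3U, the kill `f` on `g e`: the lines `t2 t`, `t3 t`, `t3 t2`
-/

namespace Pool.Agent.K4L

open Filter

section
variable {κ M : ℚ}

/-- the line `t2 t` misses the arms `a`, `c` -/
theorem c2t_ac (hM : M ≠ 0) (hκ1 : κ ≠ 1) (v1 μ c0 σ ρ : ℚ) (hρ : ρ ≠ 0) (hμ : μ ≠ 0)
    (hk2 : μ * (1 - κ) + σ * κ ≠ 0) :
    ∀ᶠ E : ℤ in cofinite, ∀ᶠ G : ℤ in cofinite, ∀ n : ℤ, n ≠ 0 →
      ¬ cq 0 (σ * G + ρ) (μ * E + c0) 0 (v1 + n / M * (κ * E - v1))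
        (n / M * ((1 - κ) * G)) := by
  filter_upwards [lneQ (μ * (1 - κ) + σ * κ) (c0 * (1 - κ) - σ * v1) (Or.inl hk2),
    lneQ μ c0 (Or.inl hμ)] with E e1 e2
  obtain ⟨τ, hτ⟩ : ∃ τ : ℚ, τ = μ * E + c0 := ⟨_, rfl⟩
  rw [← hτ] at e2 ⊢
  have hA : (τ * (1 - κ) + σ * (κ * E - v1)) / M ≠ 0 := by
    apply div_ne_zero _ hM
    intro h
    rw [hτ] at h
    exact e1 (by linear_combination h)
  filter_upwards [linQ ((τ * (1 - κ) + σ * (κ * E - v1)) / M) (-(σ * (τ - v1)))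
    (ρ * (κ * E - v1) / M) (ρ * (v1 - τ)) hA] with G hG n hn hc
  unfold cq at hc
  obtain ⟨h1, h2⟩ := hG n (by linear_combination hc)
  have hr := div_ne hn hM
  obtain ⟨r, hrd⟩ : ∃ r : ℚ, r = n / M := ⟨_, rfl⟩
  rw [← hrd] at hr
  have h1' : (τ * (1 - κ) + σ * (κ * E - v1)) * r - σ * (τ - v1) = 0 := by
    rw [hrd]; linear_combination h1
  have h2' : ρ * ((κ * E - v1) * r + (v1 - τ)) = 0 := by
    rw [hrd]; linear_combination h2
  have h3 := (mul_eq_zero.mp h2').resolve_left hρ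
  have h4 : r * (τ * (1 - κ)) = 0 := by linear_combination h1' - σ * h3
  rcases mul_eq_zero.mp h4 with h | h
  · exact hr h
  · rcases mul_eq_zero.mp h with h | h
    · exact e2 h
    · exact hκ1 (by linarith)

/-- the line `t2 t` misses the arm `b` -/
theorem c2t_b (hM : M ≠ 0) (hκ0 : κ ≠ 0) (μ c0 σ ρ : ℚ) (hσ : σ ≠ 0) (hμ : μ ≠ 0) (hc0 : c0 ≠ 0)
    (hk2 : μ * (1 - κ) + σ * κ ≠ 0) :
    ∀ᶠ E : ℤ in cofinite, ∀ᶠ G : ℤ in cofinite, ∀ n : ℤ, n ≠ 0 →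
      ¬ cq 0 (σ * G + ρ) (μ * E + c0) 0 (n / M * (κ * E))
        (1 + n / M * ((1 - κ) * G - 1)) := by
  have hne : μ * ((1 - κ) * (1 - ρ) - σ) + σ * κ ≠ 0 ∨ c0 * ((1 - κ) * (1 - ρ) - σ) ≠ 0 := by
    by_cases h : (1 - κ) * (1 - ρ) - σ = 0
    · left
      rw [h, mul_zero, zero_add]
      exact mul_ne_zero hσ hκ0
    · right
      exact mul_ne_zero hc0 h
  filter_upwards [lneQ (μ * (1 - κ) + σ * κ) (c0 * (1 - κ)) (Or.inl hk2),
    lneQ μ c0 (Or.inl hμ), lneQ _ _ hne] with E e1 e2 e3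
  obtain ⟨τ, hτ⟩ : ∃ τ : ℚ, τ = μ * E + c0 := ⟨_, rfl⟩
  rw [← hτ] at e2 ⊢
  have hA : (τ * (1 - κ) + σ * (κ * E)) / M ≠ 0 := by
    apply div_ne_zero _ hM
    intro h
    rw [hτ] at h
    exact e1 (by linear_combination h)
  filter_upwards [linQ ((τ * (1 - κ) + σ * (κ * E)) / M) (-(σ * τ))
    ((ρ * (κ * E) - τ) / M) (τ * (1 - ρ)) hA] with G hG n hn hc
  unfold cq at hc
  obtain ⟨h1, h2⟩ := hG n (by linear_combination hc)
  obtain ⟨r, hrd⟩ : ∃ r : ℚ, r = n / M := ⟨_, rfl⟩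
  have h1' : r * (τ * (1 - κ) + σ * (κ * E)) - σ * τ = 0 := by
    rw [hrd]; linear_combination h1
  have h2' : r * (ρ * (κ * E) - τ) + τ * (1 - ρ) = 0 := by
    rw [hrd]; linear_combination h2
  have h3 : τ * (r * (ρ * (1 - κ) + σ) - σ) = 0 := by linear_combination ρ * h1' - σ * h2'
  have h4 := (mul_eq_zero.mp h3).resolve_left e2
  have h5 : σ * (τ * ((1 - κ) * (1 - ρ) - σ) + σ * κ * E) = 0 := by
    linear_combination (ρ * (1 - κ) + σ) * h1' - (τ * (1 - κ) + σ * (κ * E)) * h4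
  have h6 := (mul_eq_zero.mp h5).resolve_left hσ
  rw [hτ] at h6
  exact e3 (by linear_combination h6)

/-- `t2 = (0, τ G)`: the line `t2 t` misses the arm `c` -/
theorem c2tT_c (hM : M ≠ 0) (hκ0 : κ ≠ 0) (μ c0 : ℚ) (hμ : μ ≠ 0) (hk6 : c0 * κ ≠ μ * (1 - κ)) :
    ∀ᶠ E : ℤ in cofinite, ∀ G : ℤ, G ≠ 0 → ∀ n : ℤ,
      ¬ cq 0 ((μ * E + c0) * G) (μ * E + c0) 0 (n / M * (κ * E)) (n / M * ((1 - κ) * G)) := by
  have hA : κ / M ≠ 0 := div_ne_zero hκ0 hM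
  filter_upwards [linQ (κ / M) (-μ) ((1 - κ) / M) (-c0) hA, lneQ μ c0 (Or.inl hμ)]
    with E hE e2 G hG n hc
  unfold cq at hc
  have hGq : (G : ℚ) ≠ 0 := by exact_mod_cast hG
  have h0 : (μ * E + c0) * G * (n / M * (κ * E) + n / M * (1 - κ) - (μ * E + c0)) = 0 := by
    linear_combination hc
  have h1 := (mul_eq_zero.mp h0).resolve_left (mul_ne_zero e2 hGq)
  obtain ⟨h2, h3⟩ := hE n (by linear_combination h1)
  apply hk6
  obtain ⟨r, hrd⟩ : ∃ r : ℚ, r = n / M := ⟨_, rfl⟩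
  have h2' : κ * r - μ = 0 := by rw [hrd]; linear_combination h2
  have h3' : (1 - κ) * r - c0 = 0 := by rw [hrd]; linear_combination h3
  linear_combination (1 - κ) * h2' - κ * h3'

/-- `t2 = (0, τ G)`: the line `t2 t` misses the arm `b` -/
theorem c2tT_b (hM : M ≠ 0) (hκ0 : κ ≠ 0) (μ c0 : ℚ) (hμ : μ ≠ 0) :
    ∀ᶠ E : ℤ in cofinite, ∀ᶠ G : ℤ in cofinite, ∀ n : ℤ, (n : ℚ) / M ≠ 1 →
      ¬ cq 0 ((μ * E + c0) * G) (μ * E + c0) 0 (n / M * (κ * E))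
        (1 + n / M * ((1 - κ) * G - 1)) := by
  filter_upwards [lneQ κ (1 - κ) (Or.inl hκ0), lneQ μ c0 (Or.inl hμ)] with E e1 e2
  have hA : (1 - κ + κ * E) / M ≠ 0 := by
    apply div_ne_zero _ hM
    intro h; apply e1; linear_combination h
  filter_upwards [linQ ((1 - κ + κ * E) / M) (-(μ * E + c0)) (-(1 / M)) 1 hA]
    with G hG n hn hc
  unfold cq at hc
  have h0 : (μ * E + c0) * ((((1 - κ + κ * E) / M) * n + -(μ * E + c0)) * G +
      (-(1 / M) * n + 1)) = 0 := by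
    linear_combination hc
  obtain ⟨_, h2⟩ := hG n ((mul_eq_zero.mp h0).resolve_left e2)
  apply hn
  linear_combination -h2

/-- the line `t3 t` misses the arm `b` -/
theorem c4 (hM : M ≠ 0) (hκ1 : κ ≠ 1) (μ c0 : ℚ) (hc0 : c0 ≠ 0) :
    ∀ᶠ E : ℤ in cofinite, ∀ᶠ G : ℤ in cofinite, ∀ n k : ℤ, (n : ℚ) / M ≠ 1 →
      ¬ cq (k * E) ((1 - k) * G) (μ * E + c0) 0 (n / M * (κ * E))
        (1 + n / M * ((1 - κ) * G - 1)) := by
  have hM1 : (-1 : ℚ) / M ≠ 0 := div_ne_zero (by norm_num) hM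
  filter_upwards [linQ (-1) (μ * (1 - κ) + κ) 0 (c0 * (1 - κ)) (by norm_num),
    linQ (-1 / M) μ 0 c0 hM1, linQ (-1) μ 0 c0 (by norm_num), evQ 0] with E e1 e2 e3 e4
  have hE0 : (E : ℚ) ≠ 0 := abs_pos.mp e4
  obtain ⟨τ, hτ⟩ : ∃ τ : ℚ, τ = μ * E + c0 := ⟨_, rfl⟩
  rw [← hτ]
  have ha : -(E : ℚ) / M ≠ 0 := div_ne_zero (neg_ne_zero.mpr hE0) hM
  filter_upwards [blQ (-(E : ℚ) / M) ((τ * (1 - κ) + κ * E) / M) τ (-τ) (E / M) (-(τ / M)) (-E) τ
    ha] with G hG n k hn hc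
  unfold cq at hc
  have hu : -(E : ℚ) / M * k + (τ * (1 - κ) + κ * E) / M ≠ 0 := by
    intro h
    have h' : -(E : ℚ) * k + (τ * (1 - κ) + κ * E) = 0 := by
      have : (-(E : ℚ) * k + (τ * (1 - κ) + κ * E)) / M = 0 := by linear_combination h
      exact (div_eq_zero_iff.mp this).resolve_right hM
    rw [hτ] at h'
    obtain ⟨_, h2⟩ := e1 k (by linear_combination h')
    rw [zero_mul, zero_add] at h2
    rcases mul_eq_zero.mp h2 with h | h
    · exact hc0 h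
    · exact hκ1 (by linarith)
  have hv : -(E : ℚ) / M * n + τ ≠ 0 := by
    intro h
    rw [hτ] at h
    obtain ⟨_, h2⟩ := e2 n (by linear_combination h)
    rw [zero_mul, zero_add] at h2
    exact hc0 h2
  obtain ⟨_, h2⟩ := hG n k hu hv (by linear_combination hc)
  have h3 : (τ - k * E) * (1 - n / M) = 0 := by linear_combination h2
  rcases mul_eq_zero.mp h3 with h | h
  · rw [hτ] at h
    obtain ⟨_, h2⟩ := e3 k (by linear_combination h)
    rw [zero_mul, zero_add] at h2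
    exact hc0 h2
  · exact hn (by linarith)

/-- the line `t3 t` and the arms `a`, `c` -/
theorem c5 {E G : ℤ} (hG : G ≠ 0) {v1 τ r k : ℚ}
    (hc : cq (k * E) ((1 - k) * G) τ 0 (v1 + r * (κ * E - v1)) (r * ((1 - κ) * G))) :
    r * (k * (E - v1) - (κ * E - v1 + τ * (1 - κ))) = (τ - v1) * (k - 1) := by
  unfold cq at hc
  have hGq : (G : ℚ) ≠ 0 := by exact_mod_cast hG
  apply mul_left_cancel₀ hGq
  linear_combination -hc

/-- the line `t3 t2` and the arm `c` -/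
theorem c6c (hM : M ≠ 0) (σ ρ : ℚ) (hρ : ρ ≠ 0) (E : ℤ) (hE : E ≠ 0) :
    ∀ᶠ G : ℤ in cofinite, ∀ n k : ℤ, (n : ℚ) / M ≠ 1 → k ≠ 0 →
      cq (k * E) ((1 - k) * G) 0 (σ * G + ρ) (n / M * (κ * E)) (n / M * ((1 - κ) * G)) →
      ((k : ℚ) = κ * (1 - σ) ∧ ρ * (n / M) = (1 - σ) * (σ * G + ρ)) ∨
      ((n : ℚ) / M = σ ∧ k * ρ = κ * σ * (ρ - (1 - σ) * G)) := by
  have hEq : (E : ℚ) ≠ 0 := by exact_mod_cast hE
  have ha : (-1 : ℚ) / M ≠ 0 := div_ne_zero (by norm_num) hM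
  filter_upwards [blQ (-1 / M) ((1 - σ) * κ / M) σ 0 0 (-(ρ * κ / M)) ρ 0 ha]
    with G hG n k hn hk hc
  unfold cq at hc
  have hkq : (k : ℚ) ≠ 0 := by exact_mod_cast hk
  have h0 : (-1 / M * n * k + (1 - σ) * κ / M * n + σ * k + 0) * (G : ℚ) +
      (0 * n * k + -(ρ * κ / M) * n + ρ * k + 0) = 0 := by
    apply mul_left_cancel₀ hEq
    linear_combination hc
  by_cases hu : -1 / M * (k : ℚ) + (1 - σ) * κ / M = 0
  · left
    have hk' : (k : ℚ) = κ * (1 - σ) := by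
      have : (-(k : ℚ) + (1 - σ) * κ) / M = 0 := by linear_combination hu
      have := (div_eq_zero_iff.mp this).resolve_right hM
      linarith
    refine ⟨hk', ?_⟩
    have h1 : κ * ((1 - σ) * (σ * G + ρ) - ρ * (n / M)) = 0 := by
      linear_combination h0 - (G : ℚ) * n * hu + (-(σ * G) - ρ) * hk'
    rcases mul_eq_zero.mp h1 with h | h
    · rw [h, zero_mul] at hk'
      exact absurd hk' hkq
    · linarith
  by_cases hv : -1 / M * (n : ℚ) + σ = 0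
  · right
    have hr : (n : ℚ) / M = σ := by linear_combination -hv
    refine ⟨hr, ?_⟩
    have e : -1 / M * (n : ℚ) = -(n / M) := by ring
    linear_combination h0 - (G : ℚ) * k * hv - (((1 - σ) * κ * G) - ρ * κ) * hr
  exfalso
  obtain ⟨h1, h2⟩ := hG n k hu hv h0
  have h3 : ρ * (k - κ * (n / M)) = 0 := by linear_combination h2
  have h4 := (mul_eq_zero.mp h3).resolve_left hρ
  have h5 : (k : ℚ) * (1 - n / M) = 0 := by linear_combination h1 + (1 - σ) * h4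
  rcases mul_eq_zero.mp h5 with h | h
  · exact hkq h
  · exact hn (by linarith)

/-- the line `t3 t2` and the arm `b` -/
theorem c6b (hM : M ≠ 0) (σ ρ : ℚ) (hκ0 : κ ≠ 0) (E : ℤ) (hE : E ≠ 0) :
    ∀ᶠ G : ℤ in cofinite, ∀ n k : ℤ, (n : ℚ) / M ≠ 1 → k ≠ 0 → n ≠ 0 →
      cq (k * E) ((1 - k) * G) 0 (σ * G + ρ) (n / M * (κ * E)) (1 + n / M * ((1 - κ) * G - 1)) →
      ((k : ℚ) = κ * (1 - σ) ∧ (n / M) * (1 - σ - ρ) = (1 - σ) * (1 - ρ - σ * G)) ∨
      ((n : ℚ) / M = σ ∧ k * (1 - ρ - σ) = κ * σ * ((1 - σ) * G - ρ)) ∨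
      (σ + ρ = 1 ∧ (k - κ * (1 - σ)) * (n / M - σ) = κ * σ * (1 - σ)) := by
  have hEq : (E : ℚ) ≠ 0 := by exact_mod_cast hE
  have ha : (-1 : ℚ) / M ≠ 0 := div_ne_zero (by norm_num) hM
  filter_upwards [blQ (-1 / M) ((1 - σ) * κ / M) σ 0 (1 / M) (-(ρ * κ / M)) (ρ - 1) 0 ha]
    with G hG n k hn hk hn0 hc
  unfold cq at hc
  have hkq : (k : ℚ) ≠ 0 := by exact_mod_cast hk
  have h0 : (-1 / M * n * k + (1 - σ) * κ / M * n + σ * k + 0) * (G : ℚ) +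
      (1 / M * n * k + -(ρ * κ / M) * n + (ρ - 1) * k + 0) = 0 := by
    apply mul_left_cancel₀ hEq
    linear_combination hc
  by_cases hu : -1 / M * (k : ℚ) + (1 - σ) * κ / M = 0
  · left
    have hk' : (k : ℚ) = κ * (1 - σ) := by
      have : (-(k : ℚ) + (1 - σ) * κ) / M = 0 := by linear_combination hu
      have := (div_eq_zero_iff.mp this).resolve_right hM
      linarith
    refine ⟨hk', ?_⟩
    have h1 : κ * ((n / M) * (1 - σ - ρ) - (1 - σ) * (1 - ρ - σ * G)) = 0 := by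
      linear_combination h0 - (G : ℚ) * n * hu + (-(σ * G) - ρ + 1 - n / M) * hk'
    rcases mul_eq_zero.mp h1 with h | h
    · exact absurd h hκ0
    · linarith
  by_cases hv : -1 / M * (n : ℚ) + σ = 0
  · right; left
    have hr : (n : ℚ) / M = σ := by linear_combination -hv
    refine ⟨hr, ?_⟩
    linear_combination -h0 + (G : ℚ) * k * hv + (((1 - σ) * κ * G) - ρ * κ + k) * hr
  right; right
  obtain ⟨h1, h2⟩ := hG n k hu hv h0
  have h3 : (1 - ρ - σ) * (k - κ * (n / M)) = 0 := by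
    linear_combination -h1 - h2
  rcases mul_eq_zero.mp h3 with h | h
  · refine ⟨by linarith, ?_⟩
    linear_combination -h1
  · exfalso
    have h5 : (k : ℚ) * (1 - n / M) = 0 := by linear_combination h1 + (1 - σ) * h
    rcases mul_eq_zero.mp h5 with h | h
    · exact hkq h
    · exact hn (by linarith)

/-- the line `t3 t2` misses the arm `a` -/
theorem c6a (hM : M ≠ 0) (hκ1 : κ ≠ 1) (σ ρ : ℚ) (hρ : ρ ≠ 0) :
    ∀ᶠ E : ℤ in cofinite, ∀ᶠ G : ℤ in cofinite, ∀ n k : ℤ, (n : ℚ) / M ≠ 1 → k ≠ 0 →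
      ¬ cq (k * E) ((1 - k) * G) 0 (σ * G + ρ) (1 + n / M * (κ * E - 1))
        (n / M * ((1 - κ) * G)) := by
  have hM1 : (-1 : ℚ) / M ≠ 0 := div_ne_zero (by norm_num) hM
  filter_upwards [linQ (-1) ((1 - σ) * κ) 1 (-(1 - σ)) (by norm_num),
    linQ (-1 / M) σ (1 / M) (-1) hM1, evQ 1] with E e1 e2 e4
  have hE1 : (E : ℚ) - 1 ≠ 0 := by
    intro h
    have : (E : ℚ) = 1 := by linarith
    rw [this, abs_one] at e4
    exact lt_irrefl _ e4
  have hE0 : (E : ℚ) ≠ 0 := by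
    intro h
    rw [h, abs_zero] at e4
    linarith
  have ha : -((E : ℚ) - 1) / M ≠ 0 := div_ne_zero (neg_ne_zero.mpr hE1) hM
  filter_upwards [blQ (-((E : ℚ) - 1) / M) ((1 - σ) * (κ * E - 1) / M) (σ * E - 1) (1 - σ) 0
    (-(ρ * (κ * E - 1) / M)) (ρ * E) (-ρ) ha] with G hG n k hn hk hc
  unfold cq at hc
  have hkq : (k : ℚ) ≠ 0 := by exact_mod_cast hk
  have hu : -((E : ℚ) - 1) / M * k + (1 - σ) * (κ * E - 1) / M ≠ 0 := by
    intro h
    have h' : -((E : ℚ) - 1) * k + (1 - σ) * (κ * E - 1) = 0 := by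
      have : (-((E : ℚ) - 1) * k + (1 - σ) * (κ * E - 1)) / M = 0 := by linear_combination h
      exact (div_eq_zero_iff.mp this).resolve_right hM
    obtain ⟨h1, h2⟩ := e1 k (by linear_combination h')
    have h3 : (1 - σ) * (κ - 1) = 0 := by linear_combination h1 + h2
    rcases mul_eq_zero.mp h3 with h | h
    · rw [h] at h2
      apply hkq
      linarith
    · exact hκ1 (by linarith)
  have hv : -((E : ℚ) - 1) / M * n + (σ * E - 1) ≠ 0 := by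
    intro h
    obtain ⟨_, h2⟩ := e2 n (by linear_combination h)
    apply hn
    linear_combination h2
  obtain ⟨h1, h2⟩ := hG n k hu hv (by linear_combination hc)
  have h3 : ρ * (k * E - 1 - n / M * (κ * E - 1)) = 0 := by linear_combination h2
  have h4 := (mul_eq_zero.mp h3).resolve_left hρ
  have h5 : (E : ℚ) * (k * (1 - k - n / M * (1 - κ))) = 0 := by
    linear_combination h1 - (σ - 1 + k) * h4
  have h6 := (mul_eq_zero.mp ((mul_eq_zero.mp h5).resolve_left hE0)).resolve_left hkq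
  have h7 : ((E : ℚ) - 1) * (1 - n / M) = 0 := by linear_combination h4 + E * h6
  rcases mul_eq_zero.mp h7 with h | h
  · exact hE1 h
  · exact hn (by linarith)

/-- `t2 = (0, τ G)`: the line `t3 t2` and the arm `c` -/
theorem c6cT {E G : ℤ} (hG : G ≠ 0) (hE : E ≠ 0) {τ r k : ℚ}
    (hc : cq (k * E) ((1 - k) * G) 0 (τ * G) (r * (κ * E)) (r * ((1 - κ) * G))) :
    r * (k - (1 - τ) * κ) = τ * k := by
  unfold cq at hc
  have hGq : (G : ℚ) ≠ 0 := by exact_mod_cast hG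
  have hEq : (E : ℚ) ≠ 0 := by exact_mod_cast hE
  apply mul_left_cancel₀ (mul_ne_zero hGq hEq)
  linear_combination -hc

/-- `t2 = (0, τ G)`: the line `t3 t2` and the arm `b` -/
theorem c6bT (hM : M ≠ 0) (τ : ℚ) (hτ : τ ≠ 1) (E : ℤ) (hE : E ≠ 0) :
    ∀ᶠ G : ℤ in cofinite, ∀ n k : ℤ, (n : ℚ) / M ≠ 1 → k ≠ 0 →
      cq (k * E) ((1 - k) * G) 0 (τ * G) (n / M * (κ * E)) (1 + n / M * ((1 - κ) * G - 1)) →
      (k : ℚ) = κ * (1 - τ) ∨ (k : ℚ) = κ * τ * G := by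
  have hEq : (E : ℚ) ≠ 0 := by exact_mod_cast hE
  have ha : (-1 : ℚ) / M ≠ 0 := div_ne_zero (by norm_num) hM
  filter_upwards [blQ (-1 / M) ((1 - τ) * κ / M) τ 0 (1 / M) 0 (-1) 0 ha]
    with G hG n k hn hk hc
  unfold cq at hc
  have hkq : (k : ℚ) ≠ 0 := by exact_mod_cast hk
  have h0 : (-1 / M * n * k + (1 - τ) * κ / M * n + τ * k + 0) * (G : ℚ) +
      (1 / M * n * k + 0 * n + -1 * k + 0) = 0 := by
    apply mul_left_cancel₀ hEq
    linear_combination hc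
  by_cases hu : -1 / M * (k : ℚ) + (1 - τ) * κ / M = 0
  · left
    have : (-(k : ℚ) + (1 - τ) * κ) / M = 0 := by linear_combination hu
    have := (div_eq_zero_iff.mp this).resolve_right hM
    linarith
  by_cases hv : -1 / M * (n : ℚ) + τ = 0
  · right
    have hr : (n : ℚ) / M = τ := by linear_combination -hv
    apply mul_left_cancel₀ (sub_ne_zero.mpr hτ.symm)
    linear_combination -h0 + (G : ℚ) * k * hv + (((1 - τ) * κ * G) + k) * hr
  exfalso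
  obtain ⟨_, h2⟩ := hG n k hu hv h0
  have h5 : (k : ℚ) * (n / M - 1) = 0 := by linear_combination h2
  rcases mul_eq_zero.mp h5 with h | h
  · exact hkq h
  · exact hn (by linarith)

end

end Pool.Agent.K4L
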