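import Pool.Agent.K4L.K3UF3

/-!
# K3U, the kill `f` on `g e`: resolution of the cases
-/

namespace Pool.Agent.K4L

open Filter

/-- the line `t3 t` contains the point with index `r` of the arm from `(v1, 0)` -/
def Teq (κ E τ v1 r k : ℚ) : Prop :=
  r * (k * (E - v1) - (κ * E - v1 + τ * (1 - κ))) = (τ - v1) * (k - 1)

section
variable {κ M : ℚ}

/-- `t3 t` on the arm `c`, all `k` -/
theorem tc_all (hM : M ≠ 0) (hκ1 : κ ≠ 1) (μ c0 : ℚ) (hc0 : c0 ≠ 0) :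
    ∀ᶠ E : ℤ in cofinite, ∀ n k : ℤ, n ≠ 0 → (n : ℚ) / M ≠ 1 →
      Teq κ E (μ * E + c0) 0 (n / M) k →
      (k : ℚ) = κ + μ * (1 - κ) ∨
        ((n : ℚ) / M = μ ∧ c0 * (k - 1) = μ * (1 - κ) * ((1 - μ) * E - c0)) := by
  have hM1 : (1 : ℚ) / M ≠ 0 := div_ne_zero one_ne_zero hM
  filter_upwards [blQ (1 / M) (-((κ + μ * (1 - κ)) / M)) (-μ) μ 0 (-(c0 * (1 - κ) / M)) (-c0) c0
    hM1] with E hE n k hn hn1 hT
  unfold Teq at hT
  by_cases hu : 1 / M * (k : ℚ) + -((κ + μ * (1 - κ)) / M) = 0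
  · left
    have h : ((k : ℚ) - (κ + μ * (1 - κ))) / M = 0 := by linear_combination hu
    have := (div_eq_zero_iff.mp h).resolve_right hM
    linarith
  by_cases hv : 1 / M * (n : ℚ) + -μ = 0
  · right
    have hr : (n : ℚ) / M = μ := by linear_combination hv
    refine ⟨hr, ?_⟩
    rw [hr] at hT
    linear_combination -hT
  exfalso
  obtain ⟨h1, h2⟩ := hE n k hu hv (by linear_combination hT)
  obtain ⟨r, hrd⟩ : ∃ r : ℚ, r = n / M := ⟨_, rfl⟩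
  have h3 : c0 * (r * (1 - κ) + (k - 1)) = 0 := by rw [hrd]; linear_combination -h2
  have h4 := (mul_eq_zero.mp h3).resolve_left hc0
  have h5 : r * (1 - κ) * (1 - r) = 0 := by
    have : (k - 1) * (r - μ) + r * (1 - κ) * (1 - μ) = 0 := by rw [hrd]; linear_combination h1
    linear_combination this - (r - μ) * h4
  rw [← hrd] at hn1
  have hr0 : r ≠ 0 := by rw [hrd]; exact div_ne hn hM
  rcases mul_eq_zero.mp h5 with h | h
  · rcases mul_eq_zero.mp h with h | h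
    · exact hr0 h
    · exact hκ1 (by linarith)
  · exact hn1 (by linarith)

/-- case (i): `t3 t` misses the arm `c` -/
theorem tc_i (hM : M ≠ 0) (hκ1 : κ ≠ 1) (μ c0 σ : ℚ) (hc0 : c0 ≠ 0)
    (hk2 : μ * (1 - κ) + σ * κ ≠ 0) :
    ∀ᶠ E : ℤ in cofinite, ∀ n k : ℤ, n ≠ 0 → (n : ℚ) / M ≠ 1 → (k : ℚ) = κ * (1 - σ) →
      ¬ Teq κ E (μ * E + c0) 0 (n / M) k := by
  have hA : -(μ * (1 - κ) + σ * κ) / M ≠ 0 := div_ne_zero (neg_ne_zero.mpr hk2) hM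
  filter_upwards [linQ (-(μ * (1 - κ) + σ * κ) / M) (-(μ * (κ * (1 - σ) - 1)))
    (-(c0 * (1 - κ) / M)) (-(c0 * (κ * (1 - σ) - 1))) hA] with E hE n k hn hn1 hk hT
  unfold Teq at hT
  rw [hk] at hT
  obtain ⟨h1, h2⟩ := hE n (by linear_combination hT)
  obtain ⟨r, hrd⟩ : ∃ r : ℚ, r = n / M := ⟨_, rfl⟩
  have h3 : c0 * (r * (1 - κ) + (κ * (1 - σ) - 1)) = 0 := by rw [hrd]; linear_combination -h2
  have h4 := (mul_eq_zero.mp h3).resolve_left hc0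
  have h1' : r * (κ * (1 - σ) - κ - μ * (1 - κ)) - μ * (κ * (1 - σ) - 1) = 0 := by
    rw [hrd]; linear_combination h1
  have h5 : r * (1 - κ) * (1 - r) = 0 := by
    linear_combination h1' - (r - μ) * h4
  rw [← hrd] at hn1
  have hr0 : r ≠ 0 := by rw [hrd]; exact div_ne hn hM
  rcases mul_eq_zero.mp h5 with h | h
  · rcases mul_eq_zero.mp h with h | h
    · exact hr0 h
    · exact hκ1 (by linarith)
  · exact hn1 (by linarith)

/-- case (ii): `t3 t` on the arm `c` -/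
theorem tc_ii (hM : M ≠ 0) (hκ0 : κ ≠ 0) (hκ1 : κ ≠ 1) (μ c0 σ : ℚ) (hc0 : c0 ≠ 0)
    (hμ : μ ≠ 0) (hσ : σ ≠ 0) (hσ1 : σ ≠ 1) :
    ∀ᶠ E : ℤ in cofinite, ∀ n k n' : ℤ, n ≠ 0 → (n : ℚ) / M ≠ 1 → (k : ℚ) ≠ κ →
      (k - κ * (1 - σ)) * (n' / M - σ) = κ * σ * (1 - σ) →
      Teq κ E (μ * E + c0) 0 (n / M) k → (k : ℚ) = κ + μ * (1 - κ) := by
  have hne : κ * σ * (1 - σ) ≠ 0 :=
    mul_ne_zero (mul_ne_zero hκ0 hσ) (sub_ne_zero.mpr hσ1.symm)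
  by_cases hμ1 : μ = 1
  · filter_upwards [tc_all hM hκ1 μ c0 hc0] with E hE n k n' hn hn1 hk hh hT
    rcases hE n k hn hn1 hT with h | ⟨_, h⟩
    · exact h
    · exfalso
      rw [hμ1] at h
      apply hk
      have : c0 * (k - κ) = 0 := by linear_combination h
      rcases mul_eq_zero.mp this with h | h
      · exact absurd h hc0
      · linarith
  · have hA0 : μ * (1 - κ) * (1 - μ) / c0 ≠ 0 :=
      div_ne_zero (mul_ne_zero (mul_ne_zero hμ (sub_ne_zero.mpr hκ1.symm))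
        (sub_ne_zero.mpr (Ne.symm hμ1))) hc0
    obtain ⟨A, hAd⟩ : ∃ A : ℚ, A = μ * (1 - κ) * (1 - μ) / c0 := ⟨_, rfl⟩
    rw [← hAd] at hA0
    have hA : A / M ≠ 0 := div_ne_zero hA0 hM
    obtain ⟨B, hBd⟩ : ∃ B : ℚ, B = 1 - μ * (1 - κ) - κ * (1 - σ) := ⟨_, rfl⟩
    filter_upwards [tc_all hM hκ1 μ c0 hc0, linQ (A / M) (-(A * σ)) (B / M)
      (-(B * σ) - κ * σ * (1 - σ)) hA] with E hE hL n k n' hn hn1 hk hh hT
    rcases hE n k hn hn1 hT with h | ⟨_, h⟩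
    · exact h
    · exfalso
      have hk' : (k : ℚ) = A * E + (1 - μ * (1 - κ)) := by
        rw [hAd]
        apply mul_left_cancel₀ hc0
        field_simp
        linear_combination h
      rw [hk'] at hh
      obtain ⟨h1, h2⟩ := hL n' (by rw [hBd]; linear_combination hh)
      have h3 : A * (n' / M - σ) = 0 := by linear_combination h1
      have h4 := (mul_eq_zero.mp h3).resolve_left hA0
      apply hne
      linear_combination -h2 + B * h4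

/-- case (iii): `t3 t` misses the arm `c` -/
theorem tc_iii (hM : M ≠ 0) (hκ0 : κ ≠ 0) (hκ1 : κ ≠ 1) (σ ρ τ : ℚ) (E : ℤ) (hE : E ≠ 0)
    (hτ : τ ≠ 0) (hσ : σ ≠ 0) (hσ1 : σ ≠ 1) (hσρ : 1 - ρ - σ ≠ 0) :
    ∀ᶠ G : ℤ in cofinite, ∀ n k : ℤ, (n : ℚ) / M ≠ 1 →
      k * (1 - ρ - σ) = κ * σ * ((1 - σ) * G - ρ) → ¬ Teq κ E τ 0 (n / M) k := by
  have hEq : (E : ℚ) ≠ 0 := by exact_mod_cast hE
  obtain ⟨A, hAd⟩ : ∃ A : ℚ, A = κ * σ * (1 - σ) := ⟨_, rfl⟩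
  have hA0 : A ≠ 0 := by
    rw [hAd]; exact mul_ne_zero (mul_ne_zero hκ0 hσ) (sub_ne_zero.mpr hσ1.symm)
  obtain ⟨w, hw⟩ : ∃ w : ℚ, w = 1 - ρ - σ := ⟨_, rfl⟩
  rw [← hw] at hσρ
  have hA : A * E / M ≠ 0 := div_ne_zero (mul_ne_zero hA0 hEq) hM
  filter_upwards [linQ (A * E / M) (-(A * τ))
    ((-(κ * σ * ρ) * E - w * (κ * E + τ * (1 - κ))) / M) (κ * σ * ρ * τ + w * τ) hA]
    with G hG n k hn1 hk hT
  unfold Teq at hT
  rw [← hw] at hk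
  obtain ⟨h1, h2⟩ := hG n (by
    rw [hAd]
    linear_combination w * hT - (n / M * E - τ) * hk)
  obtain ⟨r, hrd⟩ : ∃ r : ℚ, r = n / M := ⟨_, rfl⟩
  have h3 : A * (r * E - τ) = 0 := by rw [hrd]; linear_combination h1
  have h4 := (mul_eq_zero.mp h3).resolve_left hA0
  have h2' : -(κ * σ * ρ) * (r * E - τ) - w * (r * (κ * E + τ * (1 - κ)) - τ) = 0 := by
    rw [hrd]; linear_combination h2
  rw [h4, mul_zero, zero_sub, neg_eq_zero] at h2'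
  have h5 := (mul_eq_zero.mp h2').resolve_left hσρ
  have h6 : τ * (1 - κ) * (1 - r) = 0 := by linear_combination κ * h4 - h5
  rcases mul_eq_zero.mp h6 with h | h
  · rcases mul_eq_zero.mp h with h | h
    · exact hτ h
    · exact hκ1 (by linarith)
  · apply hn1
    rw [← hrd]
    linarith

/-- case (i): `t3 t` on the arm `a` -/
theorem ta_i (hM : M ≠ 0) (hκ1 : κ ≠ 1) (μ c0 σ : ℚ)
    (hk2 : μ * (1 - κ) + σ * κ ≠ 0) :
    ∀ᶠ E : ℤ in cofinite, ∀ n k : ℤ, n ≠ 0 → (n : ℚ) / M ≠ 1 → (k : ℚ) = κ * (1 - σ) →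
      Teq κ E (μ * E + c0) 1 (n / M) k →
      c0 = 1 - μ ∧ n / M * (κ * (σ - μ) + μ) = μ * (1 - κ * (1 - σ)) := by
  have hA : -(μ * (1 - κ) + σ * κ) / M ≠ 0 := div_ne_zero (neg_ne_zero.mpr hk2) hM
  filter_upwards [linQ (-(μ * (1 - κ) + σ * κ) / M) (-(μ * (κ * (1 - σ) - 1)))
    ((1 - κ * (1 - σ) - c0 * (1 - κ)) / M) (-((c0 - 1) * (κ * (1 - σ) - 1))) hA]
    with E hE n k hn hn1 hk hT
  unfold Teq at hT
  rw [hk] at hT
  obtain ⟨h1, h2⟩ := hE n (by linear_combination hT)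
  obtain ⟨r, hrd⟩ : ∃ r : ℚ, r = n / M := ⟨_, rfl⟩
  have h1' : r * (κ * (1 - σ) - κ - μ * (1 - κ)) - μ * (κ * (1 - σ) - 1) = 0 := by
    rw [hrd]; linear_combination h1
  have h2' : r * (1 - κ * (1 - σ) - c0 * (1 - κ)) - (c0 - 1) * (κ * (1 - σ) - 1) = 0 := by
    rw [hrd]; linear_combination h2
  rw [← hrd] at hn1 ⊢
  have hr0 : r ≠ 0 := by rw [hrd]; exact div_ne hn hM
  have h3 : (1 - μ - c0) * (r * (1 - κ) + (κ * (1 - σ) - 1)) = 0 := by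
    linear_combination h1' + h2'
  rcases mul_eq_zero.mp h3 with h | h
  · exact ⟨by linarith, by linear_combination -h1'⟩
  · exfalso
    have h5 : r * (1 - κ) * (1 - r) = 0 := by
      linear_combination h1' - (r - μ) * h
    rcases mul_eq_zero.mp h5 with h | h
    · rcases mul_eq_zero.mp h with h | h
      · exact hr0 h
      · exact hκ1 (by linarith)
    · exact hn1 (by linarith)

end

/-- `κ`-level, case (i): `σ = μ` -/
theorem kap_i (N : ℤ) (hN : N ≠ 0) (μ σ : ℚ) (hμ : μ ≠ 0) (hμ1 : μ ≠ 1) (hσ : σ ≠ 0)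
    (hne : σ ≠ μ) : ∀ᶠ κ : ℤ in cofinite, ∀ n : ℤ,
      (n : ℚ) / (N * κ * (1 - κ)) * (κ * (σ - μ) + μ) ≠ μ * (1 - κ * (1 - σ)) := by
  have hNq : (N : ℚ) ≠ 0 := by exact_mod_cast hN
  have hR : -(N * μ * (1 - σ) * μ * μ * μ) + (-(N * μ * (2 - σ))) * (σ - μ) * μ * μ -
      (N * μ) * (σ - μ) * (σ - μ) * μ + 0 * (σ - μ) * (σ - μ) * (σ - μ) ≠ 0 := by
    have e : -(N * μ * (1 - σ) * μ * μ * μ) + (-(N * μ * (2 - σ))) * (σ - μ) * μ * μ -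
      (N * μ) * (σ - μ) * (σ - μ) * μ + 0 * (σ - μ) * (σ - μ) * (σ - μ) =
      -(N * μ * μ * σ * σ * (1 - μ)) := by ring
    rw [e]
    exact neg_ne_zero.mpr (mul_ne_zero (mul_ne_zero (mul_ne_zero (mul_ne_zero
      (mul_ne_zero hNq hμ) hμ) hσ) hσ) (sub_ne_zero.mpr hμ1.symm))
  filter_upwards [divQ (σ - μ) μ (N * μ * (1 - σ)) (-(N * μ * (2 - σ))) (N * μ) 0
    (sub_ne_zero.mpr hne) hR, lneQ 1 0 (Or.inl one_ne_zero), lneQ 1 (-1) (Or.inl one_ne_zero)]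
    with κ hκ h0 h1 n hc
  have h0' : (κ : ℚ) ≠ 0 := fun h => h0 (by rw [h]; ring)
  have h1' : 1 - (κ : ℚ) ≠ 0 := fun h => h1 (by linear_combination -h)
  apply hκ n
  have h2 : (N : ℚ) * κ * (1 - κ) ≠ 0 := mul_ne_zero (mul_ne_zero hNq h0') h1'
  rw [div_mul_eq_mul_div, div_eq_iff h2] at hc
  linear_combination hc

/-- `κ`-level, case (ii): `σ = μ` -/
theorem kap_ii (N : ℤ) (hN : N ≠ 0) (μ σ : ℚ) (hμ : μ ≠ 0) (hσ1 : σ ≠ 1) (hσ : σ ≠ 0)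
    (hne : σ ≠ μ) : ∀ᶠ κ : ℤ in cofinite, ∀ n : ℤ,
      (κ + μ * (1 - κ) - κ * (1 - σ)) * ((n : ℚ) / (N * κ * (1 - κ)) - σ) ≠
        κ * σ * (1 - σ) := by
  have hNq : (N : ℚ) ≠ 0 := by exact_mod_cast hN
  have hR : -((-(N * σ * (1 - μ))) * μ * μ * μ) + (N * σ * (1 - 2 * μ)) * (σ - μ) * μ * μ -
      (N * σ * μ) * (σ - μ) * (σ - μ) * μ + 0 * (σ - μ) * (σ - μ) * (σ - μ) ≠ 0 := by
    have e : -((-(N * σ * (1 - μ))) * μ * μ * μ) + (N * σ * (1 - 2 * μ)) * (σ - μ) * μ * μ -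
      (N * σ * μ) * (σ - μ) * (σ - μ) * μ + 0 * (σ - μ) * (σ - μ) * (σ - μ) =
      N * σ * μ * μ * (σ * (1 - σ)) := by ring
    rw [e]
    exact mul_ne_zero (mul_ne_zero (mul_ne_zero (mul_ne_zero hNq hσ) hμ) hμ)
      (mul_ne_zero hσ (sub_ne_zero.mpr hσ1.symm))
  filter_upwards [divQ (σ - μ) μ (-(N * σ * (1 - μ))) (N * σ * (1 - 2 * μ)) (N * σ * μ) 0
    (sub_ne_zero.mpr hne) hR, lneQ 1 0 (Or.inl one_ne_zero), lneQ 1 (-1) (Or.inl one_ne_zero)]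
    with κ hκ h0 h1 n hc
  have h0' : (κ : ℚ) ≠ 0 := fun h => h0 (by rw [h]; ring)
  have h1' : 1 - (κ : ℚ) ≠ 0 := fun h => h1 (by linear_combination -h)
  apply hκ n
  have h2 : (N : ℚ) * κ * (1 - κ) ≠ 0 := mul_ne_zero (mul_ne_zero hNq h0') h1'
  have h3 : (n : ℚ) = n / (N * κ * (1 - κ)) * (N * κ * (1 - κ)) := by
    rw [div_mul_cancel₀ _ h2]
  obtain ⟨r, hr⟩ : ∃ r : ℚ, r = n / (N * κ * (1 - κ)) := ⟨_, rfl⟩
  rw [← hr] at h3 hc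
  rw [h3]
  linear_combination (N * κ * (1 - κ)) * hc

end Pool.Agent.K4L
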