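import Pool.Agent.K4L.K3UF4

/-!
# K3U, the kill `f` on `g e`: rational coordinates of lattice points, the lines without hits
-/

namespace Pool.Agent.K4L

open Filter

/-- the rational coordinates in the frame `c = 0`, `a = (1,0)`, `b = (0,1)` -/
def nx (α b1 b2 : ℤ) (z : Pt) : ℚ := ((b2 : ℚ) * z.1 - b1 * z.2) / (b2 * α)

/-- the second rational coordinate -/
def ny (b2 : ℤ) (z : Pt) : ℚ := (z.2 : ℚ) / b2

section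
variable {α b1 b2 : ℤ}

theorem n_2 (hb2 : b2 ≠ 0) (z : Pt) : (z.2 : ℚ) = b2 * ny b2 z := by
  unfold ny
  have : (b2 : ℚ) ≠ 0 := by exact_mod_cast hb2
  field_simp

theorem n_X (hα : α ≠ 0) (hb2 : b2 ≠ 0) (z : Pt) :
    (b2 : ℚ) * z.1 - b1 * z.2 = b2 * α * nx α b1 b2 z := by
  unfold nx
  have h1 : (b2 : ℚ) ≠ 0 := by exact_mod_cast hb2
  have h2 : (α : ℚ) ≠ 0 := by exact_mod_cast hα
  field_simp

theorem n_1 (hα : α ≠ 0) (hb2 : b2 ≠ 0) (z : Pt) :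
    (z.1 : ℚ) = α * nx α b1 b2 z + b1 * ny b2 z := by
  have h1 : (b2 : ℚ) ≠ 0 := by exact_mod_cast hb2
  apply mul_left_cancel₀ h1
  have := n_X (b1 := b1) hα hb2 z
  have h2 := n_2 hb2 z
  linear_combination this + (b1 : ℚ) * h2

theorem n_ext (hα : α ≠ 0) (hb2 : b2 ≠ 0) {u v : Pt} (h1 : nx α b1 b2 u = nx α b1 b2 v)
    (h2 : ny b2 u = ny b2 v) : u = v := by
  refine Prod.ext ?_ ?_
  · have : (u.1 : ℚ) = v.1 := by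
      rw [n_1 (b1 := b1) hα hb2 u, n_1 (b1 := b1) hα hb2 v, h1, h2]
    exact_mod_cast this
  · have : (u.2 : ℚ) = v.2 := by rw [n_2 hb2 u, n_2 hb2 v, h2]
    exact_mod_cast this

/-- the cross product in rational coordinates -/
theorem n_cr (hα : α ≠ 0) (hb2 : b2 ≠ 0) (u v w : Pt) :
    ((cr3 u v w : ℤ) : ℚ) = α * b2 * ((nx α b1 b2 v - nx α b1 b2 u) * (ny b2 w - ny b2 u) -
      (ny b2 v - ny b2 u) * (nx α b1 b2 w - nx α b1 b2 u)) := by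
  unfold cr3
  push_cast
  rw [n_1 (b1 := b1) hα hb2 u, n_1 (b1 := b1) hα hb2 v, n_1 (b1 := b1) hα hb2 w,
    n_2 hb2 u, n_2 hb2 v, n_2 hb2 w]
  ring

theorem n_col (hα : α ≠ 0) (hb2 : b2 ≠ 0) (u v w : Pt) : Col u v w ↔
    cq (nx α b1 b2 u) (ny b2 u) (nx α b1 b2 v) (ny b2 v) (nx α b1 b2 w) (ny b2 w) := by
  rw [col_iff_cr3]
  have h1 : (α : ℚ) * b2 ≠ 0 := mul_ne_zero (by exact_mod_cast hα) (by exact_mod_cast hb2)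
  unfold cq
  constructor
  · intro h
    have h2 : ((cr3 u v w : ℤ) : ℚ) = 0 := by rw [h]; rfl
    rw [n_cr (b1 := b1) hα hb2] at h2
    have := (mul_eq_zero.mp h2).resolve_left h1
    linarith
  · intro h
    have h2 : ((cr3 u v w : ℤ) : ℚ) = 0 := by
      rw [n_cr (b1 := b1) hα hb2, h, sub_self, mul_zero]
    exact_mod_cast h2

theorem nx_c : nx α b1 b2 (0, 0) = 0 := by unfold nx; simp
theorem ny_c : ny b2 (0, 0) = 0 := by unfold ny; simp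
theorem ny_r (T : ℤ) : ny b2 (T, 0) = 0 := by unfold ny; simp

theorem nx_r (hb2 : b2 ≠ 0) (T : ℤ) : nx α b1 b2 (T, 0) = T / α := by
  unfold nx
  have h1 : (b2 : ℚ) ≠ 0 := by exact_mod_cast hb2
  simp only [Int.cast_zero, mul_zero, sub_zero]
  rw [mul_div_mul_left _ _ h1]

theorem nx_a (hα : α ≠ 0) (hb2 : b2 ≠ 0) : nx α b1 b2 (α, 0) = 1 := by
  rw [nx_r hb2]
  exact div_self (by exact_mod_cast hα)

theorem nx_e (hα : α ≠ 0) (hb2 : b2 ≠ 0) (p : ℤ) : nx α b1 b2 (α * p, 0) = p := by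
  rw [nx_r hb2]
  push_cast
  rw [mul_comm, mul_div_assoc, div_self (by exact_mod_cast hα), mul_one]

theorem nx_b : nx α b1 b2 (b1, b2) = 0 := by
  unfold nx; simp only; rw [mul_comm (b2 : ℚ), sub_self, zero_div]

theorem ny_b (hb2 : b2 ≠ 0) : ny b2 (b1, b2) = 1 := by
  unfold ny; exact div_self (by exact_mod_cast hb2)

theorem nx_g (G : ℤ) : nx α b1 b2 (G * b1, G * b2) = 0 := by
  unfold nx
  simp only
  push_cast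
  have : (b2 : ℚ) * (G * b1) - b1 * (G * b2) = 0 := by ring
  rw [this, zero_div]

theorem ny_g (hb2 : b2 ≠ 0) (G : ℤ) : ny b2 (G * b1, G * b2) = G := by
  unfold ny
  simp only
  push_cast
  exact mul_div_cancel_right₀ _ (by exact_mod_cast hb2)

/-- a point of `c b` -/
theorem nx_cb {t2 : Pt} (h : t2.1 * b2 = t2.2 * b1) : nx α b1 b2 t2 = 0 := by
  unfold nx
  have : (b2 : ℚ) * t2.1 - b1 * t2.2 = 0 := by
    have h' : ((t2.1 * b2 : ℤ) : ℚ) = ((t2.2 * b1 : ℤ) : ℚ) := by rw [h]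
    push_cast at h'
    linarith
  rw [this, zero_div]

end

/-- the point `g + k (e - g)` -/
def Pf (G b1 b2 ε k : ℤ) : Pt := (G * b1 + k * (ε - G * b1), (1 - k) * (G * b2))

theorem nx_f {α b1 b2 : ℤ} (hα : α ≠ 0) (hb2 : b2 ≠ 0) (G p k : ℤ) :
    nx α b1 b2 (Pf G b1 b2 (α * p) k) = k * p := by
  unfold nx Pf
  have h1 : (b2 : ℚ) ≠ 0 := by exact_mod_cast hb2
  have h2 : (α : ℚ) ≠ 0 := by exact_mod_cast hα
  push_cast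
  field_simp
  ring

theorem ny_f {b1 b2 : ℤ} (hb2 : b2 ≠ 0) (G ε k : ℤ) :
    ny b2 (Pf G b1 b2 ε k) = (1 - k) * G := by
  unfold ny Pf
  have h1 : (b2 : ℚ) ≠ 0 := by exact_mod_cast hb2
  push_cast
  field_simp

/-- the lines with at least one near stone, and `t2 t`, miss the arm `v f` -/
structure NoHit (B : Finset Pt) (α b1 b2 : ℤ) (κ : ℤ) (M : ℚ) (E G : ℤ) (τ τ2 v1 v2 : ℚ) :
    Prop where
  nn : ∀ u ∈ B, ∀ v ∈ B, u ≠ v → ∀ n : ℤ, n ≠ 0 →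
    ¬ cq (nx α b1 b2 u) (ny b2 u) (nx α b1 b2 v) (ny b2 v) (v1 + n / M * (κ * E - v1))
      (v2 + n / M * ((1 - κ) * G - v2))
  tn : ∀ u ∈ B, ∀ n : ℤ, n ≠ 0 →
    ¬ cq τ 0 (nx α b1 b2 u) (ny b2 u) (v1 + n / M * (κ * E - v1))
      (v2 + n / M * ((1 - κ) * G - v2))
  t2n : ∀ u ∈ B, ∀ n : ℤ, n ≠ 0 →
    ¬ cq 0 τ2 (nx α b1 b2 u) (ny b2 u) (v1 + n / M * (κ * E - v1))
      (v2 + n / M * ((1 - κ) * G - v2))
  t2t : ∀ n : ℤ, n ≠ 0 → (n : ℚ) / M ≠ 1 →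
    ¬ cq 0 τ2 τ 0 (v1 + n / M * (κ * E - v1)) (v2 + n / M * ((1 - κ) * G - v2))
  t3n : ∀ u ∈ B, ∀ n : ℤ, n ≠ 0 → ∀ k : ℤ, k ≠ κ →
    ¬ cq (k * E) ((1 - k) * G) (nx α b1 b2 u) (ny b2 u) (v1 + n / M * (κ * E - v1))
      (v2 + n / M * ((1 - κ) * G - v2))

/-- the hits of one arm which do not use `t2` -/
theorem ev_nohit_aux (B : Finset Pt) (α b1 b2 : ℤ) (hα : α ≠ 0) (hb2 : b2 ≠ 0) {κ : ℤ} {M : ℚ}
    (hM : M ≠ 0) (hκ0 : κ ≠ 0) (hκ1 : κ ≠ 1) (v1 v2 μ c0 : ℚ) (hμ : μ ≠ 0) :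
    ∀ᶠ E : ℤ in cofinite, ∀ᶠ G : ℤ in cofinite,
    (∀ u ∈ B, ∀ v ∈ B, u ≠ v → ∀ n : ℤ, n ≠ 0 →
    ¬ cq (nx α b1 b2 u) (ny b2 u) (nx α b1 b2 v) (ny b2 v) (v1 + n / M * (κ * E - v1))
      (v2 + n / M * ((1 - κ) * G - v2))) ∧
    (∀ u ∈ B, ∀ n : ℤ, n ≠ 0 →
    ¬ cq (μ * E + c0) 0 (nx α b1 b2 u) (ny b2 u) (v1 + n / M * (κ * E - v1))
      (v2 + n / M * ((1 - κ) * G - v2))) ∧
    (∀ u ∈ B, ∀ n : ℤ, n ≠ 0 → ∀ k : ℤ, k ≠ κ →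
    ¬ cq (k * E) ((1 - k) * G) (nx α b1 b2 u) (ny b2 u) (v1 + n / M * (κ * E - v1))
      (v2 + n / M * ((1 - κ) * G - v2))) := by
  have hκ0q : (κ : ℚ) ≠ 0 := by exact_mod_cast hκ0
  have hκ1q : (κ : ℚ) ≠ 1 := by exact_mod_cast hκ1
  have E1 : ∀ᶠ E : ℤ in cofinite, ∀ u ∈ B, ∀ v ∈ B, u ≠ v → nx α b1 b2 u = nx α b1 b2 v →
      ∀ G : ℤ, ∀ n : ℤ, n ≠ 0 →
      ¬ cq (nx α b1 b2 u) (ny b2 u) (nx α b1 b2 u) (ny b2 v) (v1 + n / M * (κ * E - v1))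
      (v2 + n / M * ((1 - κ) * G - v2)) := by
    refine ev_fin2 B B ?_
    intro u _ v _
    by_cases huv : u = v
    · exact Eventually.of_forall (fun E h => absurd huv h)
    by_cases hx : nx α b1 b2 u = nx α b1 b2 v
    · have hy : ny b2 u ≠ ny b2 v := fun h => huv (n_ext hα hb2 hx h)
      filter_upwards [c1' hM hκ0q v1 v2 (nx α b1 b2 u) (ny b2 u) (ny b2 v) hy] with E hE _ _
      exact hE
    · exact Eventually.of_forall (fun E _ h => absurd h hx)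
  have E2 : ∀ᶠ E : ℤ in cofinite, ∀ u ∈ B, μ * (E : ℚ) + (c0 - nx α b1 b2 u) ≠ 0 :=
    ev_fin B (fun u _ => lneQ _ _ (Or.inl hμ))
  have E3 : ∀ᶠ E : ℤ in cofinite, ∀ u ∈ B, ∀ᶠ G : ℤ in cofinite,
      ∀ n : ℤ, n ≠ 0 → ∀ k : ℤ, k ≠ κ →
      ¬ cq (k * E) ((1 - k) * G) (nx α b1 b2 u) (ny b2 u) (v1 + n / M * (κ * E - v1))
        (v2 + n / M * ((1 - κ) * G - v2)) :=
    ev_fin B (fun u _ => c3 hM v1 v2 _ _)
  filter_upwards [E1, E2, E3] with E e1 e2 e3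
  have G1 : ∀ᶠ G : ℤ in cofinite, ∀ u ∈ B, ∀ v ∈ B, nx α b1 b2 u ≠ nx α b1 b2 v →
      ∀ n : ℤ, n ≠ 0 → ¬ cq (nx α b1 b2 u) (ny b2 u) (nx α b1 b2 v) (ny b2 v)
        (v1 + n / M * (κ * E - v1)) (v2 + n / M * ((1 - κ) * G - v2)) := by
    refine ev_fin2 B B ?_
    intro u _ v _
    by_cases hx : nx α b1 b2 u = nx α b1 b2 v
    · exact Eventually.of_forall (fun E h => absurd hx h)
    · filter_upwards [c1 hM hκ1q E v1 v2 (nx α b1 b2 u) (ny b2 u) _ (ny b2 v) hx] with G hG _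
      exact hG
  have G2 : ∀ᶠ G : ℤ in cofinite, ∀ u ∈ B, ∀ n : ℤ, n ≠ 0 →
      ¬ cq (μ * E + c0) 0 (nx α b1 b2 u) (ny b2 u) (v1 + n / M * (κ * E - v1))
      (v2 + n / M * ((1 - κ) * G - v2)) := by
    refine ev_fin B ?_
    intro u hu
    refine c1 hM hκ1q E v1 v2 _ 0 _ _ ?_
    intro h
    exact e2 u hu (by linear_combination h)
  filter_upwards [G1, G2, ev_fin B e3] with G g1 g2 g3
  refine ⟨?_, g2, g3⟩
  intro u hu v hv huv n hn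
  by_cases hx : nx α b1 b2 u = nx α b1 b2 v
  · rw [← hx]
    exact e1 u hu v hv huv hx G n hn
  · exact g1 u hu v hv hx n hn

/-- near `(σ, ρ)`: no hits, all arms -/
theorem ev_nohit (B : Finset Pt) (α b1 b2 : ℤ) (hα : α ≠ 0) (hb2 : b2 ≠ 0) {κ : ℤ} {M : ℚ}
    (hM : M ≠ 0) (hκ0 : κ ≠ 0) (hκ1 : κ ≠ 1) (μ c0 σ ρ : ℚ) (hμ : μ ≠ 0) (hc0 : c0 ≠ 0)
    (hσ : σ ≠ 0) (hρ : ρ ≠ 0) (hk2 : μ * (1 - κ) + σ * κ ≠ 0) :
    ∀ᶠ E : ℤ in cofinite, ∀ᶠ G : ℤ in cofinite,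
      NoHit B α b1 b2 κ M E G (μ * E + c0) (σ * G + ρ) 0 0 ∧
      NoHit B α b1 b2 κ M E G (μ * E + c0) (σ * G + ρ) 1 0 ∧
      NoHit B α b1 b2 κ M E G (μ * E + c0) (σ * G + ρ) 0 1 := by
  have hκ0q : (κ : ℚ) ≠ 0 := by exact_mod_cast hκ0
  have hκ1q : (κ : ℚ) ≠ 1 := by exact_mod_cast hκ1
  have T2 : ∀ v1 v2 : ℚ, ∀ᶠ E : ℤ in cofinite, ∀ u ∈ B, ∀ᶠ G : ℤ in cofinite, ∀ n : ℤ, n ≠ 0 →
      ¬ cq 0 (σ * G + ρ) (nx α b1 b2 u) (ny b2 u) (v1 + n / M * (κ * E - v1))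
        (v2 + n / M * ((1 - κ) * G - v2)) := fun v1 v2 =>
    ev_fin B (fun u _ => c2 hM hκ0q v1 v2 _ _ σ ρ hσ)
  filter_upwards [ev_nohit_aux B α b1 b2 hα hb2 hM hκ0 hκ1 0 0 μ c0 hμ,
    ev_nohit_aux B α b1 b2 hα hb2 hM hκ0 hκ1 1 0 μ c0 hμ,
    ev_nohit_aux B α b1 b2 hα hb2 hM hκ0 hκ1 0 1 μ c0 hμ, T2 0 0, T2 1 0, T2 0 1,
    c2t_ac hM hκ1q 0 μ c0 σ ρ hρ hμ hk2, c2t_ac hM hκ1q 1 μ c0 σ ρ hρ hμ hk2,
    c2t_b hM hκ0q μ c0 σ ρ hσ hμ hc0 hk2] with E a1 a2 a3 a4 a5 a6 a7 a8 a9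
  filter_upwards [a1, a2, a3, ev_fin B a4, ev_fin B a5, ev_fin B a6, a7, a8, a9]
    with G g1 g2 g3 g4 g5 g6 g7 g8 g9
  refine ⟨⟨g1.1, g1.2.1, g4, ?_, g1.2.2⟩, ⟨g2.1, g2.2.1, g5, ?_, g2.2.2⟩,
    ⟨g3.1, g3.2.1, g6, ?_, g3.2.2⟩⟩
  · intro n hn _ h
    apply g7 n hn
    simpa using h
  · intro n hn _ h
    apply g8 n hn
    simpa using h
  · intro n hn _ h
    apply g9 n hn
    simpa using h

/-- `t2 = (0, τ G)`: no hits, arms `b`, `c` -/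
theorem ev_nohitT (B : Finset Pt) (α b1 b2 : ℤ) (hα : α ≠ 0) (hb2 : b2 ≠ 0) {κ : ℤ} {M : ℚ}
    (hM : M ≠ 0) (hκ0 : κ ≠ 0) (hκ1 : κ ≠ 1) (μ c0 : ℚ) (hμ : μ ≠ 0)
    (hk6 : c0 * κ ≠ μ * (1 - κ)) :
    ∀ᶠ E : ℤ in cofinite, ∀ᶠ G : ℤ in cofinite,
      NoHit B α b1 b2 κ M E G (μ * E + c0) ((μ * E + c0) * G) 0 0 ∧
      NoHit B α b1 b2 κ M E G (μ * E + c0) ((μ * E + c0) * G) 0 1 := by
  have hκ0q : (κ : ℚ) ≠ 0 := by exact_mod_cast hκ0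
  have T2 : ∀ v2 : ℚ, ∀ᶠ E : ℤ in cofinite, ∀ u ∈ B, ∀ᶠ G : ℤ in cofinite, ∀ n : ℤ, n ≠ 0 →
      ¬ cq 0 ((μ * E + c0) * G) (nx α b1 b2 u) (ny b2 u) (n / M * (κ * E))
        (v2 + n / M * ((1 - κ) * G - v2)) := fun v2 =>
    ev_fin B (fun u _ => c2T hM hκ0q v2 _ _ μ c0 hμ)
  filter_upwards [ev_nohit_aux B α b1 b2 hα hb2 hM hκ0 hκ1 0 0 μ c0 hμ,
    ev_nohit_aux B α b1 b2 hα hb2 hM hκ0 hκ1 0 1 μ c0 hμ, T2 0, T2 1,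
    c2tT_c hM hκ0q μ c0 hμ hk6, c2tT_b hM hκ0q μ c0 hμ] with E a1 a3 a4 a6 a7 a9
  filter_upwards [a1, a3, ev_fin B a4, ev_fin B a6, a9, lneQ 1 0 (Or.inl one_ne_zero)]
    with G g1 g3 g4 g6 g9 g0
  have hG : G ≠ 0 := by rintro rfl; apply g0; norm_num
  refine ⟨⟨g1.1, g1.2.1, ?_, ?_, g1.2.2⟩, ⟨g3.1, g3.2.1, ?_, ?_, g3.2.2⟩⟩
  · intro u hu n hn h
    apply g4 u hu n hn
    simpa using h
  · intro n hn _ h
    apply a7 G hG n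
    simpa using h
  · intro u hu n hn h
    apply g6 u hu n hn
    simpa using h
  · intro n hn hn1 h
    apply g9 n hn1
    simpa using h

end Pool.Agent.K4L
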