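import Pool.Agent.K4L.K3UF5

/-!
# K3U, the kill `f` on `g e`: the position after `f, t3`
-/

namespace Pool.Agent.K4L

open Filter

/-- the pair `u, v` is the pair `a, b` -/
def IsP (a b u v : Pt) : Prop := (u = a ∧ v = b) ∨ (u = b ∧ v = a)

theorem IsP.symm {a b u v : Pt} (h : IsP a b u v) : IsP a b v u := by
  rcases h with ⟨h1, h2⟩ | ⟨h1, h2⟩
  · exact Or.inr ⟨h2, h1⟩
  · exact Or.inl ⟨h2, h1⟩

/-- the position after `f, t3` -/
structure FQ (R B : Finset Pt) (α b1 b2 κ p G k T : ℤ) (t2 : Pt) (R3 B3 : Finset Pt) : Prop where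
  K : K3C R B α b1 b2
  hB3 : B3 = insert (Pf G b1 b2 (α * p) k) (insert t2 (insert ((T, 0) : Pt) B))
  fR : Pf G b1 b2 (α * p) κ ∈ R3
  gR : ((G * b1, G * b2) : Pt) ∈ R3
  eR : ((α * p, 0) : Pt) ∈ R3
  cR : ((0, 0) : Pt) ∈ R3
  aR : ((α, 0) : Pt) ∈ R3
  bR : ((b1, b2) : Pt) ∈ R3
  hN : NoThreat R3 B3
  hB : ∀ β ∈ B3, β ∉ R3
  hs : t2.1 * b2 = t2.2 * b1
  hp : Prime p
  hκ0 : κ ≠ 0
  hκ1 : κ ≠ 1
  hpκ : ¬ p ∣ (1 - κ) * G
  hpκ1 : ¬ p ∣ (1 - κ) * G - 1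
  hcop : IsCoprime G (κ * p - 1)
  hcopα : IsCoprime G α
  hG1 : G ≠ 1
  hp1 : p ≠ 1
  hκp : κ * p - 1 ≠ 0
  hκG : (1 - κ) * G - 1 ≠ 0

namespace FQ

variable {R B R3 B3 : Finset Pt} {α b1 b2 κ p G k T : ℤ} {t2 : Pt}

theorem G0 (Q : FQ R B α b1 b2 κ p G k T t2 R3 B3) : G ≠ 0 := by
  rintro rfl
  exact Q.hpκ (by simp)

theorem p0 (Q : FQ R B α b1 b2 κ p G k T t2 R3 B3) : p ≠ 0 := Q.hp.ne_zero

theorem N0 (Q : FQ R B α b1 b2 κ p G k T t2 R3 B3) : α * b2 ≠ 0 := mul_ne_zero Q.K.hα Q.K.hb2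

theorem kap1 (Q : FQ R B α b1 b2 κ p G k T t2 R3 B3) : (1 : ℚ) - κ ≠ 0 := by
  intro h
  apply Q.hκ1
  have : (κ : ℚ) = 1 := by linarith
  exact_mod_cast this

/-- the common denominator of the indices -/
theorem M0 (Q : FQ R B α b1 b2 κ p G k T t2 R3 B3) :
    ((α * b2 : ℤ) : ℚ) * κ * (1 - κ) ≠ 0 :=
  mul_ne_zero (mul_ne_zero (by exact_mod_cast Q.N0) (by exact_mod_cast Q.hκ0)) Q.kap1

theorem mem3 (Q : FQ R B α b1 b2 κ p G k T t2 R3 B3) : Pf G b1 b2 (α * p) k ∈ B3 := by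
  rw [Q.hB3]; exact Finset.mem_insert_self _ _

theorem mem2 (Q : FQ R B α b1 b2 κ p G k T t2 R3 B3) : t2 ∈ B3 := by
  rw [Q.hB3]; exact Finset.mem_insert_of_mem (Finset.mem_insert_self _ _)

theorem memt (Q : FQ R B α b1 b2 κ p G k T t2 R3 B3) : ((T, 0) : Pt) ∈ B3 := by
  rw [Q.hB3]
  exact Finset.mem_insert_of_mem (Finset.mem_insert_of_mem (Finset.mem_insert_self _ _))

theorem memB (Q : FQ R B α b1 b2 κ p G k T t2 R3 B3) {β : Pt} (hβ : β ∈ B) : β ∈ B3 := by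
  rw [Q.hB3]
  exact Finset.mem_insert_of_mem (Finset.mem_insert_of_mem (Finset.mem_insert_of_mem hβ))

theorem forall_B3 (Q : FQ R B α b1 b2 κ p G k T t2 R3 B3) {P : Pt → Prop}
    (h3 : P (Pf G b1 b2 (α * p) k)) (h2 : P t2) (ht : P (T, 0)) (hB : ∀ β ∈ B, P β) :
    ∀ z ∈ B3, P z := by
  intro z hz
  rw [Q.hB3] at hz
  rcases Finset.mem_insert.mp hz with rfl | hz
  · exact h3
  · rcases Finset.mem_insert.mp hz with rfl | hz
    · exact h2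
    · rcases Finset.mem_insert.mp hz with rfl | hz
      · exact ht
      · exact hB z hz

theorem card (Q : FQ R B α b1 b2 κ p G k T t2 R3 B3) : B3.card < B.card + 4 := by
  rw [Q.hB3]
  have h1 := Finset.card_insert_le (Pf G b1 b2 (α * p) k) (insert t2 (insert ((T, 0) : Pt) B))
  have h2 := Finset.card_insert_le t2 (insert ((T, 0) : Pt) B)
  have h3 := Finset.card_insert_le ((T, 0) : Pt) B
  omega

theorem Pf1 (Q : FQ R B α b1 b2 κ p G k T t2 R3 B3) : Pf G b1 b2 (α * p) 1 = (α * p, 0) := by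
  unfold Pf; ring_nf

theorem Pf0 (Q : FQ R B α b1 b2 κ p G k T t2 R3 B3) :
    Pf G b1 b2 (α * p) 0 = (G * b1, G * b2) := by
  unfold Pf; ring_nf

theorem kκ (Q : FQ R B α b1 b2 κ p G k T t2 R3 B3) : k ≠ κ := by
  rintro rfl; exact Q.hB _ Q.mem3 Q.fR

theorem k1 (Q : FQ R B α b1 b2 κ p G k T t2 R3 B3) : k ≠ 1 := by
  rintro rfl
  apply Q.hB _ Q.mem3
  rw [Q.Pf1]; exact Q.eR

theorem k0 (Q : FQ R B α b1 b2 κ p G k T t2 R3 B3) : k ≠ 0 := by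
  rintro rfl
  apply Q.hB _ Q.mem3
  rw [Q.Pf0]; exact Q.gR

theorem Ta (Q : FQ R B α b1 b2 κ p G k T t2 R3 B3) : T ≠ α := by
  rintro rfl; exact Q.hB _ Q.memt Q.aR

theorem T0 (Q : FQ R B α b1 b2 κ p G k T t2 R3 B3) : T ≠ 0 := by
  rintro rfl; exact Q.hB _ Q.memt Q.cR

theorem Te (Q : FQ R B α b1 b2 κ p G k T t2 R3 B3) : T ≠ α * p := by
  rintro rfl; exact Q.hB _ Q.memt Q.eR

/-- pairs of blue stones -/
theorem pairs (Q : FQ R B α b1 b2 κ p G k T t2 R3 B3) {P : Pt → Pt → Prop}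
    (hsymm : ∀ u v, P u v → P v u) (nn : ∀ u ∈ B, ∀ v ∈ B, u ≠ v → P u v)
    (tn : ∀ v ∈ B, P (T, 0) v) (t2n : ∀ v ∈ B, P t2 v) (t2t : P t2 (T, 0))
    (t3n : ∀ v ∈ B, P (Pf G b1 b2 (α * p) k) v) (t3t : P (Pf G b1 b2 (α * p) k) (T, 0))
    (t32 : P (Pf G b1 b2 (α * p) k) t2) :
    ∀ u ∈ B3, ∀ v ∈ B3, u ≠ v → P u v := by
  rw [Q.hB3]
  refine pair2 hsymm (pair2 hsymm (pair2 hsymm nn tn) ?_) ?_
  · intro v hv
    rcases Finset.mem_insert.mp hv with hv | hv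
    · rw [hv]; exact t2t
    · exact t2n v hv
  · intro v hv
    rcases Finset.mem_insert.mp hv with hv | hv
    · rw [hv]; exact t32
    · rcases Finset.mem_insert.mp hv with hv | hv
      · rw [hv]; exact t3t
      · exact t3n v hv

/-- points of the arm `c` -/
theorem idx_c (Q : FQ R B α b1 b2 κ p G k T t2 R3 B3) {z : Pt}
    (hz : Col (Pf G b1 b2 (α * p) κ) (0, 0) z) : ∃ n : ℤ,
      nx α b1 b2 z = n / (((α * b2 : ℤ) : ℚ) * κ * (1 - κ)) * (κ * p) ∧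
      ny b2 z = n / (((α * b2 : ℤ) : ℚ) * κ * (1 - κ)) * ((1 - κ) * G) := by
  have hα := Q.K.hα
  have hb2 := Q.K.hb2
  obtain ⟨X, hX⟩ : ∃ X, X = b2 * z.1 - b1 * z.2 := ⟨_, rfl⟩
  have h1 : X * ((1 - κ) * G) = z.2 * κ * α * p := by
    unfold Col Pf at hz
    simp only at hz
    have : b2 * (X * ((1 - κ) * G)) = b2 * (z.2 * κ * α * p) := by
      rw [hX]; linear_combination b2 * hz
    exact mul_left_cancel₀ hb2 this
  obtain ⟨X1, hX1⟩ : p ∣ X := by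
    have h2 : p ∣ X * ((1 - κ) * G) := ⟨z.2 * κ * α, by rw [h1]; ring⟩
    exact (Q.hp.dvd_or_dvd h2).resolve_right Q.hpκ
  have h2 : X1 * ((1 - κ) * G) = z.2 * κ * α := by
    apply mul_left_cancel₀ Q.p0
    rw [hX1] at h1
    linear_combination h1
  have c1 : (b2 : ℚ) ≠ 0 := by exact_mod_cast hb2
  have c2 : (α : ℚ) ≠ 0 := by exact_mod_cast hα
  have c3 : (κ : ℚ) ≠ 0 := by exact_mod_cast Q.hκ0
  have c4 := Q.kap1
  have h2q : (X1 : ℚ) * ((1 - κ) * G) = z.2 * κ * α := by exact_mod_cast h2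
  refine ⟨X1 * (1 - κ), ?_, ?_⟩
  · unfold nx
    have h3 : (b2 : ℚ) * z.1 - b1 * z.2 = p * X1 := by
      have : ((b2 * z.1 - b1 * z.2 : ℤ) : ℚ) = ((p * X1 : ℤ) : ℚ) := by rw [← hX, hX1]
      push_cast at this
      exact this
    rw [h3]
    push_cast
    field_simp
  · unfold ny
    push_cast
    field_simp
    linear_combination -h2q

/-- points of the arm `b` -/
theorem idx_b (Q : FQ R B α b1 b2 κ p G k T t2 R3 B3) {z : Pt}
    (hz : Col (Pf G b1 b2 (α * p) κ) (b1, b2) z) : ∃ n : ℤ,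
      nx α b1 b2 z = n / (((α * b2 : ℤ) : ℚ) * κ * (1 - κ)) * (κ * p) ∧
      ny b2 z = 1 + n / (((α * b2 : ℤ) : ℚ) * κ * (1 - κ)) * ((1 - κ) * G - 1) := by
  have hα := Q.K.hα
  have hb2 := Q.K.hb2
  obtain ⟨X, hX⟩ : ∃ X, X = b2 * z.1 - b1 * z.2 := ⟨_, rfl⟩
  have h1 : X * ((1 - κ) * G - 1) = (z.2 - b2) * κ * α * p := by
    unfold Col Pf at hz
    simp only at hz
    have : b2 * (X * ((1 - κ) * G - 1)) = b2 * ((z.2 - b2) * κ * α * p) := by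
      rw [hX]; linear_combination b2 * hz
    exact mul_left_cancel₀ hb2 this
  obtain ⟨X1, hX1⟩ : p ∣ X := by
    have h2 : p ∣ X * ((1 - κ) * G - 1) := ⟨(z.2 - b2) * κ * α, by rw [h1]; ring⟩
    exact (Q.hp.dvd_or_dvd h2).resolve_right Q.hpκ1
  have h2 : X1 * ((1 - κ) * G - 1) = (z.2 - b2) * κ * α := by
    apply mul_left_cancel₀ Q.p0
    rw [hX1] at h1
    linear_combination h1
  have c1 : (b2 : ℚ) ≠ 0 := by exact_mod_cast hb2
  have c2 : (α : ℚ) ≠ 0 := by exact_mod_cast hα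
  have c3 : (κ : ℚ) ≠ 0 := by exact_mod_cast Q.hκ0
  have c4 := Q.kap1
  have h2q : (X1 : ℚ) * ((1 - κ) * G - 1) = (z.2 - b2) * κ * α := by exact_mod_cast h2
  refine ⟨X1 * (1 - κ), ?_, ?_⟩
  · unfold nx
    have h3 : (b2 : ℚ) * z.1 - b1 * z.2 = p * X1 := by
      have : ((b2 * z.1 - b1 * z.2 : ℤ) : ℚ) = ((p * X1 : ℤ) : ℚ) := by rw [← hX, hX1]
      push_cast at this
      exact this
    rw [h3]
    push_cast
    field_simp
  · unfold ny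
    push_cast
    field_simp
    linear_combination -h2q

/-- points of the arm `a` -/
theorem idx_a (Q : FQ R B α b1 b2 κ p G k T t2 R3 B3) {z : Pt}
    (hz : Col (Pf G b1 b2 (α * p) κ) (α, 0) z) : ∃ n : ℤ,
      nx α b1 b2 z = 1 + n / (((α * b2 : ℤ) : ℚ) * κ * (1 - κ)) * (κ * p - 1) ∧
      ny b2 z = n / (((α * b2 : ℤ) : ℚ) * κ * (1 - κ)) * ((1 - κ) * G) := by
  have hα := Q.K.hα
  have hb2 := Q.K.hb2
  obtain ⟨X, hX⟩ : ∃ X, X = b2 * z.1 - b1 * z.2 := ⟨_, rfl⟩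
  have h1 : (X - b2 * α) * (1 - κ) * G = z.2 * (α * (κ * p - 1)) := by
    unfold Col Pf at hz
    simp only at hz
    have : b2 * ((X - b2 * α) * (1 - κ) * G) = b2 * (z.2 * (α * (κ * p - 1))) := by
      rw [hX]; linear_combination b2 * hz
    exact mul_left_cancel₀ hb2 this
  obtain ⟨Y1, hY1⟩ : G ∣ z.2 := by
    have h2 : G ∣ z.2 * (α * (κ * p - 1)) := ⟨(X - b2 * α) * (1 - κ), by rw [← h1]; ring⟩
    exact (Q.hcopα.mul_right Q.hcop).dvd_of_dvd_mul_right h2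
  have h2 : (X - b2 * α) * (1 - κ) = Y1 * (α * (κ * p - 1)) := by
    apply mul_left_cancel₀ Q.G0
    rw [hY1] at h1
    linear_combination h1
  have c1 : (b2 : ℚ) ≠ 0 := by exact_mod_cast hb2
  have c2 : (α : ℚ) ≠ 0 := by exact_mod_cast hα
  have c3 : (κ : ℚ) ≠ 0 := by exact_mod_cast Q.hκ0
  have c4 := Q.kap1
  have h2q : ((X : ℚ) - b2 * α) * (1 - κ) = Y1 * (α * (κ * p - 1)) := by exact_mod_cast h2
  refine ⟨Y1 * α * κ, ?_, ?_⟩
  · unfold nx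
    have h3 : (b2 : ℚ) * z.1 - b1 * z.2 = X := by
      rw [hX]; push_cast; ring
    rw [h3]
    push_cast
    field_simp
    linear_combination h2q
  · unfold ny
    rw [hY1]
    push_cast
    field_simp

end FQ

end Pool.Agent.K4L
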