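import Pool.Agent.K4L.K3UF6

/-!
# K3U, the kill `f` on `g e`: the arms after `f, t3`
-/

namespace Pool.Agent.K4L

open Filter

namespace FQ

variable {R B R3 B3 : Finset Pt} {α b1 b2 κ p G k T : ℤ} {t2 : Pt}

/-- the pairs which hit an arm -/
theorem arm_pairs (Q : FQ R B α b1 b2 κ p G k T t2 R3 B3) {M τ τ2 v1 v2 : ℚ}
    (H : NoHit B α b1 b2 κ M p G τ τ2 v1 v2) (hτ : nx α b1 b2 (T, 0) = τ)
    (hτ2 : ny b2 t2 = τ2) {z : Pt} {n : ℤ} (hn : n ≠ 0) (hn1 : (n : ℚ) / M ≠ 1)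
    (hzx : nx α b1 b2 z = v1 + n / M * (κ * p - v1))
    (hzy : ny b2 z = v2 + n / M * ((1 - κ) * G - v2)) :
    ∀ u ∈ B3, ∀ v ∈ B3, u ≠ v → Col u v z →
      IsP (Pf G b1 b2 (α * p) k) (T, 0) u v ∨ IsP (Pf G b1 b2 (α * p) k) t2 u v := by
  have hα := Q.K.hα
  have hb2 := Q.K.hb2
  have ht2x : nx α b1 b2 t2 = 0 := nx_cb Q.hs
  refine Q.pairs (P := fun u v => Col u v z → IsP (Pf G b1 b2 (α * p) k) (T, 0) u v ∨
    IsP (Pf G b1 b2 (α * p) k) t2 u v) ?_ ?_ ?_ ?_ ?_ ?_ ?_ ?_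
  · intro u v h hc
    rcases h hc.swap12 with h | h
    · exact Or.inl h.symm
    · exact Or.inr h.symm
  · intro u hu v hv huv hc
    exfalso
    rw [n_col (b1 := b1) hα hb2, hzx, hzy] at hc
    exact H.nn u hu v hv huv n hn hc
  · intro v hv hc
    exfalso
    rw [n_col (b1 := b1) hα hb2, hzx, hzy, hτ, ny_r] at hc
    exact H.tn v hv n hn hc
  · intro v hv hc
    exfalso
    rw [n_col (b1 := b1) hα hb2, hzx, hzy, ht2x, hτ2] at hc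
    exact H.t2n v hv n hn hc
  · intro hc
    exfalso
    rw [n_col (b1 := b1) hα hb2, hzx, hzy, ht2x, hτ2, hτ, ny_r] at hc
    exact H.t2t n hn hn1 hc
  · intro v hv hc
    exfalso
    rw [n_col (b1 := b1) hα hb2, hzx, hzy, nx_f hα hb2, ny_f hb2] at hc
    exact H.t3n v hv n hn k Q.kκ hc
  · intro _
    exact Or.inl (Or.inl ⟨rfl, rfl⟩)
  · intro _
    exact Or.inr (Or.inl ⟨rfl, rfl⟩)

/-- `t3` is not on an arm -/
theorem t3_arm (Q : FQ R B α b1 b2 κ p G k T t2 R3 B3) {v : Pt} {v1 v2 : ℚ}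
    (hx : nx α b1 b2 v = v1) (hy : ny b2 v = v2) (hv : (G : ℚ) * p ≠ v2 * p + v1 * G) :
    ¬ Col (Pf G b1 b2 (α * p) κ) v (Pf G b1 b2 (α * p) k) := by
  intro hc
  rw [n_col (b1 := b1) Q.K.hα Q.K.hb2, hx, hy, nx_f Q.K.hα Q.K.hb2, nx_f Q.K.hα Q.K.hb2,
    ny_f Q.K.hb2, ny_f Q.K.hb2] at hc
  unfold cq at hc
  have hk : (k : ℚ) - κ ≠ 0 := by
    intro h
    apply Q.kκ
    have : (k : ℚ) = κ := by linarith
    exact_mod_cast this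
  apply hv
  have : ((k : ℚ) - κ) * (G * p - (v2 * p + v1 * G)) = 0 := by linear_combination hc
  have := (mul_eq_zero.mp this).resolve_left hk
  linarith

/-- the arm is alive -/
theorem alive (Q : FQ R B α b1 b2 κ p G k T t2 R3 B3) {M τ τ2 v1 v2 : ℚ}
    (H : NoHit B α b1 b2 κ M p G τ τ2 v1 v2) (hτ : nx α b1 b2 (T, 0) = τ)
    (hτ2 : ny b2 t2 = τ2) {v : Pt} (hvR : v ∈ R3)
    (hx : nx α b1 b2 v = v1) (hy : ny b2 v = v2) (hv : (G : ℚ) * p ≠ v2 * p + v1 * G)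
    (hvf : Pf G b1 b2 (α * p) κ ≠ v)
    (hidx : ∀ z, Col (Pf G b1 b2 (α * p) κ) v z → ∃ n : ℤ,
      nx α b1 b2 z = v1 + n / M * (κ * p - v1) ∧
      ny b2 z = v2 + n / M * ((1 - κ) * G - v2)) :
    ALine R3 B3 (Pf G b1 b2 (α * p) κ) v := by
  have hα := Q.K.hα
  have hb2 := Q.K.hb2
  have ht2x : nx α b1 b2 t2 = 0 := nx_cb Q.hs
  have hn0 : ∀ z ∈ B3, ∀ n : ℤ, nx α b1 b2 z = v1 + n / M * (κ * p - v1) →
      ny b2 z = v2 + n / M * ((1 - κ) * G - v2) → n ≠ 0 ∧ (n : ℚ) / M ≠ 1 := by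
    intro z hz n h1 h2
    constructor
    · rintro rfl
      apply Q.hB z hz
      have : z = v := by
        apply n_ext (b1 := b1) hα hb2
        · rw [h1, hx]; push_cast; ring
        · rw [h2, hy]; push_cast; ring
      rw [this]; exact hvR
    · intro h
      apply Q.hB z hz
      have : z = Pf G b1 b2 (α * p) κ := by
        apply n_ext (b1 := b1) hα hb2
        · rw [h1, h, nx_f hα hb2]; ring
        · rw [h2, h, ny_f hb2]; ring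
      rw [this]; exact Q.fR
  refine ⟨Q.fR, hvR, hvf, Q.forall_B3 ?_ ?_ ?_ ?_⟩
  · exact Q.t3_arm hx hy hv
  · intro hc
    obtain ⟨n, h1, h2⟩ := hidx _ hc
    obtain ⟨a1, a2⟩ := hn0 _ Q.mem2 n h1 h2
    apply H.t2t n a1 a2
    rw [← h1, ← h2, ht2x, hτ2]
    unfold cq; ring
  · intro hc
    obtain ⟨n, h1, h2⟩ := hidx _ hc
    obtain ⟨a1, a2⟩ := hn0 _ Q.memt n h1 h2
    apply H.t2t n a1 a2
    rw [← h1, ← h2, hτ, ny_r]
    unfold cq; ring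
  · intro β hβ hc
    obtain ⟨n, h1, h2⟩ := hidx _ hc
    obtain ⟨a1, a2⟩ := hn0 _ (Q.memB hβ) n h1 h2
    apply H.t2n β hβ n a1
    rw [← h1, ← h2]
    unfold cq; ring

theorem Gq (Q : FQ R B α b1 b2 κ p G k T t2 R3 B3) : (G : ℚ) ≠ 0 := by exact_mod_cast Q.G0
theorem pq (Q : FQ R B α b1 b2 κ p G k T t2 R3 B3) : (p : ℚ) ≠ 0 := by exact_mod_cast Q.p0

theorem ne_c (Q : FQ R B α b1 b2 κ p G k T t2 R3 B3) : Pf G b1 b2 (α * p) κ ≠ (0, 0) := by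
  intro h
  have := ny_f (b1 := b1) Q.K.hb2 G (α * p) κ
  rw [h, ny_c] at this
  exact mul_ne_zero Q.kap1 Q.Gq this.symm

theorem ne_a (Q : FQ R B α b1 b2 κ p G k T t2 R3 B3) : Pf G b1 b2 (α * p) κ ≠ (α, 0) := by
  intro h
  have := ny_f (b1 := b1) Q.K.hb2 G (α * p) κ
  rw [h, ny_r] at this
  exact mul_ne_zero Q.kap1 Q.Gq this.symm

theorem ne_b (Q : FQ R B α b1 b2 κ p G k T t2 R3 B3) : Pf G b1 b2 (α * p) κ ≠ (b1, b2) := by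
  intro h
  have := nx_f (b1 := b1) Q.K.hα Q.K.hb2 G p κ
  rw [h, nx_b] at this
  exact mul_ne_zero (by exact_mod_cast Q.hκ0) Q.pq this.symm

/-- the arm `c` is alive -/
theorem alive_c (Q : FQ R B α b1 b2 κ p G k T t2 R3 B3) {τ τ2 : ℚ}
    (H : NoHit B α b1 b2 κ (((α * b2 : ℤ) : ℚ) * κ * (1 - κ)) p G τ τ2 0 0)
    (hτ : nx α b1 b2 (T, 0) = τ) (hτ2 : ny b2 t2 = τ2) :
    ALine R3 B3 (Pf G b1 b2 (α * p) κ) (0, 0) := by
  refine Q.alive H hτ hτ2 Q.cR nx_c ny_c ?_ Q.ne_c ?_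
  · simp only [zero_mul, add_zero]
    exact mul_ne_zero Q.Gq Q.pq
  · intro z hz
    obtain ⟨n, h1, h2⟩ := Q.idx_c hz
    exact ⟨n, by rw [h1]; ring, by rw [h2]; ring⟩

theorem alive_a (Q : FQ R B α b1 b2 κ p G k T t2 R3 B3) {τ τ2 : ℚ}
    (H : NoHit B α b1 b2 κ (((α * b2 : ℤ) : ℚ) * κ * (1 - κ)) p G τ τ2 1 0)
    (hτ : nx α b1 b2 (T, 0) = τ) (hτ2 : ny b2 t2 = τ2) :
    ALine R3 B3 (Pf G b1 b2 (α * p) κ) (α, 0) := by
  refine Q.alive H hτ hτ2 Q.aR (nx_a Q.K.hα Q.K.hb2) (ny_r _) ?_ Q.ne_a ?_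
  · intro h
    have h1 : (G : ℚ) * (p - 1) = 0 := by linear_combination h
    rcases mul_eq_zero.mp h1 with h2 | h2
    · exact Q.Gq h2
    · apply Q.hp1
      have : (p : ℚ) = 1 := by linarith
      exact_mod_cast this
  · intro z hz
    obtain ⟨n, h1, h2⟩ := Q.idx_a hz
    exact ⟨n, h1, by rw [h2]; ring⟩

theorem alive_b (Q : FQ R B α b1 b2 κ p G k T t2 R3 B3) {τ τ2 : ℚ}
    (H : NoHit B α b1 b2 κ (((α * b2 : ℤ) : ℚ) * κ * (1 - κ)) p G τ τ2 0 1)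
    (hτ : nx α b1 b2 (T, 0) = τ) (hτ2 : ny b2 t2 = τ2) :
    ALine R3 B3 (Pf G b1 b2 (α * p) κ) (b1, b2) := by
  refine Q.alive H hτ hτ2 Q.bR nx_b (ny_b Q.K.hb2) ?_ Q.ne_b ?_
  · intro h
    have h1 : (p : ℚ) * (G - 1) = 0 := by linear_combination h
    rcases mul_eq_zero.mp h1 with h2 | h2
    · exact Q.pq h2
    · apply Q.hG1
      have : (G : ℚ) = 1 := by linarith
      exact_mod_cast this
  · intro z hz
    obtain ⟨n, h1, h2⟩ := Q.idx_b hz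
    exact ⟨n, by rw [h1]; ring, h2⟩

/-- F1: the fork with the arms `f a`, `f c` and the red stone `e` -/
theorem fork1 (Q : FQ R B α b1 b2 κ p G k T t2 R3 B3)
    (hAa : ALine R3 B3 (Pf G b1 b2 (α * p) κ) (α, 0))
    (hAc : ALine R3 B3 (Pf G b1 b2 (α * p) κ) (0, 0))
    {n : ℕ} (hF : ForkSols 1 p n) (hn : B3.card < n)
    (hU : Uncov R3 B3 (Pf G b1 b2 (α * p) κ) (α, 0) ∨
      Uncov R3 B3 (Pf G b1 b2 (α * p) κ) (0, 0)) : Win R3 B3 := by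
  obtain ⟨F, hFc, hFl⟩ := hF
  refine fork_list (P := Pf G b1 b2 (α * p) κ) (v := (0, 0)) (v' := (α, 0)) (w := (α * p, 0))
    (s := p) (t0 := 1) Q.hN Q.hB hAc hAa hU.symm ?_ Q.eR ?_ ?_ one_ne_zero Q.p0 Q.hp1 F
    (by rw [hFc]; exact hn) hFl
  · intro h
    rw [n_col (b1 := b1) Q.K.hα Q.K.hb2, nx_c, ny_c, nx_a Q.K.hα Q.K.hb2, ny_r,
      nx_f Q.K.hα Q.K.hb2, ny_f Q.K.hb2] at h
    unfold cq at h
    have : (1 - (κ : ℚ)) * G = 0 := by linear_combination h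
    exact mul_ne_zero Q.kap1 Q.Gq this
  · simp only; ring
  · simp only; ring

/-- F2: the fork with the arms `f b`, `f c` and the red stone `g` -/
theorem fork2 (Q : FQ R B α b1 b2 κ p G k T t2 R3 B3)
    (hAb : ALine R3 B3 (Pf G b1 b2 (α * p) κ) (b1, b2))
    (hAc : ALine R3 B3 (Pf G b1 b2 (α * p) κ) (0, 0))
    {n : ℕ} (hF : ForkSols 1 G n) (hn : B3.card < n)
    (hU : Uncov R3 B3 (Pf G b1 b2 (α * p) κ) (b1, b2) ∨
      Uncov R3 B3 (Pf G b1 b2 (α * p) κ) (0, 0)) : Win R3 B3 := by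
  obtain ⟨F, hFc, hFl⟩ := hF
  refine fork_list (P := Pf G b1 b2 (α * p) κ) (v := (0, 0)) (v' := (b1, b2))
    (w := (G * b1, G * b2))
    (s := G) (t0 := 1) Q.hN Q.hB hAc hAb hU.symm ?_ Q.gR ?_ ?_ one_ne_zero Q.G0 Q.hG1 F
    (by rw [hFc]; exact hn) hFl
  · intro h
    rw [n_col (b1 := b1) Q.K.hα Q.K.hb2, nx_c, ny_c, nx_b, ny_b Q.K.hb2,
      nx_f Q.K.hα Q.K.hb2, ny_f Q.K.hb2] at h
    unfold cq at h
    have : (κ : ℚ) * p = 0 := by linear_combination -h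
    exact mul_ne_zero (by exact_mod_cast Q.hκ0) Q.pq this
  · simp only; ring
  · simp only; ring

/-- an index on an arm, for a point which is not red -/
theorem idx_ne (Q : FQ R B α b1 b2 κ p G k T t2 R3 B3) {M v1 v2 : ℚ} {v z : Pt} {n : ℤ}
    (hvR : v ∈ R3) (hx : nx α b1 b2 v = v1) (hy : ny b2 v = v2) (hzR : z ∉ R3)
    (h1 : nx α b1 b2 z = v1 + n / M * (κ * p - v1))
    (h2 : ny b2 z = v2 + n / M * ((1 - κ) * G - v2)) : n ≠ 0 ∧ (n : ℚ) / M ≠ 1 := by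
  have hα := Q.K.hα
  have hb2 := Q.K.hb2
  constructor
  · rintro rfl
    apply hzR
    have : z = v := by
      apply n_ext (b1 := b1) hα hb2
      · rw [h1, hx]; push_cast; ring
      · rw [h2, hy]; push_cast; ring
    rw [this]; exact hvR
  · intro h
    apply hzR
    have : z = Pf G b1 b2 (α * p) κ := by
      apply n_ext (b1 := b1) hα hb2
      · rw [h1, h, nx_f hα hb2]; ring
      · rw [h2, h, ny_f hb2]; ring
    rw [this]; exact Q.fR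

/-- a hit of the arm `c` -/
theorem hit_c (Q : FQ R B α b1 b2 κ p G k T t2 R3 B3) {τ τ2 : ℚ}
    (H : NoHit B α b1 b2 κ (((α * b2 : ℤ) : ℚ) * κ * (1 - κ)) p G τ τ2 0 0)
    (hτ : nx α b1 b2 (T, 0) = τ) (hτ2 : ny b2 t2 = τ2) {z : Pt}
    (hz : Col (Pf G b1 b2 (α * p) κ) (0, 0) z) (hzR : z ∉ R3) :
    ∃ n : ℤ, n ≠ 0 ∧ (n : ℚ) / (((α * b2 : ℤ) : ℚ) * κ * (1 - κ)) ≠ 1 ∧
      nx α b1 b2 z = n / (((α * b2 : ℤ) : ℚ) * κ * (1 - κ)) * (κ * p) ∧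
      ny b2 z = n / (((α * b2 : ℤ) : ℚ) * κ * (1 - κ)) * ((1 - κ) * G) ∧
      ∀ u ∈ B3, ∀ v ∈ B3, u ≠ v → Col u v z →
        (IsP (Pf G b1 b2 (α * p) k) (T, 0) u v ∧
          Teq κ p τ 0 (n / (((α * b2 : ℤ) : ℚ) * κ * (1 - κ))) k) ∨
        (IsP (Pf G b1 b2 (α * p) k) t2 u v ∧ cq (k * p) ((1 - k) * G) 0 τ2
          (n / (((α * b2 : ℤ) : ℚ) * κ * (1 - κ)) * (κ * p))
          (n / (((α * b2 : ℤ) : ℚ) * κ * (1 - κ)) * ((1 - κ) * G))) := by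
  have hα := Q.K.hα
  have hb2 := Q.K.hb2
  obtain ⟨n, h1, h2⟩ := Q.idx_c hz
  have h1' : nx α b1 b2 z = 0 + n / (((α * b2 : ℤ) : ℚ) * κ * (1 - κ)) * (κ * p - 0) := by
    rw [h1]; ring
  have h2' : ny b2 z = 0 + n / (((α * b2 : ℤ) : ℚ) * κ * (1 - κ)) * ((1 - κ) * G - 0) := by
    rw [h2]; ring
  obtain ⟨hn, hn1⟩ := Q.idx_ne Q.cR nx_c ny_c hzR h1' h2'
  refine ⟨n, hn, hn1, h1, h2, ?_⟩
  intro u hu v hv huv hc
  have key : ∀ w, Col (Pf G b1 b2 (α * p) k) w z →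
      cq (k * p) ((1 - k) * G) (nx α b1 b2 w) (ny b2 w)
          (n / (((α * b2 : ℤ) : ℚ) * κ * (1 - κ)) * (κ * p))
          (n / (((α * b2 : ℤ) : ℚ) * κ * (1 - κ)) * ((1 - κ) * G)) := by
    intro w hw
    rw [n_col (b1 := b1) hα hb2, nx_f hα hb2, ny_f hb2, h1, h2] at hw
    exact hw
  rcases Q.arm_pairs H hτ hτ2 hn hn1 h1' h2' u hu v hv huv hc with h | h
  · left
    refine ⟨h, ?_⟩
    have hc' : Col (Pf G b1 b2 (α * p) k) (T, 0) z := by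
      rcases h with ⟨a1, a2⟩ | ⟨a1, a2⟩
      · rw [a1, a2] at hc; exact hc
      · rw [a1, a2] at hc; exact hc.swap12
    have h3 := key _ hc'
    rw [hτ, ny_r] at h3
    unfold Teq
    exact c5 Q.G0 (by simpa using h3)
  · right
    refine ⟨h, ?_⟩
    have hc' : Col (Pf G b1 b2 (α * p) k) t2 z := by
      rcases h with ⟨a1, a2⟩ | ⟨a1, a2⟩
      · rw [a1, a2] at hc; exact hc
      · rw [a1, a2] at hc; exact hc.swap12
    have h3 := key _ hc'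
    rw [nx_cb Q.hs, hτ2] at h3
    exact h3

/-- a hit of the arm `b` -/
theorem hit_b (Q : FQ R B α b1 b2 κ p G k T t2 R3 B3) {τ τ2 : ℚ}
    (H : NoHit B α b1 b2 κ (((α * b2 : ℤ) : ℚ) * κ * (1 - κ)) p G τ τ2 0 1)
    (H4 : ∀ n k : ℤ, (n : ℚ) / (((α * b2 : ℤ) : ℚ) * κ * (1 - κ)) ≠ 1 →
      ¬ cq (k * p) ((1 - k) * G) τ 0 (n / (((α * b2 : ℤ) : ℚ) * κ * (1 - κ)) * (κ * p))
        (1 + n / (((α * b2 : ℤ) : ℚ) * κ * (1 - κ)) * ((1 - κ) * G - 1)))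
    (hτ : nx α b1 b2 (T, 0) = τ) (hτ2 : ny b2 t2 = τ2) {z : Pt}
    (hz : Col (Pf G b1 b2 (α * p) κ) (b1, b2) z) (hzR : z ∉ R3) :
    ∃ n : ℤ, n ≠ 0 ∧ (n : ℚ) / (((α * b2 : ℤ) : ℚ) * κ * (1 - κ)) ≠ 1 ∧
      nx α b1 b2 z = n / (((α * b2 : ℤ) : ℚ) * κ * (1 - κ)) * (κ * p) ∧
      ny b2 z = 1 + n / (((α * b2 : ℤ) : ℚ) * κ * (1 - κ)) * ((1 - κ) * G - 1) ∧
      ∀ u ∈ B3, ∀ v ∈ B3, u ≠ v → Col u v z →
        IsP (Pf G b1 b2 (α * p) k) t2 u v ∧ cq (k * p) ((1 - k) * G) 0 τ2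
          (n / (((α * b2 : ℤ) : ℚ) * κ * (1 - κ)) * (κ * p))
          (1 + n / (((α * b2 : ℤ) : ℚ) * κ * (1 - κ)) * ((1 - κ) * G - 1)) := by
  have hα := Q.K.hα
  have hb2 := Q.K.hb2
  obtain ⟨n, h1, h2⟩ := Q.idx_b hz
  have h1' : nx α b1 b2 z = 0 + n / (((α * b2 : ℤ) : ℚ) * κ * (1 - κ)) * (κ * p - 0) := by
    rw [h1]; ring
  obtain ⟨hn, hn1⟩ := Q.idx_ne Q.bR nx_b (ny_b hb2) hzR h1' h2
  refine ⟨n, hn, hn1, h1, h2, ?_⟩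
  intro u hu v hv huv hc
  have key : ∀ w, Col (Pf G b1 b2 (α * p) k) w z →
      cq (k * p) ((1 - k) * G) (nx α b1 b2 w) (ny b2 w)
          (n / (((α * b2 : ℤ) : ℚ) * κ * (1 - κ)) * (κ * p))
          (1 + n / (((α * b2 : ℤ) : ℚ) * κ * (1 - κ)) * ((1 - κ) * G - 1)) := by
    intro w hw
    rw [n_col (b1 := b1) hα hb2, nx_f hα hb2, ny_f hb2, h1, h2] at hw
    exact hw
  rcases Q.arm_pairs H hτ hτ2 hn hn1 h1' h2 u hu v hv huv hc with h | h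
  · exfalso
    have hc' : Col (Pf G b1 b2 (α * p) k) (T, 0) z := by
      rcases h with ⟨a1, a2⟩ | ⟨a1, a2⟩
      · rw [a1, a2] at hc; exact hc
      · rw [a1, a2] at hc; exact hc.swap12
    have h3 := key _ hc'
    rw [hτ, ny_r] at h3
    exact H4 n k hn1 h3
  · refine ⟨h, ?_⟩
    have hc' : Col (Pf G b1 b2 (α * p) k) t2 z := by
      rcases h with ⟨a1, a2⟩ | ⟨a1, a2⟩
      · rw [a1, a2] at hc; exact hc
      · rw [a1, a2] at hc; exact hc.swap12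
    have h3 := key _ hc'
    rw [nx_cb Q.hs, hτ2] at h3
    exact h3

/-- a hit of the arm `a` -/
theorem hit_a (Q : FQ R B α b1 b2 κ p G k T t2 R3 B3) {τ τ2 : ℚ}
    (H : NoHit B α b1 b2 κ (((α * b2 : ℤ) : ℚ) * κ * (1 - κ)) p G τ τ2 1 0)
    (H6 : ∀ n k : ℤ, (n : ℚ) / (((α * b2 : ℤ) : ℚ) * κ * (1 - κ)) ≠ 1 → k ≠ 0 →
      ¬ cq (k * p) ((1 - k) * G) 0 τ2 (1 + n / (((α * b2 : ℤ) : ℚ) * κ * (1 - κ)) * (κ * p - 1))
        (n / (((α * b2 : ℤ) : ℚ) * κ * (1 - κ)) * ((1 - κ) * G)))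
    (hτ : nx α b1 b2 (T, 0) = τ) (hτ2 : ny b2 t2 = τ2) {z : Pt}
    (hz : Col (Pf G b1 b2 (α * p) κ) (α, 0) z) (hzR : z ∉ R3) :
    ∃ n : ℤ, n ≠ 0 ∧ (n : ℚ) / (((α * b2 : ℤ) : ℚ) * κ * (1 - κ)) ≠ 1 ∧
      nx α b1 b2 z = 1 + n / (((α * b2 : ℤ) : ℚ) * κ * (1 - κ)) * (κ * p - 1) ∧
      ny b2 z = n / (((α * b2 : ℤ) : ℚ) * κ * (1 - κ)) * ((1 - κ) * G) ∧
      ∀ u ∈ B3, ∀ v ∈ B3, u ≠ v → Col u v z →
        IsP (Pf G b1 b2 (α * p) k) (T, 0) u v ∧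
          Teq κ p τ 1 (n / (((α * b2 : ℤ) : ℚ) * κ * (1 - κ))) k := by
  have hα := Q.K.hα
  have hb2 := Q.K.hb2
  obtain ⟨n, h1, h2⟩ := Q.idx_a hz
  have h2' : ny b2 z = 0 + n / (((α * b2 : ℤ) : ℚ) * κ * (1 - κ)) * ((1 - κ) * G - 0) := by
    rw [h2]; ring
  obtain ⟨hn, hn1⟩ := Q.idx_ne Q.aR (nx_a hα hb2) (ny_r _) hzR h1 h2'
  refine ⟨n, hn, hn1, h1, h2, ?_⟩
  intro u hu v hv huv hc
  have key : ∀ w, Col (Pf G b1 b2 (α * p) k) w z →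
      cq (k * p) ((1 - k) * G) (nx α b1 b2 w) (ny b2 w)
          (1 + n / (((α * b2 : ℤ) : ℚ) * κ * (1 - κ)) * (κ * p - 1))
          (n / (((α * b2 : ℤ) : ℚ) * κ * (1 - κ)) * ((1 - κ) * G)) := by
    intro w hw
    rw [n_col (b1 := b1) hα hb2, nx_f hα hb2, ny_f hb2, h1, h2] at hw
    exact hw
  rcases Q.arm_pairs H hτ hτ2 hn hn1 h1 h2' u hu v hv huv hc with h | h
  · refine ⟨h, ?_⟩
    have hc' : Col (Pf G b1 b2 (α * p) k) (T, 0) z := by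
      rcases h with ⟨a1, a2⟩ | ⟨a1, a2⟩
      · rw [a1, a2] at hc; exact hc
      · rw [a1, a2] at hc; exact hc.swap12
    have h3 := key _ hc'
    rw [hτ, ny_r] at h3
    unfold Teq
    exact c5 Q.G0 h3
  · exfalso
    have hc' : Col (Pf G b1 b2 (α * p) k) t2 z := by
      rcases h with ⟨a1, a2⟩ | ⟨a1, a2⟩
      · rw [a1, a2] at hc; exact hc
      · rw [a1, a2] at hc; exact hc.swap12
    have h3 := key _ hc'
    rw [nx_cb Q.hs, hτ2] at h3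
    exact H6 n k hn1 Q.k0 h3

end FQ

end Pool.Agent.K4L
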