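import Pool.Agent.K4L.K3UF7

/-!
# K3U, the kill `f` on `g e`: the forks; the two exceptional positions
-/

namespace Pool.Agent.K4L

open Filter

theorem not_uncov {R B : Finset Pt} {u v : Pt} (h : ¬ Uncov R B u v) :
    ∃ z, Col u v z ∧ z ∉ R ∧ ∃ x ∈ B, ∃ y ∈ B, x ≠ y ∧ Col x y z ∧ ∀ w ∈ R, ¬ Col x y w := by
  by_contra hcon
  apply h
  intro z hz hzR _ x hx y hy hxy hc
  by_contra hr
  push Not at hr
  exact hcon ⟨z, hz, hzR, x, hx, y, hy, hxy, hc, hr⟩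

/-! ### `t2 = (0, τ G)` -/

/-- all facts for `t2 = (0, τ G)` -/
structure EvT (B : Finset Pt) (α b1 b2 κ : ℤ) (M : ℚ) (E G : ℤ) (τ : ℚ) : Prop where
  hc : NoHit B α b1 b2 κ M E G τ (τ * G) 0 0
  hb : NoHit B α b1 b2 κ M E G τ (τ * G) 0 1
  tb : ∀ n k : ℤ, (n : ℚ) / M ≠ 1 →
      ¬ cq (k * E) ((1 - k) * G) τ 0 (n / M * (κ * E)) (1 + n / M * ((1 - κ) * G - 1))
  sb : ∀ n k : ℤ, (n : ℚ) / M ≠ 1 → k ≠ 0 →
      cq (k * E) ((1 - k) * G) 0 (τ * G) (n / M * (κ * E)) (1 + n / M * ((1 - κ) * G - 1)) →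
      (k : ℚ) = κ * (1 - τ) ∨ (k : ℚ) = κ * τ * G
  x1 : ∀ n k : ℤ, n ≠ 0 → (n : ℚ) / M ≠ 1 → (k : ℚ) = κ * (1 - τ) → ¬ Teq κ E τ 0 (n / M) k
  x2 : ∀ n : ℤ, n ≠ 0 → (n : ℚ) / M * (τ * G - (1 - τ)) ≠ τ * τ * G
  x3 : ∀ n k : ℤ, (n : ℚ) / M ≠ 1 → (k : ℚ) = κ * τ * G → ¬ Teq κ E τ 0 (n / M) k

theorem ev_EvT (B : Finset Pt) (α b1 b2 : ℤ) (hα : α ≠ 0) (hb2 : b2 ≠ 0) {κ : ℤ} {M : ℚ}
    (hM : M ≠ 0) (hκ0 : κ ≠ 0) (hκ1 : κ ≠ 1) (μ c0 : ℚ) (hμ : μ ≠ 0) (hc0 : c0 ≠ 0)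
    (hk6 : c0 * κ ≠ μ * (1 - κ)) (hk7 : κ * c0 ≠ (1 - κ) * (μ - 1)) :
    ∀ᶠ E : ℤ in cofinite, ∀ᶠ G : ℤ in cofinite, EvT B α b1 b2 κ M E G (μ * E + c0) := by
  have hκ0q : (κ : ℚ) ≠ 0 := by exact_mod_cast hκ0
  have hκ1q : (κ : ℚ) ≠ 1 := by exact_mod_cast hκ1
  have hκM : (κ : ℚ) / M ≠ 0 := div_ne_zero hκ0q hM
  filter_upwards [ev_nohitT B α b1 b2 hα hb2 hM hκ0 hκ1 μ c0 hμ hk6,
    c4 hM hκ1q μ c0 hc0, linQ (κ / M) (-(κ * μ)) ((1 - κ) / M) (-((1 - κ) + κ * c0)) hκM,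
    lneQ μ c0 (Or.inl hμ), lneQ μ (c0 - 1) (Or.inl hμ), evQ 0] with E e1 e2 e3 e4 e5 e6
  have hE0 : (E : ℚ) ≠ 0 := abs_pos.mp e6
  have hEi : E ≠ 0 := by rintro rfl; exact hE0 (by norm_num)
  obtain ⟨τ, hτ⟩ : ∃ τ : ℚ, τ = μ * E + c0 := ⟨_, rfl⟩
  have hτ1 : τ ≠ 1 := by intro h; apply e5; linear_combination h - hτ
  have hτM : τ / M ≠ 0 := div_ne_zero (hτ ▸ e4) hM
  have hA : κ * τ * E / M ≠ 0 :=
    div_ne_zero (mul_ne_zero (mul_ne_zero hκ0q (hτ ▸ e4)) hE0) hM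
  rw [← hτ] at e1 e2 e4 ⊢
  filter_upwards [e1, e2, c6bT hM τ hτ1 E hEi,
    linQ (τ / M) (-(τ * τ)) (-((1 - τ) / M)) 0 hτM,
    linQ (κ * τ * E / M) (-(κ * τ * τ)) (-((κ * E + τ * (1 - κ)) / M)) τ hA]
    with G g1 g2 g3 g4 g5
  refine ⟨g1.1, g1.2, g2, g3, ?_, ?_, ?_⟩
  · intro n k hn hn1 hk hT
    unfold Teq at hT
    rw [hk] at hT
    have h0 : τ * (n / M * (κ * E + 1 - κ) - (1 - κ + κ * τ)) = 0 := by
      linear_combination -hT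
    have h1 := (mul_eq_zero.mp h0).resolve_left e4
    obtain ⟨h2, h3⟩ := e3 n (by rw [hτ] at h1; linear_combination h1)
    apply hk7
    obtain ⟨r, hr⟩ : ∃ r : ℚ, r = n / M := ⟨_, rfl⟩
    have h2' : κ * (r - μ) = 0 := by rw [hr]; linear_combination h2
    have h3' : (1 - κ) * r - ((1 - κ) + κ * c0) = 0 := by rw [hr]; linear_combination h3
    have h4 := (mul_eq_zero.mp h2').resolve_left hκ0q
    linear_combination -h3' + (1 - (κ : ℚ)) * h4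
  · intro n hn h
    obtain ⟨h2, h3⟩ := g4 n (by linear_combination h)
    have hn' := div_ne hn hM
    have h4 : (1 - τ) * (n / M) = 0 := by linear_combination -h3
    rcases mul_eq_zero.mp h4 with h | h
    · exact hτ1 (by linarith)
    · exact hn' h
  · intro n k hn1 hk hT
    unfold Teq at hT
    rw [hk] at hT
    obtain ⟨h2, h3⟩ := g5 n (by linear_combination hT)
    obtain ⟨r, hr⟩ : ∃ r : ℚ, r = n / M := ⟨_, rfl⟩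
    have h2' : κ * τ * (r * E - τ) = 0 := by rw [hr]; linear_combination h2
    have h3' : -(κ * E + τ * (1 - κ)) * r + τ = 0 := by rw [hr]; linear_combination h3
    have h4 := (mul_eq_zero.mp h2').resolve_left (mul_ne_zero hκ0q e4)
    have h5 : τ * (1 - κ) * (1 - r) = 0 := by linear_combination κ * h4 + h3'
    rw [← hr] at hn1
    rcases mul_eq_zero.mp h5 with h | h
    · rcases mul_eq_zero.mp h with h | h
      · exact e4 h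
      · exact hκ1q (by linarith)
    · exact hn1 (by linarith)

namespace FQ

variable {R B R3 B3 : Finset Pt} {α b1 b2 κ p G k T : ℤ} {t2 : Pt}

/-- `t2 = (0, τ G)`: F2 wins -/
theorem winT (Q : FQ R B α b1 b2 κ p G k T t2 R3 B3) {τ : ℚ}
    (V : EvT B α b1 b2 κ (((α * b2 : ℤ) : ℚ) * κ * (1 - κ)) p G τ)
    (hτ : nx α b1 b2 (T, 0) = τ) (hτ2 : ny b2 t2 = τ * G)
    {n : ℕ} (hF : ForkSols 1 G n) (hn : B3.card < n) : Win R3 B3 := by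
  have hAc := Q.alive_c V.hc hτ hτ2
  have hAb := Q.alive_b V.hb hτ hτ2
  have hkq : (k : ℚ) ≠ 0 := by exact_mod_cast Q.k0
  have hκq : (κ : ℚ) ≠ 0 := by exact_mod_cast Q.hκ0
  have hτ0 : τ ≠ 0 := by
    rw [← hτ, nx_r Q.K.hb2]
    exact div_ne_zero (by exact_mod_cast Q.T0) (by exact_mod_cast Q.K.hα)
  by_cases hUb : Uncov R3 B3 (Pf G b1 b2 (α * p) κ) (b1, b2)
  · exact Q.fork2 hAb hAc hF hn (Or.inl hUb)
  by_cases hUc : Uncov R3 B3 (Pf G b1 b2 (α * p) κ) (0, 0)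
  · exact Q.fork2 hAb hAc hF hn (Or.inr hUc)
  exfalso
  obtain ⟨z, hz, hzR, x, hx, y, hy, hxy, hc, -⟩ := not_uncov hUb
  obtain ⟨n1, hn1, hn1', _, _, h1⟩ := Q.hit_b V.hb V.tb hτ hτ2 hz hzR
  obtain ⟨_, h2⟩ := h1 x hx y hy hxy hc
  obtain ⟨z', hz', hzR', x', hx', y', hy', hxy', hc', -⟩ := not_uncov hUc
  obtain ⟨n2, hn2, hn2', _, _, h3⟩ := Q.hit_c V.hc hτ hτ2 hz' hzR'
  rcases V.sb n1 k hn1' Q.k0 h2 with h4 | h4
  · rcases h3 x' hx' y' hy' hxy' hc' with ⟨_, h5⟩ | ⟨_, h5⟩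
    · exact V.x1 n2 k hn2 hn2' h4 h5
    · have h6 := c6cT Q.G0 Q.p0 h5
      have h7 : τ * k = 0 := by
        rw [← h6, h4]; ring
      exact mul_ne_zero hτ0 hkq h7
  · rcases h3 x' hx' y' hy' hxy' hc' with ⟨_, h5⟩ | ⟨_, h5⟩
    · exact V.x3 n2 k hn2' h4 h5
    · have h6 := c6cT Q.G0 Q.p0 h5
      apply V.x2 n2 hn2
      rw [h4] at h6
      apply mul_left_cancel₀ hκq
      linear_combination h6

end FQ

/-! ### `t2 = (0, σ G + ρ)` -/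

/-- all facts for `t2 = (0, σ G + ρ)` -/
structure EvN (B : Finset Pt) (α b1 b2 κ : ℤ) (M : ℚ) (E G : ℤ) (μ c0 σ ρ : ℚ) : Prop where
  hc : NoHit B α b1 b2 κ M E G (μ * E + c0) (σ * G + ρ) 0 0
  ha : NoHit B α b1 b2 κ M E G (μ * E + c0) (σ * G + ρ) 1 0
  hb : NoHit B α b1 b2 κ M E G (μ * E + c0) (σ * G + ρ) 0 1
  tb : ∀ n k : ℤ, (n : ℚ) / M ≠ 1 →
      ¬ cq (k * E) ((1 - k) * G) (μ * E + c0) 0 (n / M * (κ * E))
        (1 + n / M * ((1 - κ) * G - 1))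
  sa : ∀ n k : ℤ, (n : ℚ) / M ≠ 1 → k ≠ 0 →
      ¬ cq (k * E) ((1 - k) * G) 0 (σ * G + ρ) (1 + n / M * (κ * E - 1))
        (n / M * ((1 - κ) * G))
  sb : ∀ n k : ℤ, (n : ℚ) / M ≠ 1 → k ≠ 0 → n ≠ 0 →
      cq (k * E) ((1 - k) * G) 0 (σ * G + ρ) (n / M * (κ * E)) (1 + n / M * ((1 - κ) * G - 1)) →
      ((k : ℚ) = κ * (1 - σ) ∧ (n / M) * (1 - σ - ρ) = (1 - σ) * (1 - ρ - σ * G)) ∨
      ((n : ℚ) / M = σ ∧ k * (1 - ρ - σ) = κ * σ * ((1 - σ) * G - ρ)) ∨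
      (σ + ρ = 1 ∧ (k - κ * (1 - σ)) * (n / M - σ) = κ * σ * (1 - σ))
  sc : ∀ n k : ℤ, (n : ℚ) / M ≠ 1 → k ≠ 0 →
      cq (k * E) ((1 - k) * G) 0 (σ * G + ρ) (n / M * (κ * E)) (n / M * ((1 - κ) * G)) →
      ((k : ℚ) = κ * (1 - σ) ∧ ρ * (n / M) = (1 - σ) * (σ * G + ρ)) ∨
      ((n : ℚ) / M = σ ∧ k * ρ = κ * σ * (ρ - (1 - σ) * G))
  xi : ∀ n k : ℤ, n ≠ 0 → (n : ℚ) / M ≠ 1 → (k : ℚ) = κ * (1 - σ) →
      ¬ Teq κ E (μ * E + c0) 0 (n / M) k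
  xii : σ ≠ 1 → ∀ n k n' : ℤ, n ≠ 0 → (n : ℚ) / M ≠ 1 → (k : ℚ) ≠ κ →
      (k - κ * (1 - σ)) * (n' / M - σ) = κ * σ * (1 - σ) →
      Teq κ E (μ * E + c0) 0 (n / M) k → (k : ℚ) = κ + μ * (1 - κ)
  xiii : σ ≠ 1 → 1 - ρ - σ ≠ 0 → ∀ n k : ℤ, (n : ℚ) / M ≠ 1 →
      k * (1 - ρ - σ) = κ * σ * ((1 - σ) * G - ρ) → ¬ Teq κ E (μ * E + c0) 0 (n / M) k
  xai : ∀ n k : ℤ, n ≠ 0 → (n : ℚ) / M ≠ 1 → (k : ℚ) = κ * (1 - σ) →
      Teq κ E (μ * E + c0) 1 (n / M) k →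
      c0 = 1 - μ ∧ n / M * (κ * (σ - μ) + μ) = μ * (1 - κ * (1 - σ))
  g1 : σ ≠ 1 → (κ : ℚ) * (1 - σ) * (1 - ρ - σ) ≠ κ * σ * ((1 - σ) * G - ρ)
  g2 : σ ≠ 1 → ∀ n : ℤ, (κ * σ * (1 - G) - κ * (1 - σ)) * ((n : ℚ) / M - σ) ≠ κ * σ * (1 - σ)

theorem ev_EvN (B : Finset Pt) (α b1 b2 : ℤ) (hα : α ≠ 0) (hb2 : b2 ≠ 0) {κ : ℤ} {M : ℚ}
    (hM : M ≠ 0) (hκ0 : κ ≠ 0) (hκ1 : κ ≠ 1) (μ c0 σ ρ : ℚ) (hμ : μ ≠ 0) (hc0 : c0 ≠ 0)
    (hσ : σ ≠ 0) (hρ : ρ ≠ 0) (hk2 : μ * (1 - κ) + σ * κ ≠ 0) :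
    ∀ᶠ E : ℤ in cofinite, ∀ᶠ G : ℤ in cofinite, EvN B α b1 b2 κ M E G μ c0 σ ρ := by
  have hκ0q : (κ : ℚ) ≠ 0 := by exact_mod_cast hκ0
  have hκ1q : (κ : ℚ) ≠ 1 := by exact_mod_cast hκ1
  have X2 : ∀ᶠ E : ℤ in cofinite, σ ≠ 1 → ∀ n k n' : ℤ, n ≠ 0 → (n : ℚ) / M ≠ 1 →
      (k : ℚ) ≠ κ → (k - κ * (1 - σ)) * (n' / M - σ) = κ * σ * (1 - σ) →
      Teq κ E (μ * E + c0) 0 (n / M) k → (k : ℚ) = κ + μ * (1 - κ) := by
    by_cases h : σ = 1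
    · exact Eventually.of_forall (fun E h' => absurd h h')
    · filter_upwards [tc_ii hM hκ0q hκ1q μ c0 σ hc0 hμ hσ h] with E hE _
      exact hE
  filter_upwards [ev_nohit B α b1 b2 hα hb2 hM hκ0 hκ1 μ c0 σ ρ hμ hc0 hσ hρ hk2,
    c4 hM hκ1q μ c0 hc0, c6a hM hκ1q σ ρ hρ, tc_i hM hκ1q μ c0 σ hc0 hk2, X2,
    ta_i hM hκ1q μ c0 σ hk2, lneQ μ c0 (Or.inl hμ), evQ 0] with E e1 e2 e3 e4 e5 e6 e7 e8
  have hE0 : (E : ℚ) ≠ 0 := abs_pos.mp e8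
  have hEi : E ≠ 0 := by rintro rfl; exact hE0 (by norm_num)
  have X3 : ∀ᶠ G : ℤ in cofinite, σ ≠ 1 → 1 - ρ - σ ≠ 0 → ∀ n k : ℤ, (n : ℚ) / M ≠ 1 →
      k * (1 - ρ - σ) = κ * σ * ((1 - σ) * G - ρ) →
      ¬ Teq κ E (μ * E + c0) 0 (n / M) k := by
    by_cases h : σ = 1
    · exact Eventually.of_forall (fun G h' => absurd h h')
    by_cases h2 : 1 - ρ - σ = 0
    · exact Eventually.of_forall (fun G _ h' => absurd h2 h')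
    filter_upwards [tc_iii hM hκ0q hκ1q σ ρ (μ * E + c0) E hEi e7 hσ h h2] with G hG _ _
    exact hG
  have X4 : ∀ᶠ G : ℤ in cofinite, σ ≠ 1 →
      (κ : ℚ) * (1 - σ) * (1 - ρ - σ) ≠ κ * σ * ((1 - σ) * G - ρ) := by
    by_cases h : σ = 1
    · exact Eventually.of_forall (fun G h' => absurd h h')
    filter_upwards [lneQ (κ * σ * (1 - σ)) (-(κ * σ * ρ) - κ * (1 - σ) * (1 - ρ - σ))
      (Or.inl (mul_ne_zero (mul_ne_zero hκ0q hσ) (sub_ne_zero.mpr (Ne.symm h))))] with G hG _ hc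
    apply hG
    linear_combination -hc
  have X5 : ∀ᶠ G : ℤ in cofinite, σ ≠ 1 → ∀ n : ℤ,
      (κ * σ * (1 - G) - κ * (1 - σ)) * ((n : ℚ) / M - σ) ≠ κ * σ * (1 - σ) := by
    by_cases h : σ = 1
    · exact Eventually.of_forall (fun G h' => absurd h h')
    have hA : -(κ * σ) / M ≠ 0 := div_ne_zero (neg_ne_zero.mpr (mul_ne_zero hκ0q hσ)) hM
    filter_upwards [linQ (-(κ * σ) / M) (κ * σ * σ) ((κ * σ - κ * (1 - σ)) / M)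
      (-((κ * σ - κ * (1 - σ)) * σ) - κ * σ * (1 - σ)) hA] with G hG _ n hc
    obtain ⟨h1, h2⟩ := hG n (by linear_combination hc)
    obtain ⟨r, hr⟩ : ∃ r : ℚ, r = n / M := ⟨_, rfl⟩
    have h1' : κ * σ * (σ - r) = 0 := by rw [hr]; linear_combination h1
    have h3 := (mul_eq_zero.mp h1').resolve_left (mul_ne_zero hκ0q hσ)
    have h2' : (κ * σ - κ * (1 - σ)) * (r - σ) - κ * σ * (1 - σ) = 0 := by
      rw [hr]; linear_combination h2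
    have h4 : κ * σ * (1 - σ) = 0 := by
      linear_combination -h2' - (κ * σ - κ * (1 - σ)) * h3
    exact mul_ne_zero (mul_ne_zero hκ0q hσ) (sub_ne_zero.mpr (Ne.symm h)) h4
  filter_upwards [e1, e2, e3, c6b hM σ ρ hκ0q E hEi, c6c hM σ ρ hρ E hEi, X3, X4, X5]
    with G g1 g2 g3 g4 g5 g6 g7 g8
  exact ⟨g1.1, g1.2.1, g1.2.2, g2, g3, g4, g5, e4, e5, g6, e6, g7, g8⟩

namespace FQ

variable {R B R3 B3 : Finset Pt} {α b1 b2 κ p G k T : ℤ} {t2 : Pt}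

/-- the first exceptional position: `t3 t` hits `f a` and `f c` -/
structure Sig (B : Finset Pt) (α b1 b2 κ p G k T : ℤ) (t2 : Pt) (R3 B3 : Finset Pt)
    (μ c0 σ ρ : ℚ) : Prop where
  hσ : σ = μ
  hρ : ρ = 1 - μ
  hμ1 : μ ≠ 1
  hc : c0 ≠ 1 - μ
  hk : (k : ℚ) = κ + μ * (1 - κ)
  hit_c : ∀ z, Col (Pf G b1 b2 (α * p) κ) (0, 0) z → z ∉ R3 → ∀ u ∈ B3, ∀ v ∈ B3, u ≠ v →
    Col u v z → IsP (Pf G b1 b2 (α * p) k) (T, 0) u v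
  hit_a : ∀ z, Col (Pf G b1 b2 (α * p) κ) (α, 0) z → z ∉ R3 → ∀ u ∈ B3, ∀ v ∈ B3, u ≠ v →
    Col u v z → IsP (Pf G b1 b2 (α * p) k) (T, 0) u v
  red : ∀ w ∈ R3, ¬ Col (Pf G b1 b2 (α * p) k) (T, 0) w
  Y : ∃ Y, Col (Pf G b1 b2 (α * p) κ) (α, 0) Y ∧ Col (Pf G b1 b2 (α * p) k) (T, 0) Y ∧ Y ∉ R3

/-- the second exceptional position: `t3 t2` hits `f b` and `f c` -/
structure Omg (B : Finset Pt) (α b1 b2 κ p G k T : ℤ) (t2 : Pt) (R3 B3 : Finset Pt)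
    (μ c0 σ ρ : ℚ) : Prop where
  hσ : σ = μ
  hc : c0 = 1 - μ
  hρ : 1 - μ - ρ ≠ 0
  hμ1 : μ ≠ 1
  hk : (k : ℚ) = κ * (1 - μ)
  hit_c : ∀ z, Col (Pf G b1 b2 (α * p) κ) (0, 0) z → z ∉ R3 → ∀ u ∈ B3, ∀ v ∈ B3, u ≠ v →
    Col u v z → IsP (Pf G b1 b2 (α * p) k) t2 u v
  hit_b : ∀ z, Col (Pf G b1 b2 (α * p) κ) (b1, b2) z → z ∉ R3 → ∀ u ∈ B3, ∀ v ∈ B3, u ≠ v →
    Col u v z → IsP (Pf G b1 b2 (α * p) k) t2 u v
  red : ∀ w ∈ R3, ¬ Col (Pf G b1 b2 (α * p) k) t2 w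
  Y : ∃ Y, Col (Pf G b1 b2 (α * p) κ) (b1, b2) Y ∧ Col (Pf G b1 b2 (α * p) k) t2 Y ∧ Y ∉ R3

/-- a pair `u, v` as a line -/
theorem isP_line {a b u v z : Pt} (h : IsP a b u v) : Col u v z ↔ Col a b z := by
  rcases h with ⟨h1, h2⟩ | ⟨h1, h2⟩
  · rw [h1, h2]
  · rw [h1, h2]; exact ⟨fun h => h.swap12, fun h => h.swap12⟩

/-- Win, or one of the two exceptional positions -/
theorem casesN (Q : FQ R B α b1 b2 κ p G k T t2 R3 B3) {μ c0 σ ρ : ℚ}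
    (V : EvN B α b1 b2 κ (((α * b2 : ℤ) : ℚ) * κ * (1 - κ)) p G μ c0 σ ρ)
    (hτ : nx α b1 b2 (T, 0) = μ * p + c0) (hτ2 : ny b2 t2 = σ * G + ρ)
    (hσ : σ ≠ 0) (hρ : ρ ≠ 0)
    (k3 : σ ≠ μ → μ ≠ 1 → ∀ n : ℤ, (n : ℚ) / (((α * b2 : ℤ) : ℚ) * κ * (1 - κ)) *
      (κ * (σ - μ) + μ) ≠ μ * (1 - κ * (1 - σ)))
    (k4 : σ ≠ μ → σ ≠ 1 → ∀ n : ℤ, (κ + μ * (1 - κ) - κ * (1 - σ)) *
      ((n : ℚ) / (((α * b2 : ℤ) : ℚ) * κ * (1 - κ)) - σ) ≠ κ * σ * (1 - σ))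
    (hc0 : c0 ≠ 0) {n : ℕ} (hF1 : ForkSols 1 p n) (hF2 : ForkSols 1 G n) (hn : B3.card < n) :
    Win R3 B3 ∨ Sig B α b1 b2 κ p G k T t2 R3 B3 μ c0 σ ρ ∨
      Omg B α b1 b2 κ p G k T t2 R3 B3 μ c0 σ ρ := by
  have hAc := Q.alive_c V.hc hτ hτ2
  have hAb := Q.alive_b V.hb hτ hτ2
  have hAa := Q.alive_a V.ha hτ hτ2
  have hkq : (k : ℚ) ≠ 0 := by exact_mod_cast Q.k0
  have hkκ : (k : ℚ) ≠ κ := by exact_mod_cast Q.kκ
  have hk1 : (k : ℚ) ≠ 1 := by exact_mod_cast Q.k1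
  have hκq : (κ : ℚ) ≠ 0 := by exact_mod_cast Q.hκ0
  have hκ1 := Q.kap1
  have hG1 : (G : ℚ) ≠ 1 := by exact_mod_cast Q.hG1
  by_cases hUb : Uncov R3 B3 (Pf G b1 b2 (α * p) κ) (b1, b2)
  · exact Or.inl (Q.fork2 hAb hAc hF2 hn (Or.inl hUb))
  by_cases hUc : Uncov R3 B3 (Pf G b1 b2 (α * p) κ) (0, 0)
  · exact Or.inl (Q.fork2 hAb hAc hF2 hn (Or.inr hUc))
  by_cases hUa : Uncov R3 B3 (Pf G b1 b2 (α * p) κ) (α, 0)
  · exact Or.inl (Q.fork1 hAa hAc hF1 hn (Or.inl hUa))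
  right
  obtain ⟨zb, hzb, hzbR, xb, hxb, yb, hyb, hxyb, hcb, hrb⟩ := not_uncov hUb
  obtain ⟨nb, hnb, hnb1, _, _, hb1⟩ := Q.hit_b V.hb V.tb hτ hτ2 hzb hzbR
  obtain ⟨pb, eb⟩ := hb1 xb hxb yb hyb hxyb hcb
  obtain ⟨zc, hzc, hzcR, xc, hxc, yc, hyc, hxyc, hcc, hrc⟩ := not_uncov hUc
  obtain ⟨nc, hnc, hnc1, _, _, hc1⟩ := Q.hit_c V.hc hτ hτ2 hzc hzcR
  have ec := hc1 xc hxc yc hyc hxyc hcc
  obtain ⟨za, hza, hzaR, xa, hxa, ya, hya, hxya, hca, hra⟩ := not_uncov hUa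
  obtain ⟨na, hna, hna1, _, _, ha1⟩ := Q.hit_a V.ha V.sa hτ hτ2 hza hzaR
  obtain ⟨pa, ea⟩ := ha1 xa hxa ya hya hxya hca
  rcases V.sb nb k hnb1 Q.k0 hnb eb with ⟨h1, h2⟩ | ⟨h1, h2⟩ | ⟨h1, h2⟩
  · -- (i)
    right
    have hσ1 : σ ≠ 1 := by
      intro h
      rw [h, sub_self, mul_zero] at h1
      exact hkq h1
    have hσρ : 1 - σ - ρ ≠ 0 := by
      intro h
      rw [h, mul_zero] at h2
      have h3 : (1 - σ) * (σ * (1 - G)) = 0 := by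
        have : ρ = 1 - σ := by linarith
        rw [this] at h2
        linear_combination -h2
      rcases mul_eq_zero.mp h3 with h4 | h4
      · exact hσ1 (by linarith)
      · rcases mul_eq_zero.mp h4 with h4 | h4
        · exact hσ h4
        · exact hG1 (by linarith)
    obtain ⟨a1, a2⟩ := V.xai na k hna hna1 h1 ea
    have hμ1 : μ ≠ 1 := by
      intro h
      rw [h, sub_self] at a1
      exact hc0 a1
    have hσμ : σ = μ := by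
      by_contra hne
      exact k3 hne hμ1 na a2
    refine ⟨hσμ, a1, by rw [← hσμ]; exact hσρ, hμ1, by rw [← hσμ]; exact h1, ?_, ?_, ?_, ?_⟩
    · intro z hz hzR u hu v hv huv hc
      obtain ⟨m, hm, hm1, _, _, h5⟩ := Q.hit_c V.hc hτ hτ2 hz hzR
      rcases h5 u hu v hv huv hc with ⟨_, h6⟩ | ⟨h6, _⟩
      · exact absurd h6 (V.xi m k hm hm1 h1)
      · exact h6
    · intro z hz hzR u hu v hv huv hc
      obtain ⟨m, hm, hm1, _, _, h5⟩ := Q.hit_b V.hb V.tb hτ hτ2 hz hzR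
      exact (h5 u hu v hv huv hc).1
    · intro w hw h
      exact hrb w hw ((isP_line pb).mpr h)
    · exact ⟨zb, hzb, (isP_line pb).mp hcb, hzbR⟩
  · -- (iii)
    exfalso
    have hσρ : 1 - ρ - σ ≠ 0 := by
      intro h
      rw [h, mul_zero] at h2
      have h3 : κ * σ * ((1 - σ) * (G - 1)) = 0 := by
        have : ρ = 1 - σ := by linarith
        rw [this] at h2
        linear_combination -h2
      rcases mul_eq_zero.mp h3 with h4 | h4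
      · exact mul_ne_zero hκq hσ h4
      · rcases mul_eq_zero.mp h4 with h4 | h4
        · apply hρ; linarith
        · exact hG1 (by linarith)
    have hσ1 : σ ≠ 1 := by
      intro h
      rw [h] at h2
      have h3 : ρ * (k - κ) = 0 := by linear_combination -h2
      rcases mul_eq_zero.mp h3 with h4 | h4
      · exact hρ h4
      · exact hkκ (by linarith)
    rcases ec with ⟨_, h3⟩ | ⟨_, h3⟩
    · exact V.xiii hσ1 hσρ nc k hnc1 h2 h3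
    · rcases V.sc nc k hnc1 Q.k0 h3 with ⟨h4, _⟩ | ⟨_, h4⟩
      · apply V.g1 hσ1
        rw [h4] at h2
        linear_combination h2
      · have h5 : (k : ℚ) * (1 - σ) = 0 := by linear_combination h2 + h4
        rcases mul_eq_zero.mp h5 with h6 | h6
        · exact hkq h6
        · exact hσ1 (by linarith)
  · -- (ii)
    left
    have hρ' : ρ = 1 - σ := by linarith
    have hσ1 : σ ≠ 1 := by
      intro h
      apply hρ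
      rw [hρ', h]; ring
    have noS : ∀ m : ℤ, (m : ℚ) / (((α * b2 : ℤ) : ℚ) * κ * (1 - κ)) ≠ 1 →
        ¬ cq (k * p) ((1 - k) * G) 0 (σ * G + ρ)
          (m / (((α * b2 : ℤ) : ℚ) * κ * (1 - κ)) * (κ * p))
          (m / (((α * b2 : ℤ) : ℚ) * κ * (1 - κ)) * ((1 - κ) * G)) := by
      intro m hm1 h3
      rcases V.sc m k hm1 Q.k0 h3 with ⟨h4, _⟩ | ⟨_, h4⟩
      · rw [h4] at h2
        have h5 : κ * σ * (1 - σ) = 0 := by linear_combination -h2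
        exact mul_ne_zero (mul_ne_zero hκq hσ) (sub_ne_zero.mpr hσ1.symm) h5
      · apply V.g2 hσ1 nb
        have h5 : (1 - σ) * (k - κ * σ * (1 - G)) = 0 := by
          rw [hρ'] at h4
          linear_combination h4
        have h6 := (mul_eq_zero.mp h5).resolve_left (sub_ne_zero.mpr hσ1.symm)
        have h7 : (k : ℚ) = κ * σ * (1 - G) := by linarith
        rw [h7] at h2
        exact h2
    have h3 : Teq κ p (μ * p + c0) 0 (nc / (((α * b2 : ℤ) : ℚ) * κ * (1 - κ))) k := by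
      rcases ec with ⟨_, h3⟩ | ⟨_, h3⟩
      · exact h3
      · exact absurd h3 (noS nc hnc1)
    have hk := V.xii hσ1 nc k nb hnc hnc1 hkκ h2 h3
    have hσμ : σ = μ := by
      by_contra hne
      rw [hk] at h2
      exact k4 hne hσ1 nb h2
    have hμ1 : μ ≠ 1 := by rw [← hσμ]; exact hσ1
    refine ⟨hσμ, by rw [hρ', hσμ], hμ1, ?_, hk, ?_, ?_, ?_, ?_⟩
    · intro hc
      unfold Teq at ea
      have hτ1 : μ * p + c0 ≠ 1 := by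
        rw [← hτ, nx_r Q.K.hb2]
        intro h
        have hαq : (α : ℚ) ≠ 0 := by exact_mod_cast Q.K.hα
        rw [div_eq_one_iff_eq hαq] at h
        apply Q.Ta
        exact_mod_cast h
      have h4 : (μ * p + c0 - 1) * ((1 - κ) * (1 - μ)) = 0 := by
        rw [hk, hc] at ea
        rw [hc]
        linear_combination ea
      rcases mul_eq_zero.mp h4 with h5 | h5
      · exact hτ1 (by linarith)
      · rcases mul_eq_zero.mp h5 with h5 | h5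
        · exact hκ1 h5
        · exact hμ1 (by linarith)
    · intro z hz hzR u hu v hv huv hc
      obtain ⟨m, hm, hm1, _, _, h5⟩ := Q.hit_c V.hc hτ hτ2 hz hzR
      rcases h5 u hu v hv huv hc with ⟨h6, _⟩ | ⟨_, h6⟩
      · exact h6
      · exact absurd h6 (noS m hm1)
    · intro z hz hzR u hu v hv huv hc
      obtain ⟨m, hm, hm1, _, _, h5⟩ := Q.hit_a V.ha V.sa hτ hτ2 hz hzR
      exact (h5 u hu v hv huv hc).1
    · intro w hw h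
      exact hra w hw ((isP_line pa).mpr h)
    · exact ⟨za, hza, (isP_line pa).mp hca, hzaR⟩

end FQ

end Pool.Agent.K4L
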