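import Pool.Agent.K4L.K3UF8

/-!
# K3U, the kill `f` on `g e`: parallels, and the facts for the two leaves
-/

namespace Pool.Agent.K4L

open Filter

/-- a nonzero polynomial of degree `≤ 3` -/
theorem cubQ (a b c d : ℚ) (h : a ≠ 0 ∨ b ≠ 0 ∨ c ≠ 0 ∨ d ≠ 0) :
    ∀ᶠ E : ℤ in cofinite, a * (E : ℚ) * E * E + b * E * E + c * E + d ≠ 0 := by
  obtain ⟨P, hP⟩ : ∃ P : Polynomial ℚ, P = Polynomial.C a * Polynomial.X ^ 3 +
    Polynomial.C b * Polynomial.X ^ 2 + Polynomial.C c * Polynomial.X + Polynomial.C d := ⟨_, rfl⟩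
  have hev : ∀ x : ℚ, P.eval x = a * x * x * x + b * x * x + c * x + d := by
    intro x
    rw [hP]
    simp only [Polynomial.eval_add, Polynomial.eval_mul, Polynomial.eval_C, Polynomial.eval_pow,
      Polynomial.eval_X]
    ring
  have hne : P ≠ 0 := by
    intro h0
    have e0 := hev 0
    have e1 := hev 1
    have e2 := hev (-1)
    have e3 := hev 2
    rw [h0, Polynomial.eval_zero] at e0 e1 e2 e3
    have hd : d = 0 := by linarith
    have hb : b = 0 := by linarith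
    have ha : a = 0 := by linarith
    have hc : c = 0 := by linarith
    rcases h with h | h | h | h
    · exact h ha
    · exact h hb
    · exact h hc
    · exact h hd
  have hfin : {x : ℚ | P.eval x = 0}.Finite := by
    refine (P.roots.toFinset.finite_toSet).subset ?_
    intro x hx
    simp only [Finset.mem_coe, Multiset.mem_toFinset, Polynomial.mem_roots hne]
    exact hx
  have hfin2 : {E : ℤ | P.eval (E : ℚ) = 0}.Finite :=
    hfin.preimage (Int.cast_injective.injOn)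
  have : ∀ᶠ E : ℤ in cofinite, P.eval (E : ℚ) ≠ 0 := by
    rw [Filter.eventually_cofinite]
    refine hfin2.subset ?_
    intro E hE
    simpa using hE
  filter_upwards [this] with E hE
  rw [hev] at hE
  exact hE

/-- parallel rational vectors -/
def parq (dx dy x1 y1 x2 y2 : ℚ) : Prop := dx * (y2 - y1) = dy * (x2 - x1)

theorem n_par {α b1 b2 : ℤ} (hα : α ≠ 0) (hb2 : b2 ≠ 0) (u v p q : Pt) : Par u v p q ↔
    parq (nx α b1 b2 v - nx α b1 b2 u) (ny b2 v - ny b2 u) (nx α b1 b2 p) (ny b2 p)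
      (nx α b1 b2 q) (ny b2 q) := by
  have c1 : (b2 : ℚ) ≠ 0 := by exact_mod_cast hb2
  have c2 : (α : ℚ) ≠ 0 := by exact_mod_cast hα
  have key : (((v.1 - u.1) * (q.2 - p.2) - (v.2 - u.2) * (q.1 - p.1) : ℤ) : ℚ) =
      α * b2 * ((nx α b1 b2 v - nx α b1 b2 u) * (ny b2 q - ny b2 p) -
        (ny b2 v - ny b2 u) * (nx α b1 b2 q - nx α b1 b2 p)) := by
    push_cast
    rw [n_1 (b1 := b1) hα hb2 u, n_1 (b1 := b1) hα hb2 v, n_1 (b1 := b1) hα hb2 p,
      n_1 (b1 := b1) hα hb2 q, n_2 hb2 u, n_2 hb2 v, n_2 hb2 p, n_2 hb2 q]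
    ring
  unfold Par parq
  constructor
  · intro h
    have h2 : (((v.1 - u.1) * (q.2 - p.2) - (v.2 - u.2) * (q.1 - p.1) : ℤ) : ℚ) = 0 := by
      rw [h, sub_self]; rfl
    rw [key] at h2
    have := (mul_eq_zero.mp h2).resolve_left (mul_ne_zero c2 c1)
    linarith
  · intro h
    have h2 : (((v.1 - u.1) * (q.2 - p.2) - (v.2 - u.2) * (q.1 - p.1) : ℤ) : ℚ) = 0 := by
      rw [key, h, sub_self, mul_zero]
    have h3 : (v.1 - u.1) * (q.2 - p.2) - (v.2 - u.2) * (q.1 - p.1) = 0 := by exact_mod_cast h2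
    linarith

/-- no parallels to the direction `(dx, dy)` -/
structure NoPar (B : Finset Pt) (α b1 b2 : ℤ) (τ τ2 dx dy : ℚ) : Prop where
  nn : ∀ u ∈ B, ∀ v ∈ B, u ≠ v → ¬ parq dx dy (nx α b1 b2 u) (ny b2 u) (nx α b1 b2 v) (ny b2 v)
  tn : ∀ u ∈ B, ¬ parq dx dy τ 0 (nx α b1 b2 u) (ny b2 u)
  t2n : ∀ u ∈ B, ¬ parq dx dy 0 τ2 (nx α b1 b2 u) (ny b2 u)
  t2t : ¬ parq dx dy 0 τ2 τ 0

section
variable {κ : ℤ} {M : ℚ}

/-- the direction of an arm -/
theorem ev_nopar (B : Finset Pt) (α b1 b2 : ℤ) (hα : α ≠ 0) (hb2 : b2 ≠ 0) (hκ0 : κ ≠ 0)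
    (hκ1 : κ ≠ 1) (v1 v2 μ c0 σ ρ : ℚ) (hμ : μ ≠ 0) (hσ : σ ≠ 0)
    (hk2 : μ * (1 - κ) + σ * κ ≠ 0) :
    ∀ᶠ E : ℤ in cofinite, ∀ᶠ G : ℤ in cofinite,
      NoPar B α b1 b2 (μ * E + c0) (σ * G + ρ) (κ * E - v1) ((1 - κ) * G - v2) := by
  have hκ0q : (κ : ℚ) ≠ 0 := by exact_mod_cast hκ0
  have hκ1q : (1 : ℚ) - κ ≠ 0 := by
    intro h; apply hκ1
    have : (κ : ℚ) = 1 := by linarith
    exact_mod_cast this
  have E2 : ∀ᶠ E : ℤ in cofinite, ∀ u ∈ B, μ * (E : ℚ) + (c0 - nx α b1 b2 u) ≠ 0 :=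
    ev_fin B (fun u _ => lneQ _ _ (Or.inl hμ))
  have E3 : ∀ᶠ E : ℤ in cofinite, ∀ u ∈ B,
      (σ * κ) * (E : ℚ) + ((1 - κ) * nx α b1 b2 u - σ * v1) ≠ 0 :=
    ev_fin B (fun u _ => lneQ _ _ (Or.inl (mul_ne_zero hσ hκ0q)))
  filter_upwards [lneQ κ (-v1) (Or.inl hκ0q), E2, E3,
    lneQ (μ * (1 - κ) + σ * κ) (c0 * (1 - κ) - σ * v1) (Or.inl hk2)] with E e1 e2 e3 e4
  have G1 : ∀ᶠ G : ℤ in cofinite, ∀ u ∈ B, ∀ v ∈ B, u ≠ v →
      ((1 - κ) * (nx α b1 b2 v - nx α b1 b2 u)) * (G : ℚ) +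
      (-(v2 * (nx α b1 b2 v - nx α b1 b2 u)) - (κ * E - v1) * (ny b2 v - ny b2 u)) ≠ 0 := by
    refine ev_fin2 B B ?_
    intro u _ v _
    by_cases huv : u = v
    · exact Eventually.of_forall (fun G h => absurd huv h)
    by_cases hx : nx α b1 b2 u = nx α b1 b2 v
    · have hy : ny b2 u ≠ ny b2 v := fun h => huv (n_ext hα hb2 hx h)
      refine Eventually.of_forall (fun G _ h => ?_)
      rw [hx, sub_self] at h
      have h2 : (κ * (E : ℚ) + -v1) * (ny b2 v - ny b2 u) = 0 := by linear_combination -h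
      rcases mul_eq_zero.mp h2 with h3 | h3
      · exact e1 h3
      · exact hy (by linarith)
    · filter_upwards [lneQ ((1 - κ) * (nx α b1 b2 v - nx α b1 b2 u))
        (-(v2 * (nx α b1 b2 v - nx α b1 b2 u)) - (κ * E - v1) * (ny b2 v - ny b2 u))
        (Or.inl (mul_ne_zero hκ1q (sub_ne_zero.mpr (Ne.symm hx))))] with G hG _
      exact hG
  have G2 : ∀ᶠ G : ℤ in cofinite, ∀ u ∈ B,
      ((1 - κ) * (nx α b1 b2 u - (μ * E + c0))) * (G : ℚ) +
      (-(v2 * (nx α b1 b2 u - (μ * E + c0))) - (κ * E - v1) * ny b2 u) ≠ 0 := by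
    refine ev_fin B ?_
    intro u hu
    refine lneQ _ _ (Or.inl (mul_ne_zero hκ1q ?_))
    intro h
    exact e2 u hu (by linear_combination -h)
  have G3 : ∀ᶠ G : ℤ in cofinite, ∀ u ∈ B,
      (-((1 - κ) * nx α b1 b2 u + σ * (κ * E - v1))) * (G : ℚ) +
      (v2 * nx α b1 b2 u + (κ * E - v1) * (ny b2 u - ρ)) ≠ 0 := by
    refine ev_fin B ?_
    intro u hu
    refine lneQ _ _ (Or.inl ?_)
    intro h
    exact e3 u hu (by linear_combination -h)
  have G4 : ∀ᶠ G : ℤ in cofinite,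
      (-((1 - κ) * (μ * E + c0) + σ * (κ * E - v1))) * (G : ℚ) +
      (v2 * (μ * E + c0) - (κ * E - v1) * ρ) ≠ 0 := by
    refine lneQ _ _ (Or.inl ?_)
    intro h
    exact e4 (by linear_combination -h)
  filter_upwards [G1, G2, G3, G4] with G g1 g2 g3 g4
  refine ⟨?_, ?_, ?_, ?_⟩
  · intro u hu v hv huv h
    unfold parq at h
    exact g1 u hu v hv huv (by linear_combination -h)
  · intro u hu h
    unfold parq at h
    exact g2 u hu (by linear_combination -h)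
  · intro u hu h
    unfold parq at h
    exact g3 u hu (by linear_combination h)
  · intro h
    unfold parq at h
    exact g4 (by linear_combination h)

/-- `t3` and a near stone are not parallel to the arm `c` -/
theorem p3n_c (x y : ℚ) (hκ0 : κ ≠ 0) (hy : y ≠ 0) (E : ℤ) (hE : E ≠ 0) :
    ∀ᶠ G : ℤ in cofinite, ∀ k : ℤ,
      ¬ parq (κ * E) ((1 - κ) * G) (k * E) ((1 - k) * G) x y := by
  have hκ0q : (κ : ℚ) ≠ 0 := by exact_mod_cast hκ0
  have hEq : (E : ℚ) ≠ 0 := by exact_mod_cast hE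
  filter_upwards [linQ E (-(κ * E) - (1 - κ) * x) 0 (κ * E * y) hEq] with G hG k h
  unfold parq at h
  obtain ⟨_, h2⟩ := hG k (by linear_combination h)
  rw [zero_mul, zero_add] at h2
  exact mul_ne_zero (mul_ne_zero hκ0q hEq) hy h2

/-- `t3` and a near stone are not parallel to the arm `a` -/
theorem p3n_a (x y : ℚ) (hκ0 : κ ≠ 0) (hy : y ≠ 0) :
    ∀ᶠ E : ℤ in cofinite, ∀ᶠ G : ℤ in cofinite, ∀ k : ℤ,
      ¬ parq (κ * E - 1) ((1 - κ) * G) (k * E) ((1 - k) * G) x y := by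
  have hκ0q : (κ : ℚ) ≠ 0 := by exact_mod_cast hκ0
  filter_upwards [lneQ κ (-1) (Or.inl hκ0q), lneQ 1 (-1) (Or.inl one_ne_zero)] with E e1 e2
  have hE1 : (E : ℚ) - 1 ≠ 0 := fun h => e2 (by linear_combination h)
  filter_upwards [linQ ((E : ℚ) - 1) (-(κ * E - 1) - (1 - κ) * x) 0 ((κ * E - 1) * y) hE1]
    with G hG k h
  unfold parq at h
  obtain ⟨_, h2⟩ := hG k (by linear_combination h)
  rw [zero_mul, zero_add] at h2
  refine mul_ne_zero ?_ hy h2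
  intro h3; exact e1 (by linear_combination h3)

/-- `t3` and a near stone are not parallel to the arm `b` -/
theorem p3n_b (x y θ : ℚ) (hθ : θ ≠ κ) :
    ∀ᶠ E : ℤ in cofinite, ∀ᶠ G : ℤ in cofinite,
      ¬ parq (κ * E) ((1 - κ) * G - 1) (θ * E) ((1 - θ) * G) x y := by
  filter_upwards [lneQ (θ - κ) (-((1 - κ) * x)) (Or.inl (sub_ne_zero.mpr hθ))] with E e1
  filter_upwards [lneQ ((θ - κ) * (E : ℚ) + -((1 - κ) * x)) (κ * E * y + x - θ * E) (Or.inl e1)]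
    with G hG h
  unfold parq at h
  exact hG (by linear_combination h)

/-- `t3 t` is not parallel to the arm `c`; also: the line through `t` parallel to the arm `c`
misses `g e` -/
theorem p3t_c (μ c0 : ℚ) (hc0 : c0 ≠ 0) (hκ1 : κ ≠ 1) :
    ∀ᶠ E : ℤ in cofinite, ∀ k : ℤ, (k : ℚ) * E - κ * E - (1 - κ) * (μ * E + c0) ≠ 0 := by
  have hκ1q : (1 : ℚ) - κ ≠ 0 := by
    intro h; apply hκ1
    have : (κ : ℚ) = 1 := by linarith
    exact_mod_cast this
  filter_upwards [linQ 1 (-κ - (1 - κ) * μ) 0 (-((1 - κ) * c0)) one_ne_zero] with E e1 k h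
  obtain ⟨_, h2⟩ := e1 k (by linear_combination h)
  rw [zero_mul, zero_add] at h2
  exact mul_ne_zero hκ1q hc0 (by linear_combination -h2)

/-- `t3 t2` is not parallel to the arm `c`; also: the line through `t2` parallel to the arm `c`
misses `g e` -/
theorem p32_c (σ ρ : ℚ) (hρ : ρ ≠ 0) (hκ0 : κ ≠ 0) :
    ∀ᶠ G : ℤ in cofinite, ∀ k : ℤ, ((k : ℚ) - κ * (1 - σ)) * G + κ * ρ ≠ 0 := by
  have hκ0q : (κ : ℚ) ≠ 0 := by exact_mod_cast hκ0
  filter_upwards [linQ 1 (-(κ * (1 - σ))) 0 (κ * ρ) one_ne_zero] with G hG k h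
  obtain ⟨_, h2⟩ := hG k (by linear_combination h)
  rw [zero_mul, zero_add] at h2
  exact mul_ne_zero hκ0q hρ h2

/-- `t3 t2` is not parallel to the arm `a` -/
theorem p32_a (σ ρ : ℚ) (hρ : ρ ≠ 0) (hκ0 : κ ≠ 0) :
    ∀ᶠ E : ℤ in cofinite, ∀ᶠ G : ℤ in cofinite, ∀ k : ℤ,
      ¬ parq (κ * E - 1) ((1 - κ) * G) (k * E) ((1 - k) * G) 0 (σ * G + ρ) := by
  have hκ0q : (κ : ℚ) ≠ 0 := by exact_mod_cast hκ0
  filter_upwards [lneQ κ (-1) (Or.inl hκ0q), lneQ 1 (-1) (Or.inl one_ne_zero)] with E e1 e2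
  have hE1 : (E : ℚ) - 1 ≠ 0 := fun h => e2 (by linear_combination h)
  filter_upwards [linQ ((E : ℚ) - 1) (-(κ * E - 1) * (1 - σ)) 0 ((κ * E - 1) * ρ) hE1]
    with G hG k h
  unfold parq at h
  obtain ⟨_, h2⟩ := hG k (by linear_combination h)
  rw [zero_mul, zero_add] at h2
  refine mul_ne_zero ?_ hρ h2
  intro h3; exact e1 (by linear_combination h3)

end

end Pool.Agent.K4L
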