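import Pool.Agent.K4L.K3UF15

/-!
# K3U, the kill `f` on `g e`: pairs `(E, δ)` with `E` large and `δ` small relative to `E`
-/

namespace Pool.Agent.K4L

open Filter

/-- `E → ∞`, `δ ≠ 0`, `D δ` an integer, `|δ| ≤ ε |E|` -/
def FD (D : ℤ) : Filter (ℤ × ℚ) where
  sets := {S | ∃ ε : ℚ, 0 < ε ∧ ∀ᶠ E : ℤ in cofinite, ∀ δ : ℚ, (∃ m : ℤ, (D : ℚ) * δ = m) →
    δ ≠ 0 → |δ| ≤ ε * |(E : ℚ)| → (E, δ) ∈ S}
  univ_sets := ⟨1, one_pos, Eventually.of_forall (fun _ _ _ _ _ => Set.mem_univ _)⟩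
  sets_of_superset := by
    rintro S S' ⟨ε, h0, h⟩ hS
    refine ⟨ε, h0, ?_⟩
    filter_upwards [h] with E hE δ h1 h2 h3
    exact hS (hE δ h1 h2 h3)
  inter_sets := by
    rintro S S' ⟨ε, h0, h⟩ ⟨ε', h0', h'⟩
    refine ⟨min ε ε', lt_min h0 h0', ?_⟩
    filter_upwards [h, h'] with E hE hE' δ h1 h2 h3
    have a1 : min ε ε' * |(E : ℚ)| ≤ ε * |(E : ℚ)| :=
      mul_le_mul_of_nonneg_right (min_le_left _ _) (abs_nonneg _)
    have a2 : min ε ε' * |(E : ℚ)| ≤ ε' * |(E : ℚ)| :=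
      mul_le_mul_of_nonneg_right (min_le_right _ _) (abs_nonneg _)
    exact ⟨hE δ h1 h2 (h3.trans a1), hE' δ h1 h2 (h3.trans a2)⟩

theorem ev_FD {D : ℤ} {P : ℤ × ℚ → Prop} : (∀ᶠ x in FD D, P x) ↔
    ∃ ε : ℚ, 0 < ε ∧ ∀ᶠ E : ℤ in cofinite, ∀ δ : ℚ, (∃ m : ℤ, (D : ℚ) * δ = m) →
      δ ≠ 0 → |δ| ≤ ε * |(E : ℚ)| → P (E, δ) := Iff.rfl

theorem FD_fst {D : ℤ} {P : ℤ → Prop} (h : ∀ᶠ E : ℤ in cofinite, P E) :
    ∀ᶠ x in FD D, P x.1 := by
  rw [ev_FD]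
  refine ⟨1, one_pos, ?_⟩
  filter_upwards [h] with E hE δ _ _ _
  exact hE

theorem FD_ne (D : ℤ) : ∀ᶠ x in FD D, x.2 ≠ 0 := by
  rw [ev_FD]
  exact ⟨1, one_pos, Eventually.of_forall (fun E δ _ h _ => h)⟩

theorem FD_den (D : ℤ) : ∀ᶠ x in FD D, ∃ m : ℤ, (D : ℚ) * x.2 = m := by
  rw [ev_FD]
  exact ⟨1, one_pos, Eventually.of_forall (fun E δ h _ _ => h)⟩

/-- a fixed `δ` -/
theorem FD_fix {D : ℤ} {P : ℤ × ℚ → Prop} (h : ∀ᶠ x in FD D, P x) {c : ℚ} (hc : c ≠ 0)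
    (hD : ∃ m : ℤ, (D : ℚ) * c = m) : ∀ᶠ E : ℤ in cofinite, P (E, c) := by
  rw [ev_FD] at h
  obtain ⟨ε, h0, h⟩ := h
  filter_upwards [h, evQ (|c| / ε)] with E h1 h2
  apply h1 c hD hc
  rw [div_lt_iff₀ h0] at h2
  linarith

theorem FD_fin {D : ℤ} {α : Type*} (s : Finset α) {P : α → ℤ × ℚ → Prop}
    (h : ∀ a ∈ s, ∀ᶠ x in FD D, P a x) : ∀ᶠ x in FD D, ∀ a ∈ s, P a x := by
  classical
  induction s using Finset.induction_on with
  | empty => exact Eventually.of_forall (fun x a ha => absurd ha (Finset.notMem_empty a))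
  | insert a s ha ih =>
    filter_upwards [h a (Finset.mem_insert_self _ _),
      ih (fun b hb => h b (Finset.mem_insert_of_mem hb))] with x h1 h2 b hb
    rcases Finset.mem_insert.mp hb with rfl | hb
    · exact h1
    · exact h2 b hb

/-- the base tool -/
theorem FD_big (D : ℤ) (K2 K3 : ℚ) : ∀ᶠ x in FD D, K2 * |x.2| + K3 < |(x.1 : ℚ)| := by
  rw [ev_FD]
  have hp : 0 < 2 * (|K2| + 1) := by
    have := abs_nonneg K2
    linarith
  refine ⟨1 / (2 * (|K2| + 1)), one_div_pos.mpr hp, ?_⟩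
  filter_upwards [evQ (2 * K3)] with E hE δ _ _ h
  have h1 : |K2| * |δ| ≤ |(E : ℚ)| / 2 := by
    have h2 : |δ| * (2 * (|K2| + 1)) ≤ |(E : ℚ)| := by
      rw [one_div, inv_mul_eq_div, le_div_iff₀ hp] at h
      exact h
    have h3 := abs_nonneg δ
    nlinarith
  have h4 : K2 * |δ| ≤ |K2| * |δ| := mul_le_mul_of_nonneg_right (le_abs_self _) (abs_nonneg _)
  linarith

/-- a linear form is not zero -/
theorem lneD (D : ℤ) (A B C : ℚ) (hA : A ≠ 0) :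
    ∀ᶠ x in FD D, A * (x.1 : ℚ) + B * x.2 + C ≠ 0 := by
  have hA' : 0 < |A| := abs_pos.mpr hA
  filter_upwards [FD_big D (|B| / |A|) (|C| / |A|)] with x hx h
  have h1 : |A| * |(x.1 : ℚ)| ≤ |B| * |x.2| + |C| := by
    have e : A * (x.1 : ℚ) = -(B * x.2 + C) := by linear_combination h
    rw [← abs_mul, e, abs_neg, ← abs_mul]
    exact abs_add_le _ _
  have h2 : |B| / |A| * |x.2| + |C| / |A| = (|B| * |x.2| + |C|) / |A| := by ring
  rw [h2, div_lt_iff₀ hA'] at hx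
  linarith

/-- the linear lemma -/
theorem linD (D : ℤ) (A B C C' D1 D2 : ℚ) (hA : A ≠ 0) : ∀ᶠ x in FD D, ∀ k : ℤ,
    (A * k + B) * (x.1 : ℚ) + ((C * k + C') * x.2 + (D1 * k + D2)) = 0 →
      A * k + B = 0 ∧ (C * k + C') * x.2 + (D1 * k + D2) = 0 := by
  obtain ⟨d, hd, h⟩ := exists_den [A, B]
  obtain ⟨A', hA'⟩ := h A (by simp)
  obtain ⟨B', hB'⟩ := h B (by simp)
  have hdq : 0 < |(d : ℚ)| := abs_pos.mpr (by exact_mod_cast hd)
  have hA0 : 0 < |A| := abs_pos.mpr hA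
  obtain ⟨K1, hK1⟩ : ∃ K1 : ℚ, K1 = (1 + |B| * |(d : ℚ)|) / |A| := ⟨_, rfl⟩
  have hK10 : 0 ≤ K1 := by rw [hK1]; positivity
  filter_upwards [FD_big D (|C| * K1 + |C'| * |(d : ℚ)|) (|D1| * K1 + |D2| * |(d : ℚ)|)]
    with x hx k hk
  by_cases hw : A * (k : ℚ) + B = 0
  · refine ⟨hw, ?_⟩
    rw [hw, zero_mul, zero_add] at hk
    exact hk
  exfalso
  have hwd : 1 ≤ |A * (k : ℚ) + B| * |(d : ℚ)| := by
    have e : (A * (k : ℚ) + B) * d = ((A' * k + B' : ℤ) : ℚ) := by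
      push_cast; rw [← hA', ← hB']; ring
    have hne : A' * k + B' ≠ 0 := by
      intro h0
      rw [h0, Int.cast_zero] at e
      rcases mul_eq_zero.mp e with h1 | h1
      · exact hw h1
      · exact hd (by exact_mod_cast h1)
    rw [← abs_mul, e, ← Int.cast_abs]
    exact_mod_cast Int.one_le_abs hne
  obtain ⟨w, hwe⟩ : ∃ w : ℚ, w = |A * (k : ℚ) + B| := ⟨_, rfl⟩
  rw [← hwe] at hwd
  have hw0 : 0 < w := by rw [hwe]; exact abs_pos.mpr hw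
  have hkb : |(k : ℚ)| ≤ w * K1 := by
    have h1 : |A| * |(k : ℚ)| ≤ w + |B| := by
      rw [← abs_mul, hwe]
      have := abs_sub (A * (k : ℚ) + B) B
      rwa [add_sub_cancel_right] at this
    have h2 : |B| ≤ w * (|B| * |(d : ℚ)|) := by
      have := mul_le_mul_of_nonneg_left hwd (abs_nonneg B)
      linarith
    rw [hK1, mul_div_assoc', le_div_iff₀ hA0]
    linarith
  have b1 : |(C * (k : ℚ) + C') * x.2| ≤ w * ((|C| * K1 + |C'| * |(d : ℚ)|) * |x.2|) := by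
    rw [abs_mul]
    have h1 : |C * (k : ℚ) + C'| ≤ w * (|C| * K1 + |C'| * |(d : ℚ)|) := by
      refine (abs_add_le _ _).trans ?_
      rw [abs_mul]
      have h2 := mul_le_mul_of_nonneg_left hkb (abs_nonneg C)
      have h3 := mul_le_mul_of_nonneg_left hwd (abs_nonneg C')
      linarith
    have h4 := mul_le_mul_of_nonneg_right h1 (abs_nonneg x.2)
    linarith
  have b2 : |D1 * (k : ℚ) + D2| ≤ w * (|D1| * K1 + |D2| * |(d : ℚ)|) := by
    refine (abs_add_le _ _).trans ?_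
    rw [abs_mul]
    have h2 := mul_le_mul_of_nonneg_left hkb (abs_nonneg D1)
    have h3 := mul_le_mul_of_nonneg_left hwd (abs_nonneg D2)
    linarith
  have b3 : w * |(x.1 : ℚ)| ≤ |(C * (k : ℚ) + C') * x.2| + |D1 * (k : ℚ) + D2| := by
    have e : (A * (k : ℚ) + B) * (x.1 : ℚ) = -((C * k + C') * x.2 + (D1 * k + D2)) := by
      linear_combination hk
    rw [hwe, ← abs_mul, e, abs_neg]
    exact abs_add_le _ _
  have b4 := mul_lt_mul_of_pos_left hx hw0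
  linarith

/-- BL, the inequality -/
theorem bl_le (a1 b1 c1 d1 a0 b0 c0 d0 : ℤ) (ha : a1 ≠ 0) (j k : ℤ)
    (hu : a1 * k + b1 ≠ 0) (hv : a1 * j + c1 ≠ 0)
    (hF : a1 * j * k + b1 * j + c1 * k + d1 ≠ 0) :
    |a0 * j * k + b0 * j + c0 * k + d0| ≤ blC a1 b1 c1 d1 a0 b0 c0 d0 *
      |a1 * j * k + b1 * j + c1 * k + d1| := by
  obtain ⟨u, hu'⟩ : ∃ u, u = a1 * k + b1 := ⟨_, rfl⟩
  obtain ⟨v, hv'⟩ : ∃ v, v = a1 * j + c1 := ⟨_, rfl⟩
  obtain ⟨F1, hF1⟩ : ∃ F, F = a1 * j * k + b1 * j + c1 * k + d1 := ⟨_, rfl⟩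
  obtain ⟨F0, hF0⟩ : ∃ F, F = a0 * j * k + b0 * j + c0 * k + d0 := ⟨_, rfl⟩
  rw [← hu'] at hu
  rw [← hv'] at hv
  rw [← hF1] at hF ⊢
  rw [← hF0]
  have hu1 : 1 ≤ |u| := Int.one_le_abs hu
  have hv1 : 1 ≤ |v| := Int.one_le_abs hv
  have e1 : a1 * F1 = u * v - (b1 * c1 - a1 * d1) := by
    rw [hu', hv', hF1]; ring
  have e0 : a1 * a1 * F0 = a0 * ((u - b1) * (v - c1)) + a1 * b0 * (v - c1) +
      a1 * c0 * (u - b1) + a1 * a1 * d0 := by
    rw [hu', hv', hF0]; ring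
  have hF' : 1 ≤ |F1| := Int.one_le_abs hF
  have huv : 1 ≤ |u| * |v| := by nlinarith
  have b1' : |u - b1| ≤ |u| * (1 + |b1|) := by
    have h1 : |u - b1| ≤ |u| + |b1| := abs_sub _ _
    have h2 : 0 ≤ |b1| := abs_nonneg _
    nlinarith
  have c1' : |v - c1| ≤ |v| * (1 + |c1|) := by
    have h1 : |v - c1| ≤ |v| + |c1| := abs_sub _ _
    have h2 : 0 ≤ |c1| := abs_nonneg _
    nlinarith
  obtain ⟨C, hC⟩ : ∃ C, C = |a0| * ((1 + |b1|) * (1 + |c1|)) + |a1| * |b0| * (1 + |c1|) +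
      |a1| * |c0| * (1 + |b1|) + |a1| * |a1| * |d0| := ⟨_, rfl⟩
  have hC0 : 0 ≤ C := by rw [hC]; positivity
  have hb : |a1 * a1 * F0| ≤ C * (|u| * |v|) := by
    rw [e0]
    have t1 : |a0 * ((u - b1) * (v - c1))| ≤ |a0| * ((1 + |b1|) * (1 + |c1|)) * (|u| * |v|) := by
      rw [abs_mul, abs_mul]
      have : |u - b1| * |v - c1| ≤ (|u| * (1 + |b1|)) * (|v| * (1 + |c1|)) :=
        mul_le_mul b1' c1' (abs_nonneg _) (by positivity)
      have h3 := mul_le_mul_of_nonneg_left this (abs_nonneg a0)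
      calc |a0| * (|u - b1| * |v - c1|) ≤ |a0| * ((|u| * (1 + |b1|)) * (|v| * (1 + |c1|))) := h3
        _ = _ := by ring
    have t2 : |a1 * b0 * (v - c1)| ≤ |a1| * |b0| * (1 + |c1|) * (|u| * |v|) := by
      rw [abs_mul, abs_mul]
      have h3 := mul_le_mul_of_nonneg_left c1' (show 0 ≤ |a1| * |b0| by positivity)
      have h4 : |a1| * |b0| * (|v| * (1 + |c1|)) ≤
          |a1| * |b0| * (|v| * (1 + |c1|)) * |u| :=
        le_mul_of_one_le_right (by positivity) hu1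
      calc _ ≤ _ := h3
        _ ≤ _ := h4
        _ = _ := by ring
    have t3 : |a1 * c0 * (u - b1)| ≤ |a1| * |c0| * (1 + |b1|) * (|u| * |v|) := by
      rw [abs_mul, abs_mul]
      have h3 := mul_le_mul_of_nonneg_left b1' (show 0 ≤ |a1| * |c0| by positivity)
      have h4 : |a1| * |c0| * (|u| * (1 + |b1|)) ≤
          |a1| * |c0| * (|u| * (1 + |b1|)) * |v| :=
        le_mul_of_one_le_right (by positivity) hv1
      calc _ ≤ _ := h3
        _ ≤ _ := h4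
        _ = _ := by ring
    have t4 : |a1 * a1 * d0| ≤ |a1| * |a1| * |d0| * (|u| * |v|) := by
      rw [abs_mul, abs_mul]
      exact le_mul_of_one_le_right (by positivity) huv
    have s1 := abs_add_le (a0 * ((u - b1) * (v - c1)) + a1 * b0 * (v - c1) +
      a1 * c0 * (u - b1)) (a1 * a1 * d0)
    have s2 := abs_add_le (a0 * ((u - b1) * (v - c1)) + a1 * b0 * (v - c1))
      (a1 * c0 * (u - b1))
    have s3 := abs_add_le (a0 * ((u - b1) * (v - c1))) (a1 * b0 * (v - c1))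
    rw [hC]
    linarith
  have huv2 : |u| * |v| ≤ (|a1| + |b1 * c1 - a1 * d1|) * |F1| := by
    have h1 : u * v = a1 * F1 + (b1 * c1 - a1 * d1) := by linarith
    have h2 : |u| * |v| ≤ |a1 * F1| + |b1 * c1 - a1 * d1| := by
      rw [← abs_mul, h1]; exact abs_add_le _ _
    rw [abs_mul] at h2
    have h3 : |b1 * c1 - a1 * d1| ≤ |b1 * c1 - a1 * d1| * |F1| :=
      le_mul_of_one_le_right (abs_nonneg _) hF'
    linarith
  have e3 : |a1 * a1 * F0| ≤ C * (|a1| + |b1 * c1 - a1 * d1|) * |F1| := by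
    have h1 := mul_le_mul_of_nonneg_left huv2 hC0
    calc _ ≤ C * (|u| * |v|) := hb
      _ ≤ _ := h1
      _ = _ := by ring
  have ha1 : 1 ≤ |a1| := Int.one_le_abs ha
  have e4 : |F0| ≤ |a1 * a1 * F0| := by
    rw [abs_mul, abs_mul]
    have : 1 ≤ |a1| * |a1| := by nlinarith
    exact le_mul_of_one_le_left (abs_nonneg _) this
  have hG' : blC a1 b1 c1 d1 a0 b0 c0 d0 = C * (|a1| + |b1 * c1 - a1 * d1|) := by
    rw [hC]; rfl
  rw [hG']
  exact e4.trans e3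

/-- the bilinear lemma; the second form is multiplied by `δ` -/
theorem blD (D : ℤ) (a1 b1 c1 d1 a0 b0 c0 d0 : ℚ) (ha : a1 ≠ 0) : ∀ᶠ x in FD D, ∀ j k : ℤ,
    a1 * k + b1 ≠ 0 → a1 * j + c1 ≠ 0 →
    (a1 * j * k + b1 * j + c1 * k + d1) * (x.1 : ℚ) +
      (a0 * j * k + b0 * j + c0 * k + d0) * x.2 = 0 →
    a1 * j * k + b1 * j + c1 * k + d1 = 0 ∧ a0 * j * k + b0 * j + c0 * k + d0 = 0 := by
  obtain ⟨d, hd, h⟩ := exists_den [a1, b1, c1, d1, a0, b0, c0, d0]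
  obtain ⟨a1', ha1⟩ := h a1 (by simp)
  obtain ⟨b1', hb1⟩ := h b1 (by simp)
  obtain ⟨c1', hc1⟩ := h c1 (by simp)
  obtain ⟨d1', hd1⟩ := h d1 (by simp)
  obtain ⟨a0', ha0⟩ := h a0 (by simp)
  obtain ⟨b0', hb0⟩ := h b0 (by simp)
  obtain ⟨c0', hc0⟩ := h c0 (by simp)
  obtain ⟨d0', hd0⟩ := h d0 (by simp)
  have hdq : (d : ℚ) ≠ 0 := by exact_mod_cast hd
  have hdp : 0 < |(d : ℚ)| := abs_pos.mpr hdq
  have hA0 : a1' ≠ 0 := by
    rintro rfl
    rw [Int.cast_zero] at ha1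
    rcases mul_eq_zero.mp ha1 with h | h
    · exact hdq h
    · exact ha h
  filter_upwards [FD_big D (blC a1' b1' c1' d1' a0' b0' c0' d0' : ℤ) 0, FD_ne D]
    with x hx hx0 j k hu hv hk
  have hu' : a1' * k + b1' ≠ 0 := by
    intro h0
    apply hu
    have : ((a1' * k + b1' : ℤ) : ℚ) = 0 := by exact_mod_cast h0
    push_cast at this
    rw [← ha1, ← hb1] at this
    apply mul_left_cancel₀ hdq
    linear_combination this
  have hv' : a1' * j + c1' ≠ 0 := by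
    intro h0
    apply hv
    have : ((a1' * j + c1' : ℤ) : ℚ) = 0 := by exact_mod_cast h0
    push_cast at this
    rw [← ha1, ← hc1] at this
    apply mul_left_cancel₀ hdq
    linear_combination this
  have q1 : (d : ℚ) * (a1 * j * k + b1 * j + c1 * k + d1) =
      ((a1' * j * k + b1' * j + c1' * k + d1' : ℤ) : ℚ) := by
    push_cast; rw [← ha1, ← hb1, ← hc1, ← hd1]; ring
  have q0 : (d : ℚ) * (a0 * j * k + b0 * j + c0 * k + d0) =
      ((a0' * j * k + b0' * j + c0' * k + d0' : ℤ) : ℚ) := by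
    push_cast; rw [← ha0, ← hb0, ← hc0, ← hd0]; ring
  obtain ⟨F1, hF1⟩ : ∃ F, F = a1 * j * k + b1 * j + c1 * k + d1 := ⟨_, rfl⟩
  obtain ⟨F0, hF0⟩ : ∃ F, F = a0 * j * k + b0 * j + c0 * k + d0 := ⟨_, rfl⟩
  rw [← hF1] at q1 hk ⊢
  rw [← hF0] at q0 hk ⊢
  by_cases hF : F1 = 0
  · refine ⟨hF, ?_⟩
    rw [hF, zero_mul, zero_add] at hk
    exact (mul_eq_zero.mp hk).resolve_right hx0
  exfalso
  have hFi : a1' * j * k + b1' * j + c1' * k + d1' ≠ 0 := by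
    intro h0
    rw [h0, Int.cast_zero] at q1
    exact mul_ne_zero hdq hF q1
  have h1 := bl_le a1' b1' c1' d1' a0' b0' c0' d0' hA0 j k hu' hv' hFi
  obtain ⟨C, hC⟩ : ∃ C : ℤ, C = blC a1' b1' c1' d1' a0' b0' c0' d0' := ⟨_, rfl⟩
  rw [← hC] at h1 hx
  have h2 : |F0| ≤ C * |F1| := by
    have h3 : |((a0' * j * k + b0' * j + c0' * k + d0' : ℤ) : ℚ)| ≤
        C * |((a1' * j * k + b1' * j + c1' * k + d1' : ℤ) : ℚ)| := by
      rw [← Int.cast_abs, ← Int.cast_abs]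
      exact_mod_cast h1
    rw [← q0, ← q1, abs_mul, abs_mul] at h3
    apply le_of_mul_le_mul_left _ hdp
    linarith
  have h4 : |F1| * |(x.1 : ℚ)| = |F0| * |x.2| := by
    rw [← abs_mul, ← abs_mul]
    have : F1 * (x.1 : ℚ) = -(F0 * x.2) := by linarith
    rw [this, abs_neg]
  have h5 : |F0| * |x.2| ≤ C * |F1| * |x.2| := mul_le_mul_of_nonneg_right h2 (abs_nonneg _)
  have h6 := mul_lt_mul_of_pos_left hx (abs_pos.mpr hF)
  linarith

/-- quadratic forms, first kind -/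
theorem quadD (D : ℤ) (A B C : ℚ) (hA : A ≠ 0) :
    ∀ᶠ x in FD D, (A * (x.1 : ℚ) + B * x.2) * x.1 + C * x.2 ≠ 0 := by
  have hA' : 0 < |A| := abs_pos.mpr hA
  filter_upwards [FD_big D (|B| / |A|) (|C| / |A|), FD_big D 1 0] with x h1 h2 h
  have h3 : |B| / |A| * |x.2| + |C| / |A| = (|B| * |x.2| + |C|) / |A| := by ring
  rw [h3, div_lt_iff₀ hA'] at h1
  have h4 : |C| < |A * (x.1 : ℚ) + B * x.2| := by
    have h5 : |A| * |(x.1 : ℚ)| ≤ |A * (x.1 : ℚ) + B * x.2| + |B| * |x.2| := by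
      rw [← abs_mul, ← abs_mul]
      have := abs_sub (A * (x.1 : ℚ) + B * x.2) (B * x.2)
      rwa [add_sub_cancel_right] at this
    linarith
  have h5 : |A * (x.1 : ℚ) + B * x.2| * |(x.1 : ℚ)| = |C| * |x.2| := by
    rw [← abs_mul, ← abs_mul]
    have : (A * (x.1 : ℚ) + B * x.2) * x.1 = -(C * x.2) := by linarith
    rw [this, abs_neg]
  have h6 : |x.2| < |(x.1 : ℚ)| := by linarith
  have h7 : |C| * |x.2| ≤ |C| * |(x.1 : ℚ)| := mul_le_mul_of_nonneg_left h6.le (abs_nonneg _)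
  have h8 : 0 < |(x.1 : ℚ)| := lt_of_le_of_lt (abs_nonneg _) h6
  have h9 := mul_lt_mul_of_pos_right h4 h8
  linarith

/-- quadratic forms, second kind -/
theorem quadD2 (D : ℤ) (hD : D ≠ 0) (A k w C : ℚ) (hA : A ≠ 0) (hk : k ≠ 0) :
    ∀ᶠ x in FD D, k * x.2 + w ≠ 0 → A * (x.1 : ℚ) * (k * x.2 + w) + C * x.2 ≠ 0 := by
  obtain ⟨d, hd, h⟩ := exists_den [k, w]
  obtain ⟨k', hk'⟩ := h k (by simp)
  obtain ⟨w', hw'⟩ := h w (by simp)
  have hA' : 0 < |A| := abs_pos.mpr hA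
  have hk0 : 0 < |k| := abs_pos.mpr hk
  have hdD : 0 < |(d : ℚ)| * |(D : ℚ)| :=
    mul_pos (abs_pos.mpr (by exact_mod_cast hd)) (abs_pos.mpr (by exact_mod_cast hD))
  filter_upwards [FD_big D 0 (|C| * ((1 + |w| * (|(d : ℚ)| * |(D : ℚ)|)) / |k|) / |A|),
    FD_den D] with x hx hx2 hne h
  obtain ⟨m, hm⟩ := hx2
  have h1 : 1 ≤ |k * x.2 + w| * (|(d : ℚ)| * |(D : ℚ)|) := by
    have e : (k * x.2 + w) * ((d : ℚ) * D) = ((k' * m + w' * D : ℤ) : ℚ) := by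
      push_cast; rw [← hk', ← hw', ← hm]; ring
    have hne' : k' * m + w' * D ≠ 0 := by
      intro h0
      rw [h0, Int.cast_zero] at e
      rcases mul_eq_zero.mp e with h1 | h1
      · exact hne h1
      · rcases mul_eq_zero.mp h1 with h1 | h1
        · exact hd (by exact_mod_cast h1)
        · exact hD (by exact_mod_cast h1)
    rw [← abs_mul (d : ℚ), ← abs_mul, e, ← Int.cast_abs]
    exact_mod_cast Int.one_le_abs hne'
  obtain ⟨W, hW⟩ : ∃ W : ℚ, W = |k * x.2 + w| := ⟨_, rfl⟩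
  have hW0 : 0 < W := by rw [hW]; exact abs_pos.mpr hne
  rw [← hW] at h1
  have h2 : |x.2| ≤ W * ((1 + |w| * (|(d : ℚ)| * |(D : ℚ)|)) / |k|) := by
    rw [mul_div_assoc', le_div_iff₀ hk0]
    have h3 : |x.2| * |k| ≤ W + |w| := by
      rw [mul_comm, ← abs_mul, hW]
      have := abs_sub (k * x.2 + w) w
      rwa [add_sub_cancel_right] at this
    have h4 := mul_le_mul_of_nonneg_left h1 (abs_nonneg w)
    linarith
  have h3 : |A| * |(x.1 : ℚ)| * W = |C| * |x.2| := by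
    rw [hW, ← abs_mul, ← abs_mul, ← abs_mul]
    have : A * (x.1 : ℚ) * (k * x.2 + w) = -(C * x.2) := by linarith
    rw [this, abs_neg]
  rw [zero_mul, zero_add, div_lt_iff₀ hA'] at hx
  have h4 := mul_le_mul_of_nonneg_left h2 (abs_nonneg C)
  have h5 := mul_lt_mul_of_pos_left hx hW0
  linarith

/-- the `κ`-level: `κ (δ + c') = c` is impossible -/
theorem kapD (D : ℤ) (hD : D ≠ 0) (c c' : ℚ) (hc : c ≠ 0) : ∀ᶠ κ : ℤ in cofinite, ∀ δ : ℚ,
    (∃ m : ℤ, (D : ℚ) * δ = m) → (κ : ℚ) * (δ + c') ≠ c := by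
  obtain ⟨d, hd, h⟩ := exists_den [c']
  obtain ⟨w', hw'⟩ := h c' (by simp)
  filter_upwards [evQ |c * (d * D)|] with κ hκ δ hδ h
  obtain ⟨m, hm⟩ := hδ
  have e : (κ : ℚ) * ((d * m + D * w' : ℤ) : ℚ) = c * (d * D) := by
    rw [← h]; push_cast; rw [← hw', ← hm]; ring
  have hne : d * m + D * w' ≠ 0 := by
    intro h0
    rw [h0, Int.cast_zero, mul_zero] at e
    exact mul_ne_zero hc (mul_ne_zero (by exact_mod_cast hd) (by exact_mod_cast hD)) e.symm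
  have h1 : (1 : ℚ) ≤ |((d * m + D * w' : ℤ) : ℚ)| := by
    rw [← Int.cast_abs]
    exact_mod_cast Int.one_le_abs hne
  rw [← e, abs_mul] at hκ
  have := le_mul_of_one_le_right (abs_nonneg (κ : ℚ)) h1
  linarith

end Pool.Agent.K4L
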