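import Pool.Agent.K4L.K3UFA

/-!
# K3U, the kill `f` on `g e`: the lines through `t`, for `τ = μ E + δ`
-/

namespace Pool.Agent.K4L

open Filter

section
variable {κ M : ℚ} {D : ℤ}

/-- the line `t2 t` misses the arms `a`, `c` -/
theorem c2t_acD (hM : M ≠ 0) (hκ1 : κ ≠ 1) (v1 μ σ ρ : ℚ) (hρ : ρ ≠ 0) (hμ : μ ≠ 0)
    (hk2 : μ * (1 - κ) + σ * κ ≠ 0) :
    ∀ᶠ x in FD D, ∀ᶠ G : ℤ in cofinite, ∀ n : ℤ, n ≠ 0 →
      ¬ cq 0 (σ * G + ρ) (μ * x.1 + x.2) 0 (v1 + n / M * (κ * x.1 - v1))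
        (n / M * ((1 - κ) * G)) := by
  filter_upwards [lneD D (μ * (1 - κ) + σ * κ) (1 - κ) (-(σ * v1)) hk2,
    lneD D μ 1 0 hμ] with x e1 e2
  obtain ⟨E, hE⟩ : ∃ E : ℤ, E = x.1 := ⟨_, rfl⟩
  obtain ⟨τ, hτ⟩ : ∃ τ : ℚ, τ = μ * x.1 + x.2 := ⟨_, rfl⟩
  have e2 : τ ≠ 0 := by rw [hτ]; intro h; apply e2; linear_combination h
  rw [← hτ, ← hE]
  have hA : (τ * (1 - κ) + σ * (κ * E - v1)) / M ≠ 0 := by
    apply div_ne_zero _ hM
    intro h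
    rw [hτ, hE] at h
    exact e1 (by linear_combination h)
  filter_upwards [linQ ((τ * (1 - κ) + σ * (κ * E - v1)) / M) (-(σ * (τ - v1)))
    (ρ * (κ * E - v1) / M) (ρ * (v1 - τ)) hA] with G hG n hn hc
  unfold cq at hc
  obtain ⟨h1, h2⟩ := hG n (by linear_combination hc)
  have hr := div_ne hn hM
  obtain ⟨r, hrd⟩ : ∃ r : ℚ, r = n / M := ⟨_, rfl⟩
  rw [← hrd] at hr
  have h1' : (τ * (1 - κ) + σ * (κ * E - v1)) * r - σ * (τ - v1) = 0 := by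
    rw [hrd]; linear_combination h1
  have h2' : ρ * ((κ * E - v1) * r + (v1 - τ)) = 0 := by
    rw [hrd]; linear_combination h2
  have h3 := (mul_eq_zero.mp h2').resolve_left hρ
  have h4 : r * (τ * (1 - κ)) = 0 := by linear_combination h1' - σ * h3
  rcases mul_eq_zero.mp h4 with h | h
  · exact hr h
  · rcases mul_eq_zero.mp h with h | h
    · exact e2 h
    · exact hκ1 (by linarith)

/-- the line `t2 t` misses the arm `b` -/
theorem c2t_bD (hM : M ≠ 0) (hκ0 : κ ≠ 0) (μ σ ρ : ℚ) (hσ : σ ≠ 0) (hμ : μ ≠ 0)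
    (hk2 : μ * (1 - κ) + σ * κ ≠ 0) :
    ∀ᶠ x in FD D, ∀ᶠ G : ℤ in cofinite, ∀ n : ℤ, n ≠ 0 →
      ¬ cq 0 (σ * G + ρ) (μ * x.1 + x.2) 0 (n / M * (κ * x.1))
        (1 + n / M * ((1 - κ) * G - 1)) := by
  have X3 : ∀ᶠ x in FD D, (μ * ((1 - κ) * (1 - ρ) - σ) + σ * κ) * (x.1 : ℚ) +
      ((1 - κ) * (1 - ρ) - σ) * x.2 ≠ 0 := by
    by_cases h : μ * ((1 - κ) * (1 - ρ) - σ) + σ * κ = 0
    · filter_upwards [FD_ne D] with x hx h2
      rw [h, zero_mul, zero_add] at h2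
      rcases mul_eq_zero.mp h2 with h3 | h3
      · rw [h3, mul_zero, zero_add] at h
        exact mul_ne_zero hσ hκ0 h
      · exact hx h3
    · filter_upwards [lneD D _ ((1 - κ) * (1 - ρ) - σ) 0 h] with x hx h2
      exact hx (by linear_combination h2)
  filter_upwards [lneD D (μ * (1 - κ) + σ * κ) (1 - κ) 0 hk2,
    lneD D μ 1 0 hμ, X3] with x e1 e2 e3
  obtain ⟨E, hE⟩ : ∃ E : ℤ, E = x.1 := ⟨_, rfl⟩
  obtain ⟨τ, hτ⟩ : ∃ τ : ℚ, τ = μ * x.1 + x.2 := ⟨_, rfl⟩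
  have e2 : τ ≠ 0 := by rw [hτ]; intro h; apply e2; linear_combination h
  rw [← hτ, ← hE]
  have hA : (τ * (1 - κ) + σ * (κ * E)) / M ≠ 0 := by
    apply div_ne_zero _ hM
    intro h
    rw [hτ, hE] at h
    exact e1 (by linear_combination h)
  filter_upwards [linQ ((τ * (1 - κ) + σ * (κ * E)) / M) (-(σ * τ))
    ((ρ * (κ * E) - τ) / M) (τ * (1 - ρ)) hA] with G hG n hn hc
  unfold cq at hc
  obtain ⟨h1, h2⟩ := hG n (by linear_combination hc)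
  obtain ⟨r, hrd⟩ : ∃ r : ℚ, r = n / M := ⟨_, rfl⟩
  have h1' : r * (τ * (1 - κ) + σ * (κ * E)) - σ * τ = 0 := by
    rw [hrd]; linear_combination h1
  have h2' : r * (ρ * (κ * E) - τ) + τ * (1 - ρ) = 0 := by
    rw [hrd]; linear_combination h2
  have h3 : τ * (r * (ρ * (1 - κ) + σ) - σ) = 0 := by linear_combination ρ * h1' - σ * h2'
  have h4 := (mul_eq_zero.mp h3).resolve_left e2
  have h5 : σ * (τ * ((1 - κ) * (1 - ρ) - σ) + σ * κ * E) = 0 := by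
    linear_combination (ρ * (1 - κ) + σ) * h1' - (τ * (1 - κ) + σ * (κ * E)) * h4
  have h6 := (mul_eq_zero.mp h5).resolve_left hσ
  rw [hτ, hE] at h6
  exact e3 (by linear_combination h6)

/-- `t2 = (0, τ G)`: the line `t2 t` misses the arm `c` -/
theorem c2tT_cD (hM : M ≠ 0) (hκ0 : κ ≠ 0) (μ : ℚ) (hμ : μ ≠ 0)
    (hk6 : ∀ᶠ x in FD D, x.2 * κ ≠ μ * (1 - κ)) :
    ∀ᶠ x in FD D, ∀ G : ℤ, G ≠ 0 → ∀ n : ℤ,
      ¬ cq 0 ((μ * x.1 + x.2) * G) (μ * x.1 + x.2) 0 (n / M * (κ * x.1))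
        (n / M * ((1 - κ) * G)) := by
  have hA : κ / M ≠ 0 := div_ne_zero hκ0 hM
  filter_upwards [linD D (κ / M) (-μ) 0 (-1) ((1 - κ) / M) 0 hA, lneD D μ 1 0 hμ, hk6]
    with x hE e2 e6 G hG n hc
  unfold cq at hc
  have hGq : (G : ℚ) ≠ 0 := by exact_mod_cast hG
  have e2 : μ * (x.1 : ℚ) + x.2 ≠ 0 := by intro h; apply e2; linear_combination h
  have h0 : (μ * x.1 + x.2) * G * (n / M * (κ * x.1) + n / M * (1 - κ) - (μ * x.1 + x.2)) = 0 := by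
    linear_combination hc
  have h1 := (mul_eq_zero.mp h0).resolve_left (mul_ne_zero e2 hGq)
  obtain ⟨h2, h3⟩ := hE n (by linear_combination h1)
  apply e6
  obtain ⟨r, hrd⟩ : ∃ r : ℚ, r = n / M := ⟨_, rfl⟩
  have h2' : κ * r - μ = 0 := by rw [hrd]; linear_combination h2
  have h3' : (1 - κ) * r - x.2 = 0 := by rw [hrd]; linear_combination h3
  linear_combination (1 - κ) * h2' - κ * h3'

/-- `t2 = (0, τ G)`: the line `t2 t` misses the arm `b` -/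
theorem c2tT_bD (hM : M ≠ 0) (hκ0 : κ ≠ 0) (μ : ℚ) (hμ : μ ≠ 0) :
    ∀ᶠ x in FD D, ∀ᶠ G : ℤ in cofinite, ∀ n : ℤ, (n : ℚ) / M ≠ 1 →
      ¬ cq 0 ((μ * x.1 + x.2) * G) (μ * x.1 + x.2) 0 (n / M * (κ * x.1))
        (1 + n / M * ((1 - κ) * G - 1)) := by
  filter_upwards [lneD D κ 0 (1 - κ) hκ0, lneD D μ 1 0 hμ] with x e1 e2
  have e2 : μ * (x.1 : ℚ) + x.2 ≠ 0 := by intro h; apply e2; linear_combination h
  have hA : (1 - κ + κ * x.1) / M ≠ 0 := by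
    apply div_ne_zero _ hM
    intro h; apply e1; linear_combination h
  filter_upwards [linQ ((1 - κ + κ * x.1) / M) (-(μ * x.1 + x.2)) (-(1 / M)) 1 hA]
    with G hG n hn hc
  unfold cq at hc
  have h0 : (μ * x.1 + x.2) * ((((1 - κ + κ * x.1) / M) * n + -(μ * x.1 + x.2)) * G +
      (-(1 / M) * n + 1)) = 0 := by
    linear_combination hc
  obtain ⟨_, h2⟩ := hG n ((mul_eq_zero.mp h0).resolve_left e2)
  apply hn
  linear_combination -h2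

/-- the line `t3 t` misses the arm `b` -/
theorem c4D (hM : M ≠ 0) (hκ1 : κ ≠ 1) (μ : ℚ) :
    ∀ᶠ x in FD D, ∀ᶠ G : ℤ in cofinite, ∀ n k : ℤ, (n : ℚ) / M ≠ 1 →
      ¬ cq (k * x.1) ((1 - k) * G) (μ * x.1 + x.2) 0 (n / M * (κ * x.1))
        (1 + n / M * ((1 - κ) * G - 1)) := by
  have hM1 : (-1 : ℚ) / M ≠ 0 := div_ne_zero (by norm_num) hM
  have hκ1' : 1 - κ ≠ 0 := sub_ne_zero.mpr hκ1.symm
  filter_upwards [linD D (-1) (μ * (1 - κ) + κ) 0 (1 - κ) 0 0 (by norm_num),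
    linD D (-1 / M) μ 0 1 0 0 hM1, linD D (-1) μ 0 1 0 0 (by norm_num), FD_fst (evQ 0),
    FD_ne D] with x e1 e2 e3 e4 hc0
  have hE0 : (x.1 : ℚ) ≠ 0 := abs_pos.mp e4
  obtain ⟨E, hE⟩ : ∃ E : ℤ, E = x.1 := ⟨_, rfl⟩
  obtain ⟨c0, hc⟩ : ∃ c0 : ℚ, c0 = x.2 := ⟨_, rfl⟩
  rw [← hE] at hE0
  rw [← hc] at hc0
  rw [← hE, ← hc] at e1 e2 e3 ⊢
  obtain ⟨τ, hτ⟩ : ∃ τ : ℚ, τ = μ * E + c0 := ⟨_, rfl⟩
  rw [← hτ]
  have ha : -(E : ℚ) / M ≠ 0 := div_ne_zero (neg_ne_zero.mpr hE0) hM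
  filter_upwards [blQ (-(E : ℚ) / M) ((τ * (1 - κ) + κ * E) / M) τ (-τ) (E / M) (-(τ / M)) (-E) τ
    ha] with G hG n k hn hc
  unfold cq at hc
  have hu : -(E : ℚ) / M * k + (τ * (1 - κ) + κ * E) / M ≠ 0 := by
    intro h
    have h' : -(E : ℚ) * k + (τ * (1 - κ) + κ * E) = 0 := by
      have : (-(E : ℚ) * k + (τ * (1 - κ) + κ * E)) / M = 0 := by linear_combination h
      exact (div_eq_zero_iff.mp this).resolve_right hM
    rw [hτ] at h'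
    obtain ⟨_, h2⟩ := e1 k (by linear_combination h')
    have h3 : c0 * (1 - κ) = 0 := by linear_combination h2
    exact mul_ne_zero hc0 hκ1' h3
  have hv : -(E : ℚ) / M * n + τ ≠ 0 := by
    intro h
    rw [hτ] at h
    obtain ⟨_, h2⟩ := e2 n (by linear_combination h)
    exact hc0 (by linear_combination h2)
  obtain ⟨_, h2⟩ := hG n k hu hv (by linear_combination hc)
  have h3 : (τ - k * E) * (1 - n / M) = 0 := by linear_combination h2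
  rcases mul_eq_zero.mp h3 with h | h
  · rw [hτ] at h
    obtain ⟨_, h2⟩ := e3 k (by linear_combination h)
    exact hc0 (by linear_combination h2)
  · exact hn (by linarith)

/-- `t3 t` on the arm `c`, all `k` -/
theorem tc_allD (hM : M ≠ 0) (hκ1 : κ ≠ 1) (μ : ℚ) :
    ∀ᶠ x in FD D, ∀ n k : ℤ, n ≠ 0 → (n : ℚ) / M ≠ 1 →
      Teq κ x.1 (μ * x.1 + x.2) 0 (n / M) k →
      (k : ℚ) = κ + μ * (1 - κ) ∨
        ((n : ℚ) / M = μ ∧ x.2 * (k - 1) = μ * (1 - κ) * ((1 - μ) * x.1 - x.2)) := by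
  have hM1 : (1 : ℚ) / M ≠ 0 := div_ne_zero one_ne_zero hM
  filter_upwards [blD D (1 / M) (-((κ + μ * (1 - κ)) / M)) (-μ) μ 0 (-((1 - κ) / M)) (-1) 1
    hM1] with x hE n k hn hn1 hT
  unfold Teq at hT
  by_cases hu : 1 / M * (k : ℚ) + -((κ + μ * (1 - κ)) / M) = 0
  · left
    have h : ((k : ℚ) - (κ + μ * (1 - κ))) / M = 0 := by linear_combination hu
    have := (div_eq_zero_iff.mp h).resolve_right hM
    linarith
  by_cases hv : 1 / M * (n : ℚ) + -μ = 0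
  · right
    have hr : (n : ℚ) / M = μ := by linear_combination hv
    refine ⟨hr, ?_⟩
    rw [hr] at hT
    linear_combination -hT
  exfalso
  obtain ⟨h1, h2⟩ := hE n k hu hv (by linear_combination hT)
  obtain ⟨r, hrd⟩ : ∃ r : ℚ, r = n / M := ⟨_, rfl⟩
  have h4 : r * (1 - κ) + (k - 1) = 0 := by rw [hrd]; linear_combination -h2
  have h5 : r * (1 - κ) * (1 - r) = 0 := by
    have : (k - 1) * (r - μ) + r * (1 - κ) * (1 - μ) = 0 := by rw [hrd]; linear_combination h1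
    linear_combination this - (r - μ) * h4
  rw [← hrd] at hn1
  have hr0 : r ≠ 0 := by rw [hrd]; exact div_ne hn hM
  rcases mul_eq_zero.mp h5 with h | h
  · rcases mul_eq_zero.mp h with h | h
    · exact hr0 h
    · exact hκ1 (by linarith)
  · exact hn1 (by linarith)

/-- case (i): `t3 t` misses the arm `c` -/
theorem tc_iD (hM : M ≠ 0) (hκ1 : κ ≠ 1) (μ σ : ℚ)
    (hk2 : μ * (1 - κ) + σ * κ ≠ 0) :
    ∀ᶠ x in FD D, ∀ n k : ℤ, n ≠ 0 → (n : ℚ) / M ≠ 1 → (k : ℚ) = κ * (1 - σ) →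
      ¬ Teq κ x.1 (μ * x.1 + x.2) 0 (n / M) k := by
  have hA : -(μ * (1 - κ) + σ * κ) / M ≠ 0 := div_ne_zero (neg_ne_zero.mpr hk2) hM
  filter_upwards [linD D (-(μ * (1 - κ) + σ * κ) / M) (-(μ * (κ * (1 - σ) - 1)))
    (-((1 - κ) / M)) (-(κ * (1 - σ) - 1)) 0 0 hA, FD_ne D] with x hE hc0 n k hn hn1 hk hT
  unfold Teq at hT
  rw [hk] at hT
  obtain ⟨h1, h2⟩ := hE n (by linear_combination hT)
  obtain ⟨r, hrd⟩ : ∃ r : ℚ, r = n / M := ⟨_, rfl⟩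
  have h3 : x.2 * (r * (1 - κ) + (κ * (1 - σ) - 1)) = 0 := by rw [hrd]; linear_combination -h2
  have h4 := (mul_eq_zero.mp h3).resolve_left hc0
  have h1' : r * (κ * (1 - σ) - κ - μ * (1 - κ)) - μ * (κ * (1 - σ) - 1) = 0 := by
    rw [hrd]; linear_combination h1
  have h5 : r * (1 - κ) * (1 - r) = 0 := by
    linear_combination h1' - (r - μ) * h4
  rw [← hrd] at hn1
  have hr0 : r ≠ 0 := by rw [hrd]; exact div_ne hn hM
  rcases mul_eq_zero.mp h5 with h | h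
  · rcases mul_eq_zero.mp h with h | h
    · exact hr0 h
    · exact hκ1 (by linarith)
  · exact hn1 (by linarith)

/-- case (ii): `t3 t` on the arm `c` -/
theorem tc_iiD (hM : M ≠ 0) (hκ0 : κ ≠ 0) (hκ1 : κ ≠ 1) (μ σ : ℚ)
    (hμ : μ ≠ 0) (hσ : σ ≠ 0) (hσ1 : σ ≠ 1) :
    ∀ᶠ x in FD D, ∀ n k n' : ℤ, n ≠ 0 → (n : ℚ) / M ≠ 1 → (k : ℚ) ≠ κ →
      (k - κ * (1 - σ)) * (n' / M - σ) = κ * σ * (1 - σ) →
      Teq κ x.1 (μ * x.1 + x.2) 0 (n / M) k → (k : ℚ) = κ + μ * (1 - κ) := by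
  have hne : κ * σ * (1 - σ) ≠ 0 :=
    mul_ne_zero (mul_ne_zero hκ0 hσ) (sub_ne_zero.mpr hσ1.symm)
  by_cases hμ1 : μ = 1
  · filter_upwards [tc_allD hM hκ1 μ, FD_ne D] with x hE hc0 n k n' hn hn1 hk hh hT
    rcases hE n k hn hn1 hT with h | ⟨_, h⟩
    · exact h
    · exfalso
      rw [hμ1] at h
      apply hk
      have : x.2 * (k - κ) = 0 := by linear_combination h
      rcases mul_eq_zero.mp this with h | h
      · exact absurd h hc0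
      · linarith
  · obtain ⟨A, hAd⟩ : ∃ A : ℚ, A = μ * (1 - κ) * (1 - μ) := ⟨_, rfl⟩
    have hA0 : A ≠ 0 := by
      rw [hAd]
      exact mul_ne_zero (mul_ne_zero hμ (sub_ne_zero.mpr hκ1.symm))
        (sub_ne_zero.mpr (Ne.symm hμ1))
    have hA : A / M ≠ 0 := div_ne_zero hA0 hM
    obtain ⟨B, hBd⟩ : ∃ B : ℚ, B = 1 - μ * (1 - κ) - κ * (1 - σ) := ⟨_, rfl⟩
    filter_upwards [tc_allD hM hκ1 μ, linD D (A / M) (-(A * σ)) (B / M)
      (-(B * σ) - κ * σ * (1 - σ)) 0 0 hA, FD_ne D] with x hE hL hc0 n k n' hn hn1 hk hh hT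
    rcases hE n k hn hn1 hT with h | ⟨_, h⟩
    · exact h
    · exfalso
      have hk' : x.2 * (k : ℚ) = A * x.1 + (1 - μ * (1 - κ)) * x.2 := by
        rw [hAd]
        linear_combination h
      obtain ⟨h1, h2⟩ := hL n' (by
        rw [hBd]
        linear_combination x.2 * hh - (n' / M - σ) * hk')
      have h3 : A * (n' / M - σ) = 0 := by linear_combination h1
      have h4 := (mul_eq_zero.mp h3).resolve_left hA0
      have h5 : x.2 * (κ * σ * (1 - σ)) = 0 := by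
        linear_combination -h2 + B * x.2 * h4
      exact mul_ne_zero hc0 hne h5

/-- case (i): `t3 t` on the arm `a` -/
theorem ta_iD (hM : M ≠ 0) (hκ1 : κ ≠ 1) (μ σ : ℚ)
    (hk2 : μ * (1 - κ) + σ * κ ≠ 0) :
    ∀ᶠ x in FD D, ∀ n k : ℤ, n ≠ 0 → (n : ℚ) / M ≠ 1 → (k : ℚ) = κ * (1 - σ) →
      Teq κ x.1 (μ * x.1 + x.2) 1 (n / M) k →
      x.2 = 1 - μ ∧ n / M * (κ * (σ - μ) + μ) = μ * (1 - κ * (1 - σ)) := by
  have hA : -(μ * (1 - κ) + σ * κ) / M ≠ 0 := div_ne_zero (neg_ne_zero.mpr hk2) hM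
  filter_upwards [linD D (-(μ * (1 - κ) + σ * κ) / M) (-(μ * (κ * (1 - σ) - 1)))
    (-((1 - κ) / M)) (-(κ * (1 - σ) - 1)) ((1 - κ * (1 - σ)) / M) (κ * (1 - σ) - 1) hA]
    with x hE n k hn hn1 hk hT
  unfold Teq at hT
  rw [hk] at hT
  obtain ⟨h1, h2⟩ := hE n (by linear_combination hT)
  obtain ⟨r, hrd⟩ : ∃ r : ℚ, r = n / M := ⟨_, rfl⟩
  have h1' : r * (κ * (1 - σ) - κ - μ * (1 - κ)) - μ * (κ * (1 - σ) - 1) = 0 := by
    rw [hrd]; linear_combination h1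
  have h2' : r * (1 - κ * (1 - σ) - x.2 * (1 - κ)) - (x.2 - 1) * (κ * (1 - σ) - 1) = 0 := by
    rw [hrd]; linear_combination h2
  rw [← hrd] at hn1 ⊢
  have hr0 : r ≠ 0 := by rw [hrd]; exact div_ne hn hM
  have h3 : (1 - μ - x.2) * (r * (1 - κ) + (κ * (1 - σ) - 1)) = 0 := by
    linear_combination h1' + h2'
  rcases mul_eq_zero.mp h3 with h | h
  · exact ⟨by linarith, by linear_combination -h1'⟩
  · exfalso
    have h5 : r * (1 - κ) * (1 - r) = 0 := by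
      linear_combination h1' - (r - μ) * h
    rcases mul_eq_zero.mp h5 with h | h
    · rcases mul_eq_zero.mp h with h | h
      · exact hr0 h
      · exact hκ1 (by linarith)
    · exact hn1 (by linarith)

/-- C2T: `t2` and a near stone, `t2 = (0, τ G)`, arms `b`, `c` -/
theorem c2TD (hM : M ≠ 0) (hκ0 : κ ≠ 0) (v2 x y μ : ℚ) (hμ : μ ≠ 0) :
    ∀ᶠ z in FD D, ∀ᶠ G : ℤ in cofinite, ∀ n : ℤ, n ≠ 0 →
      ¬ cq 0 ((μ * z.1 + z.2) * G) x y (n / M * (κ * z.1)) (v2 + n / M * ((1 - κ) * G - v2)) := by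
  have hμ' : 0 < |μ| := abs_pos.mpr hμ
  have hκ' : 0 < |κ| := abs_pos.mpr hκ0
  filter_upwards [FD_big D (1 / |μ|) (1 / |μ|),
    FD_big D 0 ((|M * x| + |x * (1 - κ)|) / |κ|)] with z h1 h2
  obtain ⟨τ, hτ⟩ : ∃ τ : ℚ, τ = μ * z.1 + z.2 := ⟨_, rfl⟩
  have hτ1 : 1 < |τ| := by
    have e : 1 / |μ| * |z.2| + 1 / |μ| = (|z.2| + 1) / |μ| := by ring
    rw [e, div_lt_iff₀ hμ'] at h1
    have h3 : |μ| * |(z.1 : ℚ)| ≤ |τ| + |z.2| := by
      rw [← abs_mul, hτ]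
      have := abs_sub (μ * (z.1 : ℚ) + z.2) z.2
      rwa [add_sub_cancel_right] at this
    linarith
  rw [zero_mul, zero_add, div_lt_iff₀ hκ'] at h2
  have hdom : |M * x * τ| < |x * (1 - κ) + τ * (κ * z.1)| := by
    have h3 : |τ| * (|(z.1 : ℚ)| * |κ|) ≤ |x * (1 - κ) + τ * (κ * z.1)| + |x * (1 - κ)| := by
      have e : |τ| * (|(z.1 : ℚ)| * |κ|) = |τ * (κ * z.1)| := by
        rw [abs_mul, abs_mul]; ring
      rw [e]
      have := abs_sub (x * (1 - κ) + τ * (κ * z.1)) (x * (1 - κ))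
      rwa [add_sub_cancel_left] at this
    have h4 := mul_lt_mul_of_pos_left h2 (lt_trans one_pos hτ1)
    have h5 : |x * (1 - κ)| ≤ |τ| * |x * (1 - κ)| := le_mul_of_one_le_left (abs_nonneg _) hτ1.le
    rw [abs_mul (M * x) τ]
    linarith
  have hP : x * (1 - κ) + τ * (κ * z.1) ≠ 0 := by
    intro h
    rw [h, abs_zero] at hdom
    exact absurd hdom (not_lt.mpr (abs_nonneg _))
  have hA : (x * (1 - κ) + τ * (κ * z.1)) / M ≠ 0 := div_ne_zero hP hM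
  rw [← hτ]
  filter_upwards [linQ ((x * (1 - κ) + τ * (κ * z.1)) / M) (-(τ * x))
    (-(x * v2) / M - y * (κ * z.1) / M) (x * v2) hA] with G hG n hn hc
  unfold cq at hc
  obtain ⟨h1, _⟩ := hG n (by linear_combination hc)
  have h2 : (n : ℚ) * (x * (1 - κ) + τ * (κ * z.1)) = M * x * τ := by
    have : (x * (1 - κ) + τ * (κ * z.1)) / M * n = τ * x := by linarith
    rw [div_mul_eq_mul_div, div_eq_iff hM] at this
    linear_combination this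
  have h3 : |x * (1 - κ) + τ * (κ * z.1)| ≤ |M * x * τ| := by
    rw [← h2, abs_mul]
    apply le_mul_of_one_le_left (abs_nonneg _)
    have : (1 : ℤ) ≤ |n| := Int.one_le_abs hn
    have h4 : ((1 : ℤ) : ℚ) ≤ ((|n| : ℤ) : ℚ) := by exact_mod_cast this
    rwa [Int.cast_one, Int.cast_abs] at h4
  linarith

/-- `t3 t` is not parallel to the arm `c` -/
theorem p3t_cD {κ : ℤ} (μ : ℚ) (hκ1 : κ ≠ 1) :
    ∀ᶠ x in FD D, ∀ k : ℤ, (k : ℚ) * x.1 - κ * x.1 - (1 - κ) * (μ * x.1 + x.2) ≠ 0 := by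
  have hκ1q : (1 : ℚ) - κ ≠ 0 := by
    intro h; apply hκ1
    have : (κ : ℚ) = 1 := by linarith
    exact_mod_cast this
  filter_upwards [linD D 1 (-κ - (1 - κ) * μ) 0 (-(1 - κ)) 0 0 one_ne_zero, FD_ne D]
    with x e1 hc0 k h
  obtain ⟨_, h2⟩ := e1 k (by linear_combination h)
  exact mul_ne_zero hκ1q hc0 (by linear_combination -h2)

/-- first leaf: a near stone behind the answer on `f c` -/
theorem zs_nD (hM : M ≠ 0) (hκ0 : κ ≠ 0) (hκ1 : κ ≠ 1) (x y μ : ℚ) (hy : y ≠ 0) (hμ : μ ≠ 0)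
    (hμ1 : μ ≠ 1) :
    ∀ᶠ z in FD D, ∀ᶠ G : ℤ in cofinite, ∀ m n : ℤ, (m : ℚ) / M ≠ 1 →
      (m : ℚ) / M * z.2 = (1 - μ) * (μ * z.1 + z.2) →
      ¬ cq (m / M * (κ * z.1)) (m / M * ((1 - κ) * G)) x y (1 + n / M * (κ * z.1 - 1))
        (n / M * ((1 - κ) * G)) := by
  have hκ1' : 1 - κ ≠ 0 := sub_ne_zero.mpr hκ1.symm
  have hμ1' : 1 - μ ≠ 0 := sub_ne_zero.mpr hμ1.symm
  filter_upwards [lneD D (-((1 - μ) * μ)) (x - (1 - μ)) 0
      (neg_ne_zero.mpr (mul_ne_zero hμ1' hμ)),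
    quadD D (κ * (1 - μ) * μ) (κ * (1 - μ)) (-x)
      (mul_ne_zero (mul_ne_zero hκ0 hμ1') hμ), FD_ne D] with z e1 e2 hc0
  obtain ⟨w, hw⟩ : ∃ w : ℚ, w = (1 - μ) * (μ * z.1 + z.2) / z.2 := ⟨_, rfl⟩
  have hw' : w * z.2 = (1 - μ) * (μ * z.1 + z.2) := by rw [hw, div_mul_cancel₀ _ hc0]
  have hxw : x - w ≠ 0 := by
    intro h
    apply e1
    linear_combination z.2 * h + hw'
  have hw2 : κ * z.1 * w - x ≠ 0 := by
    intro h
    apply e2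
    linear_combination z.2 * h - κ * z.1 * hw'
  have hA : (1 - κ) * (x - w) / M ≠ 0 := div_ne_zero (mul_ne_zero hκ1' hxw) hM
  filter_upwards [linQ ((1 - κ) * (x - w) / M) ((1 - κ) * (w * (1 - x)))
    (-(y * (κ * z.1 - 1) / M)) (-(y * (1 - w * (κ * z.1)))) hA] with G hG m n hm1 hm hc
  have hmw : (m : ℚ) / M = w := by
    apply mul_right_cancel₀ hc0
    rw [hm, hw']
  unfold cq at hc
  rw [hmw] at hc hm1
  obtain ⟨h1, h2⟩ := hG n (by linear_combination hc)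
  obtain ⟨s, hs⟩ : ∃ s : ℚ, s = n / M := ⟨_, rfl⟩
  have h1' : (1 - κ) * (s * (x - w) + w * (1 - x)) = 0 := by rw [hs]; linear_combination h1
  have h2' : y * (1 + s * (κ * z.1 - 1) - w * (κ * z.1)) = 0 := by
    rw [hs]; linear_combination -h2
  have h3 := (mul_eq_zero.mp h1').resolve_left hκ1'
  have h4 := (mul_eq_zero.mp h2').resolve_left hy
  have h5 : (w - 1) * (κ * z.1 * w - x) = 0 := by
    linear_combination (x - w) * h4 - (κ * z.1 - 1) * h3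
  rcases mul_eq_zero.mp h5 with h | h
  · exact hm1 (by linarith)
  · exact hw2 h

/-- first leaf: `t2` behind the answer on `f c` -/
theorem zs_t2D (hD : D ≠ 0) (hM : M ≠ 0) (hκ0 : κ ≠ 0) (hκ1 : κ ≠ 1) (μ : ℚ) (hμ : μ ≠ 0)
    (hμ1 : μ ≠ 1) (hk8 : ∀ᶠ z in FD D, κ * z.2 + (1 - κ) * (1 - μ) ≠ 0) :
    ∀ᶠ z in FD D, ∀ᶠ G : ℤ in cofinite, ∀ m n : ℤ, m ≠ 0 → (m : ℚ) / M ≠ 1 →
      (m : ℚ) / M * z.2 = (1 - μ) * (μ * z.1 + z.2) →
      ¬ cq (m / M * (κ * z.1)) (m / M * ((1 - κ) * G)) 0 (μ * G + (1 - μ))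
        (1 + n / M * (κ * z.1 - 1)) (n / M * ((1 - κ) * G)) := by
  have hκ1' : 1 - κ ≠ 0 := sub_ne_zero.mpr hκ1.symm
  have hμ1' : 1 - μ ≠ 0 := sub_ne_zero.mpr hμ1.symm
  filter_upwards [quadD2 D hD μ κ ((1 - κ) * (1 - μ)) (-μ + (1 - μ) * (1 - κ)) hμ hκ0,
    FD_fst (evQ 0), FD_ne D, hk8] with z e1 e2 hc0 e8
  have hE : (z.1 : ℚ) ≠ 0 := abs_pos.mp e2
  obtain ⟨w, hw⟩ : ∃ w : ℚ, w = (1 - μ) * (μ * z.1 + z.2) / z.2 := ⟨_, rfl⟩
  have hw' : w * z.2 = (1 - μ) * (μ * z.1 + z.2) := by rw [hw, div_mul_cancel₀ _ hc0]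
  have hA : -(μ * (κ * z.1 - 1) + w * (1 - κ)) / M ≠ 0 := by
    refine div_ne_zero (neg_ne_zero.mpr ?_) hM
    intro h
    apply e1 e8
    linear_combination z.2 * h - (1 - κ) * hw'
  filter_upwards [linQ (-(μ * (κ * z.1 - 1) + w * (1 - κ)) / M)
    (-μ + μ * w * (κ * z.1) + w * (1 - κ)) (-((1 - μ) * (κ * z.1 - 1) / M))
    (-((1 - μ) * (1 - w * (κ * z.1)))) hA] with G hG m n hm0 hm1 hm hc
  have hmw : (m : ℚ) / M = w := by
    apply mul_right_cancel₀ hc0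
    rw [hm, hw']
  have hw0 : w ≠ 0 := by rw [← hmw]; exact div_ne hm0 hM
  unfold cq at hc
  rw [hmw] at hc hm1
  obtain ⟨h1, h2⟩ := hG n (by linear_combination hc)
  obtain ⟨s, hs⟩ : ∃ s : ℚ, s = n / M := ⟨_, rfl⟩
  have h2' : (1 - μ) * (1 + s * (κ * z.1 - 1) - w * (κ * z.1)) = 0 := by
    rw [hs]; linear_combination -h2
  have h4 := (mul_eq_zero.mp h2').resolve_left hμ1'
  have h1' : w * (κ * z.1) * (1 - κ) * (s - w) = 0 := by
    have : -(μ * (κ * z.1 - 1) + w * (1 - κ)) * s + (-μ + μ * w * (κ * z.1) + w * (1 - κ)) = 0 := by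
      rw [hs]; linear_combination h1
    linear_combination -this - (μ - w * (1 - κ)) * h4
  have h5 : s = w := by
    rcases mul_eq_zero.mp h1' with h | h
    · exact absurd h (mul_ne_zero (mul_ne_zero hw0 (mul_ne_zero hκ0 hE)) hκ1')
    · linarith
  rw [h5] at h4
  exact hm1 (by linear_combination -h4)

end

end Pool.Agent.K4L
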