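import Pool.Agent.K4L.K3UFB

/-!
# K3U, the kill `f` on `g e`: all facts, for `τ = μ E + δ`
-/

namespace Pool.Agent.K4L

open Filter

section
variable {D : ℤ}

/-- the hits of one arm which do not use `t2` -/
theorem ev_nohit_auxD (B : Finset Pt) (α b1 b2 : ℤ) (hα : α ≠ 0) (hb2 : b2 ≠ 0) {κ : ℤ} {M : ℚ}
    (hM : M ≠ 0) (hκ0 : κ ≠ 0) (hκ1 : κ ≠ 1) (v1 v2 μ : ℚ) (hμ : μ ≠ 0) :
    ∀ᶠ z in FD D, ∀ᶠ G : ℤ in cofinite,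
    (∀ u ∈ B, ∀ v ∈ B, u ≠ v → ∀ n : ℤ, n ≠ 0 →
    ¬ cq (nx α b1 b2 u) (ny b2 u) (nx α b1 b2 v) (ny b2 v) (v1 + n / M * (κ * z.1 - v1))
      (v2 + n / M * ((1 - κ) * G - v2))) ∧
    (∀ u ∈ B, ∀ n : ℤ, n ≠ 0 →
    ¬ cq (μ * z.1 + z.2) 0 (nx α b1 b2 u) (ny b2 u) (v1 + n / M * (κ * z.1 - v1))
      (v2 + n / M * ((1 - κ) * G - v2))) ∧
    (∀ u ∈ B, ∀ n : ℤ, n ≠ 0 → ∀ k : ℤ, k ≠ κ →
    ¬ cq (k * z.1) ((1 - k) * G) (nx α b1 b2 u) (ny b2 u) (v1 + n / M * (κ * z.1 - v1))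
      (v2 + n / M * ((1 - κ) * G - v2))) := by
  have hκ0q : (κ : ℚ) ≠ 0 := by exact_mod_cast hκ0
  have hκ1q : (κ : ℚ) ≠ 1 := by exact_mod_cast hκ1
  have E1 : ∀ᶠ E : ℤ in cofinite, ∀ u ∈ B, ∀ v ∈ B, u ≠ v → nx α b1 b2 u = nx α b1 b2 v →
      ∀ G : ℤ, ∀ n : ℤ, n ≠ 0 →
      ¬ cq (nx α b1 b2 u) (ny b2 u) (nx α b1 b2 u) (ny b2 v) (v1 + n / M * (κ * E - v1))
      (v2 + n / M * ((1 - κ) * G - v2)) := by
    refine ev_fin2 B B ?_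
    intro u _ v _
    by_cases huv : u = v
    · exact Eventually.of_forall (fun E h => absurd huv h)
    by_cases hx : nx α b1 b2 u = nx α b1 b2 v
    · have hy : ny b2 u ≠ ny b2 v := fun h => huv (n_ext hα hb2 hx h)
      filter_upwards [c1' hM hκ0q v1 v2 (nx α b1 b2 u) (ny b2 u) (ny b2 v) hy] with E hE _ _
      exact hE
    · exact Eventually.of_forall (fun E _ h => absurd h hx)
  have E3 : ∀ᶠ E : ℤ in cofinite, ∀ u ∈ B, ∀ᶠ G : ℤ in cofinite,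
      ∀ n : ℤ, n ≠ 0 → ∀ k : ℤ, k ≠ κ →
      ¬ cq (k * E) ((1 - k) * G) (nx α b1 b2 u) (ny b2 u) (v1 + n / M * (κ * E - v1))
        (v2 + n / M * ((1 - κ) * G - v2)) :=
    ev_fin B (fun u _ => c3 hM v1 v2 _ _)
  filter_upwards [FD_fst E1, FD_fin B (fun u _ => lneD D μ 1 (-(nx α b1 b2 u)) hμ), FD_fst E3]
    with z e1 e2 e3
  have G1 : ∀ᶠ G : ℤ in cofinite, ∀ u ∈ B, ∀ v ∈ B, nx α b1 b2 u ≠ nx α b1 b2 v →
      ∀ n : ℤ, n ≠ 0 → ¬ cq (nx α b1 b2 u) (ny b2 u) (nx α b1 b2 v) (ny b2 v)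
        (v1 + n / M * (κ * z.1 - v1)) (v2 + n / M * ((1 - κ) * G - v2)) := by
    refine ev_fin2 B B ?_
    intro u _ v _
    by_cases hx : nx α b1 b2 u = nx α b1 b2 v
    · exact Eventually.of_forall (fun E h => absurd hx h)
    · filter_upwards [c1 hM hκ1q z.1 v1 v2 (nx α b1 b2 u) (ny b2 u) _ (ny b2 v) hx] with G hG _
      exact hG
  have G2 : ∀ᶠ G : ℤ in cofinite, ∀ u ∈ B, ∀ n : ℤ, n ≠ 0 →
      ¬ cq (μ * z.1 + z.2) 0 (nx α b1 b2 u) (ny b2 u) (v1 + n / M * (κ * z.1 - v1))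
      (v2 + n / M * ((1 - κ) * G - v2)) := by
    refine ev_fin B ?_
    intro u hu
    refine c1 hM hκ1q z.1 v1 v2 _ 0 _ _ ?_
    intro h
    exact e2 u hu (by linear_combination h)
  filter_upwards [G1, G2, ev_fin B e3] with G g1 g2 g3
  refine ⟨?_, g2, g3⟩
  intro u hu v hv huv n hn
  by_cases hx : nx α b1 b2 u = nx α b1 b2 v
  · rw [← hx]
    exact e1 u hu v hv huv hx G n hn
  · exact g1 u hu v hv hx n hn

/-- near `(σ, ρ)`: no hits, all arms -/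
theorem ev_nohitD (B : Finset Pt) (α b1 b2 : ℤ) (hα : α ≠ 0) (hb2 : b2 ≠ 0) {κ : ℤ} {M : ℚ}
    (hM : M ≠ 0) (hκ0 : κ ≠ 0) (hκ1 : κ ≠ 1) (μ σ ρ : ℚ) (hμ : μ ≠ 0)
    (hσ : σ ≠ 0) (hρ : ρ ≠ 0) (hk2 : μ * (1 - κ) + σ * κ ≠ 0) :
    ∀ᶠ z in FD D, ∀ᶠ G : ℤ in cofinite,
      NoHit B α b1 b2 κ M z.1 G (μ * z.1 + z.2) (σ * G + ρ) 0 0 ∧
      NoHit B α b1 b2 κ M z.1 G (μ * z.1 + z.2) (σ * G + ρ) 1 0 ∧
      NoHit B α b1 b2 κ M z.1 G (μ * z.1 + z.2) (σ * G + ρ) 0 1 := by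
  have hκ0q : (κ : ℚ) ≠ 0 := by exact_mod_cast hκ0
  have hκ1q : (κ : ℚ) ≠ 1 := by exact_mod_cast hκ1
  have T2 : ∀ v1 v2 : ℚ, ∀ᶠ E : ℤ in cofinite, ∀ u ∈ B, ∀ᶠ G : ℤ in cofinite, ∀ n : ℤ, n ≠ 0 →
      ¬ cq 0 (σ * G + ρ) (nx α b1 b2 u) (ny b2 u) (v1 + n / M * (κ * E - v1))
        (v2 + n / M * ((1 - κ) * G - v2)) := fun v1 v2 =>
    ev_fin B (fun u _ => c2 hM hκ0q v1 v2 _ _ σ ρ hσ)
  filter_upwards [ev_nohit_auxD B α b1 b2 hα hb2 hM hκ0 hκ1 0 0 μ hμ,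
    ev_nohit_auxD B α b1 b2 hα hb2 hM hκ0 hκ1 1 0 μ hμ,
    ev_nohit_auxD B α b1 b2 hα hb2 hM hκ0 hκ1 0 1 μ hμ, FD_fst (T2 0 0), FD_fst (T2 1 0),
    FD_fst (T2 0 1),
    c2t_acD hM hκ1q 0 μ σ ρ hρ hμ hk2, c2t_acD hM hκ1q 1 μ σ ρ hρ hμ hk2,
    c2t_bD hM hκ0q μ σ ρ hσ hμ hk2] with z a1 a2 a3 a4 a5 a6 a7 a8 a9
  filter_upwards [a1, a2, a3, ev_fin B a4, ev_fin B a5, ev_fin B a6, a7, a8, a9]
    with G g1 g2 g3 g4 g5 g6 g7 g8 g9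
  refine ⟨⟨g1.1, g1.2.1, g4, ?_, g1.2.2⟩, ⟨g2.1, g2.2.1, g5, ?_, g2.2.2⟩,
    ⟨g3.1, g3.2.1, g6, ?_, g3.2.2⟩⟩
  · intro n hn _ h
    apply g7 n hn
    simpa using h
  · intro n hn _ h
    apply g8 n hn
    simpa using h
  · intro n hn _ h
    apply g9 n hn
    simpa using h

/-- `t2 = (0, τ G)`: no hits, arms `b`, `c` -/
theorem ev_nohitTD (B : Finset Pt) (α b1 b2 : ℤ) (hα : α ≠ 0) (hb2 : b2 ≠ 0) {κ : ℤ} {M : ℚ}
    (hM : M ≠ 0) (hκ0 : κ ≠ 0) (hκ1 : κ ≠ 1) (μ : ℚ) (hμ : μ ≠ 0)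
    (hk6 : ∀ᶠ z in FD D, z.2 * κ ≠ μ * (1 - κ)) :
    ∀ᶠ z in FD D, ∀ᶠ G : ℤ in cofinite,
      NoHit B α b1 b2 κ M z.1 G (μ * z.1 + z.2) ((μ * z.1 + z.2) * G) 0 0 ∧
      NoHit B α b1 b2 κ M z.1 G (μ * z.1 + z.2) ((μ * z.1 + z.2) * G) 0 1 := by
  have hκ0q : (κ : ℚ) ≠ 0 := by exact_mod_cast hκ0
  have T2 : ∀ v2 : ℚ, ∀ᶠ z in FD D, ∀ u ∈ B, ∀ᶠ G : ℤ in cofinite, ∀ n : ℤ, n ≠ 0 →
      ¬ cq 0 ((μ * z.1 + z.2) * G) (nx α b1 b2 u) (ny b2 u) (n / M * (κ * z.1))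
        (v2 + n / M * ((1 - κ) * G - v2)) := fun v2 =>
    FD_fin B (fun u _ => c2TD hM hκ0q v2 _ _ μ hμ)
  filter_upwards [ev_nohit_auxD B α b1 b2 hα hb2 hM hκ0 hκ1 0 0 μ hμ,
    ev_nohit_auxD B α b1 b2 hα hb2 hM hκ0 hκ1 0 1 μ hμ, T2 0, T2 1,
    c2tT_cD hM hκ0q μ hμ hk6, c2tT_bD hM hκ0q μ hμ] with z a1 a3 a4 a6 a7 a9
  filter_upwards [a1, a3, ev_fin B a4, ev_fin B a6, a9, lneQ 1 0 (Or.inl one_ne_zero)]
    with G g1 g3 g4 g6 g9 g0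
  have hG : G ≠ 0 := by rintro rfl; apply g0; norm_num
  refine ⟨⟨g1.1, g1.2.1, ?_, ?_, g1.2.2⟩, ⟨g3.1, g3.2.1, ?_, ?_, g3.2.2⟩⟩
  · intro u hu n hn h
    apply g4 u hu n hn
    simpa using h
  · intro n hn _ h
    apply a7 G hG n
    simpa using h
  · intro u hu n hn h
    apply g6 u hu n hn
    simpa using h
  · intro n hn hn1 h
    apply g9 n hn1
    simpa using h

theorem ev_EvTD (B : Finset Pt) (α b1 b2 : ℤ) (hα : α ≠ 0) (hb2 : b2 ≠ 0) {κ : ℤ} {M : ℚ}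
    (hM : M ≠ 0) (hκ0 : κ ≠ 0) (hκ1 : κ ≠ 1) (μ : ℚ) (hμ : μ ≠ 0)
    (hk6 : ∀ᶠ z in FD D, z.2 * κ ≠ μ * (1 - κ))
    (hk7 : ∀ᶠ z in FD D, κ * z.2 ≠ (1 - κ) * (μ - 1)) :
    ∀ᶠ z in FD D, ∀ᶠ G : ℤ in cofinite, EvT B α b1 b2 κ M z.1 G (μ * z.1 + z.2) := by
  have hκ0q : (κ : ℚ) ≠ 0 := by exact_mod_cast hκ0
  have hκ1q : (κ : ℚ) ≠ 1 := by exact_mod_cast hκ1
  have hκM : (κ : ℚ) / M ≠ 0 := div_ne_zero hκ0q hM
  filter_upwards [ev_nohitTD B α b1 b2 hα hb2 hM hκ0 hκ1 μ hμ hk6,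
    c4D hM hκ1q μ, linD D (κ / M) (-(κ * μ)) 0 (-κ) ((1 - κ) / M) (-(1 - κ)) hκM,
    lneD D μ 1 0 hμ, lneD D μ 1 (-1) hμ, FD_fst (evQ 0), hk7] with z e1 e2 e3 e4 e5 e6 e7
  have hE0 : (z.1 : ℚ) ≠ 0 := abs_pos.mp e6
  have hEi : z.1 ≠ 0 := by
    intro h
    apply hE0
    rw [h]; norm_num
  obtain ⟨τ, hτ⟩ : ∃ τ : ℚ, τ = μ * z.1 + z.2 := ⟨_, rfl⟩
  have hτ1 : τ ≠ 1 := by intro h; apply e5; linear_combination h - hτ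
  have e4 : τ ≠ 0 := by intro h; apply e4; linear_combination h - hτ
  have hτM : τ / M ≠ 0 := div_ne_zero e4 hM
  have hA : κ * τ * z.1 / M ≠ 0 :=
    div_ne_zero (mul_ne_zero (mul_ne_zero hκ0q e4) hE0) hM
  rw [← hτ] at e1 e2 ⊢
  filter_upwards [e1, e2, c6bT hM τ hτ1 z.1 hEi,
    linQ (τ / M) (-(τ * τ)) (-((1 - τ) / M)) 0 hτM,
    linQ (κ * τ * z.1 / M) (-(κ * τ * τ)) (-((κ * z.1 + τ * (1 - κ)) / M)) τ hA]
    with G g1 g2 g3 g4 g5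
  refine ⟨g1.1, g1.2, g2, g3, ?_, ?_, ?_⟩
  · intro n k hn hn1 hk hT
    unfold Teq at hT
    rw [hk] at hT
    have h0 : τ * (n / M * (κ * z.1 + 1 - κ) - (1 - κ + κ * τ)) = 0 := by
      linear_combination -hT
    have h1 := (mul_eq_zero.mp h0).resolve_left e4
    obtain ⟨h2, h3⟩ := e3 n (by rw [hτ] at h1; linear_combination h1)
    apply e7
    obtain ⟨r, hr⟩ : ∃ r : ℚ, r = n / M := ⟨_, rfl⟩
    have h2' : κ * (r - μ) = 0 := by rw [hr]; linear_combination h2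
    have h3' : (1 - κ) * r - ((1 - κ) + κ * z.2) = 0 := by rw [hr]; linear_combination h3
    have h4 := (mul_eq_zero.mp h2').resolve_left hκ0q
    linear_combination -h3' + (1 - (κ : ℚ)) * h4
  · intro n hn h
    obtain ⟨h2, h3⟩ := g4 n (by linear_combination h)
    have hn' := div_ne hn hM
    have h4 : (1 - τ) * (n / M) = 0 := by linear_combination -h3
    rcases mul_eq_zero.mp h4 with h | h
    · exact hτ1 (by linarith)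
    · exact hn' h
  · intro n k hn1 hk hT
    unfold Teq at hT
    rw [hk] at hT
    obtain ⟨h2, h3⟩ := g5 n (by linear_combination hT)
    obtain ⟨r, hr⟩ : ∃ r : ℚ, r = n / M := ⟨_, rfl⟩
    have h2' : κ * τ * (r * z.1 - τ) = 0 := by rw [hr]; linear_combination h2
    have h3' : -(κ * z.1 + τ * (1 - κ)) * r + τ = 0 := by rw [hr]; linear_combination h3
    have h4 := (mul_eq_zero.mp h2').resolve_left (mul_ne_zero hκ0q e4)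
    have h5 : τ * (1 - κ) * (1 - r) = 0 := by linear_combination κ * h4 + h3'
    rw [← hr] at hn1
    rcases mul_eq_zero.mp h5 with h | h
    · rcases mul_eq_zero.mp h with h | h
      · exact e4 h
      · exact hκ1q (by linarith)
    · exact hn1 (by linarith)

theorem ev_EvND (B : Finset Pt) (α b1 b2 : ℤ) (hα : α ≠ 0) (hb2 : b2 ≠ 0) {κ : ℤ} {M : ℚ}
    (hM : M ≠ 0) (hκ0 : κ ≠ 0) (hκ1 : κ ≠ 1) (μ σ ρ : ℚ) (hμ : μ ≠ 0)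
    (hσ : σ ≠ 0) (hρ : ρ ≠ 0) (hk2 : μ * (1 - κ) + σ * κ ≠ 0) :
    ∀ᶠ z in FD D, ∀ᶠ G : ℤ in cofinite, EvN B α b1 b2 κ M z.1 G μ z.2 σ ρ := by
  have hκ0q : (κ : ℚ) ≠ 0 := by exact_mod_cast hκ0
  have hκ1q : (κ : ℚ) ≠ 1 := by exact_mod_cast hκ1
  have X2 : ∀ᶠ z in FD D, σ ≠ 1 → ∀ n k n' : ℤ, n ≠ 0 → (n : ℚ) / M ≠ 1 →
      (k : ℚ) ≠ κ → (k - κ * (1 - σ)) * (n' / M - σ) = κ * σ * (1 - σ) →
      Teq κ z.1 (μ * z.1 + z.2) 0 (n / M) k → (k : ℚ) = κ + μ * (1 - κ) := by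
    by_cases h : σ = 1
    · exact Eventually.of_forall (fun E h' => absurd h h')
    · filter_upwards [tc_iiD hM hκ0q hκ1q μ σ hμ hσ h] with z hE _
      exact hE
  filter_upwards [ev_nohitD B α b1 b2 hα hb2 hM hκ0 hκ1 μ σ ρ hμ hσ hρ hk2,
    c4D hM hκ1q μ, FD_fst (c6a hM hκ1q σ ρ hρ), tc_iD hM hκ1q μ σ hk2, X2,
    ta_iD hM hκ1q μ σ hk2, lneD D μ 1 0 hμ, FD_fst (evQ 0)] with z e1 e2 e3 e4 e5 e6 e7 e8
  have hE0 : (z.1 : ℚ) ≠ 0 := abs_pos.mp e8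
  have hEi : z.1 ≠ 0 := by
    intro h
    apply hE0
    rw [h]; norm_num
  have e7' : μ * (z.1 : ℚ) + z.2 ≠ 0 := by intro h; apply e7; linear_combination h
  have X3 : ∀ᶠ G : ℤ in cofinite, σ ≠ 1 → 1 - ρ - σ ≠ 0 → ∀ n k : ℤ, (n : ℚ) / M ≠ 1 →
      k * (1 - ρ - σ) = κ * σ * ((1 - σ) * G - ρ) →
      ¬ Teq κ z.1 (μ * z.1 + z.2) 0 (n / M) k := by
    by_cases h : σ = 1
    · exact Eventually.of_forall (fun G h' => absurd h h')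
    by_cases h2 : 1 - ρ - σ = 0
    · exact Eventually.of_forall (fun G _ h' => absurd h2 h')
    filter_upwards [tc_iii hM hκ0q hκ1q σ ρ (μ * z.1 + z.2) z.1 hEi e7' hσ h h2] with G hG _ _
    exact hG
  have X4 : ∀ᶠ G : ℤ in cofinite, σ ≠ 1 →
      (κ : ℚ) * (1 - σ) * (1 - ρ - σ) ≠ κ * σ * ((1 - σ) * G - ρ) := by
    by_cases h : σ = 1
    · exact Eventually.of_forall (fun G h' => absurd h h')
    filter_upwards [lneQ (κ * σ * (1 - σ)) (-(κ * σ * ρ) - κ * (1 - σ) * (1 - ρ - σ))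
      (Or.inl (mul_ne_zero (mul_ne_zero hκ0q hσ) (sub_ne_zero.mpr (Ne.symm h))))] with G hG _ hc
    apply hG
    linear_combination -hc
  have X5 : ∀ᶠ G : ℤ in cofinite, σ ≠ 1 → ∀ n : ℤ,
      (κ * σ * (1 - G) - κ * (1 - σ)) * ((n : ℚ) / M - σ) ≠ κ * σ * (1 - σ) := by
    by_cases h : σ = 1
    · exact Eventually.of_forall (fun G h' => absurd h h')
    have hA : -(κ * σ) / M ≠ 0 := div_ne_zero (neg_ne_zero.mpr (mul_ne_zero hκ0q hσ)) hM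
    filter_upwards [linQ (-(κ * σ) / M) (κ * σ * σ) ((κ * σ - κ * (1 - σ)) / M)
      (-((κ * σ - κ * (1 - σ)) * σ) - κ * σ * (1 - σ)) hA] with G hG _ n hc
    obtain ⟨h1, h2⟩ := hG n (by linear_combination hc)
    obtain ⟨r, hr⟩ : ∃ r : ℚ, r = n / M := ⟨_, rfl⟩
    have h1' : κ * σ * (σ - r) = 0 := by rw [hr]; linear_combination h1
    have h3 := (mul_eq_zero.mp h1').resolve_left (mul_ne_zero hκ0q hσ)
    have h2' : (κ * σ - κ * (1 - σ)) * (r - σ) - κ * σ * (1 - σ) = 0 := by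
      rw [hr]; linear_combination h2
    have h4 : κ * σ * (1 - σ) = 0 := by
      linear_combination -h2' - (κ * σ - κ * (1 - σ)) * h3
    exact mul_ne_zero (mul_ne_zero hκ0q hσ) (sub_ne_zero.mpr (Ne.symm h)) h4
  filter_upwards [e1, e2, e3, c6b hM σ ρ hκ0q z.1 hEi, c6c hM σ ρ hρ z.1 hEi, X3, X4, X5]
    with G g1 g2 g3 g4 g5 g6 g7 g8
  exact ⟨g1.1, g1.2.1, g1.2.2, g2, g3, g4, g5, e4, e5, g6, e6, g7, g8⟩

/-- the direction of an arm -/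
theorem ev_noparD (B : Finset Pt) (α b1 b2 : ℤ) (hα : α ≠ 0) (hb2 : b2 ≠ 0) {κ : ℤ} (hκ0 : κ ≠ 0)
    (hκ1 : κ ≠ 1) (v1 v2 μ σ ρ : ℚ) (hμ : μ ≠ 0) (hσ : σ ≠ 0)
    (hk2 : μ * (1 - κ) + σ * κ ≠ 0) :
    ∀ᶠ z in FD D, ∀ᶠ G : ℤ in cofinite,
      NoPar B α b1 b2 (μ * z.1 + z.2) (σ * G + ρ) (κ * z.1 - v1) ((1 - κ) * G - v2) := by
  have hκ0q : (κ : ℚ) ≠ 0 := by exact_mod_cast hκ0
  have hκ1q : (1 : ℚ) - κ ≠ 0 := by
    intro h; apply hκ1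
    have : (κ : ℚ) = 1 := by linarith
    exact_mod_cast this
  have E3 : ∀ᶠ E : ℤ in cofinite, ∀ u ∈ B,
      (σ * κ) * (E : ℚ) + ((1 - κ) * nx α b1 b2 u - σ * v1) ≠ 0 :=
    ev_fin B (fun u _ => lneQ _ _ (Or.inl (mul_ne_zero hσ hκ0q)))
  filter_upwards [lneD D κ 0 (-v1) hκ0q,
    FD_fin B (fun u _ => lneD D μ 1 (-(nx α b1 b2 u)) hμ), FD_fst E3,
    lneD D (μ * (1 - κ) + σ * κ) (1 - κ) (-(σ * v1)) hk2] with z e1 e2 e3 e4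
  obtain ⟨τ, hτ⟩ : ∃ τ : ℚ, τ = μ * z.1 + z.2 := ⟨_, rfl⟩
  rw [← hτ]
  have G1 : ∀ᶠ G : ℤ in cofinite, ∀ u ∈ B, ∀ v ∈ B, u ≠ v →
      ((1 - κ) * (nx α b1 b2 v - nx α b1 b2 u)) * (G : ℚ) +
      (-(v2 * (nx α b1 b2 v - nx α b1 b2 u)) - (κ * z.1 - v1) * (ny b2 v - ny b2 u)) ≠ 0 := by
    refine ev_fin2 B B ?_
    intro u _ v _
    by_cases huv : u = v
    · exact Eventually.of_forall (fun G h => absurd huv h)
    by_cases hx : nx α b1 b2 u = nx α b1 b2 v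
    · have hy : ny b2 u ≠ ny b2 v := fun h => huv (n_ext hα hb2 hx h)
      refine Eventually.of_forall (fun G _ h => ?_)
      rw [hx, sub_self] at h
      have h2 : (κ * (z.1 : ℚ) - v1) * (ny b2 v - ny b2 u) = 0 := by linear_combination -h
      rcases mul_eq_zero.mp h2 with h3 | h3
      · exact e1 (by linear_combination h3)
      · exact hy (by linarith)
    · filter_upwards [lneQ ((1 - κ) * (nx α b1 b2 v - nx α b1 b2 u))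
        (-(v2 * (nx α b1 b2 v - nx α b1 b2 u)) - (κ * z.1 - v1) * (ny b2 v - ny b2 u))
        (Or.inl (mul_ne_zero hκ1q (sub_ne_zero.mpr (Ne.symm hx))))] with G hG _
      exact hG
  have G2 : ∀ᶠ G : ℤ in cofinite, ∀ u ∈ B,
      ((1 - κ) * (nx α b1 b2 u - τ)) * (G : ℚ) +
      (-(v2 * (nx α b1 b2 u - τ)) - (κ * z.1 - v1) * ny b2 u) ≠ 0 := by
    refine ev_fin B ?_
    intro u hu
    refine lneQ _ _ (Or.inl (mul_ne_zero hκ1q ?_))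
    intro h
    apply e2 u hu
    linear_combination -h - hτ
  have G3 : ∀ᶠ G : ℤ in cofinite, ∀ u ∈ B,
      (-((1 - κ) * nx α b1 b2 u + σ * (κ * z.1 - v1))) * (G : ℚ) +
      (v2 * nx α b1 b2 u + (κ * z.1 - v1) * (ny b2 u - ρ)) ≠ 0 := by
    refine ev_fin B ?_
    intro u hu
    refine lneQ _ _ (Or.inl ?_)
    intro h
    exact e3 u hu (by linear_combination -h)
  have G4 : ∀ᶠ G : ℤ in cofinite,
      (-((1 - κ) * τ + σ * (κ * z.1 - v1))) * (G : ℚ) +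
      (v2 * τ - (κ * z.1 - v1) * ρ) ≠ 0 := by
    refine lneQ _ _ (Or.inl ?_)
    intro h
    apply e4
    rw [hτ] at h
    linear_combination -h
  filter_upwards [G1, G2, G3, G4] with G g1 g2 g3 g4
  refine ⟨?_, ?_, ?_, ?_⟩
  · intro u hu v hv huv h
    unfold parq at h
    exact g1 u hu v hv huv (by linear_combination -h)
  · intro u hu h
    unfold parq at h
    exact g2 u hu (by linear_combination -h)
  · intro u hu h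
    unfold parq at h
    exact g3 u hu (by linear_combination h)
  · intro h
    unfold parq at h
    exact g4 (by linear_combination h)

theorem ev_LSD (B : Finset Pt) (α b1 b2 : ℤ) (hD : D ≠ 0) (hα : α ≠ 0) (hb2 : b2 ≠ 0) {κ : ℤ}
    {M : ℚ} (hM : M ≠ 0) (hκ0 : κ ≠ 0) (hκ1 : κ ≠ 1) (hy : ∀ β ∈ B, β.2 ≠ 0) (μ : ℚ)
    (hμ : μ ≠ 0) (hμ1 : μ ≠ 1)
    (hk8 : ∀ᶠ z in FD D, (κ : ℚ) * z.2 + (1 - κ) * (1 - μ) ≠ 0) :
    ∀ᶠ z in FD D, ∀ᶠ G : ℤ in cofinite,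
      LS B α b1 b2 κ M z.1 G μ z.2 (μ * z.1 + z.2) (μ * G + (1 - μ)) (κ + μ * (1 - κ)) := by
  have hκ0q : (κ : ℚ) ≠ 0 := by exact_mod_cast hκ0
  have hκ1q : (κ : ℚ) ≠ 1 := by exact_mod_cast hκ1
  have hκ1' : (1 : ℚ) - κ ≠ 0 := sub_ne_zero.mpr hκ1q.symm
  have hμ1' : 1 - μ ≠ 0 := sub_ne_zero.mpr hμ1.symm
  have hyq : ∀ β ∈ B, ny b2 β ≠ 0 := by
    intro β hβ
    unfold ny
    exact div_ne_zero (by exact_mod_cast hy β hβ) (by exact_mod_cast hb2)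
  have hk2 : μ * (1 - κ) + μ * κ ≠ 0 := by
    have : μ * (1 - (κ : ℚ)) + μ * κ = μ := by ring
    rw [this]; exact hμ
  have hθ1 : 1 - ((κ : ℚ) + μ * (1 - κ)) ≠ 0 := by
    have : 1 - ((κ : ℚ) + μ * (1 - κ)) = (1 - κ) * (1 - μ) := by ring
    rw [this]; exact mul_ne_zero hκ1' hμ1'
  have hθ2 : μ - ((κ : ℚ) + μ * (1 - κ)) ≠ 0 := by
    have : μ - ((κ : ℚ) + μ * (1 - κ)) = -(κ * (1 - μ)) := by ring
    rw [this]; exact neg_ne_zero.mpr (mul_ne_zero hκ0q hμ1')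
  filter_upwards [ev_noparD B α b1 b2 hα hb2 hκ0 hκ1 0 0 μ μ (1 - μ) hμ hμ hk2,
    ev_noparD B α b1 b2 hα hb2 hκ0 hκ1 1 0 μ μ (1 - μ) hμ hμ hk2,
    FD_fst (ev_fin B (fun u hu => p3n_a (nx α b1 b2 u) (ny b2 u) hκ0 (hyq u hu))),
    p3t_cD μ hκ1, FD_fst (p32_a μ (1 - μ) hμ1' hκ0),
    lneD D (μ - (κ + μ * (1 - κ))) 1 0 hθ2,
    FD_fin B (fun u _ => lneD D (-(μ * (μ - (κ + μ * (1 - κ))))) (-μ)
      ((1 - (κ + μ * (1 - κ))) * nx α b1 b2 u)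
      (neg_ne_zero.mpr (mul_ne_zero hμ hθ2))),
    FD_fin B (fun u hu => zs_nD hM hκ0q hκ1q (nx α b1 b2 u) (ny b2 u) μ (hyq u hu) hμ hμ1),
    zs_t2D hD hM hκ0q hκ1q μ hμ hμ1 hk8, FD_fst (tga hM hκ0q), FD_fst (evQ 0),
    FD_fst (lneQ κ (1 - κ) (Or.inl hκ0q)), FD_ne D]
    with z e1 e2 e3 e4 e5 e6 e7 e8 e9 e10 e11 e12 hc0
  have hE : (z.1 : ℚ) ≠ 0 := abs_pos.mp e11
  have hEi : z.1 ≠ 0 := by
    intro h
    apply hE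
    rw [h]; norm_num
  obtain ⟨E, hEe⟩ : ∃ E : ℤ, E = z.1 := ⟨_, rfl⟩
  obtain ⟨c0, hce⟩ : ∃ c0 : ℚ, c0 = z.2 := ⟨_, rfl⟩
  rw [← hEe, ← hce] at e1 e2 e4 e6 e7 e8 e9 ⊢
  rw [← hEe] at e3 e5 e12 hE hEi e10
  rw [← hce] at hc0
  obtain ⟨τ, hτ⟩ : ∃ τ : ℚ, τ = μ * E + c0 := ⟨_, rfl⟩
  obtain ⟨θ, hθ⟩ : ∃ θ : ℚ, θ = (κ : ℚ) + μ * (1 - κ) := ⟨_, rfl⟩
  have hτθ : τ - θ * E ≠ 0 := by
    intro h; apply e6; rw [hτ, hθ] at h; linear_combination h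
  have hlam : (1 - (κ : ℚ)) * μ * E ≠ 0 := mul_ne_zero (mul_ne_zero hκ1' hμ) hE
  rw [← hθ] at hθ1
  have G1 : ∀ᶠ G : ℤ in cofinite, ∀ u ∈ B, ∀ v ∈ B, u ≠ v →
      ((1 - θ) * (nx α b1 b2 v - nx α b1 b2 u)) * (G : ℚ) +
        (τ - θ * E) * (ny b2 v - ny b2 u) ≠ 0 := by
    refine ev_fin2 B B ?_
    intro u _ v _
    by_cases huv : u = v
    · exact Eventually.of_forall (fun G h => absurd huv h)
    have : ∀ᶠ G : ℤ in cofinite, ((1 - θ) * (nx α b1 b2 v - nx α b1 b2 u)) * (G : ℚ) +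
        (τ - θ * E) * (ny b2 v - ny b2 u) ≠ 0 := by
      apply lneQ
      by_cases hx : nx α b1 b2 u = nx α b1 b2 v
      · right
        have hy : ny b2 u ≠ ny b2 v := fun h => huv (n_ext hα hb2 hx h)
        exact mul_ne_zero hτθ (sub_ne_zero.mpr hy.symm)
      · left
        exact mul_ne_zero hθ1 (sub_ne_zero.mpr (Ne.symm hx))
    filter_upwards [this] with G hG _
    exact hG
  have G2 : ∀ᶠ G : ℤ in cofinite, ∀ u ∈ B,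
      (-(μ * (τ - θ * E)) + (1 - θ) * nx α b1 b2 u) * (G : ℚ) +
        (τ - θ * E) * (ny b2 u - (1 - μ)) ≠ 0 := by
    refine ev_fin B ?_
    intro u hu
    refine lneQ _ _ (Or.inl ?_)
    intro h
    apply e7 u hu
    rw [hτ, hθ] at h
    linear_combination h
  have G3 : ∀ᶠ G : ℤ in cofinite, ∀ u ∈ B, ∀ n : ℤ,
      ¬ parq (κ * E) ((1 - κ) * G) (nx α b1 b2 u) (ny b2 u)
        (1 + n / M * (κ * E - 1)) (n / M * ((1 - κ) * G)) := by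
    refine ev_fin B ?_
    intro u hu
    filter_upwards [linQ ((1 - κ) / M) ((1 - κ) * (nx α b1 b2 u - 1)) 0 (-(κ * E * ny b2 u))
      (div_ne_zero hκ1' hM)] with G hG n h
    unfold parq at h
    obtain ⟨_, h2⟩ := hG n (by linear_combination h)
    rw [zero_mul, zero_add, neg_eq_zero] at h2
    exact mul_ne_zero (mul_ne_zero hκ0q hE) (hyq u hu) h2
  have G4 : ∀ᶠ G : ℤ in cofinite, ∀ n : ℤ,
      ¬ parq (κ * E) ((1 - κ) * G) 0 (μ * G + (1 - μ))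
        (1 + n / M * (κ * E - 1)) (n / M * ((1 - κ) * G)) := by
    filter_upwards [linQ ((1 - κ) / M) (-(1 - κ) - κ * E * μ) 0 (-(κ * E * (1 - μ)))
      (div_ne_zero hκ1' hM)] with G hG n h
    unfold parq at h
    obtain ⟨_, h2⟩ := hG n (by linear_combination h)
    rw [zero_mul, zero_add, neg_eq_zero] at h2
    exact mul_ne_zero (mul_ne_zero hκ0q hE) hμ1' h2
  filter_upwards [e1, e2, ev_fin B (fun u hu => p3n_c (nx α b1 b2 u) (ny b2 u) hκ0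
      (hyq u hu) E hEi), ev_fin B e3, p32_c μ (1 - μ) hμ1' hκ0, e5,
    lneQ (-((1 - κ) * c0)) (τ - θ * E) (Or.inl (neg_ne_zero.mpr (mul_ne_zero hκ1' hc0))),
    G1, G2, ev_fin B e8, e9, G3, G4, tbe hM hκ1q, abe hM hκ1q hE,
    ev_fin B (fun u _ => size_ev hκ1q hE hlam ((1 - κ) * nx α b1 b2 u) (-(κ * E * ny b2 u))),
    size_ev hκ1q hE hlam ((1 - κ) * τ) 0,
    size_ev hκ1q hE hlam (-(κ * E * μ)) (-(κ * E * (1 - μ))),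
    size_ev hκ1q hE hlam (E * (θ - κ)) 0, size_ev hκ1q hE hlam 0 0,
    lneQ (1 - κ) (κ * E - 1) (Or.inl hκ1'), lneQ (1 - κ) κ (Or.inl hκ1')]
    with G g1 g2 g3 g4 g5 g6 g7 g8 g9 g10 g11 g12 g13 g14 g15 g16 g17 g18 g19 g20 g21 g22
  rw [← hτ, ← hθ]
  rw [← hτ] at g1 g2 e4 g10 g11
  refine ⟨g1, g2, g3, g4, e4, g5, g6, ?_, ?_, ?_, g10, g11, g12, g13, e10, g14, g15, g16, g17,
    g18, g19, g20, g21, e12, g22⟩
  · intro h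
    unfold parq at h
    apply g7
    rw [hτ, hθ] at h ⊢
    linear_combination h
  · intro u hu v hv huv h
    unfold parq at h
    exact g8 u hu v hv huv (by linear_combination h)
  · intro u hu h
    unfold parq at h
    exact g9 u hu (by linear_combination h)

end

end Pool.Agent.K4L
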