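import Pool.Agent.K4L.K3UFC

/-!
# K3U, the kill `f` on `g e`: the kill for `τ = μ E + δ`
-/

namespace Pool.Agent.K4L

open Filter

/-- all facts for the kill -/
structure Kl (U : Finset (ℚ × ℚ)) (B : Finset Pt) (α b1 b2 κ : ℤ) (E G : ℤ) (μ δ : ℚ) :
    Prop where
  k3 : ∀ u ∈ U, u.1 ≠ μ → μ ≠ 1 → ∀ n : ℤ, (n : ℚ) / (((α * b2 : ℤ) : ℚ) * κ * (1 - κ)) *
    (κ * (u.1 - μ) + μ) ≠ μ * (1 - κ * (1 - u.1))
  k4 : ∀ u ∈ U, u.1 ≠ μ → u.1 ≠ 1 → ∀ n : ℤ, (κ + μ * (1 - κ) - κ * (1 - u.1)) *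
    ((n : ℚ) / (((α * b2 : ℤ) : ℚ) * κ * (1 - κ)) - u.1) ≠ κ * u.1 * (1 - u.1)
  N : ∀ u ∈ U, EvN B α b1 b2 κ (((α * b2 : ℤ) : ℚ) * κ * (1 - κ)) E G μ δ u.1 u.2
  T : EvT B α b1 b2 κ (((α * b2 : ℤ) : ℚ) * κ * (1 - κ)) E G (μ * E + δ)
  S : μ ≠ 1 → LS B α b1 b2 κ (((α * b2 : ℤ) : ℚ) * κ * (1 - κ)) E G μ δ (μ * E + δ)
    (μ * G + (1 - μ)) (κ + μ * (1 - κ))
  O : μ ≠ 1 → ∀ u ∈ U, LO B α b1 b2 κ (((α * b2 : ℤ) : ℚ) * κ * (1 - κ)) E G μ u.2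
    (μ * E + (1 - μ)) (μ * G + u.2) (κ * (1 - μ))

theorem ev_Kl {R B : Finset Pt} {α b1 b2 : ℤ} (K : K3C R B α b1 b2) (U : Finset (ℚ × ℚ))
    (hU1 : ∀ u ∈ U, u.1 ≠ 0) (hU2 : ∀ u ∈ U, u.2 ≠ 0) {D : ℤ} (hD : D ≠ 0) (μ : ℚ)
    (hμ : μ ≠ 0) : ∀ᶠ κ : ℤ in cofinite, κ ≠ 0 ∧ κ ≠ 1 ∧
      ∀ᶠ z in FD D, ∀ᶠ G : ℤ in cofinite, Kl U B α b1 b2 κ z.1 G μ z.2 := by
  have hα := K.hα
  have hb2 := K.hb2
  have hN : α * b2 ≠ 0 := mul_ne_zero hα hb2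
  have k3 : ∀ᶠ κ : ℤ in cofinite, ∀ u ∈ U, u.1 ≠ μ → μ ≠ 1 → ∀ n : ℤ,
      (n : ℚ) / (((α * b2 : ℤ) : ℚ) * κ * (1 - κ)) *
        (κ * (u.1 - μ) + μ) ≠ μ * (1 - κ * (1 - u.1)) := by
    refine ev_fin U ?_
    intro u hu
    by_cases h1 : u.1 = μ
    · exact Eventually.of_forall (fun κ h => absurd h1 h)
    by_cases h2 : μ = 1
    · exact Eventually.of_forall (fun κ _ h => absurd h2 h)
    filter_upwards [kap_i (α * b2) hN μ u.1 hμ h2 (hU1 u hu) h1] with κ hκ _ _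
    exact hκ
  have k4 : ∀ᶠ κ : ℤ in cofinite, ∀ u ∈ U, u.1 ≠ μ → u.1 ≠ 1 → ∀ n : ℤ,
      (κ + μ * (1 - κ) - κ * (1 - u.1)) *
      ((n : ℚ) / (((α * b2 : ℤ) : ℚ) * κ * (1 - κ)) - u.1) ≠ κ * u.1 * (1 - u.1) := by
    refine ev_fin U ?_
    intro u hu
    by_cases h1 : u.1 = μ
    · exact Eventually.of_forall (fun κ h => absurd h1 h)
    by_cases h2 : u.1 = 1
    · exact Eventually.of_forall (fun κ _ h => absurd h2 h)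
    filter_upwards [kap_ii (α * b2) hN μ u.1 hμ h2 (hU1 u hu) h1] with κ hκ _ _
    exact hκ
  have k7 : ∀ᶠ κ : ℤ in cofinite, ∀ δ : ℚ, (∃ m : ℤ, (D : ℚ) * δ = m) → δ ≠ 0 →
      (κ : ℚ) * δ ≠ (1 - κ) * (μ - 1) := by
    by_cases h1 : μ = 1
    · filter_upwards [lneQ 1 0 (Or.inl one_ne_zero)] with κ h0 δ _ hδ h
      rw [h1, sub_self, mul_zero] at h
      rcases mul_eq_zero.mp h with h2 | h2
      · exact h0 (by linear_combination h2)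
      · exact hδ h2
    · filter_upwards [kapD D hD (μ - 1) (μ - 1) (sub_ne_zero.mpr h1)] with κ hκ δ hδ _ h
      apply hκ δ hδ
      linear_combination h
  filter_upwards [k3, k4, k7, kapD D hD μ μ hμ, lneQ 1 0 (Or.inl one_ne_zero),
    lneQ 1 (-1) (Or.inl one_ne_zero),
    ev_fin U (fun u _ => lneQ (u.1 - μ) μ (Or.inr hμ)),
    ev_fin U (fun u hu => lneQ (-u.2) (u.2 - 1 + μ) (Or.inl (neg_ne_zero.mpr (hU2 u hu))))]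
    with κ a3 a4 a7 a6 c0 c1 a2 a9
  have hκ0 : κ ≠ 0 := by rintro rfl; apply c0; norm_num
  have hκ1 : κ ≠ 1 := by rintro rfl; apply c1; norm_num
  refine ⟨hκ0, hκ1, ?_⟩
  have hκ0q : (κ : ℚ) ≠ 0 := by exact_mod_cast hκ0
  have hκ1q : (1 : ℚ) - κ ≠ 0 := by
    intro h; apply hκ1
    have : (κ : ℚ) = 1 := by linarith
    exact_mod_cast this
  have hM : ((α * b2 : ℤ) : ℚ) * κ * (1 - κ) ≠ 0 :=
    mul_ne_zero (mul_ne_zero (by exact_mod_cast hN) hκ0q) hκ1q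
  have hk6 : ∀ᶠ z in FD D, z.2 * κ ≠ μ * (1 - κ) := by
    filter_upwards [FD_den D] with z hz h
    apply a6 z.2 hz
    linear_combination h
  have hk7 : ∀ᶠ z in FD D, κ * z.2 ≠ (1 - κ) * (μ - 1) := by
    filter_upwards [FD_den D, FD_ne D] with z hz hz0
    exact a7 z.2 hz hz0
  have hk8 : ∀ᶠ z in FD D, (κ : ℚ) * z.2 + (1 - κ) * (1 - μ) ≠ 0 := by
    filter_upwards [hk7] with z hz h
    apply hz
    linear_combination h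
  have eN : ∀ᶠ z in FD D, ∀ u ∈ U, ∀ᶠ G : ℤ in cofinite,
      EvN B α b1 b2 κ (((α * b2 : ℤ) : ℚ) * κ * (1 - κ)) z.1 G μ z.2 u.1 u.2 := by
    refine FD_fin U ?_
    intro u hu
    refine ev_EvND B α b1 b2 hα hb2 hM hκ0 hκ1 μ u.1 u.2 hμ (hU1 u hu) (hU2 u hu) ?_
    intro h
    exact a2 u hu (by linear_combination h)
  have eS : ∀ᶠ z in FD D, ∀ᶠ G : ℤ in cofinite, μ ≠ 1 →
      LS B α b1 b2 κ (((α * b2 : ℤ) : ℚ) * κ * (1 - κ)) z.1 G μ z.2 (μ * z.1 + z.2)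
        (μ * G + (1 - μ)) (κ + μ * (1 - κ)) := by
    by_cases h1 : μ = 1
    · exact Eventually.of_forall (fun z => Eventually.of_forall (fun G h => absurd h1 h))
    filter_upwards [ev_LSD B α b1 b2 hD hα hb2 hM hκ0 hκ1 K.hy μ hμ h1 hk8] with z hz
    filter_upwards [hz] with G hG _
    exact hG
  have eO : ∀ᶠ E : ℤ in cofinite, ∀ u ∈ U, ∀ᶠ G : ℤ in cofinite, μ ≠ 1 →
      LO B α b1 b2 κ (((α * b2 : ℤ) : ℚ) * κ * (1 - κ)) E G μ u.2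
        (μ * E + (1 - μ)) (μ * G + u.2) (κ * (1 - μ)) := by
    refine ev_fin U ?_
    intro u hu
    by_cases h1 : μ = 1
    · exact Eventually.of_forall (fun z => Eventually.of_forall (fun G h => absurd h1 h))
    filter_upwards [ev_LO B α b1 b2 hα hb2 hM hκ0 hκ1 K.hD K.hy μ u.2 hμ h1 (hU2 u hu) (by
      intro h
      exact a9 u hu (by linear_combination h))] with E hE
    filter_upwards [hE] with G hG _
    exact hG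
  filter_upwards [eN, eS, FD_fst eO, ev_EvTD B α b1 b2 hα hb2 hM hκ0 hκ1 μ hμ hk6 hk7]
    with z zN zS zO zT
  filter_upwards [ev_fin U zN, zS, ev_fin U zO, zT] with G gN gS gO gT
  exact ⟨a3, a4, gN, gT, gS, fun h1 u hu => gO u hu h1⟩

/-- the kill after `f, t3` -/
theorem FQ.kill {R B R3 B3 : Finset Pt} {α b1 b2 κ p G k T : ℤ} {t2 : Pt}
    (Q : FQ R B α b1 b2 κ p G k T t2 R3 B3) {U : Finset (ℚ × ℚ)} {μ δ : ℚ}
    (hU1 : ∀ u ∈ U, u.1 ≠ 0) (hU2 : ∀ u ∈ U, u.2 ≠ 0) (hδ : δ ≠ 0)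
    (L : Kl U B α b1 b2 κ p G μ δ) (hτ : nx α b1 b2 (T, 0) = μ * p + δ)
    (ht2 : (∃ u ∈ U, ny b2 t2 = u.1 * G + u.2) ∨ ny b2 t2 = (μ * p + δ) * G)
    (hga : ∀ z ∈ insert t2 (insert ((T, 0) : Pt) B), ¬ Col (G * b1, G * b2) (α, 0) z)
    (hbe : ∀ z ∈ insert t2 (insert ((T, 0) : Pt) B), ¬ Col (b1, b2) (α * p, 0) z)
    (hce : IsCoprime (G * b1 - α * p) (G * b2))
    (hpX : ∀ β ∈ B, ¬ p ∣ b2 * β.1 - b1 * β.2) (hpT : ¬ p ∣ b2 * T)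
    {n : ℕ} (hF1 : ForkSols 1 p n) (hF2 : ForkSols 1 G n) (hn : B3.card < n) : Win R3 B3 := by
  rcases ht2 with ⟨u, hu, h2⟩ | h2
  · have V := L.N u hu
    rcases Q.casesN V hτ h2 (hU1 u hu) (hU2 u hu) (L.k3 u hu) (L.k4 u hu) hδ hF1 hF2 hn with
      h | h | h
    · exact h
    · -- first leaf
      have e1 : u.1 = μ := h.hσ
      have e2 : u.2 = 1 - μ := h.hρ
      refine Q.win_sig h rfl rfl rfl (L.S h.hμ1) (Q.alive_c V.hc hτ h2) (Q.alive_a V.ha hτ h2)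
        (Q.alive_b V.hb hτ h2) hτ ?_ hga hbe hce
      rw [h2, e1, e2]
    · have e1 : u.1 = μ := h.hσ
      have e2 : δ = 1 - μ := h.hc
      have LO' := L.O h.hμ1 u hu
      refine Q.win_omg h rfl rfl (τ := μ * p + (1 - μ)) LO' (Q.alive_c V.hc hτ h2)
        (Q.alive_a V.ha hτ h2)
        (Q.alive_b V.hb hτ h2) ?_ ?_ hbe hce hpX hpT
      · rw [hτ, e2]
      · rw [h2, e1]
  · exact Q.winT L.T hτ h2 hF2 hn

end Pool.Agent.K4L
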