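import Pool.Agent.K4L.K3UFG

/-!
# K3U, the kill `f` on `g e`: the move `f`
-/

namespace Pool.Agent.K4L

open Filter

theorem kill_f {R B : Finset Pt} {α b1 b2 κ p G T : ℤ} {t2 : Pt} (K : K3C R B α b1 b2)
    (F : FP (insert (G * b1, G * b2) (insert (α * p, 0) R)) (insert t2 (insert (T, 0) B))
      α b1 b2 (α * p) G)
    (hU : Uncov (insert (G * b1, G * b2) (insert (α * p, 0) R)) (insert t2 (insert (T, 0) B))
      (G * b1, G * b2) (α * p, 0))
    (hs : t2.1 * b2 = t2.2 * b1) (hp : Prime p) (hκ0 : κ ≠ 0) (hκ1 : κ ≠ 1)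
    (hpκ : ¬ p ∣ (1 - κ) * G) (hpκ1 : ¬ p ∣ (1 - κ) * G - 1) (hcop : IsCoprime G (κ * p - 1))
    (hcopα : IsCoprime G α) (hp1 : p ≠ 1) (hκp : κ * p - 1 ≠ 0)
    (hfR : ∀ w ∈ R, (1 - κ) * (G * b2) ≠ w.2)
    {U : Finset (ℚ × ℚ)} {μ δ : ℚ}
    (hU1 : ∀ u ∈ U, u.1 ≠ 0) (hU2 : ∀ u ∈ U, u.2 ≠ 0) (hδ : δ ≠ 0)
    (L : Kl U B α b1 b2 κ p G μ δ) (hτ : nx α b1 b2 (T, 0) = μ * p + δ)
    (ht2 : (∃ u ∈ U, ny b2 t2 = u.1 * G + u.2) ∨ ny b2 t2 = (μ * p + δ) * G)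
    (hce : IsCoprime (G * b1 - α * p) (G * b2))
    (hpX : ∀ β ∈ B, ¬ p ∣ b2 * β.1 - b1 * β.2) (hpT : ¬ p ∣ b2 * T)
    (hF1 : ForkSols 1 p (B.card + 4)) (hF2 : ForkSols 1 G (B.card + 4)) :
    Win (insert (G * b1, G * b2) (insert (α * p, 0) R)) (insert t2 (insert (T, 0) B)) := by
  classical
  have hα := K.hα
  have hb2 := K.hb2
  have hG0 := F.hG0
  have hp0 : p ≠ 0 := hp.ne_zero
  have hκG : (1 - κ) * G - 1 ≠ 0 := by
    intro h; rw [h] at hpκ1; exact hpκ1 (dvd_zero p)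
  obtain ⟨R2, hR2⟩ : ∃ R2 : Finset Pt, R2 = insert (G * b1, G * b2) (insert (α * p, 0) R) :=
    ⟨_, rfl⟩
  obtain ⟨B2, hB2⟩ : ∃ B2 : Finset Pt, B2 = insert t2 (insert (T, 0) B) := ⟨_, rfl⟩
  have hfc : Col (G * b1, G * b2) (α * p, 0) (Pf G b1 b2 (α * p) κ) := by
    unfold Col Pf; simp only; ring
  have hfR2 : Pf G b1 b2 (α * p) κ ∉ R2 := by
    rw [hR2]
    intro h
    rcases Finset.mem_insert.mp h with h | h
    · have h1 : (1 - κ) * (G * b2) = G * b2 := congrArg Prod.snd h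
      have h2 : κ * (G * b2) = 0 := by linarith
      rcases mul_eq_zero.mp h2 with h3 | h3
      · exact hκ0 h3
      · exact mul_ne_zero hG0 hb2 h3
    · rcases Finset.mem_insert.mp h with h | h
      · have h1 : (1 - κ) * (G * b2) = 0 := congrArg Prod.snd h
        rcases mul_eq_zero.mp h1 with h3 | h3
        · exact hκ1 (by linarith)
        · exact mul_ne_zero hG0 hb2 h3
      · exact hfR _ h rfl
  rw [← hR2, ← hB2] at F hU ⊢
  have hfB2 : Pf G b1 b2 (α * p) κ ∉ B2 := fun h => F.hge.2.2.2 _ h hfc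
  refine win_force F.hge hfR2 hfB2 hfc (F.hN.mono (Finset.subset_insert _ _) (Finset.Subset.refl _))
    ?_
  intro y hyR hyB hy
  have hyR2 : y ∉ R2 := fun h => hyR (Finset.mem_insert_of_mem h)
  obtain ⟨k, hk1, hk2⟩ := he_param (b1 := b1) (b2 := b2) (z := α * p) (G := G) (w1 := y.1)
    (w2 := y.2) hce (by unfold Col at hy; simp only at hy; linear_combination hy)
  have hyk : y = Pf G b1 b2 (α * p) k := Prod.ext hk1 hk2
  have hN3 : NoThreat (insert (Pf G b1 b2 (α * p) κ) R2) (insert y B2) :=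
    F.hN.of_uncov hU (Finset.subset_insert _ _) hy hyR2 hyB
  have Q : FQ R B α b1 b2 κ p G k T t2 (insert (Pf G b1 b2 (α * p) κ) R2) (insert y B2) := by
    refine ⟨K, ?_, Finset.mem_insert_self _ _, ?_, ?_, ?_, ?_, ?_, hN3, ?_, hs, hp, hκ0, hκ1,
      hpκ, hpκ1, hcop, hcopα, F.hG1, hp1, hκp, hκG⟩
    · rw [hB2, hyk]
    · exact Finset.mem_insert_of_mem F.hge.1
    · exact Finset.mem_insert_of_mem F.hge.2.1
    · rw [hR2]
      exact Finset.mem_insert_of_mem (Finset.mem_insert_of_mem (Finset.mem_insert_of_mem K.cR))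
    · exact Finset.mem_insert_of_mem F.hga.2.1
    · exact Finset.mem_insert_of_mem F.hbe.1
    · intro β hβ hR
      rcases Finset.mem_insert.mp hβ with rfl | hβ
      · exact hyR hR
      · rcases Finset.mem_insert.mp hR with rfl | hR
        · exact hfB2 hβ
        · exact F.hB β hβ hR
  refine Q.kill (U := U) (n := B.card + 4) hU1 hU2 hδ L hτ ht2 ?_ ?_ hce hpX hpT hF1 hF2 Q.card
  · rw [← hB2]
    exact F.hga.2.2.2
  · rw [← hB2]
    exact F.hbe.2.2.2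

end Pool.Agent.K4L
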