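import Pool.Agent.K4L.K3UG1U

/-!
# K3U, `g e` uncovered: Red wins or both `g a` and `b e` are doubly covered
-/

namespace Pool.Agent.K4L

open Filter

namespace FP

variable {R B : Finset Pt} {α b1 b2 ε G : ℤ}

/-- leaf `lemB0` with `L = e g`, `M = e b`, `N = g a` -/
theorem winG (F : FP R B α b1 b2 ε G) {p q Y : Pt} (hLU : Uncov R B (G * b1, G * b2) (ε, 0))
    (hpq : p ≠ q)
    (hY : Col (b1, b2) (ε, 0) Y) (hYm : Col p q Y) (hYR : Y ∉ R)
    (hmR : ∀ w ∈ R, ¬ Col p q w)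
    (hMU : ∀ w, Col (b1, b2) (ε, 0) w → w ∉ R → ∀ u ∈ B, ∀ v ∈ B, u ≠ v → Col u v w →
      (∃ r ∈ R, Col u v r) ∨ (Col p q u ∧ Col p q v))
    (hLm : ¬ Par (G * b1, G * b2) (ε, 0) p q) (hNm : ¬ Par (G * b1, G * b2) (α, 0) p q)
    (hparL : ∀ u ∈ B, ∀ v ∈ B, u ≠ v → Par (G * b1, G * b2) (ε, 0) u v → ∃ r ∈ R, Col u v r)
    (hparM : ∀ u ∈ B, ∀ v ∈ B, u ≠ v → Par (b1, b2) (ε, 0) u v → ∃ r ∈ R, Col u v r)
    (hparm : ∀ u ∈ B, ∀ v ∈ B, u ≠ v → Par p q u v → (∃ r ∈ R, Col u v r) ∨ Col p q u) :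
    Win R B := by
  have gR := F.hga.1
  have aR := F.hga.2.1
  have eR := F.hge.2.1
  have bR := F.hbe.1
  have hbz : ∀ x : ℤ, ((b1, b2) : Pt) ≠ (x, 0) := fun x h => F.hb2 (congrArg Prod.snd h)
  have hLM : ¬ Col (ε, 0) (G * b1, G * b2) (b1, b2) := fun h => F.col_geb h.swap12
  have hLm' : ¬ Par (ε, 0) (G * b1, G * b2) p q := fun h => hLm h.swap_left
  -- common points of `M` and `N`
  by_cases hx : ∃ w, Col (b1, b2) (ε, 0) w ∧ Col (G * b1, G * b2) (α, 0) w ∧ w ∉ R
  · obtain ⟨w, hw1, hw2, hwR⟩ := hx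
    refine win_double F.hbe F.hga hwR (fun h => F.hbe.2.2.2 w h hw1) hw1 hw2
      (F.hN.mono (Finset.subset_insert _ _) (Finset.Subset.refl _)) ?_
    rintro ⟨h1, h2⟩
    exact F.col_geb h1.rot.rot.swap23
  have hMNR : ∀ w, Col (ε, 0) (b1, b2) w → Col (G * b1, G * b2) (α, 0) w → w ∈ R := by
    intro w h1 h2
    by_contra h3
    exact hx ⟨w, h1.swap12, h2, h3⟩
  refine lemB0 (o := (ε, 0)) (a := (G * b1, G * b2)) (b := (b1, b2)) (v0 := (G * b1, G * b2))
    (r := (α, 0)) (p := p) (q := q) (Y := Y) (x0 := (α, 0)) (x1 := (b1, b2))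
    (x2 := (ε, 0)) (x3 := (G * b1, G * b2)) (xl := (α, 0)) (xg := (G * b1, G * b2))
    (xg' := (α, 0)) F.hN F.hB F.hge.symm hLU.symm F.hbe.symm F.hga hMNR hpq hY.swap12 hYm hYR
    hmR ?_ hLM ?_ ?_
    hLm' hNm
    aR bR eR gR F.col_abe (fun h => F.col_gab h.rot.rot)
    (fun h => F.col_gae h.rot.rot) (fun h => F.col_geb (h.rot.rot).swap23) aR ?_ ?_
    (fun u hu v hv huv h => Or.inl (hparL u hu v hv huv h.swap_left)) (by simp) (by simp) ?_ ?_ ?_
    (fun u hu v hv huv h => Or.inl (hparM u hu v hv huv h.swap_left)) hparm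
  · intro w hw
    exact hMU w hw.swap12
  · intro h
    apply F.col_gae
    unfold Par at h
    unfold Col
    simp only at h ⊢
    linear_combination h
  · intro h
    apply F.par_ga_be
    unfold Par at h ⊢
    simp only at h ⊢
    linear_combination h
  · exact fun h => F.col_gae h.rot
  · exact (hbz α).symm
  · exact fun h => hLM h.swap23
  · exact fun h => F.col_abe h.rot.swap12
  · intro h; exact mul_ne_zero F.hG0 F.hb2 (congrArg Prod.snd h).symm

end FP

section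
variable {b2 ε G T X Y X' Y' j j' τ α m m' x y x' y' : ℤ}

/-- `t` and a near stone do not both hit `g a` (`t` far) -/
theorem g1_at (hb2 : b2 ≠ 0) (hα : α ≠ 0) (hτα : τ ≠ α) (hY : Y ≠ 0)
    (hX : X ≠ 0) (hs : |X * (X - α * b2)| < |τ * b2 - X|)
    (hG : blC (α * b2 * (τ * b2 - X)) (b2 * X * (α - τ)) (-(b2 * τ * (α * b2 - X))) 0
      (-(α * α * b2 * Y)) 0 (α * τ * b2 * Y) 0 < |G|) (hGY : |Y| < |G|)
    (hj : j ≠ 0) (hj' : j' ≠ 0) (hj1 : j' ≠ 1) (h : HE b2 α G T (τ * b2) 0 j)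
    (h' : HE b2 α G T X Y j') : False := by
  have h0 := he_elim hb2 h h'
  have hA0 : τ * b2 - X ≠ 0 := by
    intro h1
    rw [h1, abs_zero] at hs
    exact absurd hs (not_lt.mpr (abs_nonneg _))
  have ha : α * b2 * (τ * b2 - X) ≠ 0 := mul_ne_zero (mul_ne_zero hα hb2) hA0
  have big : ∀ {w : ℤ}, (τ * b2 - X) * w = X * (X - α * b2) → w = 0 ∧ X = α * b2 := by
    intro w h1
    have hw : w = 0 := by
      by_contra hw
      have h2 := le_mul_of_one_le_right (abs_nonneg (τ * b2 - X)) (Int.one_le_abs hw)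
      rw [← abs_mul, h1] at h2
      linarith
    refine ⟨hw, ?_⟩
    rw [hw, mul_zero] at h1
    rcases mul_eq_zero.mp h1.symm with h2 | h2
    · exact absurd h2 hX
    · linarith
  obtain ⟨q1, q0⟩ := bl _ _ _ _ _ _ _ _ ha G j j' hG
    (by
      intro hu
      obtain ⟨h1, h2⟩ := big (w := α * b2 * j' - X) (by linear_combination hu)
      apply hj1
      apply mul_left_cancel₀ (mul_ne_zero hα hb2)
      linear_combination h1 + h2)
    (by
      intro hv
      obtain ⟨h1, h2⟩ := big (w := -(α * b2 * (j - 1) + X)) (by linear_combination -hv)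
      apply hj
      apply mul_left_cancel₀ (mul_ne_zero hα hb2)
      linear_combination -h1 - h2)
    (by linear_combination h0)
  have q2 : α * (b2 * (Y * (j' * (τ - α * j)))) = 0 := by linear_combination q0
  have q3 : τ = α * j := by
    rcases mul_eq_zero.mp q2 with h1 | h1
    · exact absurd h1 hα
    rcases mul_eq_zero.mp h1 with h1 | h1
    · exact absurd h1 hb2
    rcases mul_eq_zero.mp h1 with h1 | h1
    · exact absurd h1 hY
    rcases mul_eq_zero.mp h1 with h1 | h1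
    · exact absurd h1 hj'
    · linarith
  have q4 : b2 * ((τ - α) * (j * (α * b2 * j' - X))) = 0 := by
    linear_combination q1 - (b2 * j' * (X - α * b2)) * q3
  rcases mul_eq_zero.mp q4 with h1 | h1
  · exact hb2 h1
  rcases mul_eq_zero.mp h1 with h1 | h1
  · exact hτα (by linarith)
  rcases mul_eq_zero.mp h1 with h1 | h1
  · exact hj h1
  unfold HE at h'
  have h3 : X * (Y - (1 - j') * (G * b2)) = 0 := by
    linear_combination -h' + (T - Y) * h1
  rcases mul_eq_zero.mp h3 with h4 | h4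
  · exact hX h4
  · have h5 : |Y| = |1 - j'| * |G| * |b2| := by
      have : Y = (1 - j') * G * b2 := by linarith
      rw [this, abs_mul, abs_mul]
    have h6 : 1 ≤ |1 - j'| := Int.one_le_abs (sub_ne_zero.mpr (Ne.symm hj1))
    have h7 : 1 ≤ |b2| := Int.one_le_abs hb2
    have h8 : |G| ≤ |1 - j'| * |G| := le_mul_of_one_le_left (abs_nonneg _) h6
    have h9 : |1 - j'| * |G| ≤ |1 - j'| * |G| * |b2| :=
      le_mul_of_one_le_right (by positivity) h7
    linarith

end

end Pool.Agent.K4L
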