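import Pool.Agent.K4L.K3UFH
import Pool.Agent.K4L.K3UG1F

/-!
# K3U, `g e` uncovered: Red wins, or `t2` has a type
-/

namespace Pool.Agent.K4L

open Filter

/-- `g e` uncovered: Red wins, or a near stone hits `g a` at a bounded index, or there is a
parallel to `g a` -/
theorem g1_F {R2 B2 B1 B : Finset Pt} {α b1 b2 ε τ G C0 p Kn : ℤ} {t2 : Pt}
    (X : GX R2 B2 B1 B α b1 b2 ε τ G C0 t2) (hUe : Uncov R2 B2 (G * b1, G * b2) (ε, 0))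
    (hp : Prime p) (hpε : p ∣ ε) (hpG : ¬ p ∣ G) (hpX : ∀ β ∈ B, ¬ p ∣ DX b1 b2 β)
    (hpt : ¬ p ∣ b2 * τ) (hy : ∀ β ∈ B, β.2 ≠ 0) (hτα : τ ≠ α)
    (hKn : ∀ β ∈ B, ∀ β' ∈ B, |DX b1 b2 β * (α * b2 - DX b1 b2 β')| *
      (1 + |DX b1 b2 β' * (α * b2 - DX b1 b2 β)|) ≤ Kn)
    (hbl6 : ∀ β ∈ B1, ∀ β' ∈ B1, blC (α * b2 * (DX b1 b2 β - DX b1 b2 β'))
      (DX b1 b2 β' * (α * b2 - DX b1 b2 β)) (-(DX b1 b2 β * (α * b2 - DX b1 b2 β'))) 0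
      (α * α * b2 * (β.2 - β'.2)) (-(α * DX b1 b2 β' * β.2)) (α * DX b1 b2 β * β'.2) 0 < |G|)
    (hat : ∀ β ∈ B, |DX b1 b2 β * (DX b1 b2 β - α * b2)| < |τ * b2 - DX b1 b2 β|)
    (hblt : ∀ β ∈ B, blC (α * b2 * (τ * b2 - DX b1 b2 β)) (b2 * DX b1 b2 β * (α - τ))
      (-(b2 * τ * (α * b2 - DX b1 b2 β))) 0 (-(α * α * b2 * β.2)) 0 (α * τ * b2 * β.2) 0 < |G|)
    (hGY : ∀ β ∈ B, |β.2| < |G|) :
    Win R2 B2 ∨ (∃ β ∈ B, ∃ j, j ≠ 0 ∧ j ≠ 1 ∧ |j| ≤ Kn ∧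
      HE b2 α G t2.2 (DX b1 b2 β) β.2 j) ∨
      ∃ β ∈ B1, α * (t2.2 - β.2) = G * DX b1 b2 β := by
  classical
  have F := X.F
  have hb2 := F.hb2
  have hα := F.hα
  have hs2 := X.hs2
  have Dt : DX b1 b2 (τ, 0) = τ * b2 := by unfold DX; simp only; ring
  have cas : ∀ β ∈ B1, β = (τ, 0) ∨ β ∈ B := by
    intro β hβ; rw [X.hB1] at hβ; exact Finset.mem_insert.mp hβ
  have hp1 : ∀ β ∈ B1, ¬ p ∣ DX b1 b2 β := by
    intro β hβ
    rcases cas β hβ with rfl | h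
    · rw [Dt, mul_comm]; exact hpt
    · exact hpX β h
  have noparE : ∀ β ∈ B1, ε * (t2.2 - β.2) ≠ G * DX b1 b2 β := by
    intro β hβ h
    have h1 : p ∣ G * DX b1 b2 β := by rw [← h]; exact Dvd.dvd.mul_right hpε _
    rcases hp.dvd_or_dvd h1 with h2 | h2
    · exact hpG h2
    · exact hp1 β hβ h2
  have hNm : ∀ β ∈ B1, ¬ Par (b1, b2) (ε, 0) t2 β := by
    intro β hβ h
    unfold Par at h
    simp only at h
    apply hp1 β hβ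
    obtain ⟨n, hn⟩ := hpε
    refine ⟨n * (t2.2 - β.2), ?_⟩
    unfold DX
    rw [hn] at h
    linear_combination h + hs2
  by_cases hpr : ∃ β ∈ B1, α * (t2.2 - β.2) = G * DX b1 b2 β
  · exact Or.inr (Or.inr hpr)
  push Not at hpr
  by_cases hUa : Uncov R2 B2 (G * b1, G * b2) (α, 0)
  · left
    exact F.win2 hUa hUe (X.pars α (Or.inl rfl) hpr)
  obtain ⟨w0, hw0, hw0R, u0, hu0, v0, hv0, hne0, hc0, hr0⟩ := not_uncov hUa
  rcases X.hits α (Or.inl rfl) w0 hw0 hw0R u0 hu0 v0 hv0 hne0 hc0 with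
    ⟨r, hr, hcr⟩ | ⟨β0, hβ0, huv0, j0, hj0, hj1, he0⟩
  · exact absurd hcr (hr0 r hr)
  have hcol0 : Col t2 β0 w0 ∧ ∀ r ∈ R2, ¬ Col t2 β0 r := by
    rcases huv0 with ⟨h1, h2⟩ | ⟨h1, h2⟩
    · rw [h1, h2] at hc0 hr0; exact ⟨hc0, hr0⟩
    · rw [h1, h2] at hc0 hr0
      exact ⟨hc0.swap12, fun r hr h => hr0 r hr h.swap12⟩
  by_cases hsing : ∀ w, Col (G * b1, G * b2) (α, 0) w → w ∉ R2 → ∀ u ∈ B2, ∀ v ∈ B2, u ≠ v →
      Col u v w → (∃ r ∈ R2, Col u v r) ∨ (Col t2 β0 u ∧ Col t2 β0 v)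
  · left
    exact F.winB (z := ε) (z' := α) (p := t2) (q := β0) (Y := w0) (Or.inr ⟨rfl, rfl⟩) hUe
      (X.ht2B1 β0 hβ0) hw0 hcol0.1 hw0R hcol0.2 hsing
      (fun h => noparE β0 hβ0 (par_t2 hs2 h)) (hNm β0 hβ0)
      (X.pars ε (Or.inr rfl) noparE) (X.pars α (Or.inl rfl) hpr)
      (X.hparm β0 hβ0 (X.hfar α (Or.inl rfl) β0 hβ0 j0 hj1 he0))
  right; left
  push Not at hsing
  obtain ⟨w, hw, hwR, u, hu, v, hv, huv, hc, hr, hno⟩ := hsing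
  rcases X.hits α (Or.inl rfl) w hw hwR u hu v hv huv hc with ⟨r, hr', hcr⟩ |
    ⟨β1, hβ1, huv1, j1, hj10, hj11, he1⟩
  · exact absurd hcr (hr r hr')
  have hne : β0 ≠ β1 := by
    intro h
    rcases huv1 with ⟨h1, h2⟩ | ⟨h1, h2⟩
    · apply hno
      · rw [h1]; exact Col.refl_left _ _
      · rw [h2, ← h]; exact Col.refl_right _ _
    · apply hno
      · rw [h1, ← h]; exact Col.refl_right _ _
      · rw [h2]; exact Col.refl_left _ _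
  have tnear : ∀ β ∈ B, ∀ j j', j ≠ 0 → j' ≠ 0 → j' ≠ 1 →
      HE b2 α G t2.2 (τ * b2) 0 j → HE b2 α G t2.2 (DX b1 b2 β) β.2 j' → False := by
    intro β hβ j j' h1 h2 h3 h4 h5
    have hD : DX b1 b2 β ≠ 0 := fun h => hpX β hβ (h ▸ dvd_zero p)
    exact g1_at hb2 hα hτα (hy β hβ) hD (hat β hβ) (hblt β hβ) (hGY β hβ) h1 h2 h3 h4 h5
  rcases cas β0 hβ0 with h | h <;> rcases cas β1 hβ1 with h' | h'
  · exact absurd (h.trans h'.symm) hne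
  · rw [h, Dt] at he0
    exact (tnear β1 h' j0 j1 hj0 hj10 hj11 he0 he1).elim
  · rw [h', Dt] at he1
    exact (tnear β0 h j1 j0 hj10 hj0 hj1 he1 he0).elim
  · rcases g1_aa hb2 hα (X.hX1 β0 hβ0 β1 hβ1 hne) (hbl6 β0 hβ0 β1 hβ1) he0 he1 with h1 | h1
    · exact ⟨β0, h, j0, hj0, hj1, h1.trans (hKn β0 h β1 h'), he0⟩
    · exact ⟨β1, h', j1, hj10, hj11, h1.trans (hKn β1 h' β0 h), he1⟩

/-! ### the types of `t2` -/

/-- the type of a hit of `g a` -/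
def uJ (α b1 b2 : ℤ) (β : Pt) (j : ℤ) : ℚ × ℚ :=
  (-(DX b1 b2 β * (1 - j)) / (j * α * b2 - DX b1 b2 β),
    (j * α * β.2) / (j * α * b2 - DX b1 b2 β))

/-- the type of a parallel to `g a` -/
def uP (α b1 b2 : ℤ) (β : Pt) : ℚ × ℚ :=
  ((DX b1 b2 β : ℚ) / (α * b2), (β.2 : ℚ) / b2)

/-- all types -/
noncomputable def US (B : Finset Pt) (α b1 b2 Kn : ℤ) : Finset (ℚ × ℚ) := by
  classical
  exact ((B ×ˢ Finset.Icc (-Kn) Kn).filter (fun q => q.2 ≠ 0 ∧ q.2 ≠ 1 ∧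
    q.2 * α * b2 - DX b1 b2 q.1 ≠ 0)).image (fun q => uJ α b1 b2 q.1 q.2) ∪
    B.image (uP α b1 b2)

section
variable {R B : Finset Pt} {α b1 b2 Kn : ℤ}

theorem US_cases (u : ℚ × ℚ) (hu : u ∈ US B α b1 b2 Kn) :
    (∃ β ∈ B, ∃ j : ℤ, j ≠ 0 ∧ j ≠ 1 ∧ j * α * b2 - DX b1 b2 β ≠ 0 ∧ u = uJ α b1 b2 β j) ∨
      ∃ β ∈ B, u = uP α b1 b2 β := by
  classical
  unfold US at hu
  rcases Finset.mem_union.mp hu with h | h
  · obtain ⟨q, hq, rfl⟩ := Finset.mem_image.mp h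
    obtain ⟨h1, h2, h3, h4⟩ := Finset.mem_filter.mp hq
    exact Or.inl ⟨q.1, (Finset.mem_product.mp h1).1, q.2, h2, h3, h4, rfl⟩
  · obtain ⟨β, hβ, rfl⟩ := Finset.mem_image.mp h
    exact Or.inr ⟨β, hβ, rfl⟩

theorem US_1 (K : K3C R B α b1 b2) : ∀ u ∈ US B α b1 b2 Kn, u.1 ≠ 0 := by
  intro u hu
  have hα : (α : ℚ) ≠ 0 := by exact_mod_cast K.hα
  have hb2 : (b2 : ℚ) ≠ 0 := by exact_mod_cast K.hb2
  rcases US_cases u hu with ⟨β, hβ, j, h0, h1, h2, rfl⟩ | ⟨β, hβ, rfl⟩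
  · have hD : (DX b1 b2 β : ℚ) ≠ 0 := by exact_mod_cast K.hD β hβ
    have h2' : (j : ℚ) * α * b2 - DX b1 b2 β ≠ 0 := by exact_mod_cast h2
    have h1' : (1 : ℚ) - j ≠ 0 := by
      intro h; apply h1
      have : (j : ℚ) = 1 := by linarith
      exact_mod_cast this
    exact div_ne_zero (neg_ne_zero.mpr (mul_ne_zero hD h1')) h2'
  · have hD : (DX b1 b2 β : ℚ) ≠ 0 := by exact_mod_cast K.hD β hβ
    exact div_ne_zero hD (mul_ne_zero hα hb2)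

theorem US_2 (K : K3C R B α b1 b2) : ∀ u ∈ US B α b1 b2 Kn, u.2 ≠ 0 := by
  intro u hu
  have hα : (α : ℚ) ≠ 0 := by exact_mod_cast K.hα
  have hb2 : (b2 : ℚ) ≠ 0 := by exact_mod_cast K.hb2
  rcases US_cases u hu with ⟨β, hβ, j, h0, h1, h2, rfl⟩ | ⟨β, hβ, rfl⟩
  · have hy : (β.2 : ℚ) ≠ 0 := by exact_mod_cast K.hy β hβ
    have h2' : (j : ℚ) * α * b2 - DX b1 b2 β ≠ 0 := by exact_mod_cast h2
    have h0' : (j : ℚ) ≠ 0 := by exact_mod_cast h0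
    exact div_ne_zero (mul_ne_zero (mul_ne_zero h0' hα) hy) h2'
  · have hy : (β.2 : ℚ) ≠ 0 := by exact_mod_cast K.hy β hβ
    exact div_ne_zero hy hb2

/-- a bounded hit of `g a` gives a type -/
theorem US_hit (K : K3C R B α b1 b2) {G : ℤ} {t2 β : Pt} (hβ : β ∈ B) {j : ℤ} (h0 : j ≠ 0)
    (h1 : j ≠ 1) (hj : |j| ≤ Kn) (hGY : |β.2| < |G|)
    (h : HE b2 α G t2.2 (DX b1 b2 β) β.2 j) :
    ∃ u ∈ US B α b1 b2 Kn, ny b2 t2 = u.1 * G + u.2 := by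
  classical
  have hb2 := K.hb2
  have hα := K.hα
  have hD : DX b1 b2 β ≠ 0 := K.hD β hβ
  have h2 : j * α * b2 - DX b1 b2 β ≠ 0 := by
    intro h2
    unfold HE at h
    rw [h2, mul_zero] at h
    have h3 : DX b1 b2 β * (β.2 - (1 - j) * (G * b2)) = 0 := by
      have : j * α * b2 = DX b1 b2 β := by linarith
      rw [this] at h
      linear_combination -h
    rcases mul_eq_zero.mp h3 with h4 | h4
    · exact hD h4
    · have h5 : |β.2| = |1 - j| * |G| * |b2| := by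
        have : β.2 = (1 - j) * G * b2 := by linarith
        rw [this, abs_mul, abs_mul]
      have h6 : 1 ≤ |1 - j| := Int.one_le_abs (sub_ne_zero.mpr (Ne.symm h1))
      have h7 : 1 ≤ |b2| := Int.one_le_abs hb2
      have h8 : |G| ≤ |1 - j| * |G| := le_mul_of_one_le_left (abs_nonneg _) h6
      have h9 : |1 - j| * |G| ≤ |1 - j| * |G| * |b2| :=
        le_mul_of_one_le_right (by positivity) h7
      linarith
  refine ⟨uJ α b1 b2 β j, ?_, ?_⟩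
  · unfold US
    refine Finset.mem_union_left _ (Finset.mem_image.mpr ⟨(β, j), ?_, rfl⟩)
    refine Finset.mem_filter.mpr ⟨Finset.mem_product.mpr ⟨hβ, Finset.mem_Icc.mpr ?_⟩, h0, h1, h2⟩
    exact abs_le.mp hj
  · have hb2q : (b2 : ℚ) ≠ 0 := by exact_mod_cast hb2
    have h2' : (j : ℚ) * α * b2 - DX b1 b2 β ≠ 0 := by exact_mod_cast h2
    unfold ny uJ
    simp only
    unfold HE at h
    have h' : (t2.2 : ℚ) * (j * α * b2 - DX b1 b2 β) =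
        j * α * b2 * β.2 - DX b1 b2 β * (1 - j) * G * b2 := by exact_mod_cast h
    obtain ⟨w, hw⟩ : ∃ w : ℚ, w = (j : ℚ) * α * b2 - DX b1 b2 β := ⟨_, rfl⟩
    rw [← hw] at h2' h' ⊢
    have e : -((DX b1 b2 β : ℚ) * (1 - j)) / w * G + (j * α * β.2) / w =
        (-((DX b1 b2 β : ℚ) * (1 - j)) * G + j * α * β.2) / w := by ring
    rw [e, div_eq_div_iff hb2q h2']
    linear_combination h'

/-- a parallel to `g a` through a near stone gives a type -/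
theorem US_par (K : K3C R B α b1 b2) {G : ℤ} {t2 β : Pt} (hβ : β ∈ B)
    (h : α * (t2.2 - β.2) = G * DX b1 b2 β) :
    ∃ u ∈ US B α b1 b2 Kn, ny b2 t2 = u.1 * G + u.2 := by
  classical
  have hb2 := K.hb2
  have hα := K.hα
  have hb2q : (b2 : ℚ) ≠ 0 := by exact_mod_cast hb2
  have hαq : (α : ℚ) ≠ 0 := by exact_mod_cast hα
  refine ⟨uP α b1 b2 β, ?_, ?_⟩
  · unfold US
    exact Finset.mem_union_right _ (Finset.mem_image.mpr ⟨β, hβ, rfl⟩)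
  · unfold ny uP
    simp only
    have h' : (α : ℚ) * (t2.2 - β.2) = G * DX b1 b2 β := by exact_mod_cast h
    field_simp
    linear_combination h'

end

end Pool.Agent.K4L
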