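import Pool.Agent.K4L.K3UFI

/-!
# K3U, `b e` hit or parallel to `t β`: `t` has a type
-/

namespace Pool.Agent.K4L

open Filter

section
variable {R B : Finset Pt} {α b1 b2 : ℤ}

/-- near pairs do not hit `b e` -/
theorem ev_be_nn (B : Finset Pt) (hα : α ≠ 0) (hb2 : b2 ≠ 0)
    (hpa : ∀ β ∈ B, ∀ β' ∈ B, β ≠ β' → β.2 = β'.2 → b2 ∣ β.2 → β.2 = b2) :
    ∀ᶠ p : ℤ in cofinite, ∀ u ∈ B, ∀ v ∈ B, u ≠ v → ∀ l : ℤ, l ≠ 0 →
      ¬ cq (nx α b1 b2 u) (ny b2 u) (nx α b1 b2 v) (ny b2 v) (l * p) (1 - l) := by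
  refine ev_fin2 B B ?_
  intro u hu v hv
  by_cases huv : u = v
  · exact Eventually.of_forall (fun G h => absurd huv h)
  by_cases hy : ny b2 u = ny b2 v
  · refine Eventually.of_forall (fun p _ l hl hc => ?_)
    unfold cq at hc
    rw [hy, sub_self, zero_mul] at hc
    have hb2q : (b2 : ℚ) ≠ 0 := by exact_mod_cast hb2
    rcases mul_eq_zero.mp hc with h | h
    · apply huv
      exact n_ext (b1 := b1) hα hb2 (by linarith) hy
    · have h1 : (v.2 : ℚ) = b2 * (1 - l) := by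
        rw [n_2 hb2 v]
        have : ny b2 v = 1 - l := by linarith
        rw [this]
      have h2 : v.2 = b2 * (1 - l) := by exact_mod_cast h1
      have h3 : u.2 = v.2 := by
        have : (u.2 : ℚ) = v.2 := by rw [n_2 hb2 u, n_2 hb2 v, hy]
        exact_mod_cast this
      have h4 := hpa v hv u hu (Ne.symm huv) h3.symm ⟨_, h2⟩
      apply hl
      rw [h4] at h2
      have : b2 * l = 0 := by linarith
      exact (mul_eq_zero.mp this).resolve_left hb2
  · have hA : ny b2 v - ny b2 u ≠ 0 := sub_ne_zero.mpr (Ne.symm hy)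
    filter_upwards [linQ (ny b2 v - ny b2 u) 0 (nx α b1 b2 v - nx α b1 b2 u)
      (-((ny b2 v - ny b2 u) * nx α b1 b2 u) -
        (nx α b1 b2 v - nx α b1 b2 u) * (1 - ny b2 u)) hA] with p hp _ l hl hc
    unfold cq at hc
    obtain ⟨h1, _⟩ := hp l (by linear_combination -hc)
    rw [add_zero] at h1
    rcases mul_eq_zero.mp h1 with h | h
    · exact hA h
    · exact hl (by exact_mod_cast h)

/-- the type of `t` -/
def TyP (U : Finset (ℚ × ℚ)) (B : Finset Pt) (α b1 b2 : ℤ) (p T : ℤ) : Prop :=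
  ∃ (κ : ℤ) (μ δ : ℚ), κ ≠ 0 ∧ κ ≠ 1 ∧ ¬ p ∣ 1 - κ ∧ κ * p - 1 ≠ 0 ∧ δ ≠ 0 ∧
    nx α b1 b2 (T, 0) = μ * p + δ ∧ ∀ᶠ G : ℤ in cofinite, Kl U B α b1 b2 κ p G μ δ

theorem be_types (K : K3C R B α b1 b2) (U : Finset (ℚ × ℚ))
    (hU1 : ∀ u ∈ U, u.1 ≠ 0) (hU2 : ∀ u ∈ U, u.2 ≠ 0) :
    ∀ᶠ p : ℤ in cofinite, ∀ T : ℤ, ¬ p ∣ b2 * T →
      ((∃ β ∈ B, ∃ l : ℤ, l ≠ 0 ∧ l ≠ 1 ∧
        cq (nx α b1 b2 (T, 0)) 0 (nx α b1 b2 β) (ny b2 β) (l * p) (1 - l)) ∨
      ∃ β ∈ B, nx α b1 b2 (T, 0) = ny b2 β * p + nx α b1 b2 β) → TyP U B α b1 b2 p T := by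
  have hα := K.hα
  have hb2 := K.hb2
  have hαq : (α : ℚ) ≠ 0 := by exact_mod_cast hα
  have hb2q : (b2 : ℚ) ≠ 0 := by exact_mod_cast hb2
  have h : ∀ μ : ℚ, μ ≠ 0 → ∃ κ : ℤ, κ ≠ 0 ∧ κ ≠ 1 ∧ ∃ ε : ℚ, 0 < ε ∧
      ∀ᶠ E : ℤ in cofinite, ∀ δ : ℚ, (∃ m : ℤ, ((α * μ.den : ℤ) : ℚ) * δ = m) → δ ≠ 0 →
        |δ| ≤ ε * |(E : ℚ)| → ∀ᶠ G : ℤ in cofinite, Kl U B α b1 b2 κ E G μ δ := by
    intro μ hμ
    have hD : α * (μ.den : ℤ) ≠ 0 := mul_ne_zero hα (by exact_mod_cast μ.den_ne_zero)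
    obtain ⟨κ, h0, h1, h2⟩ := (ev_Kl K U hU1 hU2 hD μ hμ).exists
    rw [ev_FD] at h2
    obtain ⟨ε, h3, h4⟩ := h2
    exact ⟨κ, h0, h1, ε, h3, h4⟩
  choose! kap hk0 hk1 eps he hev using h
  -- the facts for one `μ`
  have E : ∀ μ : ℚ, μ ≠ 0 → ∀ᶠ p : ℤ in cofinite, ∀ T : ℤ, ∀ δ : ℚ,
      nx α b1 b2 (T, 0) = μ * p + δ → δ ≠ 0 → |δ| ≤ eps μ * |(p : ℚ)| →
      TyP U B α b1 b2 p T := by
    intro μ hμ
    filter_upwards [hev μ hμ, ev_abs |1 - kap μ|, lneQ (kap μ) (-1)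
      (Or.inl (by exact_mod_cast hk0 μ hμ))] with p h1 h2 h3 T δ hT hδ hs
    refine ⟨kap μ, μ, δ, hk0 μ hμ, hk1 μ hμ, ?_, ?_, hδ, hT, ?_⟩
    · refine not_dvd_of_abs_lt ?_ h2
      intro h
      exact hk1 μ hμ (by linarith)
    · intro h
      apply h3
      have : ((kap μ * p - 1 : ℤ) : ℚ) = 0 := by rw [h]; rfl
      push_cast at this
      linear_combination this
    · refine h1 δ ⟨μ.den * T - α * μ.num * p, ?_⟩ hδ hs
      have e1 : δ = T / α - μ * p := by
        rw [← nx_r (b1 := b1) hb2 T, hT]; ring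
      have e2 : (μ.den : ℚ) * μ = μ.num := by
        rw [mul_comm]; exact Rat.mul_den_eq_num μ
      rw [e1]
      push_cast
      have e3 : (α : ℚ) * μ.den * (T / α - μ * p) = μ.den * (α * (T / α)) -
          α * (μ.den * μ) * p := by ring
      rw [e3, e2, mul_div_cancel₀ _ hαq]
  have hyq : ∀ β ∈ B, ny b2 β ≠ 0 := by
    intro β hβ
    unfold ny
    exact div_ne_zero (by exact_mod_cast K.hy β hβ) hb2q
  have hxq : ∀ β ∈ B, nx α b1 b2 β ≠ 0 := by
    intro β hβ
    unfold nx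
    refine div_ne_zero ?_ (mul_ne_zero hb2q hαq)
    exact_mod_cast K.hD β hβ
  -- one `β`
  have main : ∀ β ∈ B, ∀ᶠ p : ℤ in cofinite, ∀ T : ℤ, ¬ p ∣ b2 * T →
      ((∃ l : ℤ, l ≠ 0 ∧ l ≠ 1 ∧
        cq (nx α b1 b2 (T, 0)) 0 (nx α b1 b2 β) (ny b2 β) (l * p) (1 - l)) ∨
      nx α b1 b2 (T, 0) = ny b2 β * p + nx α b1 b2 β) → TyP U B α b1 b2 p T := by
    intro β hβ
    obtain ⟨x, hx⟩ : ∃ x, x = nx α b1 b2 β := ⟨_, rfl⟩
    obtain ⟨y, hy⟩ : ∃ y, y = ny b2 β := ⟨_, rfl⟩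
    have hx0 : x ≠ 0 := by rw [hx]; exact hxq β hβ
    have hy0 : y ≠ 0 := by rw [hy]; exact hyq β hβ
    rw [← hx, ← hy]
    obtain ⟨e, hee⟩ : ∃ e, e = eps y := ⟨_, rfl⟩
    have he0 : 0 < e := by rw [hee]; exact he y hy0
    obtain ⟨h0, hh0⟩ : ∃ h0 : ℚ, h0 = 1 + 2 * (|y| * |1 - y|) / e := ⟨_, rfl⟩
    have hh1 : 1 ≤ h0 := by rw [hh0]; have : 0 ≤ 2 * (|y| * |1 - y|) / e := by positivity
                            linarith
    have hh2 : |y| * |1 - y| ≤ h0 * (e / 2) := by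
      rw [hh0]
      have : (1 + 2 * (|y| * |1 - y|) / e) * (e / 2) = e / 2 + |y| * |1 - y| := by
        field_simp
      rw [this]
      linarith
    obtain ⟨H, hH⟩ : ∃ H : ℤ, H = ⌈h0 + |y|⌉ := ⟨_, rfl⟩
    have near : ∀ᶠ p : ℤ in cofinite, ∀ η ∈ Finset.Icc (-H) H, η ≠ 0 → η ≠ 1 → y ≠ η →
        ∀ T : ℤ, nx α b1 b2 (T, 0) = y * (1 - η) / (y - η) * p + -(x * η) / (y - η) →
        TyP U B α b1 b2 p T := by
      refine ev_fin _ ?_
      intro η _
      by_cases c0 : η = 0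
      · exact Eventually.of_forall (fun p h => absurd c0 h)
      by_cases c1 : η = 1
      · exact Eventually.of_forall (fun p _ h => absurd c1 h)
      by_cases c2 : y = η
      · exact Eventually.of_forall (fun p _ _ h => absurd c2 h)
      have d0 : y - η ≠ 0 := sub_ne_zero.mpr c2
      have d1 : (1 : ℚ) - η ≠ 0 := by
        intro h
        apply c1
        have : (η : ℚ) = 1 := by linarith
        exact_mod_cast this
      have d2 : (η : ℚ) ≠ 0 := by exact_mod_cast c0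
      have hμ : y * (1 - η) / (y - η) ≠ 0 := div_ne_zero (mul_ne_zero hy0 d1) d0
      have hδ : -(x * η) / (y - η) ≠ 0 := div_ne_zero (neg_ne_zero.mpr (mul_ne_zero hx0 d2)) d0
      filter_upwards [E _ hμ, evQ (|-(x * η) / (y - η)| / eps (y * (1 - η) / (y - η)))]
        with p h1 h2 _ _ _ T hT
      refine h1 T _ hT hδ ?_
      rw [div_lt_iff₀ (he _ hμ)] at h2
      linarith
    have hy1 : ∀ᶠ p : ℤ in cofinite, y ≠ 1 → (1 - y) * (p : ℚ) + -x ≠ 0 := by
      by_cases h : y = 1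
      · exact Eventually.of_forall (fun p h' => absurd h h')
      filter_upwards [lneQ (1 - y) (-x) (Or.inl (sub_ne_zero.mpr (Ne.symm h)))] with p hp _
      exact hp
    filter_upwards [E y hy0, near, hy1, evQ (2 * (|x| + |x| * |y|) / e)]
      with p h1 h2 h3 h4 T hpT hcase
    have h4' : |x| + |x| * |y| ≤ e / 2 * |(p : ℚ)| := by
      rw [div_lt_iff₀ he0] at h4
      linarith
    rcases hcase with ⟨l, hl0, hl1, hc⟩ | hpar
    · unfold cq at hc
      obtain ⟨τ, hτ⟩ : ∃ τ, τ = nx α b1 b2 (T, 0) := ⟨_, rfl⟩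
      rw [← hτ] at hc
      obtain ⟨η, hη⟩ : ∃ η : ℤ, η = 1 - l := ⟨_, rfl⟩
      have hηq : (η : ℚ) = 1 - l := by rw [hη]; push_cast; ring
      have hη0 : η ≠ 0 := by intro h; apply hl1; linarith
      have hη1 : η ≠ 1 := by intro h; apply hl0; linarith
      have hlq : (l : ℚ) = 1 - η := by rw [hηq]; ring
      rw [hlq] at hc
      have key : τ * (y - η) = y * (1 - η) * p - x * η := by linear_combination hc
      have hyη : y ≠ η := by
        intro h
        rw [← h, sub_self, mul_zero] at key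
        have h5 : y * ((1 - y) * p + -x) = 0 := by linear_combination -key
        rcases mul_eq_zero.mp h5 with h6 | h6
        · exact hy0 h6
        · refine h3 ?_ h6
          intro h7
          apply hη1
          have : (η : ℚ) = 1 := by rw [← h]; exact h7
          exact_mod_cast this
      have d0 : y - η ≠ 0 := sub_ne_zero.mpr hyη
      by_cases hfar : h0 ≤ |y - η|
      · -- far
        refine h1 T (τ - y * p) (by rw [← hτ]; ring) ?_ ?_
        · intro h
          apply hpT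
          have h5 : (T : ℚ) / α = β.2 / b2 * p := by
            have e1 : τ = T / α := by rw [hτ, nx_r hb2]
            have e2 : y = β.2 / b2 := by rw [hy]; rfl
            rw [← e1, ← e2]; linarith
          have h6 : (b2 : ℚ) * T = α * β.2 * p := by
            field_simp at h5
            linear_combination h5
          refine ⟨α * β.2, ?_⟩
          have h7 : b2 * T = α * β.2 * p := by exact_mod_cast h6
          rw [h7]; ring
        · rw [← hee]
          have h5 : (τ - y * p) * (y - η) = y * (1 - y) * p + x * (y - η) - x * y := by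
            linear_combination key
          have hpos : 0 < |y - (η : ℚ)| := abs_pos.mpr d0
          have h6 : |τ - y * p| * |y - (η : ℚ)| ≤ |y| * |1 - y| * |(p : ℚ)| +
              |x| * |y - (η : ℚ)| + |x| * |y| := by
            rw [← abs_mul, h5]
            have a1 := abs_sub (y * (1 - y) * p + x * (y - η)) (x * y)
            have a2 := abs_add_le (y * (1 - y) * (p : ℚ)) (x * (y - η))
            rw [abs_mul (y * (1 - y)) (p : ℚ), abs_mul y, abs_mul x] at a2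
            rw [abs_mul x y] at a1
            linarith
          have h7 : |y| * |1 - y| * |(p : ℚ)| ≤ |y - (η : ℚ)| * (e / 2 * |(p : ℚ)|) := by
            have b1 := mul_le_mul_of_nonneg_right hh2 (abs_nonneg (p : ℚ))
            have b2 : h0 * (e / 2) * |(p : ℚ)| ≤ |y - (η : ℚ)| * (e / 2 * |(p : ℚ)|) := by
              have := mul_le_mul_of_nonneg_right hfar
                (show 0 ≤ e / 2 * |(p : ℚ)| by positivity)
              linarith
            linarith
          have h8 : |x| * |y| ≤ |y - (η : ℚ)| * (|x| * |y|) :=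
            le_mul_of_one_le_left (by positivity) (hh1.trans hfar)
          have h9 : |y - (η : ℚ)| * (|x| + |x| * |y|) ≤ |y - (η : ℚ)| * (e / 2 * |(p : ℚ)|) :=
            mul_le_mul_of_nonneg_left h4' hpos.le
          have h10 : |τ - y * p| * |y - (η : ℚ)| ≤ (e * |(p : ℚ)|) * |y - (η : ℚ)| := by
            linarith
          exact le_of_mul_le_mul_right h10 hpos
      · -- near
        push Not at hfar
        have hη2 : η ∈ Finset.Icc (-H) H := by
          rw [Finset.mem_Icc, ← abs_le, hH]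
          have h5 : |(η : ℚ)| ≤ h0 + |y| := by
            have := abs_sub y (y - η)
            rw [sub_sub_cancel] at this
            linarith
          have h6 : ((|η| : ℤ) : ℚ) ≤ ((⌈h0 + |y|⌉ : ℤ) : ℚ) := by
            rw [Int.cast_abs]
            exact h5.trans (Int.le_ceil _)
          exact_mod_cast h6
        refine h2 η hη2 hη0 hη1 hyη T ?_
        rw [← hτ]
        have : τ = (y * (1 - η) * p - x * η) / (y - η) := by
          rw [eq_div_iff d0]; exact key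
        rw [this]; ring
    · refine h1 T x hpar hx0 ?_
      rw [← hee]
      have : 0 ≤ |x| * |y| := by positivity
      have h5 : 0 ≤ e / 2 * |(p : ℚ)| := by positivity
      linarith
  filter_upwards [ev_fin B main] with p h1 T hT hcase
  rcases hcase with ⟨β, hβ, hc⟩ | ⟨β, hβ, hc⟩
  · exact h1 β hβ T hT (Or.inl hc)
  · exact h1 β hβ T hT (Or.inr hc)

end

end Pool.Agent.K4L
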