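import Pool.Agent.K4L.K3UFJ

/-!
# K3U, case (F): the theorem
-/

namespace Pool.Agent.K4L

open Filter

theorem forkSols_fact {ρ : ℤ} (n : ℕ) (hdiv : ((n + 1).factorial : ℤ) ∣ ρ - 1)
    (hbig : (n : ℤ) + 2 < |ρ|) : ForkSols 1 ρ n := by
  have := forkSols_int (α := 1) (ρ := ρ) n one_ne_zero (by
    intro i hi
    refine Dvd.dvd.trans ?_ hdiv
    have h : (i + 2) ∣ (n + 1).factorial := Nat.dvd_factorial (by omega) (by omega)
    exact_mod_cast h) hbig
  rwa [one_mul] at this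

/-- `b e` is bad: `t` satisfies one of the equations -/
theorem be_bad {R B : Finset Pt} {α b1 b2 p τ : ℤ} (K : K3C R B α b1 b2)
    (hcb : IsCoprime (b1 - α * p) b2)
    (hnn : ∀ u ∈ B, ∀ v ∈ B, u ≠ v → ∀ l : ℤ, l ≠ 0 →
      ¬ cq (nx α b1 b2 u) (ny b2 u) (nx α b1 b2 v) (ny b2 v) (l * p) (1 - l))
    (h : ¬ (Uncov (insert (α * p, 0) R) (insert (τ, 0) B) (b1, b2) (α * p, 0) ∧
      ∀ β ∈ B, b2 * τ ≠ α * p * β.2 + DX b1 b2 β)) :
    (∃ β ∈ B, ∃ l : ℤ, l ≠ 0 ∧ l ≠ 1 ∧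
        cq (nx α b1 b2 (τ, 0)) 0 (nx α b1 b2 β) (ny b2 β) (l * p) (1 - l)) ∨
      ∃ β ∈ B, nx α b1 b2 (τ, 0) = ny b2 β * p + nx α b1 b2 β := by
  have hα := K.hα
  have hb2 := K.hb2
  have hαq : (α : ℚ) ≠ 0 := by exact_mod_cast hα
  have hb2q : (b2 : ℚ) ≠ 0 := by exact_mod_cast hb2
  by_cases hU : Uncov (insert (α * p, 0) R) (insert (τ, 0) B) (b1, b2) (α * p, 0)
  · right
    have h2 : ¬ ∀ β ∈ B, b2 * τ ≠ α * p * β.2 + DX b1 b2 β := fun h2 => h ⟨hU, h2⟩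
    push Not at h2
    obtain ⟨β, hβ, h3⟩ := h2
    refine ⟨β, hβ, ?_⟩
    have h4 : (b2 : ℚ) * τ = α * p * β.2 + (b2 * β.1 - b1 * β.2) := by
      unfold DX at h3
      exact_mod_cast h3
    rw [nx_r hb2]
    unfold nx ny
    field_simp
    linear_combination h4
  · left
    obtain ⟨z, hz, hzR, x, hx, y, hy, hxy, hc, -⟩ := not_uncov hU
    obtain ⟨l, hl1, hl2⟩ := he_param (b1 := b1) (b2 := b2) (z := α * p) (G := 1) (w1 := z.1)
      (w2 := z.2) (by simpa using hcb) (by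
        unfold Col at hz; simp only at hz; linear_combination hz)
    have hl0 : l ≠ 0 := by
      rintro rfl
      apply hzR
      have : z = (b1, b2) := Prod.ext (by rw [hl1]; ring) (by rw [hl2]; ring)
      rw [this]
      exact Finset.mem_insert_of_mem K.bR
    have hl01 : l ≠ 1 := by
      rintro rfl
      apply hzR
      have : z = (α * p, 0) := Prod.ext (by rw [hl1]; ring) (by rw [hl2]; ring)
      rw [this]
      exact Finset.mem_insert_self _ _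
    have hz1 : nx α b1 b2 z = l * p := by
      unfold nx
      rw [hl1, hl2]
      push_cast
      field_simp
      ring
    have hz2 : ny b2 z = 1 - l := by
      unfold ny
      rw [hl2]
      push_cast
      field_simp
    have key : ∀ u v : Pt, Col u v z →
        cq (nx α b1 b2 u) (ny b2 u) (nx α b1 b2 v) (ny b2 v) (l * p) (1 - l) := by
      intro u v h
      rw [n_col (b1 := b1) hα hb2, hz1, hz2] at h
      exact h
    rcases Finset.mem_insert.mp hx with h1 | h1 <;> rcases Finset.mem_insert.mp hy with h2 | h2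
    · exact absurd (h1.trans h2.symm) hxy
    · refine ⟨y, h2, l, hl0, hl01, ?_⟩
      have := key _ _ hc
      rw [h1, ny_r] at this
      exact this
    · refine ⟨x, h1, l, hl0, hl01, ?_⟩
      have := key _ _ hc.swap12
      rw [h2, ny_r] at this
      exact this
    · exact absurd (key _ _ hc) (hnn x h1 y h2 hxy l hl0)

theorem k3u_F {R B : Finset Pt} {α b1 b2 : ℤ} (K : K3C R B α b1 b2)
    (hprim : IsCoprime (α - b1) b2)
    (hX : ∀ β ∈ B, ∀ β' ∈ B, β ≠ β' → DX b1 b2 β ≠ DX b1 b2 β') :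
    ∃ Q0 T0 c0 : ℤ, Q0 ≠ 0 ∧ ∀ᶠ p : ℤ in cofinite, Prime p → Q0 ∣ p - 1 →
    ∀ τ, T0 < |τ| → ¬ p ∣ b2 * τ → (∀ β ∈ B, DX b1 b2 β ≠ b2 * τ) →
      ((τ, 0) : Pt) ∉ insert ((α * p, 0) : Pt) R → ((τ, 0) : Pt) ∉ B →
      NoThreat (insert (α * p, 0) R) (insert (τ, 0) B) →
      Uncov (insert (α * p, 0) R) (insert (τ, 0) B) (0, 0) (b1, b2) →
      ALine (insert (α * p, 0) R) (insert (τ, 0) B) (b1, b2) (α * p, 0) →
      ∃ (K0 Q1 : ℤ) (S : Finset (ℤ × ℤ)), Q1 ≠ 0 ∧ ¬ p ∣ Q1 ∧ (S.card : ℤ) ≤ c0 ∧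
        (∀ s ∈ S, ¬ (p ∣ s.1 ∧ p ∣ s.2)) ∧
        ∀ᶠ G : ℤ in cofinite, Q1 ∣ G - 1 → ¬ p ∣ G → (∀ s ∈ S, ¬ p ∣ G * s.1 - s.2) →
          IsCoprime (G * b1 - α) (G * b2) → IsCoprime (G * b1 - α * p) (G * b2) →
          ∀ t2, Col (0, 0) (b1, b2) t2 →
            t2 ∉ insert ((G * b1, G * b2) : Pt) (insert (α * p, 0) R) →
            t2 ∉ insert ((τ, 0) : Pt) B →
            Win (insert (G * b1, G * b2) (insert (α * p, 0) R))
              (insert t2 (insert (τ, 0) B)) ∨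
            ((∀ z, Col (G * b1, G * b2) (α * p, 0) z →
              z ∉ insert ((G * b1, G * b2) : Pt) (insert (α * p, 0) R) →
              ∀ u ∈ insert t2 (insert ((τ, 0) : Pt) B),
              ∀ v ∈ insert t2 (insert ((τ, 0) : Pt) B),
              u ≠ v → Col u v z → (∃ r ∈ insert ((G * b1, G * b2) : Pt) (insert (α * p, 0) R),
                Col u v r) ∨ (Col t2 (τ, 0) u ∧ Col t2 (τ, 0) v)) ∧
            (∀ r ∈ insert ((G * b1, G * b2) : Pt) (insert (α * p, 0) R), ¬ Col t2 (τ, 0) r) ∧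
            ∃ k, k ≠ 0 ∧ k ≠ 1 ∧ |k| ≤ K0 ∧ HE b2 (α * p) G t2.2 (τ * b2) 0 k) := by
  classical
  have hb2 := K.hb2
  have hα := K.hα
  have hD : ∀ β ∈ B, DX b1 b2 β ≠ 0 := fun β hβ => K.hD β hβ
  -- the constants
  obtain ⟨Kn, hKn0, hKn⟩ := exists_bd2 B (fun β β' => |DX b1 b2 β * (α * b2 - DX b1 b2 β')| *
      (1 + |DX b1 b2 β' * (α * b2 - DX b1 b2 β)|))
  have hKn' : ∀ β ∈ B, ∀ β' ∈ B, |DX b1 b2 β * (α * b2 - DX b1 b2 β')| *
      (1 + |DX b1 b2 β' * (α * b2 - DX b1 b2 β)|) ≤ Kn := by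
    intro β hβ β' hβ'
    have := hKn β hβ β' hβ'
    rwa [abs_of_nonneg (by positivity)] at this
  obtain ⟨T0, hT00, hT0⟩ := exists_bd2 B (fun β _ =>
    |DX b1 b2 β * (DX b1 b2 β - α * b2)| + 4 * |DX b1 b2 β|)
  have hT0' : ∀ β ∈ B, |DX b1 b2 β * (DX b1 b2 β - α * b2)| + 4 * |DX b1 b2 β| ≤ T0 := by
    intro β hβ
    have := hT0 β hβ β hβ
    rwa [abs_of_nonneg (by positivity)] at this
  obtain ⟨Nf, hNf⟩ : ∃ Nf : ℤ, Nf = ((B.card + 5).factorial : ℤ) := ⟨_, rfl⟩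
  have hNf0 : 0 < Nf := by rw [hNf]; exact_mod_cast Nat.factorial_pos _
  obtain ⟨U, hU⟩ : ∃ U, U = US B α b1 b2 Kn := ⟨_, rfl⟩
  have hU1 : ∀ u ∈ U, u.1 ≠ 0 := by rw [hU]; exact US_1 K
  have hU2 : ∀ u ∈ U, u.2 ≠ 0 := by rw [hU]; exact US_2 K
  have hpa : ∀ β ∈ B, ∀ β' ∈ B, β ≠ β' → β.2 = β'.2 → b2 ∣ β.2 → β.2 = b2 := by
    intro β hβ β' hβ' hne hy hd
    rcases K.hpa β hβ β' hβ' hne hy with h | h
    · exact h
    · exact absurd (Dvd.dvd.mul_left hd α) h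
  refine ⟨Nf * b2, T0, B.card + 1, mul_ne_zero hNf0.ne' hb2, ?_⟩
  have s1 : ∀ᶠ p : ℤ in cofinite, ∀ β ∈ B, |β.2| < |p| := ev_fin B (fun _ _ => ev_abs _)
  have s2 : ∀ᶠ p : ℤ in cofinite, ∀ β ∈ B, 4 * |DX b1 b2 β| < |p| :=
    ev_fin B (fun _ _ => ev_abs _)
  filter_upwards [ev_G1N hα hb2 hD K.hy hX, ev_be_nn (b1 := b1) B hα hb2 hpa, be_types K U hU1 hU2, s1, s2,
    ev_abs (Nf + |α| + B.card + 10)] with p p1 p2 p3 p4 p5 p6 hp hQp τ hτT hpτ hτX htR htB hN1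
    hcbU hbe
  have N := p1 hp
  have hp0 : p ≠ 0 := hp.ne_zero
  have hcard0 : (0 : ℤ) ≤ B.card := Int.natCast_nonneg _
  have hα0 := abs_nonneg α
  have hNp : Nf ∣ p - 1 := (dvd_mul_right _ _).trans hQp
  have hbp : b2 ∣ p - 1 := (dvd_mul_left _ _).trans hQp
  have hp1 : p ≠ 1 := by
    rintro rfl
    rw [abs_one] at p6
    linarith
  have hpα : ¬ p ∣ α := not_dvd_of_abs_lt hα (by linarith)
  have hpN : ¬ p ∣ Nf := not_dvd_of_abs_lt hNf0.ne' (by rw [abs_of_pos hNf0]; linarith)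
  have hcb : IsCoprime (b1 - α * p) b2 := by
    obtain ⟨d, hd⟩ := hbp
    have h3 := IsCoprime.add_mul_left_left (IsCoprime.neg_left hprim) (-(α * d))
    have e : -(α - b1) + b2 * (-(α * d)) = b1 - α * p := by linear_combination α * hd
    rwa [e] at h3
  have hε0 : α * p ≠ 0 := mul_ne_zero hα hp0
  have hτα : τ ≠ α := by rintro rfl; exact htR (Finset.mem_insert_of_mem K.aR)
  by_cases hgood : Uncov (insert (α * p, 0) R) (insert (τ, 0) B) (b1, b2) (α * p, 0) ∧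
      ∀ β ∈ B, b2 * τ ≠ α * p * β.2 + DX b1 b2 β
  · -- `b e` is good
    refine ⟨0, 1, ∅, one_ne_zero, fun h => hp.not_isUnit (isUnit_of_dvd_one h), ?_,
      fun s hs => absurd hs (Finset.notMem_empty s), ?_⟩
    · rw [Finset.card_empty]; push_cast; linarith
    have hτs : ∀ β ∈ B, |DX b1 b2 β * (τ - α * p)| < |α * p * (τ * b2 - DX b1 b2 β)| := by
      intro β hβ
      obtain ⟨X, hXe⟩ : ∃ X, X = |DX b1 b2 β| := ⟨_, rfl⟩
      have hX0 : 0 ≤ X := by rw [hXe]; exact abs_nonneg _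
      obtain ⟨e, he⟩ : ∃ e, e = |α * p| := ⟨_, rfl⟩
      have hα1 := Int.one_le_abs hα
      have hpe : |p| ≤ e := by
        rw [he, abs_mul]
        exact le_mul_of_one_le_left (abs_nonneg _) hα1
      have a1 : 4 * X < e := by
        have := p5 β hβ
        rw [← hXe] at this
        linarith
      have a2 : 4 * X < |τ| := by
        have h1 := hT0' β hβ
        rw [← hXe] at h1
        have h2 := abs_nonneg (DX b1 b2 β * (DX b1 b2 β - α * b2))
        linarith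
      have a3 : |DX b1 b2 β * (τ - α * p)| ≤ X * (|τ| + e) := by
        rw [abs_mul, ← hXe]
        refine mul_le_mul_of_nonneg_left ?_ hX0
        rw [he]
        exact abs_sub _ _
      have a4 : e * (|τ| - X) ≤ |α * p * (τ * b2 - DX b1 b2 β)| := by
        rw [abs_mul, ← he]
        refine mul_le_mul_of_nonneg_left ?_ (by linarith)
        have h1 : |τ * b2| ≤ |τ * b2 - DX b1 b2 β| + X := by
          rw [hXe]
          have := abs_sub (τ * b2 - DX b1 b2 β) (-DX b1 b2 β)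
          rwa [sub_neg_eq_add, sub_add_cancel, abs_neg] at this
        have h2 : |τ| ≤ |τ * b2| := by
          rw [abs_mul]
          exact le_mul_of_one_le_right (abs_nonneg _) (Int.one_le_abs hb2)
        linarith
      have he1 : 0 < e := by linarith [abs_pos.mpr hp0]
      have ht1 : 0 < |τ| := by linarith
      nlinarith
    filter_upwards [k3u_g1U K N hτX hτs htR htB hN1 hcbU hbe hcb hgood.1 hgood.2] with G hG _ _ _
      hca hce t2 ht2c ht2R ht2B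
    exact Or.inl (hG hca hce t2 ht2c ht2R ht2B)
  -- `b e` is bad
  obtain ⟨κ, μ, δ, hκ0, hκ1, hpκ, hκp, hδ, hτ, hKl⟩ := p3 τ hpτ (be_bad K hcb p2 hgood)
  obtain ⟨K0, hg1⟩ := k3u_g1 K N hpτ hτX htR htB hN1 hcbU hbe
  have hpκp : ¬ p ∣ κ * p - 1 := by
    intro h
    have h2 : p ∣ 1 := by
      have := dvd_sub (dvd_mul_left p κ) h
      simpa using this
    exact hp.not_isUnit (isUnit_of_dvd_one h2)
  refine ⟨K0, Nf * (α * (κ * p - 1)), insert (1 - κ, 1)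
    (B.image (fun β => (α * b2 - DX b1 b2 β, α * β.2))), ?_, ?_, ?_, ?_, ?_⟩
  · exact mul_ne_zero hNf0.ne' (mul_ne_zero hα hκp)
  · intro h
    rcases hp.dvd_or_dvd h with h | h
    · exact hpN h
    · rcases hp.dvd_or_dvd h with h | h
      · exact hpα h
      · exact hpκp h
  · have h1 := Finset.card_insert_le ((1 - κ, 1) : ℤ × ℤ)
      (B.image (fun β => (α * b2 - DX b1 b2 β, α * β.2)))
    have h2 := Finset.card_image_le (s := B) (f := fun β : Pt => (α * b2 - DX b1 b2 β, α * β.2))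
    have h3 : (insert ((1 - κ, 1) : ℤ × ℤ)
      (B.image (fun β => (α * b2 - DX b1 b2 β, α * β.2)))).card ≤ B.card + 1 := by omega
    exact_mod_cast h3
  · intro s hs
    rcases Finset.mem_insert.mp hs with rfl | hs
    · rintro ⟨_, h⟩
      exact hp.not_isUnit (isUnit_of_dvd_one h)
    · obtain ⟨β, hβ, rfl⟩ := Finset.mem_image.mp hs
      rintro ⟨_, h⟩
      rcases hp.dvd_or_dvd h with h | h
      · exact hpα h
      · exact not_dvd_of_abs_lt (K.hy β hβ) (p4 β hβ) h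
  obtain ⟨C0, hC00, hC0⟩ := exists_C0 (insert ((τ, 0) : Pt) B) b1 b2
  have q1 : ∀ᶠ G : ℤ in cofinite, ∀ w ∈ R, (1 - κ) * b2 * G + 0 ≠ w.2 := by
    refine ev_fin R (fun w _ => ev_linne _ _ _ (Or.inl ?_))
    refine mul_ne_zero ?_ hb2
    intro h; apply hκ1; linarith
  have q2 : ∀ᶠ G : ℤ in cofinite, ∀ β ∈ B,
      blC (α * b2 * (τ * b2 - DX b1 b2 β)) (b2 * DX b1 b2 β * (α - τ))
      (-(b2 * τ * (α * b2 - DX b1 b2 β))) 0 (-(α * α * b2 * β.2)) 0 (α * τ * b2 * β.2) 0 < |G| :=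
    ev_fin B (fun _ _ => ev_abs _)
  filter_upwards [hg1, hKl, ev_G1G ((insert (α * p, 0) R) ∪ (insert (τ, 0) B)) (insert (τ, 0) B)
    α b1 b2 (α * p) τ C0 hb2 hε0, q1, q2, ev_abs ((B.card : ℤ) + 10)] with G g1 g2 g3 g4 g5 g6
    hQG hpG hS hca hce t2 ht2c ht2R ht2B
  have hS1 : ¬ p ∣ (1 - κ) * G - 1 := by
    have := hS (1 - κ, 1) (Finset.mem_insert_self _ _)
    simp only at this
    rwa [mul_comm] at this
  have hS2 : ∀ β ∈ B, ¬ p ∣ G * (α * b2 - DX b1 b2 β) - α * β.2 := by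
    intro β hβ
    exact hS (α * b2 - DX b1 b2 β, α * β.2) (Finset.mem_insert_of_mem
      (Finset.mem_image.mpr ⟨β, hβ, rfl⟩))
  rcases g1 hca hce hS2 t2 ht2c ht2R ht2B with h | h | ⟨hUe, _⟩
  · exact Or.inl h
  · exact Or.inr h
  left
  have X := mk_GX K hε0 N.hα1 hX hτX htR htB hN1 hcbU hbe hC0 g3 hca hce ht2c ht2R ht2B
  have hat : ∀ β ∈ B, |DX b1 b2 β * (DX b1 b2 β - α * b2)| < |τ * b2 - DX b1 b2 β| := by
    intro β hβ
    have h0 := hT0' β hβ
    have h1 : |τ * b2| ≤ |τ * b2 - DX b1 b2 β| + |DX b1 b2 β| := by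
      have := abs_sub (τ * b2 - DX b1 b2 β) (-DX b1 b2 β)
      rwa [sub_neg_eq_add, sub_add_cancel, abs_neg] at this
    have h2 : |τ| ≤ |τ * b2| := by
      rw [abs_mul]
      exact le_mul_of_one_le_right (abs_nonneg _) (Int.one_le_abs hb2)
    have h3 := abs_nonneg (DX b1 b2 β)
    linarith
  have hpε : p ∣ α * p := dvd_mul_left p α
  have htB1 : ∀ β ∈ B, β ∈ insert ((τ, 0) : Pt) B := fun β hβ => Finset.mem_insert_of_mem hβ
  have hGY : ∀ β ∈ B, |β.2| < |G| := fun β hβ => g3.gY β (htB1 β hβ)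
  have hαG : IsCoprime G α := by
    have h1 : α ∣ G - 1 := ((dvd_mul_right α _).trans (dvd_mul_left _ Nf)).trans hQG
    obtain ⟨c, hc⟩ := h1
    exact ⟨1, -c, by linear_combination hc⟩
  have hκG : IsCoprime G (κ * p - 1) := by
    have h1 : κ * p - 1 ∣ G - 1 := ((dvd_mul_left _ α).trans (dvd_mul_left _ Nf)).trans hQG
    obtain ⟨c, hc⟩ := h1
    exact ⟨1, -c, by linear_combination hc⟩
  have hNG : Nf ∣ G - 1 := (dvd_mul_right _ _).trans hQG
  have hF1 : ForkSols 1 p (B.card + 4) := by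
    refine forkSols_fact _ (by rw [hNf] at hNp; exact hNp) ?_
    push_cast
    linarith
  have hF2 : ForkSols 1 G (B.card + 4) := by
    refine forkSols_fact _ (by rw [hNf] at hNG; exact hNG) ?_
    push_cast
    linarith
  have hpκG : ¬ p ∣ (1 - κ) * G := by
    intro h
    rcases hp.dvd_or_dvd h with h | h
    · exact hpκ h
    · exact hpG h
  have hfR : ∀ w ∈ R, (1 - κ) * (G * b2) ≠ w.2 := by
    intro w hw h
    apply g4 w hw
    rw [← h]; ring
  have fin : ((∃ u ∈ U, ny b2 t2 = u.1 * G + u.2) ∨ ny b2 t2 = (μ * p + δ) * G) →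
      Win (insert (G * b1, G * b2) (insert (α * p, 0) R)) (insert t2 (insert (τ, 0) B)) := by
    intro ht2
    exact kill_f K X.F hUe X.hs2 hp hκ0 hκ1 hpκG hS1 hκG hαG hp1 hκp hfR hU1 hU2 hδ g2 hτ ht2
      hce N.hpX hpτ hF1 hF2
  rcases g1_F X hUe hp hpε hpG N.hpX hpτ K.hy hτα hKn' g3.bl6 hat g5 hGY with h | h | h
  · exact h
  · obtain ⟨β, hβ, j, hj0, hj1, hj, he⟩ := h
    apply fin
    left
    rw [hU]
    exact US_hit K hβ hj0 hj1 hj (hGY β hβ) he
  · obtain ⟨β, hβ, he⟩ := h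
    rcases Finset.mem_insert.mp hβ with h1 | h1
    · apply fin
      right
      rw [← hτ, nx_r hb2]
      have hαq : (α : ℚ) ≠ 0 := by exact_mod_cast hα
      have hb2q : (b2 : ℚ) ≠ 0 := by exact_mod_cast hb2
      rw [h1] at he
      unfold DX at he
      simp only [mul_zero, sub_zero] at he
      have he' : (α : ℚ) * t2.2 = G * (b2 * τ) := by exact_mod_cast he
      unfold ny
      field_simp
      linear_combination he'
    · apply fin
      left
      rw [hU]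
      exact US_par K h1 he

end Pool.Agent.K4L
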