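import Pool.Agent.K4L.K3UGeo
import Pool.Agent.K4L.K3UFK

/-!
# The node K3U is closed
-/

namespace Pool.Agent.K4L

open Filter

theorem allF : AllF := by
  intro R B α b1 b2 K hp hX CB
  obtain ⟨Q0, T0, c0, h0, h⟩ := k3u_F K hp hX
  refine ⟨Q0, T0, c0, h0, ?_⟩
  filter_upwards [h] with p h hp hQ t h1 h2 h3 h4 h5 h6 h7 h8 _
  exact h hp hQ t h1 h2 h3 h4 h5 h6 h7 h8

theorem nodeK3U : NodeK3U := nodeK3U_of allF

theorem nodeK3Uw : NodeK3Uw := nodeK3Uw_of allF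

end Pool.Agent.K4L

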