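import Pool.Agent.K4L.K3UG1B

/-!
# K3U, case gamma1: the leaves (`G → ∞` after `e, t`)
-/

namespace Pool.Agent.K4L

open Filter

/-- the coordinate of `β` vanishing on `c b` -/
def DX (b1 b2 : ℤ) (β : Pt) : ℤ := b2 * β.1 - b1 * β.2

theorem exists_bdZ (F : Finset ℤ) : ∃ K : ℤ, 0 ≤ K ∧ ∀ v ∈ F, |v| ≤ K := by
  refine ⟨∑ v ∈ F, |v|, Finset.sum_nonneg (fun v _ => abs_nonneg _), ?_⟩
  intro v hv
  exact Finset.single_le_sum (f := fun v : ℤ => |v|) (fun v _ => abs_nonneg _) hv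

/-- a bound of a function on pairs -/
theorem exists_bd2 (S : Finset Pt) (f : Pt → Pt → ℤ) :
    ∃ K : ℤ, 0 ≤ K ∧ ∀ u ∈ S, ∀ v ∈ S, |f u v| ≤ K := by
  obtain ⟨K, h0, h⟩ := exists_bdZ ((S ×ˢ S).image (fun w => f w.1 w.2))
  refine ⟨K, h0, fun u hu v hv => h _ ?_⟩
  exact Finset.mem_image.mpr ⟨(u, v), Finset.mem_product.mpr ⟨hu, hv⟩, rfl⟩

theorem exists_bd3 (S : Finset Pt) (f : Pt → Pt → Pt → ℤ) :
    ∃ K : ℤ, 0 ≤ K ∧ ∀ u ∈ S, ∀ v ∈ S, ∀ w ∈ S, |f u v w| ≤ K := by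
  obtain ⟨K, h0, h⟩ := exists_bdZ ((S ×ˢ (S ×ˢ S)).image (fun w => f w.1 w.2.1 w.2.2))
  refine ⟨K, h0, fun u hu v hv w hw => h _ ?_⟩
  exact Finset.mem_image.mpr ⟨(u, v, w), Finset.mem_product.mpr ⟨hu,
    Finset.mem_product.mpr ⟨hv, hw⟩⟩, rfl⟩

/-- the conditions on `ε = α p`, `p` prime -/
structure G1N (B : Finset Pt) (α b1 b2 ε p : ℤ) : Prop where
  hp : Prime p
  hε : ε = α * p
  hpα : ¬ p ∣ α
  hα1 : α ≠ ε
  hpX : ∀ β ∈ B, ¬ p ∣ DX b1 b2 β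
  hX : ∀ β ∈ B, ∀ β' ∈ B, β ≠ β' → DX b1 b2 β ≠ DX b1 b2 β'
  hQ : ∀ β ∈ B, ∀ β' ∈ B, β ≠ β' →
    ε * b2 * (β.2 - β'.2) - DX b1 b2 β' * β.2 + DX b1 b2 β * β'.2 ≠ 0
  hs : ∀ β ∈ B, ∀ β' ∈ B, |DX b1 b2 β * (α * b2 - DX b1 b2 β')| <
    |b2 * (α * DX b1 b2 β - ε * DX b1 b2 β')|
  hW : ∀ β ∈ B, ∀ β' ∈ B, α * DX b1 b2 β * β'.2 +
    ε * (α * b2 * (β.2 - β'.2) - DX b1 b2 β' * β.2) ≠ 0
  hst : ∀ β ∈ B, |DX b1 b2 β| * (1 + 2 * |α|) < |ε|

/-- pairs of `insert t2 B1` -/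
theorem pair2 {B1 : Finset Pt} {t2 : Pt} {P : Pt → Pt → Prop}
    (hsymm : ∀ u v, P u v → P v u) (h1 : ∀ u ∈ B1, ∀ v ∈ B1, u ≠ v → P u v)
    (h2 : ∀ v ∈ B1, P t2 v) : ∀ u ∈ insert t2 B1, ∀ v ∈ insert t2 B1, u ≠ v → P u v := by
  intro u hu v hv huv
  rcases Finset.mem_insert.mp hu with hu | hu
  · rcases Finset.mem_insert.mp hv with hv | hv
    · exact absurd (hu.trans hv.symm) huv
    · rw [hu]; exact h2 v hv
  · rcases Finset.mem_insert.mp hv with hv | hv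
    · rw [hv]; exact hsymm _ _ (h2 u hu)
    · exact h1 u hu v hv huv

section hits
variable {b1 b2 z G : ℤ}

/-- a pair of fixed points does not hit the line `(G b) (z, 0)` outside `(z, 0)` -/
theorem g1_pair_hit (hb2 : b2 ≠ 0) {u v : Pt} (hX : DX b1 b2 u ≠ DX b1 b2 v)
    (hG : |(v.2 - u.2) * (z * b2)| * (1 + |(DX b1 b2 v - DX b1 b2 u) * b2|) +
      |DX b1 b2 v * u.2 - DX b1 b2 u * v.2| < |G|) {k : ℤ}
    (hc : Col u v (G * b1 + k * (z - G * b1), (1 - k) * (G * b2))) : k = 1 := by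
  refine g1_pair (z := z) hb2 hX hG ?_
  unfold Col at hc
  simp only at hc
  unfold DX
  linear_combination b2 * hc

/-- the hit equation -/
theorem he_of_hit {t2 β : Pt} (hT : t2.1 * b2 = t2.2 * b1) {k : ℤ}
    (hc : Col t2 β (G * b1 + k * (z - G * b1), (1 - k) * (G * b2))) :
    HE b2 z G t2.2 (DX b1 b2 β) β.2 k := by
  unfold Col at hc
  simp only at hc
  have := he_of_col (b1 := b1) (z := z) (G := G) (T1 := t2.1) (T := t2.2) (x := β.1) (y := β.2)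
    (k := k) hT hc
  have e : β.1 * b2 - β.2 * b1 = DX b1 b2 β := by unfold DX; ring
  rwa [e] at this

/-- parallels to `(G b) (z, 0)` through `t2` -/
theorem par_t2 {t2 β : Pt} (hT : t2.1 * b2 = t2.2 * b1)
    (h : Par (G * b1, G * b2) (z, 0) t2 β) : z * (t2.2 - β.2) = G * DX b1 b2 β := by
  unfold Par at h
  simp only at h
  unfold DX
  linear_combination -h - G * hT

/-- parallels to `(G b) (z, 0)`, fixed pair -/
theorem par_pair {u v : Pt} (hX : DX b1 b2 u ≠ DX b1 b2 v) (hG : |z * (v.2 - u.2)| < |G|)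
    (h : Par (G * b1, G * b2) (z, 0) u v) : False := by
  unfold Par at h
  simp only at h
  have h1 := lin_large (x := DX b1 b2 v - DX b1 b2 u) hG
    (by unfold DX; linear_combination h)
  exact hX (by linarith [h1.1])

/-- parallels to `t2 β`, fixed pair: `t2` is near -/
theorem par_m {t2 β u v : Pt} (hT : t2.1 * b2 = t2.2 * b1)
    (hX : DX b1 b2 u ≠ DX b1 b2 v)
    (h : Par t2 β u v) : |t2.2| ≤ |β.2| + |DX b1 b2 β * (v.2 - u.2)| := by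
  unfold Par at h
  have h1 : DX b1 b2 β * (v.2 - u.2) = (β.2 - t2.2) * (DX b1 b2 v - DX b1 b2 u) := by
    unfold DX; linear_combination b2 * h + (v.2 - u.2) * hT
  have h2 : 1 ≤ |DX b1 b2 v - DX b1 b2 u| :=
    Int.one_le_abs (sub_ne_zero.mpr (Ne.symm hX))
  have h3 : |β.2 - t2.2| ≤ |DX b1 b2 β * (v.2 - u.2)| := by
    rw [h1, abs_mul]
    exact le_mul_of_one_le_right (abs_nonneg _) h2
  have h4 : |t2.2| ≤ |β.2| + |β.2 - t2.2| := by
    have := abs_sub β.2 (β.2 - t2.2)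
    rwa [sub_sub_cancel] at this
  linarith

/-- a near `t2` hits nothing -/
theorem he_near {T X Y k C0 : ℤ} (hb2 : b2 ≠ 0) (hX : X ≠ 0) (hT : |T| ≤ C0)
    (hG : |z * b2| * (C0 + |Y|) * (1 + |X * b2|) + C0 * |X| < |G|)
    (h : HE b2 z G T X Y k) : k = 1 := by
  have h1 := lin2 (A := -(X * b2)) (B := X * b2) (C := z * b2 * (T - Y)) (D := -(T * X)) (G := G)
    (k := k) (neg_ne_zero.mpr (mul_ne_zero hX hb2)) ?_
    (by unfold HE at h; linear_combination h)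
  · have h2 : X * b2 * (1 - k) = 0 := by linear_combination h1.1
    rcases mul_eq_zero.mp h2 with h3 | h3
    · exact absurd h3 (mul_ne_zero hX hb2)
    · linarith
  · rw [abs_neg, abs_mul T X]
    have a1 : |z * b2 * (T - Y)| ≤ |z * b2| * (C0 + |Y|) := by
      rw [abs_mul]
      apply mul_le_mul_of_nonneg_left _ (abs_nonneg _)
      have := abs_sub T Y
      linarith
    have a2 : |T| * |X| ≤ C0 * |X| := mul_le_mul_of_nonneg_right hT (abs_nonneg _)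
    have a3 : |z * b2 * (T - Y)| * (1 + |X * b2|) ≤ |z * b2| * (C0 + |Y|) * (1 + |X * b2|) :=
      mul_le_mul_of_nonneg_right a1 (by positivity)
    linarith

end hits

end Pool.Agent.K4L
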