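import Pool.Agent.K4L.Extract

/-!
# Kaplansky's 4-in-a-line: tempo lemmas for the predicate `Win`
-/

namespace Pool.Agent.K4L

/-- the line through the two different red stones `u, v` carries no blue stone -/
def ALine (R B : Finset Pt) (u v : Pt) : Prop :=
  u ∈ R ∧ v ∈ R ∧ u ≠ v ∧ ∀ z ∈ B, ¬ Col u v z

/-- Blue has no three stones on a line without red stones -/
def NoThreat (R B : Finset Pt) : Prop :=
  ∀ u ∈ B, ∀ v ∈ B, ∀ w ∈ B, u ≠ v → u ≠ w → v ≠ w → Col u v w → ∃ z ∈ R, Col u v z

/-- no blue 2-line without red stones meets the line `u v` in a free point -/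
def Uncov (R B : Finset Pt) (u v : Pt) : Prop :=
  ∀ z, Col u v z → z ∉ R → z ∉ B → ∀ p ∈ B, ∀ q ∈ B, p ≠ q → Col p q z → ∃ w ∈ R, Col p q w

theorem ALine.symm {R B : Finset Pt} {u v : Pt} (h : ALine R B u v) : ALine R B v u :=
  ⟨h.2.1, h.1, h.2.2.1.symm, fun z hz hc => h.2.2.2 z hz hc.swap12⟩

theorem ALine.ne {R B : Finset Pt} {u v : Pt} (h : ALine R B u v) : u ≠ v := h.2.2.1

/-- an alive red line stays alive if red stones are added and the new blue stone is off it -/
theorem ALine.insert {R R' B : Finset Pt} {u v y : Pt} (h : ALine R B u v) (hR : R ⊆ R')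
    (hy : ¬ Col u v y) : ALine R' (insert y B) u v := by
  refine ⟨hR h.1, hR h.2.1, h.2.2.1, ?_⟩
  intro z hz
  rcases Finset.mem_insert.mp hz with rfl | hz
  · exact hy
  · exact h.2.2.2 z hz

theorem ALine.mono {R R' B B' : Finset Pt} {u v : Pt} (h : ALine R B u v) (hR : R ⊆ R')
    (hB : B' ⊆ B) : ALine R' B' u v :=
  ⟨hR h.1, hR h.2.1, h.2.2.1, fun z hz => h.2.2.2 z (hB hz)⟩

/-- change of the two base stones -/
theorem ALine.change {R B : Finset Pt} {u v u' v' : Pt} (h : ALine R B u v) (hu : u' ∈ R)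
    (hv : v' ∈ R) (hne : u' ≠ v') (h1 : Col u v u') (h2 : Col u v v') : ALine R B u' v' :=
  ⟨hu, hv, hne, fun z hz hc => h.2.2.2 z hz ((Col.line_iff h.2.2.1 hne h1 h2).mpr hc)⟩

theorem NoThreat.mono {R R' B B' : Finset Pt} (h : NoThreat R B) (hR : R ⊆ R') (hB : B' ⊆ B) :
    NoThreat R' B' := by
  intro u hu v hv w hw h1 h2 h3 h4
  obtain ⟨z, hz, hc⟩ := h u (hB hu) v (hB hv) w (hB hw) h1 h2 h3 h4
  exact ⟨z, hR hz, hc⟩

/-- adding a blue stone `y`: only the blue 2-lines through `y` have to be checked -/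
theorem NoThreat.insert {R R' B : Finset Pt} {y : Pt} (h : NoThreat R B) (hR : R ⊆ R')
    (hy : ∀ u ∈ B, ∀ v ∈ B, u ≠ v → Col u v y → ∃ z ∈ R', Col u v z) :
    NoThreat R' (insert y B) := by
  intro u hu v hv w hw h1 h2 h3 h4
  by_cases hyu : u = y
  · subst hyu
    have hvB : v ∈ B := Finset.mem_of_mem_insert_of_ne hv h1.symm
    have hwB : w ∈ B := Finset.mem_of_mem_insert_of_ne hw h2.symm
    obtain ⟨z, hz, hc⟩ := hy v hvB w hwB h3 h4.rot
    refine ⟨z, hz, ?_⟩
    exact (Col.line_iff h3 h1 h4.rot (Col.refl_left v w)).mp hc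
  · by_cases hyv : v = y
    · subst hyv
      have huB : u ∈ B := Finset.mem_of_mem_insert_of_ne hu h1
      have hwB : w ∈ B := Finset.mem_of_mem_insert_of_ne hw h3.symm
      obtain ⟨z, hz, hc⟩ := hy u huB w hwB h2 h4.swap23
      refine ⟨z, hz, ?_⟩
      exact (Col.line_iff h2 h1 (Col.refl_left u w) h4.swap23).mp hc
    · have huB : u ∈ B := Finset.mem_of_mem_insert_of_ne hu hyu
      have hvB : v ∈ B := Finset.mem_of_mem_insert_of_ne hv hyv
      by_cases hyw : w = y
      · subst hyw
        exact hy u huB v hvB h1 h4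
      · have hwB : w ∈ B := Finset.mem_of_mem_insert_of_ne hw hyw
        obtain ⟨z, hz, hc⟩ := h u huB v hvB w hwB h1 h2 h3 h4
        exact ⟨z, hR hz, hc⟩

/-- a forced reply on an uncovered line makes no blue threat -/
theorem NoThreat.of_uncov {R R' B : Finset Pt} {u v y : Pt} (h : NoThreat R B)
    (hU : Uncov R B u v) (hR : R ⊆ R') (hy : Col u v y) (hyR : y ∉ R) (hyB : y ∉ B) :
    NoThreat R' (Insert.insert y B) := by
  refine h.insert hR ?_
  intro p hp q hq hpq hc
  obtain ⟨w, hw, hc'⟩ := hU y hy hyR hyB p hp q hq hpq hc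
  exact ⟨w, hR hw, hc'⟩

theorem noThreat_of_card {R B : Finset Pt} (h : B.card ≤ 2) : NoThreat R B := by
  intro u hu v hv w hw h1 h2 h3 _
  exfalso
  have : 2 < B.card := by
    rw [Finset.two_lt_card]
    exact ⟨u, hu, v, hv, w, hw, h1, h2, h3⟩
  omega

/-- without a threat Blue cannot win at once -/
theorem not_four_of_noThreat {R B : Finset Pt} (h : NoThreat R B) (y : Pt) :
    ¬ Four (insert y B) R := by
  rintro ⟨u, hu, v, hv, w, hw, t, ht, huv, huw, hut, hvw, hvt, hwt, h1, h2, h3⟩
  -- the four points are on one line; at least three of them are in `B`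
  have hL : ∀ p q, (Col u v p) → (Col u v q) → p ≠ q → ∀ z, Col u v z ↔ Col p q z :=
    fun p q hp hq hpq z => Col.line_iff huv hpq hp hq
  have key : ∀ p ∈ B, ∀ q ∈ B, ∀ r ∈ B, p ≠ q → p ≠ r → q ≠ r → Col u v p → Col u v q →
      Col u v r → False := by
    intro p hp q hq r hr hpq hpr hqr c1 c2 c3
    obtain ⟨z, hz, hc⟩ := h p hp q hq r hr hpq hpr hqr ((hL p q c1 c2 hpq r).mp c3)
    exact h3 z hz ((hL p q c1 c2 hpq z).mpr hc)
  have cu : Col u v u := Col.refl_left u v
  have cv : Col u v v := Col.refl_right u v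
  by_cases e1 : u = y
  · have h4 := Finset.mem_of_mem_insert_of_ne hv (fun hc => huv (e1.trans hc.symm))
    have h5 := Finset.mem_of_mem_insert_of_ne hw (fun hc => huw (e1.trans hc.symm))
    have h6 := Finset.mem_of_mem_insert_of_ne ht (fun hc => hut (e1.trans hc.symm))
    exact key v h4 w h5 t h6 hvw hvt hwt cv h1 h2
  · have hu' := Finset.mem_of_mem_insert_of_ne hu e1
    by_cases e2 : v = y
    · have h5 := Finset.mem_of_mem_insert_of_ne hw (fun hc => hvw (e2.trans hc.symm))
      have h6 := Finset.mem_of_mem_insert_of_ne ht (fun hc => hvt (e2.trans hc.symm))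
      exact key u hu' w h5 t h6 huw hut hwt cu h1 h2
    · have hv' := Finset.mem_of_mem_insert_of_ne hv e2
      by_cases e3 : w = y
      · have h6 := Finset.mem_of_mem_insert_of_ne ht (fun hc => hwt (e3.trans hc.symm))
        exact key u hu' v hv' t h6 huv hut hvt cu cv h2
      · have hw' := Finset.mem_of_mem_insert_of_ne hw e3
        exact key u hu' v hv' w hw' huv huw hvw cu cv h1

/-- three red stones on a line without blue stones: Red (to move) wins at once -/
theorem win_complete {R B : Finset Pt} {u v w : Pt} (h : ALine R B u v) (hw : w ∈ R)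
    (h1 : u ≠ w) (h2 : v ≠ w) (hc : Col u v w) : Win R B := by
  obtain ⟨z, hz, hzF⟩ := exists_free_on_line h.2.2.1 (R ∪ B)
  simp only [Finset.mem_union, not_or] at hzF
  refine Win.now R B z hzF.1 hzF.2 ?_
  refine ⟨u, Finset.mem_insert_of_mem h.1, v, Finset.mem_insert_of_mem h.2.1, w,
    Finset.mem_insert_of_mem hw, z, Finset.mem_insert_self _ _, h.2.2.1, h1, ?_, h2, ?_, ?_, hc, hz,
    h.2.2.2⟩
  · rintro rfl; exact hzF.1 h.1
  · rintro rfl; exact hzF.1 h.2.1
  · rintro rfl; exact hzF.1 hw

/-- a move of Red after which Blue has no threat -/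
theorem win_quiet {R B : Finset Pt} {x : Pt} (hxR : x ∉ R) (hxB : x ∉ B)
    (hT : NoThreat (insert x R) B)
    (hw : ∀ y, y ∉ insert x R → y ∉ B → Win (insert x R) (insert y B)) : Win R B :=
  Win.step R B x hxR hxB (fun y _ _ => not_four_of_noThreat hT y) hw

/-- FORCE: a move on an alive red 2-line, after which Blue has no threat -/
theorem win_force {R B : Finset Pt} {u v x : Pt} (hL : ALine R B u v) (hxR : x ∉ R) (hxB : x ∉ B)
    (hx : Col u v x) (hT : NoThreat (insert x R) B)
    (hw : ∀ y, y ∉ insert x R → y ∉ B → Col u v y → Win (insert x R) (insert y B)) :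
    Win R B := by
  refine win_quiet hxR hxB hT ?_
  intro y hyR hyB
  by_cases hy : Col u v y
  · exact hw y hyR hyB hy
  · refine win_complete (u := u) (v := v) (w := x) ?_ (Finset.mem_insert_self _ _) ?_ ?_ hx
    · exact hL.insert (Finset.subset_insert _ _) hy
    · rintro rfl; exact hxR hL.1
    · rintro rfl; exact hxR hL.2.1

/-- DOUBLE: a point on two different alive red 2-lines -/
theorem win_double {R B : Finset Pt} {u v u' v' z : Pt} (hL : ALine R B u v)
    (hL' : ALine R B u' v') (hzR : z ∉ R) (hzB : z ∉ B) (h1 : Col u v z) (h2 : Col u' v' z)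
    (hT : NoThreat (insert z R) B) (hne : ¬ (Col u v u' ∧ Col u v v')) : Win R B := by
  refine win_force hL hzR hzB h1 hT ?_
  intro y hyR hyB hy
  have hyz : y ≠ z := by
    rintro rfl; exact hyR (Finset.mem_insert_self _ _)
  have hy' : ¬ Col u' v' y := by
    intro hc
    apply hne
    have := fun p => Col.line_eq_of_two (z := p) hL.ne hL'.ne hyz hy h1 hc h2
    exact ⟨(this u').mpr (Col.refl_left _ _), (this v').mpr (Col.refl_right _ _)⟩
  refine win_complete (u := u') (v := v') (w := z) ?_ (Finset.mem_insert_self _ _) ?_ ?_ h2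
  · exact hL'.insert (Finset.subset_insert _ _) hy'
  · rintro rfl; exact hzR hL'.1
  · rintro rfl; exact hzR hL'.2.1

/-! ### contrapositive forms: replies as functions -/

theorem not_win_reply {R B : Finset Pt} (h : ¬ Win R B) {x : Pt} (hxR : x ∉ R) (hxB : x ∉ B)
    (hT : NoThreat (insert x R) B) :
    ∃ y, y ∉ insert x R ∧ y ∉ B ∧ ¬ Win (insert x R) (insert y B) := by
  by_contra hc
  apply h
  refine win_quiet hxR hxB hT ?_
  intro y h1 h2
  by_contra h3
  exact hc ⟨y, h1, h2, h3⟩

theorem not_win_force {R B : Finset Pt} (h : ¬ Win R B) {u v x : Pt} (hL : ALine R B u v)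
    (hxR : x ∉ R) (hxB : x ∉ B) (hx : Col u v x) (hT : NoThreat (insert x R) B) :
    ∃ y, y ∉ insert x R ∧ y ∉ B ∧ Col u v y ∧ ¬ Win (insert x R) (insert y B) := by
  by_contra hc
  apply h
  refine win_force hL hxR hxB hx hT ?_
  intro y h1 h2 h3
  by_contra h4
  exact hc ⟨y, h1, h2, h3, h4⟩

/-! ### monotonicity -/

/-- more red stones and fewer blue stones do not hurt First -/
theorem Win.mono {R B : Finset Pt} (h : Win R B) :
    ∀ {R' B' : Finset Pt}, R ⊆ R' → B' ⊆ B → Win R' B' := by
  induction h with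
  | now R B x hxR hxB h4 =>
    intro R' B' hR hB
    by_cases hx : x ∈ R'
    · obtain ⟨z, hz⟩ := exists_free (R' ∪ B')
      simp only [Finset.mem_union, not_or] at hz
      refine Win.now R' B' z hz.1 hz.2 (h4.mono ?_ hB)
      intro p hp
      rcases Finset.mem_insert.mp hp with rfl | hp
      · exact Finset.mem_insert_of_mem hx
      · exact Finset.mem_insert_of_mem (hR hp)
    · exact Win.now R' B' x hx (fun hc => hxB (hB hc)) (h4.mono (Finset.insert_subset_insert x hR) hB)
  | step R B x hxR hxB hno hwin ih =>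
    -- it suffices to treat any superset of `insert x R` after one more red move
    have main : ∀ (R'' B' : Finset Pt), insert x R ⊆ R'' → B' ⊆ B → ∀ y, y ∉ R'' → y ∉ B' →
        ¬ Four (insert y B') R'' ∧ Win R'' (insert y B') := by
      intro R'' B' hR hB y hyR hyB
      by_cases hy : y ∈ B
      · obtain ⟨z, hz⟩ := exists_free (insert x R ∪ B)
        simp only [Finset.mem_union, not_or] at hz
        have hsub : insert y B' ⊆ insert z B := by
          intro p hp
          rcases Finset.mem_insert.mp hp with rfl | hp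
          · exact Finset.mem_insert_of_mem hy
          · exact Finset.mem_insert_of_mem (hB hp)
        exact ⟨fun hc => hno z hz.1 hz.2 (hc.mono hsub hR), ih z hz.1 hz.2 hR hsub⟩
      · have hsub : insert y B' ⊆ insert y B := Finset.insert_subset_insert y hB
        exact ⟨fun hc => hno y (fun h => hyR (hR h)) hy (hc.mono hsub hR),
          ih y (fun h => hyR (hR h)) hy hR hsub⟩
    intro R' B' hR hB
    by_cases hx : x ∈ R'
    · obtain ⟨z, hz⟩ := exists_free (R' ∪ B')
      simp only [Finset.mem_union, not_or] at hz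
      have hsub : insert x R ⊆ insert z R' := by
        intro p hp
        rcases Finset.mem_insert.mp hp with rfl | hp
        · exact Finset.mem_insert_of_mem hx
        · exact Finset.mem_insert_of_mem (hR hp)
      exact Win.step R' B' z hz.1 hz.2 (fun y h1 h2 => (main _ B' hsub hB y h1 h2).1)
        (fun y h1 h2 => (main _ B' hsub hB y h1 h2).2)
    · have hsub : insert x R ⊆ insert x R' := Finset.insert_subset_insert x hR
      exact Win.step R' B' x hx (fun hc => hxB (hB hc))
        (fun y h1 h2 => (main _ B' hsub hB y h1 h2).1)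
        (fun y h1 h2 => (main _ B' hsub hB y h1 h2).2)

/-! ### symmetries -/

theorem Four.map {A B : Finset Pt} (f : Pt ≃ Pt)
    (hf : ∀ x y z, Col (f x) (f y) (f z) ↔ Col x y z) (h : Four A B) :
    Four (A.image f) (B.image f) := by
  obtain ⟨u, hu, v, hv, w, hw, t, ht, h1, h2, h3, h4, h5, h6, h7, h8, h9⟩ := h
  refine ⟨f u, Finset.mem_image_of_mem f hu, f v, Finset.mem_image_of_mem f hv, f w,
    Finset.mem_image_of_mem f hw, f t, Finset.mem_image_of_mem f ht, f.injective.ne h1,
    f.injective.ne h2, f.injective.ne h3, f.injective.ne h4, f.injective.ne h5,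
    f.injective.ne h6, (hf _ _ _).mpr h7, (hf _ _ _).mpr h8, ?_⟩
  intro z hz
  obtain ⟨z', hz', rfl⟩ := Finset.mem_image.mp hz
  exact fun hc => h9 z' hz' ((hf _ _ _).mp hc)

/-- collineations of the board preserve `Win` -/
theorem Win.map (f : Pt ≃ Pt) (hf : ∀ x y z, Col (f x) (f y) (f z) ↔ Col x y z)
    {R B : Finset Pt} (h : Win R B) : Win (R.image f) (B.image f) := by
  have hf' : ∀ x y z, Col (f.symm x) (f.symm y) (f.symm z) ↔ Col x y z := by
    intro x y z
    rw [← hf]
    simp
  have hmem : ∀ (A : Finset Pt) (y : Pt), y ∈ A.image f ↔ f.symm y ∈ A := by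
    intro A y
    constructor
    · intro hy
      obtain ⟨z, hz, rfl⟩ := Finset.mem_image.mp hy
      simpa using hz
    · intro hy
      exact Finset.mem_image.mpr ⟨f.symm y, hy, by simp⟩
  have hback : ∀ A : Finset Pt, (A.image f).image f.symm = A := by
    intro A
    rw [Finset.image_image]
    simp
  induction h with
  | now R B x hxR hxB h4 =>
    refine Win.now _ _ (f x) ?_ ?_ ?_
    · rw [hmem]; simpa using hxR
    · rw [hmem]; simpa using hxB
    · rw [← Finset.image_insert]; exact h4.map f hf
  | step R B x hxR hxB hno hwin ih =>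
    refine Win.step _ _ (f x) ?_ ?_ ?_ ?_
    · rw [hmem]; simpa using hxR
    · rw [hmem]; simpa using hxB
    · intro y hy1 hy2 hc
      rw [← Finset.image_insert, hmem] at hy1
      rw [hmem] at hy2
      apply hno (f.symm y) hy1 hy2
      have := hc.map f.symm hf'
      rw [← Finset.image_insert, hback, Finset.image_insert, hback] at this
      exact this
    · intro y hy1 hy2
      rw [← Finset.image_insert, hmem] at hy1
      rw [hmem] at hy2
      have := ih (f.symm y) hy1 hy2
      rw [Finset.image_insert f (f.symm y) B, Equiv.apply_symm_apply, Finset.image_insert] at this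
      exact this

/-- translation -/
def transE (v : Pt) : Pt ≃ Pt where
  toFun p := (p.1 + v.1, p.2 + v.2)
  invFun p := (p.1 - v.1, p.2 - v.2)
  left_inv p := by ext <;> simp
  right_inv p := by ext <;> simp

theorem col_transE (v x y z : Pt) : Col (transE v x) (transE v y) (transE v z) ↔ Col x y z := by
  unfold Col transE
  simp

/-- unimodular linear map `(x, y) ↦ (a x + b y, c x + d y)` -/
def linE (a b c d : ℤ) (e : ℤ) (he : e * e = 1) (hdet : a * d - b * c = e) : Pt ≃ Pt where
  toFun p := (a * p.1 + b * p.2, c * p.1 + d * p.2)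
  invFun p := (e * (d * p.1 - b * p.2), e * (a * p.2 - c * p.1))
  left_inv p := by
    ext
    · simp only
      linear_combination (e * p.1) * hdet + p.1 * he
    · simp only
      linear_combination (e * p.2) * hdet + p.2 * he
  right_inv p := by
    ext
    · simp only
      linear_combination (e * p.1) * hdet + p.1 * he
    · simp only
      linear_combination (e * p.2) * hdet + p.2 * he

theorem col_linE (a b c d e : ℤ) (he : e * e = 1) (hdet : a * d - b * c = e) (x y z : Pt) :
    Col (linE a b c d e he hdet x) (linE a b c d e he hdet y) (linE a b c d e he hdet z) ↔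
      Col x y z := by
  have he0 : e ≠ 0 := by
    rintro rfl; simp at he
  unfold Col linE
  simp only [Equiv.coe_fn_mk]
  constructor
  · intro h
    apply mul_left_cancel₀ he0
    linear_combination h - ((y.1 - x.1) * (z.2 - x.2) - (y.2 - x.2) * (z.1 - x.1)) * hdet
  · intro h
    linear_combination e * h + ((y.1 - x.1) * (z.2 - x.2) - (y.2 - x.2) * (z.1 - x.1)) * hdet

end Pool.Agent.K4L
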