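import Pool.Agent.K4L.BL
import Pool.Agent.K4L.Tempo

/-!
# K3U, node gamma1: arithmetic

Frame: `c = (0, 0)`, `a = (α, 0)`, `b = (b1, b2)`, `e = (ε, 0)`, `g = G b`, `t2 = (T1, T)` on `c b`.
For a point `w` put `X w = w.1 b2 - w.2 b1`, `Y w = w.2`.
`HE b2 z G T X Y k`: the line through `t2` and the point with coordinates `X, Y` contains the point
`g + k ((z, 0) - g)`.
-/

namespace Pool.Agent.K4L

/-- the hit equation -/
def HE (b2 z G T X Y k : ℤ) : Prop := T * (k * z * b2 - X) = k * z * b2 * Y - X * (1 - k) * G * b2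

/-- a lattice point of the line through `(z, 0)` and `G b` -/
theorem he_param {b1 b2 z G w1 w2 : ℤ} (hc : IsCoprime (G * b1 - z) (G * b2))
    (h : (z - G * b1) * (w2 - G * b2) = -(G * b2) * (w1 - G * b1)) :
    ∃ k, w1 = G * b1 + k * (z - G * b1) ∧ w2 = (1 - k) * (G * b2) := by
  obtain ⟨u, v, huv⟩ := hc
  refine ⟨-(u * (w1 - G * b1)) - v * (w2 - G * b2), ?_, ?_⟩
  · linear_combination (-(w1 - G * b1)) * huv + v * h
  · linear_combination (-(w2 - G * b2)) * huv - u * h

theorem he_of_col {b1 b2 z G T1 T x y k : ℤ} (hT : T1 * b2 = T * b1)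
    (h : (x - T1) * ((1 - k) * (G * b2) - T) = (y - T) * (G * b1 + k * (z - G * b1) - T1)) :
    HE b2 z G T (x * b2 - y * b1) y k := by
  unfold HE
  linear_combination b2 * h + ((1 - k) * (G * b2) - T - (y - T)) * hT

/-- the converse -/
theorem col_of_he {b1 b2 z G T1 T x y k : ℤ} (hb2 : b2 ≠ 0) (hT : T1 * b2 = T * b1)
    (h : HE b2 z G T (x * b2 - y * b1) y k) :
    (x - T1) * ((1 - k) * (G * b2) - T) = (y - T) * (G * b1 + k * (z - G * b1) - T1) := by
  unfold HE at h
  apply mul_left_cancel₀ hb2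
  linear_combination h - ((1 - k) * (G * b2) - T - (y - T)) * hT

section
variable {b2 z z' G T X Y X' Y' k k' : ℤ}

/-- elimination of `T` -/
theorem he_elim (hb2 : b2 ≠ 0) (h : HE b2 z G T X Y k) (h' : HE b2 z' G T X' Y' k') :
    (k * z * Y - X * (1 - k) * G) * (k' * z' * b2 - X') -
      (k' * z' * Y' - X' * (1 - k') * G) * (k * z * b2 - X) = 0 := by
  unfold HE at h h'
  apply mul_left_cancel₀ hb2
  linear_combination (-(k' * z' * b2 - X')) * h + (k * z * b2 - X) * h'

/-- A1: no two hits of `g e` -/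
theorem g1_ee {ε p : ℤ} (hb2 : b2 ≠ 0) (hε : ε ≠ 0) (hp : Prime p) (hpε : p ∣ ε)
    (hX : ¬ p ∣ X) (hX' : ¬ p ∣ X') (hXX : X ≠ X')
    (hQ : ε * b2 * (Y - Y') - X' * Y + X * Y' ≠ 0)
    (hG : blC (ε * b2 * (X - X')) (X' * (ε * b2 - X)) (-(X * (ε * b2 - X'))) 0
      (ε * ε * b2 * (Y - Y')) (-(ε * X' * Y)) (ε * X * Y') 0 < |G|)
    (hk' : k' ≠ 0) (h : HE b2 ε G T X Y k) (h' : HE b2 ε G T X' Y' k') : False := by
  have h0 := he_elim hb2 h h'
  obtain ⟨m, hm⟩ := hpε
  have ha : ε * b2 * (X - X') ≠ 0 := mul_ne_zero (mul_ne_zero hε hb2) (sub_ne_zero.mpr hXX)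
  have hXX' : ¬ p ∣ X * X' := fun hd => (hp.dvd_or_dvd hd).elim hX hX'
  obtain ⟨q1, q0⟩ := bl (ε * b2 * (X - X')) (X' * (ε * b2 - X)) (-(X * (ε * b2 - X'))) 0
    (ε * ε * b2 * (Y - Y')) (-(ε * X' * Y)) (ε * X * Y') 0 ha G k k' hG
    (by
      intro hu
      apply hXX'
      refine ⟨m * b2 * (X - X') * k' + X' * m * b2, ?_⟩
      rw [hm] at hu
      linear_combination -hu)
    (by
      intro hv
      apply hXX'
      refine ⟨-(m * b2 * (X - X') * k) + X * m * b2, ?_⟩
      rw [hm] at hv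
      linear_combination hv)
    (by linear_combination h0)
  have q0' : k * k' * (ε * b2 * (Y - Y')) - k * (X' * Y) + k' * (X * Y') = 0 := by
    apply mul_left_cancel₀ hε
    linear_combination q0
  have q2 : k' * ((ε * b2 * (Y - Y') - X' * Y + X * Y') * (k * ε * b2 - X)) = 0 := by
    linear_combination Y * q1 + (ε * b2 - X) * q0'
  rcases mul_eq_zero.mp q2 with h1 | h1
  · exact hk' h1
  rcases mul_eq_zero.mp h1 with h2 | h2
  · exact hQ h2
  · apply hX
    refine ⟨k * m * b2, ?_⟩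
    rw [hm] at h2
    linear_combination -h2

/-- A2: a near point hitting `g e` excludes a hit of `g a`; here `X', Y'` belong to the second
point, `j` is the index on `g a` -/
theorem g1_ea {ε α j : ℤ} (hb2 : b2 ≠ 0) (hX' : X' ≠ 0)
    (hs : |X * (α * b2 - X')| < |b2 * (α * X - ε * X')|)
    (hW : α * X * Y' + ε * (α * b2 * (Y - Y') - X' * Y) ≠ 0)
    (hG : blC (b2 * (α * X - ε * X')) (X' * (ε * b2 - X)) (-(X * (α * b2 - X'))) 0
      (α * ε * b2 * (Y - Y')) (-(ε * X' * Y)) (α * X * Y') 0 < |G|)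
    (hG2 : |Y'| < |G|) (hk : k ≠ 0) (hj1 : j ≠ 1)
    (h : HE b2 ε G T X Y k) (h' : HE b2 α G T X' Y' j) : False := by
  have h0 := he_elim hb2 h h'
  have ha : b2 * (α * X - ε * X') ≠ 0 := by
    intro h1
    rw [h1, abs_zero] at hs
    exact absurd hs (not_lt.mpr (abs_nonneg _))
  obtain ⟨q1, q0⟩ := bl (b2 * (α * X - ε * X')) (X' * (ε * b2 - X)) (-(X * (α * b2 - X'))) 0
    (α * ε * b2 * (Y - Y')) (-(ε * X' * Y)) (α * X * Y') 0 ha G k j hG
    (by
      intro hu
      have h1 : b2 * (α * X - ε * X') * (j - 1) = -(X * (α * b2 - X')) := by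
        linear_combination hu
      have h2 : 1 ≤ |j - 1| := Int.one_le_abs (sub_ne_zero.mpr hj1)
      have h3 : |b2 * (α * X - ε * X')| * |j - 1| = |X * (α * b2 - X')| := by
        rw [← abs_mul, h1, abs_neg]
      have h4 : |b2 * (α * X - ε * X')| ≤ |b2 * (α * X - ε * X')| * |j - 1| :=
        le_mul_of_one_le_right (abs_nonneg _) h2
      linarith)
    (by
      intro hv
      have h1 : b2 * (α * X - ε * X') * k = X * (α * b2 - X') := by linarith
      have h2 : 1 ≤ |k| := Int.one_le_abs hk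
      have h3 : |b2 * (α * X - ε * X')| * |k| = |X * (α * b2 - X')| := by
        rw [← abs_mul, h1]
      have h4 : |b2 * (α * X - ε * X')| ≤ |b2 * (α * X - ε * X')| * |k| :=
        le_mul_of_one_le_right (abs_nonneg _) h2
      linarith)
    (by linear_combination h0)
  have q2 : k * ((α * X * Y' + ε * (α * b2 * (Y - Y') - X' * Y)) * (j * α * b2 - X')) = 0 := by
    linear_combination (α * Y') * q1 + (α * b2 - X') * q0
  rcases mul_eq_zero.mp q2 with h1 | h1
  · exact hk h1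
  rcases mul_eq_zero.mp h1 with h2 | h2
  · exact hW h2
  · unfold HE at h'
    rw [h2, mul_zero] at h'
    have h3 : X' * (Y' - (1 - j) * (G * b2)) = 0 := by
      have : j * α * b2 = X' := by linarith
      rw [this] at h'
      linear_combination -h'
    rcases mul_eq_zero.mp h3 with h4 | h4
    · exact hX' h4
    · have h5 : |Y'| = |1 - j| * |G| * |b2| := by
        have : Y' = (1 - j) * G * b2 := by linarith
        rw [this, abs_mul, abs_mul]
      have h6 : 1 ≤ |1 - j| := Int.one_le_abs (sub_ne_zero.mpr (Ne.symm hj1))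
      have h7 : 1 ≤ |b2| := Int.one_le_abs hb2
      have h8 : |G| ≤ |1 - j| * |G| := le_mul_of_one_le_left (abs_nonneg _) h6
      have h9 : |1 - j| * |G| ≤ |1 - j| * |G| * |b2| :=
        le_mul_of_one_le_right (by positivity) h7
      linarith

/-- A3: `t` hits `g e` at index `k`, a near point hits `g a`: then `k` is determined -/
theorem g1_ta {ε α E' j p τ : ℤ} (hb2 : b2 ≠ 0) (hα : α ≠ 0) (hp : Prime p) (hpε : p ∣ ε)
    (hε : ε = α * E') (hτ : ¬ p ∣ τ * b2) (hpα : ¬ p ∣ α) (hX' : ¬ p ∣ X') (hY' : Y' ≠ 0)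
    (hcl : ¬ p ∣ G * (α * b2 - X') - α * Y')
    (hG : blC (b2 * (α * (τ * b2) - ε * X')) (X' * (ε * b2 - τ * b2))
      (-(τ * b2 * (α * b2 - X'))) 0
      (α * ε * b2 * (0 - Y')) (-(ε * X' * 0)) (α * (τ * b2) * Y') 0 < |G|)
    (hj : j ≠ 0)
    (h : HE b2 ε G T (τ * b2) 0 k) (h' : HE b2 α G T X' Y' j) :
    k * (α * τ * b2 - ε * X') = τ * (α * b2 - X') ∧ α * τ * b2 - ε * X' ≠ 0 := by
  have h0 := he_elim hb2 h h'
  have hpE : p ∣ E' := by
    rw [hε] at hpε
    exact (hp.dvd_or_dvd hpε).resolve_left hpα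
  obtain ⟨m, hm⟩ := hpE
  have hτ1 : ¬ p ∣ τ := fun hd => hτ (Dvd.dvd.mul_right hd _)
  have hpb : ¬ p ∣ b2 := fun hd => hτ (Dvd.dvd.mul_left hd _)
  have ha0 : α * τ * b2 - ε * X' ≠ 0 := by
    intro h1
    apply hτ
    refine ⟨m * X', ?_⟩
    apply mul_left_cancel₀ hα
    rw [hε, hm] at h1
    linear_combination h1
  refine ⟨?_, ha0⟩
  have ha : b2 * (α * (τ * b2) - ε * X') ≠ 0 := by
    refine mul_ne_zero hb2 ?_
    intro h1; apply ha0; linear_combination h1
  by_contra hv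
  have hu : b2 * (α * (τ * b2) - ε * X') * j + X' * (ε * b2 - τ * b2) ≠ 0 := by
    intro hu
    have h1 : (α * (τ * b2) - ε * X') * j + X' * (ε - τ) = 0 := by
      apply mul_left_cancel₀ hb2
      linear_combination hu
    have h2 : p ∣ α * b2 * j - X' := by
      have h3 : p ∣ τ * (α * b2 * j - X') := by
        refine ⟨α * m * X' * j - X' * α * m, ?_⟩
        rw [hε, hm] at h1
        linear_combination h1
      exact (hp.dvd_or_dvd h3).resolve_left hτ1
    obtain ⟨n, hn⟩ := h2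
    have h4 : p ∣ X' * (Y' - (1 - j) * G * b2) := by
      unfold HE at h'
      refine ⟨T * n - n * Y', ?_⟩
      linear_combination -h' + (T - Y') * hn
    rcases hp.dvd_or_dvd h4 with h5 | h5
    · exact hX' h5
    · obtain ⟨r, hr⟩ := h5
      apply hcl
      refine ⟨-(α * r) + n * G, ?_⟩
      linear_combination (-α) * hr + G * hn
  obtain ⟨q1, q0⟩ := bl (b2 * (α * (τ * b2) - ε * X')) (X' * (ε * b2 - τ * b2))
    (-(τ * b2 * (α * b2 - X'))) 0
    (α * ε * b2 * (0 - Y')) (-(ε * X' * 0)) (α * (τ * b2) * Y') 0 ha G k j hG hu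
    (by
      intro hv'
      apply hv
      apply mul_left_cancel₀ hb2
      linear_combination hv')
    (by linear_combination h0)
  have q2 : j * (α * (b2 * (Y' * (τ - k * ε)))) = 0 := by linear_combination q0
  rcases mul_eq_zero.mp q2 with h1 | h1
  · exact hj h1
  rcases mul_eq_zero.mp h1 with h2 | h2
  · exact hα h2
  rcases mul_eq_zero.mp h2 with h3 | h3
  · exact hb2 h3
  rcases mul_eq_zero.mp h3 with h4 | h4
  · exact hY' h4
  · apply hτ1
    obtain ⟨n, hn⟩ := hpε
    exact ⟨k * n, by rw [hn] at h4; linear_combination h4⟩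

/-- A4: `t` hits both `g e` and `g a` -/
theorem g1_tt {ε α j τ : ℤ} (hb2 : b2 ≠ 0) (hG : G ≠ 0) (hT : T ≠ 0) (hτ : τ ≠ 0)
    (hτα : τ ≠ α) (hτε : τ ≠ ε) (hαε : α ≠ ε)
    (h : HE b2 ε G T (τ * b2) 0 k) (h' : HE b2 α G T (τ * b2) 0 j) :
    |k| ≤ |(τ - α) * (ε - τ)| + |τ - α| := by
  unfold HE at h h'
  have e1 : T * (k * ε - τ) = -(τ * (1 - k) * G * b2) := by
    apply mul_left_cancel₀ hb2
    linear_combination h
  have e2 : T * (j * α - τ) = -(τ * (1 - j) * G * b2) := by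
    apply mul_left_cancel₀ hb2
    linear_combination h'
  have e3 : (k * ε - τ) * (1 - j) = (j * α - τ) * (1 - k) := by
    apply mul_left_cancel₀ (mul_ne_zero hT (mul_ne_zero (mul_ne_zero hτ hG) hb2))
    linear_combination (τ * G * b2 * (1 - j)) * e1 - (τ * G * b2 * (1 - k)) * e2
  have e4 : ((α - ε) * k + (τ - α)) * ((α - ε) * j + (ε - τ)) = (τ - α) * (ε - τ) := by
    linear_combination (α - ε) * e3
  have hr : (τ - α) * (ε - τ) ≠ 0 :=
    mul_ne_zero (sub_ne_zero.mpr hτα) (sub_ne_zero.mpr (Ne.symm hτε))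
  have h1 : (α - ε) * k + (τ - α) ∣ (τ - α) * (ε - τ) := ⟨_, e4.symm⟩
  have h2 : |(α - ε) * k + (τ - α)| ≤ |(τ - α) * (ε - τ)| :=
    Int.le_of_dvd (abs_pos.mpr hr) ((abs_dvd_abs _ _).mpr h1)
  have h3 : |(α - ε) * k| ≤ |(α - ε) * k + (τ - α)| + |τ - α| := by
    have := abs_sub ((α - ε) * k + (τ - α)) (τ - α)
    rwa [add_sub_cancel_right] at this
  have h4 : |k| ≤ |(α - ε) * k| := by
    rw [abs_mul]
    exact le_mul_of_one_le_left (abs_nonneg _) (Int.one_le_abs (sub_ne_zero.mpr hαε))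
  linarith

/-- the linear equation with one unknown and a large parameter -/
theorem lin2 {A B C D G k : ℤ} (hA : A ≠ 0) (hG : |C| * (1 + |B|) + |D| < |G|)
    (h : (A * k + B) * G + (C * k + D) = 0) : A * k + B = 0 ∧ C * k + D = 0 := by
  by_cases h1 : A * k + B = 0
  · refine ⟨h1, ?_⟩
    rw [h1, zero_mul, zero_add] at h
    exact h
  exfalso
  have a1 : 1 ≤ |A * k + B| := Int.one_le_abs h1
  have a2 : |k| ≤ |A * k + B| * (1 + |B|) := by
    have b1 : |k| ≤ |A * k| := by
      rw [abs_mul]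
      exact le_mul_of_one_le_left (abs_nonneg _) (Int.one_le_abs hA)
    have b2 : |A * k| ≤ |A * k + B| + |B| := by
      have := abs_sub (A * k + B) B
      rwa [add_sub_cancel_right] at this
    have b3 : |B| ≤ |A * k + B| * |B| := le_mul_of_one_le_left (abs_nonneg _) a1
    linarith
  have a3 : |C * k + D| ≤ |A * k + B| * (|C| * (1 + |B|) + |D|) := by
    have c1 := abs_add_le (C * k) D
    have c2 : |C * k| ≤ |C| * (|A * k + B| * (1 + |B|)) := by
      rw [abs_mul]
      exact mul_le_mul_of_nonneg_left a2 (abs_nonneg _)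
    have c3 : |D| ≤ |A * k + B| * |D| := le_mul_of_one_le_left (abs_nonneg _) a1
    linarith
  have a4 : |C * k + D| = |A * k + B| * |G| := by
    have : C * k + D = -((A * k + B) * G) := by linarith
    rw [this, abs_neg, abs_mul]
  have a5 : |A * k + B| * (|C| * (1 + |B|) + |D|) < |A * k + B| * |G| :=
    mul_lt_mul_of_pos_left hG (by linarith)
  linarith

/-- A6: two hits of `g a`: one of the indices is bounded -/
theorem g1_aa {α j j' : ℤ} (hb2 : b2 ≠ 0) (hα : α ≠ 0) (hXX : X ≠ X')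
    (hG : blC (α * b2 * (X - X')) (X' * (α * b2 - X)) (-(X * (α * b2 - X'))) 0
      (α * α * b2 * (Y - Y')) (-(α * X' * Y)) (α * X * Y') 0 < |G|)
    (h : HE b2 α G T X Y j) (h' : HE b2 α G T X' Y' j') :
    |j| ≤ |X * (α * b2 - X')| * (1 + |X' * (α * b2 - X)|) ∨
      |j'| ≤ |X' * (α * b2 - X)| * (1 + |X * (α * b2 - X')|) := by
  have h0 := he_elim hb2 h h'
  have ha : α * b2 * (X - X') ≠ 0 := mul_ne_zero (mul_ne_zero hα hb2) (sub_ne_zero.mpr hXX)
  obtain ⟨A, hA⟩ : ∃ A, A = α * b2 * (X - X') := ⟨_, rfl⟩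
  obtain ⟨P, hP⟩ : ∃ P, P = X' * (α * b2 - X) := ⟨_, rfl⟩
  obtain ⟨Q, hQ⟩ : ∃ Q, Q = X * (α * b2 - X') := ⟨_, rfl⟩
  rw [← hA, ← hP, ← hQ] at hG
  rw [← hP, ← hQ]
  rw [← hA] at ha
  have hA1 := Int.one_le_abs ha
  -- `u v = - P Q` or `u = 0` or `v = 0`
  have key : A * j' + P = 0 ∨ A * j - Q = 0 ∨ (A * j' + P) * (A * j - Q) = -(P * Q) := by
    by_cases hu : A * j' + P = 0
    · exact Or.inl hu
    by_cases hv : A * j - Q = 0
    · exact Or.inr (Or.inl hv)
    refine Or.inr (Or.inr ?_)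
    obtain ⟨q1, q0⟩ := bl A P (-Q) 0 (α * α * b2 * (Y - Y')) (-(α * X' * Y)) (α * X * Y') 0 ha G
      j j' hG hu (by intro h1; apply hv; linarith)
      (by rw [hA, hP, hQ]; linear_combination h0)
    linear_combination A * q1
  have bnd : ∀ {x c : ℤ}, |A * x + c| ≤ |P * Q| → |x| ≤ |P * Q| + |c| := by
    intro x c hx
    have h1 : |A * x| ≤ |A * x + c| + |c| := by
      have := abs_sub (A * x + c) c
      rwa [add_sub_cancel_right] at this
    have h2 : |x| ≤ |A * x| := by
      rw [abs_mul]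
      exact le_mul_of_one_le_left (abs_nonneg _) hA1
    linarith
  rcases key with h1 | h1 | h1
  · right
    have := bnd (x := j') (c := P) (by rw [h1, abs_zero]; exact abs_nonneg _)
    rw [abs_mul] at this
    linarith
  · left
    have := bnd (x := j) (c := -Q) (by
      have : A * j + -Q = 0 := by linarith
      rw [this, abs_zero]; exact abs_nonneg _)
    rw [abs_neg, abs_mul] at this
    linarith
  · by_cases hPQ : P * Q = 0
    · rw [hPQ, neg_zero] at h1
      rcases mul_eq_zero.mp h1 with h2 | h2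
      · right
        have := bnd (x := j') (c := P) (by rw [h2, abs_zero]; exact abs_nonneg _)
        rw [abs_mul] at this
        linarith
      · left
        have := bnd (x := j) (c := -Q) (by
          have : A * j + -Q = 0 := by linarith
          rw [this, abs_zero]; exact abs_nonneg _)
        rw [abs_neg, abs_mul] at this
        linarith
    · left
      have h2 : A * j - Q ∣ -(P * Q) := ⟨A * j' + P, by rw [← h1]; ring⟩
      have h3 : |A * j - Q| ≤ |P * Q| := by
        have := Int.le_of_dvd (abs_pos.mpr (neg_ne_zero.mpr hPQ)) ((abs_dvd_abs _ _).mpr h2)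
        rwa [abs_neg] at this
      have := bnd (x := j) (c := -Q) (by rw [← sub_eq_add_neg]; exact h3)
      rw [abs_neg, abs_mul] at this
      linarith

/-- A7: a fixed pair hits the line through `(z, 0)` and `G b` only at `(z, 0)` -/
theorem g1_pair {k : ℤ} (hb2 : b2 ≠ 0) (hXX : X ≠ X')
    (hG : |(Y' - Y) * (z * b2)| * (1 + |(X' - X) * b2|) + |X' * Y - X * Y'| < |G|)
    (h : (X' - X) * ((1 - k) * (G * b2) - Y) = (Y' - Y) * (k * z * b2 - X)) : k = 1 := by
  have h1 := lin2 (A := -((X' - X) * b2)) (B := (X' - X) * b2) (C := -((Y' - Y) * (z * b2)))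
    (D := -(X' * Y - X * Y')) (G := G) (k := k)
    (neg_ne_zero.mpr (mul_ne_zero (sub_ne_zero.mpr (Ne.symm hXX)) hb2))
    (by rw [abs_neg, abs_neg]; exact hG) (by linear_combination h)
  have h2 : (X' - X) * b2 * (1 - k) = 0 := by linear_combination h1.1
  rcases mul_eq_zero.mp h2 with h3 | h3
  · exact absurd h3 (mul_ne_zero (sub_ne_zero.mpr (Ne.symm hXX)) hb2)
  · linarith

/-- A5: a parallel to `g a` through `t2` and `(X, Y)`, a hit of `g e` by `(X', Y')` -/
theorem g1_par {ε α : ℤ}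
    (hA : b2 * (ε * X - α * X') ≠ 0)
    (hG : |α * ε * b2 * (Y - Y')| * (1 + |X' * (X - α * b2)|) + |α * X' * Y| < |G|)
    (hpar : α * (T - Y) = G * X) (h : HE b2 ε G T X' Y' k) :
    k * b2 * (ε * X - α * X') = X' * (X - α * b2) ∧ k * ε * b2 * (Y - Y') = X' * Y ∨ α = 0 := by
  by_cases hα : α = 0
  · exact Or.inr hα
  left
  unfold HE at h
  have h1 := lin2 (A := b2 * (ε * X - α * X')) (B := -(X' * (X - α * b2)))
    (C := α * ε * b2 * (Y - Y')) (D := -(α * X' * Y)) (G := G) (k := k) hA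
    (by rw [abs_neg, abs_neg]; exact hG)
    (by linear_combination α * h - (k * ε * b2 - X') * hpar)
  refine ⟨by linear_combination h1.1, ?_⟩
  apply mul_left_cancel₀ hα
  linear_combination h1.2

end

end Pool.Agent.K4L
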