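import Pool.Agent.K4L.K3UCtx
import Pool.Agent.K4L.K3UG1A

/-!
# K3U, the position after `e, t, g, t2`: leaves with alive lines `g a`, `g e`, `b e`
-/

namespace Pool.Agent.K4L

open Filter

/-- the position after `e, t, g, t2` -/
structure FP (R B : Finset Pt) (α b1 b2 ε G : ℤ) : Prop where
  hN : NoThreat R B
  hB : ∀ β ∈ B, β ∉ R
  hα : α ≠ 0
  hb2 : b2 ≠ 0
  hε : ε ≠ 0
  hαε : α ≠ ε
  hG0 : G ≠ 0
  hG1 : G ≠ 1
  hGε : G * ε ≠ α
  hga : ALine R B (G * b1, G * b2) (α, 0)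
  hge : ALine R B (G * b1, G * b2) (ε, 0)
  hbe : ALine R B (b1, b2) (ε, 0)

namespace FP

variable {R B : Finset Pt} {α b1 b2 ε G : ℤ}

theorem col_gab (F : FP R B α b1 b2 ε G) : ¬ Col (G * b1, G * b2) (α, 0) (b1, b2) := by
  intro h
  unfold Col at h
  simp only at h
  have : b2 * α * (G - 1) = 0 := by linear_combination -h
  rcases mul_eq_zero.mp this with h | h
  · rcases mul_eq_zero.mp h with h | h
    · exact F.hb2 h
    · exact F.hα h
  · exact F.hG1 (by linarith)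

theorem col_geb (F : FP R B α b1 b2 ε G) : ¬ Col (G * b1, G * b2) (ε, 0) (b1, b2) := by
  intro h
  unfold Col at h
  simp only at h
  have : b2 * ε * (G - 1) = 0 := by linear_combination -h
  rcases mul_eq_zero.mp this with h | h
  · rcases mul_eq_zero.mp h with h | h
    · exact F.hb2 h
    · exact F.hε h
  · exact F.hG1 (by linarith)

theorem col_gae (F : FP R B α b1 b2 ε G) : ¬ Col (G * b1, G * b2) (α, 0) (ε, 0) := by
  intro h
  unfold Col at h
  simp only at h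
  have : G * b2 * (ε - α) = 0 := by linear_combination h
  rcases mul_eq_zero.mp this with h | h
  · exact mul_ne_zero F.hG0 F.hb2 h
  · exact F.hαε (by linarith)

theorem col_abe (F : FP R B α b1 b2 ε G) : ¬ Col (α, 0) (b1, b2) (ε, 0) := by
  intro h
  unfold Col at h
  simp only at h
  have : b2 * (ε - α) = 0 := by linear_combination -h
  rcases mul_eq_zero.mp this with h | h
  · exact F.hb2 h
  · exact F.hαε (by linarith)

theorem par_ge_be (F : FP R B α b1 b2 ε G) : ¬ Par (G * b1, G * b2) (ε, 0) (b1, b2) (ε, 0) := by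
  intro h
  unfold Par at h
  simp only at h
  have : b2 * ε * (G - 1) = 0 := by linear_combination h
  rcases mul_eq_zero.mp this with h | h
  · rcases mul_eq_zero.mp h with h | h
    · exact F.hb2 h
    · exact F.hε h
  · exact F.hG1 (by linarith)

theorem par_ga_be (F : FP R B α b1 b2 ε G) : ¬ Par (G * b1, G * b2) (α, 0) (b1, b2) (ε, 0) := by
  intro h
  unfold Par at h
  simp only at h
  have : b2 * (G * ε - α) = 0 := by linear_combination h
  rcases mul_eq_zero.mp this with h | h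
  · exact F.hb2 h
  · exact F.hGε (by linarith)

/-- leaf `lemB0` with `{L, M} = {g a, g e}`, `N = b e` -/
theorem winB (F : FP R B α b1 b2 ε G) {z z' : ℤ} (hz : (z = α ∧ z' = ε) ∨ (z = ε ∧ z' = α))
    {p q Y : Pt} (hLU : Uncov R B (G * b1, G * b2) (z, 0)) (hpq : p ≠ q)
    (hY : Col (G * b1, G * b2) (z', 0) Y) (hYm : Col p q Y) (hYR : Y ∉ R)
    (hmR : ∀ w ∈ R, ¬ Col p q w)
    (hMU : ∀ w, Col (G * b1, G * b2) (z', 0) w → w ∉ R → ∀ u ∈ B, ∀ v ∈ B, u ≠ v → Col u v w →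
      (∃ r ∈ R, Col u v r) ∨ (Col p q u ∧ Col p q v))
    (hLm : ¬ Par (G * b1, G * b2) (z, 0) p q) (hNm : ¬ Par (b1, b2) (ε, 0) p q)
    (hparL : ∀ u ∈ B, ∀ v ∈ B, u ≠ v → Par (G * b1, G * b2) (z, 0) u v → ∃ r ∈ R, Col u v r)
    (hparM : ∀ u ∈ B, ∀ v ∈ B, u ≠ v → Par (G * b1, G * b2) (z', 0) u v → ∃ r ∈ R, Col u v r)
    (hparm : ∀ u ∈ B, ∀ v ∈ B, u ≠ v → Par p q u v → (∃ r ∈ R, Col u v r) ∨ Col p q u) :
    Win R B := by
  have gR := F.hga.1
  have aR := F.hga.2.1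
  have eR := F.hge.2.1
  have bR := F.hbe.1
  have hL : ALine R B (G * b1, G * b2) (z, 0) := by
    rcases hz with ⟨h, _⟩ | ⟨h, _⟩ <;> rw [h]
    · exact F.hga
    · exact F.hge
  have hM : ALine R B (G * b1, G * b2) (z', 0) := by
    rcases hz with ⟨_, h⟩ | ⟨_, h⟩ <;> rw [h]
    · exact F.hge
    · exact F.hga
  have hLM : ¬ Col (G * b1, G * b2) (z, 0) (z', 0) := by
    rcases hz with ⟨h, h'⟩ | ⟨h, h'⟩ <;> rw [h, h']
    · exact F.col_gae
    · exact fun hc => F.col_gae hc.swap23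
  have hbz : ∀ x : ℤ, ((b1, b2) : Pt) ≠ (x, 0) := fun x h => F.hb2 (congrArg Prod.snd h)
  -- common points of `M` and `N`
  by_cases hx : ∃ w, Col (G * b1, G * b2) (z', 0) w ∧ Col (b1, b2) (ε, 0) w ∧ w ∉ R
  · obtain ⟨w, hw1, hw2, hwR⟩ := hx
    refine win_double hM F.hbe hwR (fun h => hM.2.2.2 w h hw1) hw1 hw2
      (F.hN.mono (Finset.subset_insert _ _) (Finset.Subset.refl _)) ?_
    rintro ⟨h1, h2⟩
    rcases hz with ⟨h, h'⟩ | ⟨h, h'⟩
    · rw [h'] at h1; exact F.col_geb h1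
    · rw [h'] at h1; exact F.col_gab h1
  have hMNR : ∀ w, Col (G * b1, G * b2) (z', 0) w → Col (b1, b2) (ε, 0) w → w ∈ R := by
    intro w h1 h2
    by_contra h3
    exact hx ⟨w, h1, h2, h3⟩
  refine lemB0 (o := (G * b1, G * b2)) (a := (z, 0)) (b := (z', 0)) (v0 := (b1, b2))
    (r := (ε, 0)) (p := p) (q := q) (Y := Y) (x0 := (α, 0)) (x1 := (b1, b2))
    (x2 := (ε, 0)) (x3 := (G * b1, G * b2)) (xl := (b1, b2)) (xg := (b1, b2))
    (xg' := (z, 0)) F.hN F.hB hL hLU hM F.hbe hMNR hpq hY hYm hYR hmR hMU hLM ?_ ?_ hLm hNm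
    aR bR eR gR F.col_abe (fun h => F.col_gab h.rot.rot)
    (fun h => F.col_gae h.rot.rot) (fun h => F.col_geb (h.rot.rot).swap23) bR ?_ (hbz _)
    (fun u hu v hv huv h => Or.inl (hparL u hu v hv huv h)) (by simp) ?_ ?_ ?_ (Ne.symm (hbz _))
    (fun u hu v hv huv h => Or.inl (hparM u hu v hv huv h)) hparm
  · rcases hz with ⟨h, _⟩ | ⟨h, _⟩ <;> rw [h]
    · exact F.par_ga_be
    · exact F.par_ge_be
  · rcases hz with ⟨_, h⟩ | ⟨_, h⟩ <;> rw [h]
    · exact F.par_ge_be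
    · exact F.par_ga_be
  · rcases hz with ⟨h, _⟩ | ⟨h, _⟩ <;> rw [h]
    · exact F.col_gab
    · exact F.col_geb
  · rcases hz with ⟨h, _⟩ | ⟨h, _⟩ <;> rw [h] <;> simp
  · rcases hz with ⟨_, h⟩ | ⟨_, h⟩ <;> rw [h]
    · exact F.col_geb
    · exact F.col_gab
  · intro h; exact hLM h.swap23

/-- both `g a`, `g e` uncovered -/
theorem win2 (F : FP R B α b1 b2 ε G) (hUa : Uncov R B (G * b1, G * b2) (α, 0))
    (hUe : Uncov R B (G * b1, G * b2) (ε, 0))
    (hpar : ∀ u ∈ B, ∀ v ∈ B, u ≠ v → Par (G * b1, G * b2) (α, 0) u v → ∃ r ∈ R, Col u v r) :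
    Win R B := by
  refine two_connected (x0 := (α, 0)) (x1 := (G * b1, G * b2)) (x2 := (ε, 0)) (x3 := (b1, b2))
    (w := (b1, b2)) F.hN F.hga.symm hUa.symm F.hge F.hbe.symm
    (fun h => F.col_gae h.swap12) (fun h => F.col_geb h) (Or.inl hUe) F.hbe.1
    (fun h => F.hB _ h F.hbe.1) (fun h => F.col_gab h.swap12)
    (fun h => F.hb2 (congrArg Prod.snd h)) ?_
  intro c _ u hu v hv huv h
  exact Or.inl (hpar u hu v hv huv h.swap_left)

end FP

end Pool.Agent.K4L
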