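import Pool.Agent.K4L.K3UG1T

/-!
# K3U, case gamma1: the conditions on `ε = α p` hold for all but finitely many primes `p`
-/

namespace Pool.Agent.K4L

open Filter

/-- a prime of large absolute value does not divide a nonzero integer -/
theorem not_dvd_of_abs_lt {p n : ℤ} (hn : n ≠ 0) (h : |n| < |p|) : ¬ p ∣ n := by
  rintro ⟨q, rfl⟩
  have hq : q ≠ 0 := by rintro rfl; exact hn (mul_zero p)
  have h1 : 1 ≤ |q| := Int.one_le_abs hq
  rw [abs_mul] at h
  nlinarith [abs_nonneg p]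

theorem ev_G1N {B : Finset Pt} {α b1 b2 : ℤ} (hα : α ≠ 0) (hb2 : b2 ≠ 0)
    (hD : ∀ β ∈ B, DX b1 b2 β ≠ 0) (hy : ∀ β ∈ B, β.2 ≠ 0)
    (hX : ∀ β ∈ B, ∀ β' ∈ B, β ≠ β' → DX b1 b2 β ≠ DX b1 b2 β') :
    ∀ᶠ p : ℤ in cofinite, Prime p → G1N B α b1 b2 (α * p) p := by
  have e1 : ∀ᶠ p : ℤ in cofinite, |α| < |p| := ev_abs _
  have e2 : ∀ᶠ p : ℤ in cofinite, 1 < |p| := ev_abs _
  have e3 : ∀ᶠ p : ℤ in cofinite, ∀ β ∈ B, |DX b1 b2 β| < |p| := ev_fin B (fun _ _ => ev_abs _)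
  have e4 : ∀ᶠ p : ℤ in cofinite, ∀ β ∈ B, ∀ β' ∈ B, β ≠ β' →
      (α * b2 * (β.2 - β'.2)) * p + (- DX b1 b2 β' * β.2 + DX b1 b2 β * β'.2) ≠ 0 := by
    refine ev_fin2 B B ?_
    intro β hβ β' hβ'
    by_cases hne : β = β'
    · exact Filter.Eventually.of_forall (fun p h => absurd hne h)
    · have : ∀ᶠ p : ℤ in cofinite,
          (α * b2 * (β.2 - β'.2)) * p + (- DX b1 b2 β' * β.2 + DX b1 b2 β * β'.2) ≠ 0 := by
        apply ev_linne
        by_cases h : β.2 = β'.2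
        · right
          rw [h]
          intro h'
          have h2 : (DX b1 b2 β - DX b1 b2 β') * β'.2 = 0 := by linear_combination h'
          rcases mul_eq_zero.mp h2 with h3 | h3
          · exact hX β hβ β' hβ' hne (by linarith)
          · exact hy β' hβ' h3
        · left
          exact mul_ne_zero (mul_ne_zero hα hb2) (sub_ne_zero.mpr h)
      filter_upwards [this] with p h _
      exact h
  have e5 : ∀ᶠ p : ℤ in cofinite, ∀ β ∈ B, ∀ β' ∈ B,
      |DX b1 b2 β * (α * b2 - DX b1 b2 β')| <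
        |(-(b2 * α * DX b1 b2 β')) * p + b2 * α * DX b1 b2 β| := by
    refine ev_fin2 B B ?_
    intro β hβ β' hβ'
    exact ev_linC _ _ _ (neg_ne_zero.mpr (mul_ne_zero (mul_ne_zero hb2 hα) (hD β' hβ')))
  have e6 : ∀ᶠ p : ℤ in cofinite, ∀ β ∈ B, ∀ β' ∈ B,
      (α * (α * b2 * (β.2 - β'.2) - DX b1 b2 β' * β.2)) * p + α * DX b1 b2 β * β'.2 ≠ 0 := by
    refine ev_fin2 B B ?_
    intro β hβ β' hβ'
    apply ev_linne
    right
    exact mul_ne_zero (mul_ne_zero hα (hD β hβ)) (hy β' hβ')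
  have e7 : ∀ᶠ p : ℤ in cofinite, ∀ β ∈ B, |DX b1 b2 β| * (1 + 2 * |α|) < |α * p + 0| := by
    refine ev_fin B ?_
    intro β _
    exact ev_linC _ _ _ hα
  filter_upwards [e1, e2, e3, e4, e5, e6, e7] with p h1 h2 h3 h4 h5 h6 h7 hp
  refine ⟨hp, rfl, not_dvd_of_abs_lt hα h1, ?_, ?_, hX, ?_, ?_, ?_, ?_⟩
  · intro h
    have : α * (p - 1) = 0 := by linarith
    rcases mul_eq_zero.mp this with h' | h'
    · exact hα h'
    · have : p = 1 := by linarith
      rw [this] at h2; simp at h2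
  · intro β hβ
    exact not_dvd_of_abs_lt (hD β hβ) (h3 β hβ)
  · intro β hβ β' hβ' hne h
    exact h4 β hβ β' hβ' hne (by linear_combination h)
  · intro β hβ β' hβ'
    have h := h5 β hβ β' hβ'
    have e : (-(b2 * α * DX b1 b2 β')) * p + b2 * α * DX b1 b2 β =
      b2 * (α * DX b1 b2 β - α * p * DX b1 b2 β') := by ring
    rw [e] at h
    exact h
  · intro β hβ β' hβ' h
    exact h6 β hβ β' hβ' (by linear_combination h)
  · intro β hβ
    have h := h7 β hβ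
    rw [add_zero] at h
    exact h

end Pool.Agent.K4L
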