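import Pool.Agent.K4L.K3UG1

/-!
# K3U, case gamma1: the leaves, main theorem
-/

namespace Pool.Agent.K4L

open Filter

/-- the conditions on `G` -/
structure G1G (S B1 : Finset Pt) (α b1 b2 ε τ C0 G : ℤ) : Prop where
  bl1 : ∀ β ∈ B1, ∀ β' ∈ B1, blC (ε * b2 * (DX b1 b2 β - DX b1 b2 β'))
    (DX b1 b2 β' * (ε * b2 - DX b1 b2 β)) (-(DX b1 b2 β * (ε * b2 - DX b1 b2 β'))) 0
    (ε * ε * b2 * (β.2 - β'.2)) (-(ε * DX b1 b2 β' * β.2)) (ε * DX b1 b2 β * β'.2) 0 < |G|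
  bl2 : ∀ β ∈ B1, ∀ β' ∈ B1, blC (b2 * (α * DX b1 b2 β - ε * DX b1 b2 β'))
    (DX b1 b2 β' * (ε * b2 - DX b1 b2 β)) (-(DX b1 b2 β * (α * b2 - DX b1 b2 β'))) 0
    (α * ε * b2 * (β.2 - β'.2)) (-(ε * DX b1 b2 β' * β.2)) (α * DX b1 b2 β * β'.2) 0 < |G|
  bl3 : ∀ β' ∈ B1, ∀ _β ∈ B1, blC (b2 * (α * (τ * b2) - ε * DX b1 b2 β'))
    (DX b1 b2 β' * (ε * b2 - τ * b2))
    (-(τ * b2 * (α * b2 - DX b1 b2 β'))) 0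
    (α * ε * b2 * (0 - β'.2)) (-(ε * DX b1 b2 β' * 0)) (α * (τ * b2) * β'.2) 0 < |G|
  bl6 : ∀ β ∈ B1, ∀ β' ∈ B1, blC (α * b2 * (DX b1 b2 β - DX b1 b2 β'))
    (DX b1 b2 β' * (α * b2 - DX b1 b2 β)) (-(DX b1 b2 β * (α * b2 - DX b1 b2 β'))) 0
    (α * α * b2 * (β.2 - β'.2)) (-(α * DX b1 b2 β' * β.2)) (α * DX b1 b2 β * β'.2) 0 < |G|
  gp : ∀ z : ℤ, (z = α ∨ z = ε) → ∀ u ∈ B1, ∀ v ∈ B1,
    |(v.2 - u.2) * (z * b2)| * (1 + |(DX b1 b2 v - DX b1 b2 u) * b2|) +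
      |DX b1 b2 v * u.2 - DX b1 b2 u * v.2| < |G|
  gA5 : ∀ β ∈ B1, ∀ β' ∈ B1, |α * ε * b2 * (β.2 - β'.2)| *
    (1 + |DX b1 b2 β' * (DX b1 b2 β - α * b2)|) + |α * DX b1 b2 β' * β.2| < |G|
  gY : ∀ β ∈ B1, |β.2| < |G|
  gpar : ∀ z : ℤ, (z = α ∨ z = ε) → ∀ u ∈ B1, ∀ v ∈ B1, |z * (v.2 - u.2)| < |G|
  gnear : ∀ z : ℤ, (z = α ∨ z = ε) → ∀ β ∈ B1,
    |z * b2| * (C0 + |β.2|) * (1 + |DX b1 b2 β * b2|) + C0 * |DX b1 b2 β| < |G|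
  gal : ∀ z : ℤ, (z = α ∨ z = ε) → ∀ β ∈ B1, |z * β.2| < |G|
  gS : ∀ w ∈ S, b2 * G + 0 ≠ w.2
  g0 : G ≠ 0
  g1 : G ≠ 1
  gε : G * ε ≠ α

theorem ev_G1G (S B1 : Finset Pt) (α b1 b2 ε τ C0 : ℤ) (hb2 : b2 ≠ 0) (hε : ε ≠ 0) :
    ∀ᶠ G : ℤ in cofinite, G1G S B1 α b1 b2 ε τ C0 G := by
  have two : ∀ {P : ℤ → ℤ → Prop}, (∀ z, ∀ᶠ G : ℤ in cofinite, P z G) →
      ∀ᶠ G : ℤ in cofinite, ∀ z : ℤ, (z = α ∨ z = ε) → P z G := by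
    intro P h
    filter_upwards [h α, h ε] with G h1 h2 z hz
    rcases hz with rfl | rfl
    · exact h1
    · exact h2
  have e1 : ∀ᶠ G : ℤ in cofinite, G ≠ 0 := by
    have := ev_linne 1 0 0 (Or.inl one_ne_zero)
    filter_upwards [this] with G hG
    simpa using hG
  have e2 : ∀ᶠ G : ℤ in cofinite, G ≠ 1 := by
    have := ev_linne 1 0 1 (Or.inl one_ne_zero)
    filter_upwards [this] with G hG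
    simpa using hG
  have e3 : ∀ᶠ G : ℤ in cofinite, G * ε ≠ α := by
    have := ev_linne ε 0 α (Or.inl hε)
    filter_upwards [this] with G hG h
    apply hG
    rw [add_zero, mul_comm]; exact h
  have q1 : ∀ᶠ G : ℤ in cofinite, ∀ β ∈ B1, ∀ β' ∈ B1,
      blC (ε * b2 * (DX b1 b2 β - DX b1 b2 β'))
      (DX b1 b2 β' * (ε * b2 - DX b1 b2 β)) (-(DX b1 b2 β * (ε * b2 - DX b1 b2 β'))) 0
      (ε * ε * b2 * (β.2 - β'.2)) (-(ε * DX b1 b2 β' * β.2)) (ε * DX b1 b2 β * β'.2) 0 < |G| :=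
    ev_fin2 B1 B1 (fun _ _ _ _ => ev_abs _)
  have q2 : ∀ᶠ G : ℤ in cofinite, ∀ β ∈ B1, ∀ β' ∈ B1,
      blC (b2 * (α * DX b1 b2 β - ε * DX b1 b2 β'))
      (DX b1 b2 β' * (ε * b2 - DX b1 b2 β)) (-(DX b1 b2 β * (α * b2 - DX b1 b2 β'))) 0
      (α * ε * b2 * (β.2 - β'.2)) (-(ε * DX b1 b2 β' * β.2)) (α * DX b1 b2 β * β'.2) 0 < |G| :=
    ev_fin2 B1 B1 (fun _ _ _ _ => ev_abs _)
  have q3 : ∀ᶠ G : ℤ in cofinite, ∀ β' ∈ B1, ∀ _β ∈ B1,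
      blC (b2 * (α * (τ * b2) - ε * DX b1 b2 β')) (DX b1 b2 β' * (ε * b2 - τ * b2))
      (-(τ * b2 * (α * b2 - DX b1 b2 β'))) 0
      (α * ε * b2 * (0 - β'.2)) (-(ε * DX b1 b2 β' * 0)) (α * (τ * b2) * β'.2) 0 < |G| :=
    ev_fin2 B1 B1 (fun _ _ _ _ => ev_abs _)
  have q6 : ∀ᶠ G : ℤ in cofinite, ∀ β ∈ B1, ∀ β' ∈ B1,
      blC (α * b2 * (DX b1 b2 β - DX b1 b2 β'))
      (DX b1 b2 β' * (α * b2 - DX b1 b2 β)) (-(DX b1 b2 β * (α * b2 - DX b1 b2 β'))) 0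
      (α * α * b2 * (β.2 - β'.2)) (-(α * DX b1 b2 β' * β.2)) (α * DX b1 b2 β * β'.2) 0 < |G| :=
    ev_fin2 B1 B1 (fun _ _ _ _ => ev_abs _)
  have q7 : ∀ᶠ G : ℤ in cofinite, ∀ z : ℤ, (z = α ∨ z = ε) → ∀ u ∈ B1, ∀ v ∈ B1,
      |(v.2 - u.2) * (z * b2)| * (1 + |(DX b1 b2 v - DX b1 b2 u) * b2|) +
      |DX b1 b2 v * u.2 - DX b1 b2 u * v.2| < |G| :=
    two (fun z => ev_fin2 B1 B1 (fun _ _ _ _ => ev_abs _))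
  have q8 : ∀ᶠ G : ℤ in cofinite, ∀ β ∈ B1, ∀ β' ∈ B1, |α * ε * b2 * (β.2 - β'.2)| *
      (1 + |DX b1 b2 β' * (DX b1 b2 β - α * b2)|) + |α * DX b1 b2 β' * β.2| < |G| :=
    ev_fin2 B1 B1 (fun _ _ _ _ => ev_abs _)
  have q9 : ∀ᶠ G : ℤ in cofinite, ∀ β ∈ B1, |β.2| < |G| := ev_fin B1 (fun _ _ => ev_abs _)
  have q10 : ∀ᶠ G : ℤ in cofinite, ∀ z : ℤ, (z = α ∨ z = ε) → ∀ u ∈ B1, ∀ v ∈ B1,
      |z * (v.2 - u.2)| < |G| := two (fun z => ev_fin2 B1 B1 (fun _ _ _ _ => ev_abs _))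
  have q11 : ∀ᶠ G : ℤ in cofinite, ∀ z : ℤ, (z = α ∨ z = ε) → ∀ β ∈ B1,
      |z * b2| * (C0 + |β.2|) * (1 + |DX b1 b2 β * b2|) + C0 * |DX b1 b2 β| < |G| :=
    two (fun z => ev_fin B1 (fun _ _ => ev_abs _))
  have q12 : ∀ᶠ G : ℤ in cofinite, ∀ z : ℤ, (z = α ∨ z = ε) → ∀ β ∈ B1, |z * β.2| < |G| :=
    two (fun z => ev_fin B1 (fun _ _ => ev_abs _))
  have q13 : ∀ᶠ G : ℤ in cofinite, ∀ w ∈ S, b2 * G + 0 ≠ w.2 :=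
    ev_fin S (fun w _ => ev_linne b2 0 w.2 (Or.inl hb2))
  filter_upwards [q1, q2, q3, q6, q7, q8, q9, q10, q11, q12, q13, e1, e2, e3] with G h1 h2 h3 h6
    h7 h8 h9 h10 h11 h12 h13 g1 g2 g3
  exact ⟨h1, h2, h3, h6, h7, h8, h9, h10, h11, h12, h13, g1, g2, g3⟩

end Pool.Agent.K4L
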