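import Pool.Agent.K4L.K3UG1M

/-!
# K3U, case gamma1: all leaves
-/

namespace Pool.Agent.K4L

open Filter

/-- the constant `C0` (near `t2`) -/
theorem exists_C0 (B1 : Finset Pt) (b1 b2 : ℤ) : ∃ C0 : ℤ, 0 ≤ C0 ∧ ∀ β ∈ B1, ∀ u ∈ B1, ∀ v ∈ B1,
    |β.2| + |DX b1 b2 β * (v.2 - u.2)| ≤ C0 := by
  obtain ⟨K, h0, h⟩ := exists_bd3 B1 (fun β u v => |β.2| + |DX b1 b2 β * (v.2 - u.2)|)
  refine ⟨K, h0, fun β hβ u hu v hv => ?_⟩
  have := h β hβ u hu v hv
  rwa [abs_of_nonneg (by positivity)] at this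

/-- the constant `K0` -/
theorem exists_K0 (B1 : Finset Pt) (α b1 b2 ε τ : ℤ) : ∃ K0 : ℤ, 0 ≤ K0 ∧
    (∀ β ∈ B1, |τ * (α * b2 - DX b1 b2 β)| ≤ K0) ∧ |(τ - α) * (ε - τ)| + |τ - α| ≤ K0 ∧
    |τ - α| ≤ K0 ∧
    ∀ β ∈ B1, ∀ β' ∈ B1, |DX b1 b2 β * (α * b2 - DX b1 b2 β')| *
      (1 + |DX b1 b2 β' * (α * b2 - DX b1 b2 β)|) ≤ K0 := by
  obtain ⟨K1, h10, h1⟩ := exists_bd2 B1 (fun β _ => τ * (α * b2 - DX b1 b2 β))
  obtain ⟨K2, h20, h2⟩ := exists_bd2 B1 (fun β β' => |DX b1 b2 β * (α * b2 - DX b1 b2 β')| *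
      (1 + |DX b1 b2 β' * (α * b2 - DX b1 b2 β)|))
  have p1 : 0 ≤ |(τ - α) * (ε - τ)| := abs_nonneg _
  have p2 : 0 ≤ |τ - α| := abs_nonneg _
  refine ⟨K1 + K2 + (|(τ - α) * (ε - τ)| + |τ - α|), by linarith, ?_, by linarith, by linarith,
    ?_⟩
  · intro β hβ
    have := h1 β hβ β hβ
    linarith
  · intro β hβ β' hβ'
    have := h2 β hβ β' hβ'
    rw [abs_of_nonneg (by positivity)] at this
    linarith

/-- gamma1, all leaves. After `e = (ε, 0)`, `t = (τ, 0)`, `g = G b`, `t2`: Red wins, or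
(P) `g e` is hit only by `t2 t`, at a bounded index, or
(F) `g e` is uncovered, and `g a` is hit at a bounded index by some `t2 β` or is parallel to some
`t2 β`. -/
theorem k3u_g1 {R B : Finset Pt} {α b1 b2 ε p τ : ℤ} (K : K3C R B α b1 b2)
    (N : G1N B α b1 b2 ε p) (hτp : ¬ p ∣ b2 * τ) (hτX : ∀ β ∈ B, DX b1 b2 β ≠ b2 * τ)
    (htR : ((τ, 0) : Pt) ∉ insert ((ε, 0) : Pt) R) (htB : ((τ, 0) : Pt) ∉ B)
    (hN1 : NoThreat (insert (ε, 0) R) (insert (τ, 0) B))
    (hcbU : Uncov (insert (ε, 0) R) (insert (τ, 0) B) (0, 0) (b1, b2))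
    (hbe : ALine (insert (ε, 0) R) (insert (τ, 0) B) (b1, b2) (ε, 0)) :
    ∃ K0 : ℤ, ∀ᶠ G : ℤ in cofinite, IsCoprime (G * b1 - α) (G * b2) →
      IsCoprime (G * b1 - ε) (G * b2) →
      (∀ β ∈ B, ¬ p ∣ G * (α * b2 - DX b1 b2 β) - α * β.2) →
      ∀ t2, Col (0, 0) (b1, b2) t2 → t2 ∉ insert ((G * b1, G * b2) : Pt) (insert (ε, 0) R) →
        t2 ∉ insert ((τ, 0) : Pt) B →
        Win (insert (G * b1, G * b2) (insert (ε, 0) R)) (insert t2 (insert (τ, 0) B)) ∨
        ((∀ z, Col (G * b1, G * b2) (ε, 0) z →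
            z ∉ insert ((G * b1, G * b2) : Pt) (insert (ε, 0) R) →
            ∀ u ∈ insert t2 (insert ((τ, 0) : Pt) B), ∀ v ∈ insert t2 (insert ((τ, 0) : Pt) B),
            u ≠ v → Col u v z → (∃ r ∈ insert ((G * b1, G * b2) : Pt) (insert (ε, 0) R),
              Col u v r) ∨ (Col t2 (τ, 0) u ∧ Col t2 (τ, 0) v)) ∧
          (∀ r ∈ insert ((G * b1, G * b2) : Pt) (insert (ε, 0) R), ¬ Col t2 (τ, 0) r) ∧
          ∃ k, k ≠ 0 ∧ k ≠ 1 ∧ |k| ≤ K0 ∧ HE b2 ε G t2.2 (τ * b2) 0 k) ∨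
        (Uncov (insert (G * b1, G * b2) (insert (ε, 0) R)) (insert t2 (insert (τ, 0) B))
            (G * b1, G * b2) (ε, 0) ∧
          ((∃ β ∈ insert ((τ, 0) : Pt) B, ∃ j, j ≠ 0 ∧ j ≠ 1 ∧ |j| ≤ K0 ∧
            HE b2 α G t2.2 (DX b1 b2 β) β.2 j) ∨
          ∃ β ∈ insert ((τ, 0) : Pt) B, α * (t2.2 - β.2) = G * DX b1 b2 β)) := by
  classical
  have hb2 := K.hb2
  have hα := K.hα
  have hp := N.hp
  have hpε : p ∣ ε := ⟨α, by rw [N.hε]; ring⟩
  have hε0 : ε ≠ 0 := by rw [N.hε]; exact mul_ne_zero hα hp.ne_zero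
  have hpb : ¬ p ∣ b2 := fun h => hτp (Dvd.dvd.mul_right h _)
  have hpτ : ¬ p ∣ τ := fun h => hτp (Dvd.dvd.mul_left h _)
  obtain ⟨B1, hB1⟩ : ∃ B1 : Finset Pt, B1 = insert ((τ, 0) : Pt) B := ⟨_, rfl⟩
  obtain ⟨R1, hR1⟩ : ∃ R1 : Finset Pt, R1 = insert ((ε, 0) : Pt) R := ⟨_, rfl⟩
  have hD : ∀ β ∈ B, DX b1 b2 β ≠ 0 := fun β hβ => K.hD β hβ
  have Dt : DX b1 b2 (τ, 0) = τ * b2 := by unfold DX; simp only; ring
  have tB1 : ((τ, 0) : Pt) ∈ B1 := by rw [hB1]; exact Finset.mem_insert_self _ _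
  have cas : ∀ β ∈ B1, β = (τ, 0) ∨ β ∈ B := by
    intro β hβ; rw [hB1] at hβ; exact Finset.mem_insert.mp hβ
  have htau0 : τ ≠ 0 := by rintro rfl; exact htR (Finset.mem_insert_of_mem K.cR)
  have htaua : τ ≠ α := by rintro rfl; exact htR (Finset.mem_insert_of_mem K.aR)
  have htau : τ ≠ ε := by rintro rfl; exact htR (Finset.mem_insert_self _ _)
  -- uniform facts on `B1`
  have hp1 : ∀ β ∈ B1, ¬ p ∣ DX b1 b2 β := by
    intro β hβ
    rcases cas β hβ with rfl | h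
    · rw [Dt, mul_comm]; exact hτp
    · exact N.hpX β h
  have hD1 : ∀ β ∈ B1, DX b1 b2 β ≠ 0 := fun β hβ h => hp1 β hβ (h ▸ dvd_zero p)
  have hX1 : ∀ β ∈ B1, ∀ β' ∈ B1, β ≠ β' → DX b1 b2 β ≠ DX b1 b2 β' := by
    intro β hβ β' hβ' hne
    rcases cas β hβ with h | h <;> rcases cas β' hβ' with h' | h'
    · exact absurd (h.trans h'.symm) hne
    · rw [h, Dt, mul_comm]; exact (hτX β' h').symm
    · rw [h', Dt, mul_comm]; exact hτX β h
    · exact N.hX β h β' h' hne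
  have hQ1 : ∀ β ∈ B1, ∀ β' ∈ B1, β ≠ β' →
      ε * b2 * (β.2 - β'.2) - DX b1 b2 β' * β.2 + DX b1 b2 β * β'.2 ≠ 0 := by
    intro β hβ β' hβ' hne
    rcases cas β hβ with h | h <;> rcases cas β' hβ' with h' | h'
    · exact absurd (h.trans h'.symm) hne
    · rw [h, Dt]
      simp only
      intro h0
      have : b2 * β'.2 * (τ - ε) = 0 := by linear_combination h0
      rcases mul_eq_zero.mp this with h1 | h1
      · exact mul_ne_zero hb2 (K.hy β' h') h1
      · exact htau (by linarith)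
    · rw [h', Dt]
      simp only
      intro h0
      have : b2 * β.2 * (ε - τ) = 0 := by linear_combination h0
      rcases mul_eq_zero.mp this with h1 | h1
      · exact mul_ne_zero hb2 (K.hy β h) h1
      · exact htau (by linarith)
    · exact N.hQ β h β' h' hne
  have hs1 : ∀ β ∈ B, ∀ β' ∈ B1, |DX b1 b2 β * (α * b2 - DX b1 b2 β')| <
      |b2 * (α * DX b1 b2 β - ε * DX b1 b2 β')| := by
    intro β hβ β' hβ'
    rcases cas β' hβ' with h' | h'
    · rw [h', Dt]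
      obtain ⟨X, hX⟩ : ∃ X, X = DX b1 b2 β := ⟨_, rfl⟩
      have h1 := N.hst β hβ
      rw [← hX] at h1 ⊢
      have e1 : X * (α * b2 - τ * b2) = b2 * (X * (α - τ)) := by ring
      have e2 : b2 * (α * X - ε * (τ * b2)) = b2 * (α * X - ε * (τ * b2)) := rfl
      rw [e1, abs_mul, abs_mul b2]
      apply mul_lt_mul_of_pos_left _ (abs_pos.mpr hb2)
      have ht1 : 1 ≤ |τ| := Int.one_le_abs htau0
      have hb1 : 1 ≤ |b2| := Int.one_le_abs hb2
      have a1 : |X * (α - τ)| ≤ |X| * (|α| + |τ|) := by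
        rw [abs_mul]
        exact mul_le_mul_of_nonneg_left (abs_sub _ _) (abs_nonneg _)
      have a2 : |ε * (τ * b2)| ≤ |α * X - ε * (τ * b2)| + |α * X| := by
        have := abs_sub (α * X - ε * (τ * b2)) (α * X)
        have e3 : α * X - ε * (τ * b2) - α * X = -(ε * (τ * b2)) := by ring
        rwa [e3, abs_neg] at this
      have a3 : |ε| * |τ| ≤ |ε * (τ * b2)| := by
        rw [abs_mul, abs_mul]
        exact mul_le_mul_of_nonneg_left (le_mul_of_one_le_right (abs_nonneg _) hb1)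
          (abs_nonneg _)
      have a4 : |X| * (1 + 2 * |α|) * |τ| < |ε| * |τ| :=
        mul_lt_mul_of_pos_right h1 (by linarith)
      have a5 : |X| * |α| ≤ |X| * |α| * |τ| := le_mul_of_one_le_right (by positivity) ht1
      rw [abs_mul α X] at a2
      nlinarith
    · exact N.hs β hβ β' h'
  have hW1 : ∀ β ∈ B, ∀ β' ∈ B1, α * DX b1 b2 β * β'.2 +
      ε * (α * b2 * (β.2 - β'.2) - DX b1 b2 β' * β.2) ≠ 0 := by
    intro β hβ β' hβ'
    rcases cas β' hβ' with h' | h'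
    · rw [h', Dt]
      simp only
      intro h0
      have : ε * (b2 * (β.2 * (α - τ))) = 0 := by linear_combination h0
      rcases mul_eq_zero.mp this with h1 | h1
      · exact hε0 h1
      rcases mul_eq_zero.mp h1 with h1 | h1
      · exact hb2 h1
      rcases mul_eq_zero.mp h1 with h1 | h1
      · exact K.hy β hβ h1
      · exact htaua (by linarith)
    · exact N.hW β hβ β' h'
  have hA5 : ∀ β ∈ B1, ∀ β' ∈ B1, b2 * (ε * DX b1 b2 β - α * DX b1 b2 β') ≠ 0 := by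
    intro β _ β' hβ' h
    rcases mul_eq_zero.mp h with h1 | h1
    · exact hb2 h1
    · apply hp1 β' hβ'
      refine ⟨DX b1 b2 β, ?_⟩
      apply mul_left_cancel₀ hα
      rw [N.hε] at h1
      linear_combination -h1
  obtain ⟨C0, hC00, hC0⟩ := exists_C0 B1 b1 b2
  obtain ⟨K0, hK00, hK1, hK2, hK3, hK4⟩ := exists_K0 B1 α b1 b2 ε τ
  refine ⟨K0, ?_⟩
  filter_upwards [ev_G1G (R1 ∪ B1) B1 α b1 b2 ε τ C0 hb2 hε0] with G D
  intro hca hce hcl t2 ht2c ht2R ht2B
  rw [← hR1] at ht2R ⊢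
  rw [← hB1] at ht2B ⊢
  have hG0 := D.g0
  have hGb : G * b2 ≠ 0 := mul_ne_zero hG0 hb2
  have hpG : ¬ p ∣ G := by
    intro h
    obtain ⟨u, v, huv⟩ := hce
    apply hp.not_unit
    apply isUnit_of_dvd_one
    rw [← huv]
    refine dvd_add (Dvd.dvd.mul_left (dvd_sub (Dvd.dvd.mul_right h _) hpε) _)
      (Dvd.dvd.mul_left (Dvd.dvd.mul_right h _) _)
  obtain ⟨R2, hR2⟩ : ∃ R2 : Finset Pt, R2 = insert ((G * b1, G * b2) : Pt) R1 := ⟨_, rfl⟩
  obtain ⟨B2, hB2⟩ : ∃ B2 : Finset Pt, B2 = insert t2 B1 := ⟨_, rfl⟩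
  have hs2 : t2.1 * b2 = t2.2 * b1 := by
    unfold Col at ht2c; simp only at ht2c; linear_combination -ht2c
  have gR : ((G * b1, G * b2) : Pt) ∈ R2 := by rw [hR2]; exact Finset.mem_insert_self _ _
  have eR : ((ε, 0) : Pt) ∈ R2 := by
    rw [hR2, hR1]; exact Finset.mem_insert_of_mem (Finset.mem_insert_self _ _)
  have aR : ((α, 0) : Pt) ∈ R2 := by
    rw [hR2, hR1]; exact Finset.mem_insert_of_mem (Finset.mem_insert_of_mem K.aR)
  have bR : ((b1, b2) : Pt) ∈ R2 := by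
    rw [hR2, hR1]; exact Finset.mem_insert_of_mem (Finset.mem_insert_of_mem K.bR)
  have t2B2 : t2 ∈ B2 := by rw [hB2]; exact Finset.mem_insert_self _ _
  have hgS : ∀ w ∈ R1 ∪ B1, ((G * b1, G * b2) : Pt) ≠ w := by
    intro w hw h
    apply D.gS w hw
    rw [← h]; ring
  have hN2 : NoThreat R2 B2 := by
    rw [hR2, hB2, hR1, hB1]
    rw [hR1] at ht2R
    rw [hB1] at ht2B
    exact hN1.of_uncov hcbU (Finset.subset_insert _ _) ht2c
      (fun h => ht2R (Finset.mem_insert_of_mem h)) ht2B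
  have hBR : ∀ β ∈ B2, β ∉ R2 := by
    rw [hR2, hB2]
    intro β hβ hR
    rcases Finset.mem_insert.mp hβ with hβ | hβ
    · rw [hβ] at hR; exact ht2R hR
    · rcases Finset.mem_insert.mp hR with hR | hR
      · exact hgS β (Finset.mem_union_right _ hβ) hR.symm
      · rcases cas β hβ with h | h
        · rw [h, hR1] at hR; exact htR hR
        · rw [hR1] at hR
          rcases Finset.mem_insert.mp hR with hR | hR
          · rw [hR] at h; exact K.hy _ h rfl
          · exact K.hB β h hR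
  have hrow0 : ∀ {x y : ℤ}, t2 = (x, y) → y * b1 = x * b2 → True := fun _ _ => trivial
  have ht2n : ∀ k : ℤ, ((k * b1, k * b2) : Pt) ∈ R2 → t2.2 ≠ k * b2 := by
    intro k hk h
    have h1 : t2.1 = k * b1 := by
      apply mul_right_cancel₀ hb2
      rw [hs2, h]; ring
    have h2 : t2 = (k * b1, k * b2) := Prod.ext h1 h
    exact hBR t2 t2B2 (by rw [h2]; exact hk)
  have ht20 : t2.2 ≠ 0 := by
    have := ht2n 0 (by simpa [hR2, hR1] using Or.inr (Or.inr K.cR))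
    rwa [zero_mul] at this
  have ht2b : t2.2 ≠ b2 := by
    have := ht2n 1 (by simpa using bR)
    rwa [one_mul] at this
  have ht2g : t2.2 ≠ G * b2 := ht2n G gR
  -- no blue stone on `g (z, 0)`
  have hgz : ∀ z : ℤ, (z = α ∨ z = ε) → ((z, 0) : Pt) ∈ R2 →
      ALine R2 B2 (G * b1, G * b2) (z, 0) := by
    intro z hz hzR
    have hz0 : z ≠ 0 := by rcases hz with rfl | rfl <;> assumption
    refine ⟨gR, hzR, fun h => hGb (congrArg Prod.snd h), ?_⟩
    intro w hw hc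
    rw [hB2] at hw
    unfold Col at hc
    simp only at hc
    rcases Finset.mem_insert.mp hw with rfl | hw
    · have : z * (w.2 - G * b2) = 0 := by linear_combination hc - G * hs2
      rcases mul_eq_zero.mp this with h | h
      · exact hz0 h
      · exact ht2g (by linarith)
    · have h1 := lin_large (x := DX b1 b2 w - z * b2) (D.gal z hz w hw)
        (by unfold DX; linear_combination hc)
      obtain ⟨h1, h2⟩ := h1
      rcases mul_eq_zero.mp h2 with h2 | h2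
      · exact hz0 h2
      · rcases cas w hw with h | h
        · rw [h, Dt] at h1
          have : b2 * (τ - z) = 0 := by linear_combination h1
          rcases mul_eq_zero.mp this with h3 | h3
          · exact hb2 h3
          · rcases hz with rfl | rfl
            · exact htaua (by linarith)
            · exact htau (by linarith)
        · exact K.hy w h h2
  have F : FP R2 B2 α b1 b2 ε G := by
    refine ⟨hN2, hBR, hα, hb2, hε0, N.hα1, hG0, D.g1, D.gε, hgz α (Or.inl rfl) aR,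
      hgz ε (Or.inr rfl) eR, bR, eR, fun h => hb2 (congrArg Prod.snd h), ?_⟩
    intro w hw hc
    rw [hB2] at hw
    rcases Finset.mem_insert.mp hw with rfl | hw
    · unfold Col at hc
      simp only at hc
      have : ε * (w.2 - b2) = 0 := by linear_combination hc - hs2
      rcases mul_eq_zero.mp this with h | h
      · exact hε0 h
      · exact ht2b (by linarith)
    · rw [hB1] at hw; exact hbe.2.2.2 w hw hc
  have hz0 : ∀ z : ℤ, (z = α ∨ z = ε) → z ≠ 0 := by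
    intro z hz; rcases hz with rfl | rfl <;> assumption
  -- the hits of `g (z, 0)`
  have hits : ∀ z : ℤ, (z = α ∨ z = ε) → ∀ w, Col (G * b1, G * b2) (z, 0) w → w ∉ R2 →
      ∀ u ∈ B2, ∀ v ∈ B2, u ≠ v → Col u v w → (∃ r ∈ R2, Col u v r) ∨
        ∃ β ∈ B1, ((u = t2 ∧ v = β) ∨ (u = β ∧ v = t2)) ∧
          ∃ k, k ≠ 0 ∧ k ≠ 1 ∧ HE b2 z G t2.2 (DX b1 b2 β) β.2 k := by
    intro z hz w hw hwR
    have hcop : IsCoprime (G * b1 - z) (G * b2) := by
      rcases hz with rfl | rfl <;> assumption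
    have hzR : ((z, 0) : Pt) ∈ R2 := by rcases hz with rfl | rfl <;> assumption
    obtain ⟨k, hk1, hk2⟩ := he_param (w1 := w.1) (w2 := w.2) hcop (by
      unfold Col at hw; simp only at hw; linear_combination hw)
    have hw' : w = (G * b1 + k * (z - G * b1), (1 - k) * (G * b2)) := Prod.ext hk1 hk2
    have hk0 : k ≠ 0 := by
      rintro rfl
      apply hwR
      rw [hw']
      have : ((G * b1 + 0 * (z - G * b1), (1 - 0) * (G * b2)) : Pt) = (G * b1, G * b2) :=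
        Prod.ext (by simp) (by simp)
      rw [this]; exact gR
    have hk1' : k ≠ 1 := by
      rintro rfl
      apply hwR
      rw [hw']
      have : ((G * b1 + 1 * (z - G * b1), (1 - 1) * (G * b2)) : Pt) = (z, 0) :=
        Prod.ext (by ring) (by ring)
      rw [this]; exact hzR
    rw [hB2]
    refine pair2 (B1 := B1) (t2 := t2) (P := fun u v => Col u v w → (∃ r ∈ R2, Col u v r) ∨
        ∃ β ∈ B1, ((u = t2 ∧ v = β) ∨ (u = β ∧ v = t2)) ∧
          ∃ k, k ≠ 0 ∧ k ≠ 1 ∧ HE b2 z G t2.2 (DX b1 b2 β) β.2 k) ?_ ?_ ?_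
    · intro u v h hc
      rcases h hc.swap12 with ⟨r, hr, h'⟩ | ⟨β, hβ, h1, h2⟩
      · exact Or.inl ⟨r, hr, h'.swap12⟩
      · refine Or.inr ⟨β, hβ, ?_, h2⟩
        rcases h1 with ⟨h1, h1'⟩ | ⟨h1, h1'⟩
        · exact Or.inr ⟨h1', h1⟩
        · exact Or.inl ⟨h1', h1⟩
    · intro u hu v hv huv hc
      exfalso
      apply hk1'
      rw [hw'] at hc
      exact g1_pair_hit hb2 (hX1 u hu v hv huv) (D.gp z hz u hu v hv) hc
    · intro β hβ hc
      rw [hw'] at hc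
      exact Or.inr ⟨β, hβ, Or.inl ⟨rfl, rfl⟩, k, hk0, hk1', he_of_hit hs2 hc⟩
  -- `t2` far
  have hfar : ∀ z : ℤ, (z = α ∨ z = ε) → ∀ β ∈ B1, ∀ k, k ≠ 1 →
      HE b2 z G t2.2 (DX b1 b2 β) β.2 k → C0 < |t2.2| := by
    intro z hz β hβ k hk h
    by_contra hn
    exact hk (he_near hb2 (hD1 β hβ) (not_lt.mp hn) (D.gnear z hz β hβ) h)
  have ht2B1 : ∀ β ∈ B1, t2 ≠ β := by
    intro β hβ h; rw [h] at ht2B; exact ht2B hβ
  -- parallels
  have pars : ∀ z : ℤ, (z = α ∨ z = ε) → (∀ β ∈ B1, z * (t2.2 - β.2) ≠ G * DX b1 b2 β) →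
      ∀ u ∈ B2, ∀ v ∈ B2, u ≠ v → Par (G * b1, G * b2) (z, 0) u v → ∃ r ∈ R2, Col u v r := by
    intro z hz hno
    rw [hB2]
    refine pair2 (B1 := B1) (t2 := t2) (P := fun u v => Par (G * b1, G * b2) (z, 0) u v →
      ∃ r ∈ R2, Col u v r) ?_ ?_ ?_
    · intro u v h hP
      obtain ⟨r, hr, h'⟩ := h hP.symm_right
      exact ⟨r, hr, h'.swap12⟩
    · intro u hu v hv huv hP
      exact (par_pair (hX1 u hu v hv huv) (D.gpar z hz u hu v hv) hP).elim
    · intro β hβ hP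
      exact absurd (par_t2 hs2 hP) (hno β hβ)
  have noparE : ∀ β ∈ B1, ε * (t2.2 - β.2) ≠ G * DX b1 b2 β := by
    intro β hβ h
    have h1 : p ∣ G * DX b1 b2 β := by rw [← h]; exact Dvd.dvd.mul_right hpε _
    rcases hp.dvd_or_dvd h1 with h2 | h2
    · exact hpG h2
    · exact hp1 β hβ h2
  have hNm : ∀ β ∈ B1, ¬ Par (b1, b2) (ε, 0) t2 β := by
    intro β hβ h
    unfold Par at h
    simp only at h
    apply hp1 β hβ
    obtain ⟨n, hn⟩ := hpε
    refine ⟨n * (t2.2 - β.2), ?_⟩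
    unfold DX
    rw [hn] at h
    linear_combination h + hs2
  have hparm : ∀ β ∈ B1, C0 < |t2.2| → ∀ u ∈ B2, ∀ v ∈ B2, u ≠ v → Par t2 β u v →
      (∃ r ∈ R2, Col u v r) ∨ Col t2 β u := by
    intro β hβ hf
    have main : ∀ u ∈ insert t2 B1, ∀ v ∈ insert t2 B1, u ≠ v → Par t2 β u v →
        Col t2 β u ∧ Col t2 β v := by
      refine pair2 (B1 := B1) (t2 := t2) (P := fun u v => Par t2 β u v →
        Col t2 β u ∧ Col t2 β v) ?_ ?_ ?_
      · intro u v h hP
        exact (h hP.symm_right).symm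
      · intro u hu v hv huv hP
        exfalso
        have h1 := par_m hs2 (hX1 u hu v hv huv) hP
        have h2 := hC0 β hβ u hu v hv
        linarith
      · intro β' _ hP
        exact ⟨Col.refl_left _ _, hP⟩
    intro u hu v hv huv hP
    rw [hB2] at hu hv
    exact Or.inr (main u hu v hv huv hP).1
  by_cases hUe : Uncov R2 B2 (G * b1, G * b2) (ε, 0)
  · -- `g e` uncovered
    by_cases hpr : ∃ β ∈ B1, α * (t2.2 - β.2) = G * DX b1 b2 β
    · right; right
      rw [← hR2, ← hB2]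
      exact ⟨hUe, Or.inr hpr⟩
    push Not at hpr
    by_cases hUa : Uncov R2 B2 (G * b1, G * b2) (α, 0)
    · left
      rw [← hR2, ← hB2]
      exact F.win2 hUa hUe (pars α (Or.inl rfl) hpr)
    -- a hit of `g a`
    obtain ⟨w0, hw0, hw0R, u0, hu0, v0, hv0, hne0, hc0, hr0⟩ : ∃ w, Col (G * b1, G * b2) (α, 0) w ∧
        w ∉ R2 ∧ ∃ u ∈ B2, ∃ v ∈ B2, u ≠ v ∧ Col u v w ∧ ∀ r ∈ R2, ¬ Col u v r := by
      by_contra hcon
      apply hUa
      intro w hw hwR _ u hu v hv huv hc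
      by_contra hr
      push Not at hr
      exact hcon ⟨w, hw, hwR, u, hu, v, hv, huv, hc, hr⟩
    have hh := hits α (Or.inl rfl) w0 hw0 hw0R u0 hu0 v0 hv0 hne0 hc0
    rcases hh with ⟨r, hr, hcr⟩ | ⟨β0, hβ0, huv0, j0, hj0, hj1, he0⟩
    · exact absurd hcr (hr0 r hr)
    have hcol0 : Col t2 β0 w0 ∧ ∀ r ∈ R2, ¬ Col t2 β0 r := by
      rcases huv0 with ⟨h1, h2⟩ | ⟨h1, h2⟩
      · rw [h1, h2] at hc0 hr0; exact ⟨hc0, hr0⟩
      · rw [h1, h2] at hc0 hr0
        exact ⟨hc0.swap12, fun r hr h => hr0 r hr h.swap12⟩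
    by_cases hsing : ∀ w, Col (G * b1, G * b2) (α, 0) w → w ∉ R2 → ∀ u ∈ B2, ∀ v ∈ B2, u ≠ v →
        Col u v w → (∃ r ∈ R2, Col u v r) ∨ (Col t2 β0 u ∧ Col t2 β0 v)
    · left
      rw [← hR2, ← hB2]
      refine F.winB (z := ε) (z' := α) (p := t2) (q := β0) (Y := w0) (Or.inr ⟨rfl, rfl⟩) hUe
        (ht2B1 β0 hβ0) hw0 hcol0.1 hw0R hcol0.2 hsing
        (fun h => noparE β0 hβ0 (par_t2 hs2 h)) (hNm β0 hβ0)
        (pars ε (Or.inr rfl) noparE) (pars α (Or.inl rfl) hpr)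
        (hparm β0 hβ0 (hfar α (Or.inl rfl) β0 hβ0 j0 hj1 he0))
    · -- two hits
      right; right
      rw [← hR2, ← hB2]
      refine ⟨hUe, Or.inl ?_⟩
      push Not at hsing
      obtain ⟨w, hw, hwR, u, hu, v, hv, huv, hc, hr, hno⟩ := hsing
      rcases hits α (Or.inl rfl) w hw hwR u hu v hv huv hc with ⟨r, hr', hcr⟩ |
        ⟨β1, hβ1, huv1, j1, hj10, hj11, he1⟩
      · exact absurd hcr (hr r hr')
      have hne : β0 ≠ β1 := by
        intro h
        rcases huv1 with ⟨h1, h2⟩ | ⟨h1, h2⟩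
        · apply hno
          · rw [h1]; exact Col.refl_left _ _
          · rw [h2, ← h]; exact Col.refl_right _ _
        · apply hno
          · rw [h1, ← h]; exact Col.refl_right _ _
          · rw [h2]; exact Col.refl_left _ _
      rcases g1_aa hb2 hα (hX1 β0 hβ0 β1 hβ1 hne) (D.bl6 β0 hβ0 β1 hβ1) he0 he1 with h | h
      · exact ⟨β0, hβ0, j0, hj0, hj1, h.trans (hK4 β0 hβ0 β1 hβ1), he0⟩
      · exact ⟨β1, hβ1, j1, hj10, hj11, h.trans (hK4 β1 hβ1 β0 hβ0), he1⟩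
  · -- `g e` is hit
    obtain ⟨w0, hw0, hw0R, u0, hu0, v0, hv0, hne0, hc0, hr0⟩ : ∃ w, Col (G * b1, G * b2) (ε, 0) w ∧
        w ∉ R2 ∧ ∃ u ∈ B2, ∃ v ∈ B2, u ≠ v ∧ Col u v w ∧ ∀ r ∈ R2, ¬ Col u v r := by
      by_contra hcon
      apply hUe
      intro w hw hwR _ u hu v hv huv hc
      by_contra hr
      push Not at hr
      exact hcon ⟨w, hw, hwR, u, hu, v, hv, huv, hc, hr⟩
    have hh := hits ε (Or.inr rfl) w0 hw0 hw0R u0 hu0 v0 hv0 hne0 hc0
    rcases hh with ⟨r, hr, hcr⟩ | ⟨β0, hβ0, huv0, k0, hk0, hk1, he0⟩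
    · exact absurd hcr (hr0 r hr)
    have hcol0 : Col t2 β0 w0 ∧ ∀ r ∈ R2, ¬ Col t2 β0 r := by
      rcases huv0 with ⟨h1, h2⟩ | ⟨h1, h2⟩
      · rw [h1, h2] at hc0 hr0; exact ⟨hc0, hr0⟩
      · rw [h1, h2] at hc0 hr0
        exact ⟨hc0.swap12, fun r hr h => hr0 r hr h.swap12⟩
    have hsing : ∀ w, Col (G * b1, G * b2) (ε, 0) w → w ∉ R2 → ∀ u ∈ B2, ∀ v ∈ B2, u ≠ v →
        Col u v w → (∃ r ∈ R2, Col u v r) ∨ (Col t2 β0 u ∧ Col t2 β0 v) := by
      intro w hw hwR u hu v hv huv hc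
      rcases hits ε (Or.inr rfl) w hw hwR u hu v hv huv hc with h |
        ⟨β1, hβ1, huv1, j1, hj10, hj11, he1⟩
      · exact Or.inl h
      right
      have hne : β1 = β0 := by
        by_contra hne
        exact g1_ee hb2 hε0 hp hpε (hp1 β1 hβ1) (hp1 β0 hβ0) (hX1 β1 hβ1 β0 hβ0 hne)
          (hQ1 β1 hβ1 β0 hβ0 hne) (D.bl1 β1 hβ1 β0 hβ0) hk0 he1 he0
      rcases huv1 with ⟨h1, h2⟩ | ⟨h1, h2⟩
      · rw [h1, h2, hne]; exact ⟨Col.refl_left _ _, Col.refl_right _ _⟩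
      · rw [h1, h2, hne]; exact ⟨Col.refl_right _ _, Col.refl_left _ _⟩
    -- if `g a` is uncovered and has no parallels, Red wins
    have fin : (∀ β ∈ B1, ∀ j, j ≠ 0 → j ≠ 1 → ¬ HE b2 α G t2.2 (DX b1 b2 β) β.2 j) →
        (∀ β ∈ B1, α * (t2.2 - β.2) ≠ G * DX b1 b2 β) → Win R2 B2 := by
      intro hno hpr
      have hUa : Uncov R2 B2 (G * b1, G * b2) (α, 0) := by
        intro w hw hwR _ u hu v hv huv hc
        rcases hits α (Or.inl rfl) w hw hwR u hu v hv huv hc with h |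
          ⟨β1, hβ1, huv1, j1, hj10, hj11, he1⟩
        · exact h
        · exact absurd he1 (hno β1 hβ1 j1 hj10 hj11)
      exact F.winB (z := α) (z' := ε) (p := t2) (q := β0) (Y := w0) (Or.inl ⟨rfl, rfl⟩) hUa
        (ht2B1 β0 hβ0) hw0 hcol0.1 hw0R hcol0.2 hsing
        (fun h => hpr β0 hβ0 (par_t2 hs2 h)) (hNm β0 hβ0)
        (pars α (Or.inl rfl) hpr) (pars ε (Or.inr rfl) noparE)
        (hparm β0 hβ0 (hfar ε (Or.inr rfl) β0 hβ0 k0 hk1 he0))
    -- the parallel lemma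
    have parno : ∀ β ∈ B1, α * (t2.2 - β.2) = G * DX b1 b2 β →
        k0 * b2 * (ε * DX b1 b2 β - α * DX b1 b2 β0) =
          DX b1 b2 β0 * (DX b1 b2 β - α * b2) ∧
        k0 * ε * b2 * (β.2 - β0.2) = DX b1 b2 β0 * β.2 := by
      intro β hβ h
      rcases g1_par (hA5 β hβ β0 hβ0) (D.gA5 β hβ β0 hβ0) h he0 with h1 | h1
      · exact h1
      · exact absurd h1 hα
    -- size contradiction
    have szno : ∀ β ∈ B1, |DX b1 b2 β0 * (α * b2 - DX b1 b2 β)| <
        |b2 * (α * DX b1 b2 β0 - ε * DX b1 b2 β)| →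
        α * (t2.2 - β.2) ≠ G * DX b1 b2 β := by
      intro β hβ hs h
      obtain ⟨h1, _⟩ := parno β hβ h
      have e1 : |b2 * (α * DX b1 b2 β0 - ε * DX b1 b2 β)| * |k0| =
          |DX b1 b2 β0 * (α * b2 - DX b1 b2 β)| := by
        rw [← abs_mul]
        congr 1
        linear_combination -h1
      have e2 : |b2 * (α * DX b1 b2 β0 - ε * DX b1 b2 β)| ≤
          |b2 * (α * DX b1 b2 β0 - ε * DX b1 b2 β)| * |k0| :=
        le_mul_of_one_le_right (abs_nonneg _) (Int.one_le_abs hk0)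
      linarith
    rcases cas β0 hβ0 with ht | hnear
    · -- `t` hits `g e`
      rw [ht] at he0 hsing hcol0
      have e0' : DX b1 b2 ((τ, 0) : Pt) = τ * b2 := Dt
      rw [e0'] at he0
      simp only at he0
      by_cases hk : |k0| ≤ K0
      · right; left
        rw [← hR2, ← hB2]
        exact ⟨hsing, hcol0.2, k0, hk0, hk1, hk, he0⟩
      · left
        rw [← hR2, ← hB2]
        refine fin ?_ ?_
        · intro β hβ j hj0 hj1 he
          apply hk
          rcases cas β hβ with h | h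
          · rw [h, e0'] at he
            simp only at he
            exact (g1_tt hb2 hG0 ht20 htau0 htaua htau N.hα1 he0 he).trans hK2
          · have hpτb : ¬ p ∣ τ * b2 := by rw [mul_comm]; exact hτp
            obtain ⟨q1, q2⟩ := g1_ta (E' := p) hb2 hα hp hpε N.hε hpτb N.hpα (hp1 β hβ)
              (K.hy β h) (hcl β h) (D.bl3 β hβ β hβ) hj0 he0 he
            have q3 : |k0| ≤ |τ * (α * b2 - DX b1 b2 β)| := by
              rw [← q1, abs_mul]
              exact le_mul_of_one_le_right (abs_nonneg _) (Int.one_le_abs q2)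
            exact q3.trans (hK1 β hβ)
        · intro β hβ h
          apply hk
          obtain ⟨h1, h2⟩ := parno β hβ h
          rw [ht, e0'] at h1 h2
          simp only at h2
          rcases cas β hβ with h' | h'
          · rw [h', e0'] at h1
            have h3 : k0 * (ε - α) = τ - α := by
              apply mul_left_cancel₀ (mul_ne_zero (mul_ne_zero hb2 htau0) hb2)
              linear_combination h1
            have h4 : |k0| ≤ |τ - α| := by
              rw [← h3, abs_mul]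
              exact le_mul_of_one_le_right (abs_nonneg _)
                (Int.one_le_abs (sub_ne_zero.mpr (Ne.symm N.hα1)))
            exact h4.trans hK3
          · exfalso
            apply hpτ
            have h3 : b2 * (β.2 * (k0 * ε - τ)) = 0 := by linear_combination h2
            rcases mul_eq_zero.mp h3 with h4 | h4
            · exact absurd h4 hb2
            rcases mul_eq_zero.mp h4 with h5 | h5
            · exact absurd h5 (K.hy β h')
            · obtain ⟨n, hn⟩ := hpε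
              exact ⟨k0 * n, by rw [hn] at h5; linear_combination -h5⟩
    · -- a near stone hits `g e`
      left
      rw [← hR2, ← hB2]
      refine fin ?_ ?_
      · intro β hβ j hj0 hj1 he
        exact g1_ea hb2 (hD1 β hβ) (hs1 β0 hnear β hβ) (hW1 β0 hnear β hβ)
          (D.bl2 β0 hβ0 β hβ) (D.gY β hβ) hk0 hj1 he0 he
      · intro β hβ
        exact szno β hβ (hs1 β0 hnear β hβ)

end Pool.Agent.K4L
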