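import Pool.Agent.K4L.K3UG1E

/-!
# K3U: the position after `e, t, g, t2` (`G → ∞`), facts without condition on `τ mod p`
-/

namespace Pool.Agent.K4L

open Filter

/-- the position after `e, t, g, t2`; `B1 = insert t B`, `R2`, `B2` are the final sets -/
structure GX (R2 B2 B1 B : Finset Pt) (α b1 b2 ε τ G C0 : ℤ) (t2 : Pt) : Prop where
  F : FP R2 B2 α b1 b2 ε G
  hB2 : B2 = insert t2 B1
  hB1 : B1 = insert ((τ, 0) : Pt) B
  hs2 : t2.1 * b2 = t2.2 * b1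
  ht2B1 : ∀ β ∈ B1, t2 ≠ β
  ht20 : t2.2 ≠ 0
  ht2b : t2.2 ≠ b2
  ht2g : t2.2 ≠ G * b2
  cR : ((0, 0) : Pt) ∈ R2
  aR : ((α, 0) : Pt) ∈ R2
  bR : ((b1, b2) : Pt) ∈ R2
  eR : ((ε, 0) : Pt) ∈ R2
  gR : ((G * b1, G * b2) : Pt) ∈ R2
  hX1 : ∀ β ∈ B1, ∀ β' ∈ B1, β ≠ β' → DX b1 b2 β ≠ DX b1 b2 β'
  hD1 : ∀ β ∈ B1, DX b1 b2 β ≠ 0
  hits : ∀ z : ℤ, (z = α ∨ z = ε) → ∀ w, Col (G * b1, G * b2) (z, 0) w → w ∉ R2 →
      ∀ u ∈ B2, ∀ v ∈ B2, u ≠ v → Col u v w → (∃ r ∈ R2, Col u v r) ∨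
        ∃ β ∈ B1, ((u = t2 ∧ v = β) ∨ (u = β ∧ v = t2)) ∧
          ∃ k, k ≠ 0 ∧ k ≠ 1 ∧ HE b2 z G t2.2 (DX b1 b2 β) β.2 k
  hfar : ∀ z : ℤ, (z = α ∨ z = ε) → ∀ β ∈ B1, ∀ k, k ≠ 1 →
      HE b2 z G t2.2 (DX b1 b2 β) β.2 k → C0 < |t2.2|
  pars : ∀ z : ℤ, (z = α ∨ z = ε) → (∀ β ∈ B1, z * (t2.2 - β.2) ≠ G * DX b1 b2 β) →
      ∀ u ∈ B2, ∀ v ∈ B2, u ≠ v → Par (G * b1, G * b2) (z, 0) u v → ∃ r ∈ R2, Col u v r
  hparm : ∀ β ∈ B1, C0 < |t2.2| → ∀ u ∈ B2, ∀ v ∈ B2, u ≠ v → Par t2 β u v →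
      (∃ r ∈ R2, Col u v r) ∨ Col t2 β u

theorem mk_GX {R B : Finset Pt} {α b1 b2 ε τ C0 : ℤ} (K : K3C R B α b1 b2)
    (hε0 : ε ≠ 0) (hα1 : α ≠ ε)
    (hX : ∀ β ∈ B, ∀ β' ∈ B, β ≠ β' → DX b1 b2 β ≠ DX b1 b2 β')
    (hτX : ∀ β ∈ B, DX b1 b2 β ≠ b2 * τ)
    (htR : ((τ, 0) : Pt) ∉ insert ((ε, 0) : Pt) R) (htB : ((τ, 0) : Pt) ∉ B)
    (hN1 : NoThreat (insert (ε, 0) R) (insert (τ, 0) B))
    (hcbU : Uncov (insert (ε, 0) R) (insert (τ, 0) B) (0, 0) (b1, b2))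
    (hbe : ALine (insert (ε, 0) R) (insert (τ, 0) B) (b1, b2) (ε, 0))
    (hC0 : ∀ β ∈ insert ((τ, 0) : Pt) B, ∀ u ∈ insert ((τ, 0) : Pt) B,
      ∀ v ∈ insert ((τ, 0) : Pt) B, |β.2| + |DX b1 b2 β * (v.2 - u.2)| ≤ C0)
    {G : ℤ} (D : G1G ((insert (ε, 0) R) ∪ (insert (τ, 0) B)) (insert (τ, 0) B) α b1 b2 ε τ C0 G)
    (hca : IsCoprime (G * b1 - α) (G * b2)) (hce : IsCoprime (G * b1 - ε) (G * b2))
    {t2 : Pt} (ht2c : Col (0, 0) (b1, b2) t2)
    (ht2R : t2 ∉ insert ((G * b1, G * b2) : Pt) (insert (ε, 0) R))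
    (ht2B : t2 ∉ insert ((τ, 0) : Pt) B) :
    GX (insert (G * b1, G * b2) (insert (ε, 0) R)) (insert t2 (insert (τ, 0) B))
      (insert (τ, 0) B) B α b1 b2 ε τ G C0 t2 := by
  classical
  have hb2 := K.hb2
  have hα := K.hα
  obtain ⟨B1, hB1⟩ : ∃ B1 : Finset Pt, B1 = insert ((τ, 0) : Pt) B := ⟨_, rfl⟩
  obtain ⟨R1, hR1⟩ : ∃ R1 : Finset Pt, R1 = insert ((ε, 0) : Pt) R := ⟨_, rfl⟩
  have Dt : DX b1 b2 (τ, 0) = τ * b2 := by unfold DX; simp only; ring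
  have tB1 : ((τ, 0) : Pt) ∈ B1 := by rw [hB1]; exact Finset.mem_insert_self _ _
  have cas : ∀ β ∈ B1, β = (τ, 0) ∨ β ∈ B := by
    intro β hβ; rw [hB1] at hβ; exact Finset.mem_insert.mp hβ
  have htau0 : τ ≠ 0 := by rintro rfl; exact htR (Finset.mem_insert_of_mem K.cR)
  have htaua : τ ≠ α := by rintro rfl; exact htR (Finset.mem_insert_of_mem K.aR)
  have htau : τ ≠ ε := by rintro rfl; exact htR (Finset.mem_insert_self _ _)
  have hD1 : ∀ β ∈ B1, DX b1 b2 β ≠ 0 := by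
    intro β hβ
    rcases cas β hβ with h | h
    · rw [h, Dt]; exact mul_ne_zero htau0 hb2
    · exact K.hD β h
  have hX1 : ∀ β ∈ B1, ∀ β' ∈ B1, β ≠ β' → DX b1 b2 β ≠ DX b1 b2 β' := by
    intro β hβ β' hβ' hne
    rcases cas β hβ with h | h <;> rcases cas β' hβ' with h' | h'
    · exact absurd (h.trans h'.symm) hne
    · rw [h, Dt, mul_comm]; exact (hτX β' h').symm
    · rw [h', Dt, mul_comm]; exact hτX β h
    · exact hX β h β' h' hne
  rw [← hR1, ← hB1] at D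
  rw [← hR1] at ht2R ⊢
  rw [← hB1] at ht2B hC0 ⊢
  have hG0 := D.g0
  have hGb : G * b2 ≠ 0 := mul_ne_zero hG0 hb2
  obtain ⟨R2, hR2⟩ : ∃ R2 : Finset Pt, R2 = insert ((G * b1, G * b2) : Pt) R1 := ⟨_, rfl⟩
  obtain ⟨B2, hB2⟩ : ∃ B2 : Finset Pt, B2 = insert t2 B1 := ⟨_, rfl⟩
  have hs2 : t2.1 * b2 = t2.2 * b1 := by
    unfold Col at ht2c; simp only at ht2c; linear_combination -ht2c
  have gR : ((G * b1, G * b2) : Pt) ∈ R2 := by rw [hR2]; exact Finset.mem_insert_self _ _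
  have eR : ((ε, 0) : Pt) ∈ R2 := by
    rw [hR2, hR1]; exact Finset.mem_insert_of_mem (Finset.mem_insert_self _ _)
  have cR : ((0, 0) : Pt) ∈ R2 := by
    rw [hR2, hR1]; exact Finset.mem_insert_of_mem (Finset.mem_insert_of_mem K.cR)
  have aR : ((α, 0) : Pt) ∈ R2 := by
    rw [hR2, hR1]; exact Finset.mem_insert_of_mem (Finset.mem_insert_of_mem K.aR)
  have bR : ((b1, b2) : Pt) ∈ R2 := by
    rw [hR2, hR1]; exact Finset.mem_insert_of_mem (Finset.mem_insert_of_mem K.bR)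
  have t2B2 : t2 ∈ B2 := by rw [hB2]; exact Finset.mem_insert_self _ _
  have hgS : ∀ w ∈ R1 ∪ B1, ((G * b1, G * b2) : Pt) ≠ w := by
    intro w hw h
    apply D.gS w hw
    rw [← h]; ring
  have hN2 : NoThreat R2 B2 := by
    rw [hR2, hB2, hR1, hB1]
    rw [hR1] at ht2R
    rw [hB1] at ht2B
    exact hN1.of_uncov hcbU (Finset.subset_insert _ _) ht2c
      (fun h => ht2R (Finset.mem_insert_of_mem h)) ht2B
  have hBR : ∀ β ∈ B2, β ∉ R2 := by
    rw [hR2, hB2]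
    intro β hβ hR
    rcases Finset.mem_insert.mp hβ with hβ | hβ
    · rw [hβ] at hR; exact ht2R hR
    · rcases Finset.mem_insert.mp hR with hR | hR
      · exact hgS β (Finset.mem_union_right _ hβ) hR.symm
      · rcases cas β hβ with h | h
        · rw [h, hR1] at hR; exact htR hR
        · rw [hR1] at hR
          rcases Finset.mem_insert.mp hR with hR | hR
          · rw [hR] at h; exact K.hy _ h rfl
          · exact K.hB β h hR
  have ht2n : ∀ k : ℤ, ((k * b1, k * b2) : Pt) ∈ R2 → t2.2 ≠ k * b2 := by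
    intro k hk h
    have h1 : t2.1 = k * b1 := by
      apply mul_right_cancel₀ hb2
      rw [hs2, h]; ring
    have h2 : t2 = (k * b1, k * b2) := Prod.ext h1 h
    exact hBR t2 t2B2 (by rw [h2]; exact hk)
  have ht20 : t2.2 ≠ 0 := by
    have := ht2n 0 (by simpa using cR)
    rwa [zero_mul] at this
  have ht2b : t2.2 ≠ b2 := by
    have := ht2n 1 (by simpa using bR)
    rwa [one_mul] at this
  have ht2g : t2.2 ≠ G * b2 := ht2n G gR
  -- no blue stone on `g (z, 0)`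
  have hgz : ∀ z : ℤ, (z = α ∨ z = ε) → ((z, 0) : Pt) ∈ R2 →
      ALine R2 B2 (G * b1, G * b2) (z, 0) := by
    intro z hz hzR
    have hz0 : z ≠ 0 := by rcases hz with rfl | rfl <;> assumption
    refine ⟨gR, hzR, fun h => hGb (congrArg Prod.snd h), ?_⟩
    intro w hw hc
    rw [hB2] at hw
    unfold Col at hc
    simp only at hc
    rcases Finset.mem_insert.mp hw with rfl | hw
    · have : z * (w.2 - G * b2) = 0 := by linear_combination hc - G * hs2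
      rcases mul_eq_zero.mp this with h | h
      · exact hz0 h
      · exact ht2g (by linarith)
    · have h1 := lin_large (x := DX b1 b2 w - z * b2) (D.gal z hz w hw)
        (by unfold DX; linear_combination hc)
      obtain ⟨h1, h2⟩ := h1
      rcases mul_eq_zero.mp h2 with h2 | h2
      · exact hz0 h2
      · rcases cas w hw with h | h
        · rw [h, Dt] at h1
          have : b2 * (τ - z) = 0 := by linear_combination h1
          rcases mul_eq_zero.mp this with h3 | h3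
          · exact hb2 h3
          · rcases hz with rfl | rfl
            · exact htaua (by linarith)
            · exact htau (by linarith)
        · exact K.hy w h h2
  have F : FP R2 B2 α b1 b2 ε G := by
    refine ⟨hN2, hBR, hα, hb2, hε0, hα1, hG0, D.g1, D.gε, hgz α (Or.inl rfl) aR,
      hgz ε (Or.inr rfl) eR, bR, eR, fun h => hb2 (congrArg Prod.snd h), ?_⟩
    intro w hw hc
    rw [hB2] at hw
    rcases Finset.mem_insert.mp hw with rfl | hw
    · unfold Col at hc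
      simp only at hc
      have : ε * (w.2 - b2) = 0 := by linear_combination hc - hs2
      rcases mul_eq_zero.mp this with h | h
      · exact hε0 h
      · exact ht2b (by linarith)
    · rw [hB1] at hw; exact hbe.2.2.2 w hw hc
  -- the hits of `g (z, 0)`
  have hits : ∀ z : ℤ, (z = α ∨ z = ε) → ∀ w, Col (G * b1, G * b2) (z, 0) w → w ∉ R2 →
      ∀ u ∈ B2, ∀ v ∈ B2, u ≠ v → Col u v w → (∃ r ∈ R2, Col u v r) ∨
        ∃ β ∈ B1, ((u = t2 ∧ v = β) ∨ (u = β ∧ v = t2)) ∧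
          ∃ k, k ≠ 0 ∧ k ≠ 1 ∧ HE b2 z G t2.2 (DX b1 b2 β) β.2 k := by
    intro z hz w hw hwR
    have hcop : IsCoprime (G * b1 - z) (G * b2) := by
      rcases hz with rfl | rfl <;> assumption
    have hzR : ((z, 0) : Pt) ∈ R2 := by rcases hz with rfl | rfl <;> assumption
    obtain ⟨k, hk1, hk2⟩ := he_param (w1 := w.1) (w2 := w.2) hcop (by
      unfold Col at hw; simp only at hw; linear_combination hw)
    have hw' : w = (G * b1 + k * (z - G * b1), (1 - k) * (G * b2)) := Prod.ext hk1 hk2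
    have hk0 : k ≠ 0 := by
      rintro rfl
      apply hwR
      rw [hw']
      have : ((G * b1 + 0 * (z - G * b1), (1 - 0) * (G * b2)) : Pt) = (G * b1, G * b2) :=
        Prod.ext (by simp) (by simp)
      rw [this]; exact gR
    have hk1' : k ≠ 1 := by
      rintro rfl
      apply hwR
      rw [hw']
      have : ((G * b1 + 1 * (z - G * b1), (1 - 1) * (G * b2)) : Pt) = (z, 0) :=
        Prod.ext (by ring) (by ring)
      rw [this]; exact hzR
    rw [hB2]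
    refine pair2 (B1 := B1) (t2 := t2) (P := fun u v => Col u v w → (∃ r ∈ R2, Col u v r) ∨
        ∃ β ∈ B1, ((u = t2 ∧ v = β) ∨ (u = β ∧ v = t2)) ∧
          ∃ k, k ≠ 0 ∧ k ≠ 1 ∧ HE b2 z G t2.2 (DX b1 b2 β) β.2 k) ?_ ?_ ?_
    · intro u v h hc
      rcases h hc.swap12 with ⟨r, hr, h'⟩ | ⟨β, hβ, h1, h2⟩
      · exact Or.inl ⟨r, hr, h'.swap12⟩
      · refine Or.inr ⟨β, hβ, ?_, h2⟩
        rcases h1 with ⟨h1, h1'⟩ | ⟨h1, h1'⟩
        · exact Or.inr ⟨h1', h1⟩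
        · exact Or.inl ⟨h1', h1⟩
    · intro u hu v hv huv hc
      exfalso
      apply hk1'
      rw [hw'] at hc
      exact g1_pair_hit hb2 (hX1 u hu v hv huv) (D.gp z hz u hu v hv) hc
    · intro β hβ hc
      rw [hw'] at hc
      exact Or.inr ⟨β, hβ, Or.inl ⟨rfl, rfl⟩, k, hk0, hk1', he_of_hit hs2 hc⟩
  -- `t2` far
  have hfar : ∀ z : ℤ, (z = α ∨ z = ε) → ∀ β ∈ B1, ∀ k, k ≠ 1 →
      HE b2 z G t2.2 (DX b1 b2 β) β.2 k → C0 < |t2.2| := by
    intro z hz β hβ k hk h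
    by_contra hn
    exact hk (he_near hb2 (hD1 β hβ) (not_lt.mp hn) (D.gnear z hz β hβ) h)
  have ht2B1 : ∀ β ∈ B1, t2 ≠ β := by
    intro β hβ h; rw [h] at ht2B; exact ht2B hβ
  -- parallels
  have pars : ∀ z : ℤ, (z = α ∨ z = ε) → (∀ β ∈ B1, z * (t2.2 - β.2) ≠ G * DX b1 b2 β) →
      ∀ u ∈ B2, ∀ v ∈ B2, u ≠ v → Par (G * b1, G * b2) (z, 0) u v → ∃ r ∈ R2, Col u v r := by
    intro z hz hno
    rw [hB2]
    refine pair2 (B1 := B1) (t2 := t2) (P := fun u v => Par (G * b1, G * b2) (z, 0) u v →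
      ∃ r ∈ R2, Col u v r) ?_ ?_ ?_
    · intro u v h hP
      obtain ⟨r, hr, h'⟩ := h hP.symm_right
      exact ⟨r, hr, h'.swap12⟩
    · intro u hu v hv huv hP
      exact (par_pair (hX1 u hu v hv huv) (D.gpar z hz u hu v hv) hP).elim
    · intro β hβ hP
      exact absurd (par_t2 hs2 hP) (hno β hβ)
  have hparm : ∀ β ∈ B1, C0 < |t2.2| → ∀ u ∈ B2, ∀ v ∈ B2, u ≠ v → Par t2 β u v →
      (∃ r ∈ R2, Col u v r) ∨ Col t2 β u := by
    intro β hβ hf
    have main : ∀ u ∈ insert t2 B1, ∀ v ∈ insert t2 B1, u ≠ v → Par t2 β u v →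
        Col t2 β u ∧ Col t2 β v := by
      refine pair2 (B1 := B1) (t2 := t2) (P := fun u v => Par t2 β u v →
        Col t2 β u ∧ Col t2 β v) ?_ ?_ ?_
      · intro u v h hP
        exact (h hP.symm_right).symm
      · intro u hu v hv huv hP
        exfalso
        have h1 := par_m hs2 (hX1 u hu v hv huv) hP
        have h2 := hC0 β hβ u hu v hv
        linarith
      · intro β' _ hP
        exact ⟨Col.refl_left _ _, hP⟩
    intro u hu v hv huv hP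
    rw [hB2] at hu hv
    exact Or.inr (main u hu v hv huv hP).1
  rw [← hR2, ← hB2]
  exact ⟨F, hB2, hB1, hs2, ht2B1, ht20, ht2b, ht2g, cR, aR, bR, eR, gR, hX1, hD1, hits, hfar,
    pars, hparm⟩

namespace FP

variable {R B : Finset Pt} {α b1 b2 ε G : ℤ}

/-- leaf `lemB0` with `L = e b`, `M = e g`, `N = g a` -/
theorem winE (F : FP R B α b1 b2 ε G) {p q Y : Pt} (hLU : Uncov R B (ε, 0) (b1, b2)) (hpq : p ≠ q)
    (hY : Col (ε, 0) (G * b1, G * b2) Y) (hYm : Col p q Y) (hYR : Y ∉ R)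
    (hmR : ∀ w ∈ R, ¬ Col p q w)
    (hMU : ∀ w, Col (ε, 0) (G * b1, G * b2) w → w ∉ R → ∀ u ∈ B, ∀ v ∈ B, u ≠ v → Col u v w →
      (∃ r ∈ R, Col u v r) ∨ (Col p q u ∧ Col p q v))
    (hLm : ¬ Par (ε, 0) (b1, b2) p q) (hNm : ¬ Par (G * b1, G * b2) (α, 0) p q)
    (hparL : ∀ u ∈ B, ∀ v ∈ B, u ≠ v → Par (ε, 0) (b1, b2) u v → ∃ r ∈ R, Col u v r)
    (hparM : ∀ u ∈ B, ∀ v ∈ B, u ≠ v → Par (ε, 0) (G * b1, G * b2) u v → ∃ r ∈ R, Col u v r)
    (hparm : ∀ u ∈ B, ∀ v ∈ B, u ≠ v → Par p q u v → (∃ r ∈ R, Col u v r) ∨ Col p q u) :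
    Win R B := by
  have gR := F.hga.1
  have aR := F.hga.2.1
  have eR := F.hge.2.1
  have bR := F.hbe.1
  have hbz : ∀ x : ℤ, ((b1, b2) : Pt) ≠ (x, 0) := fun x h => F.hb2 (congrArg Prod.snd h)
  have hLM : ¬ Col (ε, 0) (b1, b2) (G * b1, G * b2) := fun h => F.col_geb h.rot.rot
  refine lemB0 (o := (ε, 0)) (a := (b1, b2)) (b := (G * b1, G * b2)) (v0 := (G * b1, G * b2))
    (r := (α, 0)) (p := p) (q := q) (Y := Y) (x0 := (α, 0)) (x1 := (b1, b2))
    (x2 := (ε, 0)) (x3 := (G * b1, G * b2)) (xl := (α, 0)) (xg := (b1, b2))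
    (xg' := (α, 0)) F.hN F.hB F.hbe.symm hLU F.hge.symm F.hga ?_ hpq hY hYm hYR hmR hMU hLM ?_ ?_
    hLm hNm
    aR bR eR gR F.col_abe (fun h => F.col_gab h.rot.rot)
    (fun h => F.col_gae h.rot.rot) (fun h => F.col_geb (h.rot.rot).swap23) aR ?_ ?_
    (fun u hu v hv huv h => Or.inl (hparL u hu v hv huv h)) (by simp) (by simp) ?_ ?_ ?_
    (fun u hu v hv huv h => Or.inl (hparM u hu v hv huv h)) hparm
  · -- common points of `M` and `N`
    intro z h1 h2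
    by_contra hzR
    have hzg : z ≠ (G * b1, G * b2) := fun h => hzR (h ▸ gR)
    apply F.col_gae
    exact (Col.line_eq_of_two (z := ((ε, 0) : Pt)) F.hga.ne F.hge.ne hzg.symm (Col.refl_left _ _)
      h2 (Col.refl_left _ _) h1.swap12).mpr (Col.refl_right _ _)
  · intro h
    apply F.par_ga_be
    unfold Par at h ⊢
    simp only at h ⊢
    linear_combination h
  · intro h
    apply F.col_gae
    unfold Par at h
    unfold Col
    simp only at h ⊢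
    linear_combination h
  · exact fun h => F.col_abe (h.rot.rot).swap12.swap12.swap23
  · intro h; exact mul_ne_zero F.hG0 F.hb2 (congrArg Prod.snd h).symm
  · exact fun h => hLM h.swap23
  · exact fun h => F.col_gae h.rot
  · exact fun h => hbz _ h.symm

/-- `b e` uncovered, `g e` uncovered or `g a` uncovered -/
theorem winU (F : FP R B α b1 b2 ε G) (hbeU : Uncov R B (b1, b2) (ε, 0))
    (hU : Uncov R B (G * b1, G * b2) (ε, 0) ∨ Uncov R B (G * b1, G * b2) (α, 0))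
    (hpar : ∀ u ∈ B, ∀ v ∈ B, u ≠ v → Par (b1, b2) (ε, 0) u v → ∃ r ∈ R, Col u v r) :
    Win R B := by
  have hg0 : ((α, 0) : Pt) ≠ (G * b1, G * b2) := fun h =>
    mul_ne_zero F.hG0 F.hb2 (congrArg Prod.snd h).symm
  refine two_connected (x0 := (b1, b2)) (x1 := (ε, 0)) (x2 := (G * b1, G * b2)) (x3 := (α, 0))
    (w := (α, 0)) F.hN F.hbe hbeU F.hge.symm F.hga
    (fun h => F.col_geb h.rot.rot.swap23) (fun h => F.col_gae h.rot) ?_ F.hga.2.1
    (fun h => F.hB _ h F.hga.2.1) (fun h => F.col_abe h.rot.rot)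
    hg0 ?_
  · rcases hU with h | h
    · exact Or.inl h.symm
    · refine Or.inr ⟨h, ?_⟩
      intro hP
      apply F.par_ga_be
      unfold Par at hP ⊢
      simp only at hP ⊢
      linear_combination -hP
  · intro c _ u hu v hv huv h
    exact Or.inl (hpar u hu v hv huv h)

end FP

end Pool.Agent.K4L
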