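import Pool.Agent.K4L.K3UNear

/-!
# K3U, case gamma2 (`t = μ e` exactly): arithmetic

`g' = (B1, B2)` is a point of `c b`, `e = (ε, 0)`, `t = (τ, 0)` with `B2 τ = Y0 ε`.
-/

namespace Pool.Agent.K4L

open Filter

/-- hit of `g' e` by `t β` -/
theorem g2_t {ε B1 B2 τ Y0 x y z1 z2 : ℤ} (hτ : B2 * τ = Y0 * ε)
    (hz : (ε - B1) * (z2 - B2) = (0 - B2) * (z1 - B1))
    (hc : (x - τ) * (z2 - 0) = (y - 0) * (z1 - τ)) :
    z2 * ((Y0 - y) * ε - (B2 * x - B1 * y)) = y * (Y0 - B2) * ε := by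
  linear_combination (-B2) * hc - y * hz + (-z2 + y) * hτ

/-- hit of `g' e` by `t2 β` -/
theorem g2_s {ε B1 B2 s1 s2 x y z1 z2 : ℤ} (hs : s1 * B2 = s2 * B1)
    (hz : (ε - B1) * (z2 - B2) = (0 - B2) * (z1 - B1))
    (hc : (x - s1) * (z2 - s2) = (y - s2) * (z1 - s1)) :
    (z2 - s2) * (B2 * x - B1 * y) = (y - s2) * ε * (B2 - z2) := by
  linear_combination B2 * hc + (y - s2) * hz + (z2 - y) * hs

/-- hit of `g' e` by `t2 t` -/
theorem g2_ts {ε B1 B2 s1 s2 τ Y0 z1 z2 : ℤ} (hε : ε ≠ 0) (hs : s1 * B2 = s2 * B1)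
    (hτ : B2 * τ = Y0 * ε)
    (hz : (ε - B1) * (z2 - B2) = (0 - B2) * (z1 - B1))
    (hc : (τ - s1) * (z2 - s2) = (0 - s2) * (z1 - s1)) :
    z2 * (Y0 - s2) = s2 * (Y0 - B2) := by
  apply mul_left_cancel₀ hε
  linear_combination B2 * hc - s2 * hz + z2 * hs - (z2 - s2) * hτ

/-- `t β` does not hit `g' e` -/
theorem g2_t_no {ε B2 Y0 y z2 D : ℤ} (hD : D ≠ 0) (hy : y ≠ 0) (hYB : Y0 ≠ B2) (hyY : y ≠ Y0)
    (hε : 2 * |D| * (1 + |y * (Y0 - B2)|) < |ε|)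
    (h : z2 * ((Y0 - y) * ε - D) = y * (Y0 - B2) * ε) : False := by
  have hD1 : 1 ≤ |D| := Int.one_le_abs hD
  have hyY1 : 1 ≤ |Y0 - y| := Int.one_le_abs (fun h => hyY (by linarith))
  have hP : 0 ≤ |y * (Y0 - B2)| := abs_nonneg _
  have h1 : |ε| ≤ 2 * |(Y0 - y) * ε - D| := by
    have h2 : |(Y0 - y) * ε| ≤ |(Y0 - y) * ε - D| + |D| := by
      have := abs_add_le ((Y0 - y) * ε - D) D
      rwa [sub_add_cancel] at this
    rw [abs_mul] at h2
    have h3 : |ε| ≤ |Y0 - y| * |ε| := le_mul_of_one_le_left (abs_nonneg _) hyY1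
    nlinarith
  have h2 : |z2| * |(Y0 - y) * ε - D| = |y * (Y0 - B2)| * |ε| := by
    rw [← abs_mul, h, abs_mul]
  have h3 : |z2| ≤ 2 * |y * (Y0 - B2)| := by
    by_contra hcon
    push Not at hcon
    have hpos : 0 < |(Y0 - y) * ε - D| := by nlinarith
    have h4 : 2 * |y * (Y0 - B2)| * |(Y0 - y) * ε - D| < |z2| * |(Y0 - y) * ε - D| :=
      mul_lt_mul_of_pos_right hcon hpos
    rw [h2] at h4
    have h5 : |y * (Y0 - B2)| * |ε| ≤ |y * (Y0 - B2)| * (2 * |(Y0 - y) * ε - D|) :=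
      mul_le_mul_of_nonneg_left h1 hP
    linarith
  have h4 : (z2 * (Y0 - y) - y * (Y0 - B2)) * ε + (-(z2 * D)) = 0 := by linear_combination h
  have h5 : |-(z2 * D)| < |ε| := by
    rw [abs_neg, abs_mul]
    have : |z2| * |D| ≤ 2 * |y * (Y0 - B2)| * |D| :=
      mul_le_mul_of_nonneg_right h3 (abs_nonneg _)
    nlinarith
  obtain ⟨h6, h7⟩ := lin_large h5 h4
  have h8 : z2 = 0 := by
    rcases mul_eq_zero.mp (neg_eq_zero.mp h7) with h | h
    · exact h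
    · exact absurd h hD
  rw [h8, zero_mul, zero_sub, neg_eq_zero] at h6
  rcases mul_eq_zero.mp h6 with h | h
  · exact hy h
  · exact hYB (by linarith)

/-- `t2 β` does not hit `g' e` unless it is horizontal -/
theorem g2_s_no {ε B2 s2 y z2 D : ℤ} (hsy : s2 ≠ y) (hz : z2 ≠ B2)
    (hε : |D| * (2 + |y - B2|) < |ε|)
    (h : (z2 - s2) * D = (y - s2) * ε * (B2 - z2)) : False := by
  have a1 : 1 ≤ |y - s2| := Int.one_le_abs (fun h => hsy (by linarith))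
  have a2 : 1 ≤ |B2 - z2| := Int.one_le_abs (fun h => hz (by linarith))
  have h1 : |z2 - s2| ≤ (2 + |y - B2|) * (|y - s2| * |B2 - z2|) := by
    have h2 : z2 - s2 = -(B2 - z2) + (-(y - B2)) + (y - s2) := by ring
    have h3 : |z2 - s2| ≤ |B2 - z2| + |y - B2| + |y - s2| := by
      rw [h2]
      have := abs_add_le (-(B2 - z2) + (-(y - B2))) (y - s2)
      have h4 := abs_add_le (-(B2 - z2)) (-(y - B2))
      rw [abs_neg, abs_neg] at h4
      linarith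
    have h4 : |B2 - z2| ≤ |y - s2| * |B2 - z2| := le_mul_of_one_le_left (abs_nonneg _) a1
    have h5 : |y - s2| ≤ |y - s2| * |B2 - z2| := le_mul_of_one_le_right (abs_nonneg _) a2
    have h6 : |y - B2| ≤ |y - B2| * (|y - s2| * |B2 - z2|) :=
      le_mul_of_one_le_right (abs_nonneg _) (by nlinarith)
    nlinarith
  have h2 : |z2 - s2| * |D| = (|y - s2| * |B2 - z2|) * |ε| := by
    rw [← abs_mul, h, abs_mul, abs_mul]; ring
  have h3 : 1 ≤ |y - s2| * |B2 - z2| := by nlinarith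
  have h4 : |z2 - s2| * |D| ≤ (|y - s2| * |B2 - z2|) * (|D| * (2 + |y - B2|)) := by
    calc |z2 - s2| * |D| ≤ ((2 + |y - B2|) * (|y - s2| * |B2 - z2|)) * |D| :=
          mul_le_mul_of_nonneg_right h1 (abs_nonneg _)
      _ = _ := by ring
  have h5 : (|y - s2| * |B2 - z2|) * (|D| * (2 + |y - B2|)) < (|y - s2| * |B2 - z2|) * |ε| :=
    mul_lt_mul_of_pos_left hε (by linarith)
  linarith

/-- `t2 t` does not hit `g' e` if `s2` is large -/
theorem g2_ts_no {B2 s2 Y0 z2 : ℤ} (hY0 : Y0 ≠ 0) (hYB : Y0 ≠ B2)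
    (hs : |Y0 * (B2 - Y0)| < |s2 - Y0|)
    (h : z2 * (Y0 - s2) = s2 * (Y0 - B2)) : False := by
  have h1 : (z2 - (B2 - Y0)) * (s2 - Y0) = Y0 * (B2 - Y0) := by linear_combination -h
  have h2 : Y0 * (B2 - Y0) ≠ 0 := mul_ne_zero hY0 (fun h => hYB (by linarith))
  have h3 : z2 - (B2 - Y0) ≠ 0 := by
    intro h; rw [h, zero_mul] at h1; exact h2 h1.symm
  have h4 : 1 ≤ |z2 - (B2 - Y0)| := Int.one_le_abs h3
  have h5 : |Y0 * (B2 - Y0)| = |z2 - (B2 - Y0)| * |s2 - Y0| := by rw [← abs_mul, h1]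
  have h6 : |s2 - Y0| ≤ |z2 - (B2 - Y0)| * |s2 - Y0| :=
    le_mul_of_one_le_left (abs_nonneg _) h4
  linarith

end Pool.Agent.K4L
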