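import Pool.Agent.K4L.K3UCtx

/-!
# K3U, case gamma2, `t2` far
-/

namespace Pool.Agent.K4L

open Filter

/-- gamma2, `t2` not near and `t2 t` does not hit `g e`: leaf `lemB0` with `L = g e`, `M = b e`,
`N = g a` -/
theorem k3u_g2_leaf {R B : Finset Pt} {α b1 b2 : ℤ} (K : K3C R B α b1 b2) (G : ℤ)
    (hG0 : G ≠ 0) (hG1 : G ≠ 1) (hGy : ∀ β ∈ B, ∀ β0 ∈ B, β.2 ≠ G * β0.2)
    (hGa : ∀ β ∈ B, ¬ Col (G * b1, G * b2) (α, 0) β) :
    ∀ᶠ ε : ℤ in cofinite, IsCoprime (ε - b1) b2 → IsCoprime (ε - G * b1) (G * b2) →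
      b2 ∣ ε - α → ∀ β0 ∈ B, ∀ τ, b2 * τ = β0.2 * ε →
      ((τ, 0) : Pt) ∉ insert ((ε, 0) : Pt) R → ((τ, 0) : Pt) ∉ B →
      NoThreat (insert (ε, 0) R) (insert (τ, 0) B) →
      Uncov (insert (ε, 0) R) (insert (τ, 0) B) (0, 0) (b1, b2) →
      ((G * b1, G * b2) : Pt) ∉ insert ((ε, 0) : Pt) R →
      ((G * b1, G * b2) : Pt) ∉ insert ((τ, 0) : Pt) B →
      (∃ Y, Col (b1, b2) (ε, 0) Y ∧ Y ∉ insert ((ε, 0) : Pt) R ∧ Col (τ, 0) β0 Y ∧
        ∀ w ∈ insert ((ε, 0) : Pt) R, ¬ Col (τ, 0) β0 w) →
      ∀ t2, Col (0, 0) (b1, b2) t2 → t2 ∉ insert ((G * b1, G * b2) : Pt) (insert (ε, 0) R) →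
        t2 ∉ insert ((τ, 0) : Pt) B →
        (∑ β ∈ B, (|β.2| + |β.2 * (b2 - β.2)|)) < |t2.2| → t2.2 ≠ G * β0.2 →
        (∀ z, Col (G * b1, G * b2) (ε, 0) z → z.2 ≠ G * b2 → ¬ Col t2 (τ, 0) z) →
        Win (insert (G * b1, G * b2) (insert (ε, 0) R)) (insert t2 (insert (τ, 0) B)) := by
  classical
  have hb2 := K.hb2
  have hα := K.hα
  have hGb : G * b2 ≠ 0 := mul_ne_zero hG0 hb2
  have hsum : ∀ β ∈ B, |β.2| + |β.2 * (b2 - β.2)| ≤
      ∑ β ∈ B, (|β.2| + |β.2 * (b2 - β.2)|) := by
    intro β hβ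
    exact Finset.single_le_sum (f := fun β : Pt => |β.2| + |β.2 * (b2 - β.2)|)
      (fun z _ => by positivity) hβ
  filter_upwards [g2_hits K 1 one_ne_zero, g2_hits K G hG0, g2_pars K 1 one_ne_zero,
    g2_pars K G hG0, g2_alive K 1 one_ne_zero, g2_alive K G hG0, g2_mpars K G hG0,
    ev_abs 0, ev_linne 1 0 α (Or.inl one_ne_zero), ev_linne G 0 α (Or.inl hG0)]
    with ε hit1 hitG par1 parG al1 alG mpar e1 e2 e3
  intro hco1 hcoG hbα β0 hβ0 τ hτ htR htB hN1 hcbU hgR hgB hYex t2 ht2c ht2R ht2B hC hsG hno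
  obtain ⟨Y, hYbe, hYR, hYm, hmR⟩ := hYex
  simp only [one_mul, add_zero] at hit1 par1 al1 e2
  rw [add_zero] at e3
  have hε0 : ε ≠ 0 := by rintro rfl; simp at e1
  have y0b : β0.2 ≠ b2 := by
    intro h
    rw [h] at hτ
    have := mul_left_cancel₀ hb2 hτ
    rw [this] at htR
    exact htR (Finset.mem_insert_self _ _)
  have hs2 : t2.1 * b2 = t2.2 * b1 := by
    unfold Col at ht2c; simp only at ht2c; linear_combination -ht2c
  -- sizes
  have hty : ∀ β ∈ B, β.2 ≠ t2.2 := by
    intro β hβ h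
    have h1 := hsum β hβ
    rw [h] at h1
    have h2 : 0 ≤ |t2.2 * (b2 - t2.2)| := by
      positivity
    linarith
  have hbig1 : |β0.2 * (b2 - β0.2)| < |t2.2 - β0.2| := by
    have h1 := hsum β0 hβ0
    have h2 : |t2.2| ≤ |t2.2 - β0.2| + |β0.2| := by
      have := abs_add_le (t2.2 - β0.2) β0.2
      rwa [sub_add_cancel] at this
    linarith
  -- red stones
  obtain ⟨R1, hR1⟩ : ∃ R1 : Finset Pt, R1 = insert ((G * b1, G * b2) : Pt) (insert (ε, 0) R) :=
    ⟨_, rfl⟩
  obtain ⟨B1, hB1⟩ : ∃ B1 : Finset Pt, B1 = insert t2 (insert (τ, 0) B) := ⟨_, rfl⟩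
  have gR : ((G * b1, G * b2) : Pt) ∈ R1 := by rw [hR1]; exact Finset.mem_insert_self _ _
  have eR : ((ε, 0) : Pt) ∈ R1 := by
    rw [hR1]; exact Finset.mem_insert_of_mem (Finset.mem_insert_self _ _)
  have aR : ((α, 0) : Pt) ∈ R1 := by
    rw [hR1]; exact Finset.mem_insert_of_mem (Finset.mem_insert_of_mem K.aR)
  have bR : ((b1, b2) : Pt) ∈ R1 := by
    rw [hR1]; exact Finset.mem_insert_of_mem (Finset.mem_insert_of_mem K.bR)
  have cR : ((0, 0) : Pt) ∈ R1 := by
    rw [hR1]; exact Finset.mem_insert_of_mem (Finset.mem_insert_of_mem K.cR)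
  have hcbU' := hcbU
  have hN2 : NoThreat R1 B1 := by
    rw [hR1, hB1]
    exact hN1.of_uncov hcbU (Finset.subset_insert _ _) ht2c
      (fun h => ht2R (Finset.mem_insert_of_mem h)) ht2B
  have hB2 : ∀ β ∈ B1, β ∉ R1 := by
    rw [hR1, hB1]
    intro β hβ hR
    rcases Finset.mem_insert.mp hβ with hβ | hβ
    · rw [hβ] at hR; exact ht2R hR
    · rcases Finset.mem_insert.mp hR with hR | hR
      · rw [hR] at hβ; exact hgB hβ
      · rcases Finset.mem_insert.mp hβ with hβ | hβ
        · rw [hβ] at hR; exact htR hR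
        · rcases Finset.mem_insert.mp hR with hR | hR
          · rw [hR] at hβ; exact K.hy _ hβ rfl
          · exact K.hB β hβ hR
  have htau : τ ≠ ε := by
    rintro rfl; exact htR (Finset.mem_insert_self _ _)
  have htaua : τ ≠ α := by
    rintro rfl; exact htR (Finset.mem_insert_of_mem K.aR)
  have htau0 : τ ≠ 0 := by
    rintro rfl; exact htR (Finset.mem_insert_of_mem K.cR)
  have ht20 : t2.2 ≠ 0 := by
    intro h
    apply ht2R
    rw [h] at hs2
    have h1 : t2.1 = 0 := by
      rcases mul_eq_zero.mp (hs2.trans (zero_mul _)) with h | h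
      · exact h
      · exact absurd h hb2
    have : t2 = (0, 0) := Prod.ext h1 h
    rw [this]
    exact Finset.mem_insert_of_mem (Finset.mem_insert_of_mem K.cR)
  have ht2n : ∀ k : ℤ, ((k * b1, k * b2) : Pt) ∈ R1 → t2.2 ≠ k * b2 := by
    intro k hk h
    apply ht2R
    have h1 : t2.1 = k * b1 := by
      apply mul_right_cancel₀ hb2
      rw [hs2, h]; ring
    have : t2 = (k * b1, k * b2) := Prod.ext h1 h
    rw [this, ← hR1]
    exact hk
  have ht2b : t2.2 ≠ b2 := by
    have := ht2n 1 (by simpa using bR)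
    rwa [one_mul] at this
  have ht2g : t2.2 ≠ G * b2 := ht2n G gR
  -- stones on the lines `g' e`
  have hal : ∀ k : ℤ, k ≠ 0 → (∀ β ∈ B, ¬ Col (k * b1, k * b2) (ε, 0) β) → t2.2 ≠ k * b2 →
      ∀ z ∈ B1, ¬ Col (k * b1, k * b2) (ε, 0) z := by
    intro k hk h1 h2 z hz hc
    rw [hB1] at hz
    rcases Finset.mem_insert.mp hz with rfl | hz
    · unfold Col at hc
      simp only at hc
      have : (z.2 - k * b2) * ε = 0 := by linear_combination hc - k * hs2
      rcases mul_eq_zero.mp this with h | h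
      · exact h2 (by linarith)
      · exact hε0 h
    · rcases Finset.mem_insert.mp hz with rfl | hz
      · unfold Col at hc
        simp only at hc
        have : k * b2 * (τ - ε) = 0 := by linear_combination hc
        rcases mul_eq_zero.mp this with h | h
        · exact mul_ne_zero hk hb2 h
        · exact htau (by linarith)
      · exact h1 z hz hc
  have hLal : ALine R1 B1 (ε, 0) (G * b1, G * b2) := by
    refine ⟨eR, gR, ?_, ?_⟩
    · intro h
      exact hGb (congrArg Prod.snd h).symm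
    · intro z hz hc
      exact hal G hG0 alG ht2g z hz hc.swap12
  have hMal : ALine R1 B1 (ε, 0) (b1, b2) := by
    refine ⟨eR, bR, ?_, ?_⟩
    · intro h
      exact hb2 (congrArg Prod.snd h).symm
    · intro z hz hc
      refine hal 1 one_ne_zero (by simpa using al1) (by simpa using ht2b) z hz ?_
      simpa using hc.swap12
  have hNal : ALine R1 B1 (G * b1, G * b2) (α, 0) := by
    refine ⟨gR, aR, ?_, ?_⟩
    · intro h
      exact hGb (congrArg Prod.snd h)
    · intro z hz hc
      rw [hB1] at hz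
      rcases Finset.mem_insert.mp hz with rfl | hz
      · unfold Col at hc
        simp only at hc
        have : (z.2 - G * b2) * α = 0 := by linear_combination hc - G * hs2
        rcases mul_eq_zero.mp this with h | h
        · exact ht2g (by linarith)
        · exact hα h
      · rcases Finset.mem_insert.mp hz with rfl | hz
        · unfold Col at hc
          simp only at hc
          have : G * b2 * (τ - α) = 0 := by linear_combination hc
          rcases mul_eq_zero.mp this with h | h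
          · exact hGb h
          · exact htaua (by linarith)
        · exact hGa z hz hc
  -- a common free point of `M` and `N` wins
  by_cases hx : ∃ z, Col (ε, 0) (b1, b2) z ∧ Col (G * b1, G * b2) (α, 0) z ∧ z ∉ R1
  · obtain ⟨z, hz1, hz2, hzR⟩ := hx
    rw [← hR1, ← hB1]
    refine win_double hMal hNal hzR (fun h => hMal.2.2.2 z h hz1) hz1 hz2
      (hN2.mono (Finset.subset_insert _ _) (Finset.Subset.refl _)) ?_
    rintro ⟨h1, h2⟩
    unfold Col at h1 h2
    simp only at h1 h2
    have : b2 * (α - ε) = 0 := by linear_combination -h2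
    rcases mul_eq_zero.mp this with h | h
    · exact hb2 h
    · exact e2 (by linarith)
  have hMNR : ∀ z, Col (ε, 0) (b1, b2) z → Col (G * b1, G * b2) (α, 0) z → z ∈ R1 := by
    intro z h1 h2
    by_contra h3
    exact hx ⟨z, h1, h2, h3⟩
  -- `m = t β0`
  have hgm : ¬ Col (τ, 0) β0 (G * b1, G * b2) := by
    intro hc
    obtain ⟨w, hw, hcw⟩ := hcbU (G * b1, G * b2) (by unfold Col; simp only; ring) hgR hgB (τ, 0)
      (Finset.mem_insert_self _ _) β0 (Finset.mem_insert_of_mem hβ0)
      (by intro h; rw [← h] at hβ0; exact htB hβ0) hc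
    exact hmR w hw hcw
  have hmR1 : ∀ z ∈ R1, ¬ Col (τ, 0) β0 z := by
    intro z hz
    rw [hR1] at hz
    rcases Finset.mem_insert.mp hz with rfl | hz
    · exact hgm
    · exact hmR z hz
  have hYR1 : Y ∉ R1 := by
    intro h
    exact hmR1 Y h hYm
  have htβ0 : ((τ, 0) : Pt) ≠ β0 := by
    intro h; rw [← h] at hβ0; exact htB hβ0
  have hsingle : ∀ β ∈ B, β.2 = β0.2 → β = β0 := by
    intro β hβ h
    by_contra hne
    rcases K.hpa β hβ β0 hβ0 hne h with this | this
    · exact y0b (h ▸ this)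
    · apply this
      rw [h]
      obtain ⟨c, hc⟩ := hbα
      exact ⟨τ - β0.2 * c, by linear_combination (-β0.2) * hc - hτ⟩
  -- hits of `M`
  have hMU : ∀ z, Col (ε, 0) (b1, b2) z → z ∉ R1 → ∀ u ∈ B1, ∀ v ∈ B1, u ≠ v → Col u v z →
      (∃ w ∈ R1, Col u v w) ∨ (Col (τ, 0) β0 u ∧ Col (τ, 0) β0 v) := by
    intro z hz hzR
    have hz' : Col (b1, b2) (ε, 0) z := hz.swap12
    have hzb : z.2 ≠ b2 := by
      intro h
      apply hzR
      have : z = (b1, b2) := by
        refine Prod.ext ?_ h
        unfold Col at hz'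
        simp only at hz'
        rw [h] at hz'
        have h1 : b2 * (z.1 - b1) = 0 := by linear_combination hz'
        rcases mul_eq_zero.mp h1 with h1 | h1
        · exact absurd h1 hb2
        · simp only; linarith
      rw [this]; exact bR
    obtain ⟨k1, k2, k3, k4⟩ := hit1 β0 hβ0 τ hτ y0b z hz' hzb
    rw [hB1]
    have main := pair_cases (B := B) (t2 := t2) (t := (τ, 0)) (P := fun u v => Col u v z →
      (∀ w ∈ R1, ¬ Col u v w) → (Col (τ, 0) β0 u ∧ Col (τ, 0) β0 v)) ?_ ?_ ?_ ?_ ?_
    · intro u hu v hv huv hc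
      by_cases hd : ∃ w ∈ R1, Col u v w
      · exact Or.inl hd
      · right
        exact main u hu v hv huv hc (fun w hw hcw => hd ⟨w, hw, hcw⟩)
    · intro u v h hc hred
      obtain ⟨h1, h2⟩ := h hc.swap12 (fun w hw hcw => hred w hw hcw.swap12)
      exact ⟨h2, h1⟩
    · intro u hu v hv huv hc hred
      exact (k1 u hu v hv huv hc (hred _ bR) (hred _ bR) hco1).elim
    · intro β hβ hc hred
      rw [hsingle β hβ (k2 β hβ hc)]
      exact ⟨Col.refl_left _ _, Col.refl_right _ _⟩
    · intro β hβ hc hred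
      exact absurd (k3 t2.1 t2.2 hs2 β hβ hc).1 (hty β hβ)
    · intro hc hred
      exact (g2_ts_no (K.hy β0 hβ0) y0b hbig1 (k4 t2.1 t2.2 hs2 hc)).elim
  -- hits of `L`
  have hLU : Uncov R1 B1 (ε, 0) (G * b1, G * b2) := by
    intro z hz hzR _
    have hz' : Col (G * b1, G * b2) (ε, 0) z := hz.swap12
    have hzb : z.2 ≠ G * b2 := by
      intro h
      apply hzR
      have : z = (G * b1, G * b2) := by
        refine Prod.ext ?_ h
        unfold Col at hz'
        simp only at hz'
        rw [h] at hz'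
        have h1 : G * b2 * (z.1 - G * b1) = 0 := by linear_combination hz'
        rcases mul_eq_zero.mp h1 with h1 | h1
        · exact absurd h1 hGb
        · simp only; linarith
      rw [this]; exact gR
    obtain ⟨k1, k2, k3, k4⟩ := hitG β0 hβ0 τ hτ y0b z hz' hzb
    rw [hB1]
    have main := pair_cases (B := B) (t2 := t2) (t := (τ, 0)) (P := fun u v => Col u v z →
      (∀ w ∈ R1, ¬ Col u v w) → False) ?_ ?_ ?_ ?_ ?_
    · intro u hu v hv huv hc
      by_contra hd
      push Not at hd
      exact main u hu v hv huv hc hd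
    · intro u v h hc hred
      exact h hc.swap12 (fun w hw hcw => hred w hw hcw.swap12)
    · intro u hu v hv huv hc hred
      exact k1 u hu v hv huv hc (hred _ gR) (hred _ bR) hcoG
    · intro β hβ hc hred
      exact hGy β hβ β0 hβ0 (k2 β hβ hc)
    · intro β hβ hc hred
      exact absurd (k3 t2.1 t2.2 hs2 β hβ hc).1 (hty β hβ)
    · intro hc hred
      exact hno z hz' hzb hc
  -- parallels
  obtain ⟨p1, p2, p3, p4⟩ := par1 β0 hβ0 τ hτ
  obtain ⟨q1, q2, q3, q4⟩ := parG β0 hβ0 τ hτ
  obtain ⟨m1, m2, m3⟩ := mpar β0 hβ0 τ hτ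
  have hparL : ∀ u ∈ B1, ∀ v ∈ B1, u ≠ v → ¬ Par (G * b1, G * b2) (ε, 0) u v := by
    rw [hB1]
    refine pair_cases (P := fun u v => ¬ Par (G * b1, G * b2) (ε, 0) u v) ?_ q1 q2
      (fun β hβ => q3 t2.1 t2.2 hs2 β hβ) ?_
    · intro u v h h'
      exact h h'.symm_right
    · intro h
      exact hsG (q4 t2.1 t2.2 hs2 h)
  have hparM : ∀ u ∈ B1, ∀ v ∈ B1, u ≠ v → ¬ Par (b1, b2) (ε, 0) u v := by
    rw [hB1]
    refine pair_cases (P := fun u v => ¬ Par (b1, b2) (ε, 0) u v) ?_ p1 p2
      (fun β hβ => p3 t2.1 t2.2 hs2 β hβ) ?_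
    · intro u v h h'
      exact h h'.symm_right
    · intro h
      have := p4 t2.1 t2.2 hs2 h
      rw [this, sub_self, abs_zero] at hbig1
      exact absurd hbig1 (not_lt.mpr (abs_nonneg _))
  have hparm : ∀ u ∈ B1, ∀ v ∈ B1, u ≠ v → Par (τ, 0) β0 u v →
      (Col (τ, 0) β0 u ∧ Col (τ, 0) β0 v) := by
    rw [hB1]
    refine pair_cases (P := fun u v => Par (τ, 0) β0 u v →
      (Col (τ, 0) β0 u ∧ Col (τ, 0) β0 v)) ?_ ?_ ?_ ?_ ?_
    · intro u v h h'
      have := h h'.symm_right
      exact ⟨this.2, this.1⟩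
    · intro u hu v hv huv h
      exact absurd h (m1 u hu v hv huv)
    · intro β hβ h
      exact ⟨Col.refl_left _ _, h⟩
    · intro β hβ h
      exact absurd h (m2 t2.1 t2.2 hs2 β hβ (hty β hβ))
    · intro h
      exact ⟨h.symm_right, Col.refl_left _ _⟩
  rw [← hR1, ← hB1]
  refine lemB0 (o := (ε, 0)) (a := (G * b1, G * b2)) (b := (b1, b2)) (v0 := (G * b1, G * b2))
    (r := (α, 0)) (p := (τ, 0)) (q := β0) (Y := Y) (x0 := (α, 0)) (x1 := (b1, b2))
    (x2 := (ε, 0)) (x3 := (G * b1, G * b2)) (xl := (α, 0)) (xg := (α, 0))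
    (xg' := (G * b1, G * b2)) hN2 hB2 hLal hLU hMal hNal hMNR htβ0 hYbe.swap12 hYm hYR1 hmR1 hMU
    ?_ ?_ ?_ ?_ m3 aR bR eR gR ?_ ?_ ?_ ?_ aR ?_ ?_ ?_ (by simp) (by simp) ?_ ?_ ?_ ?_ ?_
  · intro h
    unfold Col at h
    simp only at h
    have : b2 * (G - 1) * ε = 0 := by linear_combination h
    rcases mul_eq_zero.mp this with h | h
    · rcases mul_eq_zero.mp h with h | h
      · exact hb2 h
      · exact hG1 (by linarith)
    · exact hε0 h
  · intro h
    unfold Par at h
    simp only at h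
    have : G * b2 * (ε - α) = 0 := by linear_combination h
    rcases mul_eq_zero.mp this with h | h
    · exact hGb h
    · exact e2 (by linarith)
  · intro h
    unfold Par at h
    simp only at h
    have : b2 * (G * ε - α) = 0 := by linear_combination h
    rcases mul_eq_zero.mp this with h | h
    · exact hb2 h
    · exact e3 (by linarith)
  · intro h
    exact q2 β0 hβ0 h.swap_left
  · intro h
    unfold Col at h
    simp only at h
    have : b2 * (ε - α) = 0 := by linear_combination -h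
    rcases mul_eq_zero.mp this with h | h
    · exact hb2 h
    · exact e2 (by linarith)
  · intro h
    unfold Col at h
    simp only at h
    have : b2 * α * (G - 1) = 0 := by linear_combination -h
    rcases mul_eq_zero.mp this with h | h
    · rcases mul_eq_zero.mp h with h | h
      · exact hb2 h
      · exact hα h
    · exact hG1 (by linarith)
  · intro h
    unfold Col at h
    simp only at h
    have : G * b2 * (ε - α) = 0 := by linear_combination h
    rcases mul_eq_zero.mp this with h | h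
    · exact hGb h
    · exact e2 (by linarith)
  · intro h
    unfold Col at h
    simp only at h
    have : b2 * (G - 1) * ε = 0 := by linear_combination h
    rcases mul_eq_zero.mp this with h | h
    · rcases mul_eq_zero.mp h with h | h
      · exact hb2 h
      · exact hG1 (by linarith)
    · exact hε0 h
  · intro h
    unfold Col at h
    simp only at h
    have : G * b2 * (ε - α) = 0 := by linear_combination h
    rcases mul_eq_zero.mp this with h | h
    · exact hGb h
    · exact e2 (by linarith)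
  · intro h
    exact hb2 (congrArg Prod.snd h).symm
  · intro u hu v hv huv h
    exact absurd h.swap_left (hparL u hu v hv huv)
  · intro h
    unfold Col at h
    simp only at h
    have : b2 * (ε - α) = 0 := by linear_combination h
    rcases mul_eq_zero.mp this with h | h
    · exact hb2 h
    · exact e2 (by linarith)
  · intro h
    unfold Col at h
    simp only at h
    have : b2 * (G - 1) * ε = 0 := by linear_combination -h
    rcases mul_eq_zero.mp this with h | h
    · rcases mul_eq_zero.mp h with h | h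
      · exact hb2 h
      · exact hG1 (by linarith)
    · exact hε0 h
  · intro h
    exact hGb (congrArg Prod.snd h)
  · intro u hu v hv huv h
    exact absurd h.swap_left (hparM u hu v hv huv)
  · intro u hu v hv huv h
    exact Or.inr (hparm u hu v hv huv h).1

end Pool.Agent.K4L
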