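import Pool.Agent.K4L.Fork
import Pool.Agent.K4L.Block

/-!
# Near tempo: forks with a blocked line
-/

namespace Pool.Agent.K4L

/-- FINISH, the line `c v` is uncovered after the move `g` -/
theorem fin_win' {R B : Finset Pt} {c v v' e g f : Pt} (hN : NoThreat R B)
    (h1 : ALine R B c v) (h2 : ALine R B c v') (hU : Uncov (insert g R) B c v)
    (hcv : ¬ Col c v v')
    (he : e ∈ R) (heL : ¬ Col c v e) (hg : Col c v g) (hgc : g ≠ c) (hgv : g ≠ v)
    (hf : Col c v' f) (hfc : f ≠ c) (hfv : f ≠ v') (hegf : Col e g f)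
    (heB : ∀ z ∈ B, ¬ Col e g z) : Win R B := by
  by_cases hgR : g ∈ R
  · exact win_complete h1 hgR hgc.symm hgv.symm hg
  by_cases hfR : f ∈ R
  · exact win_complete h2 hfR hfc.symm hfv.symm hf
  have hgB : g ∉ B := fun hh => h1.2.2.2 g hh hg
  have hfB : f ∉ B := fun hh => h2.2.2.2 f hh hf
  have hge : g ≠ e := by rintro rfl; exact heL hg
  -- a point of both lines is `c`
  have hmeet : ∀ z, Col c v z → Col c v' z → z = c := by
    intro z hz hz'
    by_contra hne
    apply hcv
    exact (Col.line_eq_of_two (z := v') h1.ne h2.ne hne hz (Col.refl_left _ _) hz'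
      (Col.refl_left _ _)).mpr (Col.refl_right _ _)
  refine win_force h1 hgR hgB hg (hN.mono (Finset.subset_insert _ _) (Finset.Subset.refl _)) ?_
  intro y hyR hyB hy
  have hyc : y ≠ c := by rintro rfl; exact hyR (Finset.mem_insert_of_mem h1.1)
  have hyg : y ≠ g := by rintro rfl; exact hyR (Finset.mem_insert_self _ _)
  have hyR' : y ∉ R := fun hh => hyR (Finset.mem_insert_of_mem hh)
  have hy2 : ¬ Col c v' y := fun hh => hyc (hmeet y hy hh)
  have hA : ALine (insert g R) (insert y B) c v' := h2.insert (Finset.subset_insert _ _) hy2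
  have hA' : ALine (insert g R) (insert y B) e g := by
    refine ⟨Finset.mem_insert_of_mem he, Finset.mem_insert_self _ _, hge.symm, ?_⟩
    intro z hz hc
    rcases Finset.mem_insert.mp hz with rfl | hz
    · apply heL
      exact (Col.line_eq_of_two (z := e) h1.ne hge.symm hyg hy hg hc (Col.refl_right _ _)).mpr
        (Col.refl_left _ _)
    · exact heB z hz hc
  refine win_double hA hA' (z := f) ?_ ?_ hf hegf ?_ ?_
  · intro hh
    rcases Finset.mem_insert.mp hh with hh | hh
    · rw [hh] at hf; exact hgc (hmeet g hg hf)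
    · exact hfR hh
  · intro hh
    rcases Finset.mem_insert.mp hh with hh | hh
    · rw [hh] at hf; exact hyc (hmeet y hy hf)
    · exact hfB hh
  · exact (hN.mono (Finset.subset_insert g R) (Finset.Subset.refl _)).of_uncov hU
      (Finset.subset_insert _ _) hy hyR hyB
  · rintro ⟨_, hh⟩
    exact hgc (hmeet g hg hh)

/-- FORK WITH A BLOCK: reds `d, f, c, b`; `f'` on the line `d f`, `g'` on the line `d c`, `b, f', g'`
collinear. The line `d f` is hit only by the blue line `m = m1 m2`, in `Y`. If Blue answers `f'`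
at `Y`, Red blocks `m` at `y1` on the alive line `e1 e2` (with tempo), which is hit only by `m`. -/
theorem fork_block {R B : Finset Pt} {d f c b f' g' m1 m2 Y e1 e2 y1 : Pt}
    (hN : NoThreat R B) (hK : ALine R B d f) (hC : ALine R B d c) (hne : ¬ Col d f c)
    (hf'K : Col d f f') (hf'd : f' ≠ d) (hf'f : f' ≠ f)
    (hg'C : Col d c g') (hg'd : g' ≠ d) (hg'c : g' ≠ c)
    (hb : b ∈ R) (hbK : ¬ Col d f b) (hcol : Col b f' g') (hbB : ∀ z ∈ B, ¬ Col b f' z)
    (hm1 : m1 ∈ B) (hm : m1 ≠ m2)
    (hKhit : ∀ z, Col d f z → z ∉ R → z ∉ B → ∀ β ∈ B, ∀ β' ∈ B, β ≠ β' → Col β β' z →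
      (∃ w ∈ R, Col β β' w) ∨ (Col m1 m2 β ∧ Col m1 m2 β'))
    (hYm : Col m1 m2 Y) (hYK : Col d f Y)
    (hE : ALine (insert f' R) (insert Y B) e1 e2) (hy1E : Col e1 e2 y1) (hy1m : Col m1 m2 y1)
    (hy1R : y1 ∉ insert f' R)
    (hEhit : ∀ z, Col e1 e2 z → z ∉ insert f' R → z ∉ insert Y B → ∀ β ∈ insert Y B,
      ∀ β' ∈ insert Y B, β ≠ β' → Col β β' z →
        (∃ w ∈ insert f' R, Col β β' w) ∨ (Col m1 m2 β ∧ Col m1 m2 β'))
    (hEfree : ∀ t2, Col e1 e2 t2 → t2 ∉ insert f' R → ¬ Col d c t2 ∧ ¬ Col b f' t2) :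
    Win R B := by
  classical
  by_cases hf'R : f' ∈ R
  · exact win_complete hK hf'R hf'd.symm hf'f.symm hf'K
  by_cases hg'R : g' ∈ R
  · exact win_complete hC hg'R hg'd.symm hg'c.symm hg'C
  have hf'B : f' ∉ B := fun hh => hK.2.2.2 f' hh hf'K
  have hg'B : g' ∉ B := fun hh => hC.2.2.2 g' hh hg'C
  have hf'b : f' ≠ b := by rintro rfl; exact hbK hf'K
  have hmeet : ∀ z, Col d f z → Col d c z → z = d := by
    intro z hz hz'
    by_contra hcon
    apply hne
    exact (Col.line_eq_of_two (z := c) hK.ne hC.ne hcon hz (Col.refl_left _ _) hz'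
      (Col.refl_left _ _)).mpr (Col.refl_right _ _)
  -- a blue stone is not on `d f`; hence `m` meets `d f` only in `Y`
  have hm1K : ¬ Col d f m1 := hK.2.2.2 m1 hm1
  have hmY : ∀ z, Col d f z → Col m1 m2 z → z = Y := by
    intro z hz hz'
    by_contra hcon
    apply hm1K
    exact (Col.line_eq_of_two (z := m1) hK.ne hm hcon hz hYK hz' hYm).mpr (Col.refl_left _ _)
  have hbf' : ∀ z, Col d f z → Col b f' z → z = f' := by
    intro z hz hz'
    by_contra hcon
    apply hbK
    exact (Col.line_eq_of_two (z := b) hK.ne hf'b.symm hcon hz hf'K hz' (Col.refl_right _ _)).mpr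
      (Col.refl_left _ _)
  have hN1 : NoThreat (insert f' R) B := hN.mono (Finset.subset_insert _ _) (Finset.Subset.refl _)
  refine win_force hK hf'R hf'B hf'K hN1 ?_
  intro y hyR hyB hy
  have hyd : y ≠ d := by rintro rfl; exact hyR (Finset.mem_insert_of_mem hK.1)
  have hyf' : y ≠ f' := by rintro rfl; exact hyR (Finset.mem_insert_self _ _)
  have hyR' : y ∉ R := fun hh => hyR (Finset.mem_insert_of_mem hh)
  have hyC : ¬ Col d c y := fun hh => hyd (hmeet y hy hh)
  have hyb : ¬ Col b f' y := fun hh => hyf' (hbf' y hy hh)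
  by_cases hyY : y = Y
  · -- Blue attacks along `m`
    subst hyY
    refine win_block (p := m1) (q := m2) (u := e1) (v := e2) (y := y1) hN1 hm ?_ hE hy1E hy1m
      hy1R ?_ ?_
    · intro p hp q hq hpq hc
      rcases hKhit y hy hyR' hyB p hp q hq hpq hc with ⟨w, hw, h⟩ | h
      · exact Or.inl ⟨w, Finset.mem_insert_of_mem hw, h⟩
      · exact Or.inr h
    · intro hh; exact hE.2.2.2 y1 hh hy1E
    · intro t2 ht2 ht2R ht2B hN2
      have ht2R' : t2 ∉ insert f' R := fun hh => ht2R (Finset.mem_insert_of_mem hh)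
      obtain ⟨hd1, hd2⟩ := hEfree t2 ht2 ht2R'
      have hN3 : NoThreat (insert y1 (insert f' R)) (insert t2 (insert y B)) := by
        refine hN2.insert (Finset.Subset.refl _) ?_
        intro β hβ β' hβ' hne' hc
        rcases hEhit t2 ht2 ht2R' ht2B β hβ β' hβ' hne' hc with ⟨w, hw, h⟩ | ⟨h1, h2⟩
        · exact ⟨w, Finset.mem_insert_of_mem hw, h⟩
        · exact ⟨y1, Finset.mem_insert_self _ _, (Col.line_iff hm hne' h1 h2).mp hy1m⟩
      have hC' : ALine (insert y1 (insert f' R)) (insert t2 (insert y B)) d c := by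
        have h1 : ALine (insert f' R) (insert y B) d c := hC.insert (Finset.subset_insert _ _) hyC
        exact h1.insert (Finset.subset_insert _ _) hd1
      have hB' : ALine (insert y1 (insert f' R)) (insert t2 (insert y B)) b f' := by
        refine ⟨Finset.mem_insert_of_mem (Finset.mem_insert_of_mem hb),
          Finset.mem_insert_of_mem (Finset.mem_insert_self _ _), hf'b.symm, ?_⟩
        intro z hz
        rcases Finset.mem_insert.mp hz with rfl | hz
        · exact hd2
        · rcases Finset.mem_insert.mp hz with rfl | hz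
          · exact hyb
          · exact hbB z hz
      by_cases hg1 : g' = y1
      · refine win_complete hC' (w := g') ?_ hg'd.symm hg'c.symm hg'C
        rw [hg1]; exact Finset.mem_insert_self _ _
      have hg'f' : g' ≠ f' := by
        intro h
        rw [h] at hg'C
        exact hf'd (hmeet f' hf'K hg'C)
      refine win_double hC' hB' (z := g') ?_ ?_ hg'C hcol ?_ ?_
      · intro hh
        rcases Finset.mem_insert.mp hh with hh | hh
        · exact hg1 hh
        · rcases Finset.mem_insert.mp hh with hh | hh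
          · exact hg'f' hh
          · exact hg'R hh
      · intro hh; exact hC'.2.2.2 g' hh hg'C
      · exact hN3.mono (Finset.subset_insert _ _) (Finset.Subset.refl _)
      · rintro ⟨_, hh⟩
        exact hf'd (hmeet f' hf'K hh)
  · -- a quiet reply
    have hN3 : NoThreat (insert f' R) (insert y B) := by
      refine hN1.insert (Finset.Subset.refl _) ?_
      intro β hβ β' hβ' hne' hc
      rcases hKhit y hy hyR' hyB β hβ β' hβ' hne' hc with ⟨w, hw, h⟩ | ⟨h1, h2⟩
      · exact ⟨w, Finset.mem_insert_of_mem hw, h⟩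
      · exact absurd (hmY y hy ((Col.line_iff hm hne' h1 h2).mpr hc)) hyY
    have hC' : ALine (insert f' R) (insert y B) d c := hC.insert (Finset.subset_insert _ _) hyC
    have hB' : ALine (insert f' R) (insert y B) b f' := by
      refine ⟨Finset.mem_insert_of_mem hb, Finset.mem_insert_self _ _, hf'b.symm, ?_⟩
      intro z hz
      rcases Finset.mem_insert.mp hz with rfl | hz
      · exact hyb
      · exact hbB z hz
    have hg'f' : g' ≠ f' := by
      intro h
      rw [h] at hg'C
      exact hf'd (hmeet f' hf'K hg'C)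
    refine win_double hC' hB' (z := g') ?_ ?_ hg'C hcol ?_ ?_
    · intro hh
      rcases Finset.mem_insert.mp hh with hh | hh
      · exact hg'f' hh
      · exact hg'R hh
    · intro hh; exact hC'.2.2.2 g' hh hg'C
    · exact hN3.mono (Finset.subset_insert _ _) (Finset.Subset.refl _)
    · rintro ⟨_, hh⟩
      exact hf'd (hmeet f' hf'K hh)

/-- all blue pairs which see `z` -/
theorem hit_cases {B0 : Finset Pt} {s t z : Pt} {Q : Pt → Pt → Prop}
    (hQ : ∀ x y, Q x y → Q y x)
    (h0 : ∀ β ∈ B0, ∀ β' ∈ B0, β ≠ β' → Col β β' z → Q β β')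
    (hs : ∀ β ∈ B0, Col β s z → Q β s) (ht : ∀ β ∈ B0, Col β t z → Q β t) (hst : Q s t) :
    ∀ β ∈ insert t (insert s B0), ∀ β' ∈ insert t (insert s B0), β ≠ β' → Col β β' z →
      Q β β' := by
  intro β hβ β' hβ' hne hc
  simp only [Finset.mem_insert] at hβ hβ'
  rcases hβ with hβ | hβ | hβ
  · rcases hβ' with hβ' | hβ' | hβ'
    · exact absurd (hβ.trans hβ'.symm) hne
    · rw [hβ, hβ']; exact hQ _ _ hst
    · rw [hβ] at hc ⊢; exact hQ _ _ (ht β' hβ' hc.swap12)
  · rcases hβ' with hβ' | hβ' | hβ'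
    · rw [hβ, hβ']; exact hst
    · exact absurd (hβ.trans hβ'.symm) hne
    · rw [hβ] at hc ⊢; exact hQ _ _ (hs β' hβ' hc.swap12)
  · rcases hβ' with hβ' | hβ' | hβ'
    · rw [hβ'] at hc ⊢; exact ht β hβ hc
    · rw [hβ'] at hc ⊢; exact hs β hβ hc
    · exact h0 β hβ β' hβ' hne hc

end Pool.Agent.K4L
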