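import Pool.Agent.K4L.K3UCtx
import Pool.Agent.K4L.NTFork
import Pool.Agent.K4L.ForkQ

/-!
# K3U, kills: arithmetic

`c = (0,0)`, `a = (α, 0)`, `b = (b1, b2)`; `X z = b2 z.1 - b1 z.2`. `e = (ε, 0)`,
`g' = (G b1, G b2)`, `P = κ e + (1 - κ) g'`, `t3 = k e + (1 - k) g'`, `t2 = (s1, s)` on `c b`,
`t = (τ, 0)` with `b2 τ = y0 ε`.  In the coordinates `(X, Y)`: `e = (b2 ε, 0)`, `g' = (0, G b2)`,
`t = (y0 ε, 0)`, `t2 = (0, s)`, `P = (b2 κ ε, (1 - κ) G b2)`.
-/

namespace Pool.Agent.K4L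

open Filter

/-- `z` is seen by a blue pair whose line carries no red stone -/
def Hit (R B : Finset Pt) (z : Pt) : Prop :=
  ∃ β ∈ B, ∃ β' ∈ B, β ≠ β' ∧ Col β β' z ∧ ∀ w ∈ R, ¬ Col β β' w

theorem uncov_of_hit {R B : Finset Pt} {u v : Pt}
    (h : ∀ z, Col u v z → z ∉ R → z ∉ B → ¬ Hit R B z) : Uncov R B u v := by
  intro z hz hzR hzB p hp q hq hpq hc
  by_contra hcon
  push Not at hcon
  exact h z hz hzR hzB ⟨p, hp, q, hq, hpq, hc, hcon⟩

theorem hit_of_not_uncov {R B : Finset Pt} {u v : Pt} (h : ¬ Uncov R B u v) :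
    ∃ z, Col u v z ∧ z ∉ R ∧ z ∉ B ∧ Hit R B z := by
  by_contra hcon
  apply h
  apply uncov_of_hit
  intro z h1 h2 h3 h4
  exact hcon ⟨z, h1, h2, h3, h4⟩

/-- the alive lines through a blue stone `t` -/
def Ray (R B : Finset Pt) (t z : Pt) : Prop := ∃ β ∈ B, Col t β z ∧ ∀ w ∈ R, ¬ Col t β w

/-- the alive line through two blue stones -/
def Seg (R : Finset Pt) (t t' z : Pt) : Prop := Col t t' z ∧ ∀ w ∈ R, ¬ Col t t' w

theorem hit_insert {R B : Finset Pt} {t z : Pt} (h : Hit R (insert t B) z) :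
    Hit R B z ∨ Ray R B t z := by
  obtain ⟨β, hβ, β', hβ', hne, hc, hred⟩ := h
  rcases Finset.mem_insert.mp hβ with h1 | h1
  · rcases Finset.mem_insert.mp hβ' with h2 | h2
    · exact absurd (h1.trans h2.symm) hne
    · right
      rw [h1] at hc hred
      exact ⟨β', h2, hc, hred⟩
  · rcases Finset.mem_insert.mp hβ' with h2 | h2
    · right
      rw [h2] at hc hred
      exact ⟨β, h1, hc.swap12, fun w hw h => hred w hw h.swap12⟩
    · left
      exact ⟨β, h1, β', h2, hne, hc, hred⟩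

theorem ray_insert {R B : Finset Pt} {t t' z : Pt} (h : Ray R (insert t' B) t z) :
    Ray R B t z ∨ Seg R t t' z := by
  obtain ⟨β, hβ, hc, hred⟩ := h
  rcases Finset.mem_insert.mp hβ with h1 | h1
  · right
    rw [h1] at hc hred
    exact ⟨hc, hred⟩
  · left
    exact ⟨β, h1, hc, hred⟩

/-- all hits by `B, t, t2, t3` -/
theorem hit3 {R B : Finset Pt} {t t2 t3 z : Pt}
    (h : Hit R (insert t3 (insert t2 (insert t B))) z) :
    Hit R B z ∨ Ray R B t z ∨ Ray R B t2 z ∨ Seg R t2 t z ∨ Ray R B t3 z ∨ Seg R t3 t z ∨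
      Seg R t3 t2 z := by
  rcases hit_insert h with h | h
  · rcases hit_insert h with h | h
    · rcases hit_insert h with h | h
      · exact Or.inl h
      · exact Or.inr (Or.inl h)
    · rcases ray_insert h with h | h
      · exact Or.inr (Or.inr (Or.inl h))
      · exact Or.inr (Or.inr (Or.inr (Or.inl h)))
  · rcases ray_insert h with h | h
    · rcases ray_insert h with h | h
      · exact Or.inr (Or.inr (Or.inr (Or.inr (Or.inl h))))
      · exact Or.inr (Or.inr (Or.inr (Or.inr (Or.inr (Or.inl h)))))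
    · exact Or.inr (Or.inr (Or.inr (Or.inr (Or.inr (Or.inr h)))))

/-- LF: a linear fractional equation with a large parameter -/
theorem lf (p1 p0 q1 q0 : ℤ) (hp : p1 ≠ 0) : ∀ᶠ ε : ℤ in cofinite, ∀ w : ℤ,
    w * (p1 * ε + p0) = q1 * ε + q0 → w * p1 = q1 ∧ w * p0 = q0 := by
  filter_upwards [ev_abs (2 * |p0|), ev_abs (2 * (|q1| + |q0|) * |p0| + |q0|), ev_abs 0]
    with ε e1 e2 e3
  intro w hw
  have hp1 : 1 ≤ |p1| := Int.one_le_abs hp
  have hε : 1 ≤ |ε| := by linarith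
  have h1 : |ε| ≤ 2 * |p1 * ε + p0| := by
    have h2 : |p1 * ε| ≤ |p1 * ε + p0| + |p0| := by
      have := abs_sub (p1 * ε + p0) p0
      rwa [add_sub_cancel_right] at this
    rw [abs_mul] at h2
    have h3 : |ε| ≤ |p1| * |ε| := le_mul_of_one_le_left (abs_nonneg _) hp1
    linarith
  have h2 : |w| * |p1 * ε + p0| ≤ (|q1| + |q0|) * |ε| := by
    rw [← abs_mul, hw]
    have h3 := abs_add_le (q1 * ε) q0
    rw [abs_mul] at h3
    have h4 : |q0| ≤ |q0| * |ε| := le_mul_of_one_le_right (abs_nonneg _) hε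
    linarith
  have h3 : |w| ≤ 2 * (|q1| + |q0|) := by
    have h4 : |w| * |ε| ≤ |w| * (2 * |p1 * ε + p0|) :=
      mul_le_mul_of_nonneg_left h1 (abs_nonneg _)
    have h5 : |w| * |ε| ≤ (2 * (|q1| + |q0|)) * |ε| := by linarith
    exact le_of_mul_le_mul_right h5 (by linarith)
  have h4 : (w * p1 - q1) * ε + (w * p0 - q0) = 0 := by linear_combination hw
  have h5 : |w * p0 - q0| < |ε| := by
    have h6 := abs_sub (w * p0) q0
    rw [abs_mul] at h6
    have h7 : |w| * |p0| ≤ 2 * (|q1| + |q0|) * |p0| :=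
      mul_le_mul_of_nonneg_right h3 (abs_nonneg _)
    linarith
  obtain ⟨h6, h7⟩ := lin_large h5 h4
  exact ⟨by linarith, by linarith⟩

/-- a polynomial of degree `≤ 2` which is not constant has no large zeros -/
theorem ev_quad (A B C : ℤ) (h : A ≠ 0 ∨ B ≠ 0 ∨ C ≠ 0) :
    ∀ᶠ ρ : ℤ in cofinite, A * ρ * ρ + B * ρ + C ≠ 0 := by
  by_cases hA : A = 0
  · have h' : B ≠ 0 ∨ C ≠ 0 := by
      rcases h with h | h
      · exact absurd hA h
      · exact h
    filter_upwards [ev_linne B C 0 h'] with ρ hρ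
    rw [hA]
    intro h0
    exact hρ (by linear_combination h0)
  · filter_upwards [ev_abs (|B| + |C|), ev_abs 0] with ρ h1 h2 h0
    have hA1 : 1 ≤ |A| := Int.one_le_abs hA
    have h3 : A * ρ * ρ = -(B * ρ + C) := by linarith
    have h4 : |A * ρ * ρ| ≤ |B| * |ρ| + |C| := by
      rw [h3, abs_neg]
      have := abs_add_le (B * ρ) C
      rwa [abs_mul] at this
    rw [abs_mul, abs_mul] at h4
    have h5 : |ρ| * |ρ| ≤ |A| * |ρ| * |ρ| := by
      have : 0 ≤ |ρ| * |ρ| := by positivity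
      nlinarith
    have h6 : |C| ≤ |C| * |ρ| := le_mul_of_one_le_right (abs_nonneg _) (by linarith)
    have h7 : (|B| + |C|) * |ρ| < |ρ| * |ρ| := mul_lt_mul_of_pos_right h1 h2
    nlinarith

end Pool.Agent.K4L
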