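import Pool.Agent.K4L.K3UKA

/-!
# K3U, kills: the hits of the arms `P a`, `P c` (`δ = α` or `0`); `H = (1 - κ) G`

`z = (Z, w)` in the coordinates `(X, Y)`, `z` on the arm: `H (Z - b2 δ) = w (κ ε - δ)`.
-/

namespace Pool.Agent.K4L

open Filter

/-- the arm in the coordinates `(X, Y)` -/
theorem arm_eq {G κ ε b1 b2 : ℤ} (hb2 : b2 ≠ 0) {z : Pt} {δ : ℤ}
    (h : Col (κ * ε + (1 - κ) * (G * b1), (1 - κ) * (G * b2)) (δ, 0) z) :
    (1 - κ) * G * ((b2 * z.1 - b1 * z.2) - b2 * δ) = z.2 * (κ * ε - δ) := by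
  unfold Col at h
  simp only at h
  apply mul_left_cancel₀ hb2
  linear_combination b2 * h

/-- a line in the coordinates `(X, Y)` -/
theorem colX {b1 b2 : ℤ} {u v z : Pt} (h : Col u v z) :
    ((b2 * v.1 - b1 * v.2) - (b2 * u.1 - b1 * u.2)) * (z.2 - u.2) =
      (v.2 - u.2) * ((b2 * z.1 - b1 * z.2) - (b2 * u.1 - b1 * u.2)) := by
  unfold Col at h
  linear_combination b2 * h

/-- near line -/
theorem arm_near {H κ b2 δ : ℤ} (U u2 V v2 : ℤ) (hκ : κ ≠ 0) (hH : H ≠ 0) (huv : v2 ≠ u2)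
    (hd : (V - U) * (0 - u2) ≠ (v2 - u2) * (b2 * δ - U)) :
    ∀ᶠ ε : ℤ in cofinite, ∀ w Z : ℤ, H * (Z - b2 * δ) = w * (κ * ε - δ) →
      (V - U) * (w - u2) = (v2 - u2) * (Z - U) → False := by
  have hp : -((v2 - u2) * κ) ≠ 0 := neg_ne_zero.mpr (mul_ne_zero (sub_ne_zero.mpr huv) hκ)
  filter_upwards [lf (-((v2 - u2) * κ)) (H * (V - U) + (v2 - u2) * δ) 0
    (H * ((V - U) * u2 + (v2 - u2) * (b2 * δ - U))) hp] with ε hε
  intro w Z h1 h2
  obtain ⟨e1, e2⟩ := hε w (by linear_combination H * h2 + (v2 - u2) * h1)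
  have hw : w = 0 := by
    rcases mul_eq_zero.mp e1 with h | h
    · exact h
    · exact absurd h hp
  rw [hw, zero_mul] at e2
  rcases mul_eq_zero.mp e2.symm with h | h
  · exact hH h
  · exact hd (by linear_combination -h)

/-- the line `t β` -/
theorem arm_t {H κ y0 b2 δ : ℤ} (x y : ℤ) (hκ : κ ≠ 0) (hy : y ≠ 0)
    (hc : |κ * y * y| < |H * y0 + κ * y|) :
    ∀ᶠ ε : ℤ in cofinite, ∀ w Z : ℤ, H * (Z - b2 * δ) = w * (κ * ε - δ) →
      (x - y0 * ε) * w = y * (Z - y0 * ε) → False := by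
  have hp : -(H * y0 + κ * y) ≠ 0 := by
    intro h
    have : H * y0 + κ * y = 0 := by linarith
    rw [this, abs_zero] at hc
    have := abs_nonneg (κ * y * y)
    linarith
  filter_upwards [lf (-(H * y0 + κ * y)) (H * x + y * δ) (-(H * y0 * y)) (H * b2 * δ * y) hp]
    with ε hε
  intro w Z h1 h2
  obtain ⟨e1, _⟩ := hε w (by linear_combination H * h2 + y * h1)
  have e3 : (w - y) * (H * y0 + κ * y) = -(κ * y * y) := by linear_combination -e1
  have hwy : w - y ≠ 0 := by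
    intro h
    rw [h, zero_mul] at e3
    exact mul_ne_zero (mul_ne_zero hκ hy) hy (by linarith)
  have h3 : 1 ≤ |w - y| := Int.one_le_abs hwy
  have h4 := le_mul_of_one_le_left (abs_nonneg (H * y0 + κ * y)) h3
  rw [← abs_mul, e3, abs_neg] at h4
  linarith

/-- the line `t t2`, arm `P a` -/
theorem arm_tt2 {H κ y0 s b2 δ : ℤ} (hH : H ≠ 0) (hδ : δ ≠ 0) (hs : s ≠ 0)
    (hp : H * y0 + κ * s ≠ 0)
    (hno : b2 * (H * y0 + κ * s) ≠ y0 * s) :
    ∀ᶠ ε : ℤ in cofinite, ∀ w Z : ℤ, H * (Z - b2 * δ) = w * (κ * ε - δ) →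
      -(y0 * ε) * w = s * (Z - y0 * ε) → False := by
  have hp' : -(H * y0 + κ * s) ≠ 0 := neg_ne_zero.mpr hp
  filter_upwards [lf (-(H * y0 + κ * s)) (s * δ) (-(H * y0 * s)) (s * H * b2 * δ) hp']
    with ε hε
  intro w Z h1 h2
  obtain ⟨e1, e2⟩ := hε w (by linear_combination H * h2 + s * h1)
  have e3 : w = H * b2 := by
    apply mul_left_cancel₀ (mul_ne_zero hs hδ)
    linear_combination e2
  rw [e3] at e1
  apply hno
  apply mul_left_cancel₀ hH
  linear_combination -e1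

/-- the line `β t3`, arm `P a`, fixed `k` -/
theorem arm_bt3 {G κ k b2 δ : ℤ} (x y : ℤ) (hG : G ≠ 0) (hκ1 : κ ≠ 1) (hkκ : k ≠ κ) (hb2 : b2 ≠ 0)
    (hp : b2 * G * (k - κ) + κ * y ≠ 0) (hy : y ≠ (1 - k) * G * b2)
    (hag : x * G ≠ δ * (b2 * G - y)) :
    ∀ᶠ ε : ℤ in cofinite, ∀ w Z : ℤ, (1 - κ) * G * (Z - b2 * δ) = w * (κ * ε - δ) →
      (b2 * k * ε - x) * (w - y) = ((1 - k) * G * b2 - y) * (Z - x) → False := by
  have hH : (1 - κ) * G ≠ 0 := mul_ne_zero (fun h => hκ1 (by linarith)) hG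
  filter_upwards [lf (b2 * G * (k - κ) + κ * y)
    (-((1 - κ) * G * x) + ((1 - k) * G * b2 - y) * δ) ((1 - κ) * G * b2 * k * y)
    ((1 - κ) * G * b2 * (((1 - k) * G * b2 - y) * δ - x * ((1 - k) * G))) hp] with ε hε
  intro w Z h1 h2
  obtain ⟨e1, e2⟩ := hε w (by
    linear_combination ((1 - κ) * G) * h2 + ((1 - k) * G * b2 - y) * h1)
  -- `p1 * e2` and the two factorisations
  have h3 : (1 - κ) * G * b2 * (k - κ) * ((1 - k) * G * b2 - y) *
      (x * G - δ * (b2 * G - y)) = 0 := by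
    linear_combination (b2 * G * (k - κ) + κ * y) * e2 -
      (-((1 - κ) * G * x) + ((1 - k) * G * b2 - y) * δ) * e1
  rcases mul_eq_zero.mp h3 with h | h
  · rcases mul_eq_zero.mp h with h | h
    · rcases mul_eq_zero.mp h with h | h
      · rcases mul_eq_zero.mp h with h | h
        · exact hH h
        · exact hb2 h
      · exact hkκ (by linarith)
    · exact hy (by linarith)
  · exact hag (by linarith)

/-- the line `β t3`, arm `P c`, all `k` -/
theorem arm_bt3c {G κ b2 : ℤ} (x y : ℤ) (hG : Prime G) (hκ : ¬ G ∣ κ) (hκ1 : ¬ G ∣ κ - 1)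
    (hy : ¬ G ∣ y) (hb2 : b2 ≠ 0) (hx : x ≠ 0) :
    ∀ᶠ ε : ℤ in cofinite, ∀ k w Z : ℤ, G ∣ w → k ≠ κ → (1 - κ) * G * Z = w * (κ * ε) →
      (b2 * k * ε - x) * (w - y) = ((1 - k) * G * b2 - y) * (Z - x) → False := by
  have hG0 : G ≠ 0 := hG.ne_zero
  have hκ1' : κ - 1 ≠ 0 := fun h => hκ1 (h ▸ dvd_zero G)
  filter_upwards [ev_abs (blC (b2 * G) (κ * (y - b2 * G)) (-((1 - κ) * G * b2 * y)) 0 0
    (-((1 - κ) * G * x)) (-((1 - κ) * G * b2 * x * G)) ((1 - κ) * G * b2 * x * G))] with ε hε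
  intro k w Z hw hkκ h1 h2
  obtain ⟨n, rfl⟩ := hw
  have hu : b2 * G * k + κ * (y - b2 * G) ≠ 0 := by
    intro h
    have h3 : G ∣ κ * y := ⟨b2 * κ - b2 * k, by linear_combination h⟩
    rcases hG.dvd_or_dvd h3 with h4 | h4
    · exact hκ h4
    · exact hy h4
  have hv : b2 * G * (G * n) + -((1 - κ) * G * b2 * y) ≠ 0 := by
    intro h
    have h3 : G ∣ (κ - 1) * y := by
      refine ⟨-n, ?_⟩
      apply mul_left_cancel₀ (mul_ne_zero hb2 hG0)
      linear_combination h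
    rcases hG.dvd_or_dvd h3 with h4 | h4
    · exact hκ1 h4
    · exact hy h4
  obtain ⟨e1, e2⟩ := bl (b2 * G) (κ * (y - b2 * G)) (-((1 - κ) * G * b2 * y)) 0 0
    (-((1 - κ) * G * x)) (-((1 - κ) * G * b2 * x * G)) ((1 - κ) * G * b2 * x * G)
    (mul_ne_zero hb2 hG0) ε (G * n) k hε hu hv (by
      linear_combination ((1 - κ) * G) * h2 + ((1 - k) * G * b2 - y) * h1)
  have e3 : n = b2 * (1 - k) := by
    have : (1 - κ) * G * x * G ≠ 0 :=
      mul_ne_zero (mul_ne_zero (mul_ne_zero (fun h => hκ1' (by linarith)) hG0) hx) hG0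
    apply mul_left_cancel₀ this
    linear_combination -e2
  rw [e3] at e1
  have e4 : b2 * (k - κ) * G * (y - (1 - k) * G * b2) = 0 := by
    linear_combination -e1
  rcases mul_eq_zero.mp e4 with h | h
  · rcases mul_eq_zero.mp h with h | h
    · rcases mul_eq_zero.mp h with h | h
      · exact hb2 h
      · exact hkκ (by linarith)
    · exact hG0 h
  · exact hy ⟨(1 - k) * b2, by linear_combination h⟩

/-- the line `t t3`, arm `P a`, fixed `k` -/
theorem arm_T {G κ k b2 y0 δ : ℤ} (hG : G ≠ 0) (hκ1 : κ ≠ 1) (hk1 : k ≠ 1) (hkκ : k ≠ κ)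
    (hb2 : b2 ≠ 0) (hδ : δ ≠ 0) (hy0 : y0 ≠ b2) (hp : b2 * k ≠ κ * b2 + (1 - κ) * y0) :
    ∀ᶠ ε : ℤ in cofinite, ∀ w Z : ℤ, (1 - κ) * G * (Z - b2 * δ) = w * (κ * ε - δ) →
      (b2 * k * ε - y0 * ε) * w = (1 - k) * G * b2 * (Z - y0 * ε) → False := by
  have hH : (1 - κ) * G ≠ 0 := mul_ne_zero (fun h => hκ1 (by linarith)) hG
  have hp' : G * (b2 * k - (κ * b2 + (1 - κ) * y0)) ≠ 0 :=
    mul_ne_zero hG (sub_ne_zero.mpr hp)
  filter_upwards [lf (G * (b2 * k - (κ * b2 + (1 - κ) * y0))) ((1 - k) * G * b2 * δ)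
    (-((1 - k) * G * b2 * ((1 - κ) * G) * y0)) ((1 - k) * G * b2 * ((1 - κ) * G) * b2 * δ) hp']
    with ε hε
  intro w Z h1 h2
  obtain ⟨e1, e2⟩ := hε w (by
    linear_combination ((1 - κ) * G) * h2 + ((1 - k) * G * b2) * h1)
  have hk1' : (1 - k) ≠ 0 := fun h => hk1 (by linarith)
  have e3 : w = (1 - κ) * G * b2 := by
    apply mul_left_cancel₀ (mul_ne_zero (mul_ne_zero (mul_ne_zero hk1' hG) hb2) hδ)
    linear_combination e2
  rw [e3] at e1
  have e4 : (1 - κ) * G * b2 * G * ((k - κ) * (b2 - y0)) = 0 := by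
    linear_combination e1
  rcases mul_eq_zero.mp e4 with h | h
  · rcases mul_eq_zero.mp h with h | h
    · rcases mul_eq_zero.mp h with h | h
      · exact hH h
      · exact hb2 h
    · exact hG h
  · rcases mul_eq_zero.mp h with h | h
    · exact hkκ (by linarith)
    · exact hy0 (by linarith)

/-- the line `t2 t3`, arm `P a`, fixed `k` -/
theorem arm_S {G κ k b2 s δ : ℤ} (hG : G ≠ 0) (hκ1 : κ ≠ 1) (hkκ : k ≠ κ) (hb2 : b2 ≠ 0)
    (hδ : δ ≠ 0) (hsg : s ≠ G * b2) (hH' : s ≠ (1 - k) * G * b2)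
    (hp : b2 * G * (k - κ) + κ * s ≠ 0) :
    ∀ᶠ ε : ℤ in cofinite, ∀ w Z : ℤ, (1 - κ) * G * (Z - b2 * δ) = w * (κ * ε - δ) →
      (b2 * k * ε) * (w - s) = ((1 - k) * G * b2 - s) * Z → False := by
  have hH : (1 - κ) * G ≠ 0 := mul_ne_zero (fun h => hκ1 (by linarith)) hG
  filter_upwards [lf (b2 * G * (k - κ) + κ * s) (((1 - k) * G * b2 - s) * δ)
    ((1 - κ) * G * b2 * k * s) (((1 - k) * G * b2 - s) * ((1 - κ) * G * b2 * δ)) hp] with ε hε
  intro w Z h1 h2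
  obtain ⟨e1, e2⟩ := hε w (by
    linear_combination ((1 - κ) * G) * h2 + ((1 - k) * G * b2 - s) * h1)
  have e3 : w = (1 - κ) * G * b2 := by
    apply mul_left_cancel₀ (mul_ne_zero (sub_ne_zero.mpr (Ne.symm hH')) hδ)
    linear_combination e2
  rw [e3] at e1
  have e4 : (1 - κ) * G * b2 * ((k - κ) * (b2 * G - s)) = 0 := by
    linear_combination e1
  rcases mul_eq_zero.mp e4 with h | h
  · rcases mul_eq_zero.mp h with h | h
    · exact hH h
    · exact hb2 h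
  · rcases mul_eq_zero.mp h with h | h
    · exact hkκ (by linarith)
    · exact hsg (by linarith)

/-- a bilinear equation has only bounded solutions -/
theorem bil_bound {a b c d e u v : ℤ} (h : u * v = a) (ha : a ≠ 0) (hu : u = b * d + c)
    (hb : b ≠ 0) (he : e = |a| + |c|) : |d| ≤ e := by
  have hv : v ≠ 0 := by
    rintro rfl
    rw [mul_zero] at h
    exact ha h.symm
  have h1 : |u| ≤ |a| := by
    rw [← h, abs_mul]
    exact le_mul_of_one_le_right (abs_nonneg _) (Int.one_le_abs hv)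
  have h2 : |b * d| ≤ |u| + |c| := by
    have : b * d = u - c := by linarith
    rw [this]; exact abs_sub _ _
  rw [abs_mul] at h2
  have h3 : |d| ≤ |b| * |d| := le_mul_of_one_le_left (abs_nonneg _) (Int.one_le_abs hb)
  linarith

/-- the line `t t3`, arm `P c`: `k` is bounded -/
theorem arm_Tc {G κ k b2 y0 ε w Z : ℤ} (hG : G ≠ 0) (hκ1 : κ ≠ 1) (hb2 : b2 ≠ 0)
    (hy0 : y0 ≠ 0) (hy0b : y0 ≠ b2) (hε : ε ≠ 0) (h1 : (1 - κ) * G * Z = w * (κ * ε))
    (h2 : (b2 * k * ε - y0 * ε) * w = (1 - k) * G * b2 * (Z - y0 * ε)) :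
    |k| ≤ |(1 - κ) * G * b2 * y0 * ((κ - 1) * (b2 - y0))| + |κ * b2 + (1 - κ) * y0| := by
  have e1 : w * (b2 * k - (κ * b2 + (1 - κ) * y0)) = -((1 - k) * ((1 - κ) * G * b2) * y0) := by
    apply mul_left_cancel₀ (mul_ne_zero hG hε)
    linear_combination ((1 - κ) * G) * h2 + ((1 - k) * G * b2) * h1
  refine bil_bound (a := (1 - κ) * G * b2 * y0 * ((κ - 1) * (b2 - y0))) (b := b2)
    (c := -(κ * b2 + (1 - κ) * y0)) (u := b2 * k - (κ * b2 + (1 - κ) * y0))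
    (v := b2 * w - (1 - κ) * G * b2 * y0) ?_ ?_ (by ring) hb2 (by rw [abs_neg])
  · linear_combination b2 * e1
  · refine mul_ne_zero (mul_ne_zero (mul_ne_zero (mul_ne_zero ?_ hG) hb2) hy0)
      (mul_ne_zero ?_ ?_)
    · intro h; exact hκ1 (by linarith)
    · intro h; exact hκ1 (by linarith)
    · intro h; exact hy0b (by linarith)

/-- the line `t2 t3`, arm `P c`: `k` is bounded -/
theorem arm_Sc {G κ k b2 s ε w Z : ℤ} (hG : G ≠ 0) (hκ0 : κ ≠ 0) (hκ1 : κ ≠ 1) (hb2 : b2 ≠ 0)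
    (hs : s ≠ 0) (hsg : s ≠ G * b2) (hε : ε ≠ 0) (h1 : (1 - κ) * G * Z = w * (κ * ε))
    (h2 : (b2 * k * ε) * (w - s) = ((1 - k) * G * b2 - s) * Z) :
    |k| ≤ |(1 - κ) * s * κ * (G * b2 - s)| + |κ * (G * b2 - s)| := by
  have e1 : w * (b2 * G * (k - κ) + κ * s) = (1 - κ) * G * b2 * k * s := by
    apply mul_left_cancel₀ hε
    linear_combination ((1 - κ) * G) * h2 + ((1 - k) * G * b2 - s) * h1
  refine bil_bound (a := (1 - κ) * s * κ * (G * b2 - s)) (b := G * b2)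
    (c := -(κ * (G * b2 - s))) (u := G * b2 * k - κ * (G * b2 - s))
    (v := w - (1 - κ) * s) ?_ ?_ (by ring) (mul_ne_zero hG hb2) (by rw [abs_neg])
  · linear_combination e1
  · refine mul_ne_zero (mul_ne_zero (mul_ne_zero ?_ hs) hκ0) ?_
    · intro h; exact hκ1 (by linarith)
    · intro h; exact hsg (by linarith)

end Pool.Agent.K4L
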