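import Pool.Agent.K4L.K3UKB

/-!
# K3U, kills: the hits of the arms `P a` and `P c` in the position
-/

namespace Pool.Agent.K4L

open Filter

/-- the point `g' + κ (e - g')` -/
def Pk (G b1 b2 ε κ : ℤ) : Pt := (κ * ε + (1 - κ) * (G * b1), (1 - κ) * (G * b2))

theorem Pk_X (G b1 b2 ε κ : ℤ) :
    b2 * (Pk G b1 b2 ε κ).1 - b1 * (Pk G b1 b2 ε κ).2 = b2 * κ * ε := by
  unfold Pk; simp only; ring

theorem Pk_2 (G b1 b2 ε κ : ℤ) : (Pk G b1 b2 ε κ).2 = (1 - κ) * G * b2 := by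
  unfold Pk; simp only; ring

/-- near pairs: events for an arm `(δ, 0)` -/
theorem ev_near {b1 b2 : ℤ} (H κ δ : ℤ) (hκ : κ ≠ 0) (hH : H ≠ 0) (T : Finset Pt) :
    ∀ᶠ ε : ℤ in cofinite, ∀ u ∈ T, ∀ v ∈ T, v.2 ≠ u.2 →
      ((b2 * v.1 - b1 * v.2) - (b2 * u.1 - b1 * u.2)) * (0 - u.2) ≠
        (v.2 - u.2) * (b2 * δ - (b2 * u.1 - b1 * u.2)) →
      ∀ w Z : ℤ, H * (Z - b2 * δ) = w * (κ * ε - δ) →
      ((b2 * v.1 - b1 * v.2) - (b2 * u.1 - b1 * u.2)) * (w - u.2) =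
        (v.2 - u.2) * (Z - (b2 * u.1 - b1 * u.2)) → False := by
  refine ev_fin2 T T ?_
  intro u _ v _
  by_cases h : v.2 = u.2
  · exact Filter.Eventually.of_forall (fun E h' => absurd h h')
  by_cases h2 : ((b2 * v.1 - b1 * v.2) - (b2 * u.1 - b1 * u.2)) * (0 - u.2) =
        (v.2 - u.2) * (b2 * δ - (b2 * u.1 - b1 * u.2))
  · exact Filter.Eventually.of_forall (fun E _ h' => absurd h2 h')
  filter_upwards [arm_near (b2 := b2) (δ := δ) (b2 * u.1 - b1 * u.2) u.2 (b2 * v.1 - b1 * v.2) v.2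
    hκ hH h h2] with ε hε _ _
  exact hε

/-- hits of an arm by near lines -/
theorem near_arm {R B : Finset Pt} {α b1 b2 : ℤ} (K : K3C R B α b1 b2) {G κ δ ε s s1 : ℤ}
    (hG0 : G ≠ 0)
    (hyG : ∀ β ∈ B, ¬ G ∣ β.2) (hs : s1 * b2 = s * b1)
    (hev : ∀ u ∈ insert ((s1, s) : Pt) B, ∀ v ∈ insert ((s1, s) : Pt) B, v.2 ≠ u.2 →
      ((b2 * v.1 - b1 * v.2) - (b2 * u.1 - b1 * u.2)) * (0 - u.2) ≠
        (v.2 - u.2) * (b2 * δ - (b2 * u.1 - b1 * u.2)) →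
      ∀ w Z : ℤ, (1 - κ) * G * (Z - b2 * δ) = w * (κ * ε - δ) →
      ((b2 * v.1 - b1 * v.2) - (b2 * u.1 - b1 * u.2)) * (w - u.2) =
        (v.2 - u.2) * (Z - (b2 * u.1 - b1 * u.2)) → False)
    (hor : ¬ G ∣ κ * ε - δ)
    (hGp : Prime G) {R2 : Finset Pt} (hδR : ((δ, 0) : Pt) ∈ R2) (hbR : ((b1, b2) : Pt) ∈ R2)
    {z : Pt} (hz : Col (Pk G b1 b2 ε κ) (δ, 0) z) (h : Hit R2 B z ∨ Ray R2 B (s1, s) z) :
    False := by
  have hb2 := K.hb2
  have hz' := arm_eq hb2 hz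
  have key : ∀ u ∈ insert ((s1, s) : Pt) B, ∀ v ∈ insert ((s1, s) : Pt) B, Col u v z →
      (∀ w ∈ R2, ¬ Col u v w) → v.2 = u.2 := by
    intro u hu v hv hc hred
    by_contra hne
    refine hev u hu v hv hne ?_ z.2 (b2 * z.1 - b1 * z.2) hz' (colX hc)
    intro h
    apply hred _ hδR
    unfold Col
    simp only
    apply mul_left_cancel₀ hb2
    linear_combination h
  rcases h with ⟨u, hu, v, hv, huv, hc, hred⟩ | ⟨β, hβ, hc, hred⟩
  · have h1 := key u (Finset.mem_insert_of_mem hu) v (Finset.mem_insert_of_mem hv) hc hred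
    -- `z.2 = u.2`
    have h2 : z.2 = u.2 := by
      unfold Col at hc
      rw [h1] at hc
      have h3 : (v.1 - u.1) * (z.2 - u.2) = 0 := by linear_combination hc
      rcases mul_eq_zero.mp h3 with h4 | h4
      · exact absurd (Prod.ext (by linarith) h1.symm) huv
      · linarith
    have h3 : G ∣ z.2 * (κ * ε - δ) := by
      rw [← hz']
      exact ⟨(1 - κ) * ((b2 * z.1 - b1 * z.2) - b2 * δ), by ring⟩
    rcases hGp.dvd_or_dvd h3 with h4 | h4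
    · apply hyG u hu
      rw [← h2]; exact h4
    · exact hor h4
  · have h1 := key (s1, s) (Finset.mem_insert_self _ _) β (Finset.mem_insert_of_mem hβ) hc hred
    simp only at h1
    · -- `z.2 = s`
      have h2 : z.2 = s := by
        unfold Col at hc
        simp only at hc
        rw [h1] at hc
        have h3 : (β.1 - s1) * (z.2 - s) = 0 := by linear_combination hc
        rcases mul_eq_zero.mp h3 with h4 | h4
        · exfalso
          -- `β = t2` is on `c b`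
          apply K.hD β hβ
          rw [h1]
          have : β.1 = s1 := by linarith
          rw [this]; linear_combination hs
        · linarith
      rw [h2] at hz'
      have h3 : G ∣ s * (κ * ε - δ) := ⟨(1 - κ) * ((b2 * z.1 - b1 * s) - b2 * δ), by
        linear_combination -hz'⟩
      rcases hGp.dvd_or_dvd h3 with h4 | h4
      · apply hyG β hβ
        rw [h1]; exact h4
      · exact hor h4

/-- the hits of the arm `P a`, fixed `k` -/
theorem kp_a {R B : Finset Pt} {α b1 b2 : ℤ} (K : K3C R B α b1 b2) {G κ k y0 s : ℤ}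
    (hGp : Prime G) (hκ0 : κ ≠ 0) (hκ1 : κ ≠ 1) (hk1 : k ≠ 1) (hkκ : k ≠ κ) (hs0 : s ≠ 0)
    (hsg : s ≠ G * b2) (hy0b : y0 ≠ b2) (hyG : ∀ β ∈ B, ¬ G ∣ β.2)
    (hsz : ∀ β ∈ B, |κ * β.2 * β.2| < |(1 - κ) * G * y0 + κ * β.2|)
    (hu : ∀ β ∈ B, b2 * G * (k - κ) + κ * β.2 ≠ 0)
    (hga : ∀ β ∈ B, (b2 * β.1 - b1 * β.2) * G ≠ α * (b2 * G - β.2))
    (hp2 : (1 - κ) * G * y0 + κ * s ≠ 0) (s1 : ℤ) (hs : s1 * b2 = s * b1) :
    ∀ᶠ ε : ℤ in cofinite, ¬ G ∣ κ * ε - α → ∀ τ, b2 * τ = y0 * ε →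
      ∀ R2 : Finset Pt, Pk G b1 b2 ε κ ∈ R2 → ((α, 0) : Pt) ∈ R2 → ((b1, b2) : Pt) ∈ R2 →
      ∀ z, Col (Pk G b1 b2 ε κ) (α, 0) z →
      Hit R2 (insert (Pk G b1 b2 ε k) (insert (s1, s) (insert (τ, 0) B))) z →
      (b2 * k = κ * b2 + (1 - κ) * y0 ∧ α * z.2 = (1 - κ) * G * (b2 * α - y0 * ε) ∧
        Seg R2 (Pk G b1 b2 ε k) (τ, 0) z) ∨
      (b2 * G * (k - κ) + κ * s = 0 ∧ z.2 * (((1 - k) * G * b2 - s) * α) =
        (1 - κ) * G * b2 * (k * s * ε + ((1 - k) * G * b2 - s) * α) ∧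
        Seg R2 (Pk G b1 b2 ε k) (s1, s) z) ∨
      s = (1 - k) * G * b2 := by
  have hb2 := K.hb2
  have hα := K.hα
  have hG0 : G ≠ 0 := hGp.ne_zero
  have hH : (1 - κ) * G ≠ 0 := mul_ne_zero (fun h => hκ1 (by linarith)) hG0
  have C1 := ev_near (b1 := b1) (b2 := b2) ((1 - κ) * G) κ α hκ0 hH (insert (s1, s) B)
  have C2 : ∀ᶠ ε : ℤ in cofinite, ∀ β ∈ B, ∀ w Z : ℤ,
      (1 - κ) * G * (Z - b2 * α) = w * (κ * ε - α) →
      ((b2 * β.1 - b1 * β.2) - y0 * ε) * w = β.2 * (Z - y0 * ε) → False :=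
    ev_fin B (fun β hβ => arm_t (b2 * β.1 - b1 * β.2) β.2 hκ0 (K.hy β hβ) (hsz β hβ))
  have C3 : ∀ᶠ ε : ℤ in cofinite, b2 * ((1 - κ) * G * y0 + κ * s) ≠ y0 * s →
      ∀ w Z : ℤ, (1 - κ) * G * (Z - b2 * α) = w * (κ * ε - α) →
      -(y0 * ε) * w = s * (Z - y0 * ε) → False := by
    by_cases h : b2 * ((1 - κ) * G * y0 + κ * s) = y0 * s
    · exact Filter.Eventually.of_forall (fun E h' => absurd h h')
    · filter_upwards [arm_tt2 hH hα hs0 hp2 h] with ε hε _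
      exact hε
  have C4 : ∀ᶠ ε : ℤ in cofinite, ∀ β ∈ B, ∀ w Z : ℤ,
      (1 - κ) * G * (Z - b2 * α) = w * (κ * ε - α) →
      (b2 * k * ε - (b2 * β.1 - b1 * β.2)) * (w - β.2) =
        ((1 - k) * G * b2 - β.2) * (Z - (b2 * β.1 - b1 * β.2)) → False := by
    refine ev_fin B ?_
    intro β hβ
    exact arm_bt3 _ _ hG0 hκ1 hkκ hb2 (hu β hβ)
      (fun h => hyG β hβ ⟨(1 - k) * b2, by rw [h]; ring⟩) (hga β hβ)
  have C5 : ∀ᶠ ε : ℤ in cofinite, b2 * k ≠ κ * b2 + (1 - κ) * y0 →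
      ∀ w Z : ℤ, (1 - κ) * G * (Z - b2 * α) = w * (κ * ε - α) →
      (b2 * k * ε - y0 * ε) * w = (1 - k) * G * b2 * (Z - y0 * ε) → False := by
    by_cases h : b2 * k = κ * b2 + (1 - κ) * y0
    · exact Filter.Eventually.of_forall (fun E h' => absurd h h')
    · filter_upwards [arm_T hG0 hκ1 hk1 hkκ hb2 hα hy0b h] with ε hε _
      exact hε
  have C6 : ∀ᶠ ε : ℤ in cofinite, s ≠ (1 - k) * G * b2 → b2 * G * (k - κ) + κ * s ≠ 0 →
      ∀ w Z : ℤ, (1 - κ) * G * (Z - b2 * α) = w * (κ * ε - α) →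
      (b2 * k * ε) * (w - s) = ((1 - k) * G * b2 - s) * Z → False := by
    by_cases h : s = (1 - k) * G * b2
    · exact Filter.Eventually.of_forall (fun E h' => absurd h h')
    by_cases h' : b2 * G * (k - κ) + κ * s = 0
    · exact Filter.Eventually.of_forall (fun E _ h'' => absurd h' h'')
    · filter_upwards [arm_S hG0 hκ1 hkκ hb2 hα hsg h h'] with ε hε _ _
      exact hε
  filter_upwards [C1, C2, C3, C4, C5, C6, ev_abs 0] with ε c1 c2 c3 c4 c5 c6 c7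
  intro hor τ hτ R2 hPR haR hbR z hz hit
  have hε : ε ≠ 0 := by rintro rfl; simp at c7
  have hz' := arm_eq hb2 hz
  rcases hit3 hit with h | h | h | h | h | h | h
  · exact (near_arm K hG0 hyG hs c1 hor hGp haR hbR hz (Or.inl h)).elim
  · obtain ⟨β, hβ, hc, hred⟩ := h
    refine (c2 β hβ z.2 (b2 * z.1 - b1 * z.2) hz' ?_).elim
    have := colX (b1 := b1) (b2 := b2) hc
    simp only at this
    linear_combination this + (z.2 - β.2) * hτ
  · exact (near_arm K hG0 hyG hs c1 hor hGp haR hbR hz (Or.inr h)).elim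
  · obtain ⟨hc, hred⟩ := h
    by_cases hd : b2 * ((1 - κ) * G * y0 + κ * s) = y0 * s
    · exfalso
      apply hred _ hPR
      unfold Col Pk
      simp only
      apply mul_left_cancel₀ hb2
      linear_combination ((1 - κ) * G * b2 - s) * hτ - (1 - κ) * G * b2 * hs + ε * hd
    · refine (c3 hd z.2 (b2 * z.1 - b1 * z.2) hz' ?_).elim
      have := colX (b1 := b1) (b2 := b2) hc.swap12
      simp only at this
      linear_combination this + (z.2 - s) * hτ - z.2 * hs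
  · obtain ⟨β, hβ, hc, hred⟩ := h
    refine (c4 β hβ z.2 (b2 * z.1 - b1 * z.2) hz' ?_).elim
    have := colX (b1 := b1) (b2 := b2) hc.swap12
    rw [Pk_X, Pk_2] at this
    exact this
  · by_cases hT : b2 * k = κ * b2 + (1 - κ) * y0
    · left
      refine ⟨hT, ?_, h⟩
      obtain ⟨hc, hred⟩ := h
      have h3 := colX (b1 := b1) (b2 := b2) hc.swap12
      rw [Pk_X, Pk_2] at h3
      simp only at h3
      have hk : (1 - k) * G * b2 ≠ 0 :=
        mul_ne_zero (mul_ne_zero (fun h => hk1 (by linarith)) hG0) hb2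
      have h4 : (b2 * k * ε - y0 * ε) * z.2 =
          (1 - k) * G * b2 * ((b2 * z.1 - b1 * z.2) - y0 * ε) := by
        linear_combination h3 + (z.2 - (1 - k) * G * b2) * hτ
      apply mul_left_cancel₀ hk
      linear_combination ((1 - κ) * G) * h4 + ((1 - k) * G * b2) * hz' - z.2 * ε * G * hT
    · exfalso
      obtain ⟨hc, hred⟩ := h
      refine c5 hT z.2 (b2 * z.1 - b1 * z.2) hz' ?_
      have h3 := colX (b1 := b1) (b2 := b2) hc.swap12
      rw [Pk_X, Pk_2] at h3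
      simp only at h3
      linear_combination h3 + (z.2 - (1 - k) * G * b2) * hτ
  · by_cases hH' : s = (1 - k) * G * b2
    · exact Or.inr (Or.inr hH')
    by_cases hS : b2 * G * (k - κ) + κ * s = 0
    · right; left
      refine ⟨hS, ?_, h⟩
      obtain ⟨hc, hred⟩ := h
      have h3 := colX (b1 := b1) (b2 := b2) hc.swap12
      rw [Pk_X, Pk_2] at h3
      simp only at h3
      have h4 : (b2 * k * ε) * (z.2 - s) = ((1 - k) * G * b2 - s) * (b2 * z.1 - b1 * z.2) := by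
        linear_combination h3 + (z.2 - (1 - k) * G * b2) * hs
      linear_combination ((1 - κ) * G) * h4 + ((1 - k) * G * b2 - s) * hz' - z.2 * ε * hS
    · exfalso
      obtain ⟨hc, hred⟩ := h
      refine c6 hH' hS z.2 (b2 * z.1 - b1 * z.2) hz' ?_
      have h3 := colX (b1 := b1) (b2 := b2) hc.swap12
      rw [Pk_X, Pk_2] at h3
      simp only at h3
      linear_combination h3 + (z.2 - (1 - k) * G * b2) * hs

/-- the bound of `k` when `P c` is covered -/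
def kB (G κ b2 y0 s : ℤ) : ℤ :=
  (|(1 - κ) * G * b2 * y0 * ((κ - 1) * (b2 - y0))| + |κ * b2 + (1 - κ) * y0|) +
    (|(1 - κ) * s * κ * (G * b2 - s)| + |κ * (G * b2 - s)|)

/-- the hits of the arm `P c`, all `k` -/
theorem kp_c {R B : Finset Pt} {α b1 b2 : ℤ} (K : K3C R B α b1 b2) {G κ y0 s : ℤ}
    (hGp : Prime G) (hκG : ¬ G ∣ κ) (hκ1G : ¬ G ∣ κ - 1) (hs0 : s ≠ 0)
    (hsg : s ≠ G * b2) (hy00 : y0 ≠ 0) (hy0b : y0 ≠ b2) (hyG : ∀ β ∈ B, ¬ G ∣ β.2)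
    (hsz : ∀ β ∈ B, |κ * β.2 * β.2| < |(1 - κ) * G * y0 + κ * β.2|)
    (s1 : ℤ) (hs : s1 * b2 = s * b1) :
    ∀ᶠ ε : ℤ in cofinite, ¬ G ∣ ε → ∀ τ, b2 * τ = y0 * ε →
      ∀ R2 : Finset Pt, Pk G b1 b2 ε κ ∈ R2 → ((0, 0) : Pt) ∈ R2 → ((b1, b2) : Pt) ∈ R2 →
      ∀ k, k ≠ κ → ∀ z, Col (Pk G b1 b2 ε κ) (0, 0) z →
      Hit R2 (insert (Pk G b1 b2 ε k) (insert (s1, s) (insert (τ, 0) B))) z →
      |k| ≤ kB G κ b2 y0 s ∨ (Seg R2 (s1, s) (τ, 0) z ∧
        z.2 * ((1 - κ) * G * y0 + κ * s) = (1 - κ) * G * y0 * s) := by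
  have hb2 := K.hb2
  have hG0 : G ≠ 0 := hGp.ne_zero
  have hκ0 : κ ≠ 0 := fun h => hκG (h ▸ dvd_zero G)
  have hκ1 : κ ≠ 1 := fun h => hκ1G (by rw [h, sub_self]; exact dvd_zero G)
  have hH : (1 - κ) * G ≠ 0 := mul_ne_zero (fun h => hκ1 (by linarith)) hG0
  have C1 := ev_near (b1 := b1) (b2 := b2) ((1 - κ) * G) κ 0 hκ0 hH (insert (s1, s) B)
  have C2 : ∀ᶠ ε : ℤ in cofinite, ∀ β ∈ B, ∀ w Z : ℤ,
      (1 - κ) * G * (Z - b2 * 0) = w * (κ * ε - 0) →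
      ((b2 * β.1 - b1 * β.2) - y0 * ε) * w = β.2 * (Z - y0 * ε) → False :=
    ev_fin B (fun β hβ => arm_t (b2 * β.1 - b1 * β.2) β.2 hκ0 (K.hy β hβ) (hsz β hβ))
  have C4 : ∀ᶠ ε : ℤ in cofinite, ∀ β ∈ B, ∀ k w Z : ℤ, G ∣ w → k ≠ κ →
      (1 - κ) * G * Z = w * (κ * ε) →
      (b2 * k * ε - (b2 * β.1 - b1 * β.2)) * (w - β.2) =
        ((1 - k) * G * b2 - β.2) * (Z - (b2 * β.1 - b1 * β.2)) → False :=
    ev_fin B (fun β hβ => arm_bt3c _ _ hGp hκG hκ1G (hyG β hβ) hb2 (K.hD β hβ))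
  filter_upwards [C1, C2, C4, ev_abs 0] with ε c1 c2 c4 c7
  intro hGε τ hτ R2 hPR hcR hbR k hkκ z hz hit
  have hε : ε ≠ 0 := by rintro rfl; simp at c7
  have hz' := arm_eq hb2 hz
  have hz0 : (1 - κ) * G * (b2 * z.1 - b1 * z.2) = z.2 * (κ * ε) := by
    linear_combination hz'
  have hor : ¬ G ∣ κ * ε - 0 := by
    rw [sub_zero]
    intro h
    rcases hGp.dvd_or_dvd h with h | h
    · exact hκG h
    · exact hGε h
  have hGw : G ∣ z.2 := by
    have h1 : G ∣ z.2 * (κ * ε) := ⟨(1 - κ) * (b2 * z.1 - b1 * z.2), by linear_combination -hz0⟩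
    rcases hGp.dvd_or_dvd h1 with h | h
    · exact h
    · rcases hGp.dvd_or_dvd h with h | h
      · exact absurd h hκG
      · exact absurd h hGε
  have hB1 : 0 ≤ |(1 - κ) * s * κ * (G * b2 - s)| + |κ * (G * b2 - s)| := by positivity
  have hB2 : 0 ≤ |(1 - κ) * G * b2 * y0 * ((κ - 1) * (b2 - y0))| +
    |κ * b2 + (1 - κ) * y0| := by positivity
  rcases hit3 hit with h | h | h | h | h | h | h
  · exact (near_arm K hG0 hyG hs c1 hor hGp hcR hbR hz (Or.inl h)).elim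
  · obtain ⟨β, hβ, hc, hred⟩ := h
    refine (c2 β hβ z.2 (b2 * z.1 - b1 * z.2) hz' ?_).elim
    have := colX (b1 := b1) (b2 := b2) hc
    simp only at this
    linear_combination this + (z.2 - β.2) * hτ
  · exact (near_arm K hG0 hyG hs c1 hor hGp hcR hbR hz (Or.inr h)).elim
  · right
    refine ⟨h, ?_⟩
    obtain ⟨hc, hred⟩ := h
    have := colX (b1 := b1) (b2 := b2) hc.swap12
    simp only at this
    apply mul_left_cancel₀ hε
    linear_combination (-((1 - κ) * G)) * (this + (z.2 - s) * hτ - z.2 * hs) - s * hz0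
  · obtain ⟨β, hβ, hc, hred⟩ := h
    refine (c4 β hβ k z.2 (b2 * z.1 - b1 * z.2) hGw hkκ hz0 ?_).elim
    have := colX (b1 := b1) (b2 := b2) hc.swap12
    rw [Pk_X, Pk_2] at this
    exact this
  · left
    obtain ⟨hc, hred⟩ := h
    have h3 := colX (b1 := b1) (b2 := b2) hc.swap12
    rw [Pk_X, Pk_2] at h3
    simp only at h3
    have := arm_Tc (k := k) (y0 := y0) hG0 hκ1 hb2 hy00 hy0b hε hz0
      (by linear_combination h3 + (z.2 - (1 - k) * G * b2) * hτ)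
    unfold kB
    linarith
  · left
    obtain ⟨hc, hred⟩ := h
    have h3 := colX (b1 := b1) (b2 := b2) hc.swap12
    rw [Pk_X, Pk_2] at h3
    simp only at h3
    have := arm_Sc (k := k) (s := s) hG0 hκ0 hκ1 hb2 hs0 hsg hε hz0
      (by linear_combination h3 + (z.2 - (1 - k) * G * b2) * hs)
    unfold kB
    linarith

end Pool.Agent.K4L
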