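import Pool.Agent.K4L.K3UKC

/-!
# K3U, kills: the position after the kill and the two finishes
-/

namespace Pool.Agent.K4L

open Filter

/-- the position after `P = Pk κ` and the answer `t3 = Pk k` -/
structure KPos (R B : Finset Pt) (α b1 b2 G κ k ε τ s1 s y0 : ℤ) (R2 B2 : Finset Pt) : Prop where
  K : K3C R B α b1 b2
  hB2 : B2 = insert (Pk G b1 b2 ε k) (insert (s1, s) (insert (τ, 0) B))
  hP : Pk G b1 b2 ε κ ∈ R2
  hg : ((G * b1, G * b2) : Pt) ∈ R2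
  he : ((ε, 0) : Pt) ∈ R2
  hc : ((0, 0) : Pt) ∈ R2
  ha : ((α, 0) : Pt) ∈ R2
  hb : ((b1, b2) : Pt) ∈ R2
  hN : NoThreat R2 B2
  hB : ∀ β ∈ B2, β ∉ R2
  hτ : b2 * τ = y0 * ε
  hs : s1 * b2 = s * b1

namespace KPos

variable {R B R2 B2 : Finset Pt} {α b1 b2 G κ k ε τ s1 s y0 : ℤ}

theorem mem3 (Q : KPos R B α b1 b2 G κ k ε τ s1 s y0 R2 B2) : Pk G b1 b2 ε k ∈ B2 := by
  rw [Q.hB2]; exact Finset.mem_insert_self _ _

theorem mem2 (Q : KPos R B α b1 b2 G κ k ε τ s1 s y0 R2 B2) : ((s1, s) : Pt) ∈ B2 := by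
  rw [Q.hB2]; exact Finset.mem_insert_of_mem (Finset.mem_insert_self _ _)

theorem memt (Q : KPos R B α b1 b2 G κ k ε τ s1 s y0 R2 B2) : ((τ, 0) : Pt) ∈ B2 := by
  rw [Q.hB2]
  exact Finset.mem_insert_of_mem (Finset.mem_insert_of_mem (Finset.mem_insert_self _ _))

theorem memB (Q : KPos R B α b1 b2 G κ k ε τ s1 s y0 R2 B2) {β : Pt} (hβ : β ∈ B) : β ∈ B2 := by
  rw [Q.hB2]
  exact Finset.mem_insert_of_mem (Finset.mem_insert_of_mem (Finset.mem_insert_of_mem hβ))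

theorem forall_B2 (Q : KPos R B α b1 b2 G κ k ε τ s1 s y0 R2 B2) {p : Pt → Prop}
    (h3 : p (Pk G b1 b2 ε k)) (h2 : p (s1, s)) (ht : p (τ, 0)) (hB : ∀ β ∈ B, p β) :
    ∀ z ∈ B2, p z := by
  intro z hz
  rw [Q.hB2] at hz
  rcases Finset.mem_insert.mp hz with rfl | hz
  · exact h3
  · rcases Finset.mem_insert.mp hz with rfl | hz
    · exact h2
    · rcases Finset.mem_insert.mp hz with rfl | hz
      · exact ht
      · exact hB z hz

theorem kκ (Q : KPos R B α b1 b2 G κ k ε τ s1 s y0 R2 B2) : k ≠ κ := by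
  rintro rfl; exact Q.hB _ Q.mem3 Q.hP

theorem k1 (Q : KPos R B α b1 b2 G κ k ε τ s1 s y0 R2 B2) : k ≠ 1 := by
  rintro rfl
  apply Q.hB _ Q.mem3
  have : Pk G b1 b2 ε 1 = (ε, 0) := by unfold Pk; ring_nf
  rw [this]; exact Q.he

theorem k0 (Q : KPos R B α b1 b2 G κ k ε τ s1 s y0 R2 B2) : k ≠ 0 := by
  rintro rfl
  apply Q.hB _ Q.mem3
  have : Pk G b1 b2 ε 0 = (G * b1, G * b2) := by unfold Pk; ring_nf
  rw [this]; exact Q.hg

theorem y0b (Q : KPos R B α b1 b2 G κ k ε τ s1 s y0 R2 B2) : y0 ≠ b2 := by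
  rintro rfl
  apply Q.hB _ Q.memt
  have := mul_left_cancel₀ Q.K.hb2 Q.hτ
  rw [this]; exact Q.he

theorem y00 (Q : KPos R B α b1 b2 G κ k ε τ s1 s y0 R2 B2) : y0 ≠ 0 := by
  rintro rfl
  apply Q.hB _ Q.memt
  have h := Q.hτ
  rw [zero_mul] at h
  rcases mul_eq_zero.mp h with h | h
  · exact absurd h Q.K.hb2
  · rw [h]; exact Q.hc

theorem s_ne (Q : KPos R B α b1 b2 G κ k ε τ s1 s y0 R2 B2) (l : ℤ)
    (hl : ((l * b1, l * b2) : Pt) ∈ R2) : s ≠ l * b2 := by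
  rintro rfl
  apply Q.hB _ Q.mem2
  have : s1 = l * b1 := by
    apply mul_right_cancel₀ Q.K.hb2
    rw [Q.hs]; ring
  rw [this]; exact hl

theorem s0 (Q : KPos R B α b1 b2 G κ k ε τ s1 s y0 R2 B2) : s ≠ 0 := by
  have := Q.s_ne 0 (by simpa using Q.hc)
  simpa using this

theorem sb (Q : KPos R B α b1 b2 G κ k ε τ s1 s y0 R2 B2) : s ≠ b2 := by
  have := Q.s_ne 1 (by simpa using Q.hb)
  simpa using this

theorem sg (Q : KPos R B α b1 b2 G κ k ε τ s1 s y0 R2 B2) : s ≠ G * b2 := Q.s_ne G Q.hg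

/-- the arm `P (δ, 0)` is alive -/
theorem alive (Q : KPos R B α b1 b2 G κ k ε τ s1 s y0 R2 B2) (hG : G ≠ 0) (hκ1 : κ ≠ 1) {δ : ℤ}
    (hδR : ((δ, 0) : Pt) ∈ R2) (hδε : δ ≠ ε)
    (h1 : ∀ β ∈ B, (-(β.2 * κ)) * ε + ((1 - κ) * G * ((b2 * β.1 - b1 * β.2) - b2 * δ) +
      β.2 * δ) ≠ 0)
    (h2 : (-(s * κ)) * ε + (-((1 - κ) * G * b2 * δ) + s * δ) ≠ 0) :
    ALine R2 B2 (Pk G b1 b2 ε κ) (δ, 0) := by
  have hb2 := Q.K.hb2
  have hH : (1 - κ) * G ≠ 0 := mul_ne_zero (fun h => hκ1 (by linarith)) hG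
  refine ⟨Q.hP, hδR, ?_, Q.forall_B2 ?_ ?_ ?_ ?_⟩
  · intro h
    have := congrArg Prod.snd h
    rw [Pk_2] at this
    exact mul_ne_zero hH hb2 this
  · intro hc
    have h := arm_eq hb2 hc
    rw [Pk_X, Pk_2] at h
    have : G * b2 * ((k - κ) * (ε - δ)) = 0 := by linear_combination h
    rcases mul_eq_zero.mp this with h | h
    · exact mul_ne_zero hG hb2 h
    · rcases mul_eq_zero.mp h with h | h
      · exact Q.kκ (by linarith)
      · exact hδε (by linarith)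
  · intro hc
    have h := arm_eq hb2 hc
    simp only at h
    have hs := Q.hs
    exact h2 (by linear_combination h - (1 - κ) * G * hs)
  · intro hc
    have h := arm_eq hb2 hc
    simp only at h
    have : (1 - κ) * G * b2 * (τ - δ) = 0 := by linear_combination h
    rcases mul_eq_zero.mp this with h | h
    · exact mul_ne_zero hH hb2 h
    · apply Q.hB _ Q.memt
      have : τ = δ := by linarith
      rw [this]; exact hδR
  · intro β hβ hc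
    have h := arm_eq hb2 hc
    exact h1 β hβ (by linear_combination h)

/-- F1: the fork with the arms `P a`, `P c` and the red stone `e` -/
theorem fork1 (Q : KPos R B α b1 b2 G κ k ε τ s1 s y0 R2 B2) (hG : G ≠ 0) (hκ1 : κ ≠ 1)
    (hAa : ALine R2 B2 (Pk G b1 b2 ε κ) (α, 0)) (hAc : ALine R2 B2 (Pk G b1 b2 ε κ) (0, 0))
    (hε0 : ε ≠ 0) (hεα : ε ≠ α) {n : ℕ} (hF : ForkSols α ε n) (hn : B2.card < n)
    (hU : Uncov R2 B2 (Pk G b1 b2 ε κ) (α, 0) ∨ Uncov R2 B2 (Pk G b1 b2 ε κ) (0, 0)) :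
    Win R2 B2 := by
  have hα := Q.K.hα
  have hb2 := Q.K.hb2
  have hH : (1 - κ) * G ≠ 0 := mul_ne_zero (fun h => hκ1 (by linarith)) hG
  obtain ⟨F, hFc, hFl⟩ := hF
  refine fork_list (P := Pk G b1 b2 ε κ) (v := (0, 0)) (v' := (α, 0)) (w := (ε, 0)) (s := ε)
    (t0 := α) Q.hN Q.hB hAc hAa hU.symm ?_ Q.he ?_ ?_ hα hε0 hεα F (by rw [hFc]; exact hn) hFl
  · intro h
    unfold Col at h
    simp only at h
    have h2 := Pk_2 G b1 b2 ε κ
    rw [h2] at h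
    have : (1 - κ) * G * b2 * α = 0 := by linear_combination h
    rcases mul_eq_zero.mp this with h | h
    · exact mul_ne_zero hH hb2 h
    · exact hα h
  · simp only; ring
  · simp only; ring

end KPos

/-- K1: `P a` is hit only in `z`; the line `e z` meets `P c` in the point `φ P` -/
theorem k1_win {R B : Finset Pt} {α b1 b2 : ℤ} (K : K3C R B α b1 b2) {G κ s y0 D A C : ℤ}
    (hG : G ≠ 0) (hκ1 : κ ≠ 1) (hC : C ≠ 0) (hD : D ≠ 0)
    (hu : ∀ β ∈ B, κ * β.2 + (1 - κ) * G * b2 ≠ 0) (hs0 : s ≠ 0) :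
    ∀ᶠ ρ : ℤ in cofinite, ∀ φ, D * φ = A + C * ρ → ∀ k τ s1 R2 B2,
      KPos R B α b1 b2 G κ k (α * ρ) τ s1 s y0 R2 B2 →
      ALine R2 B2 (Pk G b1 b2 (α * ρ) κ) (α, 0) → ALine R2 B2 (Pk G b1 b2 (α * ρ) κ) (0, 0) →
      ∀ z, Col (Pk G b1 b2 (α * ρ) κ) (α, 0) z → z ∉ R2 →
      φ * (z.2 * α - (1 - κ) * G * b2 * (α - α * ρ)) = z.2 * (α * ρ) →
      Uncov (insert z R2) B2 (Pk G b1 b2 (α * ρ) κ) (α, 0) → Win R2 B2 := by
  have hα := K.hα
  have hb2 := K.hb2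
  have hH : (1 - κ) * G ≠ 0 := mul_ne_zero (fun h => hκ1 (by linarith)) hG
  have C1 : ∀ᶠ ρ : ℤ in cofinite, ∀ β ∈ B,
      (C * α * (κ * β.2 + (1 - κ) * G * b2)) * ρ * ρ +
        (A * α * (κ * β.2 + (1 - κ) * G * b2) - C * ((1 - κ) * G * (b2 * β.1 - b1 * β.2)) -
          D * α * β.2) * ρ + (-(A * ((1 - κ) * G * (b2 * β.1 - b1 * β.2)))) ≠ 0 :=
    ev_fin B (fun β hβ => ev_quad _ _ _ (Or.inl (mul_ne_zero (mul_ne_zero hC hα) (hu β hβ))))
  have C2 : ∀ᶠ ρ : ℤ in cofinite,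
      (C * (κ * s + (1 - κ) * G * b2)) * ρ + (A * (κ * s + (1 - κ) * G * b2) - D * s) ≠ 0 := by
    apply ev_linne
    by_cases h : κ * s + (1 - κ) * G * b2 = 0
    · right
      rw [h, mul_zero, zero_sub]
      exact neg_ne_zero.mpr (mul_ne_zero hD hs0)
    · exact Or.inl (mul_ne_zero hC h)
  filter_upwards [C1, C2, ev_linne C A 0 (Or.inl hC), ev_linne C A D (Or.inl hC),
    ev_abs 1] with ρ c1 c2 c3 c4 c5
  intro φ hφ k τ s1 R2 B2 Q hAa hAc z hz hzR hrel hU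
  have hρ0 : ρ ≠ 0 := by rintro rfl; norm_num at c5
  have hρ1 : ρ ≠ 1 := by rintro rfl; norm_num at c5
  have hε : α * ρ ≠ 0 := mul_ne_zero hα hρ0
  have hφ0 : φ ≠ 0 := by
    rintro rfl
    apply c3
    linear_combination -hφ
  have hφ1 : φ ≠ 1 := by
    rintro rfl
    apply c4
    linear_combination -hφ
  have hy0b := Q.y0b
  have hk1 := Q.k1
  have hzl := arm_eq hb2 hz
  have hP2 := Pk_2 G b1 b2 (α * ρ) κ
  have hPX := Pk_X G b1 b2 (α * ρ) κ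
  have hP20 : (Pk G b1 b2 (α * ρ) κ).2 ≠ 0 := by rw [hP2]; exact mul_ne_zero hH hb2
  obtain ⟨P, hPdef⟩ : ∃ P, P = Pk G b1 b2 (α * ρ) κ := ⟨_, rfl⟩
  obtain ⟨f, hf⟩ : ∃ f : Pt, f = (φ * P.1, φ * P.2) := ⟨_, rfl⟩
  rw [← hPdef] at hz hP2 hPX hP20 hU hAa hAc
  have hf1 : f.1 = φ * P.1 := by rw [hf]
  have hf2 : f.2 = φ * P.2 := by rw [hf]
  have hzP : z ≠ P := by
    rintro rfl
    apply hzR
    rw [hPdef]; exact Q.hP
  have hza : z ≠ (α, 0) := by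
    rintro rfl
    exact hzR Q.ha
  -- `e, z, f` are collinear
  have hcol : Col (α * ρ, 0) z f := by
    unfold Col
    simp only
    rw [hf1, hf2]
    apply mul_left_cancel₀ (mul_ne_zero hb2 hH)
    linear_combination (-((1 - κ) * G * z.2 * φ)) * hPX +
      ((1 - κ) * G * φ * ((b2 * z.1 - b1 * z.2) - b2 * (α * ρ))) * hP2 +
      ((1 - κ) * G * b2 * φ) * hzl - ((1 - κ) * G * b2) * hrel
  have hze : z ≠ (α * ρ, 0) := by
    rintro rfl
    exact hzR Q.he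
  have hfe : f ≠ (α * ρ, 0) := by
    intro h
    have := congrArg Prod.snd h
    rw [hf2] at this
    exact mul_ne_zero hφ0 hP20 this
  -- the line `e z` is the line `e f`
  have hline : ∀ x, Col (α * ρ, 0) z x → Col (α * ρ, 0) f x := fun x hx =>
    (Col.line_iff hze.symm hfe.symm (Col.refl_left _ _) hcol).mp hx
  have hef : ∀ x, Col (α * ρ, 0) f x →
      (φ * κ - 1) * (α * ρ) * x.2 =
        φ * ((1 - κ) * G) * ((b2 * x.1 - b1 * x.2) - b2 * (α * ρ)) := by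
    intro x hx
    have h := colX (b1 := b1) (b2 := b2) hx
    simp only at h
    rw [hf1, hf2, hP2] at h
    apply mul_left_cancel₀ hb2
    linear_combination h + (-(φ * x.2)) * hPX - φ * x.2 * b1 * hP2
  refine fin_win' (c := P) (v := (α, 0)) (v' := (0, 0)) (e := (α * ρ, 0)) (g := z) (f := f)
    Q.hN hAa hAc hU ?_ Q.he ?_ hz hzP hza ?_ ?_ ?_ hcol ?_
  · intro h
    unfold Col at h
    simp only at h
    have : P.2 * α = 0 := by linear_combination -h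
    rcases mul_eq_zero.mp this with h | h
    · exact hP20 h
    · exact hα h
  · intro h
    unfold Col at h
    simp only at h
    have : P.2 * (α * (ρ - 1)) = 0 := by linear_combination h
    rcases mul_eq_zero.mp this with h | h
    · exact hP20 h
    · rcases mul_eq_zero.mp h with h | h
      · exact hα h
      · exact hρ1 (by linarith)
  · unfold Col
    rw [hf1, hf2]
    simp only
    ring
  · intro h
    have h1 := congrArg Prod.snd h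
    rw [hf2] at h1
    have : (φ - 1) * P.2 = 0 := by linear_combination h1
    rcases mul_eq_zero.mp this with h | h
    · exact hφ1 (by linarith)
    · exact hP20 h
  · intro h
    have h1 := congrArg Prod.snd h
    rw [hf2] at h1
    exact mul_ne_zero hφ0 hP20 h1
  · -- no blue stone on `e z`
    refine Q.forall_B2 ?_ ?_ ?_ ?_
    · intro hx
      have h := hef _ (hline _ hx)
      rw [Pk_X, Pk_2] at h
      have : α * ρ * b2 * G * ((1 - k) * (φ - 1)) = 0 := by linear_combination h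
      rcases mul_eq_zero.mp this with h | h
      · exact mul_ne_zero (mul_ne_zero hε hb2) hG h
      · rcases mul_eq_zero.mp h with h | h
        · exact hk1 (by linarith)
        · exact hφ1 (by linarith)
    · intro hx
      have h := hef _ (hline _ hx)
      simp only at h
      have hs := Q.hs
      apply c2
      apply mul_left_cancel₀ hε
      linear_combination D * h + D * φ * ((1 - κ) * G) * hs -
        (κ * s + (1 - κ) * G * b2) * (α * ρ) * hφ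
    · intro hx
      have h := hef _ (hline _ hx)
      simp only at h
      have hτ := Q.hτ
      have : φ * ((1 - κ) * G) * ((y0 - b2) * (α * ρ)) = 0 := by
        linear_combination -h - φ * ((1 - κ) * G) * hτ
      rcases mul_eq_zero.mp this with h | h
      · exact mul_ne_zero hφ0 hH h
      · rcases mul_eq_zero.mp h with h | h
        · exact hy0b (by linarith)
        · exact hε h
    · intro β hβ hx
      have h := hef _ (hline _ hx)
      apply c1 β hβ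
      linear_combination D * h - (κ * (α * ρ) * β.2 -
        ((1 - κ) * G) * ((b2 * β.1 - b1 * β.2) - b2 * (α * ρ))) * hφ

theorem ev_mul {α : ℤ} (hα : α ≠ 0) {P : ℤ → Prop} (h : ∀ᶠ ε : ℤ in cofinite, P ε) :
    ∀ᶠ ρ : ℤ in cofinite, P (α * ρ) :=
  ((mul_right_injective₀ hα).tendsto_cofinite).eventually h

theorem KPos.card {R B R2 B2 : Finset Pt} {α b1 b2 G κ k ε τ s1 s y0 : ℤ}
    (Q : KPos R B α b1 b2 G κ k ε τ s1 s y0 R2 B2) : B2.card < B.card + 4 := by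
  rw [Q.hB2]
  have h1 := Finset.card_insert_le (Pk G b1 b2 ε k) (insert ((s1, s) : Pt) (insert (τ, 0) B))
  have h2 := Finset.card_insert_le ((s1, s) : Pt) (insert ((τ, 0) : Pt) B)
  have h3 := Finset.card_insert_le ((τ, 0) : Pt) B
  omega

/-- two points of the arm `P (δ, 0)` with the same second coordinate -/
theorem arm_inj {G κ ε b1 b2 δ : ℤ} (hb2 : b2 ≠ 0) (hH : (1 - κ) * G ≠ 0) {z z' : Pt}
    (hz : Col (Pk G b1 b2 ε κ) (δ, 0) z) (hz' : Col (Pk G b1 b2 ε κ) (δ, 0) z')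
    (h : z'.2 = z.2) : z' = z := by
  have h1 := arm_eq hb2 hz
  have h2 := arm_eq hb2 hz'
  refine Prod.ext ?_ h
  rw [h] at h2
  have h3 : (1 - κ) * G * b2 * (z'.1 - z.1) = 0 := by linear_combination h2 - h1
  rcases mul_eq_zero.mp h3 with h4 | h4
  · exact absurd h4 (mul_ne_zero hH hb2)
  · linarith

/-- the alive arms -/
theorem kp_alive {R B : Finset Pt} {α b1 b2 : ℤ} (K : K3C R B α b1 b2) {G κ s : ℤ}
    (hG : G ≠ 0) (hκ0 : κ ≠ 0) (hκ1 : κ ≠ 1) (hs0 : s ≠ 0) (δ : ℤ) :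
    ∀ᶠ ε : ℤ in cofinite, δ ≠ ε → ∀ k τ s1 y0 R2 B2,
      KPos R B α b1 b2 G κ k ε τ s1 s y0 R2 B2 → ((δ, 0) : Pt) ∈ R2 →
      ALine R2 B2 (Pk G b1 b2 ε κ) (δ, 0) := by
  have C1 : ∀ᶠ ε : ℤ in cofinite, ∀ β ∈ B, (-(β.2 * κ)) * ε +
      ((1 - κ) * G * ((b2 * β.1 - b1 * β.2) - b2 * δ) + β.2 * δ) ≠ 0 :=
    ev_fin B (fun β hβ => ev_linne _ _ _ (Or.inl (neg_ne_zero.mpr
      (mul_ne_zero (K.hy β hβ) hκ0))))
  have C2 : ∀ᶠ ε : ℤ in cofinite, (-(s * κ)) * ε + (-((1 - κ) * G * b2 * δ) + s * δ) ≠ 0 :=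
    ev_linne _ _ _ (Or.inl (neg_ne_zero.mpr (mul_ne_zero hs0 hκ0)))
  filter_upwards [C1, C2] with ε c1 c2
  intro hδε k τ s1 y0 R2 B2 Q hδR
  exact Q.alive hG hκ1 hδR hδε c1 c2

/-- the finish for a fixed answer `k`, `t2 t3` not parallel to `c a` -/
theorem kp_win {R B : Finset Pt} {α b1 b2 : ℤ} (K : K3C R B α b1 b2) {G κ k y0 s : ℤ}
    (hGp : Prime G) (hκ0 : κ ≠ 0) (hκ1 : κ ≠ 1) (hk1 : k ≠ 1) (hkκ : k ≠ κ) (hs0 : s ≠ 0)
    (hsg : s ≠ G * b2) (hy00 : y0 ≠ 0) (hy0b : y0 ≠ b2) (hyG : ∀ β ∈ B, ¬ G ∣ β.2)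
    (hsz : ∀ β ∈ B, |κ * β.2 * β.2| < |(1 - κ) * G * y0 + κ * β.2|)
    (hu : ∀ β ∈ B, b2 * G * (k - κ) + κ * β.2 ≠ 0)
    (hu' : ∀ β ∈ B, κ * β.2 + (1 - κ) * G * b2 ≠ 0)
    (hga : ∀ β ∈ B, (b2 * β.1 - b1 * β.2) * G ≠ α * (b2 * G - β.2))
    (hp2 : (1 - κ) * G * y0 + κ * s ≠ 0) (hnH : s ≠ (1 - k) * G * b2) (s1 : ℤ)
    (hs : s1 * b2 = s * b1) :
    ∀ᶠ ρ : ℤ in cofinite, ForkSols α (α * ρ) (B.card + 4) →
      ¬ G ∣ κ * (α * ρ) - α →
      (b2 * k = κ * b2 + (1 - κ) * y0 → (b2 - y0) ∣ ρ - 1) →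
      (b2 * G * (k - κ) + κ * s = 0 → (1 - k) ∣ ρ - 1) →
      ∀ τ R2 B2, KPos R B α b1 b2 G κ k (α * ρ) τ s1 s y0 R2 B2 → Win R2 B2 := by
  have hα := K.hα
  have hb2 := K.hb2
  have hG0 : G ≠ 0 := hGp.ne_zero
  have hH : (1 - κ) * G ≠ 0 := mul_ne_zero (fun h => hκ1 (by linarith)) hG0
  filter_upwards [ev_mul hα (kp_a K hGp hκ0 hκ1 hk1 hkκ hs0 hsg hy0b hyG hsz hu hga hp2 s1 hs),
    ev_mul hα (kp_alive K hG0 hκ0 hκ1 hs0 0), ev_mul hα (kp_alive K hG0 hκ0 hκ1 hs0 α),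
    k1_win K (κ := κ) (s := s) (y0 := y0) (D := b2 - y0) (A := b2) (C := -y0) hG0 hκ1
      (neg_ne_zero.mpr hy00) (sub_ne_zero.mpr (Ne.symm hy0b)) hu' hs0,
    k1_win K (κ := κ) (s := s) (y0 := y0) (D := 1 - k) (A := 1 - κ) (C := κ - k) hG0 hκ1
      (sub_ne_zero.mpr (Ne.symm hkκ)) (sub_ne_zero.mpr (Ne.symm hk1)) hu' hs0,
    ev_abs 1] with ρ c1 c2 c3 c4 c5 c6
  intro hF hor hT hS τ R2 B2 Q
  have hρ0 : ρ ≠ 0 := by rintro rfl; norm_num at c6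
  have hρ1 : ρ ≠ 1 := by rintro rfl; norm_num at c6
  have hε0 : α * ρ ≠ 0 := mul_ne_zero hα hρ0
  have hεα : α * ρ ≠ α := by
    intro h
    apply hρ1
    apply mul_left_cancel₀ hα
    rw [h, mul_one]
  have hAc := c2 (Ne.symm hε0) k τ s1 y0 R2 B2 Q Q.hc
  have hAa := c3 (Ne.symm hεα) k τ s1 y0 R2 B2 Q Q.ha
  by_cases hU : Uncov R2 B2 (Pk G b1 b2 (α * ρ) κ) (α, 0)
  · exact Q.fork1 hG0 hκ1 hAa hAc hε0 hεα hF Q.card (Or.inl hU)
  obtain ⟨z, hz, hzR, hzB, hhit⟩ := hit_of_not_uncov hU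
  have key : ∀ R' : Finset Pt, R2 ⊆ R' → ∀ z', Col (Pk G b1 b2 (α * ρ) κ) (α, 0) z' →
      Hit R' B2 z' →
      (b2 * k = κ * b2 + (1 - κ) * y0 ∧ α * z'.2 = (1 - κ) * G * (b2 * α - y0 * (α * ρ))) ∨
      (b2 * G * (k - κ) + κ * s = 0 ∧ z'.2 * (((1 - k) * G * b2 - s) * α) =
        (1 - κ) * G * b2 * (k * s * (α * ρ) + ((1 - k) * G * b2 - s) * α)) := by
    intro R' hR' z' hz' hh
    rw [Q.hB2] at hh
    rcases c1 hor τ Q.hτ R' (hR' Q.hP) (hR' Q.ha) (hR' Q.hb) z' hz' hh with h | h | h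
    · exact Or.inl ⟨h.1, h.2.1⟩
    · exact Or.inr ⟨h.1, h.2.1⟩
    · exact absurd h hnH
  -- not both
  have hnot : ¬ (b2 * k = κ * b2 + (1 - κ) * y0 ∧ b2 * G * (k - κ) + κ * s = 0) := by
    rintro ⟨h1, h2⟩
    apply hp2
    linear_combination h2 - G * h1
  have hrest : ∀ w : ℤ, (∀ z', Col (Pk G b1 b2 (α * ρ) κ) (α, 0) z' →
      Hit (insert z R2) B2 z' → z'.2 = w) → z.2 = w →
      Uncov (insert z R2) B2 (Pk G b1 b2 (α * ρ) κ) (α, 0) := by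
    intro w hw hzw
    apply uncov_of_hit
    intro z' hz' hz'R _ hh
    apply hz'R
    rw [arm_inj hb2 hH hz hz' (by rw [hw z' hz' hh, hzw])]
    exact Finset.mem_insert_self _ _
  rcases key R2 (Finset.Subset.refl _) z hz hhit with ⟨h1, h2⟩ | ⟨h1, h2⟩
  · obtain ⟨m, hm⟩ := hT h1
    refine c4 (1 - y0 * m) (by linear_combination y0 * hm) k τ s1 R2 B2 Q hAa hAc z hz hzR
      ?_ (hrest z.2 ?_ rfl)
    · linear_combination ((1 - y0 * m) - ρ) * h2 + (1 - κ) * G * α * ρ * y0 * hm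
    · intro z' hz' hh
      rcases key _ (Finset.subset_insert _ _) z' hz' hh with ⟨h3, h4⟩ | ⟨h3, h4⟩
      · apply mul_left_cancel₀ hα
        rw [h4, h2]
      · exact absurd ⟨h1, h3⟩ hnot
  · obtain ⟨m, hm⟩ := hS h1
    have hne : ((1 - k) * G * b2 - s) ≠ 0 := sub_ne_zero.mpr (Ne.symm hnH)
    have h2' : z.2 * α = b2 * G * ((κ - k) * (α * ρ) + (1 - κ) * α) := by
      apply mul_left_cancel₀ hne
      linear_combination h2 + (b2 * G * (α * ρ) * (1 - k)) * h1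
    refine c5 (1 + (κ - k) * m) (by linear_combination (-(κ - k)) * hm) k τ s1 R2 B2 Q hAa hAc z hz
      hzR ?_ (hrest z.2 ?_ rfl)
    · linear_combination ((1 + (κ - k) * m) - ρ) * h2' - b2 * G * α * ρ * (κ - k) * hm
    · intro z' hz' hh
      rcases key _ (Finset.subset_insert _ _) z' hz' hh with ⟨h3, h4⟩ | ⟨h3, h4⟩
      · exact absurd ⟨h3, h1⟩ hnot
      · apply mul_right_cancel₀ (mul_ne_zero hne hα)
        rw [h4, h2]

end Pool.Agent.K4L
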