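import Pool.Agent.K4L.K3UKD

/-!
# K3U, kills: all answers `t3`, except `t2 t3` parallel to `c a`
-/

namespace Pool.Agent.K4L

open Filter

/-- fixed `k` without the side conditions -/
theorem kp_win' {R B : Finset Pt} {α b1 b2 : ℤ} (K : K3C R B α b1 b2) {G κ y0 s : ℤ} (k : ℤ)
    (hGp : Prime G) (hκG : ¬ G ∣ κ) (hκ1G : ¬ G ∣ κ - 1) (hs0 : s ≠ 0)
    (hsg : s ≠ G * b2) (hy00 : y0 ≠ 0) (hy0b : y0 ≠ b2) (hyG : ∀ β ∈ B, ¬ G ∣ β.2)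
    (hsz : ∀ β ∈ B, |κ * β.2 * β.2| < |(1 - κ) * G * y0 + κ * β.2|)
    (hga : ∀ β ∈ B, (b2 * β.1 - b1 * β.2) * G ≠ α * (b2 * G - β.2))
    (hp2 : (1 - κ) * G * y0 + κ * s ≠ 0) (s1 : ℤ) (hs : s1 * b2 = s * b1) :
    ∀ᶠ ρ : ℤ in cofinite, ForkSols α (α * ρ) (B.card + 4) →
      ¬ G ∣ κ * (α * ρ) - α →
      (b2 * k = κ * b2 + (1 - κ) * y0 → (b2 - y0) ∣ ρ - 1) →
      (k ≠ 1 → b2 * G * (k - κ) + κ * s = 0 → (1 - k) ∣ ρ - 1) → s ≠ (1 - k) * G * b2 →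
      ∀ τ R2 B2, KPos R B α b1 b2 G κ k (α * ρ) τ s1 s y0 R2 B2 → Win R2 B2 := by
  have hκ0 : κ ≠ 0 := fun h => hκG (h ▸ dvd_zero G)
  have hκ1 : κ ≠ 1 := fun h => hκ1G (by rw [h, sub_self]; exact dvd_zero G)
  by_cases hk1 : k = 1
  · exact Filter.Eventually.of_forall (fun ρ _ _ _ _ _ τ R2 B2 Q => absurd hk1 Q.k1)
  by_cases hkκ : k = κ
  · exact Filter.Eventually.of_forall (fun ρ _ _ _ _ _ τ R2 B2 Q => absurd hkκ Q.kκ)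
  by_cases hnH : s = (1 - k) * G * b2
  · exact Filter.Eventually.of_forall (fun ρ _ _ _ _ h τ R2 B2 Q => absurd hnH h)
  have h1 : ∀ β ∈ B, ¬ G ∣ κ * β.2 := by
    intro β hβ h
    rcases hGp.dvd_or_dvd h with h | h
    · exact hκG h
    · exact hyG β hβ h
  filter_upwards [kp_win K hGp hκ0 hκ1 hk1 hkκ hs0 hsg hy00 hy0b hyG hsz
    (fun β hβ h => h1 β hβ ⟨b2 * (κ - k), by linear_combination h⟩)
    (fun β hβ h => h1 β hβ ⟨b2 * (κ - 1), by linear_combination h⟩) hga hp2 hnH s1 hs] with ρ h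
  intro g1 g2 g3 g4 _ τ R2 B2 Q
  exact h g1 g2 g3 (g4 hk1) τ R2 B2 Q

/-- the line `t2 t` does not hit `P c` -/
theorem seg_no {G κ y0 s w : ℤ} (hκ0 : κ ≠ 0) (hs0 : s ≠ 0)
    (h : |κ * s * s| < |(1 - κ) * G * y0 + κ * s|)
    (he : w * ((1 - κ) * G * y0 + κ * s) = (1 - κ) * G * y0 * s) : False := by
  have e3 : (w - s) * ((1 - κ) * G * y0 + κ * s) = -(κ * s * s) := by linear_combination he
  have hwy : w - s ≠ 0 := by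
    intro h
    rw [h, zero_mul] at e3
    exact mul_ne_zero (mul_ne_zero hκ0 hs0) hs0 (by linarith)
  have h4 := le_mul_of_one_le_left (abs_nonneg ((1 - κ) * G * y0 + κ * s))
    (Int.one_le_abs hwy)
  rw [← abs_mul, e3, abs_neg] at h4
  linarith

/-- all answers -/
theorem kp_all {R B : Finset Pt} {α b1 b2 : ℤ} (K : K3C R B α b1 b2) {G κ y0 s : ℤ}
    (hGp : Prime G) (hκG : ¬ G ∣ κ) (hκ1G : ¬ G ∣ κ - 1) (hs0 : s ≠ 0)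
    (hsg : s ≠ G * b2) (hy00 : y0 ≠ 0) (hy0b : y0 ≠ b2) (hyG : ∀ β ∈ B, ¬ G ∣ β.2)
    (hsz : ∀ β ∈ B, |κ * β.2 * β.2| < |(1 - κ) * G * y0 + κ * β.2|)
    (hga : ∀ β ∈ B, (b2 * β.1 - b1 * β.2) * G ≠ α * (b2 * G - β.2))
    (hp2 : (1 - κ) * G * y0 + κ * s ≠ 0)
    (hseg : b2 * ((1 - κ) * G * y0 + κ * s) = y0 * s ∨
      |κ * s * s| < |(1 - κ) * G * y0 + κ * s|) (s1 : ℤ) (hs : s1 * b2 = s * b1) :
    ∀ᶠ ρ : ℤ in cofinite, ForkSols α (α * ρ) (B.card + 4) → ¬ G ∣ α * ρ →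
      ¬ G ∣ κ * (α * ρ) - α → (b2 - y0) ∣ ρ - 1 →
      (∀ k, k ≠ 1 → b2 * G * (k - κ) + κ * s = 0 → (1 - k) ∣ ρ - 1) →
      ∀ k τ R2 B2, KPos R B α b1 b2 G κ k (α * ρ) τ s1 s y0 R2 B2 → s ≠ (1 - k) * G * b2 →
        Win R2 B2 := by
  have hα := K.hα
  have hb2 := K.hb2
  have hG0 : G ≠ 0 := hGp.ne_zero
  have hκ0 : κ ≠ 0 := fun h => hκG (h ▸ dvd_zero G)
  have hκ1 : κ ≠ 1 := fun h => hκ1G (by rw [h, sub_self]; exact dvd_zero G)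
  have C1 : ∀ᶠ ρ : ℤ in cofinite, ∀ k ∈ Finset.Icc (-(kB G κ b2 y0 s)) (kB G κ b2 y0 s),
      ForkSols α (α * ρ) (B.card + 4) →
      ¬ G ∣ κ * (α * ρ) - α →
      (b2 * k = κ * b2 + (1 - κ) * y0 → (b2 - y0) ∣ ρ - 1) →
      (k ≠ 1 → b2 * G * (k - κ) + κ * s = 0 → (1 - k) ∣ ρ - 1) → s ≠ (1 - k) * G * b2 →
      ∀ τ R2 B2, KPos R B α b1 b2 G κ k (α * ρ) τ s1 s y0 R2 B2 → Win R2 B2 :=
    ev_fin _ (fun k _ => kp_win' K k hGp hκG hκ1G hs0 hsg hy00 hy0b hyG hsz hga hp2 s1 hs)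
  filter_upwards [C1, ev_mul hα (kp_c K hGp hκG hκ1G hs0 hsg hy00 hy0b hyG hsz s1 hs),
    ev_mul hα (kp_alive K hG0 hκ0 hκ1 hs0 0), ev_mul hα (kp_alive K hG0 hκ0 hκ1 hs0 α),
    ev_abs 1] with ρ c1 c2 c3 c4 c5
  intro hF hGε hor hT hS k τ R2 B2 Q hnH
  have hρ0 : ρ ≠ 0 := by rintro rfl; norm_num at c5
  have hρ1 : ρ ≠ 1 := by rintro rfl; norm_num at c5
  have hε0 : α * ρ ≠ 0 := mul_ne_zero hα hρ0
  have hεα : α * ρ ≠ α := by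
    intro h
    apply hρ1
    apply mul_left_cancel₀ hα
    rw [h, mul_one]
  by_cases hk : |k| ≤ kB G κ b2 y0 s
  · exact c1 k (Finset.mem_Icc.mpr (abs_le.mp hk)) hF hor (fun _ => hT) (hS k) hnH τ R2 B2 Q
  have hAc := c3 (Ne.symm hε0) k τ s1 y0 R2 B2 Q Q.hc
  have hAa := c4 (Ne.symm hεα) k τ s1 y0 R2 B2 Q Q.ha
  refine Q.fork1 hG0 hκ1 hAa hAc hε0 hεα hF Q.card (Or.inr ?_)
  apply uncov_of_hit
  intro z hz hzR _ hh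
  rw [Q.hB2] at hh
  rcases c2 hGε τ Q.hτ R2 Q.hP Q.hc Q.hb k Q.kκ z hz hh with h | ⟨h1, h2⟩
  · exact hk h
  · rcases hseg with h3 | h3
    · apply h1.2 _ Q.hP
      unfold Col Pk
      simp only
      apply mul_left_cancel₀ hb2
      have hτ := Q.hτ
      linear_combination ((1 - κ) * G * b2 - s) * hτ - (1 - κ) * G * b2 * hs + (α * ρ) * h3
    · exact seg_no hκ0 hs0 h3 h2

end Pool.Agent.K4L
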