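import Pool.Agent.K4L.K3UKE

/-!
# K3U, kills: the arm `P b`
-/

namespace Pool.Agent.K4L

open Filter

/-- the arm `P b` in the coordinates `(X, Y)` -/
theorem armb_eq {G κ ε b1 b2 : ℤ} (hb2 : b2 ≠ 0) {z : Pt}
    (h : Col (Pk G b1 b2 ε κ) (b1, b2) z) :
    ((1 - κ) * G - 1) * (b2 * z.1 - b1 * z.2) = (z.2 - b2) * (κ * ε) := by
  unfold Col Pk at h
  simp only at h
  apply mul_left_cancel₀ hb2
  linear_combination b2 * h

/-- near lines -/
theorem ev_nearb {b1 b2 : ℤ} (M κ : ℤ) (hκ : κ ≠ 0) (hM : M ≠ 0) (T : Finset Pt) :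
    ∀ᶠ ε : ℤ in cofinite, ∀ u ∈ T, ∀ v ∈ T, v.2 ≠ u.2 →
      ((b2 * v.1 - b1 * v.2) - (b2 * u.1 - b1 * u.2)) * (b2 - u.2) ≠
        (v.2 - u.2) * (0 - (b2 * u.1 - b1 * u.2)) →
      ∀ w Z : ℤ, M * Z = (w - b2) * (κ * ε) →
      ((b2 * v.1 - b1 * v.2) - (b2 * u.1 - b1 * u.2)) * (w - u.2) =
        (v.2 - u.2) * (Z - (b2 * u.1 - b1 * u.2)) → False := by
  refine ev_fin2 T T ?_
  intro u _ v _
  by_cases h : v.2 = u.2
  · exact Filter.Eventually.of_forall (fun E h' => absurd h h')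
  obtain ⟨U, hU⟩ : ∃ U, U = b2 * u.1 - b1 * u.2 := ⟨_, rfl⟩
  obtain ⟨V, hV⟩ : ∃ V, V = b2 * v.1 - b1 * v.2 := ⟨_, rfl⟩
  rw [← hU, ← hV]
  have hp : -((v.2 - u.2) * κ) ≠ 0 := neg_ne_zero.mpr (mul_ne_zero (sub_ne_zero.mpr h) hκ)
  filter_upwards [lf (-((v.2 - u.2) * κ)) (M * (V - U)) 0
    (-(M * ((V - U) * (b2 - u.2) + (v.2 - u.2) * U))) hp] with ε hε
  intro _ h2 w Z h3 h4
  obtain ⟨e1, e2⟩ := hε (w - b2) (by linear_combination M * h4 + (v.2 - u.2) * h3)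
  have hw : w - b2 = 0 := by
    rcases mul_eq_zero.mp e1 with h | h
    · exact h
    · exact absurd h hp
  rw [hw, zero_mul] at e2
  rcases mul_eq_zero.mp (neg_eq_zero.mp e2.symm) with h | h
  · exact hM h
  · exact h2 (by linear_combination h)

/-- the line `t β` -/
theorem armb_t {M κ y0 b2 : ℤ} (x y : ℤ) (hM : M ≠ 0) (hx : x ≠ 0) (hy : y ≠ 0)
    (hp : M * y0 + κ * y ≠ 0) (hq : M * y0 + κ * b2 ≠ 0) :
    ∀ᶠ ε : ℤ in cofinite, ∀ w Z : ℤ, M * Z = (w - b2) * (κ * ε) →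
      (x - y0 * ε) * w = y * (Z - y0 * ε) → False := by
  filter_upwards [lf (-(M * y0 + κ * y)) (M * x) (M * y0 * (b2 - y)) (-(M * x * b2))
    (neg_ne_zero.mpr hp)] with ε hε
  intro w Z h1 h2
  obtain ⟨e1, e2⟩ := hε (w - b2) (by linear_combination M * h2 + y * h1)
  have e3 : w - b2 = -b2 := by
    apply mul_left_cancel₀ (mul_ne_zero hM hx)
    linear_combination e2
  rw [e3] at e1
  have e4 : y * (M * y0 + κ * b2) = 0 := by linear_combination e1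
  rcases mul_eq_zero.mp e4 with h | h
  · exact hy h
  · exact hq h

/-- the line `β t3`, all `k` -/
theorem armb_bt3 {G κ b2 : ℤ} (x y : ℤ) (hG1 : G ≠ 1) (hM : (1 - κ) * G - 1 ≠ 0)
    (hb2 : b2 ≠ 0) (hx : x ≠ 0) (hyG : ¬ G ∣ y) (hGy : y ≠ b2 → ¬ (G - 1) ∣ κ * (b2 - y)) :
    ∀ᶠ ε : ℤ in cofinite, ∀ k w Z : ℤ, k ≠ κ → w ≠ b2 →
      ((1 - κ) * G - 1) * Z = (w - b2) * (κ * ε) →
      (b2 * k * ε - x) * (w - y) = ((1 - k) * G * b2 - y) * (Z - x) → False := by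
  have hG1' : G - 1 ≠ 0 := sub_ne_zero.mpr hG1
  filter_upwards [ev_abs (blC (b2 * (G - 1)) (κ * (y - G * b2))
    (((1 - κ) * G - 1) * b2 * (b2 - y)) 0 0
    (-(((1 - κ) * G - 1) * x)) (-(((1 - κ) * G - 1) * x * b2 * G))
    (((1 - κ) * G - 1) * x * b2 * (G - 1)))] with ε hε
  intro k w Z hkκ hwb h1 h2
  have hu : b2 * (G - 1) * k + κ * (y - G * b2) ≠ 0 := by
    intro h
    have h3 : (G - 1) * (b2 * (k - κ)) = κ * (b2 - y) := by linear_combination h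
    by_cases hyb : y = b2
    · rw [hyb, sub_self, mul_zero] at h3
      rcases mul_eq_zero.mp h3 with h | h
      · exact hG1' h
      · rcases mul_eq_zero.mp h with h | h
        · exact hb2 h
        · exact hkκ (by linarith)
    · exact hGy hyb ⟨_, h3.symm⟩
  have hv : b2 * (G - 1) * (w - b2) + ((1 - κ) * G - 1) * b2 * (b2 - y) ≠ 0 := by
    intro h
    have h3 : (G - 1) * ((w - b2) + (1 - κ) * (b2 - y)) = κ * (b2 - y) := by
      apply mul_left_cancel₀ hb2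
      linear_combination h
    by_cases hyb : y = b2
    · rw [hyb, sub_self, mul_zero, mul_zero, add_zero] at h3
      rcases mul_eq_zero.mp h3 with h | h
      · exact hG1' h
      · exact hwb (by linarith)
    · exact hGy hyb ⟨_, h3.symm⟩
  obtain ⟨e1, e2⟩ := bl (b2 * (G - 1)) (κ * (y - G * b2))
    (((1 - κ) * G - 1) * b2 * (b2 - y)) 0 0
    (-(((1 - κ) * G - 1) * x)) (-(((1 - κ) * G - 1) * x * b2 * G))
    (((1 - κ) * G - 1) * x * b2 * (G - 1))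
    (mul_ne_zero hb2 hG1') ε (w - b2) k hε hu hv (by
      linear_combination ((1 - κ) * G - 1) * h2 + ((1 - k) * G * b2 - y) * h1)
  have e3 : w - b2 = b2 * ((1 - k) * G - 1) := by
    apply mul_left_cancel₀ (mul_ne_zero hM hx)
    linear_combination -e2
  rw [e3] at e1
  have e4 : b2 * (k - κ) * (G - 1) * (b2 * G * (1 - k) - y) = 0 := by
    linear_combination e1
  rcases mul_eq_zero.mp e4 with h | h
  · rcases mul_eq_zero.mp h with h | h
    · rcases mul_eq_zero.mp h with h | h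
      · exact hb2 h
      · exact hkκ (by linarith)
    · exact hG1' h
  · exact hyG ⟨b2 * (1 - k), by linear_combination -h⟩

/-- the hits of the arm `P b`, all `k` -/
theorem kp_b {R B : Finset Pt} {α b1 b2 : ℤ} (K : K3C R B α b1 b2) {G κ y0 s : ℤ}
    (hG1 : G ≠ 1) (hκ0 : κ ≠ 0) (hM : (1 - κ) * G - 1 ≠ 0)
    (hyG : ∀ β ∈ B, ¬ G ∣ β.2) (hys : ∀ β ∈ B, β.2 ≠ s)
    (hGy : ∀ β ∈ B, β.2 ≠ b2 → ¬ (G - 1) ∣ κ * (b2 - β.2))
    (hp : ∀ β ∈ B, ((1 - κ) * G - 1) * y0 + κ * β.2 ≠ 0)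
    (hq : ((1 - κ) * G - 1) * y0 + κ * b2 ≠ 0)
    (s1 : ℤ) (hs : s1 * b2 = s * b1) :
    ∀ᶠ ε : ℤ in cofinite, (∀ β ∈ B, β.2 ≠ b2 → ¬ ((1 - κ) * G - 1) ∣ (β.2 - b2) * (κ * ε)) →
      ∀ τ, b2 * τ = y0 * ε →
      ∀ R2 : Finset Pt, ((b1, b2) : Pt) ∈ R2 →
      ∀ k, k ≠ κ → ∀ z, Col (Pk G b1 b2 ε κ) (b1, b2) z → z ∉ R2 →
      Hit R2 (insert (Pk G b1 b2 ε k) (insert (s1, s) (insert (τ, 0) B))) z →
      (Seg R2 (s1, s) (τ, 0) z ∧ (z.2 - b2) * (((1 - κ) * G - 1) * y0 + κ * s) =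
        ((1 - κ) * G - 1) * y0 * (s - b2)) ∨
      (Seg R2 (Pk G b1 b2 ε k) (τ, 0) z ∧
        (z.2 - b2) * (b2 * (k * (G - 1) - κ * G) - ((1 - κ) * G - 1) * y0) =
        -(((1 - κ) * G - 1) * b2 * (b2 * k + y0 * ((1 - k) * G - 1)))) ∨
      (Seg R2 (Pk G b1 b2 ε k) (s1, s) z ∧
        (z.2 - b2) * (b2 * (k * (G - 1) - κ * G) + κ * s) =
        ((1 - κ) * G - 1) * b2 * k * (s - b2)) := by
  have hb2 := K.hb2
  have C1 := ev_nearb (b1 := b1) (b2 := b2) ((1 - κ) * G - 1) κ hκ0 hM (insert (s1, s) B)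
  have C2 : ∀ᶠ ε : ℤ in cofinite, ∀ β ∈ B, ∀ w Z : ℤ,
      ((1 - κ) * G - 1) * Z = (w - b2) * (κ * ε) →
      ((b2 * β.1 - b1 * β.2) - y0 * ε) * w = β.2 * (Z - y0 * ε) → False :=
    ev_fin B (fun β hβ => armb_t (b2 * β.1 - b1 * β.2) β.2 hM (K.hD β hβ) (K.hy β hβ)
      (hp β hβ) hq)
  have C4 : ∀ᶠ ε : ℤ in cofinite, ∀ β ∈ B, ∀ k w Z : ℤ, k ≠ κ → w ≠ b2 →
      ((1 - κ) * G - 1) * Z = (w - b2) * (κ * ε) →
      (b2 * k * ε - (b2 * β.1 - b1 * β.2)) * (w - β.2) =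
        ((1 - k) * G * b2 - β.2) * (Z - (b2 * β.1 - b1 * β.2)) → False :=
    ev_fin B (fun β hβ => armb_bt3 _ _ hG1 hM hb2 (K.hD β hβ) (hyG β hβ) (hGy β hβ))
  filter_upwards [C1, C2, C4, ev_abs 0] with ε c1 c2 c4 c7
  intro hMd τ hτ R2 hbR k hkκ z hz hzR hit
  have hε : ε ≠ 0 := by rintro rfl; simp at c7
  have hz' := armb_eq hb2 hz
  have hzb : z.2 ≠ b2 := by
    intro h
    apply hzR
    have : z = (b1, b2) := by
      refine Prod.ext ?_ h
      rw [h, sub_self, zero_mul] at hz'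
      rcases mul_eq_zero.mp hz' with h1 | h1
      · exact absurd h1 hM
      · apply mul_left_cancel₀ hb2
        simp only
        linear_combination h1
    rw [this]; exact hbR
  have key : ∀ u ∈ insert ((s1, s) : Pt) B, ∀ v ∈ insert ((s1, s) : Pt) B, Col u v z →
      (∀ w ∈ R2, ¬ Col u v w) → v.2 = u.2 := by
    intro u hu v hv hc hred
    by_contra hne
    refine c1 u hu v hv hne ?_ z.2 (b2 * z.1 - b1 * z.2) hz' (colX hc)
    intro h
    apply hred _ hbR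
    unfold Col
    simp only
    apply mul_left_cancel₀ hb2
    linear_combination h
  rcases hit3 hit with h | h | h | h | h | h | h
  · obtain ⟨u, hu, v, hv, huv, hc, hred⟩ := h
    have h1 := key u (Finset.mem_insert_of_mem hu) v (Finset.mem_insert_of_mem hv) hc hred
    exfalso
    have h2 : z.2 = u.2 := by
      unfold Col at hc
      rw [h1] at hc
      have h3 : (v.1 - u.1) * (z.2 - u.2) = 0 := by linear_combination hc
      rcases mul_eq_zero.mp h3 with h4 | h4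
      · exact absurd (Prod.ext (by linarith) h1.symm) huv
      · linarith
    refine hMd u hu (by rw [← h2]; exact hzb) ⟨b2 * z.1 - b1 * z.2, ?_⟩
    rw [← h2]
    linear_combination -hz'
  · obtain ⟨β, hβ, hc, hred⟩ := h
    refine (c2 β hβ z.2 (b2 * z.1 - b1 * z.2) hz' ?_).elim
    have := colX (b1 := b1) (b2 := b2) hc
    simp only at this
    linear_combination this + (z.2 - β.2) * hτ
  · obtain ⟨β, hβ, hc, hred⟩ := h
    have h1 := key (s1, s) (Finset.mem_insert_self _ _) β (Finset.mem_insert_of_mem hβ) hc hred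
    exact absurd h1 (hys β hβ)
  · left
    refine ⟨h, ?_⟩
    obtain ⟨hc, hred⟩ := h
    have := colX (b1 := b1) (b2 := b2) hc.swap12
    simp only at this
    apply mul_left_cancel₀ hε
    linear_combination (-((1 - κ) * G - 1)) * (this + (z.2 - s) * hτ - z.2 * hs) - s * hz'
  · obtain ⟨β, hβ, hc, hred⟩ := h
    refine (c4 β hβ k z.2 (b2 * z.1 - b1 * z.2) hkκ hzb hz' ?_).elim
    have := colX (b1 := b1) (b2 := b2) hc.swap12
    rw [Pk_X, Pk_2] at this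
    exact this
  · right; left
    refine ⟨h, ?_⟩
    obtain ⟨hc, hred⟩ := h
    have h3 := colX (b1 := b1) (b2 := b2) hc.swap12
    rw [Pk_X, Pk_2] at h3
    simp only at h3
    apply mul_left_cancel₀ hε
    linear_combination ((1 - κ) * G - 1) * (h3 + (z.2 - (1 - k) * G * b2) * hτ) +
      ((1 - k) * G * b2) * hz'
  · right; right
    refine ⟨h, ?_⟩
    obtain ⟨hc, hred⟩ := h
    have h3 := colX (b1 := b1) (b2 := b2) hc.swap12
    rw [Pk_X, Pk_2] at h3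
    simp only at h3
    apply mul_left_cancel₀ hε
    linear_combination ((1 - κ) * G - 1) * (h3 + (z.2 - (1 - k) * G * b2) * hs) +
      ((1 - k) * G * b2 - s) * hz'

/-- the arm `P b` is alive -/
theorem kp_aliveb {R B : Finset Pt} {α b1 b2 : ℤ} (K : K3C R B α b1 b2) {G κ y0 : ℤ}
    (hG1 : G ≠ 1) (hκ0 : κ ≠ 0) (hM : (1 - κ) * G - 1 ≠ 0)
    (hq : ((1 - κ) * G - 1) * y0 + κ * b2 ≠ 0) :
    ∀ᶠ ε : ℤ in cofinite, ∀ k τ s1 s R2 B2,
      KPos R B α b1 b2 G κ k ε τ s1 s y0 R2 B2 →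
      ALine R2 B2 (Pk G b1 b2 ε κ) (b1, b2) := by
  have hb2 := K.hb2
  have C1 : ∀ᶠ ε : ℤ in cofinite, ∀ β ∈ B,
      ((β.2 - b2) * κ) * ε + (-(((1 - κ) * G - 1) * (b2 * β.1 - b1 * β.2))) ≠ 0 := by
    refine ev_fin B ?_
    intro β hβ
    exact ev_linne _ _ _ (Or.inr (neg_ne_zero.mpr (mul_ne_zero hM (K.hD β hβ))))
  filter_upwards [C1, ev_abs 0] with ε c1 c2
  intro k τ s1 s R2 B2 Q
  have hε : ε ≠ 0 := by rintro rfl; simp at c2
  refine ⟨Q.hP, Q.hb, ?_, Q.forall_B2 ?_ ?_ ?_ ?_⟩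
  · intro h
    have h1 := congrArg Prod.snd h
    rw [Pk_2] at h1
    apply hM
    apply mul_left_cancel₀ hb2
    linear_combination h1
  · intro hc
    have h := armb_eq hb2 hc
    rw [Pk_X, Pk_2] at h
    have : b2 * ε * ((k - κ) * (G - 1)) = 0 := by linear_combination h
    rcases mul_eq_zero.mp this with h | h
    · exact mul_ne_zero hb2 hε h
    · rcases mul_eq_zero.mp h with h | h
      · exact Q.kκ (by linarith)
      · exact hG1 (by linarith)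
  · intro hc
    have h := armb_eq hb2 hc
    simp only at h
    have hs := Q.hs
    have : (s - b2) * (κ * ε) = 0 := by
      linear_combination -h + ((1 - κ) * G - 1) * hs
    rcases mul_eq_zero.mp this with h | h
    · exact Q.sb (by linarith)
    · exact mul_ne_zero hκ0 hε h
  · intro hc
    have h := armb_eq hb2 hc
    simp only at h
    have hτ := Q.hτ
    apply hq
    apply mul_left_cancel₀ hε
    linear_combination h - ((1 - κ) * G - 1) * hτ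
  · intro β hβ hc
    have h := armb_eq hb2 hc
    exact c1 β hβ (by linear_combination -h)

/-- F2: the fork with the arms `P b`, `P c` and the red stone `g'` -/
theorem KPos.fork2 {R B R2 B2 : Finset Pt} {α b1 b2 G κ k ε τ s1 s y0 : ℤ}
    (Q : KPos R B α b1 b2 G κ k ε τ s1 s y0 R2 B2) (hG0 : G ≠ 0) (hG1 : G ≠ 1) (hκ0 : κ ≠ 0)
    (hε0 : ε ≠ 0)
    (hAb : ALine R2 B2 (Pk G b1 b2 ε κ) (b1, b2)) (hAc : ALine R2 B2 (Pk G b1 b2 ε κ) (0, 0))
    {n : ℕ} (hF : ForkSols 1 G n) (hn : B2.card < n)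
    (hU : Uncov R2 B2 (Pk G b1 b2 ε κ) (b1, b2) ∨ Uncov R2 B2 (Pk G b1 b2 ε κ) (0, 0)) :
    Win R2 B2 := by
  have hb2 := Q.K.hb2
  obtain ⟨F, hFc, hFl⟩ := hF
  refine fork_list (P := Pk G b1 b2 ε κ) (v := (0, 0)) (v' := (b1, b2)) (w := (G * b1, G * b2))
    (s := G) (t0 := 1) Q.hN Q.hB hAc hAb hU.symm ?_ Q.hg ?_ ?_ one_ne_zero hG0 hG1 F
    (by rw [hFc]; exact hn) hFl
  · intro h
    unfold Col Pk at h
    simp only at h
    have : b2 * (κ * ε) = 0 := by linear_combination -h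
    rcases mul_eq_zero.mp this with h | h
    · exact hb2 h
    · exact mul_ne_zero hκ0 hε0 h
  · simp only; ring
  · simp only; ring

end Pool.Agent.K4L
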