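import Pool.Agent.K4L.K3UKF

/-!
# K3U, kills: `t2 t3` parallel to `c a` (`s = (1 - k) G b2`)
-/

namespace Pool.Agent.K4L

open Filter

/-- divisibility of the points of `P b` -/
theorem armb_dvd {M κ α ρ w' Z : ℤ} (hco : IsCoprime M ρ) (h : M * Z = w' * (κ * (α * ρ))) :
    ∃ j, w' * (κ * α) = M * j := by
  have h1 : M ∣ (w' * (κ * α)) * ρ := ⟨Z, by linear_combination -h⟩
  exact hco.dvd_of_dvd_mul_right h1

/-- horizontal near pairs do not hit `P b` -/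
theorem armb_h {M κ α ρ y b2 : ℤ} (hco : IsCoprime M ρ) (hκ0 : κ ≠ 0) (hα : α ≠ 0)
    (hy : y ≠ b2) (hs : |κ * α * (y - b2)| < |M|) : ¬ M ∣ (y - b2) * (κ * (α * ρ)) := by
  intro h
  have h1 : M ∣ (κ * α * (y - b2)) * ρ := by
    have e : (κ * α * (y - b2)) * ρ = (y - b2) * (κ * (α * ρ)) := by ring
    rw [e]; exact h
  have h2 := hco.dvd_of_dvd_mul_right h1
  have h3 := Int.le_of_dvd (abs_pos.mpr (mul_ne_zero (mul_ne_zero hκ0 hα)
    (sub_ne_zero.mpr hy))) ((abs_dvd_abs _ _).mpr h2)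
  linarith

/-- `t2 t3` does not hit `P b` -/
theorem h_S {G κ k α b2 w' j : ℤ} (hM : (1 - κ) * G - 1 ≠ 0) (hk0 : k ≠ 0) (hb2 : b2 ≠ 0)
    (hκ0 : κ ≠ 0) (hα : α ≠ 0) (hkκ : k ≠ κ)
    (hbig : |b2 * κ * α * (κ - k)| < |(1 - κ) * G - 1|)
    (hj : w' * (κ * α) = ((1 - κ) * G - 1) * j)
    (h : w' * (b2 * (k * (G - 1) - κ * G) + κ * ((1 - k) * G * b2)) =
      ((1 - κ) * G - 1) * b2 * k * ((1 - k) * G * b2 - b2)) : False := by
  have h1 : w' = b2 * ((1 - k) * G - 1) := by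
    apply mul_left_cancel₀ (mul_ne_zero (mul_ne_zero hM hb2) hk0)
    linear_combination h
  have h2 : ((1 - κ) * G - 1) ∣ b2 * κ * α * (κ - k) := by
    refine ⟨(1 - κ) * j - (1 - k) * (b2 * κ * α), ?_⟩
    rw [h1] at hj
    linear_combination (1 - κ) * hj
  have h3 : b2 * κ * α * (κ - k) ≠ 0 :=
    mul_ne_zero (mul_ne_zero (mul_ne_zero hb2 hκ0) hα) (sub_ne_zero.mpr (Ne.symm hkκ))
  have := Int.le_of_dvd (abs_pos.mpr h3) ((dvd_abs _ _).mpr h2)
  have h4 : |(1 - κ) * G - 1| ≤ |b2 * κ * α * (κ - k)| :=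
    Int.le_of_dvd (abs_pos.mpr h3) ((abs_dvd_abs _ _).mpr h2)
  linarith

/-- the event for `t t3` -/
theorem ev_T {κ k α b2 y0 : ℤ} (hκ0 : κ ≠ 0) (hα : α ≠ 0) (hb2 : b2 ≠ 0) (hkκ : k ≠ κ)
    (hy0b : y0 ≠ b2) (h1 : b2 * k ≠ κ * b2 + (1 - κ) * y0) (h2 : b2 * k ≠ y0) :
    ∀ᶠ G : ℤ in cofinite, ∀ w' j : ℤ, (1 - κ) * G - 1 ≠ 0 →
      w' * (κ * α) = ((1 - κ) * G - 1) * j →
      w' * (b2 * (k * (G - 1) - κ * G) - ((1 - κ) * G - 1) * y0) =
        -(((1 - κ) * G - 1) * b2 * (b2 * k + y0 * ((1 - k) * G - 1))) → False := by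
  filter_upwards [lf (b2 * k - (κ * b2 + (1 - κ) * y0)) (-(b2 * k - y0))
    (-(κ * α * b2 * y0 * (1 - k))) (-(κ * α * b2 * (b2 * k - y0))) (sub_ne_zero.mpr h1)]
    with G hG
  intro w' j hM hj h
  obtain ⟨e1, e2⟩ := hG j (by
    apply mul_left_cancel₀ hM
    linear_combination (κ * α) * h - (b2 * (k * (G - 1) - κ * G) - ((1 - κ) * G - 1) * y0) * hj)
  have e3 : j = κ * α * b2 := by
    apply mul_right_cancel₀ (sub_ne_zero.mpr h2)
    linear_combination -e2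
  rw [e3] at e1
  have e4 : κ * α * b2 * ((k - κ) * (b2 - y0)) = 0 := by linear_combination e1
  rcases mul_eq_zero.mp e4 with h | h
  · exact mul_ne_zero (mul_ne_zero hκ0 hα) hb2 h
  · rcases mul_eq_zero.mp h with h | h
    · exact hkκ (by linarith)
    · exact hy0b (by linarith)

/-- the case `μ = 2`, `κ = 4`, `σ = 3`, `k = -2` -/
theorem k2_win {R B : Finset Pt} {α b1 b2 : ℤ} (K : K3C R B α b1 b2) {G : ℤ}
    (hGp : Prime G) (hG3 : ¬ G ∣ 3) (hG4 : ¬ G ∣ 4) (hyG : ∀ β ∈ B, ¬ G ∣ β.2)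
    (hGy : ∀ β ∈ B, β.2 ≠ b2 → ¬ (G - 1) ∣ 4 * (b2 - β.2))
    (hp : ∀ β ∈ B, ((1 - 4) * G - 1) * (2 * b2) + 4 * β.2 ≠ 0)
    (hbig : |b2 * 4 * α * (4 - -2)| < |(1 - 4) * G - 1|)
    (hMs : ∀ β ∈ B, |4 * α * (β.2 - b2)| < |(1 - 4) * G - 1|)
    (hF : ForkSols 1 G (B.card + 4)) (s1 : ℤ) (hs : s1 * b2 = (3 * G * b2) * b1) :
    ∀ᶠ ε : ℤ in cofinite, ∀ ρ, ε = α * ρ → IsCoprime ((1 - 4) * G - 1) ρ →
      ∀ τ R2 B2, KPos R B α b1 b2 G 4 (-2) ε τ s1 (3 * G * b2) (2 * b2) R2 B2 → Win R2 B2 := by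
  have hb2 := K.hb2
  have hα := K.hα
  have hG0 : G ≠ 0 := hGp.ne_zero
  have hG1 : G ≠ 1 := by rintro rfl; exact hGp.not_unit isUnit_one
  have hM : ((1 : ℤ) - 4) * G - 1 ≠ 0 := by
    intro h
    have : G * (-3) = 1 := by linarith
    exact hGp.not_unit (IsUnit.of_mul_eq_one _ this)
  have hφ0 : 3 * G - 2 ≠ 0 := by
    intro h
    apply hG4
    exact ⟨6, by linarith⟩
  have hys : ∀ β ∈ B, β.2 ≠ 3 * G * b2 := fun β hβ h => hyG β hβ ⟨3 * b2, by rw [h]; ring⟩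
  have hs0 : (3 * G * b2 : ℤ) ≠ 0 := mul_ne_zero (mul_ne_zero (by norm_num) hG0) hb2
  have C1 : ∀ᶠ ε : ℤ in cofinite, ∀ β ∈ B,
      (4 * (3 * G - 2) * (β.2 - G * b2)) * ε +
        ((b2 * β.1 - b1 * β.2) * G * (3 * (3 * G - 2) + 1)) ≠ 0 := by
    refine ev_fin B ?_
    intro β hβ
    refine ev_linne _ _ _ (Or.inl (mul_ne_zero (mul_ne_zero (by norm_num) hφ0) ?_))
    intro h
    exact hyG β hβ ⟨b2, by linarith⟩
  filter_upwards [C1, ev_abs 0,
    kp_b K (κ := 4) (y0 := 2 * b2) (s := 3 * G * b2) hG1 (by norm_num) hM hyG hys hGy hp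
      (by
        intro h
        have : b2 * (G * 6 - 2) = 0 := by linear_combination -h
        rcases mul_eq_zero.mp this with h | h
        · exact hb2 h
        · apply hG3
          have : 3 * G = 1 := by linarith
          exact ⟨9, by linarith⟩) s1 hs,
    kp_aliveb K (G := G) (κ := 4) (y0 := 2 * b2) hG1 (by norm_num) hM
      (by
        intro h
        have : b2 * (G * 6 - 2) = 0 := by linear_combination -h
        rcases mul_eq_zero.mp this with h | h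
        · exact hb2 h
        · apply hG3
          have : 3 * G = 1 := by linarith
          exact ⟨9, by linarith⟩),
    kp_alive K (G := G) (κ := 4) (s := 3 * G * b2) hG0 (by norm_num) (by norm_num) hs0 0]
    with ε c1 c2 c3 c4 c5
  intro ρ hρ hco τ R2 B2 Q
  have hε : ε ≠ 0 := by rintro rfl; simp at c2
  have hAb := c4 (-2) τ s1 _ R2 B2 Q
  have hAc := c5 (Ne.symm hε) (-2) τ s1 _ R2 B2 Q Q.hc
  have key : ∀ R' : Finset Pt, R2 ⊆ R' → ∀ z', Col (Pk G b1 b2 ε 4) (b1, b2) z' → z' ∉ R' →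
      Hit R' B2 z' → 2 * (z'.2 - b2) = (3 * G + 1) * (3 * G - 2) * b2 := by
    intro R' hR' z' hz' hz'R hh
    rw [Q.hB2] at hh
    rcases c3 (fun β hβ hne => by
      rw [hρ]; exact armb_h hco (by norm_num) hα hne (hMs β hβ))
      τ Q.hτ R' (hR' Q.hb) (-2) Q.kκ z' hz' hz'R hh with ⟨h1, _⟩ | ⟨_, h2⟩ | ⟨_, h2⟩
    · exfalso
      apply h1.2 _ (hR' Q.hP)
      unfold Col Pk
      simp only
      apply mul_left_cancel₀ hb2
      have hτ := Q.hτ
      linear_combination ((1 - 4) * G * b2 - (3 * G * b2)) * hτ - (1 - 4) * G * b2 * hs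
    · have : (2 * b2) * (2 * (z'.2 - b2)) = (2 * b2) * ((3 * G + 1) * (3 * G - 2) * b2) := by
        linear_combination h2
      exact mul_left_cancel₀ (mul_ne_zero two_ne_zero hb2) this
    · exfalso
      have hl := armb_eq hb2 hz'
      rw [hρ] at hl
      obtain ⟨j, hj⟩ := armb_dvd (α := α) hco hl
      exact h_S (k := -2) hM (by norm_num) hb2 (by norm_num) hα (by norm_num) hbig hj
        (by linear_combination h2)
  by_cases hU : Uncov R2 B2 (Pk G b1 b2 ε 4) (b1, b2)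
  · exact Q.fork2 hG0 hG1 (by norm_num) hε hAb hAc hF Q.card (Or.inl hU)
  obtain ⟨z, hz, hzR, hzB, hhit⟩ := hit_of_not_uncov hU
  have hw := key R2 (Finset.Subset.refl _) z hz hzR hhit
  have hzl := armb_eq hb2 hz
  have hU' : Uncov (insert z R2) B2 (Pk G b1 b2 ε 4) (b1, b2) := by
    apply uncov_of_hit
    intro z' hz' hz'R _ hh
    apply hz'R
    have h1 := key _ (Finset.subset_insert _ _) z' hz' hz'R hh
    have h2 : z'.2 = z.2 := by linarith
    have h3 := armb_eq hb2 hz'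
    have : z' = z := by
      refine Prod.ext ?_ h2
      rw [h2] at h3
      have h4 : ((1 - 4) * G - 1) * b2 * (z'.1 - z.1) = 0 := by linear_combination h3 - hzl
      rcases mul_eq_zero.mp h4 with h5 | h5
      · exact absurd h5 (mul_ne_zero hM hb2)
      · linarith
    rw [this]; exact Finset.mem_insert_self _ _
  obtain ⟨P, hPdef⟩ : ∃ P, P = Pk G b1 b2 ε 4 := ⟨_, rfl⟩
  have hPX := Pk_X G b1 b2 ε 4
  have hP2 := Pk_2 G b1 b2 ε 4
  rw [← hPdef] at hPX hP2 hz hU' hAb hAc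
  obtain ⟨f, hf⟩ : ∃ f : Pt, f = ((3 * G - 2) * P.1, (3 * G - 2) * P.2) := ⟨_, rfl⟩
  have hf1 : f.1 = (3 * G - 2) * P.1 := by rw [hf]
  have hf2 : f.2 = (3 * G - 2) * P.2 := by rw [hf]
  have hP20 : P.2 ≠ 0 := by
    rw [hP2]
    exact mul_ne_zero (mul_ne_zero (by norm_num) hG0) hb2
  have hzg : z ≠ (G * b1, G * b2) := by
    rintro rfl; exact hzR Q.hg
  have hfg : f ≠ (G * b1, G * b2) := by
    intro h
    have h1 := congrArg Prod.snd h
    simp only at h1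
    rw [hf2, hP2] at h1
    have : G * b2 * (5 - 9 * G) = 0 := by linear_combination h1
    rcases mul_eq_zero.mp this with h | h
    · exact mul_ne_zero hG0 hb2 h
    · omega
  have hcol : Col (G * b1, G * b2) z f := by
    unfold Col
    simp only
    rw [hf1, hf2]
    apply mul_left_cancel₀ (mul_ne_zero (mul_ne_zero two_ne_zero hb2) hM)
    linear_combination (-(2 * ((1 - 4) * G - 1) * (z.2 - G * b2) * (3 * G - 2))) * hPX +
      (2 * ((3 * G - 2) * P.2 - G * b2)) * hzl +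
      (8 * ε * (z.2 - b2) * (3 * G - 2)) * hP2 + (8 * ε * b2 * (G - 1)) * hw
  have hline : ∀ x, Col (G * b1, G * b2) z x → Col (G * b1, G * b2) f x := fun x hx =>
    (Col.line_iff hzg.symm hfg.symm (Col.refl_left _ _) hcol).mp hx
  have hgf : ∀ x, Col (G * b1, G * b2) f x →
      -((b2 * x.1 - b1 * x.2) * G * (3 * (3 * G - 2) + 1)) =
        4 * (3 * G - 2) * ε * (x.2 - G * b2) := by
    intro x hx
    have h := colX (b1 := b1) (b2 := b2) hx
    simp only at h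
    rw [hf1, hf2, hP2] at h
    apply mul_left_cancel₀ hb2
    linear_combination -h + (3 * G - 2) * (x.2 - G * b2) * hPX +
      (3 * G - 2) * (x.2 - G * b2) * b1 * hP2
  refine fin_win' (c := P) (v := (b1, b2)) (v' := (0, 0)) (e := (G * b1, G * b2)) (g := z)
    (f := f) Q.hN hAb hAc hU' ?_ Q.hg ?_ hz ?_ ?_ ?_ ?_ ?_ hcol ?_
  · intro h
    unfold Col at h
    simp only at h
    have : b2 * ε * 4 * b2 = 0 := by
      linear_combination b2 * h - b2 * hPX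
    rcases mul_eq_zero.mp this with h | h
    · rcases mul_eq_zero.mp h with h | h
      · exact mul_ne_zero hb2 hε h
      · norm_num at h
    · exact hb2 h
  · intro h
    unfold Col at h
    simp only at h
    have : b2 * ε * 4 * b2 * (G - 1) = 0 := by
      linear_combination (-b2) * h - b2 * (G - 1) * hPX
    rcases mul_eq_zero.mp this with h | h
    · rcases mul_eq_zero.mp h with h | h
      · rcases mul_eq_zero.mp h with h | h
        · exact mul_ne_zero hb2 hε h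
        · norm_num at h
      · exact hb2 h
    · exact hG1 (by linarith)
  · rintro rfl
    apply hzR
    rw [hPdef]; exact Q.hP
  · rintro rfl
    exact hzR Q.hb
  · unfold Col
    rw [hf1, hf2]
    simp only
    ring
  · intro h
    have h1 := congrArg Prod.snd h
    rw [hf2] at h1
    have : (3 * G - 3) * P.2 = 0 := by linear_combination h1
    rcases mul_eq_zero.mp this with h | h
    · exact hG1 (by linarith)
    · exact hP20 h
  · intro h
    have h1 := congrArg Prod.snd h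
    rw [hf2] at h1
    exact mul_ne_zero hφ0 hP20 h1
  · refine Q.forall_B2 ?_ ?_ ?_ ?_
    · intro hx
      have h := hgf _ (hline _ hx)
      rw [Pk_X, Pk_2] at h
      have : 6 * (b2 * ε * (G * (G - 1))) = 0 := by linear_combination -h
      rcases mul_eq_zero.mp this with h | h
      · norm_num at h
      · rcases mul_eq_zero.mp h with h | h
        · exact mul_ne_zero hb2 hε h
        · rcases mul_eq_zero.mp h with h | h
          · exact hG0 h
          · exact hG1 (by linarith)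
    · intro hx
      have h := hgf _ (hline _ hx)
      simp only at h
      have : 8 * ((3 * G - 2) * ε * (G * b2)) = 0 := by
        linear_combination -h - G * (3 * (3 * G - 2) + 1) * hs
      rcases mul_eq_zero.mp this with h | h
      · norm_num at h
      · exact mul_ne_zero (mul_ne_zero hφ0 hε) (mul_ne_zero hG0 hb2) h
    · intro hx
      have h := hgf _ (hline _ hx)
      simp only at h
      have hτ := Q.hτ
      have : 2 * (b2 * ε * G * (3 * G - 1)) = 0 := by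
        linear_combination -h - G * (3 * (3 * G - 2) + 1) * hτ
      rcases mul_eq_zero.mp this with h | h
      · norm_num at h
      · rcases mul_eq_zero.mp h with h | h
        · exact mul_ne_zero (mul_ne_zero hb2 hε) hG0 h
        · omega
    · intro β hβ hx
      have h := hgf _ (hline _ hx)
      apply c1 β hβ
      linear_combination -h

/-- `t2 t3` parallel to `c a`: `P b` is uncovered -/
theorem kp_H {R B : Finset Pt} {α b1 b2 : ℤ} (K : K3C R B α b1 b2) {G κ k y0 : ℤ}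
    (hGp : Prime G) (hκ0 : κ ≠ 0) (hκ1 : κ ≠ 1) (hk0 : k ≠ 0) (hk1 : k ≠ 1) (hkκ : k ≠ κ)
    (hyG : ∀ β ∈ B, ¬ G ∣ β.2) (hM : (1 - κ) * G - 1 ≠ 0)
    (hGy : ∀ β ∈ B, β.2 ≠ b2 → ¬ (G - 1) ∣ κ * (b2 - β.2))
    (hp : ∀ β ∈ B, ((1 - κ) * G - 1) * y0 + κ * β.2 ≠ 0)
    (hq : ((1 - κ) * G - 1) * y0 + κ * b2 ≠ 0)
    (hbig : |b2 * κ * α * (κ - k)| < |(1 - κ) * G - 1|)
    (hMs : ∀ β ∈ B, |κ * α * (β.2 - b2)| < |(1 - κ) * G - 1|)
    (hT : ∀ w' j : ℤ, (1 - κ) * G - 1 ≠ 0 →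
      w' * (κ * α) = ((1 - κ) * G - 1) * j →
      w' * (b2 * (k * (G - 1) - κ * G) - ((1 - κ) * G - 1) * y0) =
        -(((1 - κ) * G - 1) * b2 * (b2 * k + y0 * ((1 - k) * G - 1))) → False)
    (htt : b2 * ((1 - κ) * G * y0 + κ * ((1 - k) * G * b2)) = y0 * ((1 - k) * G * b2) ∨
      ∀ w' j : ℤ, w' * (κ * α) = ((1 - κ) * G - 1) * j →
        w' * (((1 - κ) * G - 1) * y0 + κ * ((1 - k) * G * b2)) =
          ((1 - κ) * G - 1) * y0 * ((1 - k) * G * b2 - b2) → False)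
    (hF : ForkSols 1 G (B.card + 4)) (s1 : ℤ) (hs : s1 * b2 = ((1 - k) * G * b2) * b1) :
    ∀ᶠ ρ : ℤ in cofinite, IsCoprime ((1 - κ) * G - 1) ρ →
      ∀ τ R2 B2, KPos R B α b1 b2 G κ k (α * ρ) τ s1 ((1 - k) * G * b2) y0 R2 B2 →
        Win R2 B2 := by
  have hb2 := K.hb2
  have hα := K.hα
  have hG0 : G ≠ 0 := hGp.ne_zero
  have hG1 : G ≠ 1 := by rintro rfl; exact hGp.not_unit isUnit_one
  have hys : ∀ β ∈ B, β.2 ≠ (1 - k) * G * b2 :=
    fun β hβ h => hyG β hβ ⟨(1 - k) * b2, by rw [h]; ring⟩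
  have hs0 : ((1 - k) * G * b2 : ℤ) ≠ 0 :=
    mul_ne_zero (mul_ne_zero (fun h => hk1 (by linarith)) hG0) hb2
  filter_upwards [ev_mul hα (kp_b K (s := (1 - k) * G * b2) hG1 hκ0 hM hyG hys hGy hp hq s1 hs),
    ev_mul hα (kp_aliveb K (y0 := y0) hG1 hκ0 hM hq),
    ev_mul hα (kp_alive K (s := (1 - k) * G * b2) hG0 hκ0 hκ1 hs0 0), ev_abs 0]
    with ρ c1 c2 c3 c4
  intro hco τ R2 B2 Q
  have hρ0 : ρ ≠ 0 := by rintro rfl; simp at c4
  have hε0 : α * ρ ≠ 0 := mul_ne_zero hα hρ0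
  have hAb := c2 k τ s1 _ R2 B2 Q
  have hAc := c3 (Ne.symm hε0) k τ s1 _ R2 B2 Q Q.hc
  refine Q.fork2 hG0 hG1 hκ0 hε0 hAb hAc hF Q.card (Or.inl ?_)
  apply uncov_of_hit
  intro z hz hzR _ hh
  rw [Q.hB2] at hh
  have hl := armb_eq hb2 hz
  obtain ⟨j, hj⟩ := armb_dvd (α := α) hco hl
  rcases c1 (fun β hβ hne => armb_h hco hκ0 hα hne (hMs β hβ))
    τ Q.hτ R2 Q.hb k hkκ z hz hzR hh with ⟨h1, h2⟩ | ⟨_, h2⟩ | ⟨_, h2⟩
  · rcases htt with h3 | h3
    · apply h1.2 _ Q.hP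
      unfold Col Pk
      simp only
      apply mul_left_cancel₀ hb2
      have hτ := Q.hτ
      linear_combination ((1 - κ) * G * b2 - ((1 - k) * G * b2)) * hτ - (1 - κ) * G * b2 * hs +
        (α * ρ) * h3
    · exact h3 _ j hj h2
  · exact hT _ j hM hj h2
  · exact h_S hM hk0 hb2 hκ0 hα hkκ hbig hj h2

/-- the bound of `k` when `P b` is hit by `t3 t` or `t3 t2` -/
def kBb (G κ b2 y0 s : ℤ) : ℤ :=
  (|((1 - κ) * G - 1) * b2 * G * (b2 - y0) * (((1 - κ) * G - 1) * y0 + κ * b2)| +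
    |b2 * κ * G + ((1 - κ) * G - 1) * y0|) +
  (|((1 - κ) * G - 1) * b2 * (s - b2) * (κ * (G * b2 - s))| + |κ * (G * b2 - s)|)

theorem armb_T_bound {G κ k b2 y0 s w' : ℤ} (hG0 : G ≠ 0) (hG1 : G ≠ 1) (hb2 : b2 ≠ 0)
    (hy0b : y0 ≠ b2) (hM : (1 - κ) * G - 1 ≠ 0) (hq : ((1 - κ) * G - 1) * y0 + κ * b2 ≠ 0)
    (h : w' * (b2 * (k * (G - 1) - κ * G) - ((1 - κ) * G - 1) * y0) =
        -(((1 - κ) * G - 1) * b2 * (b2 * k + y0 * ((1 - k) * G - 1)))) :
    |k| ≤ kBb G κ b2 y0 s := by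
  have h1 := bil_bound
    (a := -(((1 - κ) * G - 1) * b2 * G * (b2 - y0) * (((1 - κ) * G - 1) * y0 + κ * b2)))
    (b := b2 * (G - 1)) (c := -(b2 * κ * G + ((1 - κ) * G - 1) * y0))
    (u := b2 * (G - 1) * k - (b2 * κ * G + ((1 - κ) * G - 1) * y0))
    (v := b2 * (G - 1) * w' + ((1 - κ) * G - 1) * b2 * (b2 - y0 * G)) (d := k)
    (by linear_combination (b2 * (G - 1)) * h)
    (neg_ne_zero.mpr (mul_ne_zero (mul_ne_zero (mul_ne_zero (mul_ne_zero hM hb2) hG0)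
      (sub_ne_zero.mpr (Ne.symm hy0b))) hq)) (by ring)
    (mul_ne_zero hb2 (sub_ne_zero.mpr hG1)) rfl
  rw [abs_neg, abs_neg] at h1
  have h2 : 0 ≤ |((1 - κ) * G - 1) * b2 * (s - b2) * (κ * (G * b2 - s))| +
    |κ * (G * b2 - s)| := by positivity
  unfold kBb
  linarith

theorem armb_S_bound {G κ k b2 y0 s w' : ℤ} (hG1 : G ≠ 1) (hb2 : b2 ≠ 0) (hκ0 : κ ≠ 0)
    (hM : (1 - κ) * G - 1 ≠ 0) (hsb : s ≠ b2) (hsg : s ≠ G * b2)
    (h : w' * (b2 * (k * (G - 1) - κ * G) + κ * s) =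
        ((1 - κ) * G - 1) * b2 * k * (s - b2)) :
    |k| ≤ kBb G κ b2 y0 s := by
  have h1 := bil_bound
    (a := ((1 - κ) * G - 1) * b2 * (s - b2) * (κ * (G * b2 - s)))
    (b := b2 * (G - 1)) (c := -(κ * (G * b2 - s)))
    (u := b2 * (G - 1) * k - κ * (G * b2 - s))
    (v := b2 * (G - 1) * w' - ((1 - κ) * G - 1) * b2 * (s - b2)) (d := k)
    (by linear_combination (b2 * (G - 1)) * h)
    (mul_ne_zero (mul_ne_zero (mul_ne_zero hM hb2) (sub_ne_zero.mpr hsb))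
      (mul_ne_zero hκ0 (sub_ne_zero.mpr (Ne.symm hsg)))) (by ring)
    (mul_ne_zero hb2 (sub_ne_zero.mpr hG1)) rfl
  rw [abs_neg] at h1
  have h2 : 0 ≤ |((1 - κ) * G - 1) * b2 * G * (b2 - y0) * (((1 - κ) * G - 1) * y0 + κ * b2)| +
    |b2 * κ * G + ((1 - κ) * G - 1) * y0| := by positivity
  unfold kBb
  linarith

end Pool.Agent.K4L
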