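import Pool.Agent.K4L.K3UKG

/-!
# K3U, kills: `t2 t` parallel to `g' e` (`s = G y0`), `κ = 2`
-/

namespace Pool.Agent.K4L

open Filter

/-- the line `t2 t` does not hit `P b` -/
theorem e_tt2 {G α b2 y0 w' j : ℤ} (hα : α ≠ 0) (hy00 : y0 ≠ 0) (hy0b : y0 ≠ b2)
    (hM : (1 - 2) * G - 1 ≠ 0) (hbig : |2 * α * (y0 - b2)| < |G - 1|)
    (hj : w' * (2 * α) = ((1 - 2) * G - 1) * j)
    (h : w' * (((1 - 2) * G - 1) * y0 + 2 * (G * y0)) =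
      ((1 - 2) * G - 1) * y0 * (G * y0 - b2)) : False := by
  have h1 : j * (G - 1) = 2 * α * (G * y0 - b2) := by
    apply mul_left_cancel₀ (mul_ne_zero hM hy00)
    linear_combination (2 * α) * h - (G - 1) * y0 * hj
  have h2 : (G - 1) ∣ 2 * α * (y0 - b2) := by
    refine ⟨j - 2 * α * y0, ?_⟩
    linear_combination -h1
  have h3 : 2 * α * (y0 - b2) ≠ 0 :=
    mul_ne_zero (mul_ne_zero two_ne_zero hα) (sub_ne_zero.mpr hy0b)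
  have h4 : |G - 1| ≤ |2 * α * (y0 - b2)| :=
    Int.le_of_dvd (abs_pos.mpr h3) ((abs_dvd_abs _ _).mpr h2)
  linarith

theorem kp_E {R B : Finset Pt} {α b1 b2 : ℤ} (K : K3C R B α b1 b2) {G y0 : ℤ}
    (hGp : Prime G) (h2G : ¬ G ∣ 2) (hy00 : y0 ≠ 0) (hy0b : y0 ≠ b2) (hyG : ∀ β ∈ B, ¬ G ∣ β.2)
    (hys : ∀ β ∈ B, β.2 ≠ G * y0)
    (hsz : ∀ β ∈ B, |2 * β.2 * β.2| < |(1 - 2) * G * y0 + 2 * β.2|)
    (hga : ∀ β ∈ B, (b2 * β.1 - b1 * β.2) * G ≠ α * (b2 * G - β.2))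
    (hM : (1 - 2) * G - 1 ≠ 0)
    (hGy : ∀ β ∈ B, β.2 ≠ b2 → ¬ (G - 1) ∣ 2 * (b2 - β.2))
    (hp : ∀ β ∈ B, ((1 - 2) * G - 1) * y0 + 2 * β.2 ≠ 0)
    (hq : ((1 - 2) * G - 1) * y0 + 2 * b2 ≠ 0)
    (hbig : ∀ k, (1 - k) * b2 = y0 → |b2 * 2 * α * (2 - k)| < |(1 - 2) * G - 1|)
    (hMs : ∀ β ∈ B, |2 * α * (β.2 - b2)| < |(1 - 2) * G - 1|)
    (hT : ∀ k, k ≠ 2 → (1 - k) * b2 = y0 → ∀ w' j : ℤ, (1 - 2) * G - 1 ≠ 0 →
      w' * (2 * α) = ((1 - 2) * G - 1) * j →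
      w' * (b2 * (k * (G - 1) - 2 * G) - ((1 - 2) * G - 1) * y0) =
        -(((1 - 2) * G - 1) * b2 * (b2 * k + y0 * ((1 - k) * G - 1))) → False)
    (hbig1 : |2 * α * (y0 - b2)| < |G - 1|)
    (hF : ForkSols 1 G (B.card + 4)) (s1 : ℤ) (hs : s1 * b2 = (G * y0) * b1) :
    ∀ᶠ ρ : ℤ in cofinite, ForkSols α (α * ρ) (B.card + 4) → (b2 - y0) ∣ ρ - 1 →
      (∀ k, k ≠ 1 → b2 * (k - 2) + 2 * y0 = 0 → (1 - k) ∣ ρ - 1) →
      IsCoprime ((1 - 2) * G - 1) ρ → ¬ G ∣ 2 * (α * ρ) - α →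
      ∀ k τ R2 B2, KPos R B α b1 b2 G 2 k (α * ρ) τ s1 (G * y0) y0 R2 B2 → Win R2 B2 := by
  have hα := K.hα
  have hb2 := K.hb2
  have hG0 : G ≠ 0 := hGp.ne_zero
  have hG1 : G ≠ 1 := by rintro rfl; exact hGp.not_unit isUnit_one
  have hs0 : G * y0 ≠ 0 := mul_ne_zero hG0 hy00
  have hsg : G * y0 ≠ G * b2 := fun h => hy0b (mul_left_cancel₀ hG0 h)
  have h1G : ¬ G ∣ (2 : ℤ) - 1 := by
    norm_num
    intro h
    exact hGp.not_unit (isUnit_of_dvd_one h)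
  have hp2 : (1 - 2) * G * y0 + 2 * (G * y0) ≠ 0 := by
    intro h
    apply hs0
    linear_combination h
  obtain ⟨KK, hKK⟩ : ∃ KK, KK = kBb G 2 b2 y0 (G * y0) := ⟨_, rfl⟩
  have C1 : ∀ᶠ ρ : ℤ in cofinite, ∀ k ∈ Finset.Icc (-KK) KK,
      ForkSols α (α * ρ) (B.card + 4) →
      ¬ G ∣ 2 * (α * ρ) - α →
      (b2 * k = 2 * b2 + (1 - 2) * y0 → (b2 - y0) ∣ ρ - 1) →
      (k ≠ 1 → b2 * G * (k - 2) + 2 * (G * y0) = 0 → (1 - k) ∣ ρ - 1) →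
      G * y0 ≠ (1 - k) * G * b2 →
      ∀ τ R2 B2, KPos R B α b1 b2 G 2 k (α * ρ) τ s1 (G * y0) y0 R2 B2 → Win R2 B2 :=
    ev_fin _ (fun k _ => kp_win' K k hGp h2G h1G hs0 hsg hy00 hy0b hyG hsz hga hp2 s1 hs)
  have C2 : ∀ᶠ ρ : ℤ in cofinite, ∀ k ∈ Finset.Icc (-KK) KK, k ≠ 0 → k ≠ 1 → k ≠ 2 →
      (1 - k) * b2 = y0 → IsCoprime ((1 - 2) * G - 1) ρ →
      ∀ τ R2 B2, KPos R B α b1 b2 G 2 k (α * ρ) τ s1 (G * y0) y0 R2 B2 → Win R2 B2 := by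
    refine ev_fin _ ?_
    intro k _
    by_cases hk0 : k = 0
    · exact Filter.Eventually.of_forall (fun ρ h => absurd hk0 h)
    by_cases hk1 : k = 1
    · exact Filter.Eventually.of_forall (fun ρ _ h => absurd hk1 h)
    by_cases hk2 : k = 2
    · exact Filter.Eventually.of_forall (fun ρ _ _ h => absurd hk2 h)
    by_cases hkH : (1 - k) * b2 = y0
    · have e1 : G * y0 = (1 - k) * G * b2 := by rw [← hkH]; ring
      have htt : ∀ w' j : ℤ, w' * (2 * α) = ((1 - 2) * G - 1) * j →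
          w' * (((1 - 2) * G - 1) * y0 + 2 * ((1 - k) * G * b2)) =
            ((1 - 2) * G - 1) * y0 * ((1 - k) * G * b2 - b2) → False := by
        intro w' j hj h
        rw [← e1] at h
        exact e_tt2 hα hy00 hy0b hM hbig1 hj h
      have := kp_H K (κ := 2) (k := k) (y0 := y0) hGp two_ne_zero (by norm_num) hk0 hk1 hk2 hyG hM
        hGy hp hq (hbig k hkH) hMs (hT k hk2 hkH) (Or.inr htt) hF s1 (by rw [← e1]; exact hs)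
      filter_upwards [this] with ρ h
      intro _ _ _ _ hco τ R2 B2 Q
      rw [e1] at Q
      exact h hco τ R2 B2 Q
    · exact Filter.Eventually.of_forall (fun ρ _ _ _ h => absurd h hkH)
  filter_upwards [C1, C2,
    ev_mul hα (kp_b K (κ := 2) (s := G * y0) hG1 two_ne_zero hM hyG hys hGy hp hq s1 hs),
    ev_mul hα (kp_aliveb K (κ := 2) (y0 := y0) hG1 two_ne_zero hM hq),
    ev_mul hα (kp_alive K (κ := 2) (s := G * y0) hG0 two_ne_zero (by norm_num) hs0 0), ev_abs 0]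
    with ρ c1 c2 c3 c4 c5 c6
  intro hFe hT' hS' hco hG2 k τ R2 B2 Q
  have hρ0 : ρ ≠ 0 := by rintro rfl; simp at c6
  have hε0 : α * ρ ≠ 0 := mul_ne_zero hα hρ0
  by_cases hk : |k| ≤ KK
  · have hkI : k ∈ Finset.Icc (-KK) KK := Finset.mem_Icc.mpr (abs_le.mp hk)
    by_cases hkH : (1 - k) * b2 = y0
    · exact c2 k hkI Q.k0 Q.k1 Q.kκ hkH hco τ R2 B2 Q
    · refine c1 k hkI hFe hG2 (fun _ => hT') ?_ ?_ τ R2 B2 Q
      · intro h1 h2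
        apply hS' k h1
        apply mul_left_cancel₀ hG0
        linear_combination h2
      · intro h
        apply hkH
        apply mul_left_cancel₀ hG0
        linear_combination -h
  have hAb := c4 k τ s1 _ R2 B2 Q
  have hAc := c5 (Ne.symm hε0) k τ s1 _ R2 B2 Q Q.hc
  refine Q.fork2 hG0 hG1 two_ne_zero hε0 hAb hAc hF Q.card (Or.inl ?_)
  apply uncov_of_hit
  intro z hz hzR _ hh
  rw [Q.hB2] at hh
  have hl := armb_eq hb2 hz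
  obtain ⟨j, hj⟩ := armb_dvd (α := α) hco hl
  rcases c3 (fun β hβ hne => armb_h hco two_ne_zero hα hne (hMs β hβ))
    τ Q.hτ R2 Q.hb k Q.kκ z hz hzR hh with ⟨_, h2⟩ | ⟨_, h2⟩ | ⟨_, h2⟩
  · exact e_tt2 hα hy00 hy0b hM hbig1 hj h2
  · apply hk
    rw [hKK]
    exact armb_T_bound hG0 hG1 hb2 hy0b hM hq h2
  · apply hk
    rw [hKK]
    exact armb_S_bound hG1 hb2 two_ne_zero hM Q.sb hsg h2

end Pool.Agent.K4L
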