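import Pool.Agent.K4L.K3UKH
import Pool.Agent.K4L.K3UG2L

/-!
# K3U, case gamma2: the choice of `G`
-/

namespace Pool.Agent.K4L

open Filter

/-- near size -/
def nY (B : Finset Pt) (α b2 : ℤ) : ℤ := ∑ β ∈ B, |β.2| + |b2| + |α| + 2

/-- near bound of all integers occurring in the kills -/
def nW (B : Finset Pt) (α b2 : ℤ) : ℤ := 16 * nY B α b2 ^ 5 + B.card + 5

theorem nY_ge {B : Finset Pt} {α b2 : ℤ} : 2 ≤ nY B α b2 := by
  unfold nY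
  have h1 : 0 ≤ ∑ β ∈ B, |β.2| := Finset.sum_nonneg (fun _ _ => abs_nonneg _)
  have h2 := abs_nonneg b2
  have h3 := abs_nonneg α
  linarith

theorem nY_b2 {B : Finset Pt} {α b2 : ℤ} : |b2| ≤ nY B α b2 := by
  unfold nY
  have h1 : 0 ≤ ∑ β ∈ B, |β.2| := Finset.sum_nonneg (fun _ _ => abs_nonneg _)
  have h3 := abs_nonneg α
  linarith

theorem nY_α {B : Finset Pt} {α b2 : ℤ} : |α| ≤ nY B α b2 := by
  unfold nY
  have h1 : 0 ≤ ∑ β ∈ B, |β.2| := Finset.sum_nonneg (fun _ _ => abs_nonneg _)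
  have h3 := abs_nonneg b2
  linarith

theorem nY_y {B : Finset Pt} {α b2 : ℤ} {β : Pt} (hβ : β ∈ B) : |β.2| ≤ nY B α b2 := by
  unfold nY
  have h1 : |β.2| ≤ ∑ β ∈ B, |β.2| :=
    Finset.single_le_sum (f := fun β : Pt => |β.2|) (fun _ _ => abs_nonneg _) hβ
  have h2 := abs_nonneg b2
  have h3 := abs_nonneg α
  linarith

theorem nW_ge (B : Finset Pt) (α b2 : ℤ) : 16 * nY B α b2 ^ 5 + B.card + 5 ≤ nW B α b2 :=
  le_refl _

theorem pow_le5 {Y : ℤ} (hY : 2 ≤ Y) : Y ≤ Y ^ 5 ∧ Y ^ 2 ≤ Y ^ 5 ∧ Y ^ 3 ≤ Y ^ 5 := by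
  have h0 : (1 : ℤ) ≤ Y := by linarith
  refine ⟨?_, ?_, ?_⟩
  · calc Y = Y ^ 1 := by ring
      _ ≤ Y ^ 5 := pow_le_pow_right₀ h0 (by norm_num)
  · exact pow_le_pow_right₀ h0 (by norm_num)
  · exact pow_le_pow_right₀ h0 (by norm_num)

/-- small integers divide the factorial -/
theorem dvd_fact {m W : ℤ} (hm : m ≠ 0) (h : |m| ≤ W) : m ∣ (W.toNat.factorial : ℤ) := by
  rw [← abs_dvd]
  have h1 : 0 < |m| := abs_pos.mpr hm
  obtain ⟨n, hn⟩ := Int.eq_ofNat_of_zero_le (abs_nonneg m)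
  rw [hn] at h1 h ⊢
  norm_cast
  apply Nat.dvd_factorial
  · exact_mod_cast h1
  · have : (n : ℤ) ≤ W := h
    omega

/-- the conditions on `G` -/
structure GoodG (R B : Finset Pt) (α b1 b2 G : ℤ) : Prop where
  hGp : Prime G
  /-- near integers are not divisible by `G` -/
  ndvd : ∀ m : ℤ, m ≠ 0 → |m| ≤ nW B α b2 → ¬ G ∣ m
  ndvd1 : ∀ m : ℤ, m ≠ 0 → |m| ≤ nW B α b2 * nW B α b2 → ¬ (G - 1) ∣ m
  gR : ((G * b1, G * b2) : Pt) ∉ R
  gB : ((G * b1, G * b2) : Pt) ∉ B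
  ga : ∀ β ∈ B, (b2 * β.1 - b1 * β.2) * G ≠ α * (b2 * G - β.2)
  size : ∀ β ∈ B, 2 * (|β.2| * |β.2| + |β.2|) < |G|
  nears : ∀ s ∈ Finset.Icc (-(∑ β ∈ B, (|β.2| + |β.2 * (b2 - β.2)|)))
    (∑ β ∈ B, (|β.2| + |β.2 * (b2 - β.2)|)), ∀ β ∈ B, 2 * |s * s| + 2 * |s| < |G|
  hp : ∀ κ ∈ Finset.Icc (-(nW B α b2)) (nW B α b2), ∀ β ∈ B, κ ≠ 1 → ∀ β' ∈ B,
    ((1 - κ) * G - 1) * β.2 + κ * β'.2 ≠ 0
  hq : ∀ κ ∈ Finset.Icc (-(nW B α b2)) (nW B α b2), ∀ β ∈ B, κ ≠ 1 →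
    ((1 - κ) * G - 1) * β.2 + κ * b2 ≠ 0
  hbig : ∀ κ ∈ Finset.Icc (-(nW B α b2)) (nW B α b2), κ ≠ 1 →
    ∀ k ∈ Finset.Icc (-(nW B α b2)) (nW B α b2), |b2 * κ * α * (κ - k)| < |(1 - κ) * G - 1|
  hbig1 : ∀ β ∈ B, |2 * α * (β.2 - b2)| < |G - 1|
  hMs : ∀ κ ∈ Finset.Icc (-(nW B α b2)) (nW B α b2), κ ≠ 1 → ∀ β ∈ B,
    |κ * α * (β.2 - b2)| < |(1 - κ) * G - 1|
  hT : ∀ κ ∈ Finset.Icc (-(nW B α b2)) (nW B α b2), κ ≠ 0 →
    ∀ k ∈ Finset.Icc (-(nW B α b2)) (nW B α b2), k ≠ κ → ∀ β ∈ B, β.2 ≠ b2 →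
    b2 * k ≠ κ * b2 + (1 - κ) * β.2 → b2 * k ≠ β.2 →
    ∀ w' j : ℤ, (1 - κ) * G - 1 ≠ 0 → w' * (κ * α) = ((1 - κ) * G - 1) * j →
      w' * (b2 * (k * (G - 1) - κ * G) - ((1 - κ) * G - 1) * β.2) =
        -(((1 - κ) * G - 1) * b2 * (b2 * k + β.2 * ((1 - k) * G - 1))) → False

theorem ev_goodG {R B : Finset Pt} {α b1 b2 : ℤ} (K : K3C R B α b1 b2) :
    ∀ᶠ G : ℤ in cofinite, Prime G → GoodG R B α b1 b2 G := by
  have hα := K.hα
  have hb2 := K.hb2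
  obtain ⟨W, hW⟩ : ∃ W, W = nW B α b2 := ⟨_, rfl⟩
  obtain ⟨S, hS⟩ : ∃ S, S = ∑ β ∈ B, (|β.2| + |β.2 * (b2 - β.2)|) := ⟨_, rfl⟩
  have C2 : ∀ᶠ G : ℤ in cofinite, ∀ β ∈ B, 2 * (|β.2| * |β.2| + |β.2|) < |G| :=
    ev_fin B (fun β _ => ev_abs _)
  have C3 : ∀ᶠ G : ℤ in cofinite, ∀ s ∈ Finset.Icc (-S) S, 2 * |s * s| + 2 * |s| < |G| :=
    ev_fin _ (fun β _ => ev_abs _)
  have C4 : ∀ᶠ G : ℤ in cofinite, ∀ κ ∈ Finset.Icc (-W) W, ∀ β ∈ B, κ ≠ 1 → ∀ β' ∈ B,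
      ((1 - κ) * G - 1) * β.2 + κ * β'.2 ≠ 0 := by
    refine ev_fin _ (fun κ _ => ev_fin _ (fun β hβ => ?_))
    by_cases hκ : κ = 1
    · exact Filter.Eventually.of_forall (fun ρ h => absurd hκ h)
    filter_upwards [ev_fin B (fun β' _ => ev_linne ((1 - κ) * β.2) (-β.2 + κ * β'.2) 0
      (Or.inl (mul_ne_zero (fun h => hκ (by linarith)) (K.hy β hβ))))] with G hG
    intro _ β' hβ' h
    exact hG β' hβ' (by linear_combination h)
  have C5 : ∀ᶠ G : ℤ in cofinite, ∀ κ ∈ Finset.Icc (-W) W, ∀ β ∈ B, κ ≠ 1 →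
      ((1 - κ) * G - 1) * β.2 + κ * b2 ≠ 0 := by
    refine ev_fin _ (fun κ _ => ev_fin _ (fun β hβ => ?_))
    by_cases hκ : κ = 1
    · exact Filter.Eventually.of_forall (fun ρ h => absurd hκ h)
    filter_upwards [ev_linne ((1 - κ) * β.2) (-β.2 + κ * b2) 0
      (Or.inl (mul_ne_zero (fun h => hκ (by linarith)) (K.hy β hβ)))] with G hG
    intro _ h
    exact hG (by linear_combination h)
  have C6 : ∀ᶠ G : ℤ in cofinite, ∀ κ ∈ Finset.Icc (-W) W, κ ≠ 1 →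
      ∀ k ∈ Finset.Icc (-W) W, |b2 * κ * α * (κ - k)| < |(1 - κ) * G - 1| := by
    refine ev_fin _ (fun κ _ => ?_)
    by_cases hκ : κ = 1
    · exact Filter.Eventually.of_forall (fun ρ h => absurd hκ h)
    filter_upwards [ev_fin (Finset.Icc (-W) W) (fun k _ => ev_linC (1 - κ) (-1)
      |b2 * κ * α * (κ - k)| (fun h => hκ (by linarith)))] with G hG
    intro _ k hk
    exact hG k hk
  have C7 : ∀ᶠ G : ℤ in cofinite, ∀ β ∈ B, |2 * α * (β.2 - b2)| < |G - 1| := by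
    refine ev_fin _ (fun β _ => ?_)
    filter_upwards [ev_linC 1 (-1) |2 * α * (β.2 - b2)| one_ne_zero] with G hG
    rw [one_mul] at hG
    exact hG
  have C8 : ∀ᶠ G : ℤ in cofinite, ∀ κ ∈ Finset.Icc (-W) W, κ ≠ 0 →
      ∀ k ∈ Finset.Icc (-W) W, k ≠ κ → ∀ β ∈ B, β.2 ≠ b2 →
      b2 * k ≠ κ * b2 + (1 - κ) * β.2 → b2 * k ≠ β.2 →
      ∀ w' j : ℤ, (1 - κ) * G - 1 ≠ 0 → w' * (κ * α) = ((1 - κ) * G - 1) * j →
        w' * (b2 * (k * (G - 1) - κ * G) - ((1 - κ) * G - 1) * β.2) =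
          -(((1 - κ) * G - 1) * b2 * (b2 * k + β.2 * ((1 - k) * G - 1))) → False := by
    refine ev_fin _ (fun κ _ => ?_)
    by_cases hκ : κ = 0
    · exact Filter.Eventually.of_forall (fun ρ h => absurd hκ h)
    have : ∀ᶠ G : ℤ in cofinite, ∀ k ∈ Finset.Icc (-W) W, ∀ β ∈ B, k ≠ κ → β.2 ≠ b2 →
        b2 * k ≠ κ * b2 + (1 - κ) * β.2 → b2 * k ≠ β.2 →
        ∀ w' j : ℤ, (1 - κ) * G - 1 ≠ 0 → w' * (κ * α) = ((1 - κ) * G - 1) * j →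
          w' * (b2 * (k * (G - 1) - κ * G) - ((1 - κ) * G - 1) * β.2) =
            -(((1 - κ) * G - 1) * b2 * (b2 * k + β.2 * ((1 - k) * G - 1))) → False := by
      refine ev_fin _ (fun k _ => ev_fin _ (fun β _ => ?_))
      by_cases h1 : k = κ
      · exact Filter.Eventually.of_forall (fun ρ h => absurd h1 h)
      by_cases h2 : β.2 = b2
      · exact Filter.Eventually.of_forall (fun ρ _ h => absurd h2 h)
      by_cases h3 : b2 * k = κ * b2 + (1 - κ) * β.2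
      · exact Filter.Eventually.of_forall (fun ρ _ _ h => absurd h3 h)
      by_cases h4 : b2 * k = β.2
      · exact Filter.Eventually.of_forall (fun ρ _ _ _ h => absurd h4 h)
      filter_upwards [ev_T hκ hα hb2 h1 h2 h3 h4] with G hG _ _ _ _
      exact hG
    filter_upwards [this] with G hG
    intro _ k hk h1 β hβ h2 h3 h4
    exact hG k hk β hβ h1 h2 h3 h4
  have C13 : ∀ᶠ G : ℤ in cofinite, ∀ κ ∈ Finset.Icc (-W) W, κ ≠ 1 → ∀ β ∈ B,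
      |κ * α * (β.2 - b2)| < |(1 - κ) * G - 1| := by
    refine ev_fin _ (fun κ _ => ?_)
    by_cases hκ : κ = 1
    · exact Filter.Eventually.of_forall (fun ρ h => absurd hκ h)
    filter_upwards [ev_fin B (fun β _ => ev_linC (1 - κ) (-1)
      |κ * α * (β.2 - b2)| (fun h => hκ (by linarith)))] with G hG
    intro _ β hβ
    exact hG β hβ
  have C9 : ∀ᶠ G : ℤ in cofinite, ∀ z ∈ R ∪ B, b2 * G + 0 ≠ z.2 :=
    ev_fin _ (fun z _ => ev_linne _ _ _ (Or.inl hb2))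
  have C10 : ∀ᶠ G : ℤ in cofinite, ∀ β ∈ B,
      ((b2 * β.1 - b1 * β.2) - α * b2) * G + α * β.2 ≠ 0 := by
    refine ev_fin _ (fun β hβ => ev_linne _ _ _ ?_)
    exact Or.inr (mul_ne_zero hα (K.hy β hβ))
  filter_upwards [C2, C3, C4, C5, C6, C7, C8, C9, C10, ev_abs W,
    ev_linC 1 (-1) (W * W) one_ne_zero, C13] with G c2 c3 c4 c5 c6 c7 c8 c9 c10 c11 c12 c13
  intro hGp
  rw [one_mul] at c12
  exact {
    hGp := hGp
    ndvd := by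
      intro m hm hmW hd
      have := Int.le_of_dvd (abs_pos.mpr hm) ((abs_dvd_abs _ _).mpr hd)
      rw [← hW] at hmW
      linarith
    ndvd1 := by
      intro m hm hmW hd
      have := Int.le_of_dvd (abs_pos.mpr hm) ((abs_dvd_abs _ _).mpr hd)
      rw [← hW] at hmW
      have h2 : |G + -1| = |G - 1| := by ring_nf
      linarith
    gR := by
      intro h
      exact c9 _ (Finset.mem_union_left _ h) (by simp only; ring)
    gB := by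
      intro h
      exact c9 _ (Finset.mem_union_right _ h) (by simp only; ring)
    ga := by
      intro β hβ h
      exact c10 β hβ (by linear_combination h)
    size := c2
    nears := by
      intro s hs β _
      rw [← hS] at hs
      exact c3 s hs
    hp := by rw [← hW]; exact c4
    hq := by rw [← hW]; exact c5
    hbig := by rw [← hW]; exact c6
    hbig1 := c7
    hMs := by rw [← hW]; exact c13
    hT := by rw [← hW]; exact c8 }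

end Pool.Agent.K4L
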