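import Pool.Agent.K4L.K3UKI

/-!
# K3U, case gamma2: the kills for a good `G`
-/

namespace Pool.Agent.K4L

open Filter

/-- the conditions on `ρ` -/
structure GoodRho (B : Finset Pt) (α b2 G ρ : ℤ) : Prop where
  fork : ForkSols α (α * ρ) (B.card + 4)
  near : ∀ m : ℤ, m ≠ 0 → |m| ≤ nW B α b2 → m ∣ ρ - 1
  dG : G * b2 ∣ ρ - 1
  cop : ∀ κ ∈ Finset.Icc (-(nW B α b2)) (nW B α b2), IsCoprime ((1 - κ) * G - 1) ρ

theorem nW_card {B : Finset Pt} {α b2 : ℤ} : (B.card : ℤ) + 5 ≤ nW B α b2 := by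
  unfold nW
  have := @nY_ge B α b2
  have : 0 ≤ nY B α b2 ^ 5 := by positivity
  linarith

theorem nW_Y {B : Finset Pt} {α b2 : ℤ} : 16 * nY B α b2 ^ 5 ≤ nW B α b2 := by
  unfold nW
  have : (0 : ℤ) ≤ B.card := Int.natCast_nonneg _
  linarith

theorem ev_goodRho {B : Finset Pt} {α b2 G : ℤ} (hα : α ≠ 0) (hb2 : b2 ≠ 0) (hG : Prime G) :
    ∃ Q : ℤ, Q ≠ 0 ∧ ∀ᶠ ρ : ℤ in cofinite, Q ∣ ρ - 1 → GoodRho B α b2 G ρ := by
  classical
  obtain ⟨W, hW⟩ : ∃ W, W = nW B α b2 := ⟨_, rfl⟩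
  have hWc : (B.card : ℤ) + 5 ≤ W := by rw [hW]; exact nW_card
  have hG0 : G ≠ 0 := hG.ne_zero
  have hM : ∀ κ : ℤ, (1 - κ) * G - 1 ≠ 0 := by
    intro κ h
    have : G * (1 - κ) = 1 := by linarith
    exact hG.not_unit (IsUnit.of_mul_eq_one _ this)
  refine ⟨(W.toNat.factorial : ℤ) * G * ∏ κ ∈ Finset.Icc (-W) W, ((1 - κ) * G - 1), ?_, ?_⟩
  · refine mul_ne_zero (mul_ne_zero ?_ hG0) (Finset.prod_ne_zero_iff.mpr (fun κ _ => hM κ))
    exact_mod_cast Nat.factorial_ne_zero _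
  filter_upwards [ev_abs ((B.card : ℤ) + 4 + 2)] with ρ hρ
  intro hQ
  have h1 : (W.toNat.factorial : ℤ) ∣ ρ - 1 :=
    dvd_trans (dvd_mul_of_dvd_left (dvd_mul_right _ _) _) hQ
  have h2 : (W.toNat.factorial : ℤ) * G ∣ ρ - 1 := dvd_trans (dvd_mul_right _ _) hQ
  have hnear : ∀ m : ℤ, m ≠ 0 → |m| ≤ W → m ∣ ρ - 1 :=
    fun m hm hmW => dvd_trans (dvd_fact hm hmW) h1
  refine ⟨?_, ?_, ?_, ?_⟩
  · refine forkSols_int _ hα ?_ ?_
    · intro i hi
      apply hnear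
      · have := Int.natCast_nonneg i
        omega
      · rw [abs_of_nonneg (by have := Int.natCast_nonneg i; omega)]
        have : (i : ℤ) < (B.card + 4 : ℕ) := by exact_mod_cast hi
        push_cast at this
        linarith
    · push_cast; exact hρ
  · rw [← hW]; exact hnear
  · have h3 : b2 ∣ (W.toNat.factorial : ℤ) := by
      apply dvd_fact hb2
      have a1 := @nY_b2 B α b2
      have a2 := (pow_le5 (@nY_ge B α b2)).1
      have a3 := @nW_Y B α b2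
      have a4 := @nY_ge B α b2
      rw [hW]
      linarith
    obtain ⟨c, hc⟩ := h3
    refine dvd_trans ⟨c, ?_⟩ h2
    rw [hc]; ring
  · intro κ hκ
    rw [← hW] at hκ
    have h3 : ((1 - κ) * G - 1) ∣ ρ - 1 :=
      dvd_trans (Finset.dvd_prod_of_mem (fun κ : ℤ => (1 - κ) * G - 1) hκ)
        (dvd_trans (dvd_mul_left _ _) hQ)
    obtain ⟨c, hc⟩ := h3
    exact ⟨-c, 1, by linear_combination hc⟩

theorem size_ok {G κ y0 y : ℤ} (hκ1 : κ ≠ 1) (hy0 : y0 ≠ 0)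
    (h : 2 * (|y| * |y| + |y|) < |G|) : |κ * y * y| < |(1 - κ) * G * y0 + κ * y| := by
  have h1 : 1 ≤ |1 - κ| := Int.one_le_abs (fun h => hκ1 (by linarith))
  have h2 : |κ| ≤ 2 * |1 - κ| := by
    have : |κ| ≤ |1| + |1 - κ| := by
      have h3 := abs_sub 1 (1 - κ)
      have h4 : (1 : ℤ) - (1 - κ) = κ := by ring
      rwa [h4] at h3
    rw [abs_one] at this
    linarith
  have h3 : 1 ≤ |y0| := Int.one_le_abs hy0
  have h4 : |(1 - κ) * G * y0| ≤ |(1 - κ) * G * y0 + κ * y| + |κ * y| := by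
    have := abs_sub ((1 - κ) * G * y0 + κ * y) (κ * y)
    rwa [add_sub_cancel_right] at this
  rw [abs_mul, abs_mul, abs_mul κ y] at h4
  rw [abs_mul, abs_mul]
  have h5 : |1 - κ| * |G| ≤ |1 - κ| * |G| * |y0| :=
    le_mul_of_one_le_right (by positivity) h3
  have h6 : |κ| * (|y| * |y| + |y|) ≤ (2 * |1 - κ|) * (|y| * |y| + |y|) :=
    mul_le_mul_of_nonneg_right h2 (by positivity)
  have h7 : |1 - κ| * (2 * (|y| * |y| + |y|)) < |1 - κ| * |G| :=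
    mul_lt_mul_of_pos_left h (by linarith)
  nlinarith

section
variable {R B : Finset Pt} {α b1 b2 G : ℤ}

theorem GoodG.G0 (g : GoodG R B α b1 b2 G) : G ≠ 0 := g.hGp.ne_zero

theorem GoodG.M (g : GoodG R B α b1 b2 G) (κ : ℤ) : (1 - κ) * G - 1 ≠ 0 := by
  intro h
  have : G * (1 - κ) = 1 := by linarith
  exact g.hGp.not_unit (IsUnit.of_mul_eq_one _ this)

/-- near bounds -/
theorem nW_le {m : ℤ} (h : m ≤ 16 * nY B α b2 ^ 5) : m ≤ nW B α b2 :=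
  le_trans h nW_Y

theorem GoodG.y (g : GoodG R B α b1 b2 G) (K : K3C R B α b1 b2) :
    ∀ β ∈ B, ¬ G ∣ β.2 := by
  intro β hβ
  refine g.ndvd _ (K.hy β hβ) (nW_le ?_)
  have a1 := @nY_y B α b2 β hβ
  have a2 := (pow_le5 (@nY_ge B α b2)).1
  have a4 := @nY_ge B α b2
  linarith

theorem GoodG.al (g : GoodG R B α b1 b2 G) (K : K3C R B α b1 b2) : ¬ G ∣ α := by
  refine g.ndvd _ K.hα (nW_le ?_)
  have a1 := @nY_α B α b2
  have a2 := (pow_le5 (@nY_ge B α b2)).1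
  have a4 := @nY_ge B α b2
  linarith

theorem GoodG.two (g : GoodG R B α b1 b2 G) : ¬ G ∣ 2 := by
  refine g.ndvd _ two_ne_zero (nW_le ?_)
  have a2 := (pow_le5 (@nY_ge B α b2)).1
  have a4 := @nY_ge B α b2
  norm_num
  linarith

theorem GoodG.yb (g : GoodG R B α b1 b2 G) {β : Pt} (hβ : β ∈ B) (h : β.2 ≠ b2) :
    ¬ G ∣ β.2 - b2 := by
  refine g.ndvd _ (sub_ne_zero.mpr h) (nW_le ?_)
  have a1 := @nY_y B α b2 β hβ
  have a3 := @nY_b2 B α b2
  have a2 := (pow_le5 (@nY_ge B α b2)).1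
  have a4 := @nY_ge B α b2
  have := abs_sub β.2 b2
  linarith

theorem GoodRho.Gρ {ρ : ℤ} (r : GoodRho B α b2 G ρ) (g : GoodG R B α b1 b2 G)
    (K : K3C R B α b1 b2) : ¬ G ∣ α * ρ := by
  intro h
  apply g.al K
  obtain ⟨c, hc⟩ := r.dG
  obtain ⟨d, hd⟩ := h
  exact ⟨d - α * (b2 * c), by linear_combination hd - α * hc⟩

theorem GoodRho.G2ρ {ρ : ℤ} (r : GoodRho B α b2 G ρ) (g : GoodG R B α b1 b2 G)
    (K : K3C R B α b1 b2) : ¬ G ∣ 2 * (α * ρ) - α := by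
  intro h
  apply g.al K
  obtain ⟨c, hc⟩ := r.dG
  obtain ⟨d, hd⟩ := h
  exact ⟨d - 2 * α * (b2 * c), by linear_combination hd - 2 * α * hc⟩

theorem GoodRho.κρ {ρ κ : ℤ} (r : GoodRho B α b2 G ρ) (g : GoodG R B α b1 b2 G)
    (K : K3C R B α b1 b2) (hκ : ¬ G ∣ κ - 1) : ¬ G ∣ κ * (α * ρ) - α := by
  intro h
  obtain ⟨c, hc⟩ := r.dG
  obtain ⟨d, hd⟩ := h
  have h1 : G ∣ α * (κ - 1) := ⟨d - κ * α * (b2 * c), by linear_combination hd - κ * α * hc⟩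
  rcases g.hGp.dvd_or_dvd h1 with h | h
  · exact g.al K h
  · exact hκ h

theorem GoodRho.by {ρ : ℤ} (r : GoodRho B α b2 G ρ) {β : Pt} (hβ : β ∈ B) (h : β.2 ≠ b2) :
    (b2 - β.2) ∣ ρ - 1 := by
  refine r.near _ (sub_ne_zero.mpr (Ne.symm h)) (nW_le ?_)
  have a1 := @nY_y B α b2 β hβ
  have a3 := @nY_b2 B α b2
  have a2 := (pow_le5 (@nY_ge B α b2)).1
  have a4 := @nY_ge B α b2
  have := abs_sub b2 β.2
  linarith

/-- `t2` near: `κ = 2` -/
theorem kc_B (K : K3C R B α b1 b2) (g : GoodG R B α b1 b2 G) {β0 : Pt} (hβ0 : β0 ∈ B)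
    (s s1 : ℤ) (hs : s1 * b2 = s * b1) (hs0 : s ≠ 0) (hss : 2 * |s * s| + 2 * |s| < |G|) :
    ∀ᶠ ρ : ℤ in cofinite, GoodRho B α b2 G ρ →
      ∀ k τ R2 B2, KPos R B α b1 b2 G 2 k (α * ρ) τ s1 s β0.2 R2 B2 → Win R2 B2 := by
  have hy00 := K.hy β0 hβ0
  by_cases hsg : s = G * b2
  · exact Filter.Eventually.of_forall (fun ρ _ k τ R2 B2 Q => absurd hsg Q.sg)
  by_cases hy0b : β0.2 = b2
  · exact Filter.Eventually.of_forall (fun ρ _ k τ R2 B2 Q => absurd hy0b Q.y0b)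
  have h1G : ¬ G ∣ (2 : ℤ) - 1 := by
    norm_num
    intro h
    exact g.hGp.not_unit (isUnit_of_dvd_one h)
  have h2s : ¬ G ∣ 2 * s := by
    intro h
    have := Int.le_of_dvd (abs_pos.mpr (mul_ne_zero two_ne_zero hs0)) ((abs_dvd_abs _ _).mpr h)
    rw [abs_mul, abs_two] at this
    have h3 := abs_nonneg (s * s)
    linarith
  have hseg : |2 * s * s| < |(1 - 2) * G * β0.2 + 2 * s| := by
    refine size_ok (by norm_num) hy00 ?_
    rw [abs_mul] at hss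
    linarith
  have hp2 : (1 - 2) * G * β0.2 + 2 * s ≠ 0 := by
    intro h
    rw [h, abs_zero] at hseg
    have := abs_nonneg (2 * s * s)
    linarith
  filter_upwards [kp_all K g.hGp g.two h1G hs0 hsg hy00 hy0b (g.y K)
    (fun β hβ => size_ok (by norm_num) hy00 (g.size β hβ)) g.ga hp2 (Or.inr hseg) s1 hs]
    with ρ h r k τ R2 B2 Q
  refine h r.fork (r.Gρ g K) (r.G2ρ g K) (r.by hβ0 hy0b) ?_ k τ R2 B2 Q ?_
  · intro k _ hk
    exact absurd ⟨-(b2 * (k - 2)), by linear_combination hk⟩ h2s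
  · intro h
    exact h2s ⟨2 * ((1 - k) * b2), by rw [h]; ring⟩

/-- `t2 t` parallel to `g' e` -/
theorem kc_E (K : K3C R B α b1 b2) (g : GoodG R B α b1 b2 G) (hF : ForkSols 1 G (B.card + 4))
    {β0 : Pt} (hβ0 : β0 ∈ B) (s1 : ℤ) (hs : s1 * b2 = (G * β0.2) * b1) :
    ∀ᶠ ρ : ℤ in cofinite, GoodRho B α b2 G ρ →
      ∀ k τ R2 B2, KPos R B α b1 b2 G 2 k (α * ρ) τ s1 (G * β0.2) β0.2 R2 B2 → Win R2 B2 := by
  have hy00 := K.hy β0 hβ0
  have hb2 := K.hb2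
  have a1 := @nY_y B α b2 β0 hβ0
  have a2 := @nY_b2 B α b2
  have a3 := (pow_le5 (@nY_ge B α b2)).1
  have a4 := @nY_ge B α b2
  have a5 := @nW_Y B α b2
  have a6 := (pow_le5 (@nY_ge B α b2)).2.1
  by_cases hy0b : β0.2 = b2
  · exact Filter.Eventually.of_forall (fun ρ _ k τ R2 B2 Q => absurd hy0b Q.y0b)
  have h2W : (2 : ℤ) ∈ Finset.Icc (-(nW B α b2)) (nW B α b2) := by
    rw [Finset.mem_Icc]
    constructor <;> linarith
  have hkW : ∀ k : ℤ, (1 - k) * b2 = β0.2 → k ∈ Finset.Icc (-(nW B α b2)) (nW B α b2) := by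
    intro k hk
    have h1 : |1 - k| ≤ |β0.2| := by
      rw [← hk, abs_mul]
      exact le_mul_of_one_le_right (abs_nonneg _) (Int.one_le_abs hb2)
    have h2 : |k| ≤ 1 + |1 - k| := by
      have h3 := abs_sub 1 (1 - k)
      have h4 : (1 : ℤ) - (1 - k) = k := by ring
      rw [h4, abs_one] at h3
      exact h3
    rw [Finset.mem_Icc]
    apply abs_le.mp
    linarith
  filter_upwards [kp_E K g.hGp g.two hy00 hy0b (g.y K)
    (fun β hβ h => g.y K β hβ ⟨β0.2, h⟩)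
    (fun β hβ => size_ok (by norm_num) hy00 (g.size β hβ)) g.ga (g.M 2)
    (fun β hβ hne => g.ndvd1 _ (mul_ne_zero two_ne_zero (sub_ne_zero.mpr (Ne.symm hne))) (by
      have b1 := @nY_y B α b2 β hβ
      have b3 := abs_sub b2 β.2
      rw [abs_mul, abs_two]
      have b4 : 1 ≤ nW B α b2 := by linarith
      nlinarith))
    (g.hp 2 h2W β0 hβ0 (by norm_num)) (g.hq 2 h2W β0 hβ0 (by norm_num))
    (fun k hk => g.hbig 2 h2W (by norm_num) k (hkW k hk))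
    (fun β hβ => g.hMs 2 h2W (by norm_num) β hβ)
    (fun k hk2 hk => g.hT 2 h2W two_ne_zero k (hkW k hk) hk2 β0 hβ0 hy0b
      (by
        intro h
        apply hb2
        linear_combination -h - hk)
      (by
        intro h
        have h1 : b2 * (1 - 2 * k) = 0 := by linear_combination hk - h
        rcases mul_eq_zero.mp h1 with h2 | h2
        · exact hb2 h2
        · omega))
    (g.hbig1 β0 hβ0) hF s1 hs] with ρ h r k τ R2 B2 Q
  refine h r.fork (r.by hβ0 hy0b) ?_ (r.cop 2 h2W) (r.G2ρ g K) k τ R2 B2 Q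
  intro k hk1 hk
  refine r.near _ (sub_ne_zero.mpr (Ne.symm hk1)) ?_
  have h1 : (1 - k) * b2 = 2 * β0.2 - b2 := by linear_combination -hk
  have h2 : |1 - k| ≤ |2 * β0.2 - b2| := by
    rw [← h1, abs_mul]
    exact le_mul_of_one_le_right (abs_nonneg _) (Int.one_le_abs hb2)
  have h3 := abs_sub (2 * β0.2) b2
  rw [abs_mul, abs_two] at h3
  linarith

end

end Pool.Agent.K4L
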