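import Pool.Agent.K4L.K3UKJ

/-!
# K3U, case gamma2: the P-kill
-/

namespace Pool.Agent.K4L

open Filter

/-- `t t3` hits `P b` at `k = μ`: impossible -/
theorem T1_excl {b2 y0 κ k : ℤ} (hb2 : b2 ≠ 0) (hk0 : k ≠ 0) (hk1 : k ≠ 1)
    (hH : (1 - k) * (κ * b2 - y0) = (κ - 1) * y0) (hT : b2 * k = y0) : False := by
  have h1 : k * k = κ * (2 * k - 1) := by
    apply mul_left_cancel₀ hb2
    rw [← hT] at hH
    linear_combination hH
  have h2 : (2 * k - 1) ∣ k * k := ⟨κ, by rw [h1]; ring⟩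
  have hco : IsCoprime (2 * k - 1) k := ⟨-1, 2, by ring⟩
  have h3 : (2 * k - 1) ∣ k := hco.dvd_of_dvd_mul_left h2
  have h4 : (2 * k - 1) ∣ 1 := by
    have := hco.dvd_of_dvd_mul_left (show (2 * k - 1) ∣ k * 1 by rwa [mul_one])
    exact this
  rcases Int.isUnit_iff.mp (isUnit_of_dvd_one h4) with h | h <;> omega

/-- `t t3` is parallel to `P c` and `t2 t3` parallel to `c a` -/
theorem T2_arith {b2 y0 κ k : ℤ} (hb2 : b2 ≠ 0) (hy0 : y0 ≠ 0) (hκ1 : κ ≠ 1)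
    (hH : (1 - k) * (κ * b2 - y0) = (κ - 1) * y0)
    (hT : b2 * k = κ * b2 + (1 - κ) * y0) : y0 = 2 * b2 ∧ κ = 4 ∧ k = -2 := by
  have hκ1' : κ - 1 ≠ 0 := sub_ne_zero.mpr hκ1
  have h1 : κ * b2 * (y0 - b2) = y0 * y0 := by
    apply mul_left_cancel₀ hκ1'
    linear_combination b2 * hH + (κ * b2 - y0) * hT
  have h2 : b2 * b2 * k = b2 * y0 - y0 * y0 := by
    linear_combination b2 * hT - h1
  have h3 : (2 * y0 - b2) ^ 2 = b2 ^ 2 * (1 - 4 * k) := by
    linear_combination 4 * h2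
  have h4 : b2 ^ 2 ∣ (2 * y0 - b2) ^ 2 := ⟨_, h3⟩
  have h5 : b2 ∣ 2 * y0 - b2 := (Int.pow_dvd_pow_iff two_ne_zero).mp h4
  obtain ⟨n, hn⟩ := h5
  have h6 : n * n = 1 - 4 * k := by
    apply mul_left_cancel₀ (pow_ne_zero 2 hb2)
    rw [← h3, hn]; ring
  obtain ⟨m, hm⟩ : ∃ m, n = 2 * m - 1 := by
    rcases Int.even_or_odd' n with ⟨c, hc | hc⟩
    · exfalso
      rw [hc] at h6
      have : 4 * (c * c + k) = 1 := by linear_combination h6
      omega
    · exact ⟨c + 1, by rw [hc]; ring⟩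
  have h7 : y0 = b2 * m := by
    have : 2 * y0 = 2 * (b2 * m) := by
      rw [hm] at hn
      linear_combination hn
    exact mul_left_cancel₀ two_ne_zero this
  have hm0 : m ≠ 0 := by
    rintro rfl
    apply hy0; rw [h7, mul_zero]
  have h8 : κ * (m - 1) = m * m := by
    apply mul_left_cancel₀ (mul_ne_zero hb2 hb2)
    rw [h7] at h1
    linear_combination h1
  have h9 : (m - 1) ∣ m * m := ⟨κ, by rw [← h8]; ring⟩
  have hco : IsCoprime (m - 1) m := ⟨-1, 1, by ring⟩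
  have h10 : (m - 1) ∣ 1 := by
    have h11 := hco.dvd_of_dvd_mul_left h9
    exact hco.dvd_of_dvd_mul_left (show (m - 1) ∣ m * 1 by rwa [mul_one])
  rcases Int.isUnit_iff.mp (isUnit_of_dvd_one h10) with h | h
  · have hm2 : m = 2 := by linarith
    rw [hm2] at h7 h8
    have hκ : κ = 4 := by linarith
    refine ⟨by rw [h7]; ring, hκ, ?_⟩
    apply mul_left_cancel₀ hb2
    rw [hT, h7, hκ]; ring
  · exfalso; apply hm0; linarith

section
variable {R B : Finset Pt} {α b1 b2 G : ℤ}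

theorem kc_P (K : K3C R B α b1 b2) (g : GoodG R B α b1 b2 G) (hF : ForkSols 1 G (B.card + 4))
    {β0 : Pt} (hβ0 : β0 ∈ B) (κ s s1 : ℤ) (hs : s1 * b2 = s * b1) (hκ0 : κ ≠ 0) (hκ1 : κ ≠ 1)
    (hs0 : s ≠ 0) (hq : s * (κ * b2 - β0.2) = (κ - 1) * G * b2 * β0.2)
    (hys : ∀ β ∈ B, β.2 ≠ s) :
    ∀ᶠ ρ : ℤ in cofinite, GoodRho B α b2 G ρ →
      ∀ k τ R2 B2, KPos R B α b1 b2 G κ k (α * ρ) τ s1 s β0.2 R2 B2 → Win R2 B2 := by
  have hy00 := K.hy β0 hβ0
  have hb2 := K.hb2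
  have hα := K.hα
  have hG0 := g.G0
  by_cases hsg : s = G * b2
  · exact Filter.Eventually.of_forall (fun ρ _ k τ R2 B2 Q => absurd hsg Q.sg)
  by_cases hy0b : β0.2 = b2
  · exact Filter.Eventually.of_forall (fun ρ _ k τ R2 B2 Q => absurd hy0b Q.y0b)
  have hP : b2 * ((1 - κ) * G * β0.2 + κ * s) = β0.2 * s := by linear_combination hq
  have hp2 : (1 - κ) * G * β0.2 + κ * s ≠ 0 := by
    intro h
    rw [h, mul_zero] at hP
    exact mul_ne_zero hy00 hs0 hP.symm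
  have hGyb := g.yb hβ0 hy0b
  have hGy := g.y K β0 hβ0
  have hsz : ∀ β ∈ B, |κ * β.2 * β.2| < |(1 - κ) * G * β0.2 + κ * β.2| :=
    fun β hβ => size_ok hκ1 hy00 (g.size β hβ)
  by_cases hGq : G ∣ κ * b2 - β0.2
  · -- `κ` is about `G`
    have hκG : ¬ G ∣ κ := by
      intro h
      apply hGy
      obtain ⟨c, hc⟩ := h
      obtain ⟨d, hd⟩ := hGq
      exact ⟨c * b2 - d, by linear_combination b2 * hc - hd⟩
    have hκ1G : ¬ G ∣ κ - 1 := by
      intro h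
      apply hGyb
      obtain ⟨c, hc⟩ := h
      obtain ⟨d, hd⟩ := hGq
      exact ⟨c * b2 - d, by linear_combination b2 * hc - hd⟩
    have hGs : ¬ G ∣ s := by
      intro h
      obtain ⟨d, hd⟩ := hGq
      obtain ⟨c, hc⟩ := h
      have h1 : s * d = (κ - 1) * b2 * β0.2 := by
        apply mul_left_cancel₀ hG0
        rw [hd] at hq
        linear_combination hq
      have h2 : G ∣ (β0.2 - b2) * β0.2 := by
        refine ⟨c * d - d * β0.2, ?_⟩
        rw [hc] at h1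
        linear_combination -h1 - β0.2 * hd
      rcases g.hGp.dvd_or_dvd h2 with h | h
      · exact hGyb h
      · exact hGy h
    filter_upwards [kp_all K g.hGp hκG hκ1G hs0 hsg hy00 hy0b (g.y K) hsz g.ga hp2
      (Or.inl hP) s1 hs] with ρ h r k τ R2 B2 Q
    refine h r.fork (r.Gρ g K) (r.κρ g K hκ1G) (r.by hβ0 hy0b) ?_ k τ R2 B2 Q ?_
    · intro k _ hk
      exfalso
      have h1 : G ∣ κ * s := ⟨-(b2 * (k - κ)), by linear_combination hk⟩
      rcases g.hGp.dvd_or_dvd h1 with h | h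
      · exact hκG h
      · exact hGs h
    · intro h
      exact hGs ⟨(1 - k) * b2, by rw [h]; ring⟩
  -- `κ` is near
  have hco : IsCoprime G (κ * b2 - β0.2) := (Prime.coprime_iff_not_dvd g.hGp).mpr hGq
  have hqd : (κ * b2 - β0.2) ∣ (β0.2 - b2) * β0.2 := by
    have h1 : (κ * b2 - β0.2) ∣ ((β0.2 - b2) * β0.2) * G :=
      ⟨s - G * β0.2, by linear_combination -hq⟩
    exact hco.symm.dvd_of_dvd_mul_right h1
  have hqn : (β0.2 - b2) * β0.2 ≠ 0 := mul_ne_zero (sub_ne_zero.mpr hy0b) hy00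
  have hqle : |κ * b2 - β0.2| ≤ |(β0.2 - b2) * β0.2| :=
    Int.le_of_dvd (abs_pos.mpr hqn) ((abs_dvd_abs _ _).mpr hqd)
  have hq0 : κ * b2 - β0.2 ≠ 0 := by
    intro h
    rw [h] at hGq
    exact hGq (dvd_zero G)
  -- bounds
  obtain ⟨Y, hY⟩ : ∃ Y, Y = nY B α b2 := ⟨_, rfl⟩
  obtain ⟨W, hW⟩ : ∃ W, W = nW B α b2 := ⟨_, rfl⟩
  have a0 : 2 ≤ Y := by rw [hY]; exact nY_ge
  have a1 : |β0.2| ≤ Y := by rw [hY]; exact nY_y hβ0
  have a2 : |b2| ≤ Y := by rw [hY]; exact nY_b2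
  have a3 : 16 * Y ^ 5 ≤ W := by rw [hY, hW]; exact nW_Y
  obtain ⟨p1, p2, p3⟩ := pow_le5 a0
  have b1' : |(β0.2 - b2) * β0.2| ≤ 2 * Y ^ 2 := by
    rw [abs_mul]
    have h1 := abs_sub β0.2 b2
    have h2 := abs_nonneg β0.2
    have h3 := abs_nonneg (β0.2 - b2)
    nlinarith
  have b2' : |κ| ≤ 3 * Y ^ 2 := by
    have h1 : |κ| ≤ |κ * b2| := by
      rw [abs_mul]
      exact le_mul_of_one_le_right (abs_nonneg _) (Int.one_le_abs hb2)
    have h2 : |κ * b2| ≤ |κ * b2 - β0.2| + |β0.2| := by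
      have := abs_add_le (κ * b2 - β0.2) β0.2
      rwa [sub_add_cancel] at this
    nlinarith
  have b3' : |κ - 1| ≤ 4 * Y ^ 2 := by
    have h1 := abs_sub κ 1
    rw [abs_one] at h1
    nlinarith
  have hκW : κ ∈ Finset.Icc (-W) W := by
    rw [Finset.mem_Icc]
    apply abs_le.mp
    linarith
  have hκG : ¬ G ∣ κ := g.ndvd κ hκ0 (by rw [← hW]; linarith)
  have hκ1G : ¬ G ∣ κ - 1 := g.ndvd _ (sub_ne_zero.mpr hκ1) (by rw [← hW]; linarith)
  -- the relation for `t2 t3` parallel to `c a`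
  have hHrel : ∀ k : ℤ, s = (1 - k) * G * b2 → (1 - k) * (κ * b2 - β0.2) = (κ - 1) * β0.2 := by
    intro k hk
    apply mul_left_cancel₀ (mul_ne_zero hG0 hb2)
    rw [hk] at hq
    linear_combination hq
  have hHW : ∀ k : ℤ, s = (1 - k) * G * b2 → k ∈ Finset.Icc (-W) W := by
    intro k hk
    have h1 : |1 - k| ≤ |(κ - 1) * β0.2| := by
      rw [← hHrel k hk, abs_mul]
      exact le_mul_of_one_le_right (abs_nonneg _) (Int.one_le_abs hq0)
    rw [abs_mul] at h1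
    have h2 : |κ - 1| * |β0.2| ≤ 4 * Y ^ 2 * Y := by
      apply mul_le_mul b3' a1 (abs_nonneg _) (by positivity)
    have h3 : |k| ≤ 1 + |1 - k| := by
      have h3 := abs_sub 1 (1 - k)
      have h4 : (1 : ℤ) - (1 - k) = k := by ring
      rwa [h4, abs_one] at h3
    have h5 : 4 * Y ^ 2 * Y = 4 * Y ^ 3 := by ring
    rw [Finset.mem_Icc]
    apply abs_le.mp
    linarith
  have hSdvd : ∀ k : ℤ, k ≠ 1 → b2 * G * (k - κ) + κ * s = 0 → |1 - k| ≤ W := by
    intro k _ hk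
    have h1 : (k - κ) * (κ * b2 - β0.2) = -(κ * (κ - 1) * β0.2) := by
      apply mul_left_cancel₀ (mul_ne_zero hG0 hb2)
      linear_combination (κ * b2 - β0.2) * hk - κ * hq
    have h2 : |k - κ| ≤ |κ| * |κ - 1| * |β0.2| := by
      rw [← abs_mul, ← abs_mul, ← abs_neg (κ * (κ - 1) * β0.2), ← h1, abs_mul]
      exact le_mul_of_one_le_right (abs_nonneg _) (Int.one_le_abs hq0)
    have h3 : |κ| * |κ - 1| * |β0.2| ≤ (3 * Y ^ 2) * (4 * Y ^ 2) * Y := by
      apply mul_le_mul (mul_le_mul b2' b3' (abs_nonneg _) (by positivity)) a1 (abs_nonneg _)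
        (by positivity)
    have h4 : (3 * Y ^ 2) * (4 * Y ^ 2) * Y = 12 * Y ^ 5 := by ring
    have h5 : |1 - k| ≤ |κ - 1| + |k - κ| := by
      have := abs_add_le (κ - 1) (k - κ)
      have h6 : κ - 1 + (k - κ) = -(1 - k) := by ring
      rwa [h6, abs_neg] at this
    linarith
  -- events for `t2 t3` parallel to `c a`
  have C2 : ∀ᶠ ρ : ℤ in cofinite, ∀ k ∈ Finset.Icc (-W) W, k ≠ 0 → k ≠ 1 → k ≠ κ →
      s = (1 - k) * G * b2 → GoodRho B α b2 G ρ →
      ∀ τ R2 B2, KPos R B α b1 b2 G κ k (α * ρ) τ s1 s β0.2 R2 B2 → Win R2 B2 := by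
    refine ev_fin _ ?_
    intro k hkW
    by_cases hk0 : k = 0
    · exact Filter.Eventually.of_forall (fun ρ h => absurd hk0 h)
    by_cases hk1 : k = 1
    · exact Filter.Eventually.of_forall (fun ρ _ h => absurd hk1 h)
    by_cases hkκ : k = κ
    · exact Filter.Eventually.of_forall (fun ρ _ _ h => absurd hkκ h)
    by_cases hH : s = (1 - k) * G * b2
    swap
    · exact Filter.Eventually.of_forall (fun ρ _ _ _ h => absurd h hH)
    have hrel := hHrel k hH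
    have hGyd : ∀ β ∈ B, β.2 ≠ b2 → ¬ (G - 1) ∣ κ * (b2 - β.2) := by
      intro β hβ hne
      refine g.ndvd1 _ (mul_ne_zero hκ0 (sub_ne_zero.mpr (Ne.symm hne))) ?_
      have c1 : |β.2| ≤ Y := by rw [hY]; exact nY_y hβ
      have c2 := abs_sub b2 β.2
      rw [abs_mul, ← hW]
      apply mul_le_mul (by linarith) (by linarith) (abs_nonneg _) (by linarith [abs_nonneg κ])
    by_cases hT : b2 * k = κ * b2 + (1 - κ) * β0.2
    · obtain ⟨h1, h2, h3⟩ := T2_arith hb2 hy00 hκ1 hrel hT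
      subst h2 h3
      have e1 : s = 3 * G * b2 := by rw [hH]; ring
      have c4 : |b2 * 4 * α * (4 - -2)| < |(1 - 4) * G - 1| :=
        g.hbig 4 (by rw [← hW]; exact hκW) (by norm_num) (-2) (by rw [← hW]; exact hkW)
      have hG3 : ¬ G ∣ 3 := by
        refine g.ndvd 3 (by norm_num) ?_
        rw [← hW]
        norm_num
        linarith
      have c5 : ∀ β ∈ B, ((1 - 4) * G - 1) * (2 * b2) + 4 * β.2 ≠ 0 := by
        intro β hβ
        rw [← h1]
        exact g.hp 4 (by rw [← hW]; exact hκW) β0 hβ0 (by norm_num) β hβ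
      filter_upwards [ev_mul hα (k2_win K g.hGp hG3 hκG (g.y K) hGyd c5 c4
        (fun β hβ => g.hMs 4 (by rw [← hW]; exact hκW) (by norm_num) β hβ) hF s1
        (by rw [← e1]; exact hs))] with ρ h
      intro _ _ _ _ r τ R2 B2 Q
      rw [e1, h1] at Q
      exact h ρ rfl (r.cop 4 (by rw [← hW]; exact hκW)) τ R2 B2 Q
    · have c5 := kp_H K (k := k) (y0 := β0.2) g.hGp hκ0 hκ1 hk0 hk1 hkκ (g.y K) (g.M κ) hGyd
        (g.hp κ (by rw [← hW]; exact hκW) β0 hβ0 hκ1)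
        (g.hq κ (by rw [← hW]; exact hκW) β0 hβ0 hκ1)
        (g.hbig κ (by rw [← hW]; exact hκW) hκ1 k (by rw [← hW]; exact hkW))
        (g.hMs κ (by rw [← hW]; exact hκW) hκ1)
        (g.hT κ (by rw [← hW]; exact hκW) hκ0 k (by rw [← hW]; exact hkW) hkκ β0 hβ0 hy0b hT
          (fun h => T1_excl hb2 hk0 hk1 hrel h))
        (Or.inl (by rw [← hH]; exact hP)) hF s1 (by rw [← hH]; exact hs)
      filter_upwards [c5] with ρ h
      intro _ _ _ _ r τ R2 B2 Q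
      rw [hH] at Q
      exact h (r.cop κ (by rw [← hW]; exact hκW)) τ R2 B2 Q
  filter_upwards [kp_all K g.hGp hκG hκ1G hs0 hsg hy00 hy0b (g.y K) hsz g.ga hp2
    (Or.inl hP) s1 hs, C2] with ρ h c2 r k τ R2 B2 Q
  by_cases hH : s = (1 - k) * G * b2
  · exact c2 k (hHW k hH) Q.k0 Q.k1 Q.kκ hH r τ R2 B2 Q
  · refine h r.fork (r.Gρ g K) (r.κρ g K hκ1G) (r.by hβ0 hy0b) ?_ k τ R2 B2 Q hH
    intro k hk1 hk
    exact r.near _ (sub_ne_zero.mpr (Ne.symm hk1)) (by rw [← hW]; exact hSdvd k hk1 hk)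

end

end Pool.Agent.K4L
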