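import Pool.Agent.K4L.BL
import Pool.Agent.K4L.Tempo

/-!
# K3U, 't near': arithmetic
-/

namespace Pool.Agent.K4L

open Filter

/-- integers: almost all `E` are large -/
theorem ev_abs (C : ℤ) : ∀ᶠ E : ℤ in cofinite, C < |E| := by
  have h : ({E : ℤ | ¬ C < |E|}) ⊆ (Finset.Icc (-C) C : Finset ℤ) := by
    intro E hE
    have hE := not_lt.mp hE
    rw [Finset.mem_coe, Finset.mem_Icc]
    exact abs_le.mp hE
  exact (Finset.finite_toSet _).subset h

theorem ev_linC (A c M : ℤ) (hA : A ≠ 0) : ∀ᶠ E : ℤ in cofinite, M < |A * E + c| := by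
  filter_upwards [ev_abs (M + |c|)] with E hE
  have h1 : 1 ≤ |A| := Int.one_le_abs hA
  have h2 : |A * E| ≤ |A * E + c| + |c| := by
    have := abs_sub (A * E + c) c
    rwa [add_sub_cancel_right] at this
  rw [abs_mul] at h2
  have h3 : |E| ≤ |A| * |E| := le_mul_of_one_le_left (abs_nonneg _) h1
  linarith

/-- a lattice point on the line `c f` -/
theorem fc_param {E κ b1 b2 w1 w2 : ℤ} (hp : Prime (κ - 1)) (hE : ¬ (κ - 1) ∣ E)
    (hw : w1 * ((1 - κ) * b2) = w2 * (κ * E + (1 - κ) * b1)) :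
    ∃ L, w2 = L * (1 - κ) ∧ b2 * w1 = L * (κ * E + (1 - κ) * b1) := by
  have h1 : (κ - 1) ∣ w2 * E := by
    -- `w2 κ E = (1 - κ) (w1 b2 - w2 b1)`, `κ = 1 + (κ - 1)`
    refine ⟨-(w1 * b2 - w2 * b1) - w2 * E, ?_⟩
    linear_combination -hw
  rcases hp.dvd_or_dvd h1 with h2 | h2
  · obtain ⟨m, hm⟩ := h2
    refine ⟨-m, by rw [hm]; ring, ?_⟩
    have h0 : (κ - 1) ≠ 0 := hp.ne_zero
    apply mul_left_cancel₀ h0
    rw [hm] at hw
    linear_combination -hw
  · exact absurd h2 hE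

/-- a lattice point on the line `a f` -/
theorem fa_param {E κ α b1 b2 w1 w2 : ℤ} (hp : Prime (κ - 1)) (hE : ¬ (κ - 1) ∣ E - α)
    (hw : (w1 - α) * ((1 - κ) * b2) = w2 * (κ * E + (1 - κ) * b1 - α)) :
    ∃ L, w2 = L * (1 - κ) ∧ b2 * (w1 - α) = L * (κ * E + (1 - κ) * b1 - α) := by
  have h1 : (κ - 1) ∣ w2 * (E - α) := by
    refine ⟨-((w1 - α) * b2 - w2 * b1) - w2 * E, ?_⟩
    linear_combination -hw
  rcases hp.dvd_or_dvd h1 with h2 | h2
  · obtain ⟨m, hm⟩ := h2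
    refine ⟨-m, by rw [hm]; ring, ?_⟩
    have h0 : (κ - 1) ≠ 0 := hp.ne_zero
    apply mul_left_cancel₀ h0
    rw [hm] at hw
    linear_combination -hw
  · exact absurd h2 hE

/-- the equation of a hit of `c f` by a line through `t'` (on `b e`) and `(x, y)` -/
theorem fc_eq {E κ b1 b2 x y t1 t2 w1 w2 L : ℤ}
    (ht' : (E - b1) * (b2 - t2) = b2 * (t1 - b1))
    (hw2 : w2 = L * (1 - κ)) (hw1 : b2 * w1 = L * (κ * E + (1 - κ) * b1))
    (hc : (x - t1) * (w2 - t2) = (y - t2) * (w1 - t1)) :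
    E * ((b2 - t2) * L - (b2 - t2) * y - κ * L * (b2 - y)) +
      (b2 * x - b1 * y) * (t2 - L * (1 - κ)) = 0 := by
  have e1 : b2 * t1 = (b2 - t2) * E + t2 * b1 := by linear_combination -ht'
  rw [hw2] at hc
  linear_combination (-b2) * hc + (L * (1 - κ) - t2 - (y - t2)) * (-1) * e1 -
    (y - t2) * hw1

/-- the equation of a hit of `a f` by a line through `t'` (on `b e`) and `(x, y)` -/
theorem fa_eq {E κ α b1 b2 x y t1 t2 w1 w2 L : ℤ}
    (ht' : (E - b1) * (b2 - t2) = b2 * (t1 - b1))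
    (hw2 : w2 = L * (1 - κ)) (hw1 : b2 * (w1 - α) = L * (κ * E + (1 - κ) * b1 - α))
    (hc : (x - t1) * (w2 - t2) = (y - t2) * (w1 - t1)) :
    E * ((b2 - t2) * L - (b2 - t2) * y - κ * L * (b2 - y)) +
      (b2 * x - b1 * y) * (t2 - L * (1 - κ)) - α * (b2 - L) * (t2 - y) = 0 := by
  have e1 : b2 * t1 = (b2 - t2) * E + t2 * b1 := by linear_combination -ht'
  rw [hw2] at hc
  linear_combination (-b2) * hc + (L * (1 - κ) - t2 - (y - t2)) * (-1) * e1 -
    (y - t2) * hw1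

/-- classification of the hits of `c f` -/
theorem fc_cls {E κ b2 y D t2 L : ℤ} (hp : Prime (κ - 1)) (hb2 : b2 ≠ 0)
    (hD : D ≠ 0) (hy : y ≠ 0) (hyl : |y| < κ - 1) (hcl : ¬ (κ - 1) ∣ D - E * (b2 - y))
    (hE : blC 1 (-(κ * (b2 - y))) (-y) 0 0 (-(D * (1 - κ))) (-D) (D * b2) < |E|)
    (hL0 : L ≠ 0) (hLb : L ≠ b2) (ht' : t2 ≠ b2 - κ * b2)
    (h : E * ((b2 - t2) * L - (b2 - t2) * y - κ * L * (b2 - y)) + D * (t2 - L * (1 - κ)) = 0) :
    y ≠ b2 ∧ L = y ∧ D * t2 = E * κ * y * (b2 - y) + D * y * (1 - κ) := by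
  have hk1 : 1 < κ - 1 := by
    have : 1 ≤ |y| := Int.one_le_abs hy
    linarith
  by_cases hv : L - y = 0
  · have hLy : L = y := by linarith
    have h1 : D * t2 = E * κ * y * (b2 - y) + D * y * (1 - κ) := by
      rw [hLy] at h; linear_combination h
    refine ⟨?_, hLy, h1⟩
    rintro rfl
    apply ht'
    apply mul_left_cancel₀ hD
    linear_combination h1
  exfalso
  by_cases hu : (b2 - t2) - κ * (b2 - y) = 0
  · -- type (ii)
    have h1 : (κ - 1) ∣ y * (D - E * (b2 - y)) := by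
      -- `D t2 - E (b2 - t2) y = D L (1 - κ)`
      have h2 : D * t2 - E * (b2 - t2) * y = D * L * (1 - κ) := by
        have : E * L * ((b2 - t2) - κ * (b2 - y)) = 0 := by rw [hu, mul_zero]
        linear_combination h - this
      have h3 : t2 = b2 - κ * (b2 - y) := by linarith
      rw [h3] at h2
      refine ⟨(b2 - y) * D + E * (b2 - y) * y - D * L, ?_⟩
      linear_combination h2
    rcases hp.dvd_or_dvd h1 with h2 | h2
    · have := Int.le_of_dvd (abs_pos.mpr hy) ((dvd_abs _ _).mpr h2)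
      linarith
    · exact hcl h2
  · have hb := bl 1 (-(κ * (b2 - y))) (-y) 0 0 (-(D * (1 - κ))) (-D) (D * b2) one_ne_zero E L
      (b2 - t2) hE (by intro h'; apply hu; linarith) (by intro h'; apply hv; linarith)
      (by linear_combination h)
    obtain ⟨q1, q0⟩ := hb
    have q0' : t2 = L * (1 - κ) := by
      apply mul_left_cancel₀ hD
      linear_combination q0
    have q2 : (b2 - L) * (L * (1 - κ) - y) = 0 := by
      rw [q0'] at q1
      linear_combination q1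
    rcases mul_eq_zero.mp q2 with h1 | h1
    · apply hLb; linarith
    · have h2 : |y| = |L| * (κ - 1) := by
        have : y = -(L * (κ - 1)) := by linarith
        rw [this, abs_neg, abs_mul, abs_of_pos (by linarith : (0 : ℤ) < κ - 1)]
      have h3 : 1 ≤ |L| := Int.one_le_abs hL0
      nlinarith

/-- classification of the hits of `a f` -/
theorem fa_cls {E κ α b2 y D t2 L : ℤ} (hk : 1 < κ)
    (hD : D ≠ 0)
    (hE : blC 1 (-(κ * (b2 - y))) (-y) 0 (-α) (-(D * (1 - κ)) + α * (b2 - y))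
      (-D + α * b2) (D * b2 - α * b2 * (b2 - y)) < |E|)
    (ht' : t2 ≠ b2 - κ * b2)
    (h : E * ((b2 - t2) * L - (b2 - t2) * y - κ * L * (b2 - y)) + D * (t2 - L * (1 - κ)) -
      α * (b2 - L) * (t2 - y) = 0) :
    (y ≠ b2 ∧ (D - α * (b2 - y)) * t2 =
      E * κ * y * (b2 - y) + D * y * (1 - κ) - α * (b2 - y) * y) ∨
      |b2 - t2| ≤ κ * |b2 - y| * (1 + |y|) := by
  by_cases hv : L - y = 0
  · left
    have hLy : L = y := by linarith
    have h1 : (D - α * (b2 - y)) * t2 =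
        E * κ * y * (b2 - y) + D * y * (1 - κ) - α * (b2 - y) * y := by
      rw [hLy] at h; linear_combination h
    refine ⟨?_, h1⟩
    rintro rfl
    apply ht'
    apply mul_left_cancel₀ hD
    linear_combination h1
  right
  by_cases hu : (b2 - t2) - κ * (b2 - y) = 0
  · have h1 : b2 - t2 = κ * (b2 - y) := by linarith
    rw [h1, abs_mul, abs_of_pos (by linarith : (0 : ℤ) < κ)]
    have : 0 ≤ |y| := abs_nonneg _
    have h2 : 0 ≤ κ * |b2 - y| := by positivity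
    nlinarith
  · have hb := bl 1 (-(κ * (b2 - y))) (-y) 0 (-α) (-(D * (1 - κ)) + α * (b2 - y))
      (-D + α * b2) (D * b2 - α * b2 * (b2 - y)) one_ne_zero E L
      (b2 - t2) hE (by intro h'; apply hu; linarith) (by intro h'; apply hv; linarith)
      (by linear_combination h)
    obtain ⟨q1, _⟩ := hb
    have q2 : (b2 - t2) * (L - y) = κ * (b2 - y) * L := by linear_combination q1
    have q3 : |b2 - t2| * |L - y| = κ * |b2 - y| * |L| := by
      rw [← abs_mul, q2, abs_mul, abs_mul, abs_of_pos (by linarith : (0 : ℤ) < κ)]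
    have q4 : |L| ≤ |L - y| + |y| := by
      have := abs_add_le (L - y) y
      rwa [sub_add_cancel] at this
    have q5 : 1 ≤ |L - y| := Int.one_le_abs hv
    have q6 : |L| ≤ (1 + |y|) * |L - y| := by
      have : 0 ≤ |y| := abs_nonneg _
      nlinarith
    have q7 : |b2 - t2| * |L - y| ≤ (κ * |b2 - y| * (1 + |y|)) * |L - y| := by
      rw [q3]
      have : 0 ≤ κ * |b2 - y| := by positivity
      calc κ * |b2 - y| * |L| ≤ κ * |b2 - y| * ((1 + |y|) * |L - y|) :=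
            mul_le_mul_of_nonneg_left q6 this
        _ = _ := by ring
    exact le_of_mul_le_mul_right q7 (by linarith)

/-- both arms cannot be hit -/
theorem fafc_excl {E κ α b2 y D y' D' t2 : ℤ} (hk : 2 < κ) (hα : α ≠ 0)
    (hD : D ≠ 0) (hy : y ≠ 0) (hyb : y ≠ b2) (hy' : y' ≠ 0)
    (hl : |α * (b2 - y') * y'| < κ - 1)
    (h1 : D * t2 = E * κ * y * (b2 - y) + D * y * (1 - κ))
    (h2 : (y' ≠ b2 ∧ (D' - α * (b2 - y')) * t2 =
      E * κ * y' * (b2 - y') + D' * y' * (1 - κ) - α * (b2 - y') * y') ∨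
      |b2 - t2| ≤ κ * |b2 - y'| * (1 + |y'|))
    (hE1 : |D| * (|b2| + κ * |b2 - y'| * (1 + |y'|) + |y| * κ) < |E|)
    (hE2 : |D * ((1 - κ) * ((D' - α * (b2 - y')) * y - D' * y') + α * (b2 - y') * y')| < |E|) :
    False := by
  rcases h2 with ⟨hyb', h2⟩ | h2
  · have h3 : (κ * ((D' - α * (b2 - y')) * (y * (b2 - y)) - D * (y' * (b2 - y')))) * E +
        D * ((1 - κ) * ((D' - α * (b2 - y')) * y - D' * y') + α * (b2 - y') * y') = 0 := by
      linear_combination -(D' - α * (b2 - y')) * h1 + D * h2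
    obtain ⟨_, h4⟩ := lin_large hE2 h3
    rcases mul_eq_zero.mp h4 with h5 | h5
    · exact hD h5
    · have h6 : (κ - 1) ∣ α * (b2 - y') * y' :=
        ⟨(D' - α * (b2 - y')) * y - D' * y', by linear_combination h5⟩
      have h7 : α * (b2 - y') * y' ≠ 0 :=
        mul_ne_zero (mul_ne_zero hα (fun h => hyb' (by linarith))) hy'
      have := Int.le_of_dvd (abs_pos.mpr h7) ((dvd_abs _ _).mpr h6)
      linarith
  · -- `E` is bounded
    have h3 : E * (κ * y * (b2 - y)) = D * (t2 - y * (1 - κ)) := by linear_combination -h1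
    have h4 : |E| ≤ |E| * |κ * y * (b2 - y)| := by
      apply le_mul_of_one_le_right (abs_nonneg _)
      apply Int.one_le_abs
      exact mul_ne_zero (mul_ne_zero (by linarith) hy) (fun h => hyb (by linarith))
    rw [← abs_mul, h3, abs_mul] at h4
    have h5 : |t2 - y * (1 - κ)| ≤ |b2| + κ * |b2 - y'| * (1 + |y'|) + |y| * κ := by
      have a1 : t2 - y * (1 - κ) = (b2 + y * (κ - 1)) - (b2 - t2) := by ring
      rw [a1]
      have a2 := abs_sub (b2 + y * (κ - 1)) (b2 - t2)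
      have a3 := abs_add_le b2 (y * (κ - 1))
      rw [abs_mul, abs_of_pos (by linarith : (0 : ℤ) < κ - 1)] at a3
      have a4 : |y| * (κ - 1) ≤ |y| * κ := mul_le_mul_of_nonneg_left (by linarith) (abs_nonneg _)
      linarith
    have h6 := mul_le_mul_of_nonneg_left h5 (abs_nonneg D)
    linarith

/-- the line `t t'` never hits `c f` -/
theorem ttc_excl {E κ b2 D t2 L : ℤ}
    (hE : blC 1 (-(κ * (b2 - 0))) (-0) 0 0 (-(D * (1 - κ))) (-D) (D * b2) < |E|)
    (hL0 : L ≠ 0) (ht' : t2 ≠ b2 - κ * b2)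
    (h : E * ((b2 - t2) * L - (b2 - t2) * 0 - κ * L * (b2 - 0)) + D * (t2 - L * (1 - κ)) = 0) :
    False := by
  have hu : 1 * (b2 - t2) + -(κ * (b2 - 0)) ≠ 0 := by
    intro h'; apply ht'; linarith
  obtain ⟨q1, _⟩ := bl 1 (-(κ * (b2 - 0))) (-0) 0 0 (-(D * (1 - κ))) (-D) (D * b2) one_ne_zero E L
      (b2 - t2) hE hu (by intro h'; apply hL0; linarith) (by linear_combination h)
  have : L * (1 * (b2 - t2) + -(κ * (b2 - 0))) = 0 := by linear_combination q1
  rcases mul_eq_zero.mp this with h1 | h1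
  · exact hL0 h1
  · exact hu h1

/-- the line `t t'` never hits `a f` -/
theorem tta_excl {E κ α b2 D t2 L : ℤ}
    (hE : blC 1 (-(κ * (b2 - 0))) (-0) 0 (-α) (-(D * (1 - κ)) + α * (b2 - 0))
      (-D + α * b2) (D * b2 - α * b2 * (b2 - 0)) < |E|)
    (hL0 : L ≠ 0) (ht' : t2 ≠ b2 - κ * b2)
    (h : E * ((b2 - t2) * L - (b2 - t2) * 0 - κ * L * (b2 - 0)) + D * (t2 - L * (1 - κ)) -
      α * (b2 - L) * (t2 - 0) = 0) : False := by
  have hu : 1 * (b2 - t2) + -(κ * (b2 - 0)) ≠ 0 := by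
    intro h'; apply ht'; linarith
  obtain ⟨q1, _⟩ := bl 1 (-(κ * (b2 - 0))) (-0) 0 (-α) (-(D * (1 - κ)) + α * (b2 - 0))
      (-D + α * b2) (D * b2 - α * b2 * (b2 - 0)) one_ne_zero E L
      (b2 - t2) hE hu (by intro h'; apply hL0; linarith) (by linear_combination h)
  have : L * (1 * (b2 - t2) + -(κ * (b2 - 0))) = 0 := by linear_combination q1
  rcases mul_eq_zero.mp this with h1 | h1
  · exact hL0 h1
  · exact hu h1

/-- a near line meets `b e` only if it is horizontal -/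
theorem near_be {E b1 b2 u1 u2 v1 v2 z1 z2 : ℤ} (hb2 : b2 ≠ 0)
    (hF : (v1 - u1) * (b2 - u2) ≠ (v2 - u2) * (b1 - u1))
    (hbig : v2 ≠ u2 → |b2 * ((v1 - u1) * (b2 - u2) - (v2 - u2) * (b1 - u1))| <
      |(v2 - u2) * E + (b2 * (v1 - u1) - (v2 - u2) * b1)|)
    (hz : (E - b1) * (z2 - b2) = (0 - b2) * (z1 - b1))
    (hc : (v1 - u1) * (z2 - u2) = (v2 - u2) * (z1 - u1)) : v2 = u2 ∧ z2 = u2 := by
  have h1 : (z2 - b2) * ((v2 - u2) * E + (b2 * (v1 - u1) - (v2 - u2) * b1)) =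
      -(b2 * ((v1 - u1) * (b2 - u2) - (v2 - u2) * (b1 - u1))) := by
    linear_combination (v2 - u2) * hz + b2 * hc
  have h2 : b2 * ((v1 - u1) * (b2 - u2) - (v2 - u2) * (b1 - u1)) ≠ 0 :=
    mul_ne_zero hb2 (fun h => hF (by linarith))
  have h3 : v2 = u2 := by
    by_contra hne
    have h4 := hbig hne
    have h5 : z2 - b2 ≠ 0 := by
      intro h; rw [h, zero_mul] at h1; apply h2; linarith
    have h6 : |b2 * ((v1 - u1) * (b2 - u2) - (v2 - u2) * (b1 - u1))| =
        |z2 - b2| * |(v2 - u2) * E + (b2 * (v1 - u1) - (v2 - u2) * b1)| := by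
      rw [← abs_mul, h1, abs_neg]
    have h7 : 1 ≤ |z2 - b2| := Int.one_le_abs h5
    have h8 := le_mul_of_one_le_left
      (abs_nonneg ((v2 - u2) * E + (b2 * (v1 - u1) - (v2 - u2) * b1))) h7
    linarith
  refine ⟨h3, ?_⟩
  rw [h3] at hc hF
  have h4 : v1 - u1 ≠ 0 := by
    intro h; apply hF; rw [h]; ring
  have h5 : (v1 - u1) * (z2 - u2) = 0 := by rw [hc]; ring
  rcases mul_eq_zero.mp h5 with h6 | h6
  · exact absurd h6 h4
  · linarith

/-- a near line meets the line through `(p, 0)` and `f` only if it is horizontal -/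
theorem near_pf {p f1 f2 u1 u2 v1 v2 z1 z2 : ℤ} (hf2 : f2 ≠ 0)
    (hF : (v1 - u1) * (0 - u2) ≠ (v2 - u2) * (p - u1))
    (hbig : v2 ≠ u2 → |((v1 - u1) * u2 - (v2 - u2) * (u1 - p)) * f2| <
      |(v1 - u1) * f2 - (v2 - u2) * (f1 - p)|)
    (hz : (z1 - p) * f2 = z2 * (f1 - p))
    (hc : (v1 - u1) * (z2 - u2) = (v2 - u2) * (z1 - u1)) : v2 = u2 ∧ z2 = u2 := by
  have h1 : z2 * ((v1 - u1) * f2 - (v2 - u2) * (f1 - p)) =
      ((v1 - u1) * u2 - (v2 - u2) * (u1 - p)) * f2 := by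
    linear_combination f2 * hc + (v2 - u2) * hz
  have h2 : ((v1 - u1) * u2 - (v2 - u2) * (u1 - p)) * f2 ≠ 0 :=
    mul_ne_zero (fun h => hF (by linarith)) hf2
  have h3 : v2 = u2 := by
    by_contra hne
    have h4 := hbig hne
    have h5 : z2 ≠ 0 := by
      intro h; rw [h, zero_mul] at h1; exact h2 h1.symm
    have h7 : 1 ≤ |z2| := Int.one_le_abs h5
    have h8 := le_mul_of_one_le_left
      (abs_nonneg ((v1 - u1) * f2 - (v2 - u2) * (f1 - p))) h7
    rw [← abs_mul, h1] at h8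
    linarith
  refine ⟨h3, ?_⟩
  rw [h3] at hc hF
  have h4 : v1 - u1 ≠ 0 := by
    intro h; apply hF; rw [h]; ring
  have h5 : (v1 - u1) * (z2 - u2) = 0 := by rw [hc]; ring
  rcases mul_eq_zero.mp h5 with h6 | h6
  · exact absurd h6 h4
  · linarith

end Pool.Agent.K4L
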