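import Pool.Agent.K4L.BL
import Pool.Agent.K4L.K3UG1A

/-!
# K3U, node gamma1: the kill at `P = g e ∩ t t2`, arithmetic

Coordinates of a point `w`: `X w = w.1 b2 - w.2 b1`, `Y w = w.2`. Then `b = (0, b2)`,
`e = (ε b2, 0)`, `g = (0, G b2)`, `P = (κ ε b2, (1 - κ) G b2)`, `t = (τ b2, 0)`, `t2 = (0, T)`,
`t3 = (k ε b2, (1 - k) G b2)`. A point `(ζ, z)` is on `P b` iff `ζ ((1 - κ) G - 1) = (z - b2) κ ε`
and on `P c` iff `ζ (1 - κ) G = z κ ε`.
-/

namespace Pool.Agent.K4L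

section
variable {b2 ε κ G k ζ z x y p : ℤ}

/-- `z t3` does not hit `P b` -/
theorem pk_b (hb2 : b2 ≠ 0) (hε : ε ≠ 0) (hp : Prime p) (hpε : p ∣ ε) (hκ0 : κ ≠ 0)
    (hκ : ¬ p ∣ 1 - κ) (hGκ : ¬ p ∣ G * (1 - κ) - 1) (hx : ¬ p ∣ x) (hk : k ≠ κ)
    (hG : blC (-(ε * b2)) (κ * ε * b2 + (1 - κ) * x) (κ * ε * b2 * x) (-(κ * ε * b2 * x))
      (ε * b2) (-(κ * ε * y + x)) (-(κ * ε * ε * b2 * (b2 - y))) (κ * ε * b2 * x) < |G|)
    (hz : ζ * ((1 - κ) * G - 1) = (z - b2) * (κ * ε))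
    (h : (ζ - x) * ((1 - k) * (G * b2) - y) = (z - y) * (k * ε * b2 - x)) : False := by
  have ha : -(ε * b2) ≠ 0 := neg_ne_zero.mpr (mul_ne_zero hε hb2)
  obtain ⟨m, hm⟩ := hpε
  have hu : -(ε * b2) * k + (κ * ε * b2 + (1 - κ) * x) ≠ 0 := by
    intro h1
    have h2 : p ∣ (1 - κ) * x := ⟨m * b2 * k - κ * m * b2, by rw [hm] at h1; linear_combination h1⟩
    exact (hp.dvd_or_dvd h2).elim hκ hx
  have hE : (-(ε * b2) * ζ * k + (κ * ε * b2 + (1 - κ) * x) * ζ + κ * ε * b2 * x * k +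
      -(κ * ε * b2 * x)) * G + (ε * b2 * ζ * k + -(κ * ε * y + x) * ζ +
      -(κ * ε * ε * b2 * (b2 - y)) * k + κ * ε * b2 * x) = 0 := by
    linear_combination (κ * ε) * h - (k * ε * b2 - x) * hz
  have hv : -(ε * b2) * ζ + κ * ε * b2 * x ≠ 0 := by
    intro h1
    have h2 : ζ = κ * x := by
      apply mul_left_cancel₀ (mul_ne_zero hε hb2)
      linear_combination -h1
    rw [h2] at hE
    have h3 : G * x * (1 - κ) * (x - ε * b2) + (ε * k * b2 * (x - ε * (b2 - y)) -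
        x * (κ * ε * y + x) + ε * b2 * x) = 0 := by
      apply mul_left_cancel₀ hκ0
      linear_combination hE
    have h4 : p ∣ x * (x * (G * (1 - κ) - 1)) := by
      refine ⟨G * x * (1 - κ) * m * b2 - m * k * b2 * (x - ε * (b2 - y)) + x * κ * m * y -
        m * b2 * x, ?_⟩
      rw [hm] at h3 ⊢
      linear_combination h3
    rcases hp.dvd_or_dvd h4 with h5 | h5
    · exact hx h5
    · exact (hp.dvd_or_dvd h5).elim hx hGκ
  obtain ⟨q1, q0⟩ := bl _ _ _ _ _ _ _ _ ha G ζ k hG hu hv hE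
  have hd : ε * (b2 - y) - x ≠ 0 := by
    intro h1
    apply hx
    exact ⟨m * (b2 - y), by rw [hm] at h1; linear_combination -h1⟩
  have h1 : κ * ((ε * (b2 - y) - x) * (ζ - ε * b2 * k)) = 0 := by
    linear_combination q1 + q0
  have h2 : ζ = ε * b2 * k := by
    rcases mul_eq_zero.mp h1 with h | h
    · exact absurd h hκ0
    · rcases mul_eq_zero.mp h with h | h
      · exact absurd h hd
      · linarith
  rw [h2] at q1
  have h3 : ε * b2 * ((k - κ) * (x - ε * b2 * k)) = 0 := by linear_combination q1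
  rcases mul_eq_zero.mp h3 with h | h
  · exact mul_ne_zero hε hb2 h
  · rcases mul_eq_zero.mp h with h | h
    · exact hk (by linarith)
    · apply hx
      exact ⟨m * b2 * k, by rw [hm] at h; linear_combination h⟩

/-- `β t3` does not hit `P c` -/
theorem pk_c (hb2 : b2 ≠ 0) (hε : ε ≠ 0) (hp : Prime p) (hpε : p ∣ ε) (hκ0 : κ ≠ 0)
    (hκ : ¬ p ∣ 1 - κ) (hGp : ¬ p ∣ G) (hx : ¬ p ∣ x) (hy : y ≠ 0) (hk : k ≠ κ)
    (hG : blC (-(ε * b2)) (κ * ε * b2 + (1 - κ) * x) (κ * ε * b2 * x) (-(κ * ε * b2 * x))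
      0 (-(κ * ε * y)) (κ * ε * ε * b2 * y) 0 < |G|)
    (hz : ζ * ((1 - κ) * G) = z * (κ * ε))
    (h : (ζ - x) * ((1 - k) * (G * b2) - y) = (z - y) * (k * ε * b2 - x)) : False := by
  have ha : -(ε * b2) ≠ 0 := neg_ne_zero.mpr (mul_ne_zero hε hb2)
  obtain ⟨m, hm⟩ := hpε
  have hu : -(ε * b2) * k + (κ * ε * b2 + (1 - κ) * x) ≠ 0 := by
    intro h1
    have h2 : p ∣ (1 - κ) * x := ⟨m * b2 * k - κ * m * b2, by rw [hm] at h1; linear_combination h1⟩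
    exact (hp.dvd_or_dvd h2).elim hκ hx
  have hE : (-(ε * b2) * ζ * k + (κ * ε * b2 + (1 - κ) * x) * ζ + κ * ε * b2 * x * k +
      -(κ * ε * b2 * x)) * G + (0 * ζ * k + -(κ * ε * y) * ζ +
      κ * ε * ε * b2 * y * k + 0) = 0 := by
    linear_combination (κ * ε) * h - (k * ε * b2 - x) * hz
  have hv : -(ε * b2) * ζ + κ * ε * b2 * x ≠ 0 := by
    intro h1
    have h2 : ζ = κ * x := by
      apply mul_left_cancel₀ (mul_ne_zero hε hb2)
      linear_combination -h1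
    rw [h2] at hE
    have h3 : G * x * (1 - κ) * (x - ε * b2) + ε * y * (ε * b2 * k - κ * x) = 0 := by
      apply mul_left_cancel₀ hκ0
      linear_combination hE
    have h4 : p ∣ G * (x * (x * (1 - κ))) := by
      refine ⟨G * x * (1 - κ) * m * b2 - m * y * (ε * b2 * k - κ * x), ?_⟩
      rw [hm] at h3 ⊢
      linear_combination h3
    rcases hp.dvd_or_dvd h4 with h5 | h5
    · exact hGp h5
    · rcases hp.dvd_or_dvd h5 with h5 | h5
      · exact hx h5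
      · exact (hp.dvd_or_dvd h5).elim hx hκ
  obtain ⟨q1, q0⟩ := bl _ _ _ _ _ _ _ _ ha G ζ k hG hu hv hE
  have h1 : κ * ε * y * (ε * b2 * k - ζ) = 0 := by
    linear_combination q0
  have h2 : ζ = ε * b2 * k := by
    rcases mul_eq_zero.mp h1 with h | h
    · exact absurd h (mul_ne_zero (mul_ne_zero hκ0 hε) hy)
    · linarith
  rw [h2] at q1
  have h3 : ε * b2 * ((k - κ) * (x - ε * b2 * k)) = 0 := by linear_combination q1
  rcases mul_eq_zero.mp h3 with h | h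
  · exact mul_ne_zero hε hb2 h
  · rcases mul_eq_zero.mp h with h | h
    · exact hk (by linarith)
    · apply hx
      exact ⟨m * b2 * k, by rw [hm] at h; linear_combination h⟩

/-- `t t3` hits `P c` -/
theorem pk_cT {τ : ℤ} (hb2 : b2 ≠ 0) (hG : G ≠ 0)
    (hz : ζ * ((1 - κ) * G) = z * (κ * ε))
    (h : (ζ - τ * b2) * ((1 - k) * (G * b2) - 0) = (z - 0) * (k * ε * b2 - τ * b2)) :
    ζ * (ε * k - κ * ε - (1 - κ) * τ) = κ * ε * τ * b2 * (k - 1) := by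
  apply mul_left_cancel₀ (mul_ne_zero hG hb2)
  linear_combination (-(κ * ε)) * h + (k * ε * b2 - τ * b2) * hz

end

section
variable {b2 ε κ G k ζ z τ T : ℤ}

/-- `t2 t3` hits `P b` -/
theorem pk_bS (hb2 : b2 ≠ 0) (hε : ε ≠ 0) (hκ0 : κ ≠ 0) (hκ1 : κ ≠ 1)
    (hQ : τ - κ * ε ≠ 0) (hτε : τ ≠ ε) (hk : k ≠ κ) (hk0 : k ≠ 0)
    (hT : (τ - κ * ε) * T = τ * (1 - κ) * G * b2)
    (hG : blC (-(τ - κ * ε)) (κ * κ * (τ - ε)) (κ * τ * (1 - κ) * ε * b2) 0
      (τ - κ * ε) 0 (-((τ - κ * ε) * κ * ε * b2)) 0 < |G|)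
    (hz : ζ * ((1 - κ) * G - 1) = (z - b2) * (κ * ε))
    (h : (ζ - 0) * ((1 - k) * (G * b2) - T) = (z - T) * (k * ε * b2 - 0)) :
    ((τ - κ * ε) * k = κ * κ * (τ - ε) ∧
      (τ - κ * ε) * ζ = κ * ε * b2 * ((τ - κ * ε) - G * τ * (1 - κ))) ∨
    (τ - κ * ε) * k = G * κ * τ * (1 - κ) := by
  have ha : -(τ - κ * ε) ≠ 0 := neg_ne_zero.mpr hQ
  have h1κ : (1 : ℤ) - κ ≠ 0 := sub_ne_zero.mpr (Ne.symm hκ1)
  have e1 : G * (b2 * ζ * (κ - k)) + b2 * ζ * k - κ * T * ζ - κ * ε * b2 * (b2 - T) * k = 0 := by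
    apply mul_left_cancel₀ hε
    linear_combination (κ * ε) * h - (k * ε * b2) * hz
  have hE : (-(τ - κ * ε) * ζ * k + κ * κ * (τ - ε) * ζ + κ * τ * (1 - κ) * ε * b2 * k + 0) * G +
      ((τ - κ * ε) * ζ * k + 0 * ζ + -((τ - κ * ε) * κ * ε * b2) * k + 0) = 0 := by
    apply mul_left_cancel₀ hb2
    linear_combination (τ - κ * ε) * e1 + κ * (ζ - ε * b2 * k) * hT
  by_cases hu : -(τ - κ * ε) * k + κ * κ * (τ - ε) = 0
  · left
    refine ⟨by linarith, ?_⟩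
    apply mul_left_cancel₀ hk0
    have h2 : k * (τ - κ * ε) = κ * κ * (τ - ε) := by linarith
    linear_combination hE + G * ζ * (h2)
  by_cases hv : -(τ - κ * ε) * ζ + κ * τ * (1 - κ) * ε * b2 = 0
  · right
    have h2 : (τ - κ * ε) * ζ = κ * τ * (1 - κ) * ε * b2 := by linarith
    have h3 : κ * κ * ε * b2 * (τ - ε) ≠ 0 :=
      mul_ne_zero (mul_ne_zero (mul_ne_zero (mul_ne_zero hκ0 hκ0) hε) hb2) (sub_ne_zero.mpr hτε)
    apply mul_left_cancel₀ h3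
    linear_combination (-(τ - κ * ε)) * hE +
      ((-(τ - κ * ε) * k + κ * κ * (τ - ε)) * G + (τ - κ * ε) * k) * h2
  obtain ⟨q1, q0⟩ := bl _ _ _ _ _ _ _ _ ha G ζ k hG hu hv hE
  exfalso
  have h1 : κ * κ * (τ - ε) * (ζ - ε * b2 * k) = 0 := by linear_combination q1 + q0
  have h2 : ζ = ε * b2 * k := by
    rcases mul_eq_zero.mp h1 with h | h
    · exact absurd h (mul_ne_zero (mul_ne_zero hκ0 hκ0) (sub_ne_zero.mpr hτε))
    · linarith
  have h3 : k * ((τ - κ * ε) * (ε * (b2 * (k - κ)))) = 0 := by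
    rw [h2] at q0
    linear_combination q0
  rcases mul_eq_zero.mp h3 with h | h
  · exact hk0 h
  rcases mul_eq_zero.mp h with h | h
  · exact hQ h
  rcases mul_eq_zero.mp h with h | h
  · exact hε h
  rcases mul_eq_zero.mp h with h | h
  · exact hb2 h
  · exact hk (by linarith)

/-- `t2 t3` hits `P c` -/
theorem pk_cS (hb2 : b2 ≠ 0) (hε : ε ≠ 0) (hG : G ≠ 0)
    (hT : (τ - κ * ε) * T = τ * (1 - κ) * G * b2)
    (hz : ζ * ((1 - κ) * G) = z * (κ * ε))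
    (h : (ζ - 0) * ((1 - k) * (G * b2) - T) = (z - T) * (k * ε * b2 - 0)) :
    ζ * (κ * κ * (τ - ε) - (τ - κ * ε) * k) = -(κ * ε * τ * (1 - κ) * b2 * k) := by
  have e1 : G * (b2 * ζ * (κ - k)) - κ * T * ζ + κ * ε * b2 * T * k = 0 := by
    apply mul_left_cancel₀ hε
    linear_combination (κ * ε) * h - (k * ε * b2) * hz
  apply mul_left_cancel₀ (mul_ne_zero hG hb2)
  linear_combination (τ - κ * ε) * e1 + κ * (ζ - ε * b2 * k) * hT

end

end Pool.Agent.K4L
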