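import Pool.Agent.K4L.K3UPA
import Pool.Agent.K4L.K3UG1X

/-!
# K3U, node gamma1: the kill at `P = g e ∩ t t2`, arithmetic, part 2
-/

namespace Pool.Agent.K4L

section
variable {b2 ε κ G k ζ z x y x' y' τ T s : ℤ}

/-- a fixed pair does not hit `P b` -/
theorem pk_nb (hκ1 : κ ≠ 1) (hxx : x' ≠ x)
    (hG : |-(x' - x) - κ * ε * (y' - y)| +
      |κ * ε * (x' - x) * (b2 - y) + κ * ε * (y' - y) * x| < |G|)
    (hz : ζ * ((1 - κ) * G - 1) = (z - b2) * (κ * ε))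
    (h : (x' - x) * (z - y) = (y' - y) * (ζ - x)) : ζ = 0 := by
  have hA : (x' - x) * (1 - κ) ≠ 0 := mul_ne_zero (sub_ne_zero.mpr hxx)
    (sub_ne_zero.mpr (Ne.symm hκ1))
  have h1 := lin2 (A := (x' - x) * (1 - κ)) (B := 0) (C := -(x' - x) - κ * ε * (y' - y))
    (D := κ * ε * (x' - x) * (b2 - y) + κ * ε * (y' - y) * x) (G := G) (k := ζ) hA
    (by rw [abs_zero, add_zero, mul_one]; exact hG)
    (by linear_combination (κ * ε) * h + (x' - x) * hz)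
  rcases mul_eq_zero.mp (by linarith [h1.1] : (x' - x) * (1 - κ) * ζ = 0) with h2 | h2
  · exact absurd h2 hA
  · exact h2

/-- a fixed pair does not hit `P c` -/
theorem pk_nc (hκ1 : κ ≠ 1) (hxx : x' ≠ x)
    (hG : |-(κ * ε * (y' - y))| + |-(κ * ε * y * (x' - x)) + κ * ε * x * (y' - y)| < |G|)
    (hz : ζ * ((1 - κ) * G) = z * (κ * ε))
    (h : (x' - x) * (z - y) = (y' - y) * (ζ - x)) : ζ = 0 := by
  have hA : (x' - x) * (1 - κ) ≠ 0 := mul_ne_zero (sub_ne_zero.mpr hxx)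
    (sub_ne_zero.mpr (Ne.symm hκ1))
  have h1 := lin2 (A := (x' - x) * (1 - κ)) (B := 0) (C := -(κ * ε * (y' - y)))
    (D := -(κ * ε * y * (x' - x)) + κ * ε * x * (y' - y)) (G := G) (k := ζ) hA
    (by rw [abs_zero, add_zero, mul_one]; exact hG)
    (by linear_combination (κ * ε) * h + (x' - x) * hz)
  rcases mul_eq_zero.mp (by linarith [h1.1] : (x' - x) * (1 - κ) * ζ = 0) with h2 | h2
  · exact absurd h2 hA
  · exact h2

/-- `t2 β` does not hit `P b` -/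
theorem pk_2b (hb2 : b2 ≠ 0) (hε : ε ≠ 0) (hκ0 : κ ≠ 0) (hκ1 : κ ≠ 1) (hτ : τ ≠ 0)
    (hx : x ≠ 0) (hQ : τ - κ * ε ≠ 0) (hA : x * (τ - κ * ε) + κ * ε * τ * b2 ≠ 0)
    (hno : τ * (b2 - y) ≠ x)
    (hT : (τ - κ * ε) * T = τ * (1 - κ) * G * b2)
    (hG : |-((τ - κ * ε) * (x + κ * ε * y))| * (1 + |-((1 - κ) * (κ * ε * τ * b2 * x))|) +
      |(τ - κ * ε) * (κ * ε * b2 * x)| < |G|)
    (hz : ζ * ((1 - κ) * G - 1) = (z - b2) * (κ * ε))
    (h : (x - 0) * (z - T) = (y - T) * (ζ - 0)) : False := by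
  have h1κ : (1 : ℤ) - κ ≠ 0 := sub_ne_zero.mpr (Ne.symm hκ1)
  obtain ⟨q1, q0⟩ := lin2 (A := (1 - κ) * (x * (τ - κ * ε) + κ * ε * τ * b2))
    (B := -((1 - κ) * (κ * ε * τ * b2 * x))) (C := -((τ - κ * ε) * (x + κ * ε * y)))
    (D := (τ - κ * ε) * (κ * ε * b2 * x)) (G := G) (k := ζ) (mul_ne_zero h1κ hA) hG
    (by
      linear_combination (κ * ε * (τ - κ * ε)) * h + (x * (τ - κ * ε)) * hz +
        (κ * ε * (x - ζ)) * hT)
  have e1 : ζ * (x * (τ - κ * ε) + κ * ε * τ * b2) = κ * ε * τ * b2 * x := by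
    apply mul_left_cancel₀ h1κ
    linear_combination q1
  have e2 : (x + κ * ε * y) * ζ = κ * ε * b2 * x := by
    apply mul_left_cancel₀ hQ
    linear_combination -q0
  have hζ : ζ ≠ 0 := by
    rintro rfl
    rw [zero_mul] at e1
    exact mul_ne_zero (mul_ne_zero (mul_ne_zero (mul_ne_zero hκ0 hε) hτ) hb2) hx e1.symm
  have e3 : ζ * (κ * ε * (τ * y + x - τ * b2)) = 0 := by
    linear_combination τ * e2 - e1
  rcases mul_eq_zero.mp e3 with h1 | h1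
  · exact hζ h1
  rcases mul_eq_zero.mp h1 with h1 | h1
  · exact mul_ne_zero hκ0 hε h1
  · exact hno (by linarith)

/-- `t2 β` does not hit `P c` -/
theorem pk_2c (hb2 : b2 ≠ 0) (hε : ε ≠ 0) (hκ0 : κ ≠ 0) (hκ1 : κ ≠ 1) (hτ : τ ≠ 0)
    (hx : x ≠ 0) (hy : y ≠ 0) (hQ : τ - κ * ε ≠ 0)
    (hA : x * (τ - κ * ε) + κ * ε * τ * b2 ≠ 0)
    (hT : (τ - κ * ε) * T = τ * (1 - κ) * G * b2)
    (hG : |-(κ * ε * (τ - κ * ε) * y)| * (1 + |-((1 - κ) * (κ * ε * τ * b2 * x))|) < |G|)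
    (hz : ζ * ((1 - κ) * G) = z * (κ * ε))
    (h : (x - 0) * (z - T) = (y - T) * (ζ - 0)) : False := by
  have h1κ : (1 : ℤ) - κ ≠ 0 := sub_ne_zero.mpr (Ne.symm hκ1)
  obtain ⟨q1, q0⟩ := lin2 (A := (1 - κ) * (x * (τ - κ * ε) + κ * ε * τ * b2))
    (B := -((1 - κ) * (κ * ε * τ * b2 * x))) (C := -(κ * ε * (τ - κ * ε) * y))
    (D := 0) (G := G) (k := ζ) (mul_ne_zero h1κ hA) (by rw [abs_zero, add_zero]; exact hG)
    (by
      linear_combination (κ * ε * (τ - κ * ε)) * h + (x * (τ - κ * ε)) * hz +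
        (κ * ε * (x - ζ)) * hT)
  have hζ : ζ = 0 := by
    have : κ * ε * (τ - κ * ε) * y * ζ = 0 := by linear_combination -q0
    rcases mul_eq_zero.mp this with h1 | h1
    · exact absurd h1 (mul_ne_zero (mul_ne_zero (mul_ne_zero hκ0 hε) hQ) hy)
    · exact h1
  rw [hζ, mul_zero, zero_add, neg_eq_zero] at q1
  exact mul_ne_zero h1κ (mul_ne_zero (mul_ne_zero (mul_ne_zero (mul_ne_zero hκ0 hε) hτ) hb2) hx) q1

/-- far `t3`: `t t3` does not hit `P c` -/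
theorem pk_cT_far (hb2 : b2 ≠ 0) (hε : ε ≠ 0) (hκ0 : κ ≠ 0) (hκ1 : κ ≠ 1) (hτ : τ ≠ 0)
    (hτε : τ ≠ ε)
    (hk : |κ * ε * τ * b2 * ((κ - 1) * (ε - τ))| + |κ * ε + (1 - κ) * τ| < |k|)
    (h : ζ * (ε * k - κ * ε - (1 - κ) * τ) = κ * ε * τ * b2 * (k - 1)) : False := by
  have h1 : (ε * k - κ * ε - (1 - κ) * τ) * (ε * ζ - κ * ε * τ * b2) =
      κ * ε * τ * b2 * ((κ - 1) * (ε - τ)) := by linear_combination ε * h
  have hR : κ * ε * τ * b2 * ((κ - 1) * (ε - τ)) ≠ 0 :=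
    mul_ne_zero (mul_ne_zero (mul_ne_zero (mul_ne_zero hκ0 hε) hτ) hb2)
      (mul_ne_zero (sub_ne_zero.mpr hκ1) (sub_ne_zero.mpr (Ne.symm hτε)))
  have h2 : ε * ζ - κ * ε * τ * b2 ≠ 0 := by
    intro h3; rw [h3, mul_zero] at h1; exact hR h1.symm
  have h3 : |ε * k - κ * ε - (1 - κ) * τ| ≤ |κ * ε * τ * b2 * ((κ - 1) * (ε - τ))| := by
    rw [← h1, abs_mul]
    exact le_mul_of_one_le_right (abs_nonneg _) (Int.one_le_abs h2)
  have h4 : |ε * k| ≤ |ε * k - κ * ε - (1 - κ) * τ| + |κ * ε + (1 - κ) * τ| := by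
    have := abs_add_le (ε * k - κ * ε - (1 - κ) * τ) (κ * ε + (1 - κ) * τ)
    have e : ε * k - κ * ε - (1 - κ) * τ + (κ * ε + (1 - κ) * τ) = ε * k := by ring
    rwa [e] at this
  have h5 : |k| ≤ |ε * k| := by
    rw [abs_mul]; exact le_mul_of_one_le_left (abs_nonneg _) (Int.one_le_abs hε)
  linarith

/-- far `t3`: `t2 t3` does not hit `P c` -/
theorem pk_cS_far (hb2 : b2 ≠ 0) (hε : ε ≠ 0) (hκ0 : κ ≠ 0) (hκ1 : κ ≠ 1) (hτ : τ ≠ 0)
    (hτε : τ ≠ ε)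
    (hk : |κ * ε * τ * (1 - κ) * b2 * (κ * κ * (τ - ε))| + |κ * κ * (τ - ε)| <
      |(τ - κ * ε) * k|)
    (h : ζ * (κ * κ * (τ - ε) - (τ - κ * ε) * k) = -(κ * ε * τ * (1 - κ) * b2 * k)) : False := by
  have h1 : ((τ - κ * ε) * k - κ * κ * (τ - ε)) * ((τ - κ * ε) * ζ - κ * ε * τ * (1 - κ) * b2) =
      κ * ε * τ * (1 - κ) * b2 * (κ * κ * (τ - ε)) := by linear_combination -(τ - κ * ε) * h
  have hR : κ * ε * τ * (1 - κ) * b2 * (κ * κ * (τ - ε)) ≠ 0 :=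
    mul_ne_zero (mul_ne_zero (mul_ne_zero (mul_ne_zero (mul_ne_zero hκ0 hε) hτ)
      (sub_ne_zero.mpr (Ne.symm hκ1))) hb2)
      (mul_ne_zero (mul_ne_zero hκ0 hκ0) (sub_ne_zero.mpr hτε))
  have h2 : (τ - κ * ε) * ζ - κ * ε * τ * (1 - κ) * b2 ≠ 0 := by
    intro h3; rw [h3, mul_zero] at h1; exact hR h1.symm
  have h3 : |(τ - κ * ε) * k - κ * κ * (τ - ε)| ≤
      |κ * ε * τ * (1 - κ) * b2 * (κ * κ * (τ - ε))| := by
    rw [← h1, abs_mul]
    exact le_mul_of_one_le_right (abs_nonneg _) (Int.one_le_abs h2)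
  have h4 : |(τ - κ * ε) * k| ≤ |(τ - κ * ε) * k - κ * κ * (τ - ε)| + |κ * κ * (τ - ε)| := by
    have := abs_add_le ((τ - κ * ε) * k - κ * κ * (τ - ε)) (κ * κ * (τ - ε))
    rwa [sub_add_cancel] at this
  linarith

/-- `S ∥ P c` and `t t3` hits `P c` -/
theorem pk_S1T (hκ1 : κ ≠ 1) (hτ : τ ≠ 0)
    (hk : (τ - κ * ε) * k = κ * κ * (τ - ε))
    (h : ζ * (ε * k - κ * ε - (1 - κ) * τ) = κ * ε * τ * b2 * (k - 1)) :
    τ * ζ = κ * ε * b2 * ((κ + 1) * τ - κ * ε) := by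
  apply mul_left_cancel₀ (mul_ne_zero (sub_ne_zero.mpr hκ1) hτ)
  linear_combination (τ - κ * ε) * h - (ε * ζ - κ * ε * τ * b2) * hk

/-- a quadratic polynomial with nonzero leading coefficient -/
theorem quad_large {a2 a1 a0 G : ℤ} (ha : a2 ≠ 0) (hG : |a1| + |a0| < |G|)
    (h : a2 * G * G + a1 * G + a0 = 0) : False := by
  have h1 : 1 ≤ |a2| := Int.one_le_abs ha
  have hG0 : 0 ≤ |a1| + |a0| := by positivity
  have hG1 : 1 ≤ |G| := by linarith
  have h2 : |a2| * |G| * |G| = |a1 * G + a0| := by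
    rw [← abs_mul, ← abs_mul, ← abs_neg (a2 * G * G)]
    congr 1
    linarith
  have h3 : |a1 * G + a0| ≤ |a1| * |G| + |a0| := by
    have := abs_add_le (a1 * G) a0
    rwa [abs_mul] at this
  have h4 : |a0| ≤ |a0| * |G| := le_mul_of_one_le_right (abs_nonneg _) hG1
  have h5 : |G| * |G| ≤ |a2| * |G| * |G| := by nlinarith
  have h6 : (|a1| + |a0|) * |G| < |G| * |G| := mul_lt_mul_of_pos_right hG (by linarith)
  nlinarith

end

/-- the finish with a kill: `g` is the only covered point of `c v` -/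
theorem fin_winK {R B : Finset Pt} {c v v' e g f : Pt} (hN : NoThreat R B)
    (h1 : ALine R B c v) (h2 : ALine R B c v') (hU : Uncov (insert g R) B c v)
    (hcv : ¬ Col c v v')
    (he : e ∈ R) (heL : ¬ Col c v e) (hg : Col c v g) (hgc : g ≠ c) (hgv : g ≠ v)
    (hf : Col c v' f) (hfc : f ≠ c) (hfv : f ≠ v') (hegf : Col e g f)
    (heB : ∀ z ∈ B, ¬ Col e g z) : Win R B := by
  by_cases hgR : g ∈ R
  · exact win_complete h1 hgR hgc.symm hgv.symm hg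
  by_cases hfR : f ∈ R
  · exact win_complete h2 hfR hfc.symm hfv.symm hf
  have hgB : g ∉ B := fun hh => h1.2.2.2 g hh hg
  have hfB : f ∉ B := fun hh => h2.2.2.2 f hh hf
  have hge : g ≠ e := by rintro rfl; exact heL hg
  -- a point of both lines is `c`
  have hmeet : ∀ z, Col c v z → Col c v' z → z = c := by
    intro z hz hz'
    by_contra hne
    apply hcv
    exact (Col.line_eq_of_two (z := v') h1.ne h2.ne hne hz (Col.refl_left _ _) hz'
      (Col.refl_left _ _)).mpr (Col.refl_right _ _)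
  refine win_force h1 hgR hgB hg (hN.mono (Finset.subset_insert _ _) (Finset.Subset.refl _)) ?_
  intro y hyR hyB hy
  have hyc : y ≠ c := by rintro rfl; exact hyR (Finset.mem_insert_of_mem h1.1)
  have hyg : y ≠ g := by rintro rfl; exact hyR (Finset.mem_insert_self _ _)
  have hyR' : y ∉ R := fun hh => hyR (Finset.mem_insert_of_mem hh)
  have hy2 : ¬ Col c v' y := fun hh => hyc (hmeet y hy hh)
  have hA : ALine (insert g R) (insert y B) c v' := h2.insert (Finset.subset_insert _ _) hy2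
  have hA' : ALine (insert g R) (insert y B) e g := by
    refine ⟨Finset.mem_insert_of_mem he, Finset.mem_insert_self _ _, hge.symm, ?_⟩
    intro z hz hc
    rcases Finset.mem_insert.mp hz with rfl | hz
    · apply heL
      exact (Col.line_eq_of_two (z := e) h1.ne hge.symm hyg hy hg hc (Col.refl_right _ _)).mpr
        (Col.refl_left _ _)
    · exact heB z hz hc
  refine win_double hA hA' (z := f) ?_ ?_ hf hegf ?_ ?_
  · intro hh
    rcases Finset.mem_insert.mp hh with hh | hh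
    · rw [hh] at hf; exact hgc (hmeet g hg hf)
    · exact hfR hh
  · intro hh
    rcases Finset.mem_insert.mp hh with hh | hh
    · rw [hh] at hf; exact hyc (hmeet y hy hf)
    · exact hfB hh
  · exact (hN.mono (Finset.subset_insert g R) (Finset.Subset.refl _)).of_uncov hU
      (Finset.subset_insert _ _) hy hyR hyB
  · rintro ⟨_, hh⟩
    exact hgc (hmeet g hg hh)

end Pool.Agent.K4L
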