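import Pool.Agent.K4L.K3UPB
import Pool.Agent.K4L.K3UG1U

/-!
# K3U, node gamma1: the kill at `P = g e ∩ t t2`
-/

namespace Pool.Agent.K4L

open Filter

/-- the conditions on `G` for the kill at `P` -/
structure PKG (B1 : Finset Pt) (b1 b2 ε τ κ G : ℤ) : Prop where
  c1 : ∀ β ∈ B1, blC (-(ε * b2)) (κ * ε * b2 + (1 - κ) * DX b1 b2 β) (κ * ε * b2 * DX b1 b2 β)
      (-(κ * ε * b2 * DX b1 b2 β)) (ε * b2) (-(κ * ε * β.2 + DX b1 b2 β))
      (-(κ * ε * ε * b2 * (b2 - β.2))) (κ * ε * b2 * DX b1 b2 β) < |G|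
  c2 : ∀ β ∈ B1, blC (-(ε * b2)) (κ * ε * b2 + (1 - κ) * DX b1 b2 β) (κ * ε * b2 * DX b1 b2 β)
      (-(κ * ε * b2 * DX b1 b2 β)) 0 (-(κ * ε * β.2)) (κ * ε * ε * b2 * β.2) 0 < |G|
  c3 : blC (-(τ - κ * ε)) (κ * κ * (τ - ε)) (κ * τ * (1 - κ) * ε * b2) 0
      (τ - κ * ε) 0 (-((τ - κ * ε) * κ * ε * b2)) 0 < |G|
  c4 : ∀ u ∈ B1, ∀ v ∈ B1, |-(DX b1 b2 v - DX b1 b2 u) - κ * ε * (v.2 - u.2)| +
      |κ * ε * (DX b1 b2 v - DX b1 b2 u) * (b2 - u.2) + κ * ε * (v.2 - u.2) * DX b1 b2 u| < |G|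
  c5 : ∀ u ∈ B1, ∀ v ∈ B1, |-(κ * ε * (v.2 - u.2))| +
      |-(κ * ε * u.2 * (DX b1 b2 v - DX b1 b2 u)) + κ * ε * DX b1 b2 u * (v.2 - u.2)| < |G|
  c6 : ∀ β ∈ B1, |-((τ - κ * ε) * (DX b1 b2 β + κ * ε * β.2))| *
      (1 + |-((1 - κ) * (κ * ε * τ * b2 * DX b1 b2 β))|) +
      |(τ - κ * ε) * (κ * ε * b2 * DX b1 b2 β)| < |G|
  c7 : ∀ β ∈ B1, |-(κ * ε * (τ - κ * ε) * β.2)| *
      (1 + |-((1 - κ) * (κ * ε * τ * b2 * DX b1 b2 β))|) < |G|
  c8 : ∀ β ∈ B1, |β.2 * (κ * ε)| < |G|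
  c9 : ∀ β ∈ B1, |-DX b1 b2 β - (β.2 - b2) * (κ * ε)| < |G|
  c10 : |τ - κ * ε| * (|κ * ε * τ * b2 * ((κ - 1) * (ε - τ))| + |κ * ε + (1 - κ) * τ|) < |G|
  c11 : |κ * ε * τ * (1 - κ) * b2 * (κ * κ * (τ - ε))| + |κ * κ * (τ - ε)| < |G|
  c12 : ∀ β ∈ B1, ∀ s ∈ Finset.Icc (-|τ * (1 - κ) * b2|) |τ * (1 - κ) * b2|,
      |DX b1 b2 β * (s - κ * b2) + κ * ε * (s * β.2 + b2 * b2)| + |-(κ * ε * β.2 * b2)| < |G|
  c13 : 3 < |G|
  c14 : |b2| < |G|

theorem ev_PKG (B1 : Finset Pt) (b1 b2 ε τ K0 : ℤ) :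
    ∀ᶠ G : ℤ in cofinite, ∀ κ ∈ Finset.Icc (-K0) K0, PKG B1 b1 b2 ε τ κ G := by
  refine ev_fin _ ?_
  intro κ _
  have e1 : ∀ᶠ G : ℤ in cofinite, ∀ β ∈ B1, blC (-(ε * b2))
      (κ * ε * b2 + (1 - κ) * DX b1 b2 β) (κ * ε * b2 * DX b1 b2 β)
      (-(κ * ε * b2 * DX b1 b2 β)) (ε * b2) (-(κ * ε * β.2 + DX b1 b2 β))
      (-(κ * ε * ε * b2 * (b2 - β.2))) (κ * ε * b2 * DX b1 b2 β) < |G| :=
    ev_fin B1 (fun _ _ => ev_abs _)
  have e2 : ∀ᶠ G : ℤ in cofinite, ∀ β ∈ B1, blC (-(ε * b2))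
      (κ * ε * b2 + (1 - κ) * DX b1 b2 β) (κ * ε * b2 * DX b1 b2 β)
      (-(κ * ε * b2 * DX b1 b2 β)) 0 (-(κ * ε * β.2)) (κ * ε * ε * b2 * β.2) 0 < |G| :=
    ev_fin B1 (fun _ _ => ev_abs _)
  have e4 : ∀ᶠ G : ℤ in cofinite, ∀ u ∈ B1, ∀ v ∈ B1,
      |-(DX b1 b2 v - DX b1 b2 u) - κ * ε * (v.2 - u.2)| +
      |κ * ε * (DX b1 b2 v - DX b1 b2 u) * (b2 - u.2) + κ * ε * (v.2 - u.2) * DX b1 b2 u| < |G| :=
    ev_fin2 B1 B1 (fun _ _ _ _ => ev_abs _)
  have e5 : ∀ᶠ G : ℤ in cofinite, ∀ u ∈ B1, ∀ v ∈ B1, |-(κ * ε * (v.2 - u.2))| +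
      |-(κ * ε * u.2 * (DX b1 b2 v - DX b1 b2 u)) + κ * ε * DX b1 b2 u * (v.2 - u.2)| < |G| :=
    ev_fin2 B1 B1 (fun _ _ _ _ => ev_abs _)
  have e6 : ∀ᶠ G : ℤ in cofinite, ∀ β ∈ B1, |-((τ - κ * ε) * (DX b1 b2 β + κ * ε * β.2))| *
      (1 + |-((1 - κ) * (κ * ε * τ * b2 * DX b1 b2 β))|) +
      |(τ - κ * ε) * (κ * ε * b2 * DX b1 b2 β)| < |G| := ev_fin B1 (fun _ _ => ev_abs _)
  have e7 : ∀ᶠ G : ℤ in cofinite, ∀ β ∈ B1, |-(κ * ε * (τ - κ * ε) * β.2)| *
      (1 + |-((1 - κ) * (κ * ε * τ * b2 * DX b1 b2 β))|) < |G| := ev_fin B1 (fun _ _ => ev_abs _)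
  have e8 : ∀ᶠ G : ℤ in cofinite, ∀ β ∈ B1, |β.2 * (κ * ε)| < |G| :=
    ev_fin B1 (fun _ _ => ev_abs _)
  have e9 : ∀ᶠ G : ℤ in cofinite, ∀ β ∈ B1, |-DX b1 b2 β - (β.2 - b2) * (κ * ε)| < |G| :=
    ev_fin B1 (fun _ _ => ev_abs _)
  have e12 : ∀ᶠ G : ℤ in cofinite, ∀ β ∈ B1,
      ∀ s ∈ Finset.Icc (-|τ * (1 - κ) * b2|) |τ * (1 - κ) * b2|,
      |DX b1 b2 β * (s - κ * b2) + κ * ε * (s * β.2 + b2 * b2)| + |-(κ * ε * β.2 * b2)| < |G| :=
    ev_fin B1 (fun _ _ => ev_fin _ (fun _ _ => ev_abs _))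
  filter_upwards [e1, e2, ev_abs (blC (-(τ - κ * ε)) (κ * κ * (τ - ε))
      (κ * τ * (1 - κ) * ε * b2) 0 (τ - κ * ε) 0 (-((τ - κ * ε) * κ * ε * b2)) 0), e4, e5, e6,
    e7, e8, e9, ev_abs (|τ - κ * ε| * (|κ * ε * τ * b2 * ((κ - 1) * (ε - τ))| +
      |κ * ε + (1 - κ) * τ|)), ev_abs (|κ * ε * τ * (1 - κ) * b2 * (κ * κ * (τ - ε))| +
      |κ * κ * (τ - ε)|), e12, ev_abs 3, ev_abs |b2|] with G h1 h2 h3 h4 h5 h6 h7 h8 h9 h10 h11
      h12 h13 h14
  exact ⟨h1, h2, h3, h4, h5, h6, h7, h8, h9, h10, h11, h12, h13, h14⟩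

/-- collinearity in the coordinates `DX`, `Y` -/
theorem col_X {b1 b2 : ℤ} {u v w : Pt} (h : Col u v w) :
    (DX b1 b2 v - DX b1 b2 u) * (w.2 - u.2) = (v.2 - u.2) * (DX b1 b2 w - DX b1 b2 u) := by
  unfold Col at h
  unfold DX
  linear_combination b2 * h

/-- the points of `P c` -/
theorem on_Pc {b1 b2 ε κ G : ℤ} (hb2 : b2 ≠ 0) {w : Pt}
    (h : Col (G * b1 + κ * (ε - G * b1), (1 - κ) * (G * b2)) (0, 0) w) :
    DX b1 b2 w * ((1 - κ) * G) = w.2 * (κ * ε) := by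
  unfold Col at h
  unfold DX
  simp only at h
  apply mul_left_cancel₀ hb2
  linear_combination b2 * h

/-- the points of `P b` -/
theorem on_Pb {b1 b2 ε κ G : ℤ} (hb2 : b2 ≠ 0) {w : Pt}
    (h : Col (G * b1 + κ * (ε - G * b1), (1 - κ) * (G * b2)) (b1, b2) w) :
    DX b1 b2 w * ((1 - κ) * G - 1) = (w.2 - b2) * (κ * ε) := by
  unfold Col at h
  unfold DX
  simp only at h
  apply mul_left_cancel₀ hb2
  linear_combination b2 * h

/-- the kill at `P`: core statement -/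
theorem pkill_core {R2 B2 B1 B : Finset Pt} {α b1 b2 ε τ G C0 p κ : ℤ} {t2 : Pt}
    (X : GX R2 B2 B1 B α b1 b2 ε τ G C0 t2)
    (hy : ∀ β ∈ B, β.2 ≠ 0) (hp : Prime p) (hpε : p ∣ ε)
    (hpX : ∀ β ∈ B, ¬ p ∣ DX b1 b2 β) (hτp : ¬ p ∣ τ * b2) (hτε : τ ≠ ε)
    (hτno : ∀ β ∈ B, τ * (b2 - β.2) ≠ DX b1 b2 β)
    (hκ0 : κ ≠ 0) (hκ1 : κ ≠ 1) (hpκ : ¬ p ∣ 1 - κ) (hpGκ : ¬ p ∣ G * (1 - κ) - 1)
    (hpG : ¬ p ∣ G) (hce : IsCoprime (G * b1 - ε) (G * b2))
    (hT : (τ - κ * ε) * t2.2 = τ * (1 - κ) * G * b2)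
    (hge : ∀ z, Col (G * b1, G * b2) (ε, 0) z → z ∉ R2 → ∀ u ∈ B2, ∀ v ∈ B2, u ≠ v →
      Col u v z → (∃ r ∈ R2, Col u v r) ∨ (Col t2 (τ, 0) u ∧ Col t2 (τ, 0) v))
    (hmR : ∀ r ∈ R2, ¬ Col t2 (τ, 0) r)
    (D : PKG B1 b1 b2 ε τ κ G)
    (hfork : ∀ i : ℕ, i < B.card + 4 → ((i : ℤ) + 2) ∣ G - 1)
    (hAlt : (∀ ζ, τ * ζ ≠ κ * ε * b2 * ((κ + 1) * τ - κ * ε)) ∨
      ∃ s g', (τ - κ * ε) * s = τ * (1 - κ) * b2 ∧ G - 1 = (b2 - s) * g' ∧ s ≠ b2) :
    Win R2 B2 := by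
  classical
  have F := X.F
  have hb2 := F.hb2
  have hε := F.hε
  have hG0 := F.hG0
  have hGb : G * b2 ≠ 0 := mul_ne_zero hG0 hb2
  have hs2 := X.hs2
  have h1κ : (1 : ℤ) - κ ≠ 0 := sub_ne_zero.mpr (Ne.symm hκ1)
  have hτ0 : τ ≠ 0 := by
    rintro rfl
    apply hτp
    rw [zero_mul]; exact dvd_zero p
  have hQ : τ - κ * ε ≠ 0 := by
    intro h
    apply hτp
    obtain ⟨m, hm⟩ := hpε
    exact ⟨κ * m * b2, by rw [hm] at h; linear_combination b2 * h⟩
  have Dt : DX b1 b2 (τ, 0) = τ * b2 := by unfold DX; simp only; ring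
  have cas : ∀ β ∈ B1, β = (τ, 0) ∨ β ∈ B := by
    intro β hβ; rw [X.hB1] at hβ; exact Finset.mem_insert.mp hβ
  have tB1 : ((τ, 0) : Pt) ∈ B1 := by rw [X.hB1]; exact Finset.mem_insert_self _ _
  have hpX1 : ∀ β ∈ B1, ¬ p ∣ DX b1 b2 β := by
    intro β hβ
    rcases cas β hβ with h | h
    · rw [h, Dt]; exact hτp
    · exact hpX β h
  have hx0 : ∀ β ∈ B1, DX b1 b2 β ≠ 0 := fun β hβ h => hpX1 β hβ (h ▸ dvd_zero p)
  obtain ⟨P, hP⟩ : ∃ P : Pt, P = (G * b1 + κ * (ε - G * b1), (1 - κ) * (G * b2)) := ⟨_, rfl⟩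
  have hP2 : P.2 ≠ 0 := by rw [hP]; exact mul_ne_zero h1κ hGb
  have hPge : Col (G * b1, G * b2) (ε, 0) P := by rw [hP]; unfold Col; simp only; ring
  have hPm : Col t2 (τ, 0) P := by
    have := col_of_he (b1 := b1) (b2 := b2) (z := ε) (G := G) (T1 := t2.1) (T := t2.2) (x := τ)
      (y := 0) (k := κ) hb2 hs2 (by
        unfold HE
        linear_combination (-b2) * hT)
    rw [hP]
    unfold Col
    simp only
    linear_combination this
  have hPR : P ∉ R2 := fun h => hmR P h hPm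
  have hPB : P ∉ B2 := fun h => F.hge.2.2.2 P h hPge
  refine win_force F.hge hPR hPB hPge (F.hN.mono (Finset.subset_insert _ _)
    (Finset.Subset.refl _)) ?_
  intro t3 ht3R ht3B ht3
  have ht3R2 : t3 ∉ R2 := fun h => ht3R (Finset.mem_insert_of_mem h)
  have ht3P : t3 ≠ P := by rintro rfl; exact ht3R (Finset.mem_insert_self _ _)
  -- the parameter of `t3`
  obtain ⟨k, hk1, hk2⟩ := he_param (w1 := t3.1) (w2 := t3.2) hce (by
      unfold Col at ht3; simp only at ht3; linear_combination ht3)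
  have ht3' : t3 = (G * b1 + k * (ε - G * b1), (1 - k) * (G * b2)) := Prod.ext hk1 hk2
  have hk0 : k ≠ 0 := by
    rintro rfl
    apply ht3R2
    rw [ht3']
    have : ((G * b1 + 0 * (ε - G * b1), (1 - 0) * (G * b2)) : Pt) = (G * b1, G * b2) :=
      Prod.ext (by simp) (by simp)
    rw [this]; exact X.gR
  have hkκ : k ≠ κ := by
    rintro rfl
    exact ht3P (by rw [ht3', hP])
  have Dt3 : DX b1 b2 t3 = k * ε * b2 := by rw [ht3']; unfold DX; simp only; ring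
  have Yt3 : t3.2 = (1 - k) * (G * b2) := by rw [ht3']
  have Dt2 : DX b1 b2 t2 = 0 := by unfold DX; linear_combination hs2
  -- no threat
  have hN3 : NoThreat (insert P R2) (insert t3 B2) := by
    refine F.hN.insert (Finset.subset_insert _ _) ?_
    intro u hu v hv huv hc
    rcases hge t3 ht3 ht3R2 u hu v hv huv hc with ⟨r, hr, h⟩ | ⟨h1, h2⟩
    · exact ⟨r, Finset.mem_insert_of_mem hr, h⟩
    · refine ⟨P, Finset.mem_insert_self _ _, ?_⟩
      exact (Col.line_iff (X.ht2B1 _ tB1) huv h1 h2).mp hPm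
  obtain ⟨R3, hR3⟩ : ∃ R3 : Finset Pt, R3 = insert P R2 := ⟨_, rfl⟩
  obtain ⟨B3, hB3⟩ : ∃ B3 : Finset Pt, B3 = insert t3 B2 := ⟨_, rfl⟩
  rw [← hR3, ← hB3] at hN3 ⊢
  have PR3 : P ∈ R3 := by rw [hR3]; exact Finset.mem_insert_self _ _
  have R23 : ∀ r ∈ R2, r ∈ R3 := by intro r hr; rw [hR3]; exact Finset.mem_insert_of_mem hr
  have hBR3 : ∀ β ∈ B3, β ∉ R3 := by
    intro β hβ hR
    rw [hB3] at hβ
    rw [hR3] at hR
    rcases Finset.mem_insert.mp hβ with hβ | hβ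
    · rw [hβ] at hR
      rcases Finset.mem_insert.mp hR with h | h
      · exact ht3P h
      · exact ht3R2 h
    · rcases Finset.mem_insert.mp hR with h | h
      · rw [h] at hβ; exact hPB hβ
      · exact F.hB β hβ h
  have cas3 : ∀ β ∈ B3, β = t3 ∨ β = t2 ∨ β ∈ B1 := by
    intro β hβ
    rw [hB3] at hβ
    rcases Finset.mem_insert.mp hβ with h | h
    · exact Or.inl h
    · rw [X.hB2] at h
      exact Or.inr (Finset.mem_insert.mp h)
  -- the arms are alive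
  have hAc : ALine R3 B3 P (0, 0) := by
    refine ⟨PR3, R23 _ X.cR, fun h => hP2 (congrArg Prod.snd h), ?_⟩
    intro w hw hc
    rw [hP] at hc
    have e := on_Pc hb2 hc
    rcases cas3 w hw with h | h | h
    · rw [h, Dt3, Yt3] at e
      have : G * (ε * (b2 * (k - κ))) = 0 := by linear_combination e
      rcases mul_eq_zero.mp this with h1 | h1
      · exact hG0 h1
      rcases mul_eq_zero.mp h1 with h1 | h1
      · exact hε h1
      rcases mul_eq_zero.mp h1 with h1 | h1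
      · exact hb2 h1
      · exact hkκ (by linarith)
    · rw [h, Dt2, zero_mul] at e
      rcases mul_eq_zero.mp e.symm with h1 | h1
      · exact X.ht20 h1
      · exact mul_ne_zero hκ0 hε h1
    · have h1 := lin_large (G := G) (x := DX b1 b2 w * (1 - κ)) (y := -(w.2 * (κ * ε)))
        (by rw [abs_neg]; exact D.c8 w h) (by linear_combination e)
      exact mul_ne_zero (hx0 w h) h1κ h1.1
  have hAb : ALine R3 B3 P (b1, b2) := by
    refine ⟨PR3, R23 _ X.bR, ?_, ?_⟩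
    · intro h
      have h1 : P.2 = b2 := congrArg Prod.snd h
      have h2 : DX b1 b2 P = DX b1 b2 (b1, b2) := congrArg (DX b1 b2) h
      rw [hP] at h2
      unfold DX at h2
      simp only at h2
      have : b2 * (κ * ε) = 0 := by linear_combination h2
      exact mul_ne_zero hb2 (mul_ne_zero hκ0 hε) this
    intro w hw hc
    rw [hP] at hc
    have e := on_Pb hb2 hc
    rcases cas3 w hw with h | h | h
    · rw [h, Dt3, Yt3] at e
      have : (G - 1) * (ε * (b2 * (k - κ))) = 0 := by linear_combination e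
      rcases mul_eq_zero.mp this with h1 | h1
      · exact F.hG1 (by linarith)
      rcases mul_eq_zero.mp h1 with h1 | h1
      · exact hε h1
      rcases mul_eq_zero.mp h1 with h1 | h1
      · exact hb2 h1
      · exact hkκ (by linarith)
    · rw [h, Dt2, zero_mul] at e
      rcases mul_eq_zero.mp e.symm with h1 | h1
      · exact X.ht2b (by linarith)
      · exact mul_ne_zero hκ0 hε h1
    · have h1 := lin_large (x := DX b1 b2 w * (1 - κ))
        (D.c9 w h) (by linear_combination e)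
      exact mul_ne_zero (hx0 w h) h1κ h1.1
  have hncb : ¬ Col P (b1, b2) (0, 0) := by
    intro h
    rw [hP] at h
    have := on_Pb hb2 h
    unfold DX at this
    simp only at this
    have h2 : b2 * (κ * ε) = 0 := by linear_combination this
    exact mul_ne_zero hb2 (mul_ne_zero hκ0 hε) h2
  have hncg : ¬ Col P (b1, b2) (G * b1, G * b2) := by
    intro h
    rw [hP] at h
    have := on_Pb hb2 h
    unfold DX at this
    simp only at this
    have h2 : (G - 1) * (b2 * (κ * ε)) = 0 := by linear_combination -this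
    rcases mul_eq_zero.mp h2 with h3 | h3
    · exact F.hG1 (by linarith)
    · exact mul_ne_zero hb2 (mul_ne_zero hκ0 hε) h3
  -- the hits of `P b`
  have hitb : ∀ w, Col P (b1, b2) w → w ∉ R3 → ∀ u ∈ B3, ∀ v ∈ B3, u ≠ v → Col u v w →
      (∃ r ∈ R3, Col u v r) ∨ (Col t2 t3 w ∧
        (((τ - κ * ε) * k = κ * κ * (τ - ε) ∧ (τ - κ * ε) * DX b1 b2 w =
          κ * ε * b2 * ((τ - κ * ε) - G * τ * (1 - κ))) ∨
        (τ - κ * ε) * k = G * κ * τ * (1 - κ))) := by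
    intro w hw hwR
    have hz := by rw [hP] at hw; exact on_Pb hb2 hw
    have hwb : DX b1 b2 w ≠ 0 := by
      intro h
      rw [h, zero_mul] at hz
      apply hwR
      apply R23
      have h1 : w.2 = b2 := by
        rcases mul_eq_zero.mp hz.symm with h1 | h1
        · linarith
        · exact absurd h1 (mul_ne_zero hκ0 hε)
      have h2 : w.1 = b1 := by
        apply mul_left_cancel₀ hb2
        unfold DX at h
        rw [h1] at h
        linarith
      have h3 : w = (b1, b2) := Prod.ext h2 h1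
      rw [h3]; exact X.bR
    have nearB1 : ∀ u ∈ B1, ∀ v ∈ B1, u ≠ v → Col u v w → False := by
      intro u hu v hv huv hc
      exact hwb (pk_nb hκ1 (X.hX1 v hv u hu (Ne.symm huv)) (D.c4 u hu v hv) hz (col_X hc))
    have base2 : ∀ v ∈ B1, Col t2 v w → ∃ r ∈ R3, Col t2 v r := by
      intro v hv hc
      rcases cas v hv with h | h
      · exact ⟨P, PR3, by rw [h]; exact hPm⟩
      · exfalso
        have e := col_X (b1 := b1) (b2 := b2) hc
        rw [Dt2] at e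
        refine pk_2b hb2 hε hκ0 hκ1 hτ0 (hx0 v hv) hQ ?_ (hτno v h) hT (D.c6 v hv) hz e
        intro h1
        have h2 : p ∣ τ * DX b1 b2 v := by
          obtain ⟨m, hm⟩ := hpε
          exact ⟨κ * m * DX b1 b2 v - κ * m * τ * b2, by rw [hm] at h1; linear_combination h1⟩
        rcases hp.dvd_or_dvd h2 with h3 | h3
        · exact hτp (Dvd.dvd.mul_right h3 _)
        · exact hpX v h h3
    have base3 : ∀ v ∈ B2, Col t3 v w → (∃ r ∈ R3, Col t3 v r) ∨ (Col t2 t3 w ∧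
        (((τ - κ * ε) * k = κ * κ * (τ - ε) ∧ (τ - κ * ε) * DX b1 b2 w =
          κ * ε * b2 * ((τ - κ * ε) - G * τ * (1 - κ))) ∨
        (τ - κ * ε) * k = G * κ * τ * (1 - κ))) := by
      intro v hv hc
      rw [X.hB2] at hv
      rcases Finset.mem_insert.mp hv with h | h
      · right
        rw [h] at hc
        have hc' : Col t2 t3 w := hc.swap12
        refine ⟨hc', ?_⟩
        have e := col_X (b1 := b1) (b2 := b2) hc'
        rw [Dt2, Dt3, Yt3] at e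
        exact pk_bS hb2 hε hκ0 hκ1 hQ hτε hkκ hk0 hT D.c3 hz (by linear_combination -e)
      · exfalso
        have e := col_X (b1 := b1) (b2 := b2) hc.swap12
        rw [Dt3, Yt3] at e
        exact pk_b hb2 hε hp hpε hκ0 hpκ hpGκ (hpX1 v h) hkκ (D.c1 v h) hz
          (by linear_combination -e)
    rw [hB3]
    refine pair2 (B1 := B2) (t2 := t3) (P := fun u v => Col u v w → (∃ r ∈ R3, Col u v r) ∨
      (Col t2 t3 w ∧ (((τ - κ * ε) * k = κ * κ * (τ - ε) ∧ (τ - κ * ε) * DX b1 b2 w =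
          κ * ε * b2 * ((τ - κ * ε) - G * τ * (1 - κ))) ∨
        (τ - κ * ε) * k = G * κ * τ * (1 - κ)))) ?_ ?_ base3
    · intro u v h hc
      rcases h hc.swap12 with ⟨r, hr, h'⟩ | h'
      · exact Or.inl ⟨r, hr, h'.swap12⟩
      · exact Or.inr h'
    · rw [X.hB2]
      refine pair2 (B1 := B1) (t2 := t2) (P := fun u v => Col u v w → (∃ r ∈ R3, Col u v r) ∨
        (Col t2 t3 w ∧ (((τ - κ * ε) * k = κ * κ * (τ - ε) ∧ (τ - κ * ε) * DX b1 b2 w =
          κ * ε * b2 * ((τ - κ * ε) - G * τ * (1 - κ))) ∨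
        (τ - κ * ε) * k = G * κ * τ * (1 - κ)))) ?_ ?_ ?_
      · intro u v h hc
        rcases h hc.swap12 with ⟨r, hr, h'⟩ | h'
        · exact Or.inl ⟨r, hr, h'.swap12⟩
        · exact Or.inr h'
      · intro u hu v hv huv hc
        exact (nearB1 u hu v hv huv hc).elim
      · intro v hv hc
        exact Or.inl (base2 v hv hc)
  -- the hits of `P c`
  have hitc : ∀ w, Col P (0, 0) w → w ∉ R3 → ∀ u ∈ B3, ∀ v ∈ B3, u ≠ v → Col u v w →
      (∃ r ∈ R3, Col u v r) ∨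
        DX b1 b2 w * (κ * κ * (τ - ε) - (τ - κ * ε) * k) = -(κ * ε * τ * (1 - κ) * b2 * k) ∨
        DX b1 b2 w * (ε * k - κ * ε - (1 - κ) * τ) = κ * ε * τ * b2 * (k - 1) := by
    intro w hw hwR
    have hz := by rw [hP] at hw; exact on_Pc hb2 hw
    have hwb : DX b1 b2 w ≠ 0 := by
      intro h
      rw [h, zero_mul] at hz
      apply hwR
      apply R23
      have h1 : w.2 = 0 := by
        rcases mul_eq_zero.mp hz.symm with h1 | h1
        · exact h1
        · exact absurd h1 (mul_ne_zero hκ0 hε)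
      have h2 : w.1 = 0 := by
        apply mul_left_cancel₀ hb2
        unfold DX at h
        rw [h1] at h
        linarith
      have h3 : w = (0, 0) := Prod.ext h2 h1
      rw [h3]; exact X.cR
    have nearB1 : ∀ u ∈ B1, ∀ v ∈ B1, u ≠ v → Col u v w → False := by
      intro u hu v hv huv hc
      exact hwb (pk_nc hκ1 (X.hX1 v hv u hu (Ne.symm huv)) (D.c5 u hu v hv) hz (col_X hc))
    have base2 : ∀ v ∈ B1, Col t2 v w → ∃ r ∈ R3, Col t2 v r := by
      intro v hv hc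
      rcases cas v hv with h | h
      · exact ⟨P, PR3, by rw [h]; exact hPm⟩
      · exfalso
        have e := col_X (b1 := b1) (b2 := b2) hc
        rw [Dt2] at e
        refine pk_2c hb2 hε hκ0 hκ1 hτ0 (hx0 v hv) (hy v h) hQ ?_ hT (D.c7 v hv) hz e
        intro h1
        have h2 : p ∣ τ * DX b1 b2 v := by
          obtain ⟨m, hm⟩ := hpε
          exact ⟨κ * m * DX b1 b2 v - κ * m * τ * b2, by rw [hm] at h1; linear_combination h1⟩
        rcases hp.dvd_or_dvd h2 with h3 | h3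
        · exact hτp (Dvd.dvd.mul_right h3 _)
        · exact hpX v h h3
    have base3 : ∀ v ∈ B2, Col t3 v w → (∃ r ∈ R3, Col t3 v r) ∨
        DX b1 b2 w * (κ * κ * (τ - ε) - (τ - κ * ε) * k) = -(κ * ε * τ * (1 - κ) * b2 * k) ∨
        DX b1 b2 w * (ε * k - κ * ε - (1 - κ) * τ) = κ * ε * τ * b2 * (k - 1) := by
      intro v hv hc
      rw [X.hB2] at hv
      rcases Finset.mem_insert.mp hv with h | h
      · right; left
        rw [h] at hc
        have e := col_X (b1 := b1) (b2 := b2) hc.swap12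
        rw [Dt2, Dt3, Yt3] at e
        exact pk_cS hb2 hε hG0 hT hz (by linear_combination -e)
      · rcases cas v h with h' | h'
        · right; right
          have e := col_X (b1 := b1) (b2 := b2) hc.swap12
          rw [h', Dt, Dt3, Yt3] at e
          simp only at e
          exact pk_cT hb2 hG0 hz (by linear_combination -e)
        · exfalso
          have e := col_X (b1 := b1) (b2 := b2) hc.swap12
          rw [Dt3, Yt3] at e
          exact pk_c hb2 hε hp hpε hκ0 hpκ hpG (hpX1 v h) (hy v h') hkκ (D.c2 v h) hz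
            (by linear_combination -e)
    rw [hB3]
    refine pair2 (B1 := B2) (t2 := t3) (P := fun u v => Col u v w → (∃ r ∈ R3, Col u v r) ∨
      DX b1 b2 w * (κ * κ * (τ - ε) - (τ - κ * ε) * k) = -(κ * ε * τ * (1 - κ) * b2 * k) ∨
        DX b1 b2 w * (ε * k - κ * ε - (1 - κ) * τ) = κ * ε * τ * b2 * (k - 1)) ?_ ?_ base3
    · intro u v h hc
      rcases h hc.swap12 with ⟨r, hr, h'⟩ | h'
      · exact Or.inl ⟨r, hr, h'.swap12⟩
      · exact Or.inr h'
    · rw [X.hB2]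
      refine pair2 (B1 := B1) (t2 := t2) (P := fun u v => Col u v w → (∃ r ∈ R3, Col u v r) ∨
        DX b1 b2 w * (κ * κ * (τ - ε) - (τ - κ * ε) * k) = -(κ * ε * τ * (1 - κ) * b2 * k) ∨
        DX b1 b2 w * (ε * k - κ * ε - (1 - κ) * τ) = κ * ε * τ * b2 * (k - 1)) ?_ ?_ ?_
      · intro u v h hc
        rcases h hc.swap12 with ⟨r, hr, h'⟩ | h'
        · exact Or.inl ⟨r, hr, h'.swap12⟩
        · exact Or.inr h'
      · intro u hu v hv huv hc
        exact (nearB1 u hu v hv huv hc).elim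
      · intro v hv hc
        exact Or.inl (base2 v hv hc)
  -- the fork with `g`
  have fork : Uncov R3 B3 P (b1, b2) ∨ Uncov R3 B3 P (0, 0) → Win R3 B3 := by
    intro hU
    have hG3 : 2 < |1 - G| := by
      have h1 := D.c13
      have h2 : |G| ≤ |1 - G| + 1 := by
        have := abs_sub (1 : ℤ) (1 - G)
        rw [sub_sub_cancel, abs_one] at this
        linarith
      linarith
    obtain ⟨S, hS, hSl⟩ := fork_sols (s := 1 - G) (t0 := 1) (B3.card + 1) one_ne_zero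
      (sub_ne_zero.mpr (Ne.symm F.hG1)) (by
        intro i hi
        have hcard : B3.card ≤ B.card + 3 := by
          rw [hB3, X.hB2, X.hB1]
          have h1 := Finset.card_insert_le t3 (insert t2 (insert ((τ, 0) : Pt) B))
          have h2 := Finset.card_insert_le t2 (insert ((τ, 0) : Pt) B)
          have h3 := Finset.card_insert_le ((τ, 0) : Pt) B
          omega
        have h1 := hfork i (by omega)
        have h2 : (1 : ℤ) + |1| * (i + 1) = i + 2 := by rw [abs_one]; ring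
        rw [h2]
        have h3 : (1 : ℤ) - G = -(G - 1) := by ring
        rw [h3]
        exact (dvd_neg.mpr h1)) (by rw [abs_one]; linarith)
    refine fork_list (v := (b1, b2)) (v' := (0, 0)) (w := (G * b1, G * b2)) (s := 1 - G)
      (t0 := 1) hN3 hBR3 hAb hAc hU hncb (R23 _ X.gR) ?_ ?_ one_ne_zero
      (sub_ne_zero.mpr (Ne.symm F.hG1)) ?_ S (by omega) hSl
    · simp only; ring
    · simp only; ring
    · intro h; exact hG0 (by linarith)
  by_cases hUb : Uncov R3 B3 P (b1, b2)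
  · exact fork (Or.inl hUb)
  by_cases hUc : Uncov R3 B3 P (0, 0)
  · exact fork (Or.inr hUc)
  -- a hit of `P b`
  obtain ⟨Z, hZ, hZR, hZB, u0, hu0, v0, hv0, hne0, hc0, hr0⟩ : ∃ w, Col P (b1, b2) w ∧
      w ∉ R3 ∧ w ∉ B3 ∧ ∃ u ∈ B3, ∃ v ∈ B3, u ≠ v ∧ Col u v w ∧ ∀ r ∈ R3, ¬ Col u v r := by
    by_contra hcon
    apply hUb
    intro w hw hwR hwB u hu v hv huv hc
    by_contra hr
    push Not at hr
    exact hcon ⟨w, hw, hwR, hwB, u, hu, v, hv, huv, hc, hr⟩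
  obtain ⟨W, hW, hWR, u1, hu1, v1, hv1, hne1, hc1, hr1⟩ : ∃ w, Col P (0, 0) w ∧
      w ∉ R3 ∧ ∃ u ∈ B3, ∃ v ∈ B3, u ≠ v ∧ Col u v w ∧ ∀ r ∈ R3, ¬ Col u v r := by
    by_contra hcon
    apply hUc
    intro w hw hwR _ u hu v hv huv hc
    by_contra hr
    push Not at hr
    exact hcon ⟨w, hw, hwR, u, hu, v, hv, huv, hc, hr⟩
  rcases hitb Z hZ hZR u0 hu0 v0 hv0 hne0 hc0 with ⟨r, hr, h⟩ | ⟨hSZ, hS⟩
  · exact absurd h (hr0 r hr)
  have hWh : DX b1 b2 W * (κ * κ * (τ - ε) - (τ - κ * ε) * k) =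
        -(κ * ε * τ * (1 - κ) * b2 * k) ∨
      DX b1 b2 W * (ε * k - κ * ε - (1 - κ) * τ) = κ * ε * τ * b2 * (k - 1) := by
    rcases hitc W hW hWR u1 hu1 v1 hv1 hne1 hc1 with ⟨r, hr, h⟩ | h
    · exact absurd h (hr1 r hr)
    · exact h
  rcases hS with ⟨hS1, hSζ⟩ | hS2
  swap
  · -- `t3` is far
    exfalso
    have hQk : |G| ≤ |τ - κ * ε| * |k| := by
      rw [← abs_mul, hS2]
      have : G * κ * τ * (1 - κ) = G * (κ * τ * (1 - κ)) := by ring
      rw [this, abs_mul]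
      exact le_mul_of_one_le_right (abs_nonneg _)
        (Int.one_le_abs (mul_ne_zero (mul_ne_zero hκ0 hτ0) h1κ))
    rcases hWh with h | h
    · refine pk_cS_far hb2 hε hκ0 hκ1 hτ0 hτε ?_ h
      rw [abs_mul (τ - κ * ε) k]
      exact lt_of_lt_of_le D.c11 hQk
    · refine pk_cT_far hb2 hε hκ0 hκ1 hτ0 hτε ?_ h
      have h1 := D.c10
      have h2 : 0 < |τ - κ * ε| := abs_pos.mpr hQ
      exact lt_of_mul_lt_mul_left (lt_of_lt_of_le h1 hQk) h2.le
  -- `S ∥ P c`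
  rcases hWh with h | h
  · exfalso
    rw [hS1, sub_self, mul_zero] at h
    have : κ * ε * τ * (1 - κ) * b2 * k ≠ 0 :=
      mul_ne_zero (mul_ne_zero (mul_ne_zero (mul_ne_zero (mul_ne_zero hκ0 hε) hτ0) h1κ) hb2) hk0
    exact this (by linarith)
  have hTW := pk_S1T hκ1 hτ0 hS1 h
  rcases hAlt with hA | ⟨s, g', hs, hg', hsb⟩
  · exact absurd hTW (hA _)
  -- the kill fork at `Z`
  have hζ : DX b1 b2 Z = κ * ε * (b2 - G * s) := by
    apply mul_left_cancel₀ hQ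
    linear_combination hSζ + κ * ε * G * hs
  have hg'0 : g' ≠ 0 := by
    rintro rfl
    rw [mul_zero] at hg'
    exact F.hG1 (by linarith)
  have hs0 : s ≠ 0 := by
    rintro rfl
    rw [mul_zero] at hs
    exact mul_ne_zero (mul_ne_zero hτ0 h1κ) hb2 hs.symm
  have hbs : b2 - s ≠ 0 := sub_ne_zero.mpr (Ne.symm hsb)
  have hbGs : b2 - G * s ≠ 0 := by
    intro h1
    have h2 : |G| ≤ |b2| := by
      have : b2 = G * s := by linarith
      rw [this, abs_mul]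
      exact le_mul_of_one_le_right (abs_nonneg _) (Int.one_le_abs hs0)
    exact absurd D.c14 (not_lt.mpr h2)
  obtain ⟨l, hl⟩ : ∃ l, l = 1 - s * g' := ⟨_, rfl⟩
  have hlb : (b2 - s) * l = b2 - G * s := by rw [hl]; linear_combination s * hg'
  have hl0 : l ≠ 0 := by
    rintro rfl
    rw [mul_zero] at hlb
    exact hbGs hlb.symm
  have hl1 : l ≠ 1 := by
    intro h1
    rw [hl] at h1
    exact mul_ne_zero hs0 hg'0 (by linarith)
  have hZ2 : Z.2 = b2 + (b2 - G * s) * ((1 - κ) * G - 1) := by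
    have hz := by rw [hP] at hZ; exact on_Pb hb2 hZ
    rw [hζ] at hz
    apply mul_left_cancel₀ (mul_ne_zero hκ0 hε)
    linear_combination -hz
  have hgZ : ((G * b1, G * b2) : Pt) ≠ Z := by
    intro h1
    apply hZR
    rw [← h1]; exact R23 _ X.gR
  have DG : DX b1 b2 ((G * b1, G * b2) : Pt) = 0 := by unfold DX; simp only; ring
  refine fin_winK (c := P) (v := (b1, b2)) (v' := (0, 0)) (e := (G * b1, G * b2)) (g := Z)
    (f := (l * P.1, l * P.2)) hN3 hAb hAc ?_ hncb (R23 _ X.gR) hncg hZ ?_ ?_ ?_ ?_ ?_ ?_ ?_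
  · -- after the kill `P b` is uncovered
    intro w hw hwR _ u hu v hv huv hc
    have hwR3 : w ∉ R3 := fun h1 => hwR (Finset.mem_insert_of_mem h1)
    have hwZ : w ≠ Z := by rintro rfl; exact hwR (Finset.mem_insert_self _ _)
    rcases hitb w hw hwR3 u hu v hv huv hc with ⟨r, hr, h1⟩ | ⟨h1, _⟩
    · exact ⟨r, Finset.mem_insert_of_mem hr, h1⟩
    · -- `w` and `Z` are both on `S` and on `P b`
      exfalso
      have ht2B3 : t2 ∈ B3 := by
        rw [hB3, X.hB2]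
        exact Finset.mem_insert_of_mem (Finset.mem_insert_self _ _)
      apply hAb.2.2.2 t2 ht2B3
      have ht23 : t2 ≠ t3 := by
        intro h2
        apply ht3B
        rw [← h2, X.hB2]; exact Finset.mem_insert_self _ _
      exact (Col.line_eq_of_two (z := t2) hAb.ne ht23 hwZ hw hZ h1 hSZ).mpr (Col.refl_left _ _)
  · rintro rfl; exact hZR PR3
  · rintro rfl; exact hZR (R23 _ X.bR)
  · unfold Col; simp only; ring
  · intro h1
    have h2 : l * P.2 = P.2 := congrArg Prod.snd h1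
    apply hl1
    apply mul_right_cancel₀ hP2
    linarith
  · intro h1
    have h2 : l * P.2 = 0 := congrArg Prod.snd h1
    exact mul_ne_zero hl0 hP2 h2
  · -- collinearity
    have e1 : DX b1 b2 ((l * P.1, l * P.2) : Pt) = l * (κ * ε * b2) := by
      rw [hP]; unfold DX; simp only; ring
    have e2 : (DX b1 b2 Z - DX b1 b2 ((G * b1, G * b2) : Pt)) * (l * P.2 - G * b2) =
        (Z.2 - G * b2) * (DX b1 b2 ((l * P.1, l * P.2) : Pt) - DX b1 b2 ((G * b1, G * b2) : Pt)) := by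
      rw [e1, DG, hζ, hZ2, hP]
      simp only
      linear_combination (κ * ε * b2 * G) * hlb
    unfold DX at e2
    unfold Col
    simp only at e2 ⊢
    apply mul_left_cancel₀ hb2
    linear_combination e2
  · -- no blue stone on `g Z`
    intro z hz hc
    have e := col_X (b1 := b1) (b2 := b2) hc
    rw [DG, hζ, hZ2] at e
    simp only [sub_zero] at e
    rcases cas3 z hz with h1 | h1 | h1
    · -- `t3`
      rw [h1] at hc
      have ht3g : ((G * b1, G * b2) : Pt) ≠ t3 := by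
        intro h2; apply ht3R2; rw [← h2]; exact X.gR
      have hZge : Col (G * b1, G * b2) (ε, 0) Z :=
        (Col.line_eq_of_two (z := Z) F.hge.ne hgZ ht3g (Col.refl_left _ _) ht3
          (Col.refl_left _ _) hc).mpr (Col.refl_right _ _)
      have hZP : Z ≠ P := by rintro rfl; exact hZR PR3
      apply F.col_geb
      exact (Col.line_eq_of_two (z := ((b1, b2) : Pt)) F.hge.ne hAb.ne hZP hZge hPge hZ
        (Col.refl_left _ _)).mpr (Col.refl_right _ _)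
    · rw [h1, Dt2, mul_zero] at e
      rcases mul_eq_zero.mp e with h2 | h2
      · exact mul_ne_zero (mul_ne_zero hκ0 hε) hbGs h2
      · exact X.ht2g (by linarith)
    · -- `B1`
      have hsI : s ∈ Finset.Icc (-|τ * (1 - κ) * b2|) |τ * (1 - κ) * b2| := by
        have h2 : |s| ≤ |τ * (1 - κ) * b2| := by
          rw [← hs, abs_mul]
          exact le_mul_of_one_le_left (abs_nonneg _) (Int.one_le_abs hQ)
        rw [Finset.mem_Icc]
        exact abs_le.mp h2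
      have hlead : -(s * ((1 - κ) * DX b1 b2 z + κ * ε * b2)) ≠ 0 := by
        rw [neg_ne_zero]
        refine mul_ne_zero hs0 ?_
        intro h2
        have h3 : p ∣ (1 - κ) * DX b1 b2 z := by
          obtain ⟨m, hm⟩ := hpε
          exact ⟨-(κ * m * b2), by rw [hm] at h2; linear_combination h2⟩
        exact (hp.dvd_or_dvd h3).elim hpκ (hpX1 z h1)
      refine quad_large (a2 := -(s * ((1 - κ) * DX b1 b2 z + κ * ε * b2)))
        (a1 := DX b1 b2 z * (s - κ * b2) + κ * ε * (s * z.2 + b2 * b2))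
        (a0 := -(κ * ε * z.2 * b2)) (G := G) hlead (D.c12 z h1 s hsI) ?_
      linear_combination -e

end Pool.Agent.K4L
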