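import Pool.Agent.K4L.K3UPK

/-!
# K3U, node gamma1, case (P): Red wins
-/

namespace Pool.Agent.K4L

open Filter

/-- if a line `t β` hits `b e` then `τ` is bounded in terms of `ε` -/
theorem tau_bd {b2 ε τ x y m CB p : ℤ} (hε : ε ≠ 0) (hpε : p ∣ ε) (hx : ¬ p ∣ x)
    (hy : y ≠ 0) (hCB : |x| + |y| + |y| * (|x| + |b2 - y|) ≤ CB)
    (h : τ * (b2 * (1 - m) - y) = x * (1 - m) - y * ε * m) : |b2 * τ| ≤ CB * |ε| := by
  obtain ⟨n, hn⟩ : ∃ n, n = b2 * (1 - m) - y := ⟨_, rfl⟩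
  have hn0 : n ≠ 0 := by
    intro h0
    rw [← hn, h0, mul_zero] at h
    rw [h0] at hn
    apply hx
    obtain ⟨q, hq⟩ := hpε
    refine ⟨b2 * q * m, ?_⟩
    apply mul_left_cancel₀ hy
    rw [hq] at h
    linear_combination (-b2) * h + x * hn
  have e1 : (b2 * τ - x - y * ε) * n = y * (x - ε * (b2 - y)) := by
    rw [hn]
    linear_combination b2 * h
  have e2 : |b2 * τ - x - y * ε| ≤ |y| * (|x| + |ε| * |b2 - y|) := by
    have h1 : |b2 * τ - x - y * ε| ≤ |y * (x - ε * (b2 - y))| := by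
      rw [← e1, abs_mul]
      exact le_mul_of_one_le_right (abs_nonneg _) (Int.one_le_abs hn0)
    have h2 : |y * (x - ε * (b2 - y))| ≤ |y| * (|x| + |ε| * |b2 - y|) := by
      rw [abs_mul]
      apply mul_le_mul_of_nonneg_left _ (abs_nonneg _)
      have := abs_sub x (ε * (b2 - y))
      rwa [abs_mul ε] at this
    exact h1.trans h2
  have hε1 : 1 ≤ |ε| := Int.one_le_abs hε
  have e3 : |b2 * τ| ≤ |b2 * τ - x - y * ε| + |x| + |y| * |ε| := by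
    have h1 := abs_add_le (b2 * τ - x - y * ε) (x + y * ε)
    have h2 := abs_add_le x (y * ε)
    have e : b2 * τ - x - y * ε + (x + y * ε) = b2 * τ := by ring
    rw [e] at h1
    rw [abs_mul y ε] at h2
    linarith
  have e4 : |x| ≤ |x| * |ε| := le_mul_of_one_le_right (abs_nonneg _) hε1
  have e5 : |y| * (|x| + |ε| * |b2 - y|) ≤ |y| * (|x| + |b2 - y|) * |ε| := by
    have : |y| * (|x| + |ε| * |b2 - y|) ≤ |y| * (|x| * |ε| + |ε| * |b2 - y|) :=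
      mul_le_mul_of_nonneg_left (by linarith) (abs_nonneg _)
    calc _ ≤ _ := this
      _ = _ := by ring
  have e6 : (|x| + |y| + |y| * (|x| + |b2 - y|)) * |ε| ≤ CB * |ε| :=
    mul_le_mul_of_nonneg_right hCB (abs_nonneg _)
  nlinarith

/-- the parallel case -/
theorem tau_bd_par {b2 ε τ x y CB : ℤ} (hε : ε ≠ 0) (hb : 0 ≤ |y| * (|x| + |b2 - y|))
    (hCB : |x| + |y| + |y| * (|x| + |b2 - y|) ≤ CB)
    (h : b2 * τ = ε * y + x) : |b2 * τ| ≤ CB * |ε| := by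
  have hε1 : 1 ≤ |ε| := Int.one_le_abs hε
  have h1 : |b2 * τ| ≤ |ε| * |y| + |x| := by
    rw [h, ← abs_mul]; exact abs_add_le _ _
  have e4 : |x| ≤ |x| * |ε| := le_mul_of_one_le_right (abs_nonneg _) hε1
  have e6 : (|x| + |y| + |y| * (|x| + |b2 - y|)) * |ε| ≤ CB * |ε| :=
    mul_le_mul_of_nonneg_right hCB (abs_nonneg _)
  have e7 : 0 ≤ |y| * (|x| + |b2 - y|) * |ε| := mul_nonneg hb (abs_nonneg _)
  nlinarith

/-- the two families -/
theorem p_families {b2 ε τ κ s p α CB : ℤ} (hb2 : b2 ≠ 0) (hα : α ≠ 0) (hp : Prime p)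
    (hε : ε = α * p) (hτ : ¬ p ∣ τ) (hκ0 : κ ≠ 0) (hs0 : s ≠ 0)
    (hτb : |b2 * τ| ≤ CB * |ε|) (hs : (τ - κ * ε) * s = τ * (1 - κ) * b2) :
    ∃ ν, s + (κ - 1) * b2 = p * ν ∧ (|κ| ≤ 2 * CB ∨ |s| ≤ 4 * |b2| * CB) := by
  have e1 : τ * (s + (κ - 1) * b2) = κ * ε * s := by linear_combination hs
  have h1 : p ∣ s + (κ - 1) * b2 := by
    have h2 : p ∣ τ * (s + (κ - 1) * b2) := by
      rw [e1, hε]; exact ⟨κ * α * s, by ring⟩
    exact (hp.dvd_or_dvd h2).resolve_left hτ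
  obtain ⟨ν, hν⟩ := h1
  refine ⟨ν, hν, ?_⟩
  have e2 : τ * ν = κ * α * s := by
    apply mul_left_cancel₀ hp.ne_zero
    rw [hν, hε] at e1
    linear_combination e1
  have hν0 : ν ≠ 0 := by
    rintro rfl
    rw [mul_zero] at e2
    exact mul_ne_zero (mul_ne_zero hκ0 hα) hs0 e2.symm
  have hpν : p * ν ≠ 0 := mul_ne_zero hp.ne_zero hν0
  have hpν1 : 0 < |p * ν| := abs_pos.mpr hpν
  have hα0 : 0 < |α| := abs_pos.mpr hα
  have b1 : 1 ≤ |b2| := Int.one_le_abs hb2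
  -- `|κ| |s| ≤ CB |p ν|`
  have e3 : |κ| * |s| ≤ CB * |p * ν| := by
    have h2 : |α| * (|κ| * |s|) ≤ |α| * (CB * |p * ν|) := by
      have h3 : |α| * (|κ| * |s|) = |τ| * |ν| := by
        rw [← abs_mul τ ν, e2, abs_mul, abs_mul]; ring
      have h4 : |τ| ≤ |b2 * τ| := by
        rw [abs_mul]; exact le_mul_of_one_le_left (abs_nonneg _) b1
      have h5 : |τ| * |ν| ≤ (CB * |ε|) * |ν| :=
        mul_le_mul_of_nonneg_right (h4.trans hτb) (abs_nonneg _)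
      rw [h3]
      calc |τ| * |ν| ≤ (CB * |ε|) * |ν| := h5
        _ = |α| * (CB * |p * ν|) := by rw [hε, abs_mul, abs_mul]; ring
    exact le_of_mul_le_mul_left h2 hα0
  by_cases hc : |p * ν| ≤ 2 * |s|
  · left
    have h2 : |κ| * |p * ν| ≤ (2 * CB) * |p * ν| := by
      have h3 : |κ| * |p * ν| ≤ |κ| * (2 * |s|) := mul_le_mul_of_nonneg_left hc (abs_nonneg _)
      linarith
    exact le_of_mul_le_mul_right h2 hpν1
  · right
    push Not at hc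
    have h2 : |p * ν| ≤ |s| + |κ - 1| * |b2| := by
      rw [← hν, ← abs_mul]; exact abs_add_le _ _
    have h3 : |κ - 1| ≤ 2 * |κ| := by
      have h4 := abs_sub κ 1
      rw [abs_one] at h4
      have h5 : 1 ≤ |κ| := Int.one_le_abs hκ0
      linarith
    have h4 : |κ - 1| * |b2| ≤ 2 * |κ| * |b2| := mul_le_mul_of_nonneg_right h3 (abs_nonneg _)
    have h5 : |p * ν| ≤ 4 * |κ| * |b2| := by linarith
    have h6 : |s| * |p * ν| ≤ (4 * |b2| * CB) * |p * ν| := by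
      have h7 : |s| * |p * ν| ≤ |s| * (4 * |κ| * |b2|) :=
        mul_le_mul_of_nonneg_left h5 (abs_nonneg _)
      have h8 : (4 * |b2|) * (|κ| * |s|) ≤ (4 * |b2|) * (CB * |p * ν|) :=
        mul_le_mul_of_nonneg_left e3 (by positivity)
      calc |s| * |p * ν| ≤ |s| * (4 * |κ| * |b2|) := h7
        _ = (4 * |b2|) * (|κ| * |s|) := by ring
        _ ≤ (4 * |b2|) * (CB * |p * ν|) := h8
        _ = _ := by ring
    exact le_of_mul_le_mul_right h6 hpν1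

/-- the modulus `M` -/
theorem exists_M {b2 ε τ p C1 K0 : ℤ} {n : ℕ} (hp : Prime p) (hpε : p ∣ ε) (hτ : ¬ p ∣ τ)
    (hpC : |b2| + C1 + n + 2 < |p|) (hC1 : 0 ≤ C1) :
    ∃ M : ℤ, M ≠ 0 ∧ ¬ p ∣ M ∧ (∀ κ, |κ| ≤ K0 → τ - κ * ε ∣ M) ∧
      (∀ s, |s| ≤ C1 → s ≠ b2 → b2 - s ∣ M) ∧ (∀ i : ℕ, i < n → ((i : ℤ) + 2) ∣ M) := by
  classical
  obtain ⟨M1, hM1⟩ : ∃ M1 : ℤ, M1 = ∏ κ ∈ Finset.Icc (-K0) K0, (τ - κ * ε) := ⟨_, rfl⟩
  obtain ⟨M2, hM2⟩ : ∃ M2 : ℤ, M2 = ∏ s ∈ Finset.Icc (-C1) C1, (if s = b2 then 1 else b2 - s) :=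
    ⟨_, rfl⟩
  obtain ⟨M3, hM3⟩ : ∃ M3 : ℤ, M3 = ∏ i ∈ Finset.range n, ((i : ℤ) + 2) := ⟨_, rfl⟩
  have p1 : ¬ p ∣ M1 := by
    intro h
    rw [hM1] at h
    obtain ⟨κ, _, hκ⟩ := hp.exists_mem_finset_dvd h
    apply hτ
    have := dvd_add hκ (Dvd.dvd.mul_left hpε κ)
    rwa [sub_add_cancel] at this
  have p2 : ¬ p ∣ M2 := by
    intro h
    rw [hM2] at h
    obtain ⟨s, hs, hs'⟩ := hp.exists_mem_finset_dvd h
    by_cases hsb : s = b2
    · rw [if_pos hsb] at hs'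
      exact hp.not_isUnit (isUnit_of_dvd_one hs')
    · rw [if_neg hsb] at hs'
      refine not_dvd_of_abs_lt (sub_ne_zero.mpr (Ne.symm hsb)) ?_ hs'
      have h1 : |s| ≤ C1 := abs_le.mpr (Finset.mem_Icc.mp hs)
      have h2 := abs_sub b2 s
      have h3 : (0 : ℤ) ≤ n := Int.natCast_nonneg n
      linarith
  have p3 : ¬ p ∣ M3 := by
    intro h
    rw [hM3] at h
    obtain ⟨i, hi, hi'⟩ := hp.exists_mem_finset_dvd h
    have h0 : (0 : ℤ) ≤ i := Int.natCast_nonneg i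
    refine not_dvd_of_abs_lt (by linarith) ?_ hi'
    have h1 : (i : ℤ) < n := by exact_mod_cast Finset.mem_range.mp hi
    rw [abs_of_nonneg (by linarith)]
    have := abs_nonneg b2
    linarith
  refine ⟨M1 * (M2 * M3), ?_, ?_, ?_, ?_, ?_⟩
  · intro h
    apply p1
    rcases mul_eq_zero.mp h with h1 | h1
    · rw [h1]; exact dvd_zero p
    rcases mul_eq_zero.mp h1 with h1 | h1
    · exact absurd (h1 ▸ dvd_zero p) p2
    · exact absurd (h1 ▸ dvd_zero p) p3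
  · intro h
    rcases hp.dvd_or_dvd h with h | h
    · exact p1 h
    · exact (hp.dvd_or_dvd h).elim p2 p3
  · intro κ hκ
    apply Dvd.dvd.mul_right
    rw [hM1]
    exact Finset.dvd_prod_of_mem (fun κ => τ - κ * ε) (Finset.mem_Icc.mpr (abs_le.mp hκ))
  · intro s hs hsb
    apply Dvd.dvd.mul_left
    apply Dvd.dvd.mul_right
    rw [hM2]
    have := Finset.dvd_prod_of_mem (fun s => if s = b2 then 1 else b2 - s)
      (Finset.mem_Icc.mpr (abs_le.mp hs))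
    simpa [hsb] using this
  · intro i hi
    apply Dvd.dvd.mul_left
    apply Dvd.dvd.mul_left
    rw [hM3]
    exact Finset.dvd_prod_of_mem (fun i : ℕ => (i : ℤ) + 2) (Finset.mem_range.mpr hi)

/-- case (P) of `k3u_g1` is a win -/
theorem k3u_g1P {R B : Finset Pt} {α b1 b2 ε p τ CB C1 : ℤ} (K : K3C R B α b1 b2)
    (N : G1N B α b1 b2 ε p) (hτp : ¬ p ∣ b2 * τ) (hτX : ∀ β ∈ B, DX b1 b2 β ≠ b2 * τ)
    (htR : ((τ, 0) : Pt) ∉ insert ((ε, 0) : Pt) R) (htB : ((τ, 0) : Pt) ∉ B)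
    (hN1 : NoThreat (insert (ε, 0) R) (insert (τ, 0) B))
    (hcbU : Uncov (insert (ε, 0) R) (insert (τ, 0) B) (0, 0) (b1, b2))
    (hbe : ALine (insert (ε, 0) R) (insert (τ, 0) B) (b1, b2) (ε, 0))
    (hCB0 : 0 ≤ CB)
    (hC1 : C1 = 4 * |b2| * CB + 2 * CB) (hpC : |b2| + C1 + B.card + 7 < |p|)
    (hfar1 : (2 * CB) * (2 * CB) * (α * α) * |b2| < |τ|)
    (hfar2 : ∀ β ∈ B, |DX b1 b2 β| < |τ|)
    (hτb : |b2 * τ| ≤ CB * |ε|) (K0 : ℤ) :
    ∃ M : ℤ, M ≠ 0 ∧ ¬ p ∣ M ∧ ∀ᶠ G : ℤ in cofinite, M ∣ G - 1 → ¬ p ∣ G →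
      (∀ κ, |κ| ≤ C1 → κ ≠ 1 → ¬ p ∣ G * (1 - κ) - 1) →
      (∀ s, |s| ≤ C1 → s ≠ 0 → ¬ p ∣ G * s - b2) →
      IsCoprime (G * b1 - α) (G * b2) → IsCoprime (G * b1 - ε) (G * b2) →
      ∀ t2, Col (0, 0) (b1, b2) t2 → t2 ∉ insert ((G * b1, G * b2) : Pt) (insert (ε, 0) R) →
        t2 ∉ insert ((τ, 0) : Pt) B →
        (∀ z, Col (G * b1, G * b2) (ε, 0) z →
            z ∉ insert ((G * b1, G * b2) : Pt) (insert (ε, 0) R) →
            ∀ u ∈ insert t2 (insert ((τ, 0) : Pt) B), ∀ v ∈ insert t2 (insert ((τ, 0) : Pt) B),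
            u ≠ v → Col u v z → (∃ r ∈ insert ((G * b1, G * b2) : Pt) (insert (ε, 0) R),
              Col u v r) ∨ (Col t2 (τ, 0) u ∧ Col t2 (τ, 0) v)) →
          (∀ r ∈ insert ((G * b1, G * b2) : Pt) (insert (ε, 0) R), ¬ Col t2 (τ, 0) r) →
          (∃ k, k ≠ 0 ∧ k ≠ 1 ∧ |k| ≤ K0 ∧ HE b2 ε G t2.2 (τ * b2) 0 k) →
        Win (insert (G * b1, G * b2) (insert (ε, 0) R)) (insert t2 (insert (τ, 0) B)) := by
  classical
  have hb2 := K.hb2
  have hα := K.hα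
  have hp := N.hp
  have hpε : p ∣ ε := ⟨α, by rw [N.hε]; ring⟩
  have hε0 : ε ≠ 0 := by rw [N.hε]; exact mul_ne_zero hα hp.ne_zero
  have hτ : ¬ p ∣ τ := fun h => hτp (Dvd.dvd.mul_left h _)
  have hτ0 : τ ≠ 0 := by rintro rfl; exact hτ (dvd_zero p)
  have hτε : τ ≠ ε := by rintro rfl; exact hτ hpε
  have hC1n : 0 ≤ C1 := by rw [hC1]; positivity
  obtain ⟨C0, hC00, hC0⟩ := exists_C0 (insert ((τ, 0) : Pt) B) b1 b2
  obtain ⟨M, hM0, hpM, hMκ, hMs, hMi⟩ := exists_M (b2 := b2) (C1 := C1) (K0 := K0)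
    (n := B.card + 4) hp hpε hτ (by push_cast; linarith) hC1n
  refine ⟨M, hM0, hpM, ?_⟩
  filter_upwards [ev_G1G ((insert (ε, 0) R) ∪ (insert (τ, 0) B)) (insert (τ, 0) B) α b1 b2 ε τ C0
    hb2 hε0, ev_PKG (insert (τ, 0) B) b1 b2 ε τ K0] with G D DP
  intro hMG hpG hcl1 hcl2 hca hce t2 ht2c ht2R ht2B hge hmR ⟨κ, hκ0, hκ1, hκK, hHE⟩
  have X := mk_GX K hε0 N.hα1 N.hX hτX htR htB hN1 hcbU hbe hC0 D hca hce ht2c ht2R ht2B
  have hG0 := D.g0
  have h1κ : (1 : ℤ) - κ ≠ 0 := sub_ne_zero.mpr (Ne.symm hκ1)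
  have hQ : τ - κ * ε ≠ 0 := by
    intro h
    apply hτ
    obtain ⟨m, hm⟩ := hpε
    exact ⟨κ * m, by rw [hm] at h; linear_combination h⟩
  have hT : (τ - κ * ε) * t2.2 = τ * (1 - κ) * G * b2 := by
    unfold HE at hHE
    apply mul_left_cancel₀ hb2
    linear_combination -hHE
  -- `s`
  have hcop : IsCoprime (τ - κ * ε) G := by
    obtain ⟨q, hq⟩ := (hMκ κ hκK).trans hMG
    exact ⟨-q, 1, by linear_combination hq⟩
  obtain ⟨s, hs⟩ : τ - κ * ε ∣ τ * (1 - κ) * b2 := by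
    apply hcop.dvd_of_dvd_mul_right
    exact ⟨t2.2, by linear_combination -hT⟩
  have hs' : (τ - κ * ε) * s = τ * (1 - κ) * b2 := hs.symm
  have hs0 : s ≠ 0 := by
    rintro rfl
    rw [mul_zero] at hs'
    exact mul_ne_zero (mul_ne_zero hτ0 h1κ) hb2 hs'.symm
  have hsb : s ≠ b2 := by
    intro h
    rw [h] at hs'
    have : κ * (b2 * (τ - ε)) = 0 := by linear_combination hs'
    rcases mul_eq_zero.mp this with h1 | h1
    · exact hκ0 h1
    rcases mul_eq_zero.mp h1 with h1 | h1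
    · exact hb2 h1
    · exact hτε (by linarith)
  obtain ⟨ν, hν, hfam⟩ := p_families hb2 hα hp N.hε hτ hκ0 hs0 hτb hs'
  have hbn : 0 ≤ |b2| := abs_nonneg _
  have hcn : (0 : ℤ) ≤ B.card := Int.natCast_nonneg _
  have hbCB : 0 ≤ 4 * |b2| * CB := by positivity
  -- the common conclusion
  have go : ¬ p ∣ 1 - κ → ¬ p ∣ G * (1 - κ) - 1 →
      ((∀ ζ, τ * ζ ≠ κ * ε * b2 * ((κ + 1) * τ - κ * ε)) ∨
      ∃ s g', (τ - κ * ε) * s = τ * (1 - κ) * b2 ∧ G - 1 = (b2 - s) * g' ∧ s ≠ b2) →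
      Win (insert (G * b1, G * b2) (insert (ε, 0) R)) (insert t2 (insert (τ, 0) B)) := by
    intro h1 h2 hAlt
    refine pkill_core X K.hy hp hpε N.hpX (by rw [mul_comm]; exact hτp) hτε ?_ hκ0 hκ1 h1 h2 hpG
      hce hT hge hmR (DP κ (Finset.mem_Icc.mpr (abs_le.mp hκK))) ?_ hAlt
    · intro β hβ h
      have h3 := hfar2 β hβ
      by_cases hby : b2 - β.2 = 0
      · rw [hby, mul_zero] at h
        exact N.hpX β hβ (h ▸ dvd_zero p)
      · rw [← h, abs_mul] at h3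
        exact absurd h3 (not_lt.mpr (le_mul_of_one_le_right (abs_nonneg _)
          (Int.one_le_abs hby)))
    · intro i hi
      exact (hMi i hi).trans hMG
  rcases hfam with hκb | hsb'
  · -- `κ` bounded
    refine go ?_ ?_ (Or.inl ?_)
    · refine not_dvd_of_abs_lt h1κ ?_
      have := abs_sub (1 : ℤ) κ
      rw [abs_one] at this
      linarith
    · exact hcl1 κ (by linarith) hκ1
    · intro ζ hζ
      have h1 : τ ∣ κ * κ * (α * α) * b2 := by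
        have h2 : τ ∣ κ * κ * (α * α) * b2 * (p * p) := by
          refine ⟨κ * ε * b2 * (κ + 1) - ζ, ?_⟩
          rw [N.hε] at hζ ⊢
          linear_combination hζ
        have h3 : IsCoprime τ p := ((Prime.coprime_iff_not_dvd hp).mpr hτ).symm
        exact (h3.mul_right h3).dvd_of_dvd_mul_right h2
      have h2 : κ * κ * (α * α) * b2 ≠ 0 :=
        mul_ne_zero (mul_ne_zero (mul_ne_zero hκ0 hκ0) (mul_ne_zero hα hα)) hb2
      have h3 : |τ| ≤ |κ * κ * (α * α) * b2| :=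
        Int.le_of_dvd (abs_pos.mpr h2) ((abs_dvd_abs _ _).mpr h1)
      have h4 : |κ * κ * (α * α) * b2| = |κ| * |κ| * (α * α) * |b2| := by
        rw [abs_mul, abs_mul, abs_mul, abs_mul_self]
      have h5 : |κ| * |κ| ≤ (2 * CB) * (2 * CB) :=
        mul_le_mul hκb hκb (abs_nonneg _) (by linarith)
      have h6 : |κ| * |κ| * (α * α) * |b2| ≤ (2 * CB) * (2 * CB) * (α * α) * |b2| :=
        mul_le_mul_of_nonneg_right (mul_le_mul_of_nonneg_right h5 (mul_self_nonneg α)) hbn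
      linarith
  · -- `s` bounded
    have hsC : |s| ≤ C1 := by linarith
    have hps : ¬ p ∣ s := not_dvd_of_abs_lt hs0 (by linarith)
    refine go ?_ ?_ (Or.inr ?_)
    · rintro ⟨q, hq⟩
      apply hps
      exact ⟨ν + q * b2, by linear_combination hν + b2 * hq⟩
    · rintro ⟨q, hq⟩
      apply hcl2 s hsC hs0
      exact ⟨b2 * q + G * ν, by linear_combination b2 * hq + G * hν⟩
    · obtain ⟨g', hg'⟩ := (hMs s hsC hsb).trans hMG
      exact ⟨s, g', hs', hg', hsb⟩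

end Pool.Agent.K4L
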