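import Pool.Agent.K4L.K3UAsm

/-!
# K3U: the theorem, from (F)
-/

namespace Pool.Agent.K4L

open Filter

theorem k3u_of_F {R B : Finset Pt} {α b1 b2 : ℤ} (K : K3C R B α b1 b2)
    (hprim : IsCoprime (α - b1) b2)
    (hX : ∀ β ∈ B, ∀ β' ∈ B, β ≠ β' → DX b1 b2 β ≠ DX b1 b2 β')
    (HF : ∀ CB : ℤ, HypF R B α b1 b2 CB) : Win R B := by
  classical
  have hb2 := K.hb2
  have hα := K.hα
  have hD : ∀ β ∈ B, DX b1 b2 β ≠ 0 := fun β hβ => K.hD β hβ
  -- constants
  obtain ⟨CB, hCB⟩ : ∃ CB : ℤ, CB = ∑ β ∈ B, (|DX b1 b2 β| + |β.2| +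
    |β.2| * (|DX b1 b2 β| + |b2 - β.2|)) := ⟨_, rfl⟩
  have hCB0 : 0 ≤ CB := by rw [hCB]; exact Finset.sum_nonneg (fun _ _ => by positivity)
  have hCBb : ∀ β ∈ B, |DX b1 b2 β| + |β.2| + |β.2| * (|DX b1 b2 β| + |b2 - β.2|) ≤ CB := by
    intro β hβ
    rw [hCB]
    exact Finset.single_le_sum (f := fun β : Pt => |DX b1 b2 β| + |β.2| +
      |β.2| * (|DX b1 b2 β| + |b2 - β.2|)) (fun _ _ => by positivity) hβ
  obtain ⟨C1, hC1⟩ : ∃ C1 : ℤ, C1 = 4 * |b2| * CB + 2 * CB := ⟨_, rfl⟩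
  have hC10 : 0 ≤ C1 := by rw [hC1]; positivity
  obtain ⟨Q0, TF, c0, hQ0, evF⟩ := HF CB
  obtain ⟨Kt, hKt⟩ : ∃ K : ℤ, K = ∑ β ∈ B, |b2 * β.1 - b1 * β.2| * (1 + |β.2|) := ⟨_, rfl⟩
  have hKt0 : 0 ≤ Kt := by rw [hKt]; exact Finset.sum_nonneg (fun _ _ => by positivity)
  obtain ⟨T0, hT0⟩ : ∃ T0 : ℤ, T0 = Kt + |TF| + (2 * CB) * (2 * CB) * (α * α) * |b2| + 4 * CB :=
    ⟨_, rfl⟩
  have hx1 : 0 ≤ (2 * CB) * (2 * CB) * (α * α) * |b2| := by
    have : 0 ≤ α * α := mul_self_nonneg α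
    positivity
  have hTF := abs_nonneg TF
  obtain ⟨L0, evN⟩ := k3u_nearT K.hN K.hB hα hb2 (show b1 = 1 * b1 by ring)
    (show b2 = 1 * b2 by ring) K.hL K.hLU K.hM K.hMU
  obtain ⟨Q2, hQ2, evG2⟩ := k3u_g2 K hprim
  -- the class modulus
  obtain ⟨Q, hQ⟩ : ∃ Q : ℤ, Q = Q0 * (Q2 * (b2 * ((B.card + 5).factorial : ℤ))) := ⟨_, rfl⟩
  have hQne : Q ≠ 0 := by
    rw [hQ]
    refine mul_ne_zero hQ0 (mul_ne_zero hQ2 (mul_ne_zero hb2 ?_))
    exact_mod_cast Nat.factorial_ne_zero _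
  -- `ℓ`
  obtain ⟨Bd, hBd⟩ : ∃ Bd : ℤ, Bd = |L0| + |Q| + |α| + CB + B.card + 10 := ⟨_, rfl⟩
  obtain ⟨l, hlB, hlp⟩ := Nat.exists_infinite_primes (Bd.toNat + 1)
  have hlB' : Bd < (l : ℤ) := by
    have h1 : Bd ≤ Bd.toNat := Int.self_le_toNat Bd
    have h2 : ((Bd.toNat + 1 : ℕ) : ℤ) ≤ l := by exact_mod_cast hlB
    push_cast at h2
    linarith
  have hl : Prime (l : ℤ) := Nat.prime_iff_prime_int.mp hlp
  have hcard0 : (0 : ℤ) ≤ B.card := Int.natCast_nonneg _
  have a1 := abs_nonneg L0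
  have a2 := abs_nonneg Q
  have a3 := abs_nonneg α
  have hlabs : |(l : ℤ)| = l := abs_of_nonneg (Int.natCast_nonneg _)
  have hlQ : ¬ (l : ℤ) ∣ Q := not_dvd_of_abs_lt hQne (by rw [hlabs]; linarith)
  have hlα : ¬ (l : ℤ) ∣ α := not_dvd_of_abs_lt hα (by rw [hlabs]; linarith)
  have hlX : ∀ β ∈ B, ¬ (l : ℤ) ∣ DX b1 b2 β := by
    intro β hβ
    refine not_dvd_of_abs_lt (hD β hβ) ?_
    have h1 := hCBb β hβ
    have h2 : 0 ≤ |β.2| * (|DX b1 b2 β| + |b2 - β.2|) := by positivity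
    have h3 := abs_nonneg β.2
    rw [hlabs]; linarith
  obtain ⟨r0, hr0⟩ := exists_residue hl
    (insert (α, 0) (insert (α, α) (B.image (fun β => (α * (b2 - β.2), DX b1 b2 β))))) (by
    intro s hs
    rcases Finset.mem_insert.mp hs with rfl | hs
    · exact fun h => hlα h.1
    rcases Finset.mem_insert.mp hs with rfl | hs
    · exact fun h => hlα h.1
    obtain ⟨β, hβ, rfl⟩ := Finset.mem_image.mp hs
    exact fun h => hlX β hβ h.2) (by
    have h1 := Finset.card_insert_le ((α, 0) : ℤ × ℤ)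
      (insert (α, α) (B.image (fun β => (α * (b2 - β.2), DX b1 b2 β))))
    have h2 := Finset.card_insert_le ((α, α) : ℤ × ℤ)
      (B.image (fun β => (α * (b2 - β.2), DX b1 b2 β)))
    have h3 := Finset.card_image_le (s := B) (f := fun β => (α * (b2 - β.2), DX b1 b2 β))
    have h4 : ((insert ((α, 0) : ℤ × ℤ)
      (insert (α, α) (B.image (fun β => (α * (b2 - β.2), DX b1 b2 β))))).card : ℤ) ≤
      (B.card : ℤ) + 2 := by exact_mod_cast (by omega)
    rw [hlabs]; linarith)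
  have hlr : ¬ (l : ℤ) ∣ r0 := by
    intro h
    apply hr0 (α, 0) (Finset.mem_insert_self _ _)
    simp only [sub_zero]
    exact Dvd.dvd.mul_right h _
  -- conditions on `p`
  have ev1 := ev_mul hα (evN l hl (by have := le_abs_self L0; linarith) T0)
  have ev4 := ev_G1N (B := B) (b1 := b1) hα hb2 hD K.hy hX
  have ev5 := ev_mul hα ((be_pairs K).and (be_alive K))
  have ev6 : ∀ᶠ p : ℤ in cofinite, |b2| + C1 + B.card + 7 + |c0| + 4 * C1 + 10 + |α| +
      4 * CB + T0 < |p| := ev_abs _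
  have ev7 : ∀ᶠ p : ℤ in cofinite, ∀ β ∈ B,
      |DX b1 b2 β| + |β.2 * α * (b2 - β.2)| + |β.2| < |p| := ev_fin B (fun _ _ => ev_abs _)
  have ev8 : ∀ᶠ p : ℤ in cofinite, ∀ z ∈ R ∪ B, α * p + 0 ≠ z.1 :=
    ev_fin _ (fun z _ => ev_linne _ _ _ (Or.inl hα))
  obtain ⟨p, hp, hpQ, hpl, ⟨⟨e1, e2⟩, ⟨e3, e4⟩, ⟨⟨e5a, e5b⟩, e6⟩, e7, e8⟩⟩ :=
    exists_prime_class2 ((ev1.and evG2).and ((evF.and ev4).and
      ((ev5.and ev6).and (ev7.and ev8)))) hQne hl hlQ hlr
  have hQ0p : Q0 ∣ p - 1 := (Dvd.intro _ hQ.symm).trans hpQ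
  have hQ2p : Q2 ∣ p - 1 := by
    refine dvd_trans ?_ hpQ
    rw [hQ]; exact Dvd.dvd.mul_left (dvd_mul_right _ _) _
  have hb2p : b2 ∣ p - 1 := by
    refine dvd_trans ?_ hpQ
    rw [hQ]; exact Dvd.dvd.mul_left (Dvd.dvd.mul_left (dvd_mul_right _ _) _) _
  have hfp : ((B.card + 5).factorial : ℤ) ∣ p - 1 := by
    refine dvd_trans ?_ hpQ
    rw [hQ]; exact Dvd.dvd.mul_left (Dvd.dvd.mul_left (dvd_mul_left _ _) _) _
  have N : G1N B α b1 b2 (α * p) p := e4 hp
  have e3' := e3 hp hQ0p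
  have hc0 := abs_nonneg c0
  have hc0' := le_abs_self c0
  have hb2a := abs_nonneg b2
  have hT00 : 0 ≤ T0 := by linarith
  have hpb : ¬ p ∣ b2 := not_dvd_of_abs_lt hb2 (by linarith)
  have hpα : ¬ p ∣ α := not_dvd_of_abs_lt hα (by linarith)
  have hpX := N.hpX
  have hp0 : p ≠ 0 := hp.ne_zero
  have hε0 : α * p ≠ 0 := mul_ne_zero hα hp0
  obtain ⟨ε, hε⟩ : ∃ ε, ε = α * p := ⟨_, rfl⟩
  have hpε : p ∣ ε := ⟨α, by rw [hε]; ring⟩
  -- the move `e`
  have heR : ((α * p, 0) : Pt) ∉ R := fun h => e8 _ (Finset.mem_union_left _ h) (by ring)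
  have heB : ((α * p, 0) : Pt) ∉ B := fun h => e8 _ (Finset.mem_union_right _ h) (by ring)
  refine win_force K.hL heR heB (by unfold Col; simp only; ring)
    (K.hN.mono (Finset.subset_insert _ _) (Finset.Subset.refl _)) ?_
  intro t htR htB htc
  obtain ⟨τ, rfl⟩ : ∃ τ : ℤ, t = (τ, 0) := by
    refine ⟨t.1, ?_⟩
    unfold Col at htc
    simp only at htc
    have : α * t.2 = 0 := by linarith
    rcases mul_eq_zero.mp this with h | h
    · exact absurd h hα
    · exact Prod.ext rfl h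
  have htR' : ((τ, 0) : Pt) ∉ R := fun h => htR (Finset.mem_insert_of_mem h)
  have hN1 : NoThreat (insert (α * p, 0) R) (insert (τ, 0) B) :=
    K.hN.of_uncov K.hLU (Finset.subset_insert _ _) htc htR' htB
  have hτ0 : τ ≠ 0 := by rintro rfl; exact htR' K.cR
  have hτε : τ ≠ α * p := by rintro rfl; exact htR (Finset.mem_insert_self _ _)
  by_cases hnear : |τ| ≤ T0
  · -- near
    refine e1 ?_ ?_ ?_ ?_ ?_ (τ, 0) htc htR htB hnear
    · apply forkSols_int _ hα
      · intro i hi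
        refine dvd_trans ?_ hfp
        have : ((i : ℤ) + 2) = ((i + 2 : ℕ) : ℤ) := by push_cast; ring
        rw [this]
        exact_mod_cast Nat.dvd_factorial (by omega) (by omega)
      · push_cast
        linarith
    · obtain ⟨c, hc⟩ := hb2p
      have h3 := IsCoprime.add_mul_left_left hprim (α * c)
      have e : α - b1 + b2 * (α * c) = α * p - b1 := by linear_combination (-α) * hc
      rwa [e] at h3
    · intro h
      rcases hl.dvd_or_dvd h with h | h
      · exact hlα h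
      · apply hlr
        have := dvd_sub h hpl
        rwa [sub_sub_cancel] at this
    · intro h
      apply hr0 (α, α) (Finset.mem_insert_of_mem (Finset.mem_insert_self _ _))
      have := dvd_sub h (Dvd.dvd.mul_left hpl α)
      have e : α * p - α - α * (p - r0) = r0 * α - α := by ring
      rw [e] at this
      exact this
    · intro β hβ h
      apply hr0 (α * (b2 - β.2), DX b1 b2 β) (Finset.mem_insert_of_mem
        (Finset.mem_insert_of_mem (Finset.mem_image.mpr ⟨β, hβ, rfl⟩)))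
      have h1 := dvd_add h (Dvd.dvd.mul_left hpl (α * (b2 - β.2)))
      have h2 := (dvd_neg (α := ℤ)).mpr h1
      have e : -(b2 * β.1 - b1 * β.2 - α * p * (b2 - β.2) + α * (b2 - β.2) * (p - r0)) =
          r0 * (α * (b2 - β.2)) - DX b1 b2 β := by unfold DX; ring
      rw [e] at h2
      exact h2
  push Not at hnear
  have hxx : 0 ≤ 4 * CB := by linarith
  have hτKt : Kt < |τ| := by linarith
  have hcbU : Uncov (insert (α * p, 0) R) (insert (τ, 0) B) (0, 0) (b1, b2) :=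
    cb_unc K (by rw [← hKt]; exact hτKt)
  have hbe : ALine (insert (α * p, 0) R) (insert (τ, 0) B) (b1, b2) (α * p, 0) := by
    refine ⟨Finset.mem_insert_of_mem K.bR, Finset.mem_insert_self _ _, ?_, ?_⟩
    · intro h
      exact hb2 (congrArg Prod.snd h)
    · intro z hz hc
      rcases Finset.mem_insert.mp hz with rfl | hz
      · unfold Col at hc
        simp only at hc
        have : b2 * (τ - α * p) = 0 := by linear_combination hc
        rcases mul_eq_zero.mp this with h | h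
        · exact hb2 h
        · exact hτε (by linarith)
      · exact e5b z hz hc
  have hXτ : ∀ β ∈ B, |DX b1 b2 β| < |τ| := by
    intro β hβ
    have h1 := hCBb β hβ
    have h2 : 0 ≤ |β.2| * (|DX b1 b2 β| + |b2 - β.2|) := by positivity
    have h3 := abs_nonneg β.2
    linarith
  have hτX : ∀ β ∈ B, DX b1 b2 β ≠ b2 * τ := by
    intro β hβ h
    have h1 := hXτ β hβ
    rw [h, abs_mul] at h1
    exact absurd h1 (not_lt.mpr (le_mul_of_one_le_left (abs_nonneg _) (Int.one_le_abs hb2)))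
  have hcop : IsCoprime (b1 - α * p) b2 := by
    obtain ⟨c, hc⟩ := hb2p
    have h3 := IsCoprime.add_mul_left_left (IsCoprime.neg_left hprim) (-(α * c))
    have e : -(α - b1) + b2 * (-(α * c)) = b1 - α * p := by linear_combination α * hc
    rwa [e] at h3
  have hpcard : (1 : ℤ) < |p| := by linarith
  -- case gamma1
  have gamma1 : ¬ p ∣ b2 * τ → |b2 * τ| ≤ CB * |α * p| → Win (insert (α * p, 0) R)
      (insert (τ, 0) B) := by
    intro hpτ hτb
    obtain ⟨K0, Q1, S, hQ1, hpQ1, hScard, hS, evG⟩ := e3' τ (by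
      have := le_abs_self TF; linarith) hpτ hτX htR htB hN1 hcbU hbe hτb
    obtain ⟨M, hM0, hpM, evP⟩ := k3u_g1P K N hpτ hτX htR htB hN1 hcbU hbe hCB0 hC1
      (by linarith) (by linarith) hXτ hτb K0
    obtain ⟨S', hS'c, hS', hS'G⟩ := pairsP hp hpb hC10
    refine LeafG.win K hprim hp rfl hpb hpα hb2p hτ0 hN1
      ⟨Q1 * M, S ∪ S', mul_ne_zero hQ1 hM0, ?_, ?_, ?_, ?_⟩
    · intro h
      rcases hp.dvd_or_dvd h with h | h
      · exact hpQ1 h
      · exact hpM h
    · have h1 := Finset.card_union_le S S'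
      have h2 : ((S ∪ S').card : ℤ) ≤ (S.card : ℤ) + S'.card := by exact_mod_cast h1
      linarith
    · intro s hs
      rcases Finset.mem_union.mp hs with hs | hs
      · exact hS s hs
      · exact hS' s hs
    · filter_upwards [evG, evP] with G h1 h2
      intro g1 g2 g3 g4 g5 t2 g6 g7 g8
      rcases h1 ((dvd_mul_right _ _).trans g1) g2
        (fun s hs => g3 s (Finset.mem_union_left _ hs)) g4 g5 t2 g6 g7 g8 with h | h
      · exact h
      · obtain ⟨i1, i2⟩ := hS'G G (fun s hs => g3 s (Finset.mem_union_right _ hs))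
        exact h2 ((dvd_mul_left _ _).trans g1) g2 i1 i2 g4 g5 t2 g6 g7 g8 h.1 h.2.1 h.2.2
  by_cases hbeU : Uncov (insert (α * p, 0) R) (insert (τ, 0) B) (b1, b2) (α * p, 0)
  · by_cases hpar : ∀ β ∈ B, b2 * τ ≠ (α * p) * β.2 + DX b1 b2 β
    · -- `b e` uncovered, no parallel
      have hs : ∀ β ∈ B, |DX b1 b2 β * (τ - α * p)| <
          |α * p * (τ * b2 - DX b1 b2 β)| := by
        intro β hβ
        have h1 := hCBb β hβ
        have h2 : 0 ≤ |β.2| * (|DX b1 b2 β| + |b2 - β.2|) := by positivity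
        have h3 := abs_nonneg β.2
        have hDX : |DX b1 b2 β| ≤ CB := by linarith
        have hd0 := abs_nonneg (DX b1 b2 β)
        have hp1 : |p| ≤ |α * p| := by
          rw [abs_mul]; exact le_mul_of_one_le_left (abs_nonneg _) (Int.one_le_abs hα)
        have g1 : |τ - α * p| ≤ |τ| + |α * p| := abs_sub _ _
        have g2 : |τ| - CB ≤ |τ * b2 - DX b1 b2 β| := by
          have h5 := abs_sub_abs_le_abs_sub (τ * b2) (DX b1 b2 β)
          have h6 : |τ| ≤ |τ * b2| := by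
            rw [abs_mul]; exact le_mul_of_one_le_right (abs_nonneg _) (Int.one_le_abs hb2)
          linarith
        rw [abs_mul, abs_mul]
        have g3 : 4 * CB < |α * p| := by linarith
        have g4 : 4 * CB < |τ| := by linarith
        have g5 : |DX b1 b2 β| * |τ - α * p| ≤ CB * (|τ| + |α * p|) :=
          mul_le_mul hDX g1 (abs_nonneg _) hCB0
        have g6 : |α * p| * (|τ| - CB) ≤ |α * p| * |τ * b2 - DX b1 b2 β| :=
          mul_le_mul_of_nonneg_left g2 (abs_nonneg _)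
        have g7 : CB * (|τ| + |α * p|) < |α * p| * (|τ| - CB) := by
          have t1 := abs_nonneg τ
          have t2 := abs_nonneg (α * p)
          nlinarith
        linarith
      refine LeafG.win K hprim hp rfl hpb hpα hb2p hτ0 hN1
        ⟨1, ∅, one_ne_zero, fun h => hp.not_isUnit (isUnit_of_dvd_one h), by simpa using by linarith,
          by simp, ?_⟩
      filter_upwards [k3u_g1U K N hτX hs htR htB hN1 hcbU hbe hcop hbeU hpar] with G hG
      intro _ _ _ g4 g5 t2 g6 g7 g8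
      exact hG g4 g5 t2 g6 g7 g8
    · -- parallel
      push Not at hpar
      obtain ⟨β, hβ, hpar⟩ := hpar
      refine gamma1 ?_ (tau_bd_par hε0 (by positivity) (hCBb β hβ) hpar)
      intro h
      apply hpX β hβ
      rw [hpar] at h
      have h2 : p ∣ α * p * β.2 := ⟨α * β.2, by ring⟩
      exact (dvd_add_right h2).mp h
  · -- `b e` hit
    unfold Uncov at hbeU
    push Not at hbeU
    obtain ⟨z, hz, hzR, hzB, u, hu, v, hv, huv, hcz, hred⟩ := hbeU
    have main : ∀ β ∈ B, Col (τ, 0) β z →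
        (∀ w ∈ insert ((α * p, 0) : Pt) R, ¬ Col (τ, 0) β w) → Win (insert (α * p, 0) R)
          (insert (τ, 0) B) := by
      intro β hβ hc hr
      obtain ⟨m, hzm, hm⟩ := be_index hcop hz hc
      have hm1 : m ≠ 1 := by
        rintro rfl
        apply hzR
        rw [hzm]
        have : ((b1 + 1 * (α * p - b1), (1 - 1) * b2) : Pt) = (α * p, 0) :=
          Prod.ext (by ring) (by ring)
        rw [this]; exact Finset.mem_insert_self _ _
      by_cases hpτ : p ∣ b2 * τ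
      · have h1 : b2 * τ = β.2 * (α * p) :=
          tau_exact hb2 hp hpb (hpX β hβ) hpτ (e7 β hβ) hm1 hm
        exact e2 hQ2p β hβ τ h1 htR htB hN1 hcbU ⟨z, hz, hzR, hc, hr⟩
      · exact gamma1 hpτ (tau_bd hε0 (Dvd.intro_left α rfl) (hpX β hβ) (K.hy β hβ) (hCBb β hβ) hm)
    rcases Finset.mem_insert.mp hu with rfl | hu
    · rcases Finset.mem_insert.mp hv with rfl | hv
      · exact absurd rfl huv
      · exact main v hv hcz hred
    · rcases Finset.mem_insert.mp hv with rfl | hv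
      · exact main u hu hcz.swap12 (fun w hw h => hred w hw h.swap12)
      · exfalso
        have := e5a hcop u hu v hv huv z hz hcz
        rw [this] at hzR
        exact hzR (Finset.mem_insert_of_mem K.bR)

end Pool.Agent.K4L
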