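import Pool.Agent.K4L.LemBCore

/-!
# Lemma B
-/

namespace Pool.Agent.K4L

open Filter

theorem exists_prim {v : Pt} (hv : v ≠ 0) :
    ∃ u : Pt, IsCoprime u.1 u.2 ∧ ∃ g : ℤ, g ≠ 0 ∧ v = (g * u.1, g * u.2) := by
  have hv' : v.1 ≠ 0 ∨ v.2 ≠ 0 := by
    by_contra hc
    apply hv
    rw [not_or, not_not, not_not] at hc
    exact Prod.ext hc.1 hc.2
  have hg : 0 < Int.gcd v.1 v.2 := Int.gcd_pos_iff.mpr hv'
  obtain ⟨g, a, b, _, hcop, h1, h2⟩ := Int.exists_gcd_one' hg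
  refine ⟨(a, b), Int.isCoprime_iff_gcd_eq_one.mpr hcop, g, ?_, ?_⟩
  · intro h0
    apply hv
    rw [h0, mul_zero] at h1 h2
    exact Prod.ext h1 h2
  · refine Prod.ext ?_ ?_
    · simp only; rw [h1]; ring
    · simp only; rw [h2]; ring

theorem line_iff_dt {o a u : Pt} {g : ℤ} (hg : g ≠ 0) (h : a - o = (g * u.1, g * u.2)) (z : Pt) :
    Col o a z ↔ dt u (z - o) = 0 := by
  rw [col_dt, h]
  have : dt ((g * u.1, g * u.2) : Pt) (z - o) = g * dt u (z - o) := by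
    unfold dt; ring
  rw [this]
  constructor
  · intro h0
    exact (mul_eq_zero.mp h0).resolve_left hg
  · intro h0
    rw [h0, mul_zero]

/-- a common multiple of all heights -/
theorem exists_Z0 (R : Finset Pt) (o Y uL uM um : Pt) : ∃ Z : ℤ, Z ≠ 0 ∧
    ∀ x ∈ R, (dt uL (o - x) ≠ 0 → dt uL (o - x) ∣ Z) ∧ (dt uM (o - x) ≠ 0 → dt uM (o - x) ∣ Z) ∧
      (dt um (Y - x) ≠ 0 → dt um (Y - x) ∣ Z) := by
  classical
  let z1 : ℤ → ℤ := fun d => if d = 0 then 1 else d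
  have hz1 : ∀ d, z1 d ≠ 0 := by
    intro d
    by_cases h : d = 0
    · simp [z1, h]
    · simp [z1, h]
  have hz1' : ∀ d, d ≠ 0 → z1 d = d := by
    intro d h; simp [z1, h]
  let Zf : Pt → ℤ := fun x => z1 (dt uL (o - x)) * z1 (dt uM (o - x)) * z1 (dt um (Y - x))
  refine ⟨∏ x ∈ R, Zf x, Finset.prod_ne_zero_iff.mpr
    (fun x _ => mul_ne_zero (mul_ne_zero (hz1 _) (hz1 _)) (hz1 _)), ?_⟩
  intro x hx
  have hd : Zf x ∣ ∏ x ∈ R, Zf x := Finset.dvd_prod_of_mem Zf hx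
  refine ⟨fun h => ?_, fun h => ?_, fun h => ?_⟩
  · refine Dvd.dvd.trans ?_ hd
    have : Zf x = z1 (dt uL (o - x)) * (z1 (dt uM (o - x)) * z1 (dt um (Y - x))) := by
      simp only [Zf]; ring
    rw [this, hz1' _ h]
    exact Dvd.intro _ rfl
  · refine Dvd.dvd.trans ?_ hd
    have : Zf x = z1 (dt uM (o - x)) * (z1 (dt uL (o - x)) * z1 (dt um (Y - x))) := by
      simp only [Zf]; ring
    rw [this, hz1' _ h]
    exact Dvd.intro _ rfl
  · refine Dvd.dvd.trans ?_ hd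
    have : Zf x = z1 (dt um (Y - x)) * (z1 (dt uL (o - x)) * z1 (dt uM (o - x))) := by
      simp only [Zf]; ring
    rw [this, hz1' _ h]
    exact Dvd.intro _ rfl

/-- the arithmetic when `N` meets `M` in the red stone `v0` -/
theorem supply_of_red {o v0 uL uM uN um : Pt} {kN kY Z : ℤ} (cM : IsCoprime uM.1 uM.2)
    (hLM : dt uL uM ≠ 0) (hLN : dt uL uN ≠ 0) (hLm : dt uL um ≠ 0) (hMN : dt uM uN ≠ 0)
    (hMm : dt uM um ≠ 0) (hNm : dt uN um ≠ 0) (hvk : v0 = adv o uM kN) (hZ : Z ≠ 0) :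
    Supply o v0 uL uM uN um kY Z Z := by
  intro VV hVV0 Rb J
  obtain ⟨s, P, E0, W, hW, hss, hs⟩ := exists_transversals_multi uL uM cM hLM
    (Finset.univ : Finset Bool) (fun i => if i then uN else um) (fun i => if i then kN else kY)
    (by
      intro i _
      cases i
      · exact hMm
      · exact hMN)
    (by
      intro i _
      cases i
      · exact hLm
      · exact hLN)
    (by
      intro i _ i' _ hne
      cases i <;> cases i'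
      · exact absurd rfl hne
      · simp only [if_true]
        rw [dt_swap]
        exact neg_ne_zero.mpr hNm
      · exact hNm
      · exact absurd rfl hne)
    VV hVV0 Z hZ Rb J
  refine ⟨s, P, E0, W, hW, hss, ?_⟩
  intro j hj
  obtain ⟨sc, hP, _, hPR, hAR, hI, hG⟩ := hs j hj
  have hIN := hI true (Finset.mem_univ _)
  have hIm := hI false (Finset.mem_univ _)
  simp only [if_true] at hIN
  simp only [Bool.false_eq_true, if_false] at hIm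
  refine ⟨sc, hP, hPR, hAR, hIN, hIm, ?_⟩
  intro n
  obtain ⟨G, hGP, _, hZE, hZG, hi, hV⟩ := hG n
  have hiN := hi true (Finset.mem_univ _)
  have him := hi false (Finset.mem_univ _)
  simp only [if_true] at hiN
  simp only [Bool.false_eq_true, if_false] at him
  obtain ⟨qN, hqN⟩ := hiN
  obtain ⟨qm, hqm⟩ := him
  refine ⟨hZE, ⟨G, hGP, hZG⟩, ⟨Z * qm, ?_, Dvd.intro _ rfl⟩, ⟨Z * qN, ?_⟩, ?_⟩
  · linear_combination -hqm + hGP
  · have e : dt (s j) (v0 - o) = kN * P := by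
      rw [← hP, hvk]; unfold dt adv; simp only [Prod.fst_sub, Prod.snd_sub]; ring
    rw [e]
    linear_combination -hqN + hGP
  · intro v hv h1 h2
    refine hV v hv ?_
    intro i _
    cases i
    · exact h2
    · exact h1

/-- the directions of the four lines and what is known about them -/
structure Dirs (o a b v0 r p q Y uL uM uN um : Pt) (kY : ℤ) : Prop where
  cL : IsCoprime uL.1 uL.2
  cM : IsCoprime uM.1 uM.2
  cN : IsCoprime uN.1 uN.2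
  cm : IsCoprime um.1 um.2
  L_iff : ∀ z, Col o a z ↔ dt uL (z - o) = 0
  M_iff : ∀ z, Col o b z ↔ dt uM (z - o) = 0
  N_iff : ∀ z, Col v0 r z ↔ dt uN (z - v0) = 0
  m_iff : ∀ z, Col p q z ↔ dt um (z - Y) = 0
  hLM : dt uL uM ≠ 0
  hLN : dt uL uN ≠ 0
  hLm : dt uL um ≠ 0
  hMN : dt uM uN ≠ 0
  hMm : dt uM um ≠ 0
  hNm : dt uN um ≠ 0
  hYk : Y = adv o uM kY

/-- LEMMA B, general form: `X` = reds used at `y`, `XG` = reds off `M` used at `g`, `XP` = pairs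
of `X` which are not both covered by a line parallel to the pair.  The conclusion leaves the
answers which are much nearer or much farther than `e` -/
theorem lemBX {R B : Finset Pt} {o a b v0 r p q Y : Pt} {X XG : Finset Pt}
    {XP : Finset (Pt × Pt)}
    (hL : ALine R B o a) (hM : ALine R B o b) (hNl : ALine R B v0 r)
    (hMNR : ∀ z, Col o b z → Col v0 r z → z ∈ R)
    (hpq : p ≠ q)
    (hYM : Col o b Y) (hYm : Col p q Y) (hYR : Y ∉ R)
    (hmR : ∀ z ∈ R, ¬ Col p q z)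
    (hMU : ∀ z, Col o b z → z ∉ R → ∀ β ∈ B, ∀ β' ∈ B, β ≠ β' → Col β β' z →
      (∃ w ∈ R, Col β β' w) ∨ (Col p q β ∧ Col p q β'))
    (hLM : ¬ Col o a b) (hLN : ¬ Par o a v0 r) (hMN : ¬ Par o b v0 r)
    (hLm : ¬ Par o a p q) (hNm : ¬ Par v0 r p q)
    (hXR : ∀ x ∈ X, x ∈ R) (hGX : ∀ x ∈ XG, x ∈ X) (hGM : ∀ x ∈ XG, ¬ Col o b x)
    (hB : ∀ β ∈ B, β ∉ R)
    (hparM : ∀ β ∈ B, ∀ β' ∈ B, β ≠ β' → Par o b β β' → (∃ w ∈ R, Col β β' w) ∨
      ∀ x ∈ XG, ∀ z, Col o x z → ¬ Col β β' z)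
    (hsup : ((∀ β ∈ B, ∀ β' ∈ B, β ≠ β' → Par p q β β' → (∃ w ∈ R, Col β β' w) ∨
        Col p q β ∨ ∀ x ∈ X, ∀ z, Col Y x z → ¬ Col β β' z) ∧
        ∀ (uL uM uN um : Pt) (kY Z : ℤ), Z ≠ 0 → Dirs o a b v0 r p q Y uL uM uN um kY →
          Supply o v0 uL uM uN um kY Z Z) ∨
      ((∀ β ∈ B, ∀ β' ∈ B, β ≠ β' → Par p q β β' → (∃ w ∈ R, Col β β' w) ∨ Col p q β) ∧
        ∀ (uL uM uN um : Pt) (kY Z : ℤ), Z ≠ 0 → Dirs o a b v0 r p q Y uL uM uN um kY →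
          Supply o v0 uL uM uN um kY Z 1))
    (hXP : ∀ w ∈ XP, w.1 ∈ X ∧ w.2 ∈ X ∧ w.1 ≠ w.2)
    (hXPm : ∀ w ∈ XP, (Col o a w.1 ∧ Col o a w.2) ∨
      (¬ Par p q w.1 w.2 ∧ ∀ (uL uM uN um : Pt) (kY : ℤ), Dirs o a b v0 r p q Y uL uM uN um kY →
        dt (w.2 - w.1) (Y - w.1) * dt uL um - kY * dt (w.2 - w.1) um * dt uL uM ≠ 0))
    (hfin : ∀ (uL uM uN um : Pt) (kY : ℤ) (R3 : Finset Pt) (e g y t t3 : Pt), R ⊆ R3 →
      Dirs o a b v0 r p q Y uL uM uN um kY → Col p q y →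
      FinData R3 (insert Y B) o uL uM um e g y t t3 X XG XP →
      Win R3 (insert t3 (insert t (insert Y B)))) :
    ∃ (uL uM uN um : Pt) (kY n : ℤ), Dirs o a b v0 r p q Y uL uM uN um kY ∧
      BCtx R B o Y v0 uL uM uN um X XG n ∧
      ∃ E0 W Γ : ℤ, W ≠ 0 ∧ (∀ m : ℤ, ∀ x ∈ R, dt uL (x - o) ≠ 0 → dt uL (o - x) ∣ E0 + W * m) ∧
      ∀ m : ℤ, Γ ≤ |E0 + W * m| → 32 * n ^ 4 + 2 * n ^ 2 < |E0 + W * m| ∧ ∀ T : ℤ,
      adv o uL T ∉ insert (adv o uL (E0 + W * m)) R → adv o uL T ∉ B →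
      NoThreat (insert (adv o uL (E0 + W * m)) R) (insert (adv o uL T) B) →
      (32 * n ^ 4 * |T| < |E0 + W * m| ∨ 32 * n ^ 4 * |E0 + W * m| < |T|) ∨
      Win (insert (adv o uL (E0 + W * m)) R) (insert (adv o uL T) B) := by
  classical
  obtain ⟨uL, cL, gL, hgL, hvL⟩ := exists_prim (sub_ne_zero.mpr hL.ne.symm)
  obtain ⟨uM, cM, gM, hgM, hvMM⟩ := exists_prim (sub_ne_zero.mpr hM.ne.symm)
  obtain ⟨uN, cN, gN, hgN, hvN⟩ := exists_prim (sub_ne_zero.mpr hNl.ne.symm)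
  obtain ⟨um, cm, gm, hgm, hvm⟩ := exists_prim (sub_ne_zero.mpr hpq.symm)
  have L_iff := line_iff_dt hgL hvL
  have M_iff := line_iff_dt hgM hvMM
  have N_iff := line_iff_dt hgN hvN
  have comp : ∀ {u v w : Pt} {g : ℤ}, v - w = (g * u.1, g * u.2) →
      u.1 * g = v.1 - w.1 ∧ u.2 * g = v.2 - w.2 := by
    intro u v w g h
    have h1 := congrArg Prod.fst h
    have h2 := congrArg Prod.snd h
    simp only [Prod.fst_sub, Prod.snd_sub] at h1 h2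
    exact ⟨by linarith, by linarith⟩
  obtain ⟨hL1, hL2⟩ := comp hvL
  obtain ⟨hM1, hM2⟩ := comp hvMM
  obtain ⟨hN1, hN2⟩ := comp hvN
  obtain ⟨hm1, hm2⟩ := comp hvm
  -- the line `m` through `Y`
  have m_iff : ∀ z, Col p q z ↔ dt um (z - Y) = 0 := by
    intro z
    have hYm' := hYm
    unfold Col at hYm' ⊢
    unfold dt
    simp only [Prod.fst_sub, Prod.snd_sub]
    rw [← hm1, ← hm2] at hYm' ⊢
    constructor
    · intro h
      apply mul_left_cancel₀ hgm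
      linear_combination h - hYm'
    · intro h
      linear_combination gm * h + hYm'
  obtain ⟨n, hn, hnF⟩ := exists_bound
    ((((R ∪ insert Y B) ×ˢ (R ∪ insert Y B)).image (fun p : Pt × Pt => p.1 - p.2)) ∪
      {uL, uM, uN, um})
  have near : ∀ a ∈ R ∪ insert Y B, ∀ b ∈ R ∪ insert Y B, Nv n (a - b) := by
    intro a ha b hb
    apply hnF
    apply Finset.mem_union_left
    rw [Finset.mem_image]
    exact ⟨(a, b), Finset.mem_product.mpr ⟨ha, hb⟩, rfl⟩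
  -- from directions to parallels
  have toPar : ∀ {u1 u2 p1 q1 p2 q2 : Pt} {g1 g2 : ℤ}, u1.1 * g1 = q1.1 - p1.1 →
      u1.2 * g1 = q1.2 - p1.2 → u2.1 * g2 = q2.1 - p2.1 → u2.2 * g2 = q2.2 - p2.2 →
      ¬ Par p1 q1 p2 q2 → dt u1 u2 ≠ 0 := by
    intro u1 u2 p1 q1 p2 q2 g1 g2 h1 h2 h3 h4 hp h0
    apply hp
    unfold Par
    rw [← h1, ← h2, ← h3, ← h4]
    unfold dt at h0
    linear_combination (g1 * g2) * h0
  have hLMd : dt uL uM ≠ 0 := by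
    intro h0
    apply hLM
    rw [L_iff]
    unfold dt at *
    simp only [Prod.fst_sub, Prod.snd_sub]
    rw [← hM1, ← hM2]
    linear_combination gM * h0
  have hLNd : dt uL uN ≠ 0 := toPar hL1 hL2 hN1 hN2 hLN
  have hLmd : dt uL um ≠ 0 := toPar hL1 hL2 hm1 hm2 hLm
  have hMNd : dt uM uN ≠ 0 := toPar hM1 hM2 hN1 hN2 hMN
  have hNmd : dt uN um ≠ 0 := toPar hN1 hN2 hm1 hm2 hNm
  have YM : dt uM (Y - o) = 0 := (M_iff Y).mp hYM
  have hMmd : dt uM um ≠ 0 := by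
    intro h0
    -- then `m = M`
    apply hmR o hL.1
    rw [m_iff]
    have h1 : uM ≠ 0 := by
      rintro rfl
      apply hLMd; unfold dt; simp
    have h2 : dt uM (o - Y) = 0 := by
      unfold dt at *
      simp only [Prod.fst_sub, Prod.snd_sub] at *
      linarith
    exact dt_par h1 h0 h2
  obtain ⟨kY, hYk⟩ := exists_adv cM YM
  have hYB : Y ∉ B := fun h => hM.2.2.2 Y h hYM
  have hD : Dirs o a b v0 r p q Y uL uM uN um kY :=
    ⟨cL, cM, cN, cm, L_iff, M_iff, N_iff, m_iff, hLMd, hLNd, hLmd, hMNd, hMmd, hNmd, hYk⟩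
  have parM_iff : ∀ β β' : Pt, dt (β' - β) uM = 0 → Par o b β β' := by
    intro β β' h0
    unfold Par
    unfold dt at h0
    simp only [Prod.fst_sub, Prod.snd_sub] at h0
    rw [← hM1, ← hM2]
    linear_combination (-gM) * h0
  have parm_iff : ∀ β β' : Pt, dt (β' - β) um = 0 → Par p q β β' := by
    intro β β' h0
    unfold Par
    unfold dt at h0
    simp only [Prod.fst_sub, Prod.snd_sub] at h0
    rw [← hm1, ← hm2]
    linear_combination (-gm) * h0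
  obtain ⟨Z, hZ, hZd⟩ := exists_Z0 R o Y uL uM um
  have neg_dt : ∀ u z w : Pt, dt u (z - w) ≠ 0 → dt u (w - z) ≠ 0 := by
    intro u z w h h0
    apply h
    unfold dt at *
    simp only [Prod.fst_sub, Prod.snd_sub] at *
    linarith
  have c : BCtx R B o Y v0 uL uM uN um X XG n :=
    { hn := hn
      near := near
      nL := hnF uL (by simp)
      nM := hnF uM (by simp)
      nN := hnF uN (by simp)
      nm := hnF um (by simp)
      hLM := hLMd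
      hLN := hLNd
      hLm := hLmd
      hMN := hMNd
      hMm := hMmd
      oR := hL.1
      vR := hNl.1
      MNR := fun z h1 h2 => hMNR z ((M_iff z).mpr h1) ((N_iff z).mpr h2)
      YM := YM
      YR := hYR
      YB := hYB
      XR := hXR
      GX := hGX
      GM := fun x hx h => hGM x hx ((M_iff x).mpr h)
      Lal := fun β hβ h => hL.2.2.2 β hβ ((L_iff β).mpr h)
      Mal := fun β hβ h => hM.2.2.2 β hβ ((M_iff β).mpr h)
      Nal := fun β hβ h => hNl.2.2.2 β hβ ((N_iff β).mpr h)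
      mR := fun z hz h => hmR z hz ((m_iff z).mpr h)
      MU := by
        intro z hz hzR β hβ β' hβ' hne hc
        rcases hMU z ((M_iff z).mpr hz) hzR β hβ β' hβ' hne hc with h | ⟨h1, h2⟩
        · exact Or.inl h
        · exact Or.inr ⟨(m_iff β).mp h1, (m_iff β').mp h2⟩
      parM := fun β hβ β' hβ' hne h0 => hparM β hβ β' hβ' hne (parM_iff β β' h0)
      parm := by
        intro β hβ β' hβ' hne h0
        rcases hsup with ⟨h', _⟩ | ⟨h', _⟩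
        · rcases h' β hβ β' hβ' hne (parm_iff β β' h0) with h | h | h
          · exact Or.inl h
          · exact Or.inr (Or.inl ((m_iff β).mp h))
          · exact Or.inr (Or.inr h)
        · rcases h' β hβ β' hβ' hne (parm_iff β β' h0) with h | h
          · exact Or.inl h
          · exact Or.inr (Or.inl ((m_iff β).mp h)) }
  refine ⟨uL, uM, uN, um, kY, n, hD, c, ?_⟩
  have hbM := (M_iff b).mp (Col.refl_right _ _)
  have hrN := (N_iff r).mp (Col.refl_right _ _)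
  obtain ⟨Zm, hZm, hS⟩ : ∃ Zm : ℤ, ((∀ x ∈ X, dt um (Y - x) ∣ Zm) ∨
      ∀ β ∈ B, ∀ β' ∈ B, β ≠ β' → dt (β' - β) um = 0 →
      (∃ w ∈ R, Col β β' w) ∨ dt um (β - Y) = 0) ∧ Supply o v0 uL uM uN um kY Z Zm := by
    rcases hsup with ⟨_, h⟩ | ⟨h', h⟩
    · refine ⟨Z, Or.inl ?_, h uL uM uN um kY Z hZ hD⟩
      intro x hx
      exact (hZd x (hXR x hx)).2.2 (neg_dt _ _ _ (c.mR x (hXR x hx)))
    · refine ⟨1, Or.inr ?_, h uL uM uN um kY Z hZ hD⟩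
      intro β hβ β' hβ' hne h0
      rcases h' β hβ β' hβ' hne (parm_iff β β' h0) with h | h
      · exact Or.inl h
      · exact Or.inr ((m_iff β).mp h)
  obtain ⟨E0, W, Γ, hW, hdvd, h⟩ := lemB_core (XP := XP) c (b := b) (r := r) hB hYk hM.2.1 hbM
    hM.ne.symm hNl.2.1 hrN hNl.ne.symm
    (fun x hx => (hZd x (hXR x (hGX x hx))).2.1 (neg_dt _ _ _ (c.GM x hx))) hZm hS hXP
    (by
      intro w hw
      rcases hXPm w hw with ⟨h1, h2⟩ | ⟨h1, h2⟩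
      · exact Or.inl ⟨(L_iff _).mp h1, (L_iff _).mp h2⟩
      · refine Or.inr ⟨?_, h2 uL uM uN um kY hD⟩
        intro h0
        exact h1 (parm_iff _ _ h0))
    (by
      intro R3 e g y t t3 hR3 hy f
      refine hfin uL uM uN um kY R3 e g y t t3 hR3 hD ?_ f
      exact hy p q ((m_iff p).mp (Col.refl_left _ _)) ((m_iff q).mp (Col.refl_right _ _)))
  exact ⟨E0, W, Γ, hW, fun m x hx hxL => ((hZd x hx).1 (neg_dt _ _ _ hxL)).trans (hdvd m), h⟩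

/-- LEMMA B, general form: `X` = reds used at `y`, `XG` = reds off `M` used at `g`, `xl` = the red
used at `e` in case 1 -/
theorem lemBX_e {R B : Finset Pt} {o a b v0 r p q Y xl : Pt} {X XG : Finset Pt}
    {XP : Finset (Pt × Pt)}
    (hL : ALine R B o a) (hM : ALine R B o b) (hNl : ALine R B v0 r)
    (hMNR : ∀ z, Col o b z → Col v0 r z → z ∈ R)
    (hpq : p ≠ q)
    (hYM : Col o b Y) (hYm : Col p q Y) (hYR : Y ∉ R)
    (hmR : ∀ z ∈ R, ¬ Col p q z)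
    (hMU : ∀ z, Col o b z → z ∉ R → ∀ β ∈ B, ∀ β' ∈ B, β ≠ β' → Col β β' z →
      (∃ w ∈ R, Col β β' w) ∨ (Col p q β ∧ Col p q β'))
    (hLM : ¬ Col o a b) (hLN : ¬ Par o a v0 r) (hMN : ¬ Par o b v0 r)
    (hLm : ¬ Par o a p q) (hNm : ¬ Par v0 r p q)
    (hXR : ∀ x ∈ X, x ∈ R) (hGX : ∀ x ∈ XG, x ∈ X) (hGM : ∀ x ∈ XG, ¬ Col o b x)
    (hB : ∀ β ∈ B, β ∉ R)
    (hxl : xl ∈ R) (hxlL : ¬ Col o a xl) (hxlb : xl ≠ b)
    (hparL : ∀ β ∈ B, ∀ β' ∈ B, β ≠ β' → Par o a β β' → (∃ w ∈ R, Col β β' w) ∨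
      ∀ z, Col o xl z → ¬ Col β β' z)
    (hparM : ∀ β ∈ B, ∀ β' ∈ B, β ≠ β' → Par o b β β' → (∃ w ∈ R, Col β β' w) ∨
      ∀ x ∈ XG, ∀ z, Col o x z → ¬ Col β β' z)
    (hsup : ((∀ β ∈ B, ∀ β' ∈ B, β ≠ β' → Par p q β β' → (∃ w ∈ R, Col β β' w) ∨
        Col p q β ∨ ∀ x ∈ X, ∀ z, Col Y x z → ¬ Col β β' z) ∧
        ∀ (uL uM uN um : Pt) (kY Z : ℤ), Z ≠ 0 → Dirs o a b v0 r p q Y uL uM uN um kY →
          Supply o v0 uL uM uN um kY Z Z) ∨
      ((∀ β ∈ B, ∀ β' ∈ B, β ≠ β' → Par p q β β' → (∃ w ∈ R, Col β β' w) ∨ Col p q β) ∧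
        ∀ (uL uM uN um : Pt) (kY Z : ℤ), Z ≠ 0 → Dirs o a b v0 r p q Y uL uM uN um kY →
          Supply o v0 uL uM uN um kY Z 1))
    (hXP : ∀ w ∈ XP, w.1 ∈ X ∧ w.2 ∈ X ∧ w.1 ≠ w.2)
    (hXPm : ∀ w ∈ XP, (Col o a w.1 ∧ Col o a w.2) ∨
      (¬ Par p q w.1 w.2 ∧ ∀ (uL uM uN um : Pt) (kY : ℤ), Dirs o a b v0 r p q Y uL uM uN um kY →
        dt (w.2 - w.1) (Y - w.1) * dt uL um - kY * dt (w.2 - w.1) um * dt uL uM ≠ 0))
    (hfin : ∀ (uL uM uN um : Pt) (kY : ℤ) (R3 : Finset Pt) (e g y t t3 : Pt), R ⊆ R3 →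
      Dirs o a b v0 r p q Y uL uM uN um kY → Col p q y →
      FinData R3 (insert Y B) o uL uM um e g y t t3 X XG XP →
      Win R3 (insert t3 (insert t (insert Y B)))) :
    ∃ (u : Pt) (E0 W Γ : ℤ), IsCoprime u.1 u.2 ∧ (∀ z, Col o a z ↔ dt u (z - o) = 0) ∧ W ≠ 0 ∧
      ∀ m : ℤ, Γ ≤ |E0 + W * m| → ∀ t, Col o a t →
      t ∉ insert (adv o u (E0 + W * m)) R → t ∉ B →
      NoThreat (insert (adv o u (E0 + W * m)) R) (insert t B) →
      Win (insert (adv o u (E0 + W * m)) R) (insert t B) := by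
  obtain ⟨uL, uM, uN, um, kY, n, hD, c, E0, W, Γ, hW, hdvd, h⟩ :=
    lemBX hL hM hNl hMNR hpq hYM hYm hYR hmR hMU hLM hLN hMN hLm hNm hXR hGX hGM hB hparM hsup
      hXP hXPm hfin
  refine ⟨uL, E0, W, Γ, hD.cL, hD.L_iff, hW, ?_⟩
  intro m hm t htL htR htB hNT
  obtain ⟨hsize, h'⟩ := h m hm
  obtain ⟨T, rfl⟩ := exists_adv hD.cL ((hD.L_iff t).mp htL)
  rcases h' T htR htB hNT with hr | hw
  · have hT0 : T ≠ 0 := by
      rintro rfl
      apply htR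
      have : adv o uL 0 = o := by unfold adv; simp
      rw [this]
      exact Finset.mem_insert_of_mem hL.1
    have hTE : T ≠ E0 + W * m := by
      rintro rfl; exact htR (Finset.mem_insert_self _ _)
    have hbM := (hD.M_iff b).mp (Col.refl_right _ _)
    have hxlL' : dt uL (xl - o) ≠ 0 := fun h => hxlL ((hD.L_iff xl).mpr h)
    have hbL' : dt uL (b - o) ≠ 0 := fun h => hM.ne (c.LM h hbM).symm
    refine case1_win c hNT hB hM.2.1 hbM hM.ne.symm hxl hxlL' hxlb ?_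
      (hdvd m xl hxl hxlL') (hdvd m b hM.2.1 hbL') hsize hTE hT0 hr
    intro β hβ β' hβ' hne h0
    refine hparL β hβ β' hβ' hne ?_
    -- parallels
    have haL := (hD.L_iff a).mp (Col.refl_right _ _)
    unfold Par
    have hu : uL.1 ≠ 0 ∨ uL.2 ≠ 0 := by
      by_contra hc
      apply c.uL0
      rw [not_or, not_not, not_not] at hc
      exact Prod.ext hc.1 hc.2
    unfold dt at h0 haL
    simp only [Prod.fst_sub, Prod.snd_sub] at h0 haL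
    rcases hu with hu | hu
    · apply mul_left_cancel₀ hu
      linear_combination (-(a.1 - o.1)) * h0 - (β'.1 - β.1) * haL
    · apply mul_left_cancel₀ hu
      linear_combination (-(a.2 - o.2)) * h0 - (β'.2 - β.2) * haL
  · exact hw

theorem off_line_of_four {o a b x0 x1 x2 x3 : Pt} (h012 : ¬ Col x0 x1 x2) (h013 : ¬ Col x0 x1 x3)
    (h023 : ¬ Col x0 x2 x3) (h123 : ¬ Col x1 x2 x3) (hoa : o ≠ a) :
    (∃ x ∈ ({x0, x1, x2, x3} : Finset Pt), ¬ Col o a x ∧ x ≠ b) ∧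
    (∃ x ∈ ({x0, x1, x2, x3} : Finset Pt), ∃ x' ∈ ({x0, x1, x2, x3} : Finset Pt),
      ¬ Col o a x ∧ ¬ Col o a x' ∧ x' ≠ x) := by
  have n01 : x1 ≠ x0 := by rintro rfl; exact h012 (Col.refl_eq _ _)
  have n02 : x2 ≠ x0 := by rintro rfl; exact h012 (Col.refl_left _ _)
  have n03 : x3 ≠ x0 := by rintro rfl; exact h013 (Col.refl_left _ _)
  have n12 : x2 ≠ x1 := by rintro rfl; exact h012 (Col.refl_right _ _)
  have n13 : x3 ≠ x1 := by rintro rfl; exact h013 (Col.refl_right _ _)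
  have n23 : x3 ≠ x2 := by rintro rfl; exact h023 (Col.refl_right _ _)
  have key : ∀ x y z : Pt, ¬ Col x y z → Col o a x → Col o a y → ¬ Col o a z := by
    intro x y z h hx hy hz
    exact h (Col.three hoa hx hy hz)
  have two : ∃ x ∈ ({x0, x1, x2, x3} : Finset Pt), ∃ x' ∈ ({x0, x1, x2, x3} : Finset Pt),
      ¬ Col o a x ∧ ¬ Col o a x' ∧ x' ≠ x := by
    by_cases c0 : Col o a x0 <;> by_cases c1 : Col o a x1 <;> by_cases c2 : Col o a x2 <;>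
      by_cases c3 : Col o a x3
    · exact absurd c2 (key _ _ _ h012 c0 c1)
    · exact absurd c2 (key _ _ _ h012 c0 c1)
    · exact absurd c3 (key _ _ _ h013 c0 c1)
    · exact ⟨x2, by simp, x3, by simp, c2, c3, n23⟩
    · exact absurd c3 (key _ _ _ h023 c0 c2)
    · exact ⟨x1, by simp, x3, by simp, c1, c3, n13⟩
    · exact ⟨x1, by simp, x2, by simp, c1, c2, n12⟩
    · exact ⟨x1, by simp, x2, by simp, c1, c2, n12⟩
    · exact absurd c3 (key _ _ _ h123 c1 c2)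
    · exact ⟨x0, by simp, x3, by simp, c0, c3, n03⟩
    · exact ⟨x0, by simp, x2, by simp, c0, c2, n02⟩
    · exact ⟨x0, by simp, x2, by simp, c0, c2, n02⟩
    · exact ⟨x0, by simp, x1, by simp, c0, c1, n01⟩
    · exact ⟨x0, by simp, x1, by simp, c0, c1, n01⟩
    · exact ⟨x0, by simp, x1, by simp, c0, c1, n01⟩
    · exact ⟨x0, by simp, x1, by simp, c0, c1, n01⟩
  refine ⟨?_, two⟩
  obtain ⟨x, hx, x', hx', hc, hc', hne⟩ := two
  by_cases h : x = b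
  · exact ⟨x', hx', hc', fun h' => hne (h'.trans h.symm)⟩
  · exact ⟨x, hx, hc, h⟩

/-- LEMMA B, core form: the hypothesis on `L` is only used for the quiet answers; weak
conditions on the parallels -/
theorem lemBG_e {R B : Finset Pt} {o a b v0 r p q Y x0 x1 x2 x3 xl xg xg' : Pt}
    (hL : ALine R B o a) (hM : ALine R B o b)
    (hNl : ALine R B v0 r) (hvM : Col o b v0)
    (hpq : p ≠ q)
    (hYM : Col o b Y) (hYm : Col p q Y) (hYR : Y ∉ R)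
    (hmR : ∀ z ∈ R, ¬ Col p q z)
    (hMU : ∀ z, Col o b z → z ∉ R → ∀ β ∈ B, ∀ β' ∈ B, β ≠ β' → Col β β' z →
      (∃ w ∈ R, Col β β' w) ∨ (Col p q β ∧ Col p q β'))
    (hLM : ¬ Col o a b) (hLN : ¬ Par o a v0 r) (hMN : ¬ Col o b r)
    (hLm : ¬ Par o a p q) (hNm : ¬ Par v0 r p q)
    (hx0 : x0 ∈ R) (hx1 : x1 ∈ R) (hx2 : x2 ∈ R) (hx3 : x3 ∈ R)
    (h012 : ¬ Col x0 x1 x2) (h013 : ¬ Col x0 x1 x3) (h023 : ¬ Col x0 x2 x3)
    (h123 : ¬ Col x1 x2 x3) (hB : ∀ β ∈ B, β ∉ R)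
    (hxl : xl ∈ R) (hxlL : ¬ Col o a xl) (hxlb : xl ≠ b)
    (hparL : ∀ β ∈ B, ∀ β' ∈ B, β ≠ β' → Par o a β β' → (∃ w ∈ R, Col β β' w) ∨
      ∀ z, Col o xl z → ¬ Col β β' z)
    (hxg : xg ∈ ({x0, x1, x2, x3} : Finset Pt)) (hxg' : xg' ∈ ({x0, x1, x2, x3} : Finset Pt))
    (hgM : ¬ Col o b xg) (hgM' : ¬ Col o b xg') (hgg : xg' ≠ xg)
    (hparM : ∀ β ∈ B, ∀ β' ∈ B, β ≠ β' → Par o b β β' → (∃ w ∈ R, Col β β' w) ∨
      ∀ x ∈ ({xg, xg'} : Finset Pt), ∀ z, Col o x z → ¬ Col β β' z)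
    (hparm : ∀ β ∈ B, ∀ β' ∈ B, β ≠ β' → Par p q β β' → (∃ w ∈ R, Col β β' w) ∨
      Col p q β ∨ ∀ x ∈ ({x0, x1, x2, x3} : Finset Pt), ∀ z, Col Y x z → ¬ Col β β' z) :
    ∃ (u : Pt) (E0 W Γ : ℤ), IsCoprime u.1 u.2 ∧ (∀ z, Col o a z ↔ dt u (z - o) = 0) ∧ W ≠ 0 ∧
      ∀ m : ℤ, Γ ≤ |E0 + W * m| → ∀ t, Col o a t →
      t ∉ insert (adv o u (E0 + W * m)) R → t ∉ B →
      NoThreat (insert (adv o u (E0 + W * m)) R) (insert t B) →
      Win (insert (adv o u (E0 + W * m)) R) (insert t B) := by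
  have hMNp : ¬ Par o b v0 r := by
    intro hp
    apply hMN
    have hvM' := hvM
    unfold Par at hp
    unfold Col at hvM' ⊢
    linear_combination hp + hvM'
  refine lemBX_e (X := {x0, x1, x2, x3}) (XG := {xg, xg'}) (XP := ∅) hL hM hNl ?_ hpq hYM hYm hYR
    hmR hMU hLM hLN hMNp hLm hNm ?_ ?_ ?_ hB hxl hxlL hxlb hparL hparM (Or.inl ⟨hparm, ?_⟩)
    (by simp) (by simp) ?_
  · intro z hz1 hz2
    -- `M` and `N` meet in `v0`
    have hzv : z = v0 := by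
      by_contra hne
      apply hMNp
      have e1 := hz1
      have e2 := hz2
      have e3 := hvM
      unfold Col at e1 e2 e3
      unfold Par
      rcases sub_ne_of_ne (Ne.symm hne) with h | h
      · apply mul_left_cancel₀ h
        linear_combination (-(b.1 - o.1)) * e2 + (r.1 - v0.1) * e1 - (r.1 - v0.1) * e3
      · apply mul_left_cancel₀ h
        linear_combination (-(b.2 - o.2)) * e2 + (r.2 - v0.2) * e1 - (r.2 - v0.2) * e3
    rw [hzv]; exact hNl.1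
  · intro x hx
    simp only [Finset.mem_insert, Finset.mem_singleton] at hx
    rcases hx with rfl | rfl | rfl | rfl <;> assumption
  · intro x hx
    have hx' : x = xg ∨ x = xg' := by simpa using hx
    rcases hx' with rfl | rfl <;> assumption
  · intro x hx
    have hx' : x = xg ∨ x = xg' := by simpa using hx
    rcases hx' with rfl | rfl <;> assumption
  · intro uL uM uN um kY Z hZ hD
    obtain ⟨kN, hvk⟩ := exists_adv hD.cM ((hD.M_iff v0).mp hvM)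
    exact supply_of_red hD.cM hD.hLM hD.hLN hD.hLm hD.hMN hD.hMm hD.hNm hvk hZ
  · intro uL uM uN um kY R3 e g y t t3 _ _ _ f
    exact fin4 f (x0 := x0) (x1 := x1) (x2 := x2) (x3 := x3) (xg := xg) (xg' := xg')
      (by simp) (by simp) (by simp) (by simp) h012 h013 h023 h123 (by simp) (by simp) hgg

/-- LEMMA B, core form: the hypothesis on `L` is only used for the quiet answers -/
theorem lemB_e {R B : Finset Pt} {o a b v0 r p q Y x0 x1 x2 x3 : Pt}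
    (hL : ALine R B o a) (hM : ALine R B o b)
    (hNl : ALine R B v0 r) (hvM : Col o b v0)
    (hpq : p ≠ q)
    (hYM : Col o b Y) (hYm : Col p q Y) (hYR : Y ∉ R)
    (hmR : ∀ z ∈ R, ¬ Col p q z)
    (hMU : ∀ z, Col o b z → z ∉ R → ∀ β ∈ B, ∀ β' ∈ B, β ≠ β' → Col β β' z →
      (∃ w ∈ R, Col β β' w) ∨ (Col p q β ∧ Col p q β'))
    (hLM : ¬ Col o a b) (hLN : ¬ Par o a v0 r) (hMN : ¬ Col o b r)
    (hLm : ¬ Par o a p q) (hNm : ¬ Par v0 r p q)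
    (hx0 : x0 ∈ R) (hx1 : x1 ∈ R) (hx2 : x2 ∈ R) (hx3 : x3 ∈ R)
    (h012 : ¬ Col x0 x1 x2) (h013 : ¬ Col x0 x1 x3) (h023 : ¬ Col x0 x2 x3)
    (h123 : ¬ Col x1 x2 x3) (hB : ∀ β ∈ B, β ∉ R)
    (hparL : ∀ β ∈ B, ∀ β' ∈ B, β ≠ β' → Par o a β β' → (∃ w ∈ R, Col β β' w) ∨
      ∀ x ∈ ({x0, x1, x2, x3} : Finset Pt), ¬ Col o a x → ∀ z, Col o x z → ¬ Col β β' z)
    (hparM : ∀ β ∈ B, ∀ β' ∈ B, β ≠ β' → Par o b β β' → (∃ w ∈ R, Col β β' w) ∨
      ∀ x ∈ ({x0, x1, x2, x3} : Finset Pt), ¬ Col o b x → ∀ z, Col o x z → ¬ Col β β' z)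
    (hparm : ∀ β ∈ B, ∀ β' ∈ B, β ≠ β' → Par p q β β' → (∃ w ∈ R, Col β β' w) ∨
      Col p q β ∨ ∀ x ∈ ({x0, x1, x2, x3} : Finset Pt), ∀ z, Col Y x z → ¬ Col β β' z) :
    ∃ (u : Pt) (E0 W Γ : ℤ), IsCoprime u.1 u.2 ∧ (∀ z, Col o a z ↔ dt u (z - o) = 0) ∧ W ≠ 0 ∧
      ∀ m : ℤ, Γ ≤ |E0 + W * m| → ∀ t, Col o a t →
      t ∉ insert (adv o u (E0 + W * m)) R → t ∉ B →
      NoThreat (insert (adv o u (E0 + W * m)) R) (insert t B) →
      Win (insert (adv o u (E0 + W * m)) R) (insert t B) := by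
  obtain ⟨⟨xl, hxlX, hxlL, hxlb⟩, _⟩ :=
    off_line_of_four (b := b) h012 h013 h023 h123 hL.ne
  obtain ⟨_, xg, hxg, xg', hxg', hgM, hgM', hgg⟩ :=
    off_line_of_four (b := b) h012 h013 h023 h123 hM.ne
  have hXR : ∀ x ∈ ({x0, x1, x2, x3} : Finset Pt), x ∈ R := by
    intro x hx
    simp only [Finset.mem_insert, Finset.mem_singleton] at hx
    rcases hx with rfl | rfl | rfl | rfl <;> assumption
  refine lemBG_e (xl := xl) (xg := xg) (xg' := xg') hL hM hNl hvM hpq hYM hYm hYR hmR hMU hLM hLN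
    hMN hLm hNm hx0 hx1 hx2 hx3 h012 h013 h023 h123 hB (hXR xl hxlX) hxlL hxlb ?_ hxg hxg' hgM
    hgM' hgg ?_ hparm
  · intro β hβ β' hβ' hne hp
    rcases hparL β hβ β' hβ' hne hp with h | h
    · exact Or.inl h
    · exact Or.inr (h xl hxlX hxlL)
  · intro β hβ β' hβ' hne hp
    rcases hparM β hβ β' hβ' hne hp with h | h
    · exact Or.inl h
    · refine Or.inr (fun x hx => ?_)
      have hx' : x = xg ∨ x = xg' := by simpa using hx
      rcases hx' with rfl | rfl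
      · exact h _ hxg hgM
      · exact h _ hxg' hgM'

theorem exists_large (E0 W Γ : ℤ) (hW : W ≠ 0) : ∃ m : ℤ, Γ ≤ |E0 + W * m| := by
  refine ⟨|E0| + |Γ|, ?_⟩
  have h1 := tri_lo2 (W * (|E0| + |Γ|)) E0
  have h2 : |W * (|E0| + |Γ|)| = |W| * (|E0| + |Γ|) := by
    rw [abs_mul, abs_of_nonneg (add_nonneg (abs_nonneg E0) (abs_nonneg Γ))]
  have h3 := Int.one_le_abs hW
  have h4 := le_abs_self Γ
  have h5 : W * (|E0| + |Γ|) + E0 = E0 + W * (|E0| + |Γ|) := by ring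
  rw [h2, h5] at h1
  nlinarith [abs_nonneg E0, abs_nonneg Γ]

/-- from the core form to the game: `L` uncovered -/
theorem win_of_class {R B : Finset Pt} {o a : Pt} (hN : NoThreat R B)
    (hL : ALine R B o a) (hLU : Uncov R B o a)
    (hE : ∃ (u : Pt) (E0 W Γ : ℤ), IsCoprime u.1 u.2 ∧ (∀ z, Col o a z ↔ dt u (z - o) = 0) ∧
      W ≠ 0 ∧ ∀ m : ℤ, Γ ≤ |E0 + W * m| → ∀ t, Col o a t →
      t ∉ insert (adv o u (E0 + W * m)) R → t ∉ B →
      NoThreat (insert (adv o u (E0 + W * m)) R) (insert t B) →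
      Win (insert (adv o u (E0 + W * m)) R) (insert t B)) : Win R B := by
  obtain ⟨u, E0, W, Γ, cu, hu, hW, h⟩ := hE
  obtain ⟨n, hn, hnF⟩ := exists_bound ((R ∪ B).image (fun z => z - o))
  obtain ⟨m, hm⟩ := exists_large E0 W (max Γ (n + 1)) hW
  have hm1 : Γ ≤ |E0 + W * m| := le_trans (le_max_left _ _) hm
  have hm2 : n < |E0 + W * m| := by
    have := le_trans (le_max_right Γ (n + 1)) hm
    linarith
  have hu0 : u ≠ 0 := by
    rintro rfl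
    obtain ⟨c1, c2, hc⟩ := cu
    simp only [Prod.fst_zero, Prod.snd_zero, mul_zero, add_zero] at hc
    exact absurd hc (by norm_num)
  have hne : ∀ z ∈ R ∪ B, adv o u (E0 + W * m) ≠ z := by
    intro z hz
    exact adv_ne (hnF _ (Finset.mem_image_of_mem _ hz)) hu0 hm2
  have heL : Col o a (adv o u (E0 + W * m)) := by
    rw [hu]
    unfold dt adv; simp only [Prod.fst_sub, Prod.snd_sub]; ring
  refine win_force hL (fun hh => hne _ (Finset.mem_union_left _ hh) rfl)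
    (fun hh => hne _ (Finset.mem_union_right _ hh) rfl) heL
    (hN.mono (Finset.subset_insert _ _) (Finset.Subset.refl _)) ?_
  intro t htR htB htc
  exact h m hm1 t htc htR htB (hN.of_uncov hLU (Finset.subset_insert _ _) htc
    (fun hh => htR (Finset.mem_insert_of_mem hh)) htB)

/-- LEMMA B -/
theorem lemB {R B : Finset Pt} {o a b v0 r p q Y x0 x1 x2 x3 : Pt}
    (hN : NoThreat R B) (hB : ∀ β ∈ B, β ∉ R)
    (hL : ALine R B o a) (hLU : Uncov R B o a) (hM : ALine R B o b)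
    (hNl : ALine R B v0 r) (hvM : Col o b v0)
    (hpq : p ≠ q)
    (hYM : Col o b Y) (hYm : Col p q Y) (hYR : Y ∉ R)
    (hmR : ∀ z ∈ R, ¬ Col p q z)
    (hMU : ∀ z, Col o b z → z ∉ R → ∀ β ∈ B, ∀ β' ∈ B, β ≠ β' → Col β β' z →
      (∃ w ∈ R, Col β β' w) ∨ (Col p q β ∧ Col p q β'))
    (hLM : ¬ Col o a b) (hLN : ¬ Par o a v0 r) (hMN : ¬ Col o b r)
    (hLm : ¬ Par o a p q) (hNm : ¬ Par v0 r p q)
    (hx0 : x0 ∈ R) (hx1 : x1 ∈ R) (hx2 : x2 ∈ R) (hx3 : x3 ∈ R)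
    (h012 : ¬ Col x0 x1 x2) (h013 : ¬ Col x0 x1 x3) (h023 : ¬ Col x0 x2 x3)
    (h123 : ¬ Col x1 x2 x3)
    (hparL : ∀ β ∈ B, ∀ β' ∈ B, β ≠ β' → Par o a β β' → (∃ w ∈ R, Col β β' w) ∨
      ∀ x ∈ ({x0, x1, x2, x3} : Finset Pt), ¬ Col o a x → ∀ z, Col o x z → ¬ Col β β' z)
    (hparM : ∀ β ∈ B, ∀ β' ∈ B, β ≠ β' → Par o b β β' → (∃ w ∈ R, Col β β' w) ∨
      ∀ x ∈ ({x0, x1, x2, x3} : Finset Pt), ¬ Col o b x → ∀ z, Col o x z → ¬ Col β β' z)
    (hparm : ∀ β ∈ B, ∀ β' ∈ B, β ≠ β' → Par p q β β' → (∃ w ∈ R, Col β β' w) ∨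
      Col p q β ∨ ∀ x ∈ ({x0, x1, x2, x3} : Finset Pt), ∀ z, Col Y x z → ¬ Col β β' z) :
    Win R B :=
  win_of_class hN hL hLU (lemB_e hL hM hNl hvM hpq hYM hYm hYR hmR hMU hLM hLN
    hMN hLm hNm hx0 hx1 hx2 hx3 h012 h013 h023 h123 hB hparL hparM hparm)

/-- LEMMA B with weaker conditions on the parallels -/
theorem lemBG {R B : Finset Pt} {o a b v0 r p q Y x0 x1 x2 x3 xl xg xg' : Pt}
    (hN : NoThreat R B) (hB : ∀ β ∈ B, β ∉ R)
    (hL : ALine R B o a) (hLU : Uncov R B o a) (hM : ALine R B o b)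
    (hNl : ALine R B v0 r) (hvM : Col o b v0)
    (hpq : p ≠ q)
    (hYM : Col o b Y) (hYm : Col p q Y) (hYR : Y ∉ R)
    (hmR : ∀ z ∈ R, ¬ Col p q z)
    (hMU : ∀ z, Col o b z → z ∉ R → ∀ β ∈ B, ∀ β' ∈ B, β ≠ β' → Col β β' z →
      (∃ w ∈ R, Col β β' w) ∨ (Col p q β ∧ Col p q β'))
    (hLM : ¬ Col o a b) (hLN : ¬ Par o a v0 r) (hMN : ¬ Col o b r)
    (hLm : ¬ Par o a p q) (hNm : ¬ Par v0 r p q)
    (hx0 : x0 ∈ R) (hx1 : x1 ∈ R) (hx2 : x2 ∈ R) (hx3 : x3 ∈ R)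
    (h012 : ¬ Col x0 x1 x2) (h013 : ¬ Col x0 x1 x3) (h023 : ¬ Col x0 x2 x3)
    (h123 : ¬ Col x1 x2 x3)
    (hxl : xl ∈ R) (hxlL : ¬ Col o a xl) (hxlb : xl ≠ b)
    (hparL : ∀ β ∈ B, ∀ β' ∈ B, β ≠ β' → Par o a β β' → (∃ w ∈ R, Col β β' w) ∨
      ∀ z, Col o xl z → ¬ Col β β' z)
    (hxg : xg ∈ ({x0, x1, x2, x3} : Finset Pt)) (hxg' : xg' ∈ ({x0, x1, x2, x3} : Finset Pt))
    (hgM : ¬ Col o b xg) (hgM' : ¬ Col o b xg') (hgg : xg' ≠ xg)
    (hparM : ∀ β ∈ B, ∀ β' ∈ B, β ≠ β' → Par o b β β' → (∃ w ∈ R, Col β β' w) ∨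
      ∀ x ∈ ({xg, xg'} : Finset Pt), ∀ z, Col o x z → ¬ Col β β' z)
    (hparm : ∀ β ∈ B, ∀ β' ∈ B, β ≠ β' → Par p q β β' → (∃ w ∈ R, Col β β' w) ∨
      Col p q β ∨ ∀ x ∈ ({x0, x1, x2, x3} : Finset Pt), ∀ z, Col Y x z → ¬ Col β β' z) :
    Win R B :=
  win_of_class hN hL hLU (lemBG_e hL hM hNl hvM hpq hYM hYm hYR hmR hMU hLM hLN
    hMN hLm hNm hx0 hx1 hx2 hx3 h012 h013 h023 h123 hB hxl hxlL hxlb hparL hxg hxg' hgM hgM' hgg
    hparM hparm)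

end Pool.Agent.K4L
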