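import Pool.Agent.K4L.LemBCore

/-!
# Arithmetic for Lemma B with an arbitrary line `N`: the template
-/

namespace Pool.Agent.K4L

/-- the part of `A` prime to `δ` -/
theorem split_coprime (δ : ℤ) (hδ : δ ≠ 0) : ∀ (N : ℕ) (A : ℤ), A ≠ 0 → A.natAbs ≤ N →
    ∃ A1 A2 : ℤ, A = A1 * A2 ∧ IsCoprime A1 δ ∧
      ∀ p : ℕ, p.Prime → (p : ℤ) ∣ A2 → (p : ℤ) ∣ δ := by
  intro N
  induction N with
  | zero => intro A hA h; exact absurd (Int.natAbs_eq_zero.mp (by omega)) hA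
  | succ N ih =>
    intro A hA hAN
    by_cases hc : IsCoprime A δ
    · refine ⟨A, 1, by ring, hc, ?_⟩
      intro p hp hd
      exact absurd hd (prime_not_dvd_one hp)
    · have : ∃ p : ℕ, p.Prime ∧ (p : ℤ) ∣ A ∧ (p : ℤ) ∣ δ := by
        by_contra hcon
        apply hc
        apply coprime_of_no_prime
        intro p hp h1 h2
        exact hcon ⟨p, hp, h1, h2⟩
      obtain ⟨p, hp, ⟨A', hA'⟩, hpδ⟩ := this
      have hA'0 : A' ≠ 0 := by rintro rfl; apply hA; rw [hA']; ring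
      have hlt : A'.natAbs < A.natAbs := by
        rw [hA', Int.natAbs_mul]
        have h1 : 1 < ((p : ℤ)).natAbs := by
          rw [Int.natAbs_natCast]; exact hp.one_lt
        have h2 : 0 < A'.natAbs := Int.natAbs_pos.mpr hA'0
        nlinarith
      obtain ⟨A1, A2, h1, h2, h3⟩ := ih A' hA'0 (by omega)
      refine ⟨A1, p * A2, by rw [hA', h1]; ring, h2, ?_⟩
      intro q hq hd
      have hqI : Prime (q : ℤ) := Nat.prime_iff_prime_int.mp hq
      rcases hqI.dvd_or_dvd hd with h | h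
      · have : q = p := by
          have h' : q ∣ p := Int.natCast_dvd_natCast.mp h
          exact (Nat.prime_dvd_prime_iff_eq hq hp).mp h'
        rw [this]; exact hpδ
      · exact h3 q hq h

/-- the template: one near transversal -/
theorem exists_template {uL uM uN um w : Pt} (hwM : dt w uM = 1)
    (cN : IsCoprime uN.1 uN.2) (cm : IsCoprime um.1 um.2)
    (hMN : dt uM uN ≠ 0) (hMm : dt uM um ≠ 0) (hNm : dt uN um ≠ 0) (hLN : dt uL uN ≠ 0)
    (hLm : dt uL um ≠ 0) (Z Rb N0 : ℤ) (hZ : Z ≠ 0) (kY : ℤ) (ν : Pt) :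
    ∃ n0 P X : ℤ, P ≠ 0 ∧ Rb ≤ |P| ∧ IsCoprime n0 P ∧ N0 * |P| ≤ |n0| ∧
      (n0 * dt uM uN + P * dt w uN) ∣
        (Z * P * X) * (n0 * dt uM uL + P * dt w uL) - (n0 * dt uM ν + P * dt w ν) ∧
      (n0 * dt uM um + P * dt w um) ∣
        (Z * P * X) * (n0 * dt uM uL + P * dt w uL) - kY * P := by
  classical
  obtain ⟨δ, hδ⟩ : ∃ δ, δ = dt uM uN := ⟨_, rfl⟩
  obtain ⟨dm, hdm⟩ : ∃ dm, dm = dt uM um := ⟨_, rfl⟩
  rw [← hδ] at hMN ⊢
  rw [← hdm] at hMm ⊢
  obtain ⟨Q0, hQ0⟩ : ∃ Q0, Q0 = Z * dm * dt uN um * dt uL uN * dt uL um := ⟨_, rfl⟩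
  have hQ0n : Q0 ≠ 0 := by
    rw [hQ0]
    exact mul_ne_zero (mul_ne_zero (mul_ne_zero (mul_ne_zero hZ hMm) hNm) hLN) hLm
  obtain ⟨Q1, Q2, hQ12, hQ1, hQ2⟩ := split_coprime δ hMN _ Q0 hQ0n le_rfl
  obtain ⟨μ1, μ2, hμ, hμ1, hμ2⟩ := split_coprime δ hMN _ dm hMm le_rfl
  -- `μ1 ∣ Q1`
  have hμQ : μ1 ∣ Q1 := by
    have h1 : μ1 ∣ Q0 := by
      rw [hQ0, hμ]
      exact ⟨Z * μ2 * dt uN um * dt uL uN * dt uL um, by ring⟩
    rw [hQ12] at h1
    have h2 : IsCoprime μ1 Q2 := by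
      apply coprime_of_no_prime
      intro p hp ha hb
      have hc := hQ2 p hp hb
      have hpI : Prime (p : ℤ) := Nat.prime_iff_prime_int.mp hp
      obtain ⟨u, v, huv⟩ := hμ1
      apply prime_not_dvd_one hp
      rw [← huv]
      exact dvd_add (ha.mul_left _) (hc.mul_left _)
    exact h2.dvd_of_dvd_mul_right h1
  have hQ1n : Q1 ≠ 0 := by rintro rfl; apply hQ0n; rw [hQ12]; ring
  have hμ1n : μ1 ≠ 0 := by rintro rfl; apply hMm; rw [hμ]; ring
  -- `R1`
  obtain ⟨R1, hR1⟩ : ∃ R1, R1 = 1 + δ * δ * (|Rb| + 1) := ⟨_, rfl⟩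
  have hδδ : 1 ≤ δ * δ := by
    have := Int.one_le_abs hMN
    nlinarith [abs_mul_abs_self δ]
  have hR1b : |Rb| + 1 ≤ R1 := by
    rw [hR1]; nlinarith [abs_nonneg Rb]
  have hR1c : IsCoprime R1 δ := ⟨1, -(δ * (|Rb| + 1)), by rw [hR1]; ring⟩
  obtain ⟨P, hP⟩ : ∃ P, P = Q1 * Q1 * R1 := ⟨_, rfl⟩
  have hPn : P ≠ 0 := by
    rw [hP]
    refine mul_ne_zero (mul_ne_zero hQ1n hQ1n) ?_
    have := abs_nonneg Rb
    intro h; linarith
  have hPδ : IsCoprime P δ := by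
    rw [hP]; exact (hQ1.mul_left hQ1).mul_left hR1c
  have hPR : Rb ≤ |P| := by
    rw [hP, abs_mul, abs_mul]
    have h1 := Int.one_le_abs hQ1n
    have h2 : |R1| = R1 := abs_of_nonneg (by linarith [abs_nonneg Rb])
    rw [h2]
    have h3 : 1 ≤ |Q1| * |Q1| := by nlinarith
    have h4 : R1 ≤ |Q1| * |Q1| * R1 := le_mul_of_one_le_left (by linarith [abs_nonneg Rb]) h3
    linarith [le_abs_self Rb]
  -- the residue modulo the primes of `δ`
  have cm' : ∀ p : ℕ, p.Prime → ¬ ((p : ℤ) ∣ dt w um ∧ (p : ℤ) ∣ dm) := by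
    rintro p hp ⟨h1, h2⟩
    have hb : um.1 = dt w um * uM.1 - dm * w.1 ∧ um.2 = dt w um * uM.2 - dm * w.2 := by
      rw [hdm]
      unfold dt at hwM ⊢
      constructor
      · linear_combination (-um.1) * hwM
      · linear_combination (-um.2) * hwM
    obtain ⟨x, y, hxy⟩ := cm
    apply prime_not_dvd_one hp
    rw [← hxy]
    refine dvd_add (Dvd.dvd.mul_left ?_ _) (Dvd.dvd.mul_left ?_ _)
    · rw [hb.1]; exact dvd_sub (h1.mul_right _) (h2.mul_right _)
    · rw [hb.2]; exact dvd_sub (h1.mul_right _) (h2.mul_right _)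
  have cN' : ∀ p : ℕ, p.Prime → ¬ ((p : ℤ) ∣ dt w uN ∧ (p : ℤ) ∣ δ) := by
    rintro p hp ⟨h1, h2⟩
    have hb : uN.1 = dt w uN * uM.1 - δ * w.1 ∧ uN.2 = dt w uN * uM.2 - δ * w.2 := by
      rw [hδ]
      unfold dt at hwM ⊢
      constructor
      · linear_combination (-uN.1) * hwM
      · linear_combination (-uN.2) * hwM
    obtain ⟨x, y, hxy⟩ := cN
    apply prime_not_dvd_one hp
    rw [← hxy]
    refine dvd_add (Dvd.dvd.mul_left ?_ _) (Dvd.dvd.mul_left ?_ _)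
    · rw [hb.1]; exact dvd_sub (h1.mul_right _) (h2.mul_right _)
    · rw [hb.2]; exact dvd_sub (h1.mul_right _) (h2.mul_right _)
  have notP : ∀ p : ℕ, p.Prime → (p : ℤ) ∣ P → ¬ (p : ℤ) ∣ δ := by
    intro p hp h1 h2
    obtain ⟨u, v, huv⟩ := hPδ
    apply prime_not_dvd_one hp
    rw [← huv]
    exact dvd_add (h1.mul_left _) (h2.mul_left _)
  obtain ⟨n1, hn1⟩ := greedy_residue ({0} : Finset ℕ) (fun _ => P * dt w um) (fun _ => dm)
    δ.natAbs.primeFactors
    (by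
      intro p hp
      have := Nat.prime_of_mem_primeFactors hp
      exact ⟨this, by simpa using this.one_lt⟩)
    (by
      rintro p hp _ _ ⟨h1, h2⟩
      have hpp := Nat.prime_of_mem_primeFactors hp
      have hpI : Prime (p : ℤ) := Nat.prime_iff_prime_int.mp hpp
      have hpδ : (p : ℤ) ∣ δ := Int.natCast_dvd.mpr (Nat.dvd_of_mem_primeFactors hp)
      rcases hpI.dvd_or_dvd h1 with h | h
      · exact notP p hpp h hpδ
      · exact cm' p hpp ⟨h, h2⟩)
  -- `n0`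
  obtain ⟨M0, hM0⟩ : ∃ M0, M0 = ∏ p ∈ δ.natAbs.primeFactors, (p : ℤ) := ⟨_, rfl⟩
  rw [← hM0] at hn1
  have hM0δ : M0 ∣ δ := by
    rw [hM0]
    have h1 : (∏ p ∈ δ.natAbs.primeFactors, (p : ℤ)) =
        ((∏ p ∈ δ.natAbs.primeFactors, p : ℕ) : ℤ) := by push_cast; rfl
    rw [h1]
    exact Int.natCast_dvd.mpr (Nat.prod_primeFactors_dvd _)
  have hPM0 : IsCoprime P M0 := hPδ.of_isCoprime_of_dvd_right hM0δ
  obtain ⟨u, v, huv⟩ := hPM0
  have hM0n : M0 ≠ 0 := by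
    rintro rfl
    exact hMN (zero_dvd_iff.mp hM0δ)
  -- `n0 = 1 mod P`, `n0 = n1 mod M0`
  obtain ⟨n0, hn0⟩ : ∃ n0 : ℤ → ℤ, n0 = fun k => v * M0 + n1 * (u * P) + P * M0 * k :=
    ⟨_, rfl⟩
  have hn0P : ∀ k, IsCoprime (n0 k) P := by
    intro k
    refine ⟨1, u - n1 * u - M0 * k, ?_⟩
    rw [hn0]
    simp only
    linear_combination huv
  have hn0δ : ∀ k, ∀ p : ℕ, p.Prime → (p : ℤ) ∣ δ → ¬ (p : ℤ) ∣ n0 k * dm + P * dt w um := by
    intro k p hp hpδ hd
    have hpm : p ∈ δ.natAbs.primeFactors := by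
      rw [Nat.mem_primeFactors]
      exact ⟨hp, Int.natCast_dvd.mp hpδ, by simpa using hMN⟩
    have hpM : (p : ℤ) ∣ M0 := by
      rw [hM0]; exact Finset.dvd_prod_of_mem (fun p : ℕ => (p : ℤ)) hpm
    apply hn1 0 p hpm 0 (by simp)
    have e : P * dt w um + dm * (n1 + M0 * 0) =
        (n0 k * dm + P * dt w um) - M0 * (dm * (v - n1 * v + P * k)) := by
      rw [hn0]
      simp only
      linear_combination (-(dm * n1)) * huv
    rw [e]
    exact dvd_sub hd (hpM.mul_right _)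
  -- size
  obtain ⟨k, hk⟩ : ∃ k, N0 * |P| ≤ |n0 k| := by
    obtain ⟨k, hk⟩ : ∃ k : ℤ, N0 * |P| ≤ |(v * M0 + n1 * (u * P)) + P * M0 * k| := by
      refine ⟨|v * M0 + n1 * (u * P)| + abs (N0 * |P|), ?_⟩
      set c := v * M0 + n1 * (u * P) with hc
      set d := abs (N0 * |P|) with hd
      have h1 : |P * M0 * (|c| + d)| = |P * M0| * (|c| + d) := by
        rw [abs_mul (P * M0), abs_of_nonneg (a := |c| + d) (by positivity)]
      have h2 : 1 ≤ |P * M0| := Int.one_le_abs (mul_ne_zero hPn hM0n)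
      have h3 : |P * M0 * (|c| + d)| ≤ |c + P * M0 * (|c| + d)| + |c| := by
        have := abs_add_le (c + P * M0 * (|c| + d)) (-c)
        rw [abs_neg] at this
        have e : c + P * M0 * (|c| + d) + -c = P * M0 * (|c| + d) := by ring
        rwa [e] at this
      have h4 : |c| + d ≤ |P * M0| * (|c| + d) := by
        nlinarith [abs_nonneg c, abs_nonneg (N0 * |P|)]
      have h5 : N0 * |P| ≤ d := le_abs_self _
      linarith
    exact ⟨k, by rw [hn0]; exact hk⟩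
  obtain ⟨n, hn⟩ : ∃ n, n = n0 k := ⟨_, rfl⟩
  have hnP := hn0P k
  have hnδ := hn0δ k
  rw [← hn] at hk hnP hnδ
  -- the two numbers
  obtain ⟨DN, hDN⟩ : ∃ DN, DN = n * δ + P * dt w uN := ⟨_, rfl⟩
  obtain ⟨P1, hP1⟩ : ∃ P1, P = μ1 * P1 ∧ Q1 * R1 ∣ P1 := by
    obtain ⟨c, hc⟩ := hμQ
    refine ⟨c * Q1 * R1, by rw [hP]; rw [hc]; ring, ⟨c, by ring⟩⟩
  obtain ⟨hP1e, hP1d⟩ := hP1
  obtain ⟨Dm, hDm⟩ : ∃ Dm, Dm = n * μ2 + P1 * dt w um := ⟨_, rfl⟩
  have hDm' : n * dm + P * dt w um = μ1 * Dm := by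
    rw [hDm, hP1e, hμ]; ring
  have nP : ∀ p : ℕ, p.Prime → (p : ℤ) ∣ P → ¬ (p : ℤ) ∣ n := by
    intro p hp h1 h2
    obtain ⟨u, v, huv⟩ := hnP
    apply prime_not_dvd_one hp
    rw [← huv]
    exact dvd_add (h2.mul_left _) (h1.mul_left _)
  have DN_P : ∀ p : ℕ, p.Prime → (p : ℤ) ∣ DN → ¬ (p : ℤ) ∣ P := by
    intro p hp h1 h2
    have hpI : Prime (p : ℤ) := Nat.prime_iff_prime_int.mp hp
    have h3 : (p : ℤ) ∣ n * δ := by
      have e : n * δ = DN - P * dt w uN := by rw [hDN]; ring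
      rw [e]; exact dvd_sub h1 (h2.mul_right _)
    rcases hpI.dvd_or_dvd h3 with h | h
    · exact nP p hp h2 h
    · exact notP p hp h2 h
  have DN_δ : ∀ p : ℕ, p.Prime → (p : ℤ) ∣ DN → ¬ (p : ℤ) ∣ δ := by
    intro p hp h1 h2
    have hpI : Prime (p : ℤ) := Nat.prime_iff_prime_int.mp hp
    have h3 : (p : ℤ) ∣ P * dt w uN := by
      have e : P * dt w uN = DN - n * δ := by rw [hDN]; ring
      rw [e]; exact dvd_sub h1 (h2.mul_left _)
    rcases hpI.dvd_or_dvd h3 with h | h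
    · exact notP p hp h h2
    · exact cN' p hp ⟨h, h2⟩
  have Dm_P : ∀ p : ℕ, p.Prime → (p : ℤ) ∣ Dm → ¬ (p : ℤ) ∣ P := by
    intro p hp h1 h2
    have hpI : Prime (p : ℤ) := Nat.prime_iff_prime_int.mp hp
    -- `p ∣ P1`
    have h3 : (p : ℤ) ∣ P1 := by
      refine dvd_trans ?_ hP1d
      rw [hP] at h2
      rcases hpI.dvd_or_dvd h2 with h | h
      · rcases hpI.dvd_or_dvd h with h | h
        · exact h.mul_right _
        · exact h.mul_right _
      · exact h.mul_left _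
    have h4 : (p : ℤ) ∣ n * μ2 := by
      have e : n * μ2 = Dm - P1 * dt w um := by rw [hDm]; ring
      rw [e]; exact dvd_sub h1 (h3.mul_right _)
    rcases hpI.dvd_or_dvd h4 with h | h
    · exact nP p hp h2 h
    · exact notP p hp h2 (hμ2 p hp h)
  have Dm_δ : ∀ p : ℕ, p.Prime → (p : ℤ) ∣ Dm → ¬ (p : ℤ) ∣ δ := by
    intro p hp h1 h2
    apply hnδ p hp h2
    rw [hDm']; exact h1.mul_left _
  have notQ : ∀ p : ℕ, p.Prime → ¬ (p : ℤ) ∣ P → ¬ (p : ℤ) ∣ δ → ¬ (p : ℤ) ∣ Q0 := by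
    intro p hp h1 h2 h3
    have hpI : Prime (p : ℤ) := Nat.prime_iff_prime_int.mp hp
    rw [hQ12] at h3
    rcases hpI.dvd_or_dvd h3 with h | h
    · apply h1
      rw [hP]; exact (h.mul_right _).mul_right _
    · exact h2 (hQ2 p hp h)
  -- the direction
  obtain ⟨σ, hσ⟩ : ∃ σ : Pt, σ = (n * uM.1 + P * w.1, n * uM.2 + P * w.2) := ⟨_, rfl⟩
  have dσ : ∀ z, dt σ z = n * dt uM z + P * dt w z := by
    intro z; rw [hσ]; unfold dt; simp only; ring
  have cσ : IsCoprime σ.1 σ.2 := by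
    obtain ⟨a, b, hab⟩ := hnP
    refine ⟨b * uM.2 - a * w.2, a * w.1 - b * uM.1, ?_⟩
    have hw2 : w.1 * uM.2 - w.2 * uM.1 = 1 := hwM
    rw [hσ]
    simp only
    linear_combination hab + (a * n + b * P) * hw2
  have hDNσ : DN = dt σ uN := by rw [dσ, ← hδ, hDN]
  have hDmσ : μ1 * Dm = dt σ um := by rw [dσ, ← hdm, ← hDm']
  obtain ⟨A, hA⟩ : ∃ A, A = n * dt uM uL + P * dt w uL := ⟨_, rfl⟩
  have hAσ : A = dt σ uL := by rw [dσ, hA]
  have cDN : IsCoprime DN (Z * P * A) := by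
    apply coprime_of_no_prime
    intro p hp h1 h2
    have hpI : Prime (p : ℤ) := Nat.prime_iff_prime_int.mp hp
    have n1 := DN_P p hp h1
    have n2 := DN_δ p hp h1
    have n3 := notQ p hp n1 n2
    rcases hpI.dvd_or_dvd h2 with h | h
    · rcases hpI.dvd_or_dvd h with h | h
      · apply n3; rw [hQ0]
        exact (((h.mul_right _).mul_right _).mul_right _).mul_right _
      · exact n1 h
    · apply n3
      have h3 : (p : ℤ) ∣ dt uL uN := prime_dvd_dt cσ (by rw [← hAσ]; exact h)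
        (by rw [← hDNσ]; exact h1)
      rw [hQ0]; exact (h3.mul_left _).mul_right _
  have cDm : IsCoprime Dm (Z * P * A) := by
    apply coprime_of_no_prime
    intro p hp h1 h2
    have hpI : Prime (p : ℤ) := Nat.prime_iff_prime_int.mp hp
    have n1 := Dm_P p hp h1
    have n2 := Dm_δ p hp h1
    have n3 := notQ p hp n1 n2
    rcases hpI.dvd_or_dvd h2 with h | h
    · rcases hpI.dvd_or_dvd h with h | h
      · apply n3; rw [hQ0]
        exact (((h.mul_right _).mul_right _).mul_right _).mul_right _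
      · exact n1 h
    · apply n3
      have h3 : (p : ℤ) ∣ dt uL um := prime_dvd_dt cσ (by rw [← hAσ]; exact h)
        (by rw [← hDmσ]; exact h1.mul_left _)
      rw [hQ0]; exact h3.mul_left _
  have cNm : IsCoprime DN Dm := by
    apply coprime_of_no_prime
    intro p hp h1 h2
    apply notQ p hp (DN_P p hp h1) (DN_δ p hp h1)
    have h3 : (p : ℤ) ∣ dt uN um := prime_dvd_dt cσ (by rw [← hDNσ]; exact h1)
      (by rw [← hDmσ]; exact h2.mul_left _)
    rw [hQ0]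
    exact ((h3.mul_left _).mul_right _).mul_right _
  obtain ⟨X, hX⟩ := crt_lin (Finset.univ : Finset Bool) (fun i => if i then DN else Dm)
    (fun _ => Z * P * A) (fun i => if i then n * dt uM ν + P * dt w ν else kY * P)
    (by
      intro i _ i' _ hne
      cases i <;> cases i'
      · exact absurd rfl hne
      · simpa using cNm.symm
      · simpa using cNm
      · exact absurd rfl hne)
    (by
      intro i _
      cases i
      · simpa using cDm
      · simpa using cDN)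
  have hX1 := hX 0 true (Finset.mem_univ _)
  have hX2 := hX 0 false (Finset.mem_univ _)
  simp only [if_true, mul_zero, add_zero] at hX1
  simp only [Bool.false_eq_true, if_false, mul_zero, add_zero] at hX2
  refine ⟨n, P, X, hPn, hPR, hnP, hk, ?_, ?_⟩
  · rw [← hDN, ← hA]
    have e : Z * P * X * A - (n * dt uM ν + P * dt w ν) =
        X * (Z * P * A) - (n * dt uM ν + P * dt w ν) := by ring
    rw [e]; exact hX1
  · rw [hDm', ← hA]
    have h1 : μ1 ∣ Z * P * X * A - kY * P := by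
      have : μ1 ∣ P := ⟨P1, hP1e⟩
      have e : Z * P * X * A - kY * P = P * (Z * X * A - kY) := by ring
      rw [e]; exact this.mul_right _
    have h2 : Dm ∣ Z * P * X * A - kY * P := by
      have e : Z * P * X * A - kY * P = X * (Z * P * A) - kY * P := by ring
      rw [e]; exact hX2
    refine IsCoprime.mul_dvd ?_ h1 h2
    apply coprime_of_no_prime
    intro p hp ha hb
    exact Dm_P p hp hb (ha.trans ⟨P1, hP1e⟩)

end Pool.Agent.K4L
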