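import Pool.Agent.K4L.LemBDef

/-!
# Arithmetic for Lemma B: greedy residues and the Chinese remainder theorem
-/

namespace Pool.Agent.K4L

/-- one prime: a residue which avoids the zeros of fewer than `p` linear forms -/
theorem greedy_one {ι : Type} (I : Finset ι) (a b : ι → ℤ) (p : ℕ) (hp : p.Prime)
    (hc : I.card < p) (h : ∀ i ∈ I, ¬ ((p : ℤ) ∣ a i ∧ (p : ℤ) ∣ b i)) :
    ∃ r : ℤ, ∀ i ∈ I, ¬ (p : ℤ) ∣ a i + b i * r := by
  by_contra hcon
  push Not at hcon
  choose f hf hf2 using hcon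
  have hmaps : Set.MapsTo (fun r : ℕ => f (r : ℤ)) (Finset.range p : Set ℕ) (I : Set ι) := by
    intro r _
    exact hf _
  obtain ⟨r, hr, r', hr', hne, heq⟩ := Finset.exists_ne_map_eq_of_card_lt_of_maps_to
    (s := Finset.range p) (t := I) (by simpa using hc) hmaps
  have h1 := hf2 (r : ℤ)
  have h2 := hf2 (r' : ℤ)
  have heq' : f (r : ℤ) = f (r' : ℤ) := heq
  rw [← heq'] at h2
  have hpI : Prime (p : ℤ) := Nat.prime_iff_prime_int.mp hp
  have h3 : (p : ℤ) ∣ b (f r) * ((r : ℤ) - r') := by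
    have := dvd_sub h1 h2
    have e : a (f r) + b (f r) * (r : ℤ) - (a (f r) + b (f r) * (r' : ℤ))
      = b (f r) * ((r : ℤ) - r') := by ring
    rwa [e] at this
  rcases hpI.dvd_or_dvd h3 with h4 | h4
  · apply h (f r) (hf _)
    refine ⟨?_, h4⟩
    have := dvd_sub h1 (h4.mul_right (r : ℤ))
    simpa using this
  · apply hne
    have hr1 := Finset.mem_range.mp hr
    have hr2 := Finset.mem_range.mp hr'
    have h5 : (r : ℤ) - r' = 0 := by
      apply Int.eq_zero_of_abs_lt_dvd h4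
      rw [abs_lt]
      constructor <;> omega
    omega

/-- T1 -/
theorem greedy_residue {ι : Type} (I : Finset ι) (a b : ι → ℤ) (P : Finset ℕ)
    (hP : ∀ p ∈ P, p.Prime ∧ I.card < p)
    (h : ∀ p ∈ P, ∀ i ∈ I, ¬ ((p : ℤ) ∣ a i ∧ (p : ℤ) ∣ b i)) :
    ∃ n0 : ℤ, ∀ k : ℤ, ∀ p ∈ P, ∀ i ∈ I,
      ¬ (p : ℤ) ∣ a i + b i * (n0 + (∏ p ∈ P, (p : ℤ)) * k) := by
  classical
  induction P using Finset.induction_on with
  | empty => exact ⟨0, by simp⟩
  | insert q P hq ih =>
    obtain ⟨n1, hn1⟩ := ih (fun p hp => hP p (Finset.mem_insert_of_mem hp))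
      (fun p hp => h p (Finset.mem_insert_of_mem hp))
    obtain ⟨hqp, hqc⟩ := hP q (Finset.mem_insert_self _ _)
    obtain ⟨r, hr⟩ := greedy_one I a b q hqp hqc (h q (Finset.mem_insert_self _ _))
    have hcop : IsCoprime (∏ p ∈ P, (p : ℤ)) (q : ℤ) := by
      apply IsCoprime.prod_left
      intro p hp
      rw [Nat.isCoprime_iff_coprime]
      apply (Nat.coprime_primes (hP p (Finset.mem_insert_of_mem hp)).1 hqp).mpr
      rintro rfl
      exact hq hp
    obtain ⟨u, v, huv⟩ := hcop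
    refine ⟨n1 + (∏ p ∈ P, (p : ℤ)) * (u * (r - n1)), ?_⟩
    intro k p hp i hi
    rw [Finset.prod_insert hq]
    rcases Finset.mem_insert.mp hp with rfl | hp
    · intro hd
      apply hr i hi
      have e : a i + b i * r = (a i + b i * (n1 + (∏ p ∈ P, (p : ℤ)) * (u * (r - n1))
          + (p : ℤ) * (∏ p ∈ P, (p : ℤ)) * k))
          - (p : ℤ) * (b i * (∏ p ∈ P, (p : ℤ)) * k - b i * v * (r - n1)) := by
        linear_combination (-(b i * (r - n1))) * huv
      rw [e]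
      exact dvd_sub hd (dvd_mul_right _ _)
    · have e : n1 + (∏ p ∈ P, (p : ℤ)) * (u * (r - n1)) + (q : ℤ) * (∏ p ∈ P, (p : ℤ)) * k
          = n1 + (∏ p ∈ P, (p : ℤ)) * (u * (r - n1) + (q : ℤ) * k) := by ring
      rw [e]
      exact hn1 _ p hp i hi

/-- T2 -/
theorem step_n (I : Finset (ℤ × ℤ)) (Z Q : ℤ) (hZ : Z ≠ 0) (hQ : Q ≠ 0)
    (hcard : ∀ p : ℕ, p.Prime → p ≤ I.card → (p : ℤ) ∣ Q)
    (h : ∀ f ∈ I, ∀ p : ℕ, p.Prime → (p : ℤ) ∣ f.2 → (p : ℤ) ∣ Q) (N0 : ℤ) :
    ∃ n : ℤ, N0 ≤ |n| ∧ Q ∣ n ∧ ∀ f ∈ I, ∀ p : ℕ, p.Prime → (p : ℤ) ∣ Z → ¬ (p : ℤ) ∣ Q →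
      ¬ (p : ℤ) ∣ f.1 + f.2 * n := by
  classical
  set P : Finset ℕ := Z.natAbs.primeFactors.filter (fun p => ¬ (p : ℤ) ∣ Q) with hPdef
  have hPm : ∀ p ∈ P, p.Prime ∧ ¬ (p : ℤ) ∣ Q := by
    intro p hp
    rw [hPdef, Finset.mem_filter] at hp
    exact ⟨Nat.prime_of_mem_primeFactors hp.1, hp.2⟩
  obtain ⟨n0, hn0⟩ := greedy_residue I (fun f => f.1) (fun f => f.2 * Q) P
    (by
      intro p hp
      refine ⟨(hPm p hp).1, ?_⟩
      by_contra hc
      exact (hPm p hp).2 (hcard p (hPm p hp).1 (by omega)))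
    (by
      rintro p hp f hf ⟨_, h2⟩
      have hpI : Prime (p : ℤ) := Nat.prime_iff_prime_int.mp (hPm p hp).1
      rcases hpI.dvd_or_dvd h2 with h3 | h3
      · exact (hPm p hp).2 (h f hf p (hPm p hp).1 h3)
      · exact (hPm p hp).2 h3)
  set M : ℤ := ∏ p ∈ P, (p : ℤ) with hM
  have hM0 : M ≠ 0 := by
    rw [hM, Finset.prod_ne_zero_iff]
    intro p hp
    exact_mod_cast (hPm p hp).1.ne_zero
  refine ⟨Q * (n0 + M * (|n0| + |N0|)), ?_, dvd_mul_right _ _, ?_⟩
  · rw [abs_mul]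
    have h1 : 1 ≤ |Q| := Int.one_le_abs hQ
    have h2 : 1 ≤ |M| := Int.one_le_abs hM0
    have h3 : |N0| ≤ |n0 + M * (|n0| + |N0|)| := by
      have h4 : |M * (|n0| + |N0|)| = |M| * (|n0| + |N0|) := by
        rw [abs_mul, abs_of_nonneg (by positivity : 0 ≤ |n0| + |N0|)]
      have h5 : |M * (|n0| + |N0|)| ≤ |n0 + M * (|n0| + |N0|)| + |n0| := by
        have := abs_add_le (n0 + M * (|n0| + |N0|)) (-n0)
        rw [abs_neg] at this
        have e : n0 + M * (|n0| + |N0|) + -n0 = M * (|n0| + |N0|) := by ring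
        rwa [e] at this
      have h6 : (|n0| + |N0|) ≤ |M| * (|n0| + |N0|) := by
        nlinarith [abs_nonneg n0, abs_nonneg N0]
      linarith
    calc N0 ≤ |N0| := le_abs_self _
      _ ≤ |n0 + M * (|n0| + |N0|)| := h3
      _ ≤ |Q| * |n0 + M * (|n0| + |N0|)| := by
        nlinarith [abs_nonneg (n0 + M * (|n0| + |N0|))]
  · intro f hf p hp hpZ hpQ hd
    have hpP : p ∈ P := by
      rw [hPdef, Finset.mem_filter]
      refine ⟨?_, hpQ⟩
      rw [Nat.mem_primeFactors]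
      refine ⟨hp, ?_, by simpa using hZ⟩
      exact Int.natCast_dvd.mp hpZ
    apply hn0 (|n0| + |N0|) p hpP f hf
    have e : f.1 + f.2 * (Q * (n0 + M * (|n0| + |N0|)))
        = f.1 + f.2 * Q * (n0 + M * (|n0| + |N0|)) := by ring
    rwa [e] at hd

/-- Chinese remainder theorem over a finite set -/
theorem crt_finset {ι : Type} (S : Finset ι) (D c : ι → ℤ)
    (hD : ∀ i ∈ S, ∀ i' ∈ S, i ≠ i' → IsCoprime (D i) (D i')) :
    ∃ F : ℤ, ∀ i ∈ S, D i ∣ F - c i := by
  classical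
  induction S using Finset.induction_on with
  | empty => exact ⟨0, by simp⟩
  | insert a S ha ih =>
    obtain ⟨F, hF⟩ := ih (fun i hi i' hi' => hD i (Finset.mem_insert_of_mem hi) i'
      (Finset.mem_insert_of_mem hi'))
    have hcop : IsCoprime (∏ i ∈ S, D i) (D a) := by
      apply IsCoprime.prod_left
      intro i hi
      apply hD i (Finset.mem_insert_of_mem hi) a (Finset.mem_insert_self _ _)
      rintro rfl
      exact ha hi
    obtain ⟨u, v, huv⟩ := hcop
    refine ⟨F + (∏ i ∈ S, D i) * (u * (c a - F)), ?_⟩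
    intro i hi
    rcases Finset.mem_insert.mp hi with rfl | hi
    · refine ⟨-(v * (c i - F)), ?_⟩
      linear_combination (c i - F) * huv
    · have e : F + (∏ i ∈ S, D i) * (u * (c a - F)) - c i
          = (F - c i) + (∏ i ∈ S, D i) * (u * (c a - F)) := by ring
      rw [e]
      exact dvd_add (hF i hi) ((Finset.dvd_prod_of_mem D hi).mul_right _)

/-- linear congruences with pairwise coprime moduli -/
theorem crt_lin {ι : Type} (S : Finset ι) (D a k : ι → ℤ)
    (hD : ∀ i ∈ S, ∀ i' ∈ S, i ≠ i' → IsCoprime (D i) (D i'))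
    (ha : ∀ i ∈ S, IsCoprime (D i) (a i)) :
    ∃ F : ℤ, ∀ n : ℤ, ∀ i ∈ S, D i ∣ (F + (∏ i ∈ S, D i) * n) * a i - k i := by
  classical
  have hex : ∀ i : ι, ∃ c : ℤ, i ∈ S → D i ∣ c * a i - k i := by
    intro i
    by_cases hi : i ∈ S
    · obtain ⟨u, v, huv⟩ := ha i hi
      refine ⟨k i * v, fun _ => ⟨-(k i * u), ?_⟩⟩
      linear_combination (k i) * huv
    · exact ⟨0, fun h => absurd h hi⟩
  choose c hc using hex
  obtain ⟨F, hF⟩ := crt_finset S D c hD
  refine ⟨F, ?_⟩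
  intro n i hi
  have e : (F + (∏ i ∈ S, D i) * n) * a i - k i
      = (F - c i) * a i + (∏ i ∈ S, D i) * (n * a i) + (c i * a i - k i) := by ring
  rw [e]
  exact dvd_add (dvd_add ((hF i hi).mul_right _) ((Finset.dvd_prod_of_mem D hi).mul_right _))
    (hc i hi)

/-- a sequence built step by step, every term in a given relation to all earlier ones -/
theorem exists_seq {α : Type} [Inhabited α] (p : α → Prop) (r : α → α → Prop)
    (step : ∀ S : Finset α, (∀ y ∈ S, p y) → ∃ x, p x ∧ ∀ y ∈ S, r y x) (J : ℕ) :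
    ∃ n : ℕ → α, (∀ j < J, p (n j)) ∧ ∀ j < J, ∀ i < j, r (n i) (n j) := by
  classical
  induction J with
  | zero => exact ⟨fun _ => default, by simp, by simp⟩
  | succ J ih =>
    obtain ⟨n, hn1, hn2⟩ := ih
    obtain ⟨x, hx, hxr⟩ := step ((Finset.range J).image n) (by
      intro y hy
      obtain ⟨j, hj, rfl⟩ := Finset.mem_image.mp hy
      exact hn1 j (Finset.mem_range.mp hj))
    refine ⟨Function.update n J x, ?_, ?_⟩
    · intro j hj
      by_cases hjJ : j = J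
      · subst hjJ
        rw [Function.update_self]
        exact hx
      · rw [Function.update_of_ne hjJ]
        exact hn1 j (by omega)
    · intro j hj i hi
      have hiJ : i ≠ J := by omega
      rw [Function.update_of_ne hiJ]
      by_cases hjJ : j = J
      · subst hjJ
        rw [Function.update_self]
        exact hxr _ (Finset.mem_image_of_mem _ (Finset.mem_range.mpr hi))
      · rw [Function.update_of_ne hjJ]
        exact hn2 j (by omega) i hi

end Pool.Agent.K4L
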