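import Pool.Agent.K4L.LemBCtx

/-!
# Lemma B: case 2
-/

namespace Pool.Agent.K4L

/-- the data of a transversal -/
structure TData (R B : Finset Pt) (o Y v0 uL uM uN um : Pt) (X XG : Finset Pt) (n S : ℤ)
    (s : Pt) (E G K Kf κg κy κf : ℤ) : Prop where
  sc : IsCoprime s.1 s.2
  hP : 400000 * n ^ 16 ≤ |dt s uM|
  hA : (400000 * n ^ 16) * |dt s uM| ≤ |dt s uL|
  hC : 400000 * n ^ 16 ≤ |dt s uN|
  hD : 400000 * n ^ 16 ≤ |dt s um|
  hS : ∀ a ∈ R ∪ insert Y B, ∀ b ∈ R ∪ insert Y B, |dt s (a - b)| ≤ S
  hg : adv o uM G = adv (adv o uL E) s κg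
  hy : adv Y um K = adv (adv o uL E) s κy
  hf : adv v0 uN Kf = adv (adv o uL E) s κf
  hG : (400000 * n ^ 16) * |E| ≤ |G|
  hK : 300000 * n ^ 14 + S + 1 ≤ |K|
  hE : 32 * n ^ 4 * (1000000 * n ^ 16) + 2 * S ≤ |E|
  dG : ∀ x ∈ XG, dt uM (o - x) ∣ G
  dK : (∀ x ∈ X, dt um (Y - x) ∣ K) ∨ ∀ β ∈ B, ∀ β' ∈ B, β ≠ β' → dt (β' - β) um = 0 →
    (∃ w ∈ R, Col β β' w) ∨ dt um (β - Y) = 0
  nohit : ∀ β ∈ insert Y B, ∀ τ ∈ insert Y B, β ≠ τ → dt (τ - β) uN ≠ 0 →
    dt (τ - β) um ≠ 0 → ∀ k, Col β τ (adv (adv o uL E) s k) → dt (τ - β) (o - β) = 0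

theorem exists_adv {e s z : Pt} (hs : IsCoprime s.1 s.2) (h : dt s (z - e) = 0) :
    ∃ k, z = adv e s k := by
  obtain ⟨a, b, hab⟩ := hs
  refine ⟨a * (z.1 - e.1) + b * (z.2 - e.2), ?_⟩
  unfold dt at h
  simp only [Prod.fst_sub, Prod.snd_sub] at h
  unfold adv
  refine Prod.ext ?_ ?_
  · simp only
    linear_combination (-(z.1 - e.1)) * hab - b * h
  · simp only
    linear_combination (-(z.2 - e.2)) * hab + a * h

theorem adv_inj {c u : Pt} (hu : u ≠ 0) {k k' : ℤ} (h : adv c u k = adv c u k') : k = k' := by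
  have hu' : u.1 ≠ 0 ∨ u.2 ≠ 0 := by
    by_contra hc
    apply hu
    rw [not_or, not_not, not_not] at hc
    exact Prod.ext hc.1 hc.2
  have h1 := congrArg Prod.fst h
  have h2 := congrArg Prod.snd h
  unfold adv at h1 h2
  simp only at h1 h2
  rcases hu' with hu | hu
  · exact mul_right_cancel₀ hu (by linarith)
  · exact mul_right_cancel₀ hu (by linarith)

theorem adv_adv (c u : Pt) (k k' : ℤ) : adv (adv c u k) u k' = adv c u (k + k') := by
  unfold adv; simp only; ext <;> simp <;> ring

/-- the line through two points of the transversal -/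
theorem lam_iff {e s z : Pt} {k k' : ℤ} (hk : k ≠ k') :
    Col (adv e s k) (adv e s k') z ↔ dt s (z - e) = 0 := by
  have key : dt (adv e s k' - adv e s k) (z - adv e s k) = (k' - k) * dt s (z - e) := by
    unfold dt adv; simp only [Prod.fst_sub, Prod.snd_sub]; ring
  rw [col_dt, key]
  constructor
  · intro h
    exact (mul_eq_zero.mp h).resolve_left (fun h' => hk (by linarith))
  · intro h
    rw [h, mul_zero]

/-- a line through a near blue stone and the far stone `t` on `L` misses `M` -/
theorem t_miss_M {n T : ℤ} {o uL uM β w : Pt} (h1 : Nv n (β - o)) (hL : Nv n uL) (hM : Nv n uM)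
    (hLM : dt uL uM ≠ 0) (hβL : dt uL (β - o) ≠ 0) (hβM : dt uM (β - o) ≠ 0)
    (hw : dt uM (w - o) = 0) (hT : 4 * n ^ 4 + 2 * n ^ 2 < |T|) :
    ¬ Col β (adv o uL T) w := by
  intro hc
  have e0 : dt (β - o) (w - o) * dt uL uM = dt uL (w - o) * dt (β - o) uM := by
    unfold dt at *
    linear_combination (-((β - o).1 * uL.2 - (β - o).2 * uL.1)) * hw
  have e0' : dt (β - o) (w - o) = T * (dt uL (w - o) + dt (β - o) uL) := by
    unfold Col adv at hc
    unfold dt
    simp only [Prod.fst_sub, Prod.snd_sub] at *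
    linear_combination -hc
  have hβL' : dt (β - o) uL ≠ 0 := by rw [dt_swap]; exact neg_ne_zero.mpr hβL
  have hβM' : dt (β - o) uM ≠ 0 := by rw [dt_swap]; exact neg_ne_zero.mpr hβM
  have b1 := h1.dt hL
  have b2 := h1.dt hM
  have b3 := Int.one_le_abs hLM
  set μ := dt uL uM with hμ
  set a := dt uL (w - o) with ha
  set m1 := dt (β - o) uM with hm1
  set h1' := dt (β - o) uL with hh1
  have e1 : (a + h1') * (m1 - T * μ) = h1' * m1 := by
    rw [e0'] at e0
    linear_combination -e0
  have hne : h1' * m1 ≠ 0 := mul_ne_zero hβL' hβM'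
  have hdvd : (m1 - T * μ) ∣ h1' * m1 := Dvd.intro_left _ e1
  have hle := Int.le_of_dvd (abs_pos.mpr hne) ((abs_dvd_abs _ _).mpr hdvd)
  rw [abs_mul h1' m1] at hle
  have c1 : |h1'| * |m1| ≤ (2 * n ^ 2) * (2 * n ^ 2) :=
    mul_le_mul b1 b2 (abs_nonneg _) (by positivity)
  have c2 := tri_lo2 (-(T * μ)) m1
  rw [abs_neg, abs_mul] at c2
  have c3 : -(T * μ) + m1 = m1 - T * μ := by ring
  rw [c3] at c2
  have c4 : |T| ≤ |T| * |μ| := by nlinarith [abs_nonneg T]
  nlinarith

/-- CASE 2 of Lemma B, with a continuation for the last stage -/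
theorem case2_gen {R B : Finset Pt} {o Y v0 uL uM uN um : Pt} {X XG : Finset Pt} {n : ℤ}
    {XP : Finset (Pt × Pt)}
    (c : BCtx R B o Y v0 uL uM uN um X XG n) {b r s : Pt}
    {S E T G K Kf κg κy κf : ℤ}
    (td : TData R B o Y v0 uL uM uN um X XG n S s E G K Kf κg κy κf)
    (hNT : NoThreat (insert (adv o uL E) R) (insert (adv o uL T) B))
    (hB : ∀ β ∈ B, β ∉ R) (htR : adv o uL T ∉ R)
    (hbR : b ∈ R) (hbM : dt uM (b - o) = 0) (hbo : b ≠ o)
    (hrR : r ∈ R) (hrN : dt uN (r - v0) = 0) (hrv : r ≠ v0)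
    (hfin : ∀ (R3 : Finset Pt) (e g y t t3 : Pt), R ⊆ R3 →
      (∀ β τ, dt um (β - Y) = 0 → dt um (τ - Y) = 0 → Col β τ y) →
      FinData R3 (insert Y B) o uL uM um e g y t t3 X XG XP →
      Win R3 (insert t3 (insert t (insert Y B))))
    (hXP : ∀ p ∈ XP, p.1 ∈ X ∧ p.2 ∈ X ∧ p.1 ≠ p.2)
    (hsel2 : ∀ p ∈ XP, dt (p.2 - p.1) (adv o uL T - p.1) ≠ 0 →
      dt (p.2 - p.1) (adv Y um K - p.1) ∣ dt (p.2 - p.1) (adv o uL T - p.1) * (p.2 - p.1).1 →
      dt (p.2 - p.1) (adv Y um K - p.1) ∣ dt (p.2 - p.1) (adv o uL T - p.1) * (p.2 - p.1).2 →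
      False)
    (hTE : T ≠ E) (hT1 : |T| ≤ 32 * n ^ 4 * |E|) (hT2 : |E| ≤ 32 * n ^ 4 * |T|)
    (hsel : ∀ β ∈ insert Y B, ∀ k, ¬ Col β (adv o uL T) (adv (adv o uL E) s k)) :
    Win (insert (adv o uL E) R) (insert (adv o uL T) B) := by
  -- sizes
  have hn := c.hn
  have hn2 : 1 ≤ n ^ 2 := one_le_pow₀ hn
  have hn4 : 1 ≤ n ^ 4 := one_le_pow₀ hn
  have hn14 : 1 ≤ n ^ 14 := one_le_pow₀ hn
  have hn16 : 1 ≤ n ^ 16 := one_le_pow₀ hn
  have p1 : n ≤ n ^ 16 := le_self_pow₀ hn (by norm_num)
  have p2 : n ^ 2 ≤ n ^ 16 := pow_le_pow_right₀ hn (by norm_num)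
  have p4 : n ^ 4 ≤ n ^ 16 := pow_le_pow_right₀ hn (by norm_num)
  have p8 : n ^ 8 ≤ n ^ 16 := pow_le_pow_right₀ hn (by norm_num)
  have q1 : n ≤ n ^ 14 := le_self_pow₀ hn (by norm_num)
  have q2 : n ^ 2 ≤ n ^ 14 := pow_le_pow_right₀ hn (by norm_num)
  have q4 : n ^ 4 ≤ n ^ 14 := pow_le_pow_right₀ hn (by norm_num)
  have oN := c.nearR c.oR
  have vN := c.nearR c.vR
  have YN := c.nearY
  have hS0 : 0 ≤ S := le_trans (abs_nonneg _) (td.hS o oN o oN)
  have hE := td.hE
  have hEn := abs_nonneg E
  have hTn := abs_nonneg T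
  have hEbig : 1000000 * n ^ 16 ≤ |E| := by nlinarith
  have hES : 2 * S ≤ |E| := by nlinarith
  have hTbig : 1000000 * n ^ 16 ≤ |T| := by
    have : 32 * n ^ 4 * (1000000 * n ^ 16) ≤ 32 * n ^ 4 * |T| := by linarith
    exact le_of_mul_le_mul_left this (by positivity)
  have hGE : |E| ≤ |G| := by
    have := td.hG
    exact (le_mul_of_one_le_left hEn (by linarith)).trans this
  have hGbig : 1000000 * n ^ 16 ≤ |G| := by linarith
  have hKbig : 300000 * n ^ 14 + S + 1 ≤ |K| := td.hK
  have hA1 : (400000 * n ^ 16) * (400000 * n ^ 16) ≤ |dt s uL| :=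
    le_trans (mul_le_mul_of_nonneg_left td.hP (by positivity)) td.hA
  have hAbig : 400000 * n ^ 16 ≤ |dt s uL| := (le_mul_of_one_le_left (by positivity) (by linarith)).trans hA1
  have hPA : |dt s uM| ≤ |dt s uL| := by
    have := td.hA
    exact (le_mul_of_one_le_left (abs_nonneg _) (by linarith)).trans this
  have hDA : |dt s um| ≤ 4 * n ^ 2 * |dt s uL| := by
    have key : dt s um * dt uL uM = dt s uM * dt uL um - dt s uL * dt uM um := by
      unfold dt; ring
    have h1 : |dt s um| * |dt uL uM| ≤ |dt s uM| * |dt uL um| + |dt s uL| * |dt uM um| := by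
      rw [← abs_mul, key, ← abs_mul, ← abs_mul]
      exact abs_sub _ _
    have h2 : |dt s uM| * |dt uL um| ≤ |dt s uL| * (2 * n ^ 2) :=
      mul_le_mul hPA (c.nL.dt c.nm) (abs_nonneg _) (abs_nonneg _)
    have h3 : |dt s uL| * |dt uM um| ≤ |dt s uL| * (2 * n ^ 2) :=
      mul_le_mul_of_nonneg_left (c.nM.dt c.nm) (abs_nonneg _)
    have h4 := Int.one_le_abs c.hLM
    have h5 := le_mul_of_one_le_right (abs_nonneg (dt s um)) h4
    linarith
  have hs0 : s ≠ 0 := by
    rintro rfl
    have := td.hP
    unfold dt at this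
    simp only [Prod.fst_zero, Prod.snd_zero, zero_mul, sub_zero, abs_zero] at this
    linarith
  have hA0 : dt s uL ≠ 0 := by
    intro h; rw [h, abs_zero] at hAbig; linarith
  have hP0 : dt s uM ≠ 0 := by
    intro h; have := td.hP; rw [h, abs_zero] at this; linarith
  have hD0 : dt s um ≠ 0 := by
    intro h; have := td.hD; rw [h, abs_zero] at this; linarith
  have hC0 : dt s uN ≠ 0 := by
    intro h; have := td.hC; rw [h, abs_zero] at this; linarith
  -- names
  obtain ⟨e, he⟩ : ∃ e, e = adv o uL E := ⟨_, rfl⟩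
  obtain ⟨t, ht⟩ : ∃ t, t = adv o uL T := ⟨_, rfl⟩
  obtain ⟨g, hg⟩ : ∃ g, g = adv o uM G := ⟨_, rfl⟩
  obtain ⟨y, hy⟩ : ∃ y, y = adv Y um K := ⟨_, rfl⟩
  obtain ⟨f, hf⟩ : ∃ f, f = adv v0 uN Kf := ⟨_, rfl⟩
  rw [← he, ← ht] at hNT
  rw [← ht] at htR
  rw [← he, ← ht] at hsel ⊢
  have hgs : g = adv e s κg := by rw [hg, he]; exact td.hg
  have hys : y = adv e s κy := by rw [hy, he]; exact td.hy
  have hfs : f = adv e s κf := by rw [hf, he]; exact td.hf
  have hes : e = adv e s 0 := by unfold adv; simp
  -- lines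
  have eL : dt uL (e - o) = 0 := by rw [he]; unfold dt adv; simp only [Prod.fst_sub, Prod.snd_sub]; ring
  have tL : dt uL (t - o) = 0 := by rw [ht]; unfold dt adv; simp only [Prod.fst_sub, Prod.snd_sub]; ring
  have gM : dt uM (g - o) = 0 := by rw [hg]; unfold dt adv; simp only [Prod.fst_sub, Prod.snd_sub]; ring
  have ym : dt um (y - Y) = 0 := by rw [hy]; unfold dt adv; simp only [Prod.fst_sub, Prod.snd_sub]; ring
  have fN : dt uN (f - v0) = 0 := by rw [hf]; unfold dt adv; simp only [Prod.fst_sub, Prod.snd_sub]; ring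
  -- a far point of one line is off another line
  have far : ∀ (u u' a a' : Pt) (Λ : ℤ), Nv n u' → Nv n (a - a') → dt u' u ≠ 0 →
      2 * n ^ 2 < |Λ| → dt u' (adv a u Λ - a') ≠ 0 := by
    intro u u' a a' Λ h1 h2 h3 h4 h0
    have e1 : Λ * dt u' u = -dt u' (a - a') := by
      unfold dt adv at *
      simp only [Prod.fst_sub, Prod.snd_sub] at *
      linarith
    have e2 : |Λ| * |dt u' u| = |dt u' (a - a')| := by rw [← abs_mul, e1, abs_neg]
    have e3 := h1.dt h2
    have e4 := Int.one_le_abs h3
    have e5 := le_mul_of_one_le_right (abs_nonneg Λ) e4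
    linarith
  have hLM' : dt uM uL ≠ 0 := by rw [dt_swap]; exact neg_ne_zero.mpr c.hLM
  have hmL' : dt um uL ≠ 0 := by rw [dt_swap]; exact neg_ne_zero.mpr c.hLm
  have hmM' : dt um uM ≠ 0 := by rw [dt_swap]; exact neg_ne_zero.mpr c.hMm
  have hNL' : dt uN uL ≠ 0 := by rw [dt_swap]; exact neg_ne_zero.mpr c.hLN
  have hNM' : dt uN uM ≠ 0 := by rw [dt_swap]; exact neg_ne_zero.mpr c.hMN
  have hE2 : 2 * n ^ 2 < |E| := by linarith
  have hT2' : 2 * n ^ 2 < |T| := by linarith
  have hG2 : 2 * n ^ 2 < |G| := by linarith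
  have hK2 : 2 * n ^ 2 < |K| := by linarith
  have eM : dt uM (e - o) ≠ 0 := by rw [he]; exact far _ _ _ _ _ c.nM (c.near o oN o oN) hLM' hE2
  have tM : dt uM (t - o) ≠ 0 := by rw [ht]; exact far _ _ _ _ _ c.nM (c.near o oN o oN) hLM' hT2'
  have em : dt um (e - Y) ≠ 0 := by rw [he]; exact far _ _ _ _ _ c.nm (c.near o oN Y YN) hmL' hE2
  have tm : dt um (t - Y) ≠ 0 := by rw [ht]; exact far _ _ _ _ _ c.nm (c.near o oN Y YN) hmL' hT2'
  have gm : dt um (g - Y) ≠ 0 := by rw [hg]; exact far _ _ _ _ _ c.nm (c.near o oN Y YN) hmM' hG2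
  have eN : dt uN (e - v0) ≠ 0 := by rw [he]; exact far _ _ _ _ _ c.nN (c.near o oN v0 vN) hNL' hE2
  have tN : dt uN (t - v0) ≠ 0 := by rw [ht]; exact far _ _ _ _ _ c.nN (c.near o oN v0 vN) hNL' hT2'
  have gN : dt uN (g - v0) ≠ 0 := by rw [hg]; exact far _ _ _ _ _ c.nN (c.near o oN v0 vN) hNM' hG2
  have gL : dt uL (g - o) ≠ 0 := by rw [hg]; exact far _ _ _ _ _ c.nL (c.near o oN o oN) c.hLM hG2
  -- far points are not near
  have e_ne : ∀ z ∈ R ∪ insert Y B, e ≠ z := fun z hz => by
    rw [he]; exact adv_ne (c.near z hz o oN) c.uL0 (by linarith)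
  have t_ne : ∀ z ∈ R ∪ insert Y B, t ≠ z := fun z hz => by
    rw [ht]; exact adv_ne (c.near z hz o oN) c.uL0 (by linarith)
  have g_ne : ∀ z ∈ R ∪ insert Y B, g ≠ z := fun z hz => by
    rw [hg]; exact adv_ne (c.near z hz o oN) c.uM0 (by linarith)
  have y_ne : ∀ z ∈ R ∪ insert Y B, y ≠ z := fun z hz => by
    rw [hy]; exact adv_ne (c.near z hz Y YN) c.um0 (by linarith)
  have hte : t ≠ e := by
    intro h; rw [he, ht] at h; exact hTE (adv_inj c.uL0 h)
  have hge : g ≠ e := fun h => gL (h ▸ eL)
  have hgt : g ≠ t := fun h => gL (h ▸ tL)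
  have hye : y ≠ e := fun h => em (h ▸ ym)
  have hyt : y ≠ t := fun h => tm (h ▸ ym)
  have hyg : y ≠ g := fun h => gm (h ▸ ym)
  have hκg : κg ≠ 0 := by rintro rfl; exact hge (hgs.trans hes.symm)
  have hκy : κy ≠ 0 := by rintro rfl; exact hye (hys.trans hes.symm)
  have hκgy : κg ≠ κy := by rintro rfl; exact hyg (hys.trans hgs.symm)
  -- the transversal
  have lam_eg : ∀ z, Col e g z ↔ dt s (z - e) = 0 := by
    intro z
    have := lam_iff (e := e) (s := s) (z := z) (Ne.symm hκg)
    rw [← hgs, ← hes] at this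
    exact this
  have lam_ye : ∀ z, Col y e z ↔ dt s (z - e) = 0 := by
    intro z
    have := lam_iff (e := e) (s := s) (z := z) hκy
    rw [← hys, ← hes] at this
    exact this
  have lam_yg : ∀ z, Col y g z ↔ dt s (z - e) = 0 := by
    intro z
    have := lam_iff (e := e) (s := s) (z := z) (Ne.symm hκgy)
    rw [← hys, ← hgs] at this
    exact this
  have lam_near : ∀ z ∈ R ∪ insert Y B, dt s (z - e) ≠ 0 := by
    intro z hz h0
    have e1 : E * dt s uL = dt s (z - o) := by
      rw [he] at h0
      unfold dt adv at *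
      simp only [Prod.fst_sub, Prod.snd_sub] at *
      linarith
    have e2 : |E| * |dt s uL| = |dt s (z - o)| := by rw [← abs_mul, e1]
    have e3 := td.hS z hz o oN
    have e4 := le_mul_of_one_le_right hEn (show 1 ≤ |dt s uL| by linarith)
    linarith
  have lam_t : dt s (t - e) ≠ 0 := by
    have : dt s (t - e) = (T - E) * dt s uL := by
      rw [ht, he]; unfold dt adv; simp only [Prod.fst_sub, Prod.snd_sub]; ring
    rw [this]
    exact mul_ne_zero (fun h => hTE (by linarith)) hA0
  have lam_adv : ∀ k, dt s (adv e s k - e) = 0 := by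
    intro k; unfold dt adv; simp only [Prod.fst_sub, Prod.snd_sub]; ring
  -- the line `M`
  have M_iff : ∀ z, Col o b z → dt uM (z - o) = 0 := by
    intro z hz
    rw [col_dt] at hz
    have hbo' : b - o ≠ 0 := sub_ne_zero.mpr hbo
    have h1 : dt (b - o) uM = 0 := by rw [dt_swap, hbM, neg_zero]
    exact dt_par hbo' h1 hz
  have M_iff' : ∀ z, dt uM (z - o) = 0 → Col o b z := by
    intro z hz
    rw [col_dt]
    exact dt_par c.uM0 hbM hz
  have N_iff : ∀ z, Col v0 r z → dt uN (z - v0) = 0 := by
    intro z hz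
    rw [col_dt] at hz
    have hrv' : r - v0 ≠ 0 := sub_ne_zero.mpr hrv
    have h1 : dt (r - v0) uN = 0 := by rw [dt_swap, hrN, neg_zero]
    exact dt_par hrv' h1 hz
  have N_iff' : ∀ z, dt uN (z - v0) = 0 → Col v0 r z := by
    intro z hz
    rw [col_dt]
    exact dt_par c.uN0 hrN hz
  have miss : ∀ β ∈ B, ∀ w, dt uM (w - o) = 0 → ¬ Col β t w := by
    intro β hβ w hw
    rw [ht]
    exact t_miss_M (c.near β (c.nearB hβ) o oN) c.nL c.nM c.hLM (c.Lal β hβ) (c.Mal β hβ) hw
      (by linarith)
  have heR : e ∉ R := fun h => e_ne e (c.nearR h) rfl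
  have htB : t ∉ B := fun h => t_ne t (c.nearB h) rfl
  have hgR : g ∉ R := fun h => g_ne g (c.nearR h) rfl
  have hgB : g ∉ B := fun h => g_ne g (c.nearB h) rfl
  have hAM : ALine (insert e R) (insert t B) o b := by
    refine ⟨Finset.mem_insert_of_mem c.oR, Finset.mem_insert_of_mem hbR, hbo.symm, ?_⟩
    intro z hz hc
    rcases Finset.mem_insert.mp hz with rfl | hz
    · exact tM (M_iff _ hc)
    · exact c.Mal z hz (M_iff _ hc)
  refine win_force hAM (x := g) ?_ ?_ (M_iff' g gM)
    (hNT.mono (Finset.subset_insert _ _) (Finset.Subset.refl _)) ?_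
  · intro h
    rcases Finset.mem_insert.mp h with h | h
    · exact hge h
    · exact hgR h
  · intro h
    rcases Finset.mem_insert.mp h with h | h
    · exact hgt h
    · exact hgB h
  intro w hwR hwB hwc
  have hwM := M_iff w hwc
  have hwR' : w ≠ g ∧ w ≠ e ∧ w ∉ R := by
    simp only [Finset.mem_insert, not_or] at hwR
    exact hwR
  have hwB' : w ≠ t ∧ w ∉ B := by
    simp only [Finset.mem_insert, not_or] at hwB
    exact hwB
  have sub1 : insert e R ⊆ insert g (insert e R) := Finset.subset_insert _ _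
  have sub0 : R ⊆ insert g (insert e R) := (Finset.subset_insert _ _).trans sub1
  have he2 : e ∈ insert g (insert e R) := Finset.mem_insert_of_mem (Finset.mem_insert_self _ _)
  have hg2 : g ∈ insert g (insert e R) := Finset.mem_insert_self _ _
  -- the transversal is alive
  have hAΛ : ALine (insert g (insert e R)) (insert w (insert t B)) e g := by
    refine ⟨he2, hg2, hge.symm, ?_⟩
    intro z hz hc
    rw [lam_eg] at hc
    rcases Finset.mem_insert.mp hz with rfl | hz
    · -- `w` on `M` and on the transversal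
      apply hwR'.1
      have h1 : dt s (z - g) = 0 := by
        have h2 := lam_adv κg
        rw [← hgs] at h2
        have h3 : dt s (z - g) = dt s (z - e) - dt s (g - e) := by
          unfold dt; simp only [Prod.fst_sub, Prod.snd_sub]; ring
        rw [h3, hc, h2, sub_zero]
      have h4 : dt uM (z - g) = 0 := by
        have h3 : dt uM (z - g) = dt uM (z - o) - dt uM (g - o) := by
          unfold dt; simp only [Prod.fst_sub, Prod.snd_sub]; ring
        rw [h3, hwM, gM, sub_zero]
      by_contra hne
      have hz0 : z - g ≠ 0 := sub_ne_zero.mpr hne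
      apply hP0
      refine dt_par hz0 ?_ ?_
      · rw [dt_swap, h1, neg_zero]
      · rw [dt_swap, h4, neg_zero]
    · rcases Finset.mem_insert.mp hz with rfl | hz
      · exact lam_t hc
      · exact lam_near z (c.nearB hz) hc
  by_cases hwY : w = Y
  · -- Blue has three stones on `m`
    rw [hwY] at hAΛ ⊢
    have hyR : y ∉ R := fun h => y_ne y (c.nearR h) rfl
    have hyNB : y ∉ insert Y B := fun h => y_ne y (c.nearNB h) rfl
    have hyΛ : dt s (y - e) = 0 := by rw [hys]; exact lam_adv κy
    -- all points of `m` see `y`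
    have hm_y0 : ∀ u v, dt um (u - Y) = 0 → dt um (v - Y) = 0 → Col u v y := by
      intro u v h1 h2
      rw [col_dt]
      refine dt_par c.um0 ?_ ?_
      · unfold dt at *
        simp only [Prod.fst_sub, Prod.snd_sub] at *
        linarith
      · unfold dt at *
        simp only [Prod.fst_sub, Prod.snd_sub] at *
        linarith
    have hm_y : ∀ u v, u ≠ v → dt um (u - Y) = 0 → dt um (v - Y) = 0 → Col u v y :=
      fun u v _ => hm_y0 u v
    have sub3 : insert g (insert e R) ⊆ insert y (insert g (insert e R)) :=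
      Finset.subset_insert _ _
    have sub03 : R ⊆ insert y (insert g (insert e R)) := sub0.trans sub3
    have hy3 : y ∈ insert y (insert g (insert e R)) := Finset.mem_insert_self _ _
    have hNT3 : NoThreat (insert y (insert g (insert e R))) (insert Y (insert t B)) := by
      refine hNT.insert (sub1.trans sub3) ?_
      intro u hu v hv huv hc
      rcases Finset.mem_insert.mp hu with hut | hu
      · rcases Finset.mem_insert.mp hv with hvt | hv
        · exact absurd (hut.trans hvt.symm) huv
        · rw [hut] at hc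
          exact absurd hc.swap12 (miss v hv Y c.YM)
      · rcases Finset.mem_insert.mp hv with hvt | hv
        · rw [hvt] at hc
          exact absurd hc (miss u hu Y c.YM)
        · rcases c.MU Y c.YM c.YR u hu v hv huv hc with ⟨z, hz, hc'⟩ | ⟨h1, h2⟩
          · exact ⟨z, sub03 hz, hc'⟩
          · exact ⟨y, hy3, hm_y u v huv h1 h2⟩
    refine win_force hAΛ (x := y) ?_ ?_ ((lam_eg y).mpr hyΛ) hNT3 ?_
    · intro h
      simp only [Finset.mem_insert] at h
      rcases h with h | h | h
      · exact hyg h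
      · exact hye h
      · exact hyR h
    · intro h
      simp only [Finset.mem_insert] at h
      rcases h with h | h | h
      · exact hyNB (h ▸ Finset.mem_insert_self _ _)
      · exact hyt h
      · exact hyNB (Finset.mem_insert_of_mem h)
    intro t3 ht3R ht3B ht3c
    rw [lam_eg] at ht3c
    obtain ⟨k, ht3⟩ := exists_adv td.sc ht3c
    have ht3R' : t3 ≠ y ∧ t3 ≠ g ∧ t3 ≠ e ∧ t3 ∉ R := by
      simp only [Finset.mem_insert, not_or] at ht3R
      exact ht3R
    have ht3B' : t3 ≠ Y ∧ t3 ≠ t ∧ t3 ∉ B := by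
      simp only [Finset.mem_insert, not_or] at ht3B
      exact ht3B
    have hk0 : k ≠ 0 := by rintro rfl; exact ht3R'.2.2.1 (ht3.trans hes.symm)
    have hky : k ≠ κy := by rintro rfl; exact ht3R'.1 (ht3.trans hys.symm)
    have hkg : k ≠ κg := by rintro rfl; exact ht3R'.2.1 (ht3.trans hgs.symm)
    have ht3y : t3 = adv y s (k - κy) := by
      rw [ht3, hys, adv_adv]; congr 1; ring
    have ht3g : t3 = adv g s (k - κg) := by
      rw [ht3, hgs, adv_adv]; congr 1; ring
    obtain ⟨R3, hR3⟩ : ∃ R3, R3 = insert y (insert g (insert e R)) := ⟨_, rfl⟩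
    rw [← hR3] at sub03 hy3 hNT3 ht3R ⊢
    have he3 : e ∈ R3 := by rw [hR3]; exact sub3 he2
    have hg3 : g ∈ R3 := by rw [hR3]; exact sub3 hg2
    -- near blue lines and `t3`
    have near_t3 : ∀ β ∈ insert Y B, ∀ τ ∈ insert Y B, β ≠ τ → Col β τ t3 →
        ∃ z ∈ R3, Col β τ z := by
      intro β hβ τ hτ hne hc
      by_cases h1 : dt (τ - β) uN = 0
      · -- parallel to `N`
        have e1 : dt uN (v0 - β) = -(k - κf) * dt uN s := by
          have hτβ : τ - β ≠ 0 := sub_ne_zero.mpr (Ne.symm hne)
          have h2 : dt uN (t3 - β) = 0 := by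
            rw [col_dt] at hc
            exact dt_par hτβ h1 hc
          have h3 : t3 = adv f s (k - κf) := by
            rw [ht3, hfs, adv_adv]; congr 1; ring
          have h4 := fN
          rw [h3] at h2
          unfold dt adv at *
          simp only [Prod.fst_sub, Prod.snd_sub] at *
          linarith
        have e2 : dt uN (v0 - β) = 0 := by
          by_contra hne'
          have h5 := c.nN.dt (c.near v0 vN β (c.nearNB hβ))
          have h6 : k - κf ≠ 0 := by
            intro h0; apply hne'; rw [e1, h0]; ring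
          have h7 := Int.one_le_abs h6
          have h8 : |dt uN (v0 - β)| = |k - κf| * |dt s uN| := by
            rw [e1, dt_swap uN s, ← abs_mul]; congr 1; ring
          have h9 := td.hC
          have h10 := le_mul_of_one_le_left (abs_nonneg (dt s uN)) h7
          linarith
        refine ⟨v0, sub03 c.vR, ?_⟩
        rw [col_dt]
        have h10 : dt uN (τ - β) = 0 := by rw [dt_swap, h1, neg_zero]
        exact dt_par c.uN0 h10 e2
      · by_cases h2 : dt (τ - β) um = 0
        · -- parallel to `m`
          exfalso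
          have e1 : dt um (Y - β) = -(k - κy) * dt um s := by
            have hτβ : τ - β ≠ 0 := sub_ne_zero.mpr (Ne.symm hne)
            have h3 : dt um (t3 - β) = 0 := by
              rw [col_dt] at hc
              exact dt_par hτβ h2 hc
            have h4 := ym
            rw [ht3y] at h3
            unfold dt adv at *
            simp only [Prod.fst_sub, Prod.snd_sub] at *
            linarith
          have h5 := c.nm.dt (c.near Y YN β (c.nearNB hβ))
          have h6 : k - κy ≠ 0 := fun h0 => hky (by linarith)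
          have h7 := Int.one_le_abs h6
          have h8 : |dt um (Y - β)| = |k - κy| * |dt s um| := by
            rw [e1, dt_swap um s, ← abs_mul]; congr 1; ring
          have h9 := td.hD
          have h10 := le_mul_of_one_le_left (abs_nonneg (dt s um)) h7
          linarith
        · -- through `o`
          have h3 := td.nohit β hβ τ hτ hne h1 h2 k (by rw [← he, ← ht3]; exact hc)
          exact ⟨o, sub03 c.oR, by rw [col_dt]; exact h3⟩
    have hNT4 : NoThreat R3 (insert t3 (insert Y (insert t B))) := by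
      refine hNT3.insert (Finset.Subset.refl _) ?_
      intro u hu v hv huv hc
      have hu' : u = t ∨ u ∈ insert Y B := by
        simp only [Finset.mem_insert] at hu ⊢
        rcases hu with h | h | h
        exacts [Or.inr (Or.inl h), Or.inl h, Or.inr (Or.inr h)]
      have hv' : v = t ∨ v ∈ insert Y B := by
        simp only [Finset.mem_insert] at hv ⊢
        rcases hv with h | h | h
        exacts [Or.inr (Or.inl h), Or.inl h, Or.inr (Or.inr h)]
      rcases hu' with hu' | hu'
      · rcases hv' with hv' | hv'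
        · exact absurd (hu'.trans hv'.symm) huv
        · exfalso
          rw [hu'] at hc
          exact hsel v hv' k (by rw [← ht3]; exact hc.swap12)
      · rcases hv' with hv' | hv'
        · exfalso
          rw [hv'] at hc
          exact hsel u hu' k (by rw [← ht3]; exact hc)
        · exact near_t3 u hu' v hv' huv hc
    have hcomm : insert t3 (insert Y (insert t B)) = insert t3 (insert t (insert Y B)) := by
      rw [Finset.insert_comm Y t B]
    rw [hcomm] at hNT4 ⊢
    -- sizes
    have hK4 : 2 * n ^ 2 + 4 * n ^ 4 < |K| := by linarith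
    have hG4 : 2 * n ^ 2 + 4 * n ^ 4 < |G| := by linarith
    have hK32 : 32 * n ^ 4 ≤ |K| := by linarith
    have hG32 : 32 * n ^ 4 ≤ |G| := by linarith
    have hT32 : 32 * n ^ 4 ≤ |T| := by linarith
    have hD32 : 32 * n ^ 4 ≤ |dt s um| := by have := td.hD; linarith
    have hP32 : 32 * n ^ 4 ≤ |dt s uM| := by have := td.hP; linarith
    have hSK : S < |K| := by linarith
    have hSG : S < |G| := by linarith
    have neg_dt : ∀ u z w : Pt, dt u (z - w) ≠ 0 → dt u (w - z) ≠ 0 := by
      intro u z w h h0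
      apply h
      unfold dt at *
      simp only [Prod.fst_sub, Prod.snd_sub] at *
      linarith
    have hmx : ∀ x ∈ X, dt um (Y - x) ≠ 0 := fun x hx => neg_dt _ _ _ (c.mR x (c.XR x hx))
    have dty : ∀ x, dt um (y - x) = dt um (Y - x) := by
      intro x; rw [hy]; unfold dt adv; simp only [Prod.fst_sub, Prod.snd_sub]; ring
    have dtg : ∀ x, dt uM (g - x) = dt uM (o - x) := by
      intro x; rw [hg]; unfold dt adv; simp only [Prod.fst_sub, Prod.snd_sub]; ring
    have Xn : ∀ x ∈ X, x ∈ R ∪ insert Y B := fun x hx => c.nearR (c.XR x hx)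
    have NB_ne : ∀ z ∈ insert Y B, ∀ x ∈ X, z ≠ x := fun z hz x hx =>
      c.NBR hz (c.XR x hx) hB
    have st_y : ∀ x ∈ X, ∀ β ∈ R ∪ insert Y B,
        |dt um (y - x) * dt (t - β) (x - β)| < |dt (t - β) (y - x)| := by
      intro x hx β hβ
      rw [hy, ht]
      exact star_t hn (c.near Y YN x (Xn x hx)) (c.near x (Xn x hx) β hβ)
        (c.near o oN β hβ) c.nm c.nL c.hLm hT32 hK32
    have st3_y : ∀ x ∈ X, ∀ β ∈ R ∪ insert Y B,
        |dt um (y - x) * dt (t3 - β) (x - β)| < |dt (t3 - β) (y - x)| := by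
      intro x hx β hβ
      rw [ht3y, hy]
      exact star_t3 hn (c.near Y YN x (Xn x hx)) (c.near x (Xn x hx) β hβ) c.nm
        (fun h => hky (by linarith)) (td.hS Y YN x (Xn x hx)) (td.hS x (Xn x hx) β hβ) hD32 hSK
    have st_g : ∀ x ∈ X, ∀ β ∈ R ∪ insert Y B,
        |dt uM (g - x) * dt (t - β) (x - β)| < |dt (t - β) (g - x)| := by
      intro x hx β hβ
      rw [hg, ht]
      exact star_t hn (c.near o oN x (Xn x hx)) (c.near x (Xn x hx) β hβ)
        (c.near o oN β hβ) c.nM c.nL c.hLM hT32 hG32
    have st3_g : ∀ x ∈ X, ∀ β ∈ R ∪ insert Y B,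
        |dt uM (g - x) * dt (t3 - β) (x - β)| < |dt (t3 - β) (g - x)| := by
      intro x hx β hβ
      rw [ht3g, hg]
      exact star_t3 hn (c.near o oN x (Xn x hx)) (c.near x (Xn x hx) β hβ) c.nM
        (fun h => hkg (by linarith)) (td.hS o oN x (Xn x hx)) (td.hS x (Xn x hx) β hβ) hP32 hSG
    have lt_ne : ∀ a b : ℤ, |a| < |b| → b ≠ 0 := by
      rintro a b h rfl
      rw [abs_zero] at h
      exact absurd h (not_lt.mpr (abs_nonneg _))
    have cases4 : ∀ z ∈ insert t3 (insert t (insert Y B)), z = t3 ∨ z = t ∨ z ∈ insert Y B := by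
      intro z hz
      simp only [Finset.mem_insert] at hz ⊢
      exact hz
    have hyA : ∀ x ∈ X, ALine R3 (insert t3 (insert t (insert Y B))) y x := by
      intro x hx
      refine ⟨hy3, sub03 (c.XR x hx), y_ne x (Xn x hx), ?_⟩
      intro z hz hc
      rcases cases4 z hz with h | h | h
      · rw [h] at hc
        exact lt_ne _ _ (st3_y x hx x (Xn x hx)) (col_dt.mp hc.rot)
      · rw [h] at hc
        exact lt_ne _ _ (st_y x hx x (Xn x hx)) (col_dt.mp hc.rot)
      · rw [hy] at hc
        exact near_off (c.near Y YN x (Xn x hx)) (c.near z (c.nearNB h) x (Xn x hx))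
          (hmx x hx) (NB_ne z h x hx) hK2 hc
    have heA : ∀ x ∈ X, ¬ dt uL (x - o) = 0 →
        ALine R3 (insert t3 (insert t (insert Y B))) e x := by
      intro x hx hxL
      refine ⟨he3, sub03 (c.XR x hx), e_ne x (Xn x hx), ?_⟩
      intro z hz hc
      rcases cases4 z hz with h | h | h
      · rw [h, ht3] at hc
        have h1 := lam_iff (e := e) (s := s) (z := x) (Ne.symm hk0)
        rw [← hes] at h1
        exact lam_near x (Xn x hx) (h1.mp hc.swap23)
      · rw [h] at hc
        apply hxL
        have hc' := col_dt.mp hc.swap23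
        have hte' : t - e ≠ 0 := sub_ne_zero.mpr hte
        have h1 : dt (t - e) uL = 0 := by
          rw [he, ht]; unfold dt adv; simp only [Prod.fst_sub, Prod.snd_sub]; ring
        have h2 := dt_par hte' h1 hc'
        have h3 : dt uL (x - o) = dt uL (x - e) := by
          rw [he]; unfold dt adv; simp only [Prod.fst_sub, Prod.snd_sub]; ring
        rw [h3]; exact h2
      · rw [he] at hc
        exact near_off (c.near o oN x (Xn x hx)) (c.near z (c.nearNB h) x (Xn x hx))
          (neg_dt _ _ _ hxL) (NB_ne z h x hx) hE2 hc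
    have hgA : ∀ x ∈ X, ¬ dt uM (x - o) = 0 →
        ALine R3 (insert t3 (insert t (insert Y B))) g x := by
      intro x hx hxM
      refine ⟨hg3, sub03 (c.XR x hx), g_ne x (Xn x hx), ?_⟩
      intro z hz hc
      rcases cases4 z hz with h | h | h
      · rw [h] at hc
        exact lt_ne _ _ (st3_g x hx x (Xn x hx)) (col_dt.mp hc.rot)
      · rw [h] at hc
        exact lt_ne _ _ (st_g x hx x (Xn x hx)) (col_dt.mp hc.rot)
      · rw [hg] at hc
        exact near_off (c.near o oN x (Xn x hx)) (c.near z (c.nearNB h) x (Xn x hx))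
          (neg_dt _ _ _ hxM) (NB_ne z h x hx) hG2 hc
    have gy1 : ∀ x ∈ X, ∀ β ∈ insert Y B, ∀ τ ∈ insert Y B, β ≠ τ → Good R3 y x β τ := by
      intro x hx β hβ τ hτ hne
      rw [hy]
      refine near_good' (sub03 (c.XR x hx)) (c.near Y YN x (Xn x hx))
        (c.near x (Xn x hx) β (c.nearNB hβ)) (c.near τ (c.nearNB hτ) β (c.nearNB hβ)) c.nm
        (hmx x hx) hne hK4 ?_
      intro hpar
      have hm' : dt um (β - Y) = 0 → (∃ w ∈ R3, Col β τ w) := by
        intro h1
        refine ⟨y, hy3, hm_y β τ hne h1 ?_⟩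
        unfold dt at *
        simp only [Prod.fst_sub, Prod.snd_sub] at *
        linarith
      rcases Finset.mem_insert.mp hβ with hβ' | hβ'
      · left; apply hm'
        rw [hβ']; unfold dt; simp
      · rcases Finset.mem_insert.mp hτ with hτ' | hτ'
        · left; apply hm'
          rw [hτ'] at hpar
          unfold dt at *
          simp only [Prod.fst_sub, Prod.snd_sub] at *
          linarith
        · rcases td.dK with hdK | hstr
          · rcases c.parm β hβ' τ hτ' hne hpar with ⟨w', hw', hc'⟩ | h | h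
            · exact Or.inl ⟨w', sub03 hw', hc'⟩
            · exact Or.inl (hm' h)
            · exact Or.inr ⟨hdK x hx, h x hx⟩
          · rcases hstr β hβ' τ hτ' hne hpar with ⟨w', hw', hc'⟩ | h
            · exact Or.inl ⟨w', sub03 hw', hc'⟩
            · exact Or.inl (hm' h)
    have gg1 : ∀ x ∈ XG, ∀ β ∈ insert Y B, ∀ τ ∈ insert Y B, β ≠ τ →
        Good R3 g x β τ := by
      intro x hxG β hβ τ hτ hne
      have hx := c.GX x hxG
      have hxM := c.GM x hxG
      rw [hg]
      refine near_good (sub03 (c.XR x hx)) (c.near o oN x (Xn x hx))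
        (c.near x (Xn x hx) β (c.nearNB hβ)) (c.near τ (c.nearNB hτ) β (c.nearNB hβ)) c.nM
        (neg_dt _ _ _ hxM) hne (td.dG x hxG) hG4 ?_
      intro hpar
      rcases Finset.mem_insert.mp hβ with hβ' | hβ'
      · rcases Finset.mem_insert.mp hτ with hτ' | hτ'
        · exact absurd (hβ'.trans hτ'.symm) hne
        · exfalso
          apply c.Mal τ hτ'
          have h7 := c.YM
          rw [hβ'] at hpar
          unfold dt at *
          simp only [Prod.fst_sub, Prod.snd_sub] at *
          linarith
      · rcases Finset.mem_insert.mp hτ with hτ' | hτ'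
        · exfalso
          apply c.Mal β hβ'
          have h7 := c.YM
          rw [hτ'] at hpar
          unfold dt at *
          simp only [Prod.fst_sub, Prod.snd_sub] at *
          linarith
        · rcases c.parM β hβ' τ hτ' hne hpar with ⟨w', hw', hc'⟩ | h
          · exact Or.inl ⟨w', sub03 hw', hc'⟩
          · exact Or.inr (h x hxG)
    have gy2 : ∀ x ∈ X, ∀ β ∈ insert Y B, Good R3 y x β t := by
      intro x hx β hβ
      refine good_of_star um (sub03 (c.XR x hx)) ?_ (st_y x hx β (c.nearNB hβ))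
      rw [dty]; exact hmx x hx
    have gy3 : ∀ x ∈ X, ∀ β ∈ insert Y B, Good R3 y x β t3 := by
      intro x hx β hβ
      refine good_of_star um (sub03 (c.XR x hx)) ?_ (st3_y x hx β (c.nearNB hβ))
      rw [dty]; exact hmx x hx
    have gg2 : ∀ x ∈ XG, ∀ β ∈ insert Y B, Good R3 g x β t := by
      intro x hxG β hβ
      have hx := c.GX x hxG
      have hxM := c.GM x hxG
      refine good_of_star uM (sub03 (c.XR x hx)) ?_ (st_g x hx β (c.nearNB hβ))
      rw [dtg]; exact neg_dt _ _ _ hxM
    have gg3 : ∀ x ∈ XG, ∀ β ∈ insert Y B, Good R3 g x β t3 := by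
      intro x hxG β hβ
      have hx := c.GX x hxG
      have hxM := c.GM x hxG
      refine good_of_star uM (sub03 (c.XR x hx)) ?_ (st3_g x hx β (c.nearNB hβ))
      rw [dtg]; exact neg_dt _ _ _ hxM
    have hkap0 : t3 - t ≠ 0 := sub_ne_zero.mpr ht3B'.2.1
    obtain ⟨m, hm⟩ := exists_nm (t3 - t)
    have hm1 : 1 ≤ m := by
      have hu' : (t3 - t).1 ≠ 0 ∨ (t3 - t).2 ≠ 0 := by
        by_contra hc
        apply hkap0
        rw [not_or, not_not, not_not] at hc
        exact Prod.ext hc.1 hc.2
      rcases hu' with h | h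
      · exact le_trans (Int.one_le_abs h) hm.1.1
      · exact le_trans (Int.one_le_abs h) hm.1.2
    refine hfin R3 e g y t t3 sub03 hm_y0
      { hNT := hNT4
        hBR := ?_
        he := he3
        hg := hg3
        hy := hy3
        XR := fun x hx => sub03 (c.XR x hx)
        GX := c.GX
        GM := c.GM
        LM := fun z h1 h2 => c.LM h1 h2
        tt3 := ht3B'.2.1
        yA := hyA
        eA := heA
        gA := hgA
        ye := fun x hx h => lam_near x (Xn x hx) ((lam_ye x).mp h)
        yg := fun x hx h => lam_near x (Xn x hx) ((lam_yg x).mp h)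
        eg := fun x hx h => lam_near x (Xn x hx) ((lam_eg x).mp h)
        yx := ?_
        gx := ?_
        gy := ?_
        ex := fun x hx => e_ne x (Xn x hx)
        ey := fun h => hye h.symm
        gy1 := gy1
        gy2 := gy2
        gy3 := gy3
        gg1 := gg1
        gg2 := gg2
        gg3 := gg3
        kap := ?_
        kap2 := ?_ }
    · -- blue stones are not red
      intro z hz hzR
      have hzR' : z = y ∨ z = g ∨ z = e ∨ z ∈ R := by
        rw [hR3] at hzR
        simpa using hzR
      rcases cases4 z hz with h | h | h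
      · rw [h] at hzR'
        rcases hzR' with h' | h' | h' | h'
        · exact ht3R'.1 h'
        · exact ht3R'.2.1 h'
        · exact ht3R'.2.2.1 h'
        · exact ht3R'.2.2.2 h'
      · rw [h] at hzR'
        rcases hzR' with h' | h' | h' | h'
        · exact hyt h'.symm
        · exact hgt h'.symm
        · exact hte h'
        · exact htR h'
      · rcases hzR' with h' | h' | h' | h'
        · exact y_ne z (c.nearNB h) h'.symm
        · exact g_ne z (c.nearNB h) h'.symm
        · exact e_ne z (c.nearNB h) h'.symm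
        · exact c.NBR h h' hB rfl
    · intro x hx x' hx' hne hc
      rw [hy] at hc
      exact near_off (c.near Y YN x (Xn x hx)) (c.near x' (Xn x' hx') x (Xn x hx))
        (hmx x hx) hne hK2 hc
    · intro x hx x' hx' hxM hne hc
      rw [hg] at hc
      exact near_off (c.near o oN x (Xn x hx)) (c.near x' (Xn x' hx') x (Xn x hx))
        (neg_dt _ _ _ hxM) hne hG2 hc
    · -- `g - x` and `y - x'` are not parallel
      intro x hx x' hx'
      have h1 := star_t (n := n) (T := G) (K := K) (o := o) (uL := uM) (c := Y) (u := um)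
        (x := x') (β := x) hn (c.near Y YN x' (Xn x' hx')) (c.near x' (Xn x' hx') x (Xn x hx))
        (c.near o oN x (Xn x hx)) c.nm c.nM c.hMm hG32 hK32
      rw [← hg, ← hy] at h1
      exact lt_ne _ _ h1
    · by_cases hΩ : 2 * n * |dt (t3 - t) um| ≤ m
      · left
        refine ⟨?_, ?_⟩
        · intro x hxG
          have hx := c.GX x hxG
          have hxM := c.GM x hxG
          refine good_of_star uM (sub03 (c.XR x hx)) ?_ ?_
          · rw [dtg]; exact neg_dt _ _ _ hxM
          · rw [hg, ht]
            rw [ht] at hm hΩ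
            refine kappaA hn (c.near o oN x (Xn x hx)) c.nL c.nM c.nm c.hMm hm hm1 hΩ ?_
            have h1 := td.hG
            have h2 : 8 * n ^ 4 * (1 + |T|) + 4 * n ^ 2 ≤ 300 * n ^ 8 * |E| := by
              have e1 : 8 * n ^ 4 * |T| ≤ 8 * n ^ 4 * (32 * n ^ 4 * |E|) :=
                mul_le_mul_of_nonneg_left hT1 (by positivity)
              have e2 : 8 * n ^ 4 * (32 * n ^ 4 * |E|) = 256 * (n ^ 8 * |E|) := by ring
              have e3 : 1 ≤ n ^ 8 := one_le_pow₀ hn
              have e4 : |E| ≤ n ^ 8 * |E| := le_mul_of_one_le_left hEn e3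
              linarith
            have e5 : n ^ 8 * |E| ≤ n ^ 16 * |E| := mul_le_mul_of_nonneg_right p8 hEn
            have e7 : 0 < |E| := by linarith
            have e6 : 0 < n ^ 16 * |E| := by positivity
            linarith
        · -- near lines parallel to `t t3` are parallel to `um`
          intro β hβ τ hτ h0
          by_contra h1
          have hv := c.near τ (c.nearNB hτ) β (c.nearNB hβ)
          have k1 : dt (τ - β) um * (t3 - t).1 = dt (t3 - t) um * (τ - β).1 := by
            unfold dt at h0 ⊢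
            linear_combination um.1 * h0
          have k2 : dt (τ - β) um * (t3 - t).2 = dt (t3 - t) um * (τ - β).2 := by
            unfold dt at h0 ⊢
            linear_combination um.2 * h0
          have k3 := Int.one_le_abs h1
          have k4 : m ≤ n * |dt (t3 - t) um| := by
            rcases hm.2 with h | h
            · rw [h]
              have e1 : |dt (τ - β) um| * |(t3 - t).1| = |dt (t3 - t) um| * |(τ - β).1| := by
                rw [← abs_mul, k1, abs_mul]
              have e2 : |dt (t3 - t) um| * |(τ - β).1| ≤ |dt (t3 - t) um| * n :=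
                mul_le_mul_of_nonneg_left hv.1 (abs_nonneg _)
              have e3 := le_mul_of_one_le_left (abs_nonneg (t3 - t).1) k3
              linarith
            · rw [h]
              have e1 : |dt (τ - β) um| * |(t3 - t).2| = |dt (t3 - t) um| * |(τ - β).2| := by
                rw [← abs_mul, k2, abs_mul]
              have e2 : |dt (t3 - t) um| * |(τ - β).2| ≤ |dt (t3 - t) um| * n :=
                mul_le_mul_of_nonneg_left hv.2 (abs_nonneg _)
              have e3 := le_mul_of_one_le_left (abs_nonneg (t3 - t).2) k3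
              linarith
          linarith
      · right
        rw [not_le] at hΩ
        have hK8 : 8 * n ^ 2 ≤ |K| := by linarith
        have hne0 : ∀ x ∈ X, dt (t3 - t) (y - x) ≠ 0 := by
          intro x hx h0
          have h2 := kappaB_ne hn (c.near Y YN x (Xn x hx)) hm hm1 hΩ hK8
          rw [← hy, h0, abs_zero, mul_zero] at h2
          have h3 : 0 < |K| * m := by
            have : 0 < |K| := by linarith
            positivity
          linarith
        refine ⟨hne0, ?_⟩
        intro x hx x' hx'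
        by_cases g1 : Good R3 y x t t3
        · exact Or.inl g1
        by_cases g2 : Good R3 y x' t t3
        · exact Or.inr (Or.inl g2)
        right; right
        have cov : ∀ x ∈ X, ¬ Good R3 y x t t3 → ∃ z, Col y x z ∧ Col t t3 z := by
          intro x hx hg
          unfold Good at hg
          rw [not_or] at hg
          by_contra hcon
          apply hg.2
          refine ⟨hne0 x hx, fun z hz hz' => hcon ⟨z, hz, hz'⟩⟩
        obtain ⟨z, hz1, hz2⟩ := cov x hx g1
        obtain ⟨z', hz1', hz2'⟩ := cov x' hx' g2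
        rw [hy] at hz1 hz1'
        rw [ht3, he, ht] at hz2 hz2' hm hΩ ⊢
        exact kappaB hn (c.near Y YN o oN) (c.near Y YN x (Xn x hx))
          (c.near Y YN x' (Xn x' hx')) (c.near x' (Xn x' hx') x (Xn x hx)) c.nL c.nm hm hm1 hΩ
          (by linarith) hTE hT1 td.hy hk0 hky hAbig hDA (td.hS Y YN o oN) hES (hmx x hx)
          (hmx x' hx') hz1 hz2 hz1' hz2'
    · -- a line `t t3` parallel to `x x'`
      intro q hq hpar
      obtain ⟨hx, hx', hne⟩ := hXP q hq
      obtain ⟨x, hxd⟩ : ∃ x, x = q.1 := ⟨_, rfl⟩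
      obtain ⟨x', hxd'⟩ : ∃ x', x' = q.2 := ⟨_, rfl⟩
      have hs2 := hsel2 q hq
      rw [← ht, ← hy] at hs2
      rw [← hxd, ← hxd'] at hpar hs2 hne ⊢
      rw [← hxd] at hx
      rw [← hxd'] at hx'
      have hv0 : x' - x ≠ 0 := sub_ne_zero.mpr (Ne.symm hne)
      by_cases ht0 : dt (x' - x) (t - x) = 0
      · -- the line `t t3` contains `x`
        left; left
        refine ⟨x, sub03 (c.XR x hx), ?_⟩
        rw [col_dt]
        have h1 : dt (x' - x) (t3 - t) = 0 := by rw [dt_swap, hpar, neg_zero]
        have h2 : dt (t3 - t) (t - x) = 0 := dt_par hv0 h1 ht0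
        unfold dt at h2 ⊢
        simp only [Prod.fst_sub, Prod.snd_sub] at *
        linarith
      · by_contra hcon
        rw [not_or] at hcon
        have hyl : dt (x' - x) (y - x) ≠ 0 := by
          intro h0
          have h1 : ¬ Col y x x' := by
            intro hc
            rw [hy] at hc
            exact near_off (c.near Y YN x (Xn x hx)) (c.near x' (Xn x' hx') x (Xn x hx))
              (hmx x hx) (Ne.symm hne) hK2 hc
          apply h1
          have h2 : Col x x' y := by rw [col_dt]; exact h0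
          exact h2.rot.rot
        have hyl' : dt (x' - x) (y - x') = dt (x' - x) (y - x) := by
          unfold dt; simp only [Prod.fst_sub, Prod.snd_sub]; ring
        have cov : ∀ w ∈ X, dt (x' - x) (y - w) ≠ 0 → ¬ Good R3 y w t t3 →
            ∃ z, Col y w z ∧ Col t t3 z := by
          intro w hw hyw hg
          unfold Good at hg
          rw [not_or] at hg
          by_contra hcon
          apply hg.2
          refine ⟨?_, fun z hz hz' => hcon ⟨z, hz, hz'⟩⟩
          intro h0
          apply hyw
          exact dt_par hkap0 hpar h0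
        obtain ⟨z, hz1, hz2⟩ := cov x hx hyl hcon.1
        obtain ⟨z', hz1', hz2'⟩ := cov x' hx' (by rw [hyl']; exact hyl) hcon.2
        -- heights over `x x'`
        have hzt : dt (x' - x) (z - t) = 0 := by
          rw [col_dt] at hz2
          exact dt_par hkap0 hpar hz2
        have hzt' : dt (x' - x) (z' - t) = 0 := by
          rw [col_dt] at hz2'
          exact dt_par hkap0 hpar hz2'
        have hc1 : dt (x - y) (z - y) = 0 := col_dt.mp hz1
        have hc1' : dt (x' - y) (z' - y) = 0 := col_dt.mp hz1'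
        refine hs2 ht0 ⟨(z.1 - x.1) - (z'.1 - x'.1), ?_⟩ ⟨(z.2 - x.2) - (z'.2 - x'.2), ?_⟩
        · unfold dt at *
          simp only [Prod.fst_sub, Prod.snd_sub] at *
          linear_combination (-(y.1 - x.1)) * hzt - (x'.1 - x.1) * hc1 + (y.1 - x'.1) * hzt'
            + (x'.1 - x.1) * hc1'
        · unfold dt at *
          simp only [Prod.fst_sub, Prod.snd_sub] at *
          linear_combination (-(y.2 - x.2)) * hzt - (x'.2 - x.2) * hc1 + (y.2 - x'.2) * hzt'
            + (x'.2 - x.2) * hc1'
  · -- quiet reply: double threat at `f`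
    have hNT2 : NoThreat (insert g (insert e R)) (insert w (insert t B)) := by
      refine hNT.insert sub1 ?_
      intro u hu v hv huv hc
      rcases Finset.mem_insert.mp hu with hut | hu
      · rcases Finset.mem_insert.mp hv with hvt | hv
        · exact absurd (hut.trans hvt.symm) huv
        · rw [hut] at hc
          exact absurd hc.swap12 (miss v hv w hwM)
      · rcases Finset.mem_insert.mp hv with hvt | hv
        · rw [hvt] at hc
          exact absurd hc (miss u hu w hwM)
        · rcases c.MU w hwM hwR'.2.2 u hu v hv huv hc with ⟨z, hz, hc'⟩ | ⟨h1, h2⟩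
          · exact ⟨z, sub0 hz, hc'⟩
          · exfalso
            apply hwY
            -- `w` on `m` and on `M`
            have huv0 : v - u ≠ 0 := sub_ne_zero.mpr (Ne.symm huv)
            have h3 : dt (v - u) um = 0 := by
              unfold dt at *
              simp only [Prod.fst_sub, Prod.snd_sub] at *
              linarith
            have h4 : dt um (w - u) = 0 := by
              rw [col_dt] at hc
              exact dt_par huv0 h3 hc
            have h5 : dt um (w - Y) = 0 := by
              unfold dt at *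
              simp only [Prod.fst_sub, Prod.snd_sub] at *
              linarith
            have h6 : dt uM (w - Y) = 0 := by
              have h7 := c.YM
              unfold dt at *
              simp only [Prod.fst_sub, Prod.snd_sub] at *
              linarith
            by_contra hne
            have hz0 : w - Y ≠ 0 := sub_ne_zero.mpr hne
            apply c.hMm
            refine dt_par hz0 ?_ ?_
            · rw [dt_swap, h6, neg_zero]
            · rw [dt_swap, h5, neg_zero]
    have hAN : ALine (insert g (insert e R)) (insert w (insert t B)) v0 r := by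
      refine ⟨sub0 c.vR, sub0 hrR, hrv.symm, ?_⟩
      intro z hz hc
      have hzN := N_iff z hc
      rcases Finset.mem_insert.mp hz with rfl | hz
      · -- `w` on `M` and on `N`
        exact hwR'.2.2 (c.MNR _ hwM hzN)
      · rcases Finset.mem_insert.mp hz with rfl | hz
        · exact tN hzN
        · exact c.Nal z hz hzN
    have hfΛ : dt s (f - e) = 0 := by rw [hfs]; exact lam_adv κf
    have hfe : f ≠ e := fun h => eN (h ▸ fN)
    have hfg : f ≠ g := fun h => gN (h ▸ fN)
    have hf_ne : ∀ z ∈ R ∪ insert Y B, f ≠ z := fun z hz h => lam_near z hz (h ▸ hfΛ)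
    refine win_double hAΛ hAN (z := f) ?_ ?_ ((lam_eg f).mpr hfΛ) (N_iff' f fN)
      (hNT2.mono (Finset.subset_insert _ _) (Finset.Subset.refl _)) ?_
    · intro h
      simp only [Finset.mem_insert] at h
      rcases h with h | h | h
      · exact hfg h
      · exact hfe h
      · exact hf_ne f (c.nearR h) rfl
    · intro h
      have := hAΛ.2.2.2 f h
      exact this ((lam_eg f).mpr hfΛ)
    · rintro ⟨h1, _⟩
      exact lam_near v0 vN ((lam_eg v0).mp h1)

end Pool.Agent.K4L
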