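import Pool.Agent.K4L.LemBArith1

/-!
# Arithmetic for Lemma B: the transversals
-/

namespace Pool.Agent.K4L

theorem coprime_of_no_prime {a b : ℤ}
    (h : ∀ p : ℕ, p.Prime → (p : ℤ) ∣ a → (p : ℤ) ∣ b → False) : IsCoprime a b := by
  rw [Int.isCoprime_iff_gcd_eq_one]
  by_contra hne
  obtain ⟨p, hp, hpd⟩ := Nat.exists_prime_and_dvd hne
  have h1 : (p : ℤ) ∣ (Int.gcd a b : ℤ) := Int.natCast_dvd_natCast.mpr hpd
  exact h p hp (h1.trans (Int.gcd_dvd_left ..)) (h1.trans (Int.gcd_dvd_right ..))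

theorem prime_not_dvd_one {p : ℕ} (hp : p.Prime) : ¬ (p : ℤ) ∣ 1 := by
  intro h
  exact (Nat.prime_iff_prime_int.mp hp).not_isUnit (isUnit_of_dvd_one h)

/-- a prime dividing `dt s a` and `dt s b`, `s` primitive, divides `dt a b` -/
theorem prime_dvd_dt {s a b : Pt} (hs : IsCoprime s.1 s.2) {p : ℤ}
    (ha : p ∣ dt s a) (hb : p ∣ dt s b) : p ∣ dt a b := by
  obtain ⟨x, y, hxy⟩ := hs
  have e : dt a b = (x * a.1 + y * a.2) * dt s b - (x * b.1 + y * b.2) * dt s a := by
    unfold dt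
    linear_combination (-(a.1 * b.2 - a.2 * b.1)) * hxy
  rw [e]
  exact dvd_sub (hb.mul_left _) (ha.mul_left _)

/-- T5, final form (p-adically close to `M`) -/
theorem exists_transversals_multi (uL uM : Pt) (cM : IsCoprime uM.1 uM.2)
    (hLM : dt uL uM ≠ 0) {ι : Type} (I : Finset ι) (u : ι → Pt) (k : ι → ℤ)
    (h1 : ∀ i ∈ I, dt uM (u i) ≠ 0) (h2 : ∀ i ∈ I, dt uL (u i) ≠ 0)
    (h3 : ∀ i ∈ I, ∀ i' ∈ I, i ≠ i' → dt (u i) (u i') ≠ 0)
    (VV : Finset Pt) (hVV : ∀ v ∈ VV, v ≠ 0) (Z0 : ℤ) (hZ0 : Z0 ≠ 0) (Rb : ℤ) (J : ℕ) :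
    ∃ (s : ℕ → Pt) (P E0 W : ℤ), W ≠ 0 ∧
      (∀ j < J, ∀ j' < J, j ≠ j' → dt (s j) (s j') ≠ 0) ∧
      ∀ j < J, IsCoprime (s j).1 (s j).2 ∧ dt (s j) uM = P ∧ Z0 ∣ P ∧ Rb ≤ |P| ∧
        Rb * |P| ≤ |dt (s j) uL| ∧ (∀ i ∈ I, Rb ≤ |dt (s j) (u i)|) ∧
        ∀ n : ℤ, ∃ G : ℤ, G * P = (E0 + W * n) * dt (s j) uL ∧ P ∣ E0 + W * n ∧
          Z0 ∣ E0 + W * n ∧ Z0 ∣ G ∧
          (∀ i ∈ I, Z0 * dt (s j) (u i) ∣ (G - k i) * P) ∧
          ∀ v ∈ VV, (∀ i ∈ I, dt v (u i) ≠ 0) →
            ∃ V : ℤ, V ∣ dt (s j) v ∧ V ∣ E0 + W * n ∧ Rb ≤ |V| := by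
  classical
  -- the complementary basis vector
  obtain ⟨wa, wb, hw⟩ := cM
  set w : Pt := (wb, -wa) with hwdef
  have hwM : dt w uM = 1 := by
    rw [hwdef]; unfold dt; simp only; linear_combination hw
  -- the directions
  set VT : Finset Pt := VV.filter (fun v => dt uM v ≠ 0 ∧ ∀ i ∈ I, dt v (u i) ≠ 0) with hVT
  set T : Finset Pt := I.image u ∪ VT with hT
  have hTM : ∀ v ∈ T, dt uM v ≠ 0 := by
    intro v hv
    rcases Finset.mem_union.mp hv with hv | hv
    · obtain ⟨i, hi, rfl⟩ := Finset.mem_image.mp hv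
      exact h1 i hi
    · exact (Finset.mem_filter.mp hv).2.1
  -- the modulus
  set X : Finset ℤ := ((({Z0, |Rb| + 1, (T.card.factorial : ℤ)} ∪ T.image (dt uM))
    ∪ I.image (fun i => dt uL (u i))) ∪ ((I ×ˢ I).image (fun q => dt (u q.1) (u q.2))
      ∪ (VV ×ˢ I).image (fun q => dt q.1 (u q.2)))).erase 0 with hX
  obtain ⟨Q, hQ0, hQX⟩ : ∃ Q : ℤ, Q ≠ 0 ∧ ∀ x ∈ X, x ∣ Q := by
    refine ⟨∏ x ∈ X, x, ?_, fun x hx => Finset.dvd_prod_of_mem (fun x => x) hx⟩
    rw [Finset.prod_ne_zero_iff]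
    intro x hx
    exact (Finset.mem_erase.mp hx).1
  have hQZ : Z0 ∣ Q := hQX _ (by simp [hX, hZ0])
  have hQR : |Rb| + 1 ∣ Q := hQX _ (by
    have : |Rb| + 1 ≠ 0 := by positivity
    simp [hX, this])
  have hQT : (T.card.factorial : ℤ) ∣ Q := hQX _ (by
    have : (T.card.factorial : ℤ) ≠ 0 := by exact_mod_cast Nat.factorial_ne_zero _
    rw [hX, Finset.mem_erase]
    refine ⟨this, ?_⟩
    simp)
  have hQM : ∀ v ∈ T, dt uM v ∣ Q := by
    intro v hv
    apply hQX
    rw [hX, Finset.mem_erase]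
    refine ⟨hTM v hv, ?_⟩
    apply Finset.mem_union_left
    apply Finset.mem_union_left
    apply Finset.mem_union_right
    exact Finset.mem_image_of_mem _ hv
  have hQL : ∀ i ∈ I, dt uL (u i) ∣ Q := by
    intro i hi
    apply hQX
    rw [hX, Finset.mem_erase]
    refine ⟨h2 i hi, ?_⟩
    apply Finset.mem_union_left
    apply Finset.mem_union_right
    exact Finset.mem_image_of_mem (fun i => dt uL (u i)) hi
  have hQI : ∀ i ∈ I, ∀ i' ∈ I, i ≠ i' → dt (u i) (u i') ∣ Q := by
    intro i hi i' hi' hne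
    apply hQX
    rw [hX, Finset.mem_erase]
    refine ⟨h3 i hi i' hi' hne, ?_⟩
    apply Finset.mem_union_right
    apply Finset.mem_union_left
    exact Finset.mem_image_of_mem (fun q : ι × ι => dt (u q.1) (u q.2))
      (Finset.mk_mem_product hi hi')
  have hQV : ∀ v ∈ VT, ∀ i ∈ I, dt v (u i) ∣ Q := by
    intro v hv i hi
    have hv' := Finset.mem_filter.mp hv
    apply hQX
    rw [hX, Finset.mem_erase]
    refine ⟨hv'.2.2 i hi, ?_⟩
    apply Finset.mem_union_right
    apply Finset.mem_union_right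
    exact Finset.mem_image_of_mem (fun q : Pt × ι => dt q.1 (u q.2))
      (Finset.mk_mem_product hv'.1 hi)
  -- forms
  set P : ℤ := Q * Q with hP
  have hP0 : P ≠ 0 := mul_ne_zero hQ0 hQ0
  set c : Pt → ℤ := fun v => (Q / dt uM v) * dt w v with hc
  set f : Pt → ℤ → ℤ := fun v n => n + Q * c v with hf
  set sv : ℤ → Pt := fun n => (n * uM.1 + P * w.1, n * uM.2 + P * w.2) with hsv
  have hsM : ∀ n, dt (sv n) uM = P := by
    intro n
    have : dt (sv n) uM = P * dt w uM := by
      simp only [hsv]; unfold dt; ring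
    rw [this, hwM, mul_one]
  have hsT : ∀ v ∈ T, ∀ n, dt (sv n) v = dt uM v * f v n := by
    intro v hv n
    have e1 : dt (sv n) v = n * dt uM v + Q * Q * dt w v := by
      simp only [hsv, hP]; unfold dt; ring
    have e2 : dt uM v * (Q / dt uM v) = Q := Int.mul_ediv_cancel' (hQM v hv)
    rw [e1]
    simp only [hf, hc]
    linear_combination (-(Q * dt w v)) * e2
  have hsL : ∀ n, dt (sv n) uL = n * dt uM uL + P * dt w uL := by
    intro n
    simp only [hsv]; unfold dt; ring
  have hss : ∀ n n', dt (sv n) (sv n') = P * (n' - n) := by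
    intro n n'
    have : dt (sv n) (sv n') = P * (n' - n) * dt w uM := by
      simp only [hsv]; unfold dt; ring
    rw [this, hwM, mul_one]
  have hsc : ∀ n, IsCoprime n Q → IsCoprime (sv n).1 (sv n).2 := by
    intro n hn
    have hn' : IsCoprime n P := by rw [hP]; exact hn.mul_right hn
    obtain ⟨a, b, hab⟩ := hn'
    refine ⟨b * uM.2 - a * w.2, a * w.1 - b * uM.1, ?_⟩
    have hw2 : w.1 * uM.2 - w.2 * uM.1 = 1 := hwM
    simp only [hsv]
    linear_combination hab + (a * n + b * P) * hw2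
  -- primes dividing a form do not divide `Q`
  have hfQ : ∀ v, ∀ m : ℤ, Q ∣ m → ∀ p : ℕ, p.Prime → (p : ℤ) ∣ f v (1 + m) →
      ¬ (p : ℤ) ∣ Q := by
    intro v m hm p hp hd hpQ
    apply prime_not_dvd_one hp
    have e : (1 : ℤ) = f v (1 + m) - (m + Q * c v) := by simp only [hf]; ring
    rw [e]
    exact dvd_sub hd (dvd_add (hpQ.trans hm) (hpQ.mul_right _))
  -- the sequence of the parameters
  set N0 : ℤ := |Rb| * |P| + |P * dt w uL| + (∑ v ∈ T, |Q * c v|) + |Rb| + 2 with hN0
  have hsum : ∀ v ∈ T, |Q * c v| ≤ ∑ v ∈ T, |Q * c v| := by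
    intro v hv
    exact Finset.single_le_sum (f := fun v => |Q * c v|) (fun _ _ => abs_nonneg _) hv
  obtain ⟨m, hm1, hm2⟩ := exists_seq (α := ℤ)
    (fun x => Q ∣ x ∧ N0 ≤ |x|)
    (fun y x => y ≠ x ∧ ∀ v ∈ T, ∀ v' ∈ T, IsCoprime (f v (1 + y)) (f v' (1 + x)))
    (by
      intro S hS
      have hfS : ∀ y ∈ S, ∀ v ∈ T, f v (1 + y) ≠ 0 := by
        intro y hy v hv h0
        obtain ⟨_, hyN⟩ := hS y hy
        have : y = -(1 + Q * c v) := by simp only [hf] at h0; linarith
        have h5 : |y| ≤ 1 + |Q * c v| := by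
          rw [this, abs_neg]
          calc |1 + Q * c v| ≤ |1| + |Q * c v| := abs_add_le _ _
            _ = 1 + |Q * c v| := by norm_num
        have h6 := hsum v hv
        have h7 : 0 ≤ |Rb| * |P| := by positivity
        have h8 := abs_nonneg (P * dt w uL)
        have h9 := abs_nonneg Rb
        linarith
      obtain ⟨x, hx1, hx2, hx3⟩ := step_n (T.image (fun v => (1 + Q * c v, (1 : ℤ))))
        (∏ y ∈ S, ∏ v ∈ T, f v (1 + y)) Q
        (by
          rw [Finset.prod_ne_zero_iff]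
          intro y hy
          rw [Finset.prod_ne_zero_iff]
          exact hfS y hy) hQ0
        (by
          intro p hp hpc
          have h5 : p ∣ T.card.factorial :=
            (Nat.Prime.dvd_factorial hp).mpr (hpc.trans Finset.card_image_le)
          exact (Int.natCast_dvd_natCast.mpr h5).trans hQT)
        (by
          intro g hg p hp hd
          obtain ⟨v, _, rfl⟩ := Finset.mem_image.mp hg
          exact absurd hd (prime_not_dvd_one hp))
        (N0 + ∑ y ∈ S, |y|)
      refine ⟨x, ⟨hx2, ?_⟩, ?_⟩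
      · have : 0 ≤ ∑ y ∈ S, |y| := Finset.sum_nonneg (fun _ _ => abs_nonneg _)
        linarith
      · intro y hy
        refine ⟨?_, ?_⟩
        · rintro rfl
          have h5 : |y| ≤ ∑ y ∈ S, |y| :=
            Finset.single_le_sum (f := fun y => |y|) (fun _ _ => abs_nonneg _) hy
          have h6 : 0 ≤ ∑ v ∈ T, |Q * c v| := Finset.sum_nonneg (fun _ _ => abs_nonneg _)
          have h7 : 0 ≤ |Rb| * |P| := by positivity
          have h8 := abs_nonneg (P * dt w uL)
          have h9 := abs_nonneg Rb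
          linarith
        · intro v hv v' hv'
          apply coprime_of_no_prime
          intro p hp hd1 hd2
          have hpQ := hfQ v y (hS y hy).1 p hp hd1
          apply hx3 (1 + Q * c v', 1) (Finset.mem_image_of_mem _ hv') p hp ?_ hpQ ?_
          · exact (hd1.trans (Finset.dvd_prod_of_mem (fun v => f v (1 + y)) hv)).trans
              (Finset.dvd_prod_of_mem (fun y => ∏ v ∈ T, f v (1 + y)) hy)
          · have e : (1 + Q * c v', (1 : ℤ)).1 + (1 + Q * c v', (1 : ℤ)).2 * x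
              = f v' (1 + x) := by simp only [hf]; ring
            rw [e]; exact hd2) J
  have hmne : ∀ j < J, ∀ j' < J, j ≠ j' → m j ≠ m j' := by
    intro j hj j' hj' hne
    rcases lt_or_gt_of_ne hne with h | h
    · exact (hm2 j' hj' j h).1
    · exact ((hm2 j hj j' h).1).symm
  have hmcop : ∀ j < J, ∀ j' < J, j ≠ j' → ∀ v ∈ T, ∀ v' ∈ T,
      IsCoprime (f v (1 + m j)) (f v' (1 + m j')) := by
    intro j hj j' hj' hne v hv v' hv'
    rcases lt_or_gt_of_ne hne with h | h
    · exact (hm2 j' hj' j h).2 v hv v' hv'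
    · exact ((hm2 j hj j' h).2 v' hv' v hv).symm
  have hnQ : ∀ j < J, IsCoprime (1 + m j) Q := by
    intro j hj
    obtain ⟨t, ht⟩ := (hm1 j hj).1
    refine ⟨1, -t, ?_⟩
    rw [ht]; ring
  have hsp : ∀ j < J, IsCoprime (sv (1 + m j)).1 (sv (1 + m j)).2 := fun j hj => hsc _ (hnQ j hj)
  -- same transversal, different directions
  have hsame : ∀ j < J, ∀ v ∈ T, ∀ b : Pt, dt v b ∣ Q → 
      ∀ p : ℕ, p.Prime → (p : ℤ) ∣ f v (1 + m j) → (p : ℤ) ∣ dt (sv (1 + m j)) b → False := by
    intro j hj v hv b hvb p hp hd1 hd2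
    have hpQ := hfQ v (m j) (hm1 j hj).1 p hp hd1
    apply hpQ
    refine dvd_trans ?_ hvb
    apply prime_dvd_dt (hsp j hj) _ hd2
    rw [hsT v hv]
    exact hd1.mul_left _
  have hdsym : ∀ a b : Pt, ∀ x : ℤ, dt a b ∣ x → dt b a ∣ x := by
    intro a b x h
    have e : dt b a = - dt a b := by unfold dt; ring
    rw [e]; exact (neg_dvd).mpr h
  have hIT : ∀ i ∈ I, u i ∈ T := fun i hi => Finset.mem_union_left _ (Finset.mem_image_of_mem _ hi)
  have hVTT : ∀ v ∈ VT, v ∈ T := fun v hv => Finset.mem_union_right _ hv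
  have hfne : ∀ j < J, ∀ v ∈ T, |Rb| + 1 ≤ |f v (1 + m j)| := by
    intro j hj v hv
    have h5 := (hm1 j hj).2
    have h6 := hsum v hv
    have h7 : 0 ≤ |Rb| * |P| := by positivity
    have h8 := abs_nonneg (P * dt w uL)
    have h9 : |m j| ≤ |f v (1 + m j)| + (1 + |Q * c v|) := by
      have e : m j = f v (1 + m j) + -(1 + Q * c v) := by simp only [hf]; ring
      calc |m j| = |f v (1 + m j) + -(1 + Q * c v)| := by rw [← e]
        _ ≤ |f v (1 + m j)| + |-(1 + Q * c v)| := abs_add_le _ _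
        _ ≤ |f v (1 + m j)| + (1 + |Q * c v|) := by
          rw [abs_neg]
          have : |1 + Q * c v| ≤ |1| + |Q * c v| := abs_add_le _ _
          have h1' : |(1 : ℤ)| = 1 := by norm_num
          linarith
    linarith
  have hfne0 : ∀ j < J, ∀ v ∈ T, f v (1 + m j) ≠ 0 := by
    intro j hj v hv h0
    have := hfne j hj v hv
    rw [h0, abs_zero] at this
    have := abs_nonneg Rb
    linarith
  -- the modulus `M`
  set M : ℤ := Q * ∏ j ∈ Finset.range J, ∏ v ∈ VT, f v (1 + m j) with hM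
  have hM0 : M ≠ 0 := by
    rw [hM]
    apply mul_ne_zero hQ0
    rw [Finset.prod_ne_zero_iff]
    intro j hj
    rw [Finset.prod_ne_zero_iff]
    intro v hv
    exact hfne0 j (Finset.mem_range.mp hj) v (hVTT v hv)
  have hDM : ∀ j < J, ∀ i ∈ I, IsCoprime (f (u i) (1 + m j)) M := by
    intro j hj i hi
    rw [hM]
    apply IsCoprime.mul_right
    · apply coprime_of_no_prime
      intro p hp hd1 hd2
      exact hfQ _ _ (hm1 j hj).1 p hp hd1 hd2
    · apply IsCoprime.prod_right
      intro j' hj'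
      apply IsCoprime.prod_right
      intro v hv
      have hj'' := Finset.mem_range.mp hj'
      by_cases hjj : j = j'
      · subst hjj
        apply coprime_of_no_prime
        intro p hp hd1 hd2
        refine hsame j hj (u i) (hIT i hi) v (hdsym _ _ _ (hQV v hv i hi)) p hp hd1 ?_
        rw [hsT v (hVTT v hv)]
        exact hd2.mul_left _
      · exact hmcop j hj j' hj'' hjj _ (hIT i hi) _ (hVTT v hv)
  have hDL : ∀ j < J, ∀ i ∈ I, IsCoprime (f (u i) (1 + m j)) (dt (sv (1 + m j)) uL) := by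
    intro j hj i hi
    apply coprime_of_no_prime
    intro p hp hd1 hd2
    exact hsame j hj (u i) (hIT i hi) uL (hdsym _ _ _ (hQL i hi)) p hp hd1 hd2
  have hDD : ∀ q ∈ I ×ˢ Finset.range J, ∀ q' ∈ I ×ˢ Finset.range J, q ≠ q' →
      IsCoprime (f (u q.1) (1 + m q.2)) (f (u q'.1) (1 + m q'.2)) := by
    rintro ⟨i, j⟩ hq ⟨i', j'⟩ hq' hne
    obtain ⟨hi, hj⟩ := Finset.mem_product.mp hq
    obtain ⟨hi', hj'⟩ := Finset.mem_product.mp hq'
    simp only [Finset.mem_range] at hi hj hi' hj' ⊢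
    by_cases hjj : j = j'
    · subst hjj
      have hii : i ≠ i' := by rintro rfl; exact hne rfl
      apply coprime_of_no_prime
      intro p hp hd1 hd2
      refine hsame j hj (u i) (hIT i hi) (u i') (hQI i hi i' hi' hii) p hp hd1 ?_
      rw [hsT _ (hIT i' hi')]
      exact hd2.mul_left _
    · exact hmcop j hj j' hj' hjj _ (hIT i hi) _ (hIT i' hi')
  obtain ⟨F, hF⟩ := crt_lin (I ×ˢ Finset.range J) (fun q => f (u q.1) (1 + m q.2))
    (fun q => M * dt (sv (1 + m q.2)) uL) (fun q => k q.1) hDD (by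
      rintro ⟨i, j⟩ hq
      obtain ⟨hi, hj⟩ := Finset.mem_product.mp hq
      simp only [Finset.mem_range] at hi hj ⊢
      exact (hDM j hj i hi).mul_right (hDL j hj i hi))
  set DD : ℤ := ∏ q ∈ I ×ˢ Finset.range J, f (u q.1) (1 + m q.2) with hDDdef
  have hDD0 : DD ≠ 0 := by
    rw [hDDdef, Finset.prod_ne_zero_iff]
    rintro ⟨i, j⟩ hq
    obtain ⟨hi, hj⟩ := Finset.mem_product.mp hq
    simp only [Finset.mem_range] at hi hj ⊢
    exact hfne0 j hj _ (hIT i hi)
  have hPR : |Rb| + 1 ≤ |P| := by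
    have h5 : |Rb| + 1 ≤ |Q| := by
      have h6 := Int.le_of_dvd (abs_pos.mpr hQ0) ((dvd_abs _ _).mpr hQR)
      exact h6
    have h7 : 1 ≤ |Q| := Int.one_le_abs hQ0
    rw [hP, abs_mul]
    nlinarith [abs_nonneg Rb]
  refine ⟨fun j => sv (1 + m j), P, P * M * F, P * M * DD, ?_, ?_, ?_⟩
  · exact mul_ne_zero (mul_ne_zero hP0 hM0) hDD0
  · intro j hj j' hj' hne
    simp only
    rw [hss]
    apply mul_ne_zero hP0
    intro h0
    apply hmne j hj j' hj' hne
    linarith
  · intro j hj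
    refine ⟨hsp j hj, hsM _, ?_, ?_, ?_, ?_, ?_⟩
    · rw [hP]; exact hQZ.mul_right _
    · linarith [le_abs_self Rb]
    · have h5 := (hm1 j hj).2
      have h6 : 0 ≤ ∑ v ∈ T, |Q * c v| := Finset.sum_nonneg (fun _ _ => abs_nonneg _)
      have hML : dt uM uL ≠ 0 := by
        intro h0; apply hLM; unfold dt at h0 ⊢; linarith
      have h7 : 1 ≤ |dt uM uL| := Int.one_le_abs hML
      have h8 : |(1 + m j) * dt uM uL| ≤ |dt (sv (1 + m j)) uL| + |P * dt w uL| := by
        have e : (1 + m j) * dt uM uL = dt (sv (1 + m j)) uL + -(P * dt w uL) := by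
          rw [hsL]; ring
        rw [e]
        calc |dt (sv (1 + m j)) uL + -(P * dt w uL)|
            ≤ |dt (sv (1 + m j)) uL| + |-(P * dt w uL)| := abs_add_le _ _
          _ = |dt (sv (1 + m j)) uL| + |P * dt w uL| := by rw [abs_neg]
      have h9 : |m j| ≤ |1 + m j| + 1 := by
        have e : m j = (1 + m j) + -1 := by ring
        calc |m j| = |(1 + m j) + -1| := by rw [← e]
          _ ≤ |1 + m j| + |-1| := abs_add_le _ _
          _ = |1 + m j| + 1 := by norm_num
      have h10 : |1 + m j| ≤ |(1 + m j) * dt uM uL| := by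
        rw [abs_mul]
        nlinarith [abs_nonneg (1 + m j)]
      have h11 : Rb * |P| ≤ |Rb| * |P| := by
        nlinarith [abs_nonneg P, le_abs_self Rb]
      linarith [abs_nonneg Rb]
    · intro i hi
      simp only
      rw [hsT _ (hIT i hi), abs_mul]
      have h5 := hfne j hj _ (hIT i hi)
      have h6 : 1 ≤ |dt uM (u i)| := Int.one_le_abs (h1 i hi)
      have h7 : |f (u i) (1 + m j)| ≤ |dt uM (u i)| * |f (u i) (1 + m j)| := by
        nlinarith [abs_nonneg (f (u i) (1 + m j))]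
      linarith [le_abs_self Rb]
    · intro n
      have hE : P * M * F + P * M * DD * n = P * (M * (F + DD * n)) := by ring
      have hQM' : Q ∣ M := by rw [hM]; exact dvd_mul_right _ _
      refine ⟨M * (F + DD * n) * dt (sv (1 + m j)) uL, ?_, ?_, ?_, ?_, ?_, ?_⟩
      · simp only; ring
      · rw [hE]; exact dvd_mul_right _ _
      · rw [hE, hP]; exact (hQZ.mul_right _).mul_right _
      · exact ((hQZ.trans hQM').mul_right _).mul_right _
      · intro i hi
        simp only
        have h5 := hF n (i, j) (Finset.mk_mem_product hi (Finset.mem_range.mpr hj))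
        simp only at h5
        rw [hsT _ (hIT i hi)]
        have h6 : Z0 * dt uM (u i) ∣ P := by
          rw [hP]; exact mul_dvd_mul hQZ (hQM _ (hIT i hi))
        have e : M * (F + DD * n) * dt (sv (1 + m j)) uL - k i
            = (F + DD * n) * (M * dt (sv (1 + m j)) uL) - k i := by ring
        have h7 : f (u i) (1 + m j) ∣ M * (F + DD * n) * dt (sv (1 + m j)) uL - k i := by
          rw [e]; exact h5
        have h8 := mul_dvd_mul h7 h6
        have e2 : Z0 * (dt uM (u i) * f (u i) (1 + m j))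
            = f (u i) (1 + m j) * (Z0 * dt uM (u i)) := by ring
        rw [e2]
        exact h8
      · intro v hv hvi
        by_cases hvM : dt uM v = 0
        · refine ⟨P, ?_, ?_, by linarith [le_abs_self Rb]⟩
          · have e : dt (sv (1 + m j)) v = P * dt w v := by
              have : dt (sv (1 + m j)) v = (1 + m j) * dt uM v + P * dt w v := by
                simp only [hsv]; unfold dt; ring
              rw [this, hvM]; ring
            simp only
            rw [e]; exact dvd_mul_right _ _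
          · rw [hE]; exact dvd_mul_right _ _
        · have hvT : v ∈ VT := by
            rw [hVT, Finset.mem_filter]
            exact ⟨hv, hvM, hvi⟩
          refine ⟨f v (1 + m j), ?_, ?_, ?_⟩
          · simp only
            rw [hsT v (hVTT v hvT)]; exact dvd_mul_left _ _
          · rw [hE]
            apply Dvd.dvd.mul_left
            apply Dvd.dvd.mul_right
            rw [hM]
            apply Dvd.dvd.mul_left
            exact (Finset.dvd_prod_of_mem (fun v => f v (1 + m j)) hvT).trans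
              (Finset.dvd_prod_of_mem (fun j => ∏ v ∈ VT, f v (1 + m j)) (Finset.mem_range.mpr hj))
          · have := hfne j hj v (hVTT v hvT)
            linarith [le_abs_self Rb]

end Pool.Agent.K4L
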