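import Pool.Agent.K4L.LemBCase2
import Pool.Agent.K4L.LemBT

/-!
# Lemma B: the choice of the transversal and the core theorem
-/

namespace Pool.Agent.K4L

/-- two transversals are not both met by the same line `t β` in lattice points -/
theorem excl_t {NB : Finset Pt} {o uL : Pt} {n S E T : ℤ} {s s' : Pt}
    (hn : 1 ≤ n) (hoNB : ∀ β ∈ NB, Nv n (β - o)) (hL : Nv n uL)
    (hNBL : ∀ β ∈ NB, dt uL (β - o) ≠ 0)
    (hss : dt s s' ≠ 0) (hA : 1 ≤ |dt s uL|) (hA' : 1 ≤ |dt s' uL|)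
    (hS : ∀ β ∈ NB, |dt s (β - o)| ≤ S) (hS' : ∀ β ∈ NB, |dt s' (β - o)| ≤ S) (hS0 : 0 ≤ S)
    (hTE : T ≠ E) (hT2 : |E| ≤ 32 * n ^ 4 * |T|)
    (hT : 8 * (32 * n ^ 4 + 1) * (2 * n ^ 2) * (S + 1) < |T|) {β : Pt} (hβ : β ∈ NB) {k k' : ℤ}
    (hk : Col β (adv o uL T) (adv (adv o uL E) s k))
    (hk' : Col β (adv o uL T) (adv (adv o uL E) s' k')) : False := by
  have hn4 : 1 ≤ n ^ 4 := one_le_pow₀ hn
  have hn2 : 1 ≤ n ^ 2 := one_le_pow₀ hn
  have ek : ∀ (s : Pt) (k : ℤ), Col β (adv o uL T) (adv (adv o uL E) s k) →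
      k * (T * dt s uL - dt s (β - o)) = -(T - E) * dt uL (β - o) := by
    intro s k hc
    unfold Col adv at hc
    unfold dt
    simp only [Prod.fst_sub, Prod.snd_sub] at *
    linear_combination -hc
  have key := hit_num T E (dt uL (β - o)) (dt s uL) (dt s' uL) (dt s (β - o))
    (dt s' (β - o)) k k' (2 * n ^ 2) S (32 * n ^ 4) (by nlinarith) hS0 (by nlinarith)
    (hNBL β hβ) (hL.dt (hoNB β hβ)) hTE hA hA' (hS β hβ) (hS' β hβ)
    hT2 hT (ek _ _ hk) (ek _ _ hk')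
  have key2 : dt s s' * dt uL (β - o) = 0 := by
    have e : dt s s' * dt uL (β - o) =
        dt s uL * dt s' (β - o) - dt s' uL * dt s (β - o) := by
      unfold dt; ring
    rw [e, key, sub_self]
  rcases mul_eq_zero.mp key2 with h | h
  · exact hss h
  · exact hNBL β hβ h

/-- two transversals are not both bad for the same direction `v = x' - x` -/
theorem excl_v {o Y x v uL uM um t : Pt} {n kY E T P K K' Nt : ℤ} {s s' : Pt}
    (hn : 1 ≤ n) (hYk : Y = adv o uM kY)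
    (hsM : dt s uM = P) (hsM' : dt s' uM = P)
    (hYx : Nv n (Y - x)) (hv : Nv n v) (hum : Nv n um)
    (hν : dt v um ≠ 0)
    (hρ : dt v (Y - x) * dt uL um - kY * dt v um * dt uL uM ≠ 0)
    (hss : dt s s' ≠ 0)
    (hK : K * dt s um = E * dt s uL - kY * P) (hK' : K' * dt s' um = E * dt s' uL - kY * P)
    (hKb : |E| ≤ 8 * n ^ 2 * |K|) (hKb' : |E| ≤ 8 * n ^ 2 * |K'|)
    (hE1 : 32 * n ^ 4 ≤ |E|)
    (hN0 : Nt ≠ 0) (hNb : |Nt| ≤ 200 * n ^ 7 * |E|)
    (hE : 200 * n ^ 7 * (256 * n ^ 4) * |dt s s' * (dt v (Y - x) * dt uL um -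
      kY * dt v um * dt uL uM)| < |E|)
    (h1 : dt v (adv Y um K - x) ∣ Nt) (h2 : dt v (adv Y um K' - x) ∣ Nt) : False := by
  have hn2 : 1 ≤ n ^ 2 := one_le_pow₀ hn
  have hn4 : 1 ≤ n ^ 4 := one_le_pow₀ hn
  set h0 := dt v (Y - x) with hh0
  set ν := dt v um with hνd
  set ρ := h0 * dt uL um - kY * ν * dt uL uM with hρd
  have e1 : dt v (adv Y um K - x) = h0 + K * ν := by
    rw [hh0, hνd]; unfold dt adv; simp only [Prod.fst_sub, Prod.snd_sub]; ring
  have e2 : dt v (adv Y um K' - x) = h0 + K' * ν := by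
    rw [hh0, hνd]; unfold dt adv; simp only [Prod.fst_sub, Prod.snd_sub]; ring
  rw [e1] at h1
  rw [e2] at h2
  -- the resultant
  have pl1 : dt s' uL * dt s um - dt s uL * dt s' um = -(dt s s' * dt uL um) := by
    unfold dt; ring
  have pl2 : P * (dt s' uL - dt s uL) = -(dt s s' * dt uL uM) := by
    have a1 : P * dt s' uL = dt s uM * dt s' uL := by rw [hsM]
    have a2 : P * dt s uL = dt s' uM * dt s uL := by rw [hsM']
    have a3 : dt s uM * dt s' uL - dt s' uM * dt s uL = -(dt s s' * dt uL uM) := by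
      unfold dt; ring
    linear_combination a1 - a2 + a3
  have res : dt s' uL * dt s um * (h0 + K * ν) - dt s uL * dt s' um * (h0 + K' * ν) =
      -(dt s s' * ρ) := by
    rw [hρd]
    linear_combination h0 * pl1 + ν * dt s' uL * hK - ν * dt s uL * hK' - kY * ν * pl2
  have hdv : (h0 + K * ν) * (h0 + K' * ν) ∣ dt s s' * ρ * Nt := by
    obtain ⟨c1, hc1⟩ := h1
    obtain ⟨c2, hc2⟩ := h2
    refine ⟨-(dt s' uL * dt s um * c2 - dt s uL * dt s' um * c1), ?_⟩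
    have r := congrArg (fun z => z * Nt) res
    have r1 : (dt s' uL * dt s um * (h0 + K * ν)) * Nt =
        (dt s' uL * dt s um * (h0 + K * ν)) * ((h0 + K' * ν) * c2) := by rw [← hc2]
    have r2 : (dt s uL * dt s' um * (h0 + K' * ν)) * Nt =
        (dt s uL * dt s' um * (h0 + K' * ν)) * ((h0 + K * ν) * c1) := by rw [← hc1]
    linear_combination r - r1 + r2
  have hne : dt s s' * ρ * Nt ≠ 0 := mul_ne_zero (mul_ne_zero hss hρ) hN0
  have hle := Int.le_of_dvd (abs_pos.mpr hne) ((abs_dvd_abs _ _).mpr hdv)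
  rw [abs_mul, abs_mul (dt s s' * ρ)] at hle
  have hh : |h0| ≤ 2 * n ^ 2 := hv.dt hYx
  have hν1 := Int.one_le_abs hν
  have low : ∀ K : ℤ, |E| ≤ 8 * n ^ 2 * |K| → |E| ≤ 16 * n ^ 2 * |h0 + K * ν| := by
    intro K hKb
    have g1 : |K * ν| ≤ |h0 + K * ν| + |h0| := by
      have e : K * ν = (h0 + K * ν) + -h0 := by ring
      calc |K * ν| = |(h0 + K * ν) + -h0| := by rw [← e]
        _ ≤ |h0 + K * ν| + |-h0| := abs_add_le _ _
        _ = |h0 + K * ν| + |h0| := by rw [abs_neg]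
    have g2 : |K| ≤ |K * ν| := by
      rw [abs_mul]; exact le_mul_of_one_le_right (abs_nonneg K) hν1
    have g3 : 8 * n ^ 2 * |K| ≤ 8 * n ^ 2 * (|h0 + K * ν| + 2 * n ^ 2) :=
      mul_le_mul_of_nonneg_left (by linarith) (by positivity)
    have g4 : 8 * n ^ 2 * (2 * n ^ 2) = 16 * n ^ 4 := by ring
    linarith
  have l1 := low K hKb
  have l2 := low K' hKb'
  have l3 : |E| * |E| ≤ (16 * n ^ 2 * |h0 + K * ν|) * (16 * n ^ 2 * |h0 + K' * ν|) :=
    mul_le_mul l1 l2 (abs_nonneg _) (by positivity)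
  have l4 : (16 * n ^ 2 * |h0 + K * ν|) * (16 * n ^ 2 * |h0 + K' * ν|) =
      256 * n ^ 4 * (|h0 + K * ν| * |h0 + K' * ν|) := by ring
  have l5 : 256 * n ^ 4 * (|h0 + K * ν| * |h0 + K' * ν|) ≤
      256 * n ^ 4 * (|dt s s' * ρ| * |Nt|) := mul_le_mul_of_nonneg_left hle (by positivity)
  have l6 : 256 * n ^ 4 * (|dt s s' * ρ| * |Nt|) ≤
      256 * n ^ 4 * (|dt s s' * ρ| * (200 * n ^ 7 * |E|)) :=
    mul_le_mul_of_nonneg_left (mul_le_mul_of_nonneg_left hNb (abs_nonneg _)) (by positivity)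
  have l7 : 256 * n ^ 4 * (|dt s s' * ρ| * (200 * n ^ 7 * |E|)) =
      (200 * n ^ 7 * (256 * n ^ 4) * |dt s s' * ρ|) * |E| := by ring
  have hE0 : 0 < |E| := by
    have : 1 ≤ n ^ 4 := one_le_pow₀ hn
    linarith
  have l8 : (200 * n ^ 7 * (256 * n ^ 4) * |dt s s' * ρ|) * |E| < |E| * |E| :=
    mul_lt_mul_of_pos_right hE hE0
  linarith

/-- pigeonhole with two kinds of reasons -/
theorem pigeon2 {α β : Type} [DecidableEq α] [DecidableEq β] (A : Finset α) (C : Finset β)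
    (J : ℕ) (hJ : A.card + C.card < J) (P : ℕ → α → Prop) (Q : ℕ → β → Prop)
    (hP : ∀ a ∈ A, ∀ j < J, ∀ j' < J, j ≠ j' → P j a → P j' a → False)
    (hQ : ∀ c ∈ C, ∀ j < J, ∀ j' < J, j ≠ j' → Q j c → Q j' c → False) :
    ∃ j < J, (∀ a ∈ A, ¬ P j a) ∧ ∀ c ∈ C, ¬ Q j c := by
  classical
  by_contra hcon
  have hex : ∀ j, ∃ r : α ⊕ β, j < J → r ∈ A.disjSum C ∧
      Sum.elim (fun a => P j a) (fun c => Q j c) r := by
    intro j
    by_cases hj : j < J
    · by_cases h1 : ∃ a ∈ A, P j a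
      · obtain ⟨a, ha, hpa⟩ := h1
        exact ⟨Sum.inl a, fun _ => ⟨by simp [ha], hpa⟩⟩
      · by_cases h2 : ∃ c ∈ C, Q j c
        · obtain ⟨c, hc, hqc⟩ := h2
          exact ⟨Sum.inr c, fun _ => ⟨by simp [hc], hqc⟩⟩
        · exfalso
          apply hcon
          refine ⟨j, hj, fun a ha h => h1 ⟨a, ha, h⟩, fun c hc h => h2 ⟨c, hc, h⟩⟩
    · by_cases h1 : Nonempty (α ⊕ β)
      · exact ⟨h1.some, fun h => absurd h hj⟩
      · exfalso
        -- then `A` and `C` are empty and `0 < J`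
        apply hcon
        have hA : A = ∅ := by
          rw [Finset.eq_empty_iff_forall_notMem]
          intro a _; exact h1 ⟨Sum.inl a⟩
        have hC : C = ∅ := by
          rw [Finset.eq_empty_iff_forall_notMem]
          intro c _; exact h1 ⟨Sum.inr c⟩
        refine ⟨0, by omega, ?_, ?_⟩
        · rw [hA]; simp
        · rw [hC]; simp
  choose F hF using hex
  obtain ⟨j, hj, j', hj', hne, heq⟩ := Finset.exists_ne_map_eq_of_card_lt_of_maps_to
    (s := Finset.range J) (t := A.disjSum C) (f := F) (by simpa using hJ) (by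
      intro j hj
      exact (hF j (Finset.mem_range.mp (by simpa using hj))).1)
  have hj := Finset.mem_range.mp hj
  have hj' := Finset.mem_range.mp hj'
  obtain ⟨m1, q1⟩ := hF j hj
  obtain ⟨m2, q2⟩ := hF j' hj'
  rw [← heq] at q2 m2
  rcases hr : F j with a | c
  · rw [hr] at m1 q1 q2
    simp only [Finset.inl_mem_disjSum] at m1
    exact hP a m1 j hj j' hj' hne q1 q2
  · rw [hr] at m1 q1 q2
    simp only [Finset.inr_mem_disjSum] at m1
    exact hQ c m1 j hj j' hj' hne q1 q2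

/-- what the arithmetic has to supply: many transversals for one residue class of `E` -/
def Supply (o v0 uL uM uN um : Pt) (kY Zg Zm : ℤ) : Prop :=
  ∀ (VV : Finset Pt), (∀ v ∈ VV, v ≠ 0) → ∀ (Rb : ℤ) (J : ℕ),
    ∃ (s : ℕ → Pt) (P E0 W : ℤ), W ≠ 0 ∧
      (∀ j < J, ∀ j' < J, j ≠ j' → dt (s j) (s j') ≠ 0) ∧
      ∀ j < J, IsCoprime (s j).1 (s j).2 ∧ dt (s j) uM = P ∧ Rb ≤ |P| ∧
        Rb * |P| ≤ |dt (s j) uL| ∧ Rb ≤ |dt (s j) uN| ∧ Rb ≤ |dt (s j) um| ∧
        ∀ n : ℤ, Zg ∣ E0 + W * n ∧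
          (∃ G : ℤ, G * P = (E0 + W * n) * dt (s j) uL ∧ Zg ∣ G) ∧
          (∃ K : ℤ, K * dt (s j) um = (E0 + W * n) * dt (s j) uL - kY * P ∧ Zm ∣ K) ∧
          (∃ F : ℤ, F * dt (s j) uN = (E0 + W * n) * dt (s j) uL - dt (s j) (v0 - o)) ∧
          ∀ v ∈ VV, dt v uN ≠ 0 → dt v um ≠ 0 →
            ∃ V : ℤ, V ∣ dt (s j) v ∧ V ∣ E0 + W * n ∧ Rb ≤ |V|

/-- construction of the data of a transversal -/
theorem mk_tdata {R B : Finset Pt} {o Y v0 uL uM uN um : Pt} {X XG : Finset Pt} {n : ℤ}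
    (c : BCtx R B o Y v0 uL uM uN um X XG n) {kY S E G K F P Zg Zm : ℤ} {s : Pt}
    (hYk : Y = adv o uM kY)
    (hZL : ∀ x ∈ XG, dt uM (o - x) ∣ Zg)
    (hZm : (∀ x ∈ X, dt um (Y - x) ∣ Zm) ∨ ∀ β ∈ B, ∀ β' ∈ B, β ≠ β' → dt (β' - β) um = 0 →
      (∃ w ∈ R, Col β β' w) ∨ dt um (β - Y) = 0)
    (sc : IsCoprime s.1 s.2) (hP : dt s uM = P) (hPR : 400000 * n ^ 16 ≤ |P|)
    (hA : (400000 * n ^ 16) * |P| ≤ |dt s uL|)
    (hC : 400000 * n ^ 16 ≤ |dt s uN|) (hD : 400000 * n ^ 16 ≤ |dt s um|)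
    (hS : ∀ a ∈ R ∪ insert Y B, ∀ b ∈ R ∪ insert Y B, |dt s (a - b)| ≤ S)
    (hG : G * P = E * dt s uL) (hZG : Zg ∣ G)
    (hK0 : K * dt s um = E * dt s uL - kY * P) (hZK : Zm ∣ K)
    (hF0 : F * dt s uN = E * dt s uL - dt s (v0 - o))
    (hE : 32 * n ^ 4 * (1000000 * n ^ 16) + 2 * S + 4 * n ^ 2 * (300000 * n ^ 14 + S + 1) + n
      ≤ |E|)
    (hV : ∀ β ∈ insert Y B, ∀ τ ∈ insert Y B, β ≠ τ → dt (τ - β) uN ≠ 0 →
      dt (τ - β) um ≠ 0 → ∃ V : ℤ, V ∣ dt s (τ - β) ∧ V ∣ E ∧ 400000 * n ^ 16 ≤ |V|) :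
    |E| ≤ 8 * n ^ 2 * |K| ∧
    ∃ κg κy κf, TData R B o Y v0 uL uM uN um X XG n S s E G K F κg κy κf := by
  have hn := c.hn
  have hn2 : 1 ≤ n ^ 2 := one_le_pow₀ hn
  have hn4 : 1 ≤ n ^ 4 := one_le_pow₀ hn
  have hn14 : 1 ≤ n ^ 14 := one_le_pow₀ hn
  have hn16 : 1 ≤ n ^ 16 := one_le_pow₀ hn
  have hS0 : 0 ≤ S := le_trans (abs_nonneg _) (hS o (c.nearR c.oR) o (c.nearR c.oR))
  have hKD : K * dt s um = (G - kY) * P := by linear_combination hK0 - hG
  have h1 : dt s (adv o uM G - adv o uL E) = 0 := by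
    have : dt s (adv o uM G - adv o uL E) = G * dt s uM - E * dt s uL := by
      unfold dt adv; simp only [Prod.fst_sub, Prod.snd_sub]; ring
    rw [this, hP, hG, sub_self]
  have h2 : dt s (adv Y um K - adv o uL E) = 0 := by
    have : dt s (adv Y um K - adv o uL E) =
        kY * dt s uM + K * dt s um - E * dt s uL := by
      rw [hYk]; unfold dt adv; simp only [Prod.fst_sub, Prod.snd_sub]; ring
    rw [this, hKD, hP, ← hG]; ring
  have h3 : dt s (adv v0 uN F - adv o uL E) = 0 := by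
    have : dt s (adv v0 uN F - adv o uL E) =
        F * dt s uN - (E * dt s uL - dt s (v0 - o)) := by
      unfold dt adv; simp only [Prod.fst_sub, Prod.snd_sub]; ring
    rw [this, hF0]; ring
  obtain ⟨κg, hκg⟩ := exists_adv sc h1
  obtain ⟨κy, hκy⟩ := exists_adv sc h2
  obtain ⟨κf, hκf⟩ := exists_adv sc h3
  have hP0 : 0 < |P| := by linarith
  have hEn := abs_nonneg E
  have hGE : (400000 * n ^ 16) * |E| ≤ |G| := by
    have e1 : |G| * |P| = |E| * |dt s uL| := by rw [← abs_mul, hG, abs_mul]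
    have e2 : ((400000 * n ^ 16) * |E|) * |P| ≤ |G| * |P| := by
      rw [e1]
      have := mul_le_mul_of_nonneg_left hA hEn
      linarith
    exact le_of_mul_le_mul_right e2 hP0
  have hPA : |P| ≤ |dt s uL| := (le_mul_of_one_le_left (abs_nonneg _) (by linarith)).trans hA
  have hDA : |dt s um| ≤ 4 * n ^ 2 * |dt s uL| := by
    have key : dt s um * dt uL uM = dt s uM * dt uL um - dt s uL * dt uM um := by
      unfold dt; ring
    have h1 : |dt s um| * |dt uL uM| ≤ |dt s uM| * |dt uL um| + |dt s uL| * |dt uM um| := by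
      rw [← abs_mul, key, ← abs_mul, ← abs_mul]
      exact abs_sub _ _
    have h2 : |dt s uM| * |dt uL um| ≤ |dt s uL| * (2 * n ^ 2) := by
      rw [hP]
      exact mul_le_mul hPA (c.nL.dt c.nm) (abs_nonneg _) (abs_nonneg _)
    have h3 : |dt s uL| * |dt uM um| ≤ |dt s uL| * (2 * n ^ 2) :=
      mul_le_mul_of_nonneg_left (c.nM.dt c.nm) (abs_nonneg _)
    have h4 := Int.one_le_abs c.hLM
    have h5 := le_mul_of_one_le_right (abs_nonneg (dt s um)) h4
    linarith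
  have hkY : |kY| ≤ n := by
    have hu : uM.1 ≠ 0 ∨ uM.2 ≠ 0 := by
      by_contra hc
      apply c.uM0
      rw [not_or, not_not, not_not] at hc
      exact Prod.ext hc.1 hc.2
    have h := c.near Y c.nearY o (c.nearR c.oR)
    have e1 : (Y - o).1 = kY * uM.1 := by rw [hYk]; unfold adv; simp
    have e2 : (Y - o).2 = kY * uM.2 := by rw [hYk]; unfold adv; simp
    unfold Nv at h
    rw [e1, e2, abs_mul, abs_mul] at h
    rcases hu with hu | hu
    · have := Int.one_le_abs hu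
      exact (le_mul_of_one_le_right (abs_nonneg kY) this).trans h.1
    · have := Int.one_le_abs hu
      exact (le_mul_of_one_le_right (abs_nonneg kY) this).trans h.2
  have hEn' : 2 * n ≤ |E| := by
    have : 0 ≤ 32 * n ^ 4 * (1000000 * n ^ 16) := by positivity
    have p1 : n ≤ n ^ 4 := le_self_pow₀ hn (by norm_num)
    have p2 : n ^ 4 ≤ n ^ 4 * n ^ 16 := le_mul_of_one_le_right (by linarith) hn16
    have e : 32 * n ^ 4 * (1000000 * n ^ 16) = 32000000 * (n ^ 4 * n ^ 16) := by ring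
    have g2 : 0 ≤ 4 * n ^ 2 * (300000 * n ^ 14 + S + 1) := by positivity
    rw [e] at hE
    linarith
  have hKn : |E| - n ≤ 4 * n ^ 2 * |K| := by
    have e1 : |K| * |dt s um| = |G - kY| * |P| := by
      rw [← abs_mul, hKD, abs_mul]
    have e2 : |G| * |P| = |E| * |dt s uL| := by rw [← abs_mul, hG, abs_mul]
    have e3 : |G| - |kY| ≤ |G - kY| := abs_sub_abs_le_abs_sub G kY
    have e4 : (|G| - n) * |P| ≤ |G - kY| * |P| := mul_le_mul_of_nonneg_right (by linarith) hP0.le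
    have e5 : (|E| - n) * |dt s uL| ≤ |K| * |dt s um| := by
      rw [e1]
      have := mul_le_mul_of_nonneg_left hPA (show 0 ≤ n by linarith)
      linarith
    have e6 : |K| * |dt s um| ≤ |K| * (4 * n ^ 2 * |dt s uL|) :=
      mul_le_mul_of_nonneg_left hDA (abs_nonneg _)
    have e7 : (|E| - n) * |dt s uL| ≤ (4 * n ^ 2 * |K|) * |dt s uL| := by linarith
    exact le_of_mul_le_mul_right e7 (by linarith)
  have hK : 300000 * n ^ 14 + S + 1 ≤ |K| := by
    have e9 : 4 * n ^ 2 * (300000 * n ^ 14 + S + 1) ≤ 4 * n ^ 2 * |K| := by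
      have : 0 ≤ 32 * n ^ 4 * (1000000 * n ^ 16) := by positivity
      linarith
    exact le_of_mul_le_mul_left e9 (by positivity)
  refine ⟨by linarith, κg, κy, κf, ⟨sc, by rw [hP]; exact hPR, by rw [hP]; exact hA, hC, hD,
    hS, hκg, hκy, hκf, hGE, hK, ?_, ?_, ?_, ?_⟩⟩
  · have : 0 ≤ 4 * n ^ 2 * (300000 * n ^ 14 + S + 1) := by positivity
    linarith
  · intro x hx
    exact (hZL x hx).trans hZG
  · rcases hZm with h | h
    · exact Or.inl (fun x hx => (h x hx).trans hZK)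
    · exact Or.inr h
  · intro β hβ τ hτ hne hN' hm' k hc
    obtain ⟨V, hV1, hV2, hV3⟩ := hV β hβ τ hτ hne hN' hm'
    have e1 : dt (τ - β) (o - β) = -(E * dt (τ - β) uL) + k * dt s (τ - β) := by
      unfold Col adv at hc
      unfold dt
      simp only [Prod.fst_sub, Prod.snd_sub] at *
      linear_combination hc
    have hdvd : V ∣ dt (τ - β) (o - β) := by
      rw [e1]
      exact dvd_add ((dvd_neg.mpr (hV2.mul_right _))) (hV1.mul_left _)
    by_contra hne'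
    have hle := Int.le_of_dvd (abs_pos.mpr hne') ((abs_dvd_abs _ _).mpr hdvd)
    have hb := (c.near τ (c.nearNB hτ) β (c.nearNB hβ)).dt
      (c.near o (c.nearR c.oR) β (c.nearNB hβ))
    have p2 : n ^ 2 ≤ n ^ 16 := pow_le_pow_right₀ hn (by norm_num)
    linarith

/-- THE CORE OF LEMMA B: there is a residue class such that, after every far point `e` of `L`
in this class and every quiet answer `t = o + T uL`, either `t` is much nearer or much farther
than `e`, or Red wins -/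
theorem lemB_core {R B : Finset Pt} {o Y v0 uL uM uN um : Pt} {X XG : Finset Pt} {n : ℤ}
    {XP : Finset (Pt × Pt)}
    (c : BCtx R B o Y v0 uL uM uN um X XG n) {b r : Pt} {kY Zg Zm : ℤ}
    (hB : ∀ β ∈ B, β ∉ R) (hYk : Y = adv o uM kY)
    (hbR : b ∈ R) (hbM : dt uM (b - o) = 0) (hbo : b ≠ o)
    (hrR : r ∈ R) (hrN : dt uN (r - v0) = 0) (hrv : r ≠ v0)
    (hZL : ∀ x ∈ XG, dt uM (o - x) ∣ Zg)
    (hZm : (∀ x ∈ X, dt um (Y - x) ∣ Zm) ∨ ∀ β ∈ B, ∀ β' ∈ B, β ≠ β' → dt (β' - β) um = 0 →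
      (∃ w ∈ R, Col β β' w) ∨ dt um (β - Y) = 0)
    (hsup : Supply o v0 uL uM uN um kY Zg Zm)
    (hXP : ∀ p ∈ XP, p.1 ∈ X ∧ p.2 ∈ X ∧ p.1 ≠ p.2)
    (hXPm : ∀ p ∈ XP, (dt uL (p.1 - o) = 0 ∧ dt uL (p.2 - o) = 0) ∨ (dt (p.2 - p.1) um ≠ 0 ∧
      dt (p.2 - p.1) (Y - p.1) * dt uL um - kY * dt (p.2 - p.1) um * dt uL uM ≠ 0))
    (hfin : ∀ (R3 : Finset Pt) (e g y t t3 : Pt), R ⊆ R3 →
      (∀ β τ, dt um (β - Y) = 0 → dt um (τ - Y) = 0 → Col β τ y) →
      FinData R3 (insert Y B) o uL uM um e g y t t3 X XG XP →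
      Win R3 (insert t3 (insert t (insert Y B)))) :
    ∃ E0 W Γ : ℤ, W ≠ 0 ∧ (∀ m : ℤ, Zg ∣ E0 + W * m) ∧
      ∀ m : ℤ, Γ ≤ |E0 + W * m| → 32 * n ^ 4 + 2 * n ^ 2 < |E0 + W * m| ∧ ∀ T : ℤ,
      adv o uL T ∉ insert (adv o uL (E0 + W * m)) R → adv o uL T ∉ B →
      NoThreat (insert (adv o uL (E0 + W * m)) R) (insert (adv o uL T) B) →
      (32 * n ^ 4 * |T| < |E0 + W * m| ∨ 32 * n ^ 4 * |E0 + W * m| < |T|) ∨
      Win (insert (adv o uL (E0 + W * m)) R) (insert (adv o uL T) B) := by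
  classical
  have hn := c.hn
  have hn2 : 1 ≤ n ^ 2 := one_le_pow₀ hn
  have hn4 : 1 ≤ n ^ 4 := one_le_pow₀ hn
  have oN := c.nearR c.oR
  -- the near directions
  obtain ⟨VV, hVV⟩ : ∃ VV : Finset Pt, VV = (((insert Y B) ×ˢ (insert Y B)).image
    (fun p : Pt × Pt => p.2 - p.1)).erase 0 := ⟨_, rfl⟩
  have hVV0 : ∀ v ∈ VV, v ≠ 0 := by
    intro v hv; rw [hVV] at hv; exact Finset.ne_of_mem_erase hv
  have hVVm : ∀ β ∈ insert Y B, ∀ τ ∈ insert Y B, β ≠ τ → τ - β ∈ VV := by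
    intro β hβ τ hτ hne
    rw [hVV, Finset.mem_erase]
    refine ⟨sub_ne_zero.mpr (Ne.symm hne), ?_⟩
    rw [Finset.mem_image]
    exact ⟨(β, τ), Finset.mem_product.mpr ⟨hβ, hτ⟩, rfl⟩
  -- the transversals
  obtain ⟨J, hJ⟩ : ∃ J, J = (insert Y B).card + XP.card + 1 := ⟨_, rfl⟩
  obtain ⟨s, P, E0, W, hW, hss, hs⟩ := hsup VV hVV0 (400000 * n ^ 16) J
  -- the bound `S`
  obtain ⟨S, hSdef⟩ : ∃ S, S = ∑ j ∈ Finset.range J, n * (|(s j).1| + |(s j).2|) := ⟨_, rfl⟩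
  have hSnn : ∀ j, 0 ≤ n * (|(s j).1| + |(s j).2|) := fun j =>
    mul_nonneg (by linarith) (add_nonneg (abs_nonneg _) (abs_nonneg _))
  have hS0 : 0 ≤ S := by rw [hSdef]; exact Finset.sum_nonneg (fun j _ => hSnn j)
  have hSj : ∀ j < J, ∀ v, Nv n v → |dt (s j) v| ≤ S := by
    intro j hj v hv
    have h1 : n * (|(s j).1| + |(s j).2|) ≤ S := by
      rw [hSdef]
      exact Finset.single_le_sum (f := fun j => n * (|(s j).1| + |(s j).2|))
        (fun j _ => hSnn j) (Finset.mem_range.mpr hj)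
    have h2 : |dt (s j) v| ≤ |(s j).1| * |v.2| + |(s j).2| * |v.1| := by
      unfold dt
      have := abs_sub ((s j).1 * v.2) ((s j).2 * v.1)
      rw [abs_mul, abs_mul] at this
      exact this
    have h3 : |(s j).1| * |v.2| ≤ |(s j).1| * n := mul_le_mul_of_nonneg_left hv.2 (abs_nonneg _)
    have h4 : |(s j).2| * |v.1| ≤ |(s j).2| * n := mul_le_mul_of_nonneg_left hv.1 (abs_nonneg _)
    linarith
  -- the bound `Q` for the resultants
  obtain ⟨Q, hQdef⟩ : ∃ Q, Q = ∑ q ∈ (Finset.range J ×ˢ Finset.range J) ×ˢ XP,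
    200 * n ^ 7 * (256 * n ^ 4) * |dt (s q.1.1) (s q.1.2) *
      (dt (q.2.2 - q.2.1) (Y - q.2.1) * dt uL um - kY * dt (q.2.2 - q.2.1) um * dt uL uM)| :=
    ⟨_, rfl⟩
  have hQ0 : 0 ≤ Q := by
    rw [hQdef]; exact Finset.sum_nonneg (fun q _ => by positivity)
  have hQj : ∀ j < J, ∀ j' < J, ∀ p ∈ XP, 200 * n ^ 7 * (256 * n ^ 4) * |dt (s j) (s j') *
      (dt (p.2 - p.1) (Y - p.1) * dt uL um - kY * dt (p.2 - p.1) um * dt uL uM)| ≤ Q := by
    intro j hj j' hj' p hp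
    rw [hQdef]
    exact Finset.single_le_sum (f := fun q : (ℕ × ℕ) × (Pt × Pt) =>
      200 * n ^ 7 * (256 * n ^ 4) * |dt (s q.1.1) (s q.1.2) *
      (dt (q.2.2 - q.2.1) (Y - q.2.1) * dt uL um - kY * dt (q.2.2 - q.2.1) um * dt uL uM)|)
      (a := ((j, j'), p)) (fun q _ => by positivity)
      (Finset.mem_product.mpr ⟨Finset.mem_product.mpr ⟨Finset.mem_range.mpr hj,
        Finset.mem_range.mpr hj'⟩, hp⟩)
  refine ⟨E0, W, 32 * n ^ 4 * (1000000 * n ^ 16) + 2 * S +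
    4 * n ^ 2 * (300000 * n ^ 14 + S + 1) + n +
    32 * n ^ 4 * (8 * (32 * n ^ 4 + 1) * (2 * n ^ 2) * (S + 1) + 1) + Q, hW, ?_, ?_⟩
  · intro m
    have hJ0 : 0 < J := by rw [hJ]; exact Nat.succ_pos _
    obtain ⟨_, _, _, _, _, _, h'⟩ := hs 0 hJ0
    exact (h' m).1
  intro m hΓ
  have g1 : 32 * n ^ 4 + 2 * n ^ 2 < 32 * n ^ 4 * (1000000 * n ^ 16) + n := by
    have p16 : n ^ 2 ≤ n ^ 16 := pow_le_pow_right₀ hn (by norm_num)
    have p16' : 1 ≤ n ^ 16 := one_le_pow₀ hn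
    have p20 : n ^ 16 ≤ n ^ 4 * n ^ 16 := le_mul_of_one_le_left (by linarith) hn4
    have p21 : n ^ 4 ≤ n ^ 4 * n ^ 16 := le_mul_of_one_le_right (by linarith) p16'
    have e : 32 * n ^ 4 * (1000000 * n ^ 16) = 32000000 * (n ^ 4 * n ^ 16) := by ring
    rw [e]
    linarith
  have g2 : 0 ≤ 4 * n ^ 2 * (300000 * n ^ 14 + S + 1) := by positivity
  have g3 : 0 ≤ 32 * n ^ 4 * (8 * (32 * n ^ 4 + 1) * (2 * n ^ 2) * (S + 1) + 1) := by positivity
  refine ⟨by linarith, ?_⟩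
  intro T htR htB hNT
  obtain ⟨E, hEdef⟩ : ∃ E, E = E0 + W * m := ⟨_, rfl⟩
  rw [← hEdef] at hΓ htR hNT ⊢
  have hTE : T ≠ E := by
    rintro rfl; exact htR (Finset.mem_insert_self _ _)
  by_cases hcase : 32 * n ^ 4 * |T| < |E| ∨ 32 * n ^ 4 * |E| < |T|
  · exact Or.inl hcase
  · -- case 2
    right
    rw [not_or, not_lt, not_lt] at hcase
    have hTbig : 8 * (32 * n ^ 4 + 1) * (2 * n ^ 2) * (S + 1) < |T| := by
      have h1 : 32 * n ^ 4 * (8 * (32 * n ^ 4 + 1) * (2 * n ^ 2) * (S + 1) + 1) ≤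
          32 * n ^ 4 * |T| := by linarith [hcase.1]
      have h2 := le_of_mul_le_mul_left h1 (by positivity)
      linarith
    have hNv : ∀ β ∈ insert Y B, Nv n (β - o) := fun β hβ => c.near β (c.nearNB hβ) o oN
    have hA1 : ∀ j < J, 1 ≤ |dt (s j) uL| := by
      intro j hj
      obtain ⟨_, hP, h3, h4, _⟩ := hs j hj
      have p16' : 1 ≤ n ^ 16 := one_le_pow₀ hn
      have hP1 : 1 ≤ |P| := by linarith
      have h5 : |P| ≤ 400000 * n ^ 16 * |P| := le_mul_of_one_le_left (by linarith) (by linarith)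
      linarith
    -- the data of the transversal `j`
    have hdata : ∀ j < J, ∃ G K F : ℤ, K * dt (s j) um = E * dt (s j) uL - kY * P ∧
        |E| ≤ 8 * n ^ 2 * |K| ∧
        ∃ κg κy κf, TData R B o Y v0 uL uM uN um X XG n S (s j) E G K F κg κy κf := by
      intro j hj
      obtain ⟨sc, hP, hPR, hAR, hIN, hIm, hG⟩ := hs j hj
      obtain ⟨_, ⟨G, hGP, hZG⟩, ⟨K, hK, hZK⟩, ⟨F, hF⟩, hV⟩ := hG m
      rw [← hEdef] at hGP hK hF hV
      obtain ⟨h1, h2⟩ := mk_tdata c (S := S) (E := E) (G := G) (K := K) (F := F) (P := P)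
        (s := s j) hYk hZL hZm sc hP hPR hAR hIN hIm
        (fun a ha b hb => hSj j hj _ (c.near a ha b hb)) hGP hZG hK hZK hF (by linarith)
        (fun β hβ τ hτ hne h1 h2 => hV (τ - β) (hVVm β hβ τ hτ hne) h1 h2)
      exact ⟨G, K, F, hK, h1, h2⟩
    -- the selection
    obtain ⟨j, hj, hsel, hsel2⟩ := pigeon2 (insert Y B) XP J (by rw [hJ]; omega)
      (fun j β => ∃ k, Col β (adv o uL T) (adv (adv o uL E) (s j) k))
      (fun j p => dt (p.2 - p.1) (adv o uL T - p.1) ≠ 0 ∧ ∃ K : ℤ,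
        K * dt (s j) um = E * dt (s j) uL - kY * P ∧ |E| ≤ 8 * n ^ 2 * |K| ∧
        dt (p.2 - p.1) (adv Y um K - p.1) ∣ dt (p.2 - p.1) (adv o uL T - p.1) * (p.2 - p.1).1 ∧
        dt (p.2 - p.1) (adv Y um K - p.1) ∣ dt (p.2 - p.1) (adv o uL T - p.1) * (p.2 - p.1).2)
      (by
        rintro β hβ j hj j' hj' hne ⟨k, hk⟩ ⟨k', hk'⟩
        exact excl_t (NB := insert Y B) (S := S) hn hNv c.nL (fun β hβ => c.NBL hβ)
          (hss j hj j' hj' hne) (hA1 j hj) (hA1 j' hj')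
          (fun β hβ => hSj j hj _ (hNv β hβ)) (fun β hβ => hSj j' hj' _ (hNv β hβ)) hS0 hTE
          hcase.1 hTbig hβ hk hk')
      (by
        rintro p hp j hj j' hj' hne ⟨hN, K, hK, hKb, h1, h2⟩ ⟨_, K', hK', hKb', h1', h2'⟩
        obtain ⟨hx, hx', hxx⟩ := hXP p hp
        rcases hXPm p hp with ⟨l1, l2⟩ | ⟨hν, hρ⟩
        · apply hN
          have hv : dt uL (p.2 - p.1) = 0 := by
            unfold dt at *
            simp only [Prod.fst_sub, Prod.snd_sub] at *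
            linarith
          have ht : dt uL (adv o uL T - p.1) = 0 := by
            unfold dt adv at *
            simp only [Prod.fst_sub, Prod.snd_sub] at *
            linarith
          exact dt_par c.uL0 hv ht
        have hvn : Nv n (p.2 - p.1) :=
          c.near _ (c.nearR (c.XR _ hx')) _ (c.nearR (c.XR _ hx))
        have hv0 : p.2 - p.1 ≠ 0 := sub_ne_zero.mpr (Ne.symm hxx)
        have hox := c.near o oN _ (c.nearR (c.XR _ hx))
        obtain ⟨_, hP, _, _, _, _, _⟩ := hs j hj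
        obtain ⟨_, hP', _, _, _, _, _⟩ := hs j' hj'
        have hNb : |dt (p.2 - p.1) (adv o uL T - p.1)| ≤ 2 * n ^ 2 + 2 * n ^ 2 * |T| := by
          have e : dt (p.2 - p.1) (adv o uL T - p.1) =
              dt (p.2 - p.1) (o - p.1) + T * dt (p.2 - p.1) uL := by
            unfold dt adv; simp only [Prod.fst_sub, Prod.snd_sub]; ring
          have e1 := hvn.dt hox
          have e2 := hvn.dt c.nL
          have e3 : |T * dt (p.2 - p.1) uL| ≤ 2 * n ^ 2 * |T| := by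
            rw [abs_mul]
            have := mul_le_mul_of_nonneg_left e2 (abs_nonneg T)
            linarith
          rw [e]
          exact le_trans (abs_add_le _ _) (add_le_add e1 e3)
        have hT1 : 1 ≤ |T| := by
          have : 0 ≤ 8 * (32 * n ^ 4 + 1) * (2 * n ^ 2) * (S + 1) := by positivity
          linarith
        have hNb2 : |dt (p.2 - p.1) (adv o uL T - p.1)| * n ≤ 200 * n ^ 7 * |E| := by
          have a1 : 2 * n ^ 2 + 2 * n ^ 2 * |T| ≤ 4 * n ^ 2 * |T| := by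
            have := le_mul_of_one_le_right (show 0 ≤ 2 * n ^ 2 by positivity) hT1
            linarith
          have a2 : 4 * n ^ 2 * |T| ≤ 4 * n ^ 2 * (32 * n ^ 4 * |E|) :=
            mul_le_mul_of_nonneg_left hcase.2 (by positivity)
          have a3 : 4 * n ^ 2 * (32 * n ^ 4 * |E|) * n = 128 * n ^ 7 * |E| := by ring
          have a4 : |dt (p.2 - p.1) (adv o uL T - p.1)| * n ≤
              4 * n ^ 2 * (32 * n ^ 4 * |E|) * n :=
            mul_le_mul_of_nonneg_right (by linarith) (by linarith)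
          have a5 : 0 ≤ n ^ 7 * |E| := by positivity
          linarith
        have hE1 : 32 * n ^ 4 ≤ |E| := by linarith
        have hEQ : 200 * n ^ 7 * (256 * n ^ 4) * |dt (s j) (s j') *
            (dt (p.2 - p.1) (Y - p.1) * dt uL um - kY * dt (p.2 - p.1) um * dt uL uM)| < |E| := by
          have := hQj j hj j' hj' p hp
          linarith
        have hcomp : (p.2 - p.1).1 ≠ 0 ∨ (p.2 - p.1).2 ≠ 0 := by
          by_contra hc
          apply hv0
          rw [not_or, not_not, not_not] at hc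
          exact Prod.ext hc.1 hc.2
        rcases hcomp with hc | hc
        · refine excl_v (Nt := dt (p.2 - p.1) (adv o uL T - p.1) * (p.2 - p.1).1) (t := 0)
            (T := T) hn hYk hP hP' (c.near Y c.nearY _ (c.nearR (c.XR _ hx))) hvn c.nm hν hρ
            (hss j hj j' hj' hne) hK hK' hKb hKb' hE1 (mul_ne_zero hN hc) ?_ hEQ h1 h1'
          rw [abs_mul]
          have := mul_le_mul_of_nonneg_left hvn.1
            (abs_nonneg (dt (p.2 - p.1) (adv o uL T - p.1)))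
          linarith
        · refine excl_v (Nt := dt (p.2 - p.1) (adv o uL T - p.1) * (p.2 - p.1).2) (t := 0)
            (T := T) hn hYk hP hP' (c.near Y c.nearY _ (c.nearR (c.XR _ hx))) hvn c.nm hν hρ
            (hss j hj j' hj' hne) hK hK' hKb hKb' hE1 (mul_ne_zero hN hc) ?_ hEQ h2 h2'
          rw [abs_mul]
          have := mul_le_mul_of_nonneg_left hvn.2
            (abs_nonneg (dt (p.2 - p.1) (adv o uL T - p.1)))
          linarith)
    obtain ⟨G, K, F, hK, hKb, κg, κy, κf, td⟩ := hdata j hj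
    refine case2_gen c td hNT hB (fun h => htR (Finset.mem_insert_of_mem h)) hbR hbM hbo hrR hrN
      hrv hfin hXP ?_ hTE hcase.2 hcase.1 ?_
    · intro p hp h0 h1 h2
      exact hsel2 p hp ⟨h0, K, hK, hKb, h1, h2⟩
    · intro β hβ k hc
      exact hsel β hβ ⟨k, hc⟩

end Pool.Agent.K4L
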