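import Pool.Agent.K4L.LemBFar

/-!
# Lemma B: the near data, case 1, and the facts about a transversal
-/

namespace Pool.Agent.K4L

/-- the near data of Lemma B: `L` = line through `o` with direction `uL`, `M` = line through `o`
with direction `uM`, `m` = line through `Y` with direction `um`, `N` = line through `v0` with
direction `uN` -/
structure BCtx (R B : Finset Pt) (o Y v0 uL uM uN um : Pt) (X XG : Finset Pt) (n : ℤ) : Prop where
  hn : 1 ≤ n
  near : ∀ a ∈ R ∪ insert Y B, ∀ b ∈ R ∪ insert Y B, Nv n (a - b)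
  nL : Nv n uL
  nM : Nv n uM
  nN : Nv n uN
  nm : Nv n um
  hLM : dt uL uM ≠ 0
  hLN : dt uL uN ≠ 0
  hLm : dt uL um ≠ 0
  hMN : dt uM uN ≠ 0
  hMm : dt uM um ≠ 0
  oR : o ∈ R
  vR : v0 ∈ R
  MNR : ∀ z, dt uM (z - o) = 0 → dt uN (z - v0) = 0 → z ∈ R
  YM : dt uM (Y - o) = 0
  YR : Y ∉ R
  YB : Y ∉ B
  XR : ∀ x ∈ X, x ∈ R
  GX : ∀ x ∈ XG, x ∈ X
  GM : ∀ x ∈ XG, dt uM (x - o) ≠ 0
  Lal : ∀ β ∈ B, dt uL (β - o) ≠ 0
  Mal : ∀ β ∈ B, dt uM (β - o) ≠ 0
  Nal : ∀ β ∈ B, dt uN (β - v0) ≠ 0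
  mR : ∀ z ∈ R, dt um (z - Y) ≠ 0
  MU : ∀ z, dt uM (z - o) = 0 → z ∉ R → ∀ β ∈ B, ∀ β' ∈ B, β ≠ β' → Col β β' z →
    (∃ w ∈ R, Col β β' w) ∨ (dt um (β - Y) = 0 ∧ dt um (β' - Y) = 0)
  parM : ∀ β ∈ B, ∀ β' ∈ B, β ≠ β' → dt (β' - β) uM = 0 → (∃ w ∈ R, Col β β' w) ∨
    ∀ x ∈ XG, ∀ z, Col o x z → ¬ Col β β' z
  parm : ∀ β ∈ B, ∀ β' ∈ B, β ≠ β' → dt (β' - β) um = 0 → (∃ w ∈ R, Col β β' w) ∨
    dt um (β - Y) = 0 ∨ ∀ x ∈ X, ∀ z, Col Y x z → ¬ Col β β' z

namespace BCtx

variable {R B : Finset Pt} {o Y v0 uL uM uN um : Pt} {X XG : Finset Pt} {n : ℤ}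

theorem nearR (c : BCtx R B o Y v0 uL uM uN um X XG n) {a : Pt} (h : a ∈ R) :
    a ∈ R ∪ insert Y B := Finset.mem_union_left _ h

theorem nearB (c : BCtx R B o Y v0 uL uM uN um X XG n) {a : Pt} (h : a ∈ B) :
    a ∈ R ∪ insert Y B := Finset.mem_union_right _ (Finset.mem_insert_of_mem h)

theorem nearNB (c : BCtx R B o Y v0 uL uM uN um X XG n) {a : Pt} (h : a ∈ insert Y B) :
    a ∈ R ∪ insert Y B := Finset.mem_union_right _ h

theorem nearY (c : BCtx R B o Y v0 uL uM uN um X XG n) :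
    Y ∈ R ∪ insert Y B := Finset.mem_union_right _ (Finset.mem_insert_self _ _)

theorem uL0 (c : BCtx R B o Y v0 uL uM uN um X XG n) : uL ≠ 0 := by
  rintro rfl; exact c.hLM (by unfold dt; simp)

theorem uM0 (c : BCtx R B o Y v0 uL uM uN um X XG n) : uM ≠ 0 := by
  rintro rfl; exact c.hLM (by unfold dt; simp)

theorem um0 (c : BCtx R B o Y v0 uL uM uN um X XG n) : um ≠ 0 := by
  rintro rfl; exact c.hLm (by unfold dt; simp)

theorem uN0 (c : BCtx R B o Y v0 uL uM uN um X XG n) : uN ≠ 0 := by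
  rintro rfl; exact c.hLN (by unfold dt; simp)

/-- `o` is the only point of `L` and `M` -/
theorem LM (c : BCtx R B o Y v0 uL uM uN um X XG n) {z : Pt} (h1 : dt uL (z - o) = 0)
    (h2 : dt uM (z - o) = 0) : z = o := by
  by_contra hne
  have hz : z - o ≠ 0 := sub_ne_zero.mpr hne
  apply c.hLM
  refine dt_par hz ?_ ?_
  · rw [dt_swap, h1, neg_zero]
  · rw [dt_swap, h2, neg_zero]

/-- `Y` is not on `L` -/
theorem YL (c : BCtx R B o Y v0 uL uM uN um X XG n) : dt uL (Y - o) ≠ 0 := by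
  intro h
  have := c.LM h c.YM
  exact c.YR (this ▸ c.oR)

theorem NBL (c : BCtx R B o Y v0 uL uM uN um X XG n) {β : Pt} (h : β ∈ insert Y B) :
    dt uL (β - o) ≠ 0 := by
  rcases Finset.mem_insert.mp h with rfl | h
  · exact c.YL
  · exact c.Lal β h

theorem NBR (c : BCtx R B o Y v0 uL uM uN um X XG n) {β x : Pt} (h : β ∈ insert Y B)
    (hx : x ∈ R) (hB : ∀ β ∈ B, β ∉ R) : β ≠ x := by
  rintro rfl
  rcases Finset.mem_insert.mp h with rfl | h
  · exact c.YR hx
  · exact hB _ h hx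

end BCtx

/-- the range lemma, in geometric form -/
theorem range_good {R : Finset Pt} {n T E : ℤ} {o uL x β : Pt} (hn : 1 ≤ n) (hx : x ∈ R)
    (h1 : Nv n (x - o)) (h2 : Nv n (β - o)) (h3 : Nv n uL)
    (hβL : dt uL (β - o) ≠ 0) (hxL : dt uL (x - o) ≠ 0) (hE : 32 * n ^ 4 ≤ |E|)
    (hT : 32 * n ^ 4 * |T| < |E| ∨ 32 * n ^ 4 * |E| < |T|) :
    Good R (adv o uL E) x β (adv o uL T) := by
  have hH2 : 8 * (2 * n ^ 2) ^ 2 = 32 * n ^ 4 := by ring
  have hH : 1 ≤ 2 * n ^ 2 := by nlinarith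
  have h1' : Nv n (o - x) := h1.neg
  have h2' : Nv n (o - β) := h2.neg
  have D1 : dt (adv o uL T - β) (adv o uL E - x) =
      -T * dt uL (x - o) + E * dt uL (β - o) + dt (o - β) (o - x) := by
    unfold dt adv; simp only [Prod.fst_sub, Prod.snd_sub]; ring
  have D2 : dt (adv o uL T - β) (x - β) =
      T * (dt uL (x - o) - dt uL (β - o)) - dt (o - β) (o - x) := by
    unfold dt adv; simp only [Prod.fst_sub, Prod.snd_sub]; ring
  have D3 : dt uL (adv o uL E - x) = -dt uL (x - o) := by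
    unfold dt adv; simp only [Prod.fst_sub, Prod.snd_sub]; ring
  have key := fun i => range_num T E (dt uL (x - o)) (dt uL (β - o)) (dt (o - β) (o - x)) i
    (2 * n ^ 2) hH (Int.one_le_abs hxL) (h3.dt h1) (Int.one_le_abs hβL) (h3.dt h2)
    (h2'.dt h1') (by rw [hH2]; exact hE) (by rw [hH2]; exact hT)
  by_cases hc : Col β (adv o uL T) x
  · exact Or.inl ⟨x, hx, hc⟩
  · refine Or.inr ⟨by rw [D1]; exact (key 0).1, ?_⟩
    intro z hz hz'
    apply hc
    have s := star_id uL hz hz'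
    rw [D1, D2, D3] at s
    have hi := (key (dt uL (z - x))).2 (by linear_combination s)
    rw [hi, zero_mul] at s
    have h0 : T * (dt uL (x - o) - dt uL (β - o)) - dt (o - β) (o - x) = 0 := by
      have : dt uL (x - o) * (T * (dt uL (x - o) - dt uL (β - o)) - dt (o - β) (o - x)) = 0 := by
        linarith
      exact (mul_eq_zero.mp this).resolve_left hxL
    rw [col_dt, D2]
    exact h0

/-- near pairs and the edges of a far point -/
theorem near_good {R : Finset Pt} {n K : ℤ} {c u x β τ : Pt} (hx : x ∈ R) (h1 : Nv n (c - x))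
    (h2 : Nv n (x - β)) (h3 : Nv n (τ - β)) (h4 : Nv n u) (hH : dt u (c - x) ≠ 0)
    (hβτ : β ≠ τ) (hdvd : dt u (c - x) ∣ K) (hK : 2 * n ^ 2 + 4 * n ^ 4 < |K|)
    (hpar : dt (τ - β) u = 0 → (∃ w ∈ R, Col β τ w) ∨ ∀ z, Col c x z → ¬ Col β τ z) :
    Good R (adv c u K) x β τ := by
  by_cases h0 : dt (τ - β) u = 0
  · rcases hpar h0 with h | h
    · exact Or.inl h
    · exact good_of_par hβτ hH h0 hdvd h
  · refine good_of_star u hx ?_ (star_near h1 h2 h3 h4 h0 hK)
    have e1 : dt u (adv c u K - x) = dt u (c - x) := by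
      unfold dt adv; simp only [Prod.fst_sub, Prod.snd_sub]; ring
    rw [e1]; exact hH

/-- near pairs and the edges of a far point, second form -/
theorem near_good' {R : Finset Pt} {n K : ℤ} {c u x β τ : Pt} (hx : x ∈ R) (h1 : Nv n (c - x))
    (h2 : Nv n (x - β)) (h3 : Nv n (τ - β)) (h4 : Nv n u) (hH : dt u (c - x) ≠ 0)
    (hβτ : β ≠ τ) (hK : 2 * n ^ 2 + 4 * n ^ 4 < |K|)
    (hpar : dt (τ - β) u = 0 → (∃ w ∈ R, Col β τ w) ∨
      (dt u (c - x) ∣ K ∧ ∀ z, Col c x z → ¬ Col β τ z)) :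
    Good R (adv c u K) x β τ := by
  by_cases h0 : dt (τ - β) u = 0
  · rcases hpar h0 with h | ⟨h, h'⟩
    · exact Or.inl h
    · exact good_of_par hβτ hH h0 h h'
  · refine good_of_star u hx ?_ (star_near h1 h2 h3 h4 h0 hK)
    have e1 : dt u (adv c u K - x) = dt u (c - x) := by
      unfold dt adv; simp only [Prod.fst_sub, Prod.snd_sub]; ring
    rw [e1]; exact hH

/-- CASE 1 of Lemma B: the answer `t` is much nearer or much farther than `e` -/
theorem case1_win {R B : Finset Pt} {o Y v0 uL uM uN um : Pt} {X XG : Finset Pt} {n : ℤ}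
    (c : BCtx R B o Y v0 uL uM uN um X XG n) {b x' : Pt} {E T : ℤ}
    (hNT : NoThreat (insert (adv o uL E) R) (insert (adv o uL T) B))
    (hB : ∀ β ∈ B, β ∉ R)
    (hbR : b ∈ R) (hbM : dt uM (b - o) = 0) (hbo : b ≠ o)
    (hx'R : x' ∈ R) (hx'L : dt uL (x' - o) ≠ 0) (hx'b : x' ≠ b)
    (hparL : ∀ β ∈ B, ∀ β' ∈ B, β ≠ β' → dt (β' - β) uL = 0 → (∃ w ∈ R, Col β β' w) ∨
      ∀ z, Col o x' z → ¬ Col β β' z)
    (hdvd : dt uL (o - x') ∣ E) (hdvd2 : dt uL (o - b) ∣ E)
    (hE : 32 * n ^ 4 + 2 * n ^ 2 < |E|) (hTE : T ≠ E) (hT0 : T ≠ 0)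
    (hT : 32 * n ^ 4 * |T| < |E| ∨ 32 * n ^ 4 * |E| < |T|) :
    Win (insert (adv o uL E) R) (insert (adv o uL T) B) := by
  have hn := c.hn
  have hn4 : 1 ≤ n ^ 4 := one_le_pow₀ hn
  have hn2 : 1 ≤ n ^ 2 := one_le_pow₀ hn
  have hE1 : 32 * n ^ 4 ≤ |E| := by linarith
  have hE2 : 2 * n ^ 2 + 4 * n ^ 4 < |E| := by linarith
  have hE3 : 2 * n ^ 2 < |E| := by linarith
  have hEn : n < |E| := by nlinarith
  set e := adv o uL E with he
  set t := adv o uL T with ht
  have hbL : dt uL (b - o) ≠ 0 := fun h => hbo (c.LM h hbM)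
  have neg_dt : ∀ u z : Pt, dt u (z - o) ≠ 0 → dt u (o - z) ≠ 0 := by
    intro u z h h0
    apply h
    unfold dt at *
    simp only [Prod.fst_sub, Prod.snd_sub] at *
    linarith
  have heR : e ∈ insert e R := Finset.mem_insert_self _ _
  have eL : dt uL (e - o) = 0 := by rw [he]; unfold dt adv; simp; ring
  have tL : dt uL (t - o) = 0 := by rw [ht]; unfold dt adv; simp; ring
  have hne : ∀ z ∈ R ∪ insert Y B, e ≠ z := fun z hz =>
    adv_ne (c.near z hz o (c.nearR c.oR)) c.uL0 hEn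
  have hte : t ≠ e := by
    intro h
    apply hTE
    rw [he, ht] at h
    have h1 := congrArg Prod.fst h
    have h2 := congrArg Prod.snd h
    unfold adv at h1 h2
    simp only at h1 h2
    have hu : uL.1 ≠ 0 ∨ uL.2 ≠ 0 := by
      by_contra hc
      apply c.uL0
      rw [not_or, not_not, not_not] at hc
      exact Prod.ext hc.1 hc.2
    rcases hu with hu | hu
    · exact mul_right_cancel₀ hu (by linarith)
    · exact mul_right_cancel₀ hu (by linarith)
  -- off-line facts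
  have offL : ∀ z, dt uL (z - o) ≠ 0 → ¬ Col e t z := by
    intro z hz hc
    apply hz
    rw [col_dt] at hc
    have hte' : t - e ≠ 0 := sub_ne_zero.mpr hte
    have h1 : dt (t - e) uL = 0 := by
      rw [he, ht]; unfold dt adv; simp only [Prod.fst_sub, Prod.snd_sub]; ring
    have h2 := dt_par hte' h1 hc
    have h3 : dt uL (z - o) = dt uL (z - e) := by
      rw [he]; unfold dt adv; simp only [Prod.fst_sub, Prod.snd_sub]; ring
    rw [h3]; exact h2
  have aline : ∀ x ∈ R, dt uL (x - o) ≠ 0 → ALine (insert e R) (insert t B) e x := by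
    intro x hx hxL
    refine ⟨heR, Finset.mem_insert_of_mem hx, hne x (c.nearR hx), ?_⟩
    intro z hz hc
    rcases Finset.mem_insert.mp hz with rfl | hz
    · exact offL x hxL hc.swap23
    · exact near_off (c.near o (c.nearR c.oR) x (c.nearR hx)) (c.near z (c.nearB hz) x (c.nearR hx))
        (neg_dt _ _ hxL) (fun h => hB z hz (h ▸ hx)) hE3 hc
  have good : ∀ x ∈ R, dt uL (x - o) ≠ 0 → dt uL (o - x) ∣ E →
      (∀ β ∈ B, ∀ β' ∈ B, β ≠ β' → dt (β' - β) uL = 0 → (∃ w ∈ insert e R, Col β β' w) ∨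
        ∀ z, Col o x z → ¬ Col β β' z) →
      ∀ β ∈ insert t B, ∀ τ ∈ insert t B, β ≠ τ → Good (insert e R) e x β τ := by
    intro x hx hxL hd hp
    have hxR : x ∈ insert e R := Finset.mem_insert_of_mem hx
    have g1 : ∀ β ∈ B, ∀ τ ∈ B, β ≠ τ → Good (insert e R) e x β τ := by
      intro β hβ τ hτ hne'
      exact near_good hxR (c.near o (c.nearR c.oR) x (c.nearR hx))
        (c.near x (c.nearR hx) β (c.nearB hβ)) (c.near τ (c.nearB hτ) β (c.nearB hβ)) c.nL
        (neg_dt _ _ hxL) hne' hd hE2 (hp β hβ τ hτ hne')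
    have g2 : ∀ β ∈ B, Good (insert e R) e x β t := by
      intro β hβ
      exact range_good hn hxR (c.near x (c.nearR hx) o (c.nearR c.oR))
        (c.near β (c.nearB hβ) o (c.nearR c.oR)) c.nL (c.Lal β hβ) hxL hE1 hT
    intro β hβ τ hτ hne'
    have hβ' : β = t ∨ β ∈ B := by simpa using hβ
    have hτ' : τ = t ∨ τ ∈ B := by simpa using hτ
    rcases hβ' with h | h <;> rcases hτ' with h' | h'
    · exact absurd (h.trans h'.symm) hne'
    · rw [h]; exact (g2 τ h').symm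
    · rw [h']; exact g2 β h
    · exact g1 β h τ h' hne'
  have gx' := good x' hx'R hx'L hdvd (by
    intro β hβ β' hβ' hne' hp
    rcases hparL β hβ β' hβ' hne' hp with ⟨w, hw, hc⟩ | h
    · exact Or.inl ⟨w, Finset.mem_insert_of_mem hw, hc⟩
    · exact Or.inr h)
  have gb := good b hbR hbL hdvd2 (by
    intro β hβ β' hβ' hne' hp
    by_cases hd : ∃ w ∈ R, Col β β' w
    · obtain ⟨w, hw, hc⟩ := hd
      exact Or.inl ⟨w, Finset.mem_insert_of_mem hw, hc⟩
    · right
      intro z hz hc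
      have hzM : dt uM (z - o) = 0 := by
        rw [col_dt] at hz
        have hbo' : b - o ≠ 0 := sub_ne_zero.mpr hbo
        have h1 : dt (b - o) uM = 0 := by rw [dt_swap, hbM, neg_zero]
        exact dt_par hbo' h1 hz
      have hzR : z ∉ R := fun h => hd ⟨z, h, hc⟩
      rcases c.MU z hzM hzR β hβ β' hβ' hne' hc with h | ⟨h1, h2⟩
      · exact hd h
      · -- `β β'` is the line `m`, which is not parallel to `L`
        apply c.hLm
        have hββ : β' - β ≠ 0 := sub_ne_zero.mpr (Ne.symm hne')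
        have h3 : dt (β' - β) um = 0 := by
          unfold dt at *
          simp only [Prod.fst_sub, Prod.snd_sub] at *
          linarith
        exact dt_par hββ hp h3)
  have hob : o ≠ b := hbo.symm
  have hbo_al : ALine (insert e R) (insert t B) b o := by
    refine ⟨Finset.mem_insert_of_mem hbR, Finset.mem_insert_of_mem c.oR, hbo, ?_⟩
    intro z hz hc
    have hzM : dt uM (z - o) = 0 := by
      have hc' : Col o b z := hc.swap12
      rw [col_dt] at hc'
      have hbo' : b - o ≠ 0 := sub_ne_zero.mpr hbo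
      have h1 : dt (b - o) uM = 0 := by rw [dt_swap, hbM, neg_zero]
      exact dt_par hbo' h1 hc'
    rcases Finset.mem_insert.mp hz with rfl | hz
    · have := c.LM tL hzM
      apply hT0
      rw [ht] at this
      by_contra hT0'
      have h1 := congrArg Prod.fst this
      have h2 := congrArg Prod.snd this
      unfold adv at h1 h2
      simp only at h1 h2
      apply c.uL0
      refine Prod.ext ?_ ?_
      · exact (mul_eq_zero.mp (show T * uL.1 = 0 by linarith)).resolve_left hT0'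
      · exact (mul_eq_zero.mp (show T * uL.2 = 0 by linarith)).resolve_left hT0'
    · exact c.Mal z hz hzM
  refine two_good (x0 := x') (x1 := e) (x2 := b) (x3 := o) (w := o) hNT
    (aline x' hx'R hx'L).symm (aline b hbR hbL) hbo_al ?_ ?_ gx' gb
    (Finset.mem_insert_of_mem c.oR) ?_ ?_ hob
  · intro hc
    exact near_off (c.near o (c.nearR c.oR) x' (c.nearR hx'R))
      (c.near b (c.nearR hbR) x' (c.nearR hx'R)) (neg_dt _ _ hx'L) hx'b.symm hE3 hc.swap12
  · intro hc
    exact near_off (c.near o (c.nearR c.oR) b (c.nearR hbR))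
      (c.near o (c.nearR c.oR) b (c.nearR hbR)) (neg_dt _ _ hbL) hob hE3 hc
  · intro h
    rcases Finset.mem_insert.mp h with h | h
    · apply hT0
      by_contra hT0'
      rw [ht] at h
      have h1 := congrArg Prod.fst h
      have h2 := congrArg Prod.snd h
      unfold adv at h1 h2
      simp only at h1 h2
      apply c.uL0
      refine Prod.ext ?_ ?_
      · exact (mul_eq_zero.mp (show T * uL.1 = 0 by linarith)).resolve_left hT0'
      · exact (mul_eq_zero.mp (show T * uL.2 = 0 by linarith)).resolve_left hT0'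
    · exact hB o h c.oR
  · intro hc
    exact near_off (c.near o (c.nearR c.oR) x' (c.nearR hx'R))
      (c.near o (c.nearR c.oR) x' (c.nearR hx'R)) (neg_dt _ _ hx'L)
      (fun h => hx'L (by rw [← h]; unfold dt; simp)) hE3 hc.swap12

end Pool.Agent.K4L
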