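import Pool.Agent.K4L.Engine

/-!
# Lemma B: definitions and the arithmetic/numeric statements
-/

namespace Pool.Agent.K4L

/-- determinant of two vectors -/
def dt (a b : Pt) : ℤ := a.1 * b.2 - a.2 * b.1

/-- the point `x + t u` -/
def adv (x u : Pt) (t : ℤ) : Pt := (x.1 + t * u.1, x.2 + t * u.2)

end Pool.Agent.K4L
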