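import Pool.Agent.K4L.LemBKappa

/-!
# Lemma B: far points, near points, edges; the last two stages
-/

namespace Pool.Agent.K4L

theorem exists_bound (F : Finset Pt) : ∃ n : ℤ, 1 ≤ n ∧ ∀ v ∈ F, Nv n v := by
  refine ⟨1 + ∑ v ∈ F, (|v.1| + |v.2|), ?_, ?_⟩
  · have : 0 ≤ ∑ v ∈ F, (|v.1| + |v.2|) :=
      Finset.sum_nonneg (fun v _ => add_nonneg (abs_nonneg _) (abs_nonneg _))
    linarith
  · intro v hv
    have h : |v.1| + |v.2| ≤ ∑ v ∈ F, (|v.1| + |v.2|) :=
      Finset.single_le_sum (f := fun v : Pt => |v.1| + |v.2|)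
        (fun v _ => add_nonneg (abs_nonneg _) (abs_nonneg _)) hv
    constructor
    · linarith [abs_nonneg v.2]
    · linarith [abs_nonneg v.1]

theorem col_dt {x y z : Pt} : Col x y z ↔ dt (y - x) (z - x) = 0 := by
  unfold Col dt
  simp only [Prod.fst_sub, Prod.snd_sub]
  constructor <;> intro h <;> linarith

theorem dt_par {u v w : Pt} (hu : u ≠ 0) (h1 : dt u v = 0) (h2 : dt u w = 0) : dt v w = 0 := by
  unfold dt at *
  have hu' : u.1 ≠ 0 ∨ u.2 ≠ 0 := by
    by_contra hc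
    apply hu
    rw [not_or, not_not, not_not] at hc
    exact Prod.ext hc.1 hc.2
  rcases hu' with h | h
  · apply mul_left_cancel₀ h
    linear_combination v.1 * h2 - w.1 * h1
  · apply mul_left_cancel₀ h
    linear_combination v.2 * h2 - w.2 * h1

/-- a near point is not on the edge `w x` -/
theorem near_off {n K : ℤ} {c u x z : Pt} (h1 : Nv n (c - x)) (h2 : Nv n (z - x))
    (hH : dt u (c - x) ≠ 0) (hzx : z ≠ x) (hK : 2 * n ^ 2 < |K|) : ¬ Col (adv c u K) x z := by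
  intro hc
  have e1 : K * dt u (z - x) + dt (c - x) (z - x) = 0 := by
    unfold Col adv at hc
    unfold dt
    simp only [Prod.fst_sub, Prod.snd_sub] at *
    linarith
  by_cases h0 : dt u (z - x) = 0
  · rw [h0, mul_zero, zero_add] at e1
    have hz0 : z - x ≠ 0 := sub_ne_zero.mpr hzx
    apply hH
    have g1 : dt (z - x) u = 0 := by rw [dt_swap, h0, neg_zero]
    have g2 : dt (z - x) (c - x) = 0 := by rw [dt_swap, e1, neg_zero]
    exact dt_par hz0 g1 g2
  · have a1 := h1.dt h2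
    have a2 := Int.one_le_abs h0
    have a3 : |K| * |dt u (z - x)| = |dt (c - x) (z - x)| := by
      rw [← abs_mul]
      have : K * dt u (z - x) = -dt (c - x) (z - x) := by linarith
      rw [this, abs_neg]
    nlinarith [abs_nonneg K]

theorem adv_ne {n K : ℤ} {c u z : Pt} (h1 : Nv n (z - c)) (hu : u ≠ 0) (hK : n < |K|) :
    adv c u K ≠ z := by
  rintro rfl
  have hu' : u.1 ≠ 0 ∨ u.2 ≠ 0 := by
    by_contra hc
    apply hu
    rw [not_or, not_not, not_not] at hc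
    exact Prod.ext hc.1 hc.2
  unfold Nv adv at h1
  simp only [Prod.fst_sub, Prod.snd_sub, add_sub_cancel_left, abs_mul] at h1
  rcases hu' with h | h
  · have := Int.one_le_abs h
    nlinarith [h1.1, abs_nonneg K]
  · have := Int.one_le_abs h
    nlinarith [h1.2, abs_nonneg K]

/-- parallel near lines: arithmetic -/
theorem near_par_off {K : ℤ} {c u x β τ : Pt} (hH : dt u (c - x) ≠ 0) (hpar : dt (τ - β) u = 0)
    (hdvd : dt u (c - x) ∣ K) (hoff : ∀ z, Col c x z → ¬ Col β τ z) :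
    ∀ z, Col (adv c u K) x z → ¬ Col β τ z := by
  intro z hz hz'
  obtain ⟨K', rfl⟩ := hdvd
  set H := dt u (c - x) with hHdef
  set i := dt u (z - x) with hi
  have hcol : dt (adv c u (H * K') - x) (z - x) = 0 := by
    unfold Col adv at hz
    unfold dt
    simp only [Prod.fst_sub, Prod.snd_sub, adv] at *
    linarith
  -- `i (w - x) = H (z - x)`
  have e1 : i * (adv c u (H * K') - x).1 = H * (z - x).1 := by
    rw [hi, hHdef]
    rw [hHdef] at hcol
    unfold dt adv at *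
    simp only [Prod.fst_sub, Prod.snd_sub] at *
    linear_combination u.1 * hcol
  have e2 : i * (adv c u (H * K') - x).2 = H * (z - x).2 := by
    rw [hi, hHdef]
    rw [hHdef] at hcol
    unfold dt adv at *
    simp only [Prod.fst_sub, Prod.snd_sub] at *
    linear_combination u.2 * hcol
  set z0 : Pt := (z.1 - i * K' * u.1, z.2 - i * K' * u.2) with hz0
  refine hoff z0 ?_ ?_
  · -- `z0` on `c x`
    unfold Col
    apply mul_left_cancel₀ hH
    unfold adv at e1 e2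
    simp only [Prod.fst_sub, Prod.snd_sub, hz0] at *
    have f1 : H * (z.1 - i * K' * u.1 - x.1) = i * (c.1 - x.1) := by linarith
    have f2 : H * (z.2 - i * K' * u.2 - x.2) = i * (c.2 - x.2) := by linarith
    linear_combination (x.1 - c.1) * f2 - (x.2 - c.2) * f1
  · unfold Col at *
    unfold dt at hpar
    simp only [Prod.fst_sub, Prod.snd_sub, hz0] at *
    linear_combination hz' - i * K' * hpar

/-- near parallel lines are harmless -/
theorem good_of_par {R : Finset Pt} {K : ℤ} {c u x β τ : Pt} (hβτ : β ≠ τ)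
    (hH : dt u (c - x) ≠ 0)
    (hpar : dt (τ - β) u = 0) (hdvd : dt u (c - x) ∣ K) (hoff : ∀ z, Col c x z → ¬ Col β τ z) :
    Good R (adv c u K) x β τ := by
  refine Or.inr ⟨?_, near_par_off hH hpar hdvd hoff⟩
  intro h0
  have e2 : dt (τ - β) (adv c u K - x) = K * dt (τ - β) u + dt (τ - β) (c - x) := by
    unfold dt adv; simp only [Prod.fst_sub, Prod.snd_sub]; ring
  rw [e2, hpar, mul_zero, zero_add] at h0
  exact hH (dt_par (sub_ne_zero.mpr (Ne.symm hβτ)) hpar h0)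

/-- all pairs of blue stones from the three kinds -/
theorem good_all {R NB : Finset Pt} {w x t t3 : Pt}
    (h1 : ∀ β ∈ NB, ∀ τ ∈ NB, β ≠ τ → Good R w x β τ)
    (h2 : ∀ β ∈ NB, Good R w x β t) (h3 : ∀ β ∈ NB, Good R w x β t3)
    (h4 : Good R w x t t3) :
    ∀ β ∈ insert t3 (insert t NB), ∀ τ ∈ insert t3 (insert t NB), β ≠ τ → Good R w x β τ := by
  intro β hβ τ hτ hne
  have hβ' : β = t3 ∨ β = t ∨ β ∈ NB := by simpa using hβ
  have hτ' : τ = t3 ∨ τ = t ∨ τ ∈ NB := by simpa using hτ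
  rcases hβ' with b | b | b <;> rcases hτ' with c | c | c
  · exact absurd (b.trans c.symm) hne
  · rw [b, c]; exact h4.symm
  · rw [b]; exact (h3 τ c).symm
  · rw [b, c]; exact h4
  · exact absurd (b.trans c.symm) hne
  · rw [b]; exact (h2 τ c).symm
  · rw [c]; exact h3 β b
  · rw [c]; exact h2 β b
  · exact h1 β b τ c hne

/-- `two_connected` with good edges -/
theorem two_good {R B : Finset Pt} {x0 x1 x2 x3 w : Pt} (hN : NoThreat R B)
    (hL : ALine R B x0 x1) (h12 : ALine R B x1 x2) (h23 : ALine R B x2 x3)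
    (h012 : ¬ Col x0 x1 x2) (h123 : ¬ Col x1 x2 x3)
    (hg : ∀ β ∈ B, ∀ τ ∈ B, β ≠ τ → Good R x1 x0 β τ)
    (hg' : ∀ β ∈ B, ∀ τ ∈ B, β ≠ τ → Good R x1 x2 β τ)
    (hwR : w ∈ R) (hwB : w ∉ B) (hw : ¬ Col x0 x1 w) (hw2 : w ≠ x2) : Win R B := by
  refine two_connected hN hL (uncov_of_good hg).symm h12 h23 h012 h123
    (Or.inl (uncov_of_good hg')) hwR hwB hw hw2 ?_
  intro c _ p hp q hq hpq hP
  exact Or.inl (par_of_good hg p hp q hq hpq hP.swap_left)

/-- everything which is known after the answer `t3`: `NB` = near blue stones, `X` = near red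
stones of the star of `y`, `XG` = near red stones of the star of `g`, `XP` = pairs of near red
stones `x, x'` such that `y x` and `y x'` are not both covered by a line parallel to `x x'` -/
structure FinData (R NB : Finset Pt) (o uL uM um e g y t t3 : Pt) (X XG : Finset Pt)
    (XP : Finset (Pt × Pt)) : Prop where
  hNT : NoThreat R (insert t3 (insert t NB))
  hBR : ∀ β ∈ insert t3 (insert t NB), β ∉ R
  he : e ∈ R
  hg : g ∈ R
  hy : y ∈ R
  XR : ∀ x ∈ X, x ∈ R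
  GX : ∀ x ∈ XG, x ∈ X
  GM : ∀ x ∈ XG, dt uM (x - o) ≠ 0
  LM : ∀ z, dt uL (z - o) = 0 → dt uM (z - o) = 0 → z = o
  tt3 : t3 ≠ t
  yA : ∀ x ∈ X, ALine R (insert t3 (insert t NB)) y x
  eA : ∀ x ∈ X, dt uL (x - o) ≠ 0 → ALine R (insert t3 (insert t NB)) e x
  gA : ∀ x ∈ X, dt uM (x - o) ≠ 0 → ALine R (insert t3 (insert t NB)) g x
  ye : ∀ x ∈ X, ¬ Col y e x
  yg : ∀ x ∈ X, ¬ Col y g x
  eg : ∀ x ∈ X, ¬ Col e g x
  yx : ∀ x ∈ X, ∀ x' ∈ X, x' ≠ x → ¬ Col y x x'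
  gx : ∀ x ∈ X, ∀ x' ∈ X, dt uM (x - o) ≠ 0 → x' ≠ x → ¬ Col g x x'
  gy : ∀ x ∈ X, ∀ x' ∈ X, dt (g - x) (y - x') ≠ 0
  ex : ∀ x ∈ X, e ≠ x
  ey : e ≠ y
  gy1 : ∀ x ∈ X, ∀ β ∈ NB, ∀ τ ∈ NB, β ≠ τ → Good R y x β τ
  gy2 : ∀ x ∈ X, ∀ β ∈ NB, Good R y x β t
  gy3 : ∀ x ∈ X, ∀ β ∈ NB, Good R y x β t3
  gg1 : ∀ x ∈ XG, ∀ β ∈ NB, ∀ τ ∈ NB, β ≠ τ → Good R g x β τ
  gg2 : ∀ x ∈ XG, ∀ β ∈ NB, Good R g x β t
  gg3 : ∀ x ∈ XG, ∀ β ∈ NB, Good R g x β t3
  kap : ((∀ x ∈ XG, Good R g x t t3) ∧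
      (∀ β ∈ NB, ∀ τ ∈ NB, dt (τ - β) (t3 - t) = 0 → dt (τ - β) um = 0)) ∨
    ((∀ x ∈ X, dt (t3 - t) (y - x) ≠ 0) ∧
      (∀ x ∈ X, ∀ x' ∈ X, Good R y x t t3 ∨ Good R y x' t t3 ∨ dt (t3 - t) (x' - x) = 0))
  kap2 : ∀ p ∈ XP, dt (t3 - t) (p.2 - p.1) = 0 → Good R y p.1 t t3 ∨ Good R y p.2 t t3

namespace FinData

variable {R NB : Finset Pt} {o uL uM um e g y t t3 : Pt} {X XG : Finset Pt}
  {XP : Finset (Pt × Pt)}

/-- two uncovered edges at `g` -/
theorem winG (f : FinData R NB o uL uM um e g y t t3 X XG XP) {x x' : Pt} (hx : x ∈ XG)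
    (hx' : x' ∈ XG) (hne : x' ≠ x) (h1 : Good R g x t t3) (h2 : Good R g x' t t3) :
    Win R (insert t3 (insert t NB)) := by
  have hxX := f.GX x hx
  have hxX' := f.GX x' hx'
  refine two_good (x0 := x) (x1 := g) (x2 := x') (x3 := y) (w := e) f.hNT
    (f.gA x hxX (f.GM x hx)).symm (f.gA x' hxX' (f.GM x' hx')) (f.yA x' hxX').symm ?_ ?_
    (good_all (f.gg1 x hx) (f.gg2 x hx) (f.gg3 x hx) h1)
    (good_all (f.gg1 x' hx') (f.gg2 x' hx') (f.gg3 x' hx') h2)
    f.he (fun h => f.hBR _ h f.he) ?_ (f.ex x' hxX')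
  · exact fun hc => f.gx x hxX x' hxX' (f.GM x hx) hne hc.swap12
  · exact fun hc => f.yg x' hxX' hc.rot.rot
  · exact fun hc => f.eg x hxX hc.rot.swap12

/-- two uncovered edges at `y` -/
theorem winY (f : FinData R NB o uL uM um e g y t t3 X XG XP) {x x' : Pt} (hx : x ∈ X)
    (hx' : x' ∈ X) (hne : x' ≠ x) (h1 : Good R y x t t3) (h2 : Good R y x' t t3) :
    Win R (insert t3 (insert t NB)) := by
  have main : ∀ x ∈ X, ∀ x' ∈ X, x' ≠ x → x' ≠ o → Good R y x t t3 → Good R y x' t t3 →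
      Win R (insert t3 (insert t NB)) := by
    intro x hx x' hx' hne ho hg hg'
    have hz : ∃ z, ALine R (insert t3 (insert t NB)) x' z ∧ ¬ Col y x' z := by
      by_cases hLx : dt uL (x' - o) = 0
      · have hMx : dt uM (x' - o) ≠ 0 := fun hMx => ho (f.LM _ hLx hMx)
        exact ⟨g, (f.gA x' hx' hMx).symm, fun hc => f.yg x' hx' hc.swap23⟩
      · exact ⟨e, (f.eA x' hx' hLx).symm, fun hc => f.ye x' hx' hc.swap23⟩
    obtain ⟨z, hzA, hzc⟩ := hz
    refine two_good (x0 := x) (x1 := y) (x2 := x') (x3 := z) (w := e) f.hNT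
      (f.yA x hx).symm (f.yA x' hx') hzA ?_ hzc
      (good_all (f.gy1 x hx) (f.gy2 x hx) (f.gy3 x hx) hg)
      (good_all (f.gy1 x' hx') (f.gy2 x' hx') (f.gy3 x' hx') hg')
      f.he (fun h => f.hBR _ h f.he) ?_ (f.ex x' hx')
    · exact fun hc => f.yx x hx x' hx' hne hc.swap12
    · exact fun hc => f.ye x hx hc.rot
  by_cases ho : x' = o
  · exact main x' hx' x hx hne.symm (fun h => hne (ho.trans h.symm)) h2 h1
  · exact main x hx x' hx' hne ho h1 h2

/-- three covered edges of `y` are impossible (second regime) -/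
theorem three (f : FinData R NB o uL uM um e g y t t3 X XG XP)
    (hκ : ∀ x ∈ X, ∀ x' ∈ X, Good R y x t t3 ∨ Good R y x' t t3 ∨ dt (t3 - t) (x' - x) = 0)
    {x x' x'' : Pt} (hx : x ∈ X) (hx' : x' ∈ X) (hx'' : x'' ∈ X) (hnc : ¬ Col x x' x'') :
    Good R y x t t3 ∨ Good R y x' t t3 ∨ Good R y x'' t t3 := by
  rcases hκ x hx x' hx' with h | h | h
  · exact Or.inl h
  · exact Or.inr (Or.inl h)
  · rcases hκ x hx x'' hx'' with h' | h' | h'
    · exact Or.inl h'
    · exact Or.inr (Or.inr h')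
    · exfalso
      apply hnc
      rw [col_dt]
      exact dt_par (sub_ne_zero.mpr f.tt3) h h'

end FinData

/-- the last stage with four near reds in general position and two reds off `M` -/
theorem fin4 {R NB : Finset Pt} {o uL uM um e g y t t3 : Pt} {X XG : Finset Pt}
    {XP : Finset (Pt × Pt)}
    (f : FinData R NB o uL uM um e g y t t3 X XG XP) {x0 x1 x2 x3 xg xg' : Pt}
    (hx0 : x0 ∈ X) (hx1 : x1 ∈ X) (hx2 : x2 ∈ X) (hx3 : x3 ∈ X)
    (h012 : ¬ Col x0 x1 x2) (h013 : ¬ Col x0 x1 x3) (h023 : ¬ Col x0 x2 x3)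
    (h123 : ¬ Col x1 x2 x3) (hg : xg ∈ XG) (hg' : xg' ∈ XG) (hne : xg' ≠ xg) :
    Win R (insert t3 (insert t NB)) := by
  rcases f.kap with ⟨hκ, _⟩ | ⟨_, hκ⟩
  · exact f.winG hg hg' hne (hκ xg hg) (hκ xg' hg')
  · have n01 : x1 ≠ x0 := by rintro rfl; exact h012 (Col.refl_eq _ _)
    have n02 : x2 ≠ x0 := by rintro rfl; exact h012 (Col.refl_left _ _)
    have n03 : x3 ≠ x0 := by rintro rfl; exact h013 (Col.refl_left _ _)
    have n12 : x2 ≠ x1 := by rintro rfl; exact h012 (Col.refl_right _ _)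
    have n13 : x3 ≠ x1 := by rintro rfl; exact h013 (Col.refl_right _ _)
    have n23 : x3 ≠ x2 := by rintro rfl; exact h023 (Col.refl_right _ _)
    rcases f.three hκ hx0 hx1 hx2 h012 with g0 | g1 | g2
    · rcases f.three hκ hx1 hx2 hx3 h123 with g1 | g2 | g3
      · exact f.winY hx0 hx1 n01 g0 g1
      · exact f.winY hx0 hx2 n02 g0 g2
      · exact f.winY hx0 hx3 n03 g0 g3
    · rcases f.three hκ hx0 hx2 hx3 h023 with g0 | g2 | g3
      · exact f.winY hx0 hx1 n01 g0 g1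
      · exact f.winY hx1 hx2 n12 g1 g2
      · exact f.winY hx1 hx3 n13 g1 g3
    · rcases f.three hκ hx0 hx1 hx3 h013 with g0 | g1 | g3
      · exact f.winY hx0 hx2 n02 g0 g2
      · exact f.winY hx1 hx2 n12 g1 g2
      · exact f.winY hx2 hx3 n23 g2 g3

end Pool.Agent.K4L
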