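import Pool.Agent.K4L.LemB

/-!
# Lemma B: the last stage with three near reds
-/

namespace Pool.Agent.K4L

theorem NoThreat.alive_two {R B : Finset Pt} (h : NoThreat R B) {p q z : Pt} (hp : p ∈ B)
    (hq : q ∈ B) (hz : z ∈ B) (hpq : p ≠ q) (hpz : p ≠ z) (hqz : q ≠ z) (hc : Col p q z) :
    ∃ w ∈ R, Col p q w := h p hp q hq z hz hpq hpz hqz hc

/-- second regime with three reds: two uncovered edges at `y` -/
theorem finB {R NB : Finset Pt} {o uL uM um e g y t t3 : Pt} {X XG : Finset Pt}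
    {XP : Finset (Pt × Pt)}
    (f : FinData R NB o uL uM um e g y t t3 X XG XP) {x0 x1 x2 : Pt}
    (hx0 : x0 ∈ X) (hx1 : x1 ∈ X) (hx2 : x2 ∈ X)
    (h01 : x1 ≠ x0) (h02 : x2 ≠ x0) (h12 : x2 ≠ x1)
    (p01 : (x0, x1) ∈ XP) (p02 : (x0, x2) ∈ XP) (p12 : (x1, x2) ∈ XP)
    (hκ : ∀ x ∈ X, ∀ x' ∈ X, Good R y x t t3 ∨ Good R y x' t t3 ∨ dt (t3 - t) (x' - x) = 0) :
    Win R (insert t3 (insert t NB)) := by
  have key : ∀ x x' : Pt, x ∈ X → x' ∈ X → (x, x') ∈ XP → Good R y x t t3 ∨ Good R y x' t t3 := by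
    intro x x' hx hx' hp
    rcases hκ x hx x' hx' with h | h | h
    · exact Or.inl h
    · exact Or.inr h
    · exact f.kap2 _ hp h
  rcases key x0 x1 hx0 hx1 p01 with g | g
  · rcases key x1 x2 hx1 hx2 p12 with g' | g'
    · exact f.winY hx0 hx1 h01 g g'
    · exact f.winY hx0 hx2 h02 g g'
  · rcases key x0 x2 hx0 hx2 p02 with g' | g'
    · exact f.winY hx1 hx0 h01.symm g g'
    · exact f.winY hx1 hx2 h12 g g'

/-- first regime with one red off `M` -/
theorem finA {R NB : Finset Pt} {o uL uM um e g y t t3 : Pt} {X XG : Finset Pt}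
    {XP : Finset (Pt × Pt)}
    (f : FinData R NB o uL uM um e g y t t3 X XG XP) {x x' : Pt}
    (hx : x ∈ XG) (hx' : x' ∈ X) (hne : x' ≠ x)
    (hNP : ∀ β ∈ NB, ∀ τ ∈ NB, β ≠ τ → dt (τ - β) um = 0 → ∃ w ∈ R, Col β τ w)
    (hκ : Good R g x t t3)
    (hκ2 : ∀ β ∈ NB, ∀ τ ∈ NB, dt (τ - β) (t3 - t) = 0 → dt (τ - β) um = 0) :
    Win R (insert t3 (insert t NB)) := by
  have hxX := f.GX x hx
  obtain ⟨B, hB⟩ : ∃ B, B = insert t3 (insert t NB) := ⟨_, rfl⟩
  have hall : ∀ β ∈ B, ∀ τ ∈ B, β ≠ τ → Good R g x β τ := by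
    rw [hB]; exact good_all (f.gg1 x hx) (f.gg2 x hx) (f.gg3 x hx) hκ
  have gA : ALine R B g x := by rw [hB]; exact f.gA x hxX (f.GM x hx)
  have yA : ∀ z ∈ X, ALine R B y z := by rw [hB]; exact f.yA
  have hBR : ∀ β ∈ B, β ∉ R := by rw [hB]; exact f.hBR
  have hNT : NoThreat R B := by rw [hB]; exact f.hNT
  rw [← hB]
  -- all pairs but `t, t3` are good for the edges of `y`
  have good1 : ∀ z ∈ X, ∀ β ∈ B, ∀ τ ∈ B, β ≠ τ → ¬ ((β = t ∧ τ = t3) ∨ (β = t3 ∧ τ = t)) →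
      Good R y z β τ := by
    intro z hz β hβ τ hτ hne' hcon
    have hβ' : β = t3 ∨ β = t ∨ β ∈ NB := by rw [hB] at hβ; simpa using hβ
    have hτ' : τ = t3 ∨ τ = t ∨ τ ∈ NB := by rw [hB] at hτ; simpa using hτ
    rcases hβ' with b | b | b <;> rcases hτ' with c | c | c
    · exact absurd (b.trans c.symm) hne'
    · exact absurd (Or.inr ⟨b, c⟩) hcon
    · rw [b]; exact (f.gy3 z hz τ c).symm
    · exact absurd (Or.inl ⟨b, c⟩) hcon
    · exact absurd (b.trans c.symm) hne'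
    · rw [b]; exact (f.gy2 z hz τ c).symm
    · rw [c]; exact f.gy3 z hz β b
    · rw [c]; exact f.gy2 z hz β b
    · exact f.gy1 z hz β b τ c hne'
  have hUL : Uncov R B g x := uncov_of_good hall
  have hxy : ¬ Col g x y := fun hc => f.yg x hxX hc.rot.rot
  have hyx : ∀ z ∈ X, ∀ z' ∈ X, z' ≠ z → ¬ Col z y z' := fun z hz z' hz' h hc =>
    f.yx z hz z' hz' h hc.swap12
  have ewB : e ∉ B := fun h => hBR _ h f.he
  have hew : ¬ Col g x e := fun hc => f.eg x hxX hc.rot.rot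
  have hpar : ∀ c, c = e ∨ c = y → ∀ p ∈ B, ∀ q ∈ B, p ≠ q → Par g x p q →
      (∃ z ∈ R, Col p q z) ∨
      ∀ᶠ m : ℕ in Filter.atTop, ∀ z, Col p q z → ¬ Col c (farP g x y x' m) z := by
    intro c _ p hp q hq hpq hP
    exact Or.inl (par_of_good hall p hp q hq hpq hP)
  -- uncovered edges of `y`, when the line `t t3` does not hit them
  have unc : ∀ z ∈ X, (∀ w, Col y z w → Col t t3 w → w ∈ R ∨ ∃ v ∈ R, Col t t3 v) →
      Uncov R B y z := by
    intro z hz hno w hw hwR _ p hp q hq hpq hc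
    by_cases hcon : (p = t ∧ q = t3) ∨ (p = t3 ∧ q = t)
    · have hc' : Col t t3 w := by
        rcases hcon with ⟨h1, h2⟩ | ⟨h1, h2⟩
        · rw [h1, h2] at hc; exact hc
        · rw [h1, h2] at hc; exact hc.swap12
      rcases hno w hw hc' with h | ⟨v, hv, hcv⟩
      · exact absurd h hwR
      · refine ⟨v, hv, ?_⟩
        rcases hcon with ⟨h1, h2⟩ | ⟨h1, h2⟩
        · rw [h1, h2]; exact hcv
        · rw [h1, h2]; exact hcv.swap12
    · rcases good1 z hz p hp q hq hpq hcon with h | ⟨_, h⟩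
      · exact h
      · exact absurd hc (h w hw)
  by_cases h1 : ∀ w, Col y x w → Col t t3 w → w ∈ R ∨ ∃ v ∈ R, Col t t3 v
  · -- the edge `x y` is uncovered
    exact two_connected (x0 := g) (x1 := x) (x2 := y) (x3 := x') (w := e) hNT gA hUL
      (yA x hxX).symm (yA x' hx') hxy (hyx x hxX x' hx' hne) (Or.inl (unc x hxX h1).symm)
      f.he ewB hew f.ey hpar
  by_cases h2 : ∀ w, Col y x' w → Col t t3 w → w ∈ R ∨ ∃ v ∈ R, Col t t3 v
  · -- the edge `y x'` is uncovered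
    refine two_connected (x0 := g) (x1 := x) (x2 := y) (x3 := x') (w := e) hNT gA hUL
      (yA x hxX).symm (yA x' hx') hxy (hyx x hxX x' hx' hne) (Or.inr ⟨unc x' hx' h2, ?_⟩)
      f.he ewB hew f.ey hpar
    intro hP
    apply f.gy x hxX x' hx'
    unfold Par at hP
    unfold dt
    simp only [Prod.fst_sub, Prod.snd_sub]
    linarith
  -- both edges are hit by `t t3`
  push Not at h1 h2
  obtain ⟨z0, hz1, hz2, hz3, hal⟩ := h1
  obtain ⟨z1, hz4, hz5, _, _⟩ := h2
  have htt : t ≠ t3 := f.tt3.symm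
  have htB : t ∈ B := by rw [hB]; simp
  have ht3B : t3 ∈ B := by rw [hB]; simp
  have hparG : ∀ β ∈ B, ∀ β' ∈ B, β ≠ β' → Par x g β β' → ∃ w ∈ R, Col β β' w := by
    intro β hβ β' hβ' hne' hP
    exact par_of_good hall β hβ β' hβ' hne' hP.swap_left
  have hxg : ¬ Col x g y := fun hc => hxy hc.swap12
  -- `t t3` is parallel neither to `x g` nor to `y x'`
  have hLm : ¬ Par x g t t3 := by
    intro hP
    obtain ⟨w, hw, hcw⟩ := hparG t htB t3 ht3B htt hP
    exact hal w hw hcw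
  have noCol : ∀ u v z : Pt, u ∈ R → u ≠ v → Col u v z → Col t t3 z → ¬ Par u v t t3 := by
    intro u v z hu huv hz hz' hP
    -- then the lines coincide and `u` is on `t t3`
    apply hal u hu
    have a1 := hz
    have a2 := hz'
    unfold Par at hP
    unfold Col at a1 a2 ⊢
    rcases sub_ne_of_ne huv with h | h
    · apply mul_left_cancel₀ h
      linear_combination (v.1 - u.1) * a2 - (t3.1 - t.1) * a1 + (z.1 - u.1) * hP
    · apply mul_left_cancel₀ h
      linear_combination (v.2 - u.2) * a2 - (t3.2 - t.2) * a1 + (z.2 - u.2) * hP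
  refine lemB (o := x) (a := g) (b := y) (v0 := y) (r := x') (p := t) (q := t3) (Y := z0)
    (x0 := x) (x1 := g) (x2 := y) (x3 := x') hNT hBR gA.symm hUL.symm (yA x hxX).symm
    (yA x' hx') (Col.refl_right _ _) htt hz1.swap12 hz2 hz3 hal ?_ hxg ?_ ?_ hLm ?_
    gA.2.1 gA.1 f.hy (yA x' hx').2.1 hxg ?_ ?_ ?_ ?_ ?_ ?_
  · intro z hz hzR β hβ β' hβ' hne' hc
    by_cases hcon : (β = t ∧ β' = t3) ∨ (β = t3 ∧ β' = t)
    · right
      rcases hcon with ⟨h1, h2⟩ | ⟨h1, h2⟩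
      · rw [h1, h2]; exact ⟨Col.refl_left _ _, Col.refl_right _ _⟩
      · rw [h1, h2]; exact ⟨Col.refl_right _ _, Col.refl_left _ _⟩
    · left
      rcases good1 x hxX β hβ β' hβ' hne' hcon with h | ⟨_, h⟩
      · exact h
      · exact absurd hc (h z hz.swap12)
  · -- `x g` not parallel to `y x'`
    intro hP
    apply f.gy x hxX x' hx'
    unfold Par at hP
    unfold dt
    simp only [Prod.fst_sub, Prod.snd_sub]
    linarith
  · exact hyx x hxX x' hx' hne
  · exact noCol y x' z1 f.hy (yA x' hx').ne hz4 hz5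
  · exact fun hc => f.gx x hxX x' hx' (f.GM x hx) hne hc.swap12
  · exact hyx x hxX x' hx' hne
  · exact fun hc => f.yg x' hx' hc.swap12
  · -- parallels to `x g`
    intro β hβ β' hβ' hne' hP
    exact Or.inl (hparG β hβ β' hβ' hne' hP)
  · -- parallels to `x y`
    intro β hβ β' hβ' hne' hP
    by_cases hcon : (β = t ∧ β' = t3) ∨ (β = t3 ∧ β' = t)
    · exfalso
      refine noCol x y z0 gA.2.1 (yA x hxX).ne.symm hz1.swap12 hz2 ?_
      rcases hcon with ⟨h1, h2⟩ | ⟨h1, h2⟩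
      · rw [h1, h2] at hP; exact hP
      · rw [h1, h2] at hP; exact hP.symm_right
    · left
      rcases good1 x hxX β hβ β' hβ' hne' hcon with h | ⟨h, _⟩
      · exact h
      · exfalso; apply h
        unfold Par at hP
        unfold dt
        simp only [Prod.fst_sub, Prod.snd_sub]
        linarith
  · -- parallels to `t t3`
    intro β hβ β' hβ' hne' hP
    have hβ'' : β = t3 ∨ β = t ∨ β ∈ NB := by rw [hB] at hβ; simpa using hβ
    have hτ'' : β' = t3 ∨ β' = t ∨ β' ∈ NB := by rw [hB] at hβ'; simpa using hβ'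
    have onP : ∀ {u v : Pt}, u ≠ v → Par t t3 u v → Col t t3 v → Col t t3 u := by
      intro u v huv hP hc
      unfold Par at hP
      unfold Col at hc ⊢
      linear_combination hc - hP
    rcases hβ'' with h | h | h
    · exact Or.inr (Or.inl (h ▸ Col.refl_right _ _))
    · exact Or.inr (Or.inl (h ▸ Col.refl_left _ _))
    · rcases hτ'' with h' | h' | h'
      · exact Or.inr (Or.inl (onP hne' hP (h' ▸ Col.refl_right _ _)))
      · exact Or.inr (Or.inl (onP hne' hP (h' ▸ Col.refl_left _ _)))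
      · left
        refine hNP β h β' h' hne' (hκ2 β h β' h' ?_)
        unfold Par at hP
        unfold dt
        simp only [Prod.fst_sub, Prod.snd_sub]
        linarith

/-- the last stage with three near reds, one of them off `M` -/
theorem fin3 {R NB : Finset Pt} {o uL uM um e g y t t3 : Pt} {X XG : Finset Pt}
    {XP : Finset (Pt × Pt)}
    (f : FinData R NB o uL uM um e g y t t3 X XG XP) {x0 x1 x2 x : Pt}
    (hx0 : x0 ∈ X) (hx1 : x1 ∈ X) (hx2 : x2 ∈ X)
    (h01 : x1 ≠ x0) (h02 : x2 ≠ x0) (h12 : x2 ≠ x1)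
    (p01 : (x0, x1) ∈ XP) (p02 : (x0, x2) ∈ XP) (p12 : (x1, x2) ∈ XP) (hx : x ∈ XG)
    (hNP : ∀ β ∈ NB, ∀ τ ∈ NB, β ≠ τ → dt (τ - β) um = 0 → ∃ w ∈ R, Col β τ w) :
    Win R (insert t3 (insert t NB)) := by
  rcases f.kap with ⟨hκ, hκ2⟩ | ⟨_, hκ⟩
  · by_cases h : x = x0
    · exact finA f hx hx1 (h ▸ h01) hNP (hκ x hx) hκ2
    · exact finA f hx hx0 (Ne.symm h) hNP (hκ x hx) hκ2
  · exact finB f hx0 hx1 hx2 h01 h02 h12 p01 p02 p12 hκ

end Pool.Agent.K4L
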