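import Pool.Agent.K4L.LemBStar

/-!
# Lemma B: the line through the two far blue stones
-/

namespace Pool.Agent.K4L

/-- `m` is the max-norm of `v` -/
def Nm (m : ℤ) (v : Pt) : Prop := (|v.1| ≤ m ∧ |v.2| ≤ m) ∧ (m = |v.1| ∨ m = |v.2|)

theorem exists_nm (v : Pt) : ∃ m, Nm m v := by
  rcases le_total |v.1| |v.2| with h | h
  · exact ⟨|v.2|, ⟨h, le_rfl⟩, Or.inr rfl⟩
  · exact ⟨|v.1|, ⟨le_rfl, h⟩, Or.inl rfl⟩

/-- near edges of `g` when the line `t t3` is nearly parallel to `um` -/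
theorem kappaA {n T G m : ℤ} {o uL uM um x t3 : Pt} (hn : 1 ≤ n)
    (h1 : Nv n (o - x)) (hL : Nv n uL) (hM : Nv n uM) (hm : Nv n um)
    (hMm : dt uM um ≠ 0) (hkm : Nm m (t3 - adv o uL T)) (hm1 : 1 ≤ m)
    (hΩ : 2 * n * |dt (t3 - adv o uL T) um| ≤ m)
    (hG : 8 * n ^ 4 * (1 + |T|) + 4 * n ^ 2 < |G|) :
    |dt uM (adv o uM G - x) * dt (t3 - adv o uL T) (x - adv o uL T)| <
      |dt (t3 - adv o uL T) (adv o uM G - x)| := by
  set kap := t3 - adv o uL T with hkap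
  have e1 : dt uM (adv o uM G - x) = dt uM (o - x) := by
    unfold dt adv; simp only [Prod.fst_sub, Prod.snd_sub]; ring
  have e2 : dt kap (x - adv o uL T) = -(dt kap (o - x)) + (-T) * dt kap uL := by
    unfold dt adv; simp only [Prod.fst_sub, Prod.snd_sub]; ring
  have e3 : dt kap (adv o uM G - x) = G * dt kap uM + dt kap (o - x) := by
    unfold dt adv; simp only [Prod.fst_sub, Prod.snd_sub]; ring
  rw [e1, e2, e3, abs_mul]
  -- the determinant with `uM` is big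
  have f1 : dt uM um * kap.1 = dt kap um * uM.1 + (-(dt kap uM)) * um.1 := by unfold dt; ring
  have f2 : dt uM um * kap.2 = dt kap um * uM.2 + (-(dt kap uM)) * um.2 := by unfold dt; ring
  have hζ := Int.one_le_abs hMm
  have g1 : ∀ c d u v : ℤ, |d| ≤ n → |v| ≤ n → dt uM um * c = dt kap um * d + (-(dt kap uM)) * v →
      |c| ≤ n * (|dt kap um| + |dt kap uM|) := by
    intro c d u v hd hv he
    have i1 : |dt uM um| * |c| ≤ |dt kap um| * |d| + |dt kap uM| * |v| := by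
      rw [← abs_mul, he]
      have := abs_add_le (dt kap um * d) (-(dt kap uM) * v)
      rw [abs_mul, abs_mul, abs_neg] at this
      exact this
    have i2 : |dt kap um| * |d| ≤ |dt kap um| * n := mul_le_mul_of_nonneg_left hd (abs_nonneg _)
    have i3 : |dt kap uM| * |v| ≤ |dt kap uM| * n := mul_le_mul_of_nonneg_left hv (abs_nonneg _)
    have i4 : |c| ≤ |dt uM um| * |c| := le_mul_of_one_le_left (abs_nonneg c) hζ
    linarith
  have g2 : m ≤ n * (|dt kap um| + |dt kap uM|) := by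
    rcases hkm.2 with h | h
    · rw [h]; exact g1 kap.1 uM.1 0 um.1 hM.1 hm.1 f1
    · rw [h]; exact g1 kap.2 uM.2 0 um.2 hM.2 hm.2 f2
  have g3 : m ≤ 2 * n * |dt kap uM| := by nlinarith
  have a1 : |dt uM (o - x)| ≤ 2 * n ^ 2 := hM.dt h1
  have a2 : |dt kap (o - x)| ≤ 2 * n * m := dt_le hkm.1 h1
  have a3 : |dt kap uL| ≤ 2 * n * m := dt_le hkm.1 hL
  have a4 := tri_lo2 (G * dt kap uM) (dt kap (o - x))
  rw [abs_mul] at a4
  have a5 := abs_add_le (-(dt kap (o - x))) ((-T) * dt kap uL)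
  rw [abs_mul, abs_neg, abs_neg] at a5
  have hTn := abs_nonneg T
  have hGn := abs_nonneg G
  have b1 : |T| * |dt kap uL| ≤ |T| * (2 * n * m) := mul_le_mul_of_nonneg_left a3 hTn
  have b2 : |dt uM (o - x)| * |-(dt kap (o - x)) + (-T) * dt kap uL| ≤
      (2 * n ^ 2) * (2 * n * m * (1 + |T|)) :=
    mul_le_mul a1 (by linarith) (abs_nonneg _) (by positivity)
  have b3 : |G| * m ≤ |G| * (2 * n * |dt kap uM|) := mul_le_mul_of_nonneg_left g3 hGn
  have b4 : (8 * n ^ 4 * (1 + |T|) + 4 * n ^ 2) * m < |G| * m :=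
    mul_lt_mul_of_pos_right hG (by linarith)
  have b5 : 2 * n * ((2 * n ^ 2) * (2 * n * m * (1 + |T|))) <
      2 * n * (|G| * |dt kap uM| - |dt kap (o - x)|) := by
    have j1 : 2 * n * |dt kap (o - x)| ≤ 2 * n * (2 * n * m) :=
      mul_le_mul_of_nonneg_left a2 (by linarith)
    have j2 : 2 * n * ((2 * n ^ 2) * (2 * n * m * (1 + |T|))) =
      (8 * n ^ 4 * (1 + |T|)) * m := by ring
    have j3 : 2 * n * (2 * n * m) = 4 * n ^ 2 * m := by ring
    have j4 : 2 * n * (|G| * |dt kap uM| - |dt kap (o - x)|) =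
      |G| * (2 * n * |dt kap uM|) - 2 * n * |dt kap (o - x)| := by ring
    rw [j2, j4]
    linarith
  have b6 := lt_of_mul_lt_mul_left b5 (by linarith)
  linarith

/-- near edges of `y` when the line `t t3` is not nearly parallel to `um` -/
theorem kappaB_ne {n K m : ℤ} {um Y x kap : Pt} (hn : 1 ≤ n)
    (h1 : Nv n (Y - x)) (hkm : Nm m kap) (hm1 : 1 ≤ m)
    (hΩ : m < 2 * n * |dt kap um|) (hK : 8 * n ^ 2 ≤ |K|) :
    |K| * m ≤ 4 * n * |dt kap (adv Y um K - x)| := by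
  have e3 : dt kap (adv Y um K - x) = K * dt kap um + dt kap (Y - x) := by
    unfold dt adv; simp only [Prod.fst_sub, Prod.snd_sub]; ring
  rw [e3]
  have a2 : |dt kap (Y - x)| ≤ 2 * n * m := dt_le hkm.1 h1
  have a4 := tri_lo2 (K * dt kap um) (dt kap (Y - x))
  rw [abs_mul] at a4
  have hKn := abs_nonneg K
  have b3 : |K| * m ≤ |K| * (2 * n * |dt kap um|) := mul_le_mul_of_nonneg_left hΩ.le hKn
  have b4 : 8 * n ^ 2 * m ≤ |K| * m := mul_le_mul_of_nonneg_right hK (by linarith)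
  have b5 : 4 * n * |dt kap (Y - x)| ≤ 4 * n * (2 * n * m) :=
    mul_le_mul_of_nonneg_left a2 (by linarith)
  have b6 : 4 * n * (|K| * |dt kap um| - |dt kap (Y - x)|) ≤
      4 * n * |K * dt kap um + dt kap (Y - x)| := mul_le_mul_of_nonneg_left a4 (by linarith)
  have b7 : 4 * n * (|K| * |dt kap um| - |dt kap (Y - x)|) =
      2 * (|K| * (2 * n * |dt kap um|)) - 4 * n * |dt kap (Y - x)| := by ring
  have b8 : 4 * n * (2 * n * m) = 8 * n ^ 2 * m := by ring
  linarith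

theorem two_cov_num {N N' Hx Hx' Q Q' P δ : ℤ} (h1 : N * Q = Hx * P) (h2 : N' * Q' = Hx' * P)
    (h3 : Q - Q' = δ) (hP : P ≠ 0) (hHx : Hx ≠ 0) (hHx' : Hx' ≠ 0) (hδ : δ ≠ 0) :
    |Q| * |Q'| ≤ |Hx| * |Hx'| * |P| * |δ| := by
  have hN : N ≠ 0 := by
    rintro rfl
    rw [zero_mul] at h1
    exact (mul_ne_zero hHx hP) h1.symm
  have hN' : N' ≠ 0 := by
    rintro rfl
    rw [zero_mul] at h2
    exact (mul_ne_zero hHx' hP) h2.symm
  have key : P * (Hx * N' - Hx' * N) = N * N' * δ := by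
    rw [← h3]; linear_combination N * h2 - N' * h1
  have hne : Hx * N' - Hx' * N ≠ 0 := by
    intro h0
    rw [h0, mul_zero] at key
    exact (mul_ne_zero (mul_ne_zero hN hN') hδ) key.symm
  have k1 : |P| * |Hx * N' - Hx' * N| = |N| * |N'| * |δ| := by
    rw [← abs_mul, key, abs_mul, abs_mul]
  have k2 : |P| ≤ |N| * |N'| * |δ| := by
    rw [← k1]
    nlinarith [abs_nonneg P, Int.one_le_abs hne]
  have k3 : |N| * |Q| = |Hx| * |P| := by rw [← abs_mul, h1, abs_mul]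
  have k4 : |N'| * |Q'| = |Hx'| * |P| := by rw [← abs_mul, h2, abs_mul]
  have hP0 : 0 < |P| := abs_pos.mpr hP
  have k5 : |P| * (|Q| * |Q'|) ≤ |P| * (|Hx| * |Hx'| * |P| * |δ|) := by
    calc |P| * (|Q| * |Q'|) ≤ (|N| * |N'| * |δ|) * (|Q| * |Q'|) :=
          mul_le_mul_of_nonneg_right k2 (by positivity)
      _ = (|N| * |Q|) * (|N'| * |Q'|) * |δ| := by ring
      _ = (|Hx| * |P|) * (|Hx'| * |P|) * |δ| := by rw [k3, k4]
      _ = |P| * (|Hx| * |Hx'| * |P| * |δ|) := by ring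
  exact le_of_mul_le_mul_left k5 hP0

/-- two edges of `y` hit by the line `t t3` -/
theorem kappaB {n T E K k κy m S : ℤ} {o uL um Y s x x' z z' : Pt} (hn : 1 ≤ n)
    (hYo : Nv n (Y - o)) (hYx : Nv n (Y - x)) (hYx' : Nv n (Y - x')) (hxx' : Nv n (x' - x))
    (hL : Nv n uL) (hm : Nv n um)
    (hkm : Nm m (adv (adv o uL E) s k - adv o uL T)) (hm1 : 1 ≤ m)
    (hΩ : m < 2 * n * |dt (adv (adv o uL E) s k - adv o uL T) um|)
    (hK : 300000 * n ^ 14 ≤ |K|) (hTE : T ≠ E) (hTE2 : |T| ≤ 32 * n ^ 4 * |E|)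
    (hyy : adv Y um K = adv (adv o uL E) s κy) (hk0 : k ≠ 0) (hky : k ≠ κy)
    (hA : 400000 * n ^ 16 ≤ |dt s uL|) (hDA : |dt s um| ≤ 4 * n ^ 2 * |dt s uL|)
    (hS : |dt s (Y - o)| ≤ S) (hES : 2 * S ≤ |E|)
    (hHx : dt um (Y - x) ≠ 0) (hHx' : dt um (Y - x') ≠ 0)
    (hz : Col (adv Y um K) x z) (hzk : Col (adv o uL T) (adv (adv o uL E) s k) z)
    (hz' : Col (adv Y um K) x' z') (hzk' : Col (adv o uL T) (adv (adv o uL E) s k) z') :
    dt (adv (adv o uL E) s k - adv o uL T) (x' - x) = 0 := by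
  by_contra hδ
  set kap := adv (adv o uL E) s k - adv o uL T with hkap
  have hn2 : 1 ≤ n ^ 2 := one_le_pow₀ hn
  have hn12 : n ^ 2 ≤ n ^ 14 := pow_le_pow_right₀ hn (by norm_num)
  have hK8 : 8 * n ^ 2 ≤ |K| := by nlinarith
  have q1 := kappaB_ne hn hYx hkm hm1 hΩ hK8
  have q2 := kappaB_ne hn hYx' hkm hm1 hΩ hK8
  set Q := dt kap (adv Y um K - x) with hQ
  set Q' := dt kap (adv Y um K - x') with hQ'
  set P := dt kap (adv Y um K - adv o uL T) with hP
  have s1 := star_id um hz hzk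
  have s2 := star_id um hz' hzk'
  rw [← hkap] at s1 s2
  have u1 : dt um (adv Y um K - x) = dt um (Y - x) := by
    unfold dt adv; simp only [Prod.fst_sub, Prod.snd_sub]; ring
  have u2 : dt um (adv Y um K - x') = dt um (Y - x') := by
    unfold dt adv; simp only [Prod.fst_sub, Prod.snd_sub]; ring
  rw [u1] at s1
  rw [u2] at s2
  have v1 : dt kap (x - adv o uL T) = P - Q := by
    rw [hP, hQ]; unfold dt adv; simp only [Prod.fst_sub, Prod.snd_sub]; ring
  have v2 : dt kap (x' - adv o uL T) = P - Q' := by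
    rw [hP, hQ']; unfold dt adv; simp only [Prod.fst_sub, Prod.snd_sub]; ring
  rw [v1] at s1
  rw [v2] at s2
  have w1 : (dt um (Y - x) - dt um (z - x)) * Q = dt um (Y - x) * P := by
    linear_combination -s1
  have w2 : (dt um (Y - x') - dt um (z' - x')) * Q' = dt um (Y - x') * P := by
    linear_combination -s2
  have w3 : Q - Q' = dt kap (x' - x) := by
    rw [hQ, hQ']; unfold dt adv; simp only [Prod.fst_sub, Prod.snd_sub]; ring
  -- the value of `P`
  have hkapv : kap = ((E - T) * uL.1 + k * s.1, (E - T) * uL.2 + k * s.2) := by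
    rw [hkap]; unfold adv; ext <;> simp <;> ring
  have hPv : P = (E - T) * ((k - κy) * dt s uL) := by
    rw [hP, hyy, hkapv]; unfold dt adv; simp only [Prod.fst_sub, Prod.snd_sub]; ring
  have hA0 : dt s uL ≠ 0 := by
    intro h0
    rw [h0, abs_zero] at hA
    have : 1 ≤ n ^ 16 := one_le_pow₀ hn
    linarith
  have hP0 : P ≠ 0 := by
    rw [hPv]
    exact mul_ne_zero (fun h => hTE (by linarith)) (mul_ne_zero (fun h => hky (by linarith)) hA0)
  have r1 := two_cov_num w1 w2 w3 hP0 hHx hHx' hδ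
  -- bounds
  have a1 : |dt um (Y - x)| ≤ 2 * n ^ 2 := hm.dt hYx
  have a2 : |dt um (Y - x')| ≤ 2 * n ^ 2 := hm.dt hYx'
  have a3 : |dt kap (x' - x)| ≤ 2 * n * m := dt_le hkm.1 hxx'
  have hkA : dt kap uL = k * dt s uL := by
    rw [hkapv]; unfold dt; ring
  have a4 : |k * dt s uL| ≤ 2 * n * m := by rw [← hkA]; exact dt_le hkm.1 hL
  have hκA : κy * dt s uL = dt (Y - o) uL + K * dt um uL := by
    have h1 := congrArg Prod.fst hyy
    have h2 := congrArg Prod.snd hyy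
    unfold adv at h1 h2
    simp only at h1 h2
    unfold dt
    simp only [Prod.fst_sub, Prod.snd_sub]
    linear_combination uL.1 * h2 - uL.2 * h1
  have hKn := abs_nonneg K
  have a5 : |κy * dt s uL| ≤ 2 * n ^ 2 * (1 + |K|) := by
    rw [hκA]
    have h1 := abs_add_le (dt (Y - o) uL) (K * dt um uL)
    rw [abs_mul] at h1
    have h2 : |dt (Y - o) uL| ≤ 2 * n ^ 2 := hYo.dt hL
    have h3 : |K| * |dt um uL| ≤ |K| * (2 * n ^ 2) :=
      mul_le_mul_of_nonneg_left (hm.dt hL) hKn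
    linarith
  have a6 : |(k - κy) * dt s uL| ≤ 2 * n * m + 2 * n ^ 2 * (1 + |K|) := by
    have h1 := abs_sub (k * dt s uL) (κy * dt s uL)
    have h2 : (k - κy) * dt s uL = k * dt s uL - κy * dt s uL := by ring
    rw [h2]
    linarith
  have hEA : K * dt s um + dt s (Y - o) = E * dt s uL := by
    have h1 := congrArg Prod.fst hyy
    have h2 := congrArg Prod.snd hyy
    unfold adv at h1 h2
    simp only at h1 h2
    unfold dt
    simp only [Prod.fst_sub, Prod.snd_sub]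
    linear_combination s.1 * h2 - s.2 * h1
  have hEn := abs_nonneg E
  have hA1 : 1 ≤ |dt s uL| := Int.one_le_abs hA0
  have a7 : |E| ≤ 8 * n ^ 2 * |K| := by
    have h1 : |E| * |dt s uL| ≤ |K| * |dt s um| + S := by
      rw [← abs_mul, ← hEA]
      have := abs_add_le (K * dt s um) (dt s (Y - o))
      rw [abs_mul] at this
      linarith
    have h2 : |K| * |dt s um| ≤ |K| * (4 * n ^ 2 * |dt s uL|) :=
      mul_le_mul_of_nonneg_left hDA hKn
    have h3 : 2 * S ≤ |E| * |dt s uL| := hES.trans (le_mul_of_one_le_right hEn hA1)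
    have h4 : |E| * |dt s uL| ≤ (8 * n ^ 2 * |K|) * |dt s uL| := by
      have h5 : |K| * (4 * n ^ 2 * |dt s uL|) = 4 * (n ^ 2 * |K| * |dt s uL|) := by ring
      have h6 : (8 * n ^ 2 * |K|) * |dt s uL| = 8 * (n ^ 2 * |K| * |dt s uL|) := by ring
      rw [h6]
      linarith
    exact le_of_mul_le_mul_right h4 (by linarith)
  have hn4 : 1 ≤ n ^ 4 := one_le_pow₀ hn
  have a8 : |E - T| ≤ 33 * n ^ 4 * (8 * n ^ 2 * |K|) := by
    have h1 := abs_sub E T
    have h2 : |E - T| ≤ 33 * n ^ 4 * |E| := by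
      have h5 : |E| ≤ n ^ 4 * |E| := le_mul_of_one_le_left hEn hn4
      linarith
    have h3 : 33 * n ^ 4 * |E| ≤ 33 * n ^ 4 * (8 * n ^ 2 * |K|) :=
      mul_le_mul_of_nonneg_left a7 (by positivity)
    linarith
  have hmn : 0 ≤ m := by linarith
  have a9 : |P| ≤ (33 * n ^ 4 * (8 * n ^ 2 * |K|)) * (2 * n * m + 2 * n ^ 2 * (1 + |K|)) := by
    rw [hPv, abs_mul]
    exact mul_le_mul a8 a6 (abs_nonneg _) (by positivity)
  have r2 : |Q| * |Q'| ≤ (2 * n ^ 2) * (2 * n ^ 2) * |P| * (2 * n * m) := by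
    have h1 : |dt um (Y - x)| * |dt um (Y - x')| ≤ (2 * n ^ 2) * (2 * n ^ 2) :=
      mul_le_mul a1 a2 (abs_nonneg _) (by positivity)
    have h2 : |dt um (Y - x)| * |dt um (Y - x')| * |P| ≤ (2 * n ^ 2) * (2 * n ^ 2) * |P| :=
      mul_le_mul_of_nonneg_right h1 (abs_nonneg _)
    have h3 : |dt um (Y - x)| * |dt um (Y - x')| * |P| * |dt kap (x' - x)| ≤
        (2 * n ^ 2) * (2 * n ^ 2) * |P| * (2 * n * m) :=
      mul_le_mul h2 a3 (abs_nonneg _) (by positivity)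
    linarith
  have r3 : (|K| * m) * (|K| * m) ≤ (4 * n * |Q|) * (4 * n * |Q'|) :=
    mul_le_mul q1 q2 (by positivity) (by positivity)
  have hK1 : 1 ≤ |K| := by
    have : 1 ≤ n ^ 14 := one_le_pow₀ hn
    linarith
  have r4 : (|K| * m) * (|K| * m) ≤
      (|K| * m) * (67584 * n ^ 14 * m + 67584 * n ^ 15 * (1 + |K|)) := by
    calc (|K| * m) * (|K| * m) ≤ (4 * n * |Q|) * (4 * n * |Q'|) := r3
      _ = 16 * n ^ 2 * (|Q| * |Q'|) := by ring
      _ ≤ 16 * n ^ 2 * ((2 * n ^ 2) * (2 * n ^ 2) * |P| * (2 * n * m)) :=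
          mul_le_mul_of_nonneg_left r2 (by positivity)
      _ = (128 * n ^ 7 * m) * |P| := by ring
      _ ≤ (128 * n ^ 7 * m) *
          ((33 * n ^ 4 * (8 * n ^ 2 * |K|)) * (2 * n * m + 2 * n ^ 2 * (1 + |K|))) :=
          mul_le_mul_of_nonneg_left a9 (by positivity)
      _ = (|K| * m) * (67584 * n ^ 14 * m + 67584 * n ^ 15 * (1 + |K|)) := by ring
  have hKm : 0 < |K| * m := by positivity
  have r5 : |K| * m ≤ 67584 * n ^ 14 * m + 67584 * n ^ 15 * (1 + |K|) :=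
    le_of_mul_le_mul_left r4 hKm
  have r6 : 300000 * n ^ 14 * m ≤ |K| * m := mul_le_mul_of_nonneg_right hK hmn
  have hn14 : 1 ≤ n ^ 14 := one_le_pow₀ hn
  have hn15 : 1 ≤ n ^ 15 := one_le_pow₀ hn
  have r7 : 67584 * n ^ 15 * (1 + |K|) ≤ 135168 * n ^ 15 * |K| := by
    have h5 : n ^ 15 ≤ n ^ 15 * |K| := le_mul_of_one_le_right (by positivity) hK1
    linarith
  have r8 : |K| * (3 * m) ≤ |K| * (4 * 135168 * n ^ 15) := by
    linarith
  have r9 : 3 * m ≤ 4 * 135168 * n ^ 15 := le_of_mul_le_mul_left r8 (by linarith)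
  have r10 : |dt s uL| ≤ 2 * n * m := by
    have h1 : |k| * |dt s uL| ≤ 2 * n * m := by rw [← abs_mul]; exact a4
    exact (le_mul_of_one_le_left (abs_nonneg _) (Int.one_le_abs hk0)).trans h1
  have r11 : 3 * |dt s uL| ≤ 2 * n * (4 * 135168 * n ^ 15) := by
    have : 2 * n * (3 * m) ≤ 2 * n * (4 * 135168 * n ^ 15) :=
      mul_le_mul_of_nonneg_left r9 (by linarith)
    linarith
  have r12 : 2 * n * (4 * 135168 * n ^ 15) = 1081344 * n ^ 16 := by ring
  have hn16 : 1 ≤ n ^ 16 := one_le_pow₀ hn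
  linarith

end Pool.Agent.K4L
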