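import Pool.Agent.K4L.LemBDef

/-!
# Lemma B: numeric lemmas
-/

namespace Pool.Agent.K4L

theorem tri_lo (a b c : ℤ) : |b| - |a| - |c| ≤ |a + b + c| := by
  have h1 : b = (a + b + c) + (-a) + (-c) := by ring
  have h2 : |b| ≤ |a + b + c| + |a| + |c| := by
    calc |b| = |(a + b + c) + (-a) + (-c)| := by rw [← h1]
      _ ≤ |(a + b + c) + (-a)| + |-c| := abs_add_le _ _
      _ ≤ |a + b + c| + |-a| + |-c| := by
          have := abs_add_le (a + b + c) (-a)
          linarith
      _ = |a + b + c| + |a| + |c| := by rw [abs_neg, abs_neg]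
  linarith

theorem tri_lo2 (a b : ℤ) : |a| - |b| ≤ |a + b| := by
  have := tri_lo 0 a b
  simp only [abs_zero, sub_zero, zero_add] at this
  exact this

/-- the range lemma -/
theorem range_num (T E hx hb c i H : ℤ) (hH : 1 ≤ H) (h1 : 1 ≤ |hx|) (h2 : |hx| ≤ H)
    (h3 : 1 ≤ |hb|) (h4 : |hb| ≤ H) (h5 : |c| ≤ H) (hE : 8 * H ^ 2 ≤ |E|)
    (hT : 8 * H ^ 2 * |T| < |E| ∨ 8 * H ^ 2 * |E| < |T|) :
    (-T * hx + E * hb + c ≠ 0) ∧
      (i * (-T * hx + E * hb + c) = hx * (T * (hx - hb) - c) → i = 0) := by
  have hTn := abs_nonneg T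
  have hEn := abs_nonneg E
  have hH2 : H ≤ H ^ 2 := by nlinarith
  have hD : |hx - hb| ≤ 2 * H := by
    have := abs_sub hx hb
    linarith
  rcases hT with hT | hT
  · -- small `T`
    have a1 : |T * hx| ≤ |T| * H := by
      rw [abs_mul]; exact mul_le_mul_of_nonneg_left h2 hTn
    have a2 : |E| ≤ |E * hb| := by
      rw [abs_mul]; nlinarith
    have a3 := tri_lo (-T * hx) (E * hb) c
    have a3' : |-T * hx| = |T * hx| := by rw [neg_mul, abs_neg]
    rw [a3'] at a3
    have a4 : 8 * (|T| * H) < |E| := by nlinarith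
    have a5 : 6 * |E| ≤ 8 * |-T * hx + E * hb + c| := by nlinarith
    have hE0 : 0 < |E| := by nlinarith
    refine ⟨?_, ?_⟩
    · intro h0
      rw [h0, abs_zero] at a5
      linarith
    · intro h0
      by_contra hi
      have hi1 : 1 ≤ |i| := Int.one_le_abs hi
      have b1 : |i| * |-T * hx + E * hb + c| = |hx| * |T * (hx - hb) - c| := by
        rw [← abs_mul, ← abs_mul, h0]
      have b2 : |T * (hx - hb) - c| ≤ |T| * (2 * H) + H := by
        have e1 := abs_sub (T * (hx - hb)) c
        rw [abs_mul] at e1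
        have e2 : |T| * |hx - hb| ≤ |T| * (2 * H) := mul_le_mul_of_nonneg_left hD hTn
        linarith
      have b3 : |hx| * |T * (hx - hb) - c| ≤ H * (|T| * (2 * H) + H) :=
        mul_le_mul h2 b2 (abs_nonneg _) (by linarith)
      have b4 : |-T * hx + E * hb + c| ≤ |i| * |-T * hx + E * hb + c| := by
        nlinarith [abs_nonneg (-T * hx + E * hb + c)]
      nlinarith
  · -- large `T`
    have a1 : |E * hb| ≤ |E| * H := by
      rw [abs_mul]; exact mul_le_mul_of_nonneg_left h4 hEn
    have hE0 : 1 ≤ |E| := by nlinarith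
    have a6 : |E * hb + c| ≤ |E| * H + H := by
      have := abs_add_le (E * hb) c
      linarith
    have a7 : |E * hb + c| ≤ 2 * H * |E| := by nlinarith
    refine ⟨?_, ?_⟩
    · intro h0
      have e1 : T * hx = E * hb + c := by linarith
      have e2 : |T| * |hx| ≤ 2 * H * |E| := by rw [← abs_mul, e1]; exact a7
      nlinarith
    · intro h0
      by_contra hi
      have hi1 : 1 ≤ |i| := Int.one_le_abs hi
      -- `j = i + hx - hb`
      obtain ⟨j, hj⟩ : ∃ j, j = i + hx - hb := ⟨_, rfl⟩
      have key : T * hx * j = j * (E * hb + c) + hb * ((hb - hx) * E + c) := by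
        rw [hj]; linear_combination -h0
      by_cases hj0 : j = 0
      · rw [hj0] at key
        have hb0 : hb ≠ 0 := by rintro rfl; simp at h3
        have e1 : (hb - hx) * E + c = 0 := by
          have : hb * ((hb - hx) * E + c) = 0 := by linarith
          exact (mul_eq_zero.mp this).resolve_left hb0
        have e2 : |hb - hx| * |E| = |c| := by
          rw [← abs_mul]
          have : (hb - hx) * E = -c := by linarith
          rw [this, abs_neg]
        have e3 : hb - hx = 0 := by
          by_contra h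
          have := Int.one_le_abs h
          nlinarith
        apply hi
        linarith
      · have hj1 : 1 ≤ |j| := Int.one_le_abs hj0
        have c1 : |T| * |hx| * |j| ≤ |j| * (2 * H * |E|) + H * (2 * H * |E| + H) := by
          have e0 : |T| * |hx| * |j| = |j * (E * hb + c) + hb * ((hb - hx) * E + c)| := by
            rw [← abs_mul, ← abs_mul, key]
          have e1 := abs_add_le (j * (E * hb + c)) (hb * ((hb - hx) * E + c))
          have e2 : |j * (E * hb + c)| ≤ |j| * (2 * H * |E|) := by
            rw [abs_mul]; exact mul_le_mul_of_nonneg_left a7 (abs_nonneg _)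
          have e3 : |(hb - hx) * E + c| ≤ 2 * H * |E| + H := by
            have f1 := abs_add_le ((hb - hx) * E) c
            rw [abs_mul] at f1
            have f2 : |hb - hx| ≤ 2 * H := by rw [abs_sub_comm]; exact hD
            have f3 : |hb - hx| * |E| ≤ 2 * H * |E| := mul_le_mul_of_nonneg_right f2 hEn
            linarith
          have e4 : |hb * ((hb - hx) * E + c)| ≤ H * (2 * H * |E| + H) := by
            rw [abs_mul]; exact mul_le_mul h4 e3 (abs_nonneg _) (by linarith)
          linarith
        have c2 : |T| * |j| ≤ |T| * |hx| * |j| := by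
          have : |T| ≤ |T| * |hx| := by nlinarith
          exact mul_le_mul_of_nonneg_right this (abs_nonneg _)
        have c3 : H * (2 * H * |E| + H) ≤ |j| * (H * (2 * H * |E| + H)) := by
          have : 0 ≤ H * (2 * H * |E| + H) := by positivity
          nlinarith
        have c4 : |j| * |T| ≤ |j| * (2 * H * |E| + H * (2 * H * |E| + H)) := by nlinarith
        have c5 : |T| ≤ 2 * H * |E| + H * (2 * H * |E| + H) :=
          le_of_mul_le_mul_left c4 (by linarith)
        nlinarith

/-- the line `t β` hits at most one transversal -/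
theorem hit_num (T E h A A' b b' k k' H S K1 : ℤ) (hH : 1 ≤ H) (hS : 0 ≤ S) (hK : 1 ≤ K1)
    (h1 : h ≠ 0) (h2 : |h| ≤ H) (hTE : T ≠ E) (hA : 1 ≤ |A|) (hA' : 1 ≤ |A'|)
    (hb : |b| ≤ S) (hb' : |b'| ≤ S) (hET : |E| ≤ K1 * |T|)
    (hT : 8 * (K1 + 1) * H * (S + 1) < |T|)
    (e1 : k * (T * A - b) = -(T - E) * h) (e2 : k' * (T * A' - b') = -(T - E) * h) :
    A * b' = A' * b := by
  have hTn := abs_nonneg T
  have hKH : 1 ≤ (K1 + 1) * H := by nlinarith
  have hTS : 2 * S ≤ |T| := by
    have : 8 * (K1 + 1) * H * (S + 1) = 8 * ((K1 + 1) * H) * (S + 1) := by ring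
    nlinarith
  have hTEle : |-(T - E) * h| ≤ (K1 + 1) * |T| * H := by
    rw [abs_mul, abs_neg]
    have : |T - E| ≤ (K1 + 1) * |T| := by
      have := abs_sub T E
      linarith
    exact mul_le_mul this h2 (abs_nonneg _) (by positivity)
  have hk : ∀ k A b : ℤ, 1 ≤ |A| → |b| ≤ S → k * (T * A - b) = -(T - E) * h →
      |k| ≤ 2 * (K1 + 1) * H := by
    intro k A b hA hb e
    have c1 : |T| ≤ 2 * |T * A - b| := by
      have f1 := tri_lo2 (T * A) (-b)
      rw [abs_neg, abs_mul, ← sub_eq_add_neg] at f1
      nlinarith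
    have c2 : |k| * |T * A - b| ≤ (K1 + 1) * |T| * H := by
      rw [← abs_mul, e]; exact hTEle
    have c3 : |k| * |T| ≤ (2 * (K1 + 1) * H) * |T| := by
      nlinarith [mul_le_mul_of_nonneg_left c1 (abs_nonneg k)]
    have hT0 : 0 < |T| := by
      have : 0 < 8 * (K1 + 1) * H * (S + 1) := by positivity
      linarith
    exact le_of_mul_le_mul_right c3 hT0
  have k1 := hk k A b hA hb e1
  have k2 := hk k' A' b' hA' hb' e2
  have key : T * (k * A - k' * A') = k * b - k' * b' := by linarith
  have hle : |k * b - k' * b'| ≤ 4 * (K1 + 1) * H * S := by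
    have f1 := abs_sub (k * b) (k' * b')
    rw [abs_mul, abs_mul] at f1
    have f2 : |k| * |b| ≤ 2 * (K1 + 1) * H * S := mul_le_mul k1 hb (abs_nonneg _) (by positivity)
    have f3 : |k'| * |b'| ≤ 2 * (K1 + 1) * H * S :=
      mul_le_mul k2 hb' (abs_nonneg _) (by positivity)
    linarith
  have hz : k * A - k' * A' = 0 := by
    by_contra hne
    have g1 := Int.one_le_abs hne
    have g2 : |T| * |k * A - k' * A'| = |k * b - k' * b'| := by rw [← abs_mul, key]
    have g3 : 0 ≤ (K1 + 1) * H * S := by positivity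
    nlinarith
  have hz2 : k * b - k' * b' = 0 := by rw [← key, hz, mul_zero]
  have hk0 : k ≠ 0 := by
    rintro rfl
    have : (T - E) * h = 0 := by linarith
    rcases mul_eq_zero.mp this with h' | h'
    · exact hTE (by linarith)
    · exact h1 h'
  apply mul_left_cancel₀ hk0
  have hz' : k * A = k' * A' := by linarith
  have hz2' : k' * b' = k * b := by linarith
  calc k * (A * b') = (k * A) * b' := by ring
    _ = k' * A' * b' := by rw [hz']
    _ = A' * (k' * b') := by ring
    _ = A' * (k * b) := by rw [hz2']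
    _ = k * (A' * b) := by ring

end Pool.Agent.K4L
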