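import Pool.Agent.K4L.LemBNum

/-!
# Lemma B: the star inequality
-/

namespace Pool.Agent.K4L

/-- a near vector -/
def Nv (n : ℤ) (v : Pt) : Prop := |v.1| ≤ n ∧ |v.2| ≤ n

theorem Nv.nonneg {n : ℤ} {v : Pt} (h : Nv n v) : 0 ≤ n := le_trans (abs_nonneg _) h.1

theorem dt_le {m n : ℤ} {v w : Pt} (hv : |v.1| ≤ m ∧ |v.2| ≤ m) (hw : Nv n w) :
    |dt v w| ≤ 2 * n * m := by
  have hm : 0 ≤ m := le_trans (abs_nonneg _) hv.1
  have hn := hw.nonneg
  unfold dt
  have h1 := abs_sub (v.1 * w.2) (v.2 * w.1)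
  rw [abs_mul, abs_mul] at h1
  have h2 : |v.1| * |w.2| ≤ m * n := mul_le_mul hv.1 hw.2 (abs_nonneg _) hm
  have h3 : |v.2| * |w.1| ≤ m * n := mul_le_mul hv.2 hw.1 (abs_nonneg _) hm
  linarith

theorem Nv.dt {n : ℤ} {v w : Pt} (hv : Nv n v) (hw : Nv n w) : |dt v w| ≤ 2 * n ^ 2 := by
  have := dt_le hv hw
  linarith

theorem Nv.neg {n : ℤ} {v w : Pt} (h : Nv n (v - w)) : Nv n (w - v) := by
  unfold Nv at *
  simp only [Prod.fst_sub, Prod.snd_sub] at *
  rw [abs_sub_comm w.1, abs_sub_comm w.2]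
  exact h

theorem dt_swap (a b : Pt) : dt a b = - dt b a := by unfold dt; ring

/-- the star identity -/
theorem star_id {w x z β τ : Pt} (u : Pt) (hz : Col w x z) (hz' : Col β τ z) :
    dt u (z - x) * dt (τ - β) (w - x) = - dt u (w - x) * dt (τ - β) (x - β) := by
  unfold Col at *
  unfold dt
  simp only [Prod.fst_sub, Prod.snd_sub]
  linear_combination (-(τ.1 - β.1) * u.2 + (τ.2 - β.2) * u.1) * hz +
    ((w.2 - x.2) * u.1 - (w.1 - x.1) * u.2) * hz'

/-- the pair `β τ` is harmless for the edge `w x`: it is dead, or it is not parallel to `w x`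
and has no common lattice point with it -/
def Good (R : Finset Pt) (w x β τ : Pt) : Prop :=
  (∃ r ∈ R, Col β τ r) ∨ (dt (τ - β) (w - x) ≠ 0 ∧ ∀ z, Col w x z → ¬ Col β τ z)

theorem Good.symm {R : Finset Pt} {w x β τ : Pt} (h : Good R w x β τ) : Good R w x τ β := by
  rcases h with ⟨r, hr, hc⟩ | ⟨h1, h2⟩
  · exact Or.inl ⟨r, hr, hc.swap12⟩
  · refine Or.inr ⟨?_, fun z hz hc => h2 z hz hc.swap12⟩
    intro h0
    apply h1
    unfold dt at *
    simp only [Prod.fst_sub, Prod.snd_sub] at *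
    linarith

theorem good_of_star {R : Finset Pt} {w x β τ : Pt} (u : Pt) (hx : x ∈ R)
    (hu : dt u (w - x) ≠ 0)
    (hlt : |dt u (w - x) * dt (τ - β) (x - β)| < |dt (τ - β) (w - x)|) : Good R w x β τ := by
  have hD1 : dt (τ - β) (w - x) ≠ 0 := by
    intro h0
    rw [h0, abs_zero] at hlt
    exact absurd hlt (not_lt.mpr (abs_nonneg _))
  by_cases hc : Col β τ x
  · exact Or.inl ⟨x, hx, hc⟩
  · refine Or.inr ⟨hD1, ?_⟩
    intro z hz hz'
    apply hc
    have key := star_id u hz hz'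
    have hi : dt u (z - x) = 0 := by
      by_contra hi
      have h1 := Int.one_le_abs hi
      have h2 : |dt u (z - x)| * |dt (τ - β) (w - x)| = |dt u (w - x) * dt (τ - β) (x - β)| := by
        rw [← abs_mul, key, ← abs_neg]; congr 1; ring
      nlinarith [abs_nonneg (dt (τ - β) (w - x))]
    rw [hi, zero_mul] at key
    have h3 : dt (τ - β) (x - β) = 0 := by
      have : dt u (w - x) * dt (τ - β) (x - β) = 0 := by linarith
      exact (mul_eq_zero.mp this).resolve_left hu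
    unfold dt at h3
    unfold Col
    simp only [Prod.fst_sub, Prod.snd_sub] at h3
    linarith

theorem uncov_of_good {R B : Finset Pt} {w x : Pt}
    (h : ∀ β ∈ B, ∀ τ ∈ B, β ≠ τ → Good R w x β τ) : Uncov R B w x := by
  intro z hz _ _ p hp q hq hpq hc
  rcases h p hp q hq hpq with ⟨r, hr, hrc⟩ | ⟨_, h2⟩
  · exact ⟨r, hr, hrc⟩
  · exact absurd hc (h2 z hz)

theorem par_of_good {R B : Finset Pt} {w x : Pt}
    (h : ∀ β ∈ B, ∀ τ ∈ B, β ≠ τ → Good R w x β τ) :
    ∀ p ∈ B, ∀ q ∈ B, p ≠ q → Par w x p q → ∃ r ∈ R, Col p q r := by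
  intro p hp q hq hpq hP
  rcases h p hp q hq hpq with hr | ⟨h1, _⟩
  · exact hr
  · exfalso; apply h1
    unfold Par at hP
    unfold dt
    simp only [Prod.fst_sub, Prod.snd_sub]
    linarith

/-! ### the three kinds of lines -/

/-- near lines -/
theorem star_near {n K : ℤ} {c u x β τ : Pt} (h1 : Nv n (c - x)) (h2 : Nv n (x - β))
    (h3 : Nv n (τ - β)) (h4 : Nv n u) (hpar : dt (τ - β) u ≠ 0)
    (hK : 2 * n ^ 2 + 4 * n ^ 4 < |K|) :
    |dt u (adv c u K - x) * dt (τ - β) (x - β)| < |dt (τ - β) (adv c u K - x)| := by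
  have e1 : dt u (adv c u K - x) = dt u (c - x) := by
    unfold dt adv; simp only [Prod.fst_sub, Prod.snd_sub]; ring
  have e2 : dt (τ - β) (adv c u K - x) = K * dt (τ - β) u + dt (τ - β) (c - x) := by
    unfold dt adv; simp only [Prod.fst_sub, Prod.snd_sub]; ring
  rw [e1, e2, abs_mul]
  have a1 := h4.dt h1
  have a2 := h3.dt h2
  have a3 := h3.dt h1
  have a4 := Int.one_le_abs hpar
  have a5 := tri_lo2 (K * dt (τ - β) u) (dt (τ - β) (c - x))
  rw [abs_mul] at a5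
  have a6 : |dt u (c - x)| * |dt (τ - β) (x - β)| ≤ (2 * n ^ 2) * (2 * n ^ 2) :=
    mul_le_mul a1 a2 (abs_nonneg _) (by positivity)
  have a7 : |K| ≤ |K| * |dt (τ - β) u| := by nlinarith [abs_nonneg K]
  nlinarith

/-- lines through `t` -/
theorem star_t {n T K : ℤ} {o uL c u x β : Pt} (hn : 1 ≤ n) (h1 : Nv n (c - x))
    (h2 : Nv n (x - β)) (h3 : Nv n (o - β)) (h4 : Nv n u) (h5 : Nv n uL)
    (hpar : dt uL u ≠ 0) (hT : 32 * n ^ 4 ≤ |T|) (hK : 32 * n ^ 4 ≤ |K|) :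
    |dt u (adv c u K - x) * dt (adv o uL T - β) (x - β)| <
      |dt (adv o uL T - β) (adv c u K - x)| := by
  have e1 : dt u (adv c u K - x) = dt u (c - x) := by
    unfold dt adv; simp only [Prod.fst_sub, Prod.snd_sub]; ring
  have e2 : dt (adv o uL T - β) (x - β) = T * dt uL (x - β) + dt (o - β) (x - β) := by
    unfold dt adv; simp only [Prod.fst_sub, Prod.snd_sub]; ring
  have e3 : dt (adv o uL T - β) (adv c u K - x) =
      (T * dt uL (c - x) + K * dt (o - β) u) + T * K * dt uL u + dt (o - β) (c - x) := by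
    unfold dt adv; simp only [Prod.fst_sub, Prod.snd_sub]; ring
  rw [e1, e2, e3, abs_mul]
  set H := 2 * n ^ 2 with hHdef
  have hH : 2 ≤ H := by nlinarith
  have hH2 : 8 * H ^ 2 = 32 * n ^ 4 := by rw [hHdef]; ring
  rw [← hH2] at hT hK
  have a1 : |dt u (c - x)| ≤ H := h4.dt h1
  have a2 : |dt uL (x - β)| ≤ H := h5.dt h2
  have a3 : |dt (o - β) (x - β)| ≤ H := h3.dt h2
  have a4 : |dt uL (c - x)| ≤ H := h5.dt h1
  have a5 : |dt (o - β) u| ≤ H := h3.dt h4
  have a6 : |dt (o - β) (c - x)| ≤ H := h3.dt h1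
  have a7 := Int.one_le_abs hpar
  have a8 := tri_lo (T * dt uL (c - x) + K * dt (o - β) u) (T * K * dt uL u)
    (dt (o - β) (c - x))
  have a9 := abs_add_le (T * dt uL (c - x)) (K * dt (o - β) u)
  rw [abs_mul, abs_mul] at a9
  have a10 : |T * K * dt uL u| = |T| * |K| * |dt uL u| := by rw [abs_mul, abs_mul]
  have a11 := abs_add_le (T * dt uL (x - β)) (dt (o - β) (x - β))
  rw [abs_mul] at a11
  have hTn := abs_nonneg T
  have hKn := abs_nonneg K
  have b1 : |T| * |dt uL (c - x)| ≤ |T| * H := mul_le_mul_of_nonneg_left a4 hTn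
  have b2 : |K| * |dt (o - β) u| ≤ |K| * H := mul_le_mul_of_nonneg_left a5 hKn
  have b3 : |T| * |dt uL (x - β)| ≤ |T| * H := mul_le_mul_of_nonneg_left a2 hTn
  have b4 : |T| * |K| ≤ |T| * |K| * |dt uL u| := by
    have : 0 ≤ |T| * |K| := mul_nonneg hTn hKn
    exact le_mul_of_one_le_right this a7
  have b5 : |dt u (c - x)| * |T * dt uL (x - β) + dt (o - β) (x - β)| ≤ H * (|T| * H + H) :=
    mul_le_mul a1 (by linarith) (abs_nonneg _) (by linarith)
  have c3 : H ≤ H ^ 2 := le_self_pow₀ (by linarith) (by norm_num)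
  have hT1 : 1 ≤ |T| := by linarith
  have c1 : 8 * H ^ 2 * |T| ≤ |T| * |K| := by
    have := mul_le_mul_of_nonneg_left hK hTn
    linarith
  have c2 : 8 * H ^ 2 * |K| ≤ |T| * |K| := mul_le_mul_of_nonneg_right hT hKn
  have hH20 : 0 ≤ H ^ 2 := by positivity
  have c4 : H ^ 2 ≤ H ^ 2 * |T| := le_mul_of_one_le_right hH20 hT1
  have c5 : H * |T| ≤ H ^ 2 * |T| := mul_le_mul_of_nonneg_right c3 hTn
  have c6 : H * |K| ≤ H ^ 2 * |K| := mul_le_mul_of_nonneg_right c3 hKn
  have c7 : 0 < H ^ 2 * |T| := by linarith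
  linarith

/-- lines through `t3 = w + k s` -/
theorem star_t3 {n K k S : ℤ} {c u x β s : Pt} (hn : 1 ≤ n) (h1 : Nv n (c - x))
    (h2 : Nv n (x - β)) (h4 : Nv n u) (hk : k ≠ 0)
    (hS1 : |dt s (c - x)| ≤ S) (hS2 : |dt s (x - β)| ≤ S)
    (hV : 32 * n ^ 4 ≤ |dt s u|) (hK : S < |K|) :
    |dt u (adv c u K - x) * dt (adv (adv c u K) s k - β) (x - β)| <
      |dt (adv (adv c u K) s k - β) (adv c u K - x)| := by
  have e1 : dt u (adv c u K - x) = dt u (c - x) := by
    unfold dt adv; simp only [Prod.fst_sub, Prod.snd_sub]; ring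
  have e2 : dt (adv (adv c u K) s k - β) (x - β) =
      K * dt u (x - β) + dt (c - x) (x - β) + k * dt s (x - β) := by
    unfold dt adv; simp only [Prod.fst_sub, Prod.snd_sub]; ring
  have e3 : dt (adv (adv c u K) s k - β) (adv c u K - x) =
      (K * dt (x - β) u + k * dt s (c - x)) + k * K * dt s u + dt (x - β) (c - x) := by
    unfold dt adv; simp only [Prod.fst_sub, Prod.snd_sub]; ring
  rw [e1, e2, e3, abs_mul]
  set H := 2 * n ^ 2 with hHdef
  have hH : 2 ≤ H := by nlinarith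
  have hH2 : 8 * H ^ 2 = 32 * n ^ 4 := by rw [hHdef]; ring
  rw [← hH2] at hV
  have hS0 : 0 ≤ S := le_trans (abs_nonneg _) hS1
  have a1 : |dt u (c - x)| ≤ H := h4.dt h1
  have a2 : |dt u (x - β)| ≤ H := h4.dt h2
  have a3 : |dt (c - x) (x - β)| ≤ H := h1.dt h2
  have a5 : |dt (x - β) u| ≤ H := h2.dt h4
  have a6 : |dt (x - β) (c - x)| ≤ H := h2.dt h1
  have a8 := tri_lo (K * dt (x - β) u + k * dt s (c - x)) (k * K * dt s u)
    (dt (x - β) (c - x))
  have a9 := abs_add_le (K * dt (x - β) u) (k * dt s (c - x))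
  rw [abs_mul, abs_mul] at a9
  have a10 : |k * K * dt s u| = |k| * |K| * |dt s u| := by rw [abs_mul, abs_mul]
  have a11 := abs_add_le (K * dt u (x - β) + dt (c - x) (x - β)) (k * dt s (x - β))
  have a12 := abs_add_le (K * dt u (x - β)) (dt (c - x) (x - β))
  rw [abs_mul] at a11 a12
  have hkn := abs_nonneg k
  have hKn := abs_nonneg K
  have hk1 := Int.one_le_abs hk
  have hK1 : 1 ≤ |K| := by linarith
  have b1 : |K| * |dt (x - β) u| ≤ |K| * H := mul_le_mul_of_nonneg_left a5 hKn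
  have b2 : |k| * |dt s (c - x)| ≤ |k| * S := mul_le_mul_of_nonneg_left hS1 hkn
  have b3 : |K| * |dt u (x - β)| ≤ |K| * H := mul_le_mul_of_nonneg_left a2 hKn
  have b6 : |k| * |dt s (x - β)| ≤ |k| * S := mul_le_mul_of_nonneg_left hS2 hkn
  have hkK : 0 ≤ |k| * |K| := mul_nonneg hkn hKn
  have b4 : |k| * |K| * (8 * H ^ 2) ≤ |k| * |K| * |dt s u| := mul_le_mul_of_nonneg_left hV hkK
  have b5 : |dt u (c - x)| * |K * dt u (x - β) + dt (c - x) (x - β) + k * dt s (x - β)| ≤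
      H * (|K| * H + H + |k| * S) :=
    mul_le_mul a1 (by linarith) (abs_nonneg _) (by linarith)
  have c1 : |K| ≤ |k| * |K| := le_mul_of_one_le_left hKn hk1
  have c2 : |k| * S ≤ |k| * |K| := mul_le_mul_of_nonneg_left (by linarith) hkn
  have c3 : H ≤ H ^ 2 := le_self_pow₀ (by linarith) (by norm_num)
  have hH20 : 0 ≤ H ^ 2 := by positivity
  have c5 : 1 ≤ |k| * |K| := hK1.trans c1
  have d1 : H ^ 2 ≤ H ^ 2 * (|k| * |K|) := le_mul_of_one_le_right hH20 c5
  have d2 : |K| * H ≤ H ^ 2 * (|k| * |K|) := by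
    have := mul_le_mul c1 c3 (by linarith) hkK
    linarith
  have d3 : |K| * H ^ 2 ≤ H ^ 2 * (|k| * |K|) := by
    have := mul_le_mul_of_nonneg_right c1 hH20
    linarith
  have d4 : |k| * S * H ≤ H ^ 2 * (|k| * |K|) := by
    have := mul_le_mul c2 c3 (by linarith) hkK
    linarith
  have d5 : |k| * S ≤ H ^ 2 * (|k| * |K|) :=
    c2.trans (le_mul_of_one_le_left hkK (by linarith))
  have d6 : 0 < H ^ 2 * (|k| * |K|) := by linarith
  linarith

end Pool.Agent.K4L
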