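import Pool.Agent.K4L.LemBM

/-!
# Lemma B, class versions which also record the divisibility of the far parameter
(the proofs are those of helper86's class versions)
-/

namespace Pool.Agent.K4L

/-- Red can play a far point of the class on `L = oa`, and every answer without a blue threat is
won; the parameter is divisible by the heights of the red stones -/
def ClassZ (R B : Finset Pt) (o a : Pt) : Prop :=
  ∃ (u : Pt) (E0 W Γ : ℤ), IsCoprime u.1 u.2 ∧ (∀ z, Col o a z ↔ dt u (z - o) = 0) ∧ W ≠ 0 ∧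
    (∀ m : ℤ, ∀ x ∈ R, dt u (x - o) ≠ 0 → dt u (o - x) ∣ E0 + W * m) ∧
      ∀ m : ℤ, Γ ≤ |E0 + W * m| → ∀ t, Col o a t →
      t ∉ insert (adv o u (E0 + W * m)) R → t ∉ B →
      NoThreat (insert (adv o u (E0 + W * m)) R) (insert t B) →
      Win (insert (adv o u (E0 + W * m)) R) (insert t B)

theorem lemBX_eZ {R B : Finset Pt} {o a b v0 r p q Y xl : Pt} {X XG : Finset Pt}
    {XP : Finset (Pt × Pt)}
    (hL : ALine R B o a) (hM : ALine R B o b) (hNl : ALine R B v0 r)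
    (hMNR : ∀ z, Col o b z → Col v0 r z → z ∈ R)
    (hpq : p ≠ q)
    (hYM : Col o b Y) (hYm : Col p q Y) (hYR : Y ∉ R)
    (hmR : ∀ z ∈ R, ¬ Col p q z)
    (hMU : ∀ z, Col o b z → z ∉ R → ∀ β ∈ B, ∀ β' ∈ B, β ≠ β' → Col β β' z →
      (∃ w ∈ R, Col β β' w) ∨ (Col p q β ∧ Col p q β'))
    (hLM : ¬ Col o a b) (hLN : ¬ Par o a v0 r) (hMN : ¬ Par o b v0 r)
    (hLm : ¬ Par o a p q) (hNm : ¬ Par v0 r p q)
    (hXR : ∀ x ∈ X, x ∈ R) (hGX : ∀ x ∈ XG, x ∈ X) (hGM : ∀ x ∈ XG, ¬ Col o b x)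
    (hB : ∀ β ∈ B, β ∉ R)
    (hxl : xl ∈ R) (hxlL : ¬ Col o a xl) (hxlb : xl ≠ b)
    (hparL : ∀ β ∈ B, ∀ β' ∈ B, β ≠ β' → Par o a β β' → (∃ w ∈ R, Col β β' w) ∨
      ∀ z, Col o xl z → ¬ Col β β' z)
    (hparM : ∀ β ∈ B, ∀ β' ∈ B, β ≠ β' → Par o b β β' → (∃ w ∈ R, Col β β' w) ∨
      ∀ x ∈ XG, ∀ z, Col o x z → ¬ Col β β' z)
    (hsup : ((∀ β ∈ B, ∀ β' ∈ B, β ≠ β' → Par p q β β' → (∃ w ∈ R, Col β β' w) ∨
        Col p q β ∨ ∀ x ∈ X, ∀ z, Col Y x z → ¬ Col β β' z) ∧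
        ∀ (uL uM uN um : Pt) (kY Z : ℤ), Z ≠ 0 → Dirs o a b v0 r p q Y uL uM uN um kY →
          Supply o v0 uL uM uN um kY Z Z) ∨
      ((∀ β ∈ B, ∀ β' ∈ B, β ≠ β' → Par p q β β' → (∃ w ∈ R, Col β β' w) ∨ Col p q β) ∧
        ∀ (uL uM uN um : Pt) (kY Z : ℤ), Z ≠ 0 → Dirs o a b v0 r p q Y uL uM uN um kY →
          Supply o v0 uL uM uN um kY Z 1))
    (hXP : ∀ w ∈ XP, w.1 ∈ X ∧ w.2 ∈ X ∧ w.1 ≠ w.2)
    (hXPm : ∀ w ∈ XP, (Col o a w.1 ∧ Col o a w.2) ∨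
      (¬ Par p q w.1 w.2 ∧ ∀ (uL uM uN um : Pt) (kY : ℤ), Dirs o a b v0 r p q Y uL uM uN um kY →
        dt (w.2 - w.1) (Y - w.1) * dt uL um - kY * dt (w.2 - w.1) um * dt uL uM ≠ 0))
    (hfin : ∀ (uL uM uN um : Pt) (kY : ℤ) (R3 : Finset Pt) (e g y t t3 : Pt), R ⊆ R3 →
      Dirs o a b v0 r p q Y uL uM uN um kY → Col p q y →
      FinData R3 (insert Y B) o uL uM um e g y t t3 X XG XP →
      Win R3 (insert t3 (insert t (insert Y B)))) :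
    ClassZ R B o a := by
  obtain ⟨uL, uM, uN, um, kY, n, hD, c, E0, W, Γ, hW, hdvd, h⟩ :=
    lemBX hL hM hNl hMNR hpq hYM hYm hYR hmR hMU hLM hLN hMN hLm hNm hXR hGX hGM hB hparM hsup
      hXP hXPm hfin
  refine ⟨uL, E0, W, Γ, hD.cL, hD.L_iff, hW, hdvd, ?_⟩
  intro m hm t htL htR htB hNT
  obtain ⟨hsize, h'⟩ := h m hm
  obtain ⟨T, rfl⟩ := exists_adv hD.cL ((hD.L_iff t).mp htL)
  rcases h' T htR htB hNT with hr | hw
  · have hT0 : T ≠ 0 := by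
      rintro rfl
      apply htR
      have : adv o uL 0 = o := by unfold adv; simp
      rw [this]
      exact Finset.mem_insert_of_mem hL.1
    have hTE : T ≠ E0 + W * m := by
      rintro rfl; exact htR (Finset.mem_insert_self _ _)
    have hbM := (hD.M_iff b).mp (Col.refl_right _ _)
    have hxlL' : dt uL (xl - o) ≠ 0 := fun h => hxlL ((hD.L_iff xl).mpr h)
    have hbL' : dt uL (b - o) ≠ 0 := fun h => hM.ne (c.LM h hbM).symm
    refine case1_win c hNT hB hM.2.1 hbM hM.ne.symm hxl hxlL' hxlb ?_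
      (hdvd m xl hxl hxlL') (hdvd m b hM.2.1 hbL') hsize hTE hT0 hr
    intro β hβ β' hβ' hne h0
    refine hparL β hβ β' hβ' hne ?_
    -- parallels
    have haL := (hD.L_iff a).mp (Col.refl_right _ _)
    unfold Par
    have hu : uL.1 ≠ 0 ∨ uL.2 ≠ 0 := by
      by_contra hc
      apply c.uL0
      rw [not_or, not_not, not_not] at hc
      exact Prod.ext hc.1 hc.2
    unfold dt at h0 haL
    simp only [Prod.fst_sub, Prod.snd_sub] at h0 haL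
    rcases hu with hu | hu
    · apply mul_left_cancel₀ hu
      linear_combination (-(a.1 - o.1)) * h0 - (β'.1 - β.1) * haL
    · apply mul_left_cancel₀ hu
      linear_combination (-(a.2 - o.2)) * h0 - (β'.2 - β.2) * haL
  · exact hw

theorem lemBG_eZ {R B : Finset Pt} {o a b v0 r p q Y x0 x1 x2 x3 xl xg xg' : Pt}
    (hL : ALine R B o a) (hM : ALine R B o b)
    (hNl : ALine R B v0 r) (hvM : Col o b v0)
    (hpq : p ≠ q)
    (hYM : Col o b Y) (hYm : Col p q Y) (hYR : Y ∉ R)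
    (hmR : ∀ z ∈ R, ¬ Col p q z)
    (hMU : ∀ z, Col o b z → z ∉ R → ∀ β ∈ B, ∀ β' ∈ B, β ≠ β' → Col β β' z →
      (∃ w ∈ R, Col β β' w) ∨ (Col p q β ∧ Col p q β'))
    (hLM : ¬ Col o a b) (hLN : ¬ Par o a v0 r) (hMN : ¬ Col o b r)
    (hLm : ¬ Par o a p q) (hNm : ¬ Par v0 r p q)
    (hx0 : x0 ∈ R) (hx1 : x1 ∈ R) (hx2 : x2 ∈ R) (hx3 : x3 ∈ R)
    (h012 : ¬ Col x0 x1 x2) (h013 : ¬ Col x0 x1 x3) (h023 : ¬ Col x0 x2 x3)
    (h123 : ¬ Col x1 x2 x3) (hB : ∀ β ∈ B, β ∉ R)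
    (hxl : xl ∈ R) (hxlL : ¬ Col o a xl) (hxlb : xl ≠ b)
    (hparL : ∀ β ∈ B, ∀ β' ∈ B, β ≠ β' → Par o a β β' → (∃ w ∈ R, Col β β' w) ∨
      ∀ z, Col o xl z → ¬ Col β β' z)
    (hxg : xg ∈ ({x0, x1, x2, x3} : Finset Pt)) (hxg' : xg' ∈ ({x0, x1, x2, x3} : Finset Pt))
    (hgM : ¬ Col o b xg) (hgM' : ¬ Col o b xg') (hgg : xg' ≠ xg)
    (hparM : ∀ β ∈ B, ∀ β' ∈ B, β ≠ β' → Par o b β β' → (∃ w ∈ R, Col β β' w) ∨
      ∀ x ∈ ({xg, xg'} : Finset Pt), ∀ z, Col o x z → ¬ Col β β' z)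
    (hparm : ∀ β ∈ B, ∀ β' ∈ B, β ≠ β' → Par p q β β' → (∃ w ∈ R, Col β β' w) ∨
      Col p q β ∨ ∀ x ∈ ({x0, x1, x2, x3} : Finset Pt), ∀ z, Col Y x z → ¬ Col β β' z) :
    ClassZ R B o a := by
  have hMNp : ¬ Par o b v0 r := by
    intro hp
    apply hMN
    have hvM' := hvM
    unfold Par at hp
    unfold Col at hvM' ⊢
    linear_combination hp + hvM'
  refine lemBX_eZ (X := {x0, x1, x2, x3}) (XG := {xg, xg'}) (XP := ∅) hL hM hNl ?_ hpq hYM hYm hYR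
    hmR hMU hLM hLN hMNp hLm hNm ?_ ?_ ?_ hB hxl hxlL hxlb hparL hparM (Or.inl ⟨hparm, ?_⟩)
    (by simp) (by simp) ?_
  · intro z hz1 hz2
    -- `M` and `N` meet in `v0`
    have hzv : z = v0 := by
      by_contra hne
      apply hMNp
      have e1 := hz1
      have e2 := hz2
      have e3 := hvM
      unfold Col at e1 e2 e3
      unfold Par
      rcases sub_ne_of_ne (Ne.symm hne) with h | h
      · apply mul_left_cancel₀ h
        linear_combination (-(b.1 - o.1)) * e2 + (r.1 - v0.1) * e1 - (r.1 - v0.1) * e3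
      · apply mul_left_cancel₀ h
        linear_combination (-(b.2 - o.2)) * e2 + (r.2 - v0.2) * e1 - (r.2 - v0.2) * e3
    rw [hzv]; exact hNl.1
  · intro x hx
    simp only [Finset.mem_insert, Finset.mem_singleton] at hx
    rcases hx with rfl | rfl | rfl | rfl <;> assumption
  · intro x hx
    have hx' : x = xg ∨ x = xg' := by simpa using hx
    rcases hx' with rfl | rfl <;> assumption
  · intro x hx
    have hx' : x = xg ∨ x = xg' := by simpa using hx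
    rcases hx' with rfl | rfl <;> assumption
  · intro uL uM uN um kY Z hZ hD
    obtain ⟨kN, hvk⟩ := exists_adv hD.cM ((hD.M_iff v0).mp hvM)
    exact supply_of_red hD.cM hD.hLM hD.hLN hD.hLm hD.hMN hD.hMm hD.hNm hvk hZ
  · intro uL uM uN um kY R3 e g y t t3 _ _ _ f
    exact fin4 f (x0 := x0) (x1 := x1) (x2 := x2) (x3 := x3) (xg := xg) (xg' := xg')
      (by simp) (by simp) (by simp) (by simp) h012 h013 h023 h123 (by simp) (by simp) hgg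

theorem lemB_eZ {R B : Finset Pt} {o a b v0 r p q Y x0 x1 x2 x3 : Pt}
    (hL : ALine R B o a) (hM : ALine R B o b)
    (hNl : ALine R B v0 r) (hvM : Col o b v0)
    (hpq : p ≠ q)
    (hYM : Col o b Y) (hYm : Col p q Y) (hYR : Y ∉ R)
    (hmR : ∀ z ∈ R, ¬ Col p q z)
    (hMU : ∀ z, Col o b z → z ∉ R → ∀ β ∈ B, ∀ β' ∈ B, β ≠ β' → Col β β' z →
      (∃ w ∈ R, Col β β' w) ∨ (Col p q β ∧ Col p q β'))
    (hLM : ¬ Col o a b) (hLN : ¬ Par o a v0 r) (hMN : ¬ Col o b r)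
    (hLm : ¬ Par o a p q) (hNm : ¬ Par v0 r p q)
    (hx0 : x0 ∈ R) (hx1 : x1 ∈ R) (hx2 : x2 ∈ R) (hx3 : x3 ∈ R)
    (h012 : ¬ Col x0 x1 x2) (h013 : ¬ Col x0 x1 x3) (h023 : ¬ Col x0 x2 x3)
    (h123 : ¬ Col x1 x2 x3) (hB : ∀ β ∈ B, β ∉ R)
    (hparL : ∀ β ∈ B, ∀ β' ∈ B, β ≠ β' → Par o a β β' → (∃ w ∈ R, Col β β' w) ∨
      ∀ x ∈ ({x0, x1, x2, x3} : Finset Pt), ¬ Col o a x → ∀ z, Col o x z → ¬ Col β β' z)
    (hparM : ∀ β ∈ B, ∀ β' ∈ B, β ≠ β' → Par o b β β' → (∃ w ∈ R, Col β β' w) ∨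
      ∀ x ∈ ({x0, x1, x2, x3} : Finset Pt), ¬ Col o b x → ∀ z, Col o x z → ¬ Col β β' z)
    (hparm : ∀ β ∈ B, ∀ β' ∈ B, β ≠ β' → Par p q β β' → (∃ w ∈ R, Col β β' w) ∨
      Col p q β ∨ ∀ x ∈ ({x0, x1, x2, x3} : Finset Pt), ∀ z, Col Y x z → ¬ Col β β' z) :
    ClassZ R B o a := by
  obtain ⟨⟨xl, hxlX, hxlL, hxlb⟩, _⟩ :=
    off_line_of_four (b := b) h012 h013 h023 h123 hL.ne
  obtain ⟨_, xg, hxg, xg', hxg', hgM, hgM', hgg⟩ :=
    off_line_of_four (b := b) h012 h013 h023 h123 hM.ne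
  have hXR : ∀ x ∈ ({x0, x1, x2, x3} : Finset Pt), x ∈ R := by
    intro x hx
    simp only [Finset.mem_insert, Finset.mem_singleton] at hx
    rcases hx with rfl | rfl | rfl | rfl <;> assumption
  refine lemBG_eZ (xl := xl) (xg := xg) (xg' := xg') hL hM hNl hvM hpq hYM hYm hYR hmR hMU hLM hLN
    hMN hLm hNm hx0 hx1 hx2 hx3 h012 h013 h023 h123 hB (hXR xl hxlX) hxlL hxlb ?_ hxg hxg' hgM
    hgM' hgg ?_ hparm
  · intro β hβ β' hβ' hne hp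
    rcases hparL β hβ β' hβ' hne hp with h | h
    · exact Or.inl h
    · exact Or.inr (h xl hxlX hxlL)
  · intro β hβ β' hβ' hne hp
    rcases hparM β hβ β' hβ' hne hp with h | h
    · exact Or.inl h
    · refine Or.inr (fun x hx => ?_)
      have hx' : x = xg ∨ x = xg' := by simpa using hx
      rcases hx' with rfl | rfl
      · exact h _ hxg hgM
      · exact h _ hxg' hgM'

theorem lemB0_eZ {R B : Finset Pt} {o a b v0 r p q Y x0 x1 x2 x3 xl xg xg' : Pt}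
    (hL : ALine R B o a) (hM : ALine R B o b)
    (hNl : ALine R B v0 r) (hMNR : ∀ z, Col o b z → Col v0 r z → z ∈ R)
    (hpq : p ≠ q)
    (hYM : Col o b Y) (hYm : Col p q Y) (hYR : Y ∉ R)
    (hmR : ∀ z ∈ R, ¬ Col p q z)
    (hMU : ∀ z, Col o b z → z ∉ R → ∀ β ∈ B, ∀ β' ∈ B, β ≠ β' → Col β β' z →
      (∃ w ∈ R, Col β β' w) ∨ (Col p q β ∧ Col p q β'))
    (hLM : ¬ Col o a b) (hLN : ¬ Par o a v0 r) (hMN : ¬ Par o b v0 r)
    (hLm : ¬ Par o a p q) (hNm : ¬ Par v0 r p q)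
    (hx0 : x0 ∈ R) (hx1 : x1 ∈ R) (hx2 : x2 ∈ R) (hx3 : x3 ∈ R)
    (h012 : ¬ Col x0 x1 x2) (h013 : ¬ Col x0 x1 x3) (h023 : ¬ Col x0 x2 x3)
    (h123 : ¬ Col x1 x2 x3) (hB : ∀ β ∈ B, β ∉ R)
    (hxl : xl ∈ R) (hxlL : ¬ Col o a xl) (hxlb : xl ≠ b)
    (hparL : ∀ β ∈ B, ∀ β' ∈ B, β ≠ β' → Par o a β β' → (∃ w ∈ R, Col β β' w) ∨
      ∀ z, Col o xl z → ¬ Col β β' z)
    (hxg : xg ∈ ({x0, x1, x2, x3} : Finset Pt)) (hxg' : xg' ∈ ({x0, x1, x2, x3} : Finset Pt))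
    (hgM : ¬ Col o b xg) (hgM' : ¬ Col o b xg') (hgg : xg' ≠ xg)
    (hparM : ∀ β ∈ B, ∀ β' ∈ B, β ≠ β' → Par o b β β' → (∃ w ∈ R, Col β β' w) ∨
      ∀ x ∈ ({xg, xg'} : Finset Pt), ∀ z, Col o x z → ¬ Col β β' z)
    (hparm : ∀ β ∈ B, ∀ β' ∈ B, β ≠ β' → Par p q β β' → (∃ w ∈ R, Col β β' w) ∨
      Col p q β) :
    ClassZ R B o a := by
  refine lemBX_eZ (X := {x0, x1, x2, x3}) (XG := {xg, xg'}) (XP := ∅) hL hM hNl hMNR hpq hYM hYm
    hYR hmR hMU hLM hLN hMN hLm hNm ?_ ?_ ?_ hB hxl hxlL hxlb hparL hparM (Or.inr ⟨hparm, ?_⟩)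
    (by simp) (by simp) ?_
  · intro x hx
    simp only [Finset.mem_insert, Finset.mem_singleton] at hx
    rcases hx with rfl | rfl | rfl | rfl <;> assumption
  · intro x hx
    have hx' : x = xg ∨ x = xg' := by simpa using hx
    rcases hx' with rfl | rfl <;> assumption
  · intro x hx
    have hx' : x = xg ∨ x = xg' := by simpa using hx
    rcases hx' with rfl | rfl <;> assumption
  · intro uL uM uN um kY Z hZ hD
    exact supply_B0 hD.cM hD.cN hD.cm hD.hLM hD.hLN hD.hLm hD.hMN hD.hMm hD.hNm hZ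
  · intro uL uM uN um kY R3 e g y t t3 _ _ _ f
    exact fin4 f (x0 := x0) (x1 := x1) (x2 := x2) (x3 := x3) (xg := xg) (xg' := xg')
      (by simp) (by simp) (by simp) (by simp) h012 h013 h023 h123 (by simp) (by simp) hgg

end Pool.Agent.K4L
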