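import Pool.Agent.K4L.LemBFar

/-!
# Star lemma: three uncovered red lines through one stone win
-/

namespace Pool.Agent.K4L

open Filter

theorem big_add (k : ℤ) : Big (fun m : ℕ => (m : ℤ) + k) := by
  intro K
  filter_upwards [eventually_ge_atTop (K.toNat + k.natAbs + 1)] with m hm
  have h1 : (K.toNat : ℤ) ≥ K := Int.self_le_toNat K
  have h2 : (m : ℤ) ≥ (K.toNat : ℤ) + (k.natAbs : ℤ) + 1 := by exact_mod_cast hm
  have h3 : (k.natAbs : ℤ) = |k| := Int.natCast_natAbs k
  have h4 := neg_abs_le k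
  have h5 := le_abs_self ((m : ℤ) + k)
  linarith

/-- the first stage of the star lemma: far replies -/
theorem star3 {R B : Finset Pt} {e z1 z2 z3 : Pt} (hN : NoThreat R B)
    (h1 : ALine R B e z1) (h2 : ALine R B e z2) (h3 : ALine R B e z3)
    (h12 : ¬ Col e z1 z2) (h13 : ¬ Col e z1 z3) (h23 : ¬ Col e z2 z3)
    (g1 : ∀ β ∈ B, ∀ τ ∈ B, β ≠ τ → Good R e z1 β τ)
    (g2 : ∀ β ∈ B, ∀ τ ∈ B, β ≠ τ → Good R e z2 β τ)
    (g3 : ∀ β ∈ B, ∀ τ ∈ B, β ≠ τ → Good R e z3 β τ) : Win R B := by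
  classical
  have hU1 : Uncov R B e z1 := uncov_of_good g1
  have hU2 : Uncov R B e z2 := uncov_of_good g2
  have hU3 : Uncov R B e z3 := uncov_of_good g3
  have hne : e ≠ z1 := h1.ne
  have hpar2 : ¬ Par e z1 e z2 := fun hc => h12 (hc.col (Col.refl_left _ _))
  have hpar3 : ¬ Par e z1 e z3 := fun hc => h13 (hc.col (Col.refl_left _ _))
  -- the finite set of near replies
  set T : Set Pt := (⋃ p ∈ B, {t : Pt | Col e z1 t ∧ ∃ z, Col e z2 z ∧ Col p t z}) ∪
    ((⋃ p ∈ B, {t : Pt | Col e z1 t ∧ ∃ z, Col e z3 z ∧ Col p t z}) ∪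
      (⋃ p ∈ B, {t : Pt | Col e z1 t ∧ Par p t e z3})) with hTdef
  have hTfin : T.Finite := by
    refine (Set.Finite.biUnion (Finset.finite_toSet B) ?_).union
      ((Set.Finite.biUnion (Finset.finite_toSet B) ?_).union
        (Set.Finite.biUnion (Finset.finite_toSet B) ?_))
    · intro p hp
      exact nf_finite hpar2 (h1.2.2.2 p hp) (h2.2.2.2 p hp)
    · intro p hp
      exact nf_finite hpar3 (h1.2.2.2 p hp) (h3.2.2.2 p hp)
    · intro p hp
      exact par_finite hne (h1.2.2.2 p hp) h3.ne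
  have hT : ∀ t, Col e z1 t → t ∉ T → (∀ p ∈ B, ∀ z, Col e z2 z → ¬ Col p t z) ∧
      (∀ p ∈ B, ∀ z, Col e z3 z → ¬ Col p t z) ∧ (∀ p ∈ B, ¬ Par p t e z3) := by
    intro t ht htT
    simp only [hTdef, Set.mem_union, Set.mem_iUnion, Set.mem_ofPred_eq, not_or, not_exists] at htT
    exact ⟨fun p hp z hz hc => htT.1 p hp ⟨ht, z, hz, hc⟩,
      fun p hp z hz hc => htT.2.1 p hp ⟨ht, z, hz, hc⟩, fun p hp hc => htT.2.2 p hp ⟨ht, hc⟩⟩
  have hbig := big_add 2
  have hz2 : ¬ Col e z1 z2 := h12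
  have hz3 : ¬ Col e z1 z3 := h13
  have ezB : e ∉ B := h1.notMem (Col.refl_left _ _)
  have z2B : z2 ∉ B := h2.notMem (Col.refl_right _ _)
  have z3B : z3 ∉ B := h3.notMem (Col.refl_right _ _)
  have z1B : z1 ∉ B := h1.notMem (Col.refl_right _ _)
  -- parallels to `e z1`
  have hparL : ∀ t, Col e z1 t → ∀ p ∈ insert t B, ∀ q ∈ insert t B, p ≠ q → Par e z1 p q →
      ∃ z ∈ R, Col p q z := by
    intro t ht p hp q hq hpq hP
    rcases Finset.mem_insert.mp hp with rfl | hp
    · exact ⟨e, h1.1, (Col.line_iff hne hpq ht (hP.col ht)).mp (Col.refl_left _ _)⟩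
    · rcases Finset.mem_insert.mp hq with rfl | hq
      · have hpc : Col e z1 p := hP.symm_right.col ht
        exact ⟨e, h1.1, (Col.line_iff hne hpq hpc ht).mp (Col.refl_left _ _)⟩
      · exact par_of_good g1 p hp q hq hpq hP
  -- eventual properties
  have ev0 : ∀ᶠ m : ℕ in atTop, pt e z1 ((m : ℤ) + 2) ∉ ((R ∪ B : Finset Pt) : Set Pt) :=
    hbig.avoid hne (Finset.finite_toSet _)
  have ev1 : ∀ᶠ m : ℕ in atTop, ∀ z ∈ B, ¬ Col z2 (pt e z1 ((m : ℤ) + 2)) z :=
    ev_alive_new hbig hne z2B hz2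
  have ev2 : ∀ᶠ m : ℕ in atTop, ∀ z ∈ B, ¬ Col z3 (pt e z1 ((m : ℤ) + 2)) z :=
    ev_alive_new hbig hne z3B hz3
  have ev3 : ∀ᶠ m : ℕ in atTop, ¬ Col z2 (pt e z1 ((m : ℤ) + 2)) z3 := by
    have hz23 : z3 ≠ z2 := by rintro rfl; exact h23 (Col.refl_right _ _)
    exact hbig.avoid_line hne (P := fun t => Col z2 t z3) (pt_finite hne hz2 hz23)
  have ev4 : ∀ᶠ m : ℕ in atTop, ∀ t ∈ T, Col e z1 t → t ∉ R → t ∉ B →
      (Uncov (insert (pt e z1 ((m : ℤ) + 2)) R) (insert t B) z2 (pt e z1 ((m : ℤ) + 2)) ∧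
      Uncov (insert (pt e z1 ((m : ℤ) + 2)) R) (insert t B) z3 (pt e z1 ((m : ℤ) + 2)) ∧
      (∀ p ∈ insert t B, ∀ q ∈ insert t B, p ≠ q → ¬ Par z2 (pt e z1 ((m : ℤ) + 2)) p q)) := by
    rw [Filter.eventually_all_finite hTfin]
    intro t _
    by_cases h : Col e z1 t
    · have c1 := ev_uncov_new (R := R) (B := insert t B) hbig hne h2.2.1 hz2
        (fun p hp q hq hpq hP => Or.inl (hparL t h p hp q hq hpq hP))
      have c2 := ev_uncov_new (R := R) (B := insert t B) hbig hne h3.2.1 hz3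
        (fun p hp q hq hpq hP => Or.inl (hparL t h p hp q hq hpq hP))
      have c3 := ev_par_new (B := insert t B) hbig hne hz2
      filter_upwards [c1, c2, c3] with m d1 d2 d3 _ _ _
      exact ⟨d1, d2, d3⟩
    · exact Eventually.of_forall (fun m h' => absurd h' h)
  obtain ⟨m, m0, m1, m2, m3, m4⟩ := (ev0.and (ev1.and (ev2.and (ev3.and ev4)))).exists
  set f := pt e z1 ((m : ℤ) + 2) with hf
  have hfL : Col e z1 f := col_pt e z1 _
  have m0' : f ∉ R ∧ f ∉ B := by
    simp only [Finset.coe_union, Set.mem_union, Finset.mem_coe, not_or] at m0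
    exact m0
  have hfe : f ≠ e := by rintro h; exact m0'.1 (h ▸ h1.1)
  have hfz2 : z2 ≠ f := by rintro h; exact m0'.1 (h ▸ h2.2.1)
  have hfz3 : z3 ≠ f := by rintro h; exact m0'.1 (h ▸ h3.2.1)
  -- the line `e z1` is the line `e f`
  have hline : ∀ z, Col e z1 z ↔ Col e f z := fun z =>
    Col.line_iff hne hfe.symm (Col.refl_left _ _) hfL
  refine win_force h1 m0'.1 m0'.2 hfL
    (hN.mono (Finset.subset_insert _ _) (Finset.Subset.refl _)) ?_
  intro t htR htB ht
  have htR' : t ∉ R := fun hh => htR (Finset.mem_insert_of_mem hh)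
  have htf : t ≠ f := by rintro rfl; exact htR (Finset.mem_insert_self _ _)
  have hte : t ≠ e := by rintro rfl; exact htR' h1.1
  have hNt : NoThreat (insert f R) (insert t B) :=
    hN.of_uncov hU1 (Finset.subset_insert _ _) ht htR' htB
  have ht2 : ¬ Col e z2 t := by
    intro hc
    apply h12
    exact (Col.line_eq_of_two (z := z2) hne h2.ne hte.symm (Col.refl_left _ _) ht
      (Col.refl_left _ _) hc).mpr (Col.refl_right _ _)
  have ht3 : ¬ Col e z3 t := by
    intro hc
    apply h13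
    exact (Col.line_eq_of_two (z := z3) hne h3.ne hte.symm (Col.refl_left _ _) ht
      (Col.refl_left _ _) hc).mpr (Col.refl_right _ _)
  have ht2f : ¬ Col z2 f t := by
    intro hc
    apply h12
    exact (Col.line_eq_of_two (z := z2) hne hfz2 htf.symm hfL ht (Col.refl_right _ _) hc).mpr
      (Col.refl_left _ _)
  have ht3f : ¬ Col z3 f t := by
    intro hc
    apply h13
    exact (Col.line_eq_of_two (z := z3) hne hfz3 htf.symm hfL ht (Col.refl_right _ _) hc).mpr
      (Col.refl_left _ _)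
  have he2f : ¬ Col e z2 f := by
    intro hc
    apply h12
    exact (hline z2).mpr hc.swap23
  have he3f : ¬ Col e z3 f := by
    intro hc
    apply h13
    exact (hline z3).mpr hc.swap23
  have fR : f ∈ insert f R := Finset.mem_insert_self _ _
  have hsub : R ⊆ insert f R := Finset.subset_insert _ _
  have hA2 : ALine (insert f R) (insert t B) e z2 := h2.insert hsub ht2
  have hA3 : ALine (insert f R) (insert t B) e z3 := h3.insert hsub ht3
  have hA2f : ALine (insert f R) (insert t B) z2 f := by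
    refine ⟨hsub h2.2.1, fR, hfz2, ?_⟩
    intro z hz
    rcases Finset.mem_insert.mp hz with rfl | hz
    · exact ht2f
    · exact m1 z hz
  have hA3f : ALine (insert f R) (insert t B) z3 f := by
    refine ⟨hsub h3.2.1, fR, hfz3, ?_⟩
    intro z hz
    rcases Finset.mem_insert.mp hz with rfl | hz
    · exact ht3f
    · exact m2 z hz
  by_cases htT : t ∈ T
  · obtain ⟨u2, u3, up⟩ := m4 t htT ht htR' htB
    refine two_connected (x0 := z2) (x1 := f) (x2 := z3) (x3 := e) (w := e) hNt hA2f u2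
      hA3f.symm hA3.symm m3 ?_ (Or.inl u3.symm) (hsub h1.1) ?_ ?_ h3.ne ?_
    · intro hc; exact he3f hc.rot.rot.swap23
    · intro hh
      rcases Finset.mem_insert.mp hh with hh | hh
      · exact hte hh.symm
      · exact ezB hh
    · intro hc; exact he2f hc.rot.rot
    · intro c _ p hp q hq hpq hP
      exact absurd hP (up p hp q hq hpq)
  · obtain ⟨c2, c3, c4⟩ := hT t ht htT
    refine two_connected (x0 := z3) (x1 := e) (x2 := z2) (x3 := f) (w := z1) hNt hA3.symm
      (hU3.insert_blue hsub c3).symm hA2 hA2f ?_ ?_ (Or.inl (hU2.insert_blue hsub c2))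
      (hsub h1.2.1) ?_ ?_ ?_ ?_
    · intro hc; exact h23 hc.rot
    · exact he2f
    · intro hh
      rcases Finset.mem_insert.mp hh with hh | hh
      · exact htR' (hh ▸ h1.2.1)
      · exact z1B hh
    · intro hc; exact h13 hc.rot
    · rintro rfl; exact h12 (Col.refl_right _ _)
    · intro c _ p hp q hq hpq hP
      left
      rcases Finset.mem_insert.mp hp with hp1 | hp1
      · rcases Finset.mem_insert.mp hq with hq1 | hq1
        · exact absurd (hp1.trans hq1.symm) hpq
        · exfalso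
          apply c4 q hq1
          rw [hp1] at hP
          unfold Par at hP ⊢
          linarith
      · rcases Finset.mem_insert.mp hq with hq1 | hq1
        · exfalso
          apply c4 p hp1
          rw [hq1] at hP
          unfold Par at hP ⊢
          linarith
        · obtain ⟨w, hw, hw'⟩ := par_of_good g3 p hp1 q hq1 hpq hP.swap_left
          exact ⟨w, hsub hw, hw'⟩

end Pool.Agent.K4L
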