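import Pool.Agent.K4L.LemB
import Pool.Agent.K4L.Star3

/-!
# Lemma C: both `L` and `M` are hit by the same blue line `m` only
-/

namespace Pool.Agent.K4L

/-- the star of the far point `adv o u K` is good -/
theorem star_good {R B : Finset Pt} {n n2 K T : ℤ} {o u uM x τ : Pt} (hn : 1 ≤ n)
    (hn2 : n2 = n + 32 * n ^ 4 * n)
    (hK1 : 32 * n ^ 4 ≤ |K|) (hK2 : 2 * n2 ^ 2 + 4 * n2 ^ 4 < |K|)
    (hxR : x ∈ R) (hxL : dt u (o - x) ≠ 0)
    (nx : Nv n (o - x)) (nxB : ∀ β ∈ insert τ B, Nv n (x - β)) (noB : ∀ β ∈ insert τ B, Nv n (o - β))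
    (nBB : ∀ β ∈ insert τ B, ∀ β' ∈ insert τ B, Nv n (β' - β)) (nu : Nv n u) (nuM : Nv n uM)
    (hLM : dt uM u ≠ 0)
    (hNP : ∀ β ∈ B, ∀ β' ∈ B, β ≠ β' → dt (β' - β) u = 0 → ∃ w ∈ R, Col β β' w)
    (hτ : ∀ β ∈ B, dt (τ - β) u ≠ 0)
    (hP : ∀ β ∈ B, dt (adv o uM T - β) u = 0 → ∃ w ∈ R, Col β (adv o uM T) w)
    (hPτ : dt (adv o uM T - τ) u ≠ 0) :
    ∀ β ∈ insert (adv o uM T) (insert τ B), ∀ β' ∈ insert (adv o uM T) (insert τ B), β ≠ β' →
      Good R (adv o u K) x β β' := by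
  have hx' : dt u (adv o u K - x) ≠ 0 := by
    have e1 : dt u (adv o u K - x) = dt u (o - x) := by
      unfold dt adv; simp only [Prod.fst_sub, Prod.snd_sub]; ring
    rw [e1]; exact hxL
  have hn0 : 0 ≤ n := by linarith
  have hnn2 : n ≤ n2 := by
    rw [hn2]
    have : 0 ≤ 32 * n ^ 4 * n := by positivity
    linarith
  have hn20 : 0 ≤ n2 := le_trans hn0 hnn2
  have mono : ∀ v : Pt, Nv n v → Nv n2 v := fun v h => ⟨le_trans h.1 hnn2, le_trans h.2 hnn2⟩
  have hKn : 2 * n ^ 2 + 4 * n ^ 4 < |K| := by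
    have h1 : n ^ 2 ≤ n2 ^ 2 := pow_le_pow_left₀ hn0 hnn2 2
    have h2 : n ^ 4 ≤ n2 ^ 4 := pow_le_pow_left₀ hn0 hnn2 4
    linarith
  have hT : ∀ β ∈ insert τ B, (dt (adv o uM T - β) u = 0 → ∃ w ∈ R, Col β (adv o uM T) w) →
      Good R (adv o u K) x β (adv o uM T) := by
    intro β hβ hpar
    by_cases hTb : 32 * n ^ 4 ≤ |T|
    · exact good_of_star u hxR hx' (star_t hn nx (nxB β hβ) (noB β hβ) nu nuM hLM hTb hK1)
    · rw [not_le] at hTb
      by_cases h0 : dt (adv o uM T - β) u = 0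
      · exact Or.inl (hpar h0)
      · refine good_of_star u hxR hx' (star_near (mono _ nx) (mono _ (nxB β hβ)) ?_ (mono _ nu)
          h0 hK2)
        have a1 := noB β hβ
        unfold Nv adv at *
        simp only [Prod.fst_sub, Prod.snd_sub] at *
        have hT0 : 0 ≤ 32 * n ^ 4 := by positivity
        constructor
        · have e1 : o.1 + T * uM.1 - β.1 = (o.1 - β.1) + T * uM.1 := by ring
          rw [e1, hn2]
          refine le_trans (abs_add_le _ _) ?_
          rw [abs_mul]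
          have := mul_le_mul hTb.le nuM.1 (abs_nonneg _) hT0
          linarith [a1.1]
        · have e1 : o.2 + T * uM.2 - β.2 = (o.2 - β.2) + T * uM.2 := by ring
          rw [e1, hn2]
          refine le_trans (abs_add_le _ _) ?_
          rw [abs_mul]
          have := mul_le_mul hTb.le nuM.2 (abs_nonneg _) hT0
          linarith [a1.2]
  refine good_all ?_ ?_ ?_ ?_
  · intro β hβ β' hβ' hne
    by_cases h0 : dt (β' - β) u = 0
    · exact Or.inl (hNP β hβ β' hβ' hne h0)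
    · exact good_of_star u hxR hx' (star_near nx (nxB β (Finset.mem_insert_of_mem hβ))
        (nBB β (Finset.mem_insert_of_mem hβ) β' (Finset.mem_insert_of_mem hβ')) nu h0 hKn)
  · intro β hβ
    exact good_of_star u hxR hx' (star_near nx (nxB β (Finset.mem_insert_of_mem hβ))
      (nBB β (Finset.mem_insert_of_mem hβ) τ (Finset.mem_insert_self _ _)) nu (hτ β hβ) hKn)
  · intro β hβ
    exact hT β (Finset.mem_insert_of_mem hβ) (hP β hβ)
  · exact hT τ (Finset.mem_insert_self _ _) (fun h => absurd h hPτ)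



/-- the node `t = τ = L ∩ m`: Red blocks `m` in `Y = M ∩ m`, then the star of `e` wins -/
theorem block_node {R B : Finset Pt} {n n2 K : ℤ} {o a b p q Y τ z3 u uM : Pt} (hn : 1 ≤ n)
    (hN : NoThreat R B) (hB : ∀ β ∈ B, β ∉ R)
    (hL : ALine R B o a) (hM : ALine R B o b)
    (hu : ∀ z, Col o a z ↔ dt u (z - o) = 0) (huM : ∀ z, Col o b z ↔ dt uM (z - o) = 0)
    (cM : IsCoprime uM.1 uM.2) (hLM : ¬ Col o a b)
    (hpq : p ≠ q) (hYM : Col o b Y) (hYm : Col p q Y) (hYR : Y ∉ R)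
    (hLU : ∀ z, Col o a z → z ∉ R → ∀ β ∈ B, ∀ β' ∈ B, β ≠ β' → Col β β' z →
      (∃ w ∈ R, Col β β' w) ∨ (Col p q β ∧ Col p q β'))
    (hMU : ∀ z, Col o b z → z ∉ R → ∀ β ∈ B, ∀ β' ∈ B, β ≠ β' → Col β β' z →
      (∃ w ∈ R, Col β β' w) ∨ (Col p q β ∧ Col p q β'))
    (hτL : Col o a τ) (hτR : τ ∉ R)
    (hz3R : z3 ∈ R) (hz3L : ¬ Col o a z3) (hz3b : z3 ≠ b)
    (hNP : ∀ β ∈ B, ∀ β' ∈ B, β ≠ β' → Par o a β β' → ∃ w ∈ R, Col β β' w)
    (hZ : ∀ β ∈ B, ∀ t, Col o b t → t ∉ R → Col τ β t → ∃ w ∈ insert Y R, Col τ β w)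
    (hP : ∀ β ∈ B, ∀ t, Col o b t → t ∉ R → t ≠ Y → Par o a β t →
      ∃ w ∈ insert Y R, Col β t w)
    (hn2 : n2 = n + 32 * n ^ 4 * n)
    (near : ∀ x ∈ R ∪ insert Y (insert τ B), ∀ x' ∈ R ∪ insert Y (insert τ B), Nv n (x - x'))
    (nu : Nv n u) (nuM : Nv n uM)
    (hK1 : 32 * n ^ 4 ≤ |K|) (hK2 : 2 * n2 ^ 2 + 4 * n2 ^ 4 < |K|) :
    Win (insert (adv o u K) R) (insert τ B) := by
  classical
  have hn0 : (0 : ℤ) ≤ n := by linarith
  have hnn2 : n ≤ n2 := by
    rw [hn2]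
    have : 0 ≤ 32 * n ^ 4 * n := by positivity
    linarith
  have hn21 : 1 ≤ n2 := le_trans hn hnn2
  have mono : ∀ v : Pt, Nv n v → Nv n2 v := fun v h => ⟨le_trans h.1 hnn2, le_trans h.2 hnn2⟩
  have hKn : 2 * n2 ^ 2 < |K| := by
    have : 0 ≤ 4 * n2 ^ 4 := by positivity
    linarith
  have hK3 : n2 < |K| := by nlinarith
  have oR := hL.1
  have bR := hM.2.1
  have inR : ∀ {x}, x ∈ R → x ∈ R ∪ insert Y (insert τ B) := fun h => Finset.mem_union_left _ h
  have inB : ∀ {x}, x ∈ insert τ B → x ∈ R ∪ insert Y (insert τ B) := fun h =>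
    Finset.mem_union_right _ (Finset.mem_insert_of_mem h)
  have inY : Y ∈ R ∪ insert Y (insert τ B) :=
    Finset.mem_union_right _ (Finset.mem_insert_self _ _)
  have hu0 : u ≠ 0 := by
    rintro rfl
    apply hLM; rw [hu]; unfold dt; simp
  have huM0 : uM ≠ 0 := by
    rintro rfl
    apply hLM
    have := (huM a).mpr (by unfold dt; simp)
    exact this.swap23
  have hLMd : dt uM u ≠ 0 := by
    intro h0
    apply hLM
    rw [hu]
    exact dt_par huM0 h0 ((huM b).mp (Col.refl_right _ _))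
  -- a common point of `L` and `M` is `o`
  have meet : ∀ z, Col o a z → Col o b z → z = o := by
    intro z h1 h2
    by_contra hne
    have hz : z - o ≠ 0 := sub_ne_zero.mpr hne
    apply hLMd
    have e1 := (hu z).mp h1
    have e2 := (huM z).mp h2
    refine dt_par hz ?_ ?_
    · rw [dt_swap, e2, neg_zero]
    · rw [dt_swap, e1, neg_zero]
  set e := adv o u K with he
  have heL : Col o a e := by
    rw [hu, he]
    unfold dt adv; simp only [Prod.fst_sub, Prod.snd_sub]; ring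
  have hene : ∀ z ∈ R ∪ insert Y (insert τ B), e ≠ z := fun z hz =>
    adv_ne (mono _ (near z hz o (inR oR))) hu0 hK3
  have heo : e ≠ o := hene o (inR oR)
  have YB : Y ∉ B := fun h => hM.2.2.2 Y h hYM
  have τB : τ ∉ B := fun h => hL.2.2.2 τ h hτL
  have Yne : Y ≠ o := fun h => hYR (h ▸ oR)
  have τne : τ ≠ o := fun h => hτR (h ▸ oR)
  have YL : ¬ Col o a Y := fun h => Yne (meet Y h hYM)
  have τM : ¬ Col o b τ := fun h => τne (meet τ hτL h)
  have Yτ : Y ≠ τ := fun h => YL (h ▸ hτL)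
  have eM : ¬ Col o b e := fun h => heo (meet e heL h)
  have bL : ¬ Col o a b := hLM
  have hMe : ALine (insert e R) (insert τ B) o b := hM.insert (Finset.subset_insert _ _) τM
  have YR1 : Y ∉ insert e R := by
    intro h
    rcases Finset.mem_insert.mp h with h | h
    · exact hene Y inY h.symm
    · exact hYR h
  have YB1 : Y ∉ insert τ B := by
    intro h
    rcases Finset.mem_insert.mp h with h | h
    · exact Yτ h
    · exact YB h
  have onm : ∀ β β' : Pt, β ≠ β' → Col p q β → Col p q β' → Col β β' Y := fun β β' h h1 h2 =>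
    (Col.line_iff hpq h h1 h2).mp hYm
  have hN1 : NoThreat (insert Y (insert e R)) (insert τ B) := by
    refine hN.insert ((Finset.subset_insert _ _).trans (Finset.subset_insert _ _)) ?_
    intro β hβ β' hβ' hne hc
    rcases hLU τ hτL hτR β hβ β' hβ' hne hc with ⟨w, hw, hw'⟩ | ⟨h1, h2⟩
    · exact ⟨w, Finset.mem_insert_of_mem (Finset.mem_insert_of_mem hw), hw'⟩
    · exact ⟨Y, Finset.mem_insert_self _ _, onm β β' hne h1 h2⟩
  refine win_force hMe YR1 YB1 hYM hN1 ?_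
  intro t htR htB ht
  have htY : t ≠ Y := fun h => htR (h ▸ Finset.mem_insert_self _ _)
  have htR1 : t ∉ R := fun h => htR (Finset.mem_insert_of_mem (Finset.mem_insert_of_mem h))
  have htB1 : t ∉ B := fun h => htB (Finset.mem_insert_of_mem h)
  have hto : t ≠ o := fun h => htR1 (h ▸ oR)
  have htL : ¬ Col o a t := fun h => hto (meet t h ht)
  set R2 := insert Y (insert e R) with hR2
  have subR : R ⊆ R2 := (Finset.subset_insert _ _).trans (Finset.subset_insert _ _)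
  have YR2 : Y ∈ R2 := Finset.mem_insert_self _ _
  have eR2 : e ∈ R2 := Finset.mem_insert_of_mem (Finset.mem_insert_self _ _)
  have subY : ∀ w, w ∈ insert Y R → w ∈ R2 := by
    intro w hw
    rcases Finset.mem_insert.mp hw with rfl | hw
    · exact YR2
    · exact subR hw
  have hN2 : NoThreat R2 (insert t (insert τ B)) := by
    refine hN1.insert (Finset.Subset.refl _) ?_
    intro β hβ β' hβ' hne hc
    rcases Finset.mem_insert.mp hβ with hb | hb <;> rcases Finset.mem_insert.mp hβ' with hb' | hb'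
    · exact absurd (hb.trans hb'.symm) hne
    · rw [hb] at hc ⊢
      obtain ⟨w, hw, hw'⟩ := hZ β' hb' t ht htR1 hc
      exact ⟨w, subY w hw, hw'⟩
    · rw [hb'] at hc ⊢
      obtain ⟨w, hw, hw'⟩ := hZ β hb t ht htR1 hc.swap12
      exact ⟨w, subY w hw, hw'.swap12⟩
    · rcases hMU t ht htR1 β hb β' hb' hne hc with ⟨w, hw, hw'⟩ | ⟨h1, h2⟩
      · exact ⟨w, subR hw, hw'⟩
      · exact ⟨Y, YR2, onm β β' hne h1 h2⟩
  -- coordinates of `t`
  obtain ⟨T, hT⟩ : ∃ T, t = adv o uM T := exists_adv cM ((huM t).mp ht)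
  have parL_of : ∀ β β' : Pt, dt (β' - β) u = 0 → Par o a β β' := by
    intro β β' h0
    have h1 : dt u (a - o) = 0 := (hu a).mp (Col.refl_right _ _)
    have h2 : dt u (β' - β) = 0 := by rw [dt_swap, h0, neg_zero]
    have h3 := dt_par hu0 h1 h2
    unfold dt at h3
    unfold Par
    simp only [Prod.fst_sub, Prod.snd_sub] at h3
    linarith
  have offL : ∀ β ∈ B, ¬ Col o a β := fun β hβ h => hL.2.2.2 β hβ h
  have sg : ∀ x ∈ R2, x ∈ R ∪ insert Y (insert τ B) → ¬ Col o a x →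
      ∀ β ∈ insert t (insert τ B), ∀ β' ∈ insert t (insert τ B), β ≠ β' →
        Good R2 e x β β' := by
    intro x hx hx' hxL
    rw [hT, he]
    refine star_good hn hn2 hK1 hK2 hx ?_ (near o (inR oR) x hx')
      (fun β hβ => near x hx' β (inB hβ)) (fun β hβ => near o (inR oR) β (inB hβ))
      (fun β hβ β' hβ' => near β' (inB hβ') β (inB hβ)) nu nuM hLMd ?_ ?_ ?_ ?_
    · intro h0
      apply hxL
      rw [hu]
      have : dt u (x - o) = -dt u (o - x) := by
        unfold dt; simp only [Prod.fst_sub, Prod.snd_sub]; ring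
      rw [this, h0, neg_zero]
    · intro β hβ β' hβ' hne h0
      obtain ⟨w, hw, hw'⟩ := hNP β hβ β' hβ' hne (parL_of β β' h0)
      exact ⟨w, subR hw, hw'⟩
    · intro β hβ h0
      apply offL β hβ
      rw [hu]
      have h1 : dt u (τ - o) = 0 := (hu τ).mp hτL
      have h2 : dt u (τ - β) = 0 := by rw [dt_swap, h0, neg_zero]
      unfold dt at *
      simp only [Prod.fst_sub, Prod.snd_sub] at *
      linarith
    · intro β hβ h0
      rw [← hT] at h0 ⊢
      obtain ⟨w, hw, hw'⟩ := hP β hβ t ht htR1 htY (parL_of β t h0)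
      exact ⟨w, subY w hw, hw'⟩
    · intro h0
      rw [← hT] at h0
      apply htL
      rw [hu]
      have h1 : dt u (τ - o) = 0 := (hu τ).mp hτL
      have h2 : dt u (t - τ) = 0 := by rw [dt_swap, h0, neg_zero]
      unfold dt at *
      simp only [Prod.fst_sub, Prod.snd_sub] at *
      linarith
  -- the three edges
  have dto : ∀ x, ¬ Col o a x → dt u (o - x) ≠ 0 := by
    intro x hxL h0
    apply hxL
    rw [hu]
    have : dt u (x - o) = -dt u (o - x) := by
      unfold dt; simp only [Prod.fst_sub, Prod.snd_sub]; ring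
    rw [this, h0, neg_zero]
  have offz : ∀ x z, x ∈ R ∪ insert Y (insert τ B) → z ∈ R ∪ insert Y (insert τ B) →
      ¬ Col o a x → z ≠ x → ¬ Col e x z := by
    intro x z hx hz hxL hzx
    rw [he]
    exact near_off (mono _ (near o (inR oR) x hx)) (mono _ (near z hz x hx)) (dto x hxL) hzx hKn
  have al : ∀ x ∈ R2, x ∈ R ∪ insert Y (insert τ B) → ¬ Col o a x → x ∉ insert τ B →
      ¬ Col e x t → ALine R2 (insert t (insert τ B)) e x := by
    intro x hx hx' hxL hxB hxt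
    refine ⟨eR2, hx, hene x hx', ?_⟩
    intro z hz
    rcases Finset.mem_insert.mp hz with rfl | hz
    · exact hxt
    · exact offz x z hx' (inB hz) hxL (fun h => hxB (h ▸ hz))
  have tM : ∀ x, Col o b x → x ≠ t → ¬ Col o a x → ¬ Col e x t := by
    intro x hx hxt hxL hc
    apply eM
    exact (Col.line_iff hM.ne hxt hx ht).mpr hc.rot
  have hbt : b ≠ t := fun h => htR1 (h ▸ bR)
  have b3 : ¬ Col e z3 t := by
    intro hc
    by_cases hz3M : Col o b z3
    · exact tM z3 hz3M (fun h => htR1 (h ▸ hz3R)) hz3L hc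
    · have hx' := inR (x := z3) hz3R
      have key : dt (t - z3) (e - z3) = 0 := by
        have := col_dt.mp (show Col z3 t e from hc.rot)
        exact this
      by_cases hTb : 32 * n ^ 4 ≤ |T|
      · have h1 := star_t (β := z3) (x := z3) (u := u) (uL := uM) (o := o) (c := o) hn
          (near o (inR oR) z3 hx') (near z3 hx' z3 hx') (near o (inR oR) z3 hx') nu nuM hLMd
          hTb hK1
        rw [← hT, ← he, key, abs_zero] at h1
        exact absurd h1 (not_lt.mpr (abs_nonneg _))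
      · rw [not_le] at hTb
        have hnt : Nv n2 (t - z3) := by
          have a1 := near o (inR oR) z3 hx'
          have hT0 : 0 ≤ 32 * n ^ 4 := by positivity
          rw [hT]
          unfold Nv adv at *
          simp only [Prod.fst_sub, Prod.snd_sub] at *
          constructor
          · have e1 : o.1 + T * uM.1 - z3.1 = (o.1 - z3.1) + T * uM.1 := by ring
            rw [e1, hn2]
            refine le_trans (abs_add_le _ _) ?_
            rw [abs_mul]
            have := mul_le_mul hTb.le nuM.1 (abs_nonneg _) hT0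
            linarith [a1.1]
          · have e1 : o.2 + T * uM.2 - z3.2 = (o.2 - z3.2) + T * uM.2 := by ring
            rw [e1, hn2]
            refine le_trans (abs_add_le _ _) ?_
            rw [abs_mul]
            have := mul_le_mul hTb.le nuM.2 (abs_nonneg _) hT0
            linarith [a1.2]
        have htz : t ≠ z3 := fun h => htR1 (h ▸ hz3R)
        exact near_off (mono _ (near o (inR oR) z3 hx')) hnt (dto z3 hz3L) htz hKn
          (he ▸ hc)
  have Ab := al b (subR bR) (inR bR) bL (by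
      intro h
      rcases Finset.mem_insert.mp h with h | h
      · exact hτR (h ▸ bR)
      · exact hB b h bR) (tM b (Col.refl_right _ _) hbt bL)
  have AY := al Y YR2 inY YL YB1 (tM Y hYM htY.symm YL)
  have A3 := al z3 (subR hz3R) (inR hz3R) hz3L (by
      intro h
      rcases Finset.mem_insert.mp h with h | h
      · exact hτR (h ▸ hz3R)
      · exact hB z3 h hz3R) b3
  have bY : b ≠ Y := fun h => hYR (h ▸ bR)
  have z3Y : z3 ≠ Y := fun h => hYR (h ▸ hz3R)
  exact star3 hN2 Ab AY A3 (offz b Y (inR bR) inY bL bY.symm)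
    (offz b z3 (inR bR) (inR hz3R) bL hz3b) (offz Y z3 inY (inR hz3R) YL z3Y)
    (sg b (subR bR) (inR bR) bL) (sg Y YR2 inY YL) (sg z3 (subR hz3R) (inR hz3R) hz3L)


/-- LEMMA C: `L = oa` and `M = ob` are hit by (at most) the same blue line `m = pq` only -/
theorem lemC {R B : Finset Pt} {o a b v0 r p q Y z3 x0 x1 x2 x3 : Pt}
    (hN : NoThreat R B) (hB : ∀ β ∈ B, β ∉ R)
    (hL : ALine R B o a) (hM : ALine R B o b)
    (hNl : ALine R B v0 r) (hvM : Col o b v0)
    (hpq : p ≠ q)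
    (hYM : Col o b Y) (hYm : Col p q Y) (hYR : Y ∉ R)
    (hmR : ∀ z ∈ R, ¬ Col p q z)
    (hLU : ∀ z, Col o a z → z ∉ R → ∀ β ∈ B, ∀ β' ∈ B, β ≠ β' → Col β β' z →
      (∃ w ∈ R, Col β β' w) ∨ (Col p q β ∧ Col p q β'))
    (hMU : ∀ z, Col o b z → z ∉ R → ∀ β ∈ B, ∀ β' ∈ B, β ≠ β' → Col β β' z →
      (∃ w ∈ R, Col β β' w) ∨ (Col p q β ∧ Col p q β'))
    (hLM : ¬ Col o a b) (hLN : ¬ Par o a v0 r) (hMN : ¬ Col o b r)
    (hLm : ¬ Par o a p q) (hNm : ¬ Par v0 r p q)
    (hx0 : x0 ∈ R) (hx1 : x1 ∈ R) (hx2 : x2 ∈ R) (hx3 : x3 ∈ R)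
    (h012 : ¬ Col x0 x1 x2) (h013 : ¬ Col x0 x1 x3) (h023 : ¬ Col x0 x2 x3)
    (h123 : ¬ Col x1 x2 x3)
    (hz3R : z3 ∈ R) (hz3L : ¬ Col o a z3) (hz3b : z3 ≠ b)
    (hNP : ∀ β ∈ B, ∀ β' ∈ B, β ≠ β' → Par o a β β' → ∃ w ∈ R, Col β β' w)
    (hZ : ∀ τ, Col o a τ → Col p q τ → τ ∉ R → ∀ β ∈ B, ∀ t, Col o b t → t ∉ R →
      Col τ β t → ∃ w ∈ insert Y R, Col τ β w)
    (hP : ∀ β ∈ B, ∀ t, Col o b t → t ∉ R → t ≠ Y → Par o a β t →
      ∃ w ∈ insert Y R, Col β t w)
    (hparM : ∀ β ∈ B, ∀ β' ∈ B, β ≠ β' → Par o b β β' → (∃ w ∈ R, Col β β' w) ∨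
      ∀ x ∈ ({x0, x1, x2, x3} : Finset Pt), ¬ Col o b x → ∀ z, Col o x z → ¬ Col β β' z)
    (hparm : ∀ β ∈ B, ∀ β' ∈ B, β ≠ β' → Par p q β β' → (∃ w ∈ R, Col β β' w) ∨
      Col p q β ∨ ∀ x ∈ ({x0, x1, x2, x3} : Finset Pt), ∀ z, Col Y x z → ¬ Col β β' z) :
    Win R B := by
  classical
  obtain ⟨u, E0, W, Γ, cu, hu, hW, h⟩ := lemB_e hL hM hNl hvM hpq hYM hYm hYR hmR hMU hLM hLN
    hMN hLm hNm hx0 hx1 hx2 hx3 h012 h013 h023 h123 hB
    (fun β hβ β' hβ' hne hP => Or.inl (hNP β hβ β' hβ' hne hP)) hparM hparm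
  obtain ⟨uM, cM, gM, hgM, hvMM⟩ := exists_prim (sub_ne_zero.mpr hM.ne.symm)
  have M_iff := line_iff_dt hgM hvMM
  have hu0 : u ≠ 0 := by
    rintro rfl
    obtain ⟨c1, c2, hc⟩ := cu
    simp only [Prod.fst_zero, Prod.snd_zero, mul_zero, add_zero] at hc
    exact absurd hc (by norm_num)
  -- the point of `L` on `m`
  obtain ⟨τ0, hτ0⟩ : ∃ τ0 : Pt, ∀ t, Col o a t → Col p q t → t ∉ R → t = τ0 := by
    by_cases hex : ∃ t, Col o a t ∧ Col p q t ∧ t ∉ R
    · obtain ⟨t0, h1, h2, h3⟩ := hex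
      refine ⟨t0, ?_⟩
      intro t g1 g2 g3
      by_contra hne
      apply hmR o hL.1
      exact (Col.line_eq_of_two (z := o) hL.ne hpq hne g1 h1 g2 h2).mp (Col.refl_left _ _)
    · exact ⟨o, fun t g1 g2 g3 => absurd ⟨t, g1, g2, g3⟩ hex⟩
  obtain ⟨n, hn, hnF⟩ := exists_bound
    ((((R ∪ insert Y (insert τ0 B)) ×ˢ (R ∪ insert Y (insert τ0 B))).image
      (fun p : Pt × Pt => p.1 - p.2)) ∪ {u, uM})
  have near : ∀ a ∈ R ∪ insert Y (insert τ0 B), ∀ b ∈ R ∪ insert Y (insert τ0 B),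
      Nv n (a - b) := by
    intro a ha b hb
    apply hnF
    apply Finset.mem_union_left
    rw [Finset.mem_image]
    exact ⟨(a, b), Finset.mem_product.mpr ⟨ha, hb⟩, rfl⟩
  obtain ⟨n2, hn2⟩ : ∃ n2, n2 = n + 32 * n ^ 4 * n := ⟨_, rfl⟩
  obtain ⟨m, hm⟩ := exists_large E0 W
    (max Γ (32 * n ^ 4 + (2 * n2 ^ 2 + 4 * n2 ^ 4) + n + 1)) hW
  have hm1 : Γ ≤ |E0 + W * m| := le_trans (le_max_left _ _) hm
  have hm2 : 32 * n ^ 4 + (2 * n2 ^ 2 + 4 * n2 ^ 4) + n + 1 ≤ |E0 + W * m| :=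
    le_trans (le_max_right _ _) hm
  have q1 : 0 ≤ 32 * n ^ 4 := by positivity
  have q2 : 0 ≤ 2 * n2 ^ 2 + 4 * n2 ^ 4 := by positivity
  have hne : ∀ z ∈ R ∪ B, adv o u (E0 + W * m) ≠ z := by
    intro z hz
    have hz' : z ∈ R ∪ insert Y (insert τ0 B) := by
      rcases Finset.mem_union.mp hz with h | h
      · exact Finset.mem_union_left _ h
      · exact Finset.mem_union_right _ (Finset.mem_insert_of_mem (Finset.mem_insert_of_mem h))
    exact adv_ne (near z hz' o (Finset.mem_union_left _ hL.1)) hu0 (by linarith)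
  have heL : Col o a (adv o u (E0 + W * m)) := by
    rw [hu]
    unfold dt adv; simp only [Prod.fst_sub, Prod.snd_sub]; ring
  refine win_force hL (fun hh => hne _ (Finset.mem_union_left _ hh) rfl)
    (fun hh => hne _ (Finset.mem_union_right _ hh) rfl) heL
    (hN.mono (Finset.subset_insert _ _) (Finset.Subset.refl _)) ?_
  intro t htR htB htc
  have htR1 : t ∉ R := fun hh => htR (Finset.mem_insert_of_mem hh)
  by_cases hth : ∀ β ∈ B, ∀ β' ∈ B, β ≠ β' → Col β β' t →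
      ∃ w ∈ insert (adv o u (E0 + W * m)) R, Col β β' w
  · exact h m hm1 t htc htR htB (hN.insert (Finset.subset_insert _ _) hth)
  · -- the threat on `m`
    have hth' : ∃ β ∈ B, ∃ β' ∈ B, β ≠ β' ∧ Col β β' t ∧
        ∀ w ∈ insert (adv o u (E0 + W * m)) R, ¬ Col β β' w := by
      by_contra hcon
      apply hth
      intro β hβ β' hβ' hne hc
      by_contra hw
      exact hcon ⟨β, hβ, β', hβ', hne, hc, fun w hw1 hw2 => hw ⟨w, hw1, hw2⟩⟩
    obtain ⟨β, hβ, β', hβ', hne', hc, hw⟩ := hth'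
    have hm' : Col p q t := by
      rcases hLU t htc htR1 β hβ β' hβ' hne' hc with ⟨w, hw1, hw2⟩ | ⟨h1, h2⟩
      · exact absurd hw2 (hw w (Finset.mem_insert_of_mem hw1))
      · exact (Col.line_iff hpq hne' h1 h2).mpr hc
    have ht0 := hτ0 t htc hm' htR1
    rw [← ht0] at near
    exact block_node hn hN hB hL hM hu M_iff cM hLM hpq hYM hYm hYR hLU hMU htc htR1 hz3R hz3L
      hz3b hNP (hZ t htc hm' htR1) hP hn2 near (hnF u (by simp)) (hnF uM (by simp))
      (by linarith) (by linarith)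

end Pool.Agent.K4L
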