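import Pool.Agent.K4L.LemBZ
import Pool.Agent.K4L.W0Tri

/-!
# The answer `t ∈ M` with an alive line `t β ∥ L` in the attack node of Lemma C
-/

namespace Pool.Agent.K4L

/-- a line parallel to `L` which does not meet `o x` does not meet `e x` for a divisible far
point `e` of `L` -/
theorem par_off_div {o x u e z β t : Pt} {K : ℤ} (he : e = adv o u K)
    (hH : dt u (o - x) ≠ 0) (hd : dt u (o - x) ∣ K)
    (h0 : dt (t - β) u = 0) (hno : ∀ z, Col o x z → ¬ Col β t z) (hz : Col e x z) :
    ¬ Col β t z := by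
  intro hc
  obtain ⟨K', hK'⟩ := hd
  -- the translated point
  have e1 := hz
  rw [he] at e1
  have key : dt (z - x) (o - x) + K * dt (z - x) u = 0 := by
    unfold Col adv at e1
    unfold dt
    simp only [Prod.fst_sub, Prod.snd_sub] at *
    linear_combination e1
  refine hno (adv z u (-(K' * dt u (z - x)))) ?_ ?_
  · have : dt (o - x) (adv z u (-(K' * dt u (z - x))) - x) = 0 := by
      have e2 : dt (o - x) (adv z u (-(K' * dt u (z - x))) - x) =
          dt (o - x) (z - x) + K' * dt u (z - x) * dt u (o - x) := by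
        unfold dt adv; simp only [Prod.fst_sub, Prod.snd_sub]; ring
      have e3 : dt (z - x) u = - dt u (z - x) := dt_swap _ _
      have e4 : dt (z - x) (o - x) = - dt (o - x) (z - x) := dt_swap _ _
      rw [e3, e4, hK'] at key
      rw [e2]
      linarith
    have h2 : Col x o (adv z u (-(K' * dt u (z - x)))) := col_dt.mpr this
    exact h2.swap12
  · have h1 : dt (t - β) (z - β) = 0 := col_dt.mp hc
    apply col_dt.mpr
    have e2 : dt (t - β) (adv z u (-(K' * dt u (z - x))) - β) =
        dt (t - β) (z - β) - K' * dt u (z - x) * dt (t - β) u := by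
      unfold dt adv; simp only [Prod.fst_sub, Prod.snd_sub]; ring
    rw [e2, h1, h0]; ring

theorem block_par {R B R2 : Finset Pt} {n n2 K T : ℤ} {o a b Y τ t β0 x u uM e : Pt}
    (hn2 : n2 = n + 32 * n ^ 4 * n) (hn : 1 ≤ n)
    (near : ∀ x ∈ R ∪ insert Y (insert τ B), ∀ x' ∈ R ∪ insert Y (insert τ B), Nv n (x - x'))
    (nu : Nv n u) (nuM : Nv n uM)
    (hKd : ∀ x ∈ R, dt u (x - o) ≠ 0 → dt u (o - x) ∣ K)
    (hK2 : 2 * n2 ^ 2 + 4 * n2 ^ 4 < |K|)
    (hu : ∀ z, Col o a z ↔ dt u (z - o) = 0) (hu0 : u ≠ 0)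
    (hLMd : dt uM u ≠ 0) (hT : t = adv o uM T)
    (hR2 : R2 = insert Y (insert e R)) (he : e = adv o u K)
    (hN2 : NoThreat R2 (insert t (insert τ B)))
    (hM : ALine R B o b) (hB : ∀ β ∈ B, β ∉ R)
    (hBR : ∀ β ∈ insert t (insert τ B), β ∉ R2)
    (hNP : ∀ β ∈ B, ∀ β' ∈ B, β ≠ β' → Par o a β β' → ∃ w ∈ R, Col β β' w)
    (hLM : ¬ Col o a b) (hτL : Col o a τ) (htL : ¬ Col o a t) (ht : Col o b t)
    (hβ0 : β0 ∈ B) (h0 : dt (t - β0) u = 0) (hal : ∀ w ∈ insert Y R, ¬ Col β0 t w)
    (hxR : x ∈ R) (hxL : ¬ Col o a x) (hxM : ¬ Col o b x)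
    (hxB : ∀ z ∈ insert τ B, ¬ Col b x z) (hxP : ¬ Par o a b x)
    (hxm : ∀ z, Col o x z → ¬ Col β0 t z)
    (offL : ∀ β ∈ B, ¬ Col o a β)
    (parL_of : ∀ β β' : Pt, dt (β' - β) u = 0 → Par o a β β')
    (offz : ∀ x z, x ∈ R ∪ insert Y (insert τ B) → z ∈ R ∪ insert Y (insert τ B) →
      ¬ Col o a x → z ≠ x → ¬ Col e x z)
    (eM : ¬ Col o b e) (hene : ∀ z ∈ R ∪ insert Y (insert τ B), e ≠ z) :
    Win R2 (insert t (insert τ B)) := by
  classical
  have hn0 : (0 : ℤ) ≤ n := by linarith
  have hnn2 : n ≤ n2 := by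
    rw [hn2]
    have : 0 ≤ 32 * n ^ 4 * n := by positivity
    linarith
  have mono : ∀ v : Pt, Nv n v → Nv n2 v := fun v h => ⟨le_trans h.1 hnn2, le_trans h.2 hnn2⟩
  have hKn : 2 * n2 ^ 2 < |K| := by
    have : 0 ≤ 4 * n2 ^ 4 := by positivity
    linarith
  have oR := hM.1
  have bR := hM.2.1
  have inR : ∀ {x}, x ∈ R → x ∈ R ∪ insert Y (insert τ B) := fun h => Finset.mem_union_left _ h
  have inB : ∀ {x}, x ∈ insert τ B → x ∈ R ∪ insert Y (insert τ B) := fun h =>
    Finset.mem_union_right _ (Finset.mem_insert_of_mem h)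
  have subR : R ⊆ R2 := by
    rw [hR2]; exact (Finset.subset_insert _ _).trans (Finset.subset_insert _ _)
  have eR2 : e ∈ R2 := by
    rw [hR2]; exact Finset.mem_insert_of_mem (Finset.mem_insert_self _ _)
  have tB : t ∈ insert t (insert τ B) := Finset.mem_insert_self _ _
  have β0B : β0 ∈ insert t (insert τ B) :=
    Finset.mem_insert_of_mem (Finset.mem_insert_of_mem hβ0)
  have htR2 : t ∉ R2 := hBR t tB
  have htβ0 : t ≠ β0 := by
    rintro rfl
    exact hM.2.2.2 t hβ0 ht
  have hbt : b ≠ t := fun h => htR2 (h ▸ subR bR)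
  have bτ : b ∉ insert τ B := by
    intro h
    exact hBR b (Finset.mem_insert_of_mem h) (subR bR)
  have xτ : x ∉ insert τ B := fun h => hBR x (Finset.mem_insert_of_mem h) (subR hxR)
  have hxb : x ≠ b := by
    rintro rfl; exact hxM (Col.refl_right _ _)
  -- `t` is near
  have hTb : |T| ≤ 32 * n ^ 4 := by
    have e1 : T * dt uM u = - dt (o - β0) u := by
      rw [hT] at h0
      have : dt (adv o uM T - β0) u = T * dt uM u + dt (o - β0) u := by
        unfold dt adv; simp only [Prod.fst_sub, Prod.snd_sub]; ring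
      linarith
    have h1 := Int.one_le_abs hLMd
    have h2 : |T| * |dt uM u| = |dt (o - β0) u| := by
      rw [← abs_mul, e1, abs_neg]
    have h3 := (near o (inR oR) β0 (inB (Finset.mem_insert_of_mem hβ0))).dt nu
    have h4 : |T| ≤ |T| * |dt uM u| := by nlinarith [abs_nonneg T]
    have h5 : 2 * n ^ 2 ≤ 32 * n ^ 4 := by nlinarith [mul_pos (show (0:ℤ) < n by linarith) (show (0:ℤ) < n by linarith), pow_le_pow_left₀ (show (0:ℤ) ≤ 1 by norm_num) hn 2, sq_nonneg (n^2), sq_nonneg n]
    linarith
  have hnt : ∀ y ∈ R ∪ insert Y (insert τ B), Nv n2 (t - y) := by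
    intro y hy
    have a1 := near o (inR oR) y hy
    have hT0 : 0 ≤ 32 * n ^ 4 := by positivity
    rw [hT]
    unfold Nv adv at *
    simp only [Prod.fst_sub, Prod.snd_sub] at *
    constructor
    · have e1 : o.1 + T * uM.1 - y.1 = (o.1 - y.1) + T * uM.1 := by ring
      rw [e1, hn2]
      refine le_trans (abs_add_le _ _) ?_
      rw [abs_mul]
      have := mul_le_mul hTb nuM.1 (abs_nonneg _) hT0
      linarith [a1.1]
    · have e1 : o.2 + T * uM.2 - y.2 = (o.2 - y.2) + T * uM.2 := by ring
      rw [e1, hn2]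
      refine le_trans (abs_add_le _ _) ?_
      rw [abs_mul]
      have := mul_le_mul hTb nuM.2 (abs_nonneg _) hT0
      linarith [a1.2]
  have dto : ∀ x, ¬ Col o a x → dt u (o - x) ≠ 0 := by
    intro x hxL h0
    apply hxL
    rw [hu]
    have : dt u (x - o) = -dt u (o - x) := by
      unfold dt; simp only [Prod.fst_sub, Prod.snd_sub]; ring
    rw [this, h0, neg_zero]
  have dtox : ∀ x, dt u (o - x) ≠ 0 → dt u (x - o) ≠ 0 := by
    intro x h h0
    apply h
    have : dt u (x - o) = -dt u (o - x) := by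
      unfold dt; simp only [Prod.fst_sub, Prod.snd_sub]; ring
    linarith
  -- pairs not parallel to `L`
  have sgn : ∀ y ∈ R2, y ∈ R ∪ insert Y (insert τ B) → ¬ Col o a y →
      ∀ β ∈ insert t (insert τ B), ∀ β' ∈ insert t (insert τ B), dt (β' - β) u ≠ 0 →
        Good R2 e y β β' := by
    intro y hy hy' hyL β hβ β' hβ' hne
    have hx' : dt u (adv o u K - y) ≠ 0 := by
      have e1 : dt u (adv o u K - y) = dt u (o - y) := by
        unfold dt adv; simp only [Prod.fst_sub, Prod.snd_sub]; ring
      rw [e1]; exact dto y hyL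
    have nb : ∀ γ ∈ insert t (insert τ B), ∀ z ∈ R ∪ insert Y (insert τ B), Nv n2 (γ - z) := by
      intro γ hγ z hz
      rcases Finset.mem_insert.mp hγ with rfl | hγ
      · exact hnt z hz
      · exact mono _ (near γ (inB hγ) z hz)
    have nbb : Nv n2 (β' - β) := by
      rcases Finset.mem_insert.mp hβ with rfl | hβ1
      · rcases Finset.mem_insert.mp hβ' with rfl | hβ1'
        · exfalso; apply hne; unfold dt; simp
        · exact (hnt β' (inB hβ1')).neg
      · exact nb β' hβ' β (inB hβ1)
    rw [he]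
    exact good_of_star u hy hx' (star_near (mono _ (near o (inR oR) y hy'))
      (nb β hβ y hy').neg nbb (mono _ nu) hne hK2)
  -- parallel pairs
  have parp : ∀ β ∈ insert t (insert τ B), ∀ β' ∈ insert t (insert τ B), β ≠ β' →
      dt (β' - β) u = 0 → (∃ w ∈ R2, Col β β' w) ∨ (Col t β0 β ∧ Col t β0 β') := by
    have onm : ∀ β, dt (t - β) u = 0 → Col t β0 β := by
      intro β hβ
      apply col_dt.mpr
      have g1 : dt u (β0 - t) = 0 := by
        have : dt u (β0 - t) = dt (t - β0) u := by
          unfold dt; simp only [Prod.fst_sub, Prod.snd_sub]; ring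
        rw [this, h0]
      have g2 : dt u (β - t) = 0 := by
        have : dt u (β - t) = dt (t - β) u := by
          unfold dt; simp only [Prod.fst_sub, Prod.snd_sub]; ring
        rw [this, hβ]
      exact dt_par hu0 g1 g2
    have τt : dt (τ - t) u ≠ 0 := by
      intro h
      apply htL
      rw [hu]
      have h1 : dt u (τ - o) = 0 := (hu τ).mp hτL
      unfold dt at *
      simp only [Prod.fst_sub, Prod.snd_sub] at *
      linarith
    have τβ : ∀ β ∈ B, dt (τ - β) u ≠ 0 := by
      intro β hβ h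
      apply offL β hβ
      rw [hu]
      have h1 : dt u (τ - o) = 0 := (hu τ).mp hτL
      unfold dt at *
      simp only [Prod.fst_sub, Prod.snd_sub] at *
      linarith
    have sw : ∀ β β' : Pt, dt (β' - β) u = 0 → dt (β - β') u = 0 := by
      intro β β' h
      have : dt (β - β') u = - dt (β' - β) u := by
        unfold dt; simp only [Prod.fst_sub, Prod.snd_sub]; ring
      rw [this, h, neg_zero]
    intro β hβ β' hβ' hne h
    rcases Finset.mem_insert.mp hβ with hb | hb
    · rcases Finset.mem_insert.mp hβ' with hb' | hb'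
      · exact absurd (hb.trans hb'.symm) hne
      · rcases Finset.mem_insert.mp hb' with hb'' | hb''
        · rw [hb, hb''] at h; exact absurd h τt
        · right
          rw [hb] at h ⊢
          exact ⟨Col.refl_left _ _, onm β' (sw _ _ h)⟩
    · rcases Finset.mem_insert.mp hβ' with hb' | hb'
      · rcases Finset.mem_insert.mp hb with hb'' | hb''
        · rw [hb', hb''] at h; exact absurd (sw _ _ h) τt
        · right
          rw [hb'] at h ⊢
          exact ⟨onm β h, Col.refl_left _ _⟩
      · rcases Finset.mem_insert.mp hb with h1 | h1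
        · rcases Finset.mem_insert.mp hb' with h2 | h2
          · exact absurd (h1.trans h2.symm) hne
          · rw [h1] at h; exact absurd (sw _ _ h) (τβ β' h2)
        · rcases Finset.mem_insert.mp hb' with h2 | h2
          · rw [h2] at h; exact absurd h (τβ β h1)
          · left
            obtain ⟨w, hw, hw'⟩ := hNP β h1 β' h2 hne (parL_of β β' h)
            exact ⟨w, subR hw, hw'⟩
  have mR2 : ∀ z ∈ R2, ¬ Col t β0 z := by
    intro z hz hc
    rw [hR2] at hz
    rcases Finset.mem_insert.mp hz with rfl | hz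
    · exact hal z (Finset.mem_insert_self _ _) hc.swap12
    · rcases Finset.mem_insert.mp hz with rfl | hz
      · -- `e` on the parallel
        apply htL
        rw [hu]
        have h1 : dt (β0 - t) (z - t) = 0 := col_dt.mp hc
        have h2 : dt (β0 - t) u = 0 := by
          have : dt (β0 - t) u = - dt (t - β0) u := by
            unfold dt; simp only [Prod.fst_sub, Prod.snd_sub]; ring
          rw [this, h0, neg_zero]
        have h3 : dt u (z - t) = 0 := dt_par (sub_ne_zero.mpr htβ0.symm) h2 h1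
        have h4 : dt u (z - t) = dt u (o - t) := by
          rw [he]; unfold dt adv; simp only [Prod.fst_sub, Prod.snd_sub]; ring
        have h5 : dt u (t - o) = - dt u (o - t) := by
          unfold dt; simp only [Prod.fst_sub, Prod.snd_sub]; ring
        rw [h5, ← h4, h3, neg_zero]
      · exact hal z (Finset.mem_insert_of_mem hz) hc.swap12
  -- the three edges
  have bL : ¬ Col o a b := hLM
  have hx' := inR (x := x) hxR
  have hb' := inR (x := b) bR
  have ext : ¬ Col e x t := by
    rw [he]
    exact near_off (mono _ (near o (inR oR) x hx')) (hnt x hx') (dto x hxL)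
      (fun h => htR2 (h ▸ subR hxR)) hKn
  have ebt : ¬ Col e b t := by
    rw [he]
    exact near_off (mono _ (near o (inR oR) b hb')) (hnt b hb') (dto b bL) hbt.symm hKn
  have Ax : ALine R2 (insert t (insert τ B)) e x := by
    refine ⟨eR2, subR hxR, hene x hx', ?_⟩
    intro z hz
    rcases Finset.mem_insert.mp hz with rfl | hz
    · exact ext
    · exact offz x z hx' (inB hz) hxL (fun h => xτ (h ▸ hz))
  have Ab : ALine R2 (insert t (insert τ B)) e b := by
    refine ⟨eR2, subR bR, hene b hb', ?_⟩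
    intro z hz
    rcases Finset.mem_insert.mp hz with rfl | hz
    · exact ebt
    · exact offz b z hb' (inB hz) bL (fun h => bτ (h ▸ hz))
  have Axb : ALine R2 (insert t (insert τ B)) b x := by
    refine ⟨subR bR, subR hxR, hxb.symm, ?_⟩
    intro z hz
    rcases Finset.mem_insert.mp hz with rfl | hz
    · intro hc
      apply hxM
      exact (Col.line_iff hM.ne hbt (Col.refl_right _ _) ht).mpr hc.swap23
    · exact hxB z hz
  have exb : ¬ Col e x b := offz x b hx' hb' hxL hxb.symm
  -- `e x` is uncovered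
  have Ux : Uncov R2 (insert t (insert τ B)) e x := by
    intro z hz hzR hzB β hβ β' hβ' hne hc
    by_cases hp : dt (β' - β) u = 0
    · rcases parp β hβ β' hβ' hne hp with hd | ⟨h1, h2⟩
      · exact hd
      · exfalso
        have hc' : Col β0 t z := ((Col.line_iff htβ0 hne h1 h2).mpr hc).swap12
        exact par_off_div he (dto x hxL) (hKd x hxR (dtox x (dto x hxL))) h0 hxm hz hc'
    · rcases sgn x (subR hxR) hx' hxL β hβ β' hβ' hp with hd | ⟨_, h2⟩
      · exact hd
      · exact absurd hc (h2 z hz)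
  have hBR' : ∀ β ∈ insert t (insert τ B), β ∉ R2 := hBR
  have hMU : ∀ z, Col e b z → z ∉ R2 → ∀ β ∈ insert t (insert τ B),
      ∀ β' ∈ insert t (insert τ B), β ≠ β' → Col β β' z →
      (∃ w ∈ R2, Col β β' w) ∨ (Col t β0 β ∧ Col t β0 β') := by
    intro z hz hzR β hβ β' hβ' hne hc
    by_cases hp : dt (β' - β) u = 0
    · exact parp β hβ β' hβ' hne hp
    · rcases sgn b (subR bR) hb' bL β hβ β' hβ' hp with hd | ⟨_, h2⟩
      · exact Or.inl hd
      · exact absurd hc (h2 z hz)
  by_cases hY' : ∃ Y', Col e b Y' ∧ Col t β0 Y'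
  · obtain ⟨Y', h1, h2⟩ := hY'
    refine lb3 (o := e) (a := x) (b := b) (p := t) (q := β0) (Y := Y') hN2 hBR Ax Ux Ab Axb htβ0
      h1 h2 (fun h => mR2 Y' h h2) mR2 hMU exb ?_ ?_ ?_
    · -- `e x` is not parallel to `t β0`
      intro hp
      apply hxL
      rw [hu]
      have h3 : dt (β0 - t) (x - e) = 0 := by
        unfold Par at hp; unfold dt; simp only [Prod.fst_sub, Prod.snd_sub]; linarith
      have h4 : dt (β0 - t) u = 0 := by
        have : dt (β0 - t) u = - dt (t - β0) u := by
          unfold dt; simp only [Prod.fst_sub, Prod.snd_sub]; ring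
        rw [this, h0, neg_zero]
      have h5 : dt u (x - e) = 0 := dt_par (sub_ne_zero.mpr htβ0.symm) h4 h3
      have h6 : dt u (x - e) = dt u (x - o) := by
        rw [he]; unfold dt adv; simp only [Prod.fst_sub, Prod.snd_sub]; ring
      rw [← h6]; exact h5
    · -- `b x` is not parallel to `t β0`
      intro hp
      apply hxP
      have h3 : dt (β0 - t) (x - b) = 0 := by
        unfold Par at hp; unfold dt; simp only [Prod.fst_sub, Prod.snd_sub]; linarith
      have h4 : dt (β0 - t) u = 0 := by
        have : dt (β0 - t) u = - dt (t - β0) u := by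
          unfold dt; simp only [Prod.fst_sub, Prod.snd_sub]; ring
        rw [this, h0, neg_zero]
      have h5 : dt u (x - b) = 0 := dt_par (sub_ne_zero.mpr htβ0.symm) h4 h3
      apply parL_of
      rw [dt_swap, h5, neg_zero]
    · intro β hβ β' hβ' hne hp
      have h4 : dt (β0 - t) u = 0 := by
        have : dt (β0 - t) u = - dt (t - β0) u := by
          unfold dt; simp only [Prod.fst_sub, Prod.snd_sub]; ring
        rw [this, h0, neg_zero]
      have h3 : dt (β0 - t) (β' - β) = 0 := by
        unfold Par at hp; unfold dt; simp only [Prod.fst_sub, Prod.snd_sub]; linarith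
      have h5 : dt u (β' - β) = 0 := dt_par (sub_ne_zero.mpr htβ0.symm) h4 h3
      have h6 : dt (β' - β) u = 0 := by rw [dt_swap, h5, neg_zero]
      rcases parp β hβ β' hβ' hne h6 with hd | ⟨h7, _⟩
      · exact Or.inl hd
      · exact Or.inr h7
  · have Ub : Uncov R2 (insert t (insert τ B)) e b := by
      intro z hz hzR hzB β hβ β' hβ' hne hc
      rcases hMU z hz hzR β hβ β' hβ' hne hc with hd | ⟨h1, h2⟩
      · exact hd
      · exact absurd ⟨z, hz, (Col.line_iff htβ0 hne h1 h2).mpr hc⟩ hY'
    exact w0_tri hN2 hBR Ax Ux Ab Ub Axb exb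

end Pool.Agent.K4L
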