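import Pool.Agent.K4L.LemCW

/-!
# Lemma C: final forms
-/

namespace Pool.Agent.K4L

theorem lb3_eZ {R B : Finset Pt} {o a b p q Y : Pt}
    (hL : ALine R B o a) (hM : ALine R B o b) (hNl : ALine R B b a)
    (hpq : p ≠ q) (hYM : Col o b Y) (hYm : Col p q Y) (hYR : Y ∉ R)
    (hmR : ∀ z ∈ R, ¬ Col p q z)
    (hMU : ∀ z, Col o b z → z ∉ R → ∀ β ∈ B, ∀ β' ∈ B, β ≠ β' → Col β β' z →
      (∃ w ∈ R, Col β β' w) ∨ (Col p q β ∧ Col p q β'))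
    (hLM : ¬ Col o a b) (hLm : ¬ Par o a p q) (hNm : ¬ Par b a p q)
    (hB : ∀ β ∈ B, β ∉ R)
    (hparM : ∀ β ∈ B, ∀ β' ∈ B, β ≠ β' → Par o b β β' → (∃ w ∈ R, Col β β' w) ∨
      ∀ z, Col o a z → ¬ Col β β' z)
    (hparm : ∀ β ∈ B, ∀ β' ∈ B, β ≠ β' → Par p q β β' → (∃ w ∈ R, Col β β' w) ∨
      Col p q β) :
    ClassZ R B o a := by
  have oR := hL.1
  have aR := hL.2.1
  have bR := hM.2.1
  have hLN : ¬ Par o a b a := by
    intro hP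
    apply hLM
    unfold Par at hP
    unfold Col
    linarith
  have hMN : ¬ Par o b b a := by
    intro hP
    apply hLM
    unfold Par at hP
    unfold Col
    linarith
  have hmM : ¬ Par p q o b := by
    intro hP
    apply hmR o oR
    have h1 := hYM
    have h2 := hYm
    unfold Par at hP
    unfold Col at h1 h2 ⊢
    rcases sub_ne_of_ne hM.ne with h | h
    · apply mul_left_cancel₀ h
      linear_combination (b.1 - o.1) * h2 - (q.1 - p.1) * h1 - (Y.1 - o.1) * hP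
    · apply mul_left_cancel₀ h
      linear_combination (b.2 - o.2) * h2 - (q.2 - p.2) * h1 - (Y.2 - o.2) * hP
  obtain ⟨uL, uM, uN, um, kY, n, hD, c, E0, W, Γ, hW, hdvd, h⟩ :=
    lemB3_core (o := o) (a := a) (b := b) (v0 := b) (r := a) (p := p) (q := q) (Y := Y)
      (x0 := o) (x1 := a) (x2 := b) (x := a) hL hM hNl
      (MNR_of_col bR (Col.refl_right _ _) hMN) hpq hYM hYm hYR hmR hMU hLM hLN hMN hLm hNm
      oR aR bR aR hL.ne.symm hM.ne.symm hNl.ne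
      (Or.inl ⟨Col.refl_left _ _, Col.refl_right _ _⟩)
      (Or.inr ⟨hmM, Or.inr ⟨o, oR, Col.refl_left _ _, Col.refl_left _ _, fun hP => hLM (by
        unfold Par at hP
        unfold Col
        linarith)⟩⟩)
      (Or.inr ⟨fun hP => hNm (by
        unfold Par at *
        linarith), Or.inr ⟨a, aR, Col.refl_left _ _, Col.refl_right _ _, fun hP => hLM (by
        unfold Par at hP
        unfold Col
        linarith)⟩⟩)
      (fun hc => hLM hc.swap23) hB hparM hparm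
  refine ⟨uL, E0, W, max Γ (1000 * n ^ 10), hD.cL, hD.L_iff, hW, hdvd, ?_⟩
  intro m hm t htL htR htB hNT
  obtain ⟨hsize, h'⟩ := h m (le_trans (le_max_left _ _) hm)
  have hbig : 1000 * n ^ 10 ≤ |E0 + W * m| := le_trans (le_max_right _ _) hm
  obtain ⟨T, rfl⟩ := exists_adv hD.cL ((hD.L_iff t).mp htL)
  have huL : uL ≠ 0 := c.uL0
  have hbL : dt uL (b - o) ≠ 0 := fun h => hLM ((hD.L_iff b).mpr h)
  have h0 : dt uL (o - b) ≠ 0 := by
    intro h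
    apply hbL
    unfold dt at *
    simp only [Prod.fst_sub, Prod.snd_sub] at *
    linarith
  have hd0 := hdvd m b bR hbL
  have hpar : ∀ β ∈ B, ∀ τ ∈ B, β ≠ τ → dt (τ - β) uL = 0 →
      (∃ w ∈ R, Col β τ w) ∨ ∀ z, Col o b z → ¬ Col β τ z := by
    intro β hβ τ hτ hne hp
    by_cases hd : ∃ w ∈ R, Col β τ w
    · exact Or.inl hd
    · right
      intro z hz hc
      have hzR : z ∉ R := fun h => hd ⟨z, h, hc⟩
      rcases hMU z hz hzR β hβ τ hτ hne hc with h | ⟨h1, h2⟩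
      · exact hd h
      · apply hLm
        have haL := (hD.L_iff a).mp (Col.refl_right _ _)
        have hτβ : τ - β ≠ 0 := sub_ne_zero.mpr hne.symm
        have e1 : dt (τ - β) (a - o) = 0 := by
          have g1 : dt uL (τ - β) = 0 := by rw [dt_swap, hp, neg_zero]
          exact dt_par huL g1 haL
        have e2 : dt (τ - β) (q - p) = 0 := by
          have g1 := col_dt.mp h1
          have g2 := col_dt.mp h2
          unfold dt at *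
          simp only [Prod.fst_sub, Prod.snd_sub] at *
          linarith
        have e3 := dt_par hτβ e1 e2
        unfold Par
        unfold dt at e3
        simp only [Prod.fst_sub, Prod.snd_sub] at e3
        linarith
  rcases h' T htR htB hNT with (hA | hC) | hw
  · -- `t` is near
    obtain ⟨α, hα⟩ := exists_adv hD.cL ((hD.L_iff a).mp (Col.refl_right _ _))
    have hα0 : α ≠ 0 := by
      rintro rfl
      apply hL.ne
      rw [hα]; unfold adv; simp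
    have near0 : ∀ v ∈ R ∪ B, ∀ w ∈ R ∪ B, Nv n (v - w) := by
      intro v hv w hw
      apply c.near
      · rcases Finset.mem_union.mp hv with h | h
        · exact Finset.mem_union_left _ h
        · exact Finset.mem_union_right _ (Finset.mem_insert_of_mem h)
      · rcases Finset.mem_union.mp hw with h | h
        · exact Finset.mem_union_left _ h
        · exact Finset.mem_union_right _ (Finset.mem_insert_of_mem h)
    refine star_win (a := a) c.hn near0 c.nL hB oR aR bR hα hα0 h0 c.Lal ?_ ?_ hpar hbig hd0 hA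
      htR hNT
    · intro β hβ h
      apply hM.2.2.2 β hβ
      have hc : Col b β o := col_dt.mpr h
      exact hc.swap12.swap23.swap12.swap23.swap12.swap23 |> fun h => by
        unfold Col at *
        linarith
    · intro β hβ h
      apply hNl.2.2.2 β hβ
      have hc : Col b β a := col_dt.mpr h
      exact hc.swap23
  · -- `t` is far
    exact far_win (a := a) c.hn c.near c.nL c.nM c.nm hD.cL hD.cM hD.L_iff hD.M_iff hD.m_iff
      hD.hLM hD.hLm hL hM hNl hpq hYM hYm hYR hmR hMU hLM hLm hNm hB hparm hpar hsize hd0 hC htR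
      hNT
  · exact hw

/-- LEMMA C, weaker parallels, the class version of Lemma B -/
theorem lemCW {R B : Finset Pt} {o a b v0 r p q Y z3 x0 x1 x2 x3 : Pt}
    (hN : NoThreat R B) (hB : ∀ β ∈ B, β ∉ R)
    (hL : ALine R B o a) (hM : ALine R B o b)
    (hNl : ALine R B v0 r) (hvM : Col o b v0)
    (hpq : p ≠ q)
    (hYM : Col o b Y) (hYm : Col p q Y) (hYR : Y ∉ R)
    (hmR : ∀ z ∈ R, ¬ Col p q z)
    (hLU : ∀ z, Col o a z → z ∉ R → ∀ β ∈ B, ∀ β' ∈ B, β ≠ β' → Col β β' z →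
      (∃ w ∈ R, Col β β' w) ∨ (Col p q β ∧ Col p q β'))
    (hMU : ∀ z, Col o b z → z ∉ R → ∀ β ∈ B, ∀ β' ∈ B, β ≠ β' → Col β β' z →
      (∃ w ∈ R, Col β β' w) ∨ (Col p q β ∧ Col p q β'))
    (hLM : ¬ Col o a b) (hLN : ¬ Par o a v0 r) (hMN : ¬ Col o b r)
    (hLm : ¬ Par o a p q) (hNm : ¬ Par v0 r p q)
    (hx0 : x0 ∈ R) (hx1 : x1 ∈ R) (hx2 : x2 ∈ R) (hx3 : x3 ∈ R)
    (h012 : ¬ Col x0 x1 x2) (h013 : ¬ Col x0 x1 x3) (h023 : ¬ Col x0 x2 x3)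
    (h123 : ¬ Col x1 x2 x3)
    (hz3R : z3 ∈ R) (hz3L : ¬ Col o a z3) (hz3b : z3 ≠ b)
    (hNP : ∀ β ∈ B, ∀ β' ∈ B, β ≠ β' → Par o a β β' → ∃ w ∈ R, Col β β' w)
    (hZ : ∀ τ, Col o a τ → Col p q τ → τ ∉ R → ∀ β ∈ B, ∀ t, Col o b t → t ∉ R →
      Col τ β t → ∃ w ∈ insert Y R, Col τ β w)
    (hP : ∀ τ, Col o a τ → Col p q τ → τ ∉ R → ∀ β ∈ B, ∀ t, Col o b t → t ∉ R → t ≠ Y →
      Par o a β t → (∃ w ∈ insert Y R, Col β t w) ∨
      ∃ x ∈ R, ¬ Col o a x ∧ ¬ Col o b x ∧ (∀ z ∈ insert τ B, ¬ Col b x z) ∧ ¬ Par o a b x ∧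
        (∀ z, Col o x z → ¬ Col β t z))
    (hparM : ∀ β ∈ B, ∀ β' ∈ B, β ≠ β' → Par o b β β' → (∃ w ∈ R, Col β β' w) ∨
      ∀ x ∈ ({x0, x1, x2, x3} : Finset Pt), ¬ Col o b x → ∀ z, Col o x z → ¬ Col β β' z)
    (hparm : ∀ β ∈ B, ∀ β' ∈ B, β ≠ β' → Par p q β β' → (∃ w ∈ R, Col β β' w) ∨
      Col p q β ∨ ∀ x ∈ ({x0, x1, x2, x3} : Finset Pt), ∀ z, Col Y x z → ¬ Col β β' z) :
    Win R B :=
  win_class_block hN hB hL hM hpq hYM hYm hYR hmR hLU hMU hLM hz3R hz3L hz3b hNP hZ hP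
    (lemB_eZ hL hM hNl hvM hpq hYM hYm hYR hmR hMU hLM hLN hMN hLm hNm hx0 hx1 hx2 hx3 h012 h013
      h023 h123 hB (fun β hβ β' hβ' hne hP => Or.inl (hNP β hβ β' hβ' hne hP)) hparM hparm)

/-- LEMMA C, the class version of Lemma B0 (`N` any alive line) -/
theorem lemC0W {R B : Finset Pt} {o a b v0 r p q Y z3 x0 x1 x2 x3 xg xg' : Pt}
    (hN : NoThreat R B) (hB : ∀ β ∈ B, β ∉ R)
    (hL : ALine R B o a) (hM : ALine R B o b)
    (hNl : ALine R B v0 r) (hMNR : ∀ z, Col o b z → Col v0 r z → z ∈ R)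
    (hpq : p ≠ q)
    (hYM : Col o b Y) (hYm : Col p q Y) (hYR : Y ∉ R)
    (hmR : ∀ z ∈ R, ¬ Col p q z)
    (hLU : ∀ z, Col o a z → z ∉ R → ∀ β ∈ B, ∀ β' ∈ B, β ≠ β' → Col β β' z →
      (∃ w ∈ R, Col β β' w) ∨ (Col p q β ∧ Col p q β'))
    (hMU : ∀ z, Col o b z → z ∉ R → ∀ β ∈ B, ∀ β' ∈ B, β ≠ β' → Col β β' z →
      (∃ w ∈ R, Col β β' w) ∨ (Col p q β ∧ Col p q β'))
    (hLM : ¬ Col o a b) (hLN : ¬ Par o a v0 r) (hMN : ¬ Par o b v0 r)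
    (hLm : ¬ Par o a p q) (hNm : ¬ Par v0 r p q)
    (hx0 : x0 ∈ R) (hx1 : x1 ∈ R) (hx2 : x2 ∈ R) (hx3 : x3 ∈ R)
    (h012 : ¬ Col x0 x1 x2) (h013 : ¬ Col x0 x1 x3) (h023 : ¬ Col x0 x2 x3)
    (h123 : ¬ Col x1 x2 x3)
    (hz3R : z3 ∈ R) (hz3L : ¬ Col o a z3) (hz3b : z3 ≠ b)
    (hNP : ∀ β ∈ B, ∀ β' ∈ B, β ≠ β' → Par o a β β' → ∃ w ∈ R, Col β β' w)
    (hZ : ∀ τ, Col o a τ → Col p q τ → τ ∉ R → ∀ β ∈ B, ∀ t, Col o b t → t ∉ R →
      Col τ β t → ∃ w ∈ insert Y R, Col τ β w)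
    (hP : ∀ τ, Col o a τ → Col p q τ → τ ∉ R → ∀ β ∈ B, ∀ t, Col o b t → t ∉ R → t ≠ Y →
      Par o a β t → (∃ w ∈ insert Y R, Col β t w) ∨
      ∃ x ∈ R, ¬ Col o a x ∧ ¬ Col o b x ∧ (∀ z ∈ insert τ B, ¬ Col b x z) ∧ ¬ Par o a b x ∧
        (∀ z, Col o x z → ¬ Col β t z))
    (hxg : xg ∈ ({x0, x1, x2, x3} : Finset Pt)) (hxg' : xg' ∈ ({x0, x1, x2, x3} : Finset Pt))
    (hgM : ¬ Col o b xg) (hgM' : ¬ Col o b xg') (hgg : xg' ≠ xg)
    (hparM : ∀ β ∈ B, ∀ β' ∈ B, β ≠ β' → Par o b β β' → (∃ w ∈ R, Col β β' w) ∨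
      ∀ x ∈ ({xg, xg'} : Finset Pt), ∀ z, Col o x z → ¬ Col β β' z)
    (hparm : ∀ β ∈ B, ∀ β' ∈ B, β ≠ β' → Par p q β β' → (∃ w ∈ R, Col β β' w) ∨
      Col p q β) :
    Win R B :=
  win_class_block hN hB hL hM hpq hYM hYm hYR hmR hLU hMU hLM hz3R hz3L hz3b hNP hZ hP
    (lemB0_eZ hL hM hNl hMNR hpq hYM hYm hYR hmR hMU hLM hLN hMN hLm hNm hx0 hx1 hx2 hx3 h012
      h013 h023 h123 hB hz3R hz3L hz3b (fun β hβ β' hβ' hne hP => Or.inl
        (hNP β hβ β' hβ' hne hP)) hxg hxg' hgM hgM' hgg hparM hparm)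

/-- the triangle version: `o, a, b` with alive sides, `o a` and `o b` are hit only by `m = p q` -/
theorem lb3C {R B : Finset Pt} {o a b p q Y : Pt}
    (hN : NoThreat R B) (hB : ∀ β ∈ B, β ∉ R)
    (hL : ALine R B o a) (hM : ALine R B o b) (hNl : ALine R B b a)
    (hpq : p ≠ q) (hYM : Col o b Y) (hYm : Col p q Y) (hYR : Y ∉ R)
    (hmR : ∀ z ∈ R, ¬ Col p q z)
    (hLU : ∀ z, Col o a z → z ∉ R → ∀ β ∈ B, ∀ β' ∈ B, β ≠ β' → Col β β' z →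
      (∃ w ∈ R, Col β β' w) ∨ (Col p q β ∧ Col p q β'))
    (hMU : ∀ z, Col o b z → z ∉ R → ∀ β ∈ B, ∀ β' ∈ B, β ≠ β' → Col β β' z →
      (∃ w ∈ R, Col β β' w) ∨ (Col p q β ∧ Col p q β'))
    (hLM : ¬ Col o a b) (hLm : ¬ Par o a p q) (hNm : ¬ Par b a p q)
    {z3 : Pt} (hz3R : z3 ∈ R) (hz3L : ¬ Col o a z3) (hz3b : z3 ≠ b)
    (hNP : ∀ β ∈ B, ∀ β' ∈ B, β ≠ β' → Par o a β β' → ∃ w ∈ R, Col β β' w)
    (hZ : ∀ τ, Col o a τ → Col p q τ → τ ∉ R → ∀ β ∈ B, ∀ t, Col o b t → t ∉ R →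
      Col τ β t → ∃ w ∈ insert Y R, Col τ β w)
    (hP : ∀ τ, Col o a τ → Col p q τ → τ ∉ R → ∀ β ∈ B, ∀ t, Col o b t → t ∉ R → t ≠ Y →
      Par o a β t → (∃ w ∈ insert Y R, Col β t w) ∨
      ∃ x ∈ R, ¬ Col o a x ∧ ¬ Col o b x ∧ (∀ z ∈ insert τ B, ¬ Col b x z) ∧ ¬ Par o a b x ∧
        (∀ z, Col o x z → ¬ Col β t z))
    (hparM : ∀ β ∈ B, ∀ β' ∈ B, β ≠ β' → Par o b β β' → (∃ w ∈ R, Col β β' w) ∨
      ∀ z, Col o a z → ¬ Col β β' z)
    (hparm : ∀ β ∈ B, ∀ β' ∈ B, β ≠ β' → Par p q β β' → (∃ w ∈ R, Col β β' w) ∨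
      Col p q β) : Win R B :=
  win_class_block hN hB hL hM hpq hYM hYm hYR hmR hLU hMU hLM hz3R hz3L hz3b hNP hZ hP
    (lb3_eZ hL hM hNl hpq hYM hYm hYR hmR hMU hLM hLm hNm hB hparM hparm)

end Pool.Agent.K4L
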