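import Pool.Agent.K4L.LemC
import Pool.Agent.K4L.LemCPar

/-!
# Lemma C with weaker conditions on the parallels (block node for any class version)
-/

namespace Pool.Agent.K4L

/-- the node `t = τ = L ∩ m`: Red blocks `m` in `Y = M ∩ m`, then the star of `e` wins -/
theorem block_nodeW {R B : Finset Pt} {n n2 K : ℤ} {o a b p q Y τ z3 u uM : Pt} (hn : 1 ≤ n)
    (hN : NoThreat R B) (hB : ∀ β ∈ B, β ∉ R)
    (hL : ALine R B o a) (hM : ALine R B o b)
    (hu : ∀ z, Col o a z ↔ dt u (z - o) = 0) (huM : ∀ z, Col o b z ↔ dt uM (z - o) = 0)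
    (cM : IsCoprime uM.1 uM.2) (hLM : ¬ Col o a b)
    (hpq : p ≠ q) (hYM : Col o b Y) (hYm : Col p q Y) (hYR : Y ∉ R)
    (hLU : ∀ z, Col o a z → z ∉ R → ∀ β ∈ B, ∀ β' ∈ B, β ≠ β' → Col β β' z →
      (∃ w ∈ R, Col β β' w) ∨ (Col p q β ∧ Col p q β'))
    (hMU : ∀ z, Col o b z → z ∉ R → ∀ β ∈ B, ∀ β' ∈ B, β ≠ β' → Col β β' z →
      (∃ w ∈ R, Col β β' w) ∨ (Col p q β ∧ Col p q β'))
    (hτL : Col o a τ) (hτR : τ ∉ R)
    (hz3R : z3 ∈ R) (hz3L : ¬ Col o a z3) (hz3b : z3 ≠ b)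
    (hNP : ∀ β ∈ B, ∀ β' ∈ B, β ≠ β' → Par o a β β' → ∃ w ∈ R, Col β β' w)
    (hZ : ∀ β ∈ B, ∀ t, Col o b t → t ∉ R → Col τ β t → ∃ w ∈ insert Y R, Col τ β w)
    (hP : ∀ β ∈ B, ∀ t, Col o b t → t ∉ R → t ≠ Y → Par o a β t →
      (∃ w ∈ insert Y R, Col β t w) ∨
      ∃ x ∈ R, ¬ Col o a x ∧ ¬ Col o b x ∧ (∀ z ∈ insert τ B, ¬ Col b x z) ∧ ¬ Par o a b x ∧
        (∀ z, Col o x z → ¬ Col β t z))
    (hn2 : n2 = n + 32 * n ^ 4 * n)
    (near : ∀ x ∈ R ∪ insert Y (insert τ B), ∀ x' ∈ R ∪ insert Y (insert τ B), Nv n (x - x'))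
    (nu : Nv n u) (nuM : Nv n uM)
    (hK1 : 32 * n ^ 4 ≤ |K|) (hK2 : 2 * n2 ^ 2 + 4 * n2 ^ 4 < |K|)
    (hKd : ∀ x ∈ R, dt u (x - o) ≠ 0 → dt u (o - x) ∣ K) :
    Win (insert (adv o u K) R) (insert τ B) := by
  classical
  have hn0 : (0 : ℤ) ≤ n := by linarith
  have hnn2 : n ≤ n2 := by
    rw [hn2]
    have : 0 ≤ 32 * n ^ 4 * n := by positivity
    linarith
  have hn21 : 1 ≤ n2 := le_trans hn hnn2
  have mono : ∀ v : Pt, Nv n v → Nv n2 v := fun v h => ⟨le_trans h.1 hnn2, le_trans h.2 hnn2⟩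
  have hKn : 2 * n2 ^ 2 < |K| := by
    have : 0 ≤ 4 * n2 ^ 4 := by positivity
    linarith
  have hK3 : n2 < |K| := by nlinarith
  have oR := hL.1
  have bR := hM.2.1
  have inR : ∀ {x}, x ∈ R → x ∈ R ∪ insert Y (insert τ B) := fun h => Finset.mem_union_left _ h
  have inB : ∀ {x}, x ∈ insert τ B → x ∈ R ∪ insert Y (insert τ B) := fun h =>
    Finset.mem_union_right _ (Finset.mem_insert_of_mem h)
  have inY : Y ∈ R ∪ insert Y (insert τ B) :=
    Finset.mem_union_right _ (Finset.mem_insert_self _ _)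
  have hu0 : u ≠ 0 := by
    rintro rfl
    apply hLM; rw [hu]; unfold dt; simp
  have huM0 : uM ≠ 0 := by
    rintro rfl
    apply hLM
    have := (huM a).mpr (by unfold dt; simp)
    exact this.swap23
  have hLMd : dt uM u ≠ 0 := by
    intro h0
    apply hLM
    rw [hu]
    exact dt_par huM0 h0 ((huM b).mp (Col.refl_right _ _))
  -- a common point of `L` and `M` is `o`
  have meet : ∀ z, Col o a z → Col o b z → z = o := by
    intro z h1 h2
    by_contra hne
    have hz : z - o ≠ 0 := sub_ne_zero.mpr hne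
    apply hLMd
    have e1 := (hu z).mp h1
    have e2 := (huM z).mp h2
    refine dt_par hz ?_ ?_
    · rw [dt_swap, e2, neg_zero]
    · rw [dt_swap, e1, neg_zero]
  set e := adv o u K with he
  have heL : Col o a e := by
    rw [hu, he]
    unfold dt adv; simp only [Prod.fst_sub, Prod.snd_sub]; ring
  have hene : ∀ z ∈ R ∪ insert Y (insert τ B), e ≠ z := fun z hz =>
    adv_ne (mono _ (near z hz o (inR oR))) hu0 hK3
  have heo : e ≠ o := hene o (inR oR)
  have YB : Y ∉ B := fun h => hM.2.2.2 Y h hYM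
  have τB : τ ∉ B := fun h => hL.2.2.2 τ h hτL
  have Yne : Y ≠ o := fun h => hYR (h ▸ oR)
  have τne : τ ≠ o := fun h => hτR (h ▸ oR)
  have YL : ¬ Col o a Y := fun h => Yne (meet Y h hYM)
  have τM : ¬ Col o b τ := fun h => τne (meet τ hτL h)
  have Yτ : Y ≠ τ := fun h => YL (h ▸ hτL)
  have eM : ¬ Col o b e := fun h => heo (meet e heL h)
  have bL : ¬ Col o a b := hLM
  have hMe : ALine (insert e R) (insert τ B) o b := hM.insert (Finset.subset_insert _ _) τM
  have YR1 : Y ∉ insert e R := by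
    intro h
    rcases Finset.mem_insert.mp h with h | h
    · exact hene Y inY h.symm
    · exact hYR h
  have YB1 : Y ∉ insert τ B := by
    intro h
    rcases Finset.mem_insert.mp h with h | h
    · exact Yτ h
    · exact YB h
  have onm : ∀ β β' : Pt, β ≠ β' → Col p q β → Col p q β' → Col β β' Y := fun β β' h h1 h2 =>
    (Col.line_iff hpq h h1 h2).mp hYm
  have hN1 : NoThreat (insert Y (insert e R)) (insert τ B) := by
    refine hN.insert ((Finset.subset_insert _ _).trans (Finset.subset_insert _ _)) ?_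
    intro β hβ β' hβ' hne hc
    rcases hLU τ hτL hτR β hβ β' hβ' hne hc with ⟨w, hw, hw'⟩ | ⟨h1, h2⟩
    · exact ⟨w, Finset.mem_insert_of_mem (Finset.mem_insert_of_mem hw), hw'⟩
    · exact ⟨Y, Finset.mem_insert_self _ _, onm β β' hne h1 h2⟩
  refine win_force hMe YR1 YB1 hYM hN1 ?_
  intro t htR htB ht
  have htY : t ≠ Y := fun h => htR (h ▸ Finset.mem_insert_self _ _)
  have htR1 : t ∉ R := fun h => htR (Finset.mem_insert_of_mem (Finset.mem_insert_of_mem h))
  have htB1 : t ∉ B := fun h => htB (Finset.mem_insert_of_mem h)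
  have hto : t ≠ o := fun h => htR1 (h ▸ oR)
  have htL : ¬ Col o a t := fun h => hto (meet t h ht)
  set R2 := insert Y (insert e R) with hR2
  have subR : R ⊆ R2 := (Finset.subset_insert _ _).trans (Finset.subset_insert _ _)
  have YR2 : Y ∈ R2 := Finset.mem_insert_self _ _
  have eR2 : e ∈ R2 := Finset.mem_insert_of_mem (Finset.mem_insert_self _ _)
  have subY : ∀ w, w ∈ insert Y R → w ∈ R2 := by
    intro w hw
    rcases Finset.mem_insert.mp hw with rfl | hw
    · exact YR2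
    · exact subR hw
  have hN2 : NoThreat R2 (insert t (insert τ B)) := by
    refine hN1.insert (Finset.Subset.refl _) ?_
    intro β hβ β' hβ' hne hc
    rcases Finset.mem_insert.mp hβ with hb | hb <;> rcases Finset.mem_insert.mp hβ' with hb' | hb'
    · exact absurd (hb.trans hb'.symm) hne
    · rw [hb] at hc ⊢
      obtain ⟨w, hw, hw'⟩ := hZ β' hb' t ht htR1 hc
      exact ⟨w, subY w hw, hw'⟩
    · rw [hb'] at hc ⊢
      obtain ⟨w, hw, hw'⟩ := hZ β hb t ht htR1 hc.swap12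
      exact ⟨w, subY w hw, hw'.swap12⟩
    · rcases hMU t ht htR1 β hb β' hb' hne hc with ⟨w, hw, hw'⟩ | ⟨h1, h2⟩
      · exact ⟨w, subR hw, hw'⟩
      · exact ⟨Y, YR2, onm β β' hne h1 h2⟩
  -- coordinates of `t`
  obtain ⟨T, hT⟩ : ∃ T, t = adv o uM T := exists_adv cM ((huM t).mp ht)
  have parL_of : ∀ β β' : Pt, dt (β' - β) u = 0 → Par o a β β' := by
    intro β β' h0
    have h1 : dt u (a - o) = 0 := (hu a).mp (Col.refl_right _ _)
    have h2 : dt u (β' - β) = 0 := by rw [dt_swap, h0, neg_zero]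
    have h3 := dt_par hu0 h1 h2
    unfold dt at h3
    unfold Par
    simp only [Prod.fst_sub, Prod.snd_sub] at h3
    linarith
  have offL : ∀ β ∈ B, ¬ Col o a β := fun β hβ h => hL.2.2.2 β hβ h
  -- the three edges
  have dto : ∀ x, ¬ Col o a x → dt u (o - x) ≠ 0 := by
    intro x hxL h0
    apply hxL
    rw [hu]
    have : dt u (x - o) = -dt u (o - x) := by
      unfold dt; simp only [Prod.fst_sub, Prod.snd_sub]; ring
    rw [this, h0, neg_zero]
  have offz : ∀ x z, x ∈ R ∪ insert Y (insert τ B) → z ∈ R ∪ insert Y (insert τ B) →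
      ¬ Col o a x → z ≠ x → ¬ Col e x z := by
    intro x z hx hz hxL hzx
    rw [he]
    exact near_off (mono _ (near o (inR oR) x hx)) (mono _ (near z hz x hx)) (dto x hxL) hzx hKn
  have al : ∀ x ∈ R2, x ∈ R ∪ insert Y (insert τ B) → ¬ Col o a x → x ∉ insert τ B →
      ¬ Col e x t → ALine R2 (insert t (insert τ B)) e x := by
    intro x hx hx' hxL hxB hxt
    refine ⟨eR2, hx, hene x hx', ?_⟩
    intro z hz
    rcases Finset.mem_insert.mp hz with rfl | hz
    · exact hxt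
    · exact offz x z hx' (inB hz) hxL (fun h => hxB (h ▸ hz))
  have tM : ∀ x, Col o b x → x ≠ t → ¬ Col o a x → ¬ Col e x t := by
    intro x hx hxt hxL hc
    apply eM
    exact (Col.line_iff hM.ne hxt hx ht).mpr hc.rot
  have hbt : b ≠ t := fun h => htR1 (h ▸ bR)
  by_cases hcase : ∃ β ∈ B, dt (t - β) u = 0 ∧ ∀ w ∈ insert Y R, ¬ Col β t w
  · obtain ⟨β0, hβ0, h0, hal⟩ := hcase
    obtain ⟨x, hxR, hxL, hxM, hxB, hxP, hxm⟩ :=
      (hP β0 hβ0 t ht htR1 htY (parL_of β0 t h0)).resolve_left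
        (fun ⟨w, hw, hw'⟩ => hal w hw hw')
    have hBR : ∀ β ∈ insert t (insert τ B), β ∉ R2 := by
      intro β hβ
      rcases Finset.mem_insert.mp hβ with rfl | hβ
      · exact htR
      · intro h
        rcases Finset.mem_insert.mp h with rfl | h
        · exact YB1 hβ
        · rcases Finset.mem_insert.mp h with rfl | h
          · exact hene _ (inB hβ) rfl
          · rcases Finset.mem_insert.mp hβ with rfl | hβ
            · exact hτR h
            · exact hB β hβ h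
    exact block_par hn2 hn near nu nuM hKd hK2 hu hu0 hLMd hT hR2 he hN2 hM hB hBR hNP hLM hτL
      htL ht hβ0 h0 hal hxR hxL hxM hxB hxP hxm offL parL_of offz eM hene
  have sg : ∀ x ∈ R2, x ∈ R ∪ insert Y (insert τ B) → ¬ Col o a x →
      ∀ β ∈ insert t (insert τ B), ∀ β' ∈ insert t (insert τ B), β ≠ β' →
        Good R2 e x β β' := by
    intro x hx hx' hxL
    rw [hT, he]
    refine star_good hn hn2 hK1 hK2 hx ?_ (near o (inR oR) x hx')
      (fun β hβ => near x hx' β (inB hβ)) (fun β hβ => near o (inR oR) β (inB hβ))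
      (fun β hβ β' hβ' => near β' (inB hβ') β (inB hβ)) nu nuM hLMd ?_ ?_ ?_ ?_
    · intro h0
      apply hxL
      rw [hu]
      have : dt u (x - o) = -dt u (o - x) := by
        unfold dt; simp only [Prod.fst_sub, Prod.snd_sub]; ring
      rw [this, h0, neg_zero]
    · intro β hβ β' hβ' hne h0
      obtain ⟨w, hw, hw'⟩ := hNP β hβ β' hβ' hne (parL_of β β' h0)
      exact ⟨w, subR hw, hw'⟩
    · intro β hβ h0
      apply offL β hβ
      rw [hu]
      have h1 : dt u (τ - o) = 0 := (hu τ).mp hτL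
      have h2 : dt u (τ - β) = 0 := by rw [dt_swap, h0, neg_zero]
      unfold dt at *
      simp only [Prod.fst_sub, Prod.snd_sub] at *
      linarith
    · intro β hβ h0
      rw [← hT] at h0 ⊢
      by_contra hcon
      apply hcase
      refine ⟨β, hβ, h0, ?_⟩
      intro w hw hw'
      exact hcon ⟨w, subY w hw, hw'⟩
    · intro h0
      rw [← hT] at h0
      apply htL
      rw [hu]
      have h1 : dt u (τ - o) = 0 := (hu τ).mp hτL
      have h2 : dt u (t - τ) = 0 := by rw [dt_swap, h0, neg_zero]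
      unfold dt at *
      simp only [Prod.fst_sub, Prod.snd_sub] at *
      linarith
  have b3 : ¬ Col e z3 t := by
    intro hc
    by_cases hz3M : Col o b z3
    · exact tM z3 hz3M (fun h => htR1 (h ▸ hz3R)) hz3L hc
    · have hx' := inR (x := z3) hz3R
      have key : dt (t - z3) (e - z3) = 0 := by
        have := col_dt.mp (show Col z3 t e from hc.rot)
        exact this
      by_cases hTb : 32 * n ^ 4 ≤ |T|
      · have h1 := star_t (β := z3) (x := z3) (u := u) (uL := uM) (o := o) (c := o) hn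
          (near o (inR oR) z3 hx') (near z3 hx' z3 hx') (near o (inR oR) z3 hx') nu nuM hLMd
          hTb hK1
        rw [← hT, ← he, key, abs_zero] at h1
        exact absurd h1 (not_lt.mpr (abs_nonneg _))
      · rw [not_le] at hTb
        have hnt : Nv n2 (t - z3) := by
          have a1 := near o (inR oR) z3 hx'
          have hT0 : 0 ≤ 32 * n ^ 4 := by positivity
          rw [hT]
          unfold Nv adv at *
          simp only [Prod.fst_sub, Prod.snd_sub] at *
          constructor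
          · have e1 : o.1 + T * uM.1 - z3.1 = (o.1 - z3.1) + T * uM.1 := by ring
            rw [e1, hn2]
            refine le_trans (abs_add_le _ _) ?_
            rw [abs_mul]
            have := mul_le_mul hTb.le nuM.1 (abs_nonneg _) hT0
            linarith [a1.1]
          · have e1 : o.2 + T * uM.2 - z3.2 = (o.2 - z3.2) + T * uM.2 := by ring
            rw [e1, hn2]
            refine le_trans (abs_add_le _ _) ?_
            rw [abs_mul]
            have := mul_le_mul hTb.le nuM.2 (abs_nonneg _) hT0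
            linarith [a1.2]
        have htz : t ≠ z3 := fun h => htR1 (h ▸ hz3R)
        exact near_off (mono _ (near o (inR oR) z3 hx')) hnt (dto z3 hz3L) htz hKn
          (he ▸ hc)
  have Ab := al b (subR bR) (inR bR) bL (by
      intro h
      rcases Finset.mem_insert.mp h with h | h
      · exact hτR (h ▸ bR)
      · exact hB b h bR) (tM b (Col.refl_right _ _) hbt bL)
  have AY := al Y YR2 inY YL YB1 (tM Y hYM htY.symm YL)
  have A3 := al z3 (subR hz3R) (inR hz3R) hz3L (by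
      intro h
      rcases Finset.mem_insert.mp h with h | h
      · exact hτR (h ▸ hz3R)
      · exact hB z3 h hz3R) b3
  have bY : b ≠ Y := fun h => hYR (h ▸ bR)
  have z3Y : z3 ≠ Y := fun h => hYR (h ▸ hz3R)
  exact star3 hN2 Ab AY A3 (offz b Y (inR bR) inY bL bY.symm)
    (offz b z3 (inR bR) (inR hz3R) bL hz3b) (offz Y z3 inY (inR hz3R) YL z3Y)
    (sg b (subR bR) (inR bR) bL) (sg Y YR2 inY YL) (sg z3 (subR hz3R) (inR hz3R) hz3L)


/-- general form: a class version for the quiet answers on `L`, plus the block in `Y` for the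
attack `L ∩ m` -/
theorem win_class_block {R B : Finset Pt} {o a b p q Y z3 : Pt}
    (hN : NoThreat R B) (hB : ∀ β ∈ B, β ∉ R)
    (hL : ALine R B o a) (hM : ALine R B o b)
    (hpq : p ≠ q)
    (hYM : Col o b Y) (hYm : Col p q Y) (hYR : Y ∉ R)
    (hmR : ∀ z ∈ R, ¬ Col p q z)
    (hLU : ∀ z, Col o a z → z ∉ R → ∀ β ∈ B, ∀ β' ∈ B, β ≠ β' → Col β β' z →
      (∃ w ∈ R, Col β β' w) ∨ (Col p q β ∧ Col p q β'))
    (hMU : ∀ z, Col o b z → z ∉ R → ∀ β ∈ B, ∀ β' ∈ B, β ≠ β' → Col β β' z →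
      (∃ w ∈ R, Col β β' w) ∨ (Col p q β ∧ Col p q β'))
    (hLM : ¬ Col o a b)
    (hz3R : z3 ∈ R) (hz3L : ¬ Col o a z3) (hz3b : z3 ≠ b)
    (hNP : ∀ β ∈ B, ∀ β' ∈ B, β ≠ β' → Par o a β β' → ∃ w ∈ R, Col β β' w)
    (hZ : ∀ τ, Col o a τ → Col p q τ → τ ∉ R → ∀ β ∈ B, ∀ t, Col o b t → t ∉ R →
      Col τ β t → ∃ w ∈ insert Y R, Col τ β w)
    (hP : ∀ τ, Col o a τ → Col p q τ → τ ∉ R → ∀ β ∈ B, ∀ t, Col o b t → t ∉ R → t ≠ Y →
      Par o a β t → (∃ w ∈ insert Y R, Col β t w) ∨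
      ∃ x ∈ R, ¬ Col o a x ∧ ¬ Col o b x ∧ (∀ z ∈ insert τ B, ¬ Col b x z) ∧ ¬ Par o a b x ∧
        (∀ z, Col o x z → ¬ Col β t z))
    (hcl : ClassZ R B o a) :
    Win R B := by
  classical
  obtain ⟨u, E0, W, Γ, cu, hu, hW, hdvd, h⟩ := hcl
  obtain ⟨uM, cM, gM, hgM, hvMM⟩ := exists_prim (sub_ne_zero.mpr hM.ne.symm)
  have M_iff := line_iff_dt hgM hvMM
  have hu0 : u ≠ 0 := by
    rintro rfl
    obtain ⟨c1, c2, hc⟩ := cu
    simp only [Prod.fst_zero, Prod.snd_zero, mul_zero, add_zero] at hc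
    exact absurd hc (by norm_num)
  -- the point of `L` on `m`
  obtain ⟨τ0, hτ0⟩ : ∃ τ0 : Pt, ∀ t, Col o a t → Col p q t → t ∉ R → t = τ0 := by
    by_cases hex : ∃ t, Col o a t ∧ Col p q t ∧ t ∉ R
    · obtain ⟨t0, h1, h2, h3⟩ := hex
      refine ⟨t0, ?_⟩
      intro t g1 g2 g3
      by_contra hne
      apply hmR o hL.1
      exact (Col.line_eq_of_two (z := o) hL.ne hpq hne g1 h1 g2 h2).mp (Col.refl_left _ _)
    · exact ⟨o, fun t g1 g2 g3 => absurd ⟨t, g1, g2, g3⟩ hex⟩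
  obtain ⟨n, hn, hnF⟩ := exists_bound
    ((((R ∪ insert Y (insert τ0 B)) ×ˢ (R ∪ insert Y (insert τ0 B))).image
      (fun p : Pt × Pt => p.1 - p.2)) ∪ {u, uM})
  have near : ∀ a ∈ R ∪ insert Y (insert τ0 B), ∀ b ∈ R ∪ insert Y (insert τ0 B),
      Nv n (a - b) := by
    intro a ha b hb
    apply hnF
    apply Finset.mem_union_left
    rw [Finset.mem_image]
    exact ⟨(a, b), Finset.mem_product.mpr ⟨ha, hb⟩, rfl⟩
  obtain ⟨n2, hn2⟩ : ∃ n2, n2 = n + 32 * n ^ 4 * n := ⟨_, rfl⟩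
  obtain ⟨m, hm⟩ := exists_large E0 W
    (max Γ (32 * n ^ 4 + (2 * n2 ^ 2 + 4 * n2 ^ 4) + n + 1)) hW
  have hm1 : Γ ≤ |E0 + W * m| := le_trans (le_max_left _ _) hm
  have hm2 : 32 * n ^ 4 + (2 * n2 ^ 2 + 4 * n2 ^ 4) + n + 1 ≤ |E0 + W * m| :=
    le_trans (le_max_right _ _) hm
  have q1 : 0 ≤ 32 * n ^ 4 := by positivity
  have q2 : 0 ≤ 2 * n2 ^ 2 + 4 * n2 ^ 4 := by positivity
  have hne : ∀ z ∈ R ∪ B, adv o u (E0 + W * m) ≠ z := by
    intro z hz
    have hz' : z ∈ R ∪ insert Y (insert τ0 B) := by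
      rcases Finset.mem_union.mp hz with h | h
      · exact Finset.mem_union_left _ h
      · exact Finset.mem_union_right _ (Finset.mem_insert_of_mem (Finset.mem_insert_of_mem h))
    exact adv_ne (near z hz' o (Finset.mem_union_left _ hL.1)) hu0 (by linarith)
  have heL : Col o a (adv o u (E0 + W * m)) := by
    rw [hu]
    unfold dt adv; simp only [Prod.fst_sub, Prod.snd_sub]; ring
  refine win_force hL (fun hh => hne _ (Finset.mem_union_left _ hh) rfl)
    (fun hh => hne _ (Finset.mem_union_right _ hh) rfl) heL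
    (hN.mono (Finset.subset_insert _ _) (Finset.Subset.refl _)) ?_
  intro t htR htB htc
  have htR1 : t ∉ R := fun hh => htR (Finset.mem_insert_of_mem hh)
  by_cases hth : ∀ β ∈ B, ∀ β' ∈ B, β ≠ β' → Col β β' t →
      ∃ w ∈ insert (adv o u (E0 + W * m)) R, Col β β' w
  · exact h m hm1 t htc htR htB (hN.insert (Finset.subset_insert _ _) hth)
  · -- the threat on `m`
    have hth' : ∃ β ∈ B, ∃ β' ∈ B, β ≠ β' ∧ Col β β' t ∧
        ∀ w ∈ insert (adv o u (E0 + W * m)) R, ¬ Col β β' w := by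
      by_contra hcon
      apply hth
      intro β hβ β' hβ' hne hc
      by_contra hw
      exact hcon ⟨β, hβ, β', hβ', hne, hc, fun w hw1 hw2 => hw ⟨w, hw1, hw2⟩⟩
    obtain ⟨β, hβ, β', hβ', hne', hc, hw⟩ := hth'
    have hm' : Col p q t := by
      rcases hLU t htc htR1 β hβ β' hβ' hne' hc with ⟨w, hw1, hw2⟩ | ⟨h1, h2⟩
      · exact absurd hw2 (hw w (Finset.mem_insert_of_mem hw1))
      · exact (Col.line_iff hpq hne' h1 h2).mpr hc
    have ht0 := hτ0 t htc hm' htR1
    rw [← ht0] at near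
    exact block_nodeW hn hN hB hL hM hu M_iff cM hLM hpq hYM hYm hYR hLU hMU htc htR1 hz3R hz3L
      hz3b hNP (hZ t htc hm' htR1) (hP t htc hm' htR1) hn2 near (hnF u (by simp))
      (hnF uM (by simp)) (by linarith) (by linarith) (hdvd m)

end Pool.Agent.K4L
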