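import Pool.Agent.K4L.TwoEdge

/-!
# Lemma C without the parallel condition: second level on the triangle `e, x, x'`
-/

namespace Pool.Agent.K4L

theorem block_par2 {R B R2 : Finset Pt} {n n2 K T : ℤ} {o a b Y τ t β0 x x' u uM e : Pt}
    (hn2 : n2 = n + 32 * n ^ 4 * n) (hn : 1 ≤ n)
    (near : ∀ x ∈ R ∪ insert Y (insert τ B), ∀ x' ∈ R ∪ insert Y (insert τ B), Nv n (x - x'))
    (nu : Nv n u) (nuM : Nv n uM)
    (hK2 : 8 * (16 * n2 ^ 6) ^ 2 < |K|)
    (hu : ∀ z, Col o a z ↔ dt u (z - o) = 0) (hu0 : u ≠ 0)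
    (hLMd : dt uM u ≠ 0) (hT : t = adv o uM T)
    (hR2 : R2 = insert Y (insert e R)) (he : e = adv o u K)
    (hN2 : NoThreat R2 (insert t (insert τ B)))
    (hM : ALine R B o b)
    (hBR : ∀ β ∈ insert t (insert τ B), β ∉ R2)
    (hNP : ∀ β ∈ B, ∀ β' ∈ B, β ≠ β' → Par o a β β' → ∃ w ∈ R, Col β β' w)
    (hτL : Col o a τ) (htL : ¬ Col o a t) (ht : Col o b t)
    (hβ0 : β0 ∈ B) (h0 : dt (t - β0) u = 0) (hal : ∀ w ∈ insert Y R, ¬ Col β0 t w)
    (hxR : x ∈ R) (hxL : ¬ Col o a x) (hxR' : x' ∈ R) (hxL' : ¬ Col o a x') (hxx : x ≠ x')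
    (hxB : ∀ z ∈ insert t (insert τ B), ¬ Col x x' z) (hxP : ¬ Par o a x x')
    (hS : ∀ z ∈ insert τ B, dt u (z - o) ≠ dt u (t - o) →
      dt u (x' - o) * (dt u (x - o) - dt u (t - o)) ≠
        dt u (x - o) * (dt u (z - o) - dt u (t - o)))
    (offL : ∀ β ∈ B, ¬ Col o a β)
    (parL_of : ∀ β β' : Pt, dt (β' - β) u = 0 → Par o a β β')
    (offz : ∀ x z, x ∈ R ∪ insert Y (insert τ B) → z ∈ R ∪ insert Y (insert τ B) →
      ¬ Col o a x → z ≠ x → ¬ Col e x z)
    (hene : ∀ z ∈ R ∪ insert Y (insert τ B), e ≠ z) :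
    Win R2 (insert t (insert τ B)) := by
  classical
  have hn0 : (0 : ℤ) ≤ n := by linarith
  have hnn2 : n ≤ n2 := by
    rw [hn2]
    have : 0 ≤ 32 * n ^ 4 * n := by positivity
    linarith
  have hn21 : 1 ≤ n2 := le_trans hn hnn2
  have mono : ∀ v : Pt, Nv n v → Nv n2 v := fun v h => ⟨le_trans h.1 hnn2, le_trans h.2 hnn2⟩
  have hK3 : 2 * n2 ^ 2 + 4 * n2 ^ 4 < |K| := by
    have a1 : n2 ^ 2 ≤ n2 ^ 12 := pow_le_pow_right₀ hn21 (by norm_num)
    have a2 : n2 ^ 4 ≤ n2 ^ 12 := pow_le_pow_right₀ hn21 (by norm_num)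
    have a3 : (8 * (16 * n2 ^ 6) ^ 2 : ℤ) = 2048 * n2 ^ 12 := by ring
    have a4 : 0 ≤ n2 ^ 12 := by positivity
    linarith
  have hKn : 2 * n2 ^ 2 < |K| := by
    have : 0 ≤ 4 * n2 ^ 4 := by positivity
    linarith
  have oR := hM.1
  have inR : ∀ {x}, x ∈ R → x ∈ R ∪ insert Y (insert τ B) := fun h => Finset.mem_union_left _ h
  have inB : ∀ {x}, x ∈ insert τ B → x ∈ R ∪ insert Y (insert τ B) := fun h =>
    Finset.mem_union_right _ (Finset.mem_insert_of_mem h)
  have subR : R ⊆ R2 := by
    rw [hR2]; exact (Finset.subset_insert _ _).trans (Finset.subset_insert _ _)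
  have eR2 : e ∈ R2 := by
    rw [hR2]; exact Finset.mem_insert_of_mem (Finset.mem_insert_self _ _)
  have tB : t ∈ insert t (insert τ B) := Finset.mem_insert_self _ _
  have β0B : β0 ∈ insert t (insert τ B) :=
    Finset.mem_insert_of_mem (Finset.mem_insert_of_mem hβ0)
  have htR2 : t ∉ R2 := hBR t tB
  have htβ0 : t ≠ β0 := by
    rintro rfl
    exact hM.2.2.2 t hβ0 ht
  have xτ : ∀ y ∈ R, y ∉ insert τ B := fun y hy h =>
    hBR y (Finset.mem_insert_of_mem h) (subR hy)
  -- `t` is near
  have hTb : |T| ≤ 32 * n ^ 4 := by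
    have e1 : T * dt uM u = - dt (o - β0) u := by
      rw [hT] at h0
      have : dt (adv o uM T - β0) u = T * dt uM u + dt (o - β0) u := by
        unfold dt adv; simp only [Prod.fst_sub, Prod.snd_sub]; ring
      linarith
    have h1 := Int.one_le_abs hLMd
    have h2 : |T| * |dt uM u| = |dt (o - β0) u| := by
      rw [← abs_mul, e1, abs_neg]
    have h3 := (near o (inR oR) β0 (inB (Finset.mem_insert_of_mem hβ0))).dt nu
    have h4 : |T| ≤ |T| * |dt uM u| := by nlinarith [abs_nonneg T]
    have h5 : 2 * n ^ 2 ≤ 32 * n ^ 4 := by nlinarith [mul_pos (show (0:ℤ) < n by linarith) (show (0:ℤ) < n by linarith), pow_le_pow_left₀ (show (0:ℤ) ≤ 1 by norm_num) hn 2, sq_nonneg (n^2), sq_nonneg n]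
    linarith
  have hnt : ∀ y ∈ R ∪ insert Y (insert τ B), Nv n2 (t - y) := by
    intro y hy
    have a1 := near o (inR oR) y hy
    have hT0 : 0 ≤ 32 * n ^ 4 := by positivity
    rw [hT]
    unfold Nv adv at *
    simp only [Prod.fst_sub, Prod.snd_sub] at *
    constructor
    · have e1 : o.1 + T * uM.1 - y.1 = (o.1 - y.1) + T * uM.1 := by ring
      rw [e1, hn2]
      refine le_trans (abs_add_le _ _) ?_
      rw [abs_mul]
      have := mul_le_mul hTb nuM.1 (abs_nonneg _) hT0
      linarith [a1.1]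
    · have e1 : o.2 + T * uM.2 - y.2 = (o.2 - y.2) + T * uM.2 := by ring
      rw [e1, hn2]
      refine le_trans (abs_add_le _ _) ?_
      rw [abs_mul]
      have := mul_le_mul hTb nuM.2 (abs_nonneg _) hT0
      linarith [a1.2]
  have dto : ∀ x, ¬ Col o a x → dt u (o - x) ≠ 0 := by
    intro x hxL h0
    apply hxL
    rw [hu]
    have : dt u (x - o) = -dt u (o - x) := by
      unfold dt; simp only [Prod.fst_sub, Prod.snd_sub]; ring
    rw [this, h0, neg_zero]
  have dtx : ∀ x, ¬ Col o a x → dt u (x - o) ≠ 0 := fun x hx h => hx ((hu x).mpr h)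
  have nb : ∀ γ ∈ insert t (insert τ B), ∀ z ∈ R ∪ insert Y (insert τ B), Nv n2 (γ - z) := by
    intro γ hγ z hz
    rcases Finset.mem_insert.mp hγ with rfl | hγ
    · exact hnt z hz
    · exact mono _ (near γ (inB hγ) z hz)
  have nbb : ∀ β ∈ insert t (insert τ B), ∀ β' ∈ insert t (insert τ B), β ≠ β' →
      Nv n2 (β' - β) := by
    intro β hβ β' hβ' hne
    rcases Finset.mem_insert.mp hβ with hb | hβ1
    · rcases Finset.mem_insert.mp hβ' with hb' | hβ1'
      · exact absurd (hb.trans hb'.symm) hne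
      · rw [hb]; exact (hnt β' (inB hβ1')).neg
    · exact nb β' hβ' β (inB hβ1)
  -- pairs not parallel to `L`
  have sgn : ∀ y ∈ R, ¬ Col o a y →
      ∀ β ∈ insert t (insert τ B), ∀ β' ∈ insert t (insert τ B), dt (β' - β) u ≠ 0 →
        Good R2 e y β β' := by
    intro y hy hyL β hβ β' hβ' hne
    have hy' := inR (x := y) hy
    have hx' : dt u (adv o u K - y) ≠ 0 := by
      have e1 : dt u (adv o u K - y) = dt u (o - y) := by
        unfold dt adv; simp only [Prod.fst_sub, Prod.snd_sub]; ring
      rw [e1]; exact dto y hyL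
    have hbb : β ≠ β' := by
      rintro rfl; apply hne; unfold dt; simp
    rw [he]
    exact good_of_star u (subR hy) hx' (star_near (mono _ (near o (inR oR) y hy'))
      (nb β hβ y hy').neg (nbb β hβ β' hβ' hbb) (mono _ nu) hne hK3)
  -- no near pair is parallel to an edge of `e`
  have npar : ∀ y ∈ R, ¬ Col o a y →
      ∀ β ∈ insert t (insert τ B), ∀ β' ∈ insert t (insert τ B), β ≠ β' → ¬ Par e y β β' := by
    intro y hy hyL β hβ β' hβ' hne hp
    have hy' := inR (x := y) hy
    have e2 : dt (β' - β) (o - y) + K * dt (β' - β) u = 0 := by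
      rw [he] at hp
      unfold Par adv at hp
      unfold dt
      simp only [Prod.fst_sub, Prod.snd_sub] at *
      linear_combination hp
    by_cases h1 : dt (β' - β) u = 0
    · rw [h1, mul_zero, add_zero] at e2
      have h3 := dt_par (sub_ne_zero.mpr hne.symm) h1 e2
      exact dto y hyL h3
    · have g1 := Int.one_le_abs h1
      have g2 := (nbb β hβ β' hβ' hne).dt (mono _ (near o (inR oR) y hy'))
      have g3 : |K| * |dt (β' - β) u| = |dt (β' - β) (o - y)| := by
        rw [← abs_mul]
        have : K * dt (β' - β) u = - dt (β' - β) (o - y) := by linarith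
        rw [this, abs_neg]
      nlinarith [abs_nonneg K]
  -- parallel pairs
  have onm : ∀ β, dt (t - β) u = 0 → Col t β0 β := by
    intro β hβ
    apply col_dt.mpr
    have g1 : dt u (β0 - t) = 0 := by
      have : dt u (β0 - t) = dt (t - β0) u := by
        unfold dt; simp only [Prod.fst_sub, Prod.snd_sub]; ring
      rw [this, h0]
    have g2 : dt u (β - t) = 0 := by
      have : dt u (β - t) = dt (t - β) u := by
        unfold dt; simp only [Prod.fst_sub, Prod.snd_sub]; ring
      rw [this, hβ]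
    exact dt_par hu0 g1 g2
  have parp : ∀ β ∈ insert t (insert τ B), ∀ β' ∈ insert t (insert τ B), β ≠ β' →
      dt (β' - β) u = 0 → (∃ w ∈ R2, Col β β' w) ∨ (Col t β0 β ∧ Col t β0 β') := by
    have τt : dt (τ - t) u ≠ 0 := by
      intro h
      apply htL
      rw [hu]
      have h1 : dt u (τ - o) = 0 := (hu τ).mp hτL
      unfold dt at *
      simp only [Prod.fst_sub, Prod.snd_sub] at *
      linarith
    have τβ : ∀ β ∈ B, dt (τ - β) u ≠ 0 := by
      intro β hβ h
      apply offL β hβ
      rw [hu]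
      have h1 : dt u (τ - o) = 0 := (hu τ).mp hτL
      unfold dt at *
      simp only [Prod.fst_sub, Prod.snd_sub] at *
      linarith
    have sw : ∀ β β' : Pt, dt (β' - β) u = 0 → dt (β - β') u = 0 := by
      intro β β' h
      have : dt (β - β') u = - dt (β' - β) u := by
        unfold dt; simp only [Prod.fst_sub, Prod.snd_sub]; ring
      rw [this, h, neg_zero]
    intro β hβ β' hβ' hne h
    rcases Finset.mem_insert.mp hβ with hb | hb
    · rcases Finset.mem_insert.mp hβ' with hb' | hb'
      · exact absurd (hb.trans hb'.symm) hne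
      · rcases Finset.mem_insert.mp hb' with hb'' | hb''
        · rw [hb, hb''] at h; exact absurd h τt
        · right
          rw [hb] at h ⊢
          exact ⟨Col.refl_left _ _, onm β' (sw _ _ h)⟩
    · rcases Finset.mem_insert.mp hβ' with hb' | hb'
      · rcases Finset.mem_insert.mp hb with hb'' | hb''
        · rw [hb', hb''] at h; exact absurd (sw _ _ h) τt
        · right
          rw [hb'] at h ⊢
          exact ⟨onm β h, Col.refl_left _ _⟩
      · rcases Finset.mem_insert.mp hb with h1 | h1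
        · rcases Finset.mem_insert.mp hb' with h2 | h2
          · exact absurd (h1.trans h2.symm) hne
          · rw [h1] at h; exact absurd (sw _ _ h) (τβ β' h2)
        · rcases Finset.mem_insert.mp hb' with h2 | h2
          · rw [h2] at h; exact absurd h (τβ β h1)
          · left
            obtain ⟨w, hw, hw'⟩ := hNP β h1 β' h2 hne (parL_of β β' h)
            exact ⟨w, subR hw, hw'⟩
  have mR2 : ∀ z ∈ R2, ¬ Col t β0 z := by
    intro z hz hc
    rw [hR2] at hz
    rcases Finset.mem_insert.mp hz with rfl | hz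
    · exact hal z (Finset.mem_insert_self _ _) hc.swap12
    · rcases Finset.mem_insert.mp hz with rfl | hz
      · -- `e` on the parallel
        apply htL
        rw [hu]
        have h1 : dt (β0 - t) (z - t) = 0 := col_dt.mp hc
        have h2 : dt (β0 - t) u = 0 := by
          have : dt (β0 - t) u = - dt (t - β0) u := by
            unfold dt; simp only [Prod.fst_sub, Prod.snd_sub]; ring
          rw [this, h0, neg_zero]
        have h3 : dt u (z - t) = 0 := dt_par (sub_ne_zero.mpr htβ0.symm) h2 h1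
        have h4 : dt u (z - t) = dt u (o - t) := by
          rw [he]; unfold dt adv; simp only [Prod.fst_sub, Prod.snd_sub]; ring
        have h5 : dt u (t - o) = - dt u (o - t) := by
          unfold dt; simp only [Prod.fst_sub, Prod.snd_sub]; ring
        rw [h5, ← h4, h3, neg_zero]
      · exact hal z (Finset.mem_insert_of_mem hz) hc.swap12
  -- the edges
  have eyt : ∀ y ∈ R, ¬ Col o a y → ¬ Col e y t := by
    intro y hy hyL
    rw [he]
    exact near_off (mono _ (near o (inR oR) y (inR hy))) (hnt y (inR hy)) (dto y hyL)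
      (fun h => htR2 (h ▸ subR hy)) hKn
  have Ay : ∀ y ∈ R, ¬ Col o a y → ALine R2 (insert t (insert τ B)) e y := by
    intro y hy hyL
    refine ⟨eR2, subR hy, hene y (inR hy), ?_⟩
    intro z hz
    rcases Finset.mem_insert.mp hz with rfl | hz
    · exact eyt y hy hyL
    · exact offz y z (inR hy) (inB hz) hyL (fun h => xτ y hy (h ▸ hz))
  have Ax := Ay x hxR hxL
  have Ax' := Ay x' hxR' hxL'
  have Axx : ALine R2 (insert t (insert τ B)) x x' := ⟨subR hxR, subR hxR', hxx, hxB⟩
  have exx : ¬ Col e x x' := offz x x' (inR hxR) (inR hxR') hxL hxx.symm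
  have exx' : ¬ Col e x' x := offz x' x (inR hxR') (inR hxR) hxL' hxx
  -- directions
  have hm0 : dt (β0 - t) u = 0 := by
    have : dt (β0 - t) u = - dt (t - β0) u := by
      unfold dt; simp only [Prod.fst_sub, Prod.snd_sub]; ring
    rw [this, h0, neg_zero]
  have nPe : ∀ y, ¬ Col o a y → ¬ Par e y t β0 := by
    intro y hyL hp
    apply hyL
    rw [hu]
    have h3 : dt (β0 - t) (y - e) = 0 := by
      unfold Par at hp; unfold dt; simp only [Prod.fst_sub, Prod.snd_sub]; linarith
    have h5 : dt u (y - e) = 0 := dt_par (sub_ne_zero.mpr htβ0.symm) hm0 h3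
    have h6 : dt u (y - e) = dt u (y - o) := by
      rw [he]; unfold dt adv; simp only [Prod.fst_sub, Prod.snd_sub]; ring
    rw [← h6]; exact h5
  have nPx : ¬ Par x x' t β0 := by
    intro hp
    apply hxP
    have h3 : dt (β0 - t) (x' - x) = 0 := by
      unfold Par at hp; unfold dt; simp only [Prod.fst_sub, Prod.snd_sub]; linarith
    have h5 : dt u (x' - x) = 0 := dt_par (sub_ne_zero.mpr htβ0.symm) hm0 h3
    apply parL_of
    rw [dt_swap, h5, neg_zero]
  have hparm : ∀ β ∈ insert t (insert τ B), ∀ β' ∈ insert t (insert τ B), β ≠ β' →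
      Par t β0 β β' → (∃ w ∈ R2, Col β β' w) ∨ Col t β0 β := by
    intro β hβ β' hβ' hne hp
    have h3 : dt (β0 - t) (β' - β) = 0 := by
      unfold Par at hp; unfold dt; simp only [Prod.fst_sub, Prod.snd_sub]; linarith
    have h5 : dt u (β' - β) = 0 := dt_par (sub_ne_zero.mpr htβ0.symm) hm0 h3
    have h6 : dt (β' - β) u = 0 := by rw [dt_swap, h5, neg_zero]
    rcases parp β hβ β' hβ' hne h6 with hd | ⟨h7, _⟩
    · exact Or.inl hd
    · exact Or.inr h7
  have hMU : ∀ y ∈ R, ¬ Col o a y → ∀ z, Col e y z → z ∉ R2 → ∀ β ∈ insert t (insert τ B),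
      ∀ β' ∈ insert t (insert τ B), β ≠ β' → Col β β' z →
      (∃ w ∈ R2, Col β β' w) ∨ (Col t β0 β ∧ Col t β0 β') := by
    intro y hy hyL z hz hzR β hβ β' hβ' hne hc
    by_cases hp : dt (β' - β) u = 0
    · exact parp β hβ β' hβ' hne hp
    · rcases sgn y hy hyL β hβ β' hβ' hp with hd | ⟨_, h2⟩
      · exact Or.inl hd
      · exact absurd hc (h2 z hz)
  have unc : ∀ y ∈ R, ¬ Col o a y → (¬ ∃ Y', Col e y Y' ∧ Col t β0 Y') →
      Uncov R2 (insert t (insert τ B)) e y := by
    intro y hy hyL hno z hz hzR hzB β hβ β' hβ' hne hc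
    rcases hMU y hy hyL z hz hzR β hβ β' hβ' hne hc with hd | ⟨h1, h2⟩
    · exact hd
    · exact absurd ⟨z, hz, (Col.line_iff htβ0 hne h1 h2).mpr hc⟩ hno
  by_cases hY1 : ∃ Y', Col e x Y' ∧ Col t β0 Y'
  · by_cases hY2 : ∃ Y', Col e x' Y' ∧ Col t β0 Y'
    · -- both edges are hit
      obtain ⟨Y2, h1, h2⟩ := hY2
      have tn : |dt u (t - o)| ≤ 2 * n2 ^ 2 := (mono _ nu).dt (hnt o (inR oR))
      have t0 : dt u (t - o) ≠ 0 := dtx t htL
      have relx : ∀ y : Pt, ∀ z : Pt, Col e y z →
          dt (y - o) (z - o) + K * (dt u (y - o) - dt u (z - o)) = 0 := by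
        intro y z hz
        rw [he] at hz
        unfold Col adv at hz
        unfold dt
        simp only [Prod.fst_sub, Prod.snd_sub] at *
        linear_combination hz
      have hth : ∀ z, Col t β0 z → dt u (z - o) = dt u (t - o) := by
        intro z hz
        have g1 : dt (β0 - t) (z - t) = 0 := col_dt.mp hz
        have g2 : dt u (z - t) = 0 := dt_par (sub_ne_zero.mpr htβ0.symm) hm0 g1
        have g3 : dt u (z - o) = dt u (z - t) + dt u (t - o) := by
          unfold dt; simp only [Prod.fst_sub, Prod.snd_sub]; ring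
        rw [g3, g2, zero_add]
      have hdiff : ∀ z : Pt, (x' - o) - (x - o) = x' - x ∧ (z - o) - (x - o) = z - x := by
        intro z
        constructor <;> abel
      refine lb3C (o := e) (a := x) (b := x') (p := t) (q := β0) (Y := Y2) (z3 := o) hN2 hBR
        Ax Ax' Axx.symm htβ0 h1 h2 (fun h => mR2 Y2 h h2) mR2 (hMU x hxR hxL)
        (hMU x' hxR' hxL') exx (nPe x hxL) (fun hp => nPx hp.swap_left) (subR oR)
        (offz x o (inR hxR) (inR oR) hxL (fun h => hxL (h ▸ Col.refl_left _ _)))
        (fun h => hxL' (h ▸ Col.refl_left _ _))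
        (fun β hβ β' hβ' hne hp => absurd hp (npar x hxR hxL β hβ β' hβ' hne)) ?_ ?_
        (fun β hβ β' hβ' hne hp => absurd hp (npar x' hxR' hxL' β hβ β' hβ' hne)) hparm
      · -- (Z)
        intro τ' hτ1 hτ2 hτR β hβ t' ht1 htR hc
        by_cases hβh : dt u (β - o) = dt u (t - o)
        · refine ⟨Y2, Finset.mem_insert_self _ _, ?_⟩
          have hb : Col t β0 β := by
            apply onm
            have : dt (t - β) u = dt u (β - o) - dt u (t - o) := by
              unfold dt; simp only [Prod.fst_sub, Prod.snd_sub]; ring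
            rw [this, hβh, sub_self]
          exact Col.three htβ0 hτ2 hb h2
        · exfalso
          have hβ1 : β ∈ insert τ B := by
            rcases Finset.mem_insert.mp hβ with hb | hb
            · exact absurd (by rw [hb]) hβh
            · exact hb
          have hτh := hth τ' hτ2
          rcases two_edge_Z' (u := u) (X := x - o) (X2 := x' - o) (β := β - o) (τ := τ' - o)
            (t := t' - o) hn21 (mono _ nu) (mono _ (near x (inR hxR) o (inR oR)))
            (mono _ (near x' (inR hxR') o (inR oR))) (nb β hβ o (inR oR))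
            (by rw [hτh]; exact tn) (by rw [hτh]; exact t0) (dtx x hxL) (dtx x' hxL')
            (by rw [hτh]; exact sub_ne_zero.mpr (hS β hβ1 hβh)) hK2 (relx x τ' hτ1)
            (relx x' t' ht1) (by
              have := col_dt.mp hc
              unfold dt at *
              simp only [Prod.fst_sub, Prod.snd_sub] at *
              linear_combination -this) with h5 | h5
          · exact hβh (h5.trans hτh)
          · rw [(hdiff β).1, (hdiff β).2] at h5
            exact hxB β hβ (col_dt.mpr h5)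
      · -- (P)
        intro τ' hτ1 hτ2 hτR β hβ t' ht1 htR htY hp
        exfalso
        have h5 := two_edge_P' (u := u) (X := x - o) (X2 := x' - o) (β := β - o)
            (t := t' - o) hn21 (mono _ nu) (mono _ (near x (inR hxR) o (inR oR)))
            (mono _ (near x' (inR hxR') o (inR oR))) (nb β hβ o (inR oR))
            (dtx x hxL) (dtx x' hxL') (by
              intro h
              apply hxP
              apply parL_of
              have : dt (x' - x) u = dt u (x - o) - dt u (x' - o) := by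
                unfold dt; simp only [Prod.fst_sub, Prod.snd_sub]; ring
              rw [this, h, sub_self]) hK2 (relx x' t' ht1) (by
              rw [he] at hp
              unfold Par adv at hp
              unfold dt
              simp only [Prod.fst_sub, Prod.snd_sub] at *
              linear_combination hp)
        rw [(hdiff β).1, (hdiff β).2] at h5
        exact hxB β hβ (col_dt.mpr h5)
    · -- `e x'` uncovered
      obtain ⟨Y1, h1, h2⟩ := hY1
      exact lb3 (o := e) (a := x') (b := x) (p := t) (q := β0) (Y := Y1) hN2 hBR Ax'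
        (unc x' hxR' hxL' hY2) Ax Axx htβ0 h1 h2 (fun h => mR2 Y1 h h2) mR2 (hMU x hxR hxL)
        exx' (nPe x' hxL') nPx hparm
  · by_cases hY2 : ∃ Y', Col e x' Y' ∧ Col t β0 Y'
    · obtain ⟨Y2, h1, h2⟩ := hY2
      exact lb3 (o := e) (a := x) (b := x') (p := t) (q := β0) (Y := Y2) hN2 hBR Ax
        (unc x hxR hxL hY1) Ax' Axx.symm htβ0 h1 h2 (fun h => mR2 Y2 h h2) mR2
        (hMU x' hxR' hxL') exx (nPe x hxL) (fun hp => nPx hp.swap_left) hparm
    · exact w0_tri hN2 hBR Ax (unc x hxR hxL hY1) Ax' (unc x' hxR' hxL' hY2) Axx.symm exx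

end Pool.Agent.K4L
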