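import Pool.Agent.K4L.TwoGenC
import Pool.Agent.K4L.K3UGeo
import Pool.Agent.K4L.IIGC

/-!
# CASE II with the third stone far on `p q`: `r` on a side
-/

namespace Pool.Agent.K4L

/-- `r` on the line `a b`: no blue line is parallel to `c a` or `c b` -/
theorem ii_ab_par {a1 a2 b1 b2 g : ℤ} (ha2 : a2 ≠ 0) (hb2 : b2 ≠ 0) (hab : a2 ≠ b2) :
    ∃ N0 : ℤ, ∀ N : ℤ, N0 ≤ N → ∀ r : Pt, Col (a1, a2) (b1, b2) r →
      ∀ s : ℤ, (s = 0 ∨ s = g) → r ≠ (s, 0) →
      ∀ X ∈ ({(a1, a2), (b1, b2)} : Finset Pt), ¬ Par (N, 0) X (s, 0) r := by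
  obtain ⟨M, hMdef⟩ : ∃ M : ℤ, M = 1 + |a1| + |a2| + |b1| + |b2| + |g| := ⟨_, rfl⟩
  have n1 := abs_nonneg a1
  have n2 := Int.one_le_abs ha2
  have n3 := abs_nonneg b1
  have n4 := Int.one_le_abs hb2
  have n5 := abs_nonneg g
  have hM : 3 ≤ M := by linarith
  have hM2 : M ≤ M ^ 2 := by nlinarith
  have hM3 : M ^ 2 ≤ M ^ 3 := by nlinarith
  have hM6 : M ^ 3 ≤ M ^ 6 := by
    have h1 : M ^ 6 = M ^ 3 * M ^ 3 := by ring
    have h2 : 1 ≤ M ^ 3 := by nlinarith
    rw [h1]; nlinarith
  refine ⟨1000 * M ^ 6, ?_⟩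
  intro N hN r hr s hs hrs X hX hP
  obtain ⟨x, y⟩ := r
  obtain ⟨X1, X2⟩ := X
  have hXm : ((X1, X2) : Pt) = (a1, a2) ∨ ((X1, X2) : Pt) = (b1, b2) := by simpa using hX
  have bX : |X1| ≤ M ∧ |X2| ≤ M ∧ X2 ≠ 0 := by
    rcases hXm with h | h
    · have e1 := congrArg Prod.fst h
      have e2 := congrArg Prod.snd h
      simp only at e1 e2
      rw [e1, e2]
      exact ⟨by linarith, by linarith, ha2⟩
    · have e1 := congrArg Prod.fst h
      have e2 := congrArg Prod.snd h
      simp only at e1 e2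
      rw [e1, e2]
      exact ⟨by linarith, by linarith, hb2⟩
  obtain ⟨bX1, bX2, bX3⟩ := bX
  have hs' : |s| ≤ M := by
    rcases hs with rfl | rfl
    · rw [abs_zero]; linarith
    · linarith
  unfold Par at hP
  simp only at hP
  have hP' : (X1 - N) * y = X2 * (x - s) := by linear_combination hP
  by_cases hy : y = 0
  · rw [hy, mul_zero] at hP'
    have : x - s = 0 := (mul_eq_zero.mp hP'.symm).resolve_left bX3
    apply hrs
    rw [hy]
    exact Prod.ext (by simp only; linarith) rfl
  · have gy := Int.one_le_abs hy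
    -- `x` is not large
    have hx : |x| < 5 * M ^ 2 * |y| := by
      have h1 : |x - a1| ≤ 2 * M * (|y| + M) := by
        have e1 : |b1 - a1| * |y - a2| = |b2 - a2| * |x - a1| := by
          rw [← abs_mul, ← abs_mul]
          unfold Col at hr
          simp only at hr
          rw [hr]
        have g2 := Int.one_le_abs (sub_ne_zero.mpr hab.symm)
        have e2 : |x - a1| ≤ |b2 - a2| * |x - a1| := le_mul_of_one_le_left (abs_nonneg _) g2
        have e3 : |b1 - a1| ≤ 2 * M := by
          have := abs_sub b1 a1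
          linarith
        have e4 : |y - a2| ≤ |y| + M := by
          have := abs_sub y a2
          linarith
        calc |x - a1| ≤ |b1 - a1| * |y - a2| := by rw [e1]; exact e2
          _ ≤ 2 * M * (|y| + M) := mul_le_mul e3 e4 (abs_nonneg _) (by linarith)
      have h2 : |x| ≤ |x - a1| + |a1| := by
        have := abs_add_le (x - a1) a1
        rwa [sub_add_cancel] at this
      have g4 : M * 1 ≤ M * |y| := mul_le_mul_of_nonneg_left gy (by linarith)
      have g5 : M ^ 2 * 1 ≤ M ^ 2 * |y| := mul_le_mul_of_nonneg_left gy (by positivity)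
      have g6 : 3 * (M * |y|) ≤ M ^ 2 * |y| := by
        have : M * (3 * |y|) ≤ M * (M * |y|) :=
          mul_le_mul_of_nonneg_left (mul_le_mul_of_nonneg_right hM (abs_nonneg _)) (by linarith)
        have e : M * (M * |y|) = M ^ 2 * |y| := by ring
        linarith
      have e : 2 * M * (|y| + M) = 2 * (M * |y|) + 2 * M ^ 2 := by ring
      have e' : 5 * M ^ 2 * |y| = 5 * (M ^ 2 * |y|) := by ring
      have : 0 < M ^ 2 * |y| := by positivity
      linarith
    have h1 : |X1 - N| * |y| = |X2| * |x - s| := by rw [← abs_mul, ← abs_mul, hP']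
    have h2 : |x - s| ≤ 5 * M ^ 2 * |y| + M := by
      have := abs_sub x s
      linarith
    have h3 : N - M ≤ |X1 - N| := by
      have h4 : N - X1 ≤ |X1 - N| := by
        rw [abs_sub_comm]; exact le_abs_self _
      have := le_abs_self X1
      linarith
    have h4 : |X2| * |x - s| ≤ M * (5 * M ^ 2 * |y| + M) :=
      mul_le_mul bX2 h2 (abs_nonneg _) (by linarith)
    have h5 : (N - M) * |y| ≤ |X1 - N| * |y| := mul_le_mul_of_nonneg_right h3 (abs_nonneg _)
    have h6 : M * (5 * M ^ 2 * |y| + M) ≤ 6 * M ^ 3 * |y| := by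
      have e : M * (5 * M ^ 2 * |y| + M) = 5 * (M ^ 3 * |y|) + M ^ 2 := by ring
      have e2 : M ^ 2 ≤ M ^ 3 * |y| := by nlinarith
      linarith
    have h7 : (N - M) ≤ 6 * M ^ 3 := by
      apply le_of_mul_le_mul_right _ (by linarith : (0 : ℤ) < |y|)
      linarith
    linarith

/-- `r` on the line `a c`: no blue line meets `a b`; no blue line is parallel to `a b`, `b c` -/
theorem ii_ac_norm {a1 a2 b1 b2 g : ℤ} (ha2 : a2 ≠ 0) (hb2 : b2 ≠ 0) (hab : a2 ≠ b2)
    (hDp : b1 * a2 - b2 * a1 ≠ 0) (hDq : (b1 - g) * a2 - b2 * (a1 - g) ≠ 0) :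
    ∃ N0 : ℤ, ∀ N : ℤ, N0 ≤ N → ∀ r : Pt, r ≠ (a1, a2) → r ≠ (N, 0) →
      Col (a1, a2) (N, 0) r → r.2 ≠ 0 ∧ ∀ s : ℤ, (s = 0 ∨ s = g) →
        (∀ z, Col (a1, a2) (b1, b2) z → ¬ Col (s, 0) r z) ∧
        ¬ Par (a1, a2) (b1, b2) (s, 0) r ∧ ¬ Par (b1, b2) (N, 0) (s, 0) r := by
  obtain ⟨M, hMdef⟩ : ∃ M : ℤ, M = 1 + |a1| + |a2| + |b1| + |b2| + |g| := ⟨_, rfl⟩
  have n1 := abs_nonneg a1
  have n2 := Int.one_le_abs ha2
  have n3 := abs_nonneg b1
  have n4 := Int.one_le_abs hb2
  have n5 := abs_nonneg g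
  have hM : 3 ≤ M := by linarith
  have hM2 : M ≤ M ^ 2 := by nlinarith
  have hM3 : M ^ 2 ≤ M ^ 3 := by nlinarith
  have hM4 : M ^ 3 ≤ M ^ 4 := by nlinarith [pow_pos (show (0:ℤ) < M by linarith) 3]
  have hM6 : M ^ 4 ≤ M ^ 6 := by nlinarith [pow_pos (show (0:ℤ) < M by linarith) 4]
  refine ⟨1000 * M ^ 6, ?_⟩
  intro N hN r hra hrc hr
  obtain ⟨x, y⟩ := r
  have hy : y ≠ 0 := by
    rintro rfl
    unfold Col at hr
    simp only at hr
    have : a2 * (x - N) = 0 := by linear_combination hr
    rcases mul_eq_zero.mp this with h | h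
    · exact ha2 h
    · exact hrc (Prod.ext (by simp only; linarith) rfl)
  refine ⟨hy, ?_⟩
  intro s hs
  have bs : |s| ≤ M ∧ |a1 - s| ≤ M ∧ |b1 - s| ≤ M ∧ (b1 - s) * a2 - b2 * (a1 - s) ≠ 0 := by
    rcases hs with rfl | rfl
    · simp only [sub_zero, abs_zero]
      exact ⟨by linarith, by linarith, by linarith, hDp⟩
    · have h1 := abs_sub a1 s
      have h2 := abs_sub b1 s
      exact ⟨by linarith, by linarith, by linarith, hDq⟩
  obtain ⟨bs1, bs2, bs3, bs4⟩ := bs
  have hsN : s < N := by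
    have := le_abs_self s
    linarith
  have hal : ¬ Col (s, 0) (x, y) (a1, a2) := by
    intro h
    -- then `s` is on `a c`
    have h1 : Col (a1, a2) (N, 0) (s, 0) :=
      (Col.line_iff (show ((a1, a2) : Pt) ≠ (N, 0) from fun h => ha2 (congrArg Prod.snd h))
        (show ((x, y) : Pt) ≠ (a1, a2) from hra) hr (Col.refl_left _ _)).mpr (h.rot)
    unfold Col at h1
    simp only at h1
    have : a2 * (s - N) = 0 := by linear_combination h1
    rcases mul_eq_zero.mp this with h | h
    · exact ha2 h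
    · linarith
  have hbig : 5 * M ^ 2 * |y| ≤ |x - s| := by
    exact ii_hit (s' := s) (by linarith) hN bs2 (by linarith) ha2 bs1 bs1 hy hal hr
      (Col.refl_right _ _)
  have key : y * (a2 * (x - s) - (a1 - s) * y + (N - s) * y) = (N - s) * y * a2 := by
    unfold Col at hr
    simp only at hr
    linear_combination y * hr
  refine ⟨?_, ?_, ?_⟩
  · intro z hz hcz
    obtain ⟨z1, z2⟩ := z
    unfold Col at hz hcz
    simp only at hz hcz
    exact ii_noab (a1 := a1 - s) (b1 := b1 - s) (z1 := z1 - s) (z2 := z2) (by linarith) bs2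
      (by linarith) bs3 (by linarith) hab bs4 hy hbig (by linear_combination hz)
      (by linear_combination hcz)
  · intro hP
    unfold Par at hP
    simp only at hP
    exact ii_nopar (a1 := a1 - s) (b1 := b1 - s) (by linarith) bs2 bs3 hab hy hbig
      (by linear_combination hP)
  · intro hP
    unfold Par at hP
    simp only at hP
    exact ii_nopar2 (a1 := a1 - s) (b1 := b1 - s) (N := N - s) (η := y) (by linarith) bs2
      (by linarith) bs3 (by linarith) ha2 hb2 hab bs4 hy
      (by have := le_abs_self s; linarith) key (by linear_combination -hP)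

/-- the third stone far on `p q`: all `r` off `b c`, except those `r` on `a c` from which a blue
line meets `b c` -/
theorem ii_cpq_norm (HU : NodeK3Uw) {a1 a2 b1 b2 g : ℤ} (hg : g ≠ 0) (ha2 : a2 ≠ 0)
    (hb2 : b2 ≠ 0) (hab : a2 ≠ b2)
    (hDp : b1 * a2 - b2 * a1 ≠ 0) (hDq : (b1 - g) * a2 - b2 * (a1 - g) ≠ 0)
    (hprim : IsCoprime (a1 - b1) (a2 - b2)) :
    ∃ N0 : ℤ, ∀ N : ℤ, N0 ≤ N → IsCoprime (a1 - N) a2 → ∀ r : Pt,
      r ∉ ({(a1, a2), (b1, b2), (N, 0), (0, 0), (g, 0)} : Finset Pt) →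
      ¬ Col (b1, b2) (N, 0) r →
      (Col (a1, a2) (N, 0) r → ∀ z, Col (b1, b2) (N, 0) z → z ≠ (b1, b2) → z ≠ (N, 0) →
        ¬ Col (0, 0) r z ∧ ¬ Col (g, 0) r z) →
      Win {(a1, a2), (b1, b2), (N, 0)} {(0, 0), (g, 0), r} := by
  obtain ⟨N1, h1⟩ := ii_norm hg ha2 hb2 hab hDp hDq
  obtain ⟨N2, h2⟩ := ii_ab_norm hg ha2 hb2 hab hDp hDq
  obtain ⟨N3, h3⟩ := ii_ab_par (g := g) (a1 := a1) (b1 := b1) ha2 hb2 hab
  obtain ⟨N4, h4⟩ := ii_ac_norm ha2 hb2 hab hDp hDq
  refine ⟨|N1| + |N2| + |N3| + |N4| + |g| + |b1| + 1, ?_⟩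
  intro N hN hpa r hr hbc hac
  have k1 := le_abs_self N1
  have k2 := le_abs_self N2
  have k3 := le_abs_self N3
  have k4 := le_abs_self N4
  have k5 := le_abs_self g
  have l1 := abs_nonneg N1
  have l2 := abs_nonneg N2
  have l3 := abs_nonneg N3
  have l4 := abs_nonneg N4
  have l5 := abs_nonneg g
  have l6 := abs_nonneg b1
  simp only [Finset.mem_insert, Finset.mem_singleton, not_or] at hr
  obtain ⟨ra, rb, rc, rp, rq⟩ := hr
  obtain ⟨R, hR⟩ : ∃ R : Finset Pt, R = {(a1, a2), (b1, b2), (N, 0)} := ⟨_, rfl⟩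
  obtain ⟨B, hB⟩ : ∃ B : Finset Pt, B = {(0, 0), (g, 0), r} := ⟨_, rfl⟩
  have aR : ((a1, a2) : Pt) ∈ R := by simp [hR]
  have bR : ((b1, b2) : Pt) ∈ R := by simp [hR]
  have cR : ((N, 0) : Pt) ∈ R := by simp [hR]
  have Bm : ∀ z ∈ B, (∃ s : ℤ, (s = 0 ∨ s = g) ∧ z = (s, 0)) ∨ z = r := by
    intro z hz
    rw [hB] at hz
    simp only [Finset.mem_insert, Finset.mem_singleton] at hz
    rcases hz with rfl | rfl | rfl
    · exact Or.inl ⟨0, Or.inl rfl, rfl⟩
    · exact Or.inl ⟨g, Or.inr rfl, rfl⟩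
    · exact Or.inr rfl
  have Rm : ∀ z ∈ R, z = (a1, a2) ∨ z = (b1, b2) ∨ z = (N, 0) := by
    intro z hz
    simpa [hR] using hz
  have sN : ∀ s : ℤ, (s = 0 ∨ s = g) → s ≠ N := by
    rintro s (rfl | rfl)
    · intro h; linarith
    · intro h; linarith
  have hBR : ∀ z ∈ B, z ∉ R := by
    intro z hz hzR
    rcases Bm z hz with ⟨s, hs, rfl⟩ | rfl
    · rcases Rm _ hzR with h | h | h
      · exact ha2 (congrArg Prod.snd h).symm
      · exact hb2 (congrArg Prod.snd h).symm
      · exact sN s hs (congrArg Prod.fst h)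
    · rcases Rm _ hzR with h | h | h
      · exact ra h
      · exact rb h
      · exact rc h
  have hneab : ((a1, a2) : Pt) ≠ (b1, b2) := fun h => hab (congrArg Prod.snd h)
  have hneac : ((a1, a2) : Pt) ≠ (N, 0) := fun h => ha2 (congrArg Prod.snd h)
  have hnebc : ((b1, b2) : Pt) ≠ (N, 0) := fun h => hb2 (congrArg Prod.snd h)
  have sab : ∀ s : ℤ, (s = 0 ∨ s = g) → ¬ Col (a1, a2) (b1, b2) (s, 0) := by
    intro s hs h
    unfold Col at h
    simp only at h
    rcases hs with rfl | rfl
    · apply hDp; linear_combination -h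
    · apply hDq; linear_combination -h
  have sXc : ∀ X1 X2 s : ℤ, X2 ≠ 0 → (s = 0 ∨ s = g) → ¬ Col (X1, X2) (N, 0) (s, 0) := by
    intro X1 X2 s hX hs h
    unfold Col at h
    simp only at h
    have : X2 * (s - N) = 0 := by linear_combination h
    rcases mul_eq_zero.mp this with h' | h'
    · exact hX h'
    · exact sN s hs (by linarith)
  have spq : ∀ s s' : ℤ, Col ((s, 0) : Pt) (s', 0) (N, 0) := by
    intro s s'; unfold Col; simp
  by_cases hrab : Col (a1, a2) (b1, b2) r
  · -- `r` on `a b`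
    have hrc : ¬ Col (a1, a2) (N, 0) r := by
      intro h
      by_cases hc0 : Col (a1, a2) (b1, b2) (N, 0)
      · -- `c` on `a b`: excluded by the size of `N`
        have hp : ∀ z, Col (a1, a2) (b1, b2) z → Col (a1, a2) (N, 0) z := by
          intro z hz
          exact (Col.line_iff hneab hneac (Col.refl_left _ _) hc0).mp hz
        exact hbc ((Col.line_iff hneab hnebc (Col.refl_right _ _) hc0).mp hrab)
      · apply ra
        by_contra hra
        apply hc0
        exact ((Col.line_iff hneab (Ne.symm hra) (Col.refl_left _ _) hrab).mpr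
          ((Col.line_iff hneac (Ne.symm hra) (Col.refl_left _ _) h).mp (Col.refl_right _ _)))
    have hcab : ¬ Col (N, 0) (a1, a2) (b1, b2) := by
      intro h
      exact hrc ((Col.line_iff hneab hneac (Col.refl_left _ _) h.rot).mp hrab)
    have hr2 : ∀ s : ℤ, (s = 0 ∨ s = g) → r ≠ (s, 0) := by
      rintro s (rfl | rfl)
      · exact rp
      · exact rq
    have hNT : NoThreat R B := by
      intro u hu v hv w hw huv huw hvw hc
      refine ⟨(N, 0), cR, ?_⟩
      by_contra hcon
      -- one of the points is `r`, the two others are on the axis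
      have key : ∀ s s' : ℤ, (s = 0 ∨ s = g) → (s' = 0 ∨ s' = g) → s ≠ s' →
          Col ((s, 0) : Pt) (s', 0) r → False := by
        intro s s' hs hs' hne h
        have hr0 : r.2 = 0 := by
          unfold Col at h
          simp only at h
          have : (s' - s) * r.2 = 0 := by linear_combination h
          exact (mul_eq_zero.mp this).resolve_left (sub_ne_zero.mpr hne.symm)
        apply hcon
        have hl : ∀ z ∈ B, z.2 = 0 := by
          intro z hz
          rcases Bm z hz with ⟨t, _, rfl⟩ | rfl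
          · rfl
          · exact hr0
        unfold Col
        rw [hl u hu, hl v hv]
        ring
      rcases Bm u hu with ⟨s, hs, rfl⟩ | rfl
      · rcases Bm v hv with ⟨s', hs', rfl⟩ | rfl
        · exact hcon (spq s s')
        · rcases Bm w hw with ⟨s', hs', rfl⟩ | rfl
          · exact key s s' hs hs' (fun h => huw (by rw [h])) hc.swap23
          · exact hvw rfl
      · rcases Bm v hv with ⟨s, hs, rfl⟩ | rfl
        · rcases Bm w hw with ⟨s', hs', rfl⟩ | rfl
          · exact key s s' hs hs' (fun h => hvw (by rw [h])) hc.rot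
          · exact huw rfl
        · exact huv rfl
    have hUn : ∀ X ∈ ({(a1, a2), (b1, b2)} : Finset Pt), Uncov R B (N, 0) X := by
      intro X hX z hz hzR _ u hu v hv huv hc
      exact ⟨(N, 0), cR, h2 N (by linarith) r ra rb hrab X hX z hz.swap12 (by rw [← hR]; exact hzR)
        u (by rw [← hB]; exact hu) v (by rw [← hB]; exact hv) huv hc⟩
    have hPar : ∀ X ∈ ({(a1, a2), (b1, b2)} : Finset Pt), ∀ β ∈ B, ∀ β' ∈ B, β ≠ β' →
        ¬ Par (N, 0) X β β' := by
      intro X hX β hβ β' hβ' hne hP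
      have hX2 : X.2 ≠ 0 := by
        simp only [Finset.mem_insert, Finset.mem_singleton] at hX
        rcases hX with rfl | rfl
        · exact ha2
        · exact hb2
      rcases Bm β hβ with ⟨s, hs, rfl⟩ | rfl
      · rcases Bm β' hβ' with ⟨s', hs', rfl⟩ | rfl
        · unfold Par at hP
          simp only at hP
          have : X.2 * (s' - s) = 0 := by linear_combination -hP
          rcases mul_eq_zero.mp this with h | h
          · exact hX2 h
          · exact hne (by rw [show s = s' by linarith])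
        · exact h3 N (by linarith) _ hrab s hs (hr2 s hs) X hX hP
      · rcases Bm β' hβ' with ⟨s', hs', rfl⟩ | rfl
        · exact h3 N (by linarith) _ hrab s' hs' (hr2 s' hs') X hX hP.symm_right
        · exact hne rfl
    have hLa : ALine R B (N, 0) (a1, a2) := by
      refine ⟨cR, aR, hneac.symm, ?_⟩
      intro z hz
      rcases Bm z hz with ⟨s, hs, rfl⟩ | rfl
      · exact fun h => sXc a1 a2 s ha2 hs h.swap12
      · exact fun h => hrc h.swap12
    have hLb : ALine R B (N, 0) (b1, b2) := by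
      refine ⟨cR, bR, hnebc.symm, ?_⟩
      intro z hz
      rcases Bm z hz with ⟨s, hs, rfl⟩ | rfl
      · exact fun h => sXc b1 b2 s hb2 hs h.swap12
      · exact fun h => hbc h.swap12
    rw [← hR, ← hB]
    exact HU R B (a1, a2) (b1, b2) (N, 0) hNT hBR hLa (hUn _ (by simp)) hLb (hUn _ (by simp))
      hcab hprim (fun β hβ β' hβ' hne hP => absurd hP (hPar _ (by simp) β hβ β' hβ' hne))
      (hPar _ (by simp))
  by_cases hrac : Col (a1, a2) (N, 0) r
  · -- `r` on `a c`
    obtain ⟨hy, hs4⟩ := h4 N (by linarith) r ra rc hrac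
    have hNT : NoThreat R B := by
      intro u hu v hv w hw huv huw hvw hc
      exfalso
      have key : ∀ s s' : ℤ, s ≠ s' → Col ((s, 0) : Pt) (s', 0) r → False := by
        intro s s' hne h
        unfold Col at h
        simp only at h
        have : (s' - s) * r.2 = 0 := by linear_combination h
        exact (mul_ne_zero (sub_ne_zero.mpr hne.symm) hy) this
      rcases Bm u hu with ⟨s, hs, rfl⟩ | rfl
      · rcases Bm v hv with ⟨s', hs', rfl⟩ | rfl
        · rcases Bm w hw with ⟨s'', hs'', rfl⟩ | rfl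
          · rcases hs with rfl | rfl <;> rcases hs' with rfl | rfl <;>
              rcases hs'' with rfl | rfl <;> first
              | exact huv rfl
              | exact huw rfl
              | exact hvw rfl
          · exact key s s' (fun h => huv (by rw [h])) hc
        · rcases Bm w hw with ⟨s', hs', rfl⟩ | rfl
          · exact key s s' (fun h => huw (by rw [h])) hc.swap23
          · exact hvw rfl
      · rcases Bm v hv with ⟨s, hs, rfl⟩ | rfl
        · rcases Bm w hw with ⟨s', hs', rfl⟩ | rfl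
          · exact key s s' (fun h => hvw (by rw [h])) hc.rot
          · exact huw rfl
        · exact huv rfl
    have hcol : ¬ Col (b1, b2) (a1, a2) (N, 0) := by
      intro h
      exact hrab ((Col.line_iff hneab hneac (Col.refl_left _ _) h.swap12).mpr hrac)
    have hAba : ALine R B (b1, b2) (a1, a2) := by
      refine ⟨bR, aR, hneab.symm, ?_⟩
      intro z hz
      rcases Bm z hz with ⟨s, hs, rfl⟩ | rfl
      · exact fun h => sab s hs h.swap12
      · exact fun h => hrab h.swap12
    have hAbc : ALine R B (b1, b2) (N, 0) := by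
      refine ⟨bR, cR, hnebc, ?_⟩
      intro z hz
      rcases Bm z hz with ⟨s, hs, rfl⟩ | rfl
      · exact sXc b1 b2 s hb2 hs
      · exact hbc
    have hnr : ∀ s : ℤ, (s = 0 ∨ s = g) → ∀ z, Col (b1, b2) (N, 0) z → z ∉ R →
        ¬ Col (s, 0) r z := by
      intro s hs z hz hzR
      have hz1 : z ≠ (b1, b2) := fun h => hzR (h ▸ bR)
      have hz2 : z ≠ (N, 0) := fun h => hzR (h ▸ cR)
      obtain ⟨g1, g2⟩ := hac hrac z hz hz1 hz2
      rcases hs with rfl | rfl
      · exact g1
      · exact g2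
    have hUba : Uncov R B (b1, b2) (a1, a2) := by
      intro z hz hzR _ u hu v hv huv hc
      rcases Bm u hu with ⟨s, hs, rfl⟩ | rfl
      · rcases Bm v hv with ⟨s', hs', rfl⟩ | rfl
        · exact ⟨(N, 0), cR, spq s s'⟩
        · exact absurd hc ((hs4 s hs).1 z hz.swap12)
      · rcases Bm v hv with ⟨s', hs', rfl⟩ | rfl
        · exact absurd hc.swap12 ((hs4 s' hs').1 z hz.swap12)
        · exact absurd rfl huv
    have hUbc : Uncov R B (b1, b2) (N, 0) := by
      intro z hz hzR _ u hu v hv huv hc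
      rcases Bm u hu with ⟨s, hs, rfl⟩ | rfl
      · rcases Bm v hv with ⟨s', hs', rfl⟩ | rfl
        · exact ⟨(N, 0), cR, spq s s'⟩
        · exact absurd hc (hnr s hs z hz hzR)
      · rcases Bm v hv with ⟨s', hs', rfl⟩ | rfl
        · exact absurd hc.swap12 (hnr s' hs' z hz hzR)
        · exact absurd rfl huv
    have hPa : ∀ β ∈ B, ∀ β' ∈ B, β ≠ β' → ¬ Par (b1, b2) (a1, a2) β β' := by
      intro β hβ β' hβ' hne hP
      rcases Bm β hβ with ⟨s, hs, rfl⟩ | rfl
      · rcases Bm β' hβ' with ⟨s', hs', rfl⟩ | rfl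
        · unfold Par at hP
          simp only at hP
          have : (a2 - b2) * (s' - s) = 0 := by linear_combination -hP
          rcases mul_eq_zero.mp this with h | h
          · exact hab (by linarith)
          · exact hne (by rw [show s = s' by linarith])
        · exact (hs4 s hs).2.1 hP.sw
      · rcases Bm β' hβ' with ⟨s', hs', rfl⟩ | rfl
        · exact (hs4 s' hs').2.1 hP.symm_right.sw
        · exact hne rfl
    have hPc : ∀ β ∈ B, ∀ β' ∈ B, β ≠ β' → ¬ Par (b1, b2) (N, 0) β β' := by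
      intro β hβ β' hβ' hne hP
      rcases Bm β hβ with ⟨s, hs, rfl⟩ | rfl
      · rcases Bm β' hβ' with ⟨s', hs', rfl⟩ | rfl
        · unfold Par at hP
          simp only at hP
          have : b2 * (s' - s) = 0 := by linear_combination hP
          rcases mul_eq_zero.mp this with h | h
          · exact hb2 h
          · exact hne (by rw [show s = s' by linarith])
        · exact (hs4 s hs).2.2 hP
      · rcases Bm β' hβ' with ⟨s', hs', rfl⟩ | rfl
        · exact (hs4 s' hs').2.2 hP.symm_right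
        · exact hne rfl
    rw [← hR, ← hB]
    exact HU R B (a1, a2) (N, 0) (b1, b2) hNT hBR hAba hUba hAbc hUbc hcol
      (by simpa using hpa) (fun β hβ β' hβ' hne hP => absurd hP (hPa β hβ β' hβ' hne)) hPc
  · exact h1 N (by linarith) r rp rq hrab hrac hbc

end Pool.Agent.K4L
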