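import Pool.Agent.K4L.PC1

/-!
# CASE II with the third stone far on `p q`: general coordinates
-/

namespace Pool.Agent.K4L

theorem ii_cpq (HU : NodeK3Uw) {a b p q : Pt} (hpq : p ≠ q) (ha : ¬ Col p q a)
    (hb : ¬ Col p q b) (hab : ¬ Par p q a b) (hp : ¬ Col a b p) (hq : ¬ Col a b q)
    (hprim : IsCoprime (a.1 - b.1) (a.2 - b.2)) (F : Finset Pt) :
    ∃ c, c ∉ F ∧ Col p q c ∧ ∀ r, r ∉ ({a, b, c, p, q} : Finset Pt) → ¬ Col b c r →
      (Col a c r → ∀ z, Col b c z → z ≠ b → z ≠ c → ¬ Col p r z ∧ ¬ Col q r z) →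
      Win {a, b, c} {p, q, r} := by
  classical
  have hv : q - p ≠ 0 := sub_ne_zero.mpr hpq.symm
  obtain ⟨u, hu, g, hg, hgu⟩ := exists_prim hv
  have g1 : q.1 - p.1 = g * u.1 := by
    have := congrArg Prod.fst hgu
    simpa using this
  have g2 : q.2 - p.2 = g * u.2 := by
    have := congrArg Prod.snd hgu
    simpa using this
  obtain ⟨x, y, hxy⟩ := hu
  -- `v = (-y, x)`, `det (u, v) = 1`
  have hdet : u.1 * x - (-y) * u.2 = 1 := by linear_combination hxy
  obtain ⟨f, hf⟩ : ∃ f : Pt ≃ Pt, f = (linE u.1 (-y) u.2 x 1 (by norm_num) hdet).trans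
    (transE p) := ⟨_, rfl⟩
  have hfa : ∀ z : Pt, f z = (u.1 * z.1 + (-y) * z.2 + p.1, u.2 * z.1 + x * z.2 + p.2) := by
    intro z
    rw [hf]; rfl
  have hfc : ∀ z w t : Pt, Col (f z) (f w) (f t) ↔ Col z w t := by
    intro z w t
    rw [hf]
    simp only [Equiv.trans_apply]
    rw [col_transE, col_linE]
  -- coordinates
  have hinv : ∀ z : Pt, f (x * (z.1 - p.1) + y * (z.2 - p.2), u.1 * (z.2 - p.2) - u.2 *
      (z.1 - p.1)) = z := by
    intro z
    rw [hfa]
    refine Prod.ext ?_ ?_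
    · simp only
      linear_combination (z.1 - p.1) * hxy
    · simp only
      linear_combination (z.2 - p.2) * hxy
  have hcol : ∀ z : Pt, Col p q z ↔ u.1 * (z.2 - p.2) - u.2 * (z.1 - p.1) = 0 := by
    intro z
    unfold Col
    rw [g1, g2]
    constructor
    · intro h
      apply mul_left_cancel₀ hg
      linear_combination h
    · intro h
      linear_combination g * h
  obtain ⟨a1, ha1⟩ : ∃ a1, a1 = x * (a.1 - p.1) + y * (a.2 - p.2) := ⟨_, rfl⟩
  obtain ⟨a2, ha2⟩ : ∃ a2, a2 = u.1 * (a.2 - p.2) - u.2 * (a.1 - p.1) := ⟨_, rfl⟩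
  obtain ⟨b1, hb1⟩ : ∃ b1, b1 = x * (b.1 - p.1) + y * (b.2 - p.2) := ⟨_, rfl⟩
  obtain ⟨b2, hb2⟩ : ∃ b2, b2 = u.1 * (b.2 - p.2) - u.2 * (b.1 - p.1) := ⟨_, rfl⟩
  have fa : f (a1, a2) = a := by rw [ha1, ha2]; exact hinv a
  have fb : f (b1, b2) = b := by rw [hb1, hb2]; exact hinv b
  have fp : f (0, 0) = p := by rw [hfa]; simp
  have fq : f (g, 0) = q := by
    rw [hfa]
    refine Prod.ext ?_ ?_
    · simp only; linarith
    · simp only; linarith
  have h1 : a2 ≠ 0 := by rw [ha2]; exact fun h => ha ((hcol a).mpr h)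
  have h2 : b2 ≠ 0 := by rw [hb2]; exact fun h => hb ((hcol b).mpr h)
  have h3 : a2 ≠ b2 := by
    intro h
    apply hab
    unfold Par
    rw [g1, g2]
    rw [ha2, hb2] at h
    linear_combination -g * h
  have h4 : b1 * a2 - b2 * a1 ≠ 0 := by
    intro h
    apply hp
    rw [← fa, ← fb, ← fp, hfc]
    unfold Col
    simp only
    linear_combination -h
  have h5 : (b1 - g) * a2 - b2 * (a1 - g) ≠ 0 := by
    intro h
    apply hq
    rw [← fa, ← fb, ← fq, hfc]
    unfold Col
    simp only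
    linear_combination -h
  have h6 : IsCoprime (a1 - b1) (a2 - b2) := by
    obtain ⟨s, t, hst⟩ := hprim
    refine ⟨s * u.1 + t * u.2, -s * y + t * x, ?_⟩
    have e1 : a.1 - b.1 = u.1 * (a1 - b1) + (-y) * (a2 - b2) := by
      have := hfa (a1, a2)
      rw [fa] at this
      have i1 := congrArg Prod.fst this
      have := hfa (b1, b2)
      rw [fb] at this
      have i2 := congrArg Prod.fst this
      simp only at i1 i2
      rw [i1, i2]; ring
    have e2 : a.2 - b.2 = u.2 * (a1 - b1) + x * (a2 - b2) := by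
      have := hfa (a1, a2)
      rw [fa] at this
      have i1 := congrArg Prod.snd this
      have := hfa (b1, b2)
      rw [fb] at this
      have i2 := congrArg Prod.snd this
      simp only at i1 i2
      rw [i1, i2]; ring
    rw [e1, e2] at hst
    linear_combination hst
  obtain ⟨N0, hN0⟩ := ii_cpq_norm HU hg h1 h2 h3 h4 h5 h6
  -- a free point of the ray, in the class of `a1 + 1` modulo `a2`
  have hinj : Function.Injective (fun n : ℕ => f (a1 + 1 + |a2| * (|N0| + |a1| + n), 0)) := by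
    intro m n hmn
    have := f.injective hmn
    have := congrArg Prod.fst this
    simp only at this
    have h7 : |a2| ≠ 0 := abs_ne_zero.mpr h1
    have h8 : |a2| * (|N0| + |a1| + m) = |a2| * (|N0| + |a1| + n) := by linarith
    have h9 := mul_left_cancel₀ h7 h8
    exact_mod_cast (by linarith : (m : ℤ) = n)
  obtain ⟨c, ⟨n, rfl⟩, hc⟩ := (Set.infinite_range_of_injective hinj).exists_notMem_finset F
  obtain ⟨N, hN⟩ : ∃ N, N = a1 + 1 + |a2| * (|N0| + |a1| + n) := ⟨_, rfl⟩
  have hNN : N0 ≤ N := by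
    have i1 := Int.one_le_abs h1
    have i2 := le_abs_self N0
    have i3 := neg_abs_le a1
    have i4 : |N0| + |a1| + (n : ℤ) ≤ |a2| * (|N0| + |a1| + n) :=
      le_mul_of_one_le_left (by positivity) i1
    have i5 : (0 : ℤ) ≤ n := by positivity
    rw [hN]; linarith
  have hNc : IsCoprime (a1 - N) a2 := by
    rw [hN]
    rcases abs_choice a2 with h | h
    · rw [h]
      exact ⟨-1, -(|N0| + |a1| + n), by ring⟩
    · rw [h]
      exact ⟨-1, (|N0| + |a1| + n), by ring⟩
  simp only [← hN] at hc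
  refine ⟨f (N, 0), hc, ?_, ?_⟩
  · rw [← fp, ← fq, hfc]
    unfold Col; simp
  · intro r hr hbc hac
    obtain ⟨r', hr'⟩ : ∃ r', f r' = r := ⟨_, hinv r⟩
    have hw := hN0 N hNN hNc r' ?_ ?_ ?_
    · have := hw.map f hfc
      simp only [Finset.image_insert, Finset.image_singleton] at this
      rw [fa, fb, fp, fq, hr'] at this
      exact this
    · simp only [Finset.mem_insert, Finset.mem_singleton, not_or] at hr ⊢
      obtain ⟨ra, rb, rc, rp, rq⟩ := hr
      refine ⟨?_, ?_, ?_, ?_, ?_⟩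
      · rintro rfl; exact ra (hr'.symm.trans fa)
      · rintro rfl; exact rb (hr'.symm.trans fb)
      · rintro rfl; exact rc hr'.symm
      · rintro rfl; exact rp (hr'.symm.trans fp)
      · rintro rfl; exact rq (hr'.symm.trans fq)
    · rw [← hfc, fb, hr']; exact hbc
    · intro h z hz hzb hzc
      rw [← hfc, fa, hr'] at h
      obtain ⟨k1, k2⟩ := hac h (f z) (by rw [← fb, hfc]; exact hz)
        (fun h => hzb (f.injective (h.trans fb.symm))) (fun h => hzc (f.injective h))
      rw [← fp, ← hr', hfc] at k1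
      rw [← fq, ← hr', hfc] at k2
      exact ⟨k1, k2⟩

end Pool.Agent.K4L
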