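import Pool.Agent.K4L.Skel1

/-!
# CASE I: `r` off the lines `a c`, `b c`, which are uncovered
-/

namespace Pool.Agent.K4L

theorem caseI_unc (hU : NodeK3U) {A κ : ℤ} (hA : 1 ≤ A) (hκ0 : κ ≠ 0) (hκ1 : κ ≠ 1) {r : Pt}
    (ra : r ≠ (A, 0)) (rb : r ≠ (A, 1)) (rc : r ≠ (-A, -κ)) (rp : r ≠ (0, 0)) (rq : r ≠ (A, κ))
    (h1 : ¬ Col (A, 0) (-A, -κ) r) (h2 : ¬ Col (A, 1) (-A, -κ) r)
    (h3 : Uncov {(A, 0), (A, 1), (-A, -κ)} {(0, 0), (A, κ), r} (-A, -κ) (A, 0) ∧
      Uncov {(A, 0), (A, 1), (-A, -κ)} {(0, 0), (A, κ), r} (-A, -κ) (A, 1)) :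
    Win {(A, 0), (A, 1), (-A, -κ)} {(0, 0), (A, κ), r} := by
  classical
  obtain ⟨R, hR⟩ : ∃ R : Finset Pt, R = {(A, 0), (A, 1), (-A, -κ)} := ⟨_, rfl⟩
  obtain ⟨B, hB⟩ : ∃ B : Finset Pt, B = {(0, 0), (A, κ), r} := ⟨_, rfl⟩
  rw [← hR, ← hB] at h3 ⊢
  -- `K3U`
  have aR : ((A, 0) : Pt) ∈ R := by rw [hR]; simp
  have bR : ((A, 1) : Pt) ∈ R := by rw [hR]; simp
  have cR : ((-A, -κ) : Pt) ∈ R := by rw [hR]; simp
  have Bm : ∀ z ∈ B, z = (0, 0) ∨ z = (A, κ) ∨ z = r := by
    intro z hz
    rw [hB] at hz
    simpa using hz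
  have Rm : ∀ z ∈ R, z = (A, 0) ∨ z = (A, 1) ∨ z = (-A, -κ) := by
    intro z hz
    rw [hR] at hz
    simpa using hz
  have hpq : ∀ z : Pt, Col (0, 0) (A, κ) z → Col (0, 0) (A, κ) (-A, -κ) := by
    intro z _
    unfold Col; simp only; ring
  have hNT : NoThreat R B := by
    intro u hu v hv w hw huv huw hvw hc
    -- all three are `p, q, r`
    have hcol : Col (0, 0) (A, κ) r := by
      have hr0 : r ≠ (0, 0) := rp
      rcases Bm u hu with rfl | rfl | rfl <;> rcases Bm v hv with rfl | rfl | rfl <;>
        rcases Bm w hw with rfl | rfl | rfl <;>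
        first
        | exact absurd rfl huv
        | exact absurd rfl huw
        | exact absurd rfl hvw
        | exact hc
        | exact hc.swap12
        | exact hc.swap23
        | exact hc.rot
        | exact hc.rot.rot
        | exact hc.rot.swap12
    refine ⟨(-A, -κ), cR, ?_⟩
    have hl : ∀ z ∈ B, Col (0, 0) (A, κ) z := by
      intro z hz
      rcases Bm z hz with rfl | rfl | rfl
      · exact Col.refl_left _ _
      · exact Col.refl_right _ _
      · exact hcol
    have hne : ((0, 0) : Pt) ≠ (A, κ) := by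
      intro h
      have := congrArg Prod.fst h
      simp only at this
      omega
    exact Col.three hne (hl u hu) (hl v hv) (by unfold Col; simp only; ring)
  have hBR : ∀ z ∈ B, z ∉ R := by
    intro z hz hz'
    rcases Bm z hz with rfl | rfl | rfl <;> rcases Rm _ hz' with h | h | h
    · simp only [Prod.mk.injEq] at h; omega
    · simp only [Prod.mk.injEq] at h; omega
    · simp only [Prod.mk.injEq] at h; omega
    · simp only [Prod.mk.injEq] at h; omega
    · simp only [Prod.mk.injEq] at h; omega
    · simp only [Prod.mk.injEq] at h; omega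
    · exact ra h
    · exact rb h
    · exact rc h
  have hLa : ALine R B (-A, -κ) (A, 0) := by
    refine ⟨cR, aR, ?_, ?_⟩
    · intro h
      simp only [Prod.mk.injEq] at h
      omega
    · intro z hz hc
      rcases Bm z hz with rfl | rfl | rfl
      · unfold Col at hc
        simp only at hc
        have : κ * A = 0 := by linear_combination hc
        rcases mul_eq_zero.mp this with h | h
        · exact hκ0 h
        · omega
      · unfold Col at hc
        simp only at hc
        have : κ * A = 0 := by linarith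
        rcases mul_eq_zero.mp this with h | h
        · exact hκ0 h
        · omega
      · exact h1 hc.swap12
  have hLb : ALine R B (-A, -κ) (A, 1) := by
    refine ⟨cR, bR, ?_, ?_⟩
    · intro h
      simp only [Prod.mk.injEq] at h
      omega
    · intro z hz hc
      rcases Bm z hz with rfl | rfl | rfl
      · unfold Col at hc
        simp only at hc
        have : (κ - 1) * A = 0 := by linarith
        rcases mul_eq_zero.mp this with h | h
        · exact hκ1 (by linarith)
        · omega
      · unfold Col at hc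
        simp only at hc
        have : (κ - 1) * A = 0 := by linarith
        rcases mul_eq_zero.mp this with h | h
        · exact hκ1 (by linarith)
        · omega
      · exact h2 hc.swap12
  have hcab : ¬ Col (-A, -κ) (A, 0) (A, 1) := by
    intro h
    unfold Col at h
    simp only at h
    have : A = 0 := by linarith
    omega
  have hA0 : A ≠ 0 := by omega
  have pB : ((0, 0) : Pt) ∈ B := by rw [hB]; simp
  have qB : ((A, κ) : Pt) ∈ B := by rw [hB]; simp
  have rB : r ∈ B := by rw [hB]; simp
  -- parallels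
  have hA1 : A ≠ 0 := hA0
  have hAκ : A * κ ≠ 0 := mul_ne_zero hA0 hκ0
  have hAκ1 : A * (κ - 1) ≠ 0 := mul_ne_zero hA0 (sub_ne_zero.mpr hκ1)
  have qr : ((A, κ) : Pt) ≠ r := fun h => rq h.symm
  have pr : ((0, 0) : Pt) ≠ r := fun h => rp h.symm
  have pa_q : ¬ Par (-A, -κ) (A, 0) (A, κ) r := by
    intro h
    obtain ⟨w, hw, hcw⟩ := par_hit hLa.ne hLb h3.2 qB rB qr h
      (z := (A * (2 * κ - 1), κ * κ)) (by unfold Col; simp only; ring)
      (by unfold Par; simp only; ring) (by
        intro h'
        rcases Rm _ h' with h | h | h <;> simp only [Prod.mk.injEq] at h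
        · exact hAκ1 (by linarith [h.1])
        · exact hAκ1 (by linarith [h.1])
        · exact hAκ (by linarith [h.1]))
    unfold Par at hcw
    rcases Rm _ hw with rfl | rfl | rfl <;> simp only at hcw
    · exact hAκ (by linarith)
    · exact hAκ1 (by linarith)
    · exact hAκ (by linarith)
  have pb_q : ¬ Par (-A, -κ) (A, 1) (A, κ) r := by
    intro h
    obtain ⟨w, hw, hcw⟩ := par_hit hLb.ne hLa h3.1 qB rB qr h
      (z := (A * (1 - 2 * κ), - (κ * κ))) (by unfold Col; simp only; ring)
      (by unfold Par; simp only; ring) (by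
        intro h'
        rcases Rm _ h' with h | h | h <;> simp only [Prod.mk.injEq] at h
        · exact hAκ (by linarith [h.1])
        · exact hAκ (by linarith [h.1])
        · exact hAκ1 (by linarith [h.1]))
    unfold Par at hcw
    rcases Rm _ hw with rfl | rfl | rfl <;> simp only at hcw
    · exact hAκ (by linarith)
    · exact hAκ1 (by linarith)
    · exact hAκ1 (by linarith)
  have pa_p : Par (-A, -κ) (A, 0) (0, 0) r → κ = 2 := by
    intro h
    by_contra hκ2
    obtain ⟨n, hn⟩ : ∃ n, κ * (κ - 1) = 2 * n := by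
      obtain ⟨n, hn⟩ := Int.even_mul_pred_self κ
      exact ⟨n, by rw [hn]; ring⟩
    have hAκ2 : A * (κ - 2) ≠ 0 := mul_ne_zero hA0 (sub_ne_zero.mpr hκ2)
    obtain ⟨w, hw, hcw⟩ := par_hit hLa.ne hLb h3.2 pB rB pr h
      (z := (A * (κ - 1), n)) (by unfold Col; simp only; linear_combination (-A) * hn)
      (by unfold Par; simp only; linear_combination (-A) * hn) (by
        intro h'
        rcases Rm _ h' with h | h | h <;> simp only [Prod.mk.injEq] at h
        · exact hAκ2 (by linarith [h.1])
        · exact hAκ2 (by linarith [h.1])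
        · exact hAκ (by linarith [h.1]))
    unfold Par at hcw
    rcases Rm _ hw with rfl | rfl | rfl <;> simp only at hcw
    · exact hAκ (by linarith)
    · exact hAκ2 (by linarith)
    · exact hAκ (by linarith)
  have pb_p : Par (-A, -κ) (A, 1) (0, 0) r → κ = -1 := by
    intro h
    by_contra hκ2
    obtain ⟨n, hn⟩ : ∃ n, κ * (κ + 1) = 2 * n := by
      obtain ⟨n, hn⟩ := Int.even_mul_succ_self κ
      exact ⟨n, by rw [hn]; ring⟩
    have hAκ2 : A * (κ + 1) ≠ 0 := mul_ne_zero hA0 (fun h => hκ2 (by linarith))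
    obtain ⟨w, hw, hcw⟩ := par_hit hLb.ne hLa h3.1 pB rB pr h
      (z := (- (A * κ), -n)) (by unfold Col; simp only; linear_combination A * hn)
      (by unfold Par; simp only; linear_combination A * hn) (by
        intro h'
        rcases Rm _ h' with h | h | h <;> simp only [Prod.mk.injEq] at h
        · exact hAκ2 (by linarith [h.1])
        · exact hAκ2 (by linarith [h.1])
        · exact hAκ1 (by linarith [h.1]))
    unfold Par at hcw
    rcases Rm _ hw with rfl | rfl | rfl <;> simp only at hcw
    · exact hAκ2 (by linarith)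
    · exact hAκ1 (by linarith)
    · exact hAκ1 (by linarith)
  have pa_pq : ¬ Par (-A, -κ) (A, 0) (0, 0) (A, κ) := by
    unfold Par; simp only
    intro h
    exact hAκ (by linarith)
  have pb_pq : ¬ Par (-A, -κ) (A, 1) (0, 0) (A, κ) := by
    unfold Par; simp only
    intro h
    exact hAκ1 (by linarith)
  have parA : ∀ β ∈ B, ∀ β' ∈ B, β ≠ β' → Par (-A, -κ) (A, 0) β β' →
      κ = 2 ∧ Col β β' (A, 1) := by
    have key : Par (-A, -κ) (A, 0) (0, 0) r → κ = 2 ∧ Col (0, 0) r (A, 1) := by
      intro h
      have hκ2 := pa_p h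
      refine ⟨hκ2, par_col hLa.ne h ?_⟩
      rw [hκ2]; unfold Par; simp only; ring
    intro β hβ β' hβ' hne h
    rcases Bm β hβ with rfl | rfl | rfl <;> rcases Bm β' hβ' with rfl | rfl | rfl
    · exact absurd rfl hne
    · exact absurd h pa_pq
    · exact key h
    · exact absurd h.symm_right pa_pq
    · exact absurd rfl hne
    · exact absurd h pa_q
    · obtain ⟨g1, g2⟩ := key h.symm_right
      exact ⟨g1, g2.swap12⟩
    · exact absurd h.symm_right pa_q
    · exact absurd rfl hne
  have parB : ∀ β ∈ B, ∀ β' ∈ B, β ≠ β' → Par (-A, -κ) (A, 1) β β' →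
      κ = -1 ∧ Col β β' (A, 0) := by
    have key : Par (-A, -κ) (A, 1) (0, 0) r → κ = -1 ∧ Col (0, 0) r (A, 0) := by
      intro h
      have hκ2 := pb_p h
      refine ⟨hκ2, par_col hLb.ne h ?_⟩
      rw [hκ2]; unfold Par; simp only; ring
    intro β hβ β' hβ' hne h
    rcases Bm β hβ with rfl | rfl | rfl <;> rcases Bm β' hβ' with rfl | rfl | rfl
    · exact absurd rfl hne
    · exact absurd h pb_pq
    · exact key h
    · exact absurd h.symm_right pb_pq
    · exact absurd rfl hne
    · exact absurd h pb_q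
    · obtain ⟨g1, g2⟩ := key h.symm_right
      exact ⟨g1, g2.swap12⟩
    · exact absurd h.symm_right pb_q
    · exact absurd rfl hne
  by_cases hκm : κ = -1
  · refine hU R B (A, 1) (A, 0) (-A, -κ) hNT hBR hLb h3.2 hLa h3.1
      (fun h => hcab h.swap23) ?_ (fun β hβ β' hβ' hne h => (parB β hβ β' hβ' hne h).2) ?_
    · simp only
      exact ⟨0, 1, by ring⟩
    · intro β hβ β' hβ' hne h
      have := (parA β hβ β' hβ' hne h).1
      omega
  · refine hU R B (A, 0) (A, 1) (-A, -κ) hNT hBR hLa h3.1 hLb h3.2 hcab ?_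
      (fun β hβ β' hβ' hne h => (parA β hβ β' hβ' hne h).2) ?_
    · simp only
      exact ⟨0, -1, by ring⟩
    · intro β hβ β' hβ' hne h
      exact hκm (parB β hβ β' hβ' hne h).1

end Pool.Agent.K4L
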