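import Pool.Agent.K4L.TwoGenB

/-!
# A strategy which is only required to win under a condition on Second's first three stones
-/

namespace Pool.Agent.K4L

theorem not_four_card {A B : Finset Pt} (h : A.card ≤ 3) : ¬ Four A B := by
  rintro ⟨u, hu, v, hv, w, hw, t, ht, huv, huw, hut, hvw, hvt, hwt, _⟩
  have : ({u, v, w, t} : Finset Pt) ⊆ A := by
    intro z hz
    simp only [Finset.mem_insert, Finset.mem_singleton] at hz
    rcases hz with rfl | rfl | rfl | rfl <;> assumption
  have h4 : ({u, v, w, t} : Finset Pt).card = 4 := by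
    rw [Finset.card_insert_of_notMem, Finset.card_insert_of_notMem,
      Finset.card_insert_of_notMem, Finset.card_singleton]
    · simpa using hwt
    · simp [hvw, hvt]
    · simp [huv, huw, hut]
  have := Finset.card_le_card this
  omega

theorem card_redF (m : ℕ → Pt) {k : ℕ} (hk : k ≤ 6) : (redF m k).card ≤ 3 := by
  unfold redF
  refine Finset.card_image_le.trans ?_
  have h : (Finset.range k).filter (fun j => j % 2 = 0) ⊆
      (Finset.range 6).filter (fun j => j % 2 = 0) := by
    intro j hj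
    simp only [Finset.mem_filter, Finset.mem_range] at *
    omega
  refine (Finset.card_le_card h).trans ?_
  decide

theorem card_blueF (m : ℕ → Pt) {k : ℕ} (hk : k ≤ 6) : (blueF m k).card ≤ 3 := by
  unfold blueF
  refine Finset.card_image_le.trans ?_
  have h : (Finset.range k).filter (fun j => j % 2 = 1) ⊆
      (Finset.range 6).filter (fun j => j % 2 = 1) := by
    intro j hj
    simp only [Finset.mem_filter, Finset.mem_range] at *
    omega
  refine (Finset.card_le_card h).trans ?_
  decide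

theorem partial_strategy {a : Pt} {bF : Pt → Pt} {cF : Pt → Pt → Pt} {G : Pt → Pt → Pt → Prop}
    (hb : ∀ p, p ≠ a → bF p ≠ a ∧ bF p ≠ p)
    (hc : ∀ p q, p ≠ a → q ≠ a → q ≠ p → q ≠ bF p →
      cF p q ≠ a ∧ cF p q ≠ p ∧ cF p q ≠ bF p ∧ cF p q ≠ q)
    (hG : ∀ p q r, p ≠ a → q ≠ a → q ≠ p → q ≠ bF p → r ≠ a → r ≠ p → r ≠ bF p → r ≠ q →
      r ≠ cF p q → G p q r → Win {a, bF p, cF p q} {p, q, r}) :
    ∃ s : List (ℤ × ℤ) → ℤ × ℤ, IsStrategy s ∧
      ∀ m : ℕ → ℤ × ℤ, Function.Injective m →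
        (∀ k, m (2 * k) = s ((List.range (2 * k)).map m)) →
        m 0 = a ∧ m 2 = bF (m 1) ∧ m 4 = cF (m 1) (m 3) ∧
        (G (m 1) (m 3) (m 5) → FirstWinsPlay 4 m) := by
  classical
  obtain ⟨f0, hf0⟩ := exists_fresh ∅ ∅
  have hf : ∀ h : List Pt, f0 h ∉ h := fun h => (hf0 h).1
  -- the continuation strategies
  have hS : ∀ p q r : Pt, ∃ s : List Pt → Pt, (∀ h, s h ∉ h ∧ (s h ≠ a ∧ s h ≠ bF p ∧
        s h ≠ cF p q) ∧ (s h ≠ p ∧ s h ≠ q ∧ s h ≠ r)) ∧
      ((p ≠ a ∧ q ≠ a ∧ q ≠ p ∧ q ≠ bF p ∧ r ≠ a ∧ r ≠ p ∧ r ≠ bF p ∧ r ≠ q ∧ r ≠ cF p q ∧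
        G p q r) →
      ∀ m : ℕ → Pt, Function.Injective m →
        (∀ k, m k ∉ ({a, bF p, cF p q} : Finset Pt) ∧ m k ∉ ({p, q, r} : Finset Pt)) →
        (∀ k, m (2 * k) = s ((List.range (2 * k)).map m)) →
        ∃ k, Four ({a, bF p, cF p q} ∪ redF m k) ({p, q, r} ∪ blueF m k) ∧
          ∀ j < k, ¬ Four ({p, q, r} ∪ blueF m j) ({a, bF p, cF p q} ∪ redF m j)) := by
    intro p q r
    by_cases hh : (p ≠ a ∧ q ≠ a ∧ q ≠ p ∧ q ≠ bF p ∧ r ≠ a ∧ r ≠ p ∧ r ≠ bF p ∧ r ≠ q ∧
        r ≠ cF p q ∧ G p q r)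
    · obtain ⟨h1, h2, h3, h4, h5, h6, h7, h8, h9, h10⟩ := hh
      have hw := hG p q r h1 h2 h3 h4 h5 h6 h7 h8 h9 h10
      have h0 : ¬ Four ({p, q, r} : Finset Pt) {a, bF p, cF p q} := by
        apply not_four_card
        exact Finset.card_le_three
      obtain ⟨s, hs1, hs2⟩ := strat_of_win hw h0
      refine ⟨s, ?_, fun _ => hs2⟩
      intro h
      obtain ⟨g1, g2, g3⟩ := hs1 h
      simp only [Finset.mem_insert, Finset.mem_singleton, not_or] at g2 g3
      exact ⟨g1, g2, g3⟩
    · obtain ⟨f, hf⟩ := exists_fresh {a, bF p, cF p q} {p, q, r}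
      refine ⟨f, ?_, fun h => absurd h hh⟩
      intro h
      obtain ⟨g1, g2, g3⟩ := hf h
      simp only [Finset.mem_insert, Finset.mem_singleton, not_or] at g2 g3
      exact ⟨g1, g2, g3⟩
  choose S hS1 hS2 using hS
  obtain ⟨s, hsdef⟩ : ∃ s : List Pt → Pt, s = fun h => match h with
      | [] => a
      | [x0, p] => if x0 = a ∧ p ≠ a then bF p else f0 [x0, p]
      | [x0, p, x1, q] => if x0 = a ∧ x1 = bF p ∧ p ≠ a ∧ q ≠ a ∧ q ≠ p ∧ q ≠ bF p then cF p q
          else f0 [x0, p, x1, q]
      | x0 :: p :: x1 :: q :: x2 :: r :: h' =>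
          if x0 = a ∧ x1 = bF p ∧ x2 = cF p q then S p q r h'
          else f0 (x0 :: p :: x1 :: q :: x2 :: r :: h')
      | h => f0 h := ⟨_, rfl⟩
  refine ⟨s, ?_, ?_⟩
  · intro h
    rw [hsdef]
    match h with
    | [] => simp
    | [x0] => exact hf [x0]
    | [x0, p] =>
      simp only
      split_ifs with hc'
      · obtain ⟨h1, h2⟩ := hc'
        obtain ⟨g1, g2⟩ := hb p h2
        rw [h1]
        simp only [List.mem_cons, List.not_mem_nil, or_false, not_or]
        exact ⟨g1, g2⟩
      · exact hf _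
    | [x0, p, x1] => exact hf [x0, p, x1]
    | [x0, p, x1, q] =>
      simp only
      split_ifs with hc'
      · obtain ⟨h1, h2, h3, h4, h5, h6⟩ := hc'
        obtain ⟨g1, g2, g3, g4⟩ := hc p q h3 h4 h5 h6
        rw [h1, h2]
        simp only [List.mem_cons, List.not_mem_nil, or_false, not_or]
        exact ⟨g1, g2, g3, g4⟩
      · exact hf _
    | [x0, p, x1, q, x2] => exact hf [x0, p, x1, q, x2]
    | x0 :: p :: x1 :: q :: x2 :: r :: h' =>
      simp only
      split_ifs with hc'
      · obtain ⟨h1, h2, h3⟩ := hc'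
        obtain ⟨g1, ⟨g2, g3, g4⟩, g5, g6, g7⟩ := hS1 p q r h'
        rw [h1, h2, h3]
        simp only [List.mem_cons, not_or]
        exact ⟨g2, g5, g3, g6, g4, g7, g1⟩
      · exact hf _
  · intro m hm hs
    have e0 : m 0 = a := by
      have := hs 0
      rw [hsdef] at this
      simpa using this
    have ne : ∀ i j : ℕ, i ≠ j → m i ≠ m j := fun i j hij h => hij (hm h)
    have h1a : m 1 ≠ a := by rw [← e0]; exact ne 1 0 (by norm_num)
    have r2 : (List.range 2).map m = [m 0, m 1] := by simp [List.range_succ]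
    have r4 : (List.range 4).map m = [m 0, m 1, m 2, m 3] := by simp [List.range_succ]
    have e2 : m 2 = bF (m 1) := by
      have := hs 1
      rw [show 2 * 1 = 2 by norm_num, r2, hsdef] at this
      simpa [e0, h1a] using this
    have h3a : m 3 ≠ a := by rw [← e0]; exact ne 3 0 (by norm_num)
    have h31 : m 3 ≠ m 1 := ne 3 1 (by norm_num)
    have h32 : m 3 ≠ bF (m 1) := by rw [← e2]; exact ne 3 2 (by norm_num)
    have e4 : m 4 = cF (m 1) (m 3) := by
      have := hs 2
      rw [show 2 * 2 = 4 by norm_num, r4, hsdef] at this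
      simpa [e0, e2, h1a, h3a, h31, h32] using this
    refine ⟨e0, e2, e4, ?_⟩
    intro hGm
    have h5a : m 5 ≠ a := by rw [← e0]; exact ne 5 0 (by norm_num)
    have h51 : m 5 ≠ m 1 := ne 5 1 (by norm_num)
    have h52 : m 5 ≠ bF (m 1) := by rw [← e2]; exact ne 5 2 (by norm_num)
    have h53 : m 5 ≠ m 3 := ne 5 3 (by norm_num)
    have h54 : m 5 ≠ cF (m 1) (m 3) := by rw [← e4]; exact ne 5 4 (by norm_num)
    have hmap : ∀ n, (List.range (n + 6)).map m =
        m 0 :: m 1 :: m 2 :: m 3 :: m 4 :: m 5 :: (List.range n).map (fun k => m (k + 6)) := by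
      intro n
      rw [show n + 6 = n + 4 + 2 by ring, range_add_two_map, show n + 4 = n + 2 + 2 by ring,
        range_add_two_map (fun k => m (k + 2)), range_add_two_map (fun k => m (k + 2 + 2))]
    obtain ⟨k, hk1, hk2⟩ := hS2 (m 1) (m 3) (m 5)
      ⟨h1a, h3a, h31, h32, h5a, h51, h52, h53, h54, hGm⟩ (fun j => m (j + 6))
      (by intro i j hij
          have := hm hij
          omega)
      (by intro j
          simp only [Finset.mem_insert, Finset.mem_singleton, not_or]
          refine ⟨⟨?_, ?_, ?_⟩, ?_, ?_, ?_⟩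
          · rw [← e0]; exact ne _ _ (by omega)
          · rw [← e2]; exact ne _ _ (by omega)
          · rw [← e4]; exact ne _ _ (by omega)
          · exact ne _ _ (by omega)
          · exact ne _ _ (by omega)
          · exact ne _ _ (by omega))
      (by intro k
          have h1 := hs (k + 3)
          rw [show 2 * (k + 3) = 2 * k + 6 by ring, hmap, hsdef] at h1
          simp only [e0, e2, e4, and_self, if_true] at h1
          exact h1)
    have E1 : ∀ j, redF m (j + 6) = {a, bF (m 1), cF (m 1) (m 3)} ∪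
        redF (fun j => m (j + 6)) j := by
      intro j
      rw [show j + 6 = j + 4 + 2 by ring, redF_add_two, show j + 4 = j + 2 + 2 by ring,
        redF_add_two, redF_add_two]
      ext z
      simp only [Finset.mem_union, Finset.mem_insert, Finset.mem_singleton, e0, e2, e4,
        zero_add]
      tauto
    have E2 : ∀ j, blueF m (j + 6) = {m 1, m 3, m 5} ∪ blueF (fun j => m (j + 6)) j := by
      intro j
      rw [show j + 6 = j + 4 + 2 by ring, blueF_add_two, show j + 4 = j + 2 + 2 by ring,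
        blueF_add_two, blueF_add_two]
      ext z
      simp only [Finset.mem_union, Finset.mem_insert, Finset.mem_singleton]
      have h3 : (1 + 2 : ℕ) = 3 := rfl
      have h5 : (1 + 2 + 2 : ℕ) = 5 := rfl
      simp only [h3, h5]
      tauto
    have hex : ∃ k, Four (redF m k) (blueF m k) := ⟨k + 6, by rw [E1, E2]; exact hk1⟩
    refine ⟨Nat.find hex, ?_, ?_⟩
    · rw [← coe_redF, ← coe_blueF, hasLine_four_iff]
      exact Nat.find_spec hex
    · intro j hj
      have hjk : Nat.find hex ≤ k + 6 := Nat.find_min' hex (by rw [E1, E2]; exact hk1)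
      constructor
      · rw [← coe_redF, ← coe_blueF, hasLine_four_iff]
        exact Nat.find_min hex hj
      · rw [← coe_redF, ← coe_blueF, hasLine_four_iff]
        by_cases h6 : j < 6
        · exact not_four_card (card_blueF m h6.le)
        · obtain ⟨i, rfl⟩ : ∃ i, j = i + 6 := ⟨j - 6, by omega⟩
          rw [E1, E2]
          exact hk2 i (by omega)

end Pool.Agent.K4L
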