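import Pool.Agent.K4L.PC2
import Pool.Agent.K4L.PC3
import Pool.Agent.K4L.IIGI
import Pool.Agent.K4L.K3UFin
import Pool.Agent.K4L.PartStrat

/-!
# Partial result C
-/

namespace Pool.Agent.K4L

/-- the condition on Second's first three stones `p, q, r`; First's first three stones are
`a, b, c` -/
def Adm (a b c p q r : Pt) : Prop :=
  (¬ Col a b q ∧ ∀ z, Col a b z → Col p q z → z = a ∨ z = b) ∨
  (¬ Col a b q ∧ ¬ Col b c r ∧
    (Col a c r → ∀ z, Col b c z → z ≠ b → z ≠ c → ¬ Col p r z ∧ ¬ Col q r z)) ∨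
  (Col a b q ∧ ∀ z, Col a c z ∨ Col b c z → z ≠ a → z ≠ b → z ≠ c → ¬ Col p r z ∧ ¬ Col q r z)

theorem Adm.map {a b c p q r : Pt} (f : Pt ≃ Pt) (hf : ∀ x y z, Col (f x) (f y) (f z) ↔ Col x y z)
    (h : Adm (f a) (f b) (f c) (f p) (f q) (f r)) : Adm a b c p q r := by
  unfold Adm at *
  rcases h with ⟨h1, h2⟩ | ⟨h1, h2, h3⟩ | ⟨h1, h2⟩
  · refine Or.inl ⟨fun h => h1 ((hf _ _ _).mpr h), ?_⟩
    intro z hz hz'
    rcases h2 (f z) ((hf _ _ _).mpr hz) ((hf _ _ _).mpr hz') with h | h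
    · exact Or.inl (f.injective h)
    · exact Or.inr (f.injective h)
  · refine Or.inr (Or.inl ⟨fun h => h1 ((hf _ _ _).mpr h), fun h => h2 ((hf _ _ _).mpr h), ?_⟩)
    intro hac z hz hzb hzc
    obtain ⟨k1, k2⟩ := h3 ((hf _ _ _).mpr hac) (f z) ((hf _ _ _).mpr hz)
      (fun h => hzb (f.injective h)) (fun h => hzc (f.injective h))
    exact ⟨fun h => k1 ((hf _ _ _).mpr h), fun h => k2 ((hf _ _ _).mpr h)⟩
  · refine Or.inr (Or.inr ⟨(hf _ _ _).mp h1, ?_⟩)
    intro z hz hza hzb hzc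
    obtain ⟨k1, k2⟩ := h2 (f z) (hz.imp (hf _ _ _).mpr (hf _ _ _).mpr)
      (fun h => hza (f.injective h)) (fun h => hzb (f.injective h))
      (fun h => hzc (f.injective h))
    exact ⟨fun h => k1 ((hf _ _ _).mpr h), fun h => k2 ((hf _ _ _).mpr h)⟩

theorem partC_norm {A : ℤ} (hA : 1 ≤ A) {q : Pt} (hq0 : q ≠ (0, 0)) (hqa : q ≠ (A, 0))
    (hqb : q ≠ (A, 1)) :
    ∃ c : Pt, c ∉ ({(A, 0), (A, 1), (0, 0), q} : Finset Pt) ∧
      (Col (A, 0) (A, 1) q → c = (-q.1, -q.2)) ∧
      (¬ Col (A, 0) (A, 1) q → (∃ z, Col (A, 0) (A, 1) z ∧ Col (0, 0) q z ∧ z ≠ (A, 0) ∧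
        z ≠ (A, 1)) → Col (0, 0) q c ∧ ¬ Col (A, 0) (A, 1) c) ∧
      ∀ r : Pt, r ∉ ({(A, 0), (A, 1), c, (0, 0), q} : Finset Pt) →
        Adm (A, 0) (A, 1) c (0, 0) q r → Win {(A, 0), (A, 1), c} {(0, 0), q, r} := by
  classical
  have hA0 : A ≠ 0 := by omega
  by_cases hq1 : q.1 = A
  · -- CASE I
    obtain ⟨κ, hκ⟩ : ∃ κ, q = (A, κ) := ⟨q.2, Prod.ext hq1 rfl⟩
    subst hκ
    have hκ0 : κ ≠ 0 := by rintro rfl; exact hqa rfl
    have hκ1 : κ ≠ 1 := by rintro rfl; exact hqb rfl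
    have hq : Col (A, 0) (A, 1) (A, κ) := by unfold Col; simp
    refine ⟨(-A, -κ), ?_, fun _ => rfl, fun h => absurd hq h, ?_⟩
    · simp only [Finset.mem_insert, Finset.mem_singleton, not_or, Prod.mk.injEq, not_and]
      refine ⟨fun h => by omega, fun h => by omega, fun h => by omega, fun h => by omega⟩
    · intro r hr hadm
      simp only [Finset.mem_insert, Finset.mem_singleton, not_or] at hr
      obtain ⟨ra, rb, rc, rp, rq⟩ := hr
      have h3 : ∀ z, Col (A, 0) (-A, -κ) z ∨ Col (A, 1) (-A, -κ) z → z ≠ (A, 0) → z ≠ (A, 1) →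
          z ≠ (-A, -κ) → ¬ Col (0, 0) r z ∧ ¬ Col (A, κ) r z := by
        rcases hadm with h | h | h
        · exact absurd hq h.1
        · exact absurd hq h.1
        · exact h.2
      have k1 : ¬ Col (A, 0) (-A, -κ) r := fun h =>
        (h3 r (Or.inl h) ra rb rc).1 (Col.refl_right _ _)
      have k2 : ¬ Col (A, 1) (-A, -κ) r := fun h =>
        (h3 r (Or.inr h) ra rb rc).1 (Col.refl_right _ _)
      have hU : ∀ z : Pt, (Col (A, 0) (-A, -κ) z ∨ Col (A, 1) (-A, -κ) z) →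
          z ∉ ({(A, 0), (A, 1), (-A, -κ)} : Finset Pt) →
          ∀ β ∈ ({(0, 0), (A, κ), r} : Finset Pt), ∀ β' ∈ ({(0, 0), (A, κ), r} : Finset Pt),
          β ≠ β' → Col β β' z → ∃ w ∈ ({(A, 0), (A, 1), (-A, -κ)} : Finset Pt), Col β β' w := by
        intro z hz hzR β hβ β' hβ' hne hc
        simp only [Finset.mem_insert, Finset.mem_singleton, not_or] at hzR
        obtain ⟨z1, z2, z3⟩ := hzR
        obtain ⟨k1, k2⟩ := h3 z hz z1 z2 z3
        simp only [Finset.mem_insert, Finset.mem_singleton] at hβ hβ'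
        rcases hβ with rfl | rfl | rfl <;> rcases hβ' with rfl | rfl | rfl
        · exact absurd rfl hne
        · exact ⟨(-A, -κ), by simp, by unfold Col; simp only; ring⟩
        · exact absurd hc k1
        · exact ⟨(-A, -κ), by simp, by unfold Col; simp only; ring⟩
        · exact absurd rfl hne
        · exact absurd hc k2
        · exact absurd hc.swap12 k1
        · exact absurd hc.swap12 k2
        · exact absurd rfl hne
      refine caseI_unc nodeK3U hA hκ0 hκ1 ra rb rc rp rq k1 k2 ⟨?_, ?_⟩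
      · intro z hz hzR _ β hβ β' hβ' hne hc
        exact hU z (Or.inl hz.swap12) hzR β hβ β' hβ' hne hc
      · intro z hz hzR _ β hβ β' hβ' hne hc
        exact hU z (Or.inr hz.swap12) hzR β hβ β' hβ' hne hc
  · have hqc : ¬ Col (A, 0) (A, 1) q := by
      intro h
      unfold Col at h
      simp only at h
      exact hq1 (by linarith)
    have habz : ∀ z : Pt, Col (A, 0) (A, 1) z → z = (A, z.2) := by
      intro z hz
      unfold Col at hz
      simp only at hz
      exact Prod.ext (by simp only; linarith) rfl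
    by_cases hm : ∀ m : ℤ, Col (0, 0) q (A, m) → m = 0 ∨ m = 1
    · obtain ⟨c, h1, h2⟩ := caseII_off nodeK3Uw A hA q hq0 hq1 hm
      refine ⟨c, h1, fun h => absurd h hqc, ?_, fun r hr _ => h2 r hr⟩
      rintro _ ⟨z, hz1, hz2, hz3, hz4⟩
      exfalso
      rw [habz z hz1] at hz2 hz3 hz4
      rcases hm _ hz2 with h | h
      · exact hz3 (by rw [h])
      · exact hz4 (by rw [h])
    · push Not at hm
      obtain ⟨n, hn, hn0, hn1⟩ := hm
      have hn' : q.1 * n = q.2 * A := by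
        unfold Col at hn
        simp only [sub_zero] at hn
        exact hn
      have hz : q.1 ≠ 0 := by
        intro h
        rw [h, zero_mul] at hn'
        have := (mul_eq_zero.mp hn'.symm).resolve_right hA0
        exact hq0 (Prod.ext h this)
      obtain ⟨c, hcF, hcpq, hc⟩ := ii_cpq nodeK3Uw (a := (A, 0)) (b := (A, 1)) (p := (0, 0)) (q := q)
        hq0.symm
        (by
          intro h
          unfold Col at h
          simp only [sub_zero, mul_zero] at h
          rw [← h] at hn'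
          rcases mul_eq_zero.mp hn' with h' | h'
          · exact hz h'
          · exact hn0 h')
        (by
          intro h
          unfold Col at h
          simp only [sub_zero, mul_one] at h
          rw [← h] at hn'
          have : q.1 * (n - 1) = 0 := by linear_combination hn'
          rcases mul_eq_zero.mp this with h' | h'
          · exact hz h'
          · exact hn1 (by linarith))
        (by
          intro h
          unfold Par at h
          simp only at h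
          exact hz (by linarith))
        (by
          intro h
          unfold Col at h
          simp only at h
          exact hA0 (by linarith))
        hqc ⟨0, -1, by simp⟩ ({(A, 0), (A, 1), (0, 0), q, (A, n)} : Finset Pt)
      have hcF' : c ∉ ({(A, 0), (A, 1), (0, 0), q} : Finset Pt) := by
        intro h
        apply hcF
        simp only [Finset.mem_insert, Finset.mem_singleton] at h ⊢
        tauto
      refine ⟨c, hcF', fun h => absurd h hqc, fun _ _ => ⟨hcpq, ?_⟩, ?_⟩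
      · intro h
        have e1 := habz c h
        rw [e1] at hcpq
        unfold Col at hcpq
        simp only [sub_zero] at hcpq
        have : q.1 * (c.2 - n) = 0 := by linear_combination hcpq - hn'
        rcases mul_eq_zero.mp this with h' | h'
        · exact hz h'
        · apply hcF
          rw [e1, show c.2 = n by linarith]
          simp
      intro r hr hadm
      rcases hadm with h | h | h
      · rcases h.2 (A, n) (by unfold Col; simp) hn with h' | h'
        · exact absurd (congrArg Prod.snd h') hn0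
        · exact absurd (congrArg Prod.snd h') hn1
      · exact hc r hr h.2.1 h.2.2
      · exact absurd h.1 hqc

/-- the normal form of First's second stone -/
theorem exists_second {p : Pt} (hp0 : p ≠ (0, 0)) :
    ∃ (b : Pt) (A : ℤ) (f : Pt ≃ Pt), b ≠ (0, 0) ∧ b ≠ p ∧ 1 ≤ A ∧
      (∀ x y z, Col (f x) (f y) (f z) ↔ Col x y z) ∧
      (∀ x y : ℤ, f (-x, -y) = (2 * p.1 - (f (x, y)).1, 2 * p.2 - (f (x, y)).2)) ∧
      f (0, 0) = p ∧ f (A, 0) = (0, 0) ∧ f (A, 1) = b := by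
  -- `p = A v`, `v` primitive
  obtain ⟨v, ⟨x, y, hxy⟩, A, hA, hv1, hv2⟩ := exists_prim_pos (v := p) hp0
  -- `b = u` with `det (u, v) = 1`: `u = (y, -x)`
  have hdet : y * v.2 - (-x) * v.1 = 1 := by linear_combination hxy
  obtain ⟨b, hb⟩ : ∃ b : Pt, b = (y, -x) := ⟨_, rfl⟩
  have hb0 : b ≠ (0, 0) := by
    rintro rfl
    have h1 := congrArg Prod.fst hb
    have h2 := congrArg Prod.snd hb
    simp only at h1 h2
    have hx : x = 0 := by linarith
    rw [← h1, hx] at hdet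
    simp at hdet
  have hbp : b ≠ p := by
    intro h
    have h1 : y = A * v.1 := by rw [← hv1, ← h, hb]
    have h2 : -x = A * v.2 := by rw [← hv2, ← h, hb]
    rw [h1, h2] at hdet
    have : (0 : ℤ) = 1 := by linear_combination hdet
    exact absurd this (by norm_num)
  -- the collineation `(X, Y) ↦ p - X v + Y b`
  have hdet' : (-v.1) * (-x) - y * (-v.2) = 1 := by linear_combination hxy
  obtain ⟨f, hf⟩ : ∃ f : Pt ≃ Pt, f = (linE (-v.1) y (-v.2) (-x) 1 (by norm_num) hdet').trans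
    (transE p) := ⟨_, rfl⟩
  have hfa : ∀ z : Pt, f z = (-v.1 * z.1 + y * z.2 + p.1, -v.2 * z.1 + -x * z.2 + p.2) := by
    intro z
    rw [hf]; rfl
  have hfc : ∀ z w t : Pt, Col (f z) (f w) (f t) ↔ Col z w t := by
    intro z w t
    rw [hf]
    simp only [Equiv.trans_apply]
    rw [col_transE, col_linE]
  refine ⟨b, A, f, hb0, hbp, hA, hfc, ?_, ?_, ?_, ?_⟩
  · intro x y
    rw [hfa, hfa]
    refine Prod.ext ?_ ?_
    · simp only; ring
    · simp only; ring
  · rw [hfa]; simp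
  · rw [hfa]
    refine Prod.ext ?_ ?_
    · simp only; rw [hv1]; ring
    · simp only; rw [hv2]; ring
  · rw [hfa, hb]
    refine Prod.ext ?_ ?_
    · simp only; rw [hv1]; ring
    · simp only; rw [hv2]; ring

/-- First has a strategy `s` with the following properties; `a = m 0`, `b = m 2`, `c = m 4` are the
first three stones of First, `p = m 1`, `q = m 3`, `r = m 5` those of Second -/
theorem partialC : ∃ s : List (ℤ × ℤ) → ℤ × ℤ, IsStrategy s ∧
    ∀ m : ℕ → ℤ × ℤ, Function.Injective m →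
      (∀ k, m (2 * k) = s ((List.range (2 * k)).map m)) →
      ¬ Col (m 0) (m 2) (m 1) ∧
      (¬ Col (m 0) (m 2) (m 3) →
        (∀ z, Col (m 0) (m 2) z → Col (m 1) (m 3) z → z = m 0 ∨ z = m 2) →
          FirstWinsPlay 4 m) ∧
      (¬ Col (m 0) (m 2) (m 3) →
        (∃ z, Col (m 0) (m 2) z ∧ Col (m 1) (m 3) z ∧ z ≠ m 0 ∧ z ≠ m 2) →
          Col (m 1) (m 3) (m 4) ∧ ¬ Col (m 0) (m 2) (m 4) ∧
          (¬ Col (m 2) (m 4) (m 5) →
            (Col (m 0) (m 4) (m 5) → ∀ z, Col (m 2) (m 4) z → z ≠ m 2 → z ≠ m 4 →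
              ¬ Col (m 1) (m 5) z ∧ ¬ Col (m 3) (m 5) z) → FirstWinsPlay 4 m)) ∧
      (Col (m 0) (m 2) (m 3) →
        m 4 = (2 * (m 1).1 - (m 3).1, 2 * (m 1).2 - (m 3).2) ∧
        ((∀ z, Col (m 0) (m 4) z ∨ Col (m 2) (m 4) z → z ≠ m 0 → z ≠ m 2 → z ≠ m 4 →
          ¬ Col (m 1) (m 5) z ∧ ¬ Col (m 3) (m 5) z) → FirstWinsPlay 4 m)) := by
  classical
  have hb : ∀ p : Pt, ∃ b : Pt, p ≠ (0, 0) → ∃ (A : ℤ) (f : Pt ≃ Pt), b ≠ (0, 0) ∧ b ≠ p ∧
      1 ≤ A ∧ (∀ x y z, Col (f x) (f y) (f z) ↔ Col x y z) ∧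
      (∀ x y : ℤ, f (-x, -y) = (2 * p.1 - (f (x, y)).1, 2 * p.2 - (f (x, y)).2)) ∧
      f (0, 0) = p ∧ f (A, 0) = (0, 0) ∧ f (A, 1) = b := by
    intro p
    by_cases hp : p = (0, 0)
    · exact ⟨(0, 0), fun h => absurd hp h⟩
    · obtain ⟨b, h⟩ := exists_second hp
      exact ⟨b, fun _ => h⟩
  choose bF hbF using hb
  have hcx : ∀ p q : Pt, ∃ c : Pt, (p ≠ (0, 0) → q ≠ (0, 0) → q ≠ p → q ≠ bF p →
      (c ≠ (0, 0) ∧ c ≠ p ∧ c ≠ bF p ∧ c ≠ q) ∧
      (Col (0, 0) (bF p) q → c = (2 * p.1 - q.1, 2 * p.2 - q.2)) ∧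
      (¬ Col (0, 0) (bF p) q → (∃ z, Col (0, 0) (bF p) z ∧ Col p q z ∧ z ≠ (0, 0) ∧ z ≠ bF p) →
        Col p q c ∧ ¬ Col (0, 0) (bF p) c) ∧
      ∀ r, r ≠ (0, 0) → r ≠ p → r ≠ bF p → r ≠ q →
        r ≠ c → Adm (0, 0) (bF p) c p q r → Win {(0, 0), bF p, c} {p, q, r}) := by
    intro p q
    by_cases hh : p ≠ (0, 0) ∧ q ≠ (0, 0) ∧ q ≠ p ∧ q ≠ bF p
    · obtain ⟨h1, h2, h3, h4⟩ := hh
      obtain ⟨A, f, hb0, hbp, hA, hfc, hf2, fp, fa, fb⟩ := hbF p h1
      obtain ⟨q', hq'⟩ : ∃ q', f q' = q := ⟨f.symm q, by simp⟩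
      obtain ⟨c', hc', hc1, hc2, hw⟩ := partC_norm hA (q := q')
        (by rintro rfl; exact h3 (hq'.symm.trans fp))
        (by rintro rfl; exact h2 (hq'.symm.trans fa))
        (by rintro rfl; exact h4 (hq'.symm.trans fb))
      simp only [Finset.mem_insert, Finset.mem_singleton, not_or] at hc'
      have hqc : Col (0, 0) (bF p) q ↔ Col (A, 0) (A, 1) q' := by
        rw [← fa, ← fb, ← hq', hfc]
      refine ⟨f c', fun _ _ _ _ => ⟨⟨?_, ?_, ?_, ?_⟩, ?_, ?_, ?_⟩⟩
      · intro h; exact hc'.1 (f.injective (h.trans fa.symm))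
      · intro h; exact hc'.2.2.1 (f.injective (h.trans fp.symm))
      · intro h; exact hc'.2.1 (f.injective (h.trans fb.symm))
      · intro h; exact hc'.2.2.2 (f.injective (h.trans hq'.symm))
      · intro h
        rw [hc1 (hqc.mp h), hf2]
        have : f (q'.1, q'.2) = q := hq'
        rw [this]
      · rintro h ⟨z, hz1, hz2, hz3, hz4⟩
        obtain ⟨z', hz'⟩ : ∃ z', f z' = z := ⟨f.symm z, by simp⟩
        obtain ⟨k1, k2⟩ := hc2 (fun h' => h (hqc.mpr h')) ⟨z', by
          rw [← hfc, fa, fb, hz']; exact hz1, by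
          rw [← hfc, fp, hq', hz']; exact hz2, by
          rintro rfl; exact hz3 (hz'.symm.trans fa), by
          rintro rfl; exact hz4 (hz'.symm.trans fb)⟩
        rw [← hfc, fp, hq'] at k1
        rw [← hfc, fa, fb] at k2
        exact ⟨k1, k2⟩
      · intro r r1 r2 r3 r4 r5 hadm
        obtain ⟨r', hr'⟩ : ∃ r', f r' = r := ⟨f.symm r, by simp⟩
        have hw' := (hw r' ?_ ?_).map f hfc
        · simp only [Finset.image_insert, Finset.image_singleton] at hw'
          rw [fa, fb, fp, hq', hr'] at hw'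
          exact hw'
        · simp only [Finset.mem_insert, Finset.mem_singleton, not_or]
          refine ⟨?_, ?_, ?_, ?_, ?_⟩
          · rintro rfl; exact r1 (hr'.symm.trans fa)
          · rintro rfl; exact r3 (hr'.symm.trans fb)
          · rintro rfl; exact r5 hr'.symm
          · rintro rfl; exact r2 (hr'.symm.trans fp)
          · rintro rfl; exact r4 (hr'.symm.trans hq')
        · apply Adm.map f hfc
          rw [fa, fb, fp, hq', hr']
          exact hadm
    · exact ⟨(0, 0), fun h1 h2 h3 h4 => absurd ⟨h1, h2, h3, h4⟩ hh⟩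
  choose cF hcF using hcx
  obtain ⟨s, hs1, hs2⟩ := partial_strategy (a := (0, 0)) (bF := bF) (cF := cF)
    (G := fun p q r => Adm (0, 0) (bF p) (cF p q) p q r)
    (fun p hp => by
      obtain ⟨A, f, hb0, hbp, _⟩ := hbF p hp
      exact ⟨hb0, hbp⟩)
    (fun p q h1 h2 h3 h4 => (hcF p q h1 h2 h3 h4).1)
    (fun p q r h1 h2 h3 h4 h5 h6 h7 h8 h9 hg =>
      (hcF p q h1 h2 h3 h4).2.2.2 r h5 h6 h7 h8 h9 hg)
  refine ⟨s, hs1, ?_⟩
  intro m hm hms
  obtain ⟨e0, e2, e4, hw⟩ := hs2 m hm hms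
  have n1 : m 1 ≠ (0, 0) := by rw [← e0]; exact fun h => absurd (hm h) (by norm_num)
  have n3 : m 3 ≠ (0, 0) := by rw [← e0]; exact fun h => absurd (hm h) (by norm_num)
  have n31 : m 3 ≠ m 1 := fun h => absurd (hm h) (by norm_num)
  have n32 : m 3 ≠ bF (m 1) := by rw [← e2]; exact fun h => absurd (hm h) (by norm_num)
  obtain ⟨_, hc1, hc2, _⟩ := hcF (m 1) (m 3) n1 n3 n31 n32
  rw [← e2, ← e4, ← e0] at hc1 hc2
  rw [← e2, ← e4, ← e0] at hw
  refine ⟨?_, ?_, ?_, ?_⟩
  · obtain ⟨A, f, hb0, hbp, hA, hfc, hf2, fp, fa, fb⟩ := hbF (m 1) n1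
    intro h
    rw [e0, e2, ← fa, ← fb] at h
    have h' : Col (f (A, 0)) (f (A, 1)) (f (0, 0)) := by rw [fp]; exact h
    rw [hfc] at h'
    unfold Col at h'
    simp only at h'
    omega
  · intro h1 h2
    exact hw (Or.inl ⟨h1, h2⟩)
  · intro h1 h2
    obtain ⟨k1, k2⟩ := hc2 h1 h2
    exact ⟨k1, k2, fun h3 h4 => hw (Or.inr (Or.inl ⟨h1, h3, h4⟩))⟩
  · intro h1
    exact ⟨hc1 h1, fun h2 => hw (Or.inr (Or.inr ⟨h1, h2⟩))⟩

end Pool.Agent.K4L
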