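import Pool.Agent.K4L.TwoGen

/-!
# Branch (II): general position of the line `p q`
-/

namespace Pool.Agent.K4L

theorem ii_generic {a b p q : Pt} (hpq : p ≠ q) (ha : ¬ Col p q a) (hb : ¬ Col p q b)
    (hab : ¬ Par p q a b) (hp : ¬ Col a b p) (hq : ¬ Col a b q) (F : Finset Pt) :
    ∃ c, c ∉ F ∧ Col p q c ∧ ∀ r, r ≠ p → r ≠ q → ¬ Col a b r → ¬ Col a c r → ¬ Col b c r →
      Win {a, b, c} {p, q, r} := by
  classical
  have hv : q - p ≠ 0 := sub_ne_zero.mpr hpq.symm
  obtain ⟨u, hu, g, hg, hgu⟩ := exists_prim hv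
  have g1 : q.1 - p.1 = g * u.1 := by
    have := congrArg Prod.fst hgu
    simpa using this
  have g2 : q.2 - p.2 = g * u.2 := by
    have := congrArg Prod.snd hgu
    simpa using this
  obtain ⟨x, y, hxy⟩ := hu
  -- `v = (-y, x)`, `det (u, v) = 1`
  have hdet : u.1 * x - (-y) * u.2 = 1 := by linear_combination hxy
  obtain ⟨f, hf⟩ : ∃ f : Pt ≃ Pt, f = (linE u.1 (-y) u.2 x 1 (by norm_num) hdet).trans
    (transE p) := ⟨_, rfl⟩
  have hfa : ∀ z : Pt, f z = (u.1 * z.1 + (-y) * z.2 + p.1, u.2 * z.1 + x * z.2 + p.2) := by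
    intro z
    rw [hf]; rfl
  have hfc : ∀ z w t : Pt, Col (f z) (f w) (f t) ↔ Col z w t := by
    intro z w t
    rw [hf]
    simp only [Equiv.trans_apply]
    rw [col_transE, col_linE]
  -- coordinates
  have hinv : ∀ z : Pt, f (x * (z.1 - p.1) + y * (z.2 - p.2), u.1 * (z.2 - p.2) - u.2 *
      (z.1 - p.1)) = z := by
    intro z
    rw [hfa]
    refine Prod.ext ?_ ?_
    · simp only
      linear_combination (z.1 - p.1) * hxy
    · simp only
      linear_combination (z.2 - p.2) * hxy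
  have hcol : ∀ z : Pt, Col p q z ↔ u.1 * (z.2 - p.2) - u.2 * (z.1 - p.1) = 0 := by
    intro z
    unfold Col
    rw [g1, g2]
    constructor
    · intro h
      apply mul_left_cancel₀ hg
      linear_combination h
    · intro h
      linear_combination g * h
  obtain ⟨a1, ha1⟩ : ∃ a1, a1 = x * (a.1 - p.1) + y * (a.2 - p.2) := ⟨_, rfl⟩
  obtain ⟨a2, ha2⟩ : ∃ a2, a2 = u.1 * (a.2 - p.2) - u.2 * (a.1 - p.1) := ⟨_, rfl⟩
  obtain ⟨b1, hb1⟩ : ∃ b1, b1 = x * (b.1 - p.1) + y * (b.2 - p.2) := ⟨_, rfl⟩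
  obtain ⟨b2, hb2⟩ : ∃ b2, b2 = u.1 * (b.2 - p.2) - u.2 * (b.1 - p.1) := ⟨_, rfl⟩
  have fa : f (a1, a2) = a := by rw [ha1, ha2]; exact hinv a
  have fb : f (b1, b2) = b := by rw [hb1, hb2]; exact hinv b
  have fp : f (0, 0) = p := by rw [hfa]; simp
  have fq : f (g, 0) = q := by
    rw [hfa]
    refine Prod.ext ?_ ?_
    · simp only; linarith
    · simp only; linarith
  have h1 : a2 ≠ 0 := by rw [ha2]; exact fun h => ha ((hcol a).mpr h)
  have h2 : b2 ≠ 0 := by rw [hb2]; exact fun h => hb ((hcol b).mpr h)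
  have h3 : a2 ≠ b2 := by
    intro h
    apply hab
    unfold Par
    rw [g1, g2]
    rw [ha2, hb2] at h
    linear_combination -g * h
  have h4 : b1 * a2 - b2 * a1 ≠ 0 := by
    intro h
    apply hp
    rw [← fa, ← fb, ← fp, hfc]
    unfold Col
    simp only
    linear_combination -h
  have h5 : (b1 - g) * a2 - b2 * (a1 - g) ≠ 0 := by
    intro h
    apply hq
    rw [← fa, ← fb, ← fq, hfc]
    unfold Col
    simp only
    linear_combination -h
  obtain ⟨N0, hN0⟩ := ii_norm hg h1 h2 h3 h4 h5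
  -- a free point of the ray
  have hinj : Function.Injective (fun n : ℕ => f (N0 + n, 0)) := by
    intro m n hmn
    have := f.injective hmn
    have := congrArg Prod.fst this
    simp only at this
    exact_mod_cast (by linarith : (m : ℤ) = n)
  obtain ⟨c, ⟨n, rfl⟩, hc⟩ := (Set.infinite_range_of_injective hinj).exists_notMem_finset F
  refine ⟨_, hc, ?_, ?_⟩
  · show Col p q (f (N0 + n, 0))
    rw [← fp, ← fq, hfc]
    unfold Col; simp
  · intro r hr1 hr2 hab' hac hbc
    simp only at hac hbc ⊢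
    obtain ⟨r', hr'⟩ : ∃ r', f r' = r := ⟨_, hinv r⟩
    have hw := hN0 (N0 + n) (by have : (0 : ℤ) ≤ n := by positivity
                                linarith) r' ?_ ?_ ?_ ?_ ?_
    · have := hw.map f hfc
      simp only [Finset.image_insert, Finset.image_singleton] at this
      rw [fa, fb, fp, fq, hr'] at this
      exact this
    · rintro rfl; exact hr1 (hr'.symm.trans fp)
    · rintro rfl; exact hr2 (hr'.symm.trans fq)
    · rw [← hfc, fa, fb, hr']; exact hab'
    · rw [← hfc, fa, hr']; exact hac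
    · rw [← hfc, fb, hr']; exact hbc

end Pool.Agent.K4L
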