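import Pool.Agent.K4L.Main
import Pool.Agent.K4L.TwoGenB
import Pool.Agent.K4L.K3UGeo

/-!
# Skeleton, case I: nodes

Near world: `p = (0, 0)`, `a = (A, k)`, `b = (A, k + 1)`, `q = (A, k + κ)`, `c = 2 p - q`.
-/

namespace Pool.Agent.K4L

/-- I.M: `r` on the line `a c` -/
def NodeM : Prop := ∀ (A k κ : ℤ) (r : Pt), 1 ≤ A → κ ≠ 0 → κ ≠ 1 →
  r ≠ (A, k) → r ≠ (-A, -k - κ) → Col (A, k) (-A, -k - κ) r →
    Win {(A, k), (A, k + 1), (-A, -k - κ)} {(0, 0), (A, k + κ), r}

/-- I.H: `r` off `a c`, `b c`, at least one of the lines `c a`, `c b` is covered -/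
def NodeH : Prop := ∀ (A k κ : ℤ) (r : Pt), 1 ≤ A → κ ≠ 0 → κ ≠ 1 →
  r ≠ (0, 0) → r ≠ (A, k + κ) →
  ¬ Col (A, k) (-A, -k - κ) r → ¬ Col (A, k + 1) (-A, -k - κ) r →
  ¬ (Uncov {(A, k), (A, k + 1), (-A, -k - κ)} {(0, 0), (A, k + κ), r} (-A, -k - κ) (A, k) ∧
    Uncov {(A, k), (A, k + 1), (-A, -k - κ)} {(0, 0), (A, k + κ), r} (-A, -k - κ) (A, k + 1)) →
    Win {(A, k), (A, k + 1), (-A, -k - κ)} {(0, 0), (A, k + κ), r}

/-- the mirror of I.M: `r` on the line `b c` -/
theorem nodeM_mirror (hM : NodeM) : ∀ (A k κ : ℤ) (r : Pt), 1 ≤ A → κ ≠ 0 → κ ≠ 1 →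
    r ≠ (A, k + 1) → r ≠ (-A, -k - κ) → Col (A, k + 1) (-A, -k - κ) r →
      Win {(A, k), (A, k + 1), (-A, -k - κ)} {(0, 0), (A, k + κ), r} := by
  intro A k κ r hA h0 h1 hr1 hr2 hc
  obtain ⟨f, hf⟩ : ∃ f : Pt ≃ Pt, f = linE 1 0 0 (-1) (-1) (by norm_num) (by norm_num) :=
    ⟨_, rfl⟩
  have hfa : ∀ z : Pt, f z = (z.1, -z.2) := by
    intro z
    rw [hf]
    show ((1 : ℤ) * z.1 + 0 * z.2, (0 : ℤ) * z.1 + -1 * z.2) = _
    refine Prod.ext ?_ ?_
    · simp only; ring
    · simp only; ring
  have hfc : ∀ z w t : Pt, Col (f z) (f w) (f t) ↔ Col z w t := by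
    intro z w t
    rw [hf, col_linE]
  have hw := hM A (-k - 1) (1 - κ) (r.1, -r.2) hA (by intro h; apply h1; linarith)
    (by intro h; apply h0; linarith) ?_ ?_ ?_
  · have := hw.map f hfc
    simp only [Finset.image_insert, Finset.image_singleton, hfa] at this
    have e1 : (-(-k - 1) : ℤ) = k + 1 := by ring
    have e2 : (-(-k - 1 + 1) : ℤ) = k := by ring
    have e3 : (-(k + 1 - (1 - κ)) : ℤ) = -k - κ := by ring
    have e4 : (-(-k - 1 + (1 - κ)) : ℤ) = k + κ := by ring
    rw [e1, e2, e3, e4, neg_zero, neg_neg] at this
    refine this.mono ?_ ?_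
    · intro z hz
      simp only [Finset.mem_insert, Finset.mem_singleton] at hz ⊢
      tauto
    · intro z hz
      simp only [Finset.mem_insert, Finset.mem_singleton] at hz ⊢
      tauto
  · intro h
    apply hr1
    have h2 := congrArg Prod.fst h
    have h3 := congrArg Prod.snd h
    simp only at h2 h3
    exact Prod.ext h2 (by simp only; linarith)
  · intro h
    apply hr2
    have h2 := congrArg Prod.fst h
    have h3 := congrArg Prod.snd h
    simp only at h2 h3
    exact Prod.ext h2 (by simp only; linarith)
  · unfold Col at hc ⊢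
    simp only at hc ⊢
    linear_combination -hc

theorem par_col {c a β r z : Pt} (hca : c ≠ a) (h1 : Par c a β r) (h2 : Par c a β z) :
    Col β r z := by
  unfold Par at h1 h2
  unfold Col
  by_cases h : a.1 - c.1 = 0
  · have h' : a.2 - c.2 ≠ 0 := by
      intro h0
      exact hca (Prod.ext (by linarith) (by linarith))
    apply mul_left_cancel₀ h'
    linear_combination (z.2 - β.2) * (-h1) + (r.2 - β.2) * h2
  · apply mul_left_cancel₀ h
    linear_combination (z.1 - β.1) * (-h1) + (r.1 - β.1) * h2

theorem par_of_col {c a β r z : Pt} (hne : β ≠ r) (h1 : Par c a β r) (h2 : Col β r z) :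
    Par c a β z := by
  unfold Par at h1 ⊢
  unfold Col at h2
  by_cases h : r.1 - β.1 = 0
  · have h' : r.2 - β.2 ≠ 0 := by
      intro h0
      exact hne (Prod.ext (by linarith) (by linarith))
    apply mul_left_cancel₀ h'
    linear_combination (z.2 - β.2) * h1 + (a.2 - c.2) * h2
  · apply mul_left_cancel₀ h
    linear_combination (z.1 - β.1) * h1 + (a.1 - c.1) * h2

/-- a blue pair parallel to `c a` which passes through a free point of the uncovered line `c b` -/
theorem par_hit {R B : Finset Pt} {c a b β r z : Pt} (hca : c ≠ a) (hM : ALine R B c b)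
    (hU : Uncov R B c b) (hβ : β ∈ B) (hr : r ∈ B) (hne : β ≠ r) (hpar : Par c a β r)
    (hz : Col c b z) (hzβ : Par c a β z) (hzR : z ∉ R) : ∃ w ∈ R, Par c a β w := by
  obtain ⟨w, hw, hcw⟩ := hU z hz hzR (fun h => hM.2.2.2 z h hz) β hβ r hr hne
    (par_col hca hpar hzβ)
  exact ⟨w, hw, par_of_col hne hpar hcw⟩

/-- CASE I from the nodes -/
theorem caseI_of_nodes (hU : NodeK3U) (hM : NodeM) (hH : NodeH) : CaseI := by
  classical
  intro A κ hA hκ0 hκ1
  refine ⟨(-A, -κ), ?_, ?_⟩
  · simp only [Finset.mem_insert, Finset.mem_singleton, not_or, Prod.mk.injEq, not_and]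
    refine ⟨fun h => by omega, fun h => by omega, fun h => by omega, fun h => by omega⟩
  · intro r hr
    simp only [Finset.mem_insert, Finset.mem_singleton, not_or] at hr
    obtain ⟨ra, rb, rc, rp, rq⟩ := hr
    have ez : (0 : ℤ) + 1 = 1 := by norm_num
    have ec : (-0 - κ : ℤ) = -κ := by ring
    have eq : (0 + κ : ℤ) = κ := by ring
    by_cases h1 : Col (A, 0) (-A, -κ) r
    · have := hM A 0 κ r hA hκ0 hκ1 ra (by rw [ec]; exact rc) (by rw [ec]; exact h1)
      rw [ez, ec, eq] at this
      exact this
    by_cases h2 : Col (A, 1) (-A, -κ) r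
    · have := nodeM_mirror hM A 0 κ r hA hκ0 hκ1 (by rw [ez]; exact rb) (by rw [ec]; exact rc)
        (by rw [ez, ec]; exact h2)
      rw [ez, ec, eq] at this
      exact this
    obtain ⟨R, hR⟩ : ∃ R : Finset Pt, R = {(A, 0), (A, 1), (-A, -κ)} := ⟨_, rfl⟩
    obtain ⟨B, hB⟩ : ∃ B : Finset Pt, B = {(0, 0), (A, κ), r} := ⟨_, rfl⟩
    by_cases h3 : Uncov R B (-A, -κ) (A, 0) ∧ Uncov R B (-A, -κ) (A, 1)
    · rw [← hR, ← hB]
      -- `K3U`
      have aR : ((A, 0) : Pt) ∈ R := by rw [hR]; simp
      have bR : ((A, 1) : Pt) ∈ R := by rw [hR]; simp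
      have cR : ((-A, -κ) : Pt) ∈ R := by rw [hR]; simp
      have Bm : ∀ z ∈ B, z = (0, 0) ∨ z = (A, κ) ∨ z = r := by
        intro z hz
        rw [hB] at hz
        simpa using hz
      have Rm : ∀ z ∈ R, z = (A, 0) ∨ z = (A, 1) ∨ z = (-A, -κ) := by
        intro z hz
        rw [hR] at hz
        simpa using hz
      have hpq : ∀ z : Pt, Col (0, 0) (A, κ) z → Col (0, 0) (A, κ) (-A, -κ) := by
        intro z _
        unfold Col; simp only; ring
      have hNT : NoThreat R B := by
        intro u hu v hv w hw huv huw hvw hc
        -- all three are `p, q, r`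
        have hcol : Col (0, 0) (A, κ) r := by
          have hr0 : r ≠ (0, 0) := rp
          rcases Bm u hu with rfl | rfl | rfl <;> rcases Bm v hv with rfl | rfl | rfl <;>
            rcases Bm w hw with rfl | rfl | rfl <;>
            first
            | exact absurd rfl huv
            | exact absurd rfl huw
            | exact absurd rfl hvw
            | exact hc
            | exact hc.swap12
            | exact hc.swap23
            | exact hc.rot
            | exact hc.rot.rot
            | exact hc.rot.swap12
        refine ⟨(-A, -κ), cR, ?_⟩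
        have hl : ∀ z ∈ B, Col (0, 0) (A, κ) z := by
          intro z hz
          rcases Bm z hz with rfl | rfl | rfl
          · exact Col.refl_left _ _
          · exact Col.refl_right _ _
          · exact hcol
        have hne : ((0, 0) : Pt) ≠ (A, κ) := by
          intro h
          have := congrArg Prod.fst h
          simp only at this
          omega
        exact Col.three hne (hl u hu) (hl v hv) (by unfold Col; simp only; ring)
      have hBR : ∀ z ∈ B, z ∉ R := by
        intro z hz hz'
        rcases Bm z hz with rfl | rfl | rfl <;> rcases Rm _ hz' with h | h | h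
        · simp only [Prod.mk.injEq] at h; omega
        · simp only [Prod.mk.injEq] at h; omega
        · simp only [Prod.mk.injEq] at h; omega
        · simp only [Prod.mk.injEq] at h; omega
        · simp only [Prod.mk.injEq] at h; omega
        · simp only [Prod.mk.injEq] at h; omega
        · exact ra h
        · exact rb h
        · exact rc h
      have hLa : ALine R B (-A, -κ) (A, 0) := by
        refine ⟨cR, aR, ?_, ?_⟩
        · intro h
          simp only [Prod.mk.injEq] at h
          omega
        · intro z hz hc
          rcases Bm z hz with rfl | rfl | rfl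
          · unfold Col at hc
            simp only at hc
            have : κ * A = 0 := by linear_combination hc
            rcases mul_eq_zero.mp this with h | h
            · exact hκ0 h
            · omega
          · unfold Col at hc
            simp only at hc
            have : κ * A = 0 := by linarith
            rcases mul_eq_zero.mp this with h | h
            · exact hκ0 h
            · omega
          · exact h1 hc.swap12
      have hLb : ALine R B (-A, -κ) (A, 1) := by
        refine ⟨cR, bR, ?_, ?_⟩
        · intro h
          simp only [Prod.mk.injEq] at h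
          omega
        · intro z hz hc
          rcases Bm z hz with rfl | rfl | rfl
          · unfold Col at hc
            simp only at hc
            have : (κ - 1) * A = 0 := by linarith
            rcases mul_eq_zero.mp this with h | h
            · exact hκ1 (by linarith)
            · omega
          · unfold Col at hc
            simp only at hc
            have : (κ - 1) * A = 0 := by linarith
            rcases mul_eq_zero.mp this with h | h
            · exact hκ1 (by linarith)
            · omega
          · exact h2 hc.swap12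
      have hcab : ¬ Col (-A, -κ) (A, 0) (A, 1) := by
        intro h
        unfold Col at h
        simp only at h
        have : A = 0 := by linarith
        omega
      have hA0 : A ≠ 0 := by omega
      have pB : ((0, 0) : Pt) ∈ B := by rw [hB]; simp
      have qB : ((A, κ) : Pt) ∈ B := by rw [hB]; simp
      have rB : r ∈ B := by rw [hB]; simp
      -- parallels
      have hA1 : A ≠ 0 := hA0
      have hAκ : A * κ ≠ 0 := mul_ne_zero hA0 hκ0
      have hAκ1 : A * (κ - 1) ≠ 0 := mul_ne_zero hA0 (sub_ne_zero.mpr hκ1)
      have qr : ((A, κ) : Pt) ≠ r := fun h => rq h.symm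
      have pr : ((0, 0) : Pt) ≠ r := fun h => rp h.symm
      have pa_q : ¬ Par (-A, -κ) (A, 0) (A, κ) r := by
        intro h
        obtain ⟨w, hw, hcw⟩ := par_hit hLa.ne hLb h3.2 qB rB qr h
          (z := (A * (2 * κ - 1), κ * κ)) (by unfold Col; simp only; ring)
          (by unfold Par; simp only; ring) (by
            intro h'
            rcases Rm _ h' with h | h | h <;> simp only [Prod.mk.injEq] at h
            · exact hAκ1 (by linarith [h.1])
            · exact hAκ1 (by linarith [h.1])
            · exact hAκ (by linarith [h.1]))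
        unfold Par at hcw
        rcases Rm _ hw with rfl | rfl | rfl <;> simp only at hcw
        · exact hAκ (by linarith)
        · exact hAκ1 (by linarith)
        · exact hAκ (by linarith)
      have pb_q : ¬ Par (-A, -κ) (A, 1) (A, κ) r := by
        intro h
        obtain ⟨w, hw, hcw⟩ := par_hit hLb.ne hLa h3.1 qB rB qr h
          (z := (A * (1 - 2 * κ), - (κ * κ))) (by unfold Col; simp only; ring)
          (by unfold Par; simp only; ring) (by
            intro h'
            rcases Rm _ h' with h | h | h <;> simp only [Prod.mk.injEq] at h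
            · exact hAκ (by linarith [h.1])
            · exact hAκ (by linarith [h.1])
            · exact hAκ1 (by linarith [h.1]))
        unfold Par at hcw
        rcases Rm _ hw with rfl | rfl | rfl <;> simp only at hcw
        · exact hAκ (by linarith)
        · exact hAκ1 (by linarith)
        · exact hAκ1 (by linarith)
      have pa_p : Par (-A, -κ) (A, 0) (0, 0) r → κ = 2 := by
        intro h
        by_contra hκ2
        obtain ⟨n, hn⟩ : ∃ n, κ * (κ - 1) = 2 * n := by
          obtain ⟨n, hn⟩ := Int.even_mul_pred_self κ
          exact ⟨n, by rw [hn]; ring⟩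
        have hAκ2 : A * (κ - 2) ≠ 0 := mul_ne_zero hA0 (sub_ne_zero.mpr hκ2)
        obtain ⟨w, hw, hcw⟩ := par_hit hLa.ne hLb h3.2 pB rB pr h
          (z := (A * (κ - 1), n)) (by unfold Col; simp only; linear_combination (-A) * hn)
          (by unfold Par; simp only; linear_combination (-A) * hn) (by
            intro h'
            rcases Rm _ h' with h | h | h <;> simp only [Prod.mk.injEq] at h
            · exact hAκ2 (by linarith [h.1])
            · exact hAκ2 (by linarith [h.1])
            · exact hAκ (by linarith [h.1]))
        unfold Par at hcw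
        rcases Rm _ hw with rfl | rfl | rfl <;> simp only at hcw
        · exact hAκ (by linarith)
        · exact hAκ2 (by linarith)
        · exact hAκ (by linarith)
      have pb_p : Par (-A, -κ) (A, 1) (0, 0) r → κ = -1 := by
        intro h
        by_contra hκ2
        obtain ⟨n, hn⟩ : ∃ n, κ * (κ + 1) = 2 * n := by
          obtain ⟨n, hn⟩ := Int.even_mul_succ_self κ
          exact ⟨n, by rw [hn]; ring⟩
        have hAκ2 : A * (κ + 1) ≠ 0 := mul_ne_zero hA0 (fun h => hκ2 (by linarith))
        obtain ⟨w, hw, hcw⟩ := par_hit hLb.ne hLa h3.1 pB rB pr h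
          (z := (- (A * κ), -n)) (by unfold Col; simp only; linear_combination A * hn)
          (by unfold Par; simp only; linear_combination A * hn) (by
            intro h'
            rcases Rm _ h' with h | h | h <;> simp only [Prod.mk.injEq] at h
            · exact hAκ2 (by linarith [h.1])
            · exact hAκ2 (by linarith [h.1])
            · exact hAκ1 (by linarith [h.1]))
        unfold Par at hcw
        rcases Rm _ hw with rfl | rfl | rfl <;> simp only at hcw
        · exact hAκ2 (by linarith)
        · exact hAκ1 (by linarith)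
        · exact hAκ1 (by linarith)
      have pa_pq : ¬ Par (-A, -κ) (A, 0) (0, 0) (A, κ) := by
        unfold Par; simp only
        intro h
        exact hAκ (by linarith)
      have pb_pq : ¬ Par (-A, -κ) (A, 1) (0, 0) (A, κ) := by
        unfold Par; simp only
        intro h
        exact hAκ1 (by linarith)
      have parA : ∀ β ∈ B, ∀ β' ∈ B, β ≠ β' → Par (-A, -κ) (A, 0) β β' →
          κ = 2 ∧ Col β β' (A, 1) := by
        have key : Par (-A, -κ) (A, 0) (0, 0) r → κ = 2 ∧ Col (0, 0) r (A, 1) := by
          intro h
          have hκ2 := pa_p h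
          refine ⟨hκ2, par_col hLa.ne h ?_⟩
          rw [hκ2]; unfold Par; simp only; ring
        intro β hβ β' hβ' hne h
        rcases Bm β hβ with rfl | rfl | rfl <;> rcases Bm β' hβ' with rfl | rfl | rfl
        · exact absurd rfl hne
        · exact absurd h pa_pq
        · exact key h
        · exact absurd h.symm_right pa_pq
        · exact absurd rfl hne
        · exact absurd h pa_q
        · obtain ⟨g1, g2⟩ := key h.symm_right
          exact ⟨g1, g2.swap12⟩
        · exact absurd h.symm_right pa_q
        · exact absurd rfl hne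
      have parB : ∀ β ∈ B, ∀ β' ∈ B, β ≠ β' → Par (-A, -κ) (A, 1) β β' →
          κ = -1 ∧ Col β β' (A, 0) := by
        have key : Par (-A, -κ) (A, 1) (0, 0) r → κ = -1 ∧ Col (0, 0) r (A, 0) := by
          intro h
          have hκ2 := pb_p h
          refine ⟨hκ2, par_col hLb.ne h ?_⟩
          rw [hκ2]; unfold Par; simp only; ring
        intro β hβ β' hβ' hne h
        rcases Bm β hβ with rfl | rfl | rfl <;> rcases Bm β' hβ' with rfl | rfl | rfl
        · exact absurd rfl hne
        · exact absurd h pb_pq
        · exact key h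
        · exact absurd h.symm_right pb_pq
        · exact absurd rfl hne
        · exact absurd h pb_q
        · obtain ⟨g1, g2⟩ := key h.symm_right
          exact ⟨g1, g2.swap12⟩
        · exact absurd h.symm_right pb_q
        · exact absurd rfl hne
      by_cases hκm : κ = -1
      · refine hU R B (A, 1) (A, 0) (-A, -κ) hNT hBR hLb h3.2 hLa h3.1
          (fun h => hcab h.swap23) ?_ (fun β hβ β' hβ' hne h => (parB β hβ β' hβ' hne h).2) ?_
        · simp only
          exact ⟨0, 1, by ring⟩
        · intro β hβ β' hβ' hne h
          have := (parA β hβ β' hβ' hne h).1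
          omega
      · refine hU R B (A, 0) (A, 1) (-A, -κ) hNT hBR hLa h3.1 hLb h3.2 hcab ?_
          (fun β hβ β' hβ' hne h => (parA β hβ β' hβ' hne h).2) ?_
        · simp only
          exact ⟨0, -1, by ring⟩
        · intro β hβ β' hβ' hne h
          exact hκm (parB β hβ β' hβ' hne h).1
    · have := hH A 0 κ r hA hκ0 hκ1 rp (by rw [eq]; exact rq) (by rw [ec]; exact h1)
        (by rw [ez, ec]; exact h2) (by rw [ez, ec, eq, ← hR, ← hB]; exact h3)
      rw [ez, ec, eq] at this
      exact this

end Pool.Agent.K4L
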