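import Pool.Agent.K4L.StarArith

/-!
# The answer `t` is much nearer than `e`: a second far point `g` on the line `b e`
-/

namespace Pool.Agent.K4L

/-- the leaf: every pair of blue stones is harmless for `g x'`, and every pair except `β0 t2` is
harmless for `g x` -/
theorem star_leaf {R B : Finset Pt} {g x x' b β0 t2 : Pt}
    (hN : NoThreat R B) (hB : ∀ β ∈ B, β ∉ R)
    (hgx' : ALine R B g x') (hgx : ALine R B g x) (hxb : ALine R B x b)
    (h1 : ¬ Col g x' x) (h2 : ¬ Col g x' b) (h3 : ¬ Col g x b) (h4 : ¬ Col x' x b)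
    (hne : β0 ≠ t2) (hβ0 : β0 ∈ B) (ht2 : t2 ∈ B)
    (hg' : ∀ β ∈ B, ∀ τ ∈ B, β ≠ τ → Good R g x' β τ)
    (hg : ∀ β ∈ B, ∀ τ ∈ B, β ≠ τ → Good R g x β τ ∨ (β = β0 ∧ τ = t2) ∨ (β = t2 ∧ τ = β0))
    (hNm : ¬ Good R g x β0 t2 → ¬ Par x b β0 t2) (hLN : ¬ Par g x' x b)
    (hparm : ¬ Good R g x β0 t2 → ∀ β ∈ B, ∀ β' ∈ B, β ≠ β' → Par β0 t2 β β' →
      (∃ w ∈ R, Col β β' w) ∨ Col β0 t2 β) :
    Win R B := by
  have hbx : b ≠ x := hxb.ne.symm
  by_cases hgood : Good R g x β0 t2
  · -- both lines are uncovered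
    refine two_good (x0 := x') (x1 := g) (x2 := x) (x3 := b) (w := b) hN hgx'.symm hgx hxb
      (fun h => h1 h.swap12) h3 hg' ?_ hxb.2.1 (fun h => hB b h hxb.2.1)
      (fun h => h2 h.swap12) hbx
    intro β hβ τ hτ hne'
    rcases hg β hβ τ hτ hne' with h | ⟨h, h'⟩ | ⟨h, h'⟩
    · exact h
    · rw [h, h']; exact hgood
    · rw [h, h']; exact hgood.symm
  · have hdead : ¬ ∃ r ∈ R, Col β0 t2 r := fun h => hgood (Or.inl h)
    by_cases hz : ∃ z, Col g x z ∧ Col β0 t2 z
    · obtain ⟨Y, hY1, hY2⟩ := hz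
      have hYR : Y ∉ R := fun h => hdead ⟨Y, h, hY2⟩
      have hMcol : ∀ z, Col g x z → z ∉ B := fun z hz hzB => hgx.2.2.2 z hzB hz
      refine lemB (o := g) (a := x') (b := x) (v0 := x) (r := b) (p := β0) (q := t2) (Y := Y)
        (x0 := g) (x1 := x') (x2 := x) (x3 := b) hN hB hgx' (uncov_of_good hg') hgx hxb
        (Col.refl_right _ _) hne hY1 hY2 hYR (fun z hz hc => hdead ⟨z, hz, hc⟩) ?_ h1 hLN h3 ?_
        (hNm hgood) hgx'.1 hgx'.2.1 hgx.2.1 hxb.2.1 h1 h2 h3 h4 ?_ ?_ ?_
      · intro z hz hzR β hβ β' hβ' hne' hc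
        rcases hg β hβ β' hβ' hne' with h | ⟨h, h'⟩ | ⟨h, h'⟩
        · rcases h with h | ⟨_, h⟩
          · exact Or.inl h
          · exact absurd hc (h z hz)
        · rw [h, h']; exact Or.inr ⟨Col.refl_left _ _, Col.refl_right _ _⟩
        · rw [h, h']; exact Or.inr ⟨Col.refl_right _ _, Col.refl_left _ _⟩
      · intro hP
        exact hdead (par_of_good hg' β0 hβ0 t2 ht2 hne hP)
      · intro β hβ β' hβ' hne' hP
        exact Or.inl (par_of_good hg' β hβ β' hβ' hne' hP)
      · intro β hβ β' hβ' hne' hP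
        rcases hg β hβ β' hβ' hne' with h | ⟨h, h'⟩ | ⟨h, h'⟩
        · rcases h with h | ⟨h, _⟩
          · exact Or.inl h
          · exfalso
            apply h
            unfold Par at hP
            unfold dt
            simp only [Prod.fst_sub, Prod.snd_sub]
            linarith
        · exfalso
          rw [h, h'] at hP
          apply hgx.2.2.2 β0 hβ0
          have hY1' := hY1
          have hY2' := hY2
          unfold Par at hP
          unfold Col at hY1' hY2' ⊢
          rcases sub_ne_of_ne hne with h0 | h0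
          · apply mul_left_cancel₀ h0
            linear_combination (t2.1 - β0.1) * hY1' - (Y.1 - β0.1) * hP -
              (x.1 - g.1) * hY2'
          · apply mul_left_cancel₀ h0
            linear_combination (t2.2 - β0.2) * hY1' - (Y.2 - β0.2) * hP -
              (x.2 - g.2) * hY2'
        · exfalso
          rw [h, h'] at hP
          apply hgx.2.2.2 β0 hβ0
          have hY1' := hY1
          have hY2' := hY2
          unfold Par at hP
          unfold Col at hY1' hY2' ⊢
          rcases sub_ne_of_ne hne with h0 | h0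
          · apply mul_left_cancel₀ h0
            linear_combination (t2.1 - β0.1) * hY1' + (Y.1 - β0.1) * hP -
              (x.1 - g.1) * hY2'
          · apply mul_left_cancel₀ h0
            linear_combination (t2.2 - β0.2) * hY1' + (Y.2 - β0.2) * hP -
              (x.2 - g.2) * hY2'
      · intro β hβ β' hβ' hne' hP
        rcases hparm hgood β hβ β' hβ' hne' hP with h | h
        · exact Or.inl h
        · exact Or.inr (Or.inl h)
    · -- not hit
      have hU : Uncov R B g x := by
        intro z hzx hzR hzB β hβ β' hβ' hne' hc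
        rcases hg β hβ β' hβ' hne' with h | ⟨h, h'⟩ | ⟨h, h'⟩
        · rcases h with h | ⟨_, h⟩
          · exact h
          · exact absurd hc (h z hzx)
        · rw [h, h'] at hc; exact absurd ⟨z, hzx, hc⟩ hz
        · rw [h, h'] at hc; exact absurd ⟨z, hzx, hc.swap12⟩ hz
      refine two_connected (x0 := x') (x1 := g) (x2 := x) (x3 := b) (w := b) hN hgx'.symm
        (uncov_of_good hg').symm hgx hxb (fun h => h1 h.swap12) h3 (Or.inl hU) hxb.2.1
        (fun h => hB b h hxb.2.1) (fun h => h2 h.swap12) hbx ?_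
      intro c _ β hβ β' hβ' hne' hP
      exact Or.inl (par_of_good hg' β hβ β' hβ' hne' hP.swap_left)

/-- an involved pair `(x, β)` -/
theorem star_inv {R2 : Finset Pt} {b w0 x β : Pt} {G τ X h c Dm M : ℤ}
    (hx : x ∈ R2) (hg : adv b w0 G ∈ R2)
    (hX : X = dt w0 (x - b)) (hh : h = dt w0 (β - b)) (hc : c = dt (β - b) (x - b))
    (hX0 : X ≠ 0) (hh0 : h ≠ 0) (hcG : |c| < |G|) (hDm : 0 ≤ Dm)
    (hGX : G = X * M) (hM : ∀ d : ℤ, d ≠ 0 → |d| ≤ Dm → d ∣ M)
    (hbad : ¬ Good R2 (adv b w0 G) x β (adv b w0 τ)) :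
    |τ * X - G * h - c| * Dm ≤ |h| * (|c| + (|h| + |X|) * |G|) ∨
    ∃ D i q, D = X + i - h ∧ D + h ≠ 0 ∧ D ≠ 0 ∧ i ≠ 0 ∧ X ∣ i * (x - b).1 ∧
      X ∣ i * (x - b).2 ∧ τ * X * D = (D + h) * c + i * G * h ∧ (D + h) * c = X * D * q := by
  have hdead : ¬ ∃ r ∈ R2, Col β (adv b w0 τ) r := fun h => hbad (Or.inl h)
  have e1 : dt (adv b w0 τ - β) (adv b w0 G - x) = -(τ * X - G * h - c) := by
    rw [hX, hh, hc]
    unfold dt adv; simp only [Prod.fst_sub, Prod.snd_sub]; ring
  have e2 : dt (adv b w0 τ - β) (x - β) = τ * (X - h) - c := by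
    rw [hX, hh, hc]
    unfold dt adv; simp only [Prod.fst_sub, Prod.snd_sub]; ring
  have e3 : dt w0 (adv b w0 G - x) = -X := by
    rw [hX]
    unfold dt adv; simp only [Prod.fst_sub, Prod.snd_sub]; ring
  by_cases hp : dt (adv b w0 τ - β) (adv b w0 G - x) = 0
  · left
    rw [e1] at hp
    have : τ * X - G * h - c = 0 := by linarith
    rw [this, abs_zero, zero_mul]
    positivity
  · have hz : ∃ z, Col (adv b w0 G) x z ∧ Col β (adv b w0 τ) z := by
      by_contra hno
      apply hbad
      exact Or.inr ⟨hp, fun z hz hz' => hno ⟨z, hz, hz'⟩⟩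
    obtain ⟨z, hz1, hz2⟩ := hz
    have hs := star_id w0 hz1 hz2
    rw [e1, e2, e3] at hs
    obtain ⟨i, hi⟩ : ∃ i, i = dt w0 (z - x) := ⟨_, rfl⟩
    rw [← hi] at hs
    obtain ⟨D, hD⟩ : ∃ D, D = X + i - h := ⟨_, rfl⟩
    have hs' : τ * X * D = (D + h) * c + i * G * h := by
      rw [hD]; linear_combination -hs
    -- `X (z - x) = -i (g - x)`
    have hcol : dt (adv b w0 G - x) (z - x) = 0 := by
      have := col_dt.mp hz1.swap12
      exact this
    have k1 : X * (z - x).1 = -i * (adv b w0 G - x).1 := by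
      rw [hi]
      have e4 : X = -dt w0 (adv b w0 G - x) := by rw [e3]; ring
      rw [e4]
      unfold dt at hcol ⊢
      linear_combination w0.1 * hcol
    have k2 : X * (z - x).2 = -i * (adv b w0 G - x).2 := by
      rw [hi]
      have e4 : X = -dt w0 (adv b w0 G - x) := by rw [e3]; ring
      rw [e4]
      unfold dt at hcol ⊢
      linear_combination w0.2 * hcol
    have hi0 : i ≠ 0 := by
      rintro rfl
      apply hdead
      refine ⟨x, hx, ?_⟩
      have a1 : (z - x).1 = 0 := (mul_eq_zero.mp (by rw [k1]; ring)).resolve_left hX0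
      have a2 : (z - x).2 = 0 := (mul_eq_zero.mp (by rw [k2]; ring)).resolve_left hX0
      have hzx : z = x := by
        rw [Prod.fst_sub] at a1
        rw [Prod.snd_sub] at a2
        exact Prod.ext (by linarith) (by linarith)
      rw [← hzx]; exact hz2
    have hDh : D + h ≠ 0 := by
      intro h0
      have hiX : i = -X := by rw [hD] at h0; linarith
      apply hdead
      refine ⟨adv b w0 G, hg, ?_⟩
      rw [hiX, neg_neg] at k1 k2
      have a1 := mul_left_cancel₀ hX0 k1
      have a2 := mul_left_cancel₀ hX0 k2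
      have hzg : z = adv b w0 G := by
        rw [Prod.fst_sub, Prod.fst_sub] at a1
        rw [Prod.snd_sub, Prod.snd_sub] at a2
        exact Prod.ext (by linarith) (by linarith)
      rw [← hzg]; exact hz2
    have hD0 : D ≠ 0 := by
      intro h0
      rw [h0, mul_zero, zero_add] at hs'
      have a1 : c = -(i * G) := by
        apply mul_left_cancel₀ hh0
        linear_combination -hs'
      have a2 : |c| = |i| * |G| := by rw [a1, abs_neg, abs_mul]
      have a3 := Int.one_le_abs hi0
      have a4 : |G| ≤ |i| * |G| := le_mul_of_one_le_left (abs_nonneg _) a3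
      linarith
    by_cases hlarge : Dm ≤ |D|
    · exact Or.inl (sg_large hD hs' hlarge)
    · right
      obtain ⟨q, hq⟩ := sg_split hs' hGX hM hD0 (by linarith)
      refine ⟨D, i, q, hD, hDh, hD0, hi0, ?_, ?_, hs', hq⟩
      · have e5 : (adv b w0 G - x).1 = G * w0.1 - (x - b).1 := by
          unfold adv; simp only [Prod.fst_sub]; ring
        rw [e5, hGX] at k1
        exact ⟨(z - x).1 + i * M * w0.1, by linear_combination -k1⟩
      · have e5 : (adv b w0 G - x).2 = G * w0.2 - (x - b).2 := by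
          unfold adv; simp only [Prod.snd_sub]; ring
        rw [e5, hGX] at k2
        exact ⟨(z - x).2 + i * M * w0.2, by linear_combination -k2⟩

end Pool.Agent.K4L
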