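import Pool.Agent.K4L.LemBM

/-!
# The second far point: arithmetic

`X` = height of a red `x`, `h` = height of a blue `β` over the line `b e`, `c = det (β - b) (x - b)`,
`g = b + G w0`, `t2 = b + τ w0`.  A lattice point `z` of `g x` on `t2 β` has height `X + i`,
`D = X + i - h`, and `τ X D = (D + h) c + i G h`.
-/

namespace Pool.Agent.K4L

/-- a small `D` divides -/
theorem sg_split {X h c G τ i D M Dm : ℤ}
    (hs : τ * X * D = (D + h) * c + i * G * h) (hG : G = X * M)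
    (hM : ∀ d : ℤ, d ≠ 0 → |d| ≤ Dm → d ∣ M) (hD0 : D ≠ 0) (hDm : |D| ≤ Dm) :
    ∃ q, (D + h) * c = X * D * q := by
  obtain ⟨M', hM'⟩ := hM D hD0 hDm
  refine ⟨τ - i * M' * h, ?_⟩
  rw [hG, hM'] at hs
  linear_combination -hs

/-- a large `D` -/
theorem sg_large {X h c G τ i D Dm : ℤ} (hD : D = X + i - h)
    (hs : τ * X * D = (D + h) * c + i * G * h) (hDm : Dm ≤ |D|) :
    |τ * X - G * h - c| * Dm ≤ |h| * (|c| + (|h| + |X|) * |G|) := by
  have e : D * (τ * X - G * h - c) = h * (c + (h - X) * G) := by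
    have hi : i = D + h - X := by linarith
    rw [hi] at hs
    linear_combination hs
  have e1 : |D| * |τ * X - G * h - c| = |h| * |c + (h - X) * G| := by
    rw [← abs_mul, ← abs_mul, e]
  have e2 : |c + (h - X) * G| ≤ |c| + (|h| + |X|) * |G| := by
    have h1 := abs_add_le c ((h - X) * G)
    rw [abs_mul (h - X) G] at h1
    have h2 : |h - X| ≤ |h| + |X| := abs_sub h X
    have h3 : |h - X| * |G| ≤ (|h| + |X|) * |G| := mul_le_mul_of_nonneg_right h2 (abs_nonneg _)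
    linarith
  have e3 : |τ * X - G * h - c| * Dm ≤ |τ * X - G * h - c| * |D| :=
    mul_le_mul_of_nonneg_left hDm (abs_nonneg _)
  have e4 : |h| * |c + (h - X) * G| ≤ |h| * (|c| + (|h| + |X|) * |G|) :=
    mul_le_mul_of_nonneg_left e2 (abs_nonneg _)
  linarith

/-- the only small `D` for a near blue stone -/
theorem sg_near {n Ex h0 k c κ X h D q : ℤ} (hn : 1 ≤ n) (hκ1 : 1 ≤ κ) (hκn : κ ≤ n)
    (hX : κ * X = Ex * h0) (hh : κ * h = Ex * k - c)
    (hh0 : h0 ≠ 0) (hk : |k| ≤ 2 * n ^ 2) (hc0 : c ≠ 0) (hc : |c| ≤ 2 * n ^ 2)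
    (hE : 100 * n ^ 10 ≤ |Ex|) (hD0 : D ≠ 0) (hDh : D + h ≠ 0)
    (hq : (D + h) * c = X * D * q) : κ * D = c ∧ k ≠ 0 := by
  have hn2 : 1 ≤ n ^ 2 := one_le_pow₀ hn
  have hn3 : 1 ≤ n ^ 3 := one_le_pow₀ hn
  have hκ0 : 0 < κ := by linarith
  have hq0 : q ≠ 0 := by
    rintro rfl
    rw [mul_zero] at hq
    rcases mul_eq_zero.mp hq with h | h
    · exact hDh h
    · exact hc0 h
  obtain ⟨D', hD'⟩ : ∃ D', D' = κ * D := ⟨_, rfl⟩
  have hD'0 : D' ≠ 0 := by rw [hD']; exact mul_ne_zero (by linarith) hD0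
  have e1 : κ * (D' + Ex * k - c) * c = Ex * h0 * D' * q := by
    have : κ * (D' + Ex * k - c) * c = κ * κ * ((D + h) * c) := by
      rw [hD']
      linear_combination (-(κ * c)) * hh
    rw [this, hq, hD']
    linear_combination (κ * D * q) * hX
  have hκc : κ * |c| ≤ 2 * n ^ 3 := by
    have : κ * |c| ≤ n * (2 * n ^ 2) := mul_le_mul hκn hc (abs_nonneg _) (by linarith)
    have e : n * (2 * n ^ 2) = 2 * n ^ 3 := by ring
    linarith
  have hκc0 : 0 ≤ κ * |c| := by positivity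
  have hD1 := Int.one_le_abs hD'0
  -- the bound for `D'`
  have e2 : |Ex| * |D'| ≤ κ * |c| * (|D'| + |Ex| * |k| + |c|) := by
    have a1 : |Ex * h0 * D' * q| = |Ex| * |D'| * (|h0| * |q|) := by
      rw [abs_mul, abs_mul, abs_mul]; ring
    have a2 : 1 ≤ |h0| * |q| := by
      have b1 := Int.one_le_abs hh0
      have b2 := Int.one_le_abs hq0
      nlinarith
    have a3 : |Ex| * |D'| ≤ |Ex * h0 * D' * q| := by
      rw [a1]; exact le_mul_of_one_le_right (by positivity) a2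
    have a4 : |κ * (D' + Ex * k - c) * c| = κ * |c| * |D' + Ex * k - c| := by
      rw [abs_mul, abs_mul, abs_of_pos hκ0]; ring
    have a5 : |D' + Ex * k - c| ≤ |D'| + |Ex| * |k| + |c| := by
      have b1 := abs_sub (D' + Ex * k) c
      have b2 := abs_add_le D' (Ex * k)
      rw [abs_mul] at b2
      linarith
    rw [← e1, a4] at a3
    exact a3.trans (mul_le_mul_of_nonneg_left a5 hκc0)
  have hEn := abs_nonneg Ex
  have p3 : n ^ 3 ≤ n ^ 10 := pow_le_pow_right₀ hn (by norm_num)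
  have p5 : n ^ 5 ≤ n ^ 10 := pow_le_pow_right₀ hn (by norm_num)
  have p8 : n ^ 8 ≤ n ^ 10 := pow_le_pow_right₀ hn (by norm_num)
  have hD5 : |D'| ≤ 5 * n ^ 5 := by
    have a1 : κ * |c| * (|D'| + |Ex| * |k| + |c|) ≤
        2 * n ^ 3 * (|D'| + |Ex| * (2 * n ^ 2) + 2 * n ^ 2) := by
      apply mul_le_mul hκc _ (by positivity) (by positivity)
      have := mul_le_mul_of_nonneg_left hk hEn
      linarith
    have a2 : 2 * n ^ 3 * (|D'| + |Ex| * (2 * n ^ 2) + 2 * n ^ 2) =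
        2 * n ^ 3 * |D'| + 4 * n ^ 5 * |Ex| + 4 * n ^ 5 := by ring
    -- `(|Ex| - 2 n^3) |D'| ≤ 4 n^5 (|Ex| + 1)`
    have a3 : (|Ex| - 2 * n ^ 3) * |D'| ≤ 4 * n ^ 5 * (|Ex| + 1) := by nlinarith
    by_contra hcon
    rw [not_le] at hcon
    have a4 : 0 < |Ex| - 2 * n ^ 3 := by linarith
    have a5 : (|Ex| - 2 * n ^ 3) * (5 * n ^ 5) < (|Ex| - 2 * n ^ 3) * |D'| :=
      mul_lt_mul_of_pos_left hcon a4
    have a6 : 0 < n ^ 5 := by positivity
    have a7 : n ^ 5 * (|Ex| - 10 * n ^ 3 - 4) < 0 := by nlinarith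
    have a8 : 0 ≤ |Ex| - 10 * n ^ 3 - 4 := by
      have := one_le_pow₀ (n := 10) hn
      linarith
    have a9 := mul_nonneg a6.le a8
    linarith
  have e3 : Ex * (h0 * D' * q - κ * k * c) = κ * c * (D' - c) := by linear_combination -e1
  have e4 : |κ * c * (D' - c)| < |Ex| := by
    rw [abs_mul, abs_mul, abs_of_pos hκ0]
    have a1 : |D' - c| ≤ 5 * n ^ 5 + 2 * n ^ 2 := by
      have := abs_sub D' c
      linarith
    have a2 : κ * |c| * |D' - c| ≤ 2 * n ^ 3 * (5 * n ^ 5 + 2 * n ^ 2) :=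
      mul_le_mul hκc a1 (abs_nonneg _) (by positivity)
    have a3 : 2 * n ^ 3 * (5 * n ^ 5 + 2 * n ^ 2) = 10 * n ^ 8 + 4 * n ^ 5 := by ring
    have a4 : 0 < n ^ 10 := by positivity
    linarith
  have e5 : h0 * D' * q - κ * k * c = 0 := by
    by_contra hne
    have a1 := Int.one_le_abs hne
    have a2 : |Ex| * |h0 * D' * q - κ * k * c| = |κ * c * (D' - c)| := by rw [← abs_mul, e3]
    have a3 : |Ex| ≤ |Ex| * |h0 * D' * q - κ * k * c| := le_mul_of_one_le_right hEn a1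
    linarith
  rw [e5, mul_zero] at e3
  have e6 : D' = c := by
    rcases mul_eq_zero.mp e3.symm with h | h
    · rcases mul_eq_zero.mp h with h | h
      · exact absurd h (by linarith)
      · exact absurd h hc0
    · linarith
  refine ⟨by rw [← hD', e6], ?_⟩
  rintro rfl
  rw [mul_zero, zero_mul, sub_zero] at e5
  exact mul_ne_zero (mul_ne_zero hh0 hD'0) hq0 e5

/-- no small `D` for the answer `t` -/
theorem sg_t {n Ex Tx h0 c κ X h D q i v : ℤ} (hn : 1 ≤ n) (hκ1 : 1 ≤ κ) (hκn : κ ≤ n)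
    (hX : κ * X = Ex * h0) (hh : κ * h = (Ex - Tx) * h0) (hc : c = Tx * h0)
    (hh0 : h0 ≠ 0) (hc0 : c ≠ 0) (hT : 10 * n ^ 2 * |Tx| ≤ |Ex|)
    (hDi : D = X + i - h) (hDh : D + h ≠ 0) (hi : i ≠ 0)
    (hv0 : v ≠ 0) (hv : |v| ≤ n) (hdv : X ∣ i * v)
    (hq : (D + h) * c = X * D * q) : False := by
  have hn2 : 1 ≤ n ^ 2 := one_le_pow₀ hn
  have hκ0 : 0 < κ := by linarith
  have hq0 : q ≠ 0 := by
    rintro rfl
    rw [mul_zero] at hq
    rcases mul_eq_zero.mp hq with h | h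
    · exact hDh h
    · exact hc0 h
  have hTx : Tx ≠ 0 := by rintro rfl; apply hc0; rw [hc]; ring
  have hT1 := Int.one_le_abs hTx
  have hq1 := Int.one_le_abs hq0
  have hEn := abs_nonneg Ex
  have hTn := abs_nonneg Tx
  obtain ⟨D', hD'⟩ : ∃ D', D' = κ * D := ⟨_, rfl⟩
  have e1 : D' * (Ex * q - κ * Tx) = κ * (Ex - Tx) * Tx * h0 := by
    apply mul_left_cancel₀ hh0
    have : κ * κ * ((D + h) * c) = κ * κ * (X * D * q) := by rw [hq]
    rw [hc] at this
    rw [hD']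
    linear_combination -this + (κ * Tx * h0) * hh - (κ * D * q) * hX
  have nT : n * |Tx| ≤ n ^ 2 * |Tx| :=
    mul_le_mul_of_nonneg_right (le_self_pow₀ hn (by norm_num)) hTn
  have nT2 : |Tx| ≤ n ^ 2 * |Tx| := le_mul_of_one_le_left hTn hn2
  have e2 : 9 * |Ex| ≤ 10 * |Ex * q - κ * Tx| := by
    have a1 : |Ex * q| ≤ |Ex * q - κ * Tx| + |κ * Tx| := by
      have := abs_add_le (Ex * q - κ * Tx) (κ * Tx)
      rwa [sub_add_cancel] at this
    have a2 : |Ex| ≤ |Ex * q| := by rw [abs_mul]; exact le_mul_of_one_le_right hEn hq1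
    have a3 : |κ * Tx| ≤ n * |Tx| := by
      rw [abs_mul, abs_of_pos hκ0]; exact mul_le_mul_of_nonneg_right hκn hTn
    linarith
  have e3 : 9 * |D'| ≤ 11 * n * |Tx| * |h0| := by
    have a1 : |D'| * |Ex * q - κ * Tx| = κ * |Ex - Tx| * |Tx| * |h0| := by
      rw [← abs_mul, e1, abs_mul, abs_mul, abs_mul, abs_of_pos hκ0]
    have a2 : |Ex - Tx| ≤ |Ex| + |Tx| := abs_sub _ _
    have a3 : 10 * |Ex - Tx| ≤ 11 * |Ex| := by linarith
    have a4 : |D'| * (9 * |Ex|) ≤ |D'| * (10 * |Ex * q - κ * Tx|) :=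
      mul_le_mul_of_nonneg_left e2 (abs_nonneg _)
    have a5 : |D'| * (10 * |Ex * q - κ * Tx|) = κ * (10 * |Ex - Tx|) * |Tx| * |h0| := by
      linear_combination 10 * a1
    have a6 : κ * (10 * |Ex - Tx|) * |Tx| * |h0| ≤ n * (11 * |Ex|) * |Tx| * |h0| := by
      apply mul_le_mul_of_nonneg_right _ (abs_nonneg _)
      apply mul_le_mul_of_nonneg_right _ hTn
      exact mul_le_mul hκn a3 (by positivity) (by linarith)
    have a7 : (9 * |D'|) * |Ex| ≤ (11 * n * |Tx| * |h0|) * |Ex| := by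
      have : n * (11 * |Ex|) * |Tx| * |h0| = (11 * n * |Tx| * |h0|) * |Ex| := by ring
      linarith
    have hE0 : 0 < |Ex| := by nlinarith
    exact le_of_mul_le_mul_right a7 hE0
  have e4 : κ * i = D' - Tx * h0 := by
    rw [hD', hDi]
    linear_combination hh - hX
  have hh1 := Int.one_le_abs hh0
  have e5 : 9 * (κ * |i|) ≤ 20 * n * |Tx| * |h0| := by
    have a1 : κ * |i| = |D' - Tx * h0| := by rw [← e4, abs_mul, abs_of_pos hκ0]
    have a2 : |D' - Tx * h0| ≤ |D'| + |Tx| * |h0| := by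
      have := abs_sub D' (Tx * h0)
      rwa [abs_mul] at this
    have a3 : |Tx| * |h0| ≤ n * |Tx| * |h0| := by
      apply mul_le_mul_of_nonneg_right _ (abs_nonneg _)
      exact le_mul_of_one_le_left hTn hn
    linarith
  have e6 : |X| ≤ |i| * n := by
    have a1 := Int.le_of_dvd (abs_pos.mpr (mul_ne_zero hi hv0)) ((abs_dvd_abs _ _).mpr hdv)
    rw [abs_mul] at a1
    exact a1.trans (mul_le_mul_of_nonneg_left hv (abs_nonneg _))
  have e7 : |Ex| * |h0| ≤ (κ * |i|) * n := by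
    have a1 : κ * |X| = |Ex| * |h0| := by
      rw [← abs_mul, ← hX, abs_mul, abs_of_pos hκ0]
    have a2 := mul_le_mul_of_nonneg_left e6 hκ0.le
    linarith
  have e8 : 9 * (|Ex| * |h0|) ≤ (20 * n ^ 2 * |Tx|) * |h0| := by
    have a1 : 9 * ((κ * |i|) * n) ≤ (20 * n * |Tx| * |h0|) * n := by
      have := mul_le_mul_of_nonneg_right e5 (by linarith : 0 ≤ n)
      linarith
    have a2 : (20 * n * |Tx| * |h0|) * n = (20 * n ^ 2 * |Tx|) * |h0| := by ring
    linarith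
  have e9 : 9 * |Ex| ≤ 20 * n ^ 2 * |Tx| := by
    have : (9 * |Ex|) * |h0| ≤ (20 * n ^ 2 * |Tx|) * |h0| := by linarith
    exact le_of_mul_le_mul_right this (by linarith)
  have : 0 < n ^ 2 * |Tx| := by positivity
  linarith

/-- two pairs with large `D` -/
theorem sg_LL {Λ Dm X h c X' h' c' G τ : ℤ} (hΛ : 1 ≤ Λ) (bX : |X| ≤ Λ) (bh : |h| ≤ Λ)
    (bc : |c| ≤ Λ) (bX' : |X'| ≤ Λ) (bh' : |h'| ≤ Λ) (bc' : |c'| ≤ Λ)
    (hDm : 12 * Λ ^ 3 ≤ Dm) (hG : 8 * Λ ^ 2 < |G|)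
    (h1 : |τ * X - G * h - c| * Dm ≤ |h| * (|c| + (|h| + |X|) * |G|))
    (h2 : |τ * X' - G * h' - c'| * Dm ≤ |h'| * (|c'| + (|h'| + |X'|) * |G|)) :
    X' * h = X * h' := by
  have hΛ2 : 1 ≤ Λ ^ 2 := one_le_pow₀ hΛ
  have hG1 : 1 ≤ |G| := by linarith
  have key : ∀ {X h c : ℤ}, |X| ≤ Λ → |h| ≤ Λ → |c| ≤ Λ →
      |τ * X - G * h - c| * Dm ≤ |h| * (|c| + (|h| + |X|) * |G|) →
      4 * Λ * |τ * X - G * h - c| ≤ |G| := by
    intro X h c bX bh bc h1
    have a1 : |h| * (|c| + (|h| + |X|) * |G|) ≤ Λ * (Λ + (Λ + Λ) * |G|) := by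
      apply mul_le_mul bh _ (by positivity) (by linarith)
      have : (|h| + |X|) * |G| ≤ (Λ + Λ) * |G| :=
        mul_le_mul_of_nonneg_right (by linarith) (abs_nonneg _)
      linarith
    have a2 : Λ * (Λ + (Λ + Λ) * |G|) ≤ 3 * Λ ^ 2 * |G| := by
      have : Λ ≤ Λ * |G| := le_mul_of_one_le_right (by linarith) hG1
      nlinarith
    have a3 : |τ * X - G * h - c| * (12 * Λ ^ 3) ≤ 3 * Λ ^ 2 * |G| := by
      have := mul_le_mul_of_nonneg_left hDm (abs_nonneg (τ * X - G * h - c))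
      linarith
    have a4 : 3 * Λ ^ 2 * (4 * Λ * |τ * X - G * h - c|) ≤ 3 * Λ ^ 2 * |G| := by
      have : 3 * Λ ^ 2 * (4 * Λ * |τ * X - G * h - c|) =
          |τ * X - G * h - c| * (12 * Λ ^ 3) := by ring
      linarith
    exact le_of_mul_le_mul_left a4 (by positivity)
  have k1 := key bX bh bc h1
  have k2 := key bX' bh' bc' h2
  by_contra hne
  have hne' : X' * h - X * h' ≠ 0 := fun h => hne (by linarith)
  have b1 := Int.one_le_abs hne'
  have e : G * (X' * h - X * h') = X * (τ * X' - G * h' - c') - X' * (τ * X - G * h - c)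
      + (X * c' - X' * c) := by ring
  have e1 : |G| ≤ |G * (X' * h - X * h')| := by
    rw [abs_mul]; exact le_mul_of_one_le_right (abs_nonneg _) b1
  have e2 : |G * (X' * h - X * h')| ≤ |X| * |τ * X' - G * h' - c'| + |X'| * |τ * X - G * h - c|
      + (|X| * |c'| + |X'| * |c|) := by
    rw [e]
    have a1 := abs_add_le (X * (τ * X' - G * h' - c') - X' * (τ * X - G * h - c)) (X * c' - X' * c)
    have a2 := abs_sub (X * (τ * X' - G * h' - c')) (X' * (τ * X - G * h - c))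
    have a3 := abs_sub (X * c') (X' * c)
    rw [abs_mul, abs_mul] at a2 a3
    linarith
  have e3 : |X| * |τ * X' - G * h' - c'| ≤ Λ * |τ * X' - G * h' - c'| :=
    mul_le_mul_of_nonneg_right bX (abs_nonneg _)
  have e4 : |X'| * |τ * X - G * h - c| ≤ Λ * |τ * X - G * h - c| :=
    mul_le_mul_of_nonneg_right bX' (abs_nonneg _)
  have e5 : |X| * |c'| ≤ Λ * Λ := mul_le_mul bX bc' (abs_nonneg _) (by linarith)
  have e6 : |X'| * |c| ≤ Λ * Λ := mul_le_mul bX' bc (abs_nonneg _) (by linarith)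
  nlinarith

/-- a special pair and a pair with large `D` -/
theorem sg_SL {n E Ex k c h0 l κ Hb Λ Dm X' Hx' h' Hb' c' G τ : ℤ} (hn : 1 ≤ n)
    (hκ1 : 1 ≤ κ) (hκn : κ ≤ n) (hc : |c| ≤ 2 * n ^ 2) (hh0 : |h0| ≤ 2 * n ^ 2) (hk : |k| ≤ 2 * n ^ 2)
    (hk0 : k ≠ 0) (hl0 : l ≠ 0)
    (hHb : Hb = Ex * k - c) (hEx : |E| ≤ 2 * |Ex|)
    (hS : τ * c * h0 = G * Hb * l + κ * c * k)
    (hE : 1000 * n ^ 10 ≤ |E|)
    (hΛ : 1 ≤ Λ) (bX' : |X'| ≤ Λ) (bh' : |h'| ≤ Λ) (bc' : |c'| ≤ Λ)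
    (hDm : 12 * Λ ^ 3 ≤ Dm) (hG : 8 * Λ ^ 2 < |G|) (hΛG : Λ ≤ |E| * |E|)
    (hGE : |E| * |E| ≤ |G|)
    (hX' : κ * X' = Hx') (hHx' : |E| ≤ 2 * |Hx'|) (hh' : κ * h' = Hb')
    (hHb' : |Hb'| ≤ 5 * n ^ 2 * |E|)
    (h2 : |τ * X' - G * h' - c'| * Dm ≤ |h'| * (|c'| + (|h'| + |X'|) * |G|)) : False := by
  have hn2 : 1 ≤ n ^ 2 := one_le_pow₀ hn
  have hn4 : 1 ≤ n ^ 4 := one_le_pow₀ hn
  have p2 : n ^ 2 ≤ n ^ 10 := pow_le_pow_right₀ hn (by norm_num)
  have p4 : n ^ 4 ≤ n ^ 10 := pow_le_pow_right₀ hn (by norm_num)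
  have p5 : n ^ 5 ≤ n ^ 10 := pow_le_pow_right₀ hn (by norm_num)
  have p6 : n ^ 6 ≤ n ^ 10 := pow_le_pow_right₀ hn (by norm_num)
  have hκ0 : 0 < κ := by linarith
  have hΛ2 : 1 ≤ Λ ^ 2 := one_le_pow₀ hΛ
  have hG1 : 1 ≤ |G| := by linarith
  have hG0 : 0 ≤ |G| := abs_nonneg _
  have hEpos : 0 < |E| := by
    have : 0 < n ^ 10 := by positivity
    linarith
  -- the small error
  have k2 : 4 * Λ * |τ * X' - G * h' - c'| ≤ |G| := by
    have a1 : |h'| * (|c'| + (|h'| + |X'|) * |G|) ≤ Λ * (Λ + (Λ + Λ) * |G|) := by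
      apply mul_le_mul bh' _ (by positivity) (by linarith)
      have : (|h'| + |X'|) * |G| ≤ (Λ + Λ) * |G| :=
        mul_le_mul_of_nonneg_right (by linarith) (abs_nonneg _)
      linarith
    have a2 : Λ * (Λ + (Λ + Λ) * |G|) ≤ 3 * Λ ^ 2 * |G| := by
      have : Λ ≤ Λ * |G| := le_mul_of_one_le_right (by linarith) hG1
      nlinarith
    have a3 : |τ * X' - G * h' - c'| * (12 * Λ ^ 3) ≤ 3 * Λ ^ 2 * |G| := by
      have := mul_le_mul_of_nonneg_left hDm (abs_nonneg (τ * X' - G * h' - c'))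
      linarith
    have a4 : 3 * Λ ^ 2 * (4 * Λ * |τ * X' - G * h' - c'|) ≤ 3 * Λ ^ 2 * |G| := by
      have : 3 * Λ ^ 2 * (4 * Λ * |τ * X' - G * h' - c'|) =
          |τ * X' - G * h' - c'| * (12 * Λ ^ 3) := by ring
      linarith
    exact le_of_mul_le_mul_left a4 (by positivity)
  have k3 : |τ * X' - G * h' - c'| ≤ |G| := by
    have := abs_nonneg (τ * X' - G * h' - c')
    nlinarith
  -- upper bound for `τ`
  have u1 : |τ| * |Hx'| ≤ |G| * |Hb'| + κ * |c'| + κ * |G| := by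
    have a1 : τ * Hx' = G * Hb' + κ * c' + κ * (τ * X' - G * h' - c') := by
      rw [← hX', ← hh']; ring
    have a2 : |τ| * |Hx'| = |G * Hb' + κ * c' + κ * (τ * X' - G * h' - c')| := by
      rw [← abs_mul, a1]
    have a3 := abs_add_le (G * Hb' + κ * c') (κ * (τ * X' - G * h' - c'))
    have a4 := abs_add_le (G * Hb') (κ * c')
    rw [abs_mul G, abs_mul κ c', abs_of_pos hκ0] at a4
    rw [abs_mul κ (τ * X' - G * h' - c'), abs_of_pos hκ0] at a3
    have a5 : κ * |τ * X' - G * h' - c'| ≤ κ * |G| := mul_le_mul_of_nonneg_left k3 hκ0.le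
    linarith
  have u2 : |τ| * |E| ≤ (14 * n ^ 2 * |E|) * |G| := by
    have a1 : |τ| * |E| ≤ 2 * (|τ| * |Hx'|) := by
      have := mul_le_mul_of_nonneg_left hHx' (abs_nonneg τ)
      linarith
    have a2 : |G| * |Hb'| ≤ |G| * (5 * n ^ 2 * |E|) := mul_le_mul_of_nonneg_left hHb' hG0
    have a3 : κ * |c'| ≤ n * |G| := by
      have : |c'| ≤ |G| := by linarith
      exact mul_le_mul hκn this (abs_nonneg _) (by linarith)
    have a4 : κ * |G| ≤ n * |G| := mul_le_mul_of_nonneg_right hκn hG0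
    have a5 : n ≤ n ^ 2 * |E| := by
      have : n ≤ n ^ 2 := le_self_pow₀ hn (by norm_num)
      have h1E : 1 ≤ |E| := hEpos
      have : n ^ 2 ≤ n ^ 2 * |E| := le_mul_of_one_le_right (by positivity) h1E
      linarith
    have a6 : n * |G| ≤ (n ^ 2 * |E|) * |G| := mul_le_mul_of_nonneg_right a5 hG0
    nlinarith
  have u3 : |τ| ≤ 14 * n ^ 2 * |G| := by
    have : |τ| * |E| ≤ (14 * n ^ 2 * |G|) * |E| := by linarith
    exact le_of_mul_le_mul_right this hEpos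
  -- lower bound
  have l1 : |G| * |Hb| ≤ |τ| * (4 * n ^ 4) + 4 * n ^ 5 := by
    have a1 : G * Hb * l = τ * c * h0 - κ * c * k := by linarith
    have a2 : |G| * |Hb| ≤ |G * Hb * l| := by
      rw [abs_mul, abs_mul]
      exact le_mul_of_one_le_right (by positivity) (Int.one_le_abs hl0)
    have a3 := abs_sub (τ * c * h0) (κ * c * k)
    rw [abs_mul, abs_mul, abs_mul (κ * c) k, abs_mul κ c, abs_of_pos hκ0] at a3
    have a4 : |c| * |h0| ≤ (2 * n ^ 2) * (2 * n ^ 2) :=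
      mul_le_mul hc hh0 (abs_nonneg _) (by positivity)
    have a5 : |τ| * |c| * |h0| ≤ |τ| * (4 * n ^ 4) := by
      have := mul_le_mul_of_nonneg_left a4 (abs_nonneg τ)
      have e : |τ| * ((2 * n ^ 2) * (2 * n ^ 2)) = |τ| * (4 * n ^ 4) := by ring
      have e2 : |τ| * |c| * |h0| = |τ| * (|c| * |h0|) := by ring
      linarith
    have a6 : κ * |c| * |k| ≤ n * (2 * n ^ 2) * (2 * n ^ 2) := by
      apply mul_le_mul _ hk (abs_nonneg _) (by positivity)
      exact mul_le_mul hκn hc (abs_nonneg _) (by linarith)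
    have e : n * (2 * n ^ 2) * (2 * n ^ 2) = 4 * n ^ 5 := by ring
    rw [← a1] at a3
    linarith
  have l2 : |E| ≤ 4 * |Hb| := by
    have a1 : |Ex * k| ≤ |Hb| + |c| := by
      have e : Ex * k = Hb + c := by rw [hHb]; ring
      rw [e]; exact abs_add_le _ _
    have a2 : |Ex| ≤ |Ex * k| := by
      rw [abs_mul]; exact le_mul_of_one_le_right (abs_nonneg _) (Int.one_le_abs hk0)
    have a3 : 0 < n ^ 10 := by positivity
    linarith
  -- conclusion
  have f1 : |G| * |E| ≤ 4 * (|G| * |Hb|) := by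
    have := mul_le_mul_of_nonneg_left l2 hG0
    linarith
  have f2 : |τ| * (4 * n ^ 4) ≤ 14 * n ^ 2 * |G| * (4 * n ^ 4) :=
    mul_le_mul_of_nonneg_right u3 (by positivity)
  have f3 : 14 * n ^ 2 * |G| * (4 * n ^ 4) = 56 * n ^ 6 * |G| := by ring
  have f4 : 4 * n ^ 5 ≤ 4 * n ^ 6 * |G| := by
    have : n ^ 5 ≤ n ^ 6 := pow_le_pow_right₀ hn (by norm_num)
    have h6 : n ^ 6 ≤ n ^ 6 * |G| := le_mul_of_one_le_right (by positivity) hG1
    linarith
  have f5 : |G| * |E| ≤ (240 * n ^ 6) * |G| := by linarith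
  have f6 : |G| * |E| ≤ |G| * (240 * n ^ 6) := by linarith
  have f7 : |E| ≤ 240 * n ^ 6 := le_of_mul_le_mul_left f6 (by linarith)
  have : 0 < n ^ 10 := by positivity
  linarith

/-- two special pairs -/
theorem sg_SS {κ G τ h0 Ex k c H Ex' k' c' H' : ℤ} (hκ : κ ≠ 0) (hc : c ≠ 0) (hc' : c' ≠ 0)
    (hk : k ≠ 0) (hl : k - h0 ≠ 0) (hH : H = Ex * k - c) (hH' : H' = Ex' * k' - c')
    (hG : |κ * c * c' * (k - k')| < |G|)
    (h1 : τ * c * h0 = G * H * (k - h0) + κ * c * k)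
    (h2 : τ * c' * h0 = G * H' * (k' - h0) + κ * c' * k') : k = k' ∧ c' * Ex = c * Ex' := by
  have e : G * (c' * H * (k - h0) - c * H' * (k' - h0)) = -(κ * c * c' * (k - k')) := by
    linear_combination c * h2 - c' * h1
  have e1 : c' * H * (k - h0) - c * H' * (k' - h0) = 0 := by
    by_contra hne
    have a1 := Int.one_le_abs hne
    have a2 : |G| * |c' * H * (k - h0) - c * H' * (k' - h0)| = |κ * c * c' * (k - k')| := by
      rw [← abs_mul, e, abs_neg]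
    have a3 : |G| ≤ |G| * |c' * H * (k - h0) - c * H' * (k' - h0)| :=
      le_mul_of_one_le_right (abs_nonneg _) a1
    linarith
  rw [e1, mul_zero] at e
  have e2 : k - k' = 0 := by
    have : κ * c * c' * (k - k') = 0 := by linarith
    exact (mul_eq_zero.mp this).resolve_left (mul_ne_zero (mul_ne_zero hκ hc) hc')
  have e3 : k' = k := by linarith
  subst e3
  refine ⟨rfl, ?_⟩
  have e4 : c' * H = c * H' := by
    apply mul_right_cancel₀ hl
    linarith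
  rw [hH, hH'] at e4
  apply mul_right_cancel₀ hk
  linarith

/-- `τ` is large, pair with large `D` -/
theorem sg_tau_L {Λ Dm X h c G τ K : ℤ} (hΛ : 1 ≤ Λ) (bX : |X| ≤ Λ) (bh : |h| ≤ Λ)
    (bc : |c| ≤ Λ) (hh : h ≠ 0) (hDm : 12 * Λ ^ 3 ≤ Dm) (hG : 4 * Λ * (K + 1) < |G|)
    (hG1 : 1 ≤ |G|)
    (h1 : |τ * X - G * h - c| * Dm ≤ |h| * (|c| + (|h| + |X|) * |G|)) : K < |τ| := by
  have key : 4 * Λ * |τ * X - G * h - c| ≤ |G| := by
    have a1 : |h| * (|c| + (|h| + |X|) * |G|) ≤ Λ * (Λ + (Λ + Λ) * |G|) := by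
      apply mul_le_mul bh _ (by positivity) (by linarith)
      have : (|h| + |X|) * |G| ≤ (Λ + Λ) * |G| :=
        mul_le_mul_of_nonneg_right (by linarith) (abs_nonneg _)
      linarith
    have a2 : Λ * (Λ + (Λ + Λ) * |G|) ≤ 3 * Λ ^ 2 * |G| := by
      have : Λ ≤ Λ * |G| := le_mul_of_one_le_right (by linarith) hG1
      nlinarith
    have a3 : |τ * X - G * h - c| * (12 * Λ ^ 3) ≤ 3 * Λ ^ 2 * |G| := by
      have := mul_le_mul_of_nonneg_left hDm (abs_nonneg (τ * X - G * h - c))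
      linarith
    have a4 : 3 * Λ ^ 2 * (4 * Λ * |τ * X - G * h - c|) ≤ 3 * Λ ^ 2 * |G| := by
      have : 3 * Λ ^ 2 * (4 * Λ * |τ * X - G * h - c|) =
          |τ * X - G * h - c| * (12 * Λ ^ 3) := by ring
      linarith
    exact le_of_mul_le_mul_left a4 (by positivity)
  by_contra hcon
  rw [not_lt] at hcon
  have b1 : |G| ≤ |G * h| := by
    rw [abs_mul]; exact le_mul_of_one_le_right (abs_nonneg _) (Int.one_le_abs hh)
  have b2 : |G * h| ≤ |τ| * |X| + |c| + |τ * X - G * h - c| := by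
    have e : G * h = τ * X - c - (τ * X - G * h - c) := by ring
    have a1 := abs_sub (τ * X - c) (τ * X - G * h - c)
    have a2 := abs_sub (τ * X) c
    rw [← e] at a1
    rw [abs_mul] at a2
    linarith
  have b3 : |τ| * |X| ≤ K * Λ := by
    have : |τ| * |X| ≤ |τ| * Λ := mul_le_mul_of_nonneg_left bX (abs_nonneg _)
    have : |τ| * Λ ≤ K * Λ := mul_le_mul_of_nonneg_right hcon (by linarith)
    linarith
  have b4 := abs_nonneg (τ * X - G * h - c)
  have b5 : 4 * |τ * X - G * h - c| ≤ 4 * Λ * |τ * X - G * h - c| := by nlinarith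
  nlinarith

/-- `τ` is large, special pair -/
theorem sg_tau_S {n κ c k h0 l H G τ K : ℤ} (hn : 1 ≤ n) (hκ1 : 1 ≤ κ) (hκn : κ ≤ n)
    (hc : |c| ≤ 2 * n ^ 2) (hh0 : |h0| ≤ 2 * n ^ 2) (hk : |k| ≤ 2 * n ^ 2) (hl : l ≠ 0)
    (hH : H ≠ 0) (hG : 4 * n ^ 4 * K + 4 * n ^ 5 < |G|)
    (hS : τ * c * h0 = G * H * l + κ * c * k) : K < |τ| := by
  by_contra hcon
  rw [not_lt] at hcon
  have a1 : G * H * l = τ * c * h0 - κ * c * k := by linarith
  have a2 : |G| ≤ |G * H * l| := by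
    rw [abs_mul, abs_mul, mul_assoc]
    refine le_mul_of_one_le_right (abs_nonneg _) ?_
    have b1 := Int.one_le_abs hH
    have b2 := Int.one_le_abs hl
    nlinarith
  have a3 := abs_sub (τ * c * h0) (κ * c * k)
  rw [← a1, abs_mul (τ * c), abs_mul τ c, abs_mul (κ * c) k, abs_mul κ c,
    abs_of_pos (show 0 < κ by linarith)] at a3
  have a4 : |c| * |h0| ≤ (2 * n ^ 2) * (2 * n ^ 2) :=
    mul_le_mul hc hh0 (abs_nonneg _) (by positivity)
  have a5 : |τ| * |c| * |h0| ≤ K * (4 * n ^ 4) := by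
    have h1 := mul_le_mul_of_nonneg_left a4 (abs_nonneg τ)
    have e : |τ| * ((2 * n ^ 2) * (2 * n ^ 2)) = |τ| * (4 * n ^ 4) := by ring
    have e2 : |τ| * |c| * |h0| = |τ| * (|c| * |h0|) := by ring
    have h2 : |τ| * (4 * n ^ 4) ≤ K * (4 * n ^ 4) :=
      mul_le_mul_of_nonneg_right hcon (by positivity)
    linarith
  have a6 : κ * |c| * |k| ≤ n * (2 * n ^ 2) * (2 * n ^ 2) := by
    apply mul_le_mul _ hk (abs_nonneg _) (by positivity)
    exact mul_le_mul hκn hc (abs_nonneg _) (by linarith)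
  have e : n * (2 * n ^ 2) * (2 * n ^ 2) = 4 * n ^ 5 := by ring
  linarith

theorem sg_mod {E y z : ℤ} (h : E * z = y) (hy0 : y ≠ 0) (hy : |y| < |E|) : False := by
  have hz : z ≠ 0 := by rintro rfl; apply hy0; rw [← h]; ring
  have a1 := Int.one_le_abs hz
  have a2 : |E| * |z| = |y| := by rw [← abs_mul, h]
  have a3 : |E| ≤ |E| * |z| := le_mul_of_one_le_right (abs_nonneg _) a1
  linarith

end Pool.Agent.K4L
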