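import Pool.Agent.K4L.Star

/-!
# The answer `t` is much nearer than `e`: the data
-/

namespace Pool.Agent.K4L

/-- the near data: `e = o + E uL`, `t = o + T uL`, `a = o + α uL`, `e - b = κ w0` -/
structure StarCtx (R B : Finset Pt) (o a b uL w0 : Pt) (n κ E T α : ℤ) : Prop where
  hn : 1 ≤ n
  near : ∀ v ∈ R ∪ B, ∀ w ∈ R ∪ B, Nv n (v - w)
  nL : Nv n uL
  hB : ∀ β ∈ B, β ∉ R
  oR : o ∈ R
  aR : a ∈ R
  bR : b ∈ R
  ha : a = adv o uL α
  hα : α ≠ 0
  αn : |α| ≤ n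
  h0 : dt uL (o - b) ≠ 0
  κ1 : 1 ≤ κ
  κn : κ ≤ n
  hw1 : (o - b).1 + E * uL.1 = κ * w0.1
  hw2 : (o - b).2 + E * uL.2 = κ * w0.2
  Lal : ∀ β ∈ B, dt uL (β - o) ≠ 0
  Mal : ∀ β ∈ B, dt (β - b) (o - b) ≠ 0
  Nal : ∀ β ∈ B, dt (β - b) (a - b) ≠ 0
  hE : 1000 * n ^ 10 ≤ |E|
  hT : 32 * n ^ 4 * |T| < |E|
  T0 : T ≠ 0
  Tα : T ≠ α

namespace StarCtx

variable {R B : Finset Pt} {o a b uL w0 : Pt} {n κ E T α : ℤ}

theorem near' (c : StarCtx R B o a b uL w0 n κ E T α) {v w : Pt} (hv : v ∈ R ∨ v ∈ B)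
    (hw : w ∈ R ∨ w ∈ B) : Nv n (v - w) :=
  c.near v (Finset.mem_union.mpr hv) w (Finset.mem_union.mpr hw)

theorem κ_dt (c : StarCtx R B o a b uL w0 n κ E T α) (v : Pt) :
    κ * dt w0 v = dt (o - b) v + E * dt uL v := by
  have h1 := c.hw1
  have h2 := c.hw2
  unfold dt
  linear_combination (-v.2) * h1 + v.1 * h2

theorem h0n (c : StarCtx R B o a b uL w0 n κ E T α) : |dt uL (o - b)| ≤ 2 * n ^ 2 :=
  c.nL.dt (c.near' (Or.inl c.oR) (Or.inl c.bR))

theorem E_big (c : StarCtx R B o a b uL w0 n κ E T α) :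
    1000 * n ^ 2 ≤ |E| ∧ 1000 * n ^ 3 ≤ |E| ∧ 1000 * n ≤ |E| ∧ 1000 ≤ |E| ∧
      1000 * n ^ 4 ≤ |E| := by
  have hn := c.hn
  have hE := c.hE
  have p2 : n ^ 2 ≤ n ^ 10 := pow_le_pow_right₀ hn (by norm_num)
  have p3 : n ^ 3 ≤ n ^ 10 := pow_le_pow_right₀ hn (by norm_num)
  have p4 : n ^ 4 ≤ n ^ 10 := pow_le_pow_right₀ hn (by norm_num)
  have p1 : n ≤ n ^ 10 := le_self_pow₀ hn (by norm_num)
  refine ⟨by linarith, by linarith, by linarith, by linarith, by linarith⟩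

/-- no direction of a near pair is parallel to `b e` -/
theorem np_near (c : StarCtx R B o a b uL w0 n κ E T α) {v w : Pt} (hv : v ∈ R ∨ v ∈ B)
    (hw : w ∈ R ∨ w ∈ B) (hne : v ≠ w) : dt w0 (v - w) ≠ 0 := by
  intro h
  have e := c.κ_dt (v - w)
  rw [h, mul_zero] at e
  have hE := c.E_big
  by_cases h1 : dt uL (v - w) = 0
  · rw [h1, mul_zero, add_zero] at e
    have hvw : v - w ≠ 0 := sub_ne_zero.mpr hne
    apply c.h0
    have g1 : dt (v - w) uL = 0 := by rw [dt_swap, h1, neg_zero]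
    have g2 : dt (v - w) (o - b) = 0 := by rw [dt_swap, ← e, neg_zero]
    exact dt_par hvw g1 g2
  · have a1 := Int.one_le_abs h1
    have a2 : |E| * |dt uL (v - w)| = |dt (o - b) (v - w)| := by
      rw [← abs_mul]
      have : E * dt uL (v - w) = -dt (o - b) (v - w) := by linarith
      rw [this, abs_neg]
    have a3 := (c.near' (Or.inl c.oR) (Or.inl c.bR)).dt (c.near' hv hw)
    have a4 : |E| ≤ |E| * |dt uL (v - w)| := le_mul_of_one_le_right (abs_nonneg _) a1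
    have hn2 : 1 ≤ n ^ 2 := one_le_pow₀ c.hn
    linarith [hE.1]

theorem T_n (c : StarCtx R B o a b uL w0 n κ E T α) : |T| * (2 * n ^ 2) + 2 * n ^ 2 < |E| ∧
    10 * n ^ 2 * (|T| + n) ≤ |E| ∧ n * (|T| * (2 * n ^ 2)) < |E| ∧ |T| ≤ |E| := by
  have hn := c.hn
  have hE := c.E_big
  have hT := c.hT
  have hT1 := Int.one_le_abs c.T0
  have p24 : n ^ 2 ≤ n ^ 4 := pow_le_pow_right₀ hn (by norm_num)
  have p34 : n ^ 3 ≤ n ^ 4 := pow_le_pow_right₀ hn (by norm_num)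
  have p04 : 1 ≤ n ^ 4 := one_le_pow₀ hn
  have q2 : n ^ 2 * |T| ≤ n ^ 4 * |T| := mul_le_mul_of_nonneg_right p24 (by linarith)
  have q3 : n ^ 3 * |T| ≤ n ^ 4 * |T| := mul_le_mul_of_nonneg_right p34 (by linarith)
  have q0 : |T| ≤ n ^ 4 * |T| := le_mul_of_one_le_left (by linarith) p04
  have q4 : n ^ 4 ≤ n ^ 4 * |T| := le_mul_of_one_le_right (by linarith) hT1
  refine ⟨?_, ?_, ?_, ?_⟩
  · linarith
  · have : 10 * n ^ 2 * (|T| + n) = 10 * (n ^ 2 * |T|) + 10 * n ^ 3 := by ring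
    linarith [abs_nonneg E]
  · have : n * (|T| * (2 * n ^ 2)) = 2 * (n ^ 3 * |T|) := by ring
    linarith
  · linarith

/-- no line through `t` and a near point off `L` is parallel to `b e` -/
theorem np_t (c : StarCtx R B o a b uL w0 n κ E T α) {v : Pt} (hv : v ∈ R ∨ v ∈ B)
    (hvL : dt uL (v - o) ≠ 0) : dt w0 (adv o uL T - v) ≠ 0 := by
  intro h
  have e := c.κ_dt (adv o uL T - v)
  rw [h, mul_zero] at e
  have e1 : dt (o - b) (adv o uL T - v) = dt (o - b) (o - v) - T * dt uL (o - b) := by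
    unfold dt adv; simp only [Prod.fst_sub, Prod.snd_sub]; ring
  have e2 : dt uL (adv o uL T - v) = -dt uL (v - o) := by
    unfold dt adv; simp only [Prod.fst_sub, Prod.snd_sub]; ring
  rw [e1, e2] at e
  have a1 := Int.one_le_abs hvL
  have a2 : |E| * |dt uL (v - o)| = |dt (o - b) (o - v) - T * dt uL (o - b)| := by
    rw [← abs_mul]
    congr 1
    linarith
  have a3 := (c.near' (Or.inl c.oR) (Or.inl c.bR)).dt (c.near' (Or.inl c.oR) hv)
  have a4 : |E| ≤ |E| * |dt uL (v - o)| := le_mul_of_one_le_right (abs_nonneg _) a1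
  have a5 := abs_sub (dt (o - b) (o - v)) (T * dt uL (o - b))
  rw [abs_mul] at a5
  have a6 : |T| * |dt uL (o - b)| ≤ |T| * (2 * n ^ 2) :=
    mul_le_mul_of_nonneg_left c.h0n (abs_nonneg _)
  linarith [c.T_n.1]

theorem np (c : StarCtx R B o a b uL w0 n κ E T α) {β τ : Pt}
    (hβ : β ∈ insert (adv o uL T) B) (hτ : τ ∈ insert (adv o uL T) B) (hne : β ≠ τ) :
    dt w0 (τ - β) ≠ 0 := by
  have neg : ∀ v w : Pt, dt w0 (v - w) ≠ 0 → dt w0 (w - v) ≠ 0 := by
    intro v w h h0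
    apply h
    unfold dt at *
    simp only [Prod.fst_sub, Prod.snd_sub] at *
    linarith
  rcases Finset.mem_insert.mp hβ with h | h <;> rcases Finset.mem_insert.mp hτ with h' | h'
  · exact absurd (h.trans h'.symm) hne
  · rw [h]; exact neg _ _ (c.np_t (Or.inr h') (c.Lal τ h'))
  · rw [h']; exact c.np_t (Or.inr h) (c.Lal β h)
  · exact c.np_near (Or.inr h') (Or.inr h) hne.symm

/-- the height of a blue stone -/
theorem hh (c : StarCtx R B o a b uL w0 n κ E T α) {β : Pt}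
    (hβ : β ∈ insert (adv o uL T) B) : dt w0 (β - b) ≠ 0 := by
  have hbL : dt uL (b - o) ≠ 0 := by
    intro h
    apply c.h0
    unfold dt at *
    simp only [Prod.fst_sub, Prod.snd_sub] at *
    linarith
  rcases Finset.mem_insert.mp hβ with h | h
  · rw [h]; exact c.np_t (Or.inl c.bR) hbL
  · exact c.np_near (Or.inr h) (Or.inl c.bR) (fun hh => c.hB β h (hh ▸ c.bR))

/-- the two reds `o`, `a` -/
theorem X_eq (c : StarCtx R B o a b uL w0 n κ E T α) (α' : ℤ) :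
    κ * dt w0 (adv o uL α' - b) = (E - α') * dt uL (o - b) := by
  rw [c.κ_dt]
  unfold dt adv; simp only [Prod.fst_sub, Prod.snd_sub]; ring

theorem h_eq (c : StarCtx R B o a b uL w0 n κ E T α) (α' : ℤ) (β : Pt) :
    κ * dt w0 (β - b) = (E - α') * dt uL (β - b) - dt (β - b) (adv o uL α' - b) := by
  rw [c.κ_dt]
  unfold dt adv; simp only [Prod.fst_sub, Prod.snd_sub]; ring

/-- `α' = 0` or `α' = α` -/
theorem α'n (c : StarCtx R B o a b uL w0 n κ E T α) {α' : ℤ} (h : α' = 0 ∨ α' = α) :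
    |α'| ≤ n := by
  rcases h with rfl | rfl
  · rw [abs_zero]; linarith [c.hn]
  · exact c.αn

theorem adv_mem (c : StarCtx R B o a b uL w0 n κ E T α) {α' : ℤ} (h : α' = 0 ∨ α' = α) :
    adv o uL α' ∈ R := by
  rcases h with rfl | rfl
  · have : adv o uL 0 = o := by unfold adv; simp
    rw [this]; exact c.oR
  · rw [← c.ha]; exact c.aR

/-- facts on `Ex = E - α'` -/
theorem Ex (c : StarCtx R B o a b uL w0 n κ E T α) {α' : ℤ} (h : α' = 0 ∨ α' = α) :
    |E| ≤ 2 * |E - α'| ∧ |E - α'| ≤ 2 * |E| ∧ 100 * n ^ 10 ≤ |E - α'| ∧ E - α' ≠ 0 := by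
  have h1 := c.α'n h
  have h2 := c.E_big
  have h3 := c.hE
  have p10 : 1 ≤ n ^ 10 := one_le_pow₀ c.hn
  have h4 := abs_sub E α'
  have h5 : |E| ≤ |E - α'| + |α'| := by
    have := abs_add_le (E - α') α'
    rwa [sub_add_cancel] at this
  have h6 : n ≤ n ^ 10 := le_self_pow₀ c.hn (by norm_num)
  have h7 : 100 * n ^ 10 ≤ |E - α'| := by linarith
  refine ⟨by linarith, by linarith, h7, ?_⟩
  intro h0
  rw [h0, abs_zero] at h7
  linarith

/-- the constant term of a blue stone -/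
theorem c0_bound (c : StarCtx R B o a b uL w0 n κ E T α) {β : Pt}
    (hβ : β ∈ insert (adv o uL T) B) : dt (β - b) (o - b) ≠ 0 ∧
      |α * dt (β - b) (o - b)| < |E| := by
  have hα := c.αn
  have hn := c.hn
  rcases Finset.mem_insert.mp hβ with h | h
  · have e : dt (β - b) (o - b) = T * dt uL (o - b) := by
      rw [h]; unfold dt adv; simp only [Prod.fst_sub, Prod.snd_sub]; ring
    rw [e]
    refine ⟨mul_ne_zero c.T0 c.h0, ?_⟩
    rw [abs_mul, abs_mul]
    have a1 : |T| * |dt uL (o - b)| ≤ |T| * (2 * n ^ 2) :=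
      mul_le_mul_of_nonneg_left c.h0n (abs_nonneg _)
    have a2 : |α| * (|T| * |dt uL (o - b)|) ≤ n * (|T| * (2 * n ^ 2)) :=
      mul_le_mul hα a1 (by positivity) (by linarith)
    linarith [c.T_n.2.2.1]
  · refine ⟨c.Mal β h, ?_⟩
    rw [abs_mul]
    have a1 := (c.near' (Or.inr h) (Or.inl c.bR)).dt (c.near' (Or.inl c.oR) (Or.inl c.bR))
    have a2 : |α| * |dt (β - b) (o - b)| ≤ n * (2 * n ^ 2) :=
      mul_le_mul hα a1 (abs_nonneg _) (by linarith)
    have a3 : n * (2 * n ^ 2) = 2 * n ^ 3 := by ring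
    have a4 : 1 ≤ n ^ 3 := one_le_pow₀ hn
    linarith [c.E_big.2.1]

/-- the determinant of a blue stone and a red one -/
theorem c_bound (c : StarCtx R B o a b uL w0 n κ E T α) {α' : ℤ} (h : α' = 0 ∨ α' = α) {β : Pt}
    (hβ : β ∈ insert (adv o uL T) B) : dt (β - b) (adv o uL α' - b) ≠ 0 ∧
      |dt (β - b) (adv o uL α' - b)| ≤ 2 * n ^ 2 * |E| := by
  have hn := c.hn
  have hE1 := c.E_big.2.2.2.1
  rcases Finset.mem_insert.mp hβ with hβ | hβ
  · have e : dt (β - b) (adv o uL α' - b) = (T - α') * dt uL (o - b) := by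
      rw [hβ]; unfold dt adv; simp only [Prod.fst_sub, Prod.snd_sub]; ring
    rw [e]
    refine ⟨mul_ne_zero ?_ c.h0, ?_⟩
    · rcases h with rfl | rfl
      · rw [sub_zero]; exact c.T0
      · exact sub_ne_zero.mpr c.Tα
    · rw [abs_mul]
      have a1 := abs_sub T α'
      have a2 := c.α'n h
      have a3 := c.T_n.2.1
      have a4 : |T - α'| ≤ |E| := by
        have hn2 : 1 ≤ n ^ 2 := one_le_pow₀ hn
        have : |T| + n ≤ 10 * n ^ 2 * (|T| + n) := by
          refine le_mul_of_one_le_left (by positivity) (by linarith)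
        linarith
      have a5 : |T - α'| * |dt uL (o - b)| ≤ |E| * (2 * n ^ 2) :=
        mul_le_mul a4 c.h0n (abs_nonneg _) (abs_nonneg _)
      linarith
  · have a1 := (c.near' (Or.inr hβ) (Or.inl c.bR)).dt (c.near' (Or.inl (c.adv_mem h))
      (Or.inl c.bR))
    refine ⟨?_, ?_⟩
    · rcases h with rfl | rfl
      · have : adv o uL 0 = o := by unfold adv; simp
        rw [this]; exact c.Mal β hβ
      · rw [← c.ha]; exact c.Nal β hβ
    · have : 2 * n ^ 2 ≤ 2 * n ^ 2 * |E| := le_mul_of_one_le_right (by positivity) (by linarith)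
      linarith

theorem k_bound (c : StarCtx R B o a b uL w0 n κ E T α) {β : Pt}
    (hβ : β ∈ insert (adv o uL T) B) : |dt uL (β - b)| ≤ 2 * n ^ 2 := by
  rcases Finset.mem_insert.mp hβ with hβ | hβ
  · have e : dt uL (β - b) = dt uL (o - b) := by
      rw [hβ]; unfold dt adv; simp only [Prod.fst_sub, Prod.snd_sub]; ring
    rw [e]; exact c.h0n
  · exact c.nL.dt (c.near' (Or.inr hβ) (Or.inl c.bR))

/-- the bound for `κ h` -/
theorem H_bound (c : StarCtx R B o a b uL w0 n κ E T α) {β : Pt}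
    (hβ : β ∈ insert (adv o uL T) B) : |κ * dt w0 (β - b)| ≤ 5 * n ^ 2 * |E| := by
  have e := c.h_eq 0 β
  rw [sub_zero] at e
  rw [e]
  have a1 := abs_sub (E * dt uL (β - b)) (dt (β - b) (adv o uL 0 - b))
  rw [abs_mul] at a1
  have a2 := (c.c_bound (Or.inl rfl) hβ).2
  have a3 : |E| * |dt uL (β - b)| ≤ |E| * (2 * n ^ 2) :=
    mul_le_mul_of_nonneg_left (c.k_bound hβ) (abs_nonneg _)
  have : 0 ≤ n ^ 2 * |E| := by positivity
  linarith

theorem le_Λ (c : StarCtx R B o a b uL w0 n κ E T α) : 5 * n ^ 2 * |E| ≤ |E| * |E| := by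
  have h := c.E_big.1
  have : 0 ≤ n ^ 2 := by positivity
  exact mul_le_mul_of_nonneg_right (by linarith) (abs_nonneg _)

theorem le_of_κ (c : StarCtx R B o a b uL w0 n κ E T α) (x : ℤ) : |x| ≤ |κ * x| := by
  rw [abs_mul]
  refine le_mul_of_one_le_left (abs_nonneg _) ?_
  have := c.κ1
  rw [abs_of_pos (by linarith)]; exact this

theorem h_Λ (c : StarCtx R B o a b uL w0 n κ E T α) {β : Pt}
    (hβ : β ∈ insert (adv o uL T) B) : |dt w0 (β - b)| ≤ |E| * |E| :=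
  ((c.le_of_κ _).trans (c.H_bound hβ)).trans c.le_Λ

theorem X_Λ (c : StarCtx R B o a b uL w0 n κ E T α) {α' : ℤ} (h : α' = 0 ∨ α' = α) :
    |dt w0 (adv o uL α' - b)| ≤ |E| * |E| := by
  refine ((c.le_of_κ _).trans ?_).trans c.le_Λ
  rw [c.X_eq, abs_mul]
  have a1 := (c.Ex h).2.1
  have a2 : |E - α'| * |dt uL (o - b)| ≤ (2 * |E|) * (2 * n ^ 2) :=
    mul_le_mul a1 c.h0n (abs_nonneg _) (by positivity)
  have : 0 ≤ n ^ 2 * |E| := by positivity
  linarith

theorem c_Λ (c : StarCtx R B o a b uL w0 n κ E T α) {α' : ℤ} (h : α' = 0 ∨ α' = α) {β : Pt}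
    (hβ : β ∈ insert (adv o uL T) B) : |dt (β - b) (adv o uL α' - b)| ≤ |E| * |E| := by
  refine (c.c_bound h hβ).2.trans (le_trans ?_ c.le_Λ)
  have : 0 ≤ n ^ 2 * |E| := by positivity
  linarith

end StarCtx

end Pool.Agent.K4L
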