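import Pool.Agent.K4L.StarCtx

/-!
# The answer `t` is much nearer than `e`: at most one involved pair
-/

namespace Pool.Agent.K4L

namespace StarCtx

variable {R B : Finset Pt} {o a b uL w0 : Pt} {n κ E T α : ℤ}

/-- consequences of involvement -/
theorem inv (c : StarCtx R B o a b uL w0 n κ E T α) {R2 : Finset Pt} {G τ Dm : ℤ}
    (hR2 : R ⊆ R2) (hg : adv b w0 G ∈ R2) (hDm : 0 ≤ Dm)
    (hG1 : |E| * |E| < |G|)
    (hGM : ∀ α' : ℤ, (α' = 0 ∨ α' = α) → ∃ M, G = dt w0 (adv o uL α' - b) * M ∧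
      ∀ d : ℤ, d ≠ 0 → |d| ≤ Dm → d ∣ M)
    {α' : ℤ} (hα' : α' = 0 ∨ α' = α) {β : Pt} (hβ : β ∈ insert (adv o uL T) B)
    (hbad : ¬ Good R2 (adv b w0 G) (adv o uL α') β (adv b w0 τ)) :
    |τ * dt w0 (adv o uL α' - b) - G * dt w0 (β - b) - dt (β - b) (adv o uL α' - b)| * Dm ≤
      |dt w0 (β - b)| * (|dt (β - b) (adv o uL α' - b)| +
        (|dt w0 (β - b)| + |dt w0 (adv o uL α' - b)|) * |G|) ∨
    (β ∈ B ∧ dt uL (β - b) ≠ 0 ∧ dt uL (β - b) - dt uL (o - b) ≠ 0 ∧
      τ * dt (β - b) (adv o uL α' - b) * dt uL (o - b) =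
        G * (κ * dt w0 (β - b)) * (dt uL (β - b) - dt uL (o - b)) +
          κ * dt (β - b) (adv o uL α' - b) * dt uL (β - b)) := by
  have hn := c.hn
  obtain ⟨M, hM1, hM2⟩ := hGM α' hα'
  have hX0 : dt w0 (adv o uL α' - b) ≠ 0 := by
    intro h
    have e := c.X_eq α'
    rw [h, mul_zero] at e
    exact mul_ne_zero (c.Ex hα').2.2.2 c.h0 e.symm
  have hcb := c.c_bound hα' hβ
  have hcG : |dt (β - b) (adv o uL α' - b)| < |G| := lt_of_le_of_lt (c.c_Λ hα' hβ) hG1
  rcases star_inv (hR2 (c.adv_mem hα')) hg rfl rfl rfl hX0 (c.hh hβ) hcG hDm hM1 hM2 hbad with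
    h | ⟨D, i, q, hD, hDh, hD0, hi0, hd1, hd2, hs, hq⟩
  · exact Or.inl h
  · right
    have hX := c.X_eq α'
    have hh := c.h_eq α' β
    rcases Finset.mem_insert.mp hβ with hβt | hβB
    · -- the answer `t`: impossible
      exfalso
      have ek : dt uL (β - b) = dt uL (o - b) := by
        rw [hβt]; unfold dt adv; simp only [Prod.fst_sub, Prod.snd_sub]; ring
      have ec : dt (β - b) (adv o uL α' - b) = (T - α') * dt uL (o - b) := by
        rw [hβt]; unfold dt adv; simp only [Prod.fst_sub, Prod.snd_sub]; ring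
      have hh' : κ * dt w0 (β - b) = ((E - α') - (T - α')) * dt uL (o - b) := by
        rw [hh, ek, ec]; ring
      have hT' : 10 * n ^ 2 * |T - α'| ≤ |E - α'| := by
        have a1 := abs_sub T α'
        have a2 := c.α'n hα'
        have a3 := (c.Ex hα').1
        have hT := c.hT
        have hT1 := Int.one_le_abs c.T0
        have hE := c.E_big
        -- `10 n^2 (|T| + n) ≤ |E|/2`
        have p24 : n ^ 2 ≤ n ^ 4 := pow_le_pow_right₀ hn (by norm_num)
        have q2 : n ^ 2 * |T| ≤ n ^ 4 * |T| := mul_le_mul_of_nonneg_right p24 (by linarith)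
        have a4 : 10 * n ^ 2 * |T - α'| ≤ 10 * n ^ 2 * (|T| + n) :=
          mul_le_mul_of_nonneg_left (by linarith) (by positivity)
        have e : 10 * n ^ 2 * (|T| + n) = 10 * (n ^ 2 * |T|) + 10 * n ^ 3 := by ring
        have p34 : n ^ 3 ≤ n ^ 4 * |T| := by
          have h1 : n ^ 3 ≤ n ^ 4 := pow_le_pow_right₀ hn (by norm_num)
          have h2 : n ^ 4 ≤ n ^ 4 * |T| := le_mul_of_one_le_right (by positivity) hT1
          linarith
        linarith [hE.2.1]
      have hxb : adv o uL α' - b ≠ 0 := by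
        intro h
        apply hX0
        rw [h]; unfold dt; simp
      have hnear := c.near' (Or.inl (c.adv_mem hα')) (Or.inl c.bR)
      have hcomp : (adv o uL α' - b).1 ≠ 0 ∨ (adv o uL α' - b).2 ≠ 0 := by
        by_contra hc
        apply hxb
        rw [not_or, not_not, not_not] at hc
        exact Prod.ext hc.1 hc.2
      rcases hcomp with hv | hv
      · exact sg_t hn c.κ1 c.κn hX hh' ec c.h0 hcb.1 hT' hD hDh hi0 hv hnear.1 hd1 hq
      · exact sg_t hn c.κ1 c.κn hX hh' ec c.h0 hcb.1 hT' hD hDh hi0 hv hnear.2 hd2 hq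
    · have hc2 : |dt (β - b) (adv o uL α' - b)| ≤ 2 * n ^ 2 :=
        (c.near' (Or.inr hβB) (Or.inl c.bR)).dt (c.near' (Or.inl (c.adv_mem hα')) (Or.inl c.bR))
      obtain ⟨hκD, hk⟩ := sg_near hn c.κ1 c.κn hX hh c.h0 (c.k_bound hβ) hcb.1 hc2
        (c.Ex hα').2.2.1 hD0 hDh hq
      have hκi : κ * i = (E - α') * (dt uL (β - b) - dt uL (o - b)) := by
        have : κ * i = κ * D - κ * dt w0 (adv o uL α' - b) + κ * dt w0 (β - b) := by
          rw [hD]; ring
        rw [this, hκD, hX, hh]; ring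
      refine ⟨hβB, hk, ?_, ?_⟩
      · intro h
        rw [h, mul_zero] at hκi
        have hκ0 : κ ≠ 0 := by have := c.κ1; intro h; linarith
        exact hi0 ((mul_eq_zero.mp hκi).resolve_left hκ0)
      · apply mul_left_cancel₀ (c.Ex hα').2.2.2
        -- multiply the relation by `κ ^ 2`
        have e1 : κ * κ * (τ * dt w0 (adv o uL α' - b) * D) =
            κ * κ * ((D + dt w0 (β - b)) * dt (β - b) (adv o uL α' - b) +
              i * G * dt w0 (β - b)) := by rw [hs]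
        have e2 : κ * κ * (τ * dt w0 (adv o uL α' - b) * D) =
            τ * ((E - α') * dt uL (o - b)) * dt (β - b) (adv o uL α' - b) := by
          rw [← hX]
          linear_combination (κ * τ * dt w0 (adv o uL α' - b)) * hκD
        have e3 : κ * κ * ((D + dt w0 (β - b)) * dt (β - b) (adv o uL α' - b) +
              i * G * dt w0 (β - b)) =
            κ * ((E - α') * dt uL (β - b)) * dt (β - b) (adv o uL α' - b) +
            ((E - α') * (dt uL (β - b) - dt uL (o - b))) * G * (κ * dt w0 (β - b)) := by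
          rw [← hκi]
          linear_combination (κ * dt (β - b) (adv o uL α' - b)) * hκD +
            (κ * dt (β - b) (adv o uL α' - b)) * hh
        rw [e2, e3] at e1
        linear_combination e1

/-- at most one involved pair -/
theorem unique (c : StarCtx R B o a b uL w0 n κ E T α) {R2 : Finset Pt} {G τ Dm : ℤ}
    (hR2 : R ⊆ R2) (hg : adv b w0 G ∈ R2) (hDm : 12 * (|E| * |E|) ^ 3 ≤ Dm)
    (hG1 : 8 * (|E| * |E|) ^ 2 < |G|)
    (hGM : ∀ α' : ℤ, (α' = 0 ∨ α' = α) → ∃ M, G = dt w0 (adv o uL α' - b) * M ∧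
      ∀ d : ℤ, d ≠ 0 → |d| ≤ Dm → d ∣ M)
    {α1 : ℤ} (hα1 : α1 = 0 ∨ α1 = α) {β1 : Pt} (hβ1 : β1 ∈ insert (adv o uL T) B)
    (hbad1 : ¬ Good R2 (adv b w0 G) (adv o uL α1) β1 (adv b w0 τ))
    {α2 : ℤ} (hα2 : α2 = 0 ∨ α2 = α) {β2 : Pt} (hβ2 : β2 ∈ insert (adv o uL T) B)
    (hbad2 : ¬ Good R2 (adv b w0 G) (adv o uL α2) β2 (adv b w0 τ)) : α1 = α2 ∧ β1 = β2 := by
  have hn := c.hn
  have hE1 := c.E_big.2.2.2.1
  have hEE : 1 ≤ |E| * |E| := by nlinarith
  have hEE2 : |E| * |E| ≤ (|E| * |E|) ^ 2 := by nlinarith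
  have hG0 : |E| * |E| < |G| := by nlinarith
  have hDm0 : 0 ≤ Dm := le_trans (by positivity) hDm
  have hκ0 : κ ≠ 0 := by have := c.κ1; intro h; linarith
  have i1 := c.inv hR2 hg hDm0 hG0 hGM hα1 hβ1 hbad1
  have i2 := c.inv hR2 hg hDm0 hG0 hGM hα2 hβ2 hbad2
  -- the general form of the second coordinate
  have gen : ∀ (α' : ℤ) (β : Pt), dt (β - b) (adv o uL α' - b) =
      dt (β - b) (o - b) - α' * dt uL (β - b) := by
    intro α' β
    unfold dt adv; simp only [Prod.fst_sub, Prod.snd_sub]; ring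
  have hSL : ∀ {α1 α2 : ℤ} (_ : α1 = 0 ∨ α1 = α) (_ : α2 = 0 ∨ α2 = α) {β1 β2 : Pt}
      (_ : β1 ∈ insert (adv o uL T) B) (_ : β2 ∈ insert (adv o uL T) B),
      (β1 ∈ B ∧ dt uL (β1 - b) ≠ 0 ∧ dt uL (β1 - b) - dt uL (o - b) ≠ 0 ∧
      τ * dt (β1 - b) (adv o uL α1 - b) * dt uL (o - b) =
        G * (κ * dt w0 (β1 - b)) * (dt uL (β1 - b) - dt uL (o - b)) +
          κ * dt (β1 - b) (adv o uL α1 - b) * dt uL (β1 - b)) →
      |τ * dt w0 (adv o uL α2 - b) - G * dt w0 (β2 - b) - dt (β2 - b) (adv o uL α2 - b)| * Dm ≤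
      |dt w0 (β2 - b)| * (|dt (β2 - b) (adv o uL α2 - b)| +
        (|dt w0 (β2 - b)| + |dt w0 (adv o uL α2 - b)|) * |G|) → False := by
    intro α1 α2 hα1 hα2 β1 β2 hβ1 hβ2 ⟨hB1, hk, hl, hS⟩ hL
    have hc2 : |dt (β1 - b) (adv o uL α1 - b)| ≤ 2 * n ^ 2 :=
      (c.near' (Or.inr hB1) (Or.inl c.bR)).dt (c.near' (Or.inl (c.adv_mem hα1)) (Or.inl c.bR))
    refine sg_SL (Hx' := κ * dt w0 (adv o uL α2 - b)) (Hb' := κ * dt w0 (β2 - b)) hn c.κ1 c.κn
      hc2 c.h0n (c.k_bound hβ1) hk hl (c.h_eq α1 β1) (c.Ex hα1).1 hS c.hE hEE (c.X_Λ hα2)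
      (c.h_Λ hβ2) (c.c_Λ hα2 hβ2) hDm hG1 le_rfl hG0.le rfl ?_ rfl (c.H_bound hβ2) hL
    rw [c.X_eq, abs_mul]
    have a1 := (c.Ex hα2).1
    have a2 := Int.one_le_abs c.h0
    have a3 : |E - α2| ≤ |E - α2| * |dt uL (o - b)| := le_mul_of_one_le_right (abs_nonneg _) a2
    linarith
  have hLL : ∀ {β1 β2 : Pt}, β1 ∈ insert (adv o uL T) B →
      (E - α) * (κ * dt w0 (β1 - b)) = E * (κ * dt w0 (β2 - b)) → False := by
    intro β1 β2 hβ1 h
    have hb := c.c0_bound hβ1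
    have e := c.h_eq 0 β1
    rw [sub_zero] at e
    have e0 : adv o uL 0 = o := by unfold adv; simp
    rw [e0] at e
    rw [e] at h
    refine sg_mod (E := E) (y := α * dt (β1 - b) (o - b))
      (z := κ * dt w0 (β2 - b) - (E - α) * dt uL (β1 - b) + dt (β1 - b) (o - b)) ?_
      (mul_ne_zero c.hα hb.1) hb.2
    linear_combination -h
  rcases i1 with l1 | s1 <;> rcases i2 with l2 | s2
  · -- two large ones
    have h := sg_LL hEE (c.X_Λ hα1) (c.h_Λ hβ1) (c.c_Λ hα1 hβ1) (c.X_Λ hα2) (c.h_Λ hβ2)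
      (c.c_Λ hα2 hβ2) hDm hG1 l1 l2
    -- `Ex' H = Ex H'`
    have h' : (E - α2) * (κ * dt w0 (β1 - b)) = (E - α1) * (κ * dt w0 (β2 - b)) := by
      apply mul_right_cancel₀ c.h0
      have x1 := c.X_eq α1
      have x2 := c.X_eq α2
      linear_combination (κ * κ) * h - (κ * dt w0 (β1 - b)) * x2 + (κ * dt w0 (β2 - b)) * x1
    rcases hα1 with h1 | h1 <;> rcases hα2 with h2 | h2
    · refine ⟨h1.trans h2.symm, ?_⟩
      by_contra hne
      rw [h1, h2] at h'
      have h3 := mul_left_cancel₀ hκ0 (mul_left_cancel₀ (c.Ex (Or.inl rfl)).2.2.2 h')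
      apply c.np hβ2 hβ1 (Ne.symm hne)
      unfold dt at *
      simp only [Prod.fst_sub, Prod.snd_sub] at *
      linarith
    · exfalso
      rw [h1, h2, sub_zero] at h'
      exact hLL hβ1 h'
    · exfalso
      rw [h1, h2, sub_zero] at h'
      exact hLL hβ2 h'.symm
    · refine ⟨h1.trans h2.symm, ?_⟩
      by_contra hne
      rw [h1, h2] at h'
      have h3 := mul_left_cancel₀ hκ0 (mul_left_cancel₀ (c.Ex (Or.inr rfl)).2.2.2 h')
      apply c.np hβ2 hβ1 (Ne.symm hne)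
      unfold dt at *
      simp only [Prod.fst_sub, Prod.snd_sub] at *
      linarith
  · exact (hSL hα2 hα1 hβ2 hβ1 s2 l1).elim
  · exact (hSL hα1 hα2 hβ1 hβ2 s1 l2).elim
  · -- two special ones
    obtain ⟨hB1, hk1, hl1, hS1⟩ := s1
    obtain ⟨hB2, hk2, hl2, hS2⟩ := s2
    have b1 : |dt (β1 - b) (adv o uL α1 - b)| ≤ 2 * n ^ 2 :=
      (c.near' (Or.inr hB1) (Or.inl c.bR)).dt (c.near' (Or.inl (c.adv_mem hα1)) (Or.inl c.bR))
    have b2 : |dt (β2 - b) (adv o uL α2 - b)| ≤ 2 * n ^ 2 :=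
      (c.near' (Or.inr hB2) (Or.inl c.bR)).dt (c.near' (Or.inl (c.adv_mem hα2)) (Or.inl c.bR))
    have hGs : |κ * dt (β1 - b) (adv o uL α1 - b) * dt (β2 - b) (adv o uL α2 - b) *
        (dt uL (β1 - b) - dt uL (β2 - b))| < |G| := by
      rw [abs_mul, abs_mul, abs_mul, abs_of_pos (show 0 < κ by have := c.κ1; linarith)]
      have a1 := abs_sub (dt uL (β1 - b)) (dt uL (β2 - b))
      have a2 := c.k_bound hβ1
      have a3 := c.k_bound hβ2
      have a4 : κ * |dt (β1 - b) (adv o uL α1 - b)| ≤ n * (2 * n ^ 2) :=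
        mul_le_mul c.κn b1 (abs_nonneg _) (by linarith)
      have a5 : κ * |dt (β1 - b) (adv o uL α1 - b)| * |dt (β2 - b) (adv o uL α2 - b)| ≤
          n * (2 * n ^ 2) * (2 * n ^ 2) := mul_le_mul a4 b2 (abs_nonneg _) (by positivity)
      have a6 : κ * |dt (β1 - b) (adv o uL α1 - b)| * |dt (β2 - b) (adv o uL α2 - b)| *
          |dt uL (β1 - b) - dt uL (β2 - b)| ≤ n * (2 * n ^ 2) * (2 * n ^ 2) * (4 * n ^ 2) :=
        mul_le_mul a5 (by linarith) (abs_nonneg _) (by positivity)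
      have e : n * (2 * n ^ 2) * (2 * n ^ 2) * (4 * n ^ 2) = 16 * n ^ 7 := by ring
      have p7 : n ^ 7 ≤ n ^ 10 := pow_le_pow_right₀ hn (by norm_num)
      have hE := c.hE
      have hEE' : |E| ≤ |E| * |E| := le_mul_of_one_le_right (abs_nonneg _) (by linarith)
      have : 0 ≤ n ^ 10 := by positivity
      linarith
    obtain ⟨hk, hc⟩ := sg_SS hκ0 (c.c_bound hα1 hβ1).1 (c.c_bound hα2 hβ2).1 hk1 hl1
      (c.h_eq α1 β1) (c.h_eq α2 β2) hGs hS1 hS2
    have g1 := gen α1 β1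
    have g2 := gen α2 β2
    have same : ∀ α' : ℤ, α' = 0 ∨ α' = α → α1 = α' → α2 = α' → β1 = β2 := by
      intro α' hα' h1 h2
      rw [h1, h2] at hc
      have h3 := mul_right_cancel₀ (c.Ex hα').2.2.2 hc
      have e1 : dt uL (β1 - β2) = 0 := by
        have : dt uL (β1 - β2) = dt uL (β1 - b) - dt uL (β2 - b) := by
          unfold dt; simp only [Prod.fst_sub, Prod.snd_sub]; ring
        rw [this, hk]; ring
      have e2 : dt (β1 - β2) (adv o uL α' - b) = 0 := by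
        have : dt (β1 - β2) (adv o uL α' - b) = dt (β1 - b) (adv o uL α' - b) -
            dt (β2 - b) (adv o uL α' - b) := by
          unfold dt; simp only [Prod.fst_sub, Prod.snd_sub]; ring
        rw [this, h3]; ring
      by_contra hne
      have hne' : β1 - β2 ≠ 0 := sub_ne_zero.mpr hne
      have e3 : dt (β1 - β2) uL = 0 := by rw [dt_swap, e1, neg_zero]
      have e4 := dt_par hne' e3 e2
      apply c.h0
      have : dt uL (adv o uL α' - b) = dt uL (o - b) := by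
        unfold dt adv; simp only [Prod.fst_sub, Prod.snd_sub]; ring
      rw [← this]; exact e4
    rcases hα1 with h1 | h1 <;> rcases hα2 with h2 | h2
    · exact ⟨h1.trans h2.symm, same 0 (Or.inl rfl) h1 h2⟩
    · exfalso
      -- `c2 E = c1 (E - α)`
      have hb := c.c0_bound hβ1
      rw [h1, zero_mul, sub_zero] at g1
      rw [h1] at hc
      rw [g1, h2, sub_zero] at hc
      refine sg_mod (E := E) (y := α * dt (β1 - b) (o - b))
        (z := dt (β1 - b) (o - b) - dt (β2 - b) (adv o uL α - b)) ?_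
        (mul_ne_zero c.hα hb.1) hb.2
      linear_combination -hc
    · exfalso
      have hb := c.c0_bound hβ2
      rw [h2, zero_mul, sub_zero] at g2
      rw [h2] at hc
      rw [g2, h1, sub_zero] at hc
      refine sg_mod (E := E) (y := α * dt (β2 - b) (o - b))
        (z := dt (β2 - b) (o - b) - dt (β1 - b) (adv o uL α - b)) ?_
        (mul_ne_zero c.hα hb.1) hb.2
      linear_combination hc
    · exact ⟨h1.trans h2.symm, same α (Or.inr rfl) h1 h2⟩

end StarCtx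

end Pool.Agent.K4L
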