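import Pool.Agent.K4L.LemCV

/-!
# Lines through near points and two edges of a far point
-/

namespace Pool.Agent.K4L

theorem num_id {η K S C A D M : ℤ} (hS : S ≠ 0) (hM : 1 ≤ M) (hC : |C| ≤ M)
    (hA : |A| ≤ M) (hD : |D| ≤ M) (hK : 8 * M ^ 2 < |K|) (h : η * (K * S + C) = K * A + D) :
    η * S = A ∧ η * C = D := by
  have hS1 := Int.one_le_abs hS
  have hM2 : M ≤ M ^ 2 := by nlinarith
  have hKn := abs_nonneg K
  have hηn := abs_nonneg η
  have e1 : |η| * |K * S + C| = |K * A + D| := by rw [← abs_mul, h]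
  have e2 : |K * A + D| ≤ |K| * M + M := by
    refine le_trans (abs_add_le _ _) ?_
    rw [abs_mul]
    have := mul_le_mul_of_nonneg_left hA hKn
    linarith
  have e3 : |K| - M ≤ |K * S + C| := by
    have f := tri_lo2 (K * S) C
    rw [abs_mul] at f
    have : |K| ≤ |K| * |S| := by nlinarith
    linarith
  have e4 : |K| ≤ 2 * |K * S + C| := by nlinarith
  have e5 : |K * A + D| ≤ 2 * M * |K| := by nlinarith
  have e6 : |η| * |K| ≤ 4 * M * |K| := by
    have := mul_le_mul_of_nonneg_left e4 hηn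
    nlinarith
  have hK0 : 0 < |K| := by nlinarith
  have e7 : |η| ≤ 4 * M := le_of_mul_le_mul_right e6 hK0
  have key : K * (η * S - A) = D - η * C := by linear_combination h
  have e8 : |D - η * C| ≤ 5 * M ^ 2 := by
    refine le_trans (abs_sub _ _) ?_
    rw [abs_mul]
    have := mul_le_mul e7 hC (abs_nonneg _) (by linarith)
    nlinarith
  have hz : η * S - A = 0 := by
    by_contra hne
    have g1 := Int.one_le_abs hne
    have g2 : |K| * |η * S - A| = |D - η * C| := by rw [← abs_mul, key]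
    nlinarith
  refine ⟨by linarith, ?_⟩
  rw [hz, mul_zero] at key
  linarith

theorem two_edge_Z (u X X2 β τ t : Pt) (K : ℤ)
    (hi : dt X τ + K * (dt u X - dt u τ) = 0)
    (hii : dt X2 t + K * (dt u X2 - dt u t) = 0)
    (hiii : dt (τ - β) (t - β) = 0) :
    dt u t * (K * (dt u X2 * (dt u X - dt u τ) - dt u X * (dt u β - dt u τ)) +
      (dt u τ * dt X X2 - dt u X * dt β X2)) =
    K * (dt u X2 * dt u τ * (dt u X - dt u β)) + dt u X2 * dt u τ * dt X β := by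
  unfold dt at *
  simp only [Prod.fst_sub, Prod.snd_sub] at *
  linear_combination ((u.1 * X.2 - u.2 * X.1) * (u.1 * X2.2 - u.2 * X2.1)) * hiii -
    (u.1 * X.2 - u.2 * X.1) * ((u.1 * τ.2 - u.2 * τ.1) - (u.1 * β.2 - u.2 * β.1)) * hii +
    (u.1 * X2.2 - u.2 * X2.1) * ((u.1 * t.2 - u.2 * t.1) - (u.1 * β.2 - u.2 * β.1)) * hi

theorem two_edge_P (u X X2 β t : Pt) (K : ℤ)
    (hii : dt X2 t + K * (dt u X2 - dt u t) = 0)
    (hp : dt X (t - β) - K * dt u (t - β) = 0) :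
    dt u t * (K * (dt u X - dt u X2) + dt X X2) =
    K * (dt u X2 * (dt u X - dt u β)) + dt u X2 * dt X β := by
  unfold dt at *
  simp only [Prod.fst_sub, Prod.snd_sub] at *
  linear_combination (u.1 * X2.2 - u.2 * X2.1) * hp - (u.1 * X.2 - u.2 * X.1) * hii

/-- the bound for the coefficients -/
theorem coef_bd {n2 a b c : ℤ} (h1 : |a| ≤ 2 * n2 ^ 2) (h2 : |b| ≤ 2 * n2 ^ 2)
    (h3 : |c| ≤ 4 * n2 ^ 2) : |a * b * c| ≤ 16 * n2 ^ 6 := by
  rw [abs_mul, abs_mul]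
  have p1 : |a| * |b| ≤ 2 * n2 ^ 2 * (2 * n2 ^ 2) :=
    mul_le_mul h1 h2 (abs_nonneg _) (by positivity)
  have p2 : |a| * |b| * |c| ≤ 2 * n2 ^ 2 * (2 * n2 ^ 2) * (4 * n2 ^ 2) :=
    mul_le_mul p1 h3 (abs_nonneg _) (by positivity)
  linarith [p2]

theorem two_edge_Z' {n2 K : ℤ} {u X X2 β τ t : Pt} (hn : 1 ≤ n2)
    (nu : Nv n2 u) (nX : Nv n2 X) (nX2 : Nv n2 X2) (nβ : Nv n2 β)
    (hτ : |dt u τ| ≤ 2 * n2 ^ 2) (hτ0 : dt u τ ≠ 0)
    (hX : dt u X ≠ 0) (hX2 : dt u X2 ≠ 0)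
    (hS : dt u X2 * (dt u X - dt u τ) - dt u X * (dt u β - dt u τ) ≠ 0)
    (hK : 8 * (16 * n2 ^ 6) ^ 2 < |K|)
    (hi : dt X τ + K * (dt u X - dt u τ) = 0)
    (hii : dt X2 t + K * (dt u X2 - dt u t) = 0)
    (hiii : dt (τ - β) (t - β) = 0) :
    dt u β = dt u τ ∨ dt (X2 - X) (β - X) = 0 := by
  have h := two_edge_Z u X X2 β τ t K hi hii hiii
  have b1 := nu.dt nX
  have b2 := nu.dt nX2
  have bβ := nu.dt nβ
  have b12 := nX.dt nX2
  have b1β := nX.dt nβ
  have bβ2 := nβ.dt nX2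
  have hn6 : (1 : ℤ) ≤ 16 * n2 ^ 6 := by
    have := one_le_pow₀ (n := 6) hn
    linarith
  have hn4 : n2 ^ 4 ≤ n2 ^ 6 := pow_le_pow_right₀ hn (by norm_num)
  obtain ⟨e1, e2⟩ := num_id (M := 16 * n2 ^ 6) hS hn6 (by
      have f1 := abs_sub (dt u τ * dt X X2) (dt u X * dt β X2)
      rw [abs_mul, abs_mul] at f1
      have g1 : |dt u τ| * |dt X X2| ≤ 2 * n2 ^ 2 * (2 * n2 ^ 2) :=
        mul_le_mul hτ b12 (abs_nonneg _) (by positivity)
      have g2 : |dt u X| * |dt β X2| ≤ 2 * n2 ^ 2 * (2 * n2 ^ 2) :=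
        mul_le_mul b1 bβ2 (abs_nonneg _) (by positivity)
      have : 2 * n2 ^ 2 * (2 * n2 ^ 2) = 4 * n2 ^ 4 := by ring
      have hp : 0 ≤ n2 ^ 6 := by positivity
      linarith) (by
      refine coef_bd b2 hτ ?_
      have f1 := abs_sub (dt u X) (dt u β)
      linarith) (by
      refine coef_bd b2 hτ ?_
      have : 0 ≤ n2 ^ 2 := by positivity
      linarith) hK h
  -- the identity
  have e3 : (dt u X - dt u β) * (dt u τ * dt X X2 - dt u X * dt β X2) =
      (dt u X2 * (dt u X - dt u τ) - dt u X * (dt u β - dt u τ)) * dt X β := by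
    apply mul_left_cancel₀ (mul_ne_zero hX2 hτ0)
    calc dt u X2 * dt u τ * ((dt u X - dt u β) * (dt u τ * dt X X2 - dt u X * dt β X2))
        = (dt u X2 * dt u τ * (dt u X - dt u β)) * (dt u τ * dt X X2 - dt u X * dt β X2) := by
          ring
      _ = (dt u t * (dt u X2 * (dt u X - dt u τ) - dt u X * (dt u β - dt u τ))) *
          (dt u τ * dt X X2 - dt u X * dt β X2) := by rw [e1]
      _ = (dt u X2 * (dt u X - dt u τ) - dt u X * (dt u β - dt u τ)) *
          (dt u t * (dt u τ * dt X X2 - dt u X * dt β X2)) := by ring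
      _ = (dt u X2 * (dt u X - dt u τ) - dt u X * (dt u β - dt u τ)) *
          (dt u X2 * dt u τ * dt X β) := by rw [e2]
      _ = _ := by ring
  have e4 : (dt u β - dt u τ) * (dt u X * dt (X2 - X) (β - X)) = 0 := by
    unfold dt at *
    simp only [Prod.fst_sub, Prod.snd_sub] at *
    linear_combination -e3
  rcases mul_eq_zero.mp e4 with h5 | h5
  · left; linarith
  · right; exact (mul_eq_zero.mp h5).resolve_left hX

theorem two_edge_P' {n2 K : ℤ} {u X X2 β t : Pt} (hn : 1 ≤ n2)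
    (nu : Nv n2 u) (nX : Nv n2 X) (nX2 : Nv n2 X2) (nβ : Nv n2 β)
    (hX : dt u X ≠ 0) (hX2 : dt u X2 ≠ 0) (hS : dt u X ≠ dt u X2)
    (hK : 8 * (16 * n2 ^ 6) ^ 2 < |K|)
    (hii : dt X2 t + K * (dt u X2 - dt u t) = 0)
    (hp : dt X (t - β) - K * dt u (t - β) = 0) :
    dt (X2 - X) (β - X) = 0 := by
  have h := two_edge_P u X X2 β t K hii hp
  have b1 := nu.dt nX
  have b2 := nu.dt nX2
  have bβ := nu.dt nβ
  have b12 := nX.dt nX2
  have b1β := nX.dt nβ
  have hn6 : (1 : ℤ) ≤ 16 * n2 ^ 6 := by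
    have := one_le_pow₀ (n := 6) hn
    linarith
  have hn4 : n2 ^ 4 ≤ n2 ^ 6 := pow_le_pow_right₀ hn (by norm_num)
  have hn2 : n2 ^ 2 ≤ n2 ^ 6 := pow_le_pow_right₀ hn (by norm_num)
  have hp6 : 0 ≤ n2 ^ 6 := by positivity
  obtain ⟨e1, e2⟩ := num_id (M := 16 * n2 ^ 6) (sub_ne_zero.mpr hS) hn6 (by linarith) (by
      have f1 := abs_sub (dt u X) (dt u β)
      rw [abs_mul]
      have g1 : |dt u X2| * |dt u X - dt u β| ≤ 2 * n2 ^ 2 * (4 * n2 ^ 2) :=
        mul_le_mul b2 (by linarith) (abs_nonneg _) (by positivity)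
      have : 2 * n2 ^ 2 * (4 * n2 ^ 2) = 8 * n2 ^ 4 := by ring
      linarith) (by
      rw [abs_mul]
      have g1 : |dt u X2| * |dt X β| ≤ 2 * n2 ^ 2 * (2 * n2 ^ 2) :=
        mul_le_mul b2 b1β (abs_nonneg _) (by positivity)
      have : 2 * n2 ^ 2 * (2 * n2 ^ 2) = 4 * n2 ^ 4 := by ring
      linarith) hK h
  have e3 : (dt u X - dt u β) * dt X X2 = (dt u X - dt u X2) * dt X β := by
    apply mul_left_cancel₀ hX2
    calc dt u X2 * ((dt u X - dt u β) * dt X X2)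
        = (dt u X2 * (dt u X - dt u β)) * dt X X2 := by ring
      _ = (dt u t * (dt u X - dt u X2)) * dt X X2 := by rw [e1]
      _ = (dt u X - dt u X2) * (dt u t * dt X X2) := by ring
      _ = (dt u X - dt u X2) * (dt u X2 * dt X β) := by rw [e2]
      _ = _ := by ring
  have e4 : dt u X * dt (X2 - X) (β - X) = 0 := by
    unfold dt at *
    simp only [Prod.fst_sub, Prod.snd_sub] at *
    linear_combination e3
  exact (mul_eq_zero.mp e4).resolve_left hX

end Pool.Agent.K4L
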