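import Pool.Agent.K4L.TwoGenA

/-!
# Branch (II): `c` far on `p q`, third blue stone off the sides
-/

namespace Pool.Agent.K4L

theorem ii_fin {R B : Finset Pt} {X Y c r β β' : Pt} (hN : NoThreat R B)
    (hB : ∀ z ∈ B, z ∉ R) (hBm : ∀ z ∈ B, z = β ∨ z = β' ∨ z = r)
    (hXY : ALine R B X Y) (hU : Uncov R B X Y) (hXc : ALine R B X c) (hcY : ALine R B c Y)
    (hcol : ¬ Col X Y c) (hc : Col β β' c) (hβr : β ≠ r)
    (hno : ∀ z, Col X c z → z ∉ R → Col β' r z → ∃ w ∈ R, Col β' r w)
    (hLm : (∃ z, Col X c z ∧ z ∉ R ∧ Col β r z) → (∀ w ∈ R, ¬ Col β r w) →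
      ¬ Par X Y β r ∧ ¬ Par c Y β r) : Win R B := by
  have hcR := hXc.2.1
  have hMU : ∀ z, Col X c z → z ∉ R → ∀ γ ∈ B, ∀ γ' ∈ B, γ ≠ γ' → Col γ γ' z →
      (∃ w ∈ R, Col γ γ' w) ∨ (Col β r γ ∧ Col β r γ') := by
    intro z hz hzR γ hγ γ' hγ' hne hcz
    rcases hBm γ hγ with rfl | rfl | rfl
    · rcases hBm γ' hγ' with rfl | rfl | rfl
      · exact absurd rfl hne
      · exact Or.inl ⟨c, hcR, hc⟩
      · exact Or.inr ⟨Col.refl_left _ _, Col.refl_right _ _⟩
    · rcases hBm γ' hγ' with rfl | rfl | rfl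
      · exact Or.inl ⟨c, hcR, hc.swap12⟩
      · exact absurd rfl hne
      · exact Or.inl (hno z hz hzR hcz)
    · rcases hBm γ' hγ' with rfl | rfl | rfl
      · exact Or.inr ⟨Col.refl_right _ _, Col.refl_left _ _⟩
      · obtain ⟨w, hw, hw'⟩ := hno z hz hzR hcz.swap12
        exact Or.inl ⟨w, hw, hw'.swap12⟩
      · exact absurd rfl hne
  by_cases hhit : (∃ z, Col X c z ∧ z ∉ R ∧ Col β r z) ∧ ∀ w ∈ R, ¬ Col β r w
  · obtain ⟨h1, h2⟩ := hLm hhit.1 hhit.2
    obtain ⟨⟨z, hz1, hz2, hz3⟩, hal⟩ := hhit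
    refine lb3 (o := X) (a := Y) (b := c) (p := β) (q := r) (Y := z) hN hB hXY hU hXc hcY hβr
      hz1 hz3 hz2 hal hMU hcol h1 h2 ?_
    intro γ hγ γ' hγ' hne hp
    rcases hBm γ hγ with rfl | rfl | rfl
    · exact Or.inr (Col.refl_left _ _)
    · rcases hBm γ' hγ' with rfl | rfl | rfl
      · exact Or.inl ⟨c, hcR, hc.swap12⟩
      · exact absurd rfl hne
      · right
        unfold Par at hp
        unfold Col
        linear_combination -hp
    · exact Or.inr (Col.refl_right _ _)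
  · have hU2 : Uncov R B X c := by
      intro z hz hzR hzB γ hγ γ' hγ' hne hcz
      rcases hMU z hz hzR γ hγ γ' hγ' hne hcz with hd | ⟨g1, g2⟩
      · exact hd
      · by_contra hcon
        apply hhit
        have hl : ∀ w, Col β r w ↔ Col γ γ' w := fun w => Col.line_iff hβr hne g1 g2
        refine ⟨⟨z, hz, hzR, (hl z).mpr hcz⟩, ?_⟩
        intro w hw hw'
        exact hcon ⟨w, hw, (hl w).mp hw'⟩
    exact w0_tri (o := X) (a := Y) (b := c) hN hB hXY hU hXc hU2 hcY hcol

theorem ii_norm {a1 a2 b1 b2 g : ℤ} (hg : g ≠ 0) (ha2 : a2 ≠ 0) (hb2 : b2 ≠ 0) (hab : a2 ≠ b2)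
    (hDp : b1 * a2 - b2 * a1 ≠ 0) (hDq : (b1 - g) * a2 - b2 * (a1 - g) ≠ 0) :
    ∃ N0 : ℤ, ∀ N : ℤ, N0 ≤ N → ∀ r : Pt, r ≠ (0, 0) → r ≠ (g, 0) →
      ¬ Col (a1, a2) (b1, b2) r → ¬ Col (a1, a2) (N, 0) r → ¬ Col (b1, b2) (N, 0) r →
      Win {(a1, a2), (b1, b2), (N, 0)} {(0, 0), (g, 0), r} := by
  obtain ⟨M, hMdef⟩ : ∃ M : ℤ, M = 1 + |a1| + |a2| + |b1| + |b2| + |g| := ⟨_, rfl⟩
  have n1 := abs_nonneg a1
  have n2 := abs_nonneg a2
  have n3 := abs_nonneg b1
  have n4 := abs_nonneg b2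
  have n5 := abs_nonneg g
  have hM : 1 ≤ M := by linarith
  have hM2 : 1 ≤ M ^ 2 := by nlinarith
  have hM3 : M ^ 2 ≤ M ^ 3 := by nlinarith
  have hM4 : M ^ 3 ≤ M ^ 4 := by nlinarith [pow_pos (show (0:ℤ) < M by linarith) 3]
  have hM6 : M ^ 4 ≤ M ^ 6 := by nlinarith [pow_pos (show (0:ℤ) < M by linarith) 4]
  have hMM : M ≤ M ^ 2 := by nlinarith
  refine ⟨1000 * M ^ 6, ?_⟩
  intro N hN r hr1 hr2 hab' hac hbc
  obtain ⟨x, y⟩ := r
  have hN0 : 0 < N := by linarith
  have hNM : M < N := by linarith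
  -- bounds for both origins
  have bd : ∀ s : ℤ, (s = 0 ∨ s = g) → |a1 - s| ≤ M ∧ |b1 - s| ≤ M ∧ |s| ≤ M := by
    intro s hs
    rcases hs with rfl | rfl
    · simp only [sub_zero, abs_zero]
      exact ⟨by linarith, by linarith, by linarith⟩
    · have h1 := abs_sub a1 s
      have h2 := abs_sub b1 s
      exact ⟨by linarith, by linarith, by linarith⟩
  have bD : ∀ s : ℤ, (s = 0 ∨ s = g) → (b1 - s) * a2 - b2 * (a1 - s) ≠ 0 := by
    intro s hs
    rcases hs with rfl | rfl
    · simpa using hDp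
    · exact hDq
  set R : Finset Pt := {(a1, a2), (b1, b2), (N, 0)} with hR
  set B : Finset Pt := {(0, 0), (g, 0), (x, y)} with hB
  have aR : ((a1, a2) : Pt) ∈ R := by simp [hR]
  have bR : ((b1, b2) : Pt) ∈ R := by simp [hR]
  have cR : ((N, 0) : Pt) ∈ R := by simp [hR]
  have Bm : ∀ z ∈ B, z = (0, 0) ∨ z = (g, 0) ∨ z = (x, y) := by
    intro z hz
    simpa [hB] using hz
  have Bm' : ∀ z ∈ B, z = (g, 0) ∨ z = (0, 0) ∨ z = (x, y) := by
    intro z hz
    rcases Bm z hz with h | h | h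
    · exact Or.inr (Or.inl h)
    · exact Or.inl h
    · exact Or.inr (Or.inr h)
  have Rm : ∀ z ∈ R, z = (a1, a2) ∨ z = (b1, b2) ∨ z = (N, 0) := by
    intro z hz
    simpa [hR] using hz
  have hgN : g ≠ N := by
    rintro rfl
    have := le_abs_self g
    linarith
  have rR : ((x, y) : Pt) ∉ R := by
    intro h
    rcases Rm _ h with h | h | h
    · rw [h] at hac; exact hac (Col.refl_left _ _)
    · rw [h] at hbc; exact hbc (Col.refl_left _ _)
    · rw [h] at hac; exact hac (Col.refl_right _ _)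
  have hBR : ∀ z ∈ B, z ∉ R := by
    intro z hz hzR
    rcases Bm z hz with rfl | rfl | rfl
    · rcases Rm _ hzR with h | h | h
      · exact ha2 (congrArg Prod.snd h).symm
      · exact hb2 (congrArg Prod.snd h).symm
      · have := congrArg Prod.fst h
        simp only at this
        linarith
    · rcases Rm _ hzR with h | h | h
      · exact ha2 (congrArg Prod.snd h).symm
      · exact hb2 (congrArg Prod.snd h).symm
      · exact hgN (congrArg Prod.fst h)
    · exact rR hzR
  -- a blue triple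
  have hNT : NoThreat R B := by
    intro u hu v hv w hw h1 h2 h3 h4
    have hy0 : y = 0 := by
      have : g * y = 0 := by
        rcases Bm u hu with rfl | rfl | rfl <;> rcases Bm v hv with rfl | rfl | rfl <;>
          rcases Bm w hw with rfl | rfl | rfl <;>
          first
          | exact absurd rfl h1
          | exact absurd rfl h2
          | exact absurd rfl h3
          | (unfold Col at h4; simp only at h4; linear_combination h4)
          | (unfold Col at h4; simp only at h4; linear_combination -h4)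
      exact (mul_eq_zero.mp this).resolve_left hg
    have hs : ∀ z ∈ B, z.2 = 0 := by
      intro z hz
      rcases Bm z hz with rfl | rfl | rfl
      · rfl
      · rfl
      · exact hy0
    refine ⟨(N, 0), cR, ?_⟩
    unfold Col
    rw [hs u hu, hs v hv]
    ring
  -- alive sides
  have Dne : a1 * b2 - a2 * b1 ≠ 0 := by
    intro h; apply hDp; linarith
  have sab : ∀ s : ℤ, (s = 0 ∨ s = g) → ¬ Col (a1, a2) (b1, b2) (s, 0) := by
    intro s hs h
    apply bD s hs
    unfold Col at h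
    simp only at h
    linear_combination -h
  have sXc : ∀ X1 X2 s : ℤ, X2 ≠ 0 → (s = 0 ∨ s = g) → ¬ Col (X1, X2) (N, 0) (s, 0) := by
    intro X1 X2 s hX hs h
    have hsN : s ≠ N := by
      rcases hs with rfl | rfl
      · exact hN0.ne
      · exact hgN
    unfold Col at h
    simp only at h
    have : X2 * (s - N) = 0 := by linear_combination h
    rcases mul_eq_zero.mp this with h' | h'
    · exact hX h'
    · exact hsN (by linarith)
  have hneab : ((a1, a2) : Pt) ≠ (b1, b2) := by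
    intro h; exact hab (congrArg Prod.snd h)
  have hneac : ((a1, a2) : Pt) ≠ (N, 0) := by
    intro h; exact ha2 (congrArg Prod.snd h)
  have hnebc : ((b1, b2) : Pt) ≠ (N, 0) := by
    intro h; exact hb2 (congrArg Prod.snd h)
  have Aab : ALine R B (a1, a2) (b1, b2) := by
    refine ⟨aR, bR, hneab, ?_⟩
    intro z hz
    rcases Bm z hz with rfl | rfl | rfl
    · exact sab 0 (Or.inl rfl)
    · exact sab g (Or.inr rfl)
    · exact hab'
  have Aac : ALine R B (a1, a2) (N, 0) := by
    refine ⟨aR, cR, hneac, ?_⟩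
    intro z hz
    rcases Bm z hz with rfl | rfl | rfl
    · exact sXc a1 a2 0 ha2 (Or.inl rfl)
    · exact sXc a1 a2 g ha2 (Or.inr rfl)
    · exact hac
  have Abc : ALine R B (b1, b2) (N, 0) := by
    refine ⟨bR, cR, hnebc, ?_⟩
    intro z hz
    rcases Bm z hz with rfl | rfl | rfl
    · exact sXc b1 b2 0 hb2 (Or.inl rfl)
    · exact sXc b1 b2 g hb2 (Or.inr rfl)
    · exact hbc
  have hcol : ¬ Col (a1, a2) (b1, b2) (N, 0) := by
    intro h
    unfold Col at h
    simp only at h
    have e1 : N * (b2 - a2) = a1 * b2 - a2 * b1 := by linear_combination -h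
    have g1 := Int.one_le_abs (sub_ne_zero.mpr hab.symm)
    have e2 : N * |b2 - a2| = |a1 * b2 - a2 * b1| := by
      rw [← e1, abs_mul, abs_of_pos hN0]
    have e3 : |a1 * b2 - a2 * b1| ≤ 2 * M ^ 2 := by
      have h1 := abs_sub (a1 * b2) (a2 * b1)
      rw [abs_mul, abs_mul] at h1
      have q1 : |a1| * |b2| ≤ M * M := mul_le_mul (by linarith) (by linarith) n4 (by linarith)
      have q2 : |a2| * |b1| ≤ M * M := mul_le_mul (by linarith) (by linarith) n3 (by linarith)
      nlinarith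
    nlinarith
  have cpq : Col ((0 : ℤ), (0 : ℤ)) (g, 0) (N, 0) := by unfold Col; simp
  by_cases hy : y = 0
  · -- all blue lines are dead
    have dead : ∀ u ∈ B, ∀ v ∈ B, ∃ w ∈ R, Col u v w := by
      intro u hu v hv
      have hs : ∀ z ∈ B, z.2 = 0 := by
        intro z hz
        rcases Bm z hz with rfl | rfl | rfl
        · rfl
        · rfl
        · exact hy
      refine ⟨(N, 0), cR, ?_⟩
      unfold Col
      rw [hs u hu, hs v hv]
      ring
    exact w0_tri (o := (N, 0)) (a := (a1, a2)) (b := (b1, b2)) hNT hBR Aac.symm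
      (fun z _ _ _ u hu v hv _ _ => dead u hu v hv) Abc.symm
      (fun z _ _ _ u hu v hv _ _ => dead u hu v hv) Aab.symm
      (fun h => hcol h.rot)
  · -- incidences
    have key : ∀ X1 X2 s z1 z2 : ℤ, Col (X1, X2) (N, 0) (z1, z2) → Col (s, 0) (x, y) (z1, z2) →
        z2 * (X2 * (x - s) - (X1 - s) * y + (N - s) * y) = (N - s) * y * X2 := by
      intro X1 X2 s z1 z2 h1 h2
      unfold Col at h1 h2
      simp only at h1 h2
      linear_combination y * h1 + X2 * h2
    have kne : ∀ X1 X2 s z1 z2 : ℤ, ¬ Col (X1, X2) (N, 0) (x, y) → Col (X1, X2) (N, 0) (z1, z2) →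
        Col (s, 0) (x, y) (z1, z2) → z2 ≠ y := by
      intro X1 X2 s z1 z2 h0 h1 h2 h3
      apply h0
      have : z1 = x := by
        unfold Col at h2
        simp only at h2
        rw [h3] at h2
        have : y * (z1 - x) = 0 := by linear_combination -h2
        rcases mul_eq_zero.mp this with h | h
        · exact absurd h hy
        · linarith
      rw [this, h3] at h1
      exact h1
    -- a hit gives a small slope
    have big : ∀ X1 X2 s z1 z2 : ℤ, (s = 0 ∨ s = g) → |X1 - s| ≤ M → |X2| ≤ M → X2 ≠ 0 →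
        ¬ Col (s, 0) (x, y) (X1, X2) → Col (X1, X2) (N, 0) (z1, z2) →
        Col (s, 0) (x, y) (z1, z2) →
        ∀ s', (s' = 0 ∨ s' = g) → 5 * M ^ 2 * |y| ≤ |x - s'| := by
      intro X1 X2 s z1 z2 hs hX1 hX2 hX0 hal h1 h2 s' hs'
      have e1 := ii_big hM hX1 hX2 hX0 hy (by
        intro h
        apply hal
        unfold Col
        simp only
        linear_combination h) (by
        have := (bd s hs).2.2
        have := le_abs_self s
        nlinarith) (key X1 X2 s z1 z2 h1 h2)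
      have g3 := Int.one_le_abs hy
      have f1 := (bd s hs).2.2
      have f2 := (bd s' hs').2.2
      have f3 : |x - s| ≤ |x - s'| + 2 * M := by
        have : x - s = (x - s') + (s' - s) := by ring
        rw [this]
        refine le_trans (abs_add_le _ _) ?_
        have := abs_sub s' s
        linarith
      have f4 : N - M ≤ N - s := by
        have := le_abs_self s
        linarith
      have f5 : (N - M) * |y| ≤ 4 * M ^ 2 * (|x - s'| + 2 * M) := by
        calc (N - M) * |y| ≤ (N - s) * |y| := mul_le_mul_of_nonneg_right f4 (abs_nonneg _)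
          _ ≤ 4 * M ^ 2 * |x - s| := e1
          _ ≤ _ := mul_le_mul_of_nonneg_left f3 (by positivity)
      have f6 : (20 * M ^ 4 + 8 * M ^ 3) * |y| ≤ (N - M) * |y| :=
        mul_le_mul_of_nonneg_right (by linarith) (abs_nonneg _)
      have f7 : 8 * M ^ 3 ≤ 8 * M ^ 3 * |y| := by
        have : 0 ≤ 8 * M ^ 3 := by positivity
        nlinarith
      have f8 : 4 * M ^ 2 * (5 * M ^ 2 * |y|) ≤ 4 * M ^ 2 * |x - s'| := by
        have : 4 * M ^ 2 * (|x - s'| + 2 * M) = 4 * M ^ 2 * |x - s'| + 8 * M ^ 3 := by ring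
        have h' : 4 * M ^ 2 * (5 * M ^ 2 * |y|) = 20 * M ^ 4 * |y| := by ring
        rw [h']
        linarith
      exact le_of_mul_le_mul_left f8 (by positivity)
    -- the hit predicate
    have hitc : ∀ X1 X2 : ℤ, ((X1, X2) : Pt) ∈ R → |X1| ≤ M → |X1 - g| ≤ M → |X2| ≤ M → X2 ≠ 0 →
        ∀ s, (s = 0 ∨ s = g) → (∃ z, Col (X1, X2) (N, 0) z ∧ z ∉ R ∧ Col (s, 0) (x, y) z) →
        (∀ w ∈ R, ¬ Col (s, 0) (x, y) w) → ∀ s', (s' = 0 ∨ s' = g) →
          5 * M ^ 2 * |y| ≤ |x - s'| := by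
      intro X1 X2 hXR q1 q2 q3 q4 s hs hz hal
      obtain ⟨⟨z1, z2⟩, h1, _, h2⟩ := hz
      refine big X1 X2 s z1 z2 hs ?_ q3 q4 (hal _ hXR) h1 h2
      rcases hs with rfl | rfl
      · rw [sub_zero]; exact q1
      · exact q2
    have ba1 : |a1| ≤ M := by linarith
    have ba2 : |a2| ≤ M := by linarith
    have bb1 : |b1| ≤ M := by linarith
    have bb2 : |b2| ≤ M := by linarith
    have bag := (bd g (Or.inr rfl)).1
    have bbg := (bd g (Or.inr rfl)).2.1
    by_cases hbig : ∀ s', (s' = 0 ∨ s' = g) → 5 * M ^ 2 * |y| ≤ |x - s'|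
    · -- `a b` is uncovered
      have noab : ∀ s, (s = 0 ∨ s = g) → ∀ z, Col (a1, a2) (b1, b2) z → ¬ Col (s, 0) (x, y) z := by
        intro s hs z h1 h2
        obtain ⟨z1, z2⟩ := z
        obtain ⟨f1, f2, f3⟩ := bd s hs
        refine ii_noab (a1 := a1 - s) (a2 := a2) (b1 := b1 - s) (b2 := b2) (x := x - s) (y := y)
          (z1 := z1 - s) (z2 := z2) hM f1 ba2 f2 bb2 hab (bD s hs) hy (hbig s hs) ?_ ?_
        · unfold Col at h1
          simp only at h1
          linear_combination h1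
        · unfold Col at h2
          simp only at h2
          linear_combination h2
      have Uab : Uncov R B (a1, a2) (b1, b2) := by
        intro z hz _ _ u hu v hv hne hcz
        rcases Bm u hu with rfl | rfl | rfl
        · rcases Bm v hv with rfl | rfl | rfl
          · exact absurd rfl hne
          · exact ⟨_, cR, cpq⟩
          · exact absurd hcz (noab 0 (Or.inl rfl) z hz)
        · rcases Bm v hv with rfl | rfl | rfl
          · exact ⟨_, cR, cpq.swap12⟩
          · exact absurd rfl hne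
          · exact absurd hcz (noab g (Or.inr rfl) z hz)
        · rcases Bm v hv with rfl | rfl | rfl
          · exact absurd hcz.swap12 (noab 0 (Or.inl rfl) z hz)
          · exact absurd hcz.swap12 (noab g (Or.inr rfl) z hz)
          · exact absurd rfl hne
      have nopar : ∀ s, (s = 0 ∨ s = g) → ¬ Par (a1, a2) (b1, b2) (s, 0) (x, y) := by
        intro s hs hp
        obtain ⟨f1, f2, f3⟩ := bd s hs
        refine ii_nopar (a1 := a1 - s) (a2 := a2) (b1 := b1 - s) (b2 := b2) (x := x - s) (y := y)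
          hM f1 f2 hab hy (hbig s hs) ?_
        unfold Par at hp
        simp only at hp
        linear_combination hp
      -- hits give the second non-parallelity
      have nopar2 : ∀ X1 X2 Y1 Y2 s : ℤ, (s = 0 ∨ s = g) → |X1 - s| ≤ M → |X2| ≤ M →
          |Y1 - s| ≤ M → |Y2| ≤ M → X2 ≠ 0 → Y2 ≠ 0 → X2 ≠ Y2 →
          (Y1 - s) * X2 - Y2 * (X1 - s) ≠ 0 →
          (∃ z, Col (X1, X2) (N, 0) z ∧ z ∉ R ∧ Col (s, 0) (x, y) z) →
          ¬ Par (N, 0) (Y1, Y2) (s, 0) (x, y) := by
        intro X1 X2 Y1 Y2 s hs f1 f2 f3 f4 f5 f6 f7 f8 hz hp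
        obtain ⟨⟨z1, z2⟩, h1, _, h2⟩ := hz
        refine ii_nopar2 (a1 := X1 - s) (a2 := X2) (b1 := Y1 - s) (b2 := Y2) (x := x - s) (y := y)
          (N := N - s) (η := z2) hM f1 f2 f3 f4 f5 f6 f7 f8 hy ?_ (key X1 X2 s z1 z2 h1 h2) ?_
        · have := (bd s hs).2.2
          have := le_abs_self s
          linarith
        · unfold Par at hp
          simp only at hp
          linear_combination hp
      -- which of the four incidences fails?
      have four : (∃ s, (s = 0 ∨ s = g) ∧ ∀ z, Col (a1, a2) (N, 0) z → z ∉ R →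
            Col (s, 0) (x, y) z → ∃ w ∈ R, Col (s, 0) (x, y) w) ∨
          (∃ s, (s = 0 ∨ s = g) ∧ ∀ z, Col (b1, b2) (N, 0) z → z ∉ R →
            Col (s, 0) (x, y) z → ∃ w ∈ R, Col (s, 0) (x, y) w) := by
        by_contra hcon
        rw [not_or] at hcon
        obtain ⟨c1, c2⟩ := hcon
        have ex : ∀ X1 X2 s : ℤ, (¬ ∀ z, Col (X1, X2) (N, 0) z → z ∉ R →
            Col (s, 0) (x, y) z → ∃ w ∈ R, Col (s, 0) (x, y) w) →
            ∃ z1 z2 : ℤ, Col (X1, X2) (N, 0) (z1, z2) ∧ Col (s, 0) (x, y) (z1, z2) := by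
          intro X1 X2 s h
          rw [not_forall] at h
          obtain ⟨⟨z1, z2⟩, hz⟩ := h
          rw [Classical.not_imp] at hz
          obtain ⟨h1, hz⟩ := hz
          rw [Classical.not_imp] at hz
          obtain ⟨_, hz⟩ := hz
          rw [Classical.not_imp] at hz
          exact ⟨z1, z2, h1, hz.1⟩
        obtain ⟨u1, η1, p1, p1'⟩ := ex a1 a2 0 (fun h => c1 ⟨0, Or.inl rfl, h⟩)
        obtain ⟨u2, η2, p2, p2'⟩ := ex a1 a2 g (fun h => c1 ⟨g, Or.inr rfl, h⟩)
        obtain ⟨u3, η3, p3, p3'⟩ := ex b1 b2 0 (fun h => c2 ⟨0, Or.inl rfl, h⟩)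
        obtain ⟨u4, η4, p4, p4'⟩ := ex b1 b2 g (fun h => c2 ⟨g, Or.inr rfl, h⟩)
        have k1 := key a1 a2 0 u1 η1 p1 p1'
        have k2 := key a1 a2 g u2 η2 p2 p2'
        have k3 := key b1 b2 0 u3 η3 p3 p3'
        have k4 := key b1 b2 g u4 η4 p4 p4'
        simp only [sub_zero] at k1 k3
        exact ii_four hM ba1 ba2 bb1 bb2 (by linarith) hg ha2 hb2 hab hy (by linarith) k1 k2 k3 k4
          (kne a1 a2 g u2 η2 hac p2 p2') (kne b1 b2 g u4 η4 hbc p4 p4')
      have s0r : ((0 : ℤ), (0 : ℤ)) ≠ (x, y) := Ne.symm hr1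
      have sgr : ((g : ℤ), (0 : ℤ)) ≠ (x, y) := Ne.symm hr2
      rcases four with ⟨s, hs, hno⟩ | ⟨s, hs, hno⟩
      · rcases hs with rfl | rfl
        · -- `0` misses `a c`
          refine ii_fin (X := (a1, a2)) (Y := (b1, b2)) (c := (N, 0)) (r := (x, y))
            (β := (g, 0)) (β' := (0, 0)) hNT hBR Bm' Aab Uab Aac Abc.symm hcol cpq.swap12 sgr
            hno ?_
          intro hz _
          exact ⟨nopar g (Or.inr rfl), nopar2 a1 a2 b1 b2 g (Or.inr rfl) bag ba2 bbg bb2 ha2 hb2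
            hab hDq hz⟩
        · refine ii_fin (X := (a1, a2)) (Y := (b1, b2)) (c := (N, 0)) (r := (x, y))
            (β := (0, 0)) (β' := (s, 0)) hNT hBR Bm Aab Uab Aac Abc.symm hcol cpq s0r
            hno ?_
          intro hz _
          exact ⟨nopar 0 (Or.inl rfl), nopar2 a1 a2 b1 b2 0 (Or.inl rfl) (by rwa [sub_zero]) ba2
            (by rwa [sub_zero]) bb2 ha2 hb2 hab (by simpa using hDp) hz⟩
      · have hcol' : ¬ Col (b1, b2) (a1, a2) (N, 0) := fun h => hcol h.swap12
        rcases hs with rfl | rfl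
        · refine ii_fin (X := (b1, b2)) (Y := (a1, a2)) (c := (N, 0)) (r := (x, y))
            (β := (g, 0)) (β' := (0, 0)) hNT hBR Bm' Aab.symm Uab.symm Abc Aac.symm hcol'
            cpq.swap12 sgr hno ?_
          intro hz _
          exact ⟨fun hp => nopar g (Or.inr rfl) hp.swap_left,
            nopar2 b1 b2 a1 a2 g (Or.inr rfl) bbg bb2 bag ba2 hb2 ha2 hab.symm
              (by intro h; apply hDq; linarith) hz⟩
        · refine ii_fin (X := (b1, b2)) (Y := (a1, a2)) (c := (N, 0)) (r := (x, y))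
            (β := (0, 0)) (β' := (s, 0)) hNT hBR Bm Aab.symm Uab.symm Abc Aac.symm hcol'
            cpq s0r hno ?_
          intro hz _
          exact ⟨fun hp => nopar 0 (Or.inl rfl) hp.swap_left,
            nopar2 b1 b2 a1 a2 0 (Or.inl rfl) (by rwa [sub_zero]) bb2
            (by rwa [sub_zero]) ba2 hb2 ha2 hab.symm (by intro h; apply hDp; linarith) hz⟩
    · -- no hits on `a c`, `b c`
      have noc : ∀ X1 X2 : ℤ, ((X1, X2) : Pt) ∈ R → |X1| ≤ M → |X1 - g| ≤ M → |X2| ≤ M →
          X2 ≠ 0 → Uncov R B (X1, X2) (N, 0) := by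
        intro X1 X2 hXR q1 q2 q3 q4 z hz hzR _ u hu v hv hne hcz
        by_contra hcon
        have nd : ∀ s, (s = 0 ∨ s = g) → Col (s, 0) (x, y) z → ∃ w ∈ R, Col (s, 0) (x, y) w := by
          intro s hs h
          by_contra hc2
          apply hbig
          exact hitc X1 X2 hXR q1 q2 q3 q4 s hs ⟨z, hz, hzR, h⟩
            (fun w hw hw' => hc2 ⟨w, hw, hw'⟩)
        apply hcon
        rcases Bm u hu with rfl | rfl | rfl
        · rcases Bm v hv with rfl | rfl | rfl
          · exact absurd rfl hne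
          · exact ⟨_, cR, cpq⟩
          · exact nd 0 (Or.inl rfl) hcz
        · rcases Bm v hv with rfl | rfl | rfl
          · exact ⟨_, cR, cpq.swap12⟩
          · exact absurd rfl hne
          · exact nd g (Or.inr rfl) hcz
        · rcases Bm v hv with rfl | rfl | rfl
          · obtain ⟨w, hw, hw'⟩ := nd 0 (Or.inl rfl) hcz.swap12
            exact ⟨w, hw, hw'.swap12⟩
          · obtain ⟨w, hw, hw'⟩ := nd g (Or.inr rfl) hcz.swap12
            exact ⟨w, hw, hw'.swap12⟩
          · exact absurd rfl hne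
      exact w0_tri (o := (N, 0)) (a := (a1, a2)) (b := (b1, b2)) hNT hBR Aac.symm
        (noc a1 a2 aR ba1 bag ba2 ha2).symm Abc.symm (noc b1 b2 bR bb1 bbg bb2 hb2).symm
        Aab.symm (fun h => hcol h.rot)

end Pool.Agent.K4L
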