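import Pool.Agent.K4L.W0Tri

/-!
# Branch (II), third stone far on `p q`: arithmetic

Coordinates: one blue stone is the origin, `c = (N, 0)`, `a = (a1, a2)`, `b = (b1, b2)`,
`r = (x, y)`; `η` is the height of the point where the line `0 r` meets `a c`.
-/

namespace Pool.Agent.K4L

theorem ii_ratio {a2 η : ℤ} (h1 : η ≠ a2) (ha : a2 ≠ 0) : |η| ≤ 2 * |a2| * |a2 - η| := by
  have g1 := Int.one_le_abs (sub_ne_zero.mpr h1.symm)
  have g2 := Int.one_le_abs ha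
  rcases le_or_gt |η| (2 * |a2|) with h | h
  · nlinarith [abs_nonneg η]
  · have g3 : |η| - |a2| ≤ |a2 - η| := by
      have := abs_sub_abs_le_abs_sub η a2
      rw [abs_sub_comm]; exact this
    nlinarith

/-- the slope of a line through the origin which meets `a c` is small -/
theorem ii_big {a1 a2 x y N η M : ℤ} (hM : 1 ≤ M) (h1 : |a1| ≤ M) (h2 : |a2| ≤ M) (ha : a2 ≠ 0)
    (hy : y ≠ 0) (hA : a2 * x - a1 * y ≠ 0) (hN : 4 * M ^ 2 ≤ N)
    (h : η * (a2 * x - a1 * y + N * y) = N * y * a2) : N * |y| ≤ 4 * M ^ 2 * |x| := by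
  have hN0 : 0 < N := by nlinarith
  have hη0 : η ≠ 0 := by
    rintro rfl
    rw [zero_mul] at h
    exact mul_ne_zero (mul_ne_zero hN0.ne' hy) ha h.symm
  have hηa : η ≠ a2 := by
    rintro rfl
    apply hA
    have : η * (η * x - a1 * y) = 0 := by linear_combination h
    exact (mul_eq_zero.mp this).resolve_left hη0
  have e1 : |η| * |a2 * x - a1 * y| = N * |y| * |a2 - η| := by
    have : η * (a2 * x - a1 * y) = N * y * (a2 - η) := by linear_combination h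
    rw [← abs_mul, this, abs_mul, abs_mul, abs_of_pos hN0]
  have e2 := ii_ratio hηa ha
  have e3 : 0 < |η| := abs_pos.mpr hη0
  have e4 : |η| * (N * |y|) ≤ |η| * (2 * |a2| * |a2 * x - a1 * y|) := by
    have p1 : 0 ≤ N * |y| := mul_nonneg hN0.le (abs_nonneg _)
    calc |η| * (N * |y|) ≤ (2 * |a2| * |a2 - η|) * (N * |y|) := mul_le_mul_of_nonneg_right e2 p1
      _ = 2 * |a2| * (N * |y| * |a2 - η|) := by ring
      _ = 2 * |a2| * (|η| * |a2 * x - a1 * y|) := by rw [e1]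
      _ = |η| * (2 * |a2| * |a2 * x - a1 * y|) := by ring
  have e5 : N * |y| ≤ 2 * |a2| * |a2 * x - a1 * y| := le_of_mul_le_mul_left e4 e3
  have e6 : |a2 * x - a1 * y| ≤ M * |x| + M * |y| := by
    have := abs_sub (a2 * x) (a1 * y)
    rw [abs_mul, abs_mul] at this
    have q1 := mul_le_mul_of_nonneg_right h2 (abs_nonneg x)
    have q2 := mul_le_mul_of_nonneg_right h1 (abs_nonneg y)
    linarith
  have e7 : N * |y| ≤ 2 * M * (M * |x| + M * |y|) := by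
    refine le_trans e5 ?_
    have := abs_nonneg a2
    have p : 0 ≤ M * |x| + M * |y| := by positivity
    nlinarith [abs_nonneg (a2 * x - a1 * y)]
  nlinarith [abs_nonneg x, abs_nonneg y]

/-- a line through the origin of small slope does not meet the near line `a b` -/
theorem ii_noab {a1 a2 b1 b2 x y z1 z2 M : ℤ} (hM : 1 ≤ M) (h1 : |a1| ≤ M) (h2 : |a2| ≤ M)
    (h3 : |b1| ≤ M) (h4 : |b2| ≤ M) (hab : a2 ≠ b2) (hD : b1 * a2 - b2 * a1 ≠ 0) (hy : y ≠ 0)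
    (hbig : 5 * M ^ 2 * |y| ≤ |x|) (hz : (b1 - a1) * (z2 - a2) = (b2 - a2) * (z1 - a1))
    (hz' : x * z2 = y * z1) : False := by
  have e1 : z2 * ((b1 - a1) * y - (b2 - a2) * x) = y * (b1 * a2 - b2 * a1) := by
    linear_combination y * hz + (b2 - a2) * (-hz')
  have hz20 : z2 ≠ 0 := by
    rintro rfl
    rw [zero_mul] at e1
    exact mul_ne_zero hy hD e1.symm
  have g1 := Int.one_le_abs hz20
  have g2 := Int.one_le_abs (sub_ne_zero.mpr hab.symm)
  have g3 := Int.one_le_abs hy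
  have e2 : |z2| * |(b1 - a1) * y - (b2 - a2) * x| = |y| * |b1 * a2 - b2 * a1| := by
    rw [← abs_mul, e1, abs_mul]
  have e3 : |(b1 - a1) * y - (b2 - a2) * x| ≤ |y| * |b1 * a2 - b2 * a1| := by
    nlinarith [abs_nonneg ((b1 - a1) * y - (b2 - a2) * x)]
  have e4 : |b1 * a2 - b2 * a1| ≤ 2 * M ^ 2 := by
    have := abs_sub (b1 * a2) (b2 * a1)
    rw [abs_mul, abs_mul] at this
    have q1 : |b1| * |a2| ≤ M * M := mul_le_mul h3 h2 (abs_nonneg _) (by linarith)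
    have q2 : |b2| * |a1| ≤ M * M := mul_le_mul h4 h1 (abs_nonneg _) (by linarith)
    nlinarith
  have e5 : |(b2 - a2) * x| - |(b1 - a1) * y| ≤ |(b1 - a1) * y - (b2 - a2) * x| := by
    have := abs_sub_abs_le_abs_sub ((b2 - a2) * x) ((b1 - a1) * y)
    rw [abs_sub_comm ((b1 - a1) * y)]
    exact this
  have e6 : |b1 - a1| ≤ 2 * M := by
    have := abs_sub b1 a1
    linarith
  rw [abs_mul, abs_mul] at e5
  have e7 : |x| ≤ |b2 - a2| * |x| := by nlinarith [abs_nonneg x]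
  have e8 : |b1 - a1| * |y| ≤ 2 * M * |y| := mul_le_mul_of_nonneg_right e6 (abs_nonneg _)
  have e9 : |x| ≤ 2 * M * |y| + 2 * M ^ 2 * |y| := by nlinarith
  have e10 : 2 * M + 2 * M ^ 2 < 5 * M ^ 2 := by nlinarith
  have e11 : (2 * M + 2 * M ^ 2) * |y| < 5 * M ^ 2 * |y| :=
    mul_lt_mul_of_pos_right e10 (by linarith)
  linarith

/-- a line through the origin of small slope is not parallel to `a b` -/
theorem ii_nopar {a1 a2 b1 b2 x y M : ℤ} (hM : 1 ≤ M) (h1 : |a1| ≤ M)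
    (h3 : |b1| ≤ M) (hab : a2 ≠ b2) (hy : y ≠ 0)
    (hbig : 5 * M ^ 2 * |y| ≤ |x|) (hz : (b1 - a1) * y = (b2 - a2) * x) : False := by
  have g2 := Int.one_le_abs (sub_ne_zero.mpr hab.symm)
  have g3 := Int.one_le_abs hy
  have e6 : |b1 - a1| ≤ 2 * M := by
    have := abs_sub b1 a1
    linarith
  have e1 : |b1 - a1| * |y| = |b2 - a2| * |x| := by rw [← abs_mul, ← abs_mul, hz]
  have e8 : |b1 - a1| * |y| ≤ 2 * M * |y| := mul_le_mul_of_nonneg_right e6 (abs_nonneg _)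
  have e9 : |x| ≤ |b2 - a2| * |x| := by nlinarith [abs_nonneg x]
  have e10 : 2 * M < 5 * M ^ 2 := by nlinarith
  have e11 : (2 * M) * |y| < 5 * M ^ 2 * |y| := mul_lt_mul_of_pos_right e10 (by linarith)
  linarith

/-- a line which meets `a c` is not parallel to `b c` -/
theorem ii_nopar2 {a1 a2 b1 b2 x y N η M : ℤ} (hM : 1 ≤ M) (h1 : |a1| ≤ M) (h2 : |a2| ≤ M)
    (h3 : |b1| ≤ M) (h4 : |b2| ≤ M) (ha : a2 ≠ 0) (hb : b2 ≠ 0) (hab : a2 ≠ b2)
    (hD : b1 * a2 - b2 * a1 ≠ 0) (hy : y ≠ 0) (hN : 20 * M ^ 4 ≤ N)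
    (h : η * (a2 * x - a1 * y + N * y) = N * y * a2) (hp : (b1 - N) * y = b2 * x) : False := by
  have hM2 : M ≤ M ^ 2 := by nlinarith
  have hM4 : M ^ 2 ≤ M ^ 4 := by nlinarith
  have hN0 : 0 < N := by nlinarith
  have e1 : N * (η * (b2 - a2) - a2 * b2) = η * (b2 * a1 - b1 * a2) := by
    apply mul_left_cancel₀ hy
    linear_combination b2 * h + (a2 * η) * hp
  have hη0 : η ≠ 0 := by
    rintro rfl
    rw [zero_mul] at h
    exact mul_ne_zero (mul_ne_zero hN0.ne' hy) ha h.symm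
  have hk0 : η * (b2 - a2) - a2 * b2 ≠ 0 := by
    intro h0
    rw [h0, mul_zero] at e1
    have : b2 * a1 - b1 * a2 ≠ 0 := by
      intro h'; apply hD; linarith
    exact mul_ne_zero hη0 this e1.symm
  have g1 := Int.one_le_abs hk0
  have g2 := Int.one_le_abs (sub_ne_zero.mpr hab.symm)
  have e4 : |b2 * a1 - b1 * a2| ≤ 2 * M ^ 2 := by
    have := abs_sub (b2 * a1) (b1 * a2)
    rw [abs_mul, abs_mul] at this
    have q1 : |b1| * |a2| ≤ M * M := mul_le_mul h3 h2 (abs_nonneg _) (by linarith)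
    have q2 : |b2| * |a1| ≤ M * M := mul_le_mul h4 h1 (abs_nonneg _) (by linarith)
    nlinarith
  have e5 : |a2 * b2| ≤ M ^ 2 := by
    rw [abs_mul]
    have : |a2| * |b2| ≤ M * M := mul_le_mul h2 h4 (abs_nonneg _) (by linarith)
    nlinarith
  have e6 : N * |η * (b2 - a2) - a2 * b2| = |η| * |b2 * a1 - b1 * a2| := by
    rw [← abs_mul, ← e1, abs_mul, abs_of_pos hN0]
  have e7 : |η| - M ^ 2 ≤ |η * (b2 - a2) - a2 * b2| := by
    have := abs_sub_abs_le_abs_sub (η * (b2 - a2)) (a2 * b2)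
    rw [abs_mul] at this
    nlinarith [abs_nonneg η]
  have e8 : |η| * |b2 * a1 - b1 * a2| ≤ |η| * (2 * M ^ 2) :=
    mul_le_mul_of_nonneg_left e4 (abs_nonneg _)
  -- `|η| ≤ 2 M^2`
  have e9 : |η| ≤ 2 * M ^ 2 := by
    by_contra hc
    rw [not_le] at hc
    have : |η| ≤ 2 * (|η| - M ^ 2) := by linarith
    have h5 : N * |η| ≤ 2 * (|η| * (2 * M ^ 2)) := by nlinarith
    have h6 : 0 < |η| := by nlinarith
    have h7 : N ≤ 4 * M ^ 2 := by
      apply le_of_mul_le_mul_right _ h6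
      linarith
    nlinarith
  have h8 : N ≤ |η| * (2 * M ^ 2) := by nlinarith
  nlinarith

/-- not all four incidences -/
theorem ii_four {a1 a2 b1 b2 x y g N η1 η2 η3 η4 M : ℤ} (hM : 1 ≤ M) (h1 : |a1| ≤ M)
    (h2 : |a2| ≤ M) (h3 : |b1| ≤ M) (h4 : |b2| ≤ M) (hg : |g| ≤ M) (hg0 : g ≠ 0) (ha : a2 ≠ 0) (hb : b2 ≠ 0)
    (hab : a2 ≠ b2) (hy : y ≠ 0) (hN : 400 * M ^ 6 ≤ N)
    (e1 : η1 * (a2 * x - a1 * y + N * y) = N * y * a2)
    (e2 : η2 * (a2 * (x - g) - (a1 - g) * y + (N - g) * y) = (N - g) * y * a2)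
    (e3 : η3 * (b2 * x - b1 * y + N * y) = N * y * b2)
    (e4 : η4 * (b2 * (x - g) - (b1 - g) * y + (N - g) * y) = (N - g) * y * b2)
    (n1 : η2 ≠ y) (n2 : η4 ≠ y) : False := by
  have hM2 : 1 ≤ M ^ 2 := by nlinarith
  have hM4 : M ^ 2 ≤ M ^ 4 := by nlinarith
  have hM6 : M ^ 4 ≤ M ^ 6 := by nlinarith
  have hN0 : 0 < N := by nlinarith
  have gy := Int.one_le_abs hy
  -- one side: `|η| ≥ 4 M^2`
  have side : ∀ c1 c2 ξ1 ξ2 : ℤ, c2 ≠ 0 → ξ1 * (c2 * x - c1 * y + N * y) = N * y * c2 →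
      ξ2 * (c2 * (x - g) - (c1 - g) * y + (N - g) * y) = (N - g) * y * c2 → ξ2 ≠ y →
      4 * M ^ 2 ≤ |ξ1| := by
    intro c1 c2 ξ1 ξ2 hc f1 f2 hne
    have k1 : N * y * (ξ1 - ξ2) = g * ξ1 * (y - ξ2) := by
      apply mul_left_cancel₀ hc
      linear_combination ξ2 * f1 - ξ1 * f2
    have hξ1 : ξ1 ≠ 0 := by
      rintro rfl
      rw [zero_mul] at f1
      exact mul_ne_zero (mul_ne_zero hN0.ne' hy) hc f1.symm
    have hξne : ξ1 ≠ ξ2 := by
      intro h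
      rw [h, sub_self, mul_zero] at k1
      rcases mul_eq_zero.mp k1.symm with h' | h'
      · rcases mul_eq_zero.mp h' with h'' | h''
        · exact hg0 h''
        · rw [← h] at h''; exact hξ1 h''
      · apply hne; linarith
    by_contra hcon
    rw [not_le] at hcon
    have k2 : N * |y| * |ξ1 - ξ2| = |g| * |ξ1| * |y - ξ2| := by
      rw [← abs_mul, ← abs_mul, ← k1, abs_mul, abs_mul, abs_of_pos hN0]
    have k3 := Int.one_le_abs (sub_ne_zero.mpr hξne)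
    have k4 : |y - ξ2| ≤ |y| + |ξ2| := abs_sub _ _
    have k5 : |g| * |ξ1| ≤ M * (4 * M ^ 2) :=
      mul_le_mul hg hcon.le (abs_nonneg _) (by linarith)
    have k6 : |ξ2| ≤ |ξ1| + |ξ1 - ξ2| := by
      have := abs_sub_abs_le_abs_sub ξ2 ξ1
      rw [abs_sub_comm ξ2 ξ1] at this
      linarith
    have k7 : |y - ξ2| ≤ |y| * (1 + 4 * M ^ 2 + |ξ1 - ξ2|) := by
      have k7a : 4 * M ^ 2 + |ξ1 - ξ2| ≤ |y| * (4 * M ^ 2 + |ξ1 - ξ2|) :=
        le_mul_of_one_le_left (by positivity) gy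
      linarith
    have k8 : |g| * |ξ1| * |y - ξ2| ≤ (M * (4 * M ^ 2)) * (|y| * (1 + 4 * M ^ 2 + |ξ1 - ξ2|)) :=
      mul_le_mul k5 k7 (abs_nonneg _) (by positivity)
    have k9 : |y| * (N * |ξ1 - ξ2|) ≤ |y| * ((4 * M ^ 3) * (1 + 4 * M ^ 2 + |ξ1 - ξ2|)) := by
      calc |y| * (N * |ξ1 - ξ2|) = N * |y| * |ξ1 - ξ2| := by ring
        _ = |g| * |ξ1| * |y - ξ2| := k2
        _ ≤ _ := k8
        _ = _ := by ring
    have k10 := le_of_mul_le_mul_left k9 (by linarith)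
    have k11 : (4 * M ^ 3) * (1 + 4 * M ^ 2 + |ξ1 - ξ2|) ≤ 24 * M ^ 5 * |ξ1 - ξ2| := by
      have p1 : M ^ 3 ≤ M ^ 5 := pow_le_pow_right₀ hM (by norm_num)
      have p2 : 0 ≤ M ^ 5 := by positivity
      have p3 : 0 ≤ M ^ 3 := by positivity
      have p5 : 4 * M ^ 3 + 16 * M ^ 5 ≤ (4 * M ^ 3 + 16 * M ^ 5) * |ξ1 - ξ2| :=
        le_mul_of_one_le_right (by positivity) k3
      have p6 : 4 * M ^ 3 * |ξ1 - ξ2| ≤ 4 * M ^ 5 * |ξ1 - ξ2| :=
        mul_le_mul_of_nonneg_right (by linarith) (abs_nonneg _)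
      linarith
    have p4 : 24 * M ^ 5 < N := by
      have : M ^ 5 ≤ M ^ 6 := pow_le_pow_right₀ hM (by norm_num)
      have p5 : 0 < M ^ 5 := by positivity
      linarith
    have p7 : 24 * M ^ 5 * |ξ1 - ξ2| < N * |ξ1 - ξ2| :=
      mul_lt_mul_of_pos_right p4 (by linarith)
    linarith
  have L1 := side a1 a2 η1 η2 ha e1 e2 n1
  have L3 := side b1 b2 η3 η4 hb e3 e4 n2
  have k1 : η1 * η3 * ((b1 * a2 - b2 * a1) + N * (b2 - a2)) = N * (a2 * b2) * (η3 - η1) := by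
    apply mul_left_cancel₀ hy
    linear_combination (η3 * b2) * e1 - (η1 * a2) * e3
  have q4 : |b1 * a2 - b2 * a1| ≤ 2 * M ^ 2 := by
    have := abs_sub (b1 * a2) (b2 * a1)
    rw [abs_mul, abs_mul] at this
    have q1 : |b1| * |a2| ≤ M * M := mul_le_mul h3 h2 (abs_nonneg _) (by linarith)
    have q2 : |b2| * |a1| ≤ M * M := mul_le_mul h4 h1 (abs_nonneg _) (by linarith)
    linarith
  have q5 : |a2 * b2| ≤ M ^ 2 := by
    rw [abs_mul]
    have : |a2| * |b2| ≤ M * M := mul_le_mul h2 h4 (abs_nonneg _) (by linarith)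
    linarith
  have g2 := Int.one_le_abs (sub_ne_zero.mpr hab.symm)
  have q6 : N - 2 * M ^ 2 ≤ |(b1 * a2 - b2 * a1) + N * (b2 - a2)| := by
    have := tri_lo2 (N * (b2 - a2)) (b1 * a2 - b2 * a1)
    rw [abs_mul, abs_of_pos hN0, add_comm] at this
    have q7 : N ≤ N * |b2 - a2| := le_mul_of_one_le_right hN0.le g2
    linarith
  have p1 := abs_nonneg η1
  have p3 := abs_nonneg η3
  have k2 : |η1| * |η3| * |(b1 * a2 - b2 * a1) + N * (b2 - a2)| = N * |a2 * b2| * |η3 - η1| := by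
    rw [← abs_mul, ← abs_mul, k1, abs_mul, abs_mul, abs_of_pos hN0]
  have k3 : |η3 - η1| ≤ |η3| + |η1| := abs_sub _ _
  have k4 : N * |a2 * b2| * |η3 - η1| ≤ N * (M ^ 2 * (|η3| + |η1|)) := by
    have : |a2 * b2| * |η3 - η1| ≤ M ^ 2 * (|η3| + |η1|) :=
      mul_le_mul q5 k3 (abs_nonneg _) (by positivity)
    calc N * |a2 * b2| * |η3 - η1| = N * (|a2 * b2| * |η3 - η1|) := by ring
      _ ≤ _ := mul_le_mul_of_nonneg_left this hN0.le
  have k5 : 4 * (M ^ 2 * (|η3| + |η1|)) ≤ 2 * (|η1| * |η3|) := by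
    have k5a := mul_le_mul_of_nonneg_right L1 p3
    have k5b := mul_le_mul_of_nonneg_right L3 p1
    linarith
  have k6 : |η1| * |η3| * (N - 2 * M ^ 2) ≤
      |η1| * |η3| * |(b1 * a2 - b2 * a1) + N * (b2 - a2)| :=
    mul_le_mul_of_nonneg_left q6 (mul_nonneg p1 p3)
  have k7 : 0 < |η1| * |η3| := by
    apply mul_pos <;> linarith
  have k8 : 4 * (|η1| * |η3| * (N - 2 * M ^ 2)) ≤ N * (2 * (|η1| * |η3|)) := by
    have : N * (4 * (M ^ 2 * (|η3| + |η1|))) ≤ N * (2 * (|η1| * |η3|)) :=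
      mul_le_mul_of_nonneg_left k5 hN0.le
    linarith
  have k9 : 4 * (N - 2 * M ^ 2) ≤ 2 * N := by
    apply le_of_mul_le_mul_left _ k7
    linarith
  linarith

end Pool.Agent.K4L
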