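import Pool.Agent.K4L.TwoGenB

/-!
# Branch (II): `r` on the line `a b`: the lines `c a`, `c b` are uncovered
-/

namespace Pool.Agent.K4L

theorem ii_hit {M N x y X1 X2 s s' z1 z2 : ℤ} (hM : 1 ≤ M) (hN : 1000 * M ^ 6 ≤ N)
    (hX1 : |X1 - s| ≤ M) (hX2 : |X2| ≤ M) (hX0 : X2 ≠ 0) (hs : |s| ≤ M) (hs' : |s'| ≤ M)
    (hy : y ≠ 0) (hal : ¬ Col (s, 0) (x, y) (X1, X2)) (h1 : Col (X1, X2) (N, 0) (z1, z2))
    (h2 : Col (s, 0) (x, y) (z1, z2)) : 5 * M ^ 2 * |y| ≤ |x - s'| := by
  have hM2 : 1 ≤ M ^ 2 := by nlinarith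
  have hM3 : M ^ 2 ≤ M ^ 3 := by nlinarith
  have hM4 : M ^ 3 ≤ M ^ 4 := by nlinarith [pow_pos (show (0:ℤ) < M by linarith) 3]
  have hM6 : M ^ 4 ≤ M ^ 6 := by nlinarith [pow_pos (show (0:ℤ) < M by linarith) 4]
  have hMM : M ≤ M ^ 2 := by nlinarith
  have key : z2 * (X2 * (x - s) - (X1 - s) * y + (N - s) * y) = (N - s) * y * X2 := by
    unfold Col at h1 h2
    simp only at h1 h2
    linear_combination y * h1 + X2 * h2
  have e1 := ii_big (a1 := X1 - s) (a2 := X2) (x := x - s) (y := y) (N := N - s) (η := z2)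
    hM hX1 hX2 hX0 hy (by
    intro h
    apply hal
    unfold Col
    simp only
    linear_combination h) (by
    have := le_abs_self s
    nlinarith) key
  have g3 := Int.one_le_abs hy
  have f3 : |x - s| ≤ |x - s'| + 2 * M := by
    have : x - s = (x - s') + (s' - s) := by ring
    rw [this]
    refine le_trans (abs_add_le _ _) ?_
    have := abs_sub s' s
    linarith
  have f4 : N - M ≤ N - s := by
    have := le_abs_self s
    linarith
  have f5 : (N - M) * |y| ≤ 4 * M ^ 2 * (|x - s'| + 2 * M) := by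
    calc (N - M) * |y| ≤ (N - s) * |y| := mul_le_mul_of_nonneg_right f4 (abs_nonneg _)
      _ ≤ 4 * M ^ 2 * |x - s| := e1
      _ ≤ _ := mul_le_mul_of_nonneg_left f3 (by positivity)
  have f6 : (20 * M ^ 4 + 8 * M ^ 3) * |y| ≤ (N - M) * |y| :=
    mul_le_mul_of_nonneg_right (by linarith) (abs_nonneg _)
  have f7 : 8 * M ^ 3 ≤ 8 * M ^ 3 * |y| := by
    have : 0 ≤ 8 * M ^ 3 := by positivity
    nlinarith
  have f8 : 4 * M ^ 2 * (5 * M ^ 2 * |y|) ≤ 4 * M ^ 2 * |x - s'| := by
    have : 4 * M ^ 2 * (|x - s'| + 2 * M) = 4 * M ^ 2 * |x - s'| + 8 * M ^ 3 := by ring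
    have h' : 4 * M ^ 2 * (5 * M ^ 2 * |y|) = 20 * M ^ 4 * |y| := by ring
    rw [h']
    linarith
  exact le_of_mul_le_mul_left f8 (by positivity)

/-- `r` on the line `a b` -/
theorem ii_ab_norm {a1 a2 b1 b2 g : ℤ} (hg : g ≠ 0) (ha2 : a2 ≠ 0) (hb2 : b2 ≠ 0)
    (hab : a2 ≠ b2)
    (hDp : b1 * a2 - b2 * a1 ≠ 0) (hDq : (b1 - g) * a2 - b2 * (a1 - g) ≠ 0) :
    ∃ N0 : ℤ, ∀ N : ℤ, N0 ≤ N → ∀ r : Pt, r ≠ (a1, a2) → r ≠ (b1, b2) →
      Col (a1, a2) (b1, b2) r →
      ∀ X ∈ ({(a1, a2), (b1, b2)} : Finset Pt), ∀ z : Pt, Col X (N, 0) z →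
        z ∉ ({(a1, a2), (b1, b2), (N, 0)} : Finset Pt) →
        ∀ u ∈ ({(0, 0), (g, 0), r} : Finset Pt), ∀ v ∈ ({(0, 0), (g, 0), r} : Finset Pt), u ≠ v →
          Col u v z → Col u v (N, 0) := by
  obtain ⟨M, hMdef⟩ : ∃ M : ℤ, M = 1 + |a1| + |a2| + |b1| + |b2| + |g| := ⟨_, rfl⟩
  have n1 := abs_nonneg a1
  have n2 := Int.one_le_abs ha2
  have n3 := abs_nonneg b1
  have n4 := Int.one_le_abs hb2
  have n5 := abs_nonneg g
  have hM : 3 ≤ M := by linarith
  refine ⟨1000 * M ^ 6, ?_⟩
  intro N hN r hra hrb hr X hX z hz hzR u hu v hv huv hc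
  obtain ⟨x, y⟩ := r
  obtain ⟨X1, X2⟩ := X
  obtain ⟨z1, z2⟩ := z
  have hXm : ((X1, X2) : Pt) = (a1, a2) ∨ ((X1, X2) : Pt) = (b1, b2) := by simpa using hX
  have bX : |X1| ≤ M ∧ |X1 - g| ≤ M ∧ |X2| ≤ M ∧ X2 ≠ 0 := by
    rcases hXm with h | h
    · have e1 := congrArg Prod.fst h
      have e2 := congrArg Prod.snd h
      simp only at e1 e2
      rw [e1, e2]
      have := abs_sub a1 g
      exact ⟨by linarith, by linarith, by linarith, ha2⟩
    · have e1 := congrArg Prod.fst h
      have e2 := congrArg Prod.snd h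
      simp only at e1 e2
      rw [e1, e2]
      have := abs_sub b1 g
      exact ⟨by linarith, by linarith, by linarith, hb2⟩
  by_cases hy : y = 0
  · -- all blue stones are on the axis
    have hl : ∀ w ∈ ({(0, 0), (g, 0), (x, y)} : Finset Pt), w.2 = 0 := by
      intro w hw
      simp only [Finset.mem_insert, Finset.mem_singleton] at hw
      rcases hw with rfl | rfl | rfl
      · rfl
      · rfl
      · exact hy
    unfold Col
    rw [hl u hu, hl v hv]; ring
  · -- `x` is not large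
    have hne : ((a1, a2) : Pt) ≠ (b1, b2) := fun h => hab (congrArg Prod.snd h)
    have hx : |x| < 5 * M ^ 2 * |y| := by
      have h1 : |x - a1| ≤ 2 * M * (|y| + M) := by
        have e1 : |b1 - a1| * |y - a2| = |b2 - a2| * |x - a1| := by
          rw [← abs_mul, ← abs_mul]
          unfold Col at hr
          simp only at hr
          rw [hr]
        have g2 := Int.one_le_abs (sub_ne_zero.mpr hab.symm)
        have e2 : |x - a1| ≤ |b2 - a2| * |x - a1| := le_mul_of_one_le_left (abs_nonneg _) g2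
        have e3 : |b1 - a1| ≤ 2 * M := by
          have := abs_sub b1 a1
          linarith
        have e4 : |y - a2| ≤ |y| + M := by
          have := abs_sub y a2
          linarith
        calc |x - a1| ≤ |b1 - a1| * |y - a2| := by rw [e1]; exact e2
          _ ≤ 2 * M * (|y| + M) := mul_le_mul e3 e4 (abs_nonneg _) (by linarith)
      have h2 : |x| ≤ |x - a1| + |a1| := by
        have := abs_add_le (x - a1) a1
        rwa [sub_add_cancel] at this
      have g3 := Int.one_le_abs hy
      have g4 : M * 1 ≤ M * |y| := mul_le_mul_of_nonneg_left g3 (by linarith)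
      have g5 : M ^ 2 * 1 ≤ M ^ 2 * |y| := mul_le_mul_of_nonneg_left g3 (by positivity)
      have g6 : 3 * (M * |y|) ≤ M ^ 2 * |y| := by
        have : M * (3 * |y|) ≤ M * (M * |y|) :=
          mul_le_mul_of_nonneg_left (mul_le_mul_of_nonneg_right hM (abs_nonneg _)) (by linarith)
        have e : M * (M * |y|) = M ^ 2 * |y| := by ring
        linarith
      have e : 2 * M * (|y| + M) = 2 * (M * |y|) + 2 * M ^ 2 := by ring
      have e' : 5 * M ^ 2 * |y| = 5 * (M ^ 2 * |y|) := by ring
      have : 0 < M ^ 2 * |y| := by positivity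
      linarith
    -- a line from `(s, 0)` to `r` does not hit
    have hno : ∀ s : ℤ, (s = 0 ∨ s = g) → ¬ Col (s, 0) (x, y) (z1, z2) := by
      intro s hs hc'
      have hs1 : |X1 - s| ≤ M := by
        rcases hs with rfl | rfl
        · rw [sub_zero]; exact bX.1
        · exact bX.2.1
      have hs2 : |s| ≤ M := by
        rcases hs with rfl | rfl
        · rw [abs_zero]; linarith
        · linarith
      have hsab : ¬ Col (a1, a2) (b1, b2) (s, 0) := by
        intro h
        unfold Col at h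
        simp only at h
        rcases hs with rfl | rfl
        · apply hDp; linear_combination -h
        · apply hDq; linear_combination -h
      have hal : ¬ Col (s, 0) (x, y) (X1, X2) := by
        intro h
        apply hsab
        have hrX : ((x, y) : Pt) ≠ (X1, X2) := by
          rcases hXm with h' | h'
          · rw [h']; exact hra
          · rw [h']; exact hrb
        have hXab : Col (a1, a2) (b1, b2) (X1, X2) := by
          rcases hXm with h' | h'
          · rw [h']; exact Col.refl_left _ _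
          · rw [h']; exact Col.refl_right _ _
        exact (Col.line_iff hne hrX hr hXab).mpr h.rot
      have := ii_hit (s' := 0) (by linarith) hN hs1 bX.2.2.1 bX.2.2.2 hs2
        (by rw [abs_zero]; linarith) hy hal hz hc'
      rw [sub_zero] at this
      linarith
    have hB : ∀ w ∈ ({(0, 0), (g, 0), (x, y)} : Finset Pt), (∃ s, (s = 0 ∨ s = g) ∧
        w = (s, 0)) ∨ w = (x, y) := by
      intro w hw
      simp only [Finset.mem_insert, Finset.mem_singleton] at hw
      rcases hw with rfl | rfl | rfl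
      · exact Or.inl ⟨0, Or.inl rfl, rfl⟩
      · exact Or.inl ⟨g, Or.inr rfl, rfl⟩
      · exact Or.inr rfl
    rcases hB u hu with ⟨s, hs, rfl⟩ | rfl
    · rcases hB v hv with ⟨s', hs', rfl⟩ | rfl
      · unfold Col; simp
      · exact absurd hc (hno s hs)
    · rcases hB v hv with ⟨s', hs', rfl⟩ | rfl
      · exact absurd hc.swap12 (hno s' hs')
      · exact absurd rfl huv

end Pool.Agent.K4L
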